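import Mathlib

set_option autoImplicit false

namespace Pool.Agent.H86.Roe

open Finset Equiv

section count
variable {α : Type} [Fintype α] [DecidableEq α]

theorem desc_ratio (t m : ℕ) (h : t ≤ m) (s : ℕ) :
    t.descFactorial s * m ^ s ≤ t ^ s * m.descFactorial s := by
  induction s with
  | zero => simp
  | succ s ih =>
    rw [Nat.descFactorial_succ, Nat.descFactorial_succ, pow_succ, pow_succ]
    have h1 : (t - s) * m ≤ t * (m - s) := by
      rw [Nat.sub_mul, Nat.mul_sub, mul_comm t s]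
      exact Nat.sub_le_sub_left (Nat.mul_le_mul_left _ h) _
    calc (t - s) * t.descFactorial s * (m ^ s * m)
        = ((t - s) * m) * (t.descFactorial s * m ^ s) := by ring
      _ ≤ (t * (m - s)) * (t ^ s * m.descFactorial s) := Nat.mul_le_mul h1 ih
      _ = _ := by ring

theorem card_perm_le (S T : Finset α) :
    #{σ : Perm α | ∀ a ∈ S, σ a ∈ T} ≤
      (#T).descFactorial #S * (Fintype.card α - #S).factorial := by
  classical
  let f : {σ : Perm α // ∀ a ∈ S, σ a ∈ T} →
      (Σ e : (S ↪ T), ({a // a ∉ S} ↪ {b // b ∉ univ.image (fun a : S => (e a : α))})) :=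
    fun σ => ⟨⟨fun a => ⟨σ.1 a, σ.2 a a.2⟩, fun a b h => by
        apply Subtype.ext; exact σ.1.injective (congrArg Subtype.val h)⟩,
      ⟨fun a => ⟨σ.1 a, by
        simp only [mem_image, mem_univ, true_and, not_exists]
        intro b hb
        have : (b : α) = a := σ.1.injective hb
        exact a.2 (this ▸ b.2)⟩, fun a b h => by
        apply Subtype.ext; exact σ.1.injective (congrArg Subtype.val h)⟩⟩
  have hf : Function.Injective f := by
    intro σ τ h
    apply Subtype.ext
    ext a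
    have h1 : (f σ).1 = (f τ).1 := congrArg Sigma.fst h
    by_cases ha : a ∈ S
    · exact congrArg Subtype.val (DFunLike.congr_fun h1 ⟨a, ha⟩)
    · have h2 := congrArg (fun z : (Σ e : (S ↪ T),
        ({a // a ∉ S} ↪ {b // b ∉ univ.image (fun a : S => (e a : α))})) => (z.2 ⟨a, ha⟩ : α)) h
      exact h2
  have h3 := Fintype.card_le_of_injective f hf
  rw [Fintype.card_subtype, Fintype.card_sigma] at h3
  refine h3.trans (le_of_eq ?_)
  have h4 : ∀ e : (S ↪ T), Fintype.card
      ({a // a ∉ S} ↪ {b // b ∉ univ.image (fun a : S => (e a : α))}) =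
      (Fintype.card α - #S).factorial := by
    intro e
    rw [Fintype.card_embedding_eq, Fintype.card_subtype_compl, Fintype.card_subtype_compl]
    have : #(univ.image (fun a : S => (e a : α))) = #S := by
      rw [card_image_of_injective (f := fun a : S => (e a : α)) _
        (Subtype.val_injective.comp e.injective)]
      simp
    rw [Fintype.card_coe, Fintype.card_coe, this, Nat.descFactorial_self]
  rw [sum_congr rfl fun e _ => h4 e]
  simp

theorem perm_prob (S T : Finset α) :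
    (#{σ : Perm α | ∀ a ∈ S, σ a ∈ T} : ℝ) ≤
      ((#T : ℝ) / Fintype.card α) ^ #S * (Fintype.card α).factorial := by
  rcases Nat.eq_zero_or_pos (Fintype.card α) with h0 | h0
  · have : IsEmpty α := Fintype.card_eq_zero_iff.mp h0
    have hS : S = ∅ := Subsingleton.elim _ _
    subst hS
    simp
  have hs : #S ≤ Fintype.card α := card_le_univ S
  have h1 := card_perm_le S T
  have h2 := desc_ratio (#T) (Fintype.card α) (card_le_univ T) (#S)
  have h3 := Nat.factorial_mul_descFactorial hs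
  have h4 : #{σ : Perm α | ∀ a ∈ S, σ a ∈ T} * (Fintype.card α) ^ #S ≤
      (#T) ^ #S * (Fintype.card α).factorial := by
    calc _ ≤ ((#T).descFactorial #S * (Fintype.card α - #S).factorial) *
          (Fintype.card α) ^ #S := Nat.mul_le_mul_right _ h1
      _ = ((#T).descFactorial #S * (Fintype.card α) ^ #S) * (Fintype.card α - #S).factorial := by
          ring
      _ ≤ ((#T) ^ #S * (Fintype.card α).descFactorial #S) * (Fintype.card α - #S).factorial :=
          Nat.mul_le_mul_right _ h2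
      _ = _ := by rw [← h3]; ring
  have hm : (0 : ℝ) < Fintype.card α := by exact_mod_cast h0
  rw [div_pow, div_mul_eq_mul_div, le_div_iff₀ (by positivity)]
  exact_mod_cast h4

variable {I : Type} [Fintype I] [DecidableEq I]

theorem prob_E (E : Finset (I × α)) (T : Finset α) :
    (#{ω : I → Perm α | ∀ e ∈ E, ω e.1 e.2 ∈ T} : ℝ) ≤
      ((#T : ℝ) / Fintype.card α) ^ #E * Fintype.card (I → Perm α) := by
  let S : I → Finset α := fun i => {a | (i, a) ∈ E}
  have h1 : ({ω : I → Perm α | ∀ e ∈ E, ω e.1 e.2 ∈ T} : Finset _) =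
      Fintype.piFinset (fun i => ({σ : Perm α | ∀ a ∈ S i, σ a ∈ T} : Finset _)) := by
    ext ω
    simp only [mem_filter, mem_univ, true_and, Fintype.mem_piFinset, S]
    exact ⟨fun h i a ha => h (i, a) ha, fun h e he => h e.1 e.2 he⟩
  have h2 : #E = ∑ i, #(S i) := by
    rw [card_eq_sum_card_fiberwise (f := Prod.fst) (t := univ) (by simp)]
    refine sum_congr rfl fun i _ => ?_
    refine card_bij (fun e _ => e.2) ?_ ?_ ?_
    · rintro ⟨j, a⟩ h
      simp only [mem_filter] at h
      obtain ⟨h, rfl⟩ := h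
      simpa [S] using h
    · rintro ⟨j, a⟩ h ⟨j', a'⟩ h' h''
      simp only [mem_filter] at h h' h''
      rw [h.2, h'.2, h'']
    · intro a ha
      exact ⟨(i, a), by simpa [S] using ha, rfl⟩
  rw [h1, Fintype.card_piFinset, h2, Fintype.card_pi, ← prod_pow_eq_pow_sum]
  push_cast
  rw [← prod_mul_distrib]
  refine prod_le_prod (fun i _ => by positivity) fun i _ => ?_
  rw [Fintype.card_perm]
  exact perm_prob _ _

theorem choose_le3 (m t : ℕ) (ht : 0 < t) : (m.choose t : ℝ) ≤ (3 * m / t) ^ t := by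
  have h1 : (m.choose t : ℝ) ≤ (m : ℝ) ^ t / t.factorial := Nat.choose_le_pow_div t m
  have h2 : (t : ℝ) ^ t / t.factorial ≤ Real.exp t :=
    Real.pow_div_factorial_le_exp _ (by positivity) t
  have h3 : Real.exp t ≤ 3 ^ t := by
    rw [← Real.exp_one_pow]
    exact pow_le_pow_left₀ (by positivity) (Real.exp_one_lt_d9.le.trans (by norm_num)) t
  have ht' : (0 : ℝ) < t := by exact_mod_cast ht
  have hf : (0 : ℝ) < t.factorial := by positivity
  refine h1.trans ?_
  rw [div_pow, mul_pow, div_le_div_iff₀ hf (by positivity)]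
  have h4 := h2.trans h3
  rw [div_le_iff₀ hf] at h4
  calc (m : ℝ) ^ t * t ^ t ≤ m ^ t * (3 ^ t * t.factorial) := by gcongr
    _ = _ := by ring

/-- expansion of a family of twenty permutations -/
def Exp (τ : Fin 20 → Perm α) : Prop :=
  ∀ S : Finset α, 2 * #S ≤ Fintype.card α → #S ≤ 4 * ∑ j, #{y ∈ S | τ j y ∉ S}

theorem term_le (m s : ℕ) (hs : 0 < s) (h2 : 2 * s ≤ m) :
    (m.choose s : ℝ) * m.choose (s + s / 4) * (((s + s / 4 : ℕ) : ℝ) / m) ^ (20 * s) ≤
      (1 / m) * (s / 2 ^ s) := by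
  have hs' : (1 : ℝ) ≤ s := by exact_mod_cast hs
  have h2' : 2 * (s : ℝ) ≤ m := by exact_mod_cast h2
  have hm : (0 : ℝ) < m := by linarith
  set x : ℝ := s / m with hx
  have hx0 : 0 < x := by positivity
  have hx1 : x ≤ 1 / 2 := by rw [hx, div_le_iff₀ hm]; linarith
  have e1 : (3 * m / s : ℝ) = 3 / x := by rw [hx]; field_simp
  have h3x : (1 : ℝ) ≤ 3 / x := by rw [le_div_iff₀ hx0]; linarith
  have a1 : (m.choose s : ℝ) ≤ (3 / x) ^ s := e1 ▸ choose_le3 m s hs
  have a2 : (m.choose (s + s / 4) : ℝ) ≤ ((3 / x) ^ 2) ^ s := by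
    refine (choose_le3 m (s + s / 4) (by omega)).trans ?_
    rw [← pow_mul]
    refine le_trans (pow_le_pow_left₀ (by positivity) ?_ _) (pow_le_pow_right₀ h3x (by omega))
    rw [← e1]
    gcongr
    omega
  have a3 : (((s + s / 4 : ℕ) : ℝ) / m) ≤ 5 / 4 * x := by
    have : ((s + s / 4 : ℕ) : ℝ) ≤ 5 / 4 * s := by
      have h : 4 * (s + s / 4) ≤ 5 * s := by omega
      have h' : 4 * ((s + s / 4 : ℕ) : ℝ) ≤ 5 * s := by exact_mod_cast h
      linarith
    rw [hx, ← mul_div_assoc]
    gcongr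
  have a4 : (3 / x) * (3 / x) ^ 2 * (5 / 4 * x) ^ 20 ≤ x / 2 := by
    have : (3 / x) * (3 / x) ^ 2 * (5 / 4 * x) ^ 20 = 27 * (5 / 4) ^ 20 * x ^ 16 * x := by
      field_simp; ring
    rw [this]
    have h16 : x ^ 16 ≤ (1 / 2) ^ 16 := pow_le_pow_left₀ hx0.le hx1 16
    have : 27 * (5 / 4 : ℝ) ^ 20 * x ^ 16 ≤ 1 / 2 := by
      calc _ ≤ 27 * (5 / 4 : ℝ) ^ 20 * (1 / 2) ^ 16 := by gcongr
        _ ≤ _ := by norm_num
    nlinarith
  calc _ ≤ (3 / x) ^ s * ((3 / x) ^ 2) ^ s * (5 / 4 * x) ^ (20 * s) := by gcongr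
    _ = ((3 / x) * (3 / x) ^ 2 * (5 / 4 * x) ^ 20) ^ s := by
        rw [pow_mul, ← mul_pow, ← mul_pow]
    _ ≤ (x / 2) ^ s := by gcongr
    _ = x ^ s / 2 ^ s := div_pow _ _ _
    _ ≤ x / 2 ^ s := by
        gcongr
        exact pow_le_of_le_one hx0.le (by linarith) hs.ne'
    _ = _ := by rw [hx]; ring

theorem sum_geo (n : ℕ) : ∑ s ∈ range n, (s : ℝ) / 2 ^ s ≤ 2 := by
  have : ∀ n : ℕ, ∑ s ∈ range n, (s : ℝ) / 2 ^ s = 2 - (2 * n + 2) / 2 ^ n := by
    intro n
    induction n with
    | zero => simp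
    | succ n ih => rw [sum_range_succ, ih]; push_cast; field_simp; ring
  rw [this]
  have : (0 : ℝ) ≤ (2 * n + 2) / 2 ^ n := by positivity
  linarith

open Classical in
theorem prob_notExp (ι : Fin 20 ↪ I) :
    (#{ω : I → Perm α | ¬ Exp (fun j => ω (ι j))} : ℝ) ≤
      2 / Fintype.card α * Fintype.card (I → Perm α) := by
  set m := Fintype.card α with hm
  let R : Finset ℕ := (range (m + 1)).filter (fun s => 0 < s ∧ 2 * s ≤ m)
  have h1 : ({ω : I → Perm α | ¬ Exp (fun j => ω (ι j))} : Finset _) ⊆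
      R.biUnion (fun s => (powersetCard s (univ : Finset α) ×ˢ
        powersetCard (s + s / 4) (univ : Finset α)).biUnion (fun ST =>
          ({ω : I → Perm α | ∀ e ∈ (univ.map ι) ×ˢ ST.1, ω e.1 e.2 ∈ ST.2} : Finset _))) := by
    intro ω hω
    simp only [mem_filter, mem_univ, true_and, Exp, not_forall, not_le] at hω
    obtain ⟨S, h2, h3⟩ := hω
    let T0 : Finset α := S ∪ univ.biUnion (fun j => ({y ∈ S | ω (ι j) y ∉ S}).image (ω (ι j)))
    have hT0 : #T0 ≤ #S + #S / 4 := by
      have : #(univ.biUnion (fun j => ({y ∈ S | ω (ι j) y ∉ S}).image (ω (ι j)))) ≤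
          ∑ j, #{y ∈ S | ω (ι j) y ∉ S} :=
        card_biUnion_le.trans (sum_le_sum fun j _ => card_image_le)
      have h4 := card_union_le S
        (univ.biUnion (fun j => ({y ∈ S | ω (ι j) y ∉ S}).image (ω (ι j))))
      simp only [T0]
      omega
    obtain ⟨T, hT, -, hTc⟩ := exists_subsuperset_card_eq (subset_univ T0) hT0
      (by rw [card_univ]; omega)
    simp only [mem_biUnion, mem_product, mem_powersetCard, R, mem_filter, mem_range]
    refine ⟨#S, ⟨by omega, by omega, h2⟩, (S, T), ⟨⟨subset_univ _, rfl⟩, subset_univ _, hTc⟩,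
      mem_univ _, ?_⟩
    rintro ⟨i, a⟩ ⟨hi, ha⟩
    simp only [mem_map, mem_univ, true_and] at hi
    obtain ⟨j, rfl⟩ := hi
    apply hT
    by_cases h5 : ω (ι j) a ∈ S
    · exact mem_union_left _ h5
    · exact mem_union_right _ (mem_biUnion.mpr ⟨j, mem_univ _,
        mem_image.mpr ⟨a, mem_filter.mpr ⟨ha, h5⟩, rfl⟩⟩)
  have h2 := (card_le_card h1).trans card_biUnion_le
  have h3 : (#{ω : I → Perm α | ¬ Exp (fun j => ω (ι j))} : ℝ) ≤
      ∑ s ∈ R, (1 / m) * (s / 2 ^ s) * (Fintype.card (I → Perm α) : ℝ) := by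
    refine le_trans (Nat.cast_le.mpr h2) ?_
    push_cast
    refine sum_le_sum fun s hs => ?_
    simp only [R, mem_filter] at hs
    refine le_trans (Nat.cast_le.mpr card_biUnion_le) ?_
    push_cast
    refine le_trans (sum_le_card_nsmul _ _
      ((((s + s / 4 : ℕ) : ℝ) / m) ^ (20 * s) * Fintype.card (I → Perm α)) ?_) ?_
    · intro ST hST
      simp only [mem_product, mem_powersetCard] at hST
      have := prob_E ((univ.map ι) ×ˢ ST.1) ST.2
      rw [card_product, card_map, card_univ, Fintype.card_fin, hST.1.2, hST.2.2] at this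
      convert this
    · rw [nsmul_eq_mul, card_product, card_powersetCard, card_powersetCard, card_univ, ← hm,
        ← mul_assoc]
      have := term_le m s hs.2.1 hs.2.2
      push_cast at this ⊢
      gcongr
  refine h3.trans ?_
  rw [← sum_mul, ← mul_sum]
  have h4 : ∑ s ∈ R, (s : ℝ) / 2 ^ s ≤ 2 :=
    le_trans (sum_le_sum_of_subset_of_nonneg (filter_subset _ _) (fun _ _ _ => by positivity))
      (sum_geo _)
  calc _ ≤ 1 / (m : ℝ) * 2 * (Fintype.card (I → Perm α) : ℝ) := by gcongr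
    _ = _ := by ring

theorem exists_exp (k : ℕ) (hk : 3 ≤ k) : ∃ σ : Fin 20 → Perm (Fin k), Exp σ := by
  classical
  by_contra h
  push Not at h
  have h1 := prob_notExp (α := Fin k) (I := Fin 20) (Function.Embedding.refl _)
  rw [filter_true_of_mem (fun ω _ => h _), card_univ, Fintype.card_fin] at h1
  have h2 : (0 : ℝ) < Fintype.card (Fin 20 → Perm (Fin k)) := by
    exact_mod_cast Fintype.card_pos
  have h3 : (3 : ℝ) ≤ k := by exact_mod_cast hk
  have h4 : (2 : ℝ) / k < 1 := by rw [div_lt_one (by linarith)]; linarith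
  nlinarith

variable {J X : Type} [Fintype J] [DecidableEq J] [Fintype X] [DecidableEq X]

/-- a set of points carrying at least as many edges as points -/
def Dn (ω : J × X → Perm α) (V : Finset (X × α)) : Prop :=
  #V ≤ #{e : (J × X) × α | (e.1.2, e.2) ∈ V ∧ ω e.1 e.2 ∈ V.image Prod.snd}

open Classical in
theorem prob_Dn (V : Finset (X × α)) :
    (#{ω : J × X → Perm α | Dn ω V} : ℝ) ≤
      (2 ^ Fintype.card J * #V / Fintype.card α) ^ #V * Fintype.card (J × X → Perm α) := by
  let U : Finset ((J × X) × α) := {e | (e.1.2, e.2) ∈ V}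
  have hU : #U ≤ Fintype.card J * #V := by
    rw [← card_univ, ← card_product]
    refine card_le_card_of_injOn (fun e => (e.1.1, (e.1.2, e.2))) ?_ ?_
    · intro e he
      simpa [U] using he
    · rintro ⟨⟨a, b⟩, c⟩ - ⟨⟨a', b'⟩, c'⟩ - h
      simp only [Prod.mk.injEq] at h ⊢
      tauto
  have h1 : ({ω : J × X → Perm α | Dn ω V} : Finset _) ⊆
      (powersetCard #V U).biUnion (fun E =>
        ({ω : J × X → Perm α | ∀ e ∈ E, ω e.1 e.2 ∈ V.image Prod.snd} : Finset _)) := by
    intro ω hω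
    simp only [mem_filter, mem_univ, true_and, Dn] at hω
    obtain ⟨E, hE, hEc⟩ := exists_subset_card_eq hω
    simp only [mem_biUnion, mem_powersetCard, mem_filter, mem_univ, true_and]
    refine ⟨E, ⟨fun e he => ?_, hEc⟩, fun e he => ?_⟩
    · simpa [U] using (mem_filter.mp (hE he)).2.1
    · exact (mem_filter.mp (hE he)).2.2
  have h2 := (card_le_card h1).trans card_biUnion_le
  refine le_trans (Nat.cast_le.mpr h2) ?_
  push_cast
  refine le_trans (sum_le_card_nsmul _ _
    (((#V : ℝ) / Fintype.card α) ^ #V * Fintype.card (J × X → Perm α)) ?_) ?_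
  · intro E hE
    have := prob_E E (V.image Prod.snd)
    rw [(mem_powersetCard.mp hE).2] at this
    refine le_trans (by convert this) ?_
    gcongr
    exact card_image_le
  · have h3 : #(powersetCard #V U) ≤ (2 ^ Fintype.card J) ^ #V := by
      rw [card_powersetCard, ← pow_mul]
      exact (Nat.choose_le_two_pow _ _).trans (Nat.pow_le_pow_right (by norm_num) hU)
    rw [nsmul_eq_mul, mul_div_assoc, mul_pow, ← mul_assoc]
    gcongr
    exact_mod_cast h3

open Classical in
theorem sum_Dn (g : ℕ) (hα : 0 < Fintype.card α) :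
    ∑ ω : J × X → Perm α, (#{V : Finset (X × α) | #V ≤ g ∧ Dn ω V} : ℝ) ≤
      (∑ v ∈ range (g + 1), ((Fintype.card X : ℝ) * (2 ^ Fintype.card J * v)) ^ v) *
        Fintype.card (J × X → Perm α) := by
  have h1 : ∀ ω : J × X → Perm α, (#{V : Finset (X × α) | #V ≤ g ∧ Dn ω V} : ℝ) =
      ∑ v ∈ range (g + 1), ∑ V ∈ powersetCard v (univ : Finset (X × α)),
        if Dn ω V then (1 : ℝ) else 0 := by
    intro ω
    rw [card_eq_sum_card_fiberwise (f := card) (t := range (g + 1))
      (fun V hV => by simp only [coe_filter, Set.mem_ofPred_eq] at hV; simp; omega)]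
    push_cast
    refine sum_congr rfl fun v hv => ?_
    rw [sum_boole]
    congr 2
    ext V
    simp only [mem_filter, mem_univ, true_and, mem_powersetCard, subset_univ]
    have := mem_range.mp hv
    constructor
    · tauto
    · rintro ⟨h, h'⟩
      exact ⟨⟨by omega, h'⟩, h⟩
  simp_rw [h1]
  rw [sum_comm, sum_mul]
  refine sum_le_sum fun v _ => ?_
  rw [sum_comm]
  refine le_trans (sum_le_card_nsmul _ _
    ((2 ^ Fintype.card J * v / Fintype.card α : ℝ) ^ v * Fintype.card (J × X → Perm α)) ?_) ?_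
  · intro V hV
    rw [sum_boole, ← (mem_powersetCard.mp hV).2]
    exact prob_Dn V
  · rw [nsmul_eq_mul, card_powersetCard, card_univ, ← mul_assoc]
    gcongr
    have h2 : ((Fintype.card (X × α)).choose v : ℝ) ≤
        ((Fintype.card X : ℝ) * Fintype.card α) ^ v := by
      rw [Fintype.card_prod]
      exact_mod_cast Nat.choose_le_pow _ _
    have hα' : (0 : ℝ) < Fintype.card α := by exact_mod_cast hα
    refine le_trans (mul_le_mul_of_nonneg_right h2 (by positivity)) (le_of_eq ?_)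
    rw [← mul_pow]
    congr 1
    field_simp

theorem exists_lift (X : Type) [Fintype X] [DecidableEq X] (g q : ℕ) :
    ∃ m : ℕ, 0 < m ∧ ∃ (ω : (Fin 20 ⊕ Fin 20) × X → Perm (Fin m)) (B : Finset (X × Fin m)),
      q * #B ≤ m ∧ (∀ x, Exp (fun j => ω (Sum.inr j, x))) ∧
      ∀ V : Finset (X × Fin m), #V ≤ g → Dn ω V → V ⊆ B := by
  classical
  set C : ℝ := ∑ v ∈ range (g + 1),
    ((Fintype.card X : ℝ) * (2 ^ Fintype.card (Fin 20 ⊕ Fin 20) * v)) ^ v with hC
  have hC0 : 0 ≤ C := by positivity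
  obtain ⟨m, hm⟩ := exists_nat_gt (4 * Fintype.card X + q * (g * (2 * C)) : ℝ)
  have hm1 : (4 * Fintype.card X : ℝ) < m := lt_of_le_of_lt (le_add_of_nonneg_right
    (by positivity)) hm
  have hm2 : (q * (g * (2 * C)) : ℝ) < m := lt_of_le_of_lt (le_add_of_nonneg_left
    (by positivity)) hm
  have hm0 : (0 : ℝ) < m := lt_of_le_of_lt (by positivity) hm1
  have hm0' : 0 < m := by exact_mod_cast hm0
  refine ⟨m, hm0', ?_⟩
  let Ω := (Fin 20 ⊕ Fin 20) × X → Perm (Fin m)
  let N : Ω → ℕ := fun ω => #{V : Finset (X × Fin m) | #V ≤ g ∧ Dn ω V}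
  have hN : ∑ ω, (N ω : ℝ) ≤ C * Fintype.card Ω := sum_Dn g (by simpa using hm0')
  let bad : Finset Ω := {ω | ¬ ∀ x, Exp (fun j => ω (Sum.inr j, x))}
  have hΩ : (0 : ℝ) < Fintype.card Ω := by exact_mod_cast Fintype.card_pos
  have hbad : (#(bad) : ℝ) < Fintype.card Ω / 2 := by
    have h1 : bad ⊆ univ.biUnion (fun x : X =>
        ({ω : Ω | ¬ Exp (fun j => ω (Sum.inr j, x))} : Finset Ω)) := by
      intro ω hω
      simpa [bad] using hω
    refine lt_of_le_of_lt (Nat.cast_le.mpr ((card_le_card h1).trans card_biUnion_le)) ?_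
    push_cast
    refine lt_of_le_of_lt (sum_le_card_nsmul _ _ ((2 : ℝ) / m * Fintype.card Ω) ?_) ?_
    · intro x _
      have := prob_notExp (α := Fin m) (I := (Fin 20 ⊕ Fin 20) × X)
        ⟨fun j => (Sum.inr j, x), fun a b h => by simpa using h⟩
      rw [Fintype.card_fin] at this
      convert this <;> rfl
    · rw [nsmul_eq_mul, card_univ, ← mul_assoc]
      have : (Fintype.card X : ℝ) * (2 / m) < 1 / 2 := by
        rw [← mul_div_assoc, div_lt_iff₀ hm0]; linarith
      nlinarith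
  have hex : ∃ ω, ω ∉ bad ∧ (N ω : ℝ) ≤ 2 * C := by
    by_contra h
    push Not at h
    have h1 : (#(badᶜ) : ℝ) = Fintype.card Ω - #(bad) := by
      rw [card_compl, Nat.cast_sub (card_le_univ _)]
    have h2 : badᶜ.Nonempty := by
      rw [← card_pos]
      have : (0 : ℝ) < #(badᶜ) := by linarith
      exact_mod_cast this
    have h3 : ∑ ω ∈ badᶜ, 2 * C < ∑ ω ∈ badᶜ, (N ω : ℝ) :=
      sum_lt_sum_of_nonempty h2 fun ω hω => h ω (mem_compl.mp hω)
    have h4 : ∑ ω ∈ badᶜ, (N ω : ℝ) ≤ ∑ ω, (N ω : ℝ) :=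
      sum_le_sum_of_subset_of_nonneg (subset_univ _) (fun _ _ _ => by positivity)
    rw [sum_const, nsmul_eq_mul, h1] at h3
    nlinarith
  obtain ⟨ω, h1, h2⟩ := hex
  refine ⟨ω, ({V : Finset (X × Fin m) | #V ≤ g ∧ Dn ω V} : Finset _).biUnion id, ?_, ?_, ?_⟩
  · have h3 : #(({V : Finset (X × Fin m) | #V ≤ g ∧ Dn ω V} : Finset _).biUnion id) ≤
        N ω * g :=
      card_biUnion_le.trans (sum_le_card_nsmul _ _ _ fun V hV => (mem_filter.mp hV).2.1)
    have h4 : ((q * (N ω * g) : ℕ) : ℝ) ≤ m := by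
      push_cast
      calc (q : ℝ) * (N ω * g) ≤ q * (2 * C * g) := by gcongr
        _ ≤ m := by linarith
    exact (Nat.mul_le_mul_left _ h3).trans (by exact_mod_cast h4)
  · simpa [bad] using h1
  · intro V h3 h4 y hy
    exact mem_biUnion.mpr ⟨V, by simp [h3, h4], hy⟩

end count

end Pool.Agent.H86.Roe
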