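import Mathlib

set_option autoImplicit false

namespace Pool.Agent.H86.Kronecker

open Set Filter Topology MeasureTheory

/-- In a compact abelian group with a point separating group `Γ` of continuous characters, every
closed subgroup is the intersection of kernels of members of `Γ`. -/
theorem kronecker {X : Type*} [AddCommGroup X] [TopologicalSpace X] [IsTopologicalAddGroup X]
    [CompactSpace X] [T2Space X] (Γ : AddSubgroup (X →+ UnitAddCircle))
    (hcont : ∀ χ ∈ Γ, Continuous χ) (hsep : ∀ x ≠ 0, ∃ χ ∈ Γ, χ x ≠ 0)
    (K : AddSubgroup X) (hK : IsClosed (K : Set X)) (x : X)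
    (hx : ∀ χ ∈ Γ, (∀ k ∈ K, χ k = 0) → χ x = 0) : x ∈ K := by
  by_contra hxK
  let ch : Γ → C(X, ℂ) := fun χ => ⟨fun y => (AddCircle.toCircle (χ.1 y) : ℂ),
    continuous_subtype_val.comp (AddCircle.continuous_toCircle.comp (hcont _ χ.2))⟩
  let A : StarSubalgebra ℂ C(X, ℂ) :=
    { toSubalgebra := Algebra.adjoin ℂ (range ch)
      star_mem' := by
        change Algebra.adjoin ℂ (range ch) ≤ star (Algebra.adjoin ℂ (range ch))
        refine Algebra.adjoin_le ?_
        rintro - ⟨χ, rfl⟩
        refine Algebra.subset_adjoin ⟨-χ, ContinuousMap.ext fun y => ?_⟩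
        simp [ch, AddCircle.toCircle_neg, ← Circle.coe_inv_eq_conj] }
  have hA : Subalgebra.toSubmodule A.toSubalgebra = Submodule.span ℂ (range ch) := by
    apply Algebra.adjoin_eq_span_of_subset
    refine Subset.trans ?_ Submodule.subset_span
    intro f hf
    refine Submonoid.closure_induction (fun _ => id) ⟨0, ?_⟩ ?_ hf
    · ext1 z
      simp [ch]
    · rintro - - - - ⟨m, rfl⟩ ⟨n, rfl⟩
      refine ⟨m + n, ?_⟩
      ext1 z
      simp [ch, AddCircle.toCircle_add]
  have hsepA : A.SeparatesPoints := by
    intro y z hyz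
    obtain ⟨χ, hχ, hχ'⟩ := hsep (y - z) (sub_ne_zero.2 hyz)
    refine ⟨_, ⟨ch ⟨χ, hχ⟩, Algebra.subset_adjoin ⟨_, rfl⟩, rfl⟩, ?_⟩
    intro h
    apply hχ'
    rw [map_sub, sub_eq_zero]
    exact AddCircle.injective_toCircle one_ne_zero (Subtype.ext h)
  have htop := ContinuousMap.starSubalgebra_topologicalClosure_eq_top_of_separatesPoints A hsepA
  have : CompactSpace K := isCompact_iff_compactSpace.1 hK.isCompact
  borelize ↥K
  let μ : Measure K := Measure.addHaar
  have hint : ∀ g : K → ℂ, Continuous g → Integrable g μ := fun g hg =>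
    hg.integrable_of_hasCompactSupport (HasCompactSupport.of_compactSpace g)
  let I : X → C(X, ℂ) → ℂ := fun a f => ∫ k : K, f (a + k) ∂μ
  have hfi : ∀ a (f : C(X, ℂ)), Integrable (fun k : K => f (a + k)) μ := fun a f =>
    hint _ (by fun_prop)
  have hIc : ∀ a, Continuous (I a) := by
    intro a
    refine (LipschitzWith.of_dist_le_mul (K := (μ univ).toNNReal) fun f g => ?_).continuous
    rw [dist_eq_norm, dist_eq_norm, ← integral_sub (hfi a f) (hfi a g), mul_comm]
    refine norm_integral_le_of_norm_le_const (Eventually.of_forall fun k => ?_)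
    exact (f - g).norm_coe_le_norm (a + k)
  have hspan : ∀ f ∈ Submodule.span ℂ (range ch), I 0 f = I x f := by
    intro f hf
    induction hf using Submodule.span_induction with
    | mem f hf =>
      obtain ⟨χ, rfl⟩ := hf
      have key : ∀ a, I a (ch χ) = ch χ a * I 0 (ch χ) := by
        intro a
        simp only [I]
        rw [← integral_const_mul]
        congr 1
        ext k
        simp [ch, AddCircle.toCircle_add]
      by_cases h : ∀ k ∈ K, χ.1 k = 0
      · rw [key x]
        simp [ch, hx _ χ.2 h]
      · push Not at h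
        obtain ⟨k, hk, hk'⟩ := h
        have h1 : I k (ch χ) = I 0 (ch χ) := by
          simp only [I, zero_add]
          exact integral_add_left_eq_self (fun l : K => ch χ l) (⟨k, hk⟩ : K)
        have h2 : ch χ k ≠ 1 := by
          intro h
          apply hk'
          refine AddCircle.injective_toCircle one_ne_zero (Subtype.ext ?_)
          simpa [ch] using h
        have h3 : I 0 (ch χ) = 0 := by
          rw [key k] at h1
          by_contra h0
          exact h2 (mul_right_cancel₀ h0 (h1.trans (one_mul _).symm))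
        rw [key x, h3, mul_zero]
    | zero => simp [I]
    | add f g _ _ hf hg =>
      have : ∀ a, I a (f + g) = I a f + I a g := fun a => integral_add (hfi a f) (hfi a g)
      rw [this, this, hf, hg]
    | smul c f _ hf =>
      have : ∀ a, I a (c • f) = c • I a f := fun a => integral_smul c _
      rw [this, this, hf]
  have hall : ∀ f, I 0 f = I x f := by
    intro f
    have hf : f ∈ closure (A : Set C(X, ℂ)) := by
      have : f ∈ A.topologicalClosure := htop ▸ StarSubalgebra.mem_top
      exact this
    refine closure_minimal (fun g hg => ?_) (isClosed_eq (hIc 0) (hIc x)) hf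
    exact hspan g (hA ▸ hg)
  have hK' : IsClosed ((fun y => y - x) ⁻¹' (K : Set X)) := hK.preimage (by fun_prop)
  obtain ⟨f, hf0, hf1, -⟩ := exists_continuous_zero_one_of_isClosed hK hK' (by
    rw [Set.disjoint_left]
    intro y hy hy'
    apply hxK
    have := K.sub_mem hy hy'
    simpa using this)
  have := hall ⟨fun y => (f y : ℂ), by fun_prop⟩
  have e0 : ∀ k : K, f (0 + k) = 0 := fun k => hf0 (by simp)
  have e1 : ∀ k : K, f (x + k) = 1 := fun k => hf1 (by simp)
  simp only [I, ContinuousMap.coe_mk, e0, e1] at this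
  simp only [Complex.ofReal_zero, integral_zero, Complex.ofReal_one, integral_const,
    Complex.real_smul, mul_one] at this
  have hpos : 0 < μ.real univ := by
    refine ENNReal.toReal_pos (isOpen_univ.measure_pos μ univ_nonempty).ne' (measure_ne_top _ _)
  exact hpos.ne (by exact_mod_cast this)

/-- evaluation at a family of characters -/
def ev {G ι : Type*} [AddCommGroup G] (ψ : ι → (G →+ UnitAddCircle)) : G →+ (ι → UnitAddCircle) where
  toFun g := fun i => ψ i g
  map_zero' := by ext i; simp
  map_add' a b := by ext i; simp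

/-- the closure of the image of a subgroup in a torus -/
theorem mem_closure_torus {G ι : Type*} [AddCommGroup G] (ψ : ι → (G →+ UnitAddCircle))
    (D : AddSubgroup G) (x : ι → UnitAddCircle)
    (h : ∀ c : ι →₀ ℤ, (∀ d ∈ D, (c.sum fun i n => n • ψ i d) = 0) →
      (c.sum fun i n => n • x i) = 0) : x ∈ closure (ev ψ '' D) := by
  let L : (ι →₀ ℤ) →+ ((ι → UnitAddCircle) →+ UnitAddCircle) :=
    (Finsupp.linearCombination ℤ
      (fun i => (Pi.evalAddMonoidHom (fun _ : ι => UnitAddCircle) i))).toAddMonoidHom
  have hL : ∀ c y, L c y = c.sum fun i n => n • y i := by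
    intro c y
    simp [L, Finsupp.linearCombination_apply, Finsupp.sum]
  have := kronecker L.range (by
    rintro _ ⟨c, rfl⟩
    have : (L c : (ι → UnitAddCircle) → UnitAddCircle) = fun y => c.sum fun i n => n • y i :=
      funext (hL c)
    rw [this]
    unfold Finsupp.sum
    fun_prop) (by
    intro y hy
    obtain ⟨i, hi⟩ := Function.ne_iff.1 hy
    refine ⟨L (Finsupp.single i 1), ⟨_, rfl⟩, ?_⟩
    rw [hL, Finsupp.sum_single_index (by simp), one_smul]
    exact hi) (D.map (ev ψ)).topologicalClosure (AddSubgroup.isClosed_topologicalClosure _) x (by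
    rintro _ ⟨c, rfl⟩ hc
    rw [hL]
    refine h c fun d hd => ?_
    have := hc (ev ψ d) (AddSubgroup.le_topologicalClosure _ ⟨d, hd, rfl⟩)
    rwa [hL] at this)
  exact this

/-- closure of subgroups in a group topologized by a family of characters -/
theorem mem_closure_of_inducing {G ι : Type*} [AddCommGroup G] [TopologicalSpace G]
    (ψ : ι → (G →+ UnitAddCircle)) (hψ : IsInducing (ev ψ)) (D : AddSubgroup G) (g : G)
    (h : ∀ c : ι →₀ ℤ, (∀ d ∈ D, (c.sum fun i n => n • ψ i d) = 0) →
      (c.sum fun i n => n • ψ i g) = 0) : g ∈ closure (D : Set G) := by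
  rw [hψ.closure_eq_preimage_closure_image]
  exact mem_closure_torus ψ D (ev ψ g) h

end Pool.Agent.H86.Kronecker
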