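import Mathlib

set_option autoImplicit false

namespace Pool.Agent.H86.Roe

open Finset Equiv Filter Topology

section abstract
variable {A : Type} [NormedRing A] (Q : ℕ → A)

/-- small at infinity -/
def Sm (a : A) : Prop := Tendsto (fun n => a * Q n) atTop (𝓝 0)

/-- level preserving -/
def Cm (a : A) : Prop := ∀ n, Commute a (Q n)

variable {Q}

theorem Sm.add {a b : A} (ha : Sm Q a) (hb : Sm Q b) : Sm Q (a + b) := by
  simpa [Sm, add_mul] using Tendsto.add ha hb

theorem Sm.neg {a : A} (ha : Sm Q a) : Sm Q (-a) := by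
  simpa [Sm] using Tendsto.neg ha

theorem Sm.left {a : A} (ha : Sm Q a) (b : A) : Sm Q (b * a) := by
  simpa [Sm, mul_assoc] using Tendsto.const_mul b ha

theorem Sm.right {a b : A} (ha : Sm Q a) (hb : Cm Q b) : Sm Q (a * b) := by
  have := Tendsto.mul_const b ha
  simp only [zero_mul, mul_assoc, ← (hb _).eq] at this
  simpa [Sm, mul_assoc] using this

theorem Cm.mul {a b : A} (ha : Cm Q a) (hb : Cm Q b) : Cm Q (a * b) :=
  fun n => (ha n).mul_left (hb n)

theorem Cm.add {a b : A} (ha : Cm Q a) (hb : Cm Q b) : Cm Q (a + b) :=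
  fun n => (ha n).add_left (hb n)

theorem Cm.sub {a b : A} (ha : Cm Q a) (hb : Cm Q b) : Cm Q (a - b) :=
  fun n => (ha n).sub_left (hb n)

theorem Cm.pow {a : A} (ha : Cm Q a) (k : ℕ) : Cm Q (a ^ k) :=
  fun n => (ha n).pow_left k

theorem Cm.one : Cm Q 1 := fun _ => Commute.one_left _

theorem proj_mem (C : Subring A) (hcl : IsClosed (C : Set A))
    (hC : ∀ a, Cm Q a → Sm Q a → a ∈ C) (P χ S : A) (hP : Cm Q P) (hχ : Cm Q χ) (hS : Cm Q S)
    (h1 : S * P = P) (h2 : P * S = P) (h3 : P * P = P) (h4 : ‖S - P‖ < 1) (h5 : ‖χ‖ ≤ 1)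
    (h6 : χ * S * χ ∈ C) (h7 : Sm Q ((1 - χ) * P)) (h8 : Sm Q (P * (1 - χ))) : P ∈ C := by
  obtain ⟨R, rfl⟩ : ∃ R, S = P + R := ⟨S - P, by abel⟩
  have hR : Cm Q R := by simpa using hS.sub hP
  have e1 : R * P = 0 := by simpa [add_mul, h3] using h1
  have e2 : P * R = 0 := by simpa [mul_add, h3] using h2
  set E := χ * R * χ with hE
  set T := χ * (P + R) * χ with hT
  have cE : Cm Q E := (hχ.mul hR).mul hχ
  have cT : Cm Q T := (hχ.mul hS).mul hχ
  have s0 : Sm Q (T - P - E) := by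
    have : T - P - E = -(χ * (P * (1 - χ))) + -((1 - χ) * P) := by
      rw [hT, hE]; noncomm_ring
    rw [this]
    exact (h8.left χ).neg.add h7.neg
  have s1 : Sm Q (P * E) := by
    have : P * E = -(P * (1 - χ) * (R * χ)) + P * R * χ := by rw [hE]; noncomm_ring
    rw [this, e2, zero_mul, add_zero]
    exact (h8.right (hR.mul hχ)).neg
  have s2 : Sm Q (E * P) := by
    have : E * P = -(χ * R * ((1 - χ) * P)) + χ * (R * P) := by rw [hE]; noncomm_ring
    rw [this, e1, mul_zero, add_zero]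
    exact (h7.left _).neg
  have s3 : ∀ k, Sm Q (T ^ (k + 1) - P - E ^ (k + 1)) := by
    intro k
    induction k with
    | zero => simpa using s0
    | succ k ih =>
      have : T ^ (k + 1 + 1) - P - E ^ (k + 1 + 1) = T * (T ^ (k + 1) - P - E ^ (k + 1)) +
          (T - P - E) * (P + E ^ (k + 1)) + (P * E * E ^ k + E * P) + (P * P - P) := by
        rw [pow_succ' T (k + 1), pow_succ' E (k + 1), pow_succ' E k]
        noncomm_ring
      rw [this, h3, sub_self, add_zero]
      exact ((ih.left T).add (s0.right (hP.add (cE.pow _)))).add ((s1.right (cE.pow _)).add s2)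
  have hn : ‖E‖ < 1 := by
    have h9 : ‖R‖ < 1 := by simpa using h4
    calc ‖E‖ ≤ ‖χ‖ * ‖R‖ * ‖χ‖ := (norm_mul_le _ _).trans (by gcongr; exact norm_mul_le _ _)
      _ ≤ 1 * ‖R‖ * 1 := by gcongr
      _ < 1 := by simpa using h9
  have lim : Tendsto (fun k => P + E ^ (k + 1)) atTop (𝓝 P) := by
    simpa using ((tendsto_pow_atTop_nhds_zero_of_norm_lt_one hn).comp
      (tendsto_add_atTop_nat 1)).const_add P
  refine hcl.mem_of_tendsto lim (Eventually.of_forall fun k => ?_)
  have := C.sub_mem (C.pow_mem h6 (k + 1))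
    (hC _ (((cT.pow (k + 1)).sub hP).sub (cE.pow (k + 1))) (s3 k))
  have e : P + E ^ (k + 1) = T ^ (k + 1) - (T ^ (k + 1) - P - E ^ (k + 1)) := by abel
  rw [e]
  exact this

end abstract

/-- the Hilbert space -/
abbrev H (X : Type) : Type := lp (fun _ : X => ℂ) 2

open Classical in
/-- the standard basis vector -/
noncomputable def δ {X : Type} (x : X) : H X := lp.single 2 x 1

section ops
variable {X Y : Type}

open Classical in
theorem δ_apply (x y : X) : δ x y = if y = x then 1 else 0 := by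
  rw [δ, lp.single_apply, Pi.single_apply]

open Classical in
theorem inner_δ (x : X) (ξ : H X) : inner ℂ (δ x) ξ = ξ x := by
  rw [δ, lp.inner_single_left]; simp

open Classical in
theorem norm_δ (x : X) : ‖δ x‖ = 1 := by
  rw [δ, lp.norm_single (by simp), norm_one]

open Classical in
theorem ext_ent {f g : H X →L[ℂ] H Y} (h : ∀ x y, f (δ x) y = g (δ x) y) : f = g := by
  refine lp.ext_continuousLinearMap (by simp) fun x => ContinuousLinearMap.ext_ring ?_
  exact lp.ext (funext (h x))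

theorem ext_pt {f g : H X →L[ℂ] H Y} (h : ∀ ξ y, f ξ y = g ξ y) : f = g :=
  ext_ent fun _ y => h _ y

theorem adj_ent (a : H X →L[ℂ] H Y) (x : X) (y : Y) :
    ContinuousLinearMap.adjoint a (δ y) x = star (a (δ x) y) := by
  rw [← inner_δ x, ContinuousLinearMap.adjoint_inner_right, ← inner_conj_symm, inner_δ]
  rfl

theorem ent_le (a : H X →L[ℂ] H Y) (x : X) (y : Y) : ‖a (δ x) y‖ ≤ ‖a‖ :=
  (lp.norm_apply_le_norm (by simp) _ y).trans (by simpa [norm_δ] using a.le_opNorm (δ x))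

theorem sum_le_sq (ξ : H X) (s : Finset X) : ∑ x ∈ s, ‖ξ x‖ ^ 2 ≤ ‖ξ‖ ^ 2 := by
  simpa using lp.sum_rpow_le_norm_rpow (p := 2) (by simp) ξ s

theorem norm_le_of (ξ : H X) {C : ℝ} (hC : 0 ≤ C) (h : ∀ s : Finset X, ∑ x ∈ s, ‖ξ x‖ ^ 2 ≤ C ^ 2) :
    ‖ξ‖ ≤ C :=
  lp.norm_le_of_forall_sum_le (p := 2) (by simp) hC (by simpa using h)

/-- fibrewise bound on weights -/
def Bd (φ : Y → X) (c : Y → ℂ) (M : ℝ) : Prop :=
  0 ≤ M ∧ ∀ x (s : Finset Y), (∀ y ∈ s, φ y = x) → ∑ y ∈ s, ‖c y‖ ^ 2 ≤ M ^ 2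

theorem Bd.sum_le {φ : Y → X} {c : Y → ℂ} {M : ℝ} (h : Bd φ c M) (ξ : H X) (s : Finset Y) :
    ∑ y ∈ s, ‖c y * ξ (φ y)‖ ^ 2 ≤ (M * ‖ξ‖) ^ 2 := by
  classical
  rw [← sum_fiberwise_of_maps_to (g := φ) (t := s.image φ) (fun y hy => mem_image_of_mem φ hy)]
  calc _ ≤ ∑ x ∈ s.image φ, M ^ 2 * ‖ξ x‖ ^ 2 := by
        refine sum_le_sum fun x _ => ?_
        rw [sum_congr rfl (g := fun y => ‖c y‖ ^ 2 * ‖ξ x‖ ^ 2) fun y hy => by
          rw [(mem_filter.mp hy).2, norm_mul, mul_pow], ← sum_mul]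
        gcongr
        exact h.2 x _ fun y hy => (mem_filter.mp hy).2
    _ ≤ _ := by
        rw [← mul_sum, mul_pow]
        gcongr
        exact sum_le_sq ξ _

/-- weighted composition operator, bundled -/
noncomputable def wc0 (φ : Y → X) (c : Y → ℂ) (M : ℝ) (h : Bd φ c M) : H X →L[ℂ] H Y :=
  LinearMap.mkContinuous
    { toFun := fun ξ => ⟨fun y => c y * ξ (φ y),
        memℓp_gen' (C := (M * ‖ξ‖) ^ 2) (by simpa using h.sum_le ξ)⟩
      map_add' := fun ξ η => lp.ext (funext fun y => by simp [mul_add])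
      map_smul' := fun t ξ => lp.ext (funext fun y => by simp [mul_left_comm]) }
    M fun ξ => norm_le_of _ (mul_nonneg h.1 (norm_nonneg _)) (h.sum_le ξ)

open Classical in
/-- weighted composition operator -/
noncomputable def wc (φ : Y → X) (c : Y → ℂ) : H X →L[ℂ] H Y :=
  if h : ∃ M, Bd φ c M then wc0 φ c _ h.choose_spec else 0

theorem wc_apply {φ : Y → X} {c : Y → ℂ} {M : ℝ} (h : Bd φ c M) (ξ : H X) (y : Y) :
    wc φ c ξ y = c y * ξ (φ y) := by
  rw [wc, dif_pos ⟨M, h⟩]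
  rfl

theorem norm_le_bd {φ : Y → X} {c : Y → ℂ} {M : ℝ} (h : Bd φ c M) (a : H X →L[ℂ] H Y)
    (ha : ∀ ξ y, a ξ y = c y * ξ (φ y)) : ‖a‖ ≤ M :=
  a.opNorm_le_bound h.1 fun ξ => norm_le_of _ (mul_nonneg h.1 (norm_nonneg _))
    (by simpa only [ha] using h.sum_le ξ)

theorem bd_inj {φ : Y → X} (hφ : Function.Injective φ) {c : Y → ℂ} {M : ℝ} (h0 : 0 ≤ M)
    (h : ∀ y, ‖c y‖ ≤ M) : Bd φ c M := by
  refine ⟨h0, fun x s hs => ?_⟩
  have h1 : #s ≤ 1 := card_le_one.mpr fun a ha b hb => hφ ((hs a ha).trans (hs b hb).symm)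
  refine (sum_le_card_nsmul _ _ (M ^ 2) fun y _ => by gcongr; exact h y).trans ?_
  have h2 : (#s : ℝ) ≤ 1 := by exact_mod_cast h1
  rw [nsmul_eq_mul]
  nlinarith [sq_nonneg M]

/-- composition with a permutation -/
noncomputable def V (w : Perm X) : H X →L[ℂ] H X := wc w (fun _ => 1)

theorem V_apply (w : Perm X) (ξ : H X) (x : X) : V w ξ x = ξ (w x) := by
  rw [V, wc_apply (bd_inj w.injective zero_le_one (by simp)), one_mul]

theorem V_norm (w : Perm X) : ‖V w‖ ≤ 1 :=
  norm_le_bd (c := fun _ => 1) (bd_inj w.injective zero_le_one (by simp)) _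
    (by simp [V_apply])

theorem V_star (w : Perm X) : star (V w) = V w⁻¹ := by
  refine ext_ent fun x y => ?_
  rw [ContinuousLinearMap.star_eq_adjoint, adj_ent, V_apply, V_apply, δ_apply, δ_apply]
  by_cases h : w x = y
  · simp [← h]
  · rw [if_neg h, if_neg (fun h' => h (by simp [← h'])), star_zero]

theorem V_mul (w w' : Perm X) : V (w * w') = V w' * V w :=
  ext_pt fun ξ x => by simp [V_apply]

theorem V_one : V (1 : Perm X) = 1 := ext_pt fun ξ x => by simp [V_apply]

/-- multiplication operator -/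
noncomputable def D (f : X → ℂ) : H X →L[ℂ] H X := wc id f

theorem D_apply {f : X → ℂ} {M : ℝ} (h0 : 0 ≤ M) (h : ∀ x, ‖f x‖ ≤ M) (ξ : H X) (x : X) :
    D f ξ x = f x * ξ x :=
  wc_apply (bd_inj Function.injective_id h0 h) ξ x

open Classical in
/-- coordinate projection -/
noncomputable def Ind (p : X → Prop) : H X →L[ℂ] H X := D (fun x => if p x then 1 else 0)

open Classical in
theorem Ind_apply (p : X → Prop) (ξ : H X) (x : X) : Ind p ξ x = if p x then ξ x else 0 := by
  rw [Ind, D_apply zero_le_one (fun x => by split_ifs <;> simp)]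
  simp

open Classical in
theorem Ind_norm (p : X → Prop) : ‖Ind p‖ ≤ 1 :=
  norm_le_bd (c := fun x => if p x then 1 else 0)
    (bd_inj Function.injective_id zero_le_one (fun x => by split_ifs <;> simp)) _
    (by simp [Ind_apply])

theorem Ind_star (p : X → Prop) : star (Ind p) = Ind p := by
  refine ext_ent fun x y => ?_
  rw [ContinuousLinearMap.star_eq_adjoint, adj_ent, Ind_apply, Ind_apply, δ_apply, δ_apply]
  by_cases h : x = y
  · subst h; split_ifs <;> simp
  · simp [h, Ne.symm h]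

open Classical in
theorem Ind_δ (p : X → Prop) (x : X) : Ind p (δ x) = if p x then δ x else 0 := by
  refine lp.ext (funext fun y => ?_)
  rw [Ind_apply]
  by_cases h : y = x
  · subst h; split_ifs <;> simp
  · split_ifs <;> simp [δ_apply, h]

theorem Ind_comm (p q : X → Prop) : Commute (Ind p) (Ind q) :=
  ext_pt fun ξ x => by
    simp only [mul_apply_eq_comp, Ind_apply]
    split_ifs <;> rfl

theorem Ind_idem (p : X → Prop) : Ind p * Ind p = Ind p :=
  ext_pt fun ξ x => by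
    simp only [mul_apply_eq_comp, Ind_apply]
    split_ifs <;> rfl

theorem Ind_not (p : X → Prop) : Ind (fun x => ¬ p x) = 1 - Ind p :=
  ext_pt fun ξ x => by
    by_cases h : p x <;> simp [Ind_apply, h]

open Classical in
theorem apply_eq_zero (a : H X →L[ℂ] H Y) (ξ : H X) (y : Y)
    (h : ∀ x, ξ x = 0 ∨ a (δ x) y = 0) : a ξ y = 0 := by
  have h1 := (lp.hasSum_single (by simp) ξ).mapL ((innerSL ℂ (δ y)).comp a)
  have h2 : ∀ x, ((innerSL ℂ (δ y)).comp a) (lp.single 2 x (ξ x)) = 0 := fun x => by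
    have : (lp.single 2 x (ξ x) : H X) = ξ x • δ x := by
      rw [δ, ← lp.single_smul, smul_eq_mul, mul_one]
    rw [this, map_smul, ContinuousLinearMap.comp_apply, innerSL_apply_apply, inner_δ]
    rcases h x with h | h <;> simp [h]
  simp only [h2] at h1
  rw [← inner_δ]
  exact h1.unique hasSum_zero

/-- the finite propagation operators -/
def FP (X : Type) [MetricSpace X] : StarSubalgebra ℂ (H X →L[ℂ] H X) where
  carrier := {a | ∃ r : ℝ, ∀ x x', r < dist x x' → a (δ x) x' = 0}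
  mul_mem' := by
    rintro a b ⟨r, hr⟩ ⟨t, ht⟩
    refine ⟨r + t, fun x x' h => apply_eq_zero a _ _ fun z => ?_⟩
    by_contra h1
    push Not at h1
    have h2 := not_lt.mp (mt (ht x z) h1.1)
    have h3 := not_lt.mp (mt (hr z x') h1.2)
    linarith [dist_triangle x z x']
  add_mem' := by
    rintro a b ⟨r, hr⟩ ⟨t, ht⟩
    refine ⟨max r t, fun x x' h => ?_⟩
    simp [hr x x' ((le_max_left _ _).trans_lt h), ht x x' ((le_max_right _ _).trans_lt h)]
  algebraMap_mem' := fun c => ⟨0, fun x x' h => by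
    simp [Algebra.algebraMap_eq_smul_one, δ_apply, (dist_pos.mp h).symm]⟩
  star_mem' := by
    rintro a ⟨r, hr⟩
    refine ⟨r, fun x x' h => ?_⟩
    rw [ContinuousLinearMap.star_eq_adjoint, adj_ent, hr x' x (by rwa [dist_comm]), star_zero]

end ops

end Pool.Agent.H86.Roe
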