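import Pool.Agent.H86.BlDefs

set_option linter.unusedSectionVars false
set_option linter.deprecated false

namespace Pool.Agent.H86.Bl
open Filter Topology Finset

variable {X : Type*} [BL X]

theorem smul_sup' {c : ℝ} (hc : 0 ≤ c) (a b : X) : c • (a ⊔ b) = c • a ⊔ c • b := by
  rcases eq_or_lt_of_le hc with rfl | h
  · simp
  refine le_antisymm ?_ (sup_le (smul_le_smul_of_nonneg_left le_sup_left hc)
    (smul_le_smul_of_nonneg_left le_sup_right hc))
  have h1 : ∀ x : X, x = c⁻¹ • c • x := fun x => by rw [smul_smul, inv_mul_cancel₀ h.ne', one_smul]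
  have h2 : a ⊔ b ≤ c⁻¹ • (c • a ⊔ c • b) := sup_le
    ((h1 a).trans_le (smul_le_smul_of_nonneg_left le_sup_left (inv_nonneg.2 hc)))
    ((h1 b).trans_le (smul_le_smul_of_nonneg_left le_sup_right (inv_nonneg.2 hc)))
  have := smul_le_smul_of_nonneg_left h2 hc
  rwa [smul_smul, mul_inv_cancel₀ h.ne', one_smul] at this

theorem abs_smul' (c : ℝ) (a : X) : |c • a| = |c| • |a| := by
  rcases le_total 0 c with h | h
  · rw [abs_of_nonneg h, abs, abs, smul_sup' h, smul_neg]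
  · rw [abs_of_nonpos h, abs, abs, smul_sup' (neg_nonneg.2 h), smul_neg, neg_smul, neg_neg, sup_comm]

theorem smul_nn {c : ℝ} (hc : 0 ≤ c) {a : X} (ha : 0 ≤ a) : 0 ≤ c • a := smul_nonneg hc ha

variable {J : Submodule ℝ X}

theorem IsIdeal.of_le (hJ : IsIdeal J) {a b : X} (ha : a ∈ J) (h0 : 0 ≤ b) (h : b ≤ a) : b ∈ J :=
  hJ.2 a ha b (by rw [abs_of_nonneg h0]; exact h.trans (le_abs_self a))

theorem IsIdeal.abs_mem (hJ : IsIdeal J) {a : X} (ha : a ∈ J) : |a| ∈ J :=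
  hJ.2 a ha _ (by rw [abs_abs])

theorem IsIdeal.abs_congr (hJ : IsIdeal J) {a b : X} (h : J.mkQ a = J.mkQ b) :
    J.mkQ |a| = J.mkQ |b| :=
  (Submodule.Quotient.eq J).2 (hJ.2 _ ((Submodule.Quotient.eq J).1 h) _ (abs_abs_sub_abs_le _ _))

theorem IsIdeal.inf_congr (hJ : IsIdeal J) {a b : X} (c : X) (h : J.mkQ a = J.mkQ b) :
    J.mkQ (a ⊓ c) = J.mkQ (b ⊓ c) :=
  (Submodule.Quotient.eq J).2 (hJ.2 _ ((Submodule.Quotient.eq J).1 h) _ (abs_inf_sub_inf_le_abs _ _ _))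

theorem IsIdeal.sup_congr (hJ : IsIdeal J) {a b : X} (c : X) (h : J.mkQ a = J.mkQ b) :
    J.mkQ (a ⊔ c) = J.mkQ (b ⊔ c) :=
  (Submodule.Quotient.eq J).2 (hJ.2 _ ((Submodule.Quotient.eq J).1 h) _ (abs_sup_sub_sup_le_abs _ _ _))

theorem ideal_bot : IsIdeal (⊥ : Submodule ℝ X) :=
  ⟨by simp, fun a ha b h => by
    rw [Submodule.mem_bot] at *
    have := HasSolidNorm.solid h
    rw [ha, norm_zero] at this
    exact norm_le_zero_iff.1 this⟩

theorem inf_add_le {a b c : X} (ha : 0 ≤ a) (hb : 0 ≤ b) (hc : 0 ≤ c) :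
    a ⊓ (b + c) ≤ a ⊓ b + a ⊓ c := by
  rw [inf_add, add_inf, add_inf]
  refine le_inf (le_inf ?_ ?_) (le_inf ?_ inf_le_right)
  · exact inf_le_left.trans (le_add_of_nonneg_right ha)
  · exact inf_le_left.trans (le_add_of_nonneg_right hc)
  · exact inf_le_left.trans (le_add_of_nonneg_left hb)

/-- positive elements disjoint from `a` modulo `J` -/
def DJ (hJ : IsIdeal J) {a : X} (ha : 0 ≤ a) : AddSubmonoid X where
  carrier := {s | 0 ≤ s ∧ a ⊓ s ∈ J}
  zero_mem' := ⟨le_rfl, by rw [inf_eq_right.2 ha]; exact J.zero_mem⟩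
  add_mem' := fun {b c} hb hc => ⟨add_nonneg hb.1 hc.1, hJ.of_le (J.add_mem hb.2 hc.2)
    (le_inf ha (add_nonneg hb.1 hc.1)) (inf_add_le ha hb.1 hc.1)⟩

theorem DJ_closed (hJ : IsIdeal J) {a : X} (ha : 0 ≤ a) : IsClosed (DJ hJ ha : Set X) :=
  isClosed_nonneg.inter (hJ.1.preimage (continuous_const.inf continuous_id))

theorem DJ_smul (hJ : IsIdeal J) {a : X} (ha : 0 ≤ a) {s : X} (hs : s ∈ DJ hJ ha) {c : ℝ}
    (hc : 0 ≤ c) : c • s ∈ DJ hJ ha := by
  have h1 := nsmul_mem hs ⌈c⌉₊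
  refine ⟨smul_nn hc hs.1, hJ.of_le h1.2 (le_inf ha (smul_nn hc hs.1)) (inf_le_inf_left _ ?_)⟩
  rw [← Nat.cast_smul_eq_nsmul ℝ, ← sub_nonneg, ← sub_smul]
  exact smul_nn (sub_nonneg.2 (Nat.le_ceil c)) hs.1

theorem disj_smul {a b : X} (ha : 0 ≤ a) (hb : 0 ≤ b) (h : a ⊓ b = 0) {c d : ℝ} (hc : 0 ≤ c)
    (hd : 0 ≤ d) : (c • a) ⊓ (d • b) = 0 := by
  have h1 : a ⊓ d • b = 0 := (DJ_smul ideal_bot ha (s := b) ⟨hb, h⟩ hd).2
  have h2 := (DJ_smul ideal_bot (smul_nn hd hb) (s := a) ⟨ha, by rw [inf_comm]; exact h1⟩ hc).2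
  rw [inf_comm]; exact h2

theorem abs_sub_of_disj {a b : X} (h : a ⊓ b = 0) : |a - b| = a + b := by
  rw [abs_sub_comm, ← sup_sub_inf_eq_abs_sub, ← inf_add_sup a b, h, sub_zero, zero_add]

theorem inf_mem_of {a b : X} (h : J.mkQ |a - b| = J.mkQ (a + b)) : a ⊓ b ∈ J := by
  have h1 := (Submodule.Quotient.eq J).1 h.symm
  rw [abs_sub_comm, ← sup_sub_inf_eq_abs_sub, ← inf_add_sup a b] at h1
  have : a ⊓ b = (1 / 2 : ℝ) • (a ⊓ b + a ⊔ b - (a ⊔ b - a ⊓ b)) := by module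
  rw [this]; exact J.smul_mem _ h1

theorem exrep (hJ : IsIdeal J) (y : X ⧸ J) {c ε : ℝ} (hc : ‖y‖ ≤ c) (hε : 0 < ε) :
    ∃ x, J.mkQ x = y ∧ ‖x‖ ≤ (1 + ε) * c := by
  haveI := hJ.1
  rcases eq_or_lt_of_le ((norm_nonneg _).trans hc) with h | h
  · exact ⟨0, by rw [map_zero]; exact (norm_le_zero_iff.1 (h ▸ hc)).symm, by simp [← h]⟩
  · obtain ⟨x, hx, hx'⟩ := Submodule.Quotient.norm_mk_lt y (mul_pos hε h)
    exact ⟨x, hx, by linarith⟩

theorem disj_lift (hJ : IsIdeal J) (v : ℕ → X) (h0 : ∀ n, 0 ≤ v n) {C : ℝ} (hC : ∀ n, ‖v n‖ ≤ C)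
    (hd : ∀ n m, n ≠ m → v n ⊓ v m ∈ J) : ∃ w : ℕ → X, (∀ n, 0 ≤ w n ∧ w n ≤ v n ∧
      J.mkQ (w n) = J.mkQ (v n)) ∧ ∀ n m, n ≠ m → w n ⊓ w m = 0 := by
  set u : ℕ → X := fun n => (1 / 2 : ℝ) ^ n • v n with hu
  have u0 : ∀ n, 0 ≤ u n := fun n => smul_nn (by positivity) (h0 n)
  set t : ℕ → ℕ → X := fun n m => if m = n then 0 else u m with ht
  have t0 : ∀ n m, 0 ≤ t n m := fun n m => by simp only [ht]; split_ifs; exacts [le_rfl, u0 m]
  have hs : ∀ n, Summable (t n) := fun n => by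
    refine Summable.of_norm_bounded (summable_geometric_two.mul_right C) fun m => ?_
    have : 0 ≤ C := (norm_nonneg _).trans (hC 0)
    simp only [ht, hu]; split_ifs
    · rw [norm_zero]; positivity
    · rw [norm_smul, Real.norm_of_nonneg (by positivity)]
      exact mul_le_mul_of_nonneg_left (hC m) (by positivity)
  set r : ℕ → X := fun n => (u n - ∑' m, t n m)⁺ with hr
  have r0 : ∀ n, 0 ≤ r n := fun n => posPart_nonneg _
  have r1 : ∀ n m, m ≠ n → r n ≤ (u n - u m)⁺ := fun n m h => posPart_mono (sub_le_sub_left (by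
    have := (hs n).le_tsum m (fun k _ => t0 n k)
    simpa [ht, h] using this) _)
  have e : ∀ n, (2 : ℝ) ^ n • u n = v n := fun n => by
    rw [hu, smul_smul, ← mul_pow]; norm_num
  refine ⟨fun n => (2 : ℝ) ^ n • r n, fun n => ⟨smul_nn (by positivity) (r0 n), ?_, ?_⟩,
    fun n m h => disj_smul (r0 n) (r0 m) (le_antisymm ?_ (le_inf (r0 n) (r0 m))) (by positivity)
      (by positivity)⟩
  · rw [← e n]
    refine smul_le_smul_of_nonneg_left (sup_le (sub_le_self _ (tsum_nonneg (t0 n))) (u0 n))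
      (by positivity)
  · rw [← e n, map_smul, map_smul]
    congr 1
    have h1 : ∑' m, t n m ∈ DJ hJ (h0 n) := tsum_mem (DJ_closed hJ (h0 n)) fun m => by
      simp only [ht]; split_ifs with h
      · exact zero_mem _
      · exact DJ_smul hJ _ ⟨h0 m, hd n m (Ne.symm h)⟩ (by positivity)
    have h2 : u n ∈ DJ hJ h1.1 := DJ_smul hJ _ ⟨h0 n, by rw [inf_comm]; exact h1.2⟩ (by positivity)
    refine ((Submodule.Quotient.eq J).2 ?_).symm
    have : u n - r n = (∑' m, t n m) ⊓ u n := by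
      simp only [hr, posPart_def]
      rw [sub_sup, sub_sub_cancel, sub_zero]
    rw [this]; exact h2.2
  · refine (inf_le_inf (r1 n m h.symm) (r1 m n h)).trans_eq ?_
    rw [← neg_sub (u n) (u m), posPart_neg, posPart_inf_negPart_eq_zero]

theorem proj_real : Proj ℝ := by
  intro X _ J hJ T hT ε hε
  obtain ⟨x, hx, hx'⟩ := exrep hJ (T 1) (c := ‖T‖) (by simpa using T.le_opNorm 1) hε
  have h1 := hT 1 x hx
  rw [abs_one] at h1
  refine ⟨(1 : ℝ →L[ℝ] ℝ).smulRight |x|, fun p => ?_, fun p => ?_, ?_⟩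
  · simp [abs_smul']
  · simp only [ContinuousLinearMap.smulRight_apply, ContinuousLinearMap.one_apply, map_smul]
    rw [← h1, ← map_smul, smul_eq_mul, mul_one]
  · rw [ContinuousLinearMap.norm_smulRight_apply, norm_one, one_mul, norm_abs_eq_norm]; exact hx'

theorem tou_real : HasTOU ℝ := ⟨1, zero_le_one, fun J _ h => eq_top_iff.2 fun x _ => by
  simpa using J.smul_mem x h⟩

theorem ideal_closure (I : ℕ → Submodule ℝ X) (h : ∀ n, IsIdeal (I n)) (hm : Monotone I) :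
    IsIdeal (⨆ n, I n).topologicalClosure := by
  refine ⟨Submodule.isClosed_topologicalClosure _, fun a ha b hb => ?_⟩
  have : b = (fun a => (b ⊓ |a|) ⊔ -|a|) a := by
    simp only
    rw [inf_eq_left.2 ((le_abs_self b).trans hb), sup_eq_left.2 (neg_le.2 ((neg_le_abs b).trans hb))]
  rw [this]
  refine map_mem_closure (f := fun a => (b ⊓ |a|) ⊔ -|a|) (by
    have : Continuous fun a : X => |a| := continuous_id.sup continuous_neg
    exact (continuous_const.inf this).sup this.neg) ha fun a ha => ?_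
  obtain ⟨n, hn⟩ := (Submodule.mem_iSup_of_directed I hm.directed_le).1 ha
  refine (Submodule.mem_iSup_of_directed I hm.directed_le).2 ⟨n, (h n).2 a hn _ ?_⟩
  exact abs_le'.2 ⟨sup_le inf_le_right (neg_le_self (abs_nonneg a)), neg_le.2 le_sup_right⟩

universe u in
theorem Proj.semi {A : Type*} [BL A] (h : Proj.{u} A) : SemiProj.{u} A := by
  intro E _ _ I hI hm I' hI' φ hφ hn
  refine ⟨0, fun ε hε => ?_⟩
  obtain ⟨S, h1, h2, h3⟩ := h E I' (hI' ▸ ideal_closure I hI hm) φ hφ ε hε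
  let Q : E →L[ℝ] E ⧸ I 0 := (I 0).mkQ.mkContinuous 1 fun x => by
    simpa using Submodule.Quotient.norm_mk_le _ x
  refine ⟨Q.comp S, fun p x hx => ?_, ?_, fun p x hx => ?_⟩
  · change (I 0).mkQ (S |p|) = _
    rw [h1 p]; exact ((hI 0).abs_congr hx).symm
  · refine ContinuousLinearMap.opNorm_le_bound _ (by positivity) fun p => ?_
    refine (Submodule.Quotient.norm_mk_le _ (S p)).trans ((S.le_opNorm p).trans ?_)
    exact mul_le_mul_of_nonneg_right (h3.trans (mul_le_of_le_one_right (by positivity) hn))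
      (norm_nonneg _)
  · rw [← h2 p]
    refine (Submodule.Quotient.eq _).2 ?_
    rw [hI']
    exact Submodule.le_topologicalClosure _ (le_iSup I 0 ((Submodule.Quotient.eq _).1 hx))

end Pool.Agent.H86.Bl
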