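import Pool.Agent.H86.BlA

set_option linter.unusedSectionVars false
set_option linter.deprecated false

namespace Pool.Agent.H86.Bl
open Filter Topology Finset

variable {A D : Type} (G : A → D → unitInterval)

def Dom (f : D → ℝ) (c : ℝ) : Prop :=
  ∃ l : A → ℝ, (∀ a, 0 ≤ l a) ∧ HasSum l c ∧ ∀ d, |f d| ≤ ∑' a, l a * G a d

variable {G}

theorem sumG {l : A → ℝ} (h0 : ∀ a, 0 ≤ l a) (hl : Summable l) (d : D) :
    Summable fun a => l a * G a d :=
  Summable.of_nonneg_of_le (fun a => mul_nonneg (h0 a) (G a d).2.1)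
    (fun a => mul_le_of_le_one_right (h0 a) (G a d).2.2) hl

theorem Dom.le {f : D → ℝ} {c : ℝ} (h : Dom G f c) (d : D) : |f d| ≤ c := by
  obtain ⟨l, h0, h1, h2⟩ := h
  exact (h2 d).trans (hasSum_le (fun a => mul_le_of_le_one_right (h0 a) (G a d).2.2)
    (sumG h0 h1.summable d).hasSum h1)

theorem Dom.nonneg {f : D → ℝ} {c : ℝ} (h : Dom G f c) : 0 ≤ c := by
  obtain ⟨l, h0, h1, -⟩ := h
  exact h1.nonneg h0

theorem Dom.mono {f g : D → ℝ} {c : ℝ} (h : Dom G f c) (hg : ∀ d, |g d| ≤ |f d|) : Dom G g c := by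
  obtain ⟨l, h0, h1, h2⟩ := h
  exact ⟨l, h0, h1, fun d => (hg d).trans (h2 d)⟩

theorem Dom.zero : Dom G 0 0 := ⟨0, fun _ => le_rfl, hasSum_zero, fun d => by simp⟩

theorem Dom.add {f g : D → ℝ} {c e : ℝ} (h : Dom G f c) (h' : Dom G g e) :
    Dom G (f + g) (c + e) := by
  obtain ⟨l, h0, h1, h2⟩ := h
  obtain ⟨k, k0, k1, k2⟩ := h'
  refine ⟨l + k, fun a => add_nonneg (h0 a) (k0 a), h1.add k1, fun d => ?_⟩
  simp only [Pi.add_apply, add_mul]
  rw [(sumG h0 h1.summable d).tsum_add (sumG k0 k1.summable d)]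
  exact (abs_add_le _ _).trans (add_le_add (h2 d) (k2 d))

theorem Dom.smul {f : D → ℝ} {c : ℝ} (h : Dom G f c) (t : ℝ) : Dom G (t • f) (|t| * c) := by
  obtain ⟨l, h0, h1, h2⟩ := h
  refine ⟨fun a => |t| * l a, fun a => mul_nonneg (abs_nonneg _) (h0 a), h1.mul_left _, fun d => ?_⟩
  simp only [mul_assoc, tsum_mul_left, Pi.smul_apply, smul_eq_mul, abs_mul]
  exact mul_le_mul_of_nonneg_left (h2 d) (abs_nonneg _)

theorem Dom.tsum {f : ℕ → D → ℝ} {c : ℕ → ℝ} (h : ∀ k, Dom G (f k) (c k)) (hc : Summable c) :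
    Dom G (fun d => ∑' k, f k d) (∑' k, c k) := by
  have hle := fun k d => (h k).le d
  choose l h0 h1 h2 using h
  have S : Summable fun p : ℕ × A => l p.1 p.2 := (summable_prod_of_nonneg fun p => h0 p.1 p.2).2
    ⟨fun k => (h1 k).summable, by simpa only [fun k => (h1 k).tsum_eq] using hc⟩
  have S' : ∀ d, Summable fun p : ℕ × A => l p.1 p.2 * G p.2 d := fun d =>
    Summable.of_nonneg_of_le (fun p => mul_nonneg (h0 _ _) (G _ d).2.1)
      (fun p => mul_le_of_le_one_right (h0 _ _) (G _ d).2.2) S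
  refine ⟨fun a => ∑' k, l k a, fun a => tsum_nonneg fun k => h0 k a, ?_, fun d => ?_⟩
  · have e : ∑' k, c k = ∑' a, ∑' k, l k a := by
      rw [Summable.tsum_comm (f := l) S]; simp only [fun k => (h1 k).tsum_eq]
    rw [e]
    exact S.prod_symm.prod.hasSum
  · simp only [← tsum_mul_right]
    rw [Summable.tsum_comm (f := fun k a => l k a * G a d) (S' d)]
    have hs : Summable fun k => ‖f k d‖ :=
      Summable.of_nonneg_of_le (fun _ => norm_nonneg _) (fun k => hle k d) hc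
    exact (norm_tsum_le_tsum_norm hs).trans (hs.tsum_le_tsum (fun k => h2 k d) (S' d).prod)

theorem Dom.gen (a : A) : Dom G (fun d => G a d) 1 := by
  classical
  refine ⟨Pi.single a 1, fun b => by by_cases h : b = a <;> simp [h], hasSum_pi_single a 1,
    fun d => ?_⟩
  rw [tsum_eq_single a (fun b hb => by simp [hb]), abs_of_nonneg (G a d).2.1]; simp

variable (G)

def BS : Submodule ℝ (D → ℝ) where
  carrier := {f | ∃ c, Dom G f c}
  zero_mem' := ⟨0, Dom.zero⟩
  add_mem' := fun ⟨_, h⟩ ⟨_, h'⟩ => ⟨_, h.add h'⟩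
  smul_mem' := fun t _ ⟨_, h⟩ => ⟨_, h.smul t⟩

/-- functions dominated by `ℓ_1`-combinations of the `G a` -/
def B : Type := BS G

noncomputable instance : AddCommGroup (B G) := inferInstanceAs (AddCommGroup (BS G))
noncomputable instance : Module ℝ (B G) := inferInstanceAs (Module ℝ (BS G))

noncomputable def nB (f : B G) : ℝ := sInf {c | Dom G f.1 c}

variable {G}

theorem nB_le {f : B G} {c : ℝ} (h : Dom G f.1 c) : nB G f ≤ c :=
  csInf_le ⟨0, fun _ h => h.nonneg⟩ h

theorem le_nB {f : B G} {b : ℝ} (h : ∀ c, Dom G f.1 c → b ≤ c) : b ≤ nB G f := le_csInf f.2 h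

theorem nB_smul (t : ℝ) (f : B G) : nB G (t • f) ≤ |t| * nB G f := by
  rcases eq_or_lt_of_le (abs_nonneg t) with h | h
  · obtain ⟨c, hc⟩ := f.2
    have := nB_le (f := t • f) (hc.smul t)
    rw [← h] at this ⊢; simpa using this
  · rw [← div_le_iff₀' h]
    exact le_nB fun c hc => (div_le_iff₀' h).2 (nB_le (f := t • f) (hc.smul t))

variable (G)

noncomputable instance : NormedAddCommGroup (B G) := AddGroupNorm.toNormedAddCommGroup
  { toFun := nB G
    map_zero' := le_antisymm (nB_le Dom.zero) (le_nB fun _ h => h.nonneg)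
    add_le' := fun f g => by
      rw [← sub_le_iff_le_add]
      refine le_nB fun c hc => ?_
      rw [sub_le_comm]
      exact le_nB fun e he => sub_le_iff_le_add'.2 (nB_le (f := f + g) (hc.add he))
    neg' := fun f => le_antisymm
      (le_nB fun c hc => nB_le (hc.mono fun d => (abs_neg (f.1 d)).le))
      (le_nB fun c hc => nB_le (hc.mono fun d => (abs_neg (f.1 d)).ge))
    eq_zero_of_map_eq_zero' := fun f h => Subtype.ext (funext fun d =>
      abs_nonpos_iff.1 (h ▸ le_nB fun c hc => hc.le d)) }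

noncomputable instance : NormedSpace ℝ (B G) := ⟨nB_smul⟩

noncomputable instance : Lattice (B G) := Subtype.lattice
  (fun f g ⟨_, h⟩ ⟨_, h'⟩ => ⟨_, ((h.mono (g := |f|) fun d => (abs_abs _).le).add
    (h'.mono (g := |g|) fun d => (abs_abs _).le)).mono fun d =>
      (abs_max_le_max_abs_abs.trans (max_le_add_of_nonneg (abs_nonneg _) (abs_nonneg _))).trans
        (le_abs_self _)⟩)
  (fun f g ⟨_, h⟩ ⟨_, h'⟩ => ⟨_, ((h.mono (g := |f|) fun d => (abs_abs _).le).add
    (h'.mono (g := |g|) fun d => (abs_abs _).le)).mono fun d =>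
      (abs_min_le_max_abs_abs.trans (max_le_add_of_nonneg (abs_nonneg _) (abs_nonneg _))).trans
        (le_abs_self _)⟩)

variable {G}

theorem ev_le (f : B G) (d : D) : |f.1 d| ≤ ‖f‖ := le_nB fun _ hc => hc.le d

theorem norm_le_of_dom {f : B G} {c : ℝ} (h : Dom G f.1 c) : ‖f‖ ≤ c := nB_le h

theorem exdom (f : B G) {ε : ℝ} (hε : 0 < ε) : ∃ c, Dom G f.1 c ∧ c < ‖f‖ + ε :=
  exists_lt_of_csInf_lt f.2 (lt_add_of_pos_right _ hε)

variable (G)

instance : CompleteSpace (B G) := by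
  refine NormedAddCommGroup.completeSpace_of_summable_imp_tendsto fun u hu => ?_
  choose c hc hc' using fun k => exdom (u k) (ε := (1 / 2) ^ k) (by positivity)
  have sc : Summable c := Summable.of_nonneg_of_le (fun k => (hc k).nonneg) (fun k => (hc' k).le)
    (hu.add summable_geometric_two)
  refine ⟨⟨_, _, Dom.tsum hc sc⟩, ?_⟩
  rw [tendsto_iff_norm_sub_tendsto_zero]
  refine squeeze_zero (fun _ => norm_nonneg _) (fun n => norm_le_of_dom ((Dom.tsum
    (fun k => hc (k + n)) ((summable_nat_add_iff n).2 sc)).mono fun d => ?_)) (tendsto_sum_nat_add c)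
  have hs : Summable fun k => (u k).1 d :=
    Summable.of_norm_bounded sc fun k => (hc k).le d
  have e : (∑ i ∈ range n, u i : B G).1 d = ∑ i ∈ range n, (u i).1 d := by
    have := map_sum ((LinearMap.proj d).comp (BS G).subtype) u (range n)
    exact this
  change |(∑ i ∈ range n, u i : B G).1 d - ∑' k, (u k).1 d| ≤ _
  rw [e, ← hs.sum_add_tsum_nat_add n, sub_add_cancel_left, abs_neg]

noncomputable instance : BL (B G) where
  add_le_add_left := fun _ _ h _ d => add_le_add_left (h d) _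
  solid := fun f g h => le_nB fun _ hc => nB_le (hc.mono fun d => h d)
  smul_le_smul_of_nonneg_left := fun _ ht _ _ h d => mul_le_mul_of_nonneg_left (h d) ht

variable {G}

noncomputable def ev (d : D) : B G →L[ℝ] ℝ :=
  LinearMap.mkContinuous (σ := RingHom.id ℝ) (E := B G) ((LinearMap.proj d).comp (BS G).subtype) 1
    fun f => by rw [one_mul]; exact ev_le f d

theorem ev_apply (d : D) (f : B G) : ev d f = f.1 d := rfl

theorem dedekind (S : Set (B G)) (h1 : S.Nonempty) (h2 : BddAbove S) : ∃ s, IsLUB S s := by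
  obtain ⟨x, hx⟩ := h1
  obtain ⟨b, hb⟩ := h2
  have bd : ∀ d, BddAbove ((fun f : B G => f.1 d) '' S) := fun d =>
    ⟨b.1 d, by rintro _ ⟨f, hf, rfl⟩; exact hb hf d⟩
  have le : ∀ b ∈ upperBounds S, ∀ d, sSup ((fun f : B G => f.1 d) '' S) ≤ b.1 d := fun b hb d =>
    csSup_le ⟨_, x, hx, rfl⟩ (by rintro _ ⟨f, hf, rfl⟩; exact hb hf d)
  obtain ⟨c, hc⟩ := (|x| + |b|).2
  refine ⟨⟨fun d => sSup ((fun f : B G => f.1 d) '' S), c, hc.mono fun d => ?_⟩,
    fun f hf d => le_csSup (bd d) ⟨f, hf, rfl⟩, fun b hb d => le b hb d⟩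
  have a1 := le b hb d
  have a2 := le_csSup (bd d) ⟨x, hx, rfl⟩
  refine le_trans ?_ (le_abs_self _)
  change _ ≤ |x.1 d| + |b.1 d|
  rw [abs_le]
  constructor <;> linarith [neg_abs_le (x.1 d), le_abs_self (b.1 d), abs_nonneg (x.1 d),
    abs_nonneg (b.1 d)]

end Pool.Agent.H86.Bl
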