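import Pool.Agent.H86.BlB

set_option linter.unusedSectionVars false
set_option linter.deprecated false

namespace Pool.Agent.H86.Bl
open Filter Topology Finset

noncomputable def GW (n m : ℕ) : unitInterval := if m = n ∨ m = n + 1 then 1 else 0

/-- `ℓ_1` with the norm whose unit ball is the closed solid convex hull of the `e_n + e_{n+1}` -/
abbrev W : Type := B GW

def sh (l : ℕ → ℝ) : ℕ → ℝ
  | 0 => 0
  | n + 1 => l n

theorem GW_sum (l : ℕ → ℝ) (m : ℕ) : ∑' a, l a * GW a m = l m + sh l m := by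
  cases m with
  | zero => rw [tsum_eq_single 0 (fun b hb => by simp [GW, hb.symm])]; simp [GW, sh]
  | succ m =>
    rw [tsum_eq_sum (s := {m + 1, m}) (fun b hb => by
      simp only [mem_insert, mem_singleton, not_or] at hb
      simp [GW, Ne.symm hb.1, Ne.symm hb.2]), sum_pair (by omega)]
    simp [GW, sh]

theorem W_summable (f : W) : Summable fun n => |f.1 n| := by
  obtain ⟨c, l, h0, h1, h2⟩ := f.2
  have : Summable (sh l) := (summable_nat_add_iff 1).1 h1.summable
  exact Summable.of_nonneg_of_le (fun _ => abs_nonneg _) (fun n => (h2 n).trans_eq (GW_sum l n))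
    (h1.summable.add this)

noncomputable def ee (n : ℕ) : W := ⟨Pi.single n 1, 1, (Dom.gen n).mono fun d => by
  by_cases h : d = n <;> simp [GW, h]⟩

theorem ee_val (n m : ℕ) : (ee n).1 m = if m = n then 1 else 0 := by
  simp [ee, Pi.single_apply]

theorem ee_nonneg (n : ℕ) : 0 ≤ ee n := fun d => by
  change (0 : ℝ) ≤ (ee n).1 d; rw [ee_val]; split_ifs <;> norm_num

theorem ee_add_norm (n : ℕ) : ‖ee n + ee (n + 1)‖ ≤ 1 :=
  norm_le_of_dom ((Dom.gen n).mono fun d => by
    change |(ee n).1 d + (ee (n + 1)).1 d| ≤ _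
    rw [ee_val, ee_val]
    by_cases h : d = n
    · simp [GW, h]
    · by_cases h' : d = n + 1 <;> simp [GW, h, h'])

theorem ee_norm (n : ℕ) : ‖ee n‖ = 1 := by
  refine le_antisymm (norm_le_of_dom ((Dom.gen n).mono fun d => ?_)) ?_
  · rw [ee_val]; by_cases h : d = n <;> simp [GW, h]
  · simpa [ee_val] using ev_le (ee n) n

theorem ee_inf {n m : ℕ} (h : n ≠ m) : ee n ⊓ ee m = 0 := Subtype.ext (funext fun d => by
  change min ((ee n).1 d) ((ee m).1 d) = 0
  rw [ee_val, ee_val]
  split_ifs with h1 h2 <;> first | omega | simp)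

theorem W_hasSum (f : W) : HasSum (fun n => f.1 n • ee n) f := by
  have hs : Summable fun n => f.1 n • ee n := Summable.of_norm_bounded (W_summable f) fun n => by
    rw [norm_smul, ee_norm, mul_one, Real.norm_eq_abs]
  have : ∑' n, f.1 n • ee n = f := Subtype.ext (funext fun d => by
    rw [← ev_apply, (ev d).map_tsum hs, tsum_eq_single d (fun b hb => by
      simp [ev_apply, ee_val, hb.symm])]
    simp [ev_apply, ee_val])
  have h := hs.hasSum
  rwa [this] at h

theorem tou_W : HasTOU W := by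
  have hs : Summable fun n => (1 / 2 : ℝ) ^ n • ee n :=
    Summable.of_norm_bounded summable_geometric_two fun n => by
      rw [norm_smul, ee_norm, mul_one, Real.norm_of_nonneg (by positivity)]
  have h0 : ∀ n, 0 ≤ (1 / 2 : ℝ) ^ n • ee n := fun n => smul_nn (by positivity) (ee_nonneg n)
  refine ⟨∑' n, (1 / 2 : ℝ) ^ n • ee n, tsum_nonneg h0, fun J hJ he => eq_top_iff.2 fun f _ => ?_⟩
  rw [← (W_hasSum f).tsum_eq]
  refine tsum_mem hJ.1 fun n => J.smul_mem _ ?_
  have := J.smul_mem ((2 : ℝ) ^ n) (hJ.of_le he (h0 n) (hs.le_tsum n fun k _ => h0 k))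
  rwa [smul_smul, ← mul_pow, show (2 : ℝ) * (1 / 2) = 1 by norm_num, one_pow, one_smul] at this

section
variable {X : Type*} [BL X]

theorem abs_tsum_disj (w : ℕ → X) (w0 : ∀ n, 0 ≤ w n) {C : ℝ} (wC : ∀ n, ‖w n‖ ≤ C)
    (wd : ∀ n m, n ≠ m → w n ⊓ w m = 0) (f : ℕ → ℝ) (hf : Summable fun n => |f n|) :
    |∑' n, f n • w n| = ∑' n, |f n| • w n := by
  have hs : ∀ g : ℕ → ℝ, (∀ n, |g n| ≤ |f n|) → Summable fun n => g n • w n := fun g hg =>
    Summable.of_norm_bounded (hf.mul_right C) fun n => by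
      rw [norm_smul]; exact mul_le_mul (hg n) (wC n) (norm_nonneg _) (abs_nonneg _)
  have s1 := hs (fun n => (f n)⁺) fun n => by
    rw [abs_of_nonneg (posPart_nonneg _)]; exact sup_le (le_abs_self _) (abs_nonneg _)
  have s2 := hs (fun n => (f n)⁻) fun n => by
    rw [abs_of_nonneg (negPart_nonneg _)]; exact sup_le (neg_le_abs _) (abs_nonneg _)
  have b0 : 0 ≤ ∑' n, (f n)⁻ • w n := tsum_nonneg fun n => smul_nn (negPart_nonneg _) (w0 n)
  have h1 : ∑' n, (f n)⁺ • w n ∈ DJ ideal_bot b0 := tsum_mem (DJ_closed _ _) fun n => by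
    have a0 := smul_nn (posPart_nonneg (f n)) (w0 n)
    have : ∑' m, (f m)⁻ • w m ∈ DJ ideal_bot a0 := tsum_mem (DJ_closed _ _) fun m => by
      refine ⟨smul_nn (negPart_nonneg _) (w0 m), (Submodule.mem_bot ℝ).2 ?_⟩
      rcases eq_or_ne n m with rfl | h
      · rcases le_total 0 (f n) with h | h
        · rw [negPart_eq_zero.2 h, zero_smul]; exact inf_eq_right.2 a0
        · rw [posPart_eq_zero.2 h, zero_smul]
          exact inf_eq_left.2 (smul_nn (negPart_nonneg _) (w0 n))
      · exact disj_smul (w0 n) (w0 m) (wd n m h) (posPart_nonneg _) (negPart_nonneg _)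
    exact ⟨a0, by rw [inf_comm]; exact this.2⟩
  have h2 := abs_sub_of_disj ((inf_comm _ _).trans ((Submodule.mem_bot ℝ).1 h1.2))
  rw [← s1.tsum_sub s2, ← s1.tsum_add s2] at h2
  simpa only [← sub_smul, ← add_smul, posPart_sub_negPart, posPart_add_negPart] using h2

theorem exS (w : ℕ → X) (w0 : ∀ n, 0 ≤ w n) {C : ℝ} (wC : ∀ n, ‖w n + w (n + 1)‖ ≤ C)
    (wd : ∀ n m, n ≠ m → w n ⊓ w m = 0) :
    ∃ S : W →L[ℝ] X, LatHom S ∧ (∀ n, S (ee n) = w n) ∧ ‖S‖ ≤ C := by
  have hC : 0 ≤ C := (norm_nonneg _).trans (wC 0)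
  have wC' : ∀ n, ‖w n‖ ≤ C := fun n => (HasSolidNorm.solid (by
    rw [abs_of_nonneg (w0 n), abs_of_nonneg (add_nonneg (w0 n) (w0 _))]
    exact le_add_of_nonneg_right (w0 _))).trans (wC n)
  have hs : ∀ g : ℕ → ℝ, (Summable fun n => |g n|) → ∀ k, Summable fun n => g n • w (n + k) :=
    fun g hg k => Summable.of_norm_bounded (hg.mul_right C) fun n => by
      rw [norm_smul]; exact mul_le_mul_of_nonneg_left (wC' _) (abs_nonneg _)
  have hs0 : ∀ g : ℕ → ℝ, (Summable fun n => |g n|) → Summable fun n => g n • w n :=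
    fun g hg => hs g hg 0
  let L : W →ₗ[ℝ] X :=
    { toFun := fun f => ∑' n, f.1 n • w n
      map_add' := fun f g => by
        rw [← (hs0 _ (W_summable f)).tsum_add (hs0 _ (W_summable g))]
        exact tsum_congr fun n => add_smul _ _ _
      map_smul' := fun t f => by
        rw [RingHom.id_apply, ← (hs0 _ (W_summable f)).tsum_const_smul]
        exact tsum_congr fun n => mul_smul _ _ _ }
  have hb : ∀ f : W, ‖L f‖ ≤ C * ‖f‖ := by
    intro f
    have : ∀ c, Dom GW f.1 c → ‖L f‖ ≤ C * c := by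
      rintro c ⟨l, h0, h1, h2⟩
      have sl : Summable fun n => |l n| := h1.summable.abs
      have ssh : Summable fun n => |sh l n| := ((summable_nat_add_iff 1).1 h1.summable).abs
      have a1 : |L f| ≤ ∑' n, l n • (w n + w (n + 1)) := by
        change |∑' n, f.1 n • w n| ≤ _
        rw [abs_tsum_disj w w0 wC' wd _ (W_summable f)]
        have e : ∑' n, l n • (w n + w (n + 1)) = ∑' n, (l n + sh l n) • w n := by
          simp only [smul_add, add_smul]
          rw [(hs0 l sl).tsum_add (hs l sl 1), (hs0 l sl).tsum_add (hs0 _ ssh),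
            (hs0 _ ssh).tsum_eq_zero_add]
          simp [sh]
        rw [e]
        refine Summable.tsum_le_tsum (fun n => ?_) (hs0 _ (W_summable f).abs)
          (hs0 _ (h1.summable.add ((summable_nat_add_iff 1).1 h1.summable)).abs)
        rw [← sub_nonneg, ← sub_smul]
        exact smul_nn (sub_nonneg.2 ((h2 n).trans_eq (GW_sum l n))) (w0 n)
      refine (HasSolidNorm.solid (a1.trans (le_abs_self _))).trans ?_
      rw [mul_comm]
      refine tsum_of_norm_bounded (h1.mul_right C) fun n => ?_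
      rw [norm_smul, Real.norm_of_nonneg (h0 n)]
      exact mul_le_mul_of_nonneg_left (wC n) (h0 n)
    refine le_of_forall_pos_le_add fun ε hε => ?_
    obtain ⟨c, hc, hc'⟩ := exdom f (ε := ε / (C + 1)) (by positivity)
    have a1 := this c hc
    have a2 : ε / (C + 1) * (C + 1) = ε := by field_simp
    have a3 : 0 < ε / (C + 1) := by positivity
    nlinarith
  refine ⟨L.mkContinuous C hb, fun f => (abs_tsum_disj w w0 wC' wd _ (W_summable f)).symm,
    fun n => ?_, L.mkContinuous_norm_le hC hb⟩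
  change ∑' m, (ee n).1 m • w m = _
  rw [tsum_eq_single n (fun b hb => by simp [ee_val, hb])]; simp [ee_val]
end

theorem proj_W : Proj W := by
  intro X _ J hJ T hT ε hε
  haveI := hJ.1
  choose v hv _ using fun n => exrep hJ (T (ee n)) le_rfl hε
  have hv' : ∀ n, J.mkQ |v n| = T (ee n) := fun n => by
    rw [← hT _ _ (hv n), abs_of_nonneg (ee_nonneg n)]
  choose z hz hz' using fun n => exrep hJ (T (ee n + ee (n + 1))) (c := ‖T‖)
    ((T.le_opNorm _).trans (mul_le_of_le_one_right (norm_nonneg _) (ee_add_norm n))) hε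
  have hz2 : ∀ n, J.mkQ |z n| = J.mkQ (|v n| + |v (n + 1)|) := fun n => by
    rw [← hT _ _ (hz n), abs_of_nonneg (add_nonneg (ee_nonneg n) (ee_nonneg _)), map_add, map_add,
      hv', hv']
  have hd : ∀ n m, n ≠ m → |v n| ⊓ |v m| ∈ J := fun n m h => inf_mem_of (by
    rw [← hT (ee n - ee m) _ (by rw [map_sub, map_sub, hv', hv']), abs_sub_of_disj (ee_inf h),
      map_add, map_add, hv', hv'])
  obtain ⟨w, hw, wd⟩ := disj_lift hJ (fun n => |z (n - 1)| ⊓ (|z n| ⊓ |v n|))
    (fun n => le_inf (abs_nonneg _) (le_inf (abs_nonneg _) (abs_nonneg _))) (C := (1 + ε) * ‖T‖)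
    (fun n => (HasSolidNorm.solid (by
      rw [abs_of_nonneg (le_inf (abs_nonneg _) (le_inf (abs_nonneg _) (abs_nonneg _)))]
      exact inf_le_left)).trans (hz' (n - 1)))
    (fun n m h => hJ.of_le (hd n m h) (le_inf (le_inf (abs_nonneg _) (le_inf (abs_nonneg _)
      (abs_nonneg _))) (le_inf (abs_nonneg _) (le_inf (abs_nonneg _) (abs_nonneg _))))
      (inf_le_inf (inf_le_right.trans inf_le_right) (inf_le_right.trans inf_le_right)))
  have hwT : ∀ n, J.mkQ (w n) = T (ee n) := fun n => by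
    have a1 : J.mkQ (|z n| ⊓ |v n|) = J.mkQ |v n| := by
      rw [hJ.inf_congr _ (hz2 n), inf_eq_right.2 (le_add_of_nonneg_right (abs_nonneg _))]
    rw [(hw n).2.2, inf_comm, hJ.inf_congr _ a1, inf_comm, hJ.inf_congr _ (hz2 (n - 1)), ← hv',
      inf_eq_right.2]
    cases n with
    | zero => exact le_add_of_nonneg_right (abs_nonneg _)
    | succ n => exact le_add_of_nonneg_left (abs_nonneg _)
  obtain ⟨S, h1, h2, h3⟩ := exS w (fun n => (hw n).1) (C := (1 + ε) * ‖T‖) (fun n =>
    (HasSolidNorm.solid (by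
      rw [abs_of_nonneg (add_nonneg (hw n).1 (hw _).1), ← inf_add_sup, wd n (n + 1) (by omega),
        zero_add]
      exact sup_le ((hw n).2.1.trans (inf_le_right.trans inf_le_left))
        ((hw (n + 1)).2.1.trans inf_le_left))).trans (hz' n)) wd
  refine ⟨S, h1, fun f => ?_, h3⟩
  let Q : X →L[ℝ] X ⧸ J := J.mkQ.mkContinuous 1 fun x => by
    simpa using Submodule.Quotient.norm_mk_le _ x
  refine ((Q.comp S).hasSum (W_hasSum f)).unique ?_
  have := T.hasSum (W_hasSum f)
  simp only [map_smul] at this ⊢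
  have e : ∀ n, (Q.comp S) (ee n) = T (ee n) := fun n => by rw [← hwT, ← h2]; rfl
  simpa only [e] using this

end Pool.Agent.H86.Bl
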