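import Pool.Agent.H86.BlC

set_option linter.unusedSectionVars false
set_option linter.deprecated false

namespace Pool.Agent.H86.Bl
open Filter Topology Finset OnePoint

/-- two-dimensional `ℓ_1` -/
def L12 : Type := ℝ × ℝ

noncomputable instance : AddCommGroup L12 := inferInstanceAs (AddCommGroup (ℝ × ℝ))
noncomputable instance : Module ℝ L12 := inferInstanceAs (Module ℝ (ℝ × ℝ))
noncomputable instance : Lattice L12 := inferInstanceAs (Lattice (ℝ × ℝ))
instance : FiniteDimensional ℝ L12 := inferInstanceAs (FiniteDimensional ℝ (ℝ × ℝ))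

noncomputable instance : NormedAddCommGroup L12 := AddGroupNorm.toNormedAddCommGroup
  { toFun := fun x => |x.1| + |x.2|
    map_zero' := by change |(0 : ℝ)| + |(0 : ℝ)| = 0; simp
    add_le' := fun f g => by
      change |f.1 + g.1| + |f.2 + g.2| ≤ _
      linarith [abs_add_le f.1 g.1, abs_add_le f.2 g.2]
    neg' := fun f => by change |-f.1| + |-f.2| = _; simp
    eq_zero_of_map_eq_zero' := fun f h => Prod.ext
      (abs_nonpos_iff.1 (by linarith [abs_nonneg f.2])) (abs_nonpos_iff.1 (by linarith [abs_nonneg f.1])) }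

theorem L12_norm (x : L12) : ‖x‖ = |x.1| + |x.2| := rfl

noncomputable instance : NormedSpace ℝ L12 := ⟨fun t x => by
  change |t * x.1| + |t * x.2| ≤ |t| * (|x.1| + |x.2|)
  rw [abs_mul, abs_mul, mul_add]⟩

instance : CompleteSpace L12 := FiniteDimensional.complete ℝ L12
instance : ProperSpace L12 := FiniteDimensional.proper_real L12

noncomputable instance : BL L12 where
  add_le_add_left := fun _ _ h _ => ⟨add_le_add_left h.1 _, add_le_add_left h.2 _⟩
  solid := fun _ _ h => add_le_add h.1 h.2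
  smul_le_smul_of_nonneg_left := fun _ ht _ _ h =>
    ⟨mul_le_mul_of_nonneg_left h.1 ht, mul_le_mul_of_nonneg_left h.2 ht⟩

noncomputable instance cBL (K Y : Type*) [TopologicalSpace K] [CompactSpace K] [BL Y] :
    BL C(K, Y) where
  solid := fun f g h => (ContinuousMap.norm_le _ (norm_nonneg _)).2 fun k =>
    (HasSolidNorm.solid (h k)).trans (g.norm_coe_le_norm k)
  smul_le_smul_of_nonneg_left := fun _ ht _ _ h k => smul_le_smul_of_nonneg_left (h k) ht

abbrev XX : Type := C(OnePoint ℕ, L12)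

instance : SecondCountableTopology (OnePoint ℕ) :=
  LightProfinite.isClosedEmbedding_natUnionInftyEmbedding.isEmbedding.secondCountableTopology

noncomputable def p1 : L12 →L[ℝ] ℝ := LinearMap.mkContinuous (LinearMap.fst ℝ ℝ ℝ) 1 fun x => by
  change |x.1| ≤ 1 * (|x.1| + |x.2|); linarith [abs_nonneg x.2]
noncomputable def p2 : L12 →L[ℝ] ℝ := LinearMap.mkContinuous (LinearMap.snd ℝ ℝ ℝ) 1 fun x => by
  change |x.2| ≤ 1 * (|x.1| + |x.2|); linarith [abs_nonneg x.1]

/-- kernel ideal of a family of coordinates -/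
def KI (s : Set (OnePoint ℕ)) : Submodule ℝ XX where
  carrier := {F | (∀ k, (F k).2 = 0) ∧ ∀ k ∈ s, (F k).1 = 0}
  zero_mem' := ⟨fun _ => rfl, fun _ _ => rfl⟩
  add_mem' := fun {F G} hF hG => ⟨fun k => by
    change (F k).2 + (G k).2 = 0; rw [hF.1, hG.1, add_zero], fun k hk => by
    change (F k).1 + (G k).1 = 0; rw [hF.2 k hk, hG.2 k hk, add_zero]⟩
  smul_mem' := fun t F hF => ⟨fun k => by
    change t * (F k).2 = 0; rw [hF.1, mul_zero], fun k hk => by
    change t * (F k).1 = 0; rw [hF.2 k hk, mul_zero]⟩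

theorem KI_ideal (s : Set (OnePoint ℕ)) : IsIdeal (KI s) := by
  refine ⟨?_, fun a ha b h => ⟨fun k => abs_nonpos_iff.1 ?_, fun k hk => abs_nonpos_iff.1 ?_⟩⟩
  · change IsClosed {F : XX | (∀ k, p2 (F k) = 0) ∧ ∀ k ∈ s, p1 (F k) = 0}
    simp only [Set.setOf_and, Set.setOf_forall]
    exact (isClosed_iInter fun k => isClosed_eq (by fun_prop) continuous_const).inter
      (isClosed_iInter fun k => isClosed_iInter fun _ => isClosed_eq (by fun_prop) continuous_const)
  · have : |(b k).2| ≤ |(a k).2| := (h k).2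
    rwa [ha.1 k, abs_zero] at this
  · have : |(b k).1| ≤ |(a k).1| := (h k).1
    rwa [ha.2 k hk, abs_zero] at this

def II (n : ℕ) : Submodule ℝ XX := KI ({∞} ∪ {k | ∃ m : ℕ, n ≤ m ∧ k = m})

def mk2 (a b : ℝ) : L12 := (a, b)

theorem mk_tendsto {u v : ℕ → ℝ} {a b : ℝ} (hu : Tendsto u atTop (𝓝 a)) (hv : Tendsto v atTop (𝓝 b)) :
    Tendsto (fun n => mk2 (u n) (v n)) atTop (𝓝 (mk2 a b)) := by
  refine (tendsto_iff_norm_sub_tendsto_zero (E := L12)).2 ?_
  change Tendsto (fun n => |u n - a| + |v n - b|) atTop (𝓝 0)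
  simpa using ((hu.sub_const a).abs).add ((hv.sub_const b).abs)

theorem W_tendsto (f : W) : Tendsto f.1 atTop (𝓝 0) := (W_summable f).of_abs.tendsto_atTop_zero

noncomputable def RR : W × ℝ →ₗ[ℝ] XX where
  toFun p := continuousMapMkNat (fun a => mk2 p.2 (p.1.1 a)) (mk2 p.2 0)
    (mk_tendsto tendsto_const_nhds (W_tendsto p.1))
  map_add' p q := ContinuousMap.ext fun k => by
    cases k with
    | infty => exact Prod.ext rfl (add_zero (0 : ℝ)).symm
    | coe a => rfl
  map_smul' t p := ContinuousMap.ext fun k => by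
    cases k with
    | infty => exact Prod.ext rfl (mul_zero t).symm
    | coe a => rfl

theorem RR_abs (p : W × ℝ) : RR |p| = |RR p| := ContinuousMap.ext fun k => by
  cases k with
  | infty => exact Prod.ext rfl (abs_zero (α := ℝ)).symm
  | coe a => rfl

theorem RR_bound (p : W × ℝ) :
    ‖(⨆ n, II n).topologicalClosure.mkQ (RR p)‖ ≤ 1 * ‖p‖ := by
  rw [one_mul]
  refine le_of_forall_pos_le_add fun ε hε => ?_
  obtain ⟨N, hN⟩ := eventually_atTop.1 ((W_tendsto p.1).abs.eventually_le_const (by simpa using hε))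
  let F : XX := continuousMapMkNat (fun a => mk2 (if a < N then 0 else p.2) (p.1.1 a))
    (mk2 p.2 0) (mk_tendsto (tendsto_const_nhds.congr' (eventually_atTop.2
      ⟨N, fun n hn => by simp [not_lt.2 hn]⟩)) (W_tendsto p.1))
  have h1 : (⨆ n, II n).topologicalClosure.mkQ (RR p) = (⨆ n, II n).topologicalClosure.mkQ F := by
    refine (Submodule.Quotient.eq _).2 (Submodule.le_topologicalClosure _ (le_iSup II N ⟨?_, ?_⟩))
    · intro k
      cases k with
      | infty => exact sub_self (0 : ℝ)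
      | coe a => exact sub_self (p.1.1 a)
    · rintro k (rfl | ⟨m, hm, rfl⟩)
      · exact sub_self p.2
      · change p.2 - (if m < N then 0 else p.2) = 0
        simp [not_lt.2 hm]
  rw [h1]
  refine (Submodule.Quotient.norm_mk_le _ F).trans ((ContinuousMap.norm_le _ (by positivity)).2
    fun k => ?_)
  have a1 : |p.2| ≤ ‖p‖ := norm_snd_le p
  cases k with
  | infty => change |p.2| + |(0 : ℝ)| ≤ _; rw [abs_zero]; linarith
  | coe a =>
    change |if a < N then 0 else p.2| + |p.1.1 a| ≤ _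
    have a2 := (ev_le p.1 a).trans (norm_fst_le p)
    split_ifs with h
    · rw [abs_zero]; linarith
    · linarith [hN a (not_lt.1 h)]

theorem not_semi : ¬ SemiProj.{0} (W × ℝ) := by
  intro h
  have hI : ∀ n, IsIdeal (II n) := fun n => KI_ideal _
  have hm : Monotone II := fun n m hnm F hF => ⟨hF.1, by
    rintro k (rfl | ⟨a, ha, rfl⟩)
    · exact hF.2 _ (Or.inl rfl)
    · exact hF.2 _ (Or.inr ⟨a, hnm.trans ha, rfl⟩)⟩
  have hI' := ideal_closure II hI hm
  have hle : (⨆ n, II n).topologicalClosure ≤ KI {∞} :=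
    Submodule.topologicalClosure_minimal _ (iSup_le fun n F hF =>
      ⟨hF.1, fun k hk => hF.2 k (Or.inl hk)⟩) (KI_ideal _).1
  obtain ⟨n, hn⟩ := h XX inferInstance II hI hm _ rfl
    (((⨆ n, II n).topologicalClosure.mkQ.comp RR).mkContinuous 1 RR_bound) (fun p x hx => by
      change (⨆ n, II n).topologicalClosure.mkQ (RR |p|) = _
      rw [RR_abs]; exact (hI'.abs_congr hx).symm) (LinearMap.mkContinuous_norm_le _ zero_le_one _)
  obtain ⟨ψ, h1, h2, h3⟩ := hn (1 / 4) (by norm_num)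
  obtain ⟨x, hx⟩ := (II n).mkQ_surjective (ψ (0, 1))
  have x1 : (x ∞).1 - 1 = 0 := (hle ((Submodule.Quotient.eq _).1 (h3 _ _ hx))).2 ∞ rfl
  have x2 : ∀ k : ℕ, (x k).2 - 0 = 0 := fun k => (hle ((Submodule.Quotient.eq _).1 (h3 _ _ hx))).1 k
  have ht : Tendsto (fun a : ℕ => (x a).1) atTop (𝓝 (x ∞).1) :=
    (p1.continuous.tendsto _).comp ((continuous_iff_from_nat x).1 x.continuous)
  obtain ⟨a, ha, ha'⟩ := ((eventually_ge_atTop n).and
    (ht.eventually_const_lt (u := 1 / 2) (by linarith))).exists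
  obtain ⟨y, hy⟩ := (II n).mkQ_surjective (ψ (ee a, 0))
  have y2 : (y a).2 - (ee a).1 a = 0 := (hle ((Submodule.Quotient.eq _).1 (h3 _ _ hy))).1 a
  have y1 : (y a).1 - |(y a).1| = 0 := by
    have := h1 _ _ hy
    rw [abs_of_nonneg (a := ((ee a, 0) : W × ℝ)) (Prod.le_def.2 ⟨ee_nonneg a, le_rfl⟩), ← hy] at this
    exact ((Submodule.Quotient.eq _).1 this).2 a (Or.inr ⟨a, ha, rfl⟩)
  have n1 : ‖ψ (ee a, 1)‖ ≤ 1 + 1 / 4 := by
    refine (ψ.le_opNorm _).trans ?_
    rw [Prod.norm_def, ee_norm, norm_one, max_self, mul_one]; exact h2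
  obtain ⟨m, hm1, hm2⟩ := Submodule.Quotient.norm_mk_lt (ψ (ee a, 1)) (ε := 1 / 4) (by norm_num)
  have e : (II n).mkQ m = (II n).mkQ (x + y) := by
    rw [map_add, hx, hy, ← map_add]; simpa using hm1
  have e1 : (m a).1 - ((x a).1 + (y a).1) = 0 :=
    ((Submodule.Quotient.eq _).1 e).2 a (Or.inr ⟨a, ha, rfl⟩)
  have e2 : (m a).2 - ((x a).2 + (y a).2) = 0 := ((Submodule.Quotient.eq _).1 e).1 a
  have e3 := m.norm_coe_le_norm a
  rw [L12_norm] at e3
  rw [ee_val, if_pos rfl] at y2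
  linarith [le_abs_self (m a).1, le_abs_self (m a).2, abs_nonneg (y a).1, x2 a]

end Pool.Agent.H86.Bl
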