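import Mathlib

namespace Pool.Agent.H86.Bl

universe u

/-- A real Banach lattice. -/
class BL (X : Type*) extends NormedAddCommGroup X, NormedSpace ℝ X, Lattice X,
  IsOrderedAddMonoid X, HasSolidNorm X, PosSMulMono ℝ X, CompleteSpace X

/-- Closed ideal. -/
def IsIdeal {X : Type*} [BL X] (J : Submodule ℝ X) : Prop :=
  IsClosed (J : Set X) ∧ ∀ a ∈ J, ∀ b, |b| ≤ |a| → b ∈ J

/-- Lattice homomorphism. -/
def LatHom {P X : Type*} [BL P] [BL X] (T : P →L[ℝ] X) : Prop := ∀ p, T |p| = |T p|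

/-- Lattice homomorphism into the quotient Banach lattice `X/J`, whose modulus is
`|x + J| = |x| + J`; `X/J` carries the quotient norm. -/
def LatHomQ {P X : Type*} [BL P] [BL X] (J : Submodule ℝ X) (T : P →L[ℝ] X ⧸ J) : Prop :=
  ∀ p x, J.mkQ x = T p → T |p| = J.mkQ |x|

/-- `S` lifts `T` with norm at most `(1+ε)‖T‖`. -/
def IsLift {P X : Type*} [BL P] [BL X] (J : Submodule ℝ X) (T : P →L[ℝ] X ⧸ J) (ε : ℝ)
    (S : P →L[ℝ] X) : Prop :=
  LatHom S ∧ (∀ p, J.mkQ (S p) = T p) ∧ ‖S‖ ≤ (1 + ε) * ‖T‖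

/-- Projective (isometric, `1⁺`) Banach lattice. -/
def Proj (P : Type*) [BL P] : Prop :=
  ∀ (X : Type u) [BL X] (J : Submodule ℝ X), IsIdeal J → ∀ T : P →L[ℝ] X ⧸ J, LatHomQ J T →
    ∀ ε : ℝ, 0 < ε → ∃ S, IsLift J T ε S

/-- `P` has a topological order unit. -/
def HasTOU (P : Type*) [BL P] : Prop :=
  ∃ e : P, 0 ≤ e ∧ ∀ J : Submodule ℝ P, IsIdeal J → e ∈ J → J = ⊤

/-- `ψ : A → E/I` is a lattice homomorphism of norm at most `1+ε` with `π ∘ ψ = φ`, where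
`π : E/I → E/I'` is the canonical map. -/
def IsSemiLift {A E : Type*} [BL A] [BL E] (I I' : Submodule ℝ E) (φ : A →L[ℝ] E ⧸ I') (ε : ℝ)
    (ψ : A →L[ℝ] E ⧸ I) : Prop :=
  LatHomQ I ψ ∧ ‖ψ‖ ≤ 1 + ε ∧ ∀ p x, I.mkQ x = ψ p → I'.mkQ x = φ p

/-- Semiprojective Banach lattice. -/
def SemiProj (A : Type*) [BL A] : Prop :=
  ∀ (E : Type u) [BL E], TopologicalSpace.SeparableSpace E → ∀ I : ℕ → Submodule ℝ E,
    (∀ n, IsIdeal (I n)) → Monotone I → ∀ I' : Submodule ℝ E, I' = (⨆ n, I n).topologicalClosure →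
      ∀ φ : A →L[ℝ] E ⧸ I', LatHomQ I' φ → ‖φ‖ ≤ 1 →
        ∃ n, ∀ ε : ℝ, 0 < ε → ∃ ψ, IsSemiLift (I n) I' φ ε ψ

noncomputable instance : BL ℝ where

instance prodSolid (X Y : Type*) [BL X] [BL Y] : HasSolidNorm (X × Y) :=
  ⟨fun _ _ h => max_le_max (HasSolidNorm.solid h.1) (HasSolidNorm.solid h.2)⟩

/-- The `ℓ_∞`-sum of two Banach lattices (coordinatewise order, max norm). -/
noncomputable instance prodBL (X Y : Type*) [BL X] [BL Y] : BL (X × Y) where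

end Pool.Agent.H86.Bl
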