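import Pool.Agent.H86.BlA

set_option linter.unusedSectionVars false
set_option linter.deprecated false

namespace Pool.Agent.H86.Bl
open Filter Topology Finset

theorem transfer (X : Type 1) [BL X] [Small.{0} X] :
    ∃ (Y : Type) (_ : BL Y) (e : Y ≃ₗᵢ[ℝ] X), ∀ y, e |y| = |e y| := by
  let e0 : Shrink.{0} X ≃ X := (equivShrink X).symm
  let e : Shrink.{0} X ≃ₗᵢ[ℝ] X := { Shrink.linearEquiv ℝ X with norm_map' := fun _ => rfl }
  letI : Lattice (Shrink.{0} X) := e0.lattice
  have hle : ∀ a b : Shrink.{0} X, a ≤ b ↔ e a ≤ e b := fun _ _ => Iff.rfl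
  have hs : ∀ a b : Shrink.{0} X, e (a ⊔ b) = e a ⊔ e b := fun _ _ => e0.apply_symm_apply _
  have ha : ∀ a : Shrink.{0} X, e |a| = |e a| := fun a => by rw [abs, hs, map_neg]; rfl
  exact ⟨Shrink.{0} X,
    { add_le_add_left := fun a b h c => (hle _ _).2 (by
        rw [map_add, map_add]; exact add_le_add_left ((hle _ _).1 h) _)
      solid := fun a b h => by
        rw [← e.norm_map, ← e.norm_map b]
        exact HasSolidNorm.solid (by rw [← ha, ← ha]; exact (hle _ _).1 h)
      smul_le_smul_of_nonneg_left := fun t ht a b h => (hle _ _).2 (by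
        rw [map_smul, map_smul]; exact smul_le_smul_of_nonneg_left ((hle _ _).1 h) ht)
      complete := (e.toIsometryEquiv.completeSpace).complete }, e, ha⟩

section
variable {ι : Type*} (E : ι → Type*) [∀ i, BL (E i)]

/-- the `ℓ_∞`-product -/
def LI := lp E ⊤

noncomputable instance : NormedAddCommGroup (LI E) := inferInstanceAs (NormedAddCommGroup (lp E ⊤))
noncomputable instance : NormedSpace ℝ (LI E) := inferInstanceAs (NormedSpace ℝ (lp E ⊤))
instance : CompleteSpace (LI E) := inferInstanceAs (CompleteSpace (lp E ⊤))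

theorem mem_LI {f g h : ∀ i, E i} (hf : Memℓp f ⊤) (hg : Memℓp g ⊤)
    (H : ∀ i, ‖h i‖ ≤ ‖f i‖ + ‖g i‖) : Memℓp h ⊤ := by
  obtain ⟨a, ha⟩ := hf.bddAbove
  obtain ⟨b, hb⟩ := hg.bddAbove
  exact memℓp_infty ⟨a + b, by
    rintro _ ⟨i, rfl⟩; exact (H i).trans (add_le_add (ha ⟨i, rfl⟩) (hb ⟨i, rfl⟩))⟩

noncomputable instance : Lattice (LI E) := Subtype.lattice (α := ∀ i, E i) (P := fun f => Memℓp f ⊤)
  (fun _ _ hf hg => mem_LI E hf hg fun _ => norm_sup_le_add _ _)
  (fun _ _ hf hg => mem_LI E hf hg fun _ => norm_inf_le_add _ _)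

noncomputable def pr (i : ι) : LI E →L[ℝ] E i := lp.evalCLM ℝ E ⊤ i

theorem pr_le (i : ι) (f : LI E) : ‖pr E i f‖ ≤ ‖f‖ := lp.norm_apply_le_norm ENNReal.top_ne_zero f i

theorem LI_le (f : LI E) {c : ℝ} (hc : 0 ≤ c) (h : ∀ i, ‖pr E i f‖ ≤ c) : ‖f‖ ≤ c :=
  lp.norm_le_of_forall_le hc h

noncomputable instance : BL (LI E) where
  add_le_add_left := fun _ _ h _ i => add_le_add_left (h i) _
  solid := fun _ g h => LI_le E _ (norm_nonneg _) fun i => (HasSolidNorm.solid (h i)).trans (pr_le E i g)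
  smul_le_smul_of_nonneg_left := fun _ ht _ _ h i => smul_le_smul_of_nonneg_left (h i) ht

theorem pr_hom (i : ι) : LatHom (pr E i) := fun _ => rfl
end

variable {X : Type*} [BL X]

/-- closed vector sublattices -/
def IsSub (M : Submodule ℝ X) : Prop := IsClosed (M : Set X) ∧ ∀ p ∈ M, |p| ∈ M

/-- a closed vector sublattice as a type -/
def SubT {M : Submodule ℝ X} (_h : IsSub M) := M

section
variable {M : Submodule ℝ X} (h : IsSub M)
noncomputable instance : NormedAddCommGroup (SubT h) := inferInstanceAs (NormedAddCommGroup M)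
noncomputable instance : NormedSpace ℝ (SubT h) := inferInstanceAs (NormedSpace ℝ M)
instance : CompleteSpace (SubT h) := h.1.completeSpace_coe
noncomputable instance : Lattice (SubT h) := Subtype.lattice (P := fun f => f ∈ M)
  (fun a b ha hb => by
    rw [sup_eq_half_smul_add_add_abs_sub' ℝ]
    exact M.smul_mem _ (M.add_mem (M.add_mem ha hb) (h.2 _ (M.sub_mem hb ha))))
  (fun a b ha hb => by
    rw [inf_eq_half_smul_add_sub_abs_sub' ℝ]
    exact M.smul_mem _ (M.sub_mem (M.add_mem ha hb) (h.2 _ (M.sub_mem hb ha))))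

noncomputable instance : BL (SubT h) where
  add_le_add_left := fun a b h c => add_le_add_left (α := X) h c.1
  solid := fun a b h => HasSolidNorm.solid (α := X) (x := a.1) (y := b.1) h
  smul_le_smul_of_nonneg_left := fun _ ht _ _ h => smul_le_smul_of_nonneg_left (β := X) h ht

noncomputable def incl : SubT h →L[ℝ] X := M.subtypeL
theorem incl_hom : LatHom (incl h) := fun _ => rfl
theorem incl_norm (p : SubT h) : ‖incl h p‖ = ‖p‖ := rfl
end

/-- lattice-linear terms -/
inductive Tm (A : Type) : Type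
  | var : A → Tm A
  | zero : Tm A
  | add : Tm A → Tm A → Tm A
  | smul : ℝ → Tm A → Tm A
  | abs : Tm A → Tm A

variable {A : Type}

noncomputable def Tm.ev (f : A → X) : Tm A → X
  | .var a => f a
  | .zero => 0
  | .add s t => s.ev f + t.ev f
  | .smul r t => r • t.ev f
  | .abs t => |t.ev f|

def rangeS (f : A → X) : Submodule ℝ X where
  carrier := Set.range (Tm.ev f)
  zero_mem' := ⟨.zero, rfl⟩
  add_mem' := by rintro _ _ ⟨s, rfl⟩ ⟨t, rfl⟩; exact ⟨.add s t, rfl⟩
  smul_mem' := by rintro r _ ⟨t, rfl⟩; exact ⟨.smul r t, rfl⟩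

theorem cont_abs : Continuous fun a : X => |a| := continuous_id.sup continuous_neg

theorem gen_sub (f : A → X) : IsSub (rangeS f).topologicalClosure :=
  ⟨Submodule.isClosed_topologicalClosure _, fun _ hp => map_mem_closure cont_abs hp (by
    rintro _ ⟨t, rfl⟩; exact ⟨.abs t, rfl⟩)⟩

theorem hom_ev {Y : Type*} [BL Y] {S : X →L[ℝ] Y} (hS : LatHom S) (f : A → X) (t : Tm A) :
    S (t.ev f) = t.ev (fun a => S (f a)) := by
  induction t with
  | var a => rfl
  | zero => exact map_zero S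
  | add s t hs ht => simp only [Tm.ev, map_add, hs, ht]
  | smul r t ht => simp only [Tm.ev, map_smul, ht]
  | abs t ht => simp only [Tm.ev, hS _, ht]

theorem ev_mem {M : Submodule ℝ X} (hM : ∀ p ∈ M, |p| ∈ M) {f : A → X} (hf : ∀ a, f a ∈ M)
    (t : Tm A) : t.ev f ∈ M := by
  induction t with
  | var a => exact hf a
  | zero => exact M.zero_mem
  | add s t hs ht => exact M.add_mem hs ht
  | smul r t ht => exact M.smul_mem r ht
  | abs t ht => exact hM _ ht

theorem Gen_ind {g : A → X} (hg : DenseRange (Tm.ev g)) {M : Submodule ℝ X} (hM : IsSub M)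
    (h : ∀ a, g a ∈ M) (p : X) : p ∈ M :=
  hg.induction_on p hM.1 (ev_mem hM.2 h)

theorem hom_ext {Y : Type*} [BL Y] {g : A → X} (hg : DenseRange (Tm.ev g)) {S T : X →L[ℝ] Y}
    (hS : LatHom S) (hT : LatHom T) (h : ∀ a, S (g a) = T (g a)) : S = T :=
  ContinuousLinearMap.ext fun p => hg.induction_on p (isClosed_eq S.continuous T.continuous)
    fun t => by rw [hom_ev hS, hom_ev hT]; congr 1; exact funext h

/-- generators inside the generated sublattice -/
def gg (f : A → X) (a : A) : SubT (gen_sub f) :=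
  ⟨f a, Submodule.le_topologicalClosure _ ⟨.var a, rfl⟩⟩

theorem gg_dense (f : A → X) : DenseRange (Tm.ev (gg f)) := by
  refine Metric.denseRange_iff.2 fun p r hr => ?_
  obtain ⟨_, ⟨t, rfl⟩, ht⟩ := Metric.mem_closure_iff.1 p.2 r hr
  refine ⟨t, ?_⟩
  rw [dist_eq_norm, ← incl_norm, map_sub, hom_ev (incl_hom _), ← dist_eq_norm]
  exact ht

theorem small_dense {Y : Type 1} [BL Y] {g : A → Y} (hg : DenseRange (Tm.ev g)) : Small.{0} Y := by
  refine small_of_surjective (f := fun s : ℕ → Tm A => limUnder atTop fun n => (s n).ev g) fun p => ?_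
  obtain ⟨x, hx, hx'⟩ := mem_closure_iff_seq_limit.1 (hg p)
  choose s hs using hx
  exact ⟨s, Tendsto.limUnder_eq (by simpa only [hs] using hx')⟩

theorem univ (R : ∀ (X : Type) [BL X], (A → X) → Prop)
    (hR : ∀ (X : Type) [BL X] f, R X f → ∀ a, ‖f a‖ ≤ 1) :
    ∃ (P : Type) (_ : BL P) (g : A → P), DenseRange (Tm.ev g) ∧
      (∀ (X : Type) [BL X] f, R X f → ∃ S : P →L[ℝ] X, LatHom S ∧ ‖S‖ ≤ 1 ∧ ∀ a, S (g a) = f a) ∧
      ∀ (t : Tm A) c, 0 ≤ c → (∀ (X : Type) [BL X] f, R X f → ‖t.ev f‖ ≤ c) → ‖t.ev g‖ ≤ c := by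
  let ι : Type 1 := Σ' (X : Type) (_ : BL X) (f : A → X), R X f
  let E : ι → Type := fun i => i.1
  letI : ∀ i, BL (E i) := fun i => i.2.1
  let s : A → LI E := fun a => ⟨fun i => i.2.2.1 a, memℓp_infty ⟨1, by
    rintro _ ⟨i, rfl⟩; exact hR _ _ i.2.2.2 a⟩⟩
  haveI := small_dense (gg_dense s)
  obtain ⟨Y, _, e, he⟩ := transfer (SubT (gen_sub s))
  have he' : LatHom (e.symm.toContinuousLinearEquiv : SubT (gen_sub s) →L[ℝ] Y) := fun p =>
    e.injective (by
      change e (e.symm |p|) = e |e.symm p|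
      rw [he, e.apply_symm_apply, e.apply_symm_apply])
  have ee : ∀ t : Tm A, t.ev (fun a => e.symm (gg s a)) = e.symm (t.ev (gg s)) := fun t =>
    (hom_ev he' _ t).symm
  refine ⟨Y, inferInstance, fun a => e.symm (gg s a), ?_, fun X _ f hf => ?_, fun t c hc h => ?_⟩
  · rw [funext ee]
    exact e.symm.surjective.denseRange.comp (gg_dense s) e.symm.continuous
  · refine ⟨(pr E ⟨X, _, f, hf⟩).comp ((incl _).comp
      (e.toContinuousLinearEquiv : Y →L[ℝ] SubT (gen_sub s))), fun p => ?_,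
      ContinuousLinearMap.opNorm_le_bound _ zero_le_one fun p => ?_, fun a => ?_⟩
    · change pr E _ (incl _ (e |p|)) = _
      rw [he]; rfl
    · rw [one_mul, ← e.norm_map]; exact pr_le E _ _
    · change pr E _ (incl _ (e (e.symm _))) = _
      rw [e.apply_symm_apply]; rfl
  · rw [ee, e.symm.norm_map, ← incl_norm, hom_ev (incl_hom _)]
    refine LI_le E _ hc fun i => ?_
    rw [hom_ev (pr_hom E i)]
    exact h _ _ i.2.2.2

end Pool.Agent.H86.Bl
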