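import Pool.Agent.H86.BlD
import Pool.Agent.H86.BlE

set_option linter.unusedSectionVars false
set_option linter.deprecated false

namespace Pool.Agent.H86.Bl
open Filter Topology Finset

theorem LatHom.nonneg {P X : Type*} [BL P] [BL X] {T : P →L[ℝ] X} (hT : LatHom T) {p : P}
    (h : 0 ≤ p) : 0 ≤ T p := by
  rw [← abs_of_nonneg h, hT]; exact abs_nonneg _

theorem LatHom.comp' {P X Y : Type*} [BL P] [BL X] [BL Y] {T : P →L[ℝ] X} {S : X →L[ℝ] Y}
    (hS : LatHom S) (hT : LatHom T) : LatHom (S.comp T) := fun p => by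
  change S (T |p|) = _
  rw [hT, hS]; rfl

theorem LatHom.smul' {P X : Type*} [BL P] [BL X] {T : P →L[ℝ] X} (hT : LatHom T) {c : ℝ}
    (hc : 0 ≤ c) : LatHom (c • T) := fun p => by
  change c • T |p| = |c • T p|
  rw [hT, abs_smul', abs_of_nonneg hc]

/-- free on positive generators -/
structure PosFree {A P : Type} [BL P] (g : A → P) : Prop where
  pos : ∀ a, 0 ≤ g a
  nrm : ∀ a, ‖g a‖ ≤ 1
  dense : DenseRange (Tm.ev g)
  up : ∀ (X : Type) [BL X] (f : A → X) (c : ℝ), 0 ≤ c → (∀ a, 0 ≤ f a) → (∀ a, ‖f a‖ ≤ c) →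
    ∃ S : P →L[ℝ] X, LatHom S ∧ ‖S‖ ≤ c ∧ ∀ a, S (g a) = f a

theorem exPosFree (A : Type) : ∃ (P : Type) (_ : BL P) (g : A → P), PosFree g := by
  obtain ⟨P, _, g, h1, h2, h3⟩ := univ (A := A) (fun X _ f => ∀ a, 0 ≤ f a ∧ ‖f a‖ ≤ 1)
    fun X _ f h a => (h a).2
  refine ⟨P, inferInstance, g, fun a => ?_, fun a => h3 (.var a) 1 zero_le_one fun X _ f h => (h a).2,
    h1, fun X _ f c hc f0 fc => ?_⟩
  · have := h3 (.add (.abs (.var a)) (.smul (-1) (.var a))) 0 le_rfl fun X _ f h => by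
      simp [Tm.ev, abs_of_nonneg (h a).1]
    simp only [Tm.ev, neg_smul, one_smul, norm_le_zero_iff, add_neg_eq_zero] at this
    rw [← this]; exact abs_nonneg _
  · rcases eq_or_lt_of_le hc with rfl | h
    · exact ⟨0, fun p => by simp, by simp, fun a => (norm_le_zero_iff.1 (fc a)).symm⟩
    obtain ⟨S, s1, s2, s3⟩ := h2 X (fun a => c⁻¹ • f a) fun a => ⟨smul_nn (inv_nonneg.2 hc) (f0 a), by
      rw [norm_smul, Real.norm_of_nonneg (inv_nonneg.2 hc), inv_mul_le_iff₀ h, mul_one]; exact fc a⟩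
    refine ⟨c • S, s1.smul' hc, ?_, fun a => ?_⟩
    · rw [norm_smul, Real.norm_of_nonneg hc]; exact mul_le_of_le_one_right hc s2
    · change c • S (g a) = _
      rw [s3, smul_smul, mul_inv_cancel₀ h.ne', one_smul]

variable {A P : Type} [BL P] {g : A → P}

theorem PosFree.proj (h : PosFree g) : Proj.{0} P := by
  intro X _ J hJ T hT ε hε
  haveI := hJ.1
  choose x hx hx' using fun a => exrep hJ (T (g a)) (c := ‖T‖)
    ((T.le_opNorm _).trans (mul_le_of_le_one_right (norm_nonneg _) (h.nrm a))) hε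
  obtain ⟨S, s1, s2, s3⟩ := h.up X (fun a => |x a|) ((1 + ε) * ‖T‖) (by positivity)
    (fun a => abs_nonneg _) fun a => by rw [norm_abs_eq_norm]; exact hx' a
  let Q : X →L[ℝ] X ⧸ J := J.mkQ.mkContinuous 1 fun x => by
    simpa using Submodule.Quotient.norm_mk_le _ x
  refine ⟨S, s1, fun p => ?_, s2⟩
  refine Gen_ind h.dense (M := LinearMap.eqLocus (Q.comp S : P →ₗ[ℝ] X ⧸ J) T)
    ⟨isClosed_eq (Q.comp S).continuous T.continuous, fun p hp => ?_⟩ (fun a => ?_) p
  · change J.mkQ (S |p|) = T _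
    rw [s1, hT p (S p) hp]
  · change J.mkQ (S _) = T _
    rw [s3, ← hT _ _ (hx a), abs_of_nonneg (h.pos a)]

open Classical in
theorem PosFree.exev (h : PosFree g) (a : A) :
    ∃ z : P →L[ℝ] ℝ, LatHom z ∧ ∀ b, z (g b) = if b = a then 1 else 0 := by
  obtain ⟨S, s1, -, s3⟩ := h.up ℝ (fun b => if b = a then 1 else 0) 1 zero_le_one
    (fun b => by split_ifs <;> norm_num) fun b => by split_ifs <;> norm_num
  exact ⟨S, s1, s3⟩

theorem PosFree.not_tou [Uncountable A] (h : PosFree g) : ¬ HasTOU P := by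
  classical
  rintro ⟨e, -, he⟩
  choose z z1 z2 using h.exev
  let M : Submodule ℝ P :=
    { carrier := {p | {a | z a p ≠ 0}.Countable}
      zero_mem' := by simp
      add_mem' := fun {p q} hp hq => (Set.Countable.union hp hq).mono fun a ha => by
        by_contra h'
        simp only [Set.mem_union, Set.mem_setOf_eq, not_or, not_not] at h'
        exact ha (by rw [map_add, h'.1, h'.2, add_zero])
      smul_mem' := fun t p hp => Set.Countable.mono (s₁ := {a | z a (t • p) ≠ 0})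
        (s₂ := {a | z a p ≠ 0}) (fun a ha (h' : z a p = 0) => ha (by
          rw [map_smul, h', smul_zero])) hp }
  have hM : IsSub M := ⟨IsSeqClosed.isClosed fun x p hx hp =>
    (Set.countable_iUnion fun n => hx n).mono fun a ha => by
      by_contra h'
      simp only [Set.mem_iUnion, Set.mem_setOf_eq, not_exists, not_not] at h'
      exact ha (tendsto_nhds_unique (((z a).continuous.tendsto p).comp hp) (by
        simpa only [Function.comp_def, h'] using tendsto_const_nhds)),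
    fun p hp => Set.Countable.mono (s₁ := {a | z a |p| ≠ 0}) (s₂ := {a | z a p ≠ 0})
      (fun a ha (h' : z a p = 0) => ha (by rw [z1 a, h', abs_zero])) hp⟩
  have : {a | z a e ≠ 0}.Countable := Gen_ind h.dense hM (fun b => (Set.countable_singleton b).mono
    fun a ha => by
      by_contra h'
      exact ha (by rw [z2, if_neg (Ne.symm h')])) e
  obtain ⟨a, ha⟩ : ∃ a, z a e = 0 := by
    by_contra h'
    push Not at h'
    exact Set.not_countable_univ (this.mono fun a _ => h' a)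
  have := he (LinearMap.ker (z a : P →ₗ[ℝ] ℝ)) ⟨(z a).isClosed_ker, fun p hp q hq => by
    have h1 := (z1 a).nonneg (sub_nonneg.2 hq)
    have h2 : z a p = 0 := hp
    rw [map_sub, z1 a, z1 a, h2, abs_zero, zero_sub, neg_nonneg, abs_nonpos_iff] at h1
    exact h1⟩ ha
  have h3 : z a (g a) = 0 := (this ▸ Submodule.mem_top : g a ∈ LinearMap.ker (z a : P →ₗ[ℝ] ℝ))
  rw [z2, if_pos rfl] at h3
  exact one_ne_zero h3

theorem PosFree.two (h : PosFree g) {x z : P →L[ℝ] ℝ} (hx : LatHom x) (hz : LatHom z) {c : ℝ}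
    (hc : 0 ≤ c) (H : ∀ a, x (g a) + z (g a) ≤ c) (p : P) : |x p| + |z p| ≤ c * ‖p‖ := by
  obtain ⟨S, s1, s2, s3⟩ := h.up L12 (fun a => mk2 (x (g a)) (z (g a))) c hc
    (fun a => Prod.le_def.2 ⟨hx.nonneg (h.pos a), hz.nonneg (h.pos a)⟩) fun a => by
      change |x (g a)| + |z (g a)| ≤ c
      rw [abs_of_nonneg (hx.nonneg (h.pos a)), abs_of_nonneg (hz.nonneg (h.pos a))]; exact H a
  have e1 : p1.comp S = x := hom_ext h.dense (LatHom.comp' (fun _ => rfl) s1) hx fun a => by
    change p1 (S _) = _; rw [s3]; rfl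
  have e2 : p2.comp S = z := hom_ext h.dense (LatHom.comp' (fun _ => rfl) s1) hz fun a => by
    change p2 (S _) = _; rw [s3]; rfl
  rw [← e1, ← e2]
  exact (S.le_opNorm p).trans (mul_le_mul_of_nonneg_right s2 (norm_nonneg _))

end Pool.Agent.H86.Bl
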