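import Pool.Agent.H86.BlE

set_option linter.unusedSectionVars false
set_option linter.deprecated false

namespace Pool.Agent.H86.Bl
open Filter Topology Finset

variable {X : Type*} [BL X]

/-- order ideal, not necessarily closed -/
def OI (M : Submodule ℝ X) : Prop := ∀ a ∈ M, ∀ b, |b| ≤ |a| → b ∈ M

theorem OI.of_le {M : Submodule ℝ X} (hM : OI M) {a b : X} (ha : a ∈ M) (h0 : 0 ≤ b) (h : b ≤ a) :
    b ∈ M := hM a ha b (by rw [abs_of_nonneg h0]; exact h.trans (le_abs_self a))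

theorem OI.abs_mem {M : Submodule ℝ X} (hM : OI M) {a : X} (ha : a ∈ M) : |a| ∈ M :=
  hM a ha _ (by rw [abs_abs])

theorem OI.unit {M : Submodule ℝ X} (hM : OI M) {u m : X} (hu : 0 ≤ u) (hm : m ∈ M) {c : ℝ}
    (hc : 0 < c) (h : c • u ≤ m) : u ∈ M := by
  have := M.smul_mem c⁻¹ (hM.of_le hm (smul_nn hc.le hu) h)
  rwa [smul_smul, inv_mul_cancel₀ hc.ne', one_smul] at this

theorem smul_mono_l {u : X} (hu : 0 ≤ u) {a b : ℝ} (h : a ≤ b) : a • u ≤ b • u := by
  rw [← sub_nonneg, ← sub_smul]; exact smul_nn (sub_nonneg.2 h) hu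

/-- the ideal generated by an ideal and a positive element -/
def adj (M : Submodule ℝ X) (x : X) (hx : 0 ≤ x) : Submodule ℝ X where
  carrier := {y | ∃ m ∈ M, ∃ c : ℝ, 0 ≤ c ∧ |y| ≤ m + c • x}
  zero_mem' := ⟨0, M.zero_mem, 0, le_rfl, by simp⟩
  add_mem' := by
    rintro a b ⟨m, hm, c, hc, h⟩ ⟨n, hn, d, hd, h'⟩
    refine ⟨m + n, M.add_mem hm hn, c + d, add_nonneg hc hd, (abs_add_le _ _).trans
      ((add_le_add h h').trans_eq ?_)⟩
    module
  smul_mem' := by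
    rintro t a ⟨m, hm, c, hc, h⟩
    refine ⟨|t| • m, M.smul_mem _ hm, |t| * c, by positivity, ?_⟩
    rw [abs_smul', mul_smul, ← smul_add]
    exact smul_le_smul_of_nonneg_left h (abs_nonneg _)

theorem adj_OI (M : Submodule ℝ X) (x : X) (hx : 0 ≤ x) : OI (adj M x hx) :=
  fun _ ⟨m, hm, c, hc, h⟩ _ hb => ⟨m, hm, c, hc, hb.trans h⟩

structure Good (u : X) (M : Submodule ℝ X) : Prop where
  oi : OI M
  nm : u ∉ M
  ex : ∀ x (c : ℝ), |x| ≤ c • u → ∃ t : ℝ, x - t • u ∈ M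

theorem exGood {u : X} (hu : 0 ≤ u) (M0 : Submodule ℝ X) (h0 : OI M0) (h1 : u ∉ M0) :
    ∃ M, Good u M ∧ M0 ≤ M := by
  obtain ⟨M, hM0, hM⟩ := zorn_le_nonempty₀ {M : Submodule ℝ X | OI M ∧ u ∉ M} (fun c hc hc' y hy => by
    have hd := fun x => Submodule.mem_sSup_of_directed (z := x) ⟨y, hy⟩ hc'.directedOn
    refine ⟨sSup c, ⟨fun a ha b hb => ?_, fun h => ?_⟩, fun z hz => le_sSup hz⟩
    · obtain ⟨N, hN, ha⟩ := (hd a).1 ha
      exact (hd b).2 ⟨N, hN, (hc hN).1 a ha b hb⟩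
    · obtain ⟨N, hN, ha⟩ := (hd u).1 h
      exact (hc hN).2 ha) M0 ⟨h0, h1⟩
  obtain ⟨hI, hn⟩ := hM.1
  have mx : ∀ x, 0 ≤ x → x ∉ M → ∃ m ∈ M, ∃ c : ℝ, 0 ≤ c ∧ u ≤ m + c • x := fun x hx hx' => by
    by_contra h
    refine hx' (hM.2 (y := adj M x hx) ⟨adj_OI _ _ _, fun ⟨m, hm, c, hc, h'⟩ =>
      h ⟨m, hm, c, hc, (le_abs_self u).trans h'⟩⟩
      (fun m hm => ⟨|m|, hI.abs_mem hm, 0, le_rfl, by simp⟩)
      ⟨0, M.zero_mem, 1, zero_le_one, by simp [abs_of_nonneg hx]⟩)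
  have pr : ∀ x : X, x⁺ ∈ M ∨ x⁻ ∈ M := fun x => by
    by_contra h
    push Not at h
    obtain ⟨m, hm, c, hc, h1⟩ := mx _ (posPart_nonneg x) h.1
    obtain ⟨n, hn', d, hd, h2⟩ := mx _ (negPart_nonneg x) h.2
    refine hn (hI.of_le (M.add_mem (hI.abs_mem hm) (hI.abs_mem hn')) hu ?_)
    have a1 : u - (|m| + |n|) ≤ c • x⁺ := sub_le_iff_le_add'.2 (h1.trans (add_le_add
      ((le_abs_self m).trans (le_add_of_nonneg_right (abs_nonneg n))) le_rfl))
    have a2 : u - (|m| + |n|) ≤ d • x⁻ := sub_le_iff_le_add'.2 (h2.trans (add_le_add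
      ((le_abs_self n).trans (le_add_of_nonneg_left (abs_nonneg m))) le_rfl))
    have := le_inf a1 a2
    rwa [disj_smul (posPart_nonneg x) (negPart_nonneg x) (posPart_inf_negPart_eq_zero x) hc hd,
      sub_nonpos] at this
  refine ⟨M, ⟨hI, hn, fun x c hx => ?_⟩, hM0⟩
  let S : Set ℝ := {s | (x - s • u)⁻ ∈ M}
  have s1 : -c ∈ S := by
    change _ ∈ M
    rw [negPart_eq_zero.2]
    · exact M.zero_mem
    · rw [neg_smul, sub_neg_eq_add, ← neg_le_iff_add_nonneg']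
      exact (neg_le_abs x).trans hx
  have s2 : BddAbove S := ⟨c, fun s hs => by
    by_contra h
    refine hn (hI.unit hu hs (sub_pos.2 (not_le.1 h)) (le_trans ?_ (neg_le_negPart _)))
    rw [neg_sub, sub_smul]
    exact sub_le_sub_left ((le_abs_self x).trans hx) _⟩
  refine ⟨sSup S, ?_⟩
  by_contra h
  obtain ⟨m, hm, d, hd, h2⟩ := mx _ (abs_nonneg (x - sSup S • u)) fun h' =>
    h (hI _ h' _ (by rw [abs_abs]))
  have he : 0 < 1 / (2 * (d + 1)) := by positivity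
  set ε := 1 / (2 * (d + 1)) with hε
  obtain ⟨s, hs, hs'⟩ := exists_lt_of_lt_csSup ⟨_, s1⟩ (sub_lt_self (sSup S) he)
  have s3 : (x - (sSup S + ε) • u)⁺ ∈ M := (pr _).resolve_right fun h' => by
    have := le_csSup s2 h'
    linarith
  have s4 : |x - sSup S • u| ≤ ((x - s • u)⁻ + (x - (sSup S + ε) • u)⁺) + ε • u := by
    refine abs_le'.2 ⟨?_, ?_⟩
    · rw [← sub_le_iff_le_add, sub_sub, ← add_smul]
      exact (le_posPart _).trans (le_add_of_nonneg_left (negPart_nonneg _))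
    · rw [← sub_le_iff_le_add]
      refine le_trans ?_ ((neg_le_negPart _).trans (le_add_of_nonneg_right (posPart_nonneg _)))
      rw [neg_sub, neg_sub, sub_right_comm, ← sub_smul]
      exact sub_le_sub_right (smul_mono_l hu hs'.le) _
  refine hn (hI.unit hu (M.add_mem hm (M.smul_mem d (M.add_mem hs s3))) (c := 1 - d * ε) ?_ ?_)
  · have : ε * (2 * (d + 1)) = 1 := by rw [hε]; field_simp
    nlinarith
  · have := h2.trans (add_le_add le_rfl (smul_le_smul_of_nonneg_left s4 hd))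
    rw [sub_smul, one_smul, sub_le_iff_le_add, mul_smul, add_assoc, ← smul_add]
    exact this

theorem yudin {u a : X} (hu : 0 ≤ u) {C : ℝ} (ha : a ≤ C • u)
    (h : ∀ M, Good u M → ∃ t : ℝ, t ≤ 0 ∧ a - t • u ∈ M) : a ≤ 0 := by
  by_contra h0
  obtain ⟨δ, hδ, h1⟩ : ∃ δ : ℝ, 0 < δ ∧ ¬ a ≤ δ • u := by
    by_contra h'
    push Not at h'
    have := (tendsto_one_div_add_atTop_nhds_zero_nat (𝕜 := ℝ)).smul_const u
    rw [zero_smul] at this
    exact h0 (ge_of_tendsto' this fun n => h' _ (by positivity))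
  obtain ⟨M, hM, h2⟩ := exGood hu (adj ⊥ (a - δ • u)⁻ (negPart_nonneg _)) (adj_OI _ _ _) (by
    rintro ⟨m, hm, c, hc, h2⟩
    rw [(Submodule.mem_bot ℝ).1 hm, zero_add, abs_of_nonneg hu] at h2
    have a1 : (a - δ • u)⁺ ≤ (|C| * c) • (a - δ • u)⁻ := by
      rw [mul_smul]
      refine le_trans (sup_le ((sub_le_self _ (smul_nn hδ.le hu)).trans
        (ha.trans (smul_mono_l hu (le_abs_self C)))) (smul_nn (abs_nonneg _) hu))
        (smul_le_smul_of_nonneg_left h2 (abs_nonneg _))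
    have a2 := disj_smul (posPart_nonneg _) (negPart_nonneg _)
      (posPart_inf_negPart_eq_zero (a - δ • u)) zero_le_one (mul_nonneg (abs_nonneg C) hc)
    rw [one_smul, inf_eq_left.2 a1, posPart_eq_zero, sub_nonpos] at a2
    exact h1 a2)
  obtain ⟨t, ht, h3⟩ := h M hM
  have h4 : (a - δ • u)⁻ ∈ M := h2 ⟨0, Submodule.zero_mem _, 1, zero_le_one, by
    simp [abs_of_nonneg (negPart_nonneg _)]⟩
  refine hM.nm (hM.oi.unit hu (M.add_mem h4 h3) (c := δ - t) (by linarith) ?_)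
  rw [← sub_le_iff_le_add]
  refine le_trans (le_of_eq ?_) (neg_le_negPart _)
  module

/-- `x` has value `t` at the character `M` -/
def Rel (u : X) (M : Submodule ℝ X) (x : X) (t : ℝ) : Prop := x - t • u ∈ M

variable {u : X} {M : Submodule ℝ X} {x y : X} {s t : ℝ}

theorem Rel.add (h : Rel u M x s) (h' : Rel u M y t) : Rel u M (x + y) (s + t) := by
  have := M.add_mem h h'
  unfold Rel; convert this using 1; module

theorem Rel.smul (c : ℝ) (h : Rel u M x s) : Rel u M (c • x) (c • s) := by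
  have := M.smul_mem c h
  unfold Rel; convert this using 1; rw [smul_eq_mul]; module

theorem Rel.neg (h : Rel u M x s) : Rel u M (-x) (-s) := by simpa using h.smul (-1)

theorem Rel.sub (h : Rel u M x s) (h' : Rel u M y t) : Rel u M (x - y) (s - t) := by
  simpa only [sub_eq_add_neg] using h.add h'.neg

theorem Rel.zero : Rel u M 0 0 := by simp [Rel]

theorem Rel.one : Rel u M u 1 := by simp [Rel]

theorem Rel.abs (hu : 0 ≤ u) (hM : Good u M) (h : Rel u M x s) : Rel u M |x| |s| :=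
  hM.oi _ h _ (by
    have := abs_abs_sub_abs_le x (s • u)
    rwa [abs_smul', abs_of_nonneg hu] at this)

theorem Rel.sup (hu : 0 ≤ u) (hM : Good u M) (h : Rel u M x s) (h' : Rel u M y t) :
    Rel u M (x ⊔ y) (s ⊔ t) := by
  rw [sup_eq_half_smul_add_add_abs_sub' ℝ, sup_eq_half_smul_add_add_abs_sub' ℝ]
  exact ((h.add h').add ((h'.sub h).abs hu hM)).smul _

theorem Rel.inf (hu : 0 ≤ u) (hM : Good u M) (h : Rel u M x s) (h' : Rel u M y t) :
    Rel u M (x ⊓ y) (s ⊓ t) := by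
  rw [inf_eq_half_smul_add_sub_abs_sub' ℝ, inf_eq_half_smul_add_sub_abs_sub' ℝ]
  exact ((h.add h').sub ((h'.sub h).abs hu hM)).smul _

theorem Rel.le (hu : 0 ≤ u) (hM : Good u M) (h : Rel u M x s) (h' : Rel u M y t) (hxy : x ≤ y) :
    s ≤ t := by
  by_contra hc
  refine hM.nm (hM.oi.unit hu (M.sub_mem h' h) (sub_pos.2 (not_le.1 hc)) ?_)
  rw [← sub_nonneg] at hxy ⊢
  convert hxy using 1; module

theorem Rel.sum {ι : Type*} (F : Finset ι) {f : ι → X} {g : ι → ℝ} (h : ∀ i, Rel u M (f i) (g i)) :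
    Rel u M (∑ i ∈ F, f i) (∑ i ∈ F, g i) := by
  classical
  induction F using Finset.induction_on with
  | empty => simpa using Rel.zero
  | insert a F ha ih => rw [sum_insert ha, sum_insert ha]; exact (h a).add ih

theorem Rel.ev {A : Type} (hu : 0 ≤ u) (hM : Good u M) {f : A → X} {g : A → ℝ}
    (h : ∀ i, Rel u M (f i) (g i)) (τ : Tm A) : Rel u M (τ.ev f) (τ.ev g) := by
  induction τ with
  | var a => exact h a
  | zero => exact Rel.zero
  | add s t hs ht => exact hs.add ht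
  | smul r t ht => exact ht.smul r
  | abs t ht => exact ht.abs hu hM

end Pool.Agent.H86.Bl
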