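import Pool.Agent.H86.BlG
import Pool.Agent.H86.BlF

set_option linter.unusedSectionVars false
set_option linter.deprecated false

namespace Pool.Agent.H86.Bl
open Filter Topology Finset

variable {X : Type*} [BL X]

/-- truncation of `y` to `[-a, a]` -/
def cl (y a : X) : X := (y ⊓ a) ⊔ -a

theorem cl_abs_le (y : X) {a : X} (ha : 0 ≤ a) : |cl y a| ≤ a :=
  abs_le'.2 ⟨sup_le inf_le_right (neg_le_self ha), neg_le.2 le_sup_right⟩

theorem sub_cl_le (y : X) {a : X} (ha : 0 ≤ a) : |y - cl y a| ≤ |y| := by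
  refine abs_le'.2 ⟨(sub_le_sub_left le_sup_left y).trans ?_, ?_⟩
  · rw [sub_inf, sub_self]
    exact sup_le (abs_nonneg _) ((sub_le_self _ ha).trans (le_abs_self _))
  · rw [neg_sub, sub_le_iff_le_add]
    refine sup_le (inf_le_left.trans (le_add_of_nonneg_left (abs_nonneg _))) ?_
    exact (neg_nonpos.2 ha).trans (neg_le_iff_add_nonneg.1 (neg_le_abs y))

/-- approximate product of `y` with `min (w/u) 1` -/
noncomputable def PP (N : ℕ) (C : ℝ) (u w y : X) : X :=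
  (N : ℝ)⁻¹ • ∑ k ∈ range N, cl y ((N * C) • (w - ((k : ℝ) / N) • u)⁺)

theorem sub_PP_le {N : ℕ} (hN : 0 < N) {C : ℝ} (hC : 0 ≤ C) (u w y : X) :
    |y - PP N C u w y| ≤ |y| := by
  have hN' : (0 : ℝ) < N := by exact_mod_cast hN
  have e : ∀ z : X, z = (N : ℝ)⁻¹ • ∑ _k ∈ range N, z := fun z => by
    rw [sum_const, card_range, ← Nat.cast_smul_eq_nsmul ℝ, smul_smul, inv_mul_cancel₀ hN'.ne', one_smul]
  calc |y - PP N C u w y| = |(N : ℝ)⁻¹ • ∑ k ∈ range N,
        (y - cl y ((N * C) • (w - ((k : ℝ) / N) • u)⁺))| := by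
        rw [sum_sub_distrib, smul_sub, ← e y]; rfl
    _ ≤ (N : ℝ)⁻¹ • ∑ _k ∈ range N, |y| := by
        rw [abs_smul', abs_of_nonneg (inv_nonneg.2 hN'.le)]
        refine smul_le_smul_of_nonneg_left ((le_sum_of_subadditive _ abs_zero.le abs_add_le _ _).trans
          (sum_le_sum fun k _ => sub_cl_le _ (smul_nn (by positivity) (posPart_nonneg _))))
          (inv_nonneg.2 hN'.le)
    _ = |y| := (e _).symm

theorem PP_mem {J : Submodule ℝ X} (hJ : IsIdeal J) (N : ℕ) {C : ℝ} (hC : 0 ≤ C) {u w : X}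
    (hu : 0 ≤ u) (hw0 : 0 ≤ w) (hw : w ∈ J) (y : X) : PP N C u w y ∈ J := by
  refine J.smul_mem _ (J.sum_mem fun k _ => hJ.2 _ (J.smul_mem (N * C) (hJ.of_le hw
    (posPart_nonneg (w - ((k : ℝ) / N) • u)) ?_)) _ ((cl_abs_le _ (smul_nn (by positivity)
      (posPart_nonneg _))).trans (le_abs_self _)))
  exact sup_le (sub_le_self _ (smul_nn (by positivity) hu)) hw0

theorem Rel.PP {u : X} {M : Submodule ℝ X} (hu : 0 ≤ u) (hM : Good u M) {w y : X} {h s : ℝ}
    (hw : Rel u M w h) (hy : Rel u M y s) (N : ℕ) (C : ℝ) :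
    Rel u M (PP N C u w y) (PP N C 1 h s) := by
  refine (Rel.sum _ fun k => ?_).smul _
  have := ((hw.sub (Rel.one.smul ((k : ℝ) / N))).sup hu hM Rel.zero).smul (N * C)
  exact (hy.inf hu hM this).sup hu hM this.neg

theorem PP_real {N : ℕ} (hN : 0 < N) (h : ℝ) : ∃ η : ℝ, 0 ≤ η ∧ η ≤ 1 ∧ (1 ≤ h → η = 1) ∧
    ∀ C s : ℝ, |s| ≤ C → |PP N C 1 h s - η * s| ≤ C * (N : ℝ)⁻¹ := by
  have hN' : (0 : ℝ) < N := by exact_mod_cast hN
  refine ⟨(N : ℝ)⁻¹ * ∑ k ∈ range N, if ((k : ℝ) + 1) ≤ h * N then 1 else 0, mul_nonneg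
    (inv_nonneg.2 hN'.le) (sum_nonneg fun k _ => by split_ifs <;> norm_num), ?_, fun h1 => ?_,
    fun C s hs => ?_⟩
  · rw [inv_mul_le_iff₀ hN', mul_one]
    refine (sum_le_sum (g := fun _ => (1 : ℝ)) fun k _ => by split_ifs <;> norm_num).trans ?_
    simp
  · rw [sum_congr rfl (g := fun _ => (1 : ℝ)) fun k hk => if_pos (by
      have : ((k + 1 : ℕ) : ℝ) ≤ N := by exact_mod_cast mem_range.1 hk
      push_cast at this
      nlinarith)]
    simp [hN'.ne']
  · have hC : 0 ≤ C := (abs_nonneg _).trans hs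
    rw [PP, smul_eq_mul, mul_assoc, ← mul_sub, abs_mul, abs_of_nonneg (inv_nonneg.2 hN'.le),
      mul_comm, sum_mul, ← sum_sub_distrib]
    refine mul_le_mul_of_nonneg_right ((abs_sum_le_sum_abs _ _).trans ((sum_le_sum
      (g := fun k => if k = ⌊h * N⌋₊ then C else 0) fun k _ => ?_).trans ?_)) (inv_nonneg.2 hN'.le)
    · have e : (N * C) • (h - ((k : ℝ) / N) • (1 : ℝ))⁺ = C * max (h * N - k) 0 := by
        rw [smul_eq_mul, smul_eq_mul, mul_one, posPart_def, mul_comm (N : ℝ), mul_assoc,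
          mul_max_of_nonneg _ _ hN'.le, mul_zero]
        congr 2; field_simp
      rw [e, cl]
      have hs' := abs_le.1 hs
      by_cases h1 : ((k : ℝ) + 1) ≤ h * N
      · have : C ≤ C * max (h * N - k) 0 := le_mul_of_one_le_right hC (le_max_of_le_left (by linarith))
        rw [if_pos h1, one_mul, inf_eq_left.2 (by linarith), sup_eq_left.2 (by linarith), sub_self,
          abs_zero]
        split_ifs; exacts [hC, le_rfl]
      · rw [if_neg h1, zero_mul, sub_zero]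
        split_ifs with h2
        · have : 0 ≤ C * max (h * N - k) 0 := mul_nonneg hC (le_max_right _ _)
          exact abs_le.2 ⟨le_sup_of_le_left (le_inf hs'.1 (by linarith)),
            sup_le (inf_le_left.trans hs'.2) (by linarith)⟩
        · have a1 : ⌊h * N⌋₊ < k + 1 := (Nat.floor_lt' (Nat.succ_ne_zero k)).2 (by
            push_cast; exact not_le.1 h1)
          have a2 : ((⌊h * N⌋₊ + 1 : ℕ) : ℝ) ≤ k := by exact_mod_cast (by omega)
          push_cast at a2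
          rw [max_eq_right (a := h * N - k) (by linarith [Nat.lt_floor_add_one (h * N)]), mul_zero, neg_zero,
            sup_eq_right.2 inf_le_right, abs_zero]
    · rw [sum_ite_eq']; split_ifs; exacts [le_rfl, hC]

variable {A : Type}

/-- Lipschitz constant of a term -/
def Tm.L (C : A → ℝ) : Tm A → ℝ
  | .var a => C a
  | .zero => 0
  | .add s t => s.L C + t.L C
  | .smul r t => |r| * t.L C
  | .abs t => t.L C

theorem Tm.L_nonneg {C : A → ℝ} (h : ∀ a, 0 ≤ C a) (t : Tm A) : 0 ≤ t.L C := by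
  induction t with
  | var a => exact h a
  | zero => exact le_rfl
  | add s t hs ht => exact add_nonneg hs ht
  | smul r t ht => exact mul_nonneg (abs_nonneg _) ht
  | abs t ht => exact ht

theorem Tm.lip {C : A → ℝ} {f f' : A → X} {v : X} (h : ∀ a, |f a - f' a| ≤ C a • v) (t : Tm A) :
    |t.ev f - t.ev f'| ≤ t.L C • v := by
  induction t with
  | var a => exact h a
  | zero => simp [Tm.ev, Tm.L]
  | add s t hs ht =>
    simp only [Tm.ev, Tm.L]
    rw [add_sub_add_comm, add_smul]; exact (abs_add_le _ _).trans (add_le_add hs ht)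
  | smul r t ht =>
    simp only [Tm.ev, Tm.L]
    rw [← smul_sub, abs_smul', mul_smul]; exact smul_le_smul_of_nonneg_left ht (abs_nonneg _)
  | abs t ht => exact (abs_abs_sub_abs_le _ _).trans ht

theorem Tm.ev_smul (f : A → X) {c : ℝ} (hc : 0 ≤ c) (t : Tm A) :
    t.ev (fun a => c • f a) = c • t.ev f :=
  (hom_ev (LatHom.smul' (T := ContinuousLinearMap.id ℝ X) (fun _ => rfl) hc) f t).symm

theorem Tm.bound {C : A → ℝ} {f : A → X} {v : X} (h : ∀ a, |f a| ≤ C a • v) (t : Tm A) :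
    |t.ev f| ≤ t.L C • v := by
  have := t.lip (f := f) (f' := fun a => (0 : ℝ) • f a) (C := C) (v := v) fun a => by simpa using h a
  rwa [t.ev_smul f le_rfl, zero_smul, sub_zero] at this

theorem adjust {J : Submodule ℝ X} (hJ : IsIdeal J) (y : ℕ → X) {K : ℝ} (hy : ∀ i, ‖y i‖ ≤ K)
    (t : ℕ → Tm ℕ) (n : ℕ) {δ : ℝ} (hδ : 0 < δ) : ∃ y' : ℕ → X, (∀ i, J.mkQ (y' i) = J.mkQ (y i)) ∧
      (∀ i, ‖y' i‖ ≤ ‖y i‖) ∧ ∀ j < n, ‖(t j).ev y'‖ ≤ ‖J.mkQ ((t j).ev y)‖ + δ := by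
  choose m hm hm' using fun j => Submodule.Quotient.norm_mk_lt (J.mkQ ((t j).ev y)) (half_pos hδ)
  have hw : ∀ j, (t j).ev y - m j ∈ J := fun j => (Submodule.Quotient.eq J).1 (hm j).symm
  have hs : Summable fun i => (1 / 2 : ℝ) ^ i • |y i| :=
    Summable.of_norm_bounded (summable_geometric_two.mul_right K) fun i => by
      rw [norm_smul, Real.norm_of_nonneg (by positivity), norm_abs_eq_norm]
      exact mul_le_mul_of_nonneg_left (hy i) (by positivity)
  have h0 : ∀ i, 0 ≤ (1 / 2 : ℝ) ^ i • |y i| := fun i => smul_nn (by positivity) (abs_nonneg _)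
  set w := ∑ j ∈ range n, |(t j).ev y - m j| with hwd
  have w0 : 0 ≤ w := sum_nonneg fun j _ => abs_nonneg _
  have wJ : w ∈ J := J.sum_mem fun j _ => hJ.abs_mem (hw j)
  set u := ∑' i, (1 / 2 : ℝ) ^ i • |y i| + w with hud
  have wu : w ≤ u := le_add_of_nonneg_left (tsum_nonneg h0)
  have hu := w0.trans wu
  have yu : ∀ i, |y i| ≤ (2 : ℝ) ^ i • u := fun i => by
    have := smul_le_smul_of_nonneg_left ((hs.le_tsum i fun k _ => h0 k).trans
      (le_add_of_nonneg_right w0)) (by positivity : (0 : ℝ) ≤ 2 ^ i)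
    rwa [smul_smul, ← mul_pow, show (2 : ℝ) * (1 / 2) = 1 by norm_num, one_pow, one_smul] at this
  obtain ⟨γ, hγ, hγ'⟩ : ∃ γ : ℝ, 0 < γ ∧ 2 * γ * ‖u‖ ≤ δ / 2 := ⟨δ / 4 / (‖u‖ + 1), by positivity, by
    have : δ / 4 / (‖u‖ + 1) * (‖u‖ + 1) = δ / 4 := by field_simp
    have : 0 < δ / 4 / (‖u‖ + 1) := by positivity
    nlinarith⟩
  have L0 := fun j => (t j).L_nonneg (C := fun i => (2 : ℝ) ^ i) fun i => by positivity
  obtain ⟨N, hN⟩ := exists_nat_gt ((∑ j ∈ range n, (t j).L fun i => 2 ^ i) / γ)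
  have hN' : (0 : ℝ) < N := (div_nonneg (sum_nonneg fun j _ => L0 j) hγ.le).trans_lt hN
  have hN0 : 0 < N := by exact_mod_cast hN'
  have yle : ∀ i, |y i - PP N (2 ^ i) u (γ⁻¹ • w) (y i)| ≤ |y i| := fun i =>
    sub_PP_le hN0 (by positivity) _ _ _
  refine ⟨fun i => y i - PP N (2 ^ i) u (γ⁻¹ • w) (y i), fun i => (Submodule.Quotient.eq J).2 ?_,
    fun i => HasSolidNorm.solid (yle i), fun j hj => ?_⟩
  · rw [sub_sub_cancel_left]
    exact J.neg_mem (PP_mem hJ N (by positivity) hu (smul_nn (by positivity) w0) (J.smul_mem _ wJ) _)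
  have key : |(t j).ev fun i => y i - PP N (2 ^ i) u (γ⁻¹ • w) (y i)| - (|m j| + (2 * γ) • u) ≤ 0 := by
    refine yudin hu ((sub_le_self _ (add_nonneg (abs_nonneg _) (smul_nn (by positivity) hu))).trans
      ((t j).bound fun i => (yle i).trans (yu i))) fun M hM => ?_
    choose s hs using fun i => hM.ex _ _ (yu i)
    have wj : |(t j).ev y - m j| ≤ w := single_le_sum (f := fun j => |(t j).ev y - m j|)
      (fun _ _ => abs_nonneg _) (mem_range.2 hj)
    obtain ⟨ω, hω⟩ := hM.ex _ 1 ((wj.trans wu).trans_eq (one_smul _ _).symm)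
    obtain ⟨h, hh⟩ := hM.ex w 1 (by rw [abs_of_nonneg w0, one_smul]; exact wu)
    have r1 := Rel.le hu hM (Rel.abs hu hM hω) hh wj
    have r2 := fun i => Rel.le hu hM (Rel.abs hu hM (hs i)) (Rel.one.smul _) (yu i)
    have r3 := (Rel.ev hu hM hs (t j)).sub hω
    rw [sub_sub_cancel] at r3
    refine ⟨_, ?_, ((Rel.ev hu hM (fun i => Rel.sub (hs i) (Rel.PP hu hM (Rel.smul γ⁻¹ hh) (hs i) N
      (2 ^ i))) (t j)).abs hu hM).sub ((r3.abs hu hM).add (Rel.one.smul (2 * γ)))⟩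
    obtain ⟨η, e0, e1, e2, e3⟩ := PP_real hN0 (γ⁻¹ • h)
    have r4 := (t j).lip (f := fun i => s i - PP N (2 ^ i) 1 (γ⁻¹ • h) (s i))
      (f' := fun i => (1 - η) • s i) (C := fun i => 2 ^ i) (v := (N : ℝ)⁻¹) fun i => by
        refine le_trans (le_of_eq ?_) (e3 _ (s i) (by simpa using r2 i))
        rw [abs_sub_comm, smul_eq_mul]; congr 1; ring
    have r5 : (t j).L (fun i => 2 ^ i) • (N : ℝ)⁻¹ ≤ γ := by
      rw [smul_eq_mul, mul_inv_le_iff₀ hN', mul_comm, ← div_le_iff₀ hγ]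
      exact (div_le_div_of_nonneg_right (single_le_sum (f := fun j => (t j).L fun i => 2 ^ i)
        (fun j _ => L0 j) (mem_range.2 hj)) hγ.le).trans hN.le
    rw [(t j).ev_smul s (sub_nonneg.2 e1)] at r4
    have r6 := (abs_sub_abs_le_abs_sub _ _).trans (r4.trans r5)
    rw [smul_eq_mul (1 - η), abs_mul, abs_of_nonneg (sub_nonneg.2 e1)] at r6
    rw [smul_eq_mul (2 * γ), mul_one]
    by_cases hh1 : 1 ≤ γ⁻¹ • h
    · rw [e2 hh1] at r6
      linarith [abs_nonneg ((t j).ev s - ω)]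
    · rw [smul_eq_mul, not_le, inv_mul_lt_iff₀ hγ] at hh1
      linarith [abs_sub_abs_le_abs_sub ((t j).ev s) ω, mul_nonneg e0 (abs_nonneg ((t j).ev s))]
  have := HasSolidNorm.solid ((sub_nonpos.1 key).trans (le_abs_self _))
  refine this.trans ((norm_add_le _ _).trans ?_)
  rw [norm_abs_eq_norm, norm_smul, Real.norm_of_nonneg (by positivity)]
  linarith [hm' j]

end Pool.Agent.H86.Bl
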