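import Pool.Agent.H86.BlH

set_option linter.unusedSectionVars false
set_option linter.deprecated false

namespace Pool.Agent.H86.Bl
open Filter Topology Finset

/-- the relations -/
def RR' (t : ℕ → Tm ℕ) (c : ℕ → ℝ) (n : ℕ) (X : Type) [BL X] (f : ℕ → X) : Prop :=
  (∀ i, ‖f i‖ ≤ 1) ∧ ∀ j < n, ‖(t j).ev f‖ ≤ c j

theorem homQ_ev {P X : Type} [BL P] [BL X] {J : Submodule ℝ X} {T : P →L[ℝ] X ⧸ J}
    (hT : LatHomQ J T) {g : ℕ → P} {y : ℕ → X} (h : ∀ i, J.mkQ (y i) = T (g i)) (τ : Tm ℕ) :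
    J.mkQ (τ.ev y) = T (τ.ev g) := by
  induction τ with
  | var a => exact h a
  | zero => exact (map_zero _).trans (map_zero T).symm
  | add s t hs ht => simp only [Tm.ev, map_add, hs, ht]
  | smul r t ht => simp only [Tm.ev, map_smul, ht]
  | abs t ht => exact (hT _ _ ht).symm

theorem proj_rel {t : ℕ → Tm ℕ} {c : ℕ → ℝ} {n : ℕ} (hc : ∀ j, 0 < c j) {P : Type} [BL P]
    {g : ℕ → P} (hd : DenseRange (Tm.ev g)) (hg : RR' t c n P g)
    (up : ∀ (X : Type) [BL X] f, RR' t c n X f →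
      ∃ S : P →L[ℝ] X, LatHom S ∧ ‖S‖ ≤ 1 ∧ ∀ a, S (g a) = f a) : Proj.{0} P := by
  intro X _ J hJ T hT ε hε
  haveI := hJ.1
  rcases eq_or_lt_of_le (norm_nonneg T) with h0 | h0
  · refine ⟨0, fun p => by simp, fun p => ?_, by simp [← h0]⟩
    have := T.le_opNorm p
    rw [← h0, zero_mul, norm_le_zero_iff] at this
    rw [this]; simp
  choose y hy hy' using fun a => exrep hJ (T (g a)) (c := ‖T‖)
    ((T.le_opNorm _).trans (mul_le_of_le_one_right (norm_nonneg _) (hg.1 a))) hε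
  obtain ⟨δ, hδ, hδ'⟩ : ∃ δ : ℝ, 0 < δ ∧ ∀ j < n, δ ≤ c j := by
    clear up hg
    induction n with
    | zero => exact ⟨1, one_pos, fun _ h => absurd h (Nat.not_lt_zero _)⟩
    | succ n ih =>
      obtain ⟨δ, h1, h2⟩ := ih
      refine ⟨min δ (c n), lt_min h1 (hc n), fun j hj => ?_⟩
      rcases Nat.lt_succ_iff_lt_or_eq.1 hj with h | rfl
      · exact (min_le_left _ _).trans (h2 j h)
      · exact min_le_right _ _
  obtain ⟨z, z1, z2, z3⟩ := adjust hJ y hy' t n (δ := ε * ‖T‖ * δ) (by positivity)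
  have hκ : 0 < (1 + ε) * ‖T‖ := by positivity
  obtain ⟨S, s1, s2, s3⟩ := up X (fun i => ((1 + ε) * ‖T‖)⁻¹ • z i) ⟨fun i => by
    rw [norm_smul, Real.norm_of_nonneg (by positivity), inv_mul_le_iff₀ hκ, mul_one]
    exact (z2 i).trans (hy' i), fun j hj => by
    rw [Tm.ev_smul _ (by positivity), norm_smul, Real.norm_of_nonneg (by positivity),
      inv_mul_le_iff₀ hκ]
    have a1 := z3 j hj
    rw [homQ_ev hT hy] at a1
    have a2 := (T.le_opNorm _).trans (mul_le_mul_of_nonneg_left (hg.2 j hj) h0.le)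
    have a3 := mul_le_mul_of_nonneg_left (hδ' j hj) (mul_pos hε h0).le
    linarith⟩
  let Q : X →L[ℝ] X ⧸ J := J.mkQ.mkContinuous 1 fun x => by
    simpa using Submodule.Quotient.norm_mk_le _ x
  have s4 := s1.smul' hκ.le
  refine ⟨((1 + ε) * ‖T‖) • S, s4, fun p => ?_, ?_⟩
  · refine hd.induction_on p (isClosed_eq (Q.comp (((1 + ε) * ‖T‖) • S)).continuous T.continuous)
      fun τ => ?_
    rw [hom_ev s4]
    refine homQ_ev hT (fun i => ?_) τ
    change J.mkQ (((1 + ε) * ‖T‖) • S (g i)) = _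
    rw [s3, smul_smul, mul_inv_cancel₀ hκ.ne', one_smul, z1, hy]
  · rw [norm_smul, Real.norm_of_nonneg hκ.le]; exact mul_le_of_le_one_right hκ.le s2

/-- rational terms of bounded depth -/
def lv : ℕ → Set (Tm ℕ)
  | 0 => Set.range Tm.var ∪ {Tm.zero}
  | n + 1 => lv n ∪ (Set.image2 Tm.add (lv n) (lv n) ∪
      (Set.image2 (fun (q : ℚ) => Tm.smul q) Set.univ (lv n) ∪ Tm.abs '' lv n))

theorem lv_count (n : ℕ) : (lv n).Countable := by
  induction n with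
  | zero => exact (Set.countable_range _).union (Set.countable_singleton _)
  | succ n ih =>
    exact ih.union ((ih.image2 ih _).union ((Set.countable_univ.image2 ih _).union (ih.image _)))

theorem lv_mono : Monotone lv := monotone_nat_of_le_succ fun _ => Set.subset_union_left

theorem norm_ev_le {X : Type} [BL X] {f : ℕ → X} (hf : ∀ i, ‖f i‖ ≤ 1) (τ : Tm ℕ) :
    ‖τ.ev f‖ ≤ τ.L fun _ => 1 := by
  induction τ with
  | var a => exact hf a
  | zero => exact norm_zero.le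
  | add s t hs ht => exact (norm_add_le _ _).trans (add_le_add hs ht)
  | smul r t ht => exact (norm_smul_le _ _).trans (mul_le_mul_of_nonneg_left ht (abs_nonneg _))
  | abs t ht => exact (norm_abs_eq_norm _).trans_le ht

theorem approx (τ : Tm ℕ) : ∀ ε : ℝ, 0 < ε → ∃ n, ∃ σ ∈ lv n, ∀ (X : Type) [BL X] (f : ℕ → X),
    (∀ i, ‖f i‖ ≤ 1) → ‖τ.ev f - σ.ev f‖ ≤ ε := by
  induction τ with
  | var a => exact fun ε hε => ⟨0, _, Or.inl ⟨a, rfl⟩, fun X _ f _ => by simpa using hε.le⟩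
  | zero => exact fun ε hε => ⟨0, _, Or.inr rfl, fun X _ f _ => by simpa using hε.le⟩
  | add s t hs ht =>
    intro ε hε
    obtain ⟨n, a, ha, ha'⟩ := hs _ (half_pos hε)
    obtain ⟨m, b, hb, hb'⟩ := ht _ (half_pos hε)
    refine ⟨max n m + 1, .add a b, Or.inr (Or.inl ⟨a, lv_mono (le_max_left _ _) ha, b,
      lv_mono (le_max_right _ _) hb, rfl⟩), fun X _ f hf => ?_⟩
    simp only [Tm.ev]
    rw [add_sub_add_comm]
    linarith [norm_add_le (s.ev f - a.ev f) (t.ev f - b.ev f), ha' X f hf, hb' X f hf]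
  | smul r t ht =>
    intro ε hε
    have L0 := t.L_nonneg (C := fun _ => 1) fun _ => zero_le_one
    set L := t.L fun _ => 1
    obtain ⟨γ, h1, h2, h3⟩ : ∃ γ : ℝ, 0 < γ ∧ γ ≤ 1 ∧ γ * (L + |r| + 1) ≤ ε :=
      ⟨min 1 (ε / (L + |r| + 1)), by positivity, min_le_left _ _,
        (le_div_iff₀ (by positivity)).1 (min_le_right _ _)⟩
    obtain ⟨n, a, ha, ha'⟩ := ht _ h1
    obtain ⟨q, hq⟩ := exists_rat_near r h1
    refine ⟨n + 1, .smul q a, Or.inr (Or.inr (Or.inl ⟨q, trivial, a, ha, rfl⟩)), fun X _ f hf => ?_⟩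
    simp only [Tm.ev]
    have e : r • t.ev f - (q : ℝ) • a.ev f = (r - q) • t.ev f + (q : ℝ) • (t.ev f - a.ev f) := by
      module
    rw [e]
    refine (norm_add_le _ _).trans ?_
    rw [norm_smul, norm_smul, Real.norm_eq_abs, Real.norm_eq_abs]
    have a1 := mul_le_mul hq.le (norm_ev_le hf t) (norm_nonneg _) h1.le
    have a2 : |(q : ℝ)| ≤ |r| + 1 := by linarith [abs_sub_abs_le_abs_sub (q : ℝ) r, abs_sub_comm r q]
    have a3 := mul_le_mul a2 (ha' X f hf) (norm_nonneg _) (by positivity)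
    linarith
  | abs t ht =>
    intro ε hε
    obtain ⟨n, a, ha, ha'⟩ := ht _ hε
    exact ⟨n + 1, .abs a, Or.inr (Or.inr (Or.inr ⟨a, ha, rfl⟩)), fun X _ f hf =>
      (norm_abs_sub_abs _ _).trans (ha' X f hf)⟩

theorem exseq : ∃ t : ℕ → Tm ℕ, ∀ (τ : Tm ℕ) (ε : ℝ), 0 < ε → ∃ j, ∀ (X : Type) [BL X] (f : ℕ → X),
    (∀ i, ‖f i‖ ≤ 1) → ‖τ.ev f - (t j).ev f‖ ≤ ε := by
  obtain ⟨t, ht⟩ := (Set.countable_iUnion lv_count).exists_eq_range
    ⟨.zero, Set.mem_iUnion.2 ⟨0, Or.inr rfl⟩⟩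
  refine ⟨t, fun τ ε hε => ?_⟩
  obtain ⟨n, σ, h1, h2⟩ := approx τ ε hε
  obtain ⟨j, rfl⟩ : σ ∈ Set.range t := ht ▸ Set.mem_iUnion.2 ⟨n, h1⟩
  exact ⟨j, h2⟩

end Pool.Agent.H86.Bl
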