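import Pool.Agent.H86.BlH

set_option linter.unusedSectionVars false
set_option linter.deprecated false

namespace Pool.Agent.H86.Bl
open Filter Topology Finset

variable {A P : Type} [BL P] {g : A → P}

theorem Tm.vars (τ : Tm A) : ∃ B : Finset A, ∀ (X : Type) [BL X] (f f' : A → X),
    (∀ a ∈ B, f a = f' a) → τ.ev f = τ.ev f' := by
  classical
  induction τ with
  | var a => exact ⟨{a}, fun X _ f f' h => h a (mem_singleton_self a)⟩
  | zero => exact ⟨∅, fun _ _ _ _ _ => rfl⟩
  | add s t hs ht =>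
    obtain ⟨B, hB⟩ := hs
    obtain ⟨C, hC⟩ := ht
    exact ⟨B ∪ C, fun X _ f f' h => by
      simp only [Tm.ev]
      rw [hB X f f' fun a ha => h a (mem_union_left _ ha),
        hC X f f' fun a ha => h a (mem_union_right _ ha)]⟩
  | smul r t ht => exact ht.imp fun B hB X _ f f' h => by simp only [Tm.ev, hB X f f' h]
  | abs t ht => exact ht.imp fun B hB X _ f f' h => by simp only [Tm.ev, hB X f f' h]

theorem Tm.cont (τ : Tm A) : Continuous fun p : A → unitInterval => τ.ev fun a => (p a : ℝ) := by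
  induction τ with
  | var a => exact continuous_subtype_val.comp (continuous_apply a)
  | zero => exact continuous_const
  | add s t hs ht => exact hs.add ht
  | smul r t ht => exact ht.const_smul r
  | abs t ht => exact ht.abs

theorem PosFree.points (h : PosFree g) : ∃ e : (A → unitInterval) → P →L[ℝ] ℝ,
    (∀ p, LatHom (e p)) ∧ (∀ u, Continuous fun p => e p u) ∧ (∀ u, (∀ p, e p u = 0) → u = 0) ∧
      ∀ u, ∃ C : Set A, C.Countable ∧ ∀ p q, (∀ a ∈ C, p a = q a) → e p u = e q u := by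
  classical
  choose e e1 e2 e3 using fun p : A → unitInterval => h.up ℝ (fun a => p a) 1 zero_le_one
    (fun a => (p a).2.1) fun a => by rw [Real.norm_of_nonneg (p a).2.1]; exact (p a).2.2
  have e4 : ∀ p (τ : Tm A), e p (τ.ev g) = τ.ev fun a => (p a : ℝ) := fun p τ => by
    rw [hom_ev (e1 p), funext (e3 p)]
  have ct : ∀ {Z : Type} [BL Z] {S : P →L[ℝ] Z}, ‖S‖ ≤ 1 → ∀ p, ‖S p‖ ≤ ‖p‖ :=
    fun h p => (ContinuousLinearMap.le_opNorm _ p).trans (mul_le_of_le_one_left (norm_nonneg _) h)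
  refine ⟨e, e1, fun u => ?_, fun u hu => ?_, fun u => ?_⟩
  · refine continuous_of_uniform_approx_of_continuous fun U hU => ?_
    obtain ⟨ε, hε, h'⟩ := Metric.mem_uniformity_dist.1 hU
    obtain ⟨τ, hτ⟩ := h.dense.exists_dist_lt u hε
    refine ⟨_, τ.cont, fun p => h' ?_⟩
    rw [← e4, dist_eq_norm, ← map_sub]
    exact (ct (e2 p) _).trans_lt (by rwa [← dist_eq_norm])
  · choose r r1 r2 r3 using fun B : Finset A => h.up P (fun a => if a ∈ B then g a else 0) 1
      zero_le_one (fun a => by split_ifs; exacts [h.pos a, le_rfl])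
      fun a => by split_ifs; exacts [h.nrm a, by simp]
    have r4 : ∀ B, r B u = 0 := fun B => by
      have v0 : 0 ≤ ∑ a ∈ B, g a := sum_nonneg fun a _ => h.pos a
      set v := ∑ a ∈ B, g a with hv
      have b0 : ∀ a, 0 ≤ (if a ∈ B then g a else 0) := fun a => by
        split_ifs; exacts [h.pos a, le_rfl]
      have b1 : ∀ a, |if a ∈ B then g a else 0| ≤ (1 : ℝ) • v := fun a => by
        rw [abs_of_nonneg (b0 a), one_smul]
        split_ifs with ha
        exacts [single_le_sum (fun a _ => h.pos a) ha, v0]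
      refine norm_le_zero_iff.1 (le_of_forall_pos_le_add fun ε hε => ?_)
      have hδ : 0 < ε / (1 + ‖v‖) := by positivity
      obtain ⟨τ, hτ⟩ := h.dense.exists_dist_lt u hδ
      rw [dist_eq_norm] at hτ
      have key : |τ.ev fun a => if a ∈ B then g a else 0| - (ε / (1 + ‖v‖)) • v ≤ 0 := by
        refine yudin v0 ((sub_le_self _ (smul_nn hδ.le v0)).trans (τ.bound b1)) fun M hM => ?_
        choose s hs using fun a => hM.ex _ _ (b1 a)
        refine ⟨_, ?_, ((Rel.ev v0 hM hs τ).abs v0 hM).sub (Rel.one.smul _)⟩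
        have := ct (e2 fun a => ⟨s a, Rel.le v0 hM Rel.zero (hs a) (b0 a), Rel.le v0 hM (hs a)
          Rel.one ((le_abs_self _).trans ((b1 a).trans_eq (one_smul _ _)))⟩) (u - τ.ev g)
        rw [map_sub, hu, e4, zero_sub, norm_neg, Real.norm_eq_abs] at this
        rw [smul_eq_mul, mul_one]
        linarith
      have k2 := HasSolidNorm.solid ((sub_nonpos.1 key).trans (le_abs_self _))
      rw [norm_smul, Real.norm_of_nonneg hδ.le, ← funext (r3 B), ← hom_ev (r1 B)] at k2
      have k3 := ct (r2 B) (u - τ.ev g)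
      rw [map_sub] at k3
      have : ε / (1 + ‖v‖) * (1 + ‖v‖) = ε := by field_simp
      linarith [norm_sub_norm_le (r B u) (r B (τ.ev g))]
    refine norm_le_zero_iff.1 (le_of_forall_pos_le_add fun ε hε => ?_)
    obtain ⟨τ, hτ⟩ := h.dense.exists_dist_lt u (half_pos hε)
    rw [dist_eq_norm] at hτ
    obtain ⟨B, hB⟩ := τ.vars
    have k3 := ct (r2 B) (u - τ.ev g)
    rw [map_sub, r4, zero_sub, norm_neg, hom_ev (r1 B), hB P _ g fun a ha => by
      rw [r3, if_pos ha]] at k3
    linarith [norm_sub_norm_le u (τ.ev g)]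
  · obtain ⟨x, hx, hx'⟩ := mem_closure_iff_seq_limit.1 (h.dense u)
    choose s hs using hx
    choose B hB using fun n => (s n).vars
    refine ⟨⋃ n, B n, Set.countable_iUnion fun n => (B n).countable_toSet, fun p q hpq =>
      tendsto_nhds_unique (((e p).continuous.tendsto u).comp hx') ?_⟩
    refine (((e q).continuous.tendsto u).comp hx').congr fun n => ?_
    simp only [Function.comp, ← hs n, e4]
    exact hB n ℝ _ _ fun a ha => by rw [hpq a (Set.mem_iUnion.2 ⟨n, ha⟩)]

/-- a projective lattice is a retract of a lattice free on positive generators -/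
theorem Proj.retract {X : Type} [BL X] (hX : Proj.{0} X) : ∃ (A P : Type) (_ : BL P) (g : A → P)
    (S : X →L[ℝ] P), PosFree g ∧ LatHom S ∧ Function.Injective S := by
  obtain ⟨P, _, g, h⟩ := exPosFree {x : X // 0 ≤ x ∧ ‖x‖ ≤ 1}
  obtain ⟨Q, q1, -, q3⟩ := h.up X (fun a => a.1) 1 zero_le_one (fun a => a.2.1) fun a => a.2.2
  have a1 : ∀ x : X, 0 ≤ x → ∃ u, Q u = x ∧ ‖u‖ ≤ ‖x‖ := fun x hx => by
    rcases eq_or_ne x 0 with rfl | h0
    · exact ⟨0, map_zero _, by simp⟩
    have hn := norm_pos_iff.2 h0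
    refine ⟨‖x‖ • g ⟨‖x‖⁻¹ • x, smul_nn (by positivity) hx, by
      rw [norm_smul, norm_inv, norm_norm, inv_mul_cancel₀ hn.ne']⟩, ?_, ?_⟩
    · rw [map_smul, q3, smul_smul, mul_inv_cancel₀ hn.ne', one_smul]
    · exact (norm_smul_le _ _).trans ((mul_le_of_le_one_right (norm_nonneg _) (h.nrm _)).trans_eq
        (norm_norm x))
  have a2 : ∀ x : X, ∃ u, Q u = x ∧ ‖u‖ ≤ 2 * ‖x‖ := fun x => by
    obtain ⟨u, hu, hu'⟩ := a1 _ (posPart_nonneg x)
    obtain ⟨v, hv, hv'⟩ := a1 _ (negPart_nonneg x)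
    have b1 : ‖x⁺‖ ≤ ‖x‖ := HasSolidNorm.solid (by
      rw [abs_of_nonneg (posPart_nonneg x)]; exact sup_le (le_abs_self _) (abs_nonneg _))
    have b2 : ‖x⁻‖ ≤ ‖x‖ := HasSolidNorm.solid (by
      rw [abs_of_nonneg (negPart_nonneg x)]; exact sup_le (neg_le_abs _) (abs_nonneg _))
    exact ⟨u - v, by rw [map_sub, hu, hv, posPart_sub_negPart], by linarith [norm_sub_le u v]⟩
  let J := LinearMap.ker (Q : P →ₗ[ℝ] X)
  let E := LinearMap.quotKerEquivOfSurjective (Q : P →ₗ[ℝ] X) fun x => (a2 x).imp fun _ h => h.1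
  have hE : ∀ u, E (J.mkQ u) = Q u := fun u => rfl
  have hE' : ∀ u, E.symm (Q u) = J.mkQ u := fun u => by rw [← hE, E.symm_apply_apply]
  have hJ : IsIdeal J := ⟨Q.isClosed_ker, fun p hp q hq => by
    have h1 := q1.nonneg (sub_nonneg.2 hq)
    have h2 : Q p = 0 := hp
    rw [map_sub, q1, q1, h2, abs_zero, zero_sub, neg_nonneg] at h1
    exact norm_eq_zero.1 (show ‖Q q‖ = 0 by
      rw [← norm_abs_eq_norm, le_antisymm h1 (abs_nonneg _), norm_zero])⟩
  obtain ⟨S, s1, s2, -⟩ := hX P J hJ (E.symm.toLinearMap.mkContinuous 2 fun x => by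
    obtain ⟨u, rfl, hu⟩ := a2 x
    exact (hE' u ▸ Submodule.Quotient.norm_mk_le J u : ‖E.symm (Q u)‖ ≤ ‖u‖).trans hu)
    (fun p x hx => by
      have : Q x = p := by rw [← hE, hx]; exact E.apply_symm_apply p
      rw [← this, ← q1]; exact hE' _) 1 one_pos
  exact ⟨_, P, inferInstance, g, S, h, s1, fun x y hxy => E.symm.injective
    ((s2 x).symm.trans ((congrArg J.mkQ hxy).trans (s2 y)))⟩

theorem dense_on (C : Set A) (hC : C.Countable) : ∃ h : ℕ → A → unitInterval,
    ∀ (p : A → unitInterval) (I : Set A) (t : A → Set unitInterval), I.Finite →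
      (∀ a, t a ∈ 𝓝 (p a)) → ∃ m, ∀ a ∈ I, a ∈ C → h m a ∈ t a := by
  classical
  haveI := hC.to_subtype
  obtain ⟨d, hd⟩ := TopologicalSpace.exists_dense_seq (C → unitInterval)
  refine ⟨fun m a => if ha : a ∈ C then d m ⟨a, ha⟩ else 0, fun p I t hI ht => ?_⟩
  obtain ⟨m, hm⟩ := hd.mem_nhds (set_pi_mem_nhds (x := fun a : C => p a) (s := fun a : C => t a)
    (hI.preimage Subtype.val_injective.injOn) fun a _ => ht a)
  exact ⟨m, fun a ha hc => by simp only [dif_pos hc]; exact hm ⟨a, hc⟩ ha⟩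

/-- bookkeeping recursion -/
noncomputable def bk {X H : Type} (σ : X → H → X) (h : Set X → ℕ → H) (x : X) : ℕ → X
  | 0 => x
  | n + 1 => σ (bk σ h x n)
      (h (Set.range fun k : Fin ((Nat.unpair n).1 + 1) => bk σ h x k) (Nat.unpair n).2)
decreasing_by
  · omega
  · have := Nat.unpair_left_le n
    have := k.2
    omega

end Pool.Agent.H86.Bl
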