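import Pool.Agent.H86.BlJ

set_option linter.unusedSectionVars false
set_option linter.deprecated false

namespace Pool.Agent.H86.Bl
open Filter Topology Finset
open scoped TensorProduct

theorem pou {K V : Type} [TopologicalSpace K] [CompactSpace K] [T2Space K] [NormedAddCommGroup V]
    [NormedSpace ℝ V] (F : C(K, V)) {ε : ℝ} (hε : 0 < ε) : ∃ (n : ℕ) (ρ : Fin n → C(K, ℝ))
      (s : Fin n → K), (∀ j, 0 ≤ ρ j) ∧ ∀ t, ‖F t - ∑ j, ρ j t • F (s j)‖ ≤ ε := by
  obtain ⟨T, hT⟩ := isCompact_univ.elim_finite_subcover (fun s : K => {t | ‖F t - F s‖ < ε})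
    (fun s => isOpen_lt (by fun_prop) continuous_const) fun t _ => Set.mem_iUnion.2 ⟨t, by simpa⟩
  obtain ⟨ρ, h1, h2, h3, -⟩ := exists_continuous_sum_one_of_isOpen_isCompact
    (s := fun j => {t | ‖F t - F (T.equivFin.symm j)‖ < ε})
    (fun s => isOpen_lt (by fun_prop) continuous_const) isCompact_univ fun t ht => by
      obtain ⟨s, hs, h⟩ := Set.mem_iUnion₂.1 (hT ht)
      exact Set.mem_iUnion.2 ⟨T.equivFin ⟨s, hs⟩, by simpa using h⟩
  refine ⟨_, ρ, fun j => T.equivFin.symm j, fun j t => (h3 j t).1, fun t => ?_⟩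
  have e : ∑ j, ρ j t = 1 := by simpa using h2 (Set.mem_univ t)
  have : F t - ∑ j, ρ j t • F (T.equivFin.symm j) = ∑ j, ρ j t • (F t - F (T.equivFin.symm j)) := by
    simp only [smul_sub, sum_sub_distrib, ← sum_smul, e, one_smul]
  rw [this, ← one_mul ε, ← e, sum_mul]
  refine norm_sum_le_of_le _ fun j _ => ?_
  rw [norm_smul, Real.norm_of_nonneg (h3 j t).1]
  by_cases h : ρ j t = 0
  · simp [h]
  · exact mul_le_mul_of_nonneg_left (h1 j (subset_tsupport _ h)).le (h3 j t).1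

/-- representation of a Banach lattice as a renormed `C(K)` -/
structure CRep (X : Type) [BL X] (K : Type) [TopologicalSpace K] [CompactSpace K] where
  e : X ≃L[ℝ] C(K, ℝ)
  pos : ∀ x, 0 ≤ e x ↔ 0 ≤ x
  le : ∀ x, ‖e x‖ ≤ ‖x‖

variable {X Y K L : Type} [BL X] [BL Y] [TopologicalSpace K] [CompactSpace K] [T2Space K]
  [TopologicalSpace L] [CompactSpace L] [T2Space L] (r : CRep X K) (s : CRep Y L)

theorem CRep.abs_le (x : X) (t : K) : |r.e x t| ≤ r.e |x| t := by
  have h1 := (r.pos _).2 (sub_nonneg.2 (le_abs_self x))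
  have h2 := (r.pos _).2 (sub_nonneg.2 (neg_le_abs x))
  rw [map_sub, sub_nonneg] at h1 h2
  rw [map_neg] at h2
  exact abs_le'.2 ⟨h1 t, h2 t⟩

noncomputable def tp0 : X →ₗ[ℝ] Y →ₗ[ℝ] C(K × L, ℝ) :=
  ContinuousMap.prodMul.compl₁₂ (r.e : X →ₗ[ℝ] C(K, ℝ)) (s.e : Y →ₗ[ℝ] C(L, ℝ))

theorem tp0_apply (x : X) (y : Y) (p : K × L) : tp0 r s x y p = r.e x p.1 * s.e y p.2 := rfl

noncomputable def SS : AddSubmonoid (C(K × L, ℝ) × ℝ) :=
  AddSubmonoid.closure {p | ∃ x y, 0 ≤ x ∧ 0 ≤ y ∧ p = (tp0 r s x y, ‖x‖ * ‖y‖)}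

theorem SS_ind {Q : C(K × L, ℝ) → ℝ → Prop} (h0 : Q 0 0)
    (h1 : ∀ x y, 0 ≤ x → 0 ≤ y → Q (tp0 r s x y) (‖x‖ * ‖y‖))
    (h2 : ∀ v c w d, Q v c → Q w d → Q (v + w) (c + d)) {p} (hp : p ∈ SS r s) : Q p.1 p.2 := by
  induction hp using AddSubmonoid.closure_induction with
  | mem p hp => obtain ⟨x, y, hx, hy, rfl⟩ := hp; exact h1 x y hx hy
  | zero => exact h0
  | add p q _ _ hp hq => exact h2 _ _ _ _ hp hq

theorem SS_mem {x : X} {y : Y} (hx : 0 ≤ x) (hy : 0 ≤ y) : (tp0 r s x y, ‖x‖ * ‖y‖) ∈ SS r s :=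
  AddSubmonoid.subset_closure ⟨x, y, hx, hy, rfl⟩

theorem SS_le {p} (hp : p ∈ SS r s) : ‖p.1‖ ≤ p.2 :=
  SS_ind r s (Q := fun v c => ‖v‖ ≤ c) (by simp) (fun x y _ _ =>
    (ContinuousMap.norm_le _ (by positivity)).2 fun p => (norm_mul_le _ _).trans (mul_le_mul
      (((r.e x).norm_coe_le_norm _).trans (r.le x)) (((s.e y).norm_coe_le_norm _).trans (s.le y))
        (norm_nonneg _) (norm_nonneg _)))
    (fun _ _ _ _ h h' => (norm_add_le _ _).trans (add_le_add h h')) hp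

theorem SS_smul {t : ℝ} (ht : 0 ≤ t) {p} (hp : p ∈ SS r s) : (t • p.1, t * p.2) ∈ SS r s :=
  SS_ind r s (Q := fun v c => (t • v, t * c) ∈ SS r s) (by
    rw [smul_zero, mul_zero]; exact (SS r s).zero_mem) (fun x y hx hy => by
      have := SS_mem r s (smul_nn ht hx) hy
      rwa [map_smul, norm_smul, Real.norm_of_nonneg ht, mul_assoc] at this)
    (fun _ _ _ _ h h' => by rw [smul_add, mul_add]; exact (SS r s).add_mem h h') hp

/-- the Fremlin tensor product of two represented lattices -/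
def FT (_r : CRep X K) (_s : CRep Y L) : Type := C(K × L, ℝ)

noncomputable instance : AddCommGroup (FT r s) := inferInstanceAs (AddCommGroup C(K × L, ℝ))
noncomputable instance : Module ℝ (FT r s) := inferInstanceAs (Module ℝ C(K × L, ℝ))
noncomputable instance : Lattice (FT r s) := inferInstanceAs (Lattice C(K × L, ℝ))

def NS (u : C(K × L, ℝ)) : Set ℝ := {c | ∃ v, (v, c) ∈ SS r s ∧ |u| ≤ v}

theorem one_pos_r : 0 ≤ r.e.symm 1 := (r.pos _).1 (by rw [r.e.apply_symm_apply]; exact zero_le_one)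

theorem tp0_one : tp0 r s (r.e.symm 1) (s.e.symm 1) = 1 := by
  ext p; simp [tp0_apply]

theorem abs_le_one (u : C(K × L, ℝ)) : |u| ≤ ‖u‖ • (1 : C(K × L, ℝ)) := fun p => by
  simpa using u.norm_coe_le_norm p

theorem NS_mem (u : C(K × L, ℝ)) : ‖u‖ * (‖r.e.symm 1‖ * ‖s.e.symm 1‖) ∈ NS r s u :=
  ⟨_, SS_smul r s (norm_nonneg u) (SS_mem r s (one_pos_r r) ((s.pos _).1 (by
    rw [s.e.apply_symm_apply]; exact zero_le_one))), by rw [tp0_one]; exact abs_le_one u⟩

theorem NS_ge {u : C(K × L, ℝ)} {c : ℝ} (h : c ∈ NS r s u) : ‖u‖ ≤ c := by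
  obtain ⟨v, hv, h⟩ := h
  have h1 : ‖u‖ ≤ ‖v‖ := HasSolidNorm.solid (h.trans (le_abs_self v))
  exact h1.trans (SS_le r s (p := (v, c)) hv)

theorem nF_le {u : C(K × L, ℝ)} {c : ℝ} (h : c ∈ NS r s u) : sInf (NS r s u) ≤ c :=
  csInf_le ⟨_, fun _ h => NS_ge r s h⟩ h

theorem le_nF {u : C(K × L, ℝ)} {b : ℝ} (h : ∀ c ∈ NS r s u, b ≤ c) : b ≤ sInf (NS r s u) :=
  le_csInf ⟨_, NS_mem r s u⟩ h

noncomputable instance : NormedAddCommGroup (FT r s) := AddGroupNorm.toNormedAddCommGroup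
  { toFun := fun u => sInf (NS r s u)
    map_zero' := le_antisymm (nF_le r s ⟨0, (SS r s).zero_mem, abs_zero.le⟩)
      (le_nF r s fun _ h => (norm_nonneg _).trans (NS_ge r s h))
    add_le' := fun f g => by
      rw [← sub_le_iff_le_add]
      refine le_nF r s fun c ⟨v, hv, hc⟩ => ?_
      rw [sub_le_comm]
      exact le_nF r s fun e ⟨w, hw, he⟩ => sub_le_iff_le_add'.2 (nF_le r s ⟨v + w,
        (SS r s).add_mem hv hw, (abs_add_le (α := C(K × L, ℝ)) f g).trans (add_le_add hc he)⟩)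
    neg' := fun f => congrArg sInf (Set.ext fun c => exists_congr fun v => and_congr_right fun _ =>
      (abs_neg (α := C(K × L, ℝ)) f) ▸ Iff.rfl)
    eq_zero_of_map_eq_zero' := fun f h => norm_le_zero_iff.1 (show @norm C(K × L, ℝ) _ f ≤ 0 from
      h ▸ le_nF r s fun _ h => NS_ge r s h) }

noncomputable instance : NormedSpace ℝ (FT r s) := ⟨fun t f => by
  have key : ∀ c ∈ NS r s f, ‖t • f‖ ≤ |t| * c := fun c ⟨v, hv, hc⟩ => nF_le r s ⟨_,
    SS_smul r s (abs_nonneg t) hv, (abs_smul' (X := C(K × L, ℝ)) t f).trans_le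
      (smul_le_smul_of_nonneg_left hc (abs_nonneg t))⟩
  change _ ≤ |t| * _
  rcases eq_or_lt_of_le (abs_nonneg t) with h | h
  · have := key _ (NS_mem r s f)
    rw [← h] at this ⊢; simpa using this
  · rw [← div_le_iff₀' h]
    exact le_nF r s fun c hc => (div_le_iff₀' h).2 (key c hc)⟩

/-- the identity map -/
noncomputable def toC : FT r s ≃L[ℝ] C(K × L, ℝ) :=
  LinearEquiv.toContinuousLinearEquivOfBounds (E := FT r s) (LinearEquiv.refl ℝ C(K × L, ℝ)) 1
    (‖r.e.symm 1‖ * ‖s.e.symm 1‖)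
    (fun u => by rw [one_mul]; exact le_nF r s fun _ h => NS_ge r s h)
    fun u => by rw [mul_comm]; exact nF_le r s (NS_mem r s u)

noncomputable instance : BL (FT r s) where
  add_le_add_left := fun _ _ h _ p => add_le_add_left (h p) _
  solid := fun _ _ h => le_nF r s fun _ ⟨v, hv, hc⟩ => nF_le r s ⟨v, hv, le_trans h hc⟩
  smul_le_smul_of_nonneg_left := fun _ ht _ _ h p => mul_le_mul_of_nonneg_left (h p) ht
  complete := ((completeSpace_congr (e := (toC r s).toEquiv) (toC r s).isUniformEmbedding).2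
    inferInstance).complete

noncomputable def tp : X →L[ℝ] Y →L[ℝ] FT r s :=
  LinearMap.mkContinuous₂ (G := FT r s) (tp0 r s) 1 fun x y => by
    rw [one_mul, ← norm_abs_eq_norm x, ← norm_abs_eq_norm y]
    refine nF_le r s ⟨_, SS_mem r s (abs_nonneg x) (abs_nonneg y), fun p => ?_⟩
    exact (abs_mul _ _).trans_le (mul_le_mul (r.abs_le x _) (s.abs_le y _) (abs_nonneg _)
      ((abs_nonneg _).trans (r.abs_le x _)))

theorem tp_le (x : X) (y : Y) : ‖tp r s x y‖ ≤ ‖x‖ * ‖y‖ :=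
  ((tp r s).le_opNorm₂ x y).trans (by
    have : ‖tp r s‖ ≤ 1 := LinearMap.mkContinuous₂_norm_le _ zero_le_one _
    rw [mul_assoc]
    exact mul_le_of_le_one_left (by positivity) this)

theorem tp_pos (x : X) (y : Y) (hx : 0 ≤ x) (hy : 0 ≤ y) : 0 ≤ tp r s x y := fun p =>
  mul_nonneg ((r.pos x).2 hx p.1) ((s.pos y).2 hy p.2)

theorem tp_dense : DenseRange (TensorProduct.lift (tp0 r s)) := by
  refine Metric.denseRange_iff.2 fun u ε hε => ?_
  obtain ⟨n, ρ, t, -, h⟩ := pou u.curry (half_pos hε)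
  refine ⟨∑ j, r.e.symm (ρ j) ⊗ₜ s.e.symm (u.curry (t j)), ?_⟩
  rw [dist_eq_norm]
  refine ((ContinuousMap.norm_le _ (half_pos hε).le).2 fun p => ?_).trans_lt (half_lt_self hε)
  refine le_trans (le_of_eq ?_) ((ContinuousMap.norm_coe_le_norm _ p.2).trans (h p.1))
  simp [tp0_apply]

theorem lift_pos {W : Type} [BL W] (φ : X →L[ℝ] Y →L[ℝ] W) (hφ : ∀ x y, 0 ≤ x → 0 ≤ y → 0 ≤ φ x y)
    (v : X ⊗[ℝ] Y) (hv : 0 ≤ TensorProduct.lift (tp0 r s) v) :
    0 ≤ TensorProduct.lift φ.toLinearMap₁₂ v := by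
  obtain ⟨n, x, y, rfl⟩ := TensorProduct.exists_sum_tmul_eq v
  simp only [map_sum, TensorProduct.lift.tmul, ContinuousLinearMap.toLinearMap₁₂_apply] at hv ⊢
  let G : (Fin n → C(K, ℝ)) → W := fun a => ∑ i, φ (r.e.symm (a i)) (y i)
  have hG : Continuous G := by fun_prop
  have hc : (fun i => r.e (x i)) ∈ closure (G ⁻¹' {w | 0 ≤ w}) := by
    refine Metric.mem_closure_iff.2 fun ε hε => ?_
    obtain ⟨m, ρ, t, h0, h⟩ := pou (⟨fun k i => r.e (x i) k, by fun_prop⟩ : C(K, Fin n → ℝ))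
      (half_pos hε)
    refine ⟨fun i => ∑ j, r.e (x i) (t j) • ρ j, ?_, ?_⟩
    · change 0 ≤ ∑ i, _
      simp only [map_sum, map_smul, ContinuousLinearMap.sum_apply, ContinuousLinearMap.smul_apply]
      rw [sum_comm]
      refine sum_nonneg fun j _ => ?_
      have := hφ (r.e.symm (ρ j)) (∑ i, r.e (x i) (t j) • y i) ((r.pos _).1 (by
        rw [r.e.apply_symm_apply]; exact h0 j)) ((s.pos _).1 fun l => by
          simpa [tp0_apply] using hv (t j, l))
      simpa only [map_sum, map_smul] using this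
    · rw [dist_eq_norm]
      refine ((pi_norm_le_iff_of_nonneg (half_pos hε).le).2 fun i =>
        (ContinuousMap.norm_le _ (half_pos hε).le).2 fun k => ?_).trans_lt (half_lt_self hε)
      refine le_trans (le_of_eq ?_) ((norm_le_pi_norm _ i).trans (h k))
      simp [mul_comm]
  have := (isClosed_nonneg.preimage hG).closure_subset hc
  simpa [G] using this

theorem fremlin {W : Type} [BL W] (φ : X →L[ℝ] Y →L[ℝ] W) (hφ : ∀ x y, 0 ≤ x → 0 ≤ y → 0 ≤ φ x y) :
    ∃! T : FT r s →L[ℝ] W, (∀ z, 0 ≤ z → 0 ≤ T z) ∧ (∀ x y, T (tp r s x y) = φ x y) ∧ ‖T‖ = ‖φ‖ := by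
  set f := TensorProduct.lift φ.toLinearMap₁₂ with hf
  set e := TensorProduct.lift (tp0 r s) with he
  set o := r.e.symm 1 ⊗ₜ[ℝ] s.e.symm 1 with ho
  have eo : e o = 1 := tp0_one r s
  have hb : ∀ v, ‖f v‖ ≤ ‖f o‖ * ‖e v‖ := fun v => by
    have h1 := lift_pos r s φ hφ (‖e v‖ • o - v) (by
      rw [← he, map_sub, map_smul, eo, sub_nonneg]; exact (le_abs_self _).trans (abs_le_one _))
    have h2 := lift_pos r s φ hφ (‖e v‖ • o + v) (by
      rw [← he, map_add, map_smul, eo, ← neg_le_iff_add_nonneg]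
      exact (neg_le_abs _).trans (abs_le_one _))
    rw [← hf, map_sub, map_smul, sub_nonneg] at h1
    rw [← hf, map_add, map_smul, ← neg_le_iff_add_nonneg] at h2
    refine (HasSolidNorm.solid ((abs_le'.2 ⟨h1, h2⟩).trans (le_abs_self _))).trans_eq ?_
    rw [norm_smul, norm_norm, mul_comm]
  set T0 := f.extendOfNorm e with hT0
  have t1 : ∀ v, T0 (e v) = f v := LinearMap.extendOfNorm_eq (tp_dense r s) ⟨_, hb⟩
  have t2 : ∀ u, 0 ≤ u → 0 ≤ T0 u := fun u hu => by
    have : ∀ u, 0 ≤ T0 u + ‖u⁻‖ • f o := fun u => (tp_dense r s).induction_on u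
      (isClosed_nonneg.preimage (T0.continuous.add ((continuous_negPart.norm).smul continuous_const)))
      fun v => by
        have := lift_pos r s φ hφ (v + ‖(e v)⁻‖ • o) (by
          rw [← he, map_add, map_smul, eo, ← neg_le_iff_add_nonneg']
          exact (neg_le_negPart _).trans ((le_abs_self _).trans (abs_le_one _)))
        rwa [← hf, map_add, map_smul, ← t1] at this
    simpa [negPart_eq_zero.2 hu] using this u
  have t3 : ∀ x y, T0 (tp0 r s x y) = φ x y := fun x y => t1 (x ⊗ₜ y)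
  refine ⟨T0.comp (toC r s : FT r s →L[ℝ] C(K × L, ℝ)), ⟨t2, t3, le_antisymm ?_ ?_⟩, ?_⟩
  · have key : ∀ u : FT r s, ∀ c ∈ NS r s u, ‖T0 u‖ ≤ ‖φ‖ * c := fun u c ⟨v, hv, hc⟩ => by
      have a1 := t2 _ (sub_nonneg.2 ((le_abs_self _).trans hc))
      have a2 := t2 _ (sub_nonneg.2 ((neg_le_abs _).trans hc))
      rw [map_sub, sub_nonneg] at a1 a2
      rw [map_neg] at a2
      refine (HasSolidNorm.solid ((abs_le'.2 ⟨a1, a2⟩).trans (le_abs_self _))).trans ?_
      exact SS_ind r s (Q := fun v c => ‖T0 v‖ ≤ ‖φ‖ * c) (by simp) (fun x y _ _ => by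
        rw [t3, ← mul_assoc]; exact φ.le_opNorm₂ x y) (fun _ _ _ _ h h' => by
          rw [map_add, mul_add]; exact (norm_add_le _ _).trans (add_le_add h h')) hv
    refine ContinuousLinearMap.opNorm_le_bound _ φ.opNorm_nonneg fun u => ?_
    rcases eq_or_lt_of_le φ.opNorm_nonneg with h | h
    · have := key u _ (NS_mem r s u)
      rw [← h, zero_mul] at this ⊢; exact this
    · rw [← div_le_iff₀' h]
      exact le_nF r s fun c hc => (div_le_iff₀' h).2 (key u c hc)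
  · refine ContinuousLinearMap.opNorm_le_bound₂ _ (norm_nonneg _) fun x y => ?_
    rw [← t3, mul_assoc]
    exact ((T0.comp (toC r s : FT r s →L[ℝ] C(K × L, ℝ))).le_opNorm (tp r s x y)).trans
      (mul_le_mul_of_nonneg_left (tp_le r s x y) (norm_nonneg _))
  · rintro T ⟨-, h, -⟩
    have : ∀ u, T ((toC r s).symm u) = T0 u := fun u => (tp_dense r s).induction_on u
      (isClosed_eq (T.continuous.comp (toC r s).symm.continuous) T0.continuous) fun v => by
        induction v with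
        | zero => simp
        | tmul x y => exact (h x y).trans (t3 x y).symm
        | add a b ha hb => simp only [map_add, ha, hb]
    exact ContinuousLinearMap.ext fun u => this u

end Pool.Agent.H86.Bl
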