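import Pool.Agent.H86.BlK

set_option linter.unusedSectionVars false
set_option linter.deprecated false

namespace Pool.Agent.H86.Bl
open Filter Topology Finset

/-- relations of the renormed cube -/
def RC {A : Type} (c : ℝ) (X : Type) [BL X] (f : Option A → X) : Prop :=
  (∀ a, 0 ≤ f a) ∧ (∀ a, ‖f a‖ ≤ c) ∧ ∀ a, f a ≤ (2 : ℝ) • f none

structure Cube {A P : Type} [BL P] (g : Option A → P) : Prop where
  rel : RC 1 P g
  dense : DenseRange (Tm.ev g)
  up : ∀ (X : Type) [BL X] (f : Option A → X) (c : ℝ), 0 ≤ c → RC c X f →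
    ∃ S : P →L[ℝ] X, LatHom S ∧ ‖S‖ ≤ c ∧ ∀ a, S (g a) = f a

theorem exCube (A : Type) : ∃ (P : Type) (_ : BL P) (g : Option A → P), Cube g := by
  obtain ⟨P, _, g, h1, h2, h3⟩ := univ (A := Option A) (RC 1) fun X _ f h => h.2.1
  have pos : ∀ τ : Tm (Option A), (∀ (X : Type) [BL X] f, RC 1 X f → 0 ≤ τ.ev f) → 0 ≤ τ.ev g :=
    fun τ h => by
      have := h3 (.add (.abs τ) (.smul (-1) τ)) 0 le_rfl fun X _ f hf => by
        simp [Tm.ev, abs_of_nonneg (h X f hf)]
      simp only [Tm.ev, neg_smul, one_smul, norm_le_zero_iff, add_neg_eq_zero] at this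
      rw [← this]; exact abs_nonneg _
  refine ⟨P, inferInstance, g, ⟨fun a => pos (.var a) fun X _ f h => h.1 a,
    fun a => h3 (.var a) 1 zero_le_one fun X _ f h => h.2.1 a, fun a => ?_⟩, h1,
      fun X _ f c hc hf => ?_⟩
  · simpa [Tm.ev] using pos (.add (.smul 2 (.var none)) (.smul (-1) (.var a))) fun X _ f h => by
      simpa [Tm.ev] using h.2.2 a
  · rcases eq_or_lt_of_le hc with rfl | h
    · exact ⟨0, fun p => by simp, by simp, fun a => (norm_le_zero_iff.1 (hf.2.1 a)).symm⟩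
    obtain ⟨S, s1, s2, s3⟩ := h2 X (fun a => c⁻¹ • f a) ⟨fun a => smul_nn (inv_nonneg.2 hc) (hf.1 a),
      fun a => by
        rw [norm_smul, Real.norm_of_nonneg (inv_nonneg.2 hc), inv_mul_le_iff₀ h, mul_one]
        exact hf.2.1 a, fun a => by
        rw [smul_comm]; exact smul_le_smul_of_nonneg_left (hf.2.2 a) (inv_nonneg.2 hc)⟩
    refine ⟨c • S, s1.smul' hc, ?_, fun a => ?_⟩
    · rw [norm_smul, Real.norm_of_nonneg hc]; exact mul_le_of_le_one_right hc s2
    · change c • S (g a) = _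
      rw [s3, smul_smul, mul_inv_cancel₀ h.ne', one_smul]

variable {A P : Type} [BL P] {g : Option A → P}

theorem Cube.proj (h : Cube g) : Proj.{0} P := by
  intro X _ J hJ T hT ε hε
  haveI := hJ.1
  choose x hx hx' using fun a => exrep hJ (T (g a)) (c := ‖T‖)
    ((T.le_opNorm _).trans (mul_le_of_le_one_right (norm_nonneg _) (h.rel.2.1 a))) hε
  have hy : ∀ a, J.mkQ |x a| = T (g a) := fun a => by
    rw [← hT _ _ (hx a), abs_of_nonneg (h.rel.1 a)]
  have e0 : |x none| ⊓ (2 : ℝ) • |x none| = |x none| := inf_eq_left.2 (by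
    rw [two_smul]; exact le_add_of_nonneg_left (abs_nonneg _))
  have p0 : ∀ a, 0 ≤ |x a| ⊓ (2 : ℝ) • |x none| := fun a =>
    le_inf (abs_nonneg _) (smul_nn zero_le_two (abs_nonneg _))
  obtain ⟨S, s1, s2, s3⟩ := h.up X (fun a => |x a| ⊓ (2 : ℝ) • |x none|) ((1 + ε) * ‖T‖)
    (by positivity) ⟨p0, fun a => (HasSolidNorm.solid ((abs_of_nonneg (p0 a)).trans_le
      inf_le_left)).trans (hx' a), fun a => by beta_reduce; rw [e0]; exact inf_le_right⟩
  let Q : X →L[ℝ] X ⧸ J := J.mkQ.mkContinuous 1 fun x => by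
    simpa using Submodule.Quotient.norm_mk_le _ x
  refine ⟨S, s1, fun p => ?_, s2⟩
  refine Gen_ind h.dense (M := LinearMap.eqLocus (Q.comp S : P →ₗ[ℝ] X ⧸ J) T)
    ⟨isClosed_eq (Q.comp S).continuous T.continuous, fun p hp => ?_⟩ (fun a => ?_) p
  · change J.mkQ (S |p|) = T _
    rw [s1, hT p (S p) hp]
  · change J.mkQ (S _) = T _
    rw [s3, inf_eq_half_smul_add_sub_abs_sub' ℝ, map_smul, map_sub, ← hT ((2 : ℝ) • g none - g a) _
      (by rw [map_sub, map_smul, hy, hy, map_sub, map_smul]),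
        abs_of_nonneg (sub_nonneg.2 (h.rel.2.2 a)), map_add, map_smul, hy, hy, map_sub, map_smul]
    module

theorem Cube.tou (h : Cube g) : HasTOU P :=
  ⟨g none, h.rel.1 _, fun J hJ he => eq_top_iff.2 fun p _ => Gen_ind h.dense
    ⟨hJ.1, fun _ => hJ.abs_mem⟩ (fun a => hJ.of_le (J.smul_mem 2 he) (h.rel.1 a) (h.rel.2.2 a)) p⟩

/-- the generating functions on the cube -/
noncomputable def GC (A : Type) : Option A → (A → unitInterval) → unitInterval
  | none => fun _ => ⟨1 / 2, by norm_num, by norm_num⟩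
  | some a => fun p => p a

theorem GC_cont (a : Option A) : Continuous fun p => (GC A a p : ℝ) := by
  cases a with
  | none => exact continuous_const
  | some a => exact continuous_subtype_val.comp (continuous_apply a)

theorem Cube.rep (h : Cube g) : ∃ r : CRep P (A → unitInterval), (∀ a p, r.e (g a) p = GC A a p) ∧
    ∀ x ε, 0 < ε → ∃ c, Dom (GC A) (r.e x) c ∧ c < ‖x‖ + ε := by
  have two : ∀ a p, (GC A a p : ℝ) ≤ 2 * (GC A none p : ℝ) := fun a p =>
    (GC A a p).2.2.trans_eq (by simp [GC])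
  obtain ⟨Φ, f1, f2, f3⟩ := h.up C(A → unitInterval, ℝ) (fun a => ⟨_, GC_cont a⟩) 1 zero_le_one
    ⟨fun a p => (GC A a p).2.1, fun a => (ContinuousMap.norm_le _ zero_le_one).2 fun p =>
      (Real.norm_of_nonneg (GC A a p).2.1).trans_le (GC A a p).2.2, fun a p => two a p⟩
  obtain ⟨S, s1, s2, s3⟩ := h.up (B (GC A)) (fun a => ⟨_, _, Dom.gen a⟩) 1 zero_le_one
    ⟨fun a p => (GC A a p).2.1, fun a => norm_le_of_dom (Dom.gen a), fun a p => two a p⟩
  have hev : ∀ p : A → unitInterval, LatHom ((ContinuousMap.evalCLM ℝ p).comp Φ) := fun p =>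
    LatHom.comp' (fun _ => rfl) f1
  have v0 : 0 ≤ (2 : ℝ) • g none := smul_nn zero_le_two (h.rel.1 _)
  have low : ∀ u, |u| ≤ ‖Φ u‖ • (2 : ℝ) • g none := fun u => by
    refine h.dense.induction_on u (isClosed_le cont_abs (Φ.continuous.norm.smul continuous_const))
      fun τ => sub_nonpos.1 ?_
    have b1 : ∀ a, |g a| ≤ (1 : ℝ) • (2 : ℝ) • g none := fun a => by
      rw [one_smul, abs_of_nonneg (h.rel.1 a)]; exact h.rel.2.2 a
    refine yudin v0 ((sub_le_self _ (smul_nn (norm_nonneg _) v0)).trans (τ.bound b1)) fun M hM => ?_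
    choose s hs using fun a => hM.ex _ _ (b1 a)
    refine ⟨_, ?_, ((Rel.ev v0 hM hs τ).abs v0 hM).sub (Rel.one.smul _)⟩
    have a1 := Rel.le v0 hM (Rel.smul 2 (hs none)) Rel.one le_rfl
    have a2 := Rel.le v0 hM Rel.one (Rel.smul 2 (hs none)) le_rfl
    rw [smul_eq_mul] at a1 a2
    let p : A → unitInterval := fun a => ⟨s (some a), Rel.le v0 hM Rel.zero (hs _) (h.rel.1 _),
      Rel.le v0 hM (hs _) Rel.one (h.rel.2.2 _)⟩
    have e : s = fun a => (ContinuousMap.evalCLM ℝ p).comp Φ (g a) := funext fun a => by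
      change _ = Φ (g a) p
      rw [f3]
      cases a with
      | none => change _ = (1 / 2 : ℝ); linarith
      | some a => rfl
    rw [e, ← hom_ev (hev p), smul_eq_mul, mul_one, sub_nonpos]
    exact (Φ _).norm_coe_le_norm p
  have inj : ∀ u, Φ u = 0 → u = 0 := fun u hu => by
    have := low u
    rw [hu, norm_zero, zero_smul] at this
    exact norm_eq_zero.1 (by rw [← norm_abs_eq_norm, le_antisymm this (abs_nonneg _), norm_zero])
  have one : Φ ((2 : ℝ) • g none) = 1 := by rw [map_smul, f3]; ext p; simp [GC]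
  have cl : IsClosed (Set.range Φ) := (Φ.antilipschitz_of_bound (K := ‖(2 : ℝ) • g none‖₊) fun u => by
    refine (HasSolidNorm.solid ((low u).trans (le_abs_self _))).trans_eq ?_
    rw [norm_smul, norm_norm, mul_comm]; rfl).isClosed_range Φ.uniformContinuous
  have sub : IsSub (LinearMap.range (Φ : P →ₗ[ℝ] C(A → unitInterval, ℝ))) :=
    ⟨cl, by rintro _ ⟨u, rfl⟩; exact ⟨|u|, f1 u⟩⟩
  have sj := ContinuousMap.sublattice_closure_eq_top (Set.range Φ) ⟨_, 0, rfl⟩
    (fun a ha b hb => ((⟨a, ha⟩ : SubT sub) ⊓ ⟨b, hb⟩).2)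
    (fun a ha b hb => ((⟨a, ha⟩ : SubT sub) ⊔ ⟨b, hb⟩).2) fun v x y => by
      by_cases hxy : x = y
      · exact ⟨_, ⟨v x • (2 : ℝ) • g none, rfl⟩, by simp only [map_smul Φ (v x), one]; simp [hxy]⟩
      · obtain ⟨a, ha⟩ := Function.ne_iff.1 hxy
        have ha' : (x a : ℝ) - y a ≠ 0 := sub_ne_zero.2 fun h => ha (Subtype.ext h)
        refine ⟨_, ⟨v y • (2 : ℝ) • g none + ((v x - v y) / (x a - y a)) • (g (some a) -
          (y a : ℝ) • (2 : ℝ) • g none), rfl⟩, ?_⟩
        rw [map_add, map_smul Φ (v y), map_smul Φ (_ / _), map_sub, map_smul Φ (y a : ℝ), one, f3]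
        simp [GC, ha']
  rw [cl.closure_eq] at sj
  refine ⟨⟨ContinuousLinearEquiv.ofBijective Φ (LinearMap.ker_eq_bot'.2 inj)
    (LinearMap.range_eq_top.2 (Set.range_eq_univ.1 sj)), fun x => ⟨fun hx => ?_, f1.nonneg⟩,
      fun x => (Φ.le_opNorm x).trans (mul_le_of_le_one_left (norm_nonneg _) f2)⟩,
    fun a p => congrArg (fun F : C(A → unitInterval, ℝ) => F p) (f3 a), fun x ε hε => ?_⟩
  · have := inj (|x| - x) (by rw [map_sub, f1, abs_of_nonneg (a := Φ x) hx, sub_self])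
    rw [← sub_eq_zero.1 this]; exact abs_nonneg _
  · obtain ⟨c, hc, hc'⟩ := exdom (S x) hε
    refine ⟨c, hc.mono fun p => le_of_eq (congrArg abs ?_), hc'.trans_le (add_le_add
      ((S.le_opNorm x).trans (mul_le_of_le_one_left (norm_nonneg _) s2)) le_rfl)⟩
    exact congrArg (fun F : P →L[ℝ] ℝ => F x) (hom_ext h.dense (hev p)
      (LatHom.comp' (S := ev p) (fun _ => rfl) s1) fun a => by
        change Φ (g a) p = (S (g a)).1 p
        rw [f3, s3]; rfl)

theorem Dom.ev_le {D I : Type} {G : A → D → unitInterval} {f : D → ℝ} {c : ℝ} (h : Dom G f c)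
    {l : Filter I} (p : I → D) (w : I → ℝ) {M b : ℝ} (hw : ∀ k, 0 ≤ w k ∧ w k ≤ M) (hb : 0 ≤ b)
    (H : ∀ a δ, 0 < δ → ∀ᶠ k in l, G a (p k) * w k ≤ b + δ) (δ : ℝ) (hδ : 0 < δ) :
    ∀ᶠ k in l, |f (p k)| * w k ≤ c * b + δ := by
  obtain ⟨m, h0, h1, h2⟩ := h
  have bd : ∀ k a, ‖m a * max (G a (p k) * w k - b) 0‖ ≤ m a * M := fun k a => by
    rw [Real.norm_of_nonneg (mul_nonneg (h0 a) (le_max_right _ _))]
    refine mul_le_mul_of_nonneg_left (max_le ?_ ((hw k).1.trans (hw k).2)) (h0 a)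
    linarith [mul_le_of_le_one_left (hw k).1 (G a (p k)).2.2, (hw k).2]
  have := tendsto_tsum_of_dominated_convergence (𝓕 := l)
    (f := fun k a => m a * max (G a (p k) * w k - b) 0) (g := fun _ => 0)
    (h1.summable.mul_right M) (fun a => by
      have : Tendsto (fun k => max (G a (p k) * w k - b) 0) l (𝓝 0) := tendsto_order.2
        ⟨fun x hx => Eventually.of_forall fun k => hx.trans_le (le_max_right _ _), fun x hx =>
          (H a _ (half_pos hx)).mono fun k hk => max_lt (by linarith) hx⟩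
      simpa using this.const_mul (m a)) (Eventually.of_forall bd)
  rw [tsum_zero] at this
  refine (this.eventually_le_const hδ).mono fun k hk => ?_
  have s1 := Summable.of_norm_bounded (h1.summable.mul_right M) (bd k)
  refine (mul_le_mul_of_nonneg_right (h2 _) (hw k).1).trans (le_trans ?_ (add_le_add le_rfl hk))
  rw [← tsum_mul_right, ← (h1.mul_right b).tsum_eq, ← (h1.summable.mul_right b).tsum_add s1]
  refine ((sumG h0 h1.summable _).mul_right _).tsum_le_tsum (fun a => ?_)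
    ((h1.summable.mul_right b).add s1)
  rw [mul_assoc, ← mul_add]
  exact mul_le_mul_of_nonneg_left (by linarith [le_max_left (G a (p k) * w k - b) 0]) (h0 a)

theorem hom_mul {L : Type} [TopologicalSpace L] [CompactSpace L] (χ : C(L, ℝ) →L[ℝ] ℝ)
    (hχ : LatHom χ) (f f' : C(L, ℝ)) : χ (f * f') * χ 1 = χ f * χ f' := by
  have h1 := hχ.nonneg (sub_nonneg.2 (show |(χ 1 • f - χ f • 1) * f'| ≤ ‖f'‖ • |χ 1 • f - χ f • 1|
    from fun p => by
      change |(χ 1 • f - χ f • 1) p * f' p| ≤ ‖f'‖ * |(χ 1 • f - χ f • 1) p|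
      rw [abs_mul, mul_comm]
      exact mul_le_mul_of_nonneg_right (f'.norm_coe_le_norm p) (abs_nonneg _)))
  rw [map_sub, map_smul, hχ, hχ, map_sub, map_smul, map_smul, smul_eq_mul (χ 1), smul_eq_mul (χ f),
    mul_comm (χ 1), sub_self, abs_zero, smul_zero, zero_sub, neg_nonneg, abs_nonpos_iff, sub_mul,
    smul_mul_assoc, smul_mul_assoc, one_mul, map_sub, map_smul, map_smul, smul_eq_mul,
    smul_eq_mul] at h1
  linarith

end Pool.Agent.H86.Bl
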