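import Pool.Agent.H86.BlI
import Pool.Agent.H86.BlJ

set_option linter.unusedSectionVars false
set_option linter.deprecated false

namespace Pool.Agent.H86.Bl
open Filter Topology Finset

section
variable {X : Type*} [BL X] {J : Submodule ℝ X} (hJ : IsIdeal J)

/-- the quotient Banach lattice -/
def QL (_hJ : IsIdeal J) := X ⧸ J

noncomputable instance : NormedAddCommGroup (QL hJ) :=
  haveI := hJ.1; inferInstanceAs (NormedAddCommGroup (X ⧸ J))
noncomputable instance : NormedSpace ℝ (QL hJ) := inferInstanceAs (NormedSpace ℝ (X ⧸ J))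
instance : CompleteSpace (QL hJ) := inferInstanceAs (CompleteSpace (X ⧸ J))

noncomputable instance : Max (QL hJ) := ⟨Quotient.map₂ (· ⊔ ·) fun a a' h b b' h' => by
  refine Quotient.exact (show J.mkQ _ = J.mkQ _ from ?_)
  rw [hJ.sup_congr b (Quotient.sound h), sup_comm, hJ.sup_congr a' (Quotient.sound h'), sup_comm]⟩
noncomputable instance : Min (QL hJ) := ⟨Quotient.map₂ (· ⊓ ·) fun a a' h b b' h' => by
  refine Quotient.exact (show J.mkQ _ = J.mkQ _ from ?_)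
  rw [hJ.inf_congr b (Quotient.sound h), inf_comm, hJ.inf_congr a' (Quotient.sound h'), inf_comm]⟩

noncomputable instance : Lattice (QL hJ) := Lattice.mk'
  (by rintro ⟨a⟩ ⟨b⟩; exact congrArg J.mkQ (sup_comm a b))
  (by rintro ⟨a⟩ ⟨b⟩ ⟨c⟩; exact congrArg J.mkQ (sup_assoc a b c))
  (by rintro ⟨a⟩ ⟨b⟩; exact congrArg J.mkQ (inf_comm a b))
  (by rintro ⟨a⟩ ⟨b⟩ ⟨c⟩; exact congrArg J.mkQ (inf_assoc a b c))
  (by rintro ⟨a⟩ ⟨b⟩; exact congrArg J.mkQ sup_inf_self)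
  (by rintro ⟨a⟩ ⟨b⟩; exact congrArg J.mkQ inf_sup_self)

theorem sub_cl_le' (y a : X) : |y - cl y a| ≤ |y| ⊔ a - a := by
  rw [sup_sub, sub_self]
  refine abs_le'.2 ⟨(sub_le_sub_left le_sup_left y).trans ?_, ?_⟩
  · rw [sub_inf, sub_self]
    exact sup_le le_sup_right (le_sup_of_le_left (sub_le_sub_right (le_abs_self _) _))
  · rw [neg_sub, cl, sup_sub]
    refine sup_le (le_sup_of_le_right (sub_nonpos.2 inf_le_left)) (le_sup_of_le_left ?_)
    rw [sub_eq_add_neg, add_comm, ← sub_eq_add_neg]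
    exact sub_le_sub_right (neg_le_abs y) a

noncomputable instance : BL (QL hJ) where
  add_le_add_left := by
    rintro ⟨a⟩ ⟨b⟩ (h : J.mkQ (a ⊔ b) = J.mkQ b) ⟨c⟩
    change J.mkQ ((a + c) ⊔ (b + c)) = J.mkQ (b + c)
    rw [← sup_add, map_add, map_add, h]
  solid := by
    rintro ⟨a⟩ y h
    refine le_of_forall_pos_le_add fun ε hε => ?_
    obtain ⟨b, rfl, hb⟩ := Submodule.Quotient.norm_mk_lt (S := J) y hε
    have h' : J.mkQ (|a| ⊔ |b|) = J.mkQ |b| := h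
    have e : J.mkQ a = J.mkQ (cl a |b|) := (Submodule.Quotient.eq J).2 (hJ.2 _
      ((Submodule.Quotient.eq J).1 h') _ ((sub_cl_le' _ _).trans (le_abs_self _)))
    change ‖J.mkQ a‖ ≤ _
    rw [e]
    exact (Submodule.Quotient.norm_mk_le _ _).trans
      ((HasSolidNorm.solid (cl_abs_le a (abs_nonneg b))).trans hb.le)
  smul_le_smul_of_nonneg_left := by
    rintro t ht ⟨a⟩ ⟨b⟩ (h : J.mkQ (a ⊔ b) = J.mkQ b)
    change J.mkQ ((t • a) ⊔ (t • b)) = J.mkQ (t • b)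
    rw [← smul_sup' ht, map_smul, map_smul, h]
end

variable {A : Type}

def Tm.bind {C : Type} (σ : A → Tm C) : Tm A → Tm C
  | .var a => σ a
  | .zero => .zero
  | .add s t => .add (s.bind σ) (t.bind σ)
  | .smul r t => .smul r (t.bind σ)
  | .abs t => .abs (t.bind σ)

theorem Tm.ev_bind {C X : Type} [BL X] (σ : A → Tm C) (f : C → X) (τ : Tm A) :
    (τ.bind σ).ev f = τ.ev fun a => (σ a).ev f := by
  induction τ with
  | var a => rfl
  | zero => rfl
  | add s t hs ht => simp only [Tm.ev, Tm.bind, hs, ht]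
  | smul r t ht => simp only [Tm.ev, Tm.bind, ht]
  | abs t ht => simp only [Tm.ev, Tm.bind, ht]

theorem sep_of_dense {F : Type} [BL F] {g : ℕ ⊕ ℕ → F} (hd : DenseRange (Tm.ev g))
    (h1 : ∀ a, ‖g a‖ ≤ 1) : TopologicalSpace.SeparableSpace F := by
  obtain ⟨t, ht⟩ := exseq
  let e := Denumerable.eqv (ℕ ⊕ ℕ)
  refine ⟨⟨Set.range fun j => (t j).ev fun i => g (e.symm i), Set.countable_range _,
    Metric.denseRange_iff.2 fun p ε hε => ?_⟩⟩
  obtain ⟨τ, hτ⟩ := hd.exists_dist_lt p (half_pos hε)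
  obtain ⟨j, hj⟩ := ht (τ.bind fun a => .var (e a)) _ (half_pos hε)
  have := hj F (fun i => g (e.symm i)) fun i => h1 _
  simp only [Tm.ev_bind, Tm.ev, Equiv.symm_apply_apply] at this
  rw [← dist_eq_norm] at this
  exact ⟨j, by linarith [dist_triangle p (τ.ev g) ((t j).ev fun i => g (e.symm i))]⟩

/-- the ideal of the first `n` relations -/
noncomputable def IR {F : Type} [BL F] (g : ℕ ⊕ ℕ → F) (t : ℕ → Tm ℕ) (n : ℕ) : Submodule ℝ F where
  carrier := {p | ∀ (X : Type) [BL X] (S : F →L[ℝ] X), LatHom S →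
    (∀ j < n, S (g (.inr j)) = (t j).ev fun i => S (g (.inl i))) → S p = 0}
  zero_mem' := fun _ _ S _ _ => map_zero S
  add_mem' := fun {a b} ha hb X _ S h h' => by rw [map_add, ha X S h h', hb X S h h', add_zero]
  smul_mem' := fun c a ha X _ S h h' => by rw [map_smul, ha X S h h', smul_zero]

theorem IR_ideal {F : Type} [BL F] (g : ℕ ⊕ ℕ → F) (t : ℕ → Tm ℕ) (n : ℕ) : IsIdeal (IR g t n) := by
  refine ⟨isClosed_of_closure_subset fun p hp X _ S h h' => (closure_minimal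
    (fun q (hq : q ∈ IR g t n) => hq X S h h') S.isClosed_ker :
      _ ⊆ (LinearMap.ker (S : F →ₗ[ℝ] X) : Set F)) hp,
    fun a ha b hb X _ S h h' => ?_⟩
  have h1 := h.nonneg (sub_nonneg.2 hb)
  rw [map_sub, h, h, ha X S h h', abs_zero, zero_sub, neg_nonneg] at h1
  exact norm_eq_zero.1 (by rw [← norm_abs_eq_norm, le_antisymm h1 (abs_nonneg _), norm_zero])

theorem surj_of_approx {F E : Type} [BL F] [BL E] (q : F →L[ℝ] E)
    (h : ∀ y, ∃ p, ‖q p - y‖ ≤ ‖y‖ / 2 ∧ ‖p‖ ≤ 2 * ‖y‖) (y : E) : ∃ p, q p = y ∧ ‖p‖ ≤ 4 * ‖y‖ := by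
  choose g h1 h2 using h
  let r : ℕ → E := fun n => (fun z => z - q (g z))^[n] y
  have r1 : ∀ n, r (n + 1) = r n - q (g (r n)) := fun n => Function.iterate_succ_apply' _ _ _
  have r2 : ∀ n, ‖r n‖ ≤ (1 / 2) ^ n * ‖y‖ := fun n => by
    induction n with
    | zero => simp [r]
    | succ n ih => rw [r1, norm_sub_rev, pow_succ]; linarith [h1 (r n)]
  have b : ∀ n, ‖g (r n)‖ ≤ (1 / 2) ^ n * (2 * ‖y‖) := fun n => by linarith [h2 (r n), r2 n]
  have hs := hasSum_geometric_two.mul_right (2 * ‖y‖)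
  have s1 := Summable.of_norm_bounded hs.summable b
  refine ⟨∑' n, g (r n), tendsto_nhds_unique (q.hasSum s1.hasSum).tendsto_sum_nat ?_,
    (tsum_of_norm_bounded hs b).trans_eq (by ring)⟩
  have e : ∀ n, ∑ i ∈ range n, q (g (r i)) = y - r n := fun n => by
    rw [sum_congr rfl fun i _ => (show q (g (r i)) = r i - r (i + 1) by rw [r1, sub_sub_cancel]),
      sum_range_sub']; rfl
  simp only [e]
  simpa using (squeeze_zero_norm r2 (by simpa using (tendsto_pow_atTop_nhds_zero_of_lt_one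
    (r := (1 / 2 : ℝ)) (by norm_num) (by norm_num)).mul_const ‖y‖)).const_sub y

theorem present (E : Type) [BL E] [TopologicalSpace.SeparableSpace E] :
    ∃ (F : Type) (_ : BL F) (g : ℕ ⊕ ℕ → F) (t : ℕ → Tm ℕ) (q : F →L[ℝ] E),
      DenseRange (Tm.ev g) ∧ (∀ a, ‖g a‖ ≤ 1) ∧ (∀ (X : Type) [BL X] (f : ℕ ⊕ ℕ → X), (∀ a, ‖f a‖ ≤ 1) →
        ∃ S : F →L[ℝ] X, LatHom S ∧ ‖S‖ ≤ 1 ∧ ∀ a, S (g a) = f a) ∧ LatHom q ∧ ‖q‖ ≤ 1 ∧
      (∀ j, q (g (.inr j)) = (t j).ev fun i => q (g (.inl i))) ∧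
      (∀ y ε, 0 < ε → ∃ p, q p = y ∧ ‖p‖ ≤ ‖y‖ + ε) ∧
      (⨆ n, IR g t n).topologicalClosure = LinearMap.ker (q : F →ₗ[ℝ] E) := by
  obtain ⟨d, hd⟩ := TopologicalSpace.exists_dense_seq E
  let x : ℕ → E := fun i => (‖d i‖ + 1)⁻¹ • d i
  have hx : ∀ i, ‖x i‖ ≤ 1 := fun i => by
    rw [norm_smul, Real.norm_of_nonneg (by positivity), inv_mul_le_iff₀ (by positivity)]
    linarith
  obtain ⟨t0, ht⟩ := exseq
  let c : ℕ → ℝ := fun j => ‖(t0 j.unpair.1).ev x‖ + 1 / ((j.unpair.2 : ℝ) + 1)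
  have hc : ∀ j, 0 < c j := fun j => by positivity
  let t : ℕ → Tm ℕ := fun j => .smul (c j)⁻¹ (t0 j.unpair.1)
  obtain ⟨F, _, g, g1, g2, g3⟩ := univ (A := ℕ ⊕ ℕ) (fun X _ f => ∀ a, ‖f a‖ ≤ 1) fun _ _ _ h => h
  have g4 : ∀ a, ‖g a‖ ≤ 1 := fun a => g3 (.var a) 1 zero_le_one fun X _ f h => h a
  obtain ⟨q, q1, q2, q3⟩ := g2 E (Sum.elim x fun j => (t j).ev x) (by
    rintro (i | j)
    · exact hx i
    · change ‖(c j)⁻¹ • _‖ ≤ 1
      rw [norm_smul, Real.norm_of_nonneg (inv_nonneg.2 (hc j).le), inv_mul_le_iff₀ (hc j), mul_one]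
      exact le_add_of_nonneg_right (by positivity))
  have q4 : (fun i => q (g (.inl i))) = x := funext fun i => q3 _
  have q5 : ∀ j, q (g (.inr j)) = (t j).ev fun i => q (g (.inl i)) := fun j => by rw [q4, q3]; rfl
  have ct : ∀ p, ‖q p‖ ≤ ‖p‖ := fun p => (q.le_opNorm p).trans
    (mul_le_of_le_one_left (norm_nonneg _) q2)
  have key : ∀ (τ : Tm ℕ) (ε : ℝ), 0 < ε → ∃ j, c j ≤ ‖τ.ev x‖ + 2 * ε ∧ ∀ (X : Type) [BL X]
      (f : ℕ → X), (∀ i, ‖f i‖ ≤ 1) → ‖τ.ev f - c j • (t j).ev f‖ ≤ ε := fun τ ε hε => by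
    obtain ⟨j, hj⟩ := ht τ ε hε
    obtain ⟨N, hN⟩ := exists_nat_one_div_lt hε
    refine ⟨Nat.pair j N, ?_, fun X _ f hf => ?_⟩
    · simp only [c, Nat.unpair_pair]
      linarith [hj E x hx, norm_sub_norm_le ((t0 j).ev x) (τ.ev x), norm_sub_rev ((t0 j).ev x) (τ.ev x)]
    · change ‖_ - c _ • (c _)⁻¹ • _‖ ≤ _
      rw [smul_smul, mul_inv_cancel₀ (hc _).ne', one_smul, Nat.unpair_pair]
      exact hj X f hf
  have ap : ∀ (y : E) (ε : ℝ), 0 < ε → ∃ p, ‖q p - y‖ ≤ ε ∧ ‖p‖ ≤ ‖y‖ + 2 * ε := fun y ε hε => by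
    obtain ⟨i, hi⟩ := hd.exists_dist_lt y (half_pos hε)
    obtain ⟨j, h1, h2⟩ := key (.smul (‖d i‖ + 1) (.var i)) _ (half_pos hε)
    have h3 := h2 E x hx
    have e : (Tm.smul (‖d i‖ + 1) (.var i)).ev x = d i := by
      change (‖d i‖ + 1) • (‖d i‖ + 1)⁻¹ • d i = _
      rw [smul_smul, mul_inv_cancel₀ (by positivity), one_smul]
    rw [e] at h1 h3
    rw [dist_eq_norm, norm_sub_rev] at hi
    refine ⟨c j • g (.inr j), ?_, ?_⟩
    · rw [map_smul, q5, q4]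
      linarith [norm_sub_le_norm_sub_add_norm_sub (c j • (t j).ev x) (d i) y,
        norm_sub_rev (c j • (t j).ev x) (d i)]
    · rw [norm_smul, Real.norm_of_nonneg (hc j).le]
      linarith [mul_le_of_le_one_right (hc j).le (g4 (.inr j)), norm_sub_norm_le (d i) y]
  refine ⟨F, inferInstance, g, t, q, g1, g4, g2, q1, q2, q5, fun y ε hε => ?_, le_antisymm
    (Submodule.topologicalClosure_minimal _ (iSup_le fun n p hp => hp E q q1 fun j _ => q5 j)
      q.isClosed_ker) fun p (hp : q p = 0) => Metric.mem_closure_iff.2 fun ε hε => ?_⟩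
  · have hs := surj_of_approx q fun y => by
      rcases eq_or_ne y 0 with rfl | h
      · exact ⟨0, by simp, by simp⟩
      · obtain ⟨p, h1, h2⟩ := ap y _ (half_pos (norm_pos_iff.2 h))
        exact ⟨p, h1, by linarith⟩
    obtain ⟨p, h1, h2⟩ := ap y (ε / 6) (by positivity)
    obtain ⟨p', h3, h4⟩ := hs (q p - y)
    exact ⟨p - p', by rw [map_sub, h3, sub_sub_cancel], by linarith [norm_sub_le p p']⟩
  · obtain ⟨τ, hτ⟩ := g1.exists_dist_lt p (show 0 < ε / 6 by positivity)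
    rw [dist_eq_norm] at hτ
    obtain ⟨B, hB⟩ := τ.vars
    set τ' := τ.bind (Sum.elim .var t) with hτ'
    obtain ⟨j, h1, h2⟩ := key τ' (ε / 6) (by positivity)
    obtain ⟨N, hN⟩ := (B.image (Sum.elim id id) : Finset ℕ).bddAbove
    have m1 : τ.ev g - τ'.ev (fun i => g (.inl i)) ∈ IR g t (max N j + 1) := fun X _ S s1 s2 => by
      rw [map_sub, hom_ev s1, hom_ev s1, hτ', Tm.ev_bind, sub_eq_zero]
      refine hB X _ _ ?_
      rintro (i | i) hi
      · rfl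
      · exact s2 i (Nat.lt_succ_of_le ((hN (mem_coe.2 (mem_image_of_mem _ hi))).trans (le_max_left _ _)))
    have m2 : (t j).ev (fun i => g (.inl i)) - g (.inr j) ∈ IR g t (max N j + 1) :=
      fun X _ S s1 s2 => by rw [map_sub, hom_ev s1, s2 j (by omega), sub_self]
    refine ⟨_, le_iSup (IR g t) _ (add_mem m1 (Submodule.smul_mem _ (c j) m2)), ?_⟩
    have e1 : τ'.ev x = q (τ.ev g) := by
      rw [hτ', Tm.ev_bind, hom_ev q1]; congr 1; funext a; rw [q3]; cases a <;> rfl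
    have a1 := ct (p - τ.ev g)
    rw [map_sub, hp, zero_sub, norm_neg, ← e1] at a1
    have e2 : p - (τ.ev g - τ'.ev (fun i => g (.inl i)) + c j • ((t j).ev (fun i => g (.inl i)) -
      g (.inr j))) = (p - τ.ev g) + (τ'.ev (fun i => g (.inl i)) - c j • (t j).ev (fun i => g (.inl i)))
        + c j • g (.inr j) := by module
    rw [dist_eq_norm, e2]
    refine (norm_add₃_le).trans_lt ?_
    rw [norm_smul, Real.norm_of_nonneg (hc j).le]
    linarith [mul_le_of_le_one_right (hc j).le (g4 (.inr j)), h2 F _ fun i => g4 (.inl i)]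

theorem semi_lift {A E X : Type} [BL A] [BL E] [BL X] [TopologicalSpace.SeparableSpace E]
    (hA : SemiProj.{0} A) {φ : A →L[ℝ] E} (hφ : LatHom φ) (hn : ‖φ‖ ≤ 1) {J : Submodule ℝ X}
    (hJ : IsIdeal J) {T : E →L[ℝ] X ⧸ J} (hT : LatHomQ J T) {ε : ℝ} (hε : 0 < ε) :
    ∃ S : A →L[ℝ] X, LatHom S ∧ (∀ p, J.mkQ (S p) = T (φ p)) ∧ ‖S‖ ≤ (1 + ε) * ‖T‖ := by
  haveI := hJ.1
  rcases eq_or_lt_of_le (norm_nonneg T) with h0 | h0
  · refine ⟨0, fun p => by simp, fun p => ?_, by simp [← h0]⟩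
    have := T.le_opNorm (φ p)
    rw [← h0, zero_mul, norm_le_zero_iff] at this
    rw [this]; simp
  obtain ⟨F, _, g, t, q, g1, g2, g3, q1, q2, q3, q4, q5⟩ := present E
  set K := LinearMap.ker (q : F →ₗ[ℝ] E) with hK
  let e := LinearMap.quotKerEquivOfSurjective (q : F →ₗ[ℝ] E) fun y =>
    (q4 y 1 one_pos).imp fun _ h => h.1
  have he : ∀ u, e (K.mkQ u) = q u := fun u => rfl
  have he' : ∀ u, e.symm (q u) = K.mkQ u := fun u => by rw [← he, e.symm_apply_apply]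
  have hb : ∀ p, ‖e.symm.toLinearMap.comp (φ : A →ₗ[ℝ] E) p‖ ≤ 1 * ‖p‖ := fun p => by
    refine le_of_forall_pos_le_add fun δ hδ => ?_
    obtain ⟨u, hu, hu'⟩ := q4 (φ p) δ hδ
    change ‖e.symm (φ p)‖ ≤ _
    rw [← hu, he']
    linarith [Submodule.Quotient.norm_mk_le K u, φ.le_opNorm p,
      mul_le_mul_of_nonneg_right hn (norm_nonneg p), show ‖K.mkQ u‖ = ‖Submodule.Quotient.mk (p := K) u‖
        from rfl]
  obtain ⟨n, hn'⟩ := hA F (sep_of_dense g1 g2) (IR g t) (IR_ideal g t) (monotone_nat_of_le_succ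
    fun n p hp X _ S h h' => hp X S h fun j hj => h' j (by omega)) K q5.symm
    (LinearMap.mkContinuous _ 1 hb) (fun p x hx => by
      have : q x = φ p := by rw [← he, hx]; exact e.apply_symm_apply _
      change e.symm (φ |p|) = _
      rw [hφ, ← this, ← q1, he']) (LinearMap.mkContinuous_norm_le _ zero_le_one _)
  obtain ⟨δ, hδ, hδ'⟩ : ∃ δ : ℝ, 0 < δ ∧ (1 + δ) * (1 + δ) ≤ 1 + ε :=
    ⟨min 1 (ε / 3), by positivity, by
      nlinarith [min_le_left 1 (ε / 3), min_le_right 1 (ε / 3), lt_min one_pos (show 0 < ε / 3 by positivity)]⟩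
  obtain ⟨ψ, p1, p2, p3⟩ := hn' δ hδ
  have ct : ∀ a, ‖T (q (g a))‖ ≤ ‖T‖ := fun a => (T.le_opNorm _).trans (mul_le_of_le_one_right h0.le
    ((q.le_opNorm _).trans (mul_le_one₀ q2 (norm_nonneg _) (g2 a))))
  choose y hy hy' using fun a => exrep hJ _ (ct a) hδ
  obtain ⟨z, z1, z2, z3⟩ := adjust hJ (fun i => y (.inl i)) (fun i => hy' _) t n (δ := δ * ‖T‖)
    (by positivity)
  have hz : ∀ j, J.mkQ ((t j).ev z) = T (q (g (.inr j))) := fun j => by
    rw [q3]; exact homQ_ev hT (fun i => (z1 i).trans (hy _)) _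
  have hκ : 0 < (1 + δ) * ‖T‖ := by positivity
  set f : ℕ ⊕ ℕ → X := Sum.elim z fun j => if j < n then (t j).ev z else y (.inr j) with hf
  obtain ⟨S, s1, s2, s3⟩ := g3 X (fun a => ((1 + δ) * ‖T‖)⁻¹ • f a) fun a => by
    rw [norm_smul, Real.norm_of_nonneg (by positivity), inv_mul_le_iff₀ hκ, mul_one]
    rcases a with i | j
    · exact (z2 i).trans (hy' _)
    · simp only [hf, Sum.elim_inr]
      split_ifs with h
      · have := z3 j h
        rw [homQ_ev hT (fun i => hy (.inl i)), ← q3] at this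
        linarith [ct (.inr j)]
      · exact hy' _
  have s4 := s1.smul' hκ.le
  set S' := ((1 + δ) * ‖T‖) • S with hS'
  have s5 : ∀ a, S' (g a) = f a := fun a => by
    change ((1 + δ) * ‖T‖) • S (g a) = _
    rw [s3, smul_smul, mul_inv_cancel₀ hκ.ne', one_smul]
  have s6 : ∀ u, ‖S' u‖ ≤ (1 + δ) * ‖T‖ * ‖u‖ := fun u => (S'.le_opNorm u).trans
    (mul_le_mul_of_nonneg_right (by
      rw [hS', norm_smul, Real.norm_of_nonneg hκ.le]; exact mul_le_of_le_one_right hκ.le s2)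
      (norm_nonneg _))
  have s7 : IR g t n ≤ LinearMap.ker (S' : F →ₗ[ℝ] X) := fun p hp => hp X S' s4 fun j hj => by
    simp only [s5, hf, Sum.elim_inr, Sum.elim_inl, if_pos hj]
  let Q : X →L[ℝ] X ⧸ J := J.mkQ.mkContinuous 1 fun x => by
    simpa using Submodule.Quotient.norm_mk_le _ x
  have s8 : ∀ u, J.mkQ (S' u) = T (q u) := fun u => by
    refine Gen_ind g1 (M := LinearMap.eqLocus (Q.comp S' : F →ₗ[ℝ] X ⧸ J) (T.comp q))
      ⟨isClosed_eq (Q.comp S').continuous (T.comp q).continuous, fun p hp => ?_⟩ (fun a => ?_) u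
    · change J.mkQ (S' |p|) = T (q _)
      rw [s4, q1, hT (q p) (S' p) hp]
    · change J.mkQ (S' _) = T (q _)
      rw [s5]
      rcases a with i | j
      · exact (z1 i).trans (hy _)
      · simp only [hf, Sum.elim_inr]
        split_ifs
        exacts [hz j, hy _]
  have s9 : ∀ p, ‖((IR g t n).liftQ _ s7).comp (ψ : A →ₗ[ℝ] F ⧸ IR g t n) p‖ ≤
      (1 + ε) * ‖T‖ * ‖p‖ := fun p => by
    refine le_of_forall_pos_le_add fun η hη => ?_
    obtain ⟨u, hu, hu'⟩ := Submodule.Quotient.norm_mk_lt (ψ p) (div_pos hη hκ)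
    change ‖(IR g t n).liftQ _ s7 (ψ p)‖ ≤ _
    rw [← hu]
    refine (s6 u).trans ((mul_le_mul_of_nonneg_left hu'.le hκ.le).trans ?_)
    rw [mul_add, mul_div_cancel₀ _ hκ.ne']
    have a1 := mul_le_mul_of_nonneg_left ((ψ.le_opNorm p).trans
      (mul_le_mul_of_nonneg_right p2 (norm_nonneg p))) hκ.le
    have a2 := mul_le_mul_of_nonneg_right hδ' (mul_nonneg h0.le (norm_nonneg p))
    linarith
  refine ⟨LinearMap.mkContinuous _ _ s9, fun p => ?_, fun p => ?_,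
    LinearMap.mkContinuous_norm_le _ (by positivity) _⟩
  · obtain ⟨u, hu⟩ := (IR g t n).mkQ_surjective (ψ p)
    change (IR g t n).liftQ _ s7 (ψ |p|) = |(IR g t n).liftQ _ s7 (ψ p)|
    rw [p1 p u hu, ← hu]
    exact s4 u
  · obtain ⟨u, hu⟩ := (IR g t n).mkQ_surjective (ψ p)
    change J.mkQ ((IR g t n).liftQ _ s7 (ψ p)) = _
    rw [← hu]
    refine (s8 u).trans (congrArg T ?_)
    rw [← he, p3 p u hu]
    exact e.apply_symm_apply _

end Pool.Agent.H86.Bl
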