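import Pool.Agent.H86.RoeB

set_option autoImplicit false

namespace Pool.Agent.H86.Cov

open Finset Equiv Roe NormedSpace

theorem nrm_le {V : Type*} [NormedAddCommGroup V] [NormedSpace ℝ V] (v : V) :
    ‖NormedSpace.normalize v‖ ≤ 1 := by
  by_cases h : v = 0
  · simp [h]
  · exact (norm_normalize h).le

theorem nrm_lip {V : Type*} [NormedAddCommGroup V] [NormedSpace ℝ V] (v w : V) :
    ‖w‖ * ‖NormedSpace.normalize v - NormedSpace.normalize w‖ ≤ 2 * ‖v - w‖ := by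
  have e : ‖w‖ • (NormedSpace.normalize v - NormedSpace.normalize w) = (‖w‖ - ‖v‖) • NormedSpace.normalize v + (v - w) := by
    rw [smul_sub, sub_smul, norm_smul_normalize, norm_smul_normalize]; abel
  have h1 : ‖w‖ * ‖NormedSpace.normalize v - NormedSpace.normalize w‖ = ‖‖w‖ • (NormedSpace.normalize v - NormedSpace.normalize w)‖ := by
    rw [norm_smul, norm_norm]
  rw [h1, e]
  refine (norm_add_le _ _).trans ?_
  rw [norm_smul, Real.norm_eq_abs]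
  have h2 := abs_norm_sub_norm_le w v
  rw [norm_sub_rev] at h2
  have h3 := mul_le_mul h2 (nrm_le v) (norm_nonneg _) (norm_nonneg _)
  linarith

/-- the norm preserving cube map -/
noncomputable def cub (w : ℂ) : ℂ := w * NormedSpace.normalize w ^ 2

theorem norm_cub (w : ℂ) : ‖cub w‖ = ‖w‖ := by
  by_cases h : w = 0
  · simp [cub, h]
  · simp [cub, norm_normalize h]

theorem cub_mul (θ w : ℂ) (h : ‖θ‖ = 1) : cub (θ * w) = θ ^ 3 * cub w := by
  simp only [cub, NormedSpace.normalize, norm_mul, h, one_mul, Complex.real_smul]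
  ring

theorem cub_lip (v w : ℂ) : ‖cub v - cub w‖ ≤ 5 * ‖v - w‖ := by
  have e : cub v - cub w = (v - w) * NormedSpace.normalize v ^ 2 +
      w * (NormedSpace.normalize v - NormedSpace.normalize w) * (NormedSpace.normalize v + NormedSpace.normalize w) := by
    simp only [cub]; ring
  rw [e]
  refine (norm_add_le _ _).trans ?_
  rw [norm_mul, norm_mul, norm_mul, norm_pow]
  have h1 : ‖NormedSpace.normalize v‖ ^ 2 ≤ 1 := pow_le_one₀ (norm_nonneg _) (nrm_le v)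
  have h2 : ‖NormedSpace.normalize v + NormedSpace.normalize w‖ ≤ 2 :=
    (norm_add_le _ _).trans (by linarith [nrm_le v, nrm_le w])
  have h3 := mul_le_mul (nrm_lip v w) h2 (norm_nonneg _) (by positivity)
  nlinarith [norm_nonneg (v - w)]

/-- index set of generators -/
abbrev J : Type := Fin 20 ⊕ Fin 20

/-- signs of the generators -/
def sg : J → ℝ := Sum.elim (fun _ => -1) (fun _ => 1)

variable {α : Type} [Fintype α] [DecidableEq α] {σ : J → Perm α}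

theorem poin_sg (hE : Exp fun j => σ (Sum.inr j)) (a : α → ℂ) :
    ∑ z, ‖a z‖ ^ 2 ≤ 3840 * ∑ j, ∑ z, ‖sg j * a (σ j z) - a z‖ ^ 2 := by
  rcases isEmpty_or_nonempty α with h0 | h0
  · simp
  have hc : (Fintype.card α : ℂ) ≠ 0 := Nat.cast_ne_zero.mpr Fintype.card_ne_zero
  obtain ⟨μ, hμ⟩ : ∃ μ : ℂ, ∑ z, (a z - μ) = 0 := ⟨(∑ z, a z) / Fintype.card α, by
    rw [sum_sub_distrib, sum_const, card_univ, nsmul_eq_mul]; field_simp; ring⟩
  have h1 := poin_cx hE (fun z => a z - μ) hμ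
  simp only [sub_sub_sub_cancel_right] at h1
  have h2 : ∑ z, 4 * ‖a z‖ ^ 2 ≤ ∑ z, (3 * ‖-1 * a (σ (Sum.inl 0) z) - a z‖ ^ 2 +
      3 * ‖a z - μ‖ ^ 2 + 3 * ‖a (σ (Sum.inl 0) z) - μ‖ ^ 2) := by
    refine sum_le_sum fun z _ => ?_
    have e : 2 * a z = -(-1 * a (σ (Sum.inl 0) z) - a z) + (a z - μ) -
        (a (σ (Sum.inl 0) z) - μ) := by ring
    have h3 : 2 * ‖a z‖ ≤ ‖-1 * a (σ (Sum.inl 0) z) - a z‖ + ‖a z - μ‖ +
        ‖a (σ (Sum.inl 0) z) - μ‖ := by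
      have h4 : ‖2 * a z‖ = 2 * ‖a z‖ := by simp
      rw [← h4, e]
      refine (norm_sub_le _ _).trans (add_le_add ((norm_add_le _ _).trans ?_) le_rfl)
      rw [norm_neg]
    generalize ‖-1 * a (σ (Sum.inl 0) z) - a z‖ = p at h3 ⊢
    generalize ‖a (σ (Sum.inl 0) z) - μ‖ = q at h3 ⊢
    generalize ‖a z - μ‖ = r at h3 ⊢
    nlinarith [sq_nonneg (p - q), sq_nonneg (p - r), sq_nonneg (q - r), norm_nonneg (a z)]
  rw [sum_add_distrib, sum_add_distrib, ← mul_sum, ← mul_sum, ← mul_sum, ← mul_sum,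
    Equiv.sum_comp (σ (Sum.inl 0)) (fun z => ‖a z - μ‖ ^ 2)] at h2
  have h3 : ∑ z, ‖-1 * a (σ (Sum.inl 0) z) - a z‖ ^ 2 ≤
      ∑ j : Fin 20, ∑ z, ‖-1 * a (σ (Sum.inl j) z) - a z‖ ^ 2 :=
    single_le_sum (f := fun j : Fin 20 => ∑ z, ‖-1 * a (σ (Sum.inl j) z) - a z‖ ^ 2)
      (fun _ _ => by positivity) (mem_univ 0)
  have h4 : 0 ≤ ∑ z, ‖-1 * a (σ (Sum.inl 0) z) - a z‖ ^ 2 := by positivity
  rw [Fintype.sum_sum_type]
  simp only [sg, Sum.elim_inl, Sum.elim_inr, Complex.ofReal_neg, Complex.ofReal_one, one_mul]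
  linarith

variable {Λ : Type} [AddCommGroup Λ] [Fintype Λ]

theorem planch (u : Λ → ℂ) :
    ∑ ψ : AddChar Λ ℂ, ‖∑ μ, ψ μ * u μ‖ ^ 2 = Fintype.card Λ * ∑ μ, ‖u μ‖ ^ 2 := by
  classical
  have h1 : ∀ ψ : AddChar Λ ℂ, ((‖∑ μ, ψ μ * u μ‖ ^ 2 : ℝ) : ℂ) =
      ∑ μ, ∑ ν, ψ (μ - ν) * (u μ * (starRingEnd ℂ) (u ν)) := fun ψ => by
    rw [Complex.ofReal_pow, ← Complex.mul_conj', map_sum, sum_mul_sum]
    refine sum_congr rfl fun μ _ => sum_congr rfl fun ν _ => ?_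
    rw [map_mul, sub_eq_add_neg, AddChar.map_add_eq_mul, AddChar.map_neg_eq_conj]
    ring
  apply Complex.ofReal_injective
  rw [Complex.ofReal_sum, sum_congr rfl fun ψ _ => h1 ψ, sum_comm]
  push_cast
  rw [mul_sum]
  refine sum_congr rfl fun μ _ => ?_
  rw [sum_comm]
  simp only [← sum_mul, AddChar.sum_apply_eq_ite, sub_eq_zero, ite_mul, zero_mul, sum_ite_eq,
    mem_univ, if_true, Complex.mul_conj']

theorem poin_tw (hE : Exp fun j => σ (Sum.inr j)) (h3 : ∀ μ : Λ, 3 • μ = 0) (e : J → α → Λ)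
    (h : α → Λ → ℂ) : ∑ z, ∑ μ, ‖h z μ‖ ^ 2 ≤
      96000 * ∑ j, ∑ z, ∑ μ, ‖sg j * h (σ j z) (μ + e j z) - h z μ‖ ^ 2 := by
  have hc : (0 : ℝ) < Fintype.card Λ := by exact_mod_cast Fintype.card_pos
  refine le_of_mul_le_mul_left ?_ hc
  rw [mul_left_comm]
  simp only [mul_sum (a := (Fintype.card Λ : ℝ)) (s := (univ : Finset α)),
    mul_sum (a := (Fintype.card Λ : ℝ)) (s := (univ : Finset J)), ← planch]
  rw [sum_comm, sum_congr rfl fun j _ => sum_comm, sum_comm (s := (univ : Finset J)), mul_sum]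
  refine sum_le_sum fun ψ _ => ?_
  have h1 := poin_sg hE (fun z => cub (∑ μ, ψ μ * h z μ))
  simp only [norm_cub] at h1
  refine h1.trans ?_
  rw [show (96000 : ℝ) = 3840 * 25 by norm_num, mul_assoc, mul_sum (a := (25 : ℝ))]
  gcongr with j
  rw [mul_sum]
  gcongr with z
  have hs : ‖(sg j : ℂ)‖ = 1 := by cases j <;> simp [sg]
  have hs3 : (sg j : ℂ) ^ 3 = sg j := by cases j <;> simp [sg]; norm_num
  have e1 : ∑ μ, ψ μ * (sg j * h (σ j z) (μ + e j z) - h z μ) =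
      sg j * ψ (-e j z) * ∑ μ, ψ μ * h (σ j z) μ - ∑ μ, ψ μ * h z μ := by
    simp only [mul_sub, sum_sub_distrib]
    congr 1
    rw [mul_sum]
    refine Eq.trans ?_ (Equiv.sum_comp (Equiv.addRight (e j z)) _)
    refine sum_congr rfl fun μ _ => ?_
    simp only [Equiv.coe_addRight]
    have : ψ μ = ψ (-e j z) * ψ (μ + e j z) := by rw [← AddChar.map_add_eq_mul]; congr 1; abel
    rw [this]; ring
  have e2 : (sg j : ℂ) * cub (∑ μ, ψ μ * h (σ j z) μ) =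
      cub (sg j * ψ (-e j z) * ∑ μ, ψ μ * h (σ j z) μ) := by
    rw [cub_mul _ _ (by rw [norm_mul, hs, ψ.norm_apply, one_mul]), mul_pow, hs3,
      ← AddChar.map_nsmul_eq_pow, h3, AddChar.map_zero_eq_one, mul_one]
  rw [e1, e2, show (25 : ℝ) = 5 ^ 2 by norm_num, ← mul_pow]
  gcongr
  exact cub_lip _ _

theorem poin_hilb (hE : Exp fun j => σ (Sum.inr j)) (h3 : ∀ μ : Λ, 3 • μ = 0) (e : J → α → Λ)
    {H : Type*} [NormedAddCommGroup H] [InnerProductSpace ℝ H] (h : α → Λ → H) :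
    ∑ z, ∑ μ, ‖h z μ‖ ^ 2 ≤
      96000 * ∑ j, ∑ z, ∑ μ, ‖sg j • h (σ j z) (μ + e j z) - h z μ‖ ^ 2 := by
  let K : Submodule ℝ H := Submodule.span ℝ (Set.range fun p : α × Λ => h p.1 p.2)
  haveI : FiniteDimensional ℝ K := FiniteDimensional.span_of_finite ℝ (Set.finite_range _)
  let h' : α → Λ → K := fun z μ => ⟨h z μ, Submodule.subset_span ⟨(z, μ), rfl⟩⟩
  let b := stdOrthonormalBasis ℝ K
  have e1 : ∀ z μ, ‖h z μ‖ ^ 2 = ∑ i, ‖((inner ℝ (b i) (h' z μ) : ℝ) : ℂ)‖ ^ 2 := fun z μ => by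
    simp only [Complex.norm_real]
    rw [b.sum_sq_norm_inner_right]
    rfl
  have e2 : ∀ j z μ, ‖sg j • h (σ j z) (μ + e j z) - h z μ‖ ^ 2 =
      ∑ i, ‖sg j * ((inner ℝ (b i) (h' (σ j z) (μ + e j z)) : ℝ) : ℂ) -
        ((inner ℝ (b i) (h' z μ) : ℝ) : ℂ)‖ ^ 2 := fun j z μ => by
    simp only [← Complex.ofReal_mul, ← Complex.ofReal_sub, Complex.norm_real,
      ← inner_smul_right, ← inner_sub_right]
    rw [b.sum_sq_norm_inner_right]
    rfl
  simp only [e1, e2]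
  have h1 := sum_le_sum fun i (_ : i ∈ univ) =>
    poin_tw hE h3 e fun z μ => ((inner ℝ (b i) (h' z μ) : ℝ) : ℂ)
  rw [← mul_sum] at h1
  refine le_of_eq_of_le ((sum_congr rfl fun z _ => sum_comm).trans sum_comm)
    (h1.trans (le_of_eq (congrArg _ ?_)))
  rw [sum_comm]
  refine sum_congr rfl fun j _ => ?_
  rw [sum_comm]
  exact sum_congr rfl fun z _ => sum_comm

end Pool.Agent.H86.Cov
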