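import Pool.Agent.H86.RoeB

set_option autoImplicit false

namespace Pool.Agent.H86.Roe

open Finset Equiv SimpleGraph

section graph
variable {Z : Type}

theorem reach_end (G : SimpleGraph Z) (a b : Z) {u v : Z} (p : G.Walk u v)
    (h : s(a, b) ∈ p.edges) :
    (G.deleteEdges {s(a, b)}).Reachable u a ∨ (G.deleteEdges {s(a, b)}).Reachable u b := by
  induction p with
  | nil => simp at h
  | @cons u w v huw p ih =>
    by_cases h1 : s(u, w) = s(a, b)
    · rcases Sym2.eq_iff.mp h1 with ⟨rfl, -⟩ | ⟨rfl, -⟩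
      · exact Or.inl (Reachable.refl _)
      · exact Or.inr (Reachable.refl _)
    · have h2 : (G.deleteEdges {s(a, b)}).Adj u w := deleteEdges_adj.mpr ⟨huw, h1⟩
      rw [Walk.edges_cons, List.mem_cons] at h
      rcases ih (h.resolve_left (Ne.symm h1)) with h3 | h3
      · exact Or.inl (h2.reachable.trans h3)
      · exact Or.inr (h2.reachable.trans h3)

theorem sep_of_path {G : SimpleGraph Z} (hG : G.IsAcyclic) (a b : Z) {u v : Z} (p : G.Walk u v)
    (hp : p.IsPath) (h : s(a, b) ∈ p.edges) :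
    ¬ ((G.deleteEdges {s(a, b)}).Reachable u a ↔ (G.deleteEdges {s(a, b)}).Reachable v a) := by
  classical
  have h0 : ¬ (G.deleteEdges {s(a, b)}).Reachable u v := by
    rintro ⟨q⟩
    have hq : ∀ e ∈ q.edges, e ∈ G.edgeSet ∧ e ≠ s(a, b) := fun e he => by
      have := q.edges_subset_edgeSet he
      rw [edgeSet_deleteEdges] at this
      exact this
    have h1 := (isAcyclic_iff_subsingleton_path.mp hG u v).elim ⟨p, hp⟩
      (q.transfer G fun e he => (hq e he).1).toPath
    have h2 : p = ((q.transfer G fun e he => (hq e he).1).toPath : G.Walk u v) :=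
      congrArg Subtype.val h1
    rw [h2] at h
    have h3 := Walk.edges_toPath_subset_edges _ h
    rw [Walk.edges_transfer] at h3
    exact (hq _ h3).2 rfl
  have h1 := reach_end G a b p h
  have h2 := reach_end G a b p.reverse (by simpa using h)
  intro h3
  rcases h1 with h1 | h1
  · exact h0 (h1.trans (h3.mp h1).symm)
  · rcases h2 with h2 | h2
    · exact h0 ((h3.mpr h2).trans h2.symm)
    · exact h0 (h1.trans h2.symm)

open Classical in
theorem core {L : Type} [Fintype L] [DecidableEq L] {σ : Fin 20 → Perm L} (hE : Exp σ)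
    (G : SimpleGraph Z) (F : L → Z) (s C : ℕ)
    (hw : ∀ x j, ∃ p : G.Walk (F x) (F (σ j x)), p.length ≤ s)
    (hg : ∀ x v, G.Reachable (F x) v → ∀ c : G.Walk v v, c.IsCycle →
      20 * s * Fintype.card L < c.length)
    (hC : ∀ x, #{x' | ∃ p : G.Walk (F x) (F x'), p.length ≤ 320 * s} ≤ C) :
    Fintype.card L ≤ 2 * C := by
  choose p hp using hw
  set k := Fintype.card L with hk
  let E : Finset (Sym2 Z) := univ.biUnion (fun z : Fin 20 × L => (p z.2 z.1).edges.toFinset)
  have hE1 : ∀ e ∈ E, ∃ x j, e ∈ (p x j).edges := fun e he => by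
    simp only [E, mem_biUnion, mem_univ, true_and, List.mem_toFinset] at he
    obtain ⟨z, hz⟩ := he
    exact ⟨_, _, hz⟩
  have hpl : ∀ x j, #(p x j).edges.toFinset ≤ s := fun x j =>
    (List.toFinset_card_le _).trans (by rw [Walk.length_edges]; exact hp x j)
  have hEc : #E ≤ 20 * s * k := by
    refine card_biUnion_le.trans ((sum_le_card_nsmul _ _ s fun z _ => hpl _ _).trans ?_)
    simp [← hk]
    exact le_of_eq (by ring)
  let H : SimpleGraph Z := fromEdgeSet E
  have hHE : ∀ e ∈ H.edgeSet, e ∈ E := fun e he => by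
    rw [edgeSet_fromEdgeSet] at he
    exact he.1
  have hHG : ∀ e ∈ H.edgeSet, e ∈ G.edgeSet := fun e he => by
    obtain ⟨x, j, h⟩ := hE1 e (hHE e he)
    exact Walk.edges_subset_edgeSet _ h
  have hpH : ∀ x j, ∀ e ∈ (p x j).edges, e ∈ H.edgeSet := fun x j e he => by
    rw [edgeSet_fromEdgeSet]
    refine ⟨mem_biUnion.mpr ⟨(j, x), mem_univ _, List.mem_toFinset.mpr he⟩, ?_⟩
    exact G.not_isDiag_of_mem_edgeSet (Walk.edges_subset_edgeSet _ he)
  have hac : H.IsAcyclic := by
    intro v c hc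
    have h1 : c.length ≤ #E := by
      rw [← Walk.length_edges, ← List.toFinset_card_of_nodup hc.edges_nodup]
      exact card_le_card fun e he =>
        hHE e (Walk.edges_subset_edgeSet _ (List.mem_toFinset.mp he))
    obtain ⟨x, j, h2⟩ := hE1 _ (hHE s(v, c.snd) (c.adj_snd hc.not_nil))
    have h3 : G.Reachable (F x) v :=
      ⟨(p x j).takeUntil v (Walk.fst_mem_support_of_mem_edges _ h2)⟩
    have h4 := hg x v h3 _ (hc.transfer fun e he => hHG e (Walk.edges_subset_edgeSet _ he))
    rw [Walk.length_transfer] at h4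
    omega
  have hre : ∀ x x', H.Reachable (F x) (F x') := fun x x' =>
    (const_of hE (fun y => H.Reachable (F x) (F y)) (fun j y =>
      ⟨fun h => h.trans ⟨(p y j).transfer H (hpH y j)⟩,
        fun h => h.trans (Reachable.symm ⟨(p y j).transfer H (hpH y j)⟩)⟩) x x').mp
      (Reachable.refl _)
  have hq : ∀ x x', ∃ q : H.Walk (F x) (F x'), q.IsPath := fun x x' =>
    (hre x x').elim fun q => ⟨q.toPath, q.toPath.2⟩
  choose q hq using hq
  let P : Sym2 Z → L → Prop := fun e x => (H.deleteEdges {e}).Reachable (F x) e.out.1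
  have a1 : ∀ z : L × L, (q z.1 z.2).length ≤ #{e ∈ E | ¬ (P e z.1 ↔ P e z.2)} := fun z => by
    rw [← Walk.length_edges, ← List.toFinset_card_of_nodup (hq _ _).edges_nodup]
    refine card_le_card fun e he => ?_
    have he' := List.mem_toFinset.mp he
    refine mem_filter.mpr ⟨hHE e (Walk.edges_subset_edgeSet _ he'), ?_⟩
    have h1 : s(e.out.1, e.out.2) = e := e.out_eq
    have := sep_of_path hac e.out.1 e.out.2 (q z.1 z.2) (hq _ _) (by rw [h1]; exact he')
    rw [h1] at this
    exact this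
  have a2 : ∀ j x, #{e ∈ E | ¬ (P e x ↔ P e (σ j x))} ≤ s := fun j x => by
    refine le_trans (card_le_card fun e he => ?_) (hpl x j)
    by_contra h1
    apply (mem_filter.mp he).2
    have h2 : (H.deleteEdges {e}).Reachable (F x) (F (σ j x)) :=
      ⟨(p x j).transfer _ fun e' he' => by
        rw [edgeSet_deleteEdges]
        refine ⟨hpH x j e' he', ?_⟩
        rintro rfl
        exact h1 (List.mem_toFinset.mpr he')⟩
    exact ⟨fun h => h2.symm.trans h, fun h => h2.trans h⟩
  clear_value P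
  have a3 : ∑ z : L × L, (q z.1 z.2).length ≤ 8 * k * (20 * (k * s)) := by
    calc _ ≤ ∑ z : L × L, #{e ∈ E | ¬ (P e z.1 ↔ P e z.2)} := sum_le_sum fun z _ => a1 z
      _ = ∑ e ∈ E, #{z : L × L | ¬ (P e z.1 ↔ P e z.2)} := by
          simp only [card_filter]
          exact sum_comm
      _ ≤ ∑ e ∈ E, 8 * k * ∑ j, #{x | ¬ (P e x ↔ P e (σ j x))} :=
          sum_le_sum fun e _ => cut_le hE (P e)
      _ = 8 * k * ∑ j, ∑ x, #{e ∈ E | ¬ (P e x ↔ P e (σ j x))} := by
          rw [← mul_sum, sum_comm]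
          refine congrArg _ (sum_congr rfl fun j _ => ?_)
          simp only [card_filter]
          exact sum_comm
      _ ≤ _ := by
          refine Nat.mul_le_mul_left _ ((sum_le_card_nsmul _ _ (k * s) fun j _ =>
            (sum_le_card_nsmul _ _ s fun x _ => a2 j x).trans ?_).trans ?_) <;> simp [← hk]
  have a4 : ∀ x, (k - C) * (320 * s + 1) ≤ ∑ x', (q x x').length := fun x => by
    have h1 := card_filter_add_card_filter_not (s := univ)
      (fun x' => ∃ p : G.Walk (F x) (F x'), p.length ≤ 320 * s)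
    rw [card_univ, ← hk] at h1
    have h2 := hC x
    calc _ ≤ #{x' | ¬ ∃ p : G.Walk (F x) (F x'), p.length ≤ 320 * s} * (320 * s + 1) :=
          Nat.mul_le_mul_right _ (by omega)
      _ ≤ ∑ x' ∈ {x' | ¬ ∃ p : G.Walk (F x) (F x'), p.length ≤ 320 * s}, (q x x').length := by
          refine card_nsmul_le_sum _ (fun x' => (q x x').length) (320 * s + 1) fun x' hx' => ?_
          by_contra h3
          refine (mem_filter.mp hx').2 ⟨(q x x').transfer G fun e he =>
            hHG e (Walk.edges_subset_edgeSet _ he), ?_⟩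
          rw [Walk.length_transfer]
          omega
      _ ≤ _ := sum_le_sum_of_subset (subset_univ _)
  have a5 : k * ((k - C) * (320 * s + 1)) ≤ 8 * k * (20 * (k * s)) := by
    refine le_trans ?_ a3
    rw [Fintype.sum_prod_type]
    exact card_nsmul_le_sum univ _ _ fun x _ => a4 x
  by_contra h
  obtain ⟨t, ht⟩ : ∃ t, k = 2 * C + t + 1 := ⟨k - (2 * C + 1), by omega⟩
  have h1 : k - C = C + t + 1 := by omega
  rw [h1] at a5
  have h2 : (C + t + 1) * (320 * s + 1) ≤ 160 * (k * s) := by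
    refine Nat.le_of_mul_le_mul_left (a5.trans (le_of_eq (by ring))) (by omega : 0 < k)
  rw [ht] at h2
  nlinarith [Nat.zero_le (t * s), Nat.zero_le s]

/-- graph distance cut off by the levels -/
noncomputable def dN (G : SimpleGraph Z) (l : Z → ℕ) (y y' : Z) : ℕ :=
  (min (G.edist y y') ((l y + l y' + 2 : ℕ) : ℕ∞)).toNat

theorem dN_cast (G : SimpleGraph Z) (l : Z → ℕ) (y y' : Z) :
    (dN G l y y' : ℕ∞) = min (G.edist y y') ((l y + l y' + 2 : ℕ) : ℕ∞) :=
  ENat.natCast_toNat (ne_top_of_le_ne_top (ENat.natCast_ne_top _) (min_le_right _ _))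

theorem dN_le_walk (G : SimpleGraph Z) (l : Z → ℕ) {y y' : Z} (p : G.Walk y y') :
    dN G l y y' ≤ p.length := by
  have : (dN G l y y' : ℕ∞) ≤ p.length := by
    rw [dN_cast]; exact (min_le_left _ _).trans p.edist_le
  exact_mod_cast this

theorem dN_le_lev (G : SimpleGraph Z) (l : Z → ℕ) (y y' : Z) :
    dN G l y y' ≤ l y + l y' + 2 := by
  have : (dN G l y y' : ℕ∞) ≤ (l y + l y' + 2 : ℕ) := by
    rw [dN_cast]; exact min_le_right _ _
  exact_mod_cast this

theorem dN_cases (G : SimpleGraph Z) (l : Z → ℕ) (y y' : Z) :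
    (∃ p : G.Walk y y', p.length = dN G l y y') ∨ dN G l y y' = l y + l y' + 2 := by
  have h := dN_cast G l y y'
  rcases min_choice (G.edist y y') ((l y + l y' + 2 : ℕ) : ℕ∞) with h1 | h1
  · exact Or.inl (exists_walk_of_edist_eq_coe (h.trans h1).symm)
  · exact Or.inr (by exact_mod_cast h.trans h1)

theorem lev_walk {G : SimpleGraph Z} {l : Z → ℕ} (hl : ∀ y y', G.Adj y y' → l y = l y')
    {y y' : Z} (p : G.Walk y y') : l y = l y' := by
  induction p with
  | nil => rfl
  | cons h p ih => exact (hl _ _ h).trans ih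

/-- the metric of a graph with levels -/
@[reducible] noncomputable def met (G : SimpleGraph Z) (l : Z → ℕ)
    (hl : ∀ y y', G.Adj y y' → l y = l y') : MetricSpace Z where
  dist y y' := dN G l y y'
  dist_self y := by
    have := dN_le_walk G l (Walk.nil : G.Walk y y)
    simpa using this
  dist_comm y y' := by simp only [dN, G.edist_comm (u := y), add_comm (l y)]
  dist_triangle a b c := by
    have h : dN G l a c ≤ dN G l a b + dN G l b c := by
      have h0 := dN_le_lev G l a c
      rcases dN_cases G l a b with ⟨p, hp⟩ | hp <;> rcases dN_cases G l b c with ⟨q, hq⟩ | hq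
      · have := dN_le_walk G l (p.append q)
        rw [Walk.length_append] at this
        omega
      · have := lev_walk hl p
        omega
      · have := lev_walk hl q
        omega
      · omega
    exact_mod_cast h
  eq_of_dist_eq_zero := by
    intro a b h
    have h' : dN G l a b = 0 := by exact_mod_cast h
    rcases dN_cases G l a b with ⟨p, hp⟩ | hp
    · exact p.eq_of_length_eq_zero (hp.trans h')
    · omega

theorem words (G : SimpleGraph Z) (S : Finset (Perm Z))
    (hS : ∀ y y', G.Adj y y' → ∃ g ∈ S, y' = g y) (M : Submonoid (Perm Z))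
    (hM : ∀ g ∈ S, g ∈ M) (r : ℕ) : ∃ W : Finset (Perm Z), (∀ w ∈ W, w ∈ M) ∧
      ∀ y y' (p : G.Walk y y'), p.length ≤ r → ∃ w ∈ W, y' = w y := by
  classical
  induction r with
  | zero =>
    refine ⟨{1}, by simp, fun y y' p hp => ⟨1, by simp, ?_⟩⟩
    exact (p.eq_of_length_eq_zero (by omega)).symm
  | succ r ih =>
    obtain ⟨W, h1, h2⟩ := ih
    refine ⟨W ∪ image₂ (· * ·) W S, fun w hw => ?_, fun y y' p hp => ?_⟩
    · rcases mem_union.mp hw with h | h
      · exact h1 w h
      · obtain ⟨a, ha, b, hb, rfl⟩ := mem_image₂.mp h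
        exact M.mul_mem (h1 a ha) (hM b hb)
    · cases p with
      | nil =>
        obtain ⟨w, hw, h⟩ := h2 y y Walk.nil (by simp)
        exact ⟨w, mem_union_left _ hw, h⟩
      | cons h p =>
        obtain ⟨g, hg, rfl⟩ := hS _ _ h
        obtain ⟨w, hw, h⟩ := h2 _ _ p (by simpa using hp)
        exact ⟨w * g, mem_union_right _ (mem_image₂_of_mem hw hg), h⟩

/-- the graph of a family of permutations on the good points -/
def Gr {J : Type} (ρ : J → Perm Z) (good : Z → Prop) : SimpleGraph Z where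
  Adj y y' := y ≠ y' ∧ good y ∧ good y' ∧ ∃ j, y' = ρ j y ∨ y = ρ j y'
  symm := ⟨fun _ _ ⟨h1, h2, h3, j, h4⟩ => ⟨h1.symm, h3, h2, j, h4.symm⟩⟩
  loopless := ⟨fun _ h => h.1 rfl⟩

theorem gr_gens {J : Type} [Fintype J] (ρ : J → Perm Z) (good : Z → Prop) :
    ∃ S : Finset (Perm Z), (∀ y y', (Gr ρ good).Adj y y' → ∃ g ∈ S, y' = g y) ∧
      ∀ g ∈ S, ∃ j, g = ρ j ∨ g = (ρ j)⁻¹ := by
  classical
  refine ⟨univ.image ρ ∪ univ.image (fun j => (ρ j)⁻¹), ?_, ?_⟩
  · rintro y y' ⟨-, -, -, j, rfl | rfl⟩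
    · exact ⟨ρ j, by simp, rfl⟩
    · exact ⟨(ρ j)⁻¹, by simp, by simp⟩
  · intro g hg
    simp only [mem_union, mem_image, mem_univ, true_and] at hg
    rcases hg with ⟨j, rfl⟩ | ⟨j, rfl⟩
    · exact ⟨j, Or.inl rfl⟩
    · exact ⟨j, Or.inr rfl⟩

theorem gr_lev {J : Type} (ρ : J → Perm Z) (good : Z → Prop) (l : Z → ℕ)
    (h : ∀ j y, l (ρ j y) = l y) : ∀ y y', (Gr ρ good).Adj y y' → l y = l y' := by
  rintro y y' ⟨-, -, -, j, rfl | rfl⟩
  · exact (h j y).symm
  · exact h j y'

theorem gr_dN {J : Type} (ρ : J → Perm Z) (good : Z → Prop) (l : Z → ℕ) (j : J) (y : Z)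
    (h1 : good y) (h2 : good (ρ j y)) : dN (Gr ρ good) l y (ρ j y) ≤ 1 := by
  by_cases h : y = ρ j y
  · have := dN_le_walk (Gr ρ good) l (Walk.nil : (Gr ρ good).Walk y y)
    rw [← h]
    simp only [Walk.length_nil] at this
    omega
  · exact dN_le_walk (Gr ρ good) l
      (Walk.cons (show (Gr ρ good).Adj y (ρ j y) from ⟨h, h1, h2, j, Or.inl rfl⟩) Walk.nil)

theorem gr_cyc [DecidableEq Z] {J : Type} [Fintype J] (ρ : J → Perm Z) (good : Z → Prop) {v : Z}
    (c : (Gr ρ good).Walk v v) (hc : c.IsCycle) :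
    good v ∧ ∃ V : Finset Z, v ∈ V ∧ #V ≤ c.length ∧ c.length ≤ ∑ j, #{y ∈ V | ρ j y ∈ V} ∧
      ∀ y ∈ V, (Gr ρ good).Reachable v y := by
  refine ⟨(c.adj_snd hc.not_nil).2.1, c.support.toFinset, by simp, ?_, ?_, ?_⟩
  · have h1 : c.support.toFinset ⊆ c.support.tail.toFinset := fun y hy => by
      rw [List.mem_toFinset] at hy ⊢
      rcases c.mem_support_iff.mp hy with rfl | h
      · exact c.end_mem_tail_support hc.not_nil
      · exact h
    refine (card_le_card h1).trans ((List.toFinset_card_le _).trans ?_)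
    simp
  · rw [← Walk.length_edges, ← List.toFinset_card_of_nodup hc.edges_nodup]
    refine le_trans (card_le_card (t := univ.biUnion fun j =>
      ({y ∈ c.support.toFinset | ρ j y ∈ c.support.toFinset}).image fun y => s(y, ρ j y)) ?_)
      (card_biUnion_le.trans (sum_le_sum fun j _ => card_image_le))
    intro e he
    rw [List.mem_toFinset] at he
    induction e using Sym2.ind with
    | _ a b =>
      have ha := List.mem_toFinset.mpr (c.fst_mem_support_of_mem_edges he)
      have hb := List.mem_toFinset.mpr (c.snd_mem_support_of_mem_edges he)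
      obtain ⟨-, -, -, j, rfl | rfl⟩ := c.adj_of_mem_edges he
      · exact mem_biUnion.mpr ⟨j, mem_univ _, mem_image.mpr ⟨a, mem_filter.mpr ⟨ha, hb⟩, rfl⟩⟩
      · exact mem_biUnion.mpr ⟨j, mem_univ _,
          mem_image.mpr ⟨b, mem_filter.mpr ⟨hb, ha⟩, Sym2.eq_swap⟩⟩
  · intro y hy
    exact ⟨c.takeUntil y (List.mem_toFinset.mp hy)⟩

theorem ball_fin {J : Type} [Fintype J] (ρ : J → Perm Z) (good : Z → Prop) (l : Z → ℕ)
    (hl : ∀ n, {y | l y < n}.Finite) (r : ℕ) :
    ∃ N : ℕ, ∀ y, ∃ F : Finset Z, #F ≤ N ∧ ∀ y', dN (Gr ρ good) l y y' ≤ r → y' ∈ F := by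
  classical
  obtain ⟨S, h1, -⟩ := gr_gens ρ good
  obtain ⟨W, -, h2⟩ := words _ S h1 ⊤ (by simp) r
  refine ⟨#W + #(hl r).toFinset, fun y => ⟨W.image (fun w => w y) ∪ (hl r).toFinset,
    (card_union_le _ _).trans (Nat.add_le_add_right card_image_le _), fun y' h => ?_⟩⟩
  rcases dN_cases (Gr ρ good) l y y' with ⟨p, hp⟩ | hp
  · obtain ⟨w, hw, h3⟩ := h2 y y' p (by omega)
    exact mem_union_left _ (mem_image.mpr ⟨w, hw, h3.symm⟩)
  · refine mem_union_right _ ?_
    simp only [Set.Finite.mem_toFinset, Set.mem_ofPred_eq]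
    omega

end graph

end Pool.Agent.H86.Roe
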