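import Pool.Agent.H86.CovA
import Pool.Agent.H86.RoeC

set_option autoImplicit false
set_option linter.unusedSectionVars false

namespace Pool.Agent.H86.Cov

open Finset Equiv Roe

section chains
variable {α : Type} [Fintype α] [DecidableEq α] (σ : J → Perm α) {A : Type} [AddCommGroup A]

/-- boundary of a chain -/
def bd : (J × α → A) →+ (α → A) where
  toFun μ v := ∑ e, ((if σ e.1 e.2 = v then μ e else 0) - (if e.2 = v then μ e else 0))
  map_zero' := by ext; simp
  map_add' μ ν := by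
    ext v
    simp only [Pi.add_apply, ← sum_add_distrib]
    refine sum_congr rfl fun e _ => ?_
    split_ifs <;> simp only [sub_zero, zero_sub, add_zero, neg_add_rev, sub_self] <;> abel

theorem bd_apply (μ : J × α → A) (v : α) : bd σ μ v =
    ∑ e, ((if σ e.1 e.2 = v then μ e else 0) - (if e.2 = v then μ e else 0)) := rfl

theorem bd_single (e : J × α) (a : A) :
    bd σ (Pi.single e a) = Pi.single (σ e.1 e.2) a - Pi.single e.2 a := by
  ext v
  rw [bd_apply, sum_eq_single e (fun b _ hb => by simp [hb]) (by simp)]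
  simp [Pi.single_apply, eq_comm]

theorem sum_bd (μ : J × α → A) (S : Finset α) : ∑ v ∈ S, bd σ μ v =
    ∑ e, ((if σ e.1 e.2 ∈ S then μ e else 0) - (if e.2 ∈ S then μ e else 0)) := by
  simp only [bd_apply]
  rw [sum_comm]
  simp

variable [DecidableEq A]

theorem cyc_zero {B : Finset α} {g : ℕ} (hD : ∀ V : Finset α, #V ≤ g →
      #V ≤ #{e : J × α | e.2 ∈ V ∧ σ e.1 e.2 ∈ V} → V ⊆ B) (μ : J × α → A)
    (h1 : ∀ e, μ e ≠ 0 → e.2 ∉ B ∧ σ e.1 e.2 ∉ B) (h2 : 2 * #{e | μ e ≠ 0} ≤ g)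
    (h3 : bd σ μ = 0) : μ = 0 := by
  set F : Finset (J × α) := {e | μ e ≠ 0} with hF
  have hm : ∀ e, e ∈ F ↔ μ e ≠ 0 := fun e => by simp [hF]
  clear_value F
  let V : Finset α := F.image Prod.snd ∪ F.image (fun e => σ e.1 e.2)
  have v1 : ∀ e ∈ F, e.2 ∈ V := fun e he => mem_union_left _ (mem_image_of_mem _ he)
  have v2 : ∀ e ∈ F, σ e.1 e.2 ∈ V := fun e he =>
    mem_union_right _ (mem_image_of_mem (fun e : J × α => σ e.1 e.2) he)
  have c1 : #V ≤ g := (card_union_le _ _).trans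
    ((add_le_add card_image_le card_image_le).trans (by omega))
  have c2 : ∀ v ∈ V, 2 ≤ #{e ∈ F | e.2 = v} + #{e ∈ F | σ e.1 e.2 = v} := by
    intro v hv
    have h4 : ∑ e ∈ F with σ e.1 e.2 = v, μ e = ∑ e ∈ F with e.2 = v, μ e := by
      have h5 := congrFun h3 v
      rw [bd_apply, sum_sub_distrib, Pi.zero_apply, sub_eq_zero] at h5
      rw [sum_filter, sum_filter, sum_subset (subset_univ F), sum_subset (subset_univ F), h5] <;>
        intro e _ he <;> simp [not_not.mp ((hm e).not.mp he)]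
    by_contra h5
    have h6 : 0 < #{e ∈ F | e.2 = v} + #{e ∈ F | σ e.1 e.2 = v} := by
      rcases mem_union.mp hv with h | h <;> obtain ⟨e, he, h⟩ := mem_image.mp h
      · exact Nat.add_pos_left (card_pos.mpr ⟨e, mem_filter.mpr ⟨he, h⟩⟩) _
      · exact Nat.add_pos_right _ (card_pos.mpr ⟨e, mem_filter.mpr ⟨he, h⟩⟩)
    rcases (by omega : (#{e ∈ F | e.2 = v} = 1 ∧ #{e ∈ F | σ e.1 e.2 = v} = 0) ∨
      (#{e ∈ F | σ e.1 e.2 = v} = 1 ∧ #{e ∈ F | e.2 = v} = 0)) with ⟨h7, h8⟩ | ⟨h7, h8⟩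
    all_goals
      obtain ⟨e, he⟩ := card_eq_one.mp h7
      have h9 : e ∈ F := (mem_filter.mp (he ▸ mem_singleton_self e)).1
      rw [card_eq_zero.mp h8, he, sum_singleton, sum_empty] at h4
      exact (hm e).mp h9 (by rw [h4])
  have c3 : #V ≤ #F := by
    have h4 := card_nsmul_le_sum V _ 2 c2
    rw [sum_add_distrib, ← card_eq_sum_card_fiberwise v1, ← card_eq_sum_card_fiberwise v2,
      smul_eq_mul] at h4
    omega
  have c4 := hD V c1 (c3.trans (card_le_card fun e he => by simp [v1 e he, v2 e he]))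
  ext e
  by_contra h
  exact (h1 e h).1 (c4 (v1 e ((hm e).mpr h)))

/-- neighbourhood of a set -/
def nb (S : Finset α) : Finset α :=
  S ∪ univ.biUnion fun j => S.image (σ j) ∪ S.image (σ j).symm

theorem card_nb (R : ℕ) (S : Finset α) : #((nb σ)^[R] S) ≤ 81 ^ R * #S := by
  induction R with
  | zero => simp
  | succ R ih =>
    rw [Function.iterate_succ_apply', pow_succ]
    generalize (nb σ)^[R] S = T at ih
    have h : #(univ.biUnion fun j => T.image (σ j) ∪ T.image (σ j).symm) ≤ 40 * (#T + #T) := by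
      refine card_biUnion_le.trans ((sum_le_card_nsmul _ _ (#T + #T) fun j _ =>
        (card_union_le _ _).trans (add_le_add card_image_le card_image_le)).trans ?_)
      simp
    have h2 := card_union_le T (univ.biUnion fun j => T.image (σ j) ∪ T.image (σ j).symm)
    unfold nb
    nlinarith

theorem nb_mono : Monotone (nb σ) := fun _ _ h =>
  union_subset_union h (biUnion_mono fun _ _ =>
    union_subset_union (image_subset_image h) (image_subset_image h))

theorem sub_nb (R : ℕ) (S : Finset α) : S ⊆ (nb σ)^[R] S := by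
  induction R with
  | zero => exact Subset.rfl
  | succ R ih =>
    rw [Function.iterate_succ_apply']
    exact ih.trans subset_union_left

theorem near (R : ℕ) : ∀ (μ : J × α → A) (S : Finset α), #{e | μ e ≠ 0} ≤ R →
    ∑ v ∈ S, bd σ μ v ≠ 0 → ∃ v, v ∉ S ∧ v ∈ (nb σ)^[R] S ∧ bd σ μ v ≠ 0 := by
  induction R with
  | zero =>
    intro μ S h1 h2
    have : μ = 0 := by
      ext e
      simpa using filter_eq_empty_iff.mp (card_eq_zero.mp (Nat.le_zero.mp h1)) (mem_univ e)
    simp [this] at h2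
  | succ R ih =>
    intro μ S h1 h2
    rw [sum_bd] at h2
    obtain ⟨e, -, he⟩ := exists_ne_zero_of_sum_ne_zero h2
    rw [← sum_bd] at h2
    have h3 : μ e ≠ 0 := fun h => by simp [h] at he
    obtain ⟨w, hw, hw1, hw2, hw3⟩ : ∃ w, w ∉ S ∧ w ∈ nb σ S ∧ e.2 ∈ insert w S ∧
        σ e.1 e.2 ∈ insert w S := by
      by_cases a1 : e.2 ∈ S <;> by_cases a2 : σ e.1 e.2 ∈ S
      · simp [a1, a2] at he
      · exact ⟨_, a2, mem_union_right _ (mem_biUnion.mpr ⟨e.1, mem_univ _, mem_union_left _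
          (mem_image_of_mem _ a1)⟩), mem_insert_of_mem a1, mem_insert_self _ _⟩
      · exact ⟨_, a1, mem_union_right _ (mem_biUnion.mpr ⟨e.1, mem_univ _, mem_union_right _
          (mem_image.mpr ⟨_, a2, by simp⟩)⟩), mem_insert_self _ _, mem_insert_of_mem a2⟩
      · simp [a1, a2] at he
    rw [Function.iterate_succ_apply]
    by_cases h4 : bd σ μ w = 0
    · have h5 : #{e' | (μ - Pi.single e (μ e) : J × α → A) e' ≠ 0} < #{e | μ e ≠ 0} := by
        refine card_lt_card ⟨fun e' he' => ?_, fun h => ?_⟩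
        · by_cases h : e' = e
          · simpa [h] using h3
          · simpa [h] using he'
        · simpa using h (mem_filter.mpr ⟨mem_univ e, h3⟩)
      obtain ⟨v, a1, a2, a3⟩ := ih (μ - Pi.single e (μ e)) (insert w S) (by omega) (by
        rw [map_sub, bd_single]
        simp only [Pi.sub_apply, sum_sub_distrib, sum_pi_single', hw2, hw3, if_true, sub_self,
          sub_zero]
        rwa [sum_insert hw, h4, zero_add])
      refine ⟨v, fun h => a1 (mem_insert_of_mem h), (nb_mono σ).iterate R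
        (insert_subset hw1 subset_union_left) a2, ?_⟩
      have b1 : v ≠ e.2 := fun h => a1 (h ▸ hw2)
      have b2 : v ≠ σ e.1 e.2 := fun h => a1 (h ▸ hw3)
      simpa [bd_single, b1, b2] using a3
    · exact ⟨w, hw, sub_nb σ R _ hw1, h4⟩

end chains

/-- the data of one level -/
structure Lv (n : ℕ) where
  m : ℕ
  σ : J → Perm (Fin m)
  B : Finset (Fin m)
  hm : 0 < m
  hB : (n + 1) * #B ≤ m
  hE : Exp (fun j => σ (Sum.inr j))
  hD : ∀ V : Finset (Fin m), #V ≤ 4 * n →
    #V ≤ #{e : J × Fin m | e.2 ∈ V ∧ σ e.1 e.2 ∈ V} → V ⊆ B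

theorem lv_ne (n : ℕ) : Nonempty (Lv n) := by
  obtain ⟨m, hm, ω, B, h1, h2, h3⟩ := exists_lift Unit (4 * n) (n + 1)
  refine ⟨⟨m, fun j => ω (j, ()), B.image Prod.snd, hm,
    (Nat.mul_le_mul_left _ card_image_le).trans h1, h2 (), fun V a1 a2 v hv => ?_⟩⟩
  have hc : #((univ : Finset Unit) ×ˢ V) = #V := by simp
  refine mem_image.mpr ⟨((), v), h3 (univ ×ˢ V) (hc ▸ a1) ?_ (by simp [hv]), rfl⟩
  rw [Dn, hc]
  refine a2.trans (card_le_card_of_injOn (fun e => ((e.1, ()), e.2)) ?_ ?_)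
  · intro e he
    simpa using he
  · rintro ⟨a, b⟩ - ⟨c, d⟩ - h
    simpa using h

end Pool.Agent.H86.Cov
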