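import Pool.Agent.H86.CovB

set_option autoImplicit false

namespace Pool.Agent.H86.Cov

open Finset Equiv Roe

/-- chosen level data -/
noncomputable def lv (n : ℕ) : Lv n := Classical.choice (lv_ne n)

/-- vertices of a level -/
abbrev L (n : ℕ) : Type := Fin (lv n).m

/-- lamp configurations -/
abbrev Λ (n : ℕ) : Type := J × L n → ZMod 3

/-- the base space -/
abbrev YY : Type := Σ n : ℕ, L n × Λ n

/-- the double cover -/
abbrev XX : Type := Σ n : ℕ, (L n × Λ n) × ZMod 2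

/-- parity of a generator -/
def par : J → ZMod 2 := Sum.elim (fun _ => 1) (fun _ => 0)

/-- generators on a level -/
noncomputable def ρL (n : ℕ) (j : J) : Perm ((L n × Λ n) × ZMod 2) :=
  Equiv.prodCongr (Equiv.prodShear ((lv n).σ j) fun z => Equiv.addRight (Pi.single (j, z) 1))
    (Equiv.addRight (par j))

theorem ρL_apply (n : ℕ) (j : J) (u : (L n × Λ n) × ZMod 2) : ρL n j u =
    (((lv n).σ j u.1.1, u.1.2 + Pi.single (j, u.1.1) 1), u.2 + par j) := rfl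

/-- generators -/
noncomputable def ρ (j : J) : Perm XX := Equiv.sigmaCongrRight fun n => ρL n j

theorem ρ_apply (j : J) (n : ℕ) (u : (L n × Λ n) × ZMod 2) : ρ j ⟨n, u⟩ = ⟨n, ρL n j u⟩ := rfl

/-- good points -/
def gd (x : XX) : Prop := x.2.1.1 ∉ (lv x.1).B

/-- metric on the double cover -/
@[reducible] noncomputable def mX : MetricSpace XX :=
  met (Gr ρ gd) Sigma.fst (gr_lev _ _ _ fun _ _ => rfl)

theorem chain {x x' : XX} (p : (Gr ρ gd).Walk x x') : ∀ n u, x = ⟨n, u⟩ → ∃ u', x' = ⟨n, u'⟩ ∧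
    ∃ ν : J × L n → ℤ, (∀ e, ν e ≠ 0 → e.2 ∉ (lv n).B ∧ (lv n).σ e.1 e.2 ∉ (lv n).B) ∧
      #{e | ν e ≠ 0} ≤ p.length ∧ bd (lv n).σ ν = Pi.single u'.1.1 1 - Pi.single u.1.1 1 ∧
      u'.2 = u.2 + ∑ e, par e.1 * ν e := by
  have key : ∀ n (ν : J × L n → ℤ) (e : J × L n) (a : ℤ),
      #{e' | (ν + Pi.single e a : J × L n → ℤ) e' ≠ 0} ≤ #{e | ν e ≠ 0} + 1 ∧
      (∀ P : J × L n → Prop, P e → (∀ e, ν e ≠ 0 → P e) →
        ∀ e', (ν + Pi.single e a : J × L n → ℤ) e' ≠ 0 → P e') ∧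
      ∑ e', par e'.1 * ((ν + Pi.single e a : J × L n → ℤ) e' : ZMod 2) =
        ∑ e', par e'.1 * ν e' + par e.1 * a := by
    intro n ν e a
    refine ⟨le_trans (card_le_card fun e' he' => ?_) (card_insert_le e _), fun P h h' e' he' => ?_,
      ?_⟩
    · by_cases h : e' = e
      · simp [h]
      · simpa [h] using he'
    · by_cases h1 : e' = e
      · exact h1 ▸ h
      · exact h' e' (by simpa [h1] using he')
    · simp only [Pi.add_apply, Int.cast_add, mul_add, sum_add_distrib]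
      rw [sum_eq_single e (f := fun e' : J × L n => par e'.1 *
        ((Pi.single e a : J × L n → ℤ) e' : ZMod 2)) (fun b _ hb => by simp [hb]) (by simp)]
      simp
  induction p with
  | nil =>
    rintro n u rfl
    exact ⟨u, rfl, 0, by simp, by simp, by simp, by simp⟩
  | @cons x y x' h p ih =>
    rintro n u rfl
    obtain ⟨-, h1, h2, j, h3 | h3⟩ := h
    · obtain ⟨u', a1, ν, a2, a3, a4, a5⟩ := ih n (ρL n j u) h3
      subst h3
      obtain ⟨b1, b2, b3⟩ := key n ν (j, u.1.1) 1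
      refine ⟨u', a1, ν + Pi.single (j, u.1.1) 1, b2 _ ⟨h1, h2⟩ a2,
        b1.trans (Nat.succ_le_succ a3), ?_, ?_⟩
      · rw [map_add, a4, bd_single, ρL_apply]
        abel
      · rw [a5, b3, ρL_apply]
        push_cast
        ring
    · obtain ⟨n', w⟩ := y
      obtain rfl : n = n' := congrArg Sigma.fst h3
      obtain rfl : u = ρL n j w := sigma_mk_injective (β := fun n => (L n × Λ n) × ZMod 2) h3
      obtain ⟨u', a1, ν, a2, a3, a4, a5⟩ := ih n w rfl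
      obtain ⟨b1, b2, b3⟩ := key n ν (j, w.1.1) (-1)
      refine ⟨u', a1, ν + Pi.single (j, w.1.1) (-1), b2 _ ⟨h2, h1⟩ a2,
        b1.trans (Nat.succ_le_succ a3), ?_, ?_⟩
      · rw [map_add, a4, bd_single, ρL_apply, Pi.single_neg, Pi.single_neg]
        abel
      · rw [a5, b3, ρL_apply]
        push_cast
        ring

theorem far (n : ℕ) (u : L n × Λ n) :
    n ≤ dN (Gr ρ gd) Sigma.fst ⟨n, (u, 0)⟩ ⟨n, (u, 1)⟩ := by
  rcases dN_cases (Gr ρ gd) Sigma.fst ⟨n, (u, 0)⟩ ⟨n, (u, 1)⟩ with ⟨p, hp⟩ | hp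
  · by_contra h
    obtain ⟨u', a1, ν, a2, a3, a4, a5⟩ := chain p n _ rfl
    obtain rfl := sigma_mk_injective (β := fun n => (L n × Λ n) × ZMod 2) a1
    rw [cyc_zero _ (lv n).hD ν a2 (le_trans (Nat.mul_le_mul_left 2 a3) (by omega))
      (by simpa using a4)] at a5
    simp at a5
  · simp only at hp
    omega

theorem no_emb {H : Type*} [NormedAddCommGroup H] [InnerProductSpace ℝ H] (g : XX → H)
    (C : ℝ) (h1 : ∀ x x', dN (Gr ρ gd) Sigma.fst x x' ≤ 1 → ‖g x - g x'‖ ≤ C)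
    (h2 : ∀ M : ℝ, ∃ t : ℕ, ∀ x x', t ≤ dN (Gr ρ gd) Sigma.fst x x' → M ≤ ‖g x - g x'‖) :
    False := by
  obtain ⟨t, ht⟩ := h2 (12000 * |C| + 1)
  obtain ⟨n, hn⟩ : ∃ n, n = t + 10 ^ 8 := ⟨_, rfl⟩
  let d : L n → Λ n → H := fun z μ => g ⟨n, ((z, μ), 0)⟩ - g ⟨n, ((z, μ), 1)⟩
  have a1 : ∀ z μ, 12000 * |C| + 1 ≤ ‖d z μ‖ := fun z μ =>
    ht _ _ (le_trans (by omega) (far n _))
  have a2 : ∀ z μ, ‖NormedSpace.normalize (d z μ)‖ = 1 := fun z μ =>
    NormedSpace.norm_normalize fun h => by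
      have := a1 z μ
      rw [h, norm_zero] at this
      linarith [abs_nonneg C]
  have a3 := poin_hilb (lv n).hE (fun μ : Λ n => by
    ext e
    simp only [Pi.smul_apply, nsmul_eq_mul, Pi.zero_apply]
    exact mul_eq_zero_of_left rfl _) (fun j z => Pi.single (j, z) 1)
    (fun z μ => NormedSpace.normalize (d z μ))
  have a4 : ∀ j z μ, ‖sg j • NormedSpace.normalize (d ((lv n).σ j z) (μ + Pi.single (j, z) 1)) -
      NormedSpace.normalize (d z μ)‖ ^ 2 ≤ (1 / 3000) ^ 2 +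
        ((if z ∈ (lv n).B then 4 else 0) + if (lv n).σ j z ∈ (lv n).B then 4 else 0) := by
    intro j z μ
    have e : sg j • NormedSpace.normalize (d ((lv n).σ j z) (μ + Pi.single (j, z) 1)) =
        NormedSpace.normalize (g (ρ j ⟨n, ((z, μ), 0)⟩) - g (ρ j ⟨n, ((z, μ), 1)⟩)) := by
      have h11 : (1 : ZMod 2) + 1 = 0 := by decide
      cases j
      · simp only [sg, Sum.elim_inl, neg_smul, one_smul, ← NormedSpace.normalize_neg, d, neg_sub,
          ρ_apply, ρL_apply, par, h11, zero_add]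
      · simp only [sg, Sum.elim_inr, one_smul, d, ρ_apply, ρL_apply, par, add_zero]
    rw [e]
    by_cases b : z ∉ (lv n).B ∧ (lv n).σ j z ∉ (lv n).B
    · have b1 := h1 _ _ (gr_dN ρ gd Sigma.fst j ⟨n, ((z, μ), 0)⟩ b.1 b.2)
      have b2 := h1 _ _ (gr_dN ρ gd Sigma.fst j ⟨n, ((z, μ), 1)⟩ b.1 b.2)
      have b3 := nrm_lip (g (ρ j ⟨n, ((z, μ), 0)⟩) - g (ρ j ⟨n, ((z, μ), 1)⟩)) (d z μ)
      have b4 : ‖g (ρ j ⟨n, ((z, μ), 0)⟩) - g (ρ j ⟨n, ((z, μ), 1)⟩) - d z μ‖ ≤ 2 * |C| := by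
        have : g (ρ j ⟨n, ((z, μ), 0)⟩) - g (ρ j ⟨n, ((z, μ), 1)⟩) - d z μ =
            (g ⟨n, ((z, μ), 1)⟩ - g (ρ j ⟨n, ((z, μ), 1)⟩)) -
              (g ⟨n, ((z, μ), 0)⟩ - g (ρ j ⟨n, ((z, μ), 0)⟩)) := by
          simp only [d]; abel
        rw [this]
        linarith [norm_sub_le (g ⟨n, ((z, μ), 1)⟩ - g (ρ j ⟨n, ((z, μ), 1)⟩))
          (g ⟨n, ((z, μ), 0)⟩ - g (ρ j ⟨n, ((z, μ), 0)⟩)), le_abs_self C]
      simp only [b.1, b.2, if_false, add_zero]
      gcongr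
      have b5 := a1 z μ
      by_contra b6
      nlinarith [abs_nonneg C]
    · have b1 : ‖NormedSpace.normalize (g (ρ j ⟨n, ((z, μ), 0)⟩) - g (ρ j ⟨n, ((z, μ), 1)⟩)) -
          NormedSpace.normalize (d z μ)‖ ≤ 2 :=
        (norm_sub_le _ _).trans ((add_le_add (nrm_le _) (nrm_le _)).trans (by norm_num))
      have b2 := pow_le_pow_left₀ (norm_nonneg _) b1 2
      split_ifs <;> first | linarith | tauto
  have a5 : ∀ j, ∑ z, ∑ μ, ‖sg j • NormedSpace.normalize (d ((lv n).σ j z)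
      (μ + Pi.single (j, z) 1)) - NormedSpace.normalize (d z μ)‖ ^ 2 ≤
      Fintype.card (Λ n) * ((lv n).m * (1 / 3000) ^ 2 + 8 * #(lv n).B) := fun j => by
    refine (sum_le_sum fun z _ => sum_le_card_nsmul _ _ _ fun μ _ => a4 j z μ).trans ?_
    simp only [nsmul_eq_mul, card_univ, ← mul_sum, sum_add_distrib]
    rw [Equiv.sum_comp ((lv n).σ j) (fun z => if z ∈ (lv n).B then (4 : ℝ) else 0)]
    simp only [sum_ite_mem, univ_inter, sum_const, nsmul_eq_mul, card_univ, Fintype.card_fin]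
    exact le_of_eq (by ring)
  have a6 := a3.trans (mul_le_mul_of_nonneg_left (sum_le_card_nsmul _ _ _ fun j _ => a5 j)
    (by norm_num))
  simp only [a2, one_pow, sum_const, card_univ, nsmul_eq_mul, mul_one, Fintype.card_fin,
    Fintype.card_sum] at a6
  have a7 : (0 : ℝ) < Fintype.card (Λ n) := by exact_mod_cast Fintype.card_pos
  have a8 : (10 ^ 8 : ℝ) * #(lv n).B ≤ (lv n).m := by
    exact_mod_cast le_trans (Nat.mul_le_mul_right _ (by omega)) (lv n).hB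
  have a9 : (0 : ℝ) < (lv n).m := by exact_mod_cast (lv n).hm
  push_cast at a6
  nlinarith

/-- invariants of a component -/
abbrev KK : Type := Σ n : ℕ, (L n → ZMod 3) × Λ n

/-- the invariant of a point -/
noncomputable def κ (y : YY) : KK :=
  ⟨y.1, (bd (lv y.1).σ y.2.2 - Pi.single y.2.1 1,
    fun e => if e.2 ∉ (lv y.1).B ∧ (lv y.1).σ e.1 e.2 ∉ (lv y.1).B then 0 else y.2.2 e)⟩

/-- coordinates of the Hilbert space -/
abbrev II : Type := KK ⊕ Σ n : ℕ, (J × L n) × ZMod 3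

/-- the Hilbert space -/
abbrev HH : Type := lp (fun _ : II => ℝ) 2

open Classical in
/-- the embedding of the base -/
noncomputable def Φ (y : YY) : HH :=
  lp.single 2 (Sum.inl (κ y)) ((y.1 : ℝ) + 1) +
    ∑ e, lp.single 2 (Sum.inr ⟨y.1, (e, y.2.2 e)⟩) (1 : ℝ)

theorem Φ_cls {y y' : YY} (h : κ y ≠ κ y') : (y.1 : ℝ) + 1 ≤ ‖Φ y - Φ y'‖ := by
  refine le_trans ?_ (lp.norm_apply_le_norm (by simp) _ (Sum.inl (κ y)))
  simp only [Φ, lp.coeFn_sub, lp.coeFn_add, lp.coeFn_sum, Pi.sub_apply, Pi.add_apply,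
    Finset.sum_apply, lp.single_apply, Pi.single_apply]
  simp [h]
  exact le_abs_self _

theorem Φ_inr (n : ℕ) (u : L n × Λ n) (e : J × L n) (a : ZMod 3) :
    Φ ⟨n, u⟩ (Sum.inr ⟨n, (e, a)⟩) = if a = u.2 e then 1 else 0 := by
  simp only [Φ, lp.coeFn_add, lp.coeFn_sum, Pi.add_apply,
    Finset.sum_apply, lp.single_apply, Pi.single_apply]
  rw [sum_eq_single e (fun b _ hb => by simp [hb.symm]) (by simp)]
  simp

theorem sum_le_sq (ξ : HH) (s : Finset II) : ∑ x ∈ s, ‖ξ x‖ ^ 2 ≤ ‖ξ‖ ^ 2 := by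
  simpa using lp.sum_rpow_le_norm_rpow (p := 2) (by simp) ξ s

theorem Φ_ham (n : ℕ) (u u' : L n × Λ n) :
    (#{e | (u'.2 - u.2) e ≠ 0} : ℝ) ≤ ‖Φ ⟨n, u⟩ - Φ ⟨n, u'⟩‖ ^ 2 := by
  refine le_trans (le_of_eq ?_) (sum_le_sq _ (({e | (u'.2 - u.2) e ≠ 0} : Finset _).map
      ⟨fun e => Sum.inr ⟨n, (e, u.2 e)⟩, fun a b h => by simp at h; exact h.1⟩))
  rw [card_eq_sum_ones, sum_map]
  push_cast
  refine sum_congr rfl fun e he => ?_
  have h1 : u.2 e ≠ u'.2 e := fun h => by simp [h] at he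
  show 1 = ‖Φ ⟨n, u⟩ (Sum.inr ⟨n, (e, u.2 e)⟩) - Φ ⟨n, u'⟩ (Sum.inr ⟨n, (e, u.2 e)⟩)‖ ^ 2
  rw [Φ_inr, Φ_inr]
  simp [h1]

theorem κ_eq {n : ℕ} {u u' : L n × Λ n} (h : κ ⟨n, u⟩ = κ ⟨n, u'⟩) :
    bd (lv n).σ (u'.2 - u.2) = Pi.single u'.1 1 - Pi.single u.1 1 ∧
      ∀ e, (u'.2 - u.2) e ≠ 0 → e.2 ∉ (lv n).B ∧ (lv n).σ e.1 e.2 ∉ (lv n).B := by
  have h1 := sigma_mk_injective (β := fun n => (L n → ZMod 3) × Λ n) h
  simp only [Prod.mk.injEq] at h1
  refine ⟨?_, fun e he => ?_⟩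
  · rw [map_sub]
    linear_combination -h1.1
  · by_contra h2
    have := congrFun h1.2 e
    simp only [h2, if_false] at this
    simp [this] at he

theorem Φ_inj : Function.Injective Φ := by
  rintro ⟨n, u⟩ ⟨n', u'⟩ h
  have h1 : κ ⟨n, u⟩ = κ ⟨n', u'⟩ := by
    by_contra h1
    have := Φ_cls h1
    rw [h, sub_self, norm_zero] at this
    have : (0 : ℝ) ≤ n := by positivity
    linarith
  obtain rfl : n = n' := congrArg Sigma.fst h1
  have h2 := Φ_ham n u u'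
  rw [h, sub_self, norm_zero] at h2
  have h3 : #{e | (u'.2 - u.2) e ≠ 0} = 0 := by
    exact_mod_cast le_antisymm (by simpa using h2) (by positivity)
  have h4 : u'.2 - u.2 = 0 := by
    ext e
    simpa using filter_eq_empty_iff.mp (card_eq_zero.mp h3) (mem_univ e)
  have h5 := congrFun (κ_eq h1).1 u.1
  rw [h4] at h5
  refine congrArg _ (Prod.ext ?_ (sub_eq_zero.mp h4).symm)
  by_contra h6
  simp [h6] at h5

/-- metric on the base -/
@[reducible] noncomputable def mY : MetricSpace YY := MetricSpace.induced Φ Φ_inj inferInstance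

/-- the covering map -/
def pr (x : XX) : YY := ⟨x.1, x.2.1⟩

theorem Φ_edge0 (n : ℕ) (j : J) (z : L n) (μ : Λ n) (h1 : z ∉ (lv n).B)
    (h2 : (lv n).σ j z ∉ (lv n).B) :
    ‖Φ ⟨n, ((lv n).σ j z, μ + Pi.single (j, z) 1)⟩ - Φ ⟨n, (z, μ)⟩‖ ≤ 2 := by
  classical
  have e1 : κ ⟨n, ((lv n).σ j z, μ + Pi.single (j, z) 1)⟩ = κ ⟨n, (z, μ)⟩ := by
    simp only [κ]
    refine congrArg (Sigma.mk n) (Prod.ext ?_ (funext fun e => ?_))
    · simp only [map_add, bd_single]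
      abel
    · simp only
      split_ifs with h
      · rfl
      · have : e ≠ (j, z) := by
          rintro rfl
          exact h ⟨h1, h2⟩
        simp [this]
  simp only [Φ, e1]
  rw [add_sub_add_left_eq_sub, ← sum_sub_distrib,
    sum_eq_single (j, z) (fun b _ hb => by simp [hb]) (by simp)]
  refine (norm_sub_le _ _).trans ?_
  rw [lp.norm_single (by simp), lp.norm_single (by simp)]
  norm_num

theorem Φ_edge (j : J) (x : XX) (h1 : gd x) (h2 : gd (ρ j x)) :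
    ‖Φ (pr (ρ j x)) - Φ (pr x)‖ ≤ 2 := Φ_edge0 x.1 j x.2.1.1 x.2.1.2 h1 h2

theorem Φ_walk {x x' : XX} (p : (Gr ρ gd).Walk x x') :
    ‖Φ (pr x) - Φ (pr x')‖ ≤ 2 * p.length := by
  induction p with
  | nil => simp
  | @cons x y x' h p ih =>
    have h1 : ‖Φ (pr x) - Φ (pr y)‖ ≤ 2 := by
      obtain ⟨-, h1, h2, j, rfl | rfl⟩ := h
      · rw [norm_sub_rev]
        exact Φ_edge j x h1 h2
      · exact Φ_edge j y h2 h1
    have := norm_sub_le_norm_sub_add_norm_sub (Φ (pr x)) (Φ (pr y)) (Φ (pr x'))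
    rw [SimpleGraph.Walk.length_cons]
    push_cast
    linarith

theorem lev_fin {β : ℕ → Type} [∀ n, Finite (β n)] (n : ℕ) :
    {y : Σ n, β n | y.1 < n}.Finite :=
  ((Set.finite_Iio n).biUnion fun i _ => Set.finite_range (Sigma.mk i)).subset
    fun y hy => Set.mem_biUnion (show y.1 ∈ Set.Iio n from hy) ⟨y.2, rfl⟩

theorem ulf_Y (r : ℝ) : ∃ N : ℕ, ∀ y : YY, {y' | ‖Φ y' - Φ y‖ ≤ r}.encard ≤ N := by
  classical
  obtain ⟨R, hR1, hR2⟩ : ∃ R : ℕ, r ≤ R ∧ r ^ 2 ≤ R :=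
    ⟨⌈max r (r ^ 2)⌉₊, (le_max_left _ _).trans (Nat.le_ceil _),
      (le_max_right _ _).trans (Nat.le_ceil _)⟩
  refine ⟨#(lev_fin (β := fun n => L n × Λ n) R).toFinset + 81 ^ R, ?_⟩
  rintro ⟨n, u⟩
  by_cases hn : n < R
  · refine le_trans (Set.encard_le_encard (t := (lev_fin (β := fun n => L n × Λ n) R).toFinset)
      fun y' hy' => ?_) ?_
    · simp only [Set.Finite.coe_toFinset, Set.mem_ofPred_eq]
      by_cases h : κ y' = κ ⟨n, u⟩
      · exact (show y'.1 = n from congrArg Sigma.fst h) ▸ hn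
      · have : (y'.1 : ℝ) < R := by linarith [Φ_cls h, show ‖_‖ ≤ r from hy']
        exact_mod_cast this
    · rw [Set.encard_coe_eq_coe_finsetCard]
      exact_mod_cast Nat.le_add_right _ _
  have key : ∀ y', ‖Φ y' - Φ ⟨n, u⟩‖ ≤ r → ∃ u', y' = ⟨n, u'⟩ ∧ κ ⟨n, u⟩ = κ ⟨n, u'⟩ ∧
      #{e | (u'.2 - u.2) e ≠ 0} ≤ R := by
    rintro ⟨n', u'⟩ h
    rw [norm_sub_rev] at h
    have h1 : κ ⟨n, u⟩ = κ ⟨n', u'⟩ := by
      by_contra h1
      have : (n : ℝ) < R := by linarith [Φ_cls h1]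
      exact hn (by exact_mod_cast this)
    obtain rfl : n = n' := congrArg Sigma.fst h1
    refine ⟨u', rfl, h1, ?_⟩
    exact_mod_cast (Φ_ham n u u').trans ((pow_le_pow_left₀ (norm_nonneg _) h 2).trans hR2)
  refine le_trans (Set.encard_le_encard_of_injOn (f := fun y' : YY => (y'.2.1 : ℕ))
    (t := (((nb (lv n).σ)^[R] {u.1}).image Fin.val : Finset ℕ)) (fun y' hy' => ?_)
    fun a ha b hb h => ?_) ?_
  · obtain ⟨u', rfl, h1, h2⟩ := key y' hy'
    refine mem_image_of_mem _ ?_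
    by_cases h3 : u'.1 = u.1
    · exact sub_nb _ _ _ (by simp [h3])
    · obtain ⟨v, a1, a2, a3⟩ := near (lv n).σ R _ {u.1} h2 (by
        simp [(κ_eq h1).1, h3])
      rw [(κ_eq h1).1] at a3
      by_contra h4
      have : v ≠ u'.1 := fun h => h4 (h ▸ a2)
      simp [this, notMem_singleton.mp a1] at a3
  · obtain ⟨a, rfl, a1, a2⟩ := key a ha
    obtain ⟨b, rfl, b1, b2⟩ := key b hb
    have h1 : a.1 = b.1 := Fin.ext h
    have h2 := κ_eq (a1.symm.trans b1)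
    have h3 : #{e | (b.2 - a.2) e ≠ 0} ≤ R + R := by
      refine le_trans (card_le_card fun e he => ?_) ((card_union_le _ _).trans (add_le_add a2 b2))
      by_contra h4
      simp only [mem_union, mem_filter, mem_univ, true_and, not_or, not_not, Pi.sub_apply,
        sub_eq_zero, ne_eq] at h4 he
      exact he (h4.2.trans h4.1.symm)
    have h4 := cyc_zero _ (lv n).hD _ h2.2 (le_trans (Nat.mul_le_mul_left 2 h3) (by omega))
      (by rw [h2.1, h1, sub_self])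
    exact congrArg _ (Prod.ext h1 (sub_eq_zero.mp h4).symm)
  · rw [Set.encard_coe_eq_coe_finsetCard]
    exact_mod_cast card_image_le.trans ((card_nb _ _ _).trans (by simp))

end Pool.Agent.H86.Cov
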