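import Mathlib

set_option autoImplicit false
set_option linter.unusedSectionVars false

namespace Pool.Agent.H86.Crz

open Matrix Finset
open scoped Matrix.Norms.L2Operator Kronecker InnerProductSpace

theorem kraus_abs {E F J : Type} [NormedAddCommGroup E] [InnerProductSpace ℂ E]
    [FiniteDimensional ℂ E] [NormedAddCommGroup F] [InnerProductSpace ℂ F] [FiniteDimensional ℂ F]
    [Fintype J] (w : J → ℝ) (hw : ∀ j, 0 ≤ w j) (P Q : J → F →ₗ[ℂ] E)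
    (hP : ∀ u, ∑ j, w j * ‖P j u‖ ^ 2 = ‖u‖ ^ 2) (hQ : ∀ u, ∑ j, w j * ‖Q j u‖ ^ 2 = ‖u‖ ^ 2)
    (T : E →ₗ[ℂ] E) (c : ℝ) (hc : 0 ≤ c) (hT : ∀ x, ‖T x‖ ≤ c * ‖x‖) (u : F) :
    ‖∑ j, (w j : ℂ) • (P j).adjoint (T (Q j u))‖ ≤ c * ‖u‖ := by
  set y := ∑ j, (w j : ℂ) • (P j).adjoint (T (Q j u)) with hy
  have h1 : ‖y‖ ^ 2 ≤ c * ∑ j, w j * (‖P j y‖ * ‖Q j u‖) := by
    have : ((‖y‖ ^ 2 : ℝ) : ℂ) = ∑ j, (w j : ℂ) * ⟪P j y, T (Q j u)⟫_ℂ := by
      rw [Complex.ofReal_pow, ← Complex.coe_algebraMap, ← inner_self_eq_norm_sq_to_K (𝕜 := ℂ) y]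
      conv_lhs => rhs; rw [hy]
      simp only [inner_sum, inner_smul_right, LinearMap.adjoint_inner_right,
        Complex.coe_algebraMap]
    have h2 := congrArg (fun z : ℂ => ‖z‖) this
    simp only [Complex.norm_real, Real.norm_eq_abs, abs_of_nonneg (sq_nonneg ‖y‖)] at h2
    rw [h2, mul_sum]
    refine (norm_sum_le _ _).trans (sum_le_sum fun j _ => ?_)
    rw [norm_mul, Complex.norm_real, Real.norm_eq_abs, abs_of_nonneg (hw j)]
    have h3 := norm_inner_le_norm (𝕜 := ℂ) (P j y) (T (Q j u))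
    have h4 := mul_le_mul_of_nonneg_left (hT (Q j u)) (norm_nonneg (P j y))
    have h5 := mul_le_mul_of_nonneg_left (h3.trans h4) (hw j)
    linarith
  have h6 : (∑ j, w j * (‖P j y‖ * ‖Q j u‖)) ^ 2 ≤ (‖y‖ * ‖u‖) ^ 2 := by
    rw [mul_pow, ← hP y, ← hQ u]
    refine sum_sq_le_sum_mul_sum_of_sq_le_mul _ (fun j _ => ?_) (fun j _ => ?_) fun j _ =>
      le_of_eq (by ring)
    · have := hw j; positivity
    · have := hw j; positivity
  have h7 := (abs_le_of_sq_le_sq' h6 (by positivity)).2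
  have h8 : ‖y‖ * ‖y‖ ≤ ‖y‖ * (c * ‖u‖) := by nlinarith [mul_le_mul_of_nonneg_left h7 hc]
  rcases (norm_nonneg y).eq_or_lt with h | h
  · rw [← h]; positivity
  · exact le_of_mul_le_mul_left h8 h

variable {a b J : Type} [Fintype a] [DecidableEq a] [Fintype b] [DecidableEq b] [Fintype J]

theorem norm_le_of (X : Matrix a a ℂ) (c : ℝ) (hc : 0 ≤ c)
    (h : ∀ u, ‖toEuclideanLin X u‖ ≤ c * ‖u‖) : ‖X‖ ≤ c := by
  rw [cstar_norm_def]
  exact ContinuousLinearMap.opNorm_le_bound _ hc h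

theorem lin_le (X : Matrix a a ℂ) (u : EuclideanSpace ℂ a) :
    ‖toEuclideanLin X u‖ ≤ ‖X‖ * ‖u‖ := by
  rw [cstar_norm_def]
  exact (toEuclideanCLM (n := a) (𝕜 := ℂ) X).le_opNorm u

theorem lin_mul {c : Type} [Fintype c] [DecidableEq c] (X : Matrix a b ℂ) (Y : Matrix b c ℂ)
    (u : EuclideanSpace ℂ c) :
    toEuclideanLin (X * Y) u = toEuclideanLin X (toEuclideanLin Y u) := by
  simp only [toLpLin_apply, mulVec_mulVec]

theorem iso_sum (w : J → ℝ) (P : J → Matrix a b ℂ)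
    (hP : ∑ j, (w j : ℂ) • (P j * (P j)ᴴ) = 1) (u : EuclideanSpace ℂ a) :
    ∑ j, w j * ‖toEuclideanLin (P j)ᴴ u‖ ^ 2 = ‖u‖ ^ 2 := by
  apply Complex.ofReal_injective
  have h : ∀ j, ((‖toEuclideanLin (P j)ᴴ u‖ : ℂ)) ^ 2
      = ⟪u, toEuclideanLin (P j * (P j)ᴴ) u⟫_ℂ := fun j => by
    rw [lin_mul, ← LinearMap.adjoint_inner_left, ← toEuclideanLin_conjTranspose_eq_adjoint,
      inner_self_eq_norm_sq_to_K]
    rfl
  have h1 : toEuclideanLin (1 : Matrix a a ℂ) u = u := by simp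
  push_cast
  simp only [h]
  rw [← Complex.coe_algebraMap, ← inner_self_eq_norm_sq_to_K (𝕜 := ℂ) u]
  conv_rhs => rhs; rw [← h1, ← hP]
  simp only [map_sum, map_smul, LinearMap.sum_apply, LinearMap.smul_apply, inner_sum,
    inner_smul_right, Complex.coe_algebraMap]

theorem kraus_mat (w : J → ℝ) (hw : ∀ j, 0 ≤ w j) (P Q : J → Matrix a b ℂ)
    (hP : ∑ j, (w j : ℂ) • (P j * (P j)ᴴ) = 1) (hQ : ∑ j, (w j : ℂ) • (Q j * (Q j)ᴴ) = 1)
    (X : Matrix b b ℂ) : ‖∑ j, (w j : ℂ) • (P j * X * (Q j)ᴴ)‖ ≤ ‖X‖ := by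
  refine norm_le_of _ _ (norm_nonneg _) fun u => ?_
  have := kraus_abs w hw (fun j => toEuclideanLin (P j)ᴴ) (fun j => toEuclideanLin (Q j)ᴴ)
    (iso_sum w P hP) (iso_sum w Q hQ) (toEuclideanLin X) _ (norm_nonneg X) (lin_le X) u
  simp only [← toEuclideanLin_conjTranspose_eq_adjoint, conjTranspose_conjTranspose] at this
  simpa only [map_sum, map_smul, LinearMap.sum_apply, LinearMap.smul_apply, lin_mul] using this

theorem norm_conj (X : Matrix a a ℂ) : ‖X.map (starRingEnd ℂ)‖ ≤ ‖X‖ := by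
  have hs : ∀ v : a → ℂ, ‖(WithLp.toLp 2 (star v) : EuclideanSpace ℂ a)‖
      = ‖(WithLp.toLp 2 v : EuclideanSpace ℂ a)‖ := fun v => by
    simp [EuclideanSpace.norm_eq]
  refine norm_le_of _ _ (norm_nonneg _) fun u => ?_
  have h1 : X.map (starRingEnd ℂ) *ᵥ u.ofLp = star (X *ᵥ star u.ofLp) := by
    ext i
    simp [mulVec, dotProduct]
  have := lin_le X (WithLp.toLp 2 (star u.ofLp))
  rw [hs] at this
  rw [toLpLin_apply, h1, hs]
  exact this

/-- block matrix -/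
def bk {m d : Type} (x : m → m → Matrix d d ℂ) : Matrix (m × d) (m × d) ℂ :=
  fun p q => x p.1 q.1 p.2 q.2

/-- cast of a rational matrix -/
noncomputable def cq {c d : Type} (X : Matrix c d ℚ) : Matrix c d ℂ := X.map (Rat.castHom ℂ)

/-- the map with given rational Kraus data -/
noncomputable def KR (w : J → ℚ) (P Q : J → Matrix a b ℚ) : Matrix b b ℂ →ₗ[ℂ] Matrix a a ℂ where
  toFun X := ∑ j, (w j : ℂ) • (cq (P j) * X * cq (Q j)ᵀ)
  map_add' X Y := by simp only [Matrix.mul_add, Matrix.add_mul, smul_add, sum_add_distrib]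
  map_smul' s X := by
    simp only [Matrix.mul_smul, Matrix.smul_mul, RingHom.id_apply, smul_sum, smul_comm s]

theorem cq_sum {c d : Type} (w : J → ℚ) (Y : J → Matrix c d ℚ) :
    cq (∑ j, w j • Y j) = ∑ j, (w j : ℂ) • cq (Y j) := by
  ext p q
  simp [cq, Matrix.sum_apply]

theorem cq_mul {c d : Type} (X : Matrix c a ℚ) (Y : Matrix a d ℚ) : cq (X * Y) = cq X * cq Y :=
  Matrix.map_mul

theorem KR_cq (w : J → ℚ) (P Q : J → Matrix a b ℚ) (X : Matrix b b ℚ) :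
    KR w P Q (cq X) = cq (∑ j, w j • (P j * X * (Q j)ᵀ)) := by
  simp only [cq_sum, cq_mul]
  rfl

theorem cq_H {c d : Type} (X : Matrix c d ℚ) : (cq X)ᴴ = cq Xᵀ := by
  ext p q
  simp [cq]

theorem KR_cb (w : J → ℚ) (hw : ∀ j, 0 ≤ w j) (P Q : J → Matrix a b ℚ)
    (hP : ∑ j, w j • (P j * (P j)ᵀ) = 1) (hQ : ∑ j, w j • (Q j * (Q j)ᵀ) = 1)
    {m : Type} [Fintype m] [DecidableEq m] (x : m → m → Matrix b b ℂ) :
    ‖bk fun p q => KR w P Q (x p q)‖ ≤ ‖bk x‖ := by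
  have h : ∀ P : J → Matrix a b ℚ, ∑ j, w j • (P j * (P j)ᵀ) = 1 →
      ∑ j, (((w j : ℝ) : ℂ)) • (((1 : Matrix m m ℂ) ⊗ₖ cq (P j)) *
        ((1 : Matrix m m ℂ) ⊗ₖ cq (P j))ᴴ) = 1 := fun P hP => by
    have h1 := congrArg cq hP
    rw [cq_sum, show cq (1 : Matrix a a ℚ) = 1 from Matrix.map_one _ (map_zero _) (map_one _)] at h1
    simp only [conjTranspose_kronecker, ← mul_kronecker_mul, conjTranspose_one, mul_one, cq_H,
      ← cq_mul, Complex.ofReal_ratCast]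
    rw [← one_kronecker_one, ← h1]
    ext p q
    simp only [Matrix.sum_apply, Matrix.smul_apply, kroneckerMap_apply, smul_eq_mul, mul_sum]
    exact sum_congr rfl fun j _ => by ring
  refine le_of_eq_of_le ?_ (kraus_mat (fun j => (w j : ℝ)) (fun j => by exact_mod_cast hw j) _ _
    (h P hP) (h Q hQ) (bk x))
  congr 1
  ext ⟨p, k⟩ ⟨q, l⟩
  simp [bk, KR, Matrix.sum_apply, Matrix.mul_apply, Fintype.sum_prod_type, one_apply, cq,
    apply_ite (starRingEnd ℂ)]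

theorem norm_diag (X : Matrix a a ℂ) (v : a → ℂ) (h : Xᴴ * X = diagonal v) :
    ‖X‖ * ‖X‖ = ‖v‖ := by
  rw [← l2_opNorm_conjTranspose_mul_self, h, l2_opNorm_diagonal]

end Pool.Agent.H86.Crz
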