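import Pool.Agent.H86.CrzA

set_option autoImplicit false

namespace Pool.Agent.H86.Crz

open Matrix Finset
open scoped Matrix.Norms.L2Operator

/-- Kraus data -/
def dL : Fin 32 → ℚ × Fin 4 × Fin 4 × Fin 4 × Fin 4 × ℚ := ![
  (772341232391/6367197600000, 0, 0, 0, 0, 0),
  (78997/800000, 0, 0, 2, 1, -1),
  (119200801/3979498500, 0, 0, 1, 2, 1),
  (104963/800000, 1, 0, 1, 0, 0),
  (401/20000, 1, 0, 0, 1, -1),
  (78997/800000, 1, 0, 3, 1, 1),
  (31835395163/159179940000, 2, 0, 2, 0, 0),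
  (401/20000, 2, 0, 0, 2, 1),
  (119200801/3979498500, 2, 0, 3, 2, 1),
  (2099/10000, 3, 0, 3, 0, 0),
  (401/20000, 3, 0, 2, 1, -1),
  (401/20000, 3, 0, 1, 2, -1),
  (31835395163/159179940000, 0, 1, 0, 1, 0),
  (119200801/3979498500, 0, 1, 1, 3, -1),
  (1/4, 1, 1, 1, 1, 0),
  (517016608631/6367197600000, 2, 1, 2, 1, 0),
  (401/20000, 2, 1, 0, 3, -1),
  (119200801/3979498500, 2, 1, 3, 3, -1),
  (104963/800000, 3, 1, 3, 1, 0),
  (401/20000, 3, 1, 1, 3, 1),
  (104963/800000, 0, 2, 0, 2, 0),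
  (78997/800000, 0, 2, 2, 3, -1),
  (517016608631/6367197600000, 1, 2, 1, 2, 0),
  (401/20000, 1, 2, 0, 3, -1),
  (78997/800000, 1, 2, 3, 3, 1),
  (1/4, 2, 2, 2, 2, 0),
  (31835395163/159179940000, 3, 2, 3, 2, 0),
  (401/20000, 3, 2, 2, 3, -1),
  (2099/10000, 0, 3, 0, 3, 0),
  (31835395163/159179940000, 1, 3, 1, 3, 0),
  (104963/800000, 2, 3, 2, 3, 0),
  (772341232391/6367197600000, 3, 3, 3, 3, 0)]

/-- Kraus data -/
def dA : Fin 32 → ℚ × Fin 4 × Fin 4 × Fin 4 × Fin 4 × ℚ := ![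
  (2099/10000, 0, 0, 0, 0, 0),
  (401/20000, 0, 0, 1, 1, -1),
  (401/20000, 0, 0, 2, 2, 1),
  (31835395163/159179940000, 1, 0, 1, 0, 0),
  (119200801/3979498500, 1, 0, 0, 2, 1),
  (401/20000, 1, 0, 3, 2, -1),
  (104963/800000, 2, 0, 2, 0, 0),
  (78997/800000, 2, 0, 0, 1, -1),
  (401/20000, 2, 0, 3, 1, -1),
  (772341232391/6367197600000, 3, 0, 3, 0, 0),
  (78997/800000, 3, 0, 1, 1, 1),
  (119200801/3979498500, 3, 0, 2, 2, 1),
  (104963/800000, 0, 1, 0, 1, 0),
  (401/20000, 0, 1, 2, 3, -1),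
  (517016608631/6367197600000, 1, 1, 1, 1, 0),
  (119200801/3979498500, 1, 1, 0, 3, -1),
  (401/20000, 1, 1, 3, 3, 1),
  (1/4, 2, 1, 2, 1, 0),
  (31835395163/159179940000, 3, 1, 3, 1, 0),
  (119200801/3979498500, 3, 1, 2, 3, -1),
  (31835395163/159179940000, 0, 2, 0, 2, 0),
  (401/20000, 0, 2, 1, 3, -1),
  (1/4, 1, 2, 1, 2, 0),
  (517016608631/6367197600000, 2, 2, 2, 2, 0),
  (78997/800000, 2, 2, 0, 3, -1),
  (401/20000, 2, 2, 3, 3, -1),
  (104963/800000, 3, 2, 3, 2, 0),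
  (78997/800000, 3, 2, 1, 3, 1),
  (772341232391/6367197600000, 0, 3, 0, 3, 0),
  (104963/800000, 1, 3, 1, 3, 0),
  (31835395163/159179940000, 2, 3, 2, 3, 0),
  (2099/10000, 3, 3, 3, 3, 0)]

/-- Kraus matrix with at most two entries -/
def kv (t : ℚ × Fin 4 × Fin 4 × Fin 4 × Fin 4 × ℚ) : Matrix (Fin 4) (Fin 4) ℚ := fun k i =>
  (if k = t.2.1 ∧ i = t.2.2.1 then 1 else 0) +
    (if k = t.2.2.2.1 ∧ i = t.2.2.2.2.1 then t.2.2.2.2.2 else 0)

/-- the twisted representation, over any field -/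
def rh {R : Type} [Field R] (m : Matrix (Fin 2) (Fin 2) R) : Matrix (Fin 4) (Fin 4) R :=
  !![m 0 0, m 0 1, 0, 0; m 1 0, m 1 1, 0, 0;
    197 / 40 * m 0 1, 0, m 0 0, m 0 1;
    197 / 40 * (m 1 1 - m 0 0), -(197 / 40 * m 0 1), m 1 0, m 1 1]

/-- the linear part of the antilinear map -/
def ga {R : Type} [Field R] (m : Matrix (Fin 2) (Fin 2) R) : Matrix (Fin 2) (Fin 2) R :=
  !![(m 0 0 + m 1 1) / 2, -(401 / 10000) * m 1 0; 10300 / 40401 * m 0 1, (m 0 0 + m 1 1) / 2]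

/-- the similarity -/
def th {R : Type} [Field R] (m : Matrix (Fin 2) (Fin 2) R) : Matrix (Fin 2) (Fin 2) R :=
  !![m 0 0, 100 / 201 * m 0 1; 201 / 100 * m 1 0, m 1 1]

/-- Kraus matrices of the symmetrised map -/
def PF : Fin 2 → Matrix (Fin 2) (Fin 4) ℚ :=
  ![!![1, 0, 0, 1 / 10; 0, 1, 0, 0], !![0, 0, 1, 0; -(1 / 10), 0, 0, 1]]

/-- left Kraus matrices of the homomorphism -/
def PT : Fin 3 → Matrix (Fin 2) (Fin 4) ℚ :=
  ![!![100 / 201, 0, 0, 0; 0, 1, 0, 0], !![1, 0, 0, 0; 0, 0, 0, 0], 0]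

/-- right Kraus matrices of the homomorphism -/
def QT : Fin 3 → Matrix (Fin 2) (Fin 4) ℚ :=
  ![!![1, 0, 0, 0; 0, 100 / 201, 0, 0], 0, !![0, 0, 0, 0; 1, 0, 0, 0]]

/-- weights for the homomorphism -/
def wT : Fin 3 → ℚ := ![1, 30401 / 40401, 30401 / 40401]

/-- matrix units -/
def eu (a b : Fin 2) : Matrix (Fin 2) (Fin 2) ℚ := fun i j => if i = a ∧ j = b then 1 else 0

theorem rh_exp (m : Matrix (Fin 2) (Fin 2) ℂ) :
    rh m = ∑ a, ∑ b, m a b • cq (rh (eu a b)) := by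
  ext i j
  fin_cases i <;> fin_cases j <;> simp [rh, cq, eu, Fin.sum_univ_two] <;> ring

theorem KR_rh {J k : Type} [Fintype J] [Fintype k] [DecidableEq k] (w : J → ℚ)
    (P Q : J → Matrix k (Fin 4) ℚ) (T : Fin 2 → Fin 2 → Matrix k k ℚ)
    (h : ∀ a b, ∑ j, w j • (P j * rh (eu a b) * (Q j)ᵀ) = T a b) (m : Matrix (Fin 2) (Fin 2) ℂ) :
    KR w P Q (rh m) = ∑ a, ∑ b, m a b • cq (T a b) := by
  rw [rh_exp]
  simp only [map_sum, map_smul, KR_cq, h]

theorem hL (m : Matrix (Fin 2) (Fin 2) ℂ) :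
    KR (fun j => (dL j).1) (fun j => kv (dL j)) (fun j => kv (dL j)) (rh m) = rh (ga m) := by
  rw [KR_rh _ _ _ (fun a b => rh (ga (eu a b))) (by decide +kernel)]
  ext i j
  fin_cases i <;> fin_cases j <;> simp [rh, ga, cq, eu, Fin.sum_univ_two] <;> ring

theorem hA (m : Matrix (Fin 2) (Fin 2) ℂ) :
    KR (fun j => (dA j).1) (fun j => kv (dA j)) (fun j => kv (dA j)) (rh m) = (rh (ga m))ᵀ := by
  rw [KR_rh _ _ _ (fun a b => (rh (ga (eu a b)))ᵀ) (by decide +kernel)]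
  ext i j
  fin_cases i <;> fin_cases j <;> simp [rh, ga, cq, eu, Fin.sum_univ_two] <;> ring

theorem hF (m : Matrix (Fin 2) (Fin 2) ℂ) :
    KR (fun _ => 100 / 201) PF PF (rh m) = (1 / 2 : ℂ) • (th m + (th (ga m))ᵀ) := by
  rw [KR_rh _ _ _ (fun a b => (1 / 2 : ℚ) • (th (eu a b) + (th (ga (eu a b)))ᵀ))
    (by decide +kernel)]
  ext i j
  simp only [Matrix.sum_apply, Matrix.smul_apply, Matrix.add_apply, transpose_apply, cq, map_apply]
  fin_cases i <;> fin_cases j <;> simp [th, ga, eu, Fin.sum_univ_two] <;> ring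

theorem hT (m : Matrix (Fin 2) (Fin 2) ℂ) :
    (201 / 100 : ℂ) • KR wT PT QT (rh m) = th m := by
  rw [KR_rh _ _ _ (fun a b => (100 / 201 : ℚ) • th (eu a b)) (by decide +kernel)]
  ext i j
  fin_cases i <;> fin_cases j <;> simp [th, cq, eu, Fin.sum_univ_two] <;> ring

variable {m : Type} [Fintype m] [DecidableEq m] (x : m → m → Matrix (Fin 2) (Fin 2) ℂ)

theorem cbL : ‖bk fun p q => (rh (ga (x p q))).map (starRingEnd ℂ)‖
    ≤ ‖bk fun p q => rh (x p q)‖ := by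
  have := KR_cb (fun j => (dL j).1) (by decide +kernel) (fun j => kv (dL j)) (fun j => kv (dL j))
    (by decide +kernel) (by decide +kernel) fun p q => rh (x p q)
  simp only [hL] at this
  exact (norm_conj (bk fun p q => rh (ga (x p q)))).trans this

theorem cbA : ‖bk fun p q => (rh (ga (x p q)))ᵀ‖ ≤ ‖bk fun p q => rh (x p q)‖ := by
  have := KR_cb (fun j => (dA j).1) (by decide +kernel) (fun j => kv (dA j)) (fun j => kv (dA j))
    (by decide +kernel) (by decide +kernel) fun p q => rh (x p q)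
  simpa only [hA] using this

theorem cbF : ‖bk fun p q => (1 / 2 : ℂ) • (th (x p q) + (th (ga (x p q)))ᵀ)‖
    ≤ ‖bk fun p q => rh (x p q)‖ := by
  have := KR_cb (fun _ : Fin 2 => (100 / 201 : ℚ)) (fun _ => by norm_num) PF PF
    (by decide +kernel) (by decide +kernel) fun p q => rh (x p q)
  simpa only [hF] using this

theorem cbT : ‖bk fun p q => th (x p q)‖ ≤ 201 / 100 * ‖bk fun p q => rh (x p q)‖ := by
  have := KR_cb wT (by decide +kernel) PT QT
    (by decide +kernel) (by decide +kernel) fun p q => rh (x p q)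
  have e : (bk fun p q => th (x p q))
      = (201 / 100 : ℂ) • bk fun p q => KR wT PT QT (rh (x p q)) := by
    ext p q
    simp only [bk, ← hT, Matrix.smul_apply]
  rw [e, norm_smul]
  have : ‖(201 / 100 : ℂ)‖ = 201 / 100 := by simp
  rw [this]
  gcongr

/-- the representation as an algebra map -/
noncomputable def rhA : Matrix (Fin 2) (Fin 2) ℂ →ₐ[ℂ] Matrix (Fin 4) (Fin 4) ℂ :=
  AlgHom.ofLinearMap
    { toFun := rh
      map_add' := fun a b => by
        ext i j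
        fin_cases i <;> fin_cases j <;> simp [rh] <;> ring
      map_smul' := fun s a => by
        ext i j
        fin_cases i <;> fin_cases j <;> simp [rh] <;> ring }
    (by
      ext i j
      fin_cases i <;> fin_cases j <;> simp [rh])
    fun a b => by
      ext i j
      fin_cases i <;> fin_cases j <;>
        simp [rh, Matrix.mul_apply, Fin.sum_univ_two, Fin.sum_univ_four] <;> ring

/-- the similarity as an algebra map -/
noncomputable def thA : Matrix (Fin 2) (Fin 2) ℂ →ₐ[ℂ] Matrix (Fin 2) (Fin 2) ℂ :=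
  AlgHom.ofLinearMap
    { toFun := th
      map_add' := fun a b => by
        ext i j
        fin_cases i <;> fin_cases j <;> simp [th] <;> ring
      map_smul' := fun s a => by
        ext i j
        fin_cases i <;> fin_cases j <;> simp [th] <;> ring }
    (by
      ext i j
      fin_cases i <;> fin_cases j <;> simp [th])
    fun a b => by
      ext i j
      fin_cases i <;> fin_cases j <;>
        simp [th, Matrix.mul_apply, Fin.sum_univ_two] <;> ring

/-- the antilinear map -/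
noncomputable def alA : Matrix (Fin 2) (Fin 2) ℂ →ₛₗ[starRingEnd ℂ] Matrix (Fin 2) (Fin 2) ℂ where
  toFun a := (ga a).map (starRingEnd ℂ)
  map_add' a b := by
    ext i j
    fin_cases i <;> fin_cases j <;> simp [ga] <;> ring
  map_smul' s a := by
    ext i j
    fin_cases i <;> fin_cases j <;> simp [ga] <;> ring

theorem rhA_inj : Function.Injective rhA := fun a b h => by
  ext i j
  have := congrFun (congrFun h (i.castLE (by norm_num))) (j.castLE (by norm_num))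
  fin_cases i <;> fin_cases j <;> exact this

theorem rh_al (a : Matrix (Fin 2) (Fin 2) ℂ) :
    rhA (alA a) = (rh (ga a)).map (starRingEnd ℂ) := by
  change rh ((ga a).map _) = _
  ext i j
  fin_cases i <;> fin_cases j <;> simp [rh, map_ofNat]

theorem th_al (a : Matrix (Fin 2) (Fin 2) ℂ) : (thA (alA a))ᴴ = (th (ga a))ᵀ := by
  change (th ((ga a).map _))ᴴ = _
  ext i j
  fin_cases i <;> fin_cases j <;> simp [th]

theorem al_one : alA 1 = 1 := by
  change (ga 1).map _ = _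
  ext i j
  fin_cases i <;> fin_cases j <;> simp [ga]

theorem big : 2 * ‖bk fun _ _ : Fin 1 => rh (!![0, 0; 1, 0] : Matrix (Fin 2) (Fin 2) ℂ)‖
    < ‖bk fun _ _ : Fin 1 => th (!![0, 0; 1, 0] : Matrix (Fin 2) (Fin 2) ℂ)‖ := by
  have h1 := norm_diag (bk fun _ _ : Fin 1 => rh (!![0, 0; 1, 0] : Matrix (Fin 2) (Fin 2) ℂ))
    (fun p => ![1, 0, 1, 0] p.2) (by
      ext ⟨p, i⟩ ⟨q, j⟩
      fin_cases p; fin_cases q
      fin_cases i <;> fin_cases j <;>
        simp [bk, rh, Matrix.mul_apply, Fintype.sum_prod_type, Fin.sum_univ_four])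
  have h2 := norm_diag (bk fun _ _ : Fin 1 => th (!![0, 0; 1, 0] : Matrix (Fin 2) (Fin 2) ℂ))
    (fun p => ![40401 / 10000, 0] p.2) (by
      ext ⟨p, i⟩ ⟨q, j⟩
      fin_cases p; fin_cases q
      fin_cases i <;> fin_cases j <;>
        simp [bk, th, Matrix.mul_apply, Fintype.sum_prod_type, Fin.sum_univ_two, map_ofNat]
      norm_num)
  have h3 : ‖fun p : Fin 1 × Fin 4 => (![1, 0, 1, 0] p.2 : ℂ)‖ ≤ 1 :=
    (pi_norm_le_iff_of_nonneg zero_le_one).mpr fun ⟨_, i⟩ => by fin_cases i <;> simp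
  have h4 := norm_le_pi_norm (fun p : Fin 1 × Fin 2 => (![40401 / 10000, 0] p.2 : ℂ)) (0, 0)
  have h5 : ‖(40401 / 10000 : ℂ)‖ = 40401 / 10000 := by simp
  simp only [cons_val_zero, h5] at h4
  refine lt_of_not_ge fun h => ?_
  nlinarith [mul_self_le_mul_self (norm_nonneg _) h]

end Pool.Agent.H86.Crz
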