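import Mathlib

set_option autoImplicit false
set_option linter.unusedSectionVars false

namespace Pool.Agent.H86.Cun

open Filter Topology
open scoped ComplexOrder ComplexConjugate

theorem ulim {B J : Type*} [NormedAddCommGroup B] [NormedSpace ℂ B] (U : Ultrafilter J)
    (f : J → B →L[ℂ] ℂ) (hf : ∀ j, ‖f j‖ ≤ 1) :
    ∃ g : B →L[ℂ] ℂ, ‖g‖ ≤ 1 ∧ ∀ y, Tendsto (fun j => f j y) U (𝓝 (g y)) := by
  obtain ⟨g, hg, h⟩ := (WeakDual.isCompact_closedBall (𝕜 := ℂ) (E := B) 0 1).ultrafilter_le_nhds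
    (U.map fun j => StrongDual.toWeakDual (f j)) (by
      rw [le_principal_iff, Ultrafilter.coe_map, mem_map]
      exact univ_mem' fun j => by simpa using hf j)
  exact ⟨WeakDual.toStrongDual g, by simpa using hg, fun y =>
    ((WeakDual.eval_continuous y).tendsto g).comp h⟩

theorem ev_all {J : Type*} {p : ℕ → J → Prop} (h : ∀ n, ∀ᶠ j in cocountable, p n j) :
    ∀ᶠ j in cocountable, ∀ n, p n j :=
  mem_cocountable.mpr ((Set.countable_iUnion fun n => mem_cocountable.mp (h n)).mono fun j hj => by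
    simpa using hj)

section Pos

variable {A : Type*} [NonUnitalRing A] [StarRing A] [Module ℂ A] [IsScalarTower ℂ A A]
  [SMulCommClass ℂ A A] [StarModule ℂ A]

/-- positive functional -/
def Pos (f : A →ₗ[ℂ] ℂ) : Prop := ∀ x, 0 ≤ f (star x * x)

theorem Pos.exp {f : A →ₗ[ℂ] ℂ} (hf : Pos f) (a b : A) (t : ℂ) :
    0 ≤ f (star a * a) + t * f (star a * b) + conj t * f (star b * a)
      + conj t * t * f (star b * b) := by
  have := hf (a + t • b)
  simp only [star_add, star_smul, add_mul, mul_add, smul_mul_assoc, mul_smul_comm, map_add,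
    map_smul, smul_eq_mul, RCLike.star_def] at this
  convert this using 1
  ring

theorem Pos.herm {f : A →ₗ[ℂ] ℂ} (hf : Pos f) (a b : A) :
    f (star b * a) = conj (f (star a * b)) := by
  have h1 := (Complex.nonneg_iff.mp (hf.exp a b 1)).2
  have h2 := (Complex.nonneg_iff.mp (hf.exp a b Complex.I)).2
  have h3 := (Complex.nonneg_iff.mp (hf a)).2
  have h4 := (Complex.nonneg_iff.mp (hf b)).2
  apply Complex.ext <;> simp at h1 h2 ⊢ <;> linarith

theorem Pos.null {f : A →ₗ[ℂ] ℂ} (hf : Pos f) {a : A} (ha : f (star a * a) = 0) (b : A) :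
    f (star a * b) = 0 := by
  set w := f (star a * b) with hw
  obtain ⟨h3, h4⟩ := Complex.nonneg_iff.mp (hf b)
  set c := (f (star b * b)).re
  have h1 := (Complex.nonneg_iff.mp (hf.exp a b (-(((1 / (c + 1) : ℝ) : ℂ) * conj w)))).1
  rw [ha, hf.herm a b, ← hw] at h1
  set e : ℝ := 1 / (c + 1) with he
  have he0 : 0 < e := by positivity
  have he1 : e * c < 1 := by rw [he, div_mul_eq_mul_div, div_lt_one (by positivity)]; linarith
  simp only [zero_add, Complex.add_re, Complex.mul_re, Complex.neg_re, Complex.ofReal_re,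
    Complex.conj_re, Complex.ofReal_im, Complex.conj_im, Complex.neg_im, Complex.mul_im, ← h4]
    at h1
  have h5 : w.re ^ 2 + w.im ^ 2 ≤ 0 := by
    by_contra h
    have h6 := mul_pos (mul_pos he0 (not_le.mp h)) (show 0 < 2 - e * c by linarith)
    nlinarith
  apply Complex.ext <;> simp <;> nlinarith [sq_nonneg w.re, sq_nonneg w.im]

theorem Pos.null' {f : A →ₗ[ℂ] ℂ} (hf : Pos f) {a : A} (ha : f (star a * a) = 0) (b : A) :
    f (b * a) = 0 := by
  have := hf.herm a (star b)
  rwa [hf.null ha, map_zero, star_star] at this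

end Pos

theorem eq_one_of {z : ℂ} (h : ‖z‖ ≤ 1) (h1 : 1 ≤ z.re) : z = 1 := by
  have h2 : z.re ^ 2 + z.im ^ 2 ≤ 1 := by
    have := Complex.sq_norm z
    rw [Complex.normSq_apply] at this
    nlinarith [norm_nonneg z]
  apply Complex.ext <;> simp <;> nlinarith [sq_nonneg z.im]

variable {A κ : Type} [CStarAlgebra A] [DecidableEq κ] (S : κ → A)

/-- a word in the isometries -/
def wd (μ : List κ) : A := (μ.map S).prod

@[simp] theorem wd_nil : wd S [] = 1 := rfl

@[simp] theorem wd_cons (i : κ) (μ : List κ) : wd S (i :: μ) = S i * wd S μ := by simp [wd]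

theorem wd_snoc (i : κ) (μ : List κ) : wd S (μ ++ [i]) = wd S μ * S i := by simp [wd]

/-- Cuntz relations and generation -/
structure Cu : Prop where
  rel : ∀ i j, star (S i) * S j = if i = j then 1 else 0
  gen : ∀ V : Submodule ℂ A, IsClosed (V : Set A) →
    (∀ i, ∀ y ∈ V, S i * y ∈ V ∧ star (S i) * y ∈ V) → ∀ x, ∀ y ∈ V, x * y ∈ V

variable {S}

theorem Cu.ind (h : Cu S) (V : Submodule ℂ A) (hV : IsClosed (V : Set A))
    (h1 : ∀ μ ν, wd S μ * star (wd S ν) ∈ V) (x : A) : x ∈ V := by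
  let W := Submodule.span ℂ (Set.range fun p : List κ × List κ => wd S p.1 * star (wd S p.2))
  have hW : ∀ μ ν, wd S μ * star (wd S ν) ∈ W := fun μ ν => Submodule.subset_span ⟨(μ, ν), rfl⟩
  have h2 : ∀ a : A, (∀ μ ν, a * (wd S μ * star (wd S ν)) ∈ W) →
      ∀ y ∈ W.topologicalClosure, a * y ∈ W.topologicalClosure := fun a ha y hy => by
    refine map_mem_closure (f := fun y => a * y) (by fun_prop) hy fun z hz => ?_
    exact (show W ≤ W.comap (LinearMap.mulLeft ℂ a) from
      Submodule.span_le.mpr (by rintro _ ⟨p, rfl⟩; exact ha _ _)) hz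
  have h3 := h.gen W.topologicalClosure W.isClosed_topologicalClosure (fun i y hy =>
    ⟨h2 _ (fun μ ν => by simpa [mul_assoc] using hW (i :: μ) ν) y hy, h2 _ (fun μ ν => by
      rcases μ with _ | ⟨k, μ⟩
      · simpa [wd_snoc] using hW [] (ν ++ [i])
      · rw [wd_cons, mul_assoc, ← mul_assoc, h.rel]
        split_ifs
        · simpa using hW μ ν
        · simp) y hy⟩) x 1 (W.le_topologicalClosure (by simpa using hW [] []))
  rw [mul_one] at h3
  exact W.topologicalClosure_minimal (Submodule.span_le.mpr (by rintro _ ⟨p, rfl⟩; exact h1 _ _))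
    hV h3

theorem Cu.ext (h : Cu S) {f g : A →ₗ[ℂ] ℂ} (hf : ∀ x, ‖f x‖ ≤ ‖x‖) (hg : ∀ x, ‖g x‖ ≤ ‖x‖)
    (h1 : ∀ μ ν, f (wd S μ * star (wd S ν)) = g (wd S μ * star (wd S ν))) : f = g :=
  LinearMap.ext fun x => h.ind (LinearMap.eqLocus f g)
    (isClosed_eq (AddMonoidHomClass.continuous_of_bound f 1 (by simpa using hf))
      (AddMonoidHomClass.continuous_of_bound g 1 (by simpa using hg))) h1 x

theorem Cu.norm_le (h : Cu S) (i : κ) : ‖S i‖ ≤ 1 := by
  have h1 := CStarRing.norm_star_mul_self (x := S i)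
  rw [h.rel, if_pos rfl] at h1
  have h2 : ‖(1 : A)‖ ≤ 1 := by
    rcases subsingleton_or_nontrivial A with _ | _
    · simp [Subsingleton.elim (1 : A) 0]
    · simp
  nlinarith [norm_nonneg (S i)]

theorem vac_val {f : A →ₗ[ℂ] ℂ} (hf : Pos f) (h1 : f 1 = 1) (h0 : ∀ i, f (S i * star (S i)) = 0)
    (μ ν : List κ) : f (wd S μ * star (wd S ν)) = if μ = [] ∧ ν = [] then 1 else 0 := by
  have h2 : ∀ i, f (star (star (S i)) * star (S i)) = 0 := by simpa using h0
  rcases μ with _ | ⟨k, μ⟩
  · rcases ν with _ | ⟨k, ν⟩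
    · simpa using h1
    · simpa using hf.null' (h2 k) (star (wd S ν))
  · simpa [mul_assoc] using hf.null (h2 k) (wd S μ * star (wd S ν))

theorem Cu.vac_uniq (h : Cu S) {f g : A →ₗ[ℂ] ℂ} (hf : ∀ x, ‖f x‖ ≤ ‖x‖) (hg : ∀ x, ‖g x‖ ≤ ‖x‖)
    (pf : Pos f) (pg : Pos g) (f1 : f 1 = 1) (g1 : g 1 = 1)
    (f0 : ∀ i, f (S i * star (S i)) = 0) (g0 : ∀ i, g (S i * star (S i)) = 0) : f = g :=
  h.ext hf hg fun μ ν => by rw [vac_val pf f1 f0, vac_val pg g1 g0]

theorem Cu.peak (h : Cu S) [Nontrivial A] {f : A →ₗ[ℂ] ℂ} (hf : ∀ x, ‖f x‖ ≤ ‖x‖) (pf : Pos f)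
    {o : κ} (h1 : f (star (S o)) = 1) :
    f 1 = 1 ∧ (∀ i y, f (S i * y) = if i = o then f y else 0) ∧
      ∀ i y, f (y * star (S i)) = if i = o then f y else 0 := by
  have h2 : f (S o) = 1 := by simpa [h1] using pf.herm (S o) 1
  have e1 : star (1 - S o) * (1 - S o) = 1 + 1 - S o - star (S o) := by
    rw [star_sub, star_one, sub_mul, mul_sub, mul_sub, h.rel, if_pos rfl]
    noncomm_ring
  have h3 : f 1 = 1 := by
    have := (Complex.nonneg_iff.mp (pf (1 - S o))).1
    rw [e1] at this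
    simp only [map_sub, map_add, h1, h2, Complex.sub_re, Complex.add_re, Complex.one_re] at this
    exact eq_one_of (by simpa using hf 1) (by linarith)
  have h4 : f (star (1 - S o) * (1 - S o)) = 0 := by rw [e1]; simp [h1, h2, h3]
  have h5 : f (star (1 - star (S o)) * (1 - star (S o))) = 0 := by
    have e2 : star (1 - star (S o)) * (1 - star (S o))
        = 1 - S o - star (S o) + S o * star (S o) := by
      rw [star_sub, star_one, star_star]
      noncomm_ring
    have := (Complex.nonneg_iff.mp (pf (1 - star (S o)))).1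
    rw [e2] at this ⊢
    simp only [map_sub, map_add, h1, h2, h3, Complex.sub_re, Complex.add_re, Complex.one_re]
      at this ⊢
    rw [eq_one_of (z := f (S o * star (S o))) ((hf _).trans ((norm_mul_le _ _).trans (by
      rw [norm_star]; nlinarith [h.norm_le o, norm_nonneg (S o)]))) (by linarith)]
    ring
  refine ⟨h3, fun i y => ?_, fun i y => ?_⟩
  · split_ifs with hi
    · have := pf.null h5 y
      rw [star_sub, star_one, star_star, sub_mul, one_mul, map_sub, sub_eq_zero] at this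
      rw [hi, this]
    · have := pf.null h4 (S i * y)
      rwa [star_sub, star_one, sub_mul, one_mul, ← mul_assoc, h.rel, if_neg (Ne.symm hi), zero_mul,
        sub_zero] at this
  · split_ifs with hi
    · have := pf.null' h5 y
      rw [mul_sub, mul_one, map_sub, sub_eq_zero] at this
      rw [hi, this]
    · have := pf.null' h4 (y * star (S i))
      rwa [mul_sub, mul_one, mul_assoc, h.rel, if_neg hi, mul_zero, sub_zero] at this

theorem Cu.peak_uniq (h : Cu S) [Nontrivial A] {f g : A →ₗ[ℂ] ℂ} (hf : ∀ x, ‖f x‖ ≤ ‖x‖)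
    (hg : ∀ x, ‖g x‖ ≤ ‖x‖) (pf : Pos f) (pg : Pos g) {o : κ} (f1 : f (star (S o)) = 1)
    (g1 : g (star (S o)) = 1) : f = g := by
  obtain ⟨a1, a2, a3⟩ := h.peak hf pf f1
  obtain ⟨b1, b2, b3⟩ := h.peak hg pg g1
  refine h.ext hf hg fun μ ν => ?_
  induction μ with
  | nil =>
    induction ν with
    | nil => simp [a1, b1]
    | cons k ν ih =>
      simp only [wd_nil, one_mul, wd_cons, star_mul] at ih ⊢
      rw [a3, b3, ih]
  | cons k μ ih => rw [wd_cons, mul_assoc, a2, b2, ih]

theorem Cu.cocount (h : Cu S) {f : A →ₗ[ℂ] ℂ} (hf : ∀ x, ‖f x‖ ≤ ‖x‖) (pf : Pos f) (f1 : f 1 = 1)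
    (f0 : ∀ i, f (S i * star (S i)) = 0) (x : A) :
    ∀ᶠ j in cocountable, star (S j) * x * S j = f x • (1 : A) := by
  have hc := AddMonoidHomClass.continuous_of_bound f 1 (by simpa using hf)
  let V : Submodule ℂ A :=
    { carrier := {x | ∀ᶠ j in cocountable, star (S j) * x * S j = f x • (1 : A)}
      add_mem' := fun {a b} ha hb => by
        rw [Set.mem_ofPred_eq] at ha hb ⊢
        exact (ha.and hb).mono fun j hj => by
          rw [mul_add, add_mul, hj.1, hj.2, map_add, add_smul]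
      zero_mem' := by simp
      smul_mem' := fun c a ha => by
        rw [Set.mem_ofPred_eq] at ha ⊢
        exact ha.mono fun j hj => by
          rw [mul_smul_comm, smul_mul_assoc, hj, map_smul, smul_smul, smul_eq_mul] }
  refine h.ind V (IsSeqClosed.isClosed fun u a hu ha => ?_) (fun μ ν => ?_) x
  · have hu' : ∀ n, ∀ᶠ j in cocountable, star (S j) * u n * S j = f (u n) • (1 : A) := hu
    change ∀ᶠ j in cocountable, _ = _
    refine (ev_all hu').mono fun j hj => ?_
    have h1 : Tendsto (fun n => star (S j) * u n * S j) atTop (𝓝 (star (S j) * a * S j)) :=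
      (ha.const_mul _).mul_const _
    simp only [hj] at h1
    exact tendsto_nhds_unique h1 (((hc.tendsto a).comp ha).smul_const _)
  · have h1 : ∀ k : κ, ∀ᶠ j in cocountable, j ≠ k := fun k =>
      mem_cocountable.mpr (by simp)
    change ∀ᶠ j in cocountable, _ = _
    rw [vac_val pf f1 f0]
    rcases μ with _ | ⟨k, μ⟩
    · rcases ν with _ | ⟨k, ν⟩
      · exact Eventually.of_forall fun j => by simp [h.rel]
      · exact (h1 k).mono fun j hj => by simp [mul_assoc, h.rel, hj.symm]
    · exact (h1 k).mono fun j hj => by simp [← mul_assoc, h.rel, hj]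

end Pool.Agent.H86.Cun
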