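import Pool.Agent.H86.CunA

set_option autoImplicit false

namespace Pool.Agent.H86.Cun

open Filter Topology
open scoped ComplexOrder ComplexConjugate InnerProductSpace

/-- full Fock space over an uncountable index set -/
abbrev H : Type := lp (fun _ : List ℝ => ℂ) 2

/-- basis vectors -/
noncomputable def e (μ : List ℝ) : H := lp.single 2 μ 1

theorem e_inner (μ : List ℝ) (v : H) : ⟪e μ, v⟫_ℂ = v μ := by
  simp [e, lp.inner_single_left]

theorem e_e (μ ν : List ℝ) : ⟪e μ, e ν⟫_ℂ = if μ = ν then 1 else 0 := by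
  rw [e_inner, e, lp.single_apply, Pi.single_apply]

theorem e_norm (μ : List ℝ) : ‖e μ‖ = 1 := by simp [e]

theorem op_ext {T T' : H →L[ℂ] H} (h : ∀ μ ν, ⟪e ν, T (e μ)⟫_ℂ = ⟪e ν, T' (e μ)⟫_ℂ) :
    T = T' := by
  refine lp.ext_continuousLinearMap (by simp) fun μ => ContinuousLinearMap.ext_ring ?_
  refine lp.ext (funext fun ν => ?_)
  have := h μ ν
  rw [e_inner, e_inner] at this
  exact this

theorem on (i : ℝ) : Orthonormal ℂ fun μ : List ℝ => e (i :: μ) :=
  orthonormal_iff_ite.mpr fun μ ν => by simp [e_e]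

/-- creation operators -/
noncomputable def s (i : ℝ) : H →L[ℂ] H :=
  (on i).orthogonalFamily.linearIsometry.toContinuousLinearMap

theorem s_e (i : ℝ) (μ : List ℝ) : s i (e μ) = e (i :: μ) := by
  change (on i).orthogonalFamily.linearIsometry (lp.single 2 μ 1) = _
  simp

theorem star_in (T : H →L[ℂ] H) (u v : H) : ⟪u, star T v⟫_ℂ = ⟪T u, v⟫_ℂ := by
  rw [ContinuousLinearMap.star_eq_adjoint, ContinuousLinearMap.adjoint_inner_right]

theorem s_rel (i j : ℝ) : star (s i) * s j = if i = j then 1 else 0 := op_ext fun μ ν => by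
  rw [mul_apply_eq_comp, star_in, s_e, s_e, e_e]
  split_ifs with h1 h2 h2
  · simp_all [e_norm]
  · simp_all
  · simp_all [e_e]
  · simp

theorem s_vac (i : ℝ) : star (s i) (e []) = 0 :=
  lp.ext (funext fun ν => by
    rw [← e_inner, ← inner_conj_symm, ← inner_conj_symm, star_in, s_e, e_e]
    simp)

/-- the Cuntz algebra -/
noncomputable def O : StarSubalgebra ℂ (H →L[ℂ] H) :=
  (StarAlgebra.adjoin ℂ (Set.range s)).topologicalClosure

instance O_closed : IsClosed (O : Set (H →L[ℂ] H)) := StarSubalgebra.isClosed_topologicalClosure _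

/-- generators -/
noncomputable def S (i : ℝ) : O :=
  ⟨s i, StarSubalgebra.le_topologicalClosure _ (StarAlgebra.subset_adjoin _ _ ⟨i, rfl⟩)⟩

theorem cu : Cu S where
  rel i j := Subtype.ext (by
    change star (s i) * s j = _
    rw [s_rel]
    split_ifs <;> rfl)
  gen V hV h x := by
    let T : Set O := {a | ∀ y ∈ V, a * y ∈ V ∧ star a * y ∈ V}
    have hT : IsClosed T := by
      simp only [T, Set.ofPred_forall, Set.ofPred_and]
      exact isClosed_iInter fun y => isClosed_iInter fun _ =>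
        (hV.preimage (f := fun a => a * y) (by fun_prop)).inter
          (hV.preimage (f := fun a => star a * y) (by fun_prop))
    have h1 : (StarAlgebra.adjoin ℂ (Set.range s) : Set (H →L[ℂ] H)) ⊆ Subtype.val '' T := by
      intro a ha
      induction ha using StarAlgebra.adjoin_induction with
      | mem a ha =>
        obtain ⟨i, rfl⟩ := ha
        exact ⟨S i, h i, rfl⟩
      | algebraMap r =>
        refine ⟨algebraMap ℂ O r, fun y hy => ?_, rfl⟩
        rw [← algebraMap_star_comm, ← Algebra.smul_def, ← Algebra.smul_def]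
        exact ⟨V.smul_mem _ hy, V.smul_mem _ hy⟩
      | add a b _ _ ha hb =>
        obtain ⟨a, ha, rfl⟩ := ha
        obtain ⟨b, hb, rfl⟩ := hb
        refine ⟨a + b, fun y hy => ?_, rfl⟩
        rw [star_add, add_mul, add_mul]
        exact ⟨V.add_mem (ha y hy).1 (hb y hy).1, V.add_mem (ha y hy).2 (hb y hy).2⟩
      | mul a b _ _ ha hb =>
        obtain ⟨a, ha, rfl⟩ := ha
        obtain ⟨b, hb, rfl⟩ := hb
        refine ⟨a * b, fun y hy => ?_, rfl⟩
        rw [star_mul, mul_assoc, mul_assoc]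
        exact ⟨(ha _ (hb y hy).1).1, (hb _ (ha y hy).2).2⟩
      | star a _ ha =>
        obtain ⟨a, ha, rfl⟩ := ha
        refine ⟨star a, fun y hy => ?_, rfl⟩
        rw [star_star]
        exact (ha y hy).symm
    obtain ⟨a, ha, h2⟩ := closure_minimal h1
      (O_closed.isClosedEmbedding_subtypeVal.isClosedMap T hT) x.2
    rw [← Subtype.ext h2]
    exact fun y hy => (ha y hy).1

theorem wd_e (μ : List ℝ) : (wd S μ).1 (e []) = e μ := by
  induction μ with
  | nil => rfl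
  | cons i μ ih =>
    rw [wd_cons]
    change s i ((wd S μ).1 (e [])) = _
    rw [ih, s_e]

/-- vector functional -/
noncomputable def vs (v : H) : O →L[ℂ] ℂ :=
  LinearMap.mkContinuous
    { toFun := fun x => ⟪v, x.1 v⟫_ℂ
      map_add' := fun x y => by simp
      map_smul' := fun c x => by simp } (‖v‖ * ‖v‖) fun x => by
    refine (norm_inner_le_norm (𝕜 := ℂ) v (x.1 v)).trans ?_
    have := mul_le_mul_of_nonneg_left (x.1.le_opNorm v) (norm_nonneg v)
    change _ ≤ ‖v‖ * ‖v‖ * ‖x.1‖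
    linarith

theorem vs_apply (v : H) (x : O) : vs v x = ⟪v, x.1 v⟫_ℂ := rfl

theorem vs_norm {v : H} (h : ‖v‖ = 1) : ‖vs v‖ ≤ 1 :=
  (LinearMap.mkContinuous_norm_le _ (by positivity) _).trans (by simp [h])

theorem vs_pos (v : H) : Pos (vs v : O →ₗ[ℂ] ℂ) := fun x => by
  change 0 ≤ ⟪v, star x.1 (x.1 v)⟫_ℂ
  rw [star_in, inner_self_eq_norm_sq_to_K]
  exact pow_nonneg (Complex.zero_le_real.mpr (norm_nonneg (x.1 v))) 2

theorem eig (r : ℝ) (h0 : 0 ≤ r) (h1 : r < 1) : ∃ v : H, ‖v‖ = 1 ∧ star (s 0) v = (r : ℂ) • v := by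
  have hn : ‖(r : ℂ) • s 0‖ < 1 := by
    have : ‖s 0‖ ≤ 1 := cu.norm_le 0
    rw [norm_smul, Complex.norm_real, Real.norm_eq_abs, abs_of_nonneg h0]
    nlinarith [norm_nonneg (s 0)]
  let u := Units.oneSub _ hn
  let z : H := (u⁻¹).1 (e [])
  have h2 : z - (r : ℂ) • s 0 z = e [] := congrArg (fun T : H →L[ℂ] H => T (e [])) u.mul_inv
  have h3 : z ≠ 0 := fun h => by
    have := e_norm []
    rw [← h2, h] at this
    simp at this
  have h4 : star (s 0) z = (r : ℂ) • z := by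
    have := congrArg (star (s 0) : H →L[ℂ] H) h2
    rw [s_vac, map_sub, map_smul, ← mul_apply_eq_comp (star (s 0)) (s 0), s_rel, if_pos rfl,
      sub_eq_zero] at this
    exact this
  refine ⟨((‖z‖⁻¹ : ℝ) : ℂ) • z, ?_, by rw [map_smul, h4, smul_comm]⟩
  rw [norm_smul, Complex.norm_real, norm_inv, norm_norm, inv_mul_cancel₀ (norm_ne_zero_iff.mpr h3)]

theorem exists_model : ∃ (A : Type) (_ : CStarAlgebra A) (_ : Nontrivial A) (S : ℝ → A)
    (φ ψ : A →L[ℂ] ℂ), Cu S ∧ ‖φ‖ ≤ 1 ∧ Pos (φ : A →ₗ[ℂ] ℂ) ∧ φ (star (S 0)) = 1 ∧ ‖ψ‖ ≤ 1 ∧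
    Pos (ψ : A →ₗ[ℂ] ℂ) ∧ ψ 1 = 1 ∧ (∀ i, ψ (S i * star (S i)) = 0) ∧
    ∀ x ≠ 0, ∃ μ ν, ψ (star (wd S ν) * x * wd S μ) ≠ 0 := by
  have h1 : vs (e []) 1 = 1 := by simp [vs_apply, e_norm]
  choose v hv hv' using fun n : ℕ => eig (1 - 1 / ((n : ℝ) + 1))
    (sub_nonneg.mpr (div_le_one_of_le₀ (by simp) (by positivity)))
    (sub_lt_self _ (by positivity))
  obtain ⟨φ, h2, h3⟩ := ulim (hyperfilter ℕ) (fun n => vs (v n)) fun n => vs_norm (hv n)
  refine ⟨O, inferInstance, ⟨⟨1, 0, fun h => by simp [h] at h1⟩⟩, S, φ, vs (e []), cu, h2,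
    fun x => ge_of_tendsto' (h3 _) fun n => vs_pos _ x, ?_, vs_norm (e_norm _), vs_pos _, h1,
    fun i => ?_, fun x hx => ?_⟩
  · refine tendsto_nhds_unique (h3 _) (Tendsto.mono_left ?_ Nat.hyperfilter_le_atTop)
    have h4 : ∀ n : ℕ, vs (v n) (star (S 0)) = ((1 - 1 / ((n : ℝ) + 1) : ℝ) : ℂ) := fun n => by
      change ⟪v n, star (s 0) (v n)⟫_ℂ = _
      rw [hv', inner_smul_right, inner_self_eq_norm_sq_to_K, hv]
      simp
    simp only [h4]
    have := (Complex.continuous_ofReal.tendsto _).comp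
      (tendsto_one_div_add_atTop_nhds_zero_nat.const_sub (1 : ℝ))
    simpa [Function.comp_def] using this
  · change ⟪e [], s i (star (s i) (e []))⟫_ℂ = 0
    simp [s_vac]
  · by_contra h
    push Not at h
    refine hx (Subtype.ext (op_ext fun μ ν => ?_))
    have := h μ ν
    change ⟪e [], star (wd S ν).1 (x.1 ((wd S μ).1 (e [])))⟫_ℂ = 0 at this
    rw [star_in, wd_e, wd_e] at this
    simpa using this

end Pool.Agent.H86.Cun
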