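import Mathlib

set_option autoImplicit false

namespace Pool.Agent.H86.Dix

open Filter Topology Finset

/-- singular values, as approximation numbers: `sv T k = μ_{k+1}(T)` is the distance from `T` to
the bounded operators of rank at most `k` -/
noncomputable def sv {H : Type} [NormedAddCommGroup H] [InnerProductSpace ℂ H] (T : H →L[ℂ] H)
    (k : ℕ) : ℝ :=
  sInf {c | ∃ F : H →L[ℂ] H, (F : H →ₗ[ℂ] H).rank ≤ k ∧ c = ‖T - F‖}

/-- the separable Hilbert space -/
abbrev H : Type := lp (fun _ : ℕ => ℂ) 2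

/-- the standard basis -/
noncomputable def e (j : ℕ) : H := lp.single 2 j 1

/-- `T` is the diagonal operator with entries `w` -/
def IsD (T : H →L[ℂ] H) (w : ℕ → ℝ) : Prop := ∀ x j, T x j = w j * x j

theorem e_apply (j i : ℕ) : e j i = if i = j then 1 else 0 := by
  simp [e, lp.single_apply, Pi.single_apply]

theorem sum_e {ι : Type} (s : Finset ι) (g : ι → ℂ) (f : ι → ℕ) (j : ℕ) :
    (∑ i ∈ s, g i • e (f i) : H) j = ∑ i ∈ s, if j = f i then g i else 0 := by
  rw [lp.coeFn_sum, Finset.sum_apply]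
  simp [e_apply]

theorem ext' {x y : H} (h : ∀ j, x j = y j) : x = y := lp.ext (funext h)

theorem exists_dg {w : ℕ → ℝ} {c : ℝ} (h : ∀ j, |w j| ≤ c) : ∃ T, IsD T w :=
  ⟨lp.mapCLM 2 (fun j => (w j : ℂ) • ContinuousLinearMap.id ℂ ℂ) ((abs_nonneg _).trans (h 0))
    fun j => by simpa [norm_smul] using h j, fun _ _ => rfl⟩

theorem IsD.norm_le {T : H →L[ℂ] H} {w : ℕ → ℝ} (hT : IsD T w) {c : ℝ} (h : ∀ j, |w j| ≤ c) :
    ‖T‖ ≤ c := by
  have h0 := (abs_nonneg _).trans (h 0)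
  refine T.opNorm_le_bound h0 fun x => (lp.norm_mono (y := (c : ℂ) • x) two_ne_zero
    fun j => ?_).trans (by rw [norm_smul, Complex.norm_real, Real.norm_of_nonneg h0])
  simp only [hT x j, lp.coeFn_smul, Pi.smul_apply, smul_eq_mul, norm_mul, Complex.norm_real,
    Real.norm_eq_abs, abs_of_nonneg h0]
  gcongr
  exact h j

theorem IsD.eq {T S : H →L[ℂ] H} {w : ℕ → ℝ} (hT : IsD T w) (hS : IsD S w) : T = S :=
  ContinuousLinearMap.ext fun x => ext' fun j => (hT x j).trans (hS x j).symm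

theorem IsD.mul {T S : H →L[ℂ] H} {w v : ℕ → ℝ} (hT : IsD T w) (hS : IsD S v) :
    IsD (T * S) fun j => w j * v j := fun x j => by
  simp [hT (S x) j, hS x j, mul_assoc]

theorem IsD.sub {T S : H →L[ℂ] H} {w v : ℕ → ℝ} (hT : IsD T w) (hS : IsD S v) :
    IsD (T - S) fun j => w j - v j := fun x j => by
  simp [hT x j, hS x j, sub_mul]

theorem IsD.sa {T : H →L[ℂ] H} {w : ℕ → ℝ} (hT : IsD T w) : star T = T :=
  ContinuousLinearMap.isSelfAdjoint_iff_isSymmetric.mpr fun x y => by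
    simp only [lp.inner_eq_tsum, ContinuousLinearMap.coe_coe, hT x, hT y]
    exact tsum_congr fun j => by simp [mul_assoc, mul_left_comm]

theorem IsD.pos {T : H →L[ℂ] H} {w : ℕ → ℝ} (hT : IsD T w) (h0 : ∀ j, 0 ≤ w j)
    (h1 : ∀ j, w j ≤ 1) : 0 ≤ T := by
  obtain ⟨S, hS⟩ := exists_dg (w := fun j => √(w j)) (c := 1) fun j => by
    rw [abs_of_nonneg (Real.sqrt_nonneg _)]
    exact Real.sqrt_le_one.mpr (h1 j)
  have h2 := hS.mul hS
  simp only [Real.mul_self_sqrt (h0 _)] at h2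
  have h3 := star_mul_self_nonneg S
  rwa [hS.sa, h2.eq hT] at h3

theorem sv_bdd (T : H →L[ℂ] H) (k : ℕ) :
    BddBelow {c | ∃ F : H →L[ℂ] H, (F : H →ₗ[ℂ] H).rank ≤ k ∧ c = ‖T - F‖} :=
  ⟨0, by rintro _ ⟨F, -, rfl⟩; exact norm_nonneg _⟩

theorem sv_nonneg (T : H →L[ℂ] H) (k : ℕ) : 0 ≤ sv T k :=
  Real.sInf_nonneg (by rintro _ ⟨F, -, rfl⟩; exact norm_nonneg _)

theorem IsD.trunc {T : H →L[ℂ] H} {w : ℕ → ℝ} (hT : IsD T w) (s : Finset ℕ) {c : ℝ} (h0 : 0 ≤ c)
    (h : ∀ j ∉ s, |w j| ≤ c) :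
    ∃ F : H →L[ℂ] H, (F : H →ₗ[ℂ] H).rank ≤ s.card ∧ ‖T - F‖ ≤ c := by
  classical
  obtain ⟨P, hP⟩ := exists_dg (w := fun j => if j ∈ s then 1 else 0) (c := 1) fun j => by
    split_ifs <;> simp
  refine ⟨P * T, ?_, (hT.sub (hP.mul hT)).norm_le fun j => ?_⟩
  · refine (Submodule.rank_mono (t := Submodule.span ℂ (s.image e : Set H)) ?_).trans
      ((rank_span_finset_le _).trans (by exact_mod_cast card_image_le))
    rintro _ ⟨x, rfl⟩
    rw [show (P * T : H →L[ℂ] H).toLinearMap x = ∑ i ∈ s, T x i • e i from ext' fun j => by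
      rw [sum_e s _ fun i => i]
      by_cases h1 : j ∈ s <;> simp [hP (T x) j, h1]]
    exact sum_mem fun i hi => Submodule.smul_mem _ _ (Submodule.subset_span (by
      simpa using ⟨i, hi, rfl⟩))
  · split_ifs with h1
    · simpa using h0
    · simpa using h j h1

theorem IsD.sv_le {T : H →L[ℂ] H} {w : ℕ → ℝ} (hT : IsD T w) {k : ℕ} (s : Finset ℕ)
    (hs : s.card ≤ k) {c : ℝ} (h0 : 0 ≤ c) (h : ∀ j ∉ s, |w j| ≤ c) : sv T k ≤ c := by
  obtain ⟨F, h1, h2⟩ := hT.trunc s h0 h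
  exact (csInf_le (sv_bdd T k) ⟨F, h1.trans (by exact_mod_cast hs), rfl⟩).trans h2

theorem IsD.le_sv {T : H →L[ℂ] H} {w : ℕ → ℝ} (hT : IsD T w) {k : ℕ} {c : ℝ} (h0 : 0 ≤ c)
    (h : ∀ j ≤ k, c ≤ |w j|) : c ≤ sv T k := by
  refine le_csInf ⟨_, 0, by simp, rfl⟩ ?_
  rintro _ ⟨F, hF, rfl⟩
  have h1 : ¬ LinearIndependent ℂ fun i : Fin (k + 1) =>
      (F : H →ₗ[ℂ] H).rangeRestrict (e i) := fun h1 => by
    have := h1.cardinal_lift_le_rank.trans (Cardinal.lift_le.mpr hF)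
    simp only [Cardinal.mk_fintype, Fintype.card_fin, Cardinal.lift_natCast, Nat.cast_le] at this
    omega
  obtain ⟨g, g1, i, g2⟩ := Fintype.not_linearIndependent_iff.mp h1
  let x : H := ∑ i : Fin (k + 1), g i • e i
  have h2 : F x = 0 := by simpa [x] using congrArg Subtype.val g1
  have h3 : x ≠ 0 := fun h4 => g2 (by
    have := sum_e univ g Fin.val i
    rw [show ∑ i : Fin (k + 1), g i • e i = 0 from h4] at this
    simpa [Fin.val_inj] using this.symm)
  have h4 : ‖(c : ℂ) • x‖ ≤ ‖(T - F) x‖ := lp.norm_mono two_ne_zero fun j => by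
    simp only [_root_.sub_apply, h2, sub_zero, hT x j, lp.coeFn_smul, Pi.smul_apply,
      smul_eq_mul, norm_mul, Complex.norm_real, Real.norm_eq_abs, abs_of_nonneg h0]
    rcases le_or_gt j k with h5 | h5
    · gcongr
      exact h j h5
    · have : x j = 0 := (sum_e univ g Fin.val j).trans (sum_eq_zero fun i _ => if_neg (by omega))
      simp [this]
  rw [norm_smul, Complex.norm_real, Real.norm_of_nonneg h0] at h4
  exact le_of_mul_le_mul_right (h4.trans ((T - F).le_opNorm x)) (norm_pos_iff.mpr h3)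

theorem fin_cpt {S : H →L[ℂ] H} (h : (S : H →ₗ[ℂ] H).rank < Cardinal.aleph0) :
    IsCompactOperator S := by
  haveI := Module.rank_lt_aleph0_iff.mp h
  haveI := FiniteDimensional.proper ℂ (LinearMap.range (S : H →ₗ[ℂ] H))
  exact (isCompactOperator_of_locallyCompactSpace_dom (S.codRestrict
    (LinearMap.range (S : H →ₗ[ℂ] H)) fun x => ⟨x, rfl⟩)).clm_comp (Submodule.subtypeL _)

theorem IsD.cpt {T : H →L[ℂ] H} {w : ℕ → ℝ} (hT : IsD T w) (h : Tendsto w atTop (𝓝 0)) :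
    IsCompactOperator T := by
  refine isClosed_setOfPred_isCompactOperator.closure_subset
    (Metric.mem_closure_iff.mpr fun ε hε => ?_)
  obtain ⟨N, hN⟩ := Metric.tendsto_atTop.mp h _ (half_pos hε)
  obtain ⟨F, h1, h2⟩ := hT.trunc (range N) (half_pos hε).le fun j hj => by
    simpa using (hN j (by simpa using hj)).le
  exact ⟨F, fin_cpt (h1.trans_lt (Cardinal.natCast_lt_aleph0)), by
    rw [dist_eq_norm]; linarith⟩

theorem exists_pm (σ : Equiv.Perm ℕ) :
    ∃ U : H →L[ℂ] H, (∀ x j, U x j = x (σ j)) ∧ ∀ x, ‖U x‖ = ‖x‖ := by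
  have h0 : 0 < (2 : ENNReal).toReal := by simp
  let U : H →ₗ[ℂ] H :=
    { toFun x := ⟨fun j => x (σ j), memℓp_gen (σ.summable_iff.mpr ((lp.memℓp x).summable h0))⟩
      map_add' _ _ := rfl
      map_smul' _ _ := rfl }
  have h1 : ∀ x, ‖U x‖ = ‖x‖ := fun x => by
    rw [lp.norm_eq_tsum_rpow h0, lp.norm_eq_tsum_rpow h0,
      ← σ.tsum_eq fun j => ‖x j‖ ^ (2 : ENNReal).toReal]
    rfl
  exact ⟨U.mkContinuous 1 fun x => by simp [h1], fun _ _ => rfl, h1⟩

theorem exists_D (d : ℕ → ℝ) : ∃ D : H →ₗ.[ℂ] H, IsSelfAdjoint D ∧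
    ∀ x y : H, (x, y) ∈ D.graph ↔ ∀ j, y j = d j * x j := by
  let g : Submodule ℂ (H × H) :=
    { carrier := {p | ∀ j, p.2 j = d j * p.1 j}
      add_mem' := fun {p q} hp hq j => by simp [hp j, hq j, mul_add]
      zero_mem' := fun j => by simp
      smul_mem' := fun c p hp j => by simp [hp j, mul_left_comm] }
  have h1 := g.toLinearPMap_graph_eq fun p hp h => ext' fun j => by simp [hp j, h]
  have h2 : ∀ j (c : ℂ), (c • e j, (d j * c) • e j) ∈ g := fun j c i => by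
    by_cases h : i = j <;> simp [e_apply, h]
  have h3 : Dense (g.toLinearPMap.domain : Set H) := fun x =>
    mem_closure_of_tendsto (lp.hasSum_single (by simp) x) (Eventually.of_forall fun s =>
      sum_mem fun j _ => LinearPMap.mem_domain_of_mem_graph (y := (d j * x j) • e j) (by
        simpa [h1, e, ← lp.single_smul] using h2 j (x j)))
  refine ⟨g.toLinearPMap, LinearPMap.eq_of_eq_graph ?_, fun x y => by rw [h1]; rfl⟩
  change g.toLinearPMap.adjoint.graph = _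
  rw [LinearPMap.adjoint_graph_eq_graph_adjoint h3, h1]
  ext ⟨x, y⟩
  rw [Submodule.mem_adjoint_iff]
  refine ⟨fun h j => ?_, fun h a b hab => ?_⟩
  · have := h _ _ (h2 j 1)
    simp only [e, inner_smul_left, lp.inner_single_left, sub_eq_zero] at this
    simpa using this.symm
  · simp only [lp.inner_eq_tsum, sub_eq_zero]
    refine tsum_congr fun j => ?_
    have h4 : b j = d j * a j := hab j
    have h5 : y j = d j * x j := h j
    simp [h4, h5, mul_assoc, mul_left_comm]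

end Pool.Agent.H86.Dix
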