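import Pool.Agent.H86.SvDefs

set_option autoImplicit false

namespace Pool.Agent.H86.Surv

/-- `min {I(T) : |T| = n}`. -/
noncomputable def minCells {V : Type} (G : SimpleGraph V) (n : ℕ) : ℕ :=
  sInf {k | ∃ T : Finset V, T.card = n ∧ infCells G T = k}

namespace DL

abbrev Y := Finset ℤ × ℤ

def St (u v : Y) : Prop := v.2 = u.2 + 1 ∧ ∀ i, i ≠ u.2 → (i ∈ u.1 ↔ i ∈ v.1)

def Gd : SimpleGraph Y where
  Adj u v := St u v ∨ St v u
  symm := ⟨fun _ _ h => h.symm⟩
  loopless := ⟨fun u h => by rcases h with h | h <;> have := h.1 <;> omega⟩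

def Ag (f g : Finset ℤ) (l r : ℤ) : Prop := ∀ i, i < l ∨ r ≤ i → (i ∈ f ↔ i ∈ g)

theorem lb_walk {u v : Y} (p : Gd.Walk u v) : ∃ l r, l ≤ u.2 ∧ l ≤ v.2 ∧ u.2 ≤ r ∧ v.2 ≤ r ∧
    Ag u.1 v.1 l r ∧ 2 * (r - l) - |u.2 - v.2| ≤ p.length := by
  induction p with
  | @nil u => exact ⟨u.2, u.2, le_rfl, le_rfl, le_rfl, le_rfl, fun _ _ => Iff.rfl, by simp⟩
  | @cons u w v h p ih =>
    obtain ⟨l, r, h1, h2, h3, h4, h5, h6⟩ := ih
    refine ⟨min l u.2, max r u.2, min_le_right _ _, (min_le_left _ _).trans h2, le_max_right _ _,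
      h4.trans (le_max_left _ _), fun i hi => ?_, ?_⟩
    · rcases h with h | h
      · have := h.1
        exact (h.2 i (by omega)).trans (h5 i (by omega))
      · have := h.1
        exact (h.2 i (by omega)).symm.trans (h5 i (by omega))
    · rw [SimpleGraph.Walk.length_cons]
      push_cast
      rcases h with h | h <;> have := h.1 <;> rcases abs_cases (u.2 - v.2) with q | q <;>
        rcases abs_cases (w.2 - v.2) with q' | q' <;> omega

theorem sweep (n : ℕ) : ∀ (f g : Finset ℤ) (x : ℤ), Ag f g x (x + n) →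
    ∃ p : Gd.Walk (f, x) (g, x + n), p.length = n := by
  induction n with
  | zero =>
    intro f g x h
    have : f = g := Finset.ext fun i => h i (by omega)
    subst this
    exact ⟨(SimpleGraph.Walk.nil : Gd.Walk (f, x) (f, x)).copy rfl (by simp), by simp⟩
  | succ n ih =>
    intro f g x h
    let f' : Finset ℤ := if x ∈ g then insert x f else f.erase x
    have h1 : ∀ i, i ≠ x → (i ∈ f ↔ i ∈ f') := fun i hi => by
      simp only [f']; split_ifs <;> simp [hi]
    have h2 : x ∈ f' ↔ x ∈ g := by simp only [f']; split_ifs with q <;> simp [q]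
    obtain ⟨p, hp⟩ := ih f' g (x + 1) fun i hi => by
      by_cases e : i = x
      · rw [e]; exact h2
      · exact (h1 i e).symm.trans (h i (by push_cast; omega))
    have a : Gd.Adj (f, x) (f', x + 1) := Or.inl ⟨rfl, h1⟩
    exact ⟨(SimpleGraph.Walk.cons a p).copy rfl (by push_cast; rw [add_assoc, add_comm 1]),
      by simp [hp]⟩

theorem sweep' (f g : Finset ℤ) {x y : ℤ} (hxy : x ≤ y) (h : Ag f g x y) :
    ∃ p : Gd.Walk (f, x) (g, y), (p.length : ℤ) = y - x := by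
  obtain ⟨n, rfl⟩ := Int.le.dest hxy
  obtain ⟨p, hp⟩ := sweep n f g x h
  exact ⟨p, by rw [hp]; ring⟩

theorem ub_walk {u v : Y} {l r : ℤ} (h1 : l ≤ u.2) (h2 : u.2 ≤ v.2) (h4 : v.2 ≤ r)
    (h5 : Ag u.1 v.1 l r) : ∃ p : Gd.Walk u v, (p.length : ℤ) = 2 * (r - l) - (v.2 - u.2) := by
  obtain ⟨f, x⟩ := u
  obtain ⟨g, y⟩ := v
  obtain ⟨p, hp⟩ := sweep' f f h1 fun _ _ => Iff.rfl
  obtain ⟨q, hq⟩ := sweep' f g (h1.trans (h2.trans h4)) h5
  obtain ⟨s, hs⟩ := sweep' g g h4 fun _ _ => Iff.rfl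
  refine ⟨p.reverse.append (q.append s.reverse), ?_⟩
  simp only [SimpleGraph.Walk.length_append, SimpleGraph.Walk.length_reverse] at *
  push_cast
  rw [hp, hq, hs]; ring

theorem ub {u v : Y} {l r : ℤ} (h1 : l ≤ u.2) (h2 : l ≤ v.2) (h3 : u.2 ≤ r) (h4 : v.2 ≤ r)
    (h5 : Ag u.1 v.1 l r) : (Gd.dist u v : ℤ) ≤ 2 * (r - l) - |u.2 - v.2| := by
  rcases le_total u.2 v.2 with h | h
  · obtain ⟨p, hp⟩ := ub_walk h1 h h4 h5
    have : (Gd.dist u v : ℤ) ≤ p.length := by exact_mod_cast SimpleGraph.dist_le p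
    rw [abs_of_nonpos (by omega)]; omega
  · obtain ⟨p, hp⟩ := ub_walk (u := v) (v := u) h2 h h3 fun i hi => (h5 i hi).symm
    have : (Gd.dist v u : ℤ) ≤ p.length := by exact_mod_cast SimpleGraph.dist_le p
    rw [abs_of_nonneg (by omega), SimpleGraph.dist_comm]; omega

theorem bdd (f : Finset ℤ) : ∃ B : ℤ, 0 ≤ B ∧ ∀ i ∈ f, -B < i ∧ i < B := by
  obtain ⟨a, ha⟩ := (f.image fun i => |i|).bddAbove
  refine ⟨|a| + 1, by positivity, fun i hi => ?_⟩
  have : |i| ≤ a := ha (Finset.mem_coe.2 (Finset.mem_image_of_mem _ hi))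
  have := le_abs_self a
  rcases abs_cases i with q | q <;> omega

theorem conn : Gd.Connected := by
  have key : ∀ u v : Y, u.2 ≤ v.2 → Gd.Reachable u v := by
    intro u v h
    obtain ⟨B, -, hB⟩ := bdd (insert u.2 (insert v.2 (u.1 ∪ v.1)))
    have b1 := hB u.2 (by simp)
    have b2 := hB v.2 (by simp)
    obtain ⟨p, -⟩ := ub_walk (l := -B) (r := B) b1.1.le h b2.2.le fun i hi =>
      ⟨fun q => by have := hB i (by simp [q]); omega, fun q => by have := hB i (by simp [q]); omega⟩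
    exact p.reachable
  refine ⟨fun u v => ?_⟩
  rcases le_total u.2 v.2 with h | h
  · exact key u v h
  · exact (key v u h).symm

theorem lb (u v : Y) : ∃ l r, l ≤ u.2 ∧ l ≤ v.2 ∧ u.2 ≤ r ∧ v.2 ≤ r ∧
    Ag u.1 v.1 l r ∧ 2 * (r - l) - |u.2 - v.2| ≤ Gd.dist u v := by
  obtain ⟨p, hp⟩ := conn.exists_walk_length_eq_dist u v
  rw [← hp]; exact lb_walk p

theorem box (B : ℤ) : {u : Y | (∀ i ∈ u.1, -B ≤ i ∧ i ≤ B) ∧ -B ≤ u.2 ∧ u.2 ≤ B}.Finite := by
  refine (((Finset.Icc (-B) B).powerset ×ˢ Finset.Icc (-B) B).finite_toSet).subset ?_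
  rintro ⟨f, x⟩ ⟨h1, h2⟩
  simp only [Finset.coe_product, Set.mem_prod, Finset.mem_coe, Finset.mem_powerset, Finset.mem_Icc]
  exact ⟨fun i hi => Finset.mem_Icc.2 (h1 i hi), h2⟩

theorem locfin (v : Y) : (Gd.neighborSet v).Finite := by
  obtain ⟨B, -, hB⟩ := bdd (insert v.2 v.1)
  have b1 := hB v.2 (by simp)
  refine (box B).subset fun u hu => ?_
  rcases hu with h | h
  · have := h.1
    refine ⟨fun i hi => ?_, by omega⟩
    by_cases e : i = v.2
    · omega
    · have := hB i (by simp [(h.2 i e).2 hi]); omega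
  · have := h.1
    refine ⟨fun i hi => ?_, by omega⟩
    by_cases e : i = u.2
    · omega
    · have := hB i (by simp [(h.2 i e).1 hi]); omega

def sh (a : ℤ) (f : Finset ℤ) : Finset ℤ := f.map (Equiv.addRight a).toEmbedding

theorem mem_sh (a i : ℤ) (f : Finset ℤ) : i ∈ sh a f ↔ i - a ∈ f := by
  simp [sh, Finset.mem_map_equiv, sub_eq_add_neg]

def mv (a : ℤ) (h : Finset ℤ) : Gd ≃g Gd where
  toFun u := (symmDiff (sh a u.1) h, u.2 + a)
  invFun u := (sh (-a) (symmDiff u.1 h), u.2 - a)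
  left_inv u := by
    ext i
    · simp [mem_sh]
    · simp
  right_inv u := by
    ext i
    · simp only [Finset.mem_symmDiff, mem_sh, sub_neg_eq_add, sub_add_cancel]; tauto
    · simp
  map_rel_iff' := fun {u v} => by
    have key : ∀ u v : Y, St (symmDiff (sh a u.1) h, u.2 + a) (symmDiff (sh a v.1) h, v.2 + a) ↔
        St u v := by
      intro u v
      simp only [St, Finset.mem_symmDiff, mem_sh]
      constructor
      · rintro ⟨h1, h2⟩
        refine ⟨by omega, fun i hi => ?_⟩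
        have := h2 (i + a) (by omega)
        rw [add_sub_cancel_right] at this
        tauto
      · rintro ⟨h1, h2⟩
        refine ⟨by omega, fun i hi => ?_⟩
        have := h2 (i - a) (by omega)
        tauto
    exact or_congr (key u v) (key v u)

theorem vt : VertexTransitive Gd := by
  intro u v
  refine ⟨mv (v.2 - u.2) (symmDiff (sh (v.2 - u.2) u.1) v.1), ?_⟩
  change (symmDiff (sh _ u.1) _, u.2 + (v.2 - u.2)) = v
  rw [symmDiff_symmDiff_cancel_left]
  ext <;> simp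

end DL

end Pool.Agent.H86.Surv
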