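import Pool.Agent.H86.DlA

set_option autoImplicit false

namespace Pool.Agent.H86.Surv.DL

def pP (D : ℤ) (j : ℕ) : ℤ := if 3 ≤ j ∧ j ≤ 5 then -(D + j) else D + j

def pw (D : ℤ) (j : ℕ) : Y :=
  (insert (pP D j) (if j = 1 then {0} else if j = 4 then {-1} else ∅),
    if 2 ≤ j ∧ j ≤ 4 then -1 else 1)

theorem mem_pw (D : ℤ) (j : ℕ) (i : ℤ) :
    i ∈ (pw D j).1 ↔ i = pP D j ∨ (j = 1 ∧ i = 0) ∨ (j = 4 ∧ i = -1) := by
  simp only [pw, Finset.mem_insert]
  split_ifs with h1 h2 <;> simp [*]

theorem pw_snd (D : ℤ) (j : ℕ) : (pw D j).2 = if 2 ≤ j ∧ j ≤ 4 then -1 else 1 := rfl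

theorem far {u v : Y} {D : ℤ} {d : ℕ} (hD : D = d + 3) (hu : -1 ≤ u.2 ∧ u.2 ≤ 1)
    (hv : -1 ≤ v.2 ∧ v.2 ≤ 1) (i : ℤ) (hi : i ≤ -D ∨ D ≤ i) (h1 : i ∈ u.1) (h2 : i ∉ v.1) :
    d < Gd.dist u v := by
  obtain ⟨l, r, a1, a2, a3, a4, a5, a6⟩ := lb u v
  have : ¬ (i < l ∨ r ≤ i) := fun h => h2 ((a5 i h).1 h1)
  rcases abs_cases (u.2 - v.2) with q | q <;> omega

theorem cell_box {D : ℤ} (hD : 3 ≤ D) (u : Y)
    (h : ∀ j ≤ 5, Gd.dist u (∅, 0) ≤ Gd.dist u (pw D j)) :
    (∀ i ∈ u.1, -(D + 6) ≤ i ∧ i ≤ D + 6) ∧ -(D + 6) ≤ u.2 ∧ u.2 ≤ D + 6 := by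
  obtain ⟨l, r, a1, a2, a3, a4, a5, a6⟩ := lb u (∅, 0)
  simp only [sub_zero] at a2 a4 a6
  have a7 : ∀ i ∈ u.1, l ≤ i ∧ i < r := fun i hi => by
    by_contra q
    exact Finset.notMem_empty i ((a5 i (by omega)).1 hi)
  have use : ∀ j ≤ 5, ∀ l' r', l' ≤ u.2 → l' ≤ (pw D j).2 → u.2 ≤ r' → (pw D j).2 ≤ r' →
      (∀ i, i < l' ∨ r' ≤ i → (i ∈ u.1 ↔ i = pP D j ∨ (j = 1 ∧ i = 0) ∨ (j = 4 ∧ i = -1))) →
      2 * (r - l) - |u.2| ≤ 2 * (r' - l') - |u.2 - (pw D j).2| := by
    intro j hj l' r' b1 b2 b3 b4 b5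
    have := ub b1 b2 b3 b4 fun i hi => (b5 i hi).trans (mem_pw D j i).symm
    have h' : (Gd.dist u (∅, 0) : ℤ) ≤ Gd.dist u (pw D j) := by exact_mod_cast h j hj
    omega
  have hr : r ≤ D + 6 := by
    by_contra hr
    rcases le_or_gt u.2 0 with hy | hy
    · have := use 0 (by omega) l r a1 (by simp [pw_snd]; omega) a3 (by simp [pw_snd]; omega)
        fun i hi => ⟨fun q => by have := a7 i q; omega, fun q => by simp [pP] at q; omega⟩
      simp only [pw_snd] at this
      norm_num at this
      rw [abs_of_nonpos hy, abs_of_nonpos (by omega)] at this; omega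
    rcases le_or_gt l (-1) with hl | hl
    · have := use 2 (by omega) l r a1 (by simp [pw_snd]; omega) a3 (by simp [pw_snd]; omega)
        fun i hi => ⟨fun q => by have := a7 i q; omega, fun q => by simp [pP] at q; omega⟩
      simp only [pw_snd] at this
      norm_num at this
      rw [abs_of_pos hy, abs_of_pos (by omega)] at this; omega
    by_cases h0 : (0 : ℤ) ∈ u.1
    · have := use 1 (by omega) 1 r hy (by simp [pw_snd]) a3 (by simp [pw_snd]; omega)
        fun i hi => ⟨fun q => by have := a7 i q; omega, fun q => by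
          simp [pP] at q
          rcases q with q | q
          · omega
          · rw [q]; exact h0⟩
      simp only [pw_snd] at this
      norm_num at this
      rw [abs_of_pos hy, abs_of_nonneg (by omega)] at this; omega
    · have := use 0 (by omega) 1 r hy (by simp [pw_snd]) a3 (by simp [pw_snd]; omega)
        fun i hi => ⟨fun q => by
          have := a7 i q
          have e : i = 0 := by omega
          exact absurd (e ▸ q) h0, fun q => by simp [pP] at q; omega⟩
      simp only [pw_snd] at this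
      norm_num at this
      rw [abs_of_pos hy, abs_of_nonneg (by omega)] at this; omega
  have hl : -(D + 6) ≤ l := by
    by_contra hl
    rcases le_or_gt 0 u.2 with hy | hy
    · have := use 3 (by omega) l r a1 (by simp [pw_snd]; omega) a3 (by simp [pw_snd]; omega)
        fun i hi => ⟨fun q => by have := a7 i q; omega, fun q => by simp [pP] at q; omega⟩
      simp only [pw_snd] at this
      norm_num at this
      rw [abs_of_nonneg hy, abs_of_nonneg (by omega)] at this; omega
    rcases le_or_gt 1 r with hr1 | hr1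
    · have := use 5 (by omega) l r a1 (by simp [pw_snd]; omega) a3 (by simp [pw_snd]; omega)
        fun i hi => ⟨fun q => by have := a7 i q; omega, fun q => by simp [pP] at q; omega⟩
      simp only [pw_snd] at this
      norm_num at this
      rw [abs_of_neg hy, abs_of_neg (by omega)] at this; omega
    by_cases h0 : (-1 : ℤ) ∈ u.1
    · have := use 4 (by omega) l (-1) a1 (by simp [pw_snd]; omega) (by omega) (by simp [pw_snd])
        fun i hi => ⟨fun q => by have := a7 i q; omega, fun q => by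
          simp [pP] at q
          rcases q with q | q
          · omega
          · rw [q]; exact h0⟩
      simp only [pw_snd] at this
      norm_num at this
      rw [abs_of_neg hy, abs_of_nonpos (by omega)] at this; omega
    · have := use 3 (by omega) l (-1) a1 (by simp [pw_snd]; omega) (by omega) (by simp [pw_snd])
        fun i hi => ⟨fun q => by
          have := a7 i q
          have e : i = -1 := by omega
          exact absurd (e ▸ q) h0, fun q => by simp [pP] at q; omega⟩
      simp only [pw_snd] at this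
      norm_num at this
      rw [abs_of_neg hy, abs_of_nonpos (by omega)] at this; omega
  exact ⟨fun i hi => by have := a7 i hi; omega, by omega, by omega⟩

theorem bad_set (n d : ℕ) (hn : 7 ≤ n) : ∃ T : Finset Y, n ≤ T.card ∧
    (∀ x ∈ T, ∀ y ∈ T, x ≠ y → d < Gd.dist x y) ∧ infCells Gd T < n := by
  set D : ℤ := d + 3 with hD
  have hs : ∀ j, -1 ≤ (pw D j).2 ∧ (pw D j).2 ≤ 1 := fun j => by
    rw [pw_snd]; split_ifs <;> omega
  have hP : ∀ j, pP D j ≤ -D ∨ D ≤ pP D j := fun j => by unfold pP; split_ifs <;> omega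
  have hP' : ∀ j, pP D j ∈ (pw D j).1 := fun j => (mem_pw D j _).2 (Or.inl rfl)
  have far1 : ∀ j, d < Gd.dist (pw D j) (∅, 0) := fun j =>
    far hD (hs j) (by simp) _ (hP j) (hP' j) (Finset.notMem_empty _)
  have far2 : ∀ i j, i ≠ j → d < Gd.dist (pw D i) (pw D j) := fun i j hij =>
    far hD (hs i) (hs j) _ (hP i) (hP' i) (by
      rw [mem_pw]; unfold pP; split_ifs <;> omega)
  have hw : Function.Injective (pw D) := by
    intro i j e
    by_contra hij
    have := far2 i j hij
    rw [e, SimpleGraph.dist_self] at this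
    omega
  let S := (Finset.range (n - 1)).map ⟨pw D, hw⟩
  have hS : S.card = n - 1 := by simp [S]
  have ho : ((∅, 0) : Y) ∉ S := by
    intro h
    obtain ⟨j, -, e⟩ := Finset.mem_map.1 h
    have := far1 j
    rw [show pw D j = (∅, 0) from e, SimpleGraph.dist_self] at this
    omega
  refine ⟨insert (∅, 0) S, by rw [Finset.card_insert_of_notMem ho]; omega, ?_, ?_⟩
  · intro x hx y hy hxy
    rcases Finset.mem_insert.1 hx with rfl | hx <;> rcases Finset.mem_insert.1 hy with rfl | hy
    · exact absurd rfl hxy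
    · obtain ⟨j, -, rfl⟩ := Finset.mem_map.1 hy
      rw [SimpleGraph.dist_comm]; exact far1 j
    · obtain ⟨j, -, rfl⟩ := Finset.mem_map.1 hx
      exact far1 j
    · obtain ⟨i, -, rfl⟩ := Finset.mem_map.1 hx
      obtain ⟨j, -, rfl⟩ := Finset.mem_map.1 hy
      exact far2 i j fun e => hxy (by rw [e])
  · have hfin : (cell Gd (insert (∅, 0) S) (∅, 0)).Finite :=
      (box (D + 6)).subset fun u hu => cell_box (by omega) u fun j hj =>
        hu _ (Finset.mem_insert_of_mem (Finset.mem_map.2 ⟨j, Finset.mem_range.2 (by omega), rfl⟩))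
    have : infCells Gd (insert (∅, 0) S) ≤ (S : Set Y).ncard := by
      refine Set.ncard_le_ncard ?_ S.finite_toSet
      rintro v ⟨h1, h2⟩
      rcases Finset.mem_insert.1 h1 with rfl | h
      · exact absurd hfin h2
      · exact h
    rw [Set.ncard_coe_finset] at this
    omega

theorem survival_le : survival Gd ≤ 6 := by
  refine sSup_le ?_
  rintro _ ⟨n, rfl, -, d, h⟩
  by_contra hn
  have h3 : 7 ≤ n := by
    by_contra h3
    exact hn (by exact_mod_cast (by omega : n ≤ 6))
  obtain ⟨T, h1, h2, h4⟩ := bad_set n d h3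
  exact absurd (h T h1 h2) (by omega)

end Pool.Agent.H86.Surv.DL
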