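import Pool.Agent.H86.DlB

set_option autoImplicit false

namespace Pool.Agent.H86.Surv.DL

open Filter

theorem dom (T W : Finset Y) (hW : ∀ c, c ∈ W ↔ c ∈ T ∧ (cell Gd T c).Infinite) :
    ∃ B : ℤ, ∀ v ∈ T, v ∉ W → ∀ u : Y, (u.2 < -B ∨ B < u.2) →
      ∃ w ∈ W, Gd.dist u w < Gd.dist u v := by
  classical
  have hZ : (⋃ c ∈ (T \ W : Finset Y), cell Gd T c).Finite := by
    refine Set.Finite.biUnion (T \ W).finite_toSet fun c hc => ?_
    obtain ⟨h1, h2⟩ := Finset.mem_sdiff.1 hc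
    by_contra h
    exact h2 ((hW c).2 ⟨h1, h⟩)
  obtain ⟨B, -, hB⟩ := bdd (hZ.toFinset.image Prod.snd)
  refine ⟨B, fun v hv hv' u hu => ?_⟩
  have hn : ∀ c ∈ T, c ∉ W → u ∉ cell Gd T c := fun c h1 h2 h3 => by
    have := hB u.2 (Finset.mem_image_of_mem _ (hZ.mem_toFinset.2
      (Set.mem_biUnion (Finset.mem_coe.2 (Finset.mem_sdiff.2 ⟨h1, h2⟩)) h3)))
    omega
  obtain ⟨c, h1, h2⟩ := T.exists_min_image (fun c => Gd.dist u c) ⟨v, hv⟩
  refine ⟨c, by_contra fun h => hn c h1 h h2, ?_⟩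
  by_contra h
  exact hn v hv hv' fun v' h' => (not_lt.1 h).trans (h2 v' h')

theorem right_ray {v w : Y} {g : Finset ℤ} {R : ℤ} (hR : v.2 ≤ R) (hg : Ag g v.1 v.2 R)
    (h : Gd.dist (g, R) w < Gd.dist (g, R) v) :
    ∃ l, l ≤ w.2 ∧ v.2 + w.2 < 2 * l ∧ ∀ i, i < l → (i ∈ g ↔ i ∈ w.1) := by
  have h1 := ub (u := (g, R)) (v := v) hR le_rfl le_rfl hR hg
  obtain ⟨l, r, a1, a2, a3, a4, a5, a6⟩ := lb (g, R) w
  refine ⟨l, a2, ?_, fun i hi => a5 i (Or.inl hi)⟩
  simp only at h1 a1 a3 a6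
  rcases abs_cases (R - v.2) with q | q <;> rcases abs_cases (R - w.2) with q' | q' <;> omega

theorem left_ray {v w : Y} {R : ℤ} (hR : R ≤ v.2)
    (h : Gd.dist (v.1, R) w < Gd.dist (v.1, R) v) : ∀ i, v.2 ≤ i → (i ∈ v.1 ↔ i ∈ w.1) := by
  have h1 := ub (u := (v.1, R)) (v := v) le_rfl hR hR le_rfl fun _ _ => Iff.rfl
  obtain ⟨l, r, a1, a2, a3, a4, a5, a6⟩ := lb (v.1, R) w
  intro i hi
  refine a5 i (Or.inr ?_)
  simp only at h1 a1 a3 a6
  rcases abs_cases (R - v.2) with q | q <;> rcases abs_cases (R - w.2) with q' | q' <;> omega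

def glue (p : Y × Y × ℕ) : Y :=
  (p.1.1.filter (fun i => i < p.1.2 - p.2.2) ∪ p.2.1.1.filter (fun i => p.1.2 - p.2.2 ≤ i),
    p.1.2 - p.2.2)

theorem card_le (T : Finset Y) : T.card ≤ infCells Gd T +
    infCells Gd T * (infCells Gd T * (2 * infCells Gd T + 1)) := by
  classical
  set W := T.filter fun c => (cell Gd T c).Infinite with hWd
  have hW : ∀ c, c ∈ W ↔ c ∈ T ∧ (cell Gd T c).Infinite := fun c => Finset.mem_filter
  have hk : infCells Gd T = W.card := by
    rw [infCells, ← Set.ncard_coe_finset]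
    congr 1
    ext c
    simp [hW]
  rw [hk]
  obtain ⟨B, hB⟩ := dom T W hW
  have sub : T ⊆ W ∪ (W ×ˢ W ×ˢ Finset.range (2 * W.card + 1)).image glue := by
    intro v hv
    by_cases hv' : v ∈ W
    · exact Finset.mem_union_left _ hv'
    refine Finset.mem_union_right _ ?_
    obtain ⟨w2, hw2, h2⟩ := hB v hv hv' (v.1, min v.2 (-B - 1)) (Or.inl (by simp only; omega))
    have e2 := left_ray (min_le_left _ _) h2
    have h1 : ∀ i : ℕ, ∃ w ∈ W, i ≤ W.card → ∃ l, l ≤ w.2 ∧ v.2 + w.2 < 2 * l ∧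
        ∀ j, j < l → (j ∈ symmDiff v.1 {v.2 + i} ↔ j ∈ w.1) := by
      intro i
      obtain ⟨w, hw, h⟩ := hB v hv hv' (symmDiff v.1 {v.2 + i}, max (v.2 + i + 1) (B + 1))
        (Or.inr (by simp only; omega))
      refine ⟨w, hw, fun _ => right_ray (by omega) (fun j hj => ?_) h⟩
      have : j ≠ v.2 + i := by omega
      simp [Finset.mem_symmDiff, this]
    choose w hw h1 using h1
    obtain ⟨i, hi, j, hj, hij, e⟩ := Finset.exists_ne_map_eq_of_card_lt_of_maps_to
      (s := Finset.range (W.card + 1)) (t := W) (by simp) (f := w) fun i _ => hw i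
    rw [Finset.mem_range] at hi hj
    obtain ⟨l, c1, c2, c3⟩ := h1 i (by omega)
    obtain ⟨l', d1, d2, d3⟩ := h1 j (by omega)
    rw [← e] at d1 d2 d3
    have hb : (w i).2 < v.2 + 2 * W.card + 1 := by
      by_contra hb
      have q1 := c3 (v.2 + i) (by omega)
      have q2 := d3 (v.2 + i) (by omega)
      have : v.2 + (i : ℤ) ≠ v.2 + j := by omega
      simp only [Finset.mem_symmDiff, Finset.mem_singleton, this] at q1 q2
      tauto
    obtain ⟨m, hm⟩ := Int.le.dest (show v.2 ≤ (w i).2 by omega)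
    refine Finset.mem_image.2 ⟨(w i, w2, m), ?_, ?_⟩
    · simp only [Finset.mem_product, Finset.mem_range]
      exact ⟨hw i, hw2, by omega⟩
    · have hx : (w i).2 - m = v.2 := by omega
      ext a
      · simp only [glue, hx, Finset.mem_union, Finset.mem_filter]
        rcases lt_or_ge a v.2 with q | q
        · have q1 := c3 a (by omega)
          have : a ≠ v.2 + i := by omega
          simp only [Finset.mem_symmDiff, Finset.mem_singleton, this] at q1
          have := not_le.2 q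
          tauto
        · have q1 := e2 a q
          have := not_lt.2 q
          tauto
      · exact hx
  refine (Finset.card_le_card sub).trans ((Finset.card_union_le _ _).trans ?_)
  refine Nat.add_le_add_left (Finset.card_image_le.trans ?_) _
  simp

theorem tendsto_min : Tendsto (minCells Gd) atTop atTop := by
  refine tendsto_atTop_atTop.2 fun K => ⟨K + K * (K * (2 * K + 1)) + 1, fun n hn => ?_⟩
  obtain ⟨T0, hT0⟩ := Infinite.exists_subset_card_eq Y n
  obtain ⟨T, h1, h2⟩ : minCells Gd n ∈ {k | ∃ T : Finset Y, T.card = n ∧ infCells Gd T = k} :=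
    Nat.sInf_mem ⟨_, T0, hT0, rfl⟩
  have h3 := card_le T
  rw [h1, h2] at h3
  by_contra h
  have h4 : minCells Gd n ≤ K := by omega
  have : minCells Gd n * (minCells Gd n * (2 * minCells Gd n + 1)) ≤ K * (K * (2 * K + 1)) := by
    gcongr
  omega

end Pool.Agent.H86.Surv.DL
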