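import Mathlib

set_option autoImplicit false

namespace Pool.Agent.H86.Ess

open Complex Filter Topology Set Metric Bornology

theorem sep {K : Set ℂ} (hK : IsCompact K) (h : ¬ IsPreconnected K) :
    ∃ W O : Set ℂ, IsOpen W ∧ IsOpen O ∧ IsBounded W ∧ IsBounded O ∧
      Disjoint (closure W) (closure O) ∧ K ⊆ W ∪ O ∧ (K ∩ W).Nonempty ∧ (K ∩ O).Nonempty := by
  rw [isPreconnected_iff_subset_of_disjoint_closed] at h
  push Not at h
  obtain ⟨u, v, hu, hv, h1, h2, h3, h4⟩ := h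
  have d : Disjoint (K ∩ u) (K ∩ v) := disjoint_left.mpr fun x a b =>
    (h2 ▸ (⟨a.1, a.2, b.2⟩ : x ∈ K ∩ (u ∩ v)) : x ∈ (∅ : Set ℂ))
  obtain ⟨δ, hδ, h5⟩ := d.exists_cthickenings (hK.inter_right hu) (hK.inter_right hv).isClosed
  obtain ⟨x, hx, hx'⟩ := not_subset.mp h3
  obtain ⟨y, hy, hy'⟩ := not_subset.mp h4
  exact ⟨thickening δ (K ∩ u), thickening δ (K ∩ v), isOpen_thickening, isOpen_thickening,
    (hK.inter_right hu).isBounded.thickening, (hK.inter_right hv).isBounded.thickening,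
    h5.mono (closure_thickening_subset_cthickening _ _) (closure_thickening_subset_cthickening _ _),
    fun z hz => (h1 hz).imp (fun a => self_subset_thickening hδ _ ⟨hz, a⟩)
      (fun a => self_subset_thickening hδ _ ⟨hz, a⟩),
    ⟨y, hy, self_subset_thickening hδ _ ⟨hy, (h1 hy).resolve_right hy'⟩⟩,
    ⟨x, hx, self_subset_thickening hδ _ ⟨hx, (h1 hx).resolve_left hx'⟩⟩⟩

theorem fr_notMem {K W O : Set ℂ} (hW : IsOpen W) (d : Disjoint (closure W) (closure O))
    (h : K ⊆ W ∪ O) {z : ℂ} (hz : z ∈ frontier W) : z ∉ K := fun hK =>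
  (h hK).elim (fun a => (hW.frontier_eq ▸ hz).2 a)
    fun a => disjoint_left.mp d (frontier_subset_closure hz) (subset_closure a)

theorem pb {U B0 B1 A0 A1 : Set ℂ} (h0 : IsClosed B0) (h1 : IsClosed B1) (d : Disjoint B0 B1)
    (hU : frontier U ⊆ B0 ∪ B1) {a b : ℂ} (ha : a ∈ U) (hb : b ∉ U) (c0 : IsPreconnected A0)
    (c1 : IsPreconnected A1) (d0 : Disjoint A0 B0) (d1 : Disjoint A1 B1) (a0 : a ∈ A0)
    (b0 : b ∈ A0) (a1 : a ∈ A1) (b1 : b ∈ A1) : False := by
  classical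
  obtain ⟨u, u0, u1, -⟩ := exists_continuous_zero_one_of_isClosed h0 h1 d
  let p : ℂ → ℂ := fun z => u z * (Real.pi * I)
  have pc : Continuous p := by fun_prop
  have p0 : ∀ z ∈ B0, p z = 0 := fun z hz => by simp [p, u0 hz]
  have p1 : ∀ z ∈ B1, p z = Real.pi * I := fun z hz => by simp [p, u1 hz]
  let f : ℂ → ℂ := fun z => if z ∈ U then exp (p z) else exp (-p z)
  have fc : Continuous f := Continuous.if (fun z hz => (hU hz).elim
    (fun q => by simp [p0 z q]) (fun q => by rw [p1 z q, exp_neg, exp_pi_mul_I]; norm_num))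
    (by fun_prop) (by fun_prop)
  obtain ⟨g, gc, ge⟩ := exists_continuousOn_eqOn_exp_comp (U := univ) (g := f)
    (by have := (convex_univ (𝕜 := ℝ) (E := ℂ)).contractibleSpace univ_nonempty
        exact SimplyConnectedSpace.ofContractible _) isOpen_univ fc.continuousOn (by
      rintro ⟨z, -, hz⟩
      simp only [f] at hz
      split_ifs at hz <;> exact exp_ne_zero _ hz)
  have key : ∀ (A : Set ℂ) (c : ℂ), IsPreconnected A → a ∈ A → b ∈ A → exp c = 1 →
      (∀ z ∈ A ∩ frontier U, p z = c - p z) → g a - p a = g b - (c - p b) := by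
    intro A c hA a' b' hc h
    have := hA.constant_of_mapsTo (T := AddSubgroup.zmultiples (2 * Real.pi * I))
      (f := fun z => g z - if z ∈ U then p z else c - p z)
      ⟨NormedSpace.discreteTopology_zmultiples _⟩
      ((gc.mono (subset_univ _)).sub (ContinuousOn.if h pc.continuousOn (by fun_prop)))
      (fun z _ => by
        have e : exp (g z) = f z := ge (mem_univ z)
        have : exp (g z - if z ∈ U then p z else c - p z) = 1 := by
          rw [exp_sub, e]
          simp only [f]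
          split_ifs
          · exact div_self (exp_ne_zero _)
          · rw [sub_eq_add_neg, exp_add, hc, one_mul]; exact div_self (exp_ne_zero _)
        obtain ⟨n, hn⟩ := exp_eq_one_iff.mp this
        exact ⟨n, by simp only [zsmul_eq_mul]; exact hn.symm⟩) a' b'
    simpa only [if_pos ha, if_neg hb] using this
  have e0 := key A0 (2 * Real.pi * I) c0 a0 b0 exp_two_pi_mul_I fun z hz => by
    rw [p1 z ((hU hz.2).resolve_left (disjoint_left.mp d0 hz.1))]; ring
  have e1 := key A1 0 c1 a1 b1 exp_zero fun z hz => by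
    rw [p0 z ((hU hz.2).resolve_right (disjoint_left.mp d1 hz.1))]; ring
  exact two_pi_I_ne_zero (by linear_combination e0 - e1)

theorem ext_conn {R : ℝ} (hR : 0 ≤ R) : IsPreconnected {z : ℂ | R < ‖z‖} := by
  have : {z : ℂ | R < ‖z‖} =
      (fun q : ℝ × ℝ => (q.1 : ℂ) * exp (q.2 * I)) '' (Ioi R ×ˢ univ) := by
    ext z
    refine ⟨fun h => ⟨(‖z‖, arg z), ⟨h, trivial⟩, norm_mul_exp_arg_mul_I z⟩, ?_⟩
    rintro ⟨⟨r, t⟩, ⟨h, -⟩, rfl⟩
    have h' : R < r := h
    simpa [abs_of_nonneg (hR.trans h'.le)] using h'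
  rw [this]
  exact (isPreconnected_Ioi.prod isPreconnected_univ).image _ (by fun_prop)

theorem unb {B : Set ℂ} (hB : IsCompact B) {a b : ℂ} (ha : a ∉ B) (hb : b ∉ B)
    (h : ∀ W : Set ℂ, IsOpen W → IsBounded W → frontier W ⊆ B → a ∉ W ∧ b ∉ W) :
    ∃ A, IsPreconnected A ∧ Disjoint A B ∧ a ∈ A ∧ b ∈ A := by
  obtain ⟨R, R0, hR⟩ := hB.isBounded.exists_pos_norm_le
  have op := fun c => hB.isClosed.isOpen_compl.connectedComponentIn (x := c)
  have fr : ∀ c, frontier (connectedComponentIn Bᶜ c) ⊆ B := fun c z hz => by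
    by_contra q
    rw [(op c).frontier_eq] at hz
    obtain ⟨w, w1, w2⟩ := mem_closure_iff.mp hz.1 _ (op z) (mem_connectedComponentIn q)
    exact hz.2 (by
      rw [connectedComponentIn_eq w2, ← connectedComponentIn_eq w1]
      exact mem_connectedComponentIn q)
  have m : ∀ c, ¬ IsBounded (connectedComponentIn Bᶜ c) →
      (connectedComponentIn Bᶜ c ∩ {z : ℂ | R < ‖z‖}).Nonempty := fun c hc => by
    by_contra q
    exact hc (isBounded_iff_forall_norm_le.mpr ⟨R, fun z hz => not_lt.mp fun q' => q ⟨z, hz, q'⟩⟩)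
  have ma := m a fun q => (h _ (op a) q (fr a)).1 (mem_connectedComponentIn ha)
  obtain ⟨z, z1, z2⟩ := m b fun q => (h _ (op b) q (fr b)).2 (mem_connectedComponentIn hb)
  refine ⟨_, (IsPreconnected.union' ma isPreconnected_connectedComponentIn (ext_conn R0.le)).union'
    ⟨z, Or.inr z2, z1⟩ isPreconnected_connectedComponentIn, disjoint_left.mpr ?_,
    Or.inl (Or.inl (mem_connectedComponentIn ha)), Or.inr (mem_connectedComponentIn hb)⟩
  rintro w ((q | q) | q) hw
  · exact connectedComponentIn_subset _ _ q hw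
  · exact (hR w hw).not_gt q
  · exact connectedComponentIn_subset _ _ q hw

theorem clopen_empty {S : Set ℂ} (h1 : IsClosed S) (h2 : IsOpen S) (h3 : IsBounded S) : S = ∅ :=
  (isClopen_iff.mp ⟨h1, h2⟩).resolve_right fun q => NormedSpace.unbounded_univ ℝ ℂ (q ▸ h3)

section bb
variable {E F G : Type*} [NormedAddCommGroup E] [NormedSpace ℂ E] [NormedAddCommGroup F]
  [NormedSpace ℂ F] [NormedAddCommGroup G] [NormedSpace ℂ G]

/-- bounded below -/
def BB (A : E →L[ℂ] F) : Prop := ∃ C > 0, ∀ v, ‖v‖ ≤ C * ‖A v‖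

theorem loc {A B : E →L[ℂ] F} {C : ℝ} (C0 : 0 < C) (h : ∀ v, ‖v‖ ≤ C * ‖A v‖)
    (hB : ‖A - B‖ ≤ 1 / (2 * C)) (v : E) : ‖v‖ ≤ 2 * C * ‖B v‖ := by
  have a1 : ‖A v‖ ≤ ‖B v‖ + 1 / (2 * C) * ‖v‖ := by
    have := (A - B).le_opNorm v
    have a := norm_sub_norm_le (A v) (B v)
    rw [sub_apply] at this
    nlinarith [norm_nonneg v]
  have a2 := (h v).trans (mul_le_mul_of_nonneg_left a1 C0.le)
  have : C * (‖B v‖ + 1 / (2 * C) * ‖v‖) = C * ‖B v‖ + ‖v‖ / 2 := by field_simp
  linarith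

theorem unif {K : Set ℂ} (hK : IsCompact K) {J : ℂ → (E →L[ℂ] F)} (hJ : Continuous J)
    (h : ∀ z ∈ K, BB (J z)) : ∃ C > 0, ∀ z ∈ K, ∀ v, ‖v‖ ≤ C * ‖J z v‖ := by
  refine hK.induction_on (p := fun s => ∃ C > 0, ∀ z ∈ s, ∀ v, ‖v‖ ≤ C * ‖J z v‖)
    ⟨1, one_pos, by simp⟩ (fun s t hs ⟨C, h1, h2⟩ => ⟨C, h1, fun z hz => h2 z (hs hz)⟩) ?_ ?_
  · rintro s t ⟨C, h1, h2⟩ ⟨D, h3, h4⟩
    refine ⟨max C D, lt_max_of_lt_left h1, fun z hz v => hz.elim
      (fun q => (h2 z q v).trans ?_) (fun q => (h4 z q v).trans ?_)⟩ <;> gcongr <;> simp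
  · intro z hz
    obtain ⟨C, h1, h2⟩ := h z hz
    refine ⟨J ⁻¹' closedBall (J z) (1 / (2 * C)), mem_nhdsWithin_of_mem_nhds
      (hJ.continuousAt (closedBall_mem_nhds _ (by positivity))), 2 * C, by positivity,
      fun w hw => loc h1 h2 ?_⟩
    rwa [mem_preimage, mem_closedBall', dist_eq_norm] at hw

theorem peetre [CompleteSpace E] {A : E →L[ℂ] F} (hA : Function.Injective A) {K : E →L[ℂ] G}
    (hK : IsCompactOperator K) {C D : ℝ} (h : ∀ v, ‖v‖ ≤ C * ‖A v‖ + D * ‖K v‖) : BB A := by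
  by_contra q
  have : ∀ n : ℕ, ∃ v, ‖v‖ = 1 ∧ ‖A v‖ ≤ 1 / ((n : ℝ) + 1) := fun n => by
    by_contra q2
    push Not at q2
    refine q ⟨n + 1, by positivity, fun v => ?_⟩
    rcases eq_or_ne v 0 with rfl | v0
    · simp
    have p := norm_pos_iff.mpr v0
    have := q2 ((‖v‖⁻¹ : ℝ) • v) (by simp [norm_smul, p.ne'])
    rw [A.map_smul_of_tower, norm_smul, norm_inv, norm_norm, inv_mul_eq_div,
      div_lt_div_iff₀ (by positivity) p] at this
    linarith
  choose x x1 x2 using this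
  obtain ⟨S, hS, hS'⟩ := hK.image_closedBall_subset_compact 1
  obtain ⟨y, -, ψ, hψ, hy⟩ := hS.tendsto_subseq (x := fun n => K (x n))
    fun n => hS' ⟨x n, by simp [x1], rfl⟩
  have t0 : Tendsto (fun n => A (x (ψ n))) atTop (𝓝 0) :=
    (squeeze_zero_norm x2 tendsto_one_div_add_atTop_nhds_zero_nat).comp hψ.tendsto_atTop
  have cs : CauchySeq fun n => x (ψ n) := by
    rw [cauchySeq_iff_tendsto_dist_atTop_0]
    have t1 := ((cauchySeq_iff_tendsto_dist_atTop_0.mp t0.cauchySeq).const_mul C).add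
      ((cauchySeq_iff_tendsto_dist_atTop_0.mp hy.cauchySeq).const_mul D)
    rw [mul_zero, mul_zero, add_zero] at t1
    refine squeeze_zero (fun _ => dist_nonneg) (fun n => ?_) t1
    simpa only [dist_eq_norm, map_sub, Function.comp_apply] using h (x (ψ n.1) - x (ψ n.2))
  obtain ⟨w, hw⟩ := cauchySeq_tendsto_of_complete cs
  have a1 : w = 0 := hA ((tendsto_nhds_unique ((A.continuous.tendsto w).comp hw) t0).trans
    (map_zero A).symm)
  have a2 := hw.norm
  simp only [x1, a1, norm_zero] at a2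
  exact one_ne_zero (tendsto_nhds_unique tendsto_const_nhds a2)

end bb

end Pool.Agent.H86.Ess
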