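import Mathlib

set_option autoImplicit false

namespace Pool.Agent.H86.Ess

variable {H : Type*} [NormedAddCommGroup H] [InnerProductSpace ℂ H]

/-- every nontrivial closed invariant subspace has finite codimension -/
def QH (T : H →L[ℂ] H) : Prop :=
  ∀ M : Submodule ℂ H, IsClosed (M : Set H) → (∀ x ∈ M, T x ∈ M) → M ≠ ⊥ → M ≠ ⊤ →
    FiniteDimensional ℂ (H ⧸ M)

/-- essential spectrum: the scalar minus the operator is not invertible modulo compacts -/
def ess (T : H →L[ℂ] H) : Set ℂ :=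
  {μ | ¬ ∃ S : H →L[ℂ] H, IsCompactOperator (S * (μ • 1 - T) - 1 : H →L[ℂ] H) ∧
    IsCompactOperator ((μ • 1 - T) * S - 1 : H →L[ℂ] H)}

end Pool.Agent.H86.Ess
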