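import Pool.Agent.H86.EssA
import Pool.Agent.H86.EssDefs

set_option autoImplicit false
set_option linter.unusedSectionVars false

namespace Pool.Agent.H86.Ess

open Complex Filter Topology Set Metric Bornology ContinuousLinearMap Polynomial

variable {H : Type*} [NormedAddCommGroup H] [InnerProductSpace ℂ H] [CompleteSpace H]
  {T : H →L[ℂ] H}

/-- scalar minus the operator -/
noncomputable def Am (T : H →L[ℂ] H) (μ : ℂ) : H →L[ℂ] H := μ • 1 - T

theorem Am_apply (μ : ℂ) (x : H) : Am T μ x = μ • x - T x := by simp [Am]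

theorem Am_cont : Continuous (Am T) := by unfold Am; fun_prop

theorem mem_sp (μ : ℂ) : μ ∈ spectrum ℂ T ↔ ¬ IsUnit (Am T μ) := by
  rw [spectrum.mem_iff, Algebra.algebraMap_eq_smul_one, Am]

theorem QH.fc (h : QH T) (M : Submodule ℂ H) (h1 : IsClosed (M : Set H)) (h2 : ∀ x ∈ M, T x ∈ M)
    (h3 : M ≠ ⊥) : FiniteDimensional ℂ (H ⧸ M) := by
  by_cases q : M = ⊤
  · have := Submodule.Quotient.subsingleton_iff.mpr q
    infer_instance
  · exact h M h1 h2 h3 q

theorem QH.inj (h : QH T) (hH : ¬ FiniteDimensional ℂ H) (μ : ℂ) :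
    Function.Injective (Am T μ) := by
  refine (injective_iff_map_eq_zero _).mpr fun x hx => by_contra fun x0 => hH ?_
  rw [Am_apply, sub_eq_zero] at hx
  have := h.fc (ℂ ∙ x) (Submodule.closed_of_finiteDimensional _) (fun y hy => by
    obtain ⟨c, rfl⟩ := Submodule.mem_span_singleton.mp hy
    rw [map_smul, ← hx]
    exact Submodule.smul_mem _ _ (Submodule.smul_mem _ _ (Submodule.mem_span_singleton_self x)))
    (by simpa using x0)
  exact Module.Finite.of_submodule_quotient (ℂ ∙ x)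

theorem cptQ (M : Submodule ℂ H) [CompleteSpace M] [FiniteDimensional ℂ (H ⧸ M)] :
    IsCompactOperator (1 - M.starProjection : H →L[ℂ] H) := by
  have : FiniteDimensional ℂ Mᗮ := FiniteDimensional.of_injective (M.mkQ ∘ₗ Mᗮ.subtype)
    ((injective_iff_map_eq_zero _).mpr fun x hx => Subtype.ext
      ((Submodule.disjoint_def.mp M.orthogonal_disjoint) _
        ((Submodule.Quotient.mk_eq_zero M).mp hx) x.2))
  have := FiniteDimensional.proper ℂ Mᗮ
  rw [← Submodule.starProjection_orthogonal']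
  exact (isCompactOperator_of_locallyCompactSpace_dom Mᗮ.orthogonalProjectionOnto).clm_comp
    Mᗮ.subtypeL

theorem fcBB {A : H →L[ℂ] H} (hA : Function.Injective A) (M : Submodule ℂ H)
    [FiniteDimensional ℂ (H ⧸ M.topologicalClosure)] {C : ℝ} (C0 : 0 ≤ C)
    (h : ∀ g ∈ M, ‖g‖ ≤ C * ‖A g‖) : BB A := by
  have h' : ∀ g ∈ M.topologicalClosure, ‖g‖ ≤ C * ‖A g‖ :=
    closure_minimal (t := {g | ‖g‖ ≤ C * ‖A g‖}) h (isClosed_le (by fun_prop) (by fun_prop))
  refine peetre hA (cptQ M.topologicalClosure) (C := C) (D := C * ‖A‖ + 1) fun v => ?_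
  have a1 := h' _ (M.topologicalClosure.starProjection_apply_mem v)
  set P := M.topologicalClosure.starProjection
  have a2 := norm_sub_norm_le v (P v)
  have a3 := norm_sub_le (A v) (A (v - P v))
  rw [← map_sub, sub_sub_cancel] at a3
  have a4 := A.le_opNorm (v - P v)
  have : (1 - P) v = v - P v := rfl
  rw [this]
  nlinarith

theorem BB.closed {E : Type*} [NormedAddCommGroup E] [NormedSpace ℂ E] [CompleteSpace E]
    {A : E →L[ℂ] H} (h : BB A) : IsClosed (range A) := by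
  obtain ⟨C, C0, h⟩ := h
  exact (A.antilipschitz_of_bound (K := ⟨C, C0.le⟩) h).isClosed_range A.uniformContinuous

theorem ess_iff (h : QH T) (hH : ¬ FiniteDimensional ℂ H) (μ : ℂ) :
    μ ∈ ess T ↔ ¬ BB (Am T μ) := by
  refine not_congr ⟨fun ⟨S, h1, _⟩ => peetre (h.inj hH μ) h1 (C := ‖S‖) (D := 1) fun v => ?_,
    fun hb => ?_⟩
  · have a1 := S.le_opNorm (Am T μ v)
    have a2 := norm_sub_le (S (Am T μ v)) (S (Am T μ v) - v)
    rw [sub_sub_cancel] at a2
    have : (S * (μ • 1 - T) - 1 : H →L[ℂ] H) v = S (Am T μ v) - v := rfl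
    rw [this]
    linarith
  · change ∃ S : H →L[ℂ] H, IsCompactOperator (S * Am T μ - 1 : H →L[ℂ] H) ∧
      IsCompactOperator (Am T μ * S - 1 : H →L[ℂ] H)
    have inj := h.inj hH μ
    set A := Am T μ with hA
    have cl : IsClosed (A.range : Set H) := hb.closed
    have := cl.completeSpace_coe
    have := h.fc A.range cl (by
      rintro _ ⟨x, rfl⟩
      exact ⟨T x, by simp [hA, Am_apply]⟩) fun q => hH (by
        have : Subsingleton H := ⟨fun a b => inj (((Submodule.eq_bot_iff _).mp q _ ⟨a, rfl⟩).trans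
          ((Submodule.eq_bot_iff _).mp q _ ⟨b, rfl⟩).symm)⟩
        infer_instance)
    let e := A.equivRange inj cl
    have e1 : ∀ y, A (e.symm y) = y := fun y => congrArg Subtype.val (e.apply_symm_apply y)
    refine ⟨(e.symm : A.range →L[ℂ] H) ∘L A.range.orthogonalProjectionOnto, ?_, ?_⟩
    · have : (e.symm : A.range →L[ℂ] H) ∘L A.range.orthogonalProjectionOnto * A - 1 = 0 := by
        ext1 x
        exact sub_eq_zero.mpr (inj ((e1 _).trans
          (Submodule.starProjection_eq_self_iff.mpr ⟨x, rfl⟩)))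
      rw [this]
      exact isCompactOperator_zero
    · have : A * (e.symm : A.range →L[ℂ] H) ∘L A.range.orthogonalProjectionOnto - 1 =
          -(1 - A.range.starProjection) := by
        rw [neg_sub]
        congr 1
        ext1 x
        exact e1 _
      rw [this]
      exact (cptQ _).neg

theorem bb_open : IsOpen {μ | BB (Am T μ)} := by
  refine isOpen_iff_mem_nhds.mpr fun z ⟨C, h1, h2⟩ => mem_of_superset
    (Am_cont.continuousAt (closedBall_mem_nhds (Am T z) (by positivity : 0 < 1 / (2 * C))))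
    fun w hw => ⟨2 * C, by positivity, loc h1 h2 ?_⟩
  rwa [mem_preimage, mem_closedBall', dist_eq_norm] at hw

theorem unit_bb {A : H →L[ℂ] H} (h : IsUnit A) : BB A := by
  obtain ⟨u, rfl⟩ := h
  refine ⟨‖(↑u⁻¹ : H →L[ℂ] H)‖ + 1, by positivity, fun v => ?_⟩
  have := (↑u⁻¹ : H →L[ℂ] H).le_opNorm (u.1 v)
  rw [← mul_apply_eq_comp, u.inv_mul, one_apply_eq_self] at this
  nlinarith [norm_nonneg (u.1 v)]

theorem g1_open : IsOpen {μ | BB (Am T μ) ∧ ¬ IsUnit (Am T μ)} := by
  refine isOpen_iff_mem_nhds.mpr fun z ⟨⟨C, h1, h2⟩, h3⟩ => mem_of_superset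
    (Am_cont.continuousAt (ball_mem_nhds (Am T z) (by positivity : 0 < 1 / (2 * C))))
    fun w hw => ?_
  rw [mem_preimage, mem_ball', dist_eq_norm] at hw
  have a := loc h1 h2 hw.le
  refine ⟨⟨2 * C, by positivity, a⟩, fun ⟨u, hu⟩ => h3 ?_⟩
  have n : ‖(↑u⁻¹ : H →L[ℂ] H)‖ ≤ 2 * C := opNorm_le_bound _ (by positivity) fun v => by
    have := a ((↑u⁻¹ : H →L[ℂ] H) v)
    rwa [← hu, ← mul_apply_eq_comp, u.mul_inv, one_apply_eq_self] at this
  have n2 : ‖(↑u⁻¹ : H →L[ℂ] H) * (Am T w - Am T z)‖ < 1 := by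
    refine (norm_mul_le _ _).trans_lt ?_
    rw [norm_sub_rev, lt_div_iff₀ (by positivity)] at hw
    nlinarith [norm_nonneg (Am T w - Am T z)]
  have := u.isUnit.mul (Units.oneSub _ n2).isUnit
  rwa [Units.val_oneSub, mul_sub, ← mul_assoc, u.mul_inv, one_mul, mul_one, hu,
    sub_sub_cancel] at this

theorem claimA (h : QH T) (hH : ¬ FiniteDimensional ℂ H) {W : Set ℂ} (hW : IsBounded W)
    (hf : ∀ z ∈ frontier W, BB (Am T z) ∧ ¬ IsUnit (Am T z)) {μ : ℂ} (hμ : μ ∈ W) :
    BB (Am T μ) := by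
  have : Nontrivial H := not_subsingleton_iff_nontrivial.mp fun _ => hH inferInstance
  obtain ⟨x, x0⟩ := exists_ne (0 : H)
  let L : ℂ[X] →ₗ[ℂ] H := (ContinuousLinearMap.apply ℂ H x).toLinearMap ∘ₗ (aeval T).toLinearMap
  have L0 : ∀ p, L p = aeval T p x := fun p => rfl
  have L1 : ∀ p, L (X * p) = T (L p) := fun p => by simp [L0]
  let M := L.range.topologicalClosure
  have mM : ∀ y ∈ L.range, y ∈ M := fun y hy => Submodule.le_topologicalClosure _ hy
  have iM : ∀ y ∈ M, T y ∈ M := fun y hy => map_mem_closure T.continuous hy (by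
    rintro _ ⟨p, rfl⟩; exact ⟨X * p, L1 p⟩)
  have iA : ∀ z, ∀ y ∈ M, Am T z y ∈ M := fun z y hy => by
    rw [Am_apply]; exact M.sub_mem (M.smul_mem _ hy) (iM y hy)
  have : FiniteDimensional ℂ (H ⧸ M) := h.fc M (Submodule.isClosed_topologicalClosure _) iM
    fun q => x0 ((Submodule.eq_bot_iff _).mp q x (mM _ ⟨1, by simp [L0]⟩))
  have ex : ∀ p : ℂ[X], ∃ Φ : ℂ → H, Differentiable ℂ Φ ∧
      ∀ z, Φ z ∈ L.range ∧ Am T z (Φ z) = p.eval z • x - L p := fun p => by
    induction p using Polynomial.induction_on with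
    | C a => exact ⟨0, by fun_prop, fun z => ⟨zero_mem _, by
        simp [L0, Algebra.algebraMap_eq_smul_one]⟩⟩
    | add p q hp hq =>
      obtain ⟨Φ, a1, a2⟩ := hp
      obtain ⟨Ψ, b1, b2⟩ := hq
      exact ⟨Φ + Ψ, a1.add b1, fun z => ⟨add_mem (a2 z).1 (b2 z).1, by
        rw [Pi.add_apply, map_add, (a2 z).2, (b2 z).2, eval_add, map_add]; module⟩⟩
    | monomial n a hp =>
      obtain ⟨Φ, a1, a2⟩ := hp
      refine ⟨fun z => L (C a * X ^ n) + z • Φ z, by fun_prop, fun z =>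
        ⟨add_mem ⟨_, rfl⟩ (Submodule.smul_mem _ _ (a2 z).1), ?_⟩⟩
      rw [show C a * X ^ (n + 1) = X * (C a * X ^ n) by ring, map_add, map_smul, (a2 z).2, L1,
        Am_apply, eval_mul (p := X), eval_X]
      module
  let J : ℂ → (M × ℂ →L[ℂ] H) := fun z =>
    Am T z ∘L (M.subtypeL ∘L fst ℂ M ℂ) + toSpanSingleton ℂ x ∘L snd ℂ M ℂ
  have J1 : ∀ z v, J z v = Am T z v.1 + v.2 • x := fun z v => rfl
  have Jb : ∀ z ∈ frontier W, BB (J z) := fun z hz => by
    obtain ⟨⟨C, C0, hC⟩, nu⟩ := hf z hz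
    refine peetre ((injective_iff_map_eq_zero _).mpr fun v hv => ?_)
      (isCompactOperator_of_locallyCompactSpace_dom (snd ℂ M ℂ)) (C := C) (D := C * ‖x‖ + 1)
      fun v => ?_
    · rw [J1] at hv
      by_cases s0 : v.2 = 0
      · rw [s0, zero_smul, add_zero] at hv
        exact Prod.ext (Subtype.ext (h.inj hH z (hv.trans (map_zero _).symm))) s0
      refine absurd (isUnit_iff_bijective.mpr ⟨h.inj hH z, fun y => ?_⟩) nu
      let N := (Am T z ∘L M.subtypeL).range
      have xN : x ∈ N := ⟨-v.2⁻¹ • v.1, by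
        have : Am T z v.1 = -(v.2 • x) := eq_neg_of_add_eq_zero_left hv
        simp [this, smul_smul, s0]⟩
      have MN : M ≤ N := Submodule.topologicalClosure_minimal _ (by
        rintro _ ⟨p, rfl⟩
        obtain ⟨Φ, -, a⟩ := ex p
        have : L p = p.eval z • x - Am T z (Φ z) := by rw [(a z).2, sub_sub_cancel]
        rw [this]
        exact N.sub_mem (N.smul_mem _ xN) ⟨⟨Φ z, mM _ (a z).1⟩, rfl⟩)
        (BB.closed ⟨C, C0, fun v => hC v⟩)
      let B := M.mapQ M (Am T z : H →ₗ[ℂ] H) (iA z)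
      have Bi : Function.Injective B := (injective_iff_map_eq_zero _).mpr fun w hw => by
        obtain ⟨w, rfl⟩ := M.mkQ_surjective w
        obtain ⟨m, hm⟩ := MN ((Submodule.Quotient.mk_eq_zero M).mp hw)
        exact (Submodule.Quotient.mk_eq_zero M).mpr (h.inj hH z hm ▸ m.2)
      obtain ⟨w, hw⟩ := LinearMap.surjective_of_injective Bi (M.mkQ y)
      obtain ⟨w, rfl⟩ := M.mkQ_surjective w
      obtain ⟨m, hm⟩ := MN ((Submodule.Quotient.eq M).mp hw)
      exact ⟨w - m, by rw [map_sub]; exact sub_eq_iff_comm.mp hm.symm⟩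
    · have a1 := hC v.1
      have a2 := norm_sub_le (J z v) (v.2 • x)
      rw [J1, add_sub_cancel_right, norm_smul, ← J1] at a2
      have a3 : ‖v‖ ≤ ‖(v.1 : H)‖ + ‖v.2‖ := max_le (le_add_of_nonneg_right (norm_nonneg _))
        (le_add_of_nonneg_left (norm_nonneg _))
      have : ‖snd ℂ M ℂ v‖ = ‖v.2‖ := rfl
      rw [this]
      nlinarith
  obtain ⟨C, C0, hC⟩ := unif (hW.isCompact_closure.of_isClosed_subset isClosed_frontier
    frontier_subset_closure) (J := J) ((Am_cont.clm_comp continuous_const).add continuous_const) Jb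
  refine fcBB (h.inj hH μ) L.range C0.le ?_
  rintro _ ⟨q, rfl⟩
  obtain ⟨Φ, a1, a2⟩ := ex ((Polynomial.C μ - X) * q)
  have e1 : L ((Polynomial.C μ - X) * q) = Am T μ (L q) := by
    rw [sub_mul, map_sub, L1, ← smul_eq_C_mul, map_smul, Am_apply]
  have e2 : Φ μ = -L q := h.inj hH μ (by rw [(a2 μ).2, e1]; simp)
  rw [← norm_neg, ← e2]
  refine norm_le_of_forall_mem_frontier_norm_le hW a1.diffContOnCl (fun z hz => ?_)
    (subset_closure hμ)
  have := hC z hz (-⟨Φ z, mM _ (a2 z).1⟩, ((Polynomial.C μ - X) * q).eval z)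
  have e3 : Am T z (-Φ z) + ((Polynomial.C μ - X) * q).eval z • x = Am T μ (L q) := by
    rw [map_neg, (a2 z).2, neg_sub, sub_add_cancel, e1]
  rw [← e3]
  exact le_trans (by rw [← norm_neg]; exact le_max_left _ _) this

end Pool.Agent.H86.Ess
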