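import Pool.Agent.H86.EssB

set_option autoImplicit false

namespace Pool.Agent.H86.Ess

open Complex Filter Topology Set Metric Bornology ContinuousLinearMap

variable {H : Type*} [NormedAddCommGroup H] [InnerProductSpace ℂ H] [CompleteSpace H]
  {T : H →L[ℂ] H}

/-- matrix coefficient of an operator-valued function -/
noncomputable def co {K : Type*} [TopologicalSpace K] (Λ : C(K, H →L[ℂ] H)) (v w : H) : C(K, ℂ) :=
  ⟨fun z => inner ℂ v (Λ z w), by fun_prop⟩

theorem exOp {K : Type*} [TopologicalSpace K] [CompactSpace K] (ν : C(K, ℂ) →L[ℂ] ℂ)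
    (Λ : C(K, H →L[ℂ] H)) : ∃ P : H →L[ℂ] H, ∀ v w, inner ℂ v (P w) = ν (co Λ v w) := by
  let B : H →ₗ⋆[ℂ] H →ₗ[ℂ] ℂ := LinearMap.mk₂'ₛₗ _ _ (fun v w => ν (co Λ v w))
    (fun a b w => by rw [← map_add]; congr 1; ext z; simp [co])
    (fun c a w => by rw [← map_smul]; congr 1; ext z; simp [co, mul_comm])
    (fun v a b => by rw [← map_add]; congr 1; ext z; simp [co])
    (fun c v a => by rw [RingHom.id_apply, ← map_smul]; congr 1; ext z; simp [co])
  have hB : ∀ v w, ‖B v w‖ ≤ ‖ν‖ * ‖Λ‖ * ‖v‖ * ‖w‖ := fun v w => by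
    refine (ν.le_opNorm _).trans ?_
    rw [mul_assoc, mul_assoc]
    refine mul_le_mul_of_nonneg_left ((ContinuousMap.norm_le _ (by positivity)).mpr fun z =>
      (norm_inner_le_norm v (Λ z w)).trans ?_) (norm_nonneg _)
    rw [mul_left_comm]
    exact mul_le_mul_of_nonneg_left (((Λ z).le_opNorm w).trans (mul_le_mul_of_nonneg_right
      (Λ.norm_coe_le_norm z) (norm_nonneg _))) (norm_nonneg _)
  refine ⟨adjoint (InnerProductSpace.continuousLinearMapOfBilin (B.mkContinuous₂ _ hB)),
    fun v w => ?_⟩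
  rw [adjoint_inner_right, InnerProductSpace.continuousLinearMapOfBilin_apply]
  rfl

theorem claimB (h : QH T) (hH : ¬ FiniteDimensional ℂ H) {W O : Set ℂ} (hW : IsOpen W)
    (hO : IsOpen O) (bW : IsBounded W) (bO : IsBounded O) (d : Disjoint (closure W) (closure O))
    (fW : ∀ z ∈ frontier W, IsUnit (Am T z)) (fO : ∀ z ∈ frontier O, IsUnit (Am T z))
    {a : ℂ} (ha : a ∈ W) (ha' : ¬ IsUnit (Am T a)) {μ : ℂ} (hμ : μ ∈ O) : BB (Am T μ) := by
  have cpt : ∀ {U : Set ℂ}, IsBounded U → IsCompact (frontier U) := fun hU =>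
    hU.isCompact_closure.of_isClosed_subset isClosed_frontier frontier_subset_closure
  have : CompactSpace (frontier W) := isCompact_iff_compactSpace.mp (cpt bW)
  let ζ : C(frontier W, ℂ) := ⟨Subtype.val, continuous_subtype_val⟩
  have rs : ∀ μ ∉ frontier W, μ ∈ resolventSet ℂ ζ := fun μ hμ =>
    (ContinuousMap.isUnit_iff_forall_ne_zero _).mpr fun z q => hμ (by
      have : μ = z := by simpa [ζ, sub_eq_zero] using q
      exact this ▸ z.2)
  have rv : ∀ μ ∉ frontier W, ∀ z, resolvent ζ μ z = (μ - z)⁻¹ := fun μ hμ z => by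
    have := congrArg (fun f : C(frontier W, ℂ) => f z) (Ring.inverse_mul_cancel _ (rs μ hμ))
    exact eq_inv_of_mul_eq_one_left (by simpa [ζ, resolvent] using this)
  have nO : ∀ μ ∈ closure O, μ ∉ closure W := fun μ h1 h2 => disjoint_left.mp d h2 h1
  have nO' : ∀ μ ∈ closure O, μ ∉ frontier W := fun μ h1 h2 =>
    nO μ h1 (frontier_subset_closure h2)
  have na : a ∉ frontier W := fun q => (hW.frontier_eq ▸ q).2 ha
  let S := Submodule.span ℂ (resolvent ζ '' closure O)
  obtain ⟨D, D0, hD⟩ := (cpt bW).isBounded.subset_closedBall_lt 0 a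
  have far : ∀ g ∈ S, 1 ≤ D * ‖g - resolvent ζ a‖ := fun g hg => by
    obtain ⟨G, G1, G2⟩ : ∃ G : ℂ → ℂ, DifferentiableOn ℂ G (closure W) ∧ ∀ z, g z = G z := by
      induction hg using Submodule.span_induction with
      | mem g hg =>
        obtain ⟨μ, hμ, rfl⟩ := hg
        exact ⟨fun z => (μ - z)⁻¹, DifferentiableOn.inv (by fun_prop) fun z hz q =>
          nO μ hμ (sub_eq_zero.mp q ▸ hz), rv μ (nO' μ hμ)⟩
      | zero => exact ⟨0, by fun_prop, fun _ => rfl⟩
      | add _ _ _ _ a b =>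
        obtain ⟨G, G1, G2⟩ := a
        obtain ⟨G', G3, G4⟩ := b
        exact ⟨G + G', G1.add G3, fun z => by simp [G2, G4]⟩
      | smul c _ _ a =>
        obtain ⟨G, G1, G2⟩ := a
        exact ⟨c • G, G1.const_smul c, fun z => by simp [G2]⟩
    have := norm_le_of_forall_mem_frontier_norm_le (f := fun z => (a - z) * G z - 1) bW
      (DifferentiableOn.diffContOnCl (by fun_prop)) (C := D * ‖g - resolvent ζ a‖)
      (fun z hz => by
        have e : (a - z) * G z - 1 = (a - z) * (g - resolvent ζ a) ⟨z, hz⟩ := by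
          rw [ContinuousMap.sub_apply, G2, rv a na, mul_sub,
            mul_inv_cancel₀ (sub_ne_zero.mpr (by rintro rfl; exact na hz))]
        rw [e, norm_mul]
        exact mul_le_mul (by simpa [dist_eq_norm, norm_sub_rev] using hD hz)
          (ContinuousMap.norm_coe_le_norm _ _) (norm_nonneg _) D0.le) (subset_closure ha)
    simpa using this
  have nm : resolvent ζ a ∉ S.topologicalClosure := fun q => by
    have := closure_minimal (t := {g | 1 ≤ D * ‖g - resolvent ζ a‖}) far
      (isClosed_le (by fun_prop) (by fun_prop)) q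
    norm_num at this
  have : IsClosed (S.topologicalClosure : Set C(frontier W, ℂ)) := S.isClosed_topologicalClosure
  obtain ⟨ℓ, hℓ⟩ := SeparatingDual.exists_eq_one (R := ℂ)
    (x := S.topologicalClosure.mkQ (resolvent ζ a))
    fun q => nm ((Submodule.Quotient.mk_eq_zero _).mp q)
  let ν := ℓ ∘L S.topologicalClosure.mkQL
  have ν1 : ν (resolvent ζ a) = 1 := hℓ
  have ν0 : ∀ μ ∈ closure O, ν (resolvent ζ μ) = 0 := fun μ hμ => by
    have : S.topologicalClosure.mkQL (resolvent ζ μ) = 0 := (Submodule.Quotient.mk_eq_zero _).mpr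
      (S.le_topologicalClosure (Submodule.subset_span ⟨μ, hμ, rfl⟩))
    simp only [ν, comp_apply, this, map_zero]
  let R : C(frontier W, H →L[ℂ] H) := ⟨fun z => Ring.inverse (Am T z),
    continuous_iff_continuousAt.mpr fun z => by
      obtain ⟨u, hu⟩ := fW z z.2
      exact ContinuousAt.comp (g := Ring.inverse) (hu ▸ NormedRing.inverse_continuousAt u)
        (Am_cont.comp continuous_subtype_val).continuousAt⟩
  have Az : ∀ (μ z : ℂ), Am T μ = Am T z + (μ - z) • 1 := fun μ z => by
    simp only [Am]; module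
  have R1 : ∀ (μ : ℂ) z, Am T μ * R z = 1 + (μ - z) • R z := fun μ z => by
    rw [Az μ z, add_mul, smul_mul_assoc, one_mul]
    exact congrArg (· + _) (Ring.mul_inverse_cancel _ (fW z z.2))
  have R2 : ∀ (μ : ℂ) z, R z * Am T μ = 1 + (μ - z) • R z := fun μ z => by
    rw [Az μ z, mul_add, mul_smul_comm, mul_one]
    exact congrArg (· + _) (Ring.inverse_mul_cancel _ (fW z z.2))
  obtain ⟨P, hP⟩ := exOp ν R
  choose F hF using fun μ : ℂ => exOp ν (resolvent ζ μ • R)
  have hF' : ∀ μ v w, inner ℂ v (F μ w) = ν (resolvent ζ μ * co R v w) := fun μ v w => by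
    rw [hF]; congr 1; ext z; simp [co]
  have key : ∀ μ ∉ frontier W, Am T μ * F μ = ν (resolvent ζ μ) • 1 + P ∧
      F μ * Am T μ = ν (resolvent ζ μ) • 1 + P := fun μ hμ => by
    have ne : ∀ z : frontier W, μ - z ≠ 0 := fun z => sub_ne_zero.mpr (by
      rintro rfl; exact hμ z.2)
    have e : ∀ v w, inner ℂ v ((ν (resolvent ζ μ) • 1 + P : H →L[ℂ] H) w) =
        ν (inner ℂ v w • resolvent ζ μ + co R v w) := fun v w => by
      simp [inner_add_right, inner_smul_right, hP, mul_comm]
    constructor <;> refine ContinuousLinearMap.ext fun w => ext_inner_left ℂ fun v => ?_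
    · rw [e, mul_apply_eq_comp, ← adjoint_inner_left, hF']
      congr 1; ext z
      have := congrArg (fun S : H →L[ℂ] H => inner ℂ v (S w)) (R1 μ z)
      simp only [mul_apply_eq_comp] at this
      simp [co, adjoint_inner_left, this, inner_add_right, inner_smul_right, rv μ hμ, mul_add,
        ne z, mul_comm]
    · rw [e, mul_apply_eq_comp, hF']
      congr 1; ext z
      have := congrArg (fun S : H →L[ℂ] H => inner ℂ v (S w)) (R2 μ z)
      simp only [mul_apply_eq_comp] at this
      simp [co, this, inner_add_right, inner_smul_right, rv μ hμ, mul_add, ne z, mul_comm]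
  have kO : ∀ μ ∈ closure O, Am T μ * F μ = P ∧ F μ * Am T μ = P := fun μ hμ => by
    simpa [ν0 μ hμ] using key μ (nO' μ hμ)
  have P0 : P ≠ 0 := fun q => ha' (by
    have := key a na
    rw [ν1, q, one_smul, add_zero] at this
    exact ⟨⟨_, _, this.1, this.2⟩, rfl⟩)
  obtain ⟨k1, k2⟩ := kO μ (subset_closure hμ)
  have cm : ∀ w, P (Am T μ w) = Am T μ (P w) := fun w => by
    rw [← mul_apply_eq_comp, ← mul_apply_eq_comp]
    conv_lhs => rw [← k1, mul_assoc, k2]
  have := h.fc P.range.topologicalClosure (Submodule.isClosed_topologicalClosure _)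
    (fun y hy => map_mem_closure T.continuous hy (by
      rintro _ ⟨w, rfl⟩
      have := cm w
      rw [Am_apply, Am_apply, map_sub, map_smul, sub_right_inj] at this
      exact ⟨T w, this⟩)) fun q => P0 (ContinuousLinearMap.ext fun w =>
        (Submodule.eq_bot_iff _).mp q _ (Submodule.le_topologicalClosure _ ⟨w, rfl⟩))
  obtain ⟨C, C0, hC⟩ := unif (cpt bO) Am_cont fun z hz => unit_bb (fO z hz)
  have bd : ∀ w, ‖F μ w‖ ≤ C * ‖P w‖ := fun w => by
    have := norm_le_of_forall_mem_frontier_norm_le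
      (f := fun z => ν (resolvent ζ z * co R (F μ w) w)) bO
      (DifferentiableOn.diffContOnCl fun z hz => (ν.differentiableAt.comp z
        ((spectrum.hasDerivAt_resolvent_const_left
          (rs z (nO' z hz))).differentiableAt.mul_const _)).differentiableWithinAt)
      (C := ‖F μ w‖ * (C * ‖P w‖)) (fun z hz => by
        rw [← hF']
        refine (norm_inner_le_norm _ _).trans (mul_le_mul_of_nonneg_left ?_ (norm_nonneg _))
        have := hC z hz (F z w)
        rwa [← mul_apply_eq_comp, (kO z (frontier_subset_closure hz)).1] at this)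
      (subset_closure hμ)
    rw [← hF', inner_self_eq_norm_sq_to_K, norm_pow, norm_algebraMap', norm_norm] at this
    rcases (norm_nonneg (F μ w)).eq_or_lt with q | q
    · rw [← q]; positivity
    · nlinarith
  refine fcBB (h.inj hH μ) P.range C0.le ?_
  rintro _ ⟨w, rfl⟩
  have := bd (Am T μ w)
  rwa [← mul_apply_eq_comp, k2, cm] at this

theorem sp_conn (h : QH T) (hH : ¬ FiniteDimensional ℂ H) : IsPreconnected (spectrum ℂ T) := by
  by_contra q
  obtain ⟨W, O, hW, hO, bW, bO, d, s, ⟨a, a1, a2⟩, ne⟩ := sep (spectrum.isCompact T) q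
  have B := fun μ => claimB h hH hW hO bW bO d
    (fun z hz => not_not.mp (mt (mem_sp z).mpr (fr_notMem hW d s hz)))
    (fun z hz => not_not.mp (mt (mem_sp z).mpr (fr_notMem hO d.symm (union_comm W O ▸ s) hz)))
    a2 ((mem_sp a).mp a1) (μ := μ)
  refine ne.ne_empty (clopen_empty ?_ ?_ (bO.subset inter_subset_right))
  · have : spectrum ℂ T ∩ O = spectrum ℂ T ∩ Wᶜ := Set.ext fun z => and_congr_right fun hz =>
      ⟨fun a b => disjoint_left.mp d (subset_closure b) (subset_closure a),
        fun a => (s hz).resolve_left a⟩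
    rw [this]
    exact (spectrum.isClosed T).inter hW.isClosed_compl
  · have : spectrum ℂ T ∩ O = {μ | BB (Am T μ) ∧ ¬ IsUnit (Am T μ)} ∩ O :=
      Set.ext fun z => and_congr_left fun hz =>
        ⟨fun a => ⟨B z hz, (mem_sp z).mp a⟩, fun a => (mem_sp z).mpr a.2⟩
    rw [this]
    exact g1_open.inter hO

theorem main (h : QH T) (hH : ¬ FiniteDimensional ℂ H) : IsConnected (ess T) := by
  have e : ess T = {μ | BB (Am T μ)}ᶜ := Set.ext (ess_iff h hH)
  have sub : ess T ⊆ spectrum ℂ T := fun z hz =>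
    (mem_sp z).mpr fun u => (ess_iff h hH z).mp hz (unit_bb u)
  have cp : IsCompact (ess T) :=
    (spectrum.isCompact T).of_isClosed_subset (e ▸ bb_open.isClosed_compl) sub
  constructor
  · have : Nontrivial H := not_subsingleton_iff_nontrivial.mp fun _ => hH inferInstance
    by_contra q
    refine (spectrum.nonempty T).ne_empty (clopen_empty (spectrum.isClosed T) ?_
      (spectrum.isBounded T))
    have : spectrum ℂ T = {μ | BB (Am T μ) ∧ ¬ IsUnit (Am T μ)} := Set.ext fun z =>
      ⟨fun a => ⟨not_not.mp fun b => q ⟨z, (ess_iff h hH z).mpr b⟩, (mem_sp z).mp a⟩,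
        fun a => (mem_sp z).mpr a.2⟩
    rw [this]
    exact g1_open
  by_contra q
  obtain ⟨W, O, hW, hO, bW, bO, d, s, ⟨a, a1, a2⟩, ⟨b, b1, b2⟩⟩ := sep cp q
  have fb : ∀ z ∈ frontier W, BB (Am T z) := fun z hz =>
    not_not.mp (mt (ess_iff h hH z).mpr (fr_notMem hW d s hz))
  have c0 : IsClosed (frontier W ∩ (spectrum ℂ T)ᶜ) := by
    have : frontier W ∩ (spectrum ℂ T)ᶜ = frontier W ∩ {μ | BB (Am T μ) ∧ ¬ IsUnit (Am T μ)}ᶜ :=
      Set.ext fun z => and_congr_right fun hz => not_congr
        ⟨fun a => ⟨fb z hz, (mem_sp z).mp a⟩, fun a => (mem_sp z).mpr a.2⟩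
    rw [this]
    exact isClosed_frontier.inter g1_open.isClosed_compl
  have c1 : IsCompact (frontier W ∩ spectrum ℂ T) :=
    (spectrum.isCompact T).inter_left isClosed_frontier
  obtain ⟨A, A1, A2, A3, A4⟩ := unb c1 (a := a) (b := b) (fun q => fr_notMem hW d s q.1 a1)
    (fun q => fr_notMem hW d s q.1 b1) fun U _ bU fU => by
      have := fun μ => claimA h hH bU (fun z hz => ⟨fb z (fU hz).1, (mem_sp z).mp (fU hz).2⟩)
        (μ := μ)
      exact ⟨fun q => (ess_iff h hH a).mp a1 (this a q), fun q => (ess_iff h hH b).mp b1 (this b q)⟩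
  exact pb c0 c1.isClosed (disjoint_left.mpr fun z p q => p.2 q.2)
    (fun z hz => (em (z ∈ spectrum ℂ T)).symm.imp (⟨hz, ·⟩) (⟨hz, ·⟩)) a2
    (fun q => disjoint_left.mp d (subset_closure q) (subset_closure b2)) (sp_conn h hH) A1
    (disjoint_left.mpr fun z p q => q.2 p) A2 (sub a1) (sub b1) A3 A4

theorem not_two {c : ℂ} {r R : ℝ} (h0 : 0 < r) (h1 : r < R) :
    ¬ IsPreconnected (sphere c r ∪ sphere c R) := fun q => by
  have := (q.image (fun z => dist z c) (by fun_prop)).Icc_subset (a := r) (b := R)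
    ⟨c + r, Or.inl (by simp [h0.le]), by simp [h0.le]⟩
    ⟨c + R, Or.inr (by simp [(h0.trans h1).le]), by simp [(h0.trans h1).le]⟩
    (⟨by linarith, by linarith⟩ : (r + R) / 2 ∈ Icc r R)
  obtain ⟨z, hz | hz, e⟩ := this <;> rw [mem_sphere] at hz <;> simp only [hz] at e <;> linarith

end Pool.Agent.H86.Ess
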