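import Mathlib

set_option autoImplicit false

namespace Pool.Agent.H86.FUGroup

open Set Filter Topology Cardinal SemidirectProduct Multiplicative

abbrev I : Type := (aleph 1 : Cardinal.{0}).ord.ToType
abbrev N : Type := I →₀ ZMod 2
abbrev M : Type := Multiplicative N

theorem mk_I : #I = aleph 1 := mk_ord_toType _

theorem countable_Iic (i : I) : (Iic i).Countable := by
  rw [← Iio_insert]
  refine Countable.insert _ ?_
  rw [← le_aleph0_iff_set_countable, ← Order.lt_succ_iff, succ_aleph0]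
  exact mk_Iio_toType_ord_lt i

theorem exists_gt {A : Set I} (hA : A.Countable) : ∃ i, ∀ j ∈ A, j < i := by
  by_contra h
  push Not at h
  have : (univ : Set I).Countable := (hA.biUnion fun j _ => countable_Iic j).mono fun i _ => by
    obtain ⟨j, hj, hij⟩ := h i
    exact mem_biUnion hj hij
  rw [← le_aleph0_iff_set_countable, mk_univ, mk_I] at this
  exact absurd this (not_le.2 aleph0_lt_aleph_one)

def B (F : Finset I) : Subgroup M where
  carrier := {x | ∀ i ∈ F, x.toAdd i = 0}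
  one_mem' := fun _ _ => rfl
  mul_mem' := fun ha hb i hi => by simp [ha i hi, hb i hi]
  inv_mem' := fun ha i hi => by simp [ha i hi]

def L (i : I) : Subgroup M where
  carrier := {x | ∀ j, i < j → x.toAdd j = 0}
  one_mem' := fun _ _ => rfl
  mul_mem' := fun ha hb i hi => by simp [ha i hi, hb i hi]
  inv_mem' := fun ha i hi => by simp [ha i hi]

def Good (φ : MulAut M) : Prop :=
  (∀ F, ∃ F', ∀ x ∈ B F', φ x ∈ B F) ∧ ∀ i, ∀ x ∈ L i, φ x ∈ L i

theorem Good.mul {φ ψ : MulAut M} (h : Good φ) (h' : Good ψ) : Good (φ * ψ) :=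
  ⟨fun F => by
    obtain ⟨F', hF'⟩ := h.1 F
    obtain ⟨F'', hF''⟩ := h'.1 F'
    exact ⟨F'', fun x hx => hF' _ (hF'' x hx)⟩, fun i x hx => h.2 i _ (h'.2 i x hx)⟩

def K : Subgroup (MulAut M) where
  carrier := {φ | Good φ ∧ Good φ⁻¹}
  one_mem' := ⟨⟨fun F => ⟨F, fun _ h => h⟩, fun _ _ h => h⟩,
    ⟨fun F => ⟨F, fun _ h => h⟩, fun _ _ h => h⟩⟩
  mul_mem' := fun ha hb => ⟨ha.1.mul hb.1, by rw [mul_inv_rev]; exact hb.2.mul ha.2⟩
  inv_mem' := fun ha => ⟨ha.2, by rw [inv_inv]; exact ha.1⟩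

abbrev G : Type := M ⋊[K.subtype] K

theorem conj_inl (g : G) (x : M) : g * inl x * g⁻¹ = inl (g.right.1 x) := by
  ext
  · simp [mul_comm, mul_left_comm]
  · simp

/-- the filter basis given by the subgroups `B F ⊓ H` -/
@[reducible] noncomputable def basis (H : Subgroup M) (hH : ∀ φ : K, ∀ x ∈ H, φ.1 x ∈ H) : GroupFilterBasis G where
  sets := range fun F : Finset I => (inl : M → G) '' (B F ⊓ H : Subgroup M)
  nonempty := range_nonempty _
  inter_sets := by
    classical
    rintro _ _ ⟨F, rfl⟩ ⟨F', rfl⟩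
    refine ⟨_, ⟨F ∪ F', rfl⟩, ?_⟩
    rintro _ ⟨x, ⟨hx, hx'⟩, rfl⟩
    exact ⟨⟨x, ⟨fun i hi => hx i (Finset.mem_union_left _ hi), hx'⟩, rfl⟩,
      ⟨x, ⟨fun i hi => hx i (Finset.mem_union_right _ hi), hx'⟩, rfl⟩⟩
  one' := by
    rintro _ ⟨F, rfl⟩
    exact ⟨1, Subgroup.one_mem _, map_one _⟩
  mul' := by
    rintro _ ⟨F, rfl⟩
    refine ⟨_, ⟨F, rfl⟩, ?_⟩
    rintro _ ⟨_, ⟨x, hx, rfl⟩, _, ⟨y, hy, rfl⟩, rfl⟩
    exact ⟨x * y, Subgroup.mul_mem _ hx hy, map_mul _ _ _⟩
  inv' := by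
    rintro _ ⟨F, rfl⟩
    refine ⟨_, ⟨F, rfl⟩, ?_⟩
    rintro _ ⟨x, hx, rfl⟩
    exact ⟨x⁻¹, Subgroup.inv_mem _ hx, map_inv _ _⟩
  conj' := by
    rintro g _ ⟨F, rfl⟩
    obtain ⟨F', hF'⟩ := g.right.2.1.1 F
    refine ⟨_, ⟨F', rfl⟩, ?_⟩
    rintro _ ⟨x, ⟨hx, hx'⟩, rfl⟩
    exact ⟨_, ⟨hF' x hx, hH _ x hx'⟩, (conj_inl g x).symm⟩

theorem nhds_basis (H : Subgroup M) (hH : ∀ φ : K, ∀ x ∈ H, φ.1 x ∈ H) :
    (@nhds G (basis H hH).topology 1).HasBasis (fun _ : Finset I => True)
      (fun F => (inl : M → G) '' (B F ⊓ H : Subgroup M)) := by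
  refine (basis H hH).nhds_one_hasBasis.to_hasBasis ?_ ?_
  · rintro _ ⟨F, rfl⟩
    exact ⟨F, trivial, Subset.rfl⟩
  · intro F _
    exact ⟨_, ⟨F, rfl⟩, Subset.rfl⟩

/-- the topology of the example -/
@[reducible] noncomputable def τ : TopologicalSpace G := (basis ⊤ fun _ _ h => h).topology

theorem τ_group : @IsTopologicalGroup G τ _ := (basis ⊤ fun _ _ h => h).isTopologicalGroup

theorem τ_basis : (@nhds G τ 1).HasBasis (fun _ : Finset I => True)
    (fun F => (inl : M → G) '' (B F)) := by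
  simpa using nhds_basis ⊤ fun _ _ h => h

theorem τ_t2 : @T2Space G τ := by
  letI := τ
  haveI := τ_group
  refine IsTopologicalGroup.t2Space_of_one_sep fun g hg => ?_
  by_cases h : g ∈ (inl : M → G) '' (B ∅)
  · obtain ⟨x, -, rfl⟩ := h
    refine ⟨_, τ_basis.mem_of_mem (i := x.toAdd.support) trivial, ?_⟩
    rintro ⟨y, hy, he⟩
    obtain rfl := inl_injective he
    refine hg ?_
    have : y = 1 := by
      ext i
      by_contra hi
      exact hi (hy i (Finsupp.mem_support_iff.2 hi))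
    rw [this, map_one]
  · exact ⟨_, τ_basis.mem_of_mem trivial, h⟩

theorem exists_disj (P : M → Prop) (h : ∀ F, ∃ x ∈ B F, P x) :
    ∃ x : ℕ → M, (∀ n, P (x n)) ∧ ∀ m n, m < n → ∀ i, (x m).toAdd i ≠ 0 → (x n).toAdd i = 0 := by
  classical
  choose c hc hP using h
  let F : ℕ → Finset I := fun n => Nat.rec ∅ (fun _ F => F ∪ (c F).toAdd.support) n
  have hmono : Monotone F := monotone_nat_of_le_succ fun n => Finset.subset_union_left
  refine ⟨fun n => c (F n), fun n => hP _, fun m n hmn i hi => hc (F n) i ?_⟩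
  exact hmono (show m + 1 ≤ n from hmn)
    (Finset.mem_union_right _ (Finsupp.mem_support_iff.2 hi))

theorem τ_fu : @FrechetUrysohnSpace G τ := by
  letI := τ
  haveI := τ_group
  have key : ∀ A : Set G, (1 : G) ∈ closure A →
      ∃ u : ℕ → G, (∀ n, u n ∈ A) ∧ Tendsto u atTop (𝓝 1) := by
    intro A hA
    obtain ⟨x, hx, hd⟩ := exists_disj (fun x => inl x ∈ A) fun F => by
      obtain ⟨_, ⟨y, hy, rfl⟩, hy'⟩ := mem_closure_iff_nhds.1 hA _
        (τ_basis.mem_of_mem (i := F) trivial)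
      exact ⟨y, hy, hy'⟩
    refine ⟨fun n => inl (x n), hx, τ_basis.tendsto_right_iff.2 fun F _ => ?_⟩
    have : ∀ᶠ n in atTop, ∀ i ∈ F, (x n).toAdd i = 0 := by
      rw [Finset.eventually_all]
      intro i _
      by_cases h : ∃ m, (x m).toAdd i ≠ 0
      · obtain ⟨m, hm⟩ := h
        exact (eventually_gt_atTop m).mono fun n hn => hd m n hn i hm
      · push Not at h
        exact Eventually.of_forall h
    exact this.mono fun n hn => ⟨x n, hn, rfl⟩
  refine ⟨fun A g hg => ?_⟩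
  obtain ⟨u, hu, hu'⟩ := key ((fun y => g * y) ⁻¹' A) (by
    have := (Homeomorph.mulLeft g).preimage_closure A
    simp only [Homeomorph.coe_mulLeft] at this
    rw [← this]
    simpa using hg)
  exact ⟨fun n => g * u n, hu, by simpa using hu'.const_mul g⟩

theorem exists_aut (v : I → N) (ha : ∀ i, {j | v j i ≠ 0}.Finite) (hb : ∀ j k, v j k ≠ 0 → k ≤ j)
    (hc : ∀ j k, v j k ≠ 0 → v k = 0) :
    ∃ φ : K, ∀ j, φ.1 (ofAdd (Finsupp.single j 1)) = ofAdd (Finsupp.single j 1 + v j) := by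
  classical
  let ψ : N →ₗ[ZMod 2] N := Finsupp.linearCombination (ZMod 2) v
  have hψ : ∀ (x : N) (k : I), (∀ j, x j ≠ 0 → v j k = 0) → ψ x k = 0 := by
    intro x k h
    simp only [ψ, Finsupp.linearCombination_apply, Finsupp.sum, Finsupp.finsetSum_apply]
    refine Finset.sum_eq_zero fun j hj => ?_
    simp [h j (Finsupp.mem_support_iff.1 hj)]
  have hψ2 : ∀ x : N, ψ (ψ x) = 0 := by
    intro x
    ext k
    refine hψ _ k fun j hj => ?_
    by_contra h
    refine hj (hψ x j fun l _ => ?_)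
    by_contra h'
    exact h (by rw [hc l j h']; rfl)
  have h2 : ∀ x : N, x + x = 0 := fun x => by
    ext i; exact CharTwo.add_self_eq_zero _
  have hinv : ∀ x : N, (x + ψ x) + ψ (x + ψ x) = x := fun x => by
    rw [map_add, hψ2, add_zero, add_assoc, h2, add_zero]
  let φ : MulAut M :=
    { toFun := fun x => ofAdd (x.toAdd + ψ x.toAdd)
      invFun := fun x => ofAdd (x.toAdd + ψ x.toAdd)
      left_inv := fun x => congrArg ofAdd (hinv x.toAdd)
      right_inv := fun x => congrArg ofAdd (hinv x.toAdd)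
      map_mul' := fun x y => congrArg ofAdd (show (x.toAdd + y.toAdd) + ψ (x.toAdd + y.toAdd) =
        (x.toAdd + ψ x.toAdd) + (y.toAdd + ψ y.toAdd) by rw [map_add]; abel) }
  have hg : Good φ := by
    refine ⟨fun F => ⟨F ∪ (F.finite_toSet.biUnion fun i _ => ha i).toFinset, fun x hx i hi => ?_⟩,
      fun i x hx k hk => ?_⟩
    · show x.toAdd i + ψ x.toAdd i = 0
      rw [hx i (Finset.mem_union_left _ hi), hψ _ i fun j hj => ?_, add_zero]
      by_contra h
      exact hj (hx j (Finset.mem_union_right _ (by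
        simp only [Finite.mem_toFinset]
        exact mem_biUnion hi h)))
    · show x.toAdd k + ψ x.toAdd k = 0
      rw [hx k hk, hψ _ k fun j hj => ?_, add_zero]
      by_contra h
      exact hj (hx j (hk.trans_le (hb j k h)))
  exact ⟨⟨φ, hg, hg⟩, fun j => by simp [φ, ψ]⟩

theorem exists_gen : ∃ u : I → ℕ → G, (∀ i, Tendsto (u i) atTop (@nhds G τ 1)) ∧
    ∀ s : TopologicalSpace G, @IsTopologicalGroup G s _ →
      (∀ i, Tendsto (u i) atTop (@nhds G s 1)) → τ ≤ s := by
  classical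
  choose g hg using fun i => Set.countable_iff_exists_injOn.1 (countable_Iic i)
  let e : I → ℕ → N := fun i n =>
    if h : ∃ j, j ≤ i ∧ g i j = n then Finsupp.single h.choose 1 else 0
  have he : ∀ i j, j ≤ i → e i (g i j) = Finsupp.single j 1 := by
    intro i j hj
    have h : ∃ j', j' ≤ i ∧ g i j' = g i j := ⟨j, hj, rfl⟩
    simp only [e, dif_pos h]
    rw [hg i h.choose_spec.1 hj h.choose_spec.2]
  refine ⟨fun i n => inl (ofAdd (e i n)), fun i => τ_basis.tendsto_right_iff.2 fun F _ => ?_,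
    fun s hs hu => ?_⟩
  · refine (eventually_gt_atTop (F.sup (g i))).mono fun n hn => ⟨_, fun k hk => ?_, rfl⟩
    simp only [toAdd_ofAdd, e]
    split_ifs with h
    · refine Finsupp.single_eq_of_ne fun hk' => ?_
      have h1 := h.choose_spec.2
      rw [← hk'] at h1
      exact absurd (Finset.le_sup (f := g i) hk) (by omega)
    · rfl
  · refine continuous_id_iff_le.1 (@continuous_of_continuousAt_one G τ _ τ_group G _ _ s
      hs.toContinuousMul _ _ (MonoidHom.id G) ?_)
    intro V hV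
    by_contra hV'
    have hV1 : (1 : G) ∈ V := @mem_of_mem_nhds G s _ _ hV
    obtain ⟨x, hx, hd⟩ := exists_disj (fun x => inl x ∉ V) fun F => by
      by_contra h
      push Not at h
      exact hV' (τ_basis.mem_iff.2 ⟨F, trivial, by rintro _ ⟨y, hy, rfl⟩; exact h y hy⟩)
    have hne : ∀ n, (x n).toAdd.support.Nonempty := fun n => by
      rw [Finsupp.support_nonempty_iff]
      intro h
      refine hx n ?_
      rw [show x n = 1 from h, map_one]
      exact hV1
    let m : ℕ → I := fun n => (x n).toAdd.support.max' (hne n)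
    have hm : ∀ n, (x n).toAdd (m n) ≠ 0 := fun n =>
      Finsupp.mem_support_iff.1 (Finset.max'_mem _ _)
    have hm1 : ∀ n, (x n).toAdd (m n) = 1 := fun n => by
      have := hm n
      revert this
      generalize (x n).toAdd (m n) = a
      decide +revert
    have hdisj : ∀ a b i, (x a).toAdd i ≠ 0 → (x b).toAdd i ≠ 0 → a = b := by
      intro a b i h1 h2
      rcases lt_trichotomy a b with h | h | h
      · exact absurd (hd a b h i h1) h2
      · exact h
      · exact absurd (hd b a h i h2) h1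
    have hmi : Function.Injective m := fun a b h => hdisj a b (m a) (hm a) (h ▸ hm b)
    let v : I → N := fun j =>
      if h : ∃ n, m n = j then (x h.choose).toAdd - Finsupp.single j 1 else 0
    have hv : ∀ n, v (m n) = (x n).toAdd - Finsupp.single (m n) 1 := fun n => by
      have h : ∃ n', m n' = m n := ⟨n, rfl⟩
      simp only [v, dif_pos h]
      rw [hmi h.choose_spec]
    have hv' : ∀ j k, v j k ≠ 0 → ∃ n, m n = j ∧ (x n).toAdd k ≠ 0 ∧ k ≠ j := by
      intro j k h
      by_cases h' : ∃ n, m n = j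
      · obtain ⟨n, rfl⟩ := h'
        rw [hv] at h
        have hk : k ≠ m n := by
          rintro rfl
          simp [hm1] at h
        exact ⟨n, rfl, by simpa [Finsupp.single_eq_of_ne hk] using h, hk⟩
      · simp [v, dif_neg h'] at h
    obtain ⟨φ, hφ⟩ := exists_aut v
      (fun i => Set.Subsingleton.finite fun a ha b hb => by
        obtain ⟨n, rfl, h1, -⟩ := hv' a i ha
        obtain ⟨n', rfl, h2, -⟩ := hv' b i hb
        rw [hdisj n n' i h1 h2])
      (fun j k h => by
        obtain ⟨n, rfl, h1, -⟩ := hv' j k h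
        exact Finset.le_max' _ _ (Finsupp.mem_support_iff.2 h1))
      (fun j k h => by
        obtain ⟨n, rfl, h1, h2⟩ := hv' j k h
        refine dif_neg ?_
        rintro ⟨n', rfl⟩
        exact h2 (by rw [hdisj n n' _ h1 (hm n')]))
    obtain ⟨i₀, hi₀⟩ := exists_gt (countable_range m)
    have ht : Tendsto (fun n => g i₀ (m n)) atTop atTop :=
      Function.Injective.nat_tendsto_atTop fun a b h =>
        hmi (hg i₀ (hi₀ _ ⟨a, rfl⟩).le (hi₀ _ ⟨b, rfl⟩).le h)
    letI := s
    have h1 := (((hu i₀).comp ht).const_mul (inr φ : G)).mul_const (inr φ : G)⁻¹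
    rw [mul_one, mul_inv_cancel] at h1
    obtain ⟨n, hn⟩ := (h1.eventually hV).exists
    refine hx n ?_
    simp only [Function.comp_apply, he i₀ _ (hi₀ _ ⟨n, rfl⟩).le, conj_inl, right_inr, hφ, hv,
      add_sub_cancel, ofAdd_toAdd] at hn
    exact hn

theorem lower (S : Set (ℕ → G)) (hS : S.Countable) (hc : ∀ u ∈ S, Tendsto u atTop (@nhds G τ 1)) :
    ∃ s : TopologicalSpace G, @IsTopologicalGroup G s _ ∧ s ≤ τ ∧
      (∀ u ∈ S, Tendsto u atTop (@nhds G s 1)) ∧ ¬ τ ≤ s := by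
  obtain ⟨i₀, hi₀⟩ := exists_gt (A := ⋃ u ∈ S, ⋃ n, ((u n).left.toAdd.support : Set I))
    (hS.biUnion fun u _ => countable_iUnion fun n => Finset.countable_toSet _)
  have hL : ∀ φ : K, ∀ x ∈ L i₀, φ.1 x ∈ L i₀ := fun φ => φ.2.1.2 i₀
  have hb := nhds_basis (L i₀) hL
  have hs := (basis (L i₀) hL).isTopologicalGroup
  refine ⟨_, hs, ?_, fun u hu => hb.tendsto_right_iff.2 fun F _ => ?_, fun hle => ?_⟩
  · refine continuous_id_iff_le.1 (@continuous_of_continuousAt_one G (basis (L i₀) hL).topology _ hs G _ _ τ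
      τ_group.toContinuousMul _ _ (MonoidHom.id G) ?_)
    intro V hV
    obtain ⟨F, -, hF⟩ := τ_basis.mem_iff.1 hV
    exact hb.mem_iff.2 ⟨F, trivial, (image_mono fun x hx => hx.1).trans hF⟩
  · refine (τ_basis.tendsto_right_iff.1 (hc u hu) F trivial).mono ?_
    rintro n ⟨x, hx, he⟩
    refine ⟨x, ⟨hx, fun j hj => ?_⟩, he⟩
    by_contra h
    refine absurd (hi₀ j (mem_biUnion hu (mem_iUnion.2 ⟨n, ?_⟩))) (not_lt.2 hj.le)
    rw [← he]
    exact Finsupp.mem_support_iff.2 h
  · obtain ⟨F, -, hF⟩ := τ_basis.mem_iff.1 (@nhds_mono G _ _ 1 hle _ (hb.mem_of_mem (i := ∅) trivial))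
    obtain ⟨j, hj⟩ := exists_gt (A := insert i₀ (F : Set I)) (F.countable_toSet.insert _)
    obtain ⟨y, hy, he⟩ := hF ⟨ofAdd (Finsupp.single j 1), fun i hi =>
      Finsupp.single_eq_of_ne (hj i (mem_insert_of_mem _ hi)).ne, rfl⟩
    obtain rfl := inl_injective he
    simpa using hy.2 j (hj _ (mem_insert _ _))

end Pool.Agent.H86.FUGroup
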