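import Pool.Agent.H86.FbDefs

set_option linter.unusedSectionVars false
set_option linter.deprecated false

namespace Pool.Agent.H86.Fb
open Finset Filter Topology

variable {E : Type} [NormedAddCommGroup E] [NormedSpace ℝ E]

theorem norm_mono {f g : H E} (h : ∀ t, |f.1 t| ≤ |g.1 t|) : ‖f‖ ≤ ‖g‖ := by
  have := vals_le E (f := f.1) zero_le_one (fun t => by simpa using h t) (ub_sSup E g) (ub_zero E)
  rw [one_mul, add_zero] at this
  exact csSup_le ⟨_, vals_zero E _⟩ this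

theorem sum_le {ι : Type} [Fintype ι] (f : H E) (x : ι → StrongDual ℝ E) {c : ℝ} (hc : 0 < c)
    (h : ∀ v : E, ‖v‖ ≤ 1 → ∑ i, |x i v| ≤ c) : ∑ i, |f.1 (x i)| ≤ c * ‖f‖ := by
  have := ub_sSup E f ⟨_, fun j => c⁻¹ • x ((Fintype.equivFin ι).symm j), fun v hv => by
    simp only [ContinuousLinearMap.smul_apply, smul_eq_mul, abs_mul, abs_of_pos (inv_pos.2 hc),
      ← mul_sum]
    rw [Equiv.sum_comp _ fun i => |x i v|, inv_mul_le_iff₀ hc, mul_one]; exact h v hv, rfl⟩
  simp only [f.2.1 _ (inv_nonneg.2 hc.le), abs_mul, abs_of_pos (inv_pos.2 hc), ← mul_sum] at this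
  rwa [Equiv.sum_comp _ fun i => |f.1 (x i)|, inv_mul_le_iff₀ hc] at this

noncomputable def habs (f : H E) : H E := ⟨|f.1|, fun t ht x => by
  simp only [Pi.abs_apply, f.2.1 t ht, abs_mul, abs_of_nonneg ht], _,
  vals_le E zero_le_one (fun t => by simp) (ub_sSup E f) (ub_zero E)⟩

theorem habs_cont : Continuous (habs : H E → H E) :=
  (LipschitzWith.of_dist_le_mul (K := 1) fun f g => by
    rw [dist_eq_norm, dist_eq_norm, NNReal.coe_one, one_mul]
    exact norm_mono fun t => abs_abs_sub_abs_le_abs_sub (f.1 t) (g.1 t)).continuous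

noncomputable def xabs (f : FBL E) : FBL E := ⟨habs f.1, map_mem_closure habs_cont f.2 fun g hg => by
  have := Gen.sup hg (Gen.smul (-1) hg)
  rw [neg_one_smul] at this
  exact this⟩

theorem ub_delta (v : E) : ‖v‖ ∈ upperBounds (vals E fun x => x v) := by
  rintro _ ⟨n, x, hx, rfl⟩
  rcases eq_or_ne v 0 with rfl | h
  · simp
  have hp : 0 < ‖v‖ := norm_pos_iff.2 h
  have := hx (‖v‖⁻¹ • v) (by rw [norm_smul, norm_inv, norm_norm]; exact inv_mul_le_one)
  simp only [map_smul, smul_eq_mul, abs_mul, abs_inv, abs_norm, ← mul_sum] at this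
  rwa [inv_mul_le_iff₀ hp, mul_one] at this

noncomputable def xd (v : E) : FBL E := ⟨⟨fun x => x v, fun _ _ _ => rfl, _, ub_delta v⟩,
  Submodule.le_topologicalClosure _ (Gen.delta v)⟩

theorem xd_norm (v : E) : ‖xabs (xd v)‖ ≤ ‖v‖ :=
  (norm_mono (g := (xd v).1) fun _ => (abs_abs _).le).trans
    (csSup_le ⟨_, vals_zero E _⟩ (ub_delta v))

theorem Gen.cont {f : StrongDual ℝ E → ℝ} (h : Gen E f) : Continuous f := by
  induction h with
  | delta v => fun_prop
  | add _ _ h1 h2 => exact h1.add h2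
  | smul c _ h => exact h.const_smul c
  | sup _ _ h1 h2 => exact h1.max h2
  | inf _ _ h1 h2 => exact h1.min h2

theorem xcont (f : FBL E) : Continuous f.1.1 := by
  refine continuous_iff_continuousAt.2 fun t0 => Metric.tendsto_nhds.2 fun ε hε => ?_
  have hp : 0 < ε / 3 / (‖t0‖ + 1) := by positivity
  obtain ⟨g, hg, h⟩ := Metric.mem_closure_iff.1 f.2 _ hp
  rw [dist_eq_norm] at h
  have b : ∀ t, ‖t‖ < ‖t0‖ + 1 → |f.1.1 t - g.1 t| ≤ ε / 3 := fun t ht =>
    (ev_le E (f.1 - g) t).trans ((mul_le_mul h.le ht.le (norm_nonneg _) hp.le).trans_eq (by field_simp))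
  filter_upwards [(continuous_norm.tendsto t0).eventually_lt_const (lt_add_one _),
    Metric.tendsto_nhds.1 ((Gen.cont hg).tendsto t0) (ε / 3) (by positivity)] with t h1 h2
  rw [Real.dist_eq] at h2 ⊢
  have a1 := abs_le.1 (b t h1)
  have a2 := abs_le.1 (b t0 (lt_add_one _))
  have a3 := abs_lt.1 h2
  exact abs_lt.2 ⟨by linarith, by linarith⟩

theorem step (fr : ∀ q : StrongDual ℝ E, q ≠ 0 → ∃ (a c : E) (r : StrongDual ℝ E),
    q a = 1 ∧ q c = 0 ∧ r a = 0 ∧ r c = 1) (φ : FBL E →L[ℝ] ℝ) (g : FBL E) (q : StrongDual ℝ E)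
    {U : Set (StrongDual ℝ E)} (hU : U ∈ 𝓝 q) {ι : Type} (s : Finset ι) (p : ι → StrongDual ℝ E)
    {ε : ℝ} (hε : 0 < ε) : ∃ q' ∈ U, ∃ w : FBL E,
      (∀ t, min 0 (g.1.1 t) ≤ w.1.1 t ∧ w.1.1 t ≤ max 0 (g.1.1 t)) ∧ w.1.1 q' = g.1.1 q' ∧
        (∀ i ∈ s, w.1.1 (p i) = 0) ∧ |φ w| ≤ ε := by
  classical
  rcases eq_or_ne q 0 with rfl | hq
  · refine ⟨0, mem_of_mem_nhds hU, 0, fun t => ⟨min_le_left _ _, le_max_left _ _⟩, ?_,
      fun _ _ => rfl, by simpa using hε.le⟩
    have := g.1.2.1 0 le_rfl 0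
    rw [zero_smul, zero_mul] at this
    exact this.symm
  obtain ⟨a, c, r, h1, h2, h3, h4⟩ := fr q hq
  let θ : ℕ → ℝ := fun k => (1 / 2) ^ k
  have θ0 : ∀ k, 0 < θ k := fun k => by positivity
  let z : ℕ → FBL E := fun k => (θ k / 4) • xd a - xabs (xd c - θ k • xd a)
  let K : ℕ → ℝ := fun k => 2 * |g.1.1 (q + θ k • r)| / θ k
  let β : ℕ → FBL E := fun k => K k • (z k + xabs (z k))
  let w : ℕ → FBL E := fun k => (1 / 2 : ℝ) • (xabs (g + β k) - xabs (g - β k))
  have zv : ∀ k t, (z k).1.1 t = θ k / 4 * t a - |t c - θ k * t a| := fun _ _ => rfl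
  have βv : ∀ k t, (β k).1.1 t = K k * ((z k).1.1 t + |(z k).1.1 t|) := fun _ _ => rfl
  have wv : ∀ k t, (w k).1.1 t = 1 / 2 * (|g.1.1 t + (β k).1.1 t| - |g.1.1 t - (β k).1.1 t|) :=
    fun _ _ => rfl
  have β0 : ∀ k t, 0 ≤ (β k).1.1 t := fun k t => by
    rw [βv]; exact mul_nonneg (div_nonneg (by positivity) (θ0 k).le) (by linarith [neg_abs_le ((z k).1.1 t)])
  have bt : ∀ k t, min 0 (g.1.1 t) ≤ (w k).1.1 t ∧ (w k).1.1 t ≤ max 0 (g.1.1 t) := fun k t => by
    have := β0 k t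
    rw [wv]
    rcases le_total 0 (g.1.1 t) with h | h <;> simp only [h, min_eq_left, min_eq_right, max_eq_left,
      max_eq_right] <;> cases abs_cases (g.1.1 t + (β k).1.1 t) <;>
        cases abs_cases (g.1.1 t - (β k).1.1 t) <;> constructor <;> linarith
  have w0 : ∀ k t, (z k).1.1 t ≤ 0 → (w k).1.1 t = 0 := fun k t h => by
    rw [wv, βv, abs_of_nonpos h]; simp
  have dj : ∀ t k l, k < l → 0 < (z k).1.1 t → (z l).1.1 t ≤ 0 := fun t k l hkl h => by
    have a0 : θ l ≤ θ k * (1 / 2) := (pow_le_pow_of_le_one (by norm_num) (by norm_num)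
      (Nat.succ_le_of_lt hkl)).trans_eq (pow_succ _ _)
    rw [zv] at h ⊢
    have a1 : 0 < θ k * t a := by linarith [abs_nonneg (t c - θ k * t a)]
    have a2 := mul_le_mul_of_nonneg_right a0 ((mul_pos_iff_of_pos_left (θ0 k)).1 a1).le
    linarith [le_abs_self (t c - θ l * t a), neg_abs_le (t c - θ k * t a)]
  have sm : Summable fun k => |φ (w k)| := summable_of_sum_le (c := ‖φ‖ * ‖g‖)
    (fun _ => abs_nonneg _) fun F => by
      have e : ∑ k ∈ F, |φ (w k)| = φ (∑ k ∈ F, (SignType.sign (φ (w k)) : ℝ) • w k) := by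
        simp only [map_sum, map_smul, smul_eq_mul, sign_mul_self]
      rw [e]
      refine (le_abs_self _).trans ((φ.le_opNorm _).trans (mul_le_mul_of_nonneg_left
        (norm_mono fun t => ?_) φ.opNorm_nonneg))
      have e2 : (∑ k ∈ F, (SignType.sign (φ (w k)) : ℝ) • w k : FBL E).1.1 t =
          ∑ k ∈ F, (SignType.sign (φ (w k)) : ℝ) * (w k).1.1 t :=
        map_sum ((LinearMap.proj t).comp ((HS E).subtype.comp (FBL E).subtype)) _ F
      refine (congrArg abs e2).trans_le (show _ ≤ |g.1.1 t| from ?_)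
      by_cases h : ∃ k ∈ F, 0 < (z k).1.1 t
      · obtain ⟨k, hk, h⟩ := h
        rw [sum_eq_single_of_mem k hk fun l _ hl => by
          rw [w0 l t, mul_zero]
          rcases lt_or_gt_of_ne hl with h' | h'
          · exact not_lt.1 fun h'' => absurd (dj t l k h' h'') (not_le.2 h)
          · exact dj t k l h' h, abs_mul]
        refine (mul_le_of_le_one_left (abs_nonneg _) ?_).trans (abs_le.2 ⟨le_trans (le_min
          (neg_nonpos.2 (abs_nonneg _)) (neg_abs_le _)) (bt k t).1, (bt k t).2.trans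
            (max_le (abs_nonneg _) (le_abs_self _))⟩)
        cases SignType.sign (φ (w k)) <;> simp
      · push Not at h
        rw [sum_eq_zero fun k hk => by rw [w0 k t (h k hk), mul_zero], abs_zero]
        exact abs_nonneg _
  have e1 : ∀ᶠ k in atTop, q + θ k • r ∈ U := by
    have := ((tendsto_pow_atTop_nhds_zero_of_lt_one (r := (1 / 2 : ℝ)) (by norm_num)
      (by norm_num)).smul_const r).const_add q
    rw [zero_smul, add_zero] at this
    exact this hU
  have e2 : ∀ᶠ k in atTop, ∀ i ∈ s, (w k).1.1 (p i) = 0 := (eventually_all_finset s).2 fun i _ => by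
    by_cases h : ∃ k, 0 < (z k).1.1 (p i)
    · obtain ⟨k, h⟩ := h
      exact (eventually_gt_atTop k).mono fun l hl => w0 _ _ (dj _ k l hl h)
    · push Not at h
      exact Eventually.of_forall fun k => w0 _ _ (h k)
  obtain ⟨k, k1, k2, k3⟩ := (e1.and (e2.and (sm.tendsto_atTop_zero.eventually_le_const hε))).exists
  refine ⟨_, k1, w k, bt k, ?_, k2, k3⟩
  have : (β k).1.1 (q + θ k • r) = |g.1.1 (q + θ k • r)| := by
    have := θ0 k
    rw [βv, zv]
    simp only [ContinuousLinearMap.add_apply, ContinuousLinearMap.smul_apply, h1, h2, h3, h4,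
      smul_eq_mul, mul_zero, add_zero, mul_one, zero_add, sub_self, abs_zero, sub_zero, K]
    rw [abs_of_pos (a := θ k / 4) (by positivity)]
    field_simp; ring
  rw [wv, this]
  cases abs_cases (g.1.1 (q + θ k • r)) <;>
    cases abs_cases (g.1.1 (q + θ k • r) + |g.1.1 (q + θ k • r)|) <;>
      cases abs_cases (g.1.1 (q + θ k • r) - |g.1.1 (q + θ k • r)|) <;> linarith

theorem steps (fr : ∀ q : StrongDual ℝ E, q ≠ 0 → ∃ (a c : E) (r : StrongDual ℝ E),
    q a = 1 ∧ q c = 0 ∧ r a = 0 ∧ r c = 1) (φ : FBL E →L[ℝ] ℝ) (d y0 : FBL E)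
    (h0 : ∀ t, |y0.1.1 t| ≤ d.1.1 t) {ι : Type} (q : ι → StrongDual ℝ E) (σ : ι → ℝ)
    (hσ : ∀ i, |σ i| ≤ 1) (U : ι → Set (StrongDual ℝ E)) (hU : ∀ i, U i ∈ 𝓝 (q i)) {ε : ℝ} (hε : 0 < ε)
    (s : Finset ι) : ∃ (y : FBL E) (p : ι → StrongDual ℝ E), (∀ t, |y.1.1 t| ≤ d.1.1 t) ∧
      |φ y - φ y0| ≤ s.card * ε ∧ ∀ i ∈ s, p i ∈ U i ∧ y.1.1 (p i) = σ i * d.1.1 (p i) := by
  classical
  induction s using Finset.induction_on with
  | empty => exact ⟨y0, q, h0, by simp, by simp⟩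
  | insert a s ha ih =>
    obtain ⟨y, p, h1, h2, h3⟩ := ih
    obtain ⟨q', k1, w, k2, k3, k4, k5⟩ := step fr φ (σ a • d - y) (q a) (hU a) s p hε
    have gv : ∀ t, (σ a • d - y).1.1 t = σ a * d.1.1 t - y.1.1 t := fun _ => rfl
    have yv : ∀ t, (y + w).1.1 t = y.1.1 t + w.1.1 t := fun _ => rfl
    refine ⟨y + w, Function.update p a q', fun t => ?_, ?_, fun i hi => ?_⟩
    · have a1 := abs_le.1 (h1 t)
      have a2 := abs_le.1 ((abs_mul _ _).trans_le (mul_le_mul (hσ a) (abs_of_nonneg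
        ((abs_nonneg _).trans (h1 t))).le (abs_nonneg _) zero_le_one))
      have a3 := k2 t
      rw [gv] at a3
      rw [yv, abs_le]
      rcases le_total 0 (σ a * d.1.1 t - y.1.1 t) with h | h <;> simp only [h, min_eq_left,
        min_eq_right, max_eq_left, max_eq_right] at a3 <;> constructor <;> linarith
    · rw [card_insert_of_notMem ha, map_add, add_sub_right_comm]
      push_cast
      linarith [abs_add_le (φ y - φ y0) (φ w)]
    · rcases mem_insert.1 hi with rfl | hi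
      · rw [Function.update_self, yv, k3, gv]; exact ⟨k1, by ring⟩
      · rw [Function.update_of_ne (ne_of_mem_of_not_mem hi ha), yv, k4 i hi, add_zero]
        exact h3 i hi

end Pool.Agent.H86.Fb
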