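import Mathlib

namespace Pool.Agent.H86.Fb
open Finset

variable (E : Type) [NormedAddCommGroup E] [NormedSpace ℝ E]

/-- The sums `∑ |f (x i)|` over admissible finite families in the dual. -/
def vals (f : StrongDual ℝ E → ℝ) : Set ℝ :=
  {s | ∃ (m : ℕ) (x : Fin m → StrongDual ℝ E), (∀ v : E, ‖v‖ ≤ 1 → ∑ i, |x i v| ≤ 1) ∧
    s = ∑ i, |f (x i)|}

theorem vals_zero (f : StrongDual ℝ E → ℝ) : 0 ∈ vals E f := ⟨0, fun _ => 0, by simp, by simp⟩

theorem vals_le {f g h : StrongDual ℝ E → ℝ} {c a b : ℝ} (hc : 0 ≤ c)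
    (H : ∀ t, |f t| ≤ c * |g t| + |h t|) (ha : a ∈ upperBounds (vals E g))
    (hb : b ∈ upperBounds (vals E h)) : c * a + b ∈ upperBounds (vals E f) := by
  rintro _ ⟨n, x, hx, rfl⟩
  refine (sum_le_sum fun i _ => H (x i)).trans ?_
  rw [sum_add_distrib, ← mul_sum]
  exact add_le_add (mul_le_mul_of_nonneg_left (ha ⟨n, x, hx, rfl⟩) hc) (hb ⟨n, x, hx, rfl⟩)

theorem ub_zero : (0 : ℝ) ∈ upperBounds (vals E 0) := by rintro _ ⟨n, x, -, rfl⟩; simp

/-- Positively homogeneous functions on the dual with finite norm. -/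
def HS : Submodule ℝ (StrongDual ℝ E → ℝ) where
  carrier := {f | (∀ t : ℝ, 0 ≤ t → ∀ x, f (t • x) = t * f x) ∧ BddAbove (vals E f)}
  zero_mem' := ⟨by simp, _, ub_zero E⟩
  add_mem' := fun {f g} ⟨h1, _, ha⟩ ⟨h2, _, hb⟩ => ⟨fun t ht x => by
    simp only [Pi.add_apply, h1 t ht, h2 t ht, mul_add], _, vals_le E zero_le_one (fun t => by
      rw [one_mul]; exact abs_add_le _ _) ha hb⟩
  smul_mem' := fun c f ⟨h1, _, ha⟩ => ⟨fun t ht x => by
    simp only [Pi.smul_apply, h1 t ht, smul_eq_mul]; ring, _, vals_le E (abs_nonneg c) (fun t => by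
      simp [abs_mul]) ha (ub_zero E)⟩

/-- The space `H[E]`. -/
def H : Type := HS E

noncomputable instance : AddCommGroup (H E) := inferInstanceAs (AddCommGroup (HS E))
noncomputable instance : Module ℝ (H E) := inferInstanceAs (Module ℝ (HS E))

theorem ub_sSup (f : H E) : sSup (vals E f.1) ∈ upperBounds (vals E f.1) :=
  fun _ h => le_csSup f.2.2 h

theorem ev_le (f : H E) (t : StrongDual ℝ E) : |f.1 t| ≤ sSup (vals E f.1) * ‖t‖ := by
  rcases eq_or_ne t 0 with rfl | h
  · have := f.2.1 0 le_rfl 0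
    rw [zero_smul, zero_mul] at this
    simp [this]
  have hn := norm_pos_iff.2 h
  have := ub_sSup E f ⟨1, fun _ => ‖t‖⁻¹ • t, fun v hv => by
    simp only [univ_unique, sum_singleton, ContinuousLinearMap.smul_apply, smul_eq_mul, abs_mul,
      abs_inv, abs_norm]
    rw [inv_mul_le_iff₀ hn]
    exact (t.le_opNorm v).trans (mul_le_mul_of_nonneg_left hv hn.le), rfl⟩
  simp only [univ_unique, sum_singleton, f.2.1 _ (inv_nonneg.2 hn.le), abs_mul, abs_inv,
    abs_norm] at this
  rwa [inv_mul_le_iff₀' hn] at this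

/-- The norm of `H[E]` is `sSup (vals E f)`. -/
noncomputable instance : NormedAddCommGroup (H E) := AddGroupNorm.toNormedAddCommGroup
  { toFun := fun f => sSup (vals E f.1)
    map_zero' := le_antisymm (csSup_le ⟨_, vals_zero E _⟩ (ub_zero E))
      (ub_sSup E 0 (vals_zero E _))
    add_le' := fun f g => csSup_le ⟨_, vals_zero E _⟩ (one_mul (sSup (vals E f.1)) ▸
      vals_le E zero_le_one (fun t => by rw [one_mul]; exact abs_add_le _ _)
        (ub_sSup E f) (ub_sSup E g))
    neg' := fun f => congrArg sSup (Set.ext fun _ => exists_congr fun _ => exists_congr fun _ =>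
      and_congr_right fun _ => Eq.congr_right (sum_congr rfl fun _ _ => abs_neg _))
    eq_zero_of_map_eq_zero' := fun f h => Subtype.ext (funext fun t => abs_nonpos_iff.1
      ((ev_le E f t).trans_eq (by rw [h, zero_mul]))) }

noncomputable instance : NormedSpace ℝ (H E) := ⟨fun c f => csSup_le ⟨_, vals_zero E _⟩
  (add_zero (|c| * sSup (vals E f.1)) ▸ vals_le E (abs_nonneg c) (fun t =>
    (abs_mul c (f.1 t)).trans_le (le_add_of_nonneg_right (abs_nonneg _))) (ub_sSup E f) (ub_zero E))⟩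

/-- The vector sublattice generated by the evaluations `δ_v`. -/
inductive Gen : (StrongDual ℝ E → ℝ) → Prop
  | delta (v : E) : Gen fun x => x v
  | add {f g} : Gen f → Gen g → Gen (f + g)
  | smul (c : ℝ) {f} : Gen f → Gen (c • f)
  | sup {f g} : Gen f → Gen g → Gen (f ⊔ g)
  | inf {f g} : Gen f → Gen g → Gen (f ⊓ g)

/-- The generated vector sublattice inside `H[E]`. -/
def GenS : Submodule ℝ (H E) where
  carrier := {f | Gen E f.1}
  zero_mem' := by
    have := Gen.delta (E := E) 0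
    simp only [map_zero] at this
    exact this
  add_mem' := Gen.add
  smul_mem' := fun c _ h => Gen.smul c h

/-- The free Banach lattice `FBL[E]`: the norm closure of the generated sublattice. -/
noncomputable def FBL : Submodule ℝ (H E) := (GenS E).topologicalClosure

/-- The Daugavet property. -/
def Daugavet (X : Type) [NormedAddCommGroup X] [NormedSpace ℝ X] : Prop :=
  ∀ T : X →L[ℝ] X, Module.finrank ℝ (LinearMap.range (T : X →ₗ[ℝ] X)) = 1 →
    ‖ContinuousLinearMap.id ℝ X + T‖ = 1 + ‖T‖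

end Pool.Agent.H86.Fb
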