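import Mathlib

set_option autoImplicit false

namespace Pool.Agent.H86.Fl

open Finset Polynomial

theorem fam (a c : ℕ) : ∃ p : ℕ, p.Prime ∧ ∃ 𝒢 : Finset (Finset (ZMod p × ZMod p)),
    (∀ G ∈ 𝒢, G.Nonempty) ∧ (∀ G ∈ 𝒢, ∀ G' ∈ 𝒢, G ≠ G' → G.card ≤ 2 * (G \ G').card) ∧
    c * (p * p) ^ a < 𝒢.card := by
  obtain ⟨p, hp1, hp⟩ := Nat.exists_infinite_primes (2 * (2 * a + c + 1) + 1)
  set r := 2 * a + c + 1 with hr
  haveI : Fact p.Prime := ⟨hp⟩
  let gr : (Fin r → ZMod p) → Finset (ZMod p × ZMod p) := fun v =>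
    univ.image (fun x => (x, (ofFn r v).eval x))
  have hc : ∀ v, (gr v).card = p := fun v => by
    rw [card_image_of_injective _ (fun x y h => (Prod.ext_iff.1 h).1)]
    simp
  have key : ∀ v v', v ≠ v' → p ≤ 2 * (gr v \ gr v').card := fun v v' hv => by
    have hne : ofFn r v - ofFn r v' ≠ 0 := sub_ne_zero.2 fun h => hv (injective_ofFn r h)
    have hd : (ofFn r v - ofFn r v').natDegree < r := by
      rw [← map_sub]; exact ofFn_natDegree_lt (by omega) _
    set Z := (ofFn r v - ofFn r v').roots.toFinset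
    have hZ : Z.card < r :=
      lt_of_le_of_lt ((Multiset.toFinset_card_le _).trans (card_roots' _)) hd
    have hsub : (univ \ Z).image (fun x => (x, (ofFn r v).eval x)) ⊆ gr v \ gr v' := by
      intro z hz
      obtain ⟨x, hx, rfl⟩ := mem_image.1 hz
      refine mem_sdiff.2 ⟨mem_image.2 ⟨x, mem_univ _, rfl⟩, fun h => ?_⟩
      obtain ⟨y, -, hy⟩ := mem_image.1 h
      obtain ⟨h1, h2⟩ := Prod.ext_iff.1 hy
      simp only at h1 h2
      subst h1
      apply (mem_sdiff.1 hx).2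
      rw [Multiset.mem_toFinset, mem_roots hne, IsRoot, eval_sub, h2, sub_self]
    have h1 := card_le_card hsub
    rw [card_image_of_injective _ (fun x y h => (Prod.ext_iff.1 h).1), card_univ_sdiff] at h1
    simp only [ZMod.card] at h1
    omega
  have inj : Function.Injective gr := fun v v' h => by
    by_contra hv
    have := key v v' hv
    rw [h, sdiff_self] at this
    simp at this
    omega
  refine ⟨p, hp, univ.image gr, ?_, ?_, ?_⟩
  · intro G hG
    obtain ⟨v, -, rfl⟩ := mem_image.1 hG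
    rw [← card_pos, hc]; exact hp.pos
  · intro G hG G' hG' hne
    obtain ⟨v, -, rfl⟩ := mem_image.1 hG
    obtain ⟨v', -, rfl⟩ := mem_image.1 hG'
    rw [hc]
    exact key v v' fun h => hne (by rw [h])
  · rw [card_image_of_injective _ inj]
    simp only [card_univ, Fintype.card_fun, ZMod.card, Fintype.card_fin]
    have h1 : c < p ^ (c + 1) :=
      lt_of_lt_of_le (Nat.lt_succ_self c) (Nat.lt_pow_self hp.one_lt).le
    have h2 : p ^ r = p ^ (c + 1) * (p * p) ^ a := by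
      rw [hr, ← pow_two, ← pow_mul, ← pow_add]; congr 1; ring
    rw [h2]
    exact Nat.mul_lt_mul_of_pos_right h1 (pow_pos (Nat.mul_pos hp.pos hp.pos) _)

variable {κ Y : Type} [Fintype κ] [DecidableEq κ] [Fintype Y] [DecidableEq Y]

def InV (c : κ) (G : Finset Y) (f : (κ → Y) → ℂ) : Prop :=
  ∀ ω, (ω c ∉ G → f ω = 0) ∧ (ω c ∈ G → ∀ y ∈ G, f (Function.update ω c y) = f ω)

theorem dbl (c : κ) (g : (κ → Y) → ℝ) :
    ∑ ω : κ → Y, ∑ y : Y, g (Function.update ω c y) = Fintype.card Y * ∑ ω, g ω := by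
  let σ : (κ → Y) × Y → (κ → Y) × Y := fun q => (Function.update q.1 c q.2, q.1 c)
  have hσ : Function.Involutive σ := fun q => by simp [σ]
  have := Equiv.sum_comp hσ.toPerm (fun q => g q.1)
  rw [Fintype.sum_prod_type, Fintype.sum_prod_type] at this
  simp only [Function.Involutive.coe_toPerm, σ, sum_const, card_univ, nsmul_eq_mul] at this
  rw [this, mul_sum]

theorem far [Nonempty Y] {c : κ} {G G' : Finset Y} (h : G.card ≤ 2 * (G \ G').card)
    {f f' : (κ → Y) → ℂ} (hf : InV c G f) (hf' : InV c G' f') :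
    ∑ ω, ‖f ω‖ ^ 2 ≤ 2 * ∑ ω, ‖f ω - f' ω‖ ^ 2 := by
  have hY : (0 : ℝ) < Fintype.card Y := by exact_mod_cast Fintype.card_pos
  have h1 := dbl c (fun ω => ‖f ω‖ ^ 2)
  have h2 := dbl c (fun ω => ‖f ω - f' ω‖ ^ 2)
  have h3 : ∀ ω : κ → Y, ∑ y : Y, ‖f (Function.update ω c y)‖ ^ 2 ≤
      2 * ∑ y : Y, ‖f (Function.update ω c y) - f' (Function.update ω c y)‖ ^ 2 := by
    intro ω
    rcases G.eq_empty_or_nonempty with rfl | ⟨y0, hy0⟩
    · have : ∀ y, f (Function.update ω c y) = 0 := fun y => (hf _).1 (by simp)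
      simp only [this, norm_zero]
      have : (0 : ℝ) ≤ ∑ y : Y, ‖0 - f' (Function.update ω c y)‖ ^ 2 :=
        sum_nonneg fun _ _ => by positivity
      simp only [ne_eq, OfNat.ofNat_ne_zero, not_false_eq_true, zero_pow, sum_const_zero]
      linarith
    set z := f (Function.update ω c y0)
    have hz : ∀ y ∈ G, f (Function.update ω c y) = z := fun y hy => by
      have := (hf (Function.update ω c y0)).2 (by simpa using hy0) y hy
      simpa using this
    have e1 : ∑ y : Y, ‖f (Function.update ω c y)‖ ^ 2 = G.card * ‖z‖ ^ 2 := by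
      rw [← sum_subset (subset_univ G) (fun y _ hy => by
        rw [(hf _).1 (by simpa using hy)]; simp)]
      rw [sum_congr rfl (fun y hy => by rw [hz y hy])]
      simp
    have e2 : ((G \ G').card : ℝ) * ‖z‖ ^ 2 ≤
        ∑ y : Y, ‖f (Function.update ω c y) - f' (Function.update ω c y)‖ ^ 2 := by
      refine le_trans (le_of_eq ?_) (sum_le_sum_of_subset_of_nonneg (subset_univ (G \ G'))
        fun _ _ _ => by positivity)
      rw [sum_congr rfl (fun y hy => by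
        rw [hz y (mem_sdiff.1 hy).1, (hf' _).1 (by simpa using (mem_sdiff.1 hy).2), sub_zero])]
      simp
    have h' : (G.card : ℝ) ≤ 2 * (G \ G').card := by exact_mod_cast h
    rw [e1]
    nlinarith [sq_nonneg ‖z‖]
  have h4 := sum_le_sum (fun ω (_ : ω ∈ univ) => h3 ω)
  rw [← mul_sum, h1, h2] at h4
  nlinarith

theorem kill [Nonempty Y] {c : κ} {G G' : Finset Y} (h : G.card ≤ 2 * (G \ G').card)
    {w f f' : (κ → Y) → ℂ} (hf : InV c G f) (hf' : InV c G' f')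
    (h1 : ∑ ω, ‖w ω - f ω‖ ^ 2 < (∑ ω, ‖w ω‖ ^ 2) / 20)
    (h2 : ∑ ω, ‖w ω - f' ω‖ ^ 2 < (∑ ω, ‖w ω‖ ^ 2) / 20) : False := by
  have h0 := far h hf hf'
  have tri : ∀ a b : ℂ, ‖a + b‖ ^ 2 ≤ 2 * ‖a‖ ^ 2 + 2 * ‖b‖ ^ 2 := fun a b => by
    have := norm_add_le a b
    have h5 : ‖a + b‖ ^ 2 ≤ (‖a‖ + ‖b‖) ^ 2 := by gcongr
    nlinarith [sq_nonneg (‖a‖ - ‖b‖)]
  have h3 : ∑ ω, ‖f ω - f' ω‖ ^ 2 ≤ 2 * ∑ ω, ‖w ω - f ω‖ ^ 2 + 2 * ∑ ω, ‖w ω - f' ω‖ ^ 2 := by
    rw [mul_sum, mul_sum, ← sum_add_distrib]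
    refine sum_le_sum fun ω _ => ?_
    have := tri (f ω - w ω) (w ω - f' ω)
    rw [norm_sub_rev (f ω) (w ω)] at this
    simpa using this
  have h4 : ∑ ω, ‖w ω‖ ^ 2 ≤ 2 * ∑ ω, ‖w ω - f ω‖ ^ 2 + 2 * ∑ ω, ‖f ω‖ ^ 2 := by
    rw [mul_sum, mul_sum, ← sum_add_distrib]
    refine sum_le_sum fun ω _ => ?_
    have := tri (w ω - f ω) (f ω)
    simpa using this
  have h5 : (0 : ℝ) ≤ ∑ ω, ‖w ω‖ ^ 2 := sum_nonneg fun _ _ => by positivity
  linarith

end Pool.Agent.H86.Fl
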