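import Pool.Agent.H86.FlA

set_option autoImplicit false
set_option linter.unusedSectionVars false

namespace Pool.Agent.H86.Fl

open Finset Filter Topology

variable {H : Type*} [NormedAddCommGroup H] [InnerProductSpace ℂ H] [CompleteSpace H]

theorem cpt_weak {K : H →L[ℂ] H} (hK : IsCompactOperator K) {w : ℕ → H} (hb : ∀ k, ‖w k‖ ≤ 1)
    (hw : ∀ f, Tendsto (fun k => inner ℂ f (w k)) atTop (𝓝 0)) :
    Tendsto (fun k => K (w k)) atTop (𝓝 0) := by
  obtain ⟨S, hS, hS'⟩ := IsCompactOperator.image_closedBall_subset_compact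
    (f := (K : H →ₗ[ℂ] H)) hK 1
  refine tendsto_of_subseq_tendsto fun ns hns => ?_
  obtain ⟨y, -, φ, hφ, hy⟩ := hS.tendsto_subseq (x := fun n => K (w (ns n)))
    (fun n => hS' ⟨w (ns n), by simpa using hb _, rfl⟩)
  refine ⟨φ, ?_⟩
  have h1 : Tendsto (fun n => inner ℂ y (K (w (ns (φ n))))) atTop (𝓝 (inner ℂ y y)) :=
    tendsto_const_nhds.inner hy
  have h2 : Tendsto (fun n => inner ℂ y (K (w (ns (φ n))))) atTop (𝓝 0) := by
    have := ((hw (ContinuousLinearMap.adjoint K y)).comp hns).comp hφ.tendsto_atTop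
    simpa [Function.comp_def, ContinuousLinearMap.adjoint_inner_left] using this
  have h3 : y = 0 := inner_self_eq_zero.1 (tendsto_nhds_unique h1 h2)
  rw [h3] at hy
  exact hy

theorem on_weak {w : ℕ → H} (hw : Orthonormal ℂ w) (f : H) :
    Tendsto (fun k => inner ℂ f (w k)) atTop (𝓝 0) := by
  have h := (hw.inner_products_summable f).tendsto_atTop_zero
  rw [tendsto_zero_iff_norm_tendsto_zero]
  have h2 := h.sqrt
  simp only [Real.sqrt_zero, Real.sqrt_sq (norm_nonneg _)] at h2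
  simpa only [norm_inner_symm f] using h2

theorem bes {S : Set H} (hS : Orthonormal ℂ ((↑) : S → H)) {ι : Type*} (T : Finset ι) (v : ι → H)
    (hv : ∀ i ∈ T, v i ∈ S) (inj : Set.InjOn v T) (x : H) :
    ∑ i ∈ T, ‖inner ℂ (v i) x‖ ^ 2 ≤ ‖x‖ ^ 2 := by
  have h := (hS.comp (fun i : T => (⟨v i, hv i i.2⟩ : S))
    (fun i j h => Subtype.ext (inj i.2 j.2 (Subtype.ext_iff.1 h)))).sum_inner_products_le
    (s := univ) x
  rw [← sum_coe_sort T]
  exact h

abbrev Ix (Y : ℕ → Type) := Σ m : ℕ, ((Fin m → Bool) → Y m)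

variable {Y : ℕ → Type} [∀ m, Fintype (Y m)] [∀ m, DecidableEq (Y m)] [∀ m, Nonempty (Y m)]
  (b : HilbertBasis (Ix Y) ℂ H)

noncomputable def co (m : ℕ) (w : H) : ((Fin m → Bool) → Y m) → ℂ := fun ω => inner ℂ (b ⟨m, ω⟩) w

noncomputable def mass (m : ℕ) (w : H) : ℝ := ∑ ω, ‖co b m w ω‖ ^ 2

theorem mass_nonneg (m : ℕ) (w : H) : 0 ≤ mass b m w := sum_nonneg fun _ _ => by positivity

theorem hasSum_mass (w : H) : HasSum (fun m => mass b m w) (‖w‖ ^ 2) := by
  have h := Complex.reCLM.hasSum (b.hasSum_inner_mul_inner w w)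
  have e : ∀ i, Complex.reCLM (inner ℂ w (b i) * inner ℂ (b i) w) = ‖inner ℂ (b i) w‖ ^ 2 :=
    fun i => by
      rw [← inner_conj_symm w (b i), Complex.conj_mul']
      simp [← Complex.ofReal_pow]
  have e2 : Complex.reCLM (inner ℂ w w) = ‖w‖ ^ 2 := by
    rw [inner_self_eq_norm_sq_to_K]; simp [← Complex.ofReal_pow]
  simp only [e, e2] at h
  exact h.sigma fun m => hasSum_fintype _

theorem pick (m : ℕ) (𝒢 : Finset (Finset (Y m)))
    (hG : ∀ G ∈ 𝒢, ∀ G' ∈ 𝒢, G ≠ G' → G.card ≤ 2 * (G \ G').card)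
    (hc : ((m + 1) * 200 * 2 ^ m) * Fintype.card ((Fin m → Bool) → Y m) < 𝒢.card)
    (W : ℕ → Set H) (hW : ∀ j, Orthonormal ℂ ((↑) : W j → H)) (c : Fin m → Bool) :
    ∃ G ∈ 𝒢, ∀ j ≤ m, ∀ w ∈ W j, ∀ f, InV c G f →
      mass b m w / 20 - 1 / 200 * (1 / 2) ^ m ≤ ∑ ω, ‖co b m w ω - f ω‖ ^ 2 := by
  by_contra hcon
  push Not at hcon
  choose! J hJ w hw F hF hlt using hcon
  have he : (0 : ℝ) < 1 / 200 * (1 / 2) ^ m := by positivity
  have inj : Set.InjOn w 𝒢 := fun G hG1 G' hG2 h => by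
    by_contra hne
    have h1 := hlt G hG1
    have h2 := hlt G' hG2
    rw [← h] at h2
    refine kill (hG G hG1 G' hG2 hne) (w := co b m (w G)) (hF G hG1) (hF G' hG2) ?_ ?_
    · unfold mass at h1; linarith
    · unfold mass at h2; linarith
  have lo : (𝒢.card : ℝ) * (1 / 200 * (1 / 2) ^ m) ≤ ∑ G ∈ 𝒢, mass b m (w G) := by
    rw [← nsmul_eq_mul]
    refine card_nsmul_le_sum _ _ _ fun G hG1 => ?_
    have h1 := hlt G hG1
    have h2 : (0 : ℝ) ≤ ∑ ω, ‖co b m (w G) ω - F G ω‖ ^ 2 := sum_nonneg fun _ _ => by positivity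
    linarith
  have hi : ∑ G ∈ 𝒢, mass b m (w G) ≤ (m + 1) * Fintype.card ((Fin m → Bool) → Y m) := by
    rw [← sum_fiberwise_of_maps_to (g := J) (t := range (m + 1))
      (fun G hG1 => mem_range.2 (Nat.lt_succ_of_le (hJ G hG1)))]
    refine le_trans (sum_le_card_nsmul _ _ (Fintype.card ((Fin m → Bool) → Y m) : ℝ)
      fun j _ => ?_) (by simp)
    unfold mass
    rw [sum_comm]
    refine le_trans (sum_le_card_nsmul _ _ (1 : ℝ) fun ω _ => ?_) (by simp)
    have := bes (hW j) (𝒢.filter fun G => J G = j) w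
      (fun G hG1 => by have := hw G (mem_filter.1 hG1).1; rwa [(mem_filter.1 hG1).2] at this)
      (inj.mono (by intro G hG1; exact (mem_filter.1 hG1).1)) (b ⟨m, ω⟩)
    rw [b.orthonormal.1, one_pow] at this
    simpa only [co, norm_inner_symm (b ⟨m, ω⟩)] using this
  have hc' : ((m + 1) * 200 * 2 ^ m : ℝ) * Fintype.card ((Fin m → Bool) → Y m) < 𝒢.card := by
    exact_mod_cast hc
  have h3 := mul_lt_mul_of_pos_right hc' he
  have h4 : ((m + 1) * 200 * 2 ^ m : ℝ) * Fintype.card ((Fin m → Bool) → Y m) *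
      (1 / 200 * (1 / 2) ^ m) = (m + 1) * Fintype.card ((Fin m → Bool) → Y m) := by
    rw [one_div_pow]; field_simp
  linarith

def MM (c : ∀ m, Fin m → Bool) (G : ∀ m, Finset (Y m)) : Submodule ℂ H where
  carrier := {f | ∀ m, InV (c m) (G m) (co b m f)}
  add_mem' := fun {x y} hx hy m ω => by
    refine ⟨fun h => ?_, fun h z hz => ?_⟩
    · have h1 := (hx m ω).1 h
      have h2 := (hy m ω).1 h
      simp only [co, inner_add_right] at *
      rw [h1, h2, add_zero]
    · have h1 := (hx m ω).2 h z hz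
      have h2 := (hy m ω).2 h z hz
      simp only [co, inner_add_right] at *
      rw [h1, h2]
  zero_mem' := fun m ω => by simp [co]
  smul_mem' := fun a x hx m ω => by
    refine ⟨fun h => ?_, fun h z hz => ?_⟩
    · have h1 := (hx m ω).1 h
      simp only [co, inner_smul_right] at *
      rw [h1, mul_zero]
    · have h1 := (hx m ω).2 h z hz
      simp only [co, inner_smul_right] at *
      rw [h1]

theorem MM_closed (c : ∀ m, Fin m → Bool) (G : ∀ m, Finset (Y m)) :
    IsClosed (MM b c G : Set H) := by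
  have hc : ∀ m ω, Continuous fun f : H => co b m f ω := fun m ω =>
    continuous_const.inner continuous_id
  have : (MM b c G : Set H) = ⋂ m, ⋂ ω, (⋂ _ : ω (c m) ∉ G m, {f | co b m f ω = 0}) ∩
      ⋂ _ : ω (c m) ∈ G m, ⋂ y, ⋂ _ : y ∈ G m,
        {f | co b m f (Function.update ω (c m) y) = co b m f ω} := by
    ext f
    simp only [Set.mem_iInter, Set.mem_inter_iff, Set.mem_ofPred_eq]
    rfl
  rw [this]
  refine isClosed_iInter fun m => isClosed_iInter fun ω => IsClosed.inter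
    (isClosed_iInter fun _ => isClosed_eq (hc _ _) continuous_const)
    (isClosed_iInter fun _ => isClosed_iInter fun _ => isClosed_iInter fun _ =>
      isClosed_eq (hc _ _) (hc _ _))

theorem dist_MM (c : ∀ m, Fin m → Bool) (G : ∀ m, Finset (Y m)) {w : H} (hw : ‖w‖ = 1) (j : ℕ)
    (hj : ∑ m ∈ range j, mass b m w ≤ 1 / 2)
    (hk : ∀ m, j ≤ m → ∀ f, InV (c m) (G m) f →
      mass b m w / 20 - 1 / 200 * (1 / 2) ^ m ≤ ∑ ω, ‖co b m w ω - f ω‖ ^ 2)
    {f : H} (hf : f ∈ MM b c G) : 1 / 100 ≤ ‖w - f‖ ^ 2 := by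
  have h1 := (hasSum_mass b w).tendsto_sum_nat
  rw [hw, one_pow] at h1
  obtain ⟨n, hn1, hn2⟩ := ((h1.eventually (lt_mem_nhds (show (9 / 10 : ℝ) < 1 by norm_num))).and
    (eventually_ge_atTop j)).exists
  have h2 : ∑ m ∈ Ico j n, mass b m (w - f) ≤ ‖w - f‖ ^ 2 :=
    sum_le_hasSum _ (fun m _ => mass_nonneg b m _) (hasSum_mass b _)
  have h3 : ∑ m ∈ Ico j n, (mass b m w / 20 - 1 / 200 * (1 / 2) ^ m) ≤
      ∑ m ∈ Ico j n, mass b m (w - f) := sum_le_sum fun m hm => by
    have := hk m (mem_Ico.1 hm).1 _ (hf m)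
    simpa only [mass, co, inner_sub_right] using this
  rw [sum_sub_distrib, ← sum_div, ← mul_sum] at h3
  have h4 := sum_range_add_sum_Ico (fun m => mass b m w) hn2
  have h5 : ∑ m ∈ Ico j n, (1 / 2 : ℝ) ^ m ≤ 2 :=
    sum_le_hasSum _ (fun m _ => by positivity) hasSum_geometric_two
  linarith

theorem inter {A : Type*} (s : Finset A) (c : A → ∀ m, Fin m → Bool)
    (G : A → ∀ m, Finset (Y m)) (hG : ∀ α m, (G α m).Nonempty) (m : ℕ)
    (hc : Set.InjOn (fun α => c α m) s) :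
    ∃ g : H, ‖g‖ = 1 ∧ (∀ α ∈ s, g ∈ MM b (c α) (G α)) ∧
      ∀ i : Ix Y, i.1 ≠ m → inner ℂ (b i) g = 0 := by
  classical
  set T : Finset ((Fin m → Bool) → Y m) := univ.filter fun ω => ∀ α ∈ s, ω (c α m) ∈ G α m
  set g : H := ∑ ω ∈ T, b ⟨m, ω⟩
  have h1 : ∀ ω, co b m g ω = if ω ∈ T then 1 else 0 := fun ω => by
    simp only [co, g, inner_sum, orthonormal_iff_ite.1 b.orthonormal]
    simp
  have h2 : ∀ i : Ix Y, i.1 ≠ m → inner ℂ (b i) g = 0 := fun i hi => by
    simp only [g, inner_sum]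
    exact sum_eq_zero fun ω _ => b.orthonormal.2 fun h => hi (by rw [h])
  have h3 : g ≠ 0 := by
    choose y hy using hG
    let ω : (Fin m → Bool) → Y m := fun k =>
      if h : ∃ α ∈ s, c α m = k then y h.choose m else Classical.arbitrary _
    have : ω ∈ T := mem_filter.2 ⟨mem_univ _, fun α hα => by
      have h : ∃ β ∈ s, c β m = c α m := ⟨α, hα, rfl⟩
      simp only [ω, dif_pos h]
      rw [hc h.choose_spec.1 hα h.choose_spec.2]
      exact hy α m⟩
    intro h0
    have h4 := h1 ω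
    rw [if_pos this, h0] at h4
    simp [co] at h4
  have h4 : ∀ α ∈ s, g ∈ MM b (c α) (G α) := fun α hα m' => by
    by_cases hm : m' = m
    · subst hm
      intro ω
      refine ⟨fun h => ?_, fun h y hy => ?_⟩
      · rw [h1, if_neg]
        intro h'
        simp only [T, mem_filter, mem_univ, true_and] at h'
        exact h (h' α hα)
      · rw [h1, h1]
        refine if_congr ?_ rfl rfl
        simp only [T, mem_filter, mem_univ, true_and]
        refine forall₂_congr fun β hβ => ?_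
        by_cases hb : β = α
        · subst hb; simp [h, hy]
        · rw [Function.update_of_ne fun h' => hb (hc hβ hα h')]
    · intro ω
      simp only [co, h2 ⟨m', _⟩ hm]
      simp
  refine ⟨((‖g‖⁻¹ : ℝ) : ℂ) • g, ?_, fun α hα => Submodule.smul_mem _ _ (h4 α hα), fun i hi => ?_⟩
  · rw [norm_smul]; simp [h3]
  · rw [inner_smul_right, h2 i hi, mul_zero]

end Pool.Agent.H86.Fl
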