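import Pool.Agent.H86.FlB

set_option autoImplicit false
set_option linter.unusedSectionVars false
set_option linter.deprecated false

namespace Pool.Agent.H86.Fl

open Finset Filter Topology

variable {H : Type*} [NormedAddCommGroup H] [InnerProductSpace ℂ H] [CompleteSpace H]

theorem psym {p : H →L[ℂ] H} (hp : IsStarProjection p) (u v : H) :
    inner ℂ (p u) v = inner ℂ u (p v) := by
  rw [← ContinuousLinearMap.adjoint_inner_right, ← ContinuousLinearMap.star_eq_adjoint,
    hp.isSelfAdjoint.star_eq]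

theorem pidem {p : H →L[ℂ] H} (hp : IsStarProjection p) (u : H) : p (p u) = p u := by
  rw [← ContinuousLinearMap.mul_apply, hp.isIdempotentElem.eq]

theorem pyth {p : H →L[ℂ] H} (hp : IsStarProjection p) (v : H) :
    ‖v‖ ^ 2 = ‖p v‖ ^ 2 + ‖v - p v‖ ^ 2 := by
  have h : inner ℂ (p v) (v - p v) = 0 := by
    rw [psym hp, map_sub, pidem hp, sub_self, inner_zero_right]
  have := norm_add_sq_eq_norm_sq_add_norm_sq_of_inner_eq_zero _ _ h
  rw [add_sub_cancel] at this
  simpa only [pow_two] using this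

theorem ple {p : H →L[ℂ] H} (hp : IsStarProjection p) (v : H) : ‖p v‖ ≤ ‖v‖ := by
  have := pyth hp v
  exact abs_le_of_sq_le_sq' (by nlinarith [sq_nonneg ‖v - p v‖]) (norm_nonneg v) |>.2

noncomputable def fl (d : H →L[ℂ] H) (t : Bool) : H →L[ℂ] H := if t then d else 1 - d

noncomputable def atm (d : ℕ → H →L[ℂ] H) : ℕ → (ℕ → Bool) → H →L[ℂ] H
  | 0, _ => 1
  | n + 1, σ => fl (d n) (σ n) * atm d n σ

theorem fl_proj {d : H →L[ℂ] H} (hd : IsStarProjection d) (t : Bool) :
    IsStarProjection (fl d t) := by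
  cases t
  · exact hd.one_sub
  · exact hd

theorem fl_comm {d x : H →L[ℂ] H} (h : Commute x d) (t : Bool) : Commute x (fl d t) := by
  cases t
  · exact (Commute.one_right x).sub_right h
  · exact h

variable {d : ℕ → H →L[ℂ] H}

theorem atm_comm {x : H →L[ℂ] H} (h : ∀ n, Commute x (d n)) (n : ℕ) (σ : ℕ → Bool) :
    Commute x (atm d n σ) := by
  induction n with
  | zero => exact Commute.one_right x
  | succ n ih => exact (fl_comm (h n) _).mul_right ih

theorem fl_atm (hc : ∀ m n, Commute (d m) (d n)) (l : ℕ) (t : Bool) (n : ℕ) (σ : ℕ → Bool) :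
    Commute (fl (d l) t) (atm d n σ) :=
  atm_comm (fun k => (fl_comm (hc k l) t).symm) n σ

theorem atm_proj (hd : ∀ n, IsStarProjection (d n)) (hc : ∀ m n, Commute (d m) (d n))
    (n : ℕ) (σ : ℕ → Bool) : IsStarProjection (atm d n σ) := by
  induction n with
  | zero => exact IsStarProjection.one _
  | succ n ih => exact (fl_proj (hd n) _).mul ih (fl_atm hc _ _ _ _)

theorem atm_congr (n : ℕ) {σ τ : ℕ → Bool} (h : ∀ i < n, σ i = τ i) : atm d n σ = atm d n τ := by
  induction n with
  | zero => rfl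
  | succ n ih =>
    simp only [atm]
    rw [h n (Nat.lt_succ_self n), ih fun i hi => h i (Nat.lt_succ_of_lt hi)]

theorem atm_cont (n : ℕ) : Continuous fun σ => atm d n σ := by
  induction n with
  | zero => exact continuous_const
  | succ n ih =>
    exact ((continuous_of_discreteTopology (f := fl (d n))).comp (continuous_apply n)).mul ih

theorem fl_orth {d : H →L[ℂ] H} (hd : IsStarProjection d) {s t : Bool} (h : s ≠ t) :
    fl d s * fl d t = 0 := by
  cases s <;> cases t
  · exact absurd rfl h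
  · exact hd.one_sub_mul_self
  · exact hd.mul_one_sub_self
  · exact absurd rfl h

theorem atm_orth (hd : ∀ n, IsStarProjection (d n)) (hc : ∀ m n, Commute (d m) (d n))
    (n : ℕ) {σ τ : ℕ → Bool} (h : atm d n σ ≠ atm d n τ) : atm d n σ * atm d n τ = 0 := by
  induction n with
  | zero => exact absurd rfl h
  | succ n ih =>
    simp only [atm] at h ⊢
    have e : fl (d n) (σ n) * atm d n σ * (fl (d n) (τ n) * atm d n τ) =
        fl (d n) (σ n) * fl (d n) (τ n) * (atm d n σ * atm d n τ) := by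
      rw [mul_assoc, ← mul_assoc (atm d n σ), ← (fl_atm hc n (τ n) n σ).eq]
      simp only [mul_assoc]
    rw [e]
    by_cases h1 : σ n = τ n
    · rw [ih fun h2 => h (by rw [h1, h2]), mul_zero]
    · rw [fl_orth (hd n) h1, zero_mul]

theorem fl_mul_atm (hd : ∀ n, IsStarProjection (d n)) (hc : ∀ m n, Commute (d m) (d n))
    {l n : ℕ} (h : l < n) (σ : ℕ → Bool) : fl (d l) (σ l) * atm d n σ = atm d n σ := by
  induction n with
  | zero => omega
  | succ n ih =>
    simp only [atm]
    rcases Nat.lt_succ_iff_lt_or_eq.1 h with h1 | rfl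
    · rw [← mul_assoc, (fl_comm (fl_comm (hc n l) _).symm _).eq, mul_assoc, ih h1]
    · rw [← mul_assoc, (fl_proj (hd l) _).isIdempotentElem.eq]

theorem d_mul_atm (hd : ∀ n, IsStarProjection (d n)) (hc : ∀ m n, Commute (d m) (d n))
    {l n : ℕ} (h : l < n) (σ : ℕ → Bool) :
    d l * atm d n σ = if σ l then atm d n σ else 0 := by
  have h1 := fl_mul_atm hd hc h σ
  cases h2 : σ l
  · rw [h2] at h1
    rw [← h1, ← mul_assoc]
    simp only [fl, Bool.false_eq_true, if_false]
    rw [(hd l).mul_one_sub_self, zero_mul]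
  · rw [h2] at h1
    simpa [fl] using h1

theorem atm_mul_atm (hd : ∀ n, IsStarProjection (d n)) (hc : ∀ m n, Commute (d m) (d n))
    {n m : ℕ} (h : n ≤ m) (σ : ℕ → Bool) : atm d m σ * atm d n σ = atm d m σ := by
  induction m, h using Nat.le_induction with
  | base => exact (atm_proj hd hc n σ).isIdempotentElem.eq
  | succ m _ ih => simp only [atm]; rw [mul_assoc, ih]

theorem atm_anti (hd : ∀ n, IsStarProjection (d n)) (hc : ∀ m n, Commute (d m) (d n))
    {n m : ℕ} (h : n ≤ m) (σ : ℕ → Bool) (g : H) :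
    ‖atm d n σ g‖ ^ 2 = ‖atm d m σ g‖ ^ 2 + ‖atm d n σ g - atm d m σ g‖ ^ 2 := by
  have := pyth (atm_proj hd hc m σ) (atm d n σ g)
  rwa [← ContinuousLinearMap.mul_apply, atm_mul_atm hd hc h] at this

theorem small (hd : ∀ n, IsStarProjection (d n)) (hc : ∀ m n, Commute (d m) (d n))
    (Y : Submodule ℂ H) (hY : IsClosed (Y : Set H)) (hi : ∀ n, ∀ y ∈ Y, d n y ∈ Y)
    (hE : ∀ u ∈ Y, (∀ n, d n u = u ∨ d n u = 0) → u = 0) {g : H} (hg : g ∈ Y) {η : ℝ}
    (hη : 0 < η) : ∃ N, ∀ n, N ≤ n → ∀ σ, ‖atm d n σ g‖ < η := by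
  have mono : ∀ σ, ∀ n m, n ≤ m → ‖atm d m σ g‖ ≤ ‖atm d n σ g‖ := fun σ n m h => by
    have := atm_anti hd hc h σ g
    exact abs_le_of_sq_le_sq' (by nlinarith [sq_nonneg ‖atm d n σ g - atm d m σ g‖])
      (norm_nonneg _) |>.2
  by_contra hcon
  push Not at hcon
  have hcl : ∀ n, IsClosed {σ | η ≤ ‖atm d n σ g‖} := fun n =>
    isClosed_le continuous_const ((atm_cont n).clm_apply continuous_const).norm
  obtain ⟨σ, hσ⟩ := IsCompact.nonempty_iInter_of_sequence_nonempty_isCompact_isClosed
    (fun n => {σ | η ≤ ‖atm d n σ g‖})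
    (fun n σ h => le_trans h (mono σ n (n + 1) (Nat.le_succ n)))
    (fun n => by
      obtain ⟨m, hm, σ, h⟩ := hcon n
      exact ⟨σ, le_trans h (mono σ n m hm)⟩) (hcl 0).isCompact hcl
  have hσ' : ∀ n, η ≤ ‖atm d n σ g‖ := fun n => Set.mem_iInter.1 hσ n
  have hanti : Antitone fun n => ‖atm d n σ g‖ ^ 2 := fun n m h =>
    pow_le_pow_left₀ (norm_nonneg _) (mono σ n m h) 2
  have hbdd : BddBelow (Set.range fun n => ‖atm d n σ g‖ ^ 2) :=
    ⟨0, by rintro _ ⟨n, rfl⟩; positivity⟩
  have hL := tendsto_atTop_ciInf hanti hbdd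
  set L := ⨅ n, ‖atm d n σ g‖ ^ 2
  have hcs : CauchySeq fun n => atm d n σ g := by
    refine cauchySeq_of_le_tendsto_0' (fun n => √(‖atm d n σ g‖ ^ 2 - L)) (fun n m h => ?_) ?_
    · rw [dist_eq_norm]
      refine Real.le_sqrt_of_sq_le ?_
      have h1 := atm_anti hd hc h σ g
      have h2 : L ≤ ‖atm d m σ g‖ ^ 2 := ciInf_le hbdd m
      linarith
    · simpa using (hL.sub_const L).sqrt
  obtain ⟨u, hu⟩ := cauchySeq_tendsto_of_complete hcs
  have hmem : ∀ n, atm d n σ g ∈ Y := fun n => by
    induction n with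
    | zero => exact hg
    | succ n ih =>
      simp only [atm, ContinuousLinearMap.mul_apply, fl]
      split_ifs
      · exact hi n _ ih
      · exact Y.sub_mem ih (hi n _ ih)
  have h0 : u = 0 := hE u (hY.mem_of_tendsto hu (Eventually.of_forall hmem)) fun l => by
    have h1 : Tendsto (fun n => d l (atm d n σ g)) atTop (𝓝 (d l u)) :=
      ((d l).continuous.tendsto u).comp hu
    have h2 : ∀ᶠ n in atTop, d l (atm d n σ g) = (if σ l then atm d n σ else 0) g :=
      (eventually_gt_atTop l).mono fun n hn => by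
        rw [← ContinuousLinearMap.mul_apply, d_mul_atm hd hc hn]
    have h3 := h1.congr' h2
    cases h4 : σ l
    · right
      simp only [h4, Bool.false_eq_true, if_false, ContinuousLinearMap.zero_apply] at h3
      exact tendsto_nhds_unique h3 tendsto_const_nhds
    · left
      simp only [h4, if_true] at h3
      exact tendsto_nhds_unique h3 hu
  have h5 : η ≤ ‖u‖ := ge_of_tendsto' hu.norm hσ'
  rw [h0, norm_zero] at h5
  linarith

theorem good (hd : ∀ n, IsStarProjection (d n)) {x : H →L[ℂ] H} (hc : ∀ n, Commute x (d n))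
    {δ : ℝ} (hδ : 0 ≤ δ) {v : H} (h0 : v ≠ 0) (hv : ‖x v - v‖ ≤ δ * ‖v‖) (n : ℕ) :
    ∃ σ, atm d n σ v ≠ 0 ∧ ‖x (atm d n σ v) - atm d n σ v‖ ≤ δ * ‖atm d n σ v‖ := by
  induction n with
  | zero => exact ⟨fun _ => true, h0, hv⟩
  | succ n ih =>
    obtain ⟨σ, h1, h2⟩ := ih
    set u := atm d n σ v with hu
    have e : ∀ t, atm d (n + 1) (Function.update σ n t) v = fl (d n) t u := fun t => by
      simp only [atm, Function.update_self, ContinuousLinearMap.mul_apply]
      rw [atm_congr n (τ := σ) fun i hi => Function.update_of_ne hi.ne _ _]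
    by_contra hcon
    push Not at hcon
    have a1 := hcon (Function.update σ n true)
    have a2 := hcon (Function.update σ n false)
    rw [e] at a1 a2
    simp only [fl, if_true, Bool.false_eq_true, if_false, ContinuousLinearMap.sub_apply,
      ContinuousLinearMap.one_apply] at a1 a2
    have p1 := pyth (hd n) u
    have p2 := pyth (hd n) (x u - u)
    have c1 : d n (x u - u) = x (d n u) - d n u := by
      rw [map_sub, ← ContinuousLinearMap.mul_apply, ← (hc n).eq]; rfl
    have c2 : x u - u - (x (d n u) - d n u) = x (u - d n u) - (u - d n u) := by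
      rw [map_sub]; abel
    rw [c1, c2] at p2
    have h3 : ‖x u - u‖ ^ 2 ≤ (δ * ‖u‖) ^ 2 := pow_le_pow_left₀ (norm_nonneg _) h2 2
    have sq : ∀ a b : ℝ, 0 ≤ a → δ * a < b → (δ * a) ^ 2 < b ^ 2 := fun a b ha h =>
      pow_lt_pow_left₀ h (mul_nonneg hδ ha) two_ne_zero
    by_cases b1 : d n u = 0
    · have b2 : u - d n u ≠ 0 := by rw [b1, sub_zero]; exact h1
      have := a2 b2
      rw [b1, sub_zero] at this
      linarith
    · by_cases b2 : u - d n u = 0
      · have := a1 b1
        rw [sub_eq_zero] at b2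
        rw [← b2] at this
        linarith
      · have s1 := sq _ _ (norm_nonneg _) (a1 b1)
        have s2 := sq _ _ (norm_nonneg _) (a2 b2)
        rw [mul_pow] at s1 s2 h3
        rw [p1] at h3
        linarith

end Pool.Agent.H86.Fl
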