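import Pool.Agent.H86.FlC

set_option autoImplicit false
set_option linter.unusedSectionVars false
set_option linter.deprecated false

namespace Pool.Agent.H86.Fl

open Finset Filter Topology

variable {H : Type*} [NormedAddCommGroup H] [InnerProductSpace ℂ H] [CompleteSpace H]

theorem dns [TopologicalSpace.SeparableSpace H] {X : Set (H →L[ℂ] H)} (hne : X.Nonempty)
    (hX : ∀ x ∈ X, IsStarProjection x) :
    ∃ d : ℕ → H →L[ℂ] H, (∀ n, d n ∈ X) ∧ ∀ x ∈ X, ∀ f, ∀ ε > 0, ∃ l, ‖d l f - x f‖ < ε := by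
  obtain ⟨ζ, hζ⟩ := TopologicalSpace.exists_dense_seq H
  have h : ∀ q : ℕ × ℕ × ℕ, ∃ y ∈ X, ∀ x ∈ X, ‖x (ζ q.1) - ζ q.2.1‖ < 1 / ((q.2.2 : ℝ) + 1) →
      ‖y (ζ q.1) - ζ q.2.1‖ < 1 / ((q.2.2 : ℝ) + 1) := fun q => by
    by_cases h : ∃ x ∈ X, ‖x (ζ q.1) - ζ q.2.1‖ < 1 / ((q.2.2 : ℝ) + 1)
    · obtain ⟨y, hy, h⟩ := h
      exact ⟨y, hy, fun _ _ _ => h⟩
    · obtain ⟨y, hy⟩ := hne
      exact ⟨y, hy, fun x hx h' => absurd ⟨x, hx, h'⟩ h⟩
  choose y hy hy' using h
  refine ⟨fun n => y ((Denumerable.eqv (ℕ × ℕ × ℕ)).symm n), fun n => hy _, fun x hx f ε hε => ?_⟩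
  obtain ⟨i, hi⟩ := hζ.exists_dist_lt f (show 0 < ε / 4 by positivity)
  obtain ⟨n, hn⟩ := exists_nat_one_div_lt (show 0 < ε / 4 by positivity)
  obtain ⟨k, hk⟩ := hζ.exists_dist_lt (x (ζ i)) (show 0 < 1 / ((n : ℝ) + 1) by positivity)
  rw [dist_eq_norm] at hi hk
  refine ⟨Denumerable.eqv (ℕ × ℕ × ℕ) (i, k, n), ?_⟩
  simp only [Equiv.symm_apply_apply]
  have h1 := hy' (i, k, n) x hx hk
  simp only at h1
  have h2 := ple (hX _ (hy (i, k, n))) (f - ζ i)
  have h3 := ple (hX x hx) (f - ζ i)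
  have e : y (i, k, n) f - x f = y (i, k, n) (f - ζ i) + (y (i, k, n) (ζ i) - ζ k) -
      (x (ζ i) - ζ k) - x (f - ζ i) := by
    rw [map_sub, map_sub]; abel
  rw [e]
  have h4 := norm_sub_le (y (i, k, n) (f - ζ i) + (y (i, k, n) (ζ i) - ζ k) - (x (ζ i) - ζ k))
    (x (f - ζ i))
  have h5 := norm_sub_le (y (i, k, n) (f - ζ i) + (y (i, k, n) (ζ i) - ζ k)) (x (ζ i) - ζ k)
  have h6 := norm_add_le (y (i, k, n) (f - ζ i)) (y (i, k, n) (ζ i) - ζ k)
  linarith

theorem maxON (E : Set H) (hE : ∀ u ∈ E, ∀ c : ℂ, c • u ∈ E) :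
    ∃ W : Set H, W ⊆ E ∧ Orthonormal ℂ ((↑) : W → H) ∧
      ∀ u ∈ (Submodule.span ℂ W)ᗮ, u ∈ E → u = 0 := by
  classical
  obtain ⟨W, hW⟩ := zorn_subset {W : Set H | W ⊆ E ∧ Orthonormal ℂ ((↑) : W → H)}
    fun c hc hch => ⟨⋃₀ c, ⟨Set.sUnion_subset fun t ht => (hc ht).1,
      orthonormal_sUnion_of_directed hch.directedOn fun t ht => (hc ht).2⟩,
      fun s hs => Set.subset_sUnion_of_mem hs⟩
  refine ⟨W, hW.prop.1, hW.prop.2, fun u hu huE => ?_⟩
  by_contra h0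
  set v : H := ((‖u‖⁻¹ : ℝ) : ℂ) • u
  have hv : ‖v‖ = 1 := by rw [norm_smul]; simp [h0]
  have hvo : ∀ w ∈ W, inner ℂ w v = 0 := fun w hw =>
    (Submodule.smul_mem _ _ hu : v ∈ (Submodule.span ℂ W)ᗮ) w (Submodule.subset_span hw)
  have h1 : inner ℂ v v = 1 := by rw [inner_self_eq_norm_sq_to_K, hv]; simp
  have hvW : v ∉ W := fun h => by rw [hvo v h] at h1; exact zero_ne_one h1
  have h2 : Orthonormal ℂ (Subtype.val : ↥(insert v W : Set H) → H) := by
    rw [orthonormal_subtype_iff_ite]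
    have h3 := orthonormal_subtype_iff_ite.1 hW.prop.2
    rintro a (rfl | ha) c (rfl | hc)
    · rw [if_pos rfl]; exact h1
    · rw [if_neg (by rintro rfl; exact hvW hc), inner_eq_zero_symm]; exact hvo c hc
    · rw [if_neg (by rintro rfl; exact hvW ha)]; exact hvo a ha
    · exact h3 a ha c hc
  exact hvW (hW.le_of_ge ⟨Set.insert_subset (hE u huE _) hW.prop.1, h2⟩ (Set.subset_insert v W)
    (Set.mem_insert v W))

theorem cpt_fin {x : H →L[ℂ] H} (V : Submodule ℂ H) [FiniteDimensional ℂ V] (h : ∀ f, x f ∈ V) :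
    IsCompactOperator x := by
  haveI : ProperSpace V := FiniteDimensional.proper_rclike ℂ V
  exact (isCompactOperator_of_locallyCompactSpace_dom (x.codRestrict V h)).clm_comp V.subtypeL

theorem LL [TopologicalSpace.SeparableSpace H] (X : Set (H →L[ℂ] H))
    (hX : ∀ x ∈ X, IsStarProjection x) (hc : ∀ x ∈ X, ∀ y ∈ X, Commute x y)
    (S : ℕ → H → Prop) (h0 : ∀ w, S 0 w)
    (hS : ∀ j, ∃ T : Finset H, ∃ η > 0, ∀ w, (∀ f ∈ T, ‖inner ℂ f w‖ < η) → S j w) :
    ∃ W : ℕ → Set H, (∀ j, Orthonormal ℂ ((↑) : W j → H)) ∧ ∀ x ∈ X, ¬ IsCompactOperator x →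
      ∃ (j : ℕ → ℕ) (w : ℕ → H), (∀ k, w k ∈ W (j k) ∧ S (j k) (w k) ∧ ‖x (w k) - w k‖ ≤ 1 / 30) ∧
        ∀ f, Tendsto (fun k => inner ℂ f (w k)) atTop (𝓝 0) := by
  classical
  rcases X.eq_empty_or_nonempty with rfl | hne
  · exact ⟨fun _ => ∅, fun _ => orthonormal_empty ℂ H, fun x hx => absurd hx (by simp)⟩
  obtain ⟨d, hdX, hdd⟩ := dns hne hX
  have hd : ∀ n, IsStarProjection (d n) := fun n => hX _ (hdX n)
  have hcd : ∀ m n, Commute (d m) (d n) := fun m n => hc _ (hdX m) _ (hdX n)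
  obtain ⟨W0, hW0E, hW0, hmax⟩ := maxON {u : H | ∀ n, d n u = u ∨ d n u = 0} fun u hu c n => by
    rcases hu n with h | h
    · left; rw [map_smul, h]
    · right; rw [map_smul, h, smul_zero]
  have eig : ∀ x ∈ X, ∀ w ∈ W0, x w = w ∨ x w = 0 := fun x hx w hw => by
    by_contra hcon
    push Not at hcon
    obtain ⟨l, hl⟩ := hdd x hx w (min ‖w - x w‖ ‖0 - x w‖) (lt_min
      (norm_pos_iff.2 (sub_ne_zero.2 hcon.1.symm)) (norm_pos_iff.2 (sub_ne_zero.2 hcon.2.symm)))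
    rcases hW0E hw l with h | h <;> rw [h] at hl
    · exact absurd (min_le_left _ _) (not_le.2 hl)
    · exact absurd (min_le_right _ _) (not_le.2 hl)
  set Y := (Submodule.span ℂ W0)ᗮ with hY
  have hYc : IsClosed (Y : Set H) := Submodule.isClosed_orthogonal _
  have inv : ∀ x ∈ X, ∀ y ∈ Y, x y ∈ Y := fun x hx y hy u hu => by
    rw [← psym (hX x hx)]
    refine hy _ ?_
    refine Submodule.span_induction (fun w hw => ?_) (by simp) (fun a b _ _ ha hb => ?_)
      (fun c a _ ha => ?_) hu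
    · rcases eig x hx w hw with h | h <;> rw [h]
      · exact Submodule.subset_span hw
      · exact Submodule.zero_mem _
    · rw [map_add]; exact Submodule.add_mem _ ha hb
    · rw [map_smul]; exact Submodule.smul_mem _ _ ha
  have hsm : ∀ (f : H) (η : ℝ), 0 < η → ∃ N, ∀ n, N ≤ n → ∀ σ,
      ‖atm d n σ (Y.starProjection f)‖ < η := fun f η hη =>
    small hd hcd Y hYc (fun n => inv _ (hdX n)) hmax (Y.starProjection_apply_mem f) hη
  have hmem : ∀ n σ, ∀ g ∈ Y, atm d n σ g ∈ Y := fun n σ g hg => by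
    induction n with
    | zero => exact hg
    | succ n ih =>
      simp only [atm, ContinuousLinearMap.mul_apply, fl]
      split_ifs
      · exact inv _ (hdX n) _ ih
      · exact Y.sub_mem ih (inv _ (hdX n) _ ih)
  let nz : H → H := fun v => ((‖v‖⁻¹ : ℝ) : ℂ) • v
  have hnz : ∀ v, v ≠ 0 → ‖nz v‖ = 1 := fun v hv => by simp only [nz]; rw [norm_smul]; simp [hv]
  have wk : ∀ n σ, ∀ g ∈ Y, atm d n σ g ≠ 0 → ∀ f,
      ‖inner ℂ f (nz (atm d n σ g))‖ ≤ ‖atm d n σ (Y.starProjection f)‖ := by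
    intro n σ g hg h1 f
    have e1 : Y.starProjection (nz (atm d n σ g)) = nz (atm d n σ g) :=
      Submodule.starProjection_eq_self_iff.2 (Y.smul_mem _ (hmem n σ g hg))
    have e2 : atm d n σ (nz (atm d n σ g)) = nz (atm d n σ g) := by
      simp only [nz]; rw [map_smul, pidem (atm_proj hd hcd n σ)]
    rw [← e1, ← Submodule.inner_starProjection_left_eq_right, ← e2, ← psym (atm_proj hd hcd n σ)]
    have := norm_inner_le_norm (𝕜 := ℂ) (atm d n σ (Y.starProjection f)) (nz (atm d n σ g))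
    rwa [hnz _ h1, mul_one] at this
  choose T η hη hT using hS
  choose N hN using hsm
  let lv : ℕ → ℕ := fun j => j + ∑ f ∈ T (j + 1), N f (η (j + 1)) (hη _)
  obtain ⟨ζ, hζ⟩ := TopologicalSpace.exists_dense_seq H
  let ξ : ℕ → H := fun i => Y.starProjection (ζ i)
  have hξ : ∀ i, ξ i ∈ Y := fun i => Y.starProjection_apply_mem _
  let W1 : ℕ → Set H := fun j => {w | ∃ σ, atm d (lv j) σ (ξ j.unpair.1) ≠ 0 ∧
    w = nz (atm d (lv j) σ (ξ j.unpair.1))}
  have hW1 : ∀ j, Orthonormal ℂ ((↑) : W1 j → H) := fun j => by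
    refine ⟨fun w => ?_, fun w w' hne => ?_⟩
    · obtain ⟨σ, h1, h2⟩ := w.2
      rw [h2]; exact hnz _ h1
    · obtain ⟨σ, h1, h2⟩ := w.2
      obtain ⟨τ, h3, h4⟩ := w'.2
      have : atm d (lv j) σ ≠ atm d (lv j) τ := fun h => hne (Subtype.ext (by rw [h2, h4, h]))
      show inner ℂ w.1 w'.1 = 0
      rw [h2, h4]
      simp only [nz, inner_smul_left, inner_smul_right]
      rw [psym (atm_proj hd hcd _ σ), ← ContinuousLinearMap.mul_apply (atm d (lv j) σ) (atm d (lv j) τ),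
        atm_orth hd hcd _ this]
      simp
  refine ⟨fun j => Nat.casesOn j W0 W1, fun j => by cases j; exacts [hW0, hW1 _],
    fun x hx hnc => ?_⟩
  by_cases hinf : {w | w ∈ W0 ∧ x w = w}.Infinite
  · let e := hinf.natEmbedding
    refine ⟨fun _ => 0, fun k => (e k).1, fun k => ⟨(e k).2.1, h0 _, ?_⟩, on_weak ?_⟩
    · rw [(e k).2.2]; norm_num
    · exact hW0.comp (fun k => ⟨(e k).1, (e k).2.1⟩) fun a b h =>
        e.injective (Subtype.ext (congrArg (fun z : W0 => z.1) h))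
  rw [Set.not_infinite] at hinf
  have hex : ∃ i, x (ξ i) ≠ 0 := by
    by_contra hcon
    push Not at hcon
    haveI := FiniteDimensional.span_of_finite ℂ hinf
    apply hnc
    refine cpt_fin (Submodule.span ℂ {w | w ∈ W0 ∧ x w = w}) fun f => ?_
    have h1 : x (Y.starProjection f) = 0 :=
      hζ.induction_on (p := fun f => x (Y.starProjection f) = 0) f
        (isClosed_eq (x.continuous.comp Y.starProjection.continuous) continuous_const) hcon
    have h2 : f - Y.starProjection f ∈ (Submodule.span ℂ W0).topologicalClosure := by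
      rw [← Submodule.orthogonal_orthogonal_eq_closure]
      exact Y.sub_starProjection_mem_orthogonal f
    have h3 : (Submodule.span ℂ W0).topologicalClosure ≤
        (Submodule.span ℂ {w | w ∈ W0 ∧ x w = w}).comap (x : H →ₗ[ℂ] H) := by
      refine Submodule.topologicalClosure_minimal _ (Submodule.span_le.2 fun w hw => ?_)
        ((Submodule.closed_of_finiteDimensional
          (Submodule.span ℂ {w | w ∈ W0 ∧ x w = w})).preimage x.continuous)
      show x w ∈ Submodule.span ℂ {w | w ∈ W0 ∧ x w = w}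
      rcases eig x hx w hw with h | h <;> rw [h]
      · exact Submodule.subset_span ⟨hw, h⟩
      · exact Submodule.zero_mem _
    have h4 : x (f - Y.starProjection f) ∈ Submodule.span ℂ {w | w ∈ W0 ∧ x w = w} := h3 h2
    rwa [map_sub, h1, sub_zero] at h4
  obtain ⟨i, hi⟩ := hex
  have hp : 0 < ‖x (ξ i)‖ := norm_pos_iff.2 hi
  obtain ⟨l, hl⟩ := hdd x hx (ξ i) (‖x (ξ i)‖ / 31) (by positivity)
  have b1 : ‖x (ξ i)‖ - ‖x (ξ i)‖ / 31 ≤ ‖d l (ξ i)‖ := by
    have := norm_sub_norm_le (x (ξ i)) (d l (ξ i))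
    rw [norm_sub_rev] at this
    linarith
  have b2 : ‖x (d l (ξ i)) - d l (ξ i)‖ ≤ 1 / 30 * ‖d l (ξ i)‖ := by
    have h1 := ple (hX x hx).one_sub (d l (ξ i) - x (ξ i))
    have e : (1 - x) (d l (ξ i) - x (ξ i)) = d l (ξ i) - x (d l (ξ i)) := by
      simp only [ContinuousLinearMap.sub_apply, ContinuousLinearMap.one_apply, map_sub,
        pidem (hX x hx)]
      abel
    rw [e, norm_sub_rev] at h1
    linarith
  have b3 : d l (ξ i) ≠ 0 := norm_pos_iff.1 (by linarith)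
  have hg := good hd (fun n => hc x hx _ (hdX n)) (by norm_num) b3 b2
  choose σ hσ1 hσ2 using hg
  let J : ℕ → ℕ := fun k => Nat.pair i (k + l + 1)
  have hJ : ∀ k, k + l + 1 ≤ lv (J k) := fun k =>
    le_trans (Nat.right_le_pair i _) (Nat.le_add_right _ _)
  have e3 : ∀ k, atm d (lv (J k)) (σ (lv (J k))) (d l (ξ i)) =
      atm d (lv (J k)) (σ (lv (J k))) (ξ i) := fun k => by
    have h1 := hσ1 (lv (J k))
    rw [← ContinuousLinearMap.mul_apply, ← (atm_comm (hcd l) _ _).eq,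
      d_mul_atm hd hcd (by have := hJ k; omega)] at h1 ⊢
    split_ifs at h1 ⊢
    · rfl
    · exact absurd rfl h1
  have n3 : ∀ k, atm d (lv (J k)) (σ (lv (J k))) (ξ i) ≠ 0 := fun k => e3 k ▸ hσ1 _
  refine ⟨fun k => J k + 1, fun k => nz (atm d (lv (J k)) (σ (lv (J k))) (ξ i)),
    fun k => ⟨?_, ?_, ?_⟩, fun f => ?_⟩
  · exact ⟨σ (lv (J k)), by simpa only [J, Nat.unpair_pair] using n3 k,
      by simp only [J, Nat.unpair_pair]⟩
  · refine hT _ _ fun f hf => lt_of_le_of_lt (wk _ _ _ (hξ i) (n3 k) f) (hN _ _ (hη _) _ ?_ _)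
    exact le_trans (single_le_sum (f := fun f => N f (η (J k + 1)) (hη _))
      (fun _ _ => Nat.zero_le _) hf) (Nat.le_add_left _ _)
  · have h1 := hσ2 (lv (J k))
    rw [e3] at h1
    have h2 := norm_pos_iff.2 (n3 k)
    simp only [nz]
    rw [map_smul, ← smul_sub, norm_smul, Complex.norm_real, norm_inv, norm_norm,
      inv_mul_le_iff₀ h2]
    linarith
  · rw [tendsto_zero_iff_norm_tendsto_zero, Metric.tendsto_atTop]
    intro ε hε
    refine ⟨N f ε hε, fun k hk => ?_⟩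
    rw [dist_zero_right, norm_norm]
    exact lt_of_le_of_lt (wk _ _ _ (hξ i) (n3 k) f) (hN _ _ hε _ (by have := hJ k; omega) _)

end Pool.Agent.H86.Fl
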