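import Mathlib

set_option autoImplicit false

namespace Pool.Agent.H86.Fl

/-- a filter of projections of a star ring; `p ≤ q` is `p * q = p` -/
def IsFilt {A : Type*} [Mul A] [Star A] (F : Set A) : Prop :=
  (∀ p ∈ F, IsStarProjection p) ∧ (∀ p ∈ F, ∀ q ∈ F, ∃ r ∈ F, r * p = r ∧ r * q = r) ∧
    ∀ p ∈ F, ∀ r, IsStarProjection r → p * r = p → r ∈ F

/-- a proper filter that is not strictly contained in another proper filter -/
def IsMaxFilt {A : Type*} [Mul A] [Star A] [Zero A] (F : Set A) : Prop :=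
  IsFilt F ∧ 0 ∉ F ∧ ∀ G : Set A, IsFilt G → 0 ∉ G → F ⊆ G → G = F

/-- the intersection of all filters containing `X` -/
def gen {A : Type*} [Mul A] [Star A] (X : Set A) : Set A := ⋂₀ {F | IsFilt F ∧ X ⊆ F}

end Pool.Agent.H86.Fl
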