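import Pool.Agent.H86.FlD
import Pool.Agent.H86.FlDefs

set_option autoImplicit false
set_option linter.unusedSectionVars false
set_option linter.deprecated false

namespace Pool.Agent.H86.Fl

open Finset Filter Topology

variable {H : Type*} [NormedAddCommGroup H] [InnerProductSpace ℂ H] [CompleteSpace H]

theorem on_count [TopologicalSpace.SeparableSpace H] {ι : Type*} {v : ι → H}
    (hv : Orthonormal ℂ v) : Countable ι := by
  refine Pairwise.countable_of_isOpen_disjoint (s := fun i => Metric.ball (v i) (1 / 2))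
    (fun i j h => Metric.ball_disjoint_ball ?_) (fun _ => Metric.isOpen_ball)
    fun i => Metric.nonempty_ball.2 (by norm_num)
  have h1 := norm_sub_sq (𝕜 := ℂ) (v i) (v j)
  rw [hv.2 h, hv.1 i, hv.1 j] at h1
  rw [dist_eq_norm]
  simp only [map_zero] at h1
  nlinarith [norm_nonneg (v i - v j)]

theorem exB [TopologicalSpace.SeparableSpace H] (hH : ¬ FiniteDimensional ℂ H) (I : Type)
    [Countable I] [Infinite I] : Nonempty (HilbertBasis I ℂ H) := by
  obtain ⟨w, b, -⟩ := exists_hilbertBasis ℂ H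
  haveI : Countable w := on_count b.orthonormal
  haveI : Infinite w := by
    by_contra h
    rw [not_infinite_iff_finite] at h
    haveI := Fintype.ofFinite w
    exact hH (Module.Finite.of_basis b.toOrthonormalBasis.toBasis)
  obtain ⟨e⟩ : Nonempty (I ≃ w) := nonempty_equiv_of_countable
  exact ⟨HilbertBasis.mk (b.orthonormal.comp e e.injective) (by
    rw [e.surjective.range_comp, b.dense_span])⟩

theorem exP (M : Submodule ℂ H) (hM : IsClosed (M : Set H)) :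
    ∃ P : H →L[ℂ] H, IsStarProjection P ∧ (∀ f, P f ∈ M) ∧ ∀ f ∈ M, P f = f := by
  haveI := hM.completeSpace_coe
  exact ⟨M.starProjection, isStarProjection_starProjection, M.starProjection_apply_mem,
    fun f hf => Submodule.starProjection_eq_self_iff.2 hf⟩

theorem core0 [TopologicalSpace.SeparableSpace H]
    {Y : ℕ → Type} [∀ m, Fintype (Y m)] [∀ m, DecidableEq (Y m)] [∀ m, Nonempty (Y m)]
    (b : HilbertBasis (Ix Y) ℂ H) (𝒢 : ∀ m, Finset (Finset (Y m)))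
    (hne : ∀ m, ∀ G ∈ 𝒢 m, G.Nonempty)
    (hG : ∀ m, ∀ G ∈ 𝒢 m, ∀ G' ∈ 𝒢 m, G ≠ G' → G.card ≤ 2 * (G \ G').card)
    (hc : ∀ m, ((m + 1) * 200 * 2 ^ m) * Fintype.card ((Fin m → Bool) → Y m) < (𝒢 m).card) :
    ∃ R : Finset (ℕ → ℕ) → H →L[ℂ] H, (∀ s, IsStarProjection (R s)) ∧
      (∀ s t, s ⊆ t → R t * R s = R t) ∧ (∀ s, ¬ IsCompactOperator (R s)) ∧
      ∀ X : Set (H →L[ℂ] H), (∀ x ∈ X, IsStarProjection x) → (∀ x ∈ X, ∀ y ∈ X, Commute x y) →
        ∃ s, ∀ x ∈ X, ¬ IsCompactOperator x → ¬ IsCompactOperator ((1 - R s) * x : H →L[ℂ] H) := by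
  classical
  obtain ⟨g, -, hg⟩ := PolishSpace.exists_nat_nat_continuous_surjective (ℕ → ℕ → H)
  obtain ⟨ι⟩ : Nonempty ((ℕ → ℕ) ↪ (ℕ → Bool)) := by
    rw [← Cardinal.le_def]; simp
  let c : (ℕ → ℕ) → ∀ m, Fin m → Bool := fun α m i => ι α i
  let W : (ℕ → ℕ) → ℕ → Set H := fun α j => {u | u ∈ Set.range (g α j) ∧ ‖u‖ = 1}
  have hp : ∀ α m, ∃ G ∈ 𝒢 m, (∀ j, Orthonormal ℂ ((↑) : W α j → H)) →
      ∀ j ≤ m, ∀ w ∈ W α j, ∀ f, InV (c α m) G f →
        mass b m w / 20 - 1 / 200 * (1 / 2) ^ m ≤ ∑ ω, ‖co b m w ω - f ω‖ ^ 2 := fun α m => by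
    by_cases h : ∀ j, Orthonormal ℂ ((↑) : W α j → H)
    · obtain ⟨G, h1, h2⟩ := pick b m (𝒢 m) (hG m) (hc m) (W α) h (c α m)
      exact ⟨G, h1, fun _ => h2⟩
    · obtain ⟨G, h1⟩ := card_pos.1 (lt_of_le_of_lt (Nat.zero_le _) (hc m))
      exact ⟨G, h1, fun h' => absurd h' h⟩
  choose G hG1 hG2 using hp
  have hR : ∀ s : Finset (ℕ → ℕ), ∃ P : H →L[ℂ] H, IsStarProjection P ∧
      (∀ f, ∀ α ∈ s, P f ∈ MM b (c α) (G α)) ∧
      ∀ f, (∀ α ∈ s, f ∈ MM b (c α) (G α)) → P f = f := fun s => by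
    obtain ⟨P, h1, h2, h3⟩ := exP (⨅ α ∈ s, MM b (c α) (G α)) (by
      simp only [Submodule.coe_iInf]
      exact isClosed_iInter fun α => isClosed_iInter fun _ => MM_closed b _ _)
    simp only [Submodule.mem_iInf] at h2 h3
    exact ⟨P, h1, h2, h3⟩
  choose R hR1 hR2 hR3 using hR
  refine ⟨R, hR1, fun s t hst => ?_, fun s hs => ?_, fun X hX hXc => ?_⟩
  · have : R s * R t = R t := ContinuousLinearMap.ext fun f =>
      hR3 s _ fun α hα => hR2 t f α (hst hα)
    have h2 := congrArg star this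
    rwa [star_mul, (hR1 s).isSelfAdjoint.star_eq, (hR1 t).isSelfAdjoint.star_eq] at h2
  · have h1 : ∀ᶠ m in atTop, ∀ α ∈ s, ∀ β ∈ s, c α m = c β m → α = β := by
      refine (eventually_all_finset s).2 fun α _ => (eventually_all_finset s).2 fun β _ => ?_
      by_cases h : α = β
      · exact Eventually.of_forall fun _ _ => h
      · obtain ⟨i, hi⟩ := Function.ne_iff.1 (ι.injective.ne h)
        exact (eventually_gt_atTop i).mono fun m hm h' => absurd (congrFun h' ⟨i, hm⟩) hi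
    obtain ⟨m0, hm0⟩ := eventually_atTop.1 h1
    have h2 := fun k => inter b s c G (fun α m => hne m _ (hG1 α m)) (k + m0)
      fun α hα β hβ h => hm0 (k + m0) (Nat.le_add_left _ _) α hα β hβ h
    choose u hu1 hu2 hu3 using h2
    have hon : Orthonormal ℂ u := ⟨hu1, fun k l hkl => by
      show inner ℂ (u k) (u l) = 0
      rw [← b.tsum_inner_mul_inner]
      refine (tsum_congr fun i => ?_).trans tsum_zero
      by_cases h : i.1 = k + m0
      · rw [hu3 l i (by omega), mul_zero]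
      · rw [inner_eq_zero_symm.1 (hu3 k i h), zero_mul]⟩
    have h3 := (cpt_weak hs (fun k => (hu1 k).le) (on_weak hon)).norm
    simp only [hR3 s _ (hu2 _), hu1, norm_zero] at h3
    exact one_ne_zero (tendsto_nhds_unique tendsto_const_nhds h3)
  · obtain ⟨V, hV, hV'⟩ := LL X hX hXc (fun j w => ∑ m ∈ range j, mass b m w ≤ 1 / 2)
      (fun w => by simp) fun j => by
        set n : ℝ := ∑ m ∈ range j, (Fintype.card ((Fin m → Bool) → Y m) : ℝ)
        have hn : 0 ≤ n := sum_nonneg fun _ _ => by positivity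
        refine ⟨((range j).sigma fun m => (univ : Finset ((Fin m → Bool) → Y m))).image b,
          1 / (2 * n + 1), by positivity, fun w hw => ?_⟩
        have h1 : ∑ m ∈ range j, mass b m w ≤ n * (1 / (2 * n + 1)) := by
          rw [sum_mul]
          refine sum_le_sum fun m hm => ?_
          unfold mass
          rw [← nsmul_eq_mul, ← card_univ]
          refine sum_le_card_nsmul _ _ _ fun ω _ => ?_
          have h2 := hw (b ⟨m, ω⟩) (mem_image_of_mem _ (mem_sigma.2 ⟨hm, mem_univ _⟩))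
          have h3 : 1 / (2 * n + 1) ≤ 1 := by rw [div_le_one (by positivity)]; linarith
          have h4 := norm_nonneg (inner ℂ (b ⟨m, ω⟩) w)
          unfold co
          nlinarith
        refine h1.trans ?_
        rw [mul_one_div, div_le_div_iff₀ (by positivity) (by positivity)]
        linarith
    have h1 : ∀ j, ∃ e : ℕ → H, insert 0 (V j) = Set.range e := fun j =>
      ((Set.countable_coe_iff.1 (on_count (hV j))).insert 0).exists_eq_range
        (Set.insert_nonempty _ _)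
    choose e he using h1
    obtain ⟨α, hα⟩ := hg e
    have hW : ∀ j, W α j = V j := fun j => by
      ext u
      simp only [W, hα, ← he, Set.mem_ofPred_eq, Set.mem_insert_iff]
      refine ⟨?_, fun h => ⟨Or.inr h, (hV j).1 ⟨u, h⟩⟩⟩
      rintro ⟨rfl | h, h2⟩
      · simp at h2
      · exact h
    refine ⟨{α}, fun x hx hnc hK => ?_⟩
    obtain ⟨j, w, h2, h3⟩ := hV' x hx hnc
    have hw1 : ∀ k, ‖w k‖ = 1 := fun k => (hV (j k)).1 ⟨w k, (h2 k).1⟩
    have h4 := (cpt_weak hK (fun k => (hw1 k).le) h3).norm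
    rw [norm_zero] at h4
    obtain ⟨k, hk⟩ := (h4.eventually (gt_mem_nhds (show (0 : ℝ) < 1 / 30 by norm_num))).exists
    have h5 := dist_MM b (c α) (G α) (hw1 k) (j k) (h2 k).2.1
      (fun m hm => hG2 α m (fun j => by rw [hW]; exact hV j) (j k) hm (w k)
        (by rw [hW]; exact (h2 k).1)) (hR2 {α} (w k) α (mem_singleton_self α))
    have h6 := ple (hR1 {α}).one_sub (x (w k) - w k)
    have h7 : w k - R {α} (w k) =
        ((1 - R {α}) * x : H →L[ℂ] H) (w k) - (1 - R {α} : H →L[ℂ] H) (x (w k) - w k) := by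
      simp only [ContinuousLinearMap.mul_apply, map_sub, ContinuousLinearMap.sub_apply,
        ContinuousLinearMap.one_apply]
      abel
    have h8 := norm_sub_le (((1 - R {α}) * x : H →L[ℂ] H) (w k))
      ((1 - R {α} : H →L[ℂ] H) (x (w k) - w k))
    rw [← h7] at h8
    have h9 := (h2 k).2.2
    have h10 : ‖w k - R {α} (w k)‖ < 1 / 10 := by linarith
    nlinarith [norm_nonneg (w k - R {α} (w k))]

theorem core [TopologicalSpace.SeparableSpace H] (hH : ¬ FiniteDimensional ℂ H) :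
    ∃ R : Finset (ℕ → ℕ) → H →L[ℂ] H, (∀ s, IsStarProjection (R s)) ∧
      (∀ s t, s ⊆ t → R t * R s = R t) ∧ (∀ s, ¬ IsCompactOperator (R s)) ∧
      ∀ X : Set (H →L[ℂ] H), (∀ x ∈ X, IsStarProjection x) → (∀ x ∈ X, ∀ y ∈ X, Commute x y) →
        ∃ s, ∀ x ∈ X, ¬ IsCompactOperator x → ¬ IsCompactOperator ((1 - R s) * x : H →L[ℂ] H) := by
  choose p hp 𝒢 h1 h2 h3 using fun m : ℕ => fam (2 ^ m) ((m + 1) * 200 * 2 ^ m)
  haveI : ∀ m, NeZero (p m) := fun m => ⟨(hp m).ne_zero⟩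
  haveI : Infinite (Ix fun m => ZMod (p m) × ZMod (p m)) :=
    Infinite.of_surjective (fun i => i.1) fun m => ⟨⟨m, fun _ => 0⟩, rfl⟩
  obtain ⟨b⟩ := exB hH (Ix fun m => ZMod (p m) × ZMod (p m))
  exact core0 b 𝒢 h1 h2 fun m => by simpa [ZMod.card] using h3 m

theorem main [TopologicalSpace.SeparableSpace H] (hH : ¬ FiniteDimensional ℂ H)
    {C : Type*} [Ring C] [StarRing C] (π : (H →L[ℂ] H) →+* C) (hs : ∀ T, π (star T) = star (π T))
    (hk : ∀ T, π T = 0 ↔ IsCompactOperator T) :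
    ∃ F : Set C, IsMaxFilt F ∧ ∀ X : Set (H →L[ℂ] H), (∀ p ∈ X, IsStarProjection p) →
      (∀ p ∈ X, ∀ q ∈ X, Commute p q) → IsFilt (gen X) → π '' gen X ≠ F := by
  classical
  obtain ⟨R, hR1, hR2, hR3, hR4⟩ := core hH
  have hπ : ∀ T, IsStarProjection T → IsStarProjection (π T) := fun T hT =>
    ⟨by rw [IsIdempotentElem, ← map_mul, hT.isIdempotentElem.eq],
      by rw [IsSelfAdjoint, ← hs, hT.isSelfAdjoint.star_eq]⟩
  set F0 : Set C := {q | IsStarProjection q ∧ ∃ s, π (R s) * q = π (R s)}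
  have hm : ∀ s, π (R s) ∈ F0 := fun s => ⟨hπ _ (hR1 s), s, (hπ _ (hR1 s)).isIdempotentElem.eq⟩
  have hle : ∀ s t q, s ⊆ t → π (R s) * q = π (R s) → π (R t) * q = π (R t) := fun s t q h h' => by
    rw [← hR2 s t h, map_mul, mul_assoc, h']
  have hF0 : IsFilt F0 ∧ 0 ∉ F0 := by
    refine ⟨⟨fun p hp => hp.1, ?_, ?_⟩, ?_⟩
    · rintro p ⟨-, s, h1⟩ q ⟨-, t, h2⟩
      exact ⟨_, hm (s ∪ t), hle s _ p subset_union_left h1, hle t _ q subset_union_right h2⟩
    · rintro p ⟨-, s, h1⟩ r hr h2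
      exact ⟨hr, s, by rw [← h1, mul_assoc, h2]⟩
    · rintro ⟨-, s, h1⟩
      rw [mul_zero] at h1
      exact hR3 s ((hk _).1 h1.symm)
  obtain ⟨F, hF1, hF2⟩ := zorn_subset_nonempty {F : Set C | IsFilt F ∧ 0 ∉ F} (fun c hc hch _ => by
    refine ⟨⋃₀ c, ⟨⟨?_, ?_, ?_⟩, ?_⟩, fun s hs => Set.subset_sUnion_of_mem hs⟩
    · rintro p ⟨G, hG, hp⟩
      exact (hc hG).1.1 p hp
    · rintro p ⟨G, hG, hp⟩ q ⟨G', hG', hq⟩
      obtain ⟨G2, h1, h2, h3⟩ := hch.directedOn G hG G' hG'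
      obtain ⟨r, hr, h⟩ := (hc h1).1.2.1 p (h2 hp) q (h3 hq)
      exact ⟨r, ⟨G2, h1, hr⟩, h⟩
    · rintro p ⟨G, hG, hp⟩ r hr h
      exact ⟨G, hG, (hc hG).1.2.2 p hp r hr h⟩
    · rintro ⟨G, hG, h⟩
      exact (hc hG).2 h) F0 hF0
  refine ⟨F, ⟨hF2.prop.1, hF2.prop.2, fun G h1 h2 h3 =>
    Set.Subset.antisymm (hF2.le_of_ge ⟨h1, h2⟩ h3) h3⟩, fun X hX hXc hg he => ?_⟩
  have c1 : ∀ x ∈ Submonoid.closure X, ∀ y ∈ Submonoid.closure X, Commute x y := by
    intro x hx y hy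
    refine Submonoid.closure_induction₂ (fun x y hx hy => hXc x hx y hy) (fun x _ => Commute.one_left x)
      (fun x _ => Commute.one_right x) (fun _ _ _ _ _ _ h1 h2 => h1.mul_left h2)
      (fun _ _ _ _ _ _ h1 h2 => h1.mul_right h2) hx hy
  have c2 : ∀ x ∈ Submonoid.closure X, IsStarProjection x := fun x hx =>
    Submonoid.closure_induction hX (IsStarProjection.one _)
      (fun x y hx hy h1 h2 => h1.mul h2 (c1 x hx y hy)) hx
  obtain ⟨s, hs'⟩ := hR4 (Submonoid.closure X : Submonoid (H →L[ℂ] H)) c2 c1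
  have h1 : π (R s) ∈ π '' gen X := he ▸ hF1 (hm s)
  obtain ⟨r, hr, hr'⟩ := h1
  have c3 : ∀ x ∈ Submonoid.closure X, x ∈ gen X := fun x hx =>
    Submonoid.closure_induction (fun y hy F hF => hF.2 hy)
      (hg.2.2 r hr 1 (IsStarProjection.one _) (mul_one r))
      (fun x y hx hy h1 h2 => by
        obtain ⟨z, hz, h3, h4⟩ := hg.2.1 x h1 y h2
        exact hg.2.2 z hz _ ((c2 x hx).mul (c2 y hy) (c1 x hx y hy))
          (by rw [← mul_assoc, h3, h4])) hx
  have c4 : r ∈ {r | IsStarProjection r ∧ ∃ x ∈ Submonoid.closure X, x * r = x} := by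
    refine hr _ ⟨⟨fun p hp => hp.1, ?_, ?_⟩, fun x hx =>
      ⟨hX x hx, x, Submonoid.subset_closure hx, (hX x hx).isIdempotentElem.eq⟩⟩
    · rintro p ⟨-, x, hx, h1⟩ q ⟨-, y, hy, h2⟩
      have hxy := Submonoid.mul_mem _ hx hy
      refine ⟨x * y, ⟨c2 _ hxy, _, hxy, (c2 _ hxy).isIdempotentElem.eq⟩, ?_, ?_⟩
      · rw [(c1 x hx y hy).eq, mul_assoc, h1]
      · rw [mul_assoc, h2]
    · rintro p ⟨-, x, hx, h1⟩ q hq h2
      exact ⟨hq, x, hx, by rw [← h1, mul_assoc, h2]⟩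
  obtain ⟨hrp, x, hx, hxr⟩ := c4
  have hrx : r * x = x := by
    have := congrArg star hxr
    rwa [star_mul, hrp.isSelfAdjoint.star_eq, (c2 x hx).isSelfAdjoint.star_eq] at this
  refine hs' x hx (fun h => hF2.prop.2 ?_) ((hk _).1 ?_)
  · rw [← (hk x).2 h, ← he]
    exact ⟨x, c3 x hx, rfl⟩
  · rw [map_mul, map_sub, map_one, ← hr', sub_mul, one_mul, ← map_mul, hrx, sub_self]

end Pool.Agent.H86.Fl
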