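import Pool.Agent.H86.FlE

set_option autoImplicit false
set_option linter.unusedSectionVars false
set_option linter.deprecated false

namespace Pool.Agent.H86.Fl

universe u

variable {H : Type u} [NormedAddCommGroup H] [InnerProductSpace ℂ H] [CompleteSpace H]

theorem cpt_star {K : H →L[ℂ] H} (hK : IsCompactOperator K) :
    IsCompactOperator (star K : H →L[ℂ] H) := by
  have h1 : IsCompactOperator (K * star K : H →L[ℂ] H) := hK.comp_clm (star K)
  have h2 := (IsCompactOperator.isCompact_closure_image_ball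
    (f := ((K * star K : H →L[ℂ] H) : H →ₗ[ℂ] H)) h1 1).totallyBounded.subset subset_closure
  refine (isCompactOperator_iff_isCompact_closure_image_ball
    ((star K : H →L[ℂ] H) : H →ₗ[ℂ] H) one_pos).2 ?_
  refine (TotallyBounded.closure ?_).isCompact_of_isClosed isClosed_closure
  refine Metric.totallyBounded_iff.2 fun ε hε => ?_
  obtain ⟨t, ht, htf, hc⟩ := Metric.finite_approx_of_totallyBounded h2 (ε ^ 2 / 2) (by positivity)
  choose! v hv1 hv2 using fun y (hy : y ∈ t) => ht hy
  refine ⟨(fun y => (star K : H →L[ℂ] H) (v y)) '' t, htf.image _, ?_⟩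
  rintro _ ⟨w, hw, rfl⟩
  obtain ⟨y, hy, h3⟩ := Set.mem_iUnion₂.1 (hc ⟨w, hw, rfl⟩)
  refine Set.mem_iUnion₂.2 ⟨_, ⟨y, hy, rfl⟩, ?_⟩
  rw [← hv2 y hy] at h3
  simp only [Metric.mem_ball, dist_eq_norm, ContinuousLinearMap.coe_coe, ← map_sub] at h3 ⊢
  have h4 : ‖w - v y‖ ≤ 2 := by
    have := norm_sub_le w (v y)
    have a1 := mem_ball_zero_iff.1 hw
    have a2 := mem_ball_zero_iff.1 (hv1 y hy)
    linarith
  have h5 : ‖(star K : H →L[ℂ] H) (w - v y)‖ ^ 2 ≤ ‖w - v y‖ * ‖(K * star K) (w - v y)‖ := by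
    have := norm_inner_le_norm (𝕜 := ℂ) (w - v y) ((K * star K) (w - v y))
    rwa [ContinuousLinearMap.mul_apply, ← ContinuousLinearMap.adjoint_inner_left,
      ← ContinuousLinearMap.star_eq_adjoint, inner_self_eq_norm_sq_to_K, norm_pow,
      RCLike.norm_ofReal, abs_norm] at this
  refine lt_of_pow_lt_pow_left₀ 2 hε.le ?_
  nlinarith [norm_nonneg ((K * star K) (w - v y))]

theorem cc {S T : H →L[ℂ] H} (h : IsCompactOperator S) (e : T = S) : IsCompactOperator T := e ▸ h

noncomputable def kc (H : Type u) [NormedAddCommGroup H] [InnerProductSpace ℂ H] :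
    TwoSidedIdeal (H →L[ℂ] H) :=
  TwoSidedIdeal.mk' {T | IsCompactOperator T} isCompactOperator_zero
    (fun hx hy => hx.add hy) (fun hx => hx.neg) (fun {x _} hy => hy.clm_comp x)
    (fun {_ y} hx => hx.comp_clm y)

theorem kc_rel (S T : H →L[ℂ] H) : (kc H).ringCon S T ↔ IsCompactOperator (S - T : H →L[ℂ] H) := by
  rw [TwoSidedIdeal.rel_iff, kc, TwoSidedIdeal.mem_mk']
  rfl

@[reducible] noncomputable def kst : StarRing (kc H).ringCon.Quotient where
  star := Quotient.map' star fun S T h =>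
    (kc_rel _ _).2 (cc (cpt_star ((kc_rel S T).1 h)) (star_sub S T).symm)
  star_involutive := fun x => Quotient.inductionOn' x fun S =>
    congrArg (Quotient.mk'' (s₁ := (kc H).ringCon.toSetoid)) (star_star S)
  star_mul := fun x y => Quotient.inductionOn₂' x y fun S T =>
    congrArg (Quotient.mk'' (s₁ := (kc H).ringCon.toSetoid)) (star_mul S T)
  star_add := fun x y => Quotient.inductionOn₂' x y fun S T =>
    congrArg (Quotient.mk'' (s₁ := (kc H).ringCon.toSetoid)) (star_add S T)

theorem calkin : ∃ (C : Type u) (_ : Ring C) (_ : StarRing C) (π : (H →L[ℂ] H) →+* C),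
    Function.Surjective π ∧ (∀ T, π (star T) = star (π T)) ∧
      ∀ T, π T = 0 ↔ IsCompactOperator T := by
  refine ⟨(kc H).ringCon.Quotient, inferInstance, kst, (kc H).ringCon.mk', Quotient.mk''_surjective,
    fun T => rfl, fun T => ?_⟩
  rw [← map_zero (kc H).ringCon.mk', RingCon.coe_mk', RingCon.eq, kc_rel, sub_zero]

end Pool.Agent.H86.Fl
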