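import Mathlib

set_option autoImplicit false

namespace Pool.Agent.H86.Functorial

open Set Filter Topology

/-- evaluation at all homomorphisms into `Y` -/
def ev (Y : Type) [AddCommGroup Y] (G : Type) [AddCommGroup G] : G →+ ((G →+ Y) → Y) where
  toFun g := fun φ => φ g
  map_zero' := by ext φ; simp
  map_add' a b := by ext φ; simp

/-- the initial topology of all homomorphisms into the topological group `Y` -/
@[reducible] def initTop (Y : Type) [AddCommGroup Y] [TopologicalSpace Y]
    (G : Type) [AddCommGroup G] : TopologicalSpace G :=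
  TopologicalSpace.induced (ev Y G) inferInstance

theorem initTop_group (Y : Type) [AddCommGroup Y] [TopologicalSpace Y] [IsTopologicalAddGroup Y]
    (G : Type) [AddCommGroup G] : @IsTopologicalAddGroup G (initTop Y G) _ :=
  topologicalAddGroup_induced (ev Y G)

theorem initTop_hom (Y : Type) [AddCommGroup Y] [TopologicalSpace Y]
    (G : Type) [AddCommGroup G] (φ : G →+ Y) : @Continuous G Y (initTop Y G) _ φ := by
  let := initTop Y G
  exact (continuous_apply φ).comp (continuous_induced_dom (f := ev Y G))

theorem initTop_functorial (Y : Type) [AddCommGroup Y] [TopologicalSpace Y]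
    (G H : Type) [AddCommGroup G] [AddCommGroup H] (f : G →+ H) :
    @Continuous G H (initTop Y G) (initTop Y H) f := by
  let := initTop Y G
  let := initTop Y H
  refine continuous_induced_rng.2 (continuous_pi fun φ => ?_)
  exact initTop_hom Y G (φ.comp f)

theorem initTop_self (Y : Type) [AddCommGroup Y] [t : TopologicalSpace Y]
    (h : ∀ f : Y →+ Y, Continuous f) : initTop Y Y = t := by
  apply le_antisymm
  · exact continuous_id_iff_le.1 (initTop_hom Y Y (AddMonoidHom.id Y))
  · exact continuous_iff_le_induced.1 (continuous_pi fun φ => h φ)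

/-- core of the theorems of Specker and Dudley -/
theorem dudley_core {G : Type*} [AddCommGroup G] [TopologicalSpace G] [IsTopologicalAddGroup G]
    [T2Space G] (φ : G →+ ℤ) (g : ℕ → G) (K : ℕ → ℤ) (hK0 : 0 < K 0)
    (hK : ∀ n, K (n + 1) = K n * (|φ (g n)| + 1)) (hg : ∀ n, φ (g n) ≠ 0)
    (hs : ∀ c : ℕ → ℤ, (∀ m, |c m| ≤ K m) → Summable (fun m => c m • g m)) : False := by
  classical
  have hKpos : ∀ n, 0 < K n := by
    intro n
    induction n with
    | zero => exact hK0
    | succ n ih => rw [hK]; positivity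
  have hKdvd : ∀ n m, n ≤ m → K n ∣ K m := by
    intro n m h
    induction m, h using Nat.le_induction with
    | base => exact dvd_rfl
    | succ m _ ih => rw [hK]; exact ih.mul_right _
  let c : Set ℕ → ℕ → ℤ := fun s m => if m ∈ s then K m else 0
  have hc : ∀ s m, |c s m| ≤ K m := by
    intro s m
    simp only [c]
    split_ifs
    · exact (abs_of_pos (hKpos m)).le
    · simpa using (hKpos m).le
  obtain ⟨e, he⟩ := Countable.exists_injective_nat ℤ
  have := Function.cantor_injective (fun s => e (φ (∑' m, c s m • g m)))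
  obtain ⟨s, t, hst, hne⟩ := Function.not_injective_iff.1 this
  have hst' := he hst
  have hex : ∃ n, ¬ (n ∈ s ↔ n ∈ t) := by
    by_contra hcon
    push Not at hcon
    exact hne (Set.ext hcon)
  let n := Nat.find hex
  have hn : ¬ (n ∈ s ↔ n ∈ t) := Nat.find_spec hex
  have hlt : ∀ m < n, (m ∈ s ↔ m ∈ t) := fun m hm => not_not.1 (Nat.find_min hex hm)
  let d : ℕ → ℤ := fun m => c s m - c t m
  have hd : ∀ m, d m = 0 ∨ d m = K m ∨ d m = - K m := by
    intro m
    simp only [d, c]
    split_ifs <;> simp
  have hdn : |d n| = K n := by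
    simp only [d, c]
    by_cases h1 : n ∈ s <;> by_cases h2 : n ∈ t <;> simp_all [abs_of_pos (hKpos n)]
  let y : ℕ → ℤ := fun m => if n < m then d m / K (n + 1) else 0
  have hy : ∀ m, n < m → d m = K (n + 1) * y m := by
    intro m hm
    simp only [y, if_pos hm]
    refine (Int.mul_ediv_cancel' ?_).symm
    rcases hd m with h | h | h <;> rw [h]
    · exact dvd_zero _
    · exact hKdvd _ _ hm
    · exact (hKdvd _ _ hm).neg_right
  have hyb : ∀ m, |y m| ≤ K m := by
    intro m
    by_cases hm : n < m
    · have h1 : |d m| ≤ K m := by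
        rcases hd m with h | h | h <;> rw [h]
        · simpa using (hKpos m).le
        · exact (abs_of_pos (hKpos m)).le
        · rw [abs_neg]; exact (abs_of_pos (hKpos m)).le
      rw [hy m hm, abs_mul, abs_of_pos (hKpos _)] at h1
      have := hKpos (n + 1)
      nlinarith [abs_nonneg (y m)]
    · simpa [y, hm] using (hKpos m).le
  have h1 : HasSum (fun m => d m • g m) (∑' m, c s m • g m - ∑' m, c t m • g m) := by
    have := (hs _ (hc s)).hasSum.sub (hs _ (hc t)).hasSum
    simpa [d, sub_smul] using this
  have h2 : HasSum (fun m => d m • g m) (d n • g n + K (n + 1) • ∑' m, y m • g m) := by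
    have a1 := hasSum_single (f := fun m => if m = n then d n • g n else 0) n (fun m hm => if_neg hm)
    have a2 := (hs _ hyb).hasSum.const_smul (K (n + 1))
    have := a1.add a2
    simp only [if_true] at this
    convert this using 2 with m
    rcases lt_trichotomy m n with h | h | h
    · have : d m = 0 := by simp [d, c, hlt m h]
      simp [this, h.ne, y, not_lt.2 h.le]
    · subst h
      simp [y]
    · rw [hy m h, if_neg h.ne', zero_add, mul_smul]
  have h3 := congrArg φ (h1.unique h2)
  rw [map_sub, hst', sub_self, map_add, map_zsmul, map_zsmul, smul_eq_mul, smul_eq_mul] at h3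
  have h4 : K (n + 1) ∣ d n * φ (g n) := ⟨- φ (∑' m, y m • g m), by linarith⟩
  have h5 : d n * φ (g n) ≠ 0 := by
    refine mul_ne_zero ?_ (hg n)
    intro h
    rw [h] at hdn
    have := hKpos n
    simp at hdn
    omega
  have h6 := Int.le_abs_of_dvd h5 h4
  rw [abs_mul, hdn, hK] at h6
  have := hKpos n
  nlinarith

/-- Dudley: homomorphisms from a complete normed abelian group to the integers vanish near zero -/
theorem dudley_normed {G : Type*} [NormedAddCommGroup G] [CompleteSpace G] (φ : G →+ ℤ) :
    ∃ ε > 0, ∀ x : G, ‖x‖ < ε → φ x = 0 := by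
  by_contra hcon
  push Not at hcon
  choose! u hu hu' using hcon
  obtain ⟨K, hK0, hK⟩ : ∃ K : ℕ → ℤ, K 0 = 1 ∧
      ∀ n, K (n + 1) = K n * (|φ (u ((1 / 2 : ℝ) ^ n / K n))| + 1) :=
    ⟨fun n => Nat.rec (motive := fun _ => ℤ) 1
      (fun n k => k * (|φ (u ((1 / 2 : ℝ) ^ n / k))| + 1)) n, rfl, fun n => rfl⟩
  let g : ℕ → G := fun n => u ((1 / 2 : ℝ) ^ n / K n)
  have hKpos : ∀ n, 0 < K n := by
    intro n
    induction n with
    | zero => rw [hK0]; exact one_pos
    | succ n ih => rw [hK]; positivity
  have hpos : ∀ n, (0 : ℝ) < (1 / 2 : ℝ) ^ n / K n := fun n => by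
    have : (0 : ℝ) < K n := by exact_mod_cast hKpos n
    positivity
  refine dudley_core φ g K (hKpos 0) hK (fun n => hu' _ (hpos n)) fun c hc => ?_
  refine Summable.of_norm_bounded (summable_geometric_two) fun m => ?_
  have h1 : (0 : ℝ) < K m := by exact_mod_cast hKpos m
  have h2 : ‖c m‖ ≤ K m := by
    rw [Int.norm_eq_abs]
    exact_mod_cast hc m
  have h3 : ‖g m‖ ≤ (1 / 2 : ℝ) ^ m / K m := (hu _ (hpos m)).le
  calc ‖c m • g m‖ ≤ ‖c m‖ * ‖g m‖ := norm_zsmul_le _ _
    _ ≤ K m * ((1 / 2 : ℝ) ^ m / K m) := by gcongr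
    _ = (1 / 2 : ℝ) ^ m := by field_simp

theorem dudley_continuous {G : Type*} [NormedAddCommGroup G] [CompleteSpace G] (φ : G →+ ℤ) :
    Continuous φ := by
  obtain ⟨ε, hε, h⟩ := dudley_normed φ
  refine continuous_of_continuousAt_zero φ ?_
  refine tendsto_const_nhds.congr' ?_
  filter_upwards [Metric.ball_mem_nhds (0 : G) hε] with x hx
  rw [h x (by simpa using hx), map_zero]

/-- point-finite sequences of integer valued functions -/
theorem specker {X : Type*} (φ : (X → ℤ) →+ ℤ) (g : ℕ → X → ℤ)
    (hg : ∀ x, ∃ N, ∀ n ≥ N, g n x = 0) : ∃ n, φ (g n) = 0 := by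
  by_contra hcon
  push Not at hcon
  let K : ℕ → ℤ := fun n => Nat.rec (motive := fun _ => ℤ) 1 (fun n k => k * (|φ (g n)| + 1)) n
  refine dudley_core φ g K one_pos (fun n => rfl) hcon fun c _ => ?_
  refine Pi.summable.2 fun x => ?_
  obtain ⟨N, hN⟩ := hg x
  refine summable_of_ne_finset_zero (s := Finset.range N) fun m hm => ?_
  simp [hN m (by simpa using hm)]

end Pool.Agent.H86.Functorial
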