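import Pool.Agent.H86.RoeD

set_option autoImplicit false

namespace Pool.Agent.H86.Gh

open Roe Filter NNReal

/-- uniformly locally finite -/
def ULF (X : Type) [MetricSpace X] : Prop :=
  ∀ r : ℝ, ∃ N : ℕ, ∀ x : X, (Metric.closedBall x r).encard ≤ N

/-- bounded operators on the sequence space -/
abbrev Op (X : Type) : Type := H X →L[ℂ] H X

/-- finite propagation -/
def FinProp {X : Type} [MetricSpace X] (T : Op X) : Prop :=
  ∃ r : ℝ, ∀ x x', r < dist x x' → T (δ x) x' = 0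

/-- the uniform Roe algebra -/
def Cu (X : Type) [MetricSpace X] : Set (Op X) := closure {T | FinProp T}

/-- ghost operators -/
def Ghost {X : Type} (T : Op X) : Prop :=
  ∀ ε > 0, ∃ F : Set X, F.Finite ∧ ∀ x y, ¬ (x ∈ F ∧ y ∈ F) → ‖T (δ y) x‖ < ε

/-- sparse subspaces -/
def Sparse {X : Type} [MetricSpace X] (S : Set X) : Prop :=
  ∃ B : ℕ → Set X, (∀ n, (B n).Finite ∧ (B n).Nonempty) ∧ (∀ n m, n ≠ m → Disjoint (B n) (B m)) ∧
    ⋃ n, B n = S ∧ ∀ r : ℝ, ∃ N, ∀ n m, n ≠ m → N ≤ n + m → ∀ x ∈ B n, ∀ y ∈ B m, r < dist x y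

/-- every ghost projection in the uniform Roe algebra is compact -/
def GhostCompact (X : Type) [MetricSpace X] : Prop :=
  ∀ T ∈ Cu X, IsStarProjection T → Ghost T → IsCompactOperator T

/-- all sparse subspaces yield only compact ghost projections -/
def OnlyCompact (X : Type) [MetricSpace X] : Prop := ∀ S : Set X, Sparse S → GhostCompact S

/-- coarse embeddings -/
def CoarseEmb {Y X : Type} [MetricSpace Y] [MetricSpace X] (f : Y → X) : Prop :=
  ∃ ρ₁ ρ₂ : ℝ≥0 → ℝ≥0, Monotone ρ₁ ∧ Monotone ρ₂ ∧ Tendsto ρ₁ atTop atTop ∧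
    ∀ y y', ρ₁ (nndist y y') ≤ nndist (f y) (f y') ∧ nndist (f y) (f y') ≤ ρ₂ (nndist y y')

end Pool.Agent.H86.Gh
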