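import Mathlib

set_option autoImplicit false

namespace Pool.Agent.H86.Glm

open NormedSpace

variable {A B : Type*} [CStarAlgebra A] [CStarAlgebra B]

/-- the centre as a star subalgebra -/
def ZS (A : Type*) [CStarAlgebra A] : StarSubalgebra ℂ A :=
  { Subalgebra.center ℂ A with star_mem' := fun h => Set.star_mem_center h }

theorem ZS.comm (z : ZS A) (a : A) : Commute (z : A) a :=
  ((Subalgebra.mem_center_iff.mp z.2) a).symm

theorem mem_ZS {z : A} (h : ∀ a, Commute z a) : z ∈ ZS A :=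
  Subalgebra.mem_center_iff.mpr fun a => (h a).symm

instance : IsClosed (ZS A : Set A) := by
  have : (ZS A : Set A) = Set.centralizer Set.univ := by
    ext z
    exact ⟨fun h a _ => (ZS.comm ⟨z, h⟩ a).symm, fun h => mem_ZS fun a => (h a trivial).symm⟩
  rw [this]
  exact Set.isClosed_centralizer _

noncomputable instance : CommCStarAlgebra (ZS A) :=
  { (inferInstance : CStarAlgebra (ZS A)) with mul_comm := fun x y => Subtype.ext (ZS.comm x y) }

/-- the spectrum lies in the disc of radius `R` -/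
def Rle (a : A) (R : ℝ) : Prop := ∀ l ∈ spectrum ℂ a, ‖l‖ ≤ R

theorem rle_norm (a : A) : Rle a ‖a‖ := by
  intro l hl
  rcases subsingleton_or_nontrivial A with h | h
  · simp [spectrum.of_subsingleton] at hl
  · exact spectrum.norm_le_norm_of_mem hl

theorem Rle.mono {a : A} {R S : ℝ} (h : Rle a R) (hS : R ≤ S) : Rle a S :=
  fun l hl => (h l hl).trans hS

theorem rle_iff {a : A} {R : ℝ} (hR : 0 ≤ R) :
    Rle a R ↔ spectralRadius ℂ a ≤ ENNReal.ofReal R := by
  rw [spectralRadius, iSup₂_le_iff]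
  refine forall₂_congr fun l _ => ?_
  rw [← ENNReal.ofReal_coe_nnreal, ENNReal.ofReal_le_ofReal_iff hR]
  rfl

theorem Rle.norm_le {a : A} [IsStarNormal a] {R : ℝ} (hR : 0 ≤ R) (h : Rle a R) : ‖a‖ ≤ R := by
  rw [rle_iff hR, IsStarNormal.spectralRadius_eq_nnnorm, ← ENNReal.ofReal_coe_nnreal,
    ENNReal.ofReal_le_ofReal_iff hR] at h
  exact h

theorem Rle.star {a : A} {R : ℝ} (h : Rle a R) : Rle (star a) R := by
  intro l hl
  rw [spectrum.map_star, Set.mem_star] at hl
  simpa using h _ hl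

theorem Rle.conj {a : A} {R : ℝ} (h : Rle a R) (u : Aˣ) : Rle (u * a * (u⁻¹ : Aˣ)) R := by
  intro l hl
  rw [spectrum.units_conjugate] at hl
  exact h l hl

theorem Rle.smul {a : A} {R : ℝ} (h : Rle a R) {s : ℂ} (hs : ‖s‖ = 1) : Rle (s • a) R := by
  intro l hl
  have h0 : s ≠ 0 := by rintro rfl; simp at hs
  have : l = (Units.mk0 s h0) • (s⁻¹ * l) := by
    simp [Units.smul_def, mul_inv_cancel_left₀ h0]
  have h2 : s • a = (Units.mk0 s h0) • a := rfl
  rw [this, h2, spectrum.smul_mem_smul_iff] at hl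
  simpa [hs] using h _ hl

theorem chr (a : A) (u v : ZS A) {l : ℂ} (hl : l ∈ spectrum ℂ (u * a + v : A)) :
    ∃ (ψ : ZS A →ₐ[ℂ] ℂ) (α : ℂ), l = ψ u * α + ψ v ∧
      ∀ u' v' : ZS A, ψ u' * α + ψ v' ∈ spectrum ℂ (u' * a + v' : A) := by
  let S : Set A := Set.centralizer {a}
  let D : Subalgebra ℂ A := Subalgebra.centralizer ℂ S
  have haS : a ∈ S := fun b hb => by rw [hb]
  have haD : a ∈ D := fun b hb => (hb a rfl).symm
  have hc : ∀ x y : D, x * y = y * x := fun x y => Subtype.ext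
    (x.2 y fun b hb => by rw [hb]; exact y.2 a haS).symm
  letI : NormedCommRing D := { (inferInstance : NormedRing D) with mul_comm := hc }
  haveI : CompleteSpace D := (Set.isClosed_centralizer S).completeSpace_coe
  have hsp : ∀ (d : D) (t : ℂ), t ∈ spectrum ℂ d ↔ t ∈ spectrum ℂ (d : A) := by
    intro d t
    refine ⟨fun h => ?_, fun h => spectrum.subset_subalgebra d h⟩
    rw [spectrum.mem_iff] at h ⊢
    rintro ⟨U, hU⟩
    have hUD : (U : A) ∈ D := hU ▸ (algebraMap ℂ D t - d).2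
    have hV : ((U⁻¹ : Aˣ) : A) ∈ D := fun b hb => Commute.units_inv_right (hUD b hb)
    refine h (isUnit_iff_exists_inv.mpr ⟨⟨_, hV⟩, Subtype.ext ?_⟩)
    change (algebraMap ℂ A t - d) * _ = 1
    rw [← hU]
    exact U.mul_inv
  let j : ZS A →ₐ[ℂ] D := (ZS A).toSubalgebra.val.codRestrict D fun z b _ => (ZS.comm z b).symm
  let a' : D := ⟨a, haD⟩
  have hl' : l ∈ spectrum ℂ ((j u * a' + j v : D) : A) := hl
  obtain ⟨φ, hφ⟩ := WeakDual.CharacterSpace.mem_spectrum_iff_exists.mp ((hsp _ l).mpr hl')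
  refine ⟨(WeakDual.CharacterSpace.equivAlgHom φ).comp j, φ a', ?_, fun u' v' => ?_⟩
  · rw [← hφ, map_add, map_mul]
    rfl
  · refine (hsp (j u' * a' + j v') _).mp
      (WeakDual.CharacterSpace.mem_spectrum_iff_exists.mpr ⟨φ, ?_⟩)
    rw [map_add, map_mul]
    rfl

theorem chr_le (ψ : ZS A →ₐ[ℂ] ℂ) (z : ZS A) : ‖ψ z‖ ≤ ‖z‖ :=
  rle_norm z _ (AlgHom.apply_mem_spectrum ψ z)

theorem nle (k : ZS A) {R : ℝ} (hR : 0 ≤ R) (h : ∀ ψ : ZS A →ₐ[ℂ] ℂ, ‖ψ k‖ ≤ R) : ‖k‖ ≤ R := by
  haveI : IsStarNormal k := ⟨mul_comm _ _⟩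
  refine Rle.norm_le hR fun l hl => ?_
  obtain ⟨φ, rfl⟩ := WeakDual.CharacterSpace.mem_spectrum_iff_exists.mp hl
  exact h (WeakDual.CharacterSpace.equivAlgHom φ)

theorem Rle.add_cen {a : A} {R : ℝ} (h : Rle a R) (z : ZS A) : Rle (a + z) (R + ‖z‖) := by
  intro l hl
  obtain ⟨ψ, α, h1, h2⟩ := chr a 1 z (l := l) (by simpa using hl)
  have h3 := h α (by simpa using h2 1 0)
  rw [h1, map_one, one_mul]
  exact (norm_add_le _ _).trans (add_le_add h3 (chr_le ψ z))

theorem half (v : A) : v = (1 / 2 : ℂ) • ((star v + v) +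
    (-Complex.I) • (star (Complex.I • v) + Complex.I • v)) := by
  simp only [star_smul, smul_add, smul_smul, Complex.star_def, Complex.conj_I]
  match_scalars
  · linear_combination (1 / 2 : ℂ) * Complex.I_mul_I
  · linear_combination (-1 / 2 : ℂ) * Complex.I_mul_I

theorem conj_bound {w : A} {c : ℝ} (hc : 0 ≤ c) (hw : Rle w c)
    (h : ∀ s : ℂ, ‖s‖ = 1 → ∀ b, Rle b c → Rle (b + s • w) (c + c))
    (u : Aˣ) (hu : IsSelfAdjoint (u : A)) : ‖((u⁻¹ : Aˣ) : A) * w * u‖ ≤ 2 * c := by
  have hu' : star ((u⁻¹ : Aˣ) : A) = (u⁻¹ : Aˣ) := by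
    rw [← Units.coe_star_inv]
    congr 2
    exact Units.ext hu
  set v := ((u⁻¹ : Aˣ) : A) * w * u with hv
  have key : ∀ s : ℂ, ‖s‖ = 1 → ‖star (s • v) + s • v‖ ≤ c + c := by
    intro s hs
    haveI := (IsSelfAdjoint.star_add_self (s • v)).isStarNormal
    have h1 := (h s hs _ ((((hw.smul hs).star).conj u).conj u)).conj u⁻¹
    refine Rle.norm_le (by linarith) ?_
    convert h1 using 1
    simp only [hv, star_smul, star_mul, hu.star_eq, hu', inv_inv, mul_add, add_mul,
      mul_smul_comm, smul_mul_assoc, mul_assoc, Units.inv_mul_cancel_left, Units.inv_mul,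
      mul_one]
  have h1 := key 1 (by simp)
  have h2 := key Complex.I (by simp)
  rw [one_smul] at h1
  rw [half v, norm_smul]
  have h3 := norm_add_le (star v + v) ((-Complex.I) • (star (Complex.I • v) + Complex.I • v))
  rw [norm_smul] at h3
  simp only [norm_neg, Complex.norm_I, one_mul] at h3
  have : ‖(1 / 2 : ℂ)‖ = 1 / 2 := by simp
  rw [this]
  linarith

theorem central_of {w : A} {C : ℝ}
    (h : ∀ u : Aˣ, IsSelfAdjoint (u : A) → ‖((u⁻¹ : Aˣ) : A) * w * u‖ ≤ C) (b : A) :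
    Commute w b := by
  letI : NormedAlgebra ℚ A := .restrictScalars ℚ ℂ A
  have key : ∀ a : A, IsSelfAdjoint a → Commute w a := by
    intro a ha
    have hadd : ∀ s t : ℂ, exp ((s + t) • a) = exp (s • a) * exp (t • a) := fun s t => by
      rw [add_smul, exp_add_of_commute (((Commute.refl a).smul_left s).smul_right t)]
    have hinv : ∀ s : ℂ, exp (s • a) * exp ((-s) • a) = 1 := fun s => by
      rw [← hadd]; simp
    have hd : ∀ t : ℂ, HasDerivAt (fun s : ℂ => exp (s • a)) (exp (t • a) * a) t :=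
      fun t => hasDerivAt_exp_smul_const a t
    let F : ℂ → A := fun s => exp ((-s) • a) * w * exp (s • a)
    have hdF : Differentiable ℂ F := by
      have h1 : Differentiable ℂ fun s : ℂ => exp (s • a) := fun t => (hd t).differentiableAt
      exact ((h1.comp differentiable_neg).mul_const w).mul h1
    have hb : ∀ s, ‖F s‖ ≤ C := by
      intro s
      let u : Aˣ := ⟨exp ((s.re : ℂ) • a), exp ((-s.re : ℂ) • a), hinv _, by
        simpa using hinv (-s.re)⟩
      have hu : IsSelfAdjoint (u : A) := by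
        refine IsSelfAdjoint.exp ?_
        exact IsSelfAdjoint.smul (by simp [IsSelfAdjoint]) ha
      have hU : ∀ t : ℝ, exp ((t * Complex.I : ℂ) • a) ∈ unitary A := fun t =>
        exp_mem_unitary_of_mem_skewAdjoint (ha.smul_mem_skewAdjoint (by
          simp [skewAdjoint.mem_iff]))
      have e1 : exp (s • a) = u * exp ((s.im * Complex.I : ℂ) • a) := by
        rw [← hadd, Complex.re_add_im]
      have e2 : exp ((-s) • a) = exp (((-s.im : ℝ) * Complex.I : ℂ) • a) * (u⁻¹ : Aˣ) := by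
        change _ = _ * exp ((-s.re : ℂ) • a)
        rw [← hadd]
        congr 2
        apply Complex.ext <;> simp
      have e3 : F s = exp (((-s.im : ℝ) * Complex.I : ℂ) • a) * (((u⁻¹ : Aˣ) : A) * w * u) *
          exp ((s.im * Complex.I : ℂ) • a) := by
        simp only [F, e1, e2, mul_assoc]
      rw [e3, CStarRing.norm_mul_mem_unitary _ (hU _), CStarRing.norm_mem_unitary_mul _ (hU _)]
      exact h u hu
    have hconst : ∀ s, F s = w := fun s => by
      rw [hdF.apply_eq_apply_of_bounded (isBounded_iff_forall_norm_le.mpr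
        ⟨C, by rintro _ ⟨t, rfl⟩; exact hb t⟩) s 0]
      simp [F]
    have hcomm : (fun s : ℂ => w * exp (s • a)) = fun s : ℂ => exp (s • a) * w := by
      funext s
      conv_rhs => rw [← hconst s]
      simp only [F, ← mul_assoc, hinv, one_mul]
    have d1 := (hd 0).const_mul w
    rw [hcomm] at d1
    simpa [Commute, SemiconjBy] using d1.unique ((hd 0).mul_const w)
  rw [← realPart_add_I_smul_imaginaryPart b]
  exact (key _ (realPart b).2).add_right ((key _ (imaginaryPart b).2).smul_right _)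

theorem rle_zero : Rle (0 : A) 0 := by simpa using rle_norm (0 : A)

theorem map_central (T : A →ₗ[ℂ] B) (hs : Function.Surjective T)
    (hR : ∀ x R, 0 ≤ R → (Rle (T x) R ↔ Rle x R)) (z : ZS A) : T z ∈ ZS B := by
  have hc := norm_nonneg (z : A)
  refine mem_ZS (central_of (conj_bound hc ((hR _ _ hc).mpr (rle_norm _)) fun s h1 b hb => ?_))
  obtain ⟨a, rfl⟩ := hs b
  have h2 := ((hR _ _ hc).mp hb).add_cen (s • z)
  rw [norm_smul, h1, one_mul] at h2
  rw [← map_smul, ← map_add]
  exact (hR _ _ (add_nonneg hc hc)).mpr h2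

theorem map_inj (T : A →ₗ[ℂ] B) (hR : ∀ x R, 0 ≤ R → (Rle (T x) R ↔ Rle x R)) :
    Function.Injective T := by
  have key : ∀ x, T x = 0 → star x + x = 0 := by
    intro x hx
    haveI := (IsSelfAdjoint.star_add_self x).isStarNormal
    refine norm_le_zero_iff.mp (Rle.norm_le le_rfl ((hR _ _ le_rfl).mp ?_))
    rw [map_add, hx, add_zero, hR _ _ le_rfl]
    exact ((hR _ _ le_rfl).mp (hx ▸ rle_zero)).star
  refine (injective_iff_map_eq_zero T).mpr fun x hx => ?_
  rw [half x, key x hx, key _ (by rw [map_smul, hx, smul_zero])]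
  simp

end Pool.Agent.H86.Glm
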