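import Pool.Agent.H86.GlmA

set_option autoImplicit false

namespace Pool.Agent.H86.Glm

variable {A B : Type*} [CStarAlgebra A] [CStarAlgebra B]

theorem bump (z : ZS A) {N : ℝ} (hN : 0 ≤ N) : ∃ k : ZS A, IsSelfAdjoint k ∧
    (∃ c, 1 - k = c * z) ∧ ∀ ψ : ZS A →ₐ[ℂ] ℂ, ψ k = ((1 + N * ‖ψ z‖ ^ 2)⁻¹ : ℝ) := by
  have hψ : ∀ ψ : ZS A →ₐ[ℂ] ℂ, ψ (1 + (N : ℂ) • (star z * z)) = (1 + N * ‖ψ z‖ ^ 2 : ℝ) := by
    intro ψ
    rw [map_add, map_one, map_smul, map_mul, map_star, Complex.star_def, Complex.conj_mul']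
    simp
  have hp : ∀ ψ : ZS A →ₐ[ℂ] ℂ, ((1 + N * ‖ψ z‖ ^ 2 : ℝ) : ℂ) ≠ 0 := fun ψ =>
    Complex.ofReal_ne_zero.mpr (by positivity)
  have hu : IsUnit (1 + (N : ℂ) • (star z * z)) := by
    by_contra h
    obtain ⟨φ, hφ⟩ := WeakDual.CharacterSpace.exists_apply_eq_zero h
    exact hp _ ((hψ (WeakDual.CharacterSpace.equivAlgHom φ)).symm.trans hφ)
  obtain ⟨k, hk⟩ := hu.exists_left_inv
  have hsa : IsSelfAdjoint (1 + (N : ℂ) • (star z * z)) :=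
    (IsSelfAdjoint.one _).add (IsSelfAdjoint.smul (by simp [IsSelfAdjoint])
      (IsSelfAdjoint.star_mul_self z))
  refine ⟨k, ?_, ⟨(N : ℂ) • (k * star z), ?_⟩, fun ψ => ?_⟩
  · have h := congrArg star hk
    rw [star_mul, hsa.star_eq, star_one] at h
    change star k = k
    rw [← one_mul (star k), ← hk, mul_assoc, h, mul_one]
  · rw [← hk, mul_add, mul_one, mul_smul_comm, smul_mul_assoc, mul_assoc]
    abel
  · have h := congrArg ψ hk
    rw [map_mul, hψ, map_one] at h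
    rw [Complex.ofReal_inv]
    exact eq_inv_of_mul_eq_one_left h

/-- selfadjoint central contractions equal to one modulo `m` -/
def F (m : Ideal (ZS A)) (k : ZS A) : Prop := IsSelfAdjoint k ∧ 1 - k ∈ m ∧ ‖k‖ ≤ 1

theorem F.mul {m : Ideal (ZS A)} {k l : ZS A} (hk : F m k) (hl : F m l) : F m (k * l) := by
  refine ⟨?_, ?_, (norm_mul_le _ _).trans (mul_le_one₀ hk.2.2 (norm_nonneg _) hl.2.2)⟩
  · change star _ = _
    rw [star_mul, hk.1.star_eq, hl.1.star_eq, mul_comm]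
  · have : 1 - k * l = (1 - k) + k * (1 - l) := by ring
    rw [this]
    exact m.add_mem hk.2.1 (m.mul_mem_left _ hl.2.1)

theorem bumpF {m : Ideal (ZS A)} {z : ZS A} (hz : z ∈ m) {N : ℝ} (hN : 0 ≤ N) :
    ∃ k : ZS A, F m k ∧ ∀ ψ : ZS A →ₐ[ℂ] ℂ, ‖ψ k‖ = (1 + N * ‖ψ z‖ ^ 2)⁻¹ := by
  obtain ⟨k, h1, ⟨c, h2⟩, h3⟩ := bump z hN
  have h4 : ∀ ψ : ZS A →ₐ[ℂ] ℂ, ‖ψ k‖ = (1 + N * ‖ψ z‖ ^ 2)⁻¹ := fun ψ => by
    rw [h3, Complex.norm_real, Real.norm_of_nonneg (by positivity)]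
  refine ⟨k, ⟨h1, h2 ▸ m.mul_mem_left _ hz, nle k zero_le_one fun ψ => ?_⟩, h4⟩
  rw [h4]
  exact inv_le_one_of_one_le₀ (le_add_of_nonneg_right (by positivity))

theorem F.le {m : Ideal (ZS A)} {k : ZS A} (hk : F m k) (a : A) : ‖(k : A) * a‖ ≤ ‖a‖ :=
  (norm_mul_le _ _).trans (mul_le_of_le_one_left (norm_nonneg _) hk.2.2)

/-- elements that vanish at `m` -/
def W (m : Ideal (ZS A)) : TwoSidedIdeal A :=
  TwoSidedIdeal.mk' {j | ∀ δ > 0, ∃ k, F m k ∧ ‖(k : A) * j‖ ≤ δ}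
    (fun δ hδ => by
      obtain ⟨k, hk, -⟩ := bumpF m.zero_mem le_rfl
      exact ⟨k, hk, by simpa using hδ.le⟩)
    (fun {x y} hx hy δ hδ => by
      obtain ⟨k, hk, h1⟩ := hx (δ / 2) (half_pos hδ)
      obtain ⟨l, hl, h2⟩ := hy (δ / 2) (half_pos hδ)
      refine ⟨k * l, hk.mul hl, ?_⟩
      have e : ((k * l : ZS A) : A) * (x + y) = l * (k * x) + k * (l * y) := by
        rw [mul_add, ← mul_assoc, ← mul_assoc, ← (ZS.comm k l).eq]
        rfl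
      rw [e]
      linarith [norm_add_le ((l : A) * (k * x)) (k * (l * y)), hl.le (k * x), hk.le (l * y)])
    (fun {x} hx δ hδ => by
      obtain ⟨k, hk, h1⟩ := hx δ hδ
      exact ⟨k, hk, by simpa using h1⟩)
    (fun {x y} hy δ hδ => by
      obtain ⟨k, hk, h1⟩ := hy (δ / (‖x‖ + 1)) (by positivity)
      refine ⟨k, hk, ?_⟩
      rw [← mul_assoc, (ZS.comm k x).eq, mul_assoc]
      rw [le_div_iff₀ (by positivity)] at h1
      nlinarith [norm_mul_le x (k * y), norm_nonneg ((k : A) * y)])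
    (fun {x y} hx δ hδ => by
      obtain ⟨k, hk, h1⟩ := hx (δ / (‖y‖ + 1)) (by positivity)
      refine ⟨k, hk, ?_⟩
      rw [← mul_assoc]
      rw [le_div_iff₀ (by positivity)] at h1
      nlinarith [norm_mul_le ((k : A) * x) y, norm_nonneg ((k : A) * x)])

theorem mem_W {m : Ideal (ZS A)} {j : A} :
    j ∈ W m ↔ ∀ δ > 0, ∃ k, F m k ∧ ‖(k : A) * j‖ ≤ δ := by
  rw [W, TwoSidedIdeal.mem_mk']
  rfl

theorem W_of_mem {m : Ideal (ZS A)} {z : ZS A} (hz : z ∈ m) : (z : A) ∈ W m := by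
  refine mem_W.mpr fun δ hδ => ?_
  obtain ⟨k, hk, h⟩ := bumpF hz (N := 1 / δ ^ 2) (by positivity)
  refine ⟨k, hk, nle (k * z) hδ.le fun ψ => ?_⟩
  rw [map_mul, norm_mul, h, inv_mul_le_iff₀ (by positivity)]
  have e : (1 + 1 / δ ^ 2 * ‖ψ z‖ ^ 2) * δ = (δ ^ 2 + ‖ψ z‖ ^ 2) / δ := by field_simp
  rw [e, le_div_iff₀ hδ]
  nlinarith [sq_nonneg (δ - ‖ψ z‖), norm_nonneg (ψ z)]

theorem W_closure {m : Ideal (ZS A)} {j : A} (hj : j ∈ closure (W m : Set A)) : j ∈ W m := by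
  refine mem_W.mpr fun δ hδ => ?_
  obtain ⟨x, hx, h1⟩ := Metric.mem_closure_iff.mp hj (δ / 2) (half_pos hδ)
  obtain ⟨k, hk, h2⟩ := mem_W.mp hx (δ / 2) (half_pos hδ)
  refine ⟨k, hk, ?_⟩
  have e : (k : A) * j = k * (j - x) + k * x := by rw [mul_sub, sub_add_cancel]
  rw [dist_eq_norm] at h1
  rw [e]
  linarith [norm_add_le ((k : A) * (j - x)) (k * x), hk.le (j - x)]

theorem closure_of_W {m : Ideal (ZS A)} {I : TwoSidedIdeal A} (h : ∀ z ∈ m, (z : A) ∈ I)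
    {j : A} (hj : j ∈ W m) : j ∈ closure (I : Set A) := by
  refine Metric.mem_closure_iff.mpr fun δ hδ => ?_
  obtain ⟨k, hk, h2⟩ := mem_W.mp hj (δ / 2) (half_pos hδ)
  refine ⟨((1 - k : ZS A) : A) * j, I.mul_mem_right _ _ (h _ hk.2.1), ?_⟩
  have e : j - ((1 - k : ZS A) : A) * j = k * j := by
    change j - (1 - (k : A)) * j = _
    rw [sub_mul, one_mul, sub_sub_cancel]
  rw [dist_eq_norm, e]
  linarith

/-- quasinilpotent at `m` -/
def P (m : Ideal (ZS A)) (a : A) : Prop := ∀ ε > 0, ∃ k, F m k ∧ Rle ((k : A) * a) ε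

/-- additive form of `P` -/
def Q (m : Ideal (ZS A)) (a : A) : Prop := ∃ M : ℝ, 0 ≤ M ∧ ∀ ε > 0, ∀ s : ℂ, ‖s‖ = M →
  ∃ f : ZS A, 1 - f ∈ m ∧ Rle (a + s • (f : A)) (M + ε)

theorem P.star {m : Ideal (ZS A)} {a : A} (h : P m a) : P m (star a) := by
  intro ε hε
  obtain ⟨k, hk, h1⟩ := h ε hε
  refine ⟨k, hk, ?_⟩
  have e : Star.star (k : A) = k := congrArg Subtype.val hk.1.star_eq
  have h2 := h1.star
  rwa [star_mul, e, ← (ZS.comm k _).eq] at h2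

theorem P.mem {m : Ideal (ZS A)} {a : A} (h : P m a) (ha : IsSelfAdjoint a) : a ∈ W m := by
  refine mem_W.mpr fun δ hδ => ?_
  obtain ⟨k, hk, h1⟩ := h δ hδ
  have e : Star.star (k : A) = k := congrArg Subtype.val hk.1.star_eq
  have : IsSelfAdjoint ((k : A) * a) := by
    change Star.star _ = _
    rw [star_mul, e, ha.star_eq, (ZS.comm k _).eq]
  haveI := this.isStarNormal
  exact ⟨k, hk, h1.norm_le hδ.le⟩

theorem P_of_W {m : Ideal (ZS A)} {a : A} (h : a ∈ W m) : P m a := fun ε hε => by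
  obtain ⟨k, hk, h1⟩ := mem_W.mp h ε hε
  exact ⟨k, hk, (rle_norm _).mono h1⟩

theorem Rle.pow {a : A} {R S : ℝ} (hR : 0 ≤ R) (hS : R < S) (h : Rle a R) :
    ∃ n, ‖a ^ (n + 1)‖ < S ^ (n + 1) := by
  have h1 := (spectrum.pow_norm_pow_one_div_tendsto_nhds_spectralRadius a).eventually
    (gt_mem_nhds (((rle_iff hR).mp h).trans_lt
      ((ENNReal.ofReal_lt_ofReal_iff (hR.trans_lt hS)).mpr hS)))
  obtain ⟨n, hn⟩ := Filter.eventually_atTop.mp h1
  have h2 := hn (n + 1) n.le_succ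
  rw [ENNReal.ofReal_lt_ofReal_iff (hR.trans_lt hS), one_div,
    Real.rpow_inv_lt_iff_of_pos (norm_nonneg _) (hR.trans hS.le) (by positivity),
    Real.rpow_natCast] at h2
  exact ⟨n, h2⟩

theorem F.pow {m : Ideal (ZS A)} {k : ZS A} (hk : F m k) (n : ℕ) (a : A) :
    ‖(k : A) ^ n * a‖ ≤ ‖a‖ := by
  induction n with
  | zero => simp
  | succ n ih => rw [pow_succ', mul_assoc]; exact (hk.le _).trans ih

theorem P.add {m : Ideal (ZS A)} {a x : A} (h : P m a) (hx : x ∈ W m) : P m (a + x) := by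
  intro ε hε
  obtain ⟨k, hk, h1⟩ := h (ε / 2) (half_pos hε)
  obtain ⟨n, h2⟩ := h1.pow (half_pos hε).le (half_lt_self hε)
  have hj : ∀ i : ℕ, (a + x) ^ i - a ^ i ∈ W m := by
    intro i
    induction i with
    | zero => simp
    | succ i ih =>
      have e : (a + x) ^ (i + 1) - a ^ (i + 1) = ((a + x) ^ i - a ^ i) * (a + x) + a ^ i * x := by
        noncomm_ring
      rw [e]
      exact (W m).add_mem ((W m).mul_mem_right _ _ ih) ((W m).mul_mem_left _ _ hx)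
  obtain ⟨l, hl, h3⟩ := mem_W.mp (hj (n + 1)) _ (sub_pos.mpr h2)
  refine ⟨k * l, hk.mul hl, fun t ht => ?_⟩
  have h4 := rle_norm _ _ (spectrum.pow_mem_pow _ (n + 1) ht)
  have e : (((k * l : ZS A) : A) * (a + x)) ^ (n + 1) = l ^ (n + 1) * ((k : A) * a) ^ (n + 1) +
      k ^ (n + 1) * (l ^ n * (l * ((a + x) ^ (n + 1) - a ^ (n + 1)))) := by
    have e1 : ((k * l : ZS A) : A) ^ (n + 1) = k ^ (n + 1) * l ^ (n + 1) :=
      (ZS.comm k l).mul_pow _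
    rw [(ZS.comm _ _).mul_pow, (ZS.comm k a).mul_pow, e1, ← mul_assoc ((l : A) ^ n), ← pow_succ,
      ← mul_assoc, ← mul_assoc, ← ((ZS.comm k l).pow_pow _ _).eq, ← mul_add, add_sub_cancel]
  rw [e, norm_pow] at h4
  refine le_of_pow_le_pow_left₀ n.add_one_ne_zero hε.le (h4.trans ((norm_add_le _ _).trans ?_))
  linarith [hl.pow (n + 1) (((k : A) * a) ^ (n + 1)),
    hk.pow (n + 1) (l ^ n * (l * ((a + x) ^ (n + 1) - a ^ (n + 1)))),
    hl.pow n (l * ((a + x) ^ (n + 1) - a ^ (n + 1)))]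

theorem P.toQ {m : Ideal (ZS A)} {a : A} (h : P m a) : Q m a := by
  refine ⟨2 * ‖a‖, by positivity, fun ε hε s hs => ?_⟩
  obtain ⟨k, hk, h1⟩ := h (ε / 2) (half_pos hε)
  obtain ⟨f, hf, h2⟩ := bumpF hk.2.1 (N := 4) (by norm_num)
  refine ⟨f, hf.2.1, fun t ht => ?_⟩
  obtain ⟨ψ, α, h3, h4⟩ := chr a 1 (s • f) (l := t) (by simpa using ht)
  have h5 := rle_norm a α (by simpa using h4 1 0)
  have h6 := h1 (ψ k * α) (by simpa using h4 k 0)
  have h7 := h2 ψ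
  rw [map_sub, map_one] at h7
  rw [h3, map_one, one_mul, map_smul, smul_eq_mul]
  refine (norm_add_le _ _).trans ?_
  rw [norm_mul, hs]
  rw [norm_mul] at h6
  have h8 := (chr_le ψ f).trans hf.2.2
  rcases le_total ‖1 - ψ k‖ (1 / 2) with h9 | h9
  · have := norm_sub_norm_le 1 (ψ k)
    rw [norm_one] at this
    nlinarith [norm_nonneg α, norm_nonneg a]
  · have : ‖ψ f‖ ≤ 1 / 2 := by
      rw [h7, one_div]
      exact inv_anti₀ two_pos (by nlinarith)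
    nlinarith [norm_nonneg a]

theorem Q.toP {m : Ideal (ZS A)} {a : A} (h : Q m a) : P m a := by
  obtain ⟨M, hM, h⟩ := h
  intro ε hε
  obtain ⟨η, hη, hη'⟩ : ∃ η > 0, 2 * M * η + η ^ 2 ≤ ε ^ 2 := by
    refine ⟨min (ε / 2) (ε ^ 2 / (4 * (M + 1))), by positivity, ?_⟩
    have h1 := min_le_left (ε / 2) (ε ^ 2 / (4 * (M + 1)))
    have h2 := min_le_right (ε / 2) (ε ^ 2 / (4 * (M + 1)))
    have h3 : 0 < min (ε / 2) (ε ^ 2 / (4 * (M + 1))) := by positivity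
    rw [le_div_iff₀ (by positivity)] at h2
    nlinarith
  set δ := η / (2 * (M + 1)) with hδ
  have hδ0 : 0 < δ := by positivity
  have hδ1 : M * δ ≤ η / 2 := by
    rw [hδ, ← mul_div_assoc, div_le_div_iff₀ (by positivity) two_pos]
    nlinarith
  obtain ⟨f, hf, h1⟩ := h (η / 2) (half_pos hη) M (by simpa using hM)
  obtain ⟨g, hg, h2⟩ := h (η / 2) (half_pos hη) (-M) (by simpa using hM)
  have hN : 0 ≤ ‖a‖ / (ε * δ ^ 2) := by positivity
  obtain ⟨k, hk, h3⟩ := bumpF hf hN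
  obtain ⟨l, hl, h4⟩ := bumpF hg hN
  refine ⟨k * l, hk.mul hl, fun t ht => ?_⟩
  obtain ⟨ψ, α, h5, h6⟩ := chr a (k * l) 0 (l := t) (by simpa using ht)
  have h7 := rle_norm a α (by simpa using h6 1 0)
  have h6' : ∀ (s : ℂ) (f : ZS A), α + s * ψ f ∈ spectrum ℂ (a + s • (f : A)) := fun s f => by
    simpa using h6 1 (s • f)
  have h8 := h1 _ (h6' _ _)
  have h9 := h2 _ (h6' _ _)
  have k1 := (chr_le ψ k).trans hk.2.2
  have l1 := (chr_le ψ l).trans hl.2.2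
  have far : ∀ r : ℝ, δ ≤ r → (1 + ‖a‖ / (ε * δ ^ 2) * r ^ 2)⁻¹ * ‖α‖ ≤ ε := by
    intro r hr
    rw [inv_mul_le_iff₀ (by positivity)]
    have e : ‖a‖ / (ε * δ ^ 2) * δ ^ 2 * ε = ‖a‖ := by field_simp
    have := mul_le_mul_of_nonneg_left (pow_le_pow_left₀ hδ0.le hr 2) hN
    nlinarith
  rw [h5, map_zero, add_zero, map_mul, norm_mul, norm_mul]
  rcases le_total δ ‖ψ (1 - f)‖ with c1 | c1
  · have := far _ c1
    rw [← h3] at this
    nlinarith [mul_nonneg (norm_nonneg (ψ k)) (norm_nonneg α)]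
  rcases le_total δ ‖ψ (1 - g)‖ with c2 | c2
  · have := far _ c2
    rw [← h4] at this
    nlinarith [mul_nonneg (norm_nonneg (ψ l)) (norm_nonneg α)]
  rw [map_sub, map_one] at c1 c2
  have hM' : ‖(M : ℂ)‖ = M := by simpa using hM
  have b1 : ‖α + M‖ ≤ M + η := by
    have e : α + M = (α + M * ψ f) + M * (1 - ψ f) := by ring
    have := norm_add_le (α + M * ψ f) (M * (1 - ψ f))
    rw [← e, norm_mul, hM'] at this
    nlinarith
  have b2 : ‖α - M‖ ≤ M + η := by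
    have e : α - M = (α + -M * ψ g) - M * (1 - ψ g) := by ring
    have := norm_sub_le (α + -M * ψ g) (M * (1 - ψ g))
    rw [← e, norm_mul, hM'] at this
    nlinarith
  have par := parallelogram_law_with_norm ℂ α (M : ℂ)
  rw [hM'] at par
  have b3 : ‖α‖ ≤ ε := by
    refine le_of_pow_le_pow_left₀ two_ne_zero hε.le ?_
    nlinarith [norm_nonneg (α + M), norm_nonneg (α - M)]
  exact (mul_le_of_le_one_left (norm_nonneg _) (mul_le_one₀ k1 (norm_nonneg _) l1)).trans b3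

theorem P.map {m : Ideal (ZS A)} {n : Ideal (ZS B)} (T : A →ₗ[ℂ] B) (h1 : T 1 = 1)
    (hR : ∀ x R, 0 ≤ R → Rle x R → Rle (T x) R) (hm : ∀ z ∈ m, ∃ w ∈ n, (w : B) = T z)
    {a : A} (h : P m a) : P n (T a) := by
  obtain ⟨M, hM, h⟩ := h.toQ
  refine Q.toP ⟨M, hM, fun ε hε s hs => ?_⟩
  obtain ⟨f, hf, h2⟩ := h ε hε s hs
  obtain ⟨w, hw, e⟩ := hm _ hf
  refine ⟨1 - w, by simpa using hw, ?_⟩
  have e1 : ((1 - w : ZS B) : B) = T f := by
    change 1 - (w : B) = _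
    rw [e]
    change 1 - T (1 - (f : A)) = _
    rw [map_sub, h1, sub_sub_cancel]
  rw [e1, ← map_smul, ← map_add]
  exact hR _ _ (by linarith) h2

theorem W_map {m : Ideal (ZS A)} {n : Ideal (ZS B)} (T : A ≃ₗ[ℂ] B) (h1 : T 1 = 1)
    (hR : ∀ x R, 0 ≤ R → (Rle (T x) R ↔ Rle x R)) (hm : ∀ z ∈ m, ∃ w ∈ n, (w : B) = T z)
    (hn : ∀ w ∈ n, ∃ z ∈ m, (z : A) = T.symm w) {x : A} (hx : x ∈ W m) : T x ∈ W n := by
  have sm : ∀ {C : Type _} [CStarAlgebra C] (I : TwoSidedIdeal C) (s : ℂ) (y : C), y ∈ I →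
      s • y ∈ I := fun I s y hy => by
    rw [Algebra.smul_def]
    exact I.mul_mem_left _ _ hy
  have f1 : ∀ a, P m a → P n (T a) := fun a h =>
    h.map (T : A →ₗ[ℂ] B) h1 (fun x R h0 => (hR x R h0).mpr) hm
  have f2 : ∀ b, P n b → P m (T.symm b) := fun b h =>
    h.map (T.symm : B →ₗ[ℂ] A) ((T.symm_apply_eq).mpr h1.symm)
      (fun x R h0 h => (hR _ R h0).mp (by simpa using h)) hn
  have key : ∀ x ∈ W m, star (T x) + T x ∈ W n := fun x hx => by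
    have h := f1 _ ((f2 _ (f1 _ (P_of_W hx)).star).add hx)
    rw [map_add, T.apply_symm_apply] at h
    exact h.mem (IsSelfAdjoint.star_add_self _)
  have h2 := key _ (by
    rw [Algebra.smul_def]
    exact (W m).mul_mem_left _ _ hx : Complex.I • x ∈ W m)
  rw [map_smul] at h2
  rw [half (T x)]
  exact sm _ _ _ ((W n).add_mem (key x hx) (sm _ _ _ h2))

end Pool.Agent.H86.Glm
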