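import Mathlib

set_option autoImplicit false

namespace Pool.Agent.H86.Heis

open Set Filter Topology

def hm (x y z : ℝ) : Matrix (Fin 3) (Fin 3) ℝ := !![1, x, z; 0, 1, y; 0, 0, 1]

theorem hm_mul (x y z x' y' z' : ℝ) :
    hm x y z * hm x' y' z' = hm (x + x') (y + y') (z + z' + x * y') := by
  ext i j
  fin_cases i <;> fin_cases j <;> simp [hm, Matrix.mul_apply, Fin.sum_univ_three] <;> ring

theorem hm_zero : hm 0 0 0 = 1 := by
  ext i j
  fin_cases i <;> fin_cases j <;> simp [hm]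

def h (x y z : ℝ) : GL (Fin 3) ℝ :=
  ⟨hm x y z, hm (-x) (-y) (x * y - z), by rw [hm_mul, ← hm_zero]; congr 1 <;> ring,
    by rw [hm_mul, ← hm_zero]; congr 1 <;> ring⟩

theorem h_mul (x y z x' y' z' : ℝ) :
    h x y z * h x' y' z' = h (x + x') (y + y') (z + z' + x * y') := Units.ext (hm_mul _ _ _ _ _ _)

theorem h_inv (x y z : ℝ) : (h x y z)⁻¹ = h (-x) (-y) (x * y - z) := Units.ext rfl

theorem h_zero : h 0 0 0 = 1 := Units.ext hm_zero

def X (g : GL (Fin 3) ℝ) : ℝ := g.val 0 1
def Y (g : GL (Fin 3) ℝ) : ℝ := g.val 1 2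
def Z (g : GL (Fin 3) ℝ) : ℝ := g.val 0 2

theorem X_h (x y z : ℝ) : X (h x y z) = x := rfl
theorem Y_h (x y z : ℝ) : Y (h x y z) = y := rfl
theorem Z_h (x y z : ℝ) : Z (h x y z) = z := rfl

theorem X_one : X 1 = 0 := by rw [← h_zero, X_h]
theorem Y_one : Y 1 = 0 := by rw [← h_zero, Y_h]
theorem Z_one : Z 1 = 0 := by rw [← h_zero, Z_h]

theorem X_cont : Continuous X :=
  (Units.continuous_val (M := Matrix (Fin 3) (Fin 3) ℝ)).matrix_elem 0 1
theorem Y_cont : Continuous Y :=
  (Units.continuous_val (M := Matrix (Fin 3) (Fin 3) ℝ)).matrix_elem 1 2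
theorem Z_cont : Continuous Z :=
  (Units.continuous_val (M := Matrix (Fin 3) (Fin 3) ℝ)).matrix_elem 0 2

theorem hm_cont {T : Type} [TopologicalSpace T] {x y z : T → ℝ} (hx : Continuous x)
    (hy : Continuous y) (hz : Continuous z) : Continuous fun t => hm (x t) (y t) (z t) := by
  refine continuous_matrix fun i j => ?_
  fin_cases i <;> fin_cases j <;> simp [hm] <;> first | assumption | exact continuous_const

theorem h_cont {T : Type} [TopologicalSpace T] {x y z : T → ℝ} (hx : Continuous x)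
    (hy : Continuous y) (hz : Continuous z) : Continuous fun t => h (x t) (y t) (z t) :=
  Units.continuous_iff.2 ⟨hm_cont hx hy hz, hm_cont hx.neg hy.neg ((hx.mul hy).sub hz)⟩

theorem exists_beta : ∃ β : ℝ, ∀ a b c : ℤ, (a : ℝ) + b * √2 + c * β = 0 → a = 0 ∧ b = 0 ∧ c = 0 := by
  have : ∃ β : ℝ, β ∉ range (fun q : ℚ × ℚ => (q.1 : ℝ) + q.2 * √2) := by
    by_contra hcon
    push Not at hcon
    exact Cardinal.not_countable_real ((countable_range _).mono fun x _ => hcon x)
  obtain ⟨β, hβ⟩ := this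
  refine ⟨β, fun a b c habc => ?_⟩
  have hc : c = 0 := by
    by_contra hc
    have hc' : (c : ℝ) ≠ 0 := by exact_mod_cast hc
    refine hβ ⟨(-a / c, -b / c), ?_⟩
    push_cast
    field_simp
    linarith
  subst hc
  have hb : b = 0 := by
    by_contra hb
    have hb' : (b : ℝ) ≠ 0 := by exact_mod_cast hb
    refine irrational_sqrt_two ⟨-a / b, ?_⟩
    push_cast
    field_simp
    simp at habc
    linarith
  subst hb
  simpa using habc

noncomputable def β : ℝ := exists_beta.choose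

theorem indep (a b c : ℤ) (h : (a : ℝ) + b * √2 + c * β = 0) : a = 0 ∧ b = 0 ∧ c = 0 :=
  exists_beta.choose_spec a b c h

def G : Subgroup (GL (Fin 3) ℝ) where
  carrier := {g | ∃ (m n k : ℤ) (z : ℝ), g = h (m + k * √2) (n + k * β) z}
  one_mem' := ⟨0, 0, 0, 0, by simp [h_zero]⟩
  mul_mem' := by
    rintro _ _ ⟨m, n, k, z, rfl⟩ ⟨m', n', k', z', rfl⟩
    refine ⟨m + m', n + n', k + k', z + z' + (m + k * √2) * (n' + k' * β), ?_⟩
    rw [h_mul]
    congr 1 <;> (push_cast; ring)
  inv_mem' := by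
    rintro _ ⟨m, n, k, z, rfl⟩
    refine ⟨-m, -n, -k, (m + k * √2) * (n + k * β) - z, ?_⟩
    rw [h_inv]
    congr 1 <;> (push_cast; ring)

theorem center_mem (z : ℝ) : h 0 0 z ∈ G := ⟨0, 0, 0, z, by simp⟩

def c (z : ℝ) : G := ⟨h 0 0 z, center_mem z⟩

theorem c_cont : Continuous c :=
  (h_cont continuous_const continuous_const continuous_id).subtype_mk _

theorem c_add (z w : ℝ) : c (z + w) = c z * c w := by
  apply Subtype.ext
  simp [c, h_mul]

theorem c_zero : c 0 = 1 := Subtype.ext h_zero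

theorem c_neg (z : ℝ) : c (-z) = (c z)⁻¹ := by
  apply Subtype.ext
  simp [c, h_inv]

theorem comm_eq (s t : G) : s * t * s⁻¹ * t⁻¹ = c (X s * Y t - X t * Y s) := by
  obtain ⟨_, m, n, k, z, rfl⟩ := s
  obtain ⟨_, m', n', k', z', rfl⟩ := t
  apply Subtype.ext
  simp only [c, Subgroup.coe_mul, Subgroup.coe_inv, h_inv, h_mul, X_h, Y_h]
  congr 1 <;> ring

theorem center_discrete (S : Subgroup G) (hS : IsClosed (S : Set G))
    (hz : TopologicalSpace.IsTopologicalBasis {U : Set S | IsClopen U}) :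
    ∃ ε > 0, ∀ z : ℝ, c z ∈ S → |z| < ε → z = 0 := by
  let T : AddSubgroup ℝ :=
    { carrier := {z | c z ∈ S}
      zero_mem' := by simp [c_zero]
      add_mem' := by
        intro a b ha hb
        simp only [mem_ofPred_eq] at *
        rw [c_add]
        exact S.mul_mem ha hb
      neg_mem' := by
        intro a ha
        simp only [mem_ofPred_eq] at *
        rw [c_neg]
        exact S.inv_mem ha }
  have hT : IsClosed (T : Set ℝ) := hS.preimage c_cont
  rcases T.dense_or_cyclic with hd | ⟨a, ha⟩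
  · exfalso
    have hall : ∀ z, c z ∈ S := fun z => hT.closure_subset (hd z)
    let f : ℝ → S := fun z => ⟨c z, hall z⟩
    have hf : Continuous f := c_cont.subtype_mk _
    have hne : f 0 ∈ ({f 1}ᶜ : Set S) := by
      intro h
      have := congrArg (fun s : S => Z s.1.1) (mem_singleton_iff.1 h)
      simp [f, c, Z_h] at this
    obtain ⟨U, hU, h0, hU1⟩ := hz.exists_subset_of_mem_open hne isOpen_compl_singleton
    have := (hU.preimage hf).eq_univ ⟨0, h0⟩
    exact hU1 (show (1 : ℝ) ∈ f ⁻¹' U from this ▸ mem_univ _) rfl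
  · by_cases ha0 : a = 0
    · refine ⟨1, one_pos, fun z hz _ => ?_⟩
      have : z ∈ T := hz
      rw [ha, ha0, AddSubgroup.closure_singleton_zero] at this
      exact this
    · refine ⟨|a|, abs_pos.2 ha0, fun z hz hlt => ?_⟩
      have : z ∈ T := hz
      rw [ha, AddSubgroup.mem_closure_singleton] at this
      obtain ⟨n, rfl⟩ := this
      by_contra hne
      have hn : n ≠ 0 := by
        rintro rfl
        simp at hne
      have h1 : (1 : ℝ) ≤ |(n : ℝ)| := by exact_mod_cast Int.one_le_abs hn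
      rw [zsmul_eq_mul, abs_mul] at hlt
      nlinarith [abs_pos.2 ha0]

theorem discrete (S : Subgroup G) (hS : IsClosed (S : Set G))
    (hz : TopologicalSpace.IsTopologicalBasis {U : Set S | IsClopen U}) : DiscreteTopology S := by
  obtain ⟨ε, hε, hc⟩ := center_discrete S hS hz
  have hv : Continuous (fun s : S => (s.1.1 : GL (Fin 3) ℝ)) := by fun_prop
  have hZ : ∀ᶠ s : S in 𝓝 1, |Z s.1.1| < ε := by
    refine ((Z_cont.comp hv).abs.tendsto 1).eventually (gt_mem_nhds ?_)
    simpa [Z_one] using hε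
  have key : ∀ᶠ s : S in 𝓝 1, X s.1.1 = 0 ∧ Y s.1.1 = 0 := by
    by_cases h0 : ∀ s : S, X s.1.1 = 0 ∧ Y s.1.1 = 0
    · exact Eventually.of_forall h0
    push Not at h0
    obtain ⟨t, ht⟩ := h0
    have hpos : 0 < |X t.1.1| + |Y t.1.1| := by
      by_cases hx : X t.1.1 = 0
      · have := abs_pos.2 (ht hx)
        positivity
      · have := abs_pos.2 hx
        positivity
    obtain ⟨m₀, n₀, k₀, z₀, ht0⟩ := t.1.2
    have h1 : ∀ᶠ s : S in 𝓝 1, |X s.1.1 * Y t.1.1 - X t.1.1 * Y s.1.1| < ε := by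
      have : Continuous fun s : S => |X s.1.1 * Y t.1.1 - X t.1.1 * Y s.1.1| :=
        (((X_cont.comp hv).mul continuous_const).sub (continuous_const.mul (Y_cont.comp hv))).abs
      refine (this.tendsto 1).eventually (gt_mem_nhds ?_)
      simpa [X_one, Y_one] using hε
    have h2 : ∀ᶠ s : S in 𝓝 1, (|(m₀ : ℝ)| + |(n₀ : ℝ)| + |(k₀ : ℝ)|) * (|X s.1.1| + |Y s.1.1|) <
        |X t.1.1| + |Y t.1.1| := by
      have : Continuous fun s : S =>
          (|(m₀ : ℝ)| + |(n₀ : ℝ)| + |(k₀ : ℝ)|) * (|X s.1.1| + |Y s.1.1|) :=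
        continuous_const.mul ((X_cont.comp hv).abs.add (Y_cont.comp hv).abs)
      refine (this.tendsto 1).eventually (gt_mem_nhds ?_)
      simpa [X_one, Y_one] using hpos
    filter_upwards [h1, h2] with s hs1 hs2
    have h3 := hc _ (by
      rw [← comm_eq]
      exact S.mul_mem (S.mul_mem (S.mul_mem s.2 t.2) (S.inv_mem s.2)) (S.inv_mem t.2)) hs1
    obtain ⟨m, n, k, z, hs0⟩ := s.1.2
    rw [hs0, ht0] at h3 hs2
    rw [hs0]
    simp only [X_h, Y_h] at h3 hs2 ⊢
    obtain ⟨e1, e2, e3⟩ := indep (m * n₀ - m₀ * n) (k * n₀ - k₀ * n) (m * k₀ - m₀ * k) (by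
      push_cast
      linarith)
    have e1' : (m : ℝ) * n₀ = m₀ * n := by exact_mod_cast sub_eq_zero.1 e1
    have e2' : (k : ℝ) * n₀ = k₀ * n := by exact_mod_cast sub_eq_zero.1 e2
    have e3' : (m : ℝ) * k₀ = m₀ * k := by exact_mod_cast sub_eq_zero.1 e3
    have aux : ∀ (a a₀ : ℤ), |(a₀ : ℝ)| ≤ |(m₀ : ℝ)| + |(n₀ : ℝ)| + |(k₀ : ℝ)| →
        (a : ℝ) * (m₀ + k₀ * √2) = a₀ * (m + k * √2) →
        (a : ℝ) * (n₀ + k₀ * β) = a₀ * (n + k * β) → a = 0 := by
      intro a a₀ hle f1 f2
      by_contra hne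
      have h1 : (1 : ℝ) ≤ |(a : ℝ)| := by exact_mod_cast Int.one_le_abs hne
      have g1 := congrArg abs f1
      have g2 := congrArg abs f2
      rw [abs_mul, abs_mul] at g1 g2
      have p1 := abs_nonneg ((m₀ : ℝ) + k₀ * √2)
      have p2 := abs_nonneg ((n₀ : ℝ) + k₀ * β)
      have p3 := abs_nonneg ((m : ℝ) + k * √2)
      have p4 := abs_nonneg ((n : ℝ) + k * β)
      nlinarith
    have a1 := abs_nonneg (m₀ : ℝ)
    have a2 := abs_nonneg (n₀ : ℝ)
    have a3 := abs_nonneg (k₀ : ℝ)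
    have hm := aux m m₀ (by linarith) (by linear_combination √2 * e3')
      (by linear_combination e1' + β * e3')
    have hn := aux n n₀ (by linarith) (by linear_combination - e1' - √2 * e2')
      (by linear_combination - β * e2')
    have hk := aux k k₀ (by linarith) (by linear_combination - e3')
      (by linear_combination e2')
    simp [hm, hn, hk]
  refine discreteTopology_iff_isOpen_singleton_one.2 ?_
  rw [isOpen_iff_mem_nhds]
  rintro _ rfl
  filter_upwards [hZ, key] with s hs1 hs2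
  obtain ⟨m, n, k, z, hs0⟩ := s.1.2
  have h1 : s.1 = c z := by
    apply Subtype.ext
    rw [hs0, X_h, Y_h] at hs2
    rw [hs0, hs2.1, hs2.2]
    rfl
  rw [hs0, Z_h] at hs1
  have h2 := hc z (h1 ▸ s.2) hs1
  apply Subtype.ext
  rw [h1, h2, c_zero]
  rfl

theorem not_closed : ¬ IsClosed (G : Set (GL (Fin 3) ℝ)) := by
  intro hG
  let φ : ℤ × ℤ × ℤ →+ ℝ × ℝ :=
    { toFun := fun v => (v.1 + v.2.2 * √2, v.2.1 + v.2.2 * β)
      map_zero' := by simp
      map_add' := fun a b => by
        ext <;> simp <;> ring }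
  let A : AddSubgroup (ℝ × ℝ) := φ.range
  have hA : IsClosed (A : Set (ℝ × ℝ)) := by
    have : (A : Set (ℝ × ℝ)) = (fun p : ℝ × ℝ => h p.1 p.2 0) ⁻¹' (G : Set (GL (Fin 3) ℝ)) := by
      ext p
      constructor
      · rintro ⟨v, rfl⟩
        exact ⟨v.1, v.2.1, v.2.2, 0, rfl⟩
      · rintro ⟨m, n, k, z, hp⟩
        refine ⟨(m, n, k), Prod.ext ?_ ?_⟩
        · exact (congrArg X hp).symm
        · exact (congrArg Y hp).symm
    rw [this]
    exact hG.preimage (h_cont continuous_fst continuous_snd continuous_const)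
  have : CompleteSpace A := hA.completeSpace_coe
  have : Countable A := (countable_range φ).to_subtype
  obtain ⟨a, ha⟩ := nonempty_interior_of_iUnion_of_closed (f := fun a : A => ({a} : Set A))
    (fun a => isClosed_singleton) (iUnion_of_singleton A)
  have ha' : IsOpen ({a} : Set A) := by
    obtain ⟨b, hb⟩ := ha
    have hba : b = a := mem_singleton_iff.1 (interior_subset hb)
    subst hba
    rw [isOpen_iff_mem_nhds]
    rintro _ rfl
    exact mem_interior_iff_mem_nhds.1 hb
  have : DiscreteTopology A := discreteTopology_of_isOpen_singleton_zero (by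
    have := ha'.preimage (continuous_add_const a)
    convert this using 1
    ext b
    simp)
  have h1 := AddSubgroup.tendsto_coe_cofinite_of_discrete A ⟨this⟩
  have h2 : (Subtype.val ⁻¹' (Icc (0 : ℝ × ℝ) 1) : Set A).Finite := by
    have := h1 (isCompact_Icc (a := (0 : ℝ × ℝ)) (b := 1)).compl_mem_cocompact
    simpa [mem_map, mem_cofinite] using this
  let u : ℤ → A := fun k => ⟨φ (-⌊k * √2⌋, -⌊k * β⌋, k), _, rfl⟩
  refine infinite_of_injective_forall_mem (f := u) ?_ ?_ h2
  · intro k l hkl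
    have := congrArg (fun a : A => a.1.1) hkl
    simp only [u, φ, AddMonoidHom.coe_mk, ZeroHom.coe_mk] at this
    have := (indep (-⌊k * √2⌋ + ⌊l * √2⌋) (k - l) 0 (by
      push_cast at this ⊢
      linarith)).2.1
    omega
  · intro k
    simp only [u, φ, AddMonoidHom.coe_mk, ZeroHom.coe_mk, mem_preimage, mem_Icc, Prod.le_def]
    push_cast
    have := Int.floor_le (k * √2)
    have := Int.lt_floor_add_one (k * √2)
    have := Int.floor_le (k * β)
    have := Int.lt_floor_add_one (k * β)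
    simp only [Prod.fst_zero, Prod.snd_zero, Prod.fst_one, Prod.snd_one]
    refine ⟨⟨?_, ?_⟩, ?_, ?_⟩ <;> linarith

end Pool.Agent.H86.Heis
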