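import Mathlib

set_option autoImplicit false

namespace Pool.Agent.H86.Inv

variable {H : Type} [NormedAddCommGroup H] [InnerProductSpace ℂ H]

theorem pyth {ι : Type} (f : ι → H) (hf : ∀ i j, i ≠ j → inner ℂ (f i) (f j) = 0)
    (s : Finset ι) : ‖∑ i ∈ s, f i‖ ^ 2 = ∑ i ∈ s, ‖f i‖ ^ 2 := by
  classical
  induction s using Finset.induction_on with
  | empty => simp
  | insert a s ha ih =>
    rw [Finset.sum_insert ha, Finset.sum_insert ha, ← ih, sq, sq, sq]
    refine norm_add_sq_eq_norm_sq_add_norm_sq_of_inner_eq_zero (𝕜 := ℂ) _ _ ?_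
    rw [inner_sum]
    exact Finset.sum_eq_zero fun j hj => hf _ _ fun h => ha (h ▸ hj)

/-- product of two involutions -/
def I2 {M : Type} [Monoid M] (x : M) : Prop := ∃ a c, a * a = 1 ∧ c * c = 1 ∧ x = a * c

theorem inv_conj {M : Type} [Monoid M] {g g' a : M} (h : g * g' = 1) (h' : g' * g = 1)
    (ha : a * a = 1) : (g * a * g') * (g * a * g') = 1 := by
  calc _ = g * (a * (g' * g) * a) * g' := by simp only [mul_assoc]
    _ = 1 := by rw [h', mul_one, ha, mul_one, h]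

theorem I2.conj {M : Type} [Monoid M] {g g' x : M} (h : g * g' = 1) (h' : g' * g = 1)
    (hx : I2 x) : I2 (g * x * g') := by
  obtain ⟨a, c, ha, hc, rfl⟩ := hx
  refine ⟨_, _, inv_conj h h' ha, inv_conj h h' hc, ?_⟩
  calc _ = g * (a * (g' * g) * c) * g' := by rw [h', mul_one]
    _ = _ := by simp only [mul_assoc]

theorem perm_rev {X : Type} (σ : Equiv.Perm X) :
    ∃ τ : X → X, (∀ x, τ (τ x) = x) ∧ ∀ x, τ (σ (τ (σ x))) = x := by
  let S := Equiv.Perm.SameCycle.setoid σ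
  let o : X → X := fun x => (Quotient.mk S x).out
  have ho : ∀ x, ∃ n : ℤ, (σ ^ n) (o x) = x := fun x => Quotient.mk_out (s := S) x
  choose n hn using ho
  have hoo : ∀ x (m : ℤ), o ((σ ^ m) (o x)) = o x := fun x m => by
    have h1 : Quotient.mk S ((σ ^ m) (o x)) = Quotient.mk S (o x) :=
      Quotient.sound (Equiv.Perm.SameCycle.symm ⟨m, rfl⟩)
    simp only [o] at h1 ⊢
    rw [h1, Quotient.out_eq]
  have hz : ∀ (a c : ℤ) x, (σ ^ a) ((σ ^ c) x) = (σ ^ (a + c)) x := fun a c x => by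
    rw [zpow_add, Equiv.Perm.mul_apply]
  let τ : X → X := fun x => (σ ^ (-n x)) (o x)
  have key : ∀ x (m : ℤ), τ ((σ ^ m) (o x)) = (σ ^ (-m)) (o x) := fun x m => by
    have h1 := hn ((σ ^ m) (o x))
    simp only [τ]
    rw [hoo] at h1 ⊢
    generalize n ((σ ^ m) (o x)) = k at h1 ⊢
    have h2 := congrArg (σ ^ (-k - m)) h1
    rw [hz, hz] at h2
    rw [show -k - m + k = -m by ring, show -k - m + m = -k by ring] at h2
    exact h2.symm
  have h1 : ∀ (a : ℤ) x, σ ((σ ^ a) x) = (σ ^ (1 + a)) x := fun a x => by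
    rw [← hz, zpow_one]
  clear_value τ
  refine ⟨τ, fun x => ?_, fun x => ?_⟩
  · rw [← hn x, key, key, neg_neg]
  · rw [← hn x, h1, key, h1, key]
    congr 2
    ring

variable {X : Type} (b : HilbertBasis X ℂ H)

theorem vec_ext {ξ η : H} (h : ∀ x, inner ℂ (b x) ξ = inner ℂ (b x) η) : ξ = η :=
  b.repr.injective (lp.ext (funext fun x => by
    rw [b.repr_apply_apply, b.repr_apply_apply, h]))

theorem ext_b {A B : H →L[ℂ] H} (h : ∀ x, A (b x) = B (b x)) : A = B :=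
  ContinuousLinearMap.ext_on (s := Set.range b)
    (Submodule.dense_iff_topologicalClosure_eq_top.mpr b.dense_span) (by
      rintro _ ⟨x, rfl⟩
      exact h x)

theorem bb {x y : X} (h : x ≠ y) : inner ℂ (b x) (b y) = 0 := b.orthonormal.2 h

theorem b1 (x : X) : inner ℂ (b x) (b x) = 1 := by
  rw [inner_self_eq_norm_sq_to_K, b.orthonormal.1 x]
  simp

variable [CompleteSpace H]

theorem star_b {A B : H →L[ℂ] H} (h : ∀ x y, inner ℂ (A (b x)) (b y) = inner ℂ (b x) (B (b y))) :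
    star A = B :=
  ext_b b fun y => vec_ext b fun x => by
    rw [ContinuousLinearMap.star_eq_adjoint, ContinuousLinearMap.adjoint_inner_right, h]

theorem ext_op {ι E : Type} [AddCommGroup E] [Module ℂ E] (U V : ι → E →ₗ[ℂ] H) {K : ℝ}
    (h0 : 0 ≤ K) (hU : ∀ i j, i ≠ j → ∀ ξ η, inner ℂ (U i ξ) (U j η) = 0)
    (hV : ∀ i j, i ≠ j → ∀ ξ η, inner ℂ (V i ξ) (V j η) = 0)
    (hK : ∀ i ξ, ‖V i ξ‖ ≤ K * ‖U i ξ‖) (hd : ∀ x, ∃ i ξ, b x = U i ξ) :
    ∃ D : H →L[ℂ] H, ∀ i ξ, D (U i ξ) = V i ξ := by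
  have h1 : DenseRange (Finsupp.lsum ℂ U) := by
    refine (Submodule.dense_iff_topologicalClosure_eq_top.mpr b.dense_span).mono ?_
    change _ ⊆ (LinearMap.range (Finsupp.lsum ℂ U) : Set H)
    refine Submodule.span_le.mpr ?_
    rintro _ ⟨x, rfl⟩
    obtain ⟨i, ξ, h⟩ := hd x
    exact ⟨Finsupp.single i ξ, by simp [h]⟩
  have h2 : ∀ f, ‖Finsupp.lsum ℂ V f‖ ≤ K * ‖Finsupp.lsum ℂ U f‖ := by
    intro f
    refine le_of_pow_le_pow_left₀ two_ne_zero (by positivity) ?_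
    rw [mul_pow, Finsupp.lsum_apply, Finsupp.lsum_apply, Finsupp.sum, Finsupp.sum,
      pyth (fun i => U i (f i)) fun i j h => hU i j h _ _,
      pyth (fun i => V i (f i)) fun i j h => hV i j h _ _, Finset.mul_sum]
    refine Finset.sum_le_sum fun i _ => ?_
    rw [← mul_pow]
    exact pow_le_pow_left₀ (norm_nonneg _) (hK i _) 2
  refine ⟨(Finsupp.lsum ℂ V).extendOfNorm (Finsupp.lsum ℂ U), fun i ξ => ?_⟩
  simpa using LinearMap.extendOfNorm_eq h1 ⟨K, h2⟩ (Finsupp.single i ξ)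

theorem exists_op (u : X → H) {K : ℝ} (h0 : 0 ≤ K) (hK : ∀ x, ‖u x‖ ≤ K)
    (hu : ∀ x y, x ≠ y → inner ℂ (u x) (u y) = 0) : ∃ D : H →L[ℂ] H, ∀ x, D (b x) = u x := by
  obtain ⟨D, hD⟩ := ext_op b (fun x => LinearMap.toSpanSingleton ℂ H (b x))
    (fun x => LinearMap.toSpanSingleton ℂ H (u x)) h0
    (fun i j h ξ η => by simp [bb b h])
    (fun i j h ξ η => by simp [hu i j h])
    (fun i ξ => by
      simp only [LinearMap.toSpanSingleton_apply, norm_smul, b.orthonormal.1 i, mul_one]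
      rw [mul_comm]
      exact mul_le_mul_of_nonneg_right (hK i) (norm_nonneg _))
    (fun x => ⟨x, 1, by simp⟩)
  exact ⟨D, fun x => by simpa using hD x 1⟩

theorem exists_dg (c : X → ℂ) {K : ℝ} (h0 : 0 ≤ K) (hK : ∀ x, ‖c x‖ ≤ K) :
    ∃ D : H →L[ℂ] H, ∀ x, D (b x) = c x • b x :=
  exists_op b _ h0 (fun x => by simpa [norm_smul, b.orthonormal.1 x] using hK x)
    fun x y h => by simp [bb b h]

theorem exists_pm (σ : X → X) (hσ : Function.Injective σ) :
    ∃ D : H →L[ℂ] H, ∀ x, D (b x) = b (σ x) :=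
  exists_op b _ zero_le_one (fun x => (b.orthonormal.1 _).le) fun _ _ h => bb b (hσ.ne h)

theorem star_dg {c : X → ℂ} {D D' : H →L[ℂ] H} (h : ∀ x, D (b x) = c x • b x)
    (h' : ∀ x, D' (b x) = starRingEnd ℂ (c x) • b x) : star D = D' :=
  star_b b fun x y => by
    rw [h, h', inner_smul_left, inner_smul_right]
    by_cases e : x = y
    · rw [e]
    · simp [bb b e]

theorem pm_I2 (σ : Equiv.Perm X) {U : H →L[ℂ] H} (h : ∀ x, U (b x) = b (σ x)) : I2 U := by
  obtain ⟨τ, h1, h2⟩ := perm_rev σ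
  obtain ⟨A, hA⟩ := exists_pm b τ (Function.LeftInverse.injective h1)
  refine ⟨A, A * U, ext_b b fun x => ?_, ext_b b fun x => ?_, ext_b b fun x => ?_⟩ <;>
    simp [hA, h, h1, h2]

theorem shift_I4 {W : Type} (ε : X ≃ ℤ × W) (j : Equiv.Perm X) {U Q G G' : H →L[ℂ] H}
    (hU : ∀ x, U (b x) = b (j x))
    (hQ : ∀ x, Q (b x) = (if (ε x).1 = 0 then (1 : ℂ) else 0) • b x)
    (h1 : G * G' = 1) (h2 : G' * G = 1) (h3 : G * (1 - Q) = 1 - Q) (h4 : (1 - Q) * G = 1 - Q) :
    ∃ R S, I2 R ∧ I2 S ∧ U * G = R * S := by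
  let sh : ℤ → Equiv.Perm X := fun m =>
    ε.trans (((Equiv.addRight m).prodCongr (Equiv.refl W)).trans ε.symm)
  have hsh : ∀ m x, ε (sh m x) = ((ε x).1 + m, (ε x).2) := fun m x => by simp [sh, Prod.map]
  choose B hB using fun m => exists_pm b (sh m) (sh m).injective
  have hBB : ∀ m n, B m * B n = B (n + m) := fun m n => ext_b b fun x => by
    simp only [mul_apply_eq_comp, hB]
    congr 1
    apply ε.injective
    simp [hsh, add_assoc]
  have hB0 : B 0 = 1 := ext_b b fun x => by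
    simp only [one_apply_eq_self, hB]
    congr 1
    apply ε.injective
    simp [hsh]
  have hBs : ∀ m, star (B m) = B (-m) := fun m => star_b b fun x y => by
    rw [hB, hB]
    by_cases e : sh m x = y
    · have : x = sh (-m) y := ε.injective (by simp [hsh, ← e])
      rw [e, ← this, b1, b1]
    · have : x ≠ sh (-m) y := fun h => e (ε.injective (by simp [hsh, h]))
      rw [bb b e, bb b this]
  have hQs : star Q = Q := star_dg b hQ fun x => by rw [hQ]; split_ifs <;> simp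
  have hQQ : Q * Q = Q := ext_b b fun x => by
    by_cases e : (ε x).1 = 0 <;> simp [hQ, e]
  have hQB : ∀ m, m ≠ 0 → Q * B m * Q = 0 := fun m hm => ext_b b fun x => by
    by_cases e : (ε x).1 = 0 <;> simp [hQ, e, hB, hsh, hm]
  have hin : ∀ m ξ, ‖B m ξ‖ = ‖ξ‖ := fun m =>
    (B m).norm_map_iff_adjoint_comp_self.mpr (by
      change star (B m) * B m = 1
      rw [hBs, hBB, add_neg_cancel, hB0])
  have ho : ∀ m n, m ≠ n → ∀ ξ η, inner ℂ ((B m * Q) ξ) ((B n * Q) η) = 0 := fun m n h ξ η => by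
    rw [← ContinuousLinearMap.adjoint_inner_right, ← ContinuousLinearMap.star_eq_adjoint,
      star_mul, hQs, hBs, ← mul_apply_eq_comp, ← mul_assoc, mul_assoc Q, hBB,
      hQB _ (by omega)]
    simp
  have hd : ∀ x, ∃ m ξ, b x = (B m * Q) ξ := fun x => ⟨(ε x).1, b (sh (-(ε x).1) x), by
    simp only [mul_apply_eq_comp, hQ, hsh, add_neg_cancel, if_true, one_smul, hB]
    congr 1
    apply ε.injective
    simp [hsh]⟩
  have ext2 : ∀ A A' : H →L[ℂ] H, (∀ m, A * (B m * Q) = A' * (B m * Q)) → A = A' :=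
    fun A A' h => ext_b b fun x => by
      obtain ⟨m, ξ, e⟩ := hd x
      rw [e, ← mul_apply_eq_comp, h, mul_apply_eq_comp]
  have amp : ∀ g : H →L[ℂ] H, Commute g Q → ∃ D : H →L[ℂ] H, ∀ m,
      D * (B m * Q) = B m * Q * (if 1 ≤ m then g else 1) := by
    intro g hg
    obtain ⟨D, hD⟩ := ext_op b (fun m => ((B m * Q : H →L[ℂ] H) : H →ₗ[ℂ] H))
      (fun m => ((B m * Q * (if 1 ≤ m then g else 1) : H →L[ℂ] H) : H →ₗ[ℂ] H))
      (K := ‖g‖ + 1) (by positivity) ho (fun m n h ξ η => ho m n h _ _) (fun m ξ => by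
        simp only [ContinuousLinearMap.coe_coe, mul_apply_eq_comp, hin]
        split_ifs
        · rw [← mul_apply_eq_comp, ← hg.eq, mul_apply_eq_comp]
          nlinarith [g.le_opNorm (Q ξ), norm_nonneg (Q ξ)]
        · rw [one_apply_eq_self]
          nlinarith [norm_nonneg g, norm_nonneg (Q ξ)]) hd
    exact ⟨D, fun m => ContinuousLinearMap.ext fun ξ => hD m ξ⟩
  have cG : Commute G Q := by
    have := h3.trans h4.symm
    rw [mul_sub, sub_mul, mul_one, one_mul, sub_right_inj] at this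
    exact this
  have cG' : Commute G' Q := by
    calc G' * Q = G' * Q * (G * G') := by rw [h1, mul_one]
      _ = G' * (Q * G) * G' := by simp only [mul_assoc]
      _ = Q * G' := by rw [← cG.eq, ← mul_assoc, h2, one_mul]
  obtain ⟨D, hD⟩ := amp G cG
  obtain ⟨D', hD'⟩ := amp G' cG'
  have e1 : D * D' = 1 := ext2 _ _ fun m => by
    rw [mul_assoc, hD', ← mul_assoc, hD, one_mul, mul_assoc]
    split_ifs <;> simp [h1]
  have e2 : D' * D = 1 := ext2 _ _ fun m => by
    rw [mul_assoc, hD, ← mul_assoc, hD', one_mul, mul_assoc]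
    split_ifs <;> simp [h2]
  have e3 : B 1 * G * D = D * B 1 := ext2 _ _ fun m => by
    rw [mul_assoc, hD, mul_assoc D, ← mul_assoc (B 1) (B m), hBB, hD]
    by_cases hm : m = 0
    · simp [hm, hB0, mul_assoc, cG.eq]
    · have e : B m * Q = (1 - Q) * (B m * Q) := by
        rw [sub_mul, one_mul, ← mul_assoc, hQB m hm, sub_zero]
      have e' : (1 ≤ m + 1) = (1 ≤ m) := propext (by omega)
      rw [← mul_assoc, mul_assoc (B 1), e, ← mul_assoc G, h3, ← e, ← mul_assoc, hBB]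
      simp only [e']
  refine ⟨U * B (-1), D * B 1 * D', pm_I2 b (j * sh (-1)) fun x => by simp [hB, hU],
    (pm_I2 b (sh 1) (hB 1)).conj e1 e2, ?_⟩
  rw [← e3, mul_assoc (B 1 * G), e1, mul_one, mul_assoc, ← mul_assoc (B (-1)), hBB,
    add_neg_cancel, hB0, one_mul]

end Pool.Agent.H86.Inv
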