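import Pool.Agent.H86.InvA

set_option autoImplicit false

namespace Pool.Agent.H86.Inv

open Cardinal

variable {H : Type} [NormedAddCommGroup H] [InnerProductSpace ℂ H]

theorem sgn (y x : H) {η : ℝ} (h : 0 ≤ η) :
    ∃ s : ℂ, ‖s‖ = η ∧ η * ‖x‖ ^ 2 ≤ ‖inner ℂ (y + s • x) x‖ := by
  have e : ∀ s : ℝ, (inner ℂ (y + (s : ℂ) • x) x).re = (inner ℂ y x).re + s * ‖x‖ ^ 2 := by
    intro s
    rw [inner_add_left, inner_smul_left, inner_self_eq_norm_sq_to_K]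
    simp [← Complex.ofReal_pow]
  rcases le_total 0 (inner ℂ y x).re with h1 | h1
  · refine ⟨η, by simpa using h, le_trans ?_ (Complex.re_le_norm _)⟩
    rw [e]
    linarith
  · refine ⟨(-η : ℝ), by simpa using h, le_trans ?_ (Complex.abs_re_le_norm _)⟩
    rw [e]
    refine le_trans ?_ (neg_le_abs _)
    linarith

theorem low (y x z : H) (s : ℂ) :
    ‖inner ℂ y z‖ - ‖s‖ * (‖x‖ * ‖z‖) ≤ ‖inner ℂ (y + s • x) z‖ := by
  have h1 := norm_sub_le (inner ℂ (y + s • x) z) (inner ℂ (s • x) z)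
  have h2 := norm_inner_le_norm (𝕜 := ℂ) (s • x) z
  rw [inner_add_left, add_sub_cancel_right, ← inner_add_left] at h1
  rw [norm_smul, mul_assoc] at h2
  linarith

theorem pre {m M : ℝ} (hm : 0 < m) (hM : 1 ≤ M) (hmM : m ≤ 1) : ∃ κ > 0, ∀ e u w : H, ‖e‖ = 1 →
    m ≤ ‖u‖ → ‖u‖ ≤ M → m ≤ ‖w‖ → ‖w‖ ≤ M → ∃ s r t : ℂ, ‖s • e + r • u + t • w‖ ≤ 8 ∧
      inner ℂ (s • e + r • u + t • w) e = 1 ∧ κ ≤ ‖inner ℂ (s • e + r • u + t • w) u‖ ∧
      κ ≤ ‖inner ℂ (s • e + r • u + t • w) w‖ := by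
  set η := 1 / (2 * M) with hη
  set ρ := η * m ^ 2 / (2 * M ^ 2) with hρ
  have η0 : 0 < η := by positivity
  have ρ0 : 0 < ρ := by positivity
  have e1 : η * M = 1 / 2 := by rw [hη]; field_simp
  have e2 : ρ * M ^ 2 = η * m ^ 2 / 2 := by rw [hρ]; field_simp
  have e3 : ρ * M ≤ 1 / 4 := by
    have : m ^ 2 ≤ 1 := by nlinarith
    have : η ≤ 1 / 2 := by nlinarith
    nlinarith
  refine ⟨ρ * m ^ 2 / 2, by positivity, fun e u w he u1 u2 w1 w2 => ?_⟩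
  obtain ⟨r, hr, h1⟩ := sgn e u η0.le
  obtain ⟨t, ht, h2⟩ := sgn (e + r • u) w ρ0.le
  have h3 := low (e + r • u) w u t
  have h4 := low (e + r • u) w e t
  have h5 := low e u e r
  have ee : ‖inner ℂ e e‖ = 1 := by rw [inner_self_eq_norm_sq_to_K, he]; simp
  rw [ee] at h5
  simp only [he, hr, ht, mul_one] at h3 h4 h5
  set y := e + r • u + t • w with hy
  have n1 : η * ‖u‖ ≤ 1 / 2 := by nlinarith
  have n2 : ρ * ‖w‖ ≤ 1 / 4 := by nlinarith
  have hy2 : ‖y‖ ≤ 2 := by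
    have := norm_add₃_le (a := e) (b := r • u) (c := t • w)
    rw [norm_smul, norm_smul, he, hr, ht] at this
    linarith
  have h6 : 1 / 4 ≤ ‖inner ℂ y e‖ := by linarith
  have h7 : ‖inner ℂ y e‖ ≤ 2 := by
    simpa [he] using (norm_inner_le_norm (𝕜 := ℂ) y e).trans (by simpa [he] using hy2)
  have h0 : inner ℂ y e ≠ 0 := fun h => by rw [h, norm_zero] at h6; norm_num at h6
  set c := starRingEnd ℂ (inner ℂ y e)⁻¹ with hc
  have hc' : ‖c‖ * ‖inner ℂ y e‖ = 1 := by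
    rw [hc, RCLike.norm_conj, ← norm_mul, inv_mul_cancel₀ h0, norm_one]
  have e4 : c • e + (c * r) • u + (c * t) • w = c • y := by
    simp only [hy, smul_add, mul_smul]
  have c1 : 1 / 2 ≤ ‖c‖ := by nlinarith [norm_nonneg c]
  have c2 : ‖c‖ ≤ 4 := by nlinarith [norm_nonneg c]
  have u3 : m ^ 2 ≤ ‖u‖ ^ 2 := pow_le_pow_left₀ hm.le u1 2
  have w3 : m ^ 2 ≤ ‖w‖ ^ 2 := pow_le_pow_left₀ hm.le w1 2
  have uw : ‖w‖ * ‖u‖ ≤ M ^ 2 := by nlinarith [norm_nonneg u]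
  refine ⟨c, c * r, c * t, ?_⟩
  have e5 : ‖starRingEnd ℂ c‖ = ‖c‖ := RCLike.norm_conj c
  rw [e4, norm_smul, inner_smul_left, inner_smul_left, inner_smul_left, norm_mul, norm_mul, e5]
  have fin : ∀ z : ℝ, ρ * m ^ 2 ≤ z → ρ * m ^ 2 / 2 ≤ ‖c‖ * z := fun z hz => by
    have := mul_le_mul c1 hz (by positivity) (norm_nonneg c)
    linarith
  refine ⟨(mul_le_mul c2 hy2 (norm_nonneg _) (by norm_num)).trans (by norm_num),
    by rw [hc, Complex.conj_conj, inv_mul_cancel₀ h0], fin _ ?_, fin _ ?_⟩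
  · have a1 : ρ * m ^ 2 ≤ ρ * M ^ 2 := by gcongr; linarith
    have a2 := mul_le_mul_of_nonneg_left u3 η0.le
    have a3 := mul_le_mul_of_nonneg_left uw ρ0.le
    linarith
  · exact (mul_le_mul_of_nonneg_left w3 ρ0.le).trans h2

/-- a unit vector and a functional living in `Φ` -/
structure Pc (T T' S : H →L[ℂ] H) (K : ℝ) (Φ : Submodule ℂ H) (v y : H) : Prop where
  v0 : v ∈ Φ
  v1 : T v ∈ Φ
  v2 : T' v ∈ Φ
  y0 : y ∈ Φ
  y1 : S y ∈ Φ
  nv : ‖v‖ = 1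
  ny : ‖y‖ ≤ K
  yv : inner ℂ y v = 1

variable {T T' S : H →L[ℂ] H} {K : ℝ}

theorem mix {Φ Ψ : Submodule ℂ H} {v y v' y' : H} (h : Pc T T' S K Φ v y) (h' : Pc T T' S K Ψ v' y')
    (ho : Φ ⟂ Ψ) {γ n n' : ℂ} (hn : n = inner ℂ y (T v) - γ * inner ℂ y (T' v))
    (hn' : n' = inner ℂ y' (T v') - γ * inner ℂ y' (T' v')) (h1 : ‖n‖ ≤ 2 * ‖n - n'‖)
    (h2 : ‖n'‖ ≤ 2 * ‖n - n'‖) :
    ∃ w z, Pc T T' S (6 * K) (Φ ⊔ Ψ) w z ∧ inner ℂ z (T w) = γ * inner ℂ z (T' w) := by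
  obtain ⟨α, β, e1, e2, a2, b2⟩ : ∃ α β : ℂ, α + β = 1 ∧ α * n + β * n' = 0 ∧ ‖α‖ ≤ 2 ∧
      ‖β‖ ≤ 2 := by
    by_cases e : n - n' = 0
    · rw [e, norm_zero, mul_zero, norm_le_zero_iff] at h1
      exact ⟨1, 0, by simp, by simp [h1], by simp, by simp⟩
    · have := norm_pos_iff.mpr e
      refine ⟨-n' / (n - n'), n / (n - n'), by field_simp; ring, by field_simp; ring, ?_, ?_⟩
      · rwa [norm_div, norm_neg, div_le_iff₀ this]
      · rwa [norm_div, div_le_iff₀ this]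
  have o1 : ∀ {p q}, p ∈ Φ → q ∈ Ψ → inner ℂ p q = 0 := fun hp hq => ho.inner_eq hp hq
  have o2 : ∀ {p q}, p ∈ Ψ → q ∈ Φ → inner ℂ p q = 0 := fun hp hq => ho.symm.inner_eq hp hq
  have m : ∀ (s t : ℂ) {p q}, p ∈ Φ → q ∈ Ψ → s • p + t • q ∈ Φ ⊔ Ψ := fun s t _ _ hp hq =>
    Submodule.add_mem_sup (Φ.smul_mem _ hp) (Ψ.smul_mem _ hq)
  have hK : 0 ≤ K := (norm_nonneg _).trans h.ny
  refine ⟨(3 / 5 : ℂ) • v + (4 / 5 : ℂ) • v', starRingEnd ℂ (5 / 3 * α) • y +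
    starRingEnd ℂ (5 / 4 * β) • y', ⟨m _ _ h.v0 h'.v0, ?_, ?_, m _ _ h.y0 h'.y0, ?_, ?_, ?_, ?_⟩, ?_⟩
  · simpa using m _ _ h.v1 h'.v1
  · simpa using m _ _ h.v2 h'.v2
  · simpa only [map_add, map_smul] using m _ _ h.y1 h'.y1
  · have := norm_add_sq_eq_norm_sq_add_norm_sq_of_inner_eq_zero (𝕜 := ℂ) ((3 / 5 : ℂ) • v)
      ((4 / 5 : ℂ) • v') (o1 (Φ.smul_mem _ h.v0) (Ψ.smul_mem _ h'.v0))
    rw [norm_smul, norm_smul, h.nv, h'.nv] at this
    norm_num at this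
    exact (mul_self_eq_one_iff.mp this).resolve_right fun e => by
      linarith [norm_nonneg ((3 / 5 : ℂ) • v + (4 / 5 : ℂ) • v')]
  · refine (norm_add_le _ _).trans ?_
    rw [norm_smul, norm_smul, RCLike.norm_conj, RCLike.norm_conj, norm_mul, norm_mul]
    have e3 : ‖(5 / 3 : ℂ)‖ = 5 / 3 := by simp
    have e4 : ‖(5 / 4 : ℂ)‖ = 5 / 4 := by simp
    rw [e3, e4]
    nlinarith [mul_le_mul a2 h.ny (norm_nonneg _) two_pos.le,
      mul_le_mul b2 h'.ny (norm_nonneg _) two_pos.le]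
  · simp only [inner_add_left, inner_add_right, inner_smul_left, inner_smul_right, h.yv, h'.yv,
      o1 h.y0 h'.v0, o2 h'.y0 h.v0, Complex.conj_conj]
    linear_combination e1
  · simp only [map_add, map_smul, inner_add_left, inner_add_right, inner_smul_left,
      inner_smul_right, o1 h.y0 h'.v1, o2 h'.y0 h.v1, o1 h.y0 h'.v2, o2 h'.y0 h.v2,
      Complex.conj_conj]
    rw [hn, hn'] at e2
    linear_combination e2

/-- two orthogonal pieces with a common ratio -/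
def Pair (T T' S : H →L[ℂ] H) (K κ : ℝ) (Θ : Submodule ℂ H) : Prop :=
  ∃ (γ : ℂ) (Ψ : Bool → Submodule ℂ H) (v y : Bool → H), κ ≤ ‖γ‖ ∧ κ * ‖γ‖ ≤ 1 ∧
    Ψ true ⟂ Ψ false ∧ ∀ β, Ψ β ≤ Θ ∧ Pc T T' S K (Ψ β) (v β) (y β) ∧
      inner ℂ (y β) (T (v β)) = γ * inner ℂ (y β) (T' (v β))

theorem triple {Φ : Fin 3 → Submodule ℂ H} {v y : Fin 3 → H} {κ L : ℝ} (hκ : 0 < κ)
    (h : ∀ i, Pc T T' S K (Φ i) (v i) (y i)) (ho : ∀ i j, i ≠ j → Φ i ⟂ Φ j)
    (ha : ∀ i, κ ≤ ‖inner ℂ (y i) (T (v i))‖ ∧ ‖inner ℂ (y i) (T (v i))‖ ≤ L)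
    (hb : ∀ i, κ ≤ ‖inner ℂ (y i) (T' (v i))‖ ∧ ‖inner ℂ (y i) (T' (v i))‖ ≤ L) :
    Pair T T' S (6 * K) (κ / L) (⨆ i, Φ i) := by
  set a := fun i => inner ℂ (y i) (T (v i)) with ea
  set c := fun i => inner ℂ (y i) (T' (v i)) with ec
  have hL : 0 < L := hκ.trans_le ((ha 0).1.trans (ha 0).2)
  have key : ∀ i j k, i ≠ j → i ≠ k → j ≠ k →
      ‖a j * c i - a i * c j‖ ≤ 2 * ‖(a j * c i - a i * c j) - (a k * c i - a i * c k)‖ →
      ‖a k * c i - a i * c k‖ ≤ 2 * ‖(a j * c i - a i * c j) - (a k * c i - a i * c k)‖ →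
      Pair T T' S (6 * K) (κ / L) (⨆ i, Φ i) := by
    intro i j k ij ik jk h1 h2
    have c0 : 0 < ‖c i‖ := hκ.trans_le (hb i).1
    have c1 : c i ≠ 0 := norm_pos_iff.mp c0
    have e : ∀ l, a l - a i / c i * c l = (a l * c i - a i * c l) / c i := fun l => by field_simp
    obtain ⟨w, z, p1, p2⟩ := mix (h j) (h k) (ho j k jk) (γ := a i / c i) (e j).symm (e k).symm
      (by rw [← sub_div, norm_div, norm_div, ← mul_div_assoc]; gcongr)
      (by rw [← sub_div, norm_div, norm_div, ← mul_div_assoc]; gcongr)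
    refine ⟨a i / c i, fun β => cond β (Φ i) (Φ j ⊔ Φ k), fun β => cond β (v i) w,
      fun β => cond β (y i) z, ?_, ?_, Submodule.isOrtho_sup_right.mpr ⟨ho _ _ ij, ho _ _ ik⟩, ?_⟩
    · rw [norm_div]
      exact div_le_div₀ (norm_nonneg _) (ha i).1 c0 (hb i).2
    · rw [norm_div, div_mul_div_comm, div_le_one (by positivity), mul_comm]
      exact mul_le_mul (ha i).2 (hb i).1 hκ.le hL.le
    · rintro (_ | _)
      · exact ⟨sup_le (le_iSup Φ j) (le_iSup Φ k), p1, p2⟩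
      · have hK : 0 ≤ K := (norm_nonneg _).trans (h i).ny
        exact ⟨le_iSup Φ i, { h i with ny := (h i).ny.trans (by linarith) },
          (div_mul_cancel₀ _ c1).symm⟩
  set p := a 0 * c 1 - a 1 * c 0 with hp
  set q := a 1 * c 2 - a 2 * c 1 with hq
  set r := a 2 * c 0 - a 0 * c 2 with hr
  have t : ∀ x y z : ℂ, 2 * ‖x‖ ≤ ‖x + y‖ + ‖y + z‖ + ‖z + x‖ := fun x y z => by
    have h1 := norm_sub_le (x + y + (z + x)) (y + z)
    have h2 := norm_add_le (x + y) (z + x)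
    have h3 : x + y + (z + x) - (y + z) = 2 * x := by ring
    rw [h3, norm_mul, Complex.norm_two] at h1
    linarith
  have t1 := t p q r
  have t2 := t q r p
  have t3 := t r p q
  have k0 := key 0 1 2 (by decide) (by decide) (by decide)
  have k1 := key 1 2 0 (by decide) (by decide) (by decide)
  have k2 := key 2 0 1 (by decide) (by decide) (by decide)
  rw [show a 1 * c 0 - a 0 * c 1 = -p by ring, ← hr, show -p - r = -(r + p) by ring,
    norm_neg, norm_neg] at k0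
  rw [show a 2 * c 1 - a 1 * c 2 = -q by ring, ← hp, show -q - p = -(p + q) by ring,
    norm_neg, norm_neg] at k1
  rw [show a 0 * c 2 - a 2 * c 0 = -r by ring, ← hq, show -r - q = -(q + r) by ring,
    norm_neg, norm_neg] at k2
  have n1 := norm_nonneg (p + q)
  have n2 := norm_nonneg (q + r)
  have n3 := norm_nonneg (r + p)
  rcases le_total ‖p + q‖ ‖q + r‖ with c1 | c1 <;> rcases le_total ‖q + r‖ ‖r + p‖ with c2 | c2 <;>
    rcases le_total ‖r + p‖ ‖p + q‖ with c3 | c3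
  all_goals first
    | exact k0 (by linarith) (by linarith)
    | exact k1 (by linarith) (by linarith)
    | exact k2 (by linarith) (by linarith)

theorem family [CompleteSpace H] (hH : ¬FiniteDimensional ℂ H) (g : Fin 6 → H →L[ℂ] H)
    (g0 : g 0 = 1) : ∃ s : Set H, s.Infinite ∧ (∀ e ∈ s, ‖e‖ = 1) ∧
      (s.Pairwise fun e e' => Submodule.span ℂ (Set.range fun k => g k e) ⟂
        Submodule.span ℂ (Set.range fun k => g k e')) ∧
      ∀ (X : Type) (b : X → H), Orthonormal ℂ b → #X ≤ #s := by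
  let Φ : H → Submodule ℂ H := fun e => Submodule.span ℂ (Set.range fun k => g k e)
  obtain ⟨s, hs⟩ := zorn_subset {s : Set H | (∀ e ∈ s, ‖e‖ = 1) ∧ s.Pairwise fun e e' => Φ e ⟂ Φ e'}
    fun c hc hch => ⟨⋃₀ c, ⟨fun e ⟨t, ht, he⟩ => (hc ht).1 e he,
      fun e ⟨t, ht, he⟩ e' ⟨t', ht', he'⟩ hne => by
        rcases hch.total ht ht' with h | h
        · exact (hc ht').2 (h he) he' hne
        · exact (hc ht).2 he (h he') hne⟩, fun t ht => Set.subset_sUnion_of_mem ht⟩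
  let D : s × Fin 6 × Fin 6 → H := fun p => star (g p.2.1) (g p.2.2 p.1)
  have hD : ∀ ξ, (∀ p, inner ℂ (D p) ξ = 0) → ξ = 0 := by
    intro ξ hξ
    by_contra h0
    set u := ((‖ξ‖⁻¹ : ℝ) : ℂ) • ξ with hu
    have u1 : ‖u‖ = 1 := by simp [hu, norm_smul, h0]
    have u2 : ∀ e ∈ s, Φ e ⟂ Φ u := fun e he => Submodule.isOrtho_span.mpr (by
      rintro _ ⟨k, rfl⟩ _ ⟨l, rfl⟩
      have := hξ (⟨e, he⟩, l, k)
      simp only [D, ContinuousLinearMap.star_eq_adjoint,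
        ContinuousLinearMap.adjoint_inner_left] at this
      simp [hu, inner_smul_right, this])
    have u3 : u ∈ s := hs.le_of_ge (y := insert u s) ⟨by simpa [u1] using hs.prop.1,
      hs.prop.2.insert fun e he _ => ⟨(u2 e he).symm, u2 e he⟩⟩ (Set.subset_insert _ _)
        (Set.mem_insert _ _)
    have u4 : u ∈ Φ u := Submodule.subset_span ⟨0, by simp [g0]⟩
    have := (u2 u u3).inner_eq u4 u4
    rw [inner_self_eq_zero] at this
    simp [this] at u1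
  have hi : s.Infinite := fun hf => by
    haveI := hf.to_subtype
    let V := Submodule.span ℂ (Set.range D)
    haveI : FiniteDimensional ℂ V := FiniteDimensional.span_of_finite ℂ (Set.finite_range D)
    have : V = ⊤ := Submodule.orthogonal_eq_bot_iff.mp (eq_bot_iff.mpr fun ξ hξ =>
      hD ξ fun p => hξ _ (Submodule.subset_span ⟨p, rfl⟩))
    exact hH (Module.Finite.equiv (LinearEquiv.ofTop V this))
  refine ⟨s, hi, hs.prop.1, hs.prop.2, fun X b hb => ?_⟩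
  haveI := hi.to_subtype
  have h1 : (Set.univ : Set X) ⊆ ⋃ p, {x | inner ℂ (b x) (D p) ≠ 0} := fun x _ => by
    by_contra h
    simp only [Set.mem_iUnion, not_exists, Set.mem_ofPred_eq, not_not] at h
    have := hD (b x) fun p => inner_eq_zero_symm.mp (h p)
    simpa [this] using hb.1 x
  have h2 : ∀ p, #{x | inner ℂ (b x) (D p) ≠ 0} ≤ ℵ₀ := fun p =>
    le_aleph0_iff_set_countable.mpr ((hb.inner_products_summable (D p)).countable_support.mono
      fun x hx => by simpa using hx)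
  calc #X = #(Set.univ : Set X) := mk_univ.symm
    _ ≤ _ := mk_le_mk_of_subset h1
    _ ≤ _ := mk_iUnion_le _
    _ ≤ #(s × Fin 6 × Fin 6) * ℵ₀ := by gcongr; exact ciSup_le' h2
    _ = #s := by
      have h3 : ℵ₀ ≤ #s := aleph0_le_mk s
      rw [mk_prod, lift_id, lift_id, mul_eq_left h3 ((mk_le_aleph0).trans h3) (mk_ne_zero _),
        mul_eq_left h3 h3 aleph0_ne_zero]

end Pool.Agent.H86.Inv
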