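import Pool.Agent.H86.InvB

set_option autoImplicit false

namespace Pool.Agent.H86.Inv

variable {H : Type} [NormedAddCommGroup H] [InnerProductSpace ℂ H] [CompleteSpace H]
variable {X : Type} (b : HilbertBasis X ℂ H)

theorem op_in {Φ : X → Submodule ℂ H} (ho : ∀ x y, x ≠ y → Φ x ⟂ Φ y) (u : X → H)
    (hu : ∀ x, u x ∈ Φ x) {K : ℝ} (h0 : 0 ≤ K) (hK : ∀ x, ‖u x‖ ≤ K) :
    ∃ D : H →L[ℂ] H, (∀ x, D (b x) = u x) ∧
      ∀ x, ∀ ξ ∈ Φ x, star D ξ = inner ℂ (u x) ξ • b x := by
  obtain ⟨D, hD⟩ := exists_op b u h0 hK fun x y h => (ho x y h).inner_eq (hu x) (hu y)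
  refine ⟨D, hD, fun x ξ hξ => vec_ext b fun q => ?_⟩
  rw [ContinuousLinearMap.star_eq_adjoint, ContinuousLinearMap.adjoint_inner_right, hD,
    inner_smul_right]
  by_cases e : q = x
  · rw [e, b1, mul_one]
  · rw [bb b e, mul_zero, (ho q x e).inner_eq (hu q) hξ]

theorem exists_refl {Φ : X → Submodule ℂ H} (ho : ∀ x y, x ≠ y → Φ x ⟂ Φ y) (σ : X → ℂ)
    (hσ : ∀ x, σ x = 1 ∨ σ x = -1) : ∃ Z : H →L[ℂ] H, star Z = Z ∧ Z * Z = 1 ∧
      ∀ x, ∀ ξ ∈ Φ x, Z ξ = -σ x • ξ := by
  let G : Submodule ℂ H := ⨆ x : {x // σ x = 1}, Φ x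
  let R := Gᗮ.starProjection
  have r1 : R * R = R := Gᗮ.isIdempotentElem_starProjection
  have r2 : star R = R := isSelfAdjoint_starProjection Gᗮ
  refine ⟨R + R - 1, by simp [r2], ?_, fun x ξ hξ => ?_⟩
  · simp only [mul_sub, sub_mul, mul_add, add_mul, r1, mul_one, one_mul]
    abel
  · rcases hσ x with h | h
    · have : R ξ = 0 := Gᗮ.starProjection_apply_eq_zero_iff.mpr
        (G.le_orthogonal_orthogonal (le_iSup (fun x : {x // σ x = 1} => Φ x) ⟨x, h⟩ hξ))
      simp [this, h]
    · have h1 : Φ x ⟂ G := Submodule.isOrtho_iSup_right.mpr fun y => ho _ _ fun e => by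
        have := y.2
        rw [← e, h] at this
        norm_num at this
      have : R ξ = ξ := Submodule.starProjection_eq_self_iff.mpr (h1 hξ)
      simp [this, h]

theorem jstep {T T' P C : H →L[ℂ] H} (hT : T' * T = 1) (s : X → Prop) [DecidablePred s]
    {Φ : X → Submodule ℂ H} (ho : ∀ x y, x ≠ y → Φ x ⟂ Φ y) (y : X → H) (c : X → ℂ) {K M : ℝ}
    (hK : 0 ≤ K) (hM : 0 ≤ M) (hc : ∀ x, c x ≠ 0 ∧ ‖c x‖ ≤ M ∧ ‖(c x)⁻¹‖ ≤ M)
    (hp : ∀ x, s x → Pc T T' (star T') K (Φ x) (b x) (y x) ∧
      inner ℂ (y x) (T (b x)) = c x ^ 2 * inner ℂ (y x) (T' (b x)))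
    (hP : ∀ x, P (b x) = (if s x then (1 : ℂ) else 0) • b x) (hC : ∀ x, C (b x) = c x • b x) :
    ∃ J g g' : H →L[ℂ] H, J * J = 1 ∧ g * g' = 1 ∧ g' * g = 1 ∧
      g' * (J * T) * g * P = C * P ∧ P * (g' * (J * T) * g) = C * P := by
  let t : X → ℂ := fun x => c x * inner ℂ (y x) (T' (b x))
  let σ : X → ℂ := fun x => if 0 ≤ (t x).re then 1 else -1
  have hσ : ∀ x, σ x = 1 ∨ σ x = -1 := fun x => by simp only [σ]; split_ifs <;> simp
  have σ1 : ∀ x, ‖σ x‖ = 1 := fun x => by rcases hσ x with h | h <;> simp [h]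
  have σ2 : ∀ x, σ x * σ x = 1 := fun x => by rcases hσ x with h | h <;> simp [h]
  have σ3 : ∀ x, starRingEnd ℂ (σ x) = σ x := fun x => by rcases hσ x with h | h <;> simp [h]
  have t1 : ∀ x, 1 ≤ ‖1 + σ x * t x‖ := fun x => by
    refine le_trans ?_ (Complex.re_le_norm _)
    simp only [σ]
    split_ifs with h <;> simp <;> linarith
  have t0 : ∀ x, 1 + σ x * t x ≠ 0 := fun x h => by
    have := t1 x
    rw [h, norm_zero] at this
    norm_num at this
  obtain ⟨Z, z1, z2, z3⟩ := exists_refl ho σ hσ
  let m : X → H := fun x => if s x then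
    (σ x / (1 + σ x * t x)) • (b x + (σ x * (c x)⁻¹) • T (b x)) else 0
  let n : X → H := fun x => if s x then
    y x + starRingEnd ℂ (σ x * c x) • star T' (y x) else 0
  let w : X → H := fun x => if s x then y x else 0
  have m0 : ∀ x, m x ∈ Φ x := fun x => by
    simp only [m]
    split_ifs with h
    exacts [(Φ x).smul_mem _ ((Φ x).add_mem (hp x h).1.v0 ((Φ x).smul_mem _ (hp x h).1.v1)),
      (Φ x).zero_mem]
  have n0 : ∀ x, n x ∈ Φ x := fun x => by
    simp only [n]
    split_ifs with h
    exacts [(Φ x).add_mem (hp x h).1.y0 ((Φ x).smul_mem _ (hp x h).1.y1), (Φ x).zero_mem]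
  obtain ⟨A, a1, a2⟩ := op_in b ho m m0 (K := 1 + M * ‖T‖) (by positivity) fun x => by
    simp only [m]
    split_ifs with h
    · rw [norm_smul, norm_div, σ1]
      refine (mul_le_of_le_one_left (norm_nonneg _) (div_le_one_of_le₀ (t1 x)
        (norm_nonneg _))).trans ((norm_add_le _ _).trans ?_)
      rw [norm_smul, norm_mul, σ1, one_mul, (hp x h).1.nv]
      gcongr
      · exact (hc x).2.2
      · simpa [(hp x h).1.nv] using T.le_opNorm (b x)
    · rw [norm_zero]; positivity
  obtain ⟨B, b1', b2⟩ := op_in b ho n n0 (K := K + M * (‖star T'‖ * K)) (by positivity) fun x => by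
    simp only [n]
    split_ifs with h
    · refine (norm_add_le _ _).trans ?_
      rw [norm_smul, RCLike.norm_conj, norm_mul, σ1, one_mul]
      gcongr
      · exact (hp x h).1.ny
      · exact (hc x).2.1
      · exact (star T').le_of_opNorm_le_of_le le_rfl (hp x h).1.ny
    · rw [norm_zero]; positivity
  obtain ⟨Y, y1, y2⟩ := op_in b ho w (fun x => by
    simp only [w]
    split_ifs with h
    exacts [(hp x h).1.y0, (Φ x).zero_mem]) hK fun x => by
      simp only [w]
      split_ifs with h
      exacts [(hp x h).1.ny, by simpa using hK]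
  obtain ⟨D, hD⟩ := exists_dg b σ zero_le_one fun x => (σ1 x).le
  obtain ⟨C', hC'⟩ := exists_dg b (fun x => starRingEnd ℂ (c x)) hM fun x => by
    simpa using (hc x).2.1
  have d1 : star D = D := star_dg b hD fun x => by rw [hD, σ3]
  have sT : ∀ u v, inner ℂ (star T' u) v = inner ℂ u (T' v) := fun u v => by
    rw [ContinuousLinearMap.star_eq_adjoint, ContinuousLinearMap.adjoint_inner_left]
  have TT : ∀ u, T' (T u) = u := fun u => by rw [← mul_apply_eq_comp, hT, one_apply_eq_self]
  have i1 : ∀ x, s x → inner ℂ (n x) (b x) = 1 + σ x * t x := fun x h => by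
    simp only [n, h, if_true, inner_add_left, inner_smul_left, Complex.conj_conj, sT,
      (hp x h).1.yv, t, mul_assoc]
  have i2 : ∀ x, s x → inner ℂ (y x) (m x) = σ x := fun x h => by
    simp only [m, h, if_true, inner_add_right, inner_smul_right, (hp x h).1.yv, (hp x h).2]
    have := (hc x).1
    have := t0 x
    field_simp
    simp only [t]
    ring
  have i3 : ∀ x, s x → inner ℂ (n x) (m x) = 2 * σ x := fun x h => by
    have e : inner ℂ (star T' (y x)) (m x) = (c x)⁻¹ := by
      simp only [m, h, if_true, sT, map_smul, map_add, TT, inner_add_right, inner_smul_right,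
        (hp x h).1.yv]
      have := (hc x).1
      have := t0 x
      field_simp
      simp only [t]
      linear_combination (1 - σ x * (c x * inner ℂ (y x) (T' (b x))) * 0) * σ2 x
    simp only [n, h, if_true, inner_add_left, inner_smul_left, Complex.conj_conj, i2 x h, e]
    rw [mul_assoc, mul_inv_cancel₀ (hc x).1]
    ring
  have e1 : A * star B * A = A * D + A * D := ext_b b fun x => by
    simp only [mul_apply_eq_comp, add_apply, a1, b2 x _ (m0 x), hD, map_smul]
    by_cases h : s x
    · rw [i3 x h, two_mul, add_smul]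
    · simp [m, h]
  have e2 : Z * A = -(A * D) := ext_b b fun x => by simp [a1, z3 x _ (m0 x), hD]
  have e3 : star B * Z = -(D * star B) := by
    have : Z * B = -(B * D) := ext_b b fun x => by simp [b1', z3 x _ (n0 x), hD]
    simpa [z1, d1] using congrArg star this
  set J := Z + A * star B with hJ
  have j1 : J * J = 1 := by
    calc J * J = Z * Z + Z * A * star B + A * (star B * Z) + A * star B * A * star B := by
          simp only [hJ, mul_add, add_mul, mul_assoc]
          abel
      _ = 1 := by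
          rw [z2, e1, e2, e3]
          simp only [add_mul, neg_mul, mul_neg, mul_assoc]
          abel
  have j2 : ∀ x, s x → J (T (b x)) = c x • b x := fun x h => by
    have : T (b x) = c x • J (b x) := by
      simp only [hJ, mul_apply_eq_comp, add_apply, z3 x _ (hp x h).1.v0,
        b2 x _ (hp x h).1.v0, i1 x h, map_smul, a1, m, h, if_true]
      have := (hc x).1
      have := t0 x
      match_scalars
      · field_simp
        linear_combination -σ2 x
      · field_simp
        ring
    rw [this, map_smul, ← mul_apply_eq_comp, j1, one_apply_eq_self]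
  have j3 : ∀ x, s x → star (J * T) (y x) = starRingEnd ℂ (c x) • y x := fun x h => by
    have e : star T (star T' (y x)) = y x := by
      rw [← mul_apply_eq_comp, ← star_mul, hT, star_one, one_apply_eq_self]
    have : star J (y x) = starRingEnd ℂ (c x) • star T' (y x) := by
      simp only [hJ, star_add, star_mul, star_star, z1, mul_apply_eq_comp,
        add_apply, z3 x _ (hp x h).1.y0, a2 x _ (hp x h).1.y0, map_smul, b1']
      rw [← inner_conj_symm, i2 x h, σ3]
      simp only [n, h, if_true, map_mul, σ3]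
      match_scalars
      · ring
      · linear_combination starRingEnd ℂ (c x) * σ2 x
    rw [star_mul, mul_apply_eq_comp, this, map_smul, e]
  have p1 : star P = P := star_dg b hP fun x => by rw [hP]; split_ifs <;> simp
  have p2 : P * P = P := ext_b b fun x => by by_cases e : s x <;> simp [hP, e]
  have p3 : C * P = P * C := ext_b b fun x => by by_cases e : s x <;> simp [hP, hC, e]
  have l1 : star Y * P = P := ext_b b fun x => by
    by_cases e : s x
    · simp [hP, e, y2 x _ (hp x e).1.v0, w, (hp x e).1.yv]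
    · simp [hP, e]
  have l2 : P * star Y = star Y := by
    have : Y * P = Y := ext_b b fun x => by by_cases e : s x <;> simp [hP, e, y1, w]
    simpa [p1] using congrArg star this
  have l3 : star Y * (J * T) = C * star Y := by
    have : star (J * T) * Y = Y * C' := ext_b b fun x => by
      by_cases e : s x
      · simp only [mul_apply_eq_comp, y1, w, e, if_true, hC', map_smul]
        exact j3 x e
      · simp [y1, w, e, hC']
    have h := congrArg star this
    rwa [star_mul, star_star, star_mul Y, ← star_dg b hC hC', star_star] at h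
  have l4 : J * T * P = C * P := ext_b b fun x => by
    by_cases e : s x <;> simp [hP, hC, e, j2]
  generalize star Y = L at l1 l2 l3
  have l5 : L * L = L := by rw [← l2, ← mul_assoc, mul_assoc P, l1, p2]
  have g1 : (1 - L + P) * (1 + L - P) = 1 := by
    simp only [mul_add, add_mul, mul_sub, sub_mul, mul_one, one_mul, l1, l2, l5, p2]
    abel
  have g2 : (1 + L - P) * (1 - L + P) = 1 := by
    simp only [mul_add, add_mul, mul_sub, sub_mul, mul_one, one_mul, l1, l2, l5, p2]
    abel
  have g3 : (1 - L + P) * P = P := by simp [add_mul, sub_mul, l1, p2]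
  have g4 : (1 + L - P) * P = P := by simp [add_mul, sub_mul, l1, p2]
  have g5 : L * (1 - L + P) = P := by simp [mul_add, mul_sub, l1, l5]
  refine ⟨J, _, _, j1, g1, g2, ?_, ?_⟩
  · rw [mul_assoc, g3, mul_assoc, l4, p3, ← mul_assoc, g4]
  · conv_lhs => rw [← g5]
    rw [mul_assoc L, ← mul_assoc, g5, ← g5, ← mul_assoc, ← mul_assoc, mul_assoc L, g5, g1,
      mul_one, l3, mul_assoc, g5]

end Pool.Agent.H86.Inv
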