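import Pool.Agent.H86.InvC

set_option autoImplicit false

namespace Pool.Agent.H86.Inv

open Cardinal

variable {H : Type} [NormedAddCommGroup H] [InnerProductSpace ℂ H] [CompleteSpace H]

theorem pairs (hH : ¬FiniteDimensional ℂ H) {T T' : H →L[ℂ] H} (h1 : T * T' = 1) (h2 : T' * T = 1) :
    ∃ (I : Type) (_ : Infinite I) (κ : ℝ) (Θ : I → Submodule ℂ H), 0 < κ ∧
      (∀ i j, i ≠ j → Θ i ⟂ Θ j) ∧ (∀ i, Pair T T' (star T') (6 * 8) κ (Θ i)) ∧
      ∀ (X : Type) (b : X → H), Orthonormal ℂ b → #X ≤ #I := by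
  set M := ‖T‖ + ‖T'‖ + 1 with hM
  have M0 : 1 ≤ M := by linarith [norm_nonneg T, norm_nonneg T']
  have bd : ∀ A A' : H →L[ℂ] H, A' * A = 1 → ‖A‖ ≤ M → ‖A'‖ ≤ M → ∀ e : H, ‖e‖ = 1 →
      1 / M ≤ ‖A e‖ ∧ ‖A e‖ ≤ M := fun A A' h a a' e he => by
    have e1 := A'.le_of_opNorm_le a' (A e)
    rw [← mul_apply_eq_comp, h, one_apply_eq_self, he] at e1
    exact ⟨(div_le_iff₀' (by positivity)).mpr e1, by simpa [he] using A.le_of_opNorm_le a e⟩
  have t1 : ‖T‖ ≤ M := by linarith [norm_nonneg T']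
  have t2 : ‖T'‖ ≤ M := by linarith [norm_nonneg T]
  obtain ⟨κ, κ0, hκ⟩ := pre (H := H) (m := 1 / M) (by positivity) M0
    (div_le_one_of_le₀ M0 (by positivity))
  let g : Fin 6 → H →L[ℂ] H := ![1, T, T', star T', star T' * T, star T' * T']
  obtain ⟨s, hi, s1, s2, s3⟩ := family hH g rfl
  haveI := hi.to_subtype
  let Φ : H → Submodule ℂ H := fun e => Submodule.span ℂ (Set.range fun k => g k e)
  have hy : ∀ e : s, ∃ y, Pc T T' (star T') 8 (Φ e) e y ∧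
      (κ ≤ ‖inner ℂ y (T e)‖ ∧ ‖inner ℂ y (T e)‖ ≤ 8 * M) ∧
      (κ ≤ ‖inner ℂ y (T' e)‖ ∧ ‖inner ℂ y (T' e)‖ ≤ 8 * M) := by
    rintro ⟨e, he⟩
    have a := bd T T' h2 t1 t2 e (s1 e he)
    have a' := bd T' T h1 t2 t1 e (s1 e he)
    obtain ⟨p, q, r, y1, y2, y3, y4⟩ := hκ e _ _ (s1 e he) a.1 a.2 a'.1 a'.2
    have m : ∀ k, g k e ∈ Φ e := fun k => Submodule.subset_span ⟨k, rfl⟩
    have l : ∀ {x y z}, x ∈ Φ e → y ∈ Φ e → z ∈ Φ e → p • x + q • y + r • z ∈ Φ e :=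
      fun hx hy hz => (Φ e).add_mem ((Φ e).add_mem ((Φ e).smul_mem _ hx) ((Φ e).smul_mem _ hy))
        ((Φ e).smul_mem _ hz)
    refine ⟨_, ⟨m 0, m 1, m 2, l (m 0) (m 1) (m 2), ?_, s1 e he, y1, y2⟩, ⟨y3, ?_⟩, y4, ?_⟩
    · simp only [map_add, map_smul]
      exact l (m 3) (m 4) (m 5)
    · exact (norm_inner_le_norm _ _).trans (mul_le_mul y1 a.2 (norm_nonneg _) (by norm_num))
    · exact (norm_inner_le_norm _ _).trans (mul_le_mul y1 a'.2 (norm_nonneg _) (by norm_num))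
  choose y hy using hy
  obtain ⟨e⟩ : Nonempty (s × Fin 3 ≃ s) := Cardinal.eq.mp (by
    have h3 : ℵ₀ ≤ #s := aleph0_le_mk s
    rw [mk_prod, lift_id, lift_id, mul_eq_left h3 ((mk_le_aleph0).trans h3) (mk_ne_zero _)])
  have ho : ∀ p q, p ≠ q → Φ (e p) ⟂ Φ (e q) := fun p q h =>
    s2 (e p).2 (e q).2 fun h' => h (e.injective (Subtype.ext h'))
  refine ⟨s, inferInstance, κ / (8 * M), fun i => ⨆ k, Φ (e (i, k)), by positivity,
    fun i j h => ?_, fun i => triple κ0 (fun k => (hy _).1) (fun k l h => ho _ _ (by simpa using h))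
      (fun k => (hy _).2.1) fun k => (hy _).2.2, s3⟩
  exact Submodule.isOrtho_iSup_left.mpr fun k => Submodule.isOrtho_iSup_right.mpr fun l =>
    ho _ _ (by simp [h])

theorem basis_ext {ι : Type} {v : ι → H} (hv : Orthonormal ℂ v) :
    ∃ (Z : Type) (b : HilbertBasis (ι ⊕ Z) ℂ H), ∀ i, b (.inl i) = v i := by
  obtain ⟨w, b, h1, h2⟩ := hv.toSubtypeRange.exists_hilbertBasis_extension
  let φ : ι ⊕ {x : w // (x : H) ∉ Set.range v} → w :=
    Sum.elim (fun i => ⟨v i, h1 ⟨i, rfl⟩⟩) Subtype.val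
  have i1 : Function.Injective φ := by
    rintro (i | x) (j | y) h
    · rw [hv.linearIndependent.injective (congrArg Subtype.val h)]
    · exact absurd ⟨i, congrArg Subtype.val h⟩ y.2
    · exact absurd ⟨j, (congrArg Subtype.val h).symm⟩ x.2
    · rw [Subtype.ext h]
  have i2 : Function.Surjective φ := fun x => by
    by_cases h : (x : H) ∈ Set.range v
    · obtain ⟨i, hi⟩ := h
      exact ⟨.inl i, Subtype.ext hi⟩
    · exact ⟨.inr ⟨x, h⟩, rfl⟩
  refine ⟨_, HilbertBasis.mk (b.orthonormal.comp φ i1) (by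
    rw [i2.range_comp, b.dense_span]), fun i => ?_⟩
  rw [HilbertBasis.coe_mk, h2]
  rfl

/-- the index bijection -/
def eps {I Z : Type} (η : I ≃ {n : ℤ // n ≠ 0} × (I ⊕ Z)) : (I × Bool) ⊕ Z ≃ ℤ × (I ⊕ Z) where
  toFun
    | .inl (i, true) => (0, .inl i)
    | .inl (i, false) => ((η i).1, (η i).2)
    | .inr z => (0, .inr z)
  invFun p := if h : p.1 = 0 then p.2.elim (fun i => .inl (i, true)) .inr
    else .inl (η.symm (⟨p.1, h⟩, p.2), false)
  left_inv := by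
    rintro (⟨i, _ | _⟩ | z)
    · simp [(η i).1.2]
    · simp
    · simp
  right_inv := by
    rintro ⟨n, p⟩
    by_cases h : n = 0
    · rcases p with i | z <;> simp [h]
    · simp [h]

theorem five (hH : ¬FiniteDimensional ℂ H) {T T' : H →L[ℂ] H} (h1 : T * T' = 1) (h2 : T' * T = 1) :
    ∃ J R S, J * J = 1 ∧ I2 R ∧ I2 S ∧ T = J * (R * S) := by
  obtain ⟨I, _, κ, Θ, κ0, ho, hp, hc⟩ := pairs hH h1 h2
  choose γ Ψ v y γ1 γ2 hΨ hp using hp
  have o1 : ∀ p q : I × Bool, p ≠ q → Ψ p.1 p.2 ⟂ Ψ q.1 q.2 := by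
    rintro ⟨i, β⟩ ⟨j, β'⟩ h
    by_cases e : i = j
    · subst e
      rcases β with _ | _ <;> rcases β' with _ | _
      exacts [absurd rfl h, (hΨ i).symm, hΨ i, absurd rfl h]
    · exact (ho i j e).mono (hp i β).1 (hp j β').1
  obtain ⟨Z, b, hb⟩ := basis_ext (v := fun p : I × Bool => v p.1 p.2)
    ⟨fun p => (hp _ _).2.1.nv, fun p q h => (o1 p q h).inner_eq (hp _ _).2.1.v0 (hp _ _).2.1.v0⟩
  obtain ⟨η⟩ : Nonempty (I ≃ {n : ℤ // n ≠ 0} × (I ⊕ Z)) := Cardinal.eq.mp (by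
    have h3 : ℵ₀ ≤ #I := aleph0_le_mk I
    have h4 : #Z ≤ #I := hc Z _ (b.orthonormal.comp _ Sum.inr_injective)
    haveI : Nonempty {n : ℤ // n ≠ 0} := ⟨⟨1, one_ne_zero⟩⟩
    rw [mk_prod, mk_sum]
    simp only [lift_id]
    rw [add_eq_left h3 h4, mul_eq_right h3 ((mk_le_aleph0).trans h3) (mk_ne_zero _)])
  choose c hc2 using fun i => IsAlgClosed.exists_pow_nat_eq (γ i) two_pos
  set M := 1 + κ⁻¹ with hM
  have M0 : 1 ≤ M := le_add_of_nonneg_right (by positivity)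
  have sq : ∀ t : ℝ, κ * t ^ 2 ≤ 1 → t ≤ M := fun t h => by
    have : t ^ 2 ≤ κ⁻¹ := by rwa [inv_eq_one_div, le_div_iff₀' κ0]
    nlinarith [sq_nonneg (t - 1), inv_pos.mpr κ0]
  have c0 : ∀ i, c i ≠ 0 := fun i h => by
    have := γ1 i
    rw [← hc2, h] at this
    simp at this
    linarith
  have c1 : ∀ i, ‖c i‖ ≤ M := fun i => sq _ (by rw [← norm_pow, hc2]; exact γ2 i)
  have c2 : ∀ i, ‖(c i)⁻¹‖ ≤ M := fun i => sq _ (by
    rw [← norm_pow, inv_pow, hc2, norm_inv, ← div_eq_mul_inv]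
    exact div_le_one_of_le₀ (γ1 i) (norm_nonneg _))
  have dg : ∀ (p q : I → ℂ) (r : ℂ), (∀ i, ‖p i‖ ≤ M) → (∀ i, ‖q i‖ ≤ M) → ‖r‖ ≤ M →
      ∃ D : H →L[ℂ] H, ∀ x, D (b x) = Sum.elim (fun a : I × Bool => cond a.2 (p a.1) (q a.1))
        (fun _ => r) x • b x := fun p q r hp hq hr => exists_dg b _ (K := M) (by positivity) (by
      rintro (⟨i, _ | _⟩ | z)
      exacts [hq i, hp i, hr])
  have z0 : ‖(0 : ℂ)‖ ≤ M := by simpa using zero_le_one.trans M0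
  have z1 : ‖(1 : ℂ)‖ ≤ M := by simpa using M0
  have c3 : ∀ i, ‖-c i‖ ≤ M := by simpa using c1
  have c4 : ∀ i, ‖-(c i)⁻¹‖ ≤ M := by simpa using c2
  obtain ⟨C, hC⟩ := dg c (fun i => -c i) 1 c1 c3 z1
  obtain ⟨P, hP⟩ := dg _ _ 0 (fun _ => z1) (fun _ => z1) z0
  obtain ⟨Q, hQ⟩ := dg _ _ 1 (fun _ => z1) (fun _ => z0) z1
  obtain ⟨A, hA⟩ := dg _ _ 1 (fun _ => z1) c3 z1
  obtain ⟨B, hB⟩ := dg _ _ 0 c1 (fun _ => z1) z0
  obtain ⟨A', hA'⟩ := dg _ _ 1 (fun _ => z1) c4 z1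
  obtain ⟨B', hB'⟩ := dg _ _ 1 (fun _ => z1) c2 z1
  let j : Equiv.Perm ((I × Bool) ⊕ Z) :=
    ((Equiv.refl I).prodCongr Equiv.boolNot).sumCongr (Equiv.refl Z)
  obtain ⟨U, hU⟩ := exists_pm b j j.injective
  obtain ⟨J, g, g', j1, g1, g2, s1, s2⟩ := jstep b h2 (fun x => x.isLeft = true) (P := P)
    (Φ := Sum.elim (fun p => Ψ p.1 p.2) fun _ => ⊥) (by
      rintro (p | z) (q | z') h
      exacts [o1 p q fun e => h (by rw [e]), Submodule.isOrtho_bot_right,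
        Submodule.isOrtho_bot_left, Submodule.isOrtho_bot_left])
    (Sum.elim (fun p => y p.1 p.2) fun _ => 0) _ (K := 6 * 8) (M := M) (by norm_num)
    (by positivity) (by
      rintro (⟨i, _ | _⟩ | z)
      exacts [⟨neg_ne_zero.mpr (c0 i), c3 i, by simpa using c2 i⟩, ⟨c0 i, c1 i, c2 i⟩,
        ⟨one_ne_zero, z1, by simpa using M0⟩]) (by
      rintro (⟨i, β⟩ | z) h
      · rw [hb]
        refine ⟨(hp i β).2.1, ((hp i β).2.2).trans ?_⟩
        rcases β with _ | _ <;> simp [hc2]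
      · simp at h) (by rintro (⟨i, _ | _⟩ | z) <;> simp [hP]) hC
  set k := A + U * B with hk
  set k' := (1 / 2 : ℂ) • (A' + U * B') with hk'
  have bx : ∀ E E' : H →L[ℂ] H, (∀ i, E (b (.inl (i, true))) = E' (b (.inl (i, true)))) →
      (∀ i, E (b (.inl (i, false))) = E' (b (.inl (i, false)))) →
      (∀ z, E (b (.inr z)) = E' (b (.inr z))) → E = E' := fun E E' a1 a2 a3 => ext_b b (by
    rintro (⟨i, _ | _⟩ | z)
    exacts [a2 i, a1 i, a3 z])
  have id : k * k' = 1 ∧ k' * k = 1 ∧ U * U = 1 ∧ P * (k' * (1 - Q)) = k' * (1 - Q) ∧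
      U * (k * (C * (k' * (1 - Q)))) = 1 - Q ∧ (1 - Q) * (U * k) * P = (1 - Q) * (U * k) ∧
      (1 - Q) * (U * k) * C * k' = 1 - Q ∧ C * P = P * C := by
    refine ⟨?_, ?_, ?_, ?_, ?_, ?_, ?_, ?_⟩ <;> refine bx _ _ (fun i => ?_) (fun i => ?_) fun z => ?_
    all_goals
      simp [hk, hk', hA, hB, hA', hB', hU, hP, hQ, hC, j]
    all_goals
      try have := c0 i
      match_scalars <;> field_simp <;> ring
  obtain ⟨k1, k2, u1, e1, e2, e3, e4, e5⟩ := id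
  clear_value k k'
  set S := g' * (J * T) * g with hS
  set S' := g' * (T' * J) * g with hS'
  have s3 : S * S' = 1 := by
    calc _ = g' * (J * (T * (g * g') * T') * J) * g := by simp only [hS, hS', mul_assoc]
      _ = 1 := by rw [g1, mul_one, h1, mul_one, j1, mul_one, g2]
  have s4 : S' * S = 1 := by
    calc _ = g' * (T' * (J * (g * g') * J) * T) * g := by simp only [hS, hS', mul_assoc]
      _ = 1 := by rw [g1, mul_one, j1, mul_one, h2, mul_one, g2]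
  obtain ⟨R, R', r1, r2, r3⟩ := shift_I4 b (eps η) j hU (Q := Q) (G := U * (k * S * k'))
    (G' := k * S' * k' * U) (by rintro (⟨i, _ | _⟩ | z) <;> simp [hQ, eps, (η _).1.2])
    (by calc _ = U * (k * (S * (k' * k) * S') * k') * U := by simp only [mul_assoc]
      _ = 1 := by rw [k2, mul_one, s3, mul_one, k1, mul_one, u1])
    (by calc _ = k * (S' * (k' * (U * U) * k) * S) * k' := by simp only [mul_assoc]
      _ = 1 := by rw [u1, mul_one, k2, mul_one, s4, mul_one, k1])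
    (by calc _ = U * (k * (S * P * (k' * (1 - Q)))) := by rw [mul_assoc S, e1]; simp only [mul_assoc]
      _ = 1 - Q := by rw [s1, mul_assoc C, e1, e2])
    (by calc _ = (1 - Q) * (U * k) * (P * S) * k' := by rw [← mul_assoc _ P, e3]; simp only [mul_assoc]
      _ = 1 - Q := by rw [s2, e5, ← mul_assoc _ P, e3, e4])
  rw [← mul_assoc, u1, one_mul] at r3
  refine ⟨J, _, _, j1, (r1.conj k2 k1).conj g1 g2, (r2.conj k2 k1).conj g1 g2, ?_⟩
  calc T = J * (g * g' * (J * T) * (g * g')) := by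
        rw [g1, one_mul, mul_one, ← mul_assoc, j1, one_mul]
    _ = J * (g * (k' * k * S * (k' * k)) * g') := by
        rw [k2, one_mul, mul_one]; simp only [hS, mul_assoc]
    _ = J * (g * (k' * (k * S * k') * k) * g') := by simp only [mul_assoc]
    _ = J * (g * (k' * (R * (k * (g' * g) * k') * R') * k) * g') := by
        rw [r3, g2, mul_one, k1, mul_one]
    _ = _ := by simp only [mul_assoc]

end Pool.Agent.H86.Inv
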