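import Mathlib

set_option autoImplicit false

namespace Pool.Agent.H86.Kaz

open Finset

variable {H : Type*} [NormedAddCommGroup H] [InnerProductSpace ℂ H] [CompleteSpace H]

/-- real part of the inner product -/
noncomputable def r (x y : H) : ℝ := (inner ℂ x y).re

omit [CompleteSpace H] in
theorem r_self (x : H) : r x x = ‖x‖ ^ 2 := inner_self_eq_norm_sq (𝕜 := ℂ) x

omit [CompleteSpace H] in
theorem r_comm (x y : H) : r x y = r y x := inner_re_symm (𝕜 := ℂ) x y

omit [CompleteSpace H] in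
theorem r_add (x y z : H) : r (x + y) z = r x z + r y z := by simp [r]

omit [CompleteSpace H] in
theorem r_sub (x y z : H) : r (x - y) z = r x z - r y z := by simp [r]

omit [CompleteSpace H] in
theorem r_add' (x y z : H) : r z (x + y) = r z x + r z y := by simp [r]

omit [CompleteSpace H] in
theorem r_sub' (x y z : H) : r z (x - y) = r z x - r z y := by simp [r]

omit [CompleteSpace H] in
theorem r_smul (t : ℝ) (x y : H) : r ((t : ℂ) • x) y = t * r x y := by simp [r]

omit [CompleteSpace H] in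
theorem r_smul' (t : ℝ) (x y : H) : r y ((t : ℂ) • x) = t * r y x := by simp [r]

omit [CompleteSpace H] in
theorem r_le (x y : H) : r x y ≤ ‖x‖ * ‖y‖ := re_inner_le_norm (𝕜 := ℂ) x y

omit [CompleteSpace H] in
theorem r_zero (x : H) : r x 0 = 0 := by simp [r]

omit [CompleteSpace H] in
theorem nsq_add (x y : H) : ‖x + y‖ ^ 2 = ‖x‖ ^ 2 + 2 * r x y + ‖y‖ ^ 2 :=
  norm_add_sq (𝕜 := ℂ) x y

theorem r_star (T : H →L[ℂ] H) (x y : H) : r (star T x) y = r x (T y) := by
  rw [r, r, ContinuousLinearMap.star_eq_adjoint, ContinuousLinearMap.adjoint_inner_left]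

theorem r_sa {T : H →L[ℂ] H} (h : IsSelfAdjoint T) (x y : H) : r (T x) y = r x (T y) := by
  rw [← r_star, h.star_eq]

theorem r_proj {P : H →L[ℂ] H} (h : IsStarProjection P) (x : H) : r (P x) x = ‖P x‖ ^ 2 := by
  rw [← r_self, r_sa h.2 x (P x), ← mul_apply_eq_comp, h.1.eq, r_comm]

/-- positivity -/
def Pos (T : H →L[ℂ] H) : Prop := IsSelfAdjoint T ∧ ∀ u, 0 ≤ r (T u) u

/-- the inequality `c T ≤ T ^ 2` -/
def Gap (T : H →L[ℂ] H) (c : ℝ) : Prop := ∀ u, c * r (T u) u ≤ ‖T u‖ ^ 2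

theorem pos_iff (T : H →L[ℂ] H) : Pos T ↔ 0 ≤ T := by
  rw [ContinuousLinearMap.nonneg_iff_isPositive, ContinuousLinearMap.isPositive_def']
  rfl

theorem gap_iff {T : H →L[ℂ] H} (hT : Pos T) {c : ℝ} (hc : 0 < c) :
    spectrum ℂ T ⊆ {z : ℂ | z = 0 ∨ (z.im = 0 ∧ c ≤ z.re)} ↔ Gap T c := by
  have h1 : cfc (fun x : ℝ => x * x - c * x) T = T * T - (c : ℂ) • T := by
    have := hT.1
    rw [cfc_sub .., cfc_mul .., cfc_const_mul .., cfc_id' ..]
    rfl
  have h2 : Gap T c ↔ ∀ x ∈ spectrum ℝ T, 0 ≤ x * x - c * x := by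
    rw [← cfc_nonneg_iff (fun x : ℝ => x * x - c * x) T (by fun_prop) hT.1, h1, ← pos_iff]
    have e : ∀ u, r ((T * T - (c : ℂ) • T) u) u = ‖T u‖ ^ 2 - c * r (T u) u := fun u => by
      rw [sub_apply, r_sub, smul_apply, r_smul, mul_apply_eq_comp, r_sa hT.1, r_self]
    refine ⟨fun h => ⟨?_, fun u => by rw [e]; linarith [h u]⟩, fun h u => by
      have := h.2 u; rw [e] at this; linarith⟩
    rw [← h1]
    exact cfc_predicate _ _
  rw [h2]
  constructor
  · intro h x hx
    rcases h (spectrum.algebraMap_mem ℂ hx) with h3 | h3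
    · have : x = 0 := by simpa using h3
      simp [this]
    · have : c ≤ x := by simpa using h3.2
      nlinarith
  · intro h z hz
    have h3 := hT.1.mem_spectrum_eq_re hz
    have h4 : z.re ∈ spectrum ℝ T := (spectrum.algebraMap_mem_iff ℂ).mp (by
      rw [h3] at hz; exact hz)
    have h5 := spectrum_nonneg_of_nonneg ((pos_iff T).mp hT) h4
    rcases h5.eq_or_lt with h6 | h6
    · left
      rw [h3, ← h6]
      simp
    · right
      refine ⟨by rw [h3]; simp, ?_⟩
      have := h _ h4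
      nlinarith

theorem gap_perp {T : H →L[ℂ] H} (hT : Pos T) {c : ℝ} (hc : 0 ≤ c) (h : Gap T c) (w : H)
    (hw : ∀ k, T k = 0 → inner ℂ k w = 0) : c * ‖w‖ ^ 2 ≤ r (T w) w := by
  have h1 : w ∈ T.range.topologicalClosure := by
    have := T.orthogonal_ker
    rw [← ContinuousLinearMap.star_eq_adjoint, hT.1.star_eq] at this
    rw [← this]
    exact fun k hk => hw k hk
  refine closure_minimal (t := {w | c * ‖w‖ ^ 2 ≤ r (T w) w}) ?_
    (isClosed_le (by fun_prop) (by unfold r; fun_prop)) h1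
  rintro _ ⟨u, rfl⟩
  have h2 := hT.2 (T u - (c : ℂ) • u)
  have h3 := h u
  rw [map_sub, map_smul, r_sub, r_sub', r_sub', r_smul, r_smul', r_smul, r_smul', r_self,
    r_sa hT.1 (T u) u, r_comm (T u) (T u), r_self] at h2
  show c * ‖T u‖ ^ 2 ≤ r (T (T u)) (T u)
  nlinarith

omit [CompleteSpace H] in
theorem gap_of (T : H →L[ℂ] H) {c : ℝ} (hc : 0 ≤ c) (w : H) (h : c * ‖w‖ ^ 2 ≤ r (T w) w) :
    c * r (T w) w ≤ ‖T w‖ ^ 2 := by
  have h1 := r_le (T w) w
  have h2 : c * ‖w‖ ≤ ‖T w‖ := by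
    rcases (norm_nonneg w).eq_or_lt with h0 | h0
    · simp [← h0]
    · nlinarith
  nlinarith [norm_nonneg (T w), mul_le_mul_of_nonneg_left h1 hc]

theorem Pos.add {T D : H →L[ℂ] H} (hT : Pos T) (hD : Pos D) : Pos (T + D) :=
  ⟨hT.1.add hD.1, fun u => by rw [add_apply, r_add]; exact add_nonneg (hT.2 u) (hD.2 u)⟩

theorem gap_add {T D : H →L[ℂ] H} (hT : Pos T) (hD : Pos D) {c : ℝ} (hc : 0 ≤ c) (h : Gap T c)
    (hk : ∀ k, T k = 0 → D k = 0) : Gap (T + D) c := by
  intro u
  obtain ⟨k, h1, w, h2, rfl⟩ := T.ker.exists_add_mem_mem_orthogonal u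
  have h3 : (T + D) k = 0 := by rw [add_apply, show T k = 0 from h1, hk k h1, add_zero]
  rw [map_add, h3, zero_add, r_add', r_sa (hT.add hD).1 w k, h3, r_zero, zero_add]
  refine gap_of _ hc w ((gap_perp hT hc h w h2).trans ?_)
  rw [add_apply, r_add]
  linarith [hD.2 w]

theorem pair_gap {p q Z : H →L[ℂ] H} (hp : IsStarProjection p) (hq : IsStarProjection q)
    (hZ : IsStarProjection Z) (c1 : Commute Z p) (c2 : Commute Z q) (h1 : p * q * Z = q * p * Z)
    (h2 : (1 - Z) * (p * q * p) = ((1 / 5 : ℝ) : ℂ) • ((1 - Z) * p)) :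
    Gap ((1 - p) + (1 - q)) (11 / 20) := by
  have hT : IsSelfAdjoint ((1 - p) + (1 - q)) := hp.one_sub.2.add hq.one_sub.2
  have cT : Commute Z ((1 - p) + (1 - q)) :=
    ((Commute.one_right Z).sub_right c1).add_right ((Commute.one_right Z).sub_right c2)
  have A : ∀ v, Z v = v → r (((1 - p) + (1 - q)) v) v ≤ ‖((1 - p) + (1 - q)) v‖ ^ 2 := by
    intro v hv
    have e : (1 - p) ((1 - q) v) = (1 - q) ((1 - p) v) := by
      have := congrArg (fun T : H →L[ℂ] H => T v) h1
      simp only [mul_apply_eq_comp, hv] at this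
      simp only [sub_apply, one_apply_eq_self, map_sub, this]
      abel
    have e2 := r_proj hq.one_sub ((1 - p) v)
    rw [← e, r_sa hp.one_sub.2, ← mul_apply_eq_comp, hp.one_sub.1.eq, r_comm] at e2
    rw [add_apply, r_add, nsq_add, r_proj hp.one_sub, r_proj hq.one_sub, e2]
    nlinarith [sq_nonneg ‖(1 - p) ((1 - q) v)‖]
  have B : ∀ v, Z v = 0 → 11 / 20 * ‖v‖ ^ 2 ≤ r (((1 - p) + (1 - q)) v) v := by
    intro v hv
    have e : r (p (q (p v))) v = 1 / 5 * r (p v) v := by
      have := congrArg (fun T : H →L[ℂ] H => r (T v) v) h2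
      simp only [mul_apply_eq_comp, smul_apply, r_smul, r_sa hZ.one_sub.2] at this
      simpa only [sub_apply, one_apply_eq_self, hv, sub_zero] using this
    rw [r_sa hp.2, r_proj hq, r_proj hp] at e
    have e1 : r (p v) (q v) ≤ ‖q (p v)‖ * ‖q v‖ := by
      refine le_of_eq_of_le ?_ (r_le _ _)
      rw [r_sa hq.2, ← mul_apply_eq_comp q q, hq.1.eq]
    have e2 := r_le (p v + q v) v
    have e3 := nsq_add (p v) (q v)
    rw [r_add, r_proj hp, r_proj hq] at e2
    simp only [add_apply, sub_apply, one_apply_eq_self, r_add, r_sub, r_self, r_proj hp,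
      r_proj hq]
    have e4 : ‖p v + q v‖ ^ 2 ≤ 29 / 20 * (‖p v‖ ^ 2 + ‖q v‖ ^ 2) := by
      nlinarith [sq_nonneg (‖q (p v)‖ - 9 / 20 * ‖q v‖)]
    nlinarith [sq_nonneg (‖p v + q v‖ - 29 / 20 * ‖v‖)]
  generalize (1 - p) + (1 - q) = T at *
  intro u
  have a1 : Z (Z u) = Z u := by rw [← mul_apply_eq_comp, hZ.1.eq]
  have a2 : Z (u - Z u) = 0 := by rw [map_sub, a1, sub_self]
  have a3 : ∀ v, Z (T v) = T (Z v) := fun v => by
    rw [← mul_apply_eq_comp, cT.eq, mul_apply_eq_comp]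
  have a4 : ∀ x y, Z x = x → Z y = 0 → r x y = 0 := fun x y hx hy => by
    rw [← hx, r_sa hZ.2, hy, r_zero]
  obtain ⟨u1, u2, rfl, h3, h4⟩ : ∃ u1 u2, u = u1 + u2 ∧ Z u1 = u1 ∧ Z u2 = 0 :=
    ⟨Z u, u - Z u, by abel, a1, a2⟩
  have b1 := A _ h3
  have b2 := gap_of T (by norm_num) _ (B _ h4)
  have b3 : 0 ≤ ‖T u1‖ ^ 2 := by positivity
  have b4 : Z (T u1) = T u1 := by rw [a3, h3]
  have b5 : Z (T u2) = 0 := by rw [a3, h4, map_zero]
  rw [map_add, nsq_add, r_add, r_add', r_add', a4 _ _ b4 h4, a4 _ _ b4 b5, r_comm (T u2) u1,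
    a4 _ _ h3 b5]
  nlinarith

/-- average over a cyclic group of order five -/
noncomputable def av (x : H →L[ℂ] H) : H →L[ℂ] H :=
  ((1 / 5 : ℝ) : ℂ) • (1 + x + x ^ 2 + x ^ 3 + x ^ 4)

omit [CompleteSpace H] in
theorem av_l {x y : H →L[ℂ] H} (h : x * y = y) : av x * y = y := by
  have h1 : ∀ k, x ^ k * y = y := fun k => by
    induction k with
    | zero => simp
    | succ k ih => rw [pow_succ, mul_assoc, h, ih]
  simp only [av, smul_mul_assoc, add_mul, one_mul, h, h1]
  module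

omit [CompleteSpace H] in
theorem mul_av {x : H →L[ℂ] H} (h : x ^ 5 = 1) : x * av x = av x := by
  rw [av, mul_smul_comm]
  congr 1
  rw [← sub_eq_zero, ← sub_eq_zero.mpr h]
  noncomm_ring

omit [CompleteSpace H] in
theorem av_comm {x y : H →L[ℂ] H} (h : Commute y x) : Commute y (av x) :=
  (((((Commute.one_right y).add_right h).add_right (h.pow_right 2)).add_right
    (h.pow_right 3)).add_right (h.pow_right 4)).smul_right _

theorem av_proj {x : H →L[ℂ] H} (h : x ^ 5 = 1) (h' : star x = x ^ 4) :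
    IsStarProjection (av x) := by
  refine ⟨av_l (mul_av h), ?_⟩
  rw [IsSelfAdjoint, av, star_smul]
  simp only [star_add, star_one, star_pow, h', ← pow_mul]
  rw [pow_eq_pow_mod (4 * 2) h, pow_eq_pow_mod (4 * 3) h, pow_eq_pow_mod (4 * 4) h]
  simp only [Nat.reduceMul, Nat.reduceMod, pow_one, RCLike.star_def, Complex.conj_ofReal]
  congr 1
  abel

theorem heis {a b z : H →L[ℂ] H} (ha : a ^ 5 = 1) (ha' : star a = a ^ 4) (hb : b ^ 5 = 1)
    (hb' : star b = b ^ 4) (hz : z ^ 5 = 1) (hz' : star z = z ^ 4) (c1 : Commute z a)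
    (c2 : Commute z b) (h : a * b = z * b * a) :
    Gap ((1 - av a) + (1 - av b)) (11 / 20) := by
  have h1 : ∀ j, a * b ^ j = z ^ j * b ^ j * a := fun j => by
    induction j with
    | zero => simp
    | succ j ih =>
      rw [pow_succ, ← mul_assoc, ih, mul_assoc, h, pow_succ]
      simp only [← mul_assoc]
      rw [mul_assoc (z ^ j), ← (c2.pow_right j).eq, ← mul_assoc]
  have cZa : Commute (av z) a := (av_comm c1.symm).symm
  have cZb : Commute (av z) b := (av_comm c2.symm).symm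
  have zZ : ∀ j, z ^ j * av z = av z := fun j => by
    induction j with
    | zero => simp
    | succ j ih => rw [pow_succ, mul_assoc, mul_av hz, ih]
  refine pair_gap (av_proj ha ha') (av_proj hb hb') (av_proj hz hz') (av_comm cZa) (av_comm cZb)
    ?_ ?_
  · have h2 : ∀ j, Commute (b ^ j * av z) a := fun j => by
      rw [Commute, SemiconjBy, ← mul_assoc, h1, mul_assoc (z ^ j), mul_assoc (z ^ j),
        ← ((cZb.pow_right j).mul_right cZa).eq, ← mul_assoc, zZ, ← mul_assoc,
        (cZb.pow_right j).eq]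
    have h3 : Commute (av b * av z) a := by
      rw [av, smul_mul_assoc]
      simp only [add_mul]
      have h0 := h2 0
      have h4 := h2 1
      rw [pow_zero] at h0
      rw [pow_one] at h4
      exact ((((h0.add_left h4).add_left (h2 2)).add_left (h2 3)).add_left (h2 4)).smul_left _
    rw [mul_assoc, ← (av_comm h3).eq, mul_assoc, mul_assoc, (av_comm cZa).eq]
  · have h2 : ∀ j i, z ^ (j * i) * (av a * b ^ j * av a) = av a * b ^ j * av a := fun j i => by
      have h3 : z ^ j * (av a * b ^ j * av a) = av a * b ^ j * av a := by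
        have h4 : av a * a = av a := by rw [← (av_comm (Commute.refl a)).eq, mul_av ha]
        calc _ = av a * (z ^ j * b ^ j * a) * av a := by
              rw [← mul_assoc, ← mul_assoc, ((av_comm c1).pow_left j).eq]
              simp only [mul_assoc, mul_av ha]
          _ = _ := by rw [← h1, ← mul_assoc, h4]
      induction i with
      | zero => simp
      | succ i ih => rw [Nat.mul_succ, pow_add, mul_assoc, h3, ih]
    have h3 : ∀ j i, j * i % 5 = 1 → (1 - av z) * (av a * b ^ j * av a) = 0 := fun j i hi => by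
      have h4 := h2 j i
      rw [pow_eq_pow_mod _ hz, hi, pow_one] at h4
      rw [sub_mul, av_l h4, one_mul, sub_self]
    have h4 := h3 1 1 rfl
    rw [pow_one] at h4
    rw [show av b = ((1 / 5 : ℝ) : ℂ) • (1 + b + b ^ 2 + b ^ 3 + b ^ 4) from rfl]
    simp only [mul_smul_comm, smul_mul_assoc, mul_add, add_mul, h4, h3 2 3 rfl, h3 3 2 rfl,
      h3 4 4 rfl, mul_one, add_zero, (av_proj ha ha').1.eq]

theorem three_gap {p q s : H →L[ℂ] H} (hp : IsStarProjection p) (hq : IsStarProjection q)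
    (hs : IsStarProjection s) (h1 : Gap (p + q) (11 / 20)) (h2 : Gap (q + s) (11 / 20))
    (h3 : Gap (s + p) (11 / 20)) : Gap ((5 : ℂ) • (p + q + s)) (1 / 2) := by
  intro u
  have a1 := h1 u
  have a2 := h2 u
  have a3 := h3 u
  have e : (5 : ℂ) = ((5 : ℝ) : ℂ) := by norm_num
  rw [smul_apply, norm_smul, e, r_smul]
  simp only [add_apply, r_add, nsq_add, r_proj hp, r_proj hq, r_proj hs, mul_pow] at *
  rw [r_comm] at a3
  norm_num
  linarith

end Pool.Agent.H86.Kaz
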