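import Pool.Agent.H86.KazA
import Pool.Agent.H86.RoeD

set_option autoImplicit false

namespace Pool.Agent.H86.Kaz

open Finset Equiv Roe

variable {X : Type}

/-- finite propagation operators of a graph -/
def FPG (G : SimpleGraph X) : StarSubalgebra ℂ (H X →L[ℂ] H X) where
  carrier := {a | ∃ R : ℕ, ∀ x y, a (δ x) y ≠ 0 → G.edist x y ≤ R}
  mul_mem' := by
    rintro a b ⟨r, hr⟩ ⟨t, ht⟩
    refine ⟨t + r, fun x y h => ?_⟩
    by_contra h1
    refine h (apply_eq_zero a _ _ fun z => ?_)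
    by_contra h2
    push Not at h2
    exact h1 (G.edist_triangle.trans (by push_cast; exact add_le_add (ht x z h2.1) (hr z y h2.2)))
  add_mem' := by
    rintro a b ⟨r, hr⟩ ⟨t, ht⟩
    refine ⟨r + t, fun x y h => ?_⟩
    push_cast
    by_cases h1 : a (δ x) y = 0
    · exact le_add_left (ht x y (by simpa [h1] using h))
    · exact le_add_right (hr x y h1)
  algebraMap_mem' := fun c => ⟨0, fun x x' h => by
    by_cases h1 : x' = x
    · simp [h1]
    · simp [Algebra.algebraMap_eq_smul_one, δ_apply, h1] at h⟩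
  star_mem' := by
    rintro a ⟨r, hr⟩
    refine ⟨r, fun x x' h => ?_⟩
    rw [ContinuousLinearMap.star_eq_adjoint, adj_ent, star_ne_zero] at h
    rw [G.edist_comm]
    exact hr _ _ h

theorem Ind_mem (G : SimpleGraph X) (p : X → Prop) : Ind p ∈ FPG G := ⟨0, fun x y h => by
  by_cases h1 : y = x
  · simp [h1]
  · simp [Ind_apply, δ_apply, h1] at h⟩

variable {K : Type*} [NormedAddCommGroup K] [InnerProductSpace ℂ K] [CompleteSpace K]

/-- a not necessarily unital representation of the finite propagation operators -/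
structure IsRep (G : SimpleGraph X) (π : (H X →L[ℂ] H X) → (K →L[ℂ] K)) : Prop where
  add : ∀ S ∈ FPG G, ∀ T ∈ FPG G, π (S + T) = π S + π T
  mul : ∀ S ∈ FPG G, ∀ T ∈ FPG G, π (S * T) = π S * π T
  smul : ∀ a : ℂ, ∀ T ∈ FPG G, π (a • T) = a • π T
  star : ∀ T ∈ FPG G, π (star T) = star (π T)

namespace IsRep
variable {G : SimpleGraph X} {π : (H X →L[ℂ] H X) → (K →L[ℂ] K)} (h : IsRep G π)
include h

theorem zero : π 0 = 0 := by simpa using h.smul 0 0 (zero_mem _)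

theorem sub {S T : H X →L[ℂ] H X} (hS : S ∈ FPG G) (hT : T ∈ FPG G) : π (S - T) = π S - π T := by
  have := h.add (S - T) (sub_mem hS hT) T hT
  rw [sub_add_cancel] at this
  rw [this, add_sub_cancel_right]

theorem sum {ι : Type} (s : Finset ι) (f : ι → H X →L[ℂ] H X) (hf : ∀ i ∈ s, f i ∈ FPG G) :
    π (∑ i ∈ s, f i) = ∑ i ∈ s, π (f i) := by
  classical
  induction s using Finset.induction_on with
  | empty => simpa using h.zero
  | insert i s hi ih =>
    have h1 : ∀ j ∈ s, f j ∈ FPG G := fun j hj => hf j (mem_insert_of_mem hj)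
    rw [sum_insert hi, sum_insert hi, h.add _ (hf i (mem_insert_self _ _)) _ (sum_mem h1), ih h1]

theorem one_mul {T : H X →L[ℂ] H X} (hT : T ∈ FPG G) : π 1 * π T = π T := by
  rw [← h.mul _ (one_mem _) _ hT, _root_.one_mul]

theorem mul_one {T : H X →L[ℂ] H X} (hT : T ∈ FPG G) : π T * π 1 = π T := by
  rw [← h.mul _ hT _ (one_mem _), _root_.mul_one]

theorem proj (p : X → Prop) : IsStarProjection (π (Ind p)) :=
  ⟨by rw [IsIdempotentElem, ← h.mul _ (Ind_mem G p) _ (Ind_mem G p), Ind_idem],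
    by rw [IsSelfAdjoint, ← h.star _ (Ind_mem G p), Ind_star]⟩

end IsRep

/-- unitary attached to a permutation -/
noncomputable def U (π : (H X →L[ℂ] H X) → (K →L[ℂ] K)) (w : Perm X) : K →L[ℂ] K :=
  π (V w) + (1 - π 1)

/-- permutations of bounded displacement -/
def M (G : SimpleGraph X) : Subgroup (Perm X) where
  carrier := {w | V w ∈ FPG G}
  mul_mem' := fun {a b} ha hb => by rw [Set.mem_ofPred_eq, V_mul]; exact mul_mem hb ha
  one_mem' := by rw [Set.mem_ofPred_eq, V_one]; exact one_mem _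
  inv_mem' := fun {a} ha => by rw [Set.mem_ofPred_eq, ← V_star]; exact star_mem ha

namespace IsRep
variable {G : SimpleGraph X} {π : (H X →L[ℂ] H X) → (K →L[ℂ] K)} (h : IsRep G π)
include h

theorem U_mul {w w' : Perm X} (hw : w ∈ M G) (hw' : w' ∈ M G) :
    U π (w * w') = U π w' * U π w := by
  rw [U, U, U, V_mul, h.mul _ hw' _ hw]
  simp only [add_mul, mul_add, sub_mul, mul_sub, _root_.mul_one, _root_.one_mul, h.one_mul hw,
    h.mul_one hw', h.one_mul (one_mem _)]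
  abel

omit h [CompleteSpace K] in
theorem U_one : U π 1 = 1 := by simp [U, V_one]

theorem U_star {w : Perm X} (hw : w ∈ M G) : Star.star (U π w) = U π w⁻¹ := by
  rw [U, U, star_add, star_sub, star_one, ← h.star _ hw, ← h.star _ (one_mem _), V_star, star_one]

theorem U_pow {w : Perm X} (hw : w ∈ M G) (k : ℕ) : U π (w ^ k) = U π w ^ k := by
  induction k with
  | zero => simp [U_one]
  | succ k ih => rw [pow_succ, h.U_mul (pow_mem hw k) hw, ih, pow_succ']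

theorem U_five {w : Perm X} (hw : w ∈ M G) (h5 : w ^ 5 = 1) :
    U π w ^ 5 = 1 ∧ Star.star (U π w) = U π w ^ 4 := by
  refine ⟨by rw [← h.U_pow hw, h5, U_one], ?_⟩
  rw [h.U_star hw, ← h.U_pow hw, inv_eq_of_mul_eq_one_left ((pow_succ w 4).symm.trans h5)]

theorem U_norm {w : Perm X} (hw : w ∈ M G) (k : K) : ‖U π w k‖ = ‖k‖ := by
  rw [← sq_eq_sq₀ (norm_nonneg _) (norm_nonneg _), ← r_self, ← r_star, ← mul_apply_eq_comp,
    h.U_star hw, ← h.U_mul hw (inv_mem hw), mul_inv_cancel, U_one, one_apply_eq_self, r_self]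

theorem ind_norm {w : Perm X} (hw : w ∈ M G) (p : X → Prop) (k : K) (hk : U π w k = k) :
    ‖π (Ind fun x => p (w x)) k‖ = ‖π (Ind p) k‖ := by
  have e : V w * Ind p = Ind (fun x => p (w x)) * V w :=
    ext_pt fun ξ x => by simp [V_apply, Ind_apply]
  have e1 : U π w * π (Ind p) = π (Ind fun x => p (w x)) * U π w := by
    simp only [U, add_mul, mul_add, sub_mul, mul_sub, _root_.mul_one, _root_.one_mul,
      h.one_mul (Ind_mem G _), h.mul_one (Ind_mem G _), sub_self]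
    rw [← h.mul _ hw _ (Ind_mem G _), ← h.mul _ (Ind_mem G _) _ hw, e]
  rw [← h.U_norm hw (π (Ind p) k), ← mul_apply_eq_comp (U π w), e1, mul_apply_eq_comp, hk]

theorem ind_small (p : ℕ → X → Prop) (k : K) (N : ℕ)
    (hp : ∀ i < N, ∀ j < N, i ≠ j → ∀ x, ¬ (p i x ∧ p j x)) :
    ∑ i ∈ range N, ‖π (Ind (p i)) k‖ ^ 2 ≤ ‖k‖ ^ 2 := by
  classical
  have e : ∑ i ∈ range N, Ind (p i) = Ind (fun x => ∃ i < N, p i x) := ext_pt fun ξ x => by
    rw [_root_.sum_apply, lp.coeFn_sum, Finset.sum_apply, Ind_apply]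
    simp only [Ind_apply]
    split_ifs with h1
    · obtain ⟨i, h2, h3⟩ := h1
      rw [sum_eq_single i (fun j hj h4 => if_neg fun h5 => hp j (mem_range.mp hj) i h2 h4 x
        ⟨h5, h3⟩) (by simp [h2]), if_pos h3]
    · exact sum_eq_zero fun j hj => if_neg fun h5 => h1 ⟨j, mem_range.mp hj, h5⟩
  have e1 : ∑ i ∈ range N, ‖π (Ind (p i)) k‖ ^ 2 = ‖π (Ind fun x => ∃ i < N, p i x) k‖ ^ 2 := by
    rw [← r_proj (h.proj _), ← e, h.sum _ _ fun i _ => Ind_mem G _, _root_.sum_apply, r, sum_inner,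
      Complex.re_sum]
    exact sum_congr rfl fun i _ => (r_proj (h.proj _) k).symm
  rw [e1]
  gcongr
  exact (ContinuousLinearMap.le_opNorm _ _).trans
    (mul_le_of_le_one_left (norm_nonneg _) (h.proj _).norm_le)

end IsRep

/-- three permutations satisfying Heisenberg relations, and extra edges -/
structure Box (X : Type) where
  g : Fin 3 → Perm X
  z : Fin 3 → Perm X
  τ : Perm X
  A : X → Prop
  l : X → ℕ
  w : ℕ → Perm X
  pow5 : ∀ i, g i ^ 5 = 1
  rel : ∀ i, g i * g (i + 1) = z i * g (i + 1) * g i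
  comm1 : ∀ i, Commute (z i) (g i)
  comm2 : ∀ i, Commute (z i) (g (i + 1))
  zpow : ∀ i, z i ^ 5 = 1
  inj : ∀ (s s' : Fin 3 × Fin 4) x, (g s.1 ^ (s.2.1 + 1)) x = (g s'.1 ^ (s'.2.1 + 1)) x → s = s'
  ne : ∀ (s : Fin 3 × Fin 4) x, (g s.1 ^ (s.2.1 + 1)) x ≠ x
  τ2 : ∀ x, τ (τ x) = x
  τA : ∀ x, A (τ x) ↔ A x
  τne : ∀ x, A x → τ x ≠ x ∧ ∀ s : Fin 3 × Fin 4, τ x ≠ (g s.1 ^ (s.2.1 + 1)) x
  lg : ∀ i x, l (g i x) = l x
  lτ : ∀ x, l (τ x) = l x
  fin : ∀ n, {x | l x < n}.Finite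
  wmem : ∀ N : Subgroup (Perm X), (∀ i, g i ∈ N) → ∀ n, w n ∈ N
  wdis : ∀ n m, n ≠ m → {x | A (w n x) ∧ A (w m x)}.Finite

namespace Box
variable (B : Box X)

theorem tA (x : X) : B.A (B.τ x) ↔ B.A x := B.τA x

theorem lt (x : X) : B.l (B.τ x) = B.l x := B.lτ x

/-- generators -/
def gen (s : Fin 3 × Fin 4) : Perm X := B.g s.1 ^ (s.2.1 + 1)

theorem gen_inv (s : Fin 3 × Fin 4) (x : X) : B.gen (s.1, s.2.rev) (B.gen s x) = x := by
  rw [← Perm.mul_apply, gen, gen, ← pow_add, show s.2.rev.1 + 1 + (s.2.1 + 1) = 5 by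
    simp [Fin.val_rev]; omega, B.pow5, Perm.one_apply]

/-- the graph -/
def G : SimpleGraph X where
  Adj x y := (∃ s, y = B.gen s x) ∨ (B.A x ∧ y = B.τ x)
  symm := ⟨by
    rintro x y (⟨s, rfl⟩ | ⟨h, rfl⟩)
    · exact Or.inl ⟨_, (B.gen_inv s x).symm⟩
    · exact Or.inr ⟨(B.τA x).mpr h, (B.τ2 x).symm⟩⟩
  loopless := ⟨by
    rintro x (⟨s, h⟩ | ⟨h, h'⟩)
    · exact B.ne s x h.symm
    · exact (B.τne x h).1 h'.symm⟩

theorem lev_mem {w : Perm X} (h : w ∈ Subgroup.closure (Set.range B.g)) (x : X) :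
    B.l (w x) = B.l x := by
  induction h using Subgroup.closure_induction generalizing x with
  | mem w hw => obtain ⟨i, rfl⟩ := hw; exact B.lg i x
  | one => rfl
  | mul a b _ _ ha hb => rw [Perm.mul_apply, ha, hb]
  | inv a _ ha => rw [← ha, Perm.inv_def, apply_symm_apply]

theorem g_cl (i : Fin 3) : B.g i ∈ Subgroup.closure (Set.range B.g) :=
  Subgroup.subset_closure ⟨i, rfl⟩

theorem gen_cl (s : Fin 3 × Fin 4) : B.gen s ∈ Subgroup.closure (Set.range B.g) :=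
  pow_mem (B.g_cl _) _

theorem w_cl (n : ℕ) : B.w n ∈ Subgroup.closure (Set.range B.g) := B.wmem _ B.g_cl n

theorem adj_lev {x y : X} (h : B.G.Adj x y) : B.l y = B.l x := by
  rcases h with ⟨s, rfl⟩ | ⟨-, rfl⟩
  · exact B.lev_mem (B.gen_cl s) x
  · exact B.lτ x

theorem reach_lev {x y : X} (h : B.G.Reachable x y) : B.l y = B.l x := by
  obtain ⟨p⟩ := h
  induction p with
  | nil => rfl
  | cons h p ih => rw [ih, B.adj_lev h]

theorem cl_M {w : Perm X} (h : w ∈ Subgroup.closure (Set.range B.g)) : w ∈ M B.G := by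
  refine (Subgroup.closure_le _).mpr ?_ h
  rintro _ ⟨i, rfl⟩
  refine ⟨1, fun x y h => ?_⟩
  rw [V_apply, δ_apply] at h
  have h1 : B.g i y = x := by by_contra h1; simp [h1] at h
  have h2 : B.G.Adj y x := Or.inl ⟨(i, 0), by simp [gen, h1]⟩
  simp [SimpleGraph.edist_eq_one_iff_adj.mpr h2.symm]

/-- Laplacian of the generators -/
noncomputable def L0 : H X →L[ℂ] H X := ∑ s, (1 - V (B.gen s))

/-- Laplacian of the extra edges -/
noncomputable def D : H X →L[ℂ] H X := Ind B.A * (1 - V B.τ)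

open Classical in
theorem D_apply (ξ : H X) (x : X) : B.D ξ x = if B.A x then ξ x - ξ (B.τ x) else 0 := by
  by_cases h : B.A x <;> simp [D, Ind_apply, V_apply, h]

theorem L0_apply (ξ : H X) (x : X) : B.L0 ξ x = ∑ s, (ξ x - ξ (B.gen s x)) := by
  rw [L0, _root_.sum_apply, lp.coeFn_sum, Finset.sum_apply]
  simp [V_apply]

theorem L0_mem : B.L0 ∈ FPG B.G :=
  sum_mem fun s _ => sub_mem (one_mem _) (B.cl_M (B.gen_cl s))

theorem D_mem : B.D ∈ FPG B.G := by
  refine ⟨1, fun x y h => ?_⟩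
  rw [D_apply, δ_apply, δ_apply] at h
  by_cases h1 : y = x
  · simp [h1]
  · have h2 : B.G.Adj y x := by
      by_contra h2
      split_ifs at h with h3 h4
      · exact h2 (Or.inr ⟨h3, h4.symm⟩)
      all_goals simp at h
    simp [SimpleGraph.edist_eq_one_iff_adj.mpr h2.symm]

theorem D_star : star B.D = B.D := ext_ent fun x y => by
  rw [ContinuousLinearMap.star_eq_adjoint, adj_ent]
  simp only [D_apply, δ_apply]
  by_cases h1 : x = y
  · subst h1
    split_ifs <;> simp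
  · by_cases h2 : B.τ x = y
    · subst h2
      by_cases h3 : B.A x <;> simp [B.tA, B.τ2, h1, Ne.symm h1, h3]
    · have h3 : B.τ y ≠ x := fun h => h2 (by rw [← h, B.τ2])
      simp [h1, h2, h3, Ne.symm h1]

theorem D_sq : B.D = ((1 / 2 : ℝ) : ℂ) • (B.D * B.D) := ext_pt fun ξ x => by
  simp only [smul_apply, mul_apply_eq_comp, lp.coeFn_smul, Pi.smul_apply, D_apply, B.τ2]
  by_cases h3 : B.A x <;> simp [B.tA, h3]
  ring

theorem D_split (n : ℕ) :
    B.D = B.D * Ind (fun x => B.l x < n) + B.D * Ind (fun x => B.A x ∧ n ≤ B.l x) :=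
  ext_pt fun ξ x => by
    simp only [add_apply, mul_apply_eq_comp, lp.coeFn_add, Pi.add_apply, D_apply, Ind_apply]
    by_cases h1 : B.A x <;> by_cases h2 : B.l x < n <;>
      simp [h1, h2, not_le.mpr, not_lt.mp, B.tA, B.lt]

variable {π : (H X →L[ℂ] H X) → (K →L[ℂ] K)} (h : IsRep B.G π)
include h

theorem pos_D : Pos (π B.D) := by
  have h1 : IsSelfAdjoint (π B.D) := by rw [IsSelfAdjoint, ← h.star _ B.D_mem, D_star]
  refine ⟨h1, fun u => ?_⟩
  rw [D_sq, h.smul _ _ (mul_mem B.D_mem B.D_mem), h.mul _ B.D_mem _ B.D_mem, smul_apply, r_smul,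
    mul_apply_eq_comp, r_sa h1, r_self]
  positivity

theorem π_L0 : π B.L0 = (5 : ℂ) • ((1 - av (U π (B.g 0))) + (1 - av (U π (B.g 1))) +
    (1 - av (U π (B.g 2)))) := by
  rw [L0, h.sum _ _ fun s _ => sub_mem (one_mem _) (B.cl_M (B.gen_cl s))]
  have e : ∀ s, π (1 - V (B.gen s)) = 1 - U π (B.g s.1) ^ (s.2.1 + 1) := fun s => by
    rw [h.sub (one_mem _) (B.cl_M (B.gen_cl s)), ← h.U_pow (B.cl_M (B.g_cl _)), U, gen]
    abel
  simp only [e, Fintype.sum_prod_type, Fin.sum_univ_three, Fin.sum_univ_four, av]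
  simp only [Fin.isValue, Fin.val_zero, Fin.val_one, Fin.val_two, show (3 : Fin 4).1 = 3 from rfl,
    Nat.reduceAdd, zero_add, pow_one, Complex.ofReal_div, Complex.ofReal_one, Complex.ofReal_ofNat]
  module

theorem pr (i : Fin 3) : IsStarProjection (1 - av (U π (B.g i))) :=
  (av_proj (h.U_five (B.cl_M (B.g_cl i)) (B.pow5 i)).1
    (h.U_five (B.cl_M (B.g_cl i)) (B.pow5 i)).2).one_sub

theorem r_L0 (u : K) : r (π B.L0 u) u = 5 * (‖(1 - av (U π (B.g 0))) u‖ ^ 2 +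
    ‖(1 - av (U π (B.g 1))) u‖ ^ 2 + ‖(1 - av (U π (B.g 2))) u‖ ^ 2) := by
  rw [B.π_L0 h, smul_apply, show (5 : ℂ) = ((5 : ℝ) : ℂ) by norm_num, r_smul, add_apply, add_apply,
    r_add, r_add, r_proj (B.pr h 0), r_proj (B.pr h 1), r_proj (B.pr h 2)]

theorem pos_L0 : Pos (π B.L0) := by
  refine ⟨?_, fun u => by rw [B.r_L0 h]; positivity⟩
  rw [B.π_L0 h]
  exact IsSelfAdjoint.smul (by simp [IsSelfAdjoint])
    (((B.pr h 0).2.add (B.pr h 1).2).add (B.pr h 2).2)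

theorem gap_L0 : Gap (π B.L0) (1 / 2) := by
  have key : ∀ i, Gap ((1 - av (U π (B.g i))) + (1 - av (U π (B.g (i + 1))))) (11 / 20) := by
    intro i
    have m1 := B.cl_M (B.g_cl i)
    have m2 := B.cl_M (B.g_cl (i + 1))
    have m3 : B.z i ∈ M B.G := by
      have := mul_mem (mul_mem (mul_mem m1 m2) (inv_mem m1)) (inv_mem m2)
      simpa [B.rel i] using this
    have c1 : Commute (U π (B.z i)) (U π (B.g i)) := by
      rw [Commute, SemiconjBy, ← h.U_mul m1 m3, ← h.U_mul m3 m1, (B.comm1 i).eq]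
    have c2 : Commute (U π (B.z i)) (U π (B.g (i + 1))) := by
      rw [Commute, SemiconjBy, ← h.U_mul m2 m3, ← h.U_mul m3 m2, (B.comm2 i).eq]
    rw [add_comm]
    refine heis (h.U_five m2 (B.pow5 _)).1 (h.U_five m2 (B.pow5 _)).2 (h.U_five m1 (B.pow5 _)).1
      (h.U_five m1 (B.pow5 _)).2 (h.U_five m3 (B.zpow _)).1 (h.U_five m3 (B.zpow _)).2 c2 c1 ?_
    rw [← h.U_mul m1 m2, ← h.U_mul m1 m3, ← h.U_mul m2 (mul_mem m1 m3), ← (B.comm1 i).eq,
      ← mul_assoc, ← (B.comm2 i).eq, B.rel]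
  rw [B.π_L0 h]
  exact three_gap (B.pr h 0) (B.pr h 1) (B.pr h 2) (key 0) (key 1) (key 2)

theorem inv_of_ker {k : K} (hk : π B.L0 k = 0) {w : Perm X}
    (hw : w ∈ Subgroup.closure (Set.range B.g)) : U π w k = k := by
  induction hw using Subgroup.closure_induction with
  | mem w hw =>
    obtain ⟨i, rfl⟩ := hw
    have h1 := B.r_L0 h k
    rw [hk, r_comm, r_zero] at h1
    have h2 : ‖(1 - av (U π (B.g i))) k‖ ^ 2 = 0 := by
      fin_cases i <;> simp only [Fin.zero_eta, Fin.mk_one, Fin.reduceFinMk] <;>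
      nlinarith [sq_nonneg ‖(1 - av (U π (B.g 0))) k‖, sq_nonneg ‖(1 - av (U π (B.g 1))) k‖,
        sq_nonneg ‖(1 - av (U π (B.g 2))) k‖]
    rw [pow_eq_zero_iff two_ne_zero, norm_eq_zero, sub_apply, one_apply_eq_self, sub_eq_zero] at h2
    rw [h2, ← mul_apply_eq_comp, mul_av (h.U_five (B.cl_M (B.g_cl i)) (B.pow5 i)).1]
  | one => rw [IsRep.U_one, one_apply_eq_self]
  | mul a b ha hb h1 h2 => rw [h.U_mul (B.cl_M ha) (B.cl_M hb), mul_apply_eq_comp, h1, h2]
  | inv a ha h1 =>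
    rw [← h1, ← mul_apply_eq_comp, ← h.U_mul (B.cl_M ha) (inv_mem (B.cl_M ha)), mul_inv_cancel,
      IsRep.U_one, one_apply_eq_self, h1]

theorem gap_L (hd : ∀ n k, π B.L0 k = 0 → π (B.D * Ind fun x => B.l x < n) k = 0) :
    spectrum ℂ (π (B.L0 + B.D)) ⊆ {z : ℂ | z = 0 ∨ (z.im = 0 ∧ (1 / 2 : ℝ) ≤ z.re)} := by
  rw [h.add _ B.L0_mem _ B.D_mem, gap_iff ((B.pos_L0 h).add (B.pos_D h)) (by norm_num)]
  refine gap_add (B.pos_L0 h) (B.pos_D h) (by norm_num) (B.gap_L0 h) fun k hk => ?_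
  have key : ∀ N : ℕ, N * ‖π B.D k‖ ^ 2 ≤ ‖π B.D‖ ^ 2 * ‖k‖ ^ 2 := fun N => by
    have h1 : (⋃ i ∈ Set.Iio N, ⋃ j ∈ Set.Iio N,
        {x | i ≠ j ∧ B.A (B.w i x) ∧ B.A (B.w j x)}).Finite :=
      (Set.finite_Iio N).biUnion fun i _ => (Set.finite_Iio N).biUnion fun j _ => by
        by_cases h2 : i = j
        · simp [h2]
        · exact (B.wdis i j h2).subset fun x hx => hx.2
    obtain ⟨n, hn⟩ := (h1.image B.l).bddAbove
    have h2 := h.ind_small (fun i x => B.A (B.w i x) ∧ n + 1 ≤ B.l (B.w i x)) k N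
      (fun i hi j hj hij x hx => by
        have := hn ⟨x, Set.mem_biUnion hi (Set.mem_biUnion hj ⟨hij, hx.1.1, hx.2.1⟩), rfl⟩
        have h3 := hx.1.2
        rw [B.lev_mem (B.w_cl i)] at h3
        omega)
    rw [sum_congr rfl fun i _ => by
      rw [h.ind_norm (B.cl_M (B.w_cl i)) (fun x => B.A x ∧ n + 1 ≤ B.l x) k
        (B.inv_of_ker h hk (B.w_cl i))], sum_const, card_range, nsmul_eq_mul] at h2
    have h3 : ‖π B.D k‖ ≤ ‖π B.D‖ * ‖π (Ind fun x => B.A x ∧ n + 1 ≤ B.l x) k‖ := by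
      nth_rewrite 1 [B.D_split (n + 1)]
      rw [h.add _ (mul_mem B.D_mem (Ind_mem _ _)) _ (mul_mem B.D_mem (Ind_mem _ _)), add_apply,
        hd _ k hk, zero_add, h.mul _ B.D_mem _ (Ind_mem _ _)]
      exact (π B.D).le_opNorm _
    calc _ ≤ N * (‖π B.D‖ * ‖π (Ind fun x => B.A x ∧ n + 1 ≤ B.l x) k‖) ^ 2 := by gcongr
      _ = ‖π B.D‖ ^ 2 * (N * ‖π (Ind fun x => B.A x ∧ n + 1 ≤ B.l x) k‖ ^ 2) := by ring
      _ ≤ _ := by gcongr
  by_contra h1
  have h2 : 0 < ‖π B.D k‖ ^ 2 := by positivity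
  obtain ⟨N, hN⟩ := exists_nat_gt (‖π B.D‖ ^ 2 * ‖k‖ ^ 2 / ‖π B.D k‖ ^ 2)
  rw [div_lt_iff₀ h2] at hN
  linarith [key N]

omit h

open Classical in
theorem nbr (x : X) : B.G.neighborSet x =
    (univ.image (fun s => B.gen s x) ∪ (if B.A x then {B.τ x} else ∅) : Finset X) := by
  ext y
  by_cases h : B.A x <;> simp [G, h, eq_comm, or_comm]

open Classical in
theorem deg (x : X) : (B.G.neighborSet x).ncard = 12 + if B.A x then 1 else 0 := by
  rw [nbr, Set.ncard_coe_finset, card_union_of_disjoint,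
    card_image_of_injective (f := fun s => B.gen s x) _ fun s s' h => B.inj s s' x h]
  · split_ifs <;> simp
  · split_ifs with h
    · simpa [gen] using fun a b => ((B.τne x h).2 (a, b)).symm
    · simp

theorem ent_diag (x : X) : (B.L0 + B.D) (δ x) x = (B.G.neighborSet x).ncard := by
  have h1 : ∀ s, B.gen s x ≠ x := fun s => B.ne s x
  rw [deg, add_apply, lp.coeFn_add, Pi.add_apply, L0_apply, D_apply]
  by_cases h : B.A x
  · simp [δ_apply, h1, h, (B.τne x h).1]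
    norm_num
  · simp [δ_apply, h1, h]

theorem ent_adj {x y : X} (h : B.G.Adj x y) : (B.L0 + B.D) (δ x) y = -1 := by
  have h1 := h.ne'
  rw [add_apply, lp.coeFn_add, Pi.add_apply, L0_apply, D_apply]
  rcases h.symm with ⟨s, rfl⟩ | ⟨h2, rfl⟩
  · rw [sum_eq_single s (fun s' _ h3 => by
      simp [δ_apply, h1, show B.gen s' y ≠ B.gen s y from fun h => h3 (B.inj _ _ _ h)]) (by simp)]
    by_cases h2 : B.A y
    · simp [δ_apply, h1, h2, show B.τ y ≠ B.gen s y from (B.τne y h2).2 s]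
    · simp [δ_apply, h1, h2]
  · have h3 : ∀ s, B.gen s y ≠ B.τ y := fun s => ((B.τne y h2).2 s).symm
    simp [δ_apply, h1, h2, h3]

theorem ent_nadj {x y : X} (h1 : x ≠ y) (h : ¬ B.G.Adj x y) : (B.L0 + B.D) (δ x) y = 0 := by
  rw [add_apply, lp.coeFn_add, Pi.add_apply, L0_apply, D_apply]
  have h2 : ∀ s, B.gen s y ≠ x := fun s h3 => h (B.G.adj_symm (Or.inl ⟨s, h3.symm⟩))
  by_cases h3 : B.A y
  · have h4 : B.τ y ≠ x := fun h4 => h (B.G.adj_symm (Or.inr ⟨h3, h4.symm⟩))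
    simp [δ_apply, h1.symm, h2, h4]
  · simp [δ_apply, h1.symm, h2, h3]

end Box

end Pool.Agent.H86.Kaz
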