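import Pool.Agent.H86.KazB

set_option autoImplicit false

namespace Pool.Agent.H86.Kaz

open Finset Equiv Roe Matrix

section el
variable {R : Type} [CommRing R]

/-- elementary matrix -/
def el (i j : Fin 3) (h : i ≠ j) (c : R) : SpecialLinearGroup (Fin 3) R :=
  ⟨transvection i j c, det_transvection_of_ne i j h c⟩

theorem el_rel {i j k : Fin 3} (h1 : i ≠ j) (h2 : j ≠ k) (h3 : i ≠ k) (x y : R) :
    el i j h1 x * el j k h2 y = el i k h3 (x * y) * el j k h2 y * el i j h1 x := by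
  apply Subtype.ext
  simp [el, transvection, Matrix.add_mul, Matrix.mul_add, h2.symm, h3.symm]
  abel

theorem el_comm {i j k l : Fin 3} (h1 : i ≠ j) (h2 : k ≠ l) (h3 : j ≠ k) (h4 : l ≠ i) (x y : R) :
    Commute (el i j h1 x) (el k l h2 y) := by
  apply Subtype.ext
  simp [el, transvection, Matrix.add_mul, Matrix.mul_add, h3, h4]
  abel

theorem el_add {i j : Fin 3} (h : i ≠ j) (x y : R) :
    el i j h x * el i j h y = el i j h (x + y) :=
  Subtype.ext (transvection_mul_transvection_same i j h x y)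

theorem el_zero {i j : Fin 3} (h : i ≠ j) : el i j h (0 : R) = 1 :=
  Subtype.ext (transvection_zero i j)

theorem el_pow {i j : Fin 3} (h : i ≠ j) (x : R) (n : ℕ) : el i j h x ^ n = el i j h (n * x) := by
  induction n with
  | zero => simp [el_zero]
  | succ n ih => rw [pow_succ, ih, el_add]; congr 1; push_cast; ring

theorem el_eq {i j k l : Fin 3} {h : i ≠ j} {h' : k ≠ l} {x y : R}
    (e : el i j h x = el k l h' y) : x = if k = i ∧ l = j then y else 0 := by
  have := congrArg (fun M : SpecialLinearGroup (Fin 3) R => M.1 i j) e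
  simpa [el, transvection, h, Matrix.single_apply] using this

end el

instance five : Fact (Nat.Prime 5) := ⟨by norm_num⟩

/-- the finite fields -/
abbrev F (s : ℕ) : Type := GaloisField 5 (2 * s + 2)

theorem ex_t (s : ℕ) : ∃ t : F s, t ≠ 0 ∧ ∀ i < 13 ^ s + 1, ∀ j < 13 ^ s + 1, t ^ i = t ^ j →
    i = j := by
  obtain ⟨t, ht⟩ := IsCyclic.exists_ofOrder_eq_natCard (α := (F s)ˣ)
  rw [Nat.card_units, GaloisField.card 5 _ (by omega)] at ht
  have h1 : 13 ^ s + 1 ≤ orderOf t := by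
    rw [ht, pow_add, pow_mul]
    have : 13 ^ s ≤ (5 ^ 2) ^ s := Nat.pow_le_pow_left (by norm_num) s
    have : 1 ≤ 13 ^ s := Nat.one_le_pow _ _ (by norm_num)
    omega
  refine ⟨t, t.ne_zero, fun i hi j hj h => pow_injOn_Iio_orderOf (x := t)
    (lt_of_lt_of_le hi h1) (lt_of_lt_of_le hj h1) (Units.ext (by simpa using h))⟩

/-- an element of large order -/
noncomputable def t (s : ℕ) : F s := (ex_t s).choose

theorem t_inj {s i j : ℕ} (hi : i ≤ 13 ^ s) (hj : j ≤ 13 ^ s) (h : t s ^ i = t s ^ j) : i = j :=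
  (ex_t s).choose_spec.2 i (by omega) j (by omega) h

theorem t_ne (s : ℕ) : t s ≠ 0 := (ex_t s).choose_spec.1

/-- the finite groups -/
abbrev SL (s : ℕ) : Type := SpecialLinearGroup (Fin 3) (F s)

instance (s : ℕ) : Finite (SL s) := Subtype.finite

/-- the vertex set -/
abbrev XX (β : Type) : Type := Σ s : ℕ, SL s × β

/-- left multiplication -/
noncomputable def ρ (β : Type) : (∀ s, SL s) →* Perm (XX β) where
  toFun γ := Equiv.sigmaCongrRight fun s => Equiv.prodCongr (Equiv.mulLeft (γ s)) (Equiv.refl β)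
  map_one' := by ext1 ⟨s, x, b⟩; simp
  map_mul' γ γ' := by ext1 ⟨s, x, b⟩; simp [mul_assoc]

theorem ρ_apply {β : Type} (γ : ∀ s, SL s) (s : ℕ) (x : SL s) (b : β) :
    ρ β γ ⟨s, x, b⟩ = ⟨s, γ s * x, b⟩ := rfl

theorem n1 (i : Fin 3) : i ≠ i + 1 := by revert i; decide
theorem n2 (i : Fin 3) : i ≠ i + 1 + 1 := by revert i; decide

/-- coefficients of the generators -/
noncomputable def cf (s : ℕ) : Fin 3 → F s := ![1, 1, t s]

theorem cf_ne (s : ℕ) (i : Fin 3) : cf s i ≠ 0 := by fin_cases i <;> simp [cf, t_ne]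

/-- generators -/
noncomputable def g0 (i : Fin 3) : ∀ s, SL s := fun s => el i (i + 1) (n1 i) (cf s i)

theorem g0_pow (i : Fin 3) (n s : ℕ) : (g0 i ^ n) s = el i (i + 1) (n1 i) (n * cf s i) :=
  el_pow _ _ _

theorem five_zero (s : ℕ) : ((5 : ℕ) : F s) = 0 := CharP.cast_eq_zero _ 5

theorem cast_ne (s : ℕ) (k : Fin 4) : ((k.1 + 1 : ℕ) : F s) ≠ 0 := by
  rw [Ne, CharP.cast_eq_zero_iff (F s) 5]
  exact Nat.not_dvd_of_pos_of_lt (by omega) (by omega)

theorem el_mem (N : Subgroup (∀ s, SL s)) (h : ∀ i, g0 i ∈ N) (n : ℕ) :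
    (fun s => el 0 1 (by decide) (t s ^ n)) ∈ N ∧ (fun s => el 0 2 (by decide) (t s ^ n)) ∈ N := by
  have key : ∀ {i j k : Fin 3} (h1 : i ≠ j) (h2 : j ≠ k) (h3 : i ≠ k) (x y : ∀ s, F s),
      (fun s => el i j h1 (x s)) ∈ N → (fun s => el j k h2 (y s)) ∈ N →
      (fun s => el i k h3 (x s * y s)) ∈ N := by
    intro i j k h1 h2 h3 x y a b
    have := N.mul_mem (N.mul_mem (N.mul_mem a b) (N.inv_mem a)) (N.inv_mem b)
    convert this using 1
    ext1 s
    simp [el_rel h1 h2 h3]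
  have h0 : (fun s => el 0 1 (by decide) (1 : F s)) ∈ N := h 0
  have h1 : (fun s => el 1 2 (by decide) (1 : F s)) ∈ N := h 1
  have h2 : (fun s => el 2 0 (by decide) (t s)) ∈ N := h 2
  have h3 := key _ _ (by decide) _ _ h2 h0
  have h4 : ∀ n : ℕ, (fun s => el 0 1 (by decide) (t s ^ n)) ∈ N →
      (fun s => el 0 2 (by decide) (t s ^ n)) ∈ N := fun n h => by
    simpa using key _ _ (by decide) _ _ h h1
  refine ⟨?_, h4 n ?_⟩ <;>
  · induction n with
    | zero => simpa using h0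
    | succ n ih => simpa [pow_succ] using key _ _ (by decide) _ _ (h4 n ih) h3

theorem lev_fin {β : ℕ → Type} [∀ n, Finite (β n)] (n : ℕ) :
    {y : Σ n, β n | y.1 < n}.Finite :=
  ((Set.finite_Iio n).biUnion fun i _ => Set.finite_range (Sigma.mk i)).subset
    fun y hy => Set.mem_biUnion (show y.1 ∈ Set.Iio n from hy) ⟨y.2, rfl⟩

/-- the concrete box -/
noncomputable def mk (β : Type) [Finite β] (τ : Perm (XX β)) (A : XX β → Prop)
    (τ2 : ∀ x, τ (τ x) = x) (τA : ∀ x, A (τ x) ↔ A x) (lτ : ∀ x, (τ x).1 = x.1)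
    (τne : ∀ x, A x → ∀ i c, τ x ≠ ⟨x.1, el i (i + 1) (n1 i) c * x.2.1, x.2.2⟩)
    (wd : ∀ x c, A x → A ⟨x.1, el 0 1 (by decide) c * x.2.1, x.2.2⟩ → c = 0) : Box (XX β) where
  g i := ρ β (g0 i)
  z i := ρ β fun s => el i (i + 1 + 1) (n2 i) (cf s i * cf s (i + 1))
  τ := τ
  A := A
  l := Sigma.fst
  w n := ρ β fun s => el 0 1 (by decide) (t s ^ n)
  pow5 i := by
    rw [← map_pow, ← map_one (ρ β)]
    congr 1
    ext1 s
    rw [g0_pow, five_zero, zero_mul, el_zero, Pi.one_apply]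
  rel i := by
    rw [← map_mul, ← map_mul, ← map_mul]
    exact congrArg _ (funext fun s => el_rel _ _ _ _ _)
  comm1 i := Commute.map (show Commute (fun s => el i (i + 1 + 1) (n2 i) (cf s i * cf s (i + 1)))
    (g0 i) from funext fun s => (el_comm _ _ (n2 i).symm (n1 i).symm _ _).eq) _
  comm2 i := Commute.map (show Commute (fun s => el i (i + 1 + 1) (n2 i) (cf s i * cf s (i + 1)))
    (g0 (i + 1)) from funext fun s => (el_comm _ _ (n1 _).symm (n2 i).symm _ _).eq) _
  zpow i := by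
    rw [← map_pow, ← map_one (ρ β)]
    congr 1
    ext1 s
    rw [Pi.pow_apply, el_pow, five_zero, zero_mul, el_zero, Pi.one_apply]
  inj := by
    rintro ⟨i, k⟩ ⟨i', k'⟩ ⟨s, x, b⟩ h
    simp only [← map_pow, ρ_apply, g0_pow, Sigma.mk.injEq, heq_eq_eq, true_and, Prod.mk.injEq,
      mul_left_inj, and_true] at h
    have h1 := el_eq h
    split_ifs at h1 with h2
    · obtain ⟨rfl, -⟩ := h2
      have h3 := CharP.natCast_injOn_Iio (F s) 5 (show k.1 + 1 < 5 by omega)
        (show k'.1 + 1 < 5 by omega) (mul_right_cancel₀ (cf_ne s _) h1)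
      rw [Fin.ext (Nat.succ_injective h3)]
    · exact absurd h1 (mul_ne_zero (cast_ne s k) (cf_ne s i))
  ne := by
    rintro ⟨i, k⟩ ⟨s, x, b⟩ h
    simp only [← map_pow, ρ_apply, g0_pow, Sigma.mk.injEq, heq_eq_eq, true_and, Prod.mk.injEq,
      mul_eq_right, and_true] at h
    have h1 := el_eq (h.trans (el_zero (n1 i)).symm)
    rw [ite_self] at h1
    exact mul_ne_zero (cast_ne s k) (cf_ne s i) h1
  τ2 := τ2
  τA := τA
  τne := by
    rintro ⟨s, x, b⟩ h
    refine ⟨by simpa [el_zero] using τne _ h 0 0, fun u => ?_⟩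
    rw [← map_pow, ρ_apply, g0_pow]
    exact τne _ h _ _
  lg _ _ := rfl
  lτ := lτ
  fin := lev_fin
  wmem N h n := (el_mem (N.comap (ρ β)) h n).1
  wdis n m hnm := (lev_fin (β := fun s => SL s × β) (n + m)).subset (by
    rintro ⟨s, x, b⟩ ⟨h1, h2⟩
    rw [ρ_apply] at h1 h2
    have h3 := wd ⟨s, el 0 1 (by decide) (t s ^ n) * x, b⟩ (t s ^ m - t s ^ n) h1 (by
      rw [← mul_assoc, el_add, sub_add_cancel]; exact h2)
    by_contra h4
    have h5 : n + m ≤ 13 ^ s := (not_lt.mp h4).trans (Nat.lt_pow_self (by norm_num)).le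
    exact hnm (t_inj (le_of_add_le_left h5) (le_of_add_le_right h5) (sub_eq_zero.mp h3).symm))

/-- transport of a box along a bijection -/
def Box.map {X Y : Type} (B : Box X) (e : X ≃ Y) : Box Y where
  g i := e.permCongrHom (B.g i)
  z i := e.permCongrHom (B.z i)
  τ := e.permCongrHom B.τ
  A y := B.A (e.symm y)
  l y := B.l (e.symm y)
  w n := e.permCongrHom (B.w n)
  pow5 i := by rw [← map_pow, B.pow5, map_one]
  rel i := by rw [← map_mul, B.rel, map_mul, map_mul]
  comm1 i := (B.comm1 i).map _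
  comm2 i := (B.comm2 i).map _
  zpow i := by rw [← map_pow, B.zpow, map_one]
  inj s s' x h := by
    rw [← map_pow, ← map_pow] at h
    exact B.inj s s' _ (e.injective h)
  ne s x h := by
    rw [← map_pow] at h
    exact B.ne s _ (e.eq_symm_apply.mpr h)
  τ2 x := by simp [permCongrHom, B.τ2]
  τA x := by simp [permCongrHom, B.tA]
  τne x h := ⟨fun h' => (B.τne _ h).1 (e.eq_symm_apply.mpr h'), fun s h' => by
    rw [← map_pow] at h'
    exact (B.τne _ h).2 s (e.injective h')⟩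
  lg i x := by simp [permCongrHom, B.lg]
  lτ x := by simp [permCongrHom, B.lt]
  fin n := (B.fin n).preimage e.symm.injective.injOn
  wmem N h n := B.wmem (N.comap e.permCongrHom.toMonoidHom) h n
  wdis n m h := ((B.wdis n m h).preimage e.symm.injective.injOn).subset fun x hx => by
    simpa [permCongrHom] using hx

theorem rep_id {X : Type} (G : SimpleGraph X) : IsRep G id :=
  ⟨fun _ _ _ _ => rfl, fun _ _ _ _ => rfl, fun _ _ _ => rfl, fun _ _ => rfl⟩

theorem Box.D_half {X : Type} (B : Box X) (u : H X) : r (B.D u) u = 1 / 2 * ‖B.D u‖ ^ 2 := by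
  nth_rewrite 1 [B.D_sq]
  rw [_root_.smul_apply, r_smul, mul_apply_eq_comp, r_sa (show IsSelfAdjoint B.D from B.D_star), r_self]

theorem Box.no_gap {X : Type} (B : Box X) (side : X → Bool) (h1 : ∀ i x, side (B.g i x) = side x)
    (h2 : ∀ x, side (B.τ x) = !side x) (h3 : ∀ i, Commute B.τ (B.g i))
    (h4 : ∀ n, ∃ F : Finset X, #F ≤ 2 ∧ ∀ x, B.A x → B.l x = n → x ∈ F)
    (h5 : ∀ N, ∃ a, B.A a ∧ Set.InjOn (fun n => B.w n a) (Set.Iio N)) {c : ℝ} (hc : 0 < c) :
    ¬ Gap (B.L0 + B.D) c := by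
  classical
  intro hG
  obtain ⟨N, hN⟩ := exists_nat_gt (5 / c)
  obtain ⟨a, ha, hi⟩ := h5 N
  have b1 : ∀ w ∈ Subgroup.closure (Set.range B.g), (∀ x, side (w x) = side x) ∧
      Commute B.τ w := fun w hw => by
    induction hw using Subgroup.closure_induction with
    | mem w hw => obtain ⟨i, rfl⟩ := hw; exact ⟨h1 i, h3 i⟩
    | one => exact ⟨fun _ => rfl, Commute.one_right _⟩
    | mul a b _ _ ha hb => exact ⟨fun x => by rw [Perm.mul_apply, ha.1, hb.1], ha.2.mul_right hb.2⟩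
    | inv a _ ha => exact ⟨fun x => by rw [← ha.1, Perm.inv_def, apply_symm_apply], ha.2.inv_right⟩
  obtain ⟨C, hC⟩ : ∃ C : Finset X, ∀ x, x ∈ C ↔ B.l x = B.l a ∧
      ∃ w ∈ Subgroup.closure (Set.range B.g), ∃ a', B.A a' ∧ x = w a' :=
    ⟨((B.fin (B.l a + 1)).subset (t := {x | B.l x = B.l a ∧ ∃ w ∈ Subgroup.closure
      (Set.range B.g), ∃ a', B.A a' ∧ x = w a'}) fun x hx => by
        simp [hx.1]).toFinset, fun x => Set.Finite.mem_toFinset _⟩
  have c1 : ∀ w ∈ Subgroup.closure (Set.range B.g), ∀ x ∈ C, w x ∈ C := fun w hw x hx => by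
    obtain ⟨d1, w', d2, a', d3, rfl⟩ := (hC x).mp hx
    exact (hC _).mpr ⟨(B.lev_mem hw _).trans d1, w * w', mul_mem hw d2, a', d3, rfl⟩
  have c2 : ∀ x ∈ C, B.τ x ∈ C := fun x hx => by
    obtain ⟨d1, w', d2, a', d3, rfl⟩ := (hC x).mp hx
    exact (hC _).mpr ⟨(B.lt _).trans d1, w', d2, B.τ a', (B.tA _).mpr d3,
      congrArg (fun f : Perm X => f a') (b1 w' d2).2.eq⟩
  let sg : X → ℂ := fun x => if side x then 1 else -1
  have s1 : ∀ x, sg (B.τ x) = -sg x := fun x => by cases h : side x <;> simp [sg, h2, h]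
  have s2 : ∀ x, ‖sg x‖ = 1 := fun x => by cases h : side x <;> simp [sg, h]
  let ξ : H X := ∑ x ∈ C, sg x • δ x
  have e1 : ∀ y, ξ y = if y ∈ C then sg y else 0 := fun y => by
    rw [lp.coeFn_sum, Finset.sum_apply]
    simp [δ_apply]
  have e2 : B.L0 ξ = 0 := lp.ext (funext fun x => by
    rw [B.L0_apply]
    refine sum_eq_zero fun s _ => ?_
    have : B.gen s x ∈ C ↔ x ∈ C := ⟨fun h => by
      simpa using c1 _ (inv_mem (B.gen_cl s)) _ h, c1 _ (B.gen_cl s) x⟩
    simp [e1, this, sg, (b1 _ (B.gen_cl s)).1])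
  have e3 : ‖B.D ξ‖ ≤ 3 := norm_le_of _ (by norm_num) fun s => by
    obtain ⟨F, d1, d2⟩ := h4 (B.l a)
    have d3 : ∀ x, ‖B.D ξ x‖ ^ 2 ≤ if x ∈ F then 4 else 0 := fun x => by
      have : B.τ x ∈ C ↔ x ∈ C := ⟨fun h => by simpa [B.τ2] using c2 _ h, c2 x⟩
      rw [B.D_apply, e1, e1]
      by_cases d4 : B.A x ∧ x ∈ C
      · simp only [d4.1, d4.2, this, d2 x d4.1 ((hC x).mp d4.2).1, if_true, s1, sub_neg_eq_add,
          ← two_mul, norm_mul, s2]
        norm_num
      · have d5 : (0 : ℝ) ≤ if x ∈ F then 4 else 0 := by positivity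
        by_cases d6 : B.A x
        · simpa [this, show x ∉ C from fun h => d4 ⟨d6, h⟩] using d5
        · simpa [d6] using d5
    refine (sum_le_sum fun x _ => d3 x).trans ?_
    rw [sum_ite_mem, sum_const, nsmul_eq_mul]
    have : (#(s ∩ F) : ℝ) ≤ 2 := by exact_mod_cast (card_le_card inter_subset_right).trans d1
    linarith
  have e4 : (N : ℝ) ≤ ‖ξ‖ ^ 2 := by
    refine le_trans ?_ (sum_le_sq ξ C)
    rw [sum_congr rfl (g := fun _ => (1 : ℝ)) fun x hx => by simp [e1, hx, s2], sum_const,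
      nsmul_one, Nat.cast_le, ← card_range N]
    refine card_le_card_of_injOn (fun n => B.w n a) (fun n _ => ?_) (by simpa using hi)
    exact (hC _).mpr ⟨B.lev_mem (B.w_cl n) a, _, B.w_cl n, a, ha, rfl⟩
  have p0 := B.pos_L0 (rep_id _)
  have p1 := B.pos_D (rep_id _)
  have e5 := gap_perp (p0.add p1) hc.le hG ξ fun k hk => by
    have d1 : r ((B.L0 + B.D) k) k = 0 := by
      rw [show (B.L0 + B.D) k = 0 from hk, r_comm, r_zero]
    rw [_root_.add_apply, r_add, B.D_half] at d1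
    have d2 : B.D k = 0 := by
      have := p0.2 k
      rw [← norm_eq_zero, ← pow_eq_zero_iff two_ne_zero]
      exact le_antisymm (by simp only [id] at this; linarith) (by positivity)
    have d3 : B.L0 k = 0 := by simpa [d2] using hk
    have d4 : ∀ x ∈ C, k (B.τ x) = k x := fun x hx => by
      obtain ⟨-, w, d5, a', d6, rfl⟩ := (hC x).mp hx
      have d7 : ∀ y, k (w y) = k y := fun y => by
        have := B.inv_of_ker (rep_id _) d3 d5
        rw [← V_apply]
        simp only [U, id, sub_self, add_zero] at this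
        rw [this]
      have d8 := B.D_apply k a'
      rw [d2, if_pos d6] at d8
      rw [← Perm.mul_apply, (b1 w d5).2.eq, Perm.mul_apply, d7, d7]
      exact (sub_eq_zero.mp d8.symm).symm
    have d5 : inner ℂ k ξ = ∑ x ∈ C, sg x * (starRingEnd ℂ) (k x) := by
      rw [inner_sum]
      exact sum_congr rfl fun x _ => by rw [inner_smul_right, ← inner_conj_symm, inner_δ]
    have d6 : ∑ x ∈ C, sg x * (starRingEnd ℂ) (k x) =
        ∑ x ∈ C, -(sg x * (starRingEnd ℂ) (k x)) :=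
      sum_nbij' B.τ B.τ c2 c2 (fun x _ => B.τ2 x) (fun x _ => B.τ2 x)
        fun x hx => by rw [s1, d4 x hx]; ring
    rw [sum_neg_distrib, ← d5] at d6
    linear_combination d6 / 2
  simp only [id, _root_.add_apply, e2, zero_add, B.D_half] at e5
  rw [div_lt_iff₀ hc] at hN
  nlinarith [norm_nonneg (B.D ξ)]

end Pool.Agent.H86.Kaz
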