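import Pool.Agent.H86.KazC

set_option autoImplicit false

namespace Pool.Agent.H86.Kaz

open Finset Equiv Roe

variable {X : Type}

/-- twisting the entries of an operator -/
noncomputable def tw (C : Finset X) (s : X → X → ℂ) : (H X →L[ℂ] H X) →ₗ[ℂ] (H X →L[ℂ] H X) :=
  ∑ w ∈ C, LinearMap.mulLeftRight ℂ (Ind (· = w), Roe.D fun u => s u w)

/-- propagation bound -/
def Pr (G : SimpleGraph X) (R : ℕ) (a : H X →L[ℂ] H X) : Prop :=
  ∀ x y, a (δ x) y ≠ 0 → G.edist x y ≤ R

section tw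
variable {C : Finset X} {s : X → X → ℂ} (hs : ∀ u w, ‖s u w‖ ≤ 1)
include hs

omit hs in
open Classical in
theorem tw_apply (a : H X →L[ℂ] H X) (ξ : H X) (w : X) :
    tw C s a ξ w = if w ∈ C then a (Roe.D (fun u => s u w) ξ) w else 0 := by
  rw [tw, LinearMap.sum_apply, _root_.sum_apply, lp.coeFn_sum, Finset.sum_apply]
  simp [Ind_apply]

theorem Ds_apply (ξ : H X) (u w : X) : Roe.D (fun u => s u w) ξ u = s u w * ξ u :=
  Roe.D_apply zero_le_one (fun u => hs u w) ξ u

open Classical in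
theorem tw_δ (a : H X →L[ℂ] H X) (u w : X) :
    tw C s a (δ u) w = if w ∈ C then s u w * a (δ u) w else 0 := by
  have : Roe.D (fun u => s u w) (δ u) = s u w • δ u := lp.ext (funext fun x => by
    by_cases h : x = u <;> simp [Ds_apply hs, δ_apply, h])
  simp [tw_apply, this]

variable {G : SimpleGraph X} {R : ℕ} (hC : ∀ x y, G.edist x y ≤ R → (x ∈ C ↔ y ∈ C))
include hC

theorem tw_mul (hco : ∀ u x w, G.edist u x ≤ R → G.edist x w ≤ R → s u w = s u x * s x w)
    {a b : H X →L[ℂ] H X} (ha : Pr G R a) (hb : Pr G R b) :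
    tw C s (a * b) = tw C s a * tw C s b := ext_ent fun u w => by
  rw [tw_δ hs, mul_apply_eq_comp, mul_apply_eq_comp, tw_apply]
  split_ifs with h
  · have := apply_eq_zero a (s u w • b (δ u) - Roe.D (fun u => s u w) (tw C s b (δ u))) w
      fun x => by
        by_cases h1 : a (δ x) w = 0
        · exact Or.inr h1
        · left
          by_cases h2 : b (δ u) x = 0
          · simp [Ds_apply hs, tw_δ hs, h2]
          · simp [Ds_apply hs, tw_δ hs, (hC _ _ (ha _ _ h1)).mpr h,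
              hco u x w (hb _ _ h2) (ha _ _ h1), mul_left_comm, mul_assoc]
    simpa [sub_eq_zero] using this
  · rfl

theorem tw_star (hst : ∀ u w, G.edist u w ≤ R → s u w = star (s w u))
    {a : H X →L[ℂ] H X} (ha : Pr G R a) : tw C s (star a) = star (tw C s a) :=
  ext_ent fun u w => by
    rw [tw_δ hs, ContinuousLinearMap.star_eq_adjoint, ContinuousLinearMap.star_eq_adjoint,
      adj_ent, adj_ent, tw_δ hs]
    by_cases h : a (δ w) u = 0
    · simp [h]
    · have h1 := ha _ _ h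
      by_cases h2 : w ∈ C
      · simp [h2, (hC _ _ h1).mp h2, hst w u h1, mul_comm]
      · simp [h2, (hC _ _ h1).not.mp h2]

end tw

theorem Pr.star {G : SimpleGraph X} {R : ℕ} {a : H X →L[ℂ] H X} (ha : Pr G R a) :
    Pr G R (star a) := fun x y h => by
  rw [ContinuousLinearMap.star_eq_adjoint, adj_ent, star_ne_zero] at h
  rw [G.edist_comm]
  exact ha _ _ h

theorem Pr.mono {G : SimpleGraph X} {R R' : ℕ} {a : H X →L[ℂ] H X} (ha : Pr G R a) (h : R ≤ R') :
    Pr G R' a := fun x y h' => (ha x y h').trans (by exact_mod_cast h)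

/-- winding sign -/
noncomputable def sg (h : X → ℕ) (R D : ℕ) (u w : X) : ℂ :=
  (-1) ^ (((h w : ℤ) - h u + 2 * R) / D)

theorem sg_eq {h : X → ℕ} {R D : ℕ} (hD : 4 * R < D) {u w : X} {m : ℤ}
    (hm : |(h w : ℤ) - h u - m * D| ≤ 2 * R) : sg h R D u w = (-1) ^ m := by
  rw [sg]
  congr 1
  rw [abs_le] at hm
  rw [show (h w : ℤ) - h u + 2 * R = (h w - h u - m * D + 2 * R) + m * D by ring,
    Int.add_mul_ediv_right _ _ (by omega), Int.ediv_eq_zero_of_lt (by omega) (by omega), zero_add]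

theorem near {G : SimpleGraph X} {h : X → ℕ} {R D : ℕ}
    (h1 : ∀ u w, G.Adj u w → ∃ m : ℤ, |(h w : ℤ) - h u - m * D| ≤ 1) {u w : X}
    (h2 : G.edist u w ≤ R) : ∃ m : ℤ, |(h w : ℤ) - h u - m * D| ≤ R := by
  obtain ⟨p, hp⟩ := G.exists_walk_of_edist_ne_top (ne_top_of_le_ne_top (by simp) h2)
  have h3 : p.length ≤ R := by exact_mod_cast hp.le.trans h2
  suffices ∃ m : ℤ, |(h w : ℤ) - h u - m * D| ≤ p.length from
    this.imp fun m hm => hm.trans (by exact_mod_cast h3)
  clear hp h3 h2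
  induction p with
  | nil => exact ⟨0, by simp⟩
  | cons h p ih =>
    obtain ⟨m, hm⟩ := h1 _ _ h
    obtain ⟨m', hm'⟩ := ih
    refine ⟨m + m', ?_⟩
    rw [abs_le] at *
    rw [SimpleGraph.Walk.length_cons, add_mul]
    push_cast
    constructor <;> linarith

theorem ball_card {G : SimpleGraph X} (hG : ∀ x, ∃ F : Finset X, #F ≤ 12 ∧ ∀ y, G.Adj x y → y ∈ F)
    (r : ℕ) : ∀ x, ∃ F : Finset X, #F ≤ 13 ^ r ∧ ∀ y (p : G.Walk x y), p.length ≤ r → y ∈ F := by
  classical
  induction r with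
  | zero => exact fun x => ⟨{x}, by simp, fun y p hp => by
      simp [p.eq_of_length_eq_zero (Nat.le_zero.mp hp)]⟩
  | succ r ih =>
    intro x
    choose F h1 h2 using ih
    obtain ⟨N, h3, h4⟩ := hG x
    refine ⟨(insert x N).biUnion F, (card_biUnion_le_card_mul _ _ _ fun y _ => h1 y).trans ?_,
      fun y p hp => ?_⟩
    · rw [pow_succ']
      exact Nat.mul_le_mul_right _ ((card_insert_le _ _).trans (by omega))
    · cases p with
      | nil => exact mem_biUnion.mpr ⟨x, mem_insert_self _ _, h2 _ _ .nil (by simp)⟩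
      | cons h p => exact mem_biUnion.mpr ⟨_, mem_insert_of_mem (h4 _ h), h2 _ _ p (by
          simpa using hp)⟩

namespace Box
variable (B : Box X)

/-- the graph of the generators -/
def G0 : SimpleGraph X where
  Adj x y := ∃ s, y = B.gen s x
  symm := ⟨by
    rintro x y ⟨s, rfl⟩
    exact ⟨_, (B.gen_inv s x).symm⟩⟩
  loopless := ⟨fun x ⟨s, h⟩ => B.ne s x h.symm⟩

theorem reach_cl {w : Perm X} (h : w ∈ Subgroup.closure (Set.range B.g)) (x : X) :
    B.G0.Reachable x (w x) := by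
  induction h using Subgroup.closure_induction generalizing x with
  | mem w hw =>
    obtain ⟨i, rfl⟩ := hw
    exact SimpleGraph.Adj.reachable ⟨(i, 0), by simp [gen]⟩
  | one => rfl
  | mul a b _ _ ha hb => exact (hb x).trans (ha _)
  | inv a _ ha => simpa using (ha (a⁻¹ x)).symm

variable (horb : ∀ x, B.A x → ∃ w ∈ Subgroup.closure (Set.range B.g), B.τ x = w x)
include horb

theorem geomT {K : Type*} [NormedAddCommGroup K] [InnerProductSpace ℂ K] [CompleteSpace K]
    {π : (H X →L[ℂ] H X) → (K →L[ℂ] K)} (h : IsRep B.G π) :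
    spectrum ℂ (π (B.L0 + B.D)) ⊆ {z : ℂ | z = 0 ∨ (z.im = 0 ∧ (1 / 2 : ℝ) ≤ z.re)} := by
  classical
  refine B.gap_L h fun n k hk => ?_
  choose! w h1 h2 using horb
  have e : B.D * Ind (fun x => B.l x < n) =
      ∑ x ∈ (B.fin n).toFinset.filter B.A, Ind (· = x) * (1 - V (w x)) := ext_pt fun ξ x => by
    rw [_root_.sum_apply, lp.coeFn_sum, Finset.sum_apply]
    simp only [mul_apply_eq_comp, D_apply, Ind_apply, sum_ite_eq, B.lt]
    by_cases h3 : B.A x <;> by_cases h4 : B.l x < n <;> simp [h3, h4, V_apply, h2]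
  have m : ∀ x ∈ (B.fin n).toFinset.filter B.A, 1 - V (w x) ∈ FPG B.G := fun x hx =>
    sub_mem (one_mem _) (B.cl_M (h1 x (mem_filter.mp hx).2))
  rw [e, h.sum _ _ fun x hx => mul_mem (Ind_mem _ _) (m x hx), _root_.sum_apply]
  refine sum_eq_zero fun x hx => ?_
  have h3 := h1 x (mem_filter.mp hx).2
  have h4 := B.inv_of_ker h hk h3
  rw [U, add_apply, sub_apply, one_apply_eq_self, ← add_sub_assoc, sub_eq_iff_eq_add, add_comm,
    add_right_inj] at h4
  rw [h.mul _ (Ind_mem _ _) _ (m x hx), h.sub (one_mem _) (B.cl_M h3), mul_apply_eq_comp,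
    sub_apply, h4, sub_self, map_zero]

theorem no_sos {x0 : X} (hx0 : B.A x0) (hA : ∀ x, B.A x → B.l x = B.l x0 → x = x0 ∨ x = B.τ x0)
    {R : ℕ} (hR : 1 ≤ R) (hD : 4 * R < B.G0.dist x0 (B.τ x0)) {ι : Type} (S : Finset ι)
    (b : ι → H X →L[ℂ] H X) (hb : ∀ i ∈ S, Pr B.G R (b i)) {c : ℝ} (hc : 0 ≤ c)
    (h : (B.L0 + B.D) * (B.L0 + B.D) - (c : ℂ) • (B.L0 + B.D) = ∑ i ∈ S, star (b i) * b i) :
    c * R ≤ 2 := by
  classical
  have r1 : ∀ x, B.A x → B.G0.Reachable x (B.τ x) := fun x hx => by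
    obtain ⟨w, h1, h2⟩ := horb x hx
    exact h2 ▸ B.reach_cl h1 x
  have r2 : ∀ x y, B.G0.Reachable x y → B.l y = B.l x := fun x y h =>
    B.reach_lev (h.mono fun _ _ h => Or.inl h)
  obtain ⟨C, hC⟩ : ∃ C : Finset X, ∀ x, x ∈ C ↔ B.G0.Reachable x0 x :=
    ⟨((B.fin (B.l x0 + 1)).subset (t := {x | B.G0.Reachable x0 x}) fun x hx => by
      simp [r2 _ _ hx]).toFinset, fun x => Set.Finite.mem_toFinset _⟩
  have c0 : ∀ x y, B.G0.Reachable x y → (x ∈ C ↔ y ∈ C) := fun x y h => by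
    rw [hC, hC]
    exact ⟨fun h' => h'.trans h, fun h' => h'.trans h.symm⟩
  have c1 : ∀ x y, B.G.edist x y ≤ R → (x ∈ C ↔ y ∈ C) := fun x y h => by
    obtain ⟨p⟩ := B.G.reachable_of_edist_ne_top (ne_top_of_le_ne_top (by simp) h)
    clear h
    induction p with
    | nil => rfl
    | cons h p ih =>
      rcases h with h | ⟨h, rfl⟩
      · exact (c0 _ _ (SimpleGraph.Adj.reachable (G := B.G0) h)).trans ih
      · exact (c0 _ _ (r1 _ h)).trans ih
  have c2 : ∀ t x, B.gen t x ∈ C ↔ x ∈ C := fun t x =>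
    (c0 _ _ (B.reach_cl (B.gen_cl t) x)).symm
  set D := B.G0.dist x0 (B.τ x0) with hD'
  set h0 := B.G0.dist x0
  have n0 : ∀ u w, B.G0.Adj u w → |(h0 w : ℤ) - h0 u - 0 * D| ≤ 1 := fun u w h => by
    rw [abs_le]
    simp only [h0]
    rcases h.diff_dist_adj (u := x0) with h | h | h <;> omega
  have n1 : |(h0 x0 : ℤ) - h0 (B.τ x0) - (-1 : ℤ) * D| ≤ 0 := by simp [h0, hD']
  have n2 : |(h0 (B.τ x0) : ℤ) - h0 x0 - (1 : ℤ) * D| ≤ 0 := by simp [h0, hD']
  have n3 : ∀ u w, B.G.Adj u w → ∃ m : ℤ, |(h0 w : ℤ) - h0 u - m * D| ≤ 1 := by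
    rintro u w (h | ⟨h, rfl⟩)
    · exact ⟨0, n0 u w h⟩
    · by_cases h1 : B.G0.Reachable x0 u
      · rcases hA u h (r2 _ _ h1) with rfl | rfl
        · exact ⟨1, n2.trans zero_le_one⟩
        · exact ⟨-1, by rw [B.τ2]; exact n1.trans zero_le_one⟩
      · refine ⟨0, ?_⟩
        simp [h0, SimpleGraph.dist_eq_zero_of_not_reachable h1,
          SimpleGraph.dist_eq_zero_of_not_reachable fun h2 => h1 (h2.trans (r1 u h).symm)]
  obtain ⟨s, hs, se⟩ : ∃ s : X → X → ℂ, (∀ u w, ‖s u w‖ ≤ 1) ∧ ∀ {u w : X} {m : ℤ},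
      |(h0 w : ℤ) - h0 u - m * D| ≤ 2 * R → s u w = (-1) ^ m :=
    ⟨sg h0 R D, fun u w => by simp [sg], sg_eq hD⟩
  have hco : ∀ u x w, B.G.edist u x ≤ R → B.G.edist x w ≤ R → s u w = s u x * s x w :=
    fun u x w h1 h2 => by
      obtain ⟨m, hm⟩ := near n3 h1
      obtain ⟨m', hm'⟩ := near n3 h2
      rw [se (hm.trans (by omega)), se (hm'.trans (by omega)),
        ← zpow_add₀ (by norm_num)]
      refine se ?_
      rw [abs_le] at *
      rw [add_mul]
      constructor <;> linarith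
  have hst : ∀ u w, B.G.edist u w ≤ R → s u w = star (s w u) := fun u w h1 => by
    obtain ⟨m, hm⟩ := near n3 h1
    rw [se (hm.trans (by omega)), se (m := -m) (by
      rw [abs_le] at *; rw [neg_mul]; constructor <;> omega)]
    simp [← inv_zpow]
  have s0 : ∀ w, s w w = 1 := fun w => by rw [se (m := 0) (by simp), zpow_zero]
  have s1 : ∀ t w, s (B.gen t w) w = 1 := fun t w => by
    rw [se ((n0 _ _ (B.G0.adj_symm ⟨t, rfl⟩)).trans (by omega)), zpow_zero]
  have s2 : ∀ w ∈ C, B.A w → s (B.τ w) w = -1 := fun w h1 h2 => by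
    rcases hA w h2 (r2 _ _ ((hC w).mp h1)) with rfl | rfl
    · rw [se (n1.trans (by omega))]; norm_num
    · rw [B.τ2, se (n2.trans (by omega))]; norm_num
  have p0 : ∀ a : H X →L[ℂ] H X, (∀ x y, x ≠ y → ¬ B.G.Adj x y → a (δ x) y = 0) → Pr B.G R a :=
    fun a ha x y h => by
      by_cases h1 : x = y
      · simp [h1]
      · by_cases h2 : B.G.Adj x y
        · rw [SimpleGraph.edist_eq_one_iff_adj.mpr h2]
          exact_mod_cast hR
        · exact absurd (ha x y h1 h2) h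
  have pL : Pr B.G R (B.L0 + B.D) := p0 _ fun x y => B.ent_nadj
  have pD : Pr B.G R B.D := p0 _ fun x y h1 h2 => by
    rw [D_apply]
    split_ifs with h3
    · simp [δ_apply, h1.symm, show B.τ y ≠ x from fun h => h2 (B.G.adj_symm (Or.inr ⟨h3, h.symm⟩))]
    · rfl
  have e0 : tw C s B.L0 = B.L0 * Ind (· ∈ C) := ext_pt fun ξ w => by
    rw [tw_apply, mul_apply_eq_comp, L0_apply, L0_apply]
    by_cases h1 : w ∈ C <;> simp [h1, Ds_apply hs, Ind_apply, s0, s1, c2]
  have e0' : tw C s B.L0 = Ind (· ∈ C) * B.L0 * Ind (· ∈ C) := ext_pt fun ξ w => by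
    rw [e0, mul_assoc, ← e0, mul_apply_eq_comp, Ind_apply, tw_apply]
    split_ifs <;> rfl
  have e1 : ∀ ξ w, tw C s B.D ξ w = if w ∈ C ∧ B.A w then ξ w + ξ (B.τ w) else 0 := fun ξ w => by
    rw [tw_apply, D_apply]
    by_cases h1 : w ∈ C <;> by_cases h2 : B.A w <;> simp [h1, h2, Ds_apply hs, s0, s2]
  have q0 := B.pos_L0 (rep_id _)
  have sI : IsSelfAdjoint (Ind (· ∈ C)) := Ind_star _
  have q1 : Pos (tw C s B.L0) := by
    rw [e0']
    refine ⟨by simpa [sI.star_eq] using q0.1.conjugate (Ind (· ∈ C)), fun u => ?_⟩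
    rw [mul_apply_eq_comp, mul_apply_eq_comp, r_sa sI]
    exact q0.2 _
  have q2 : IsSelfAdjoint (tw C s B.D) := by
    rw [IsSelfAdjoint, ← tw_star hs c1 hst pD, D_star]
  have q3 : ∀ u, r (tw C s B.D u) u = 1 / 2 * ‖tw C s B.D u‖ ^ 2 := fun u => by
    nth_rewrite 1 [B.D_sq]
    rw [map_smul, tw_mul hs c1 hco pD pD, smul_apply, r_smul, mul_apply_eq_comp, r_sa q2, r_self]
  have q4 := q1.add ⟨q2, fun u => by rw [q3]; positivity⟩
  have q5 : Gap (tw C s B.L0 + tw C s B.D) c := fun u => by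
    have h1 := congrArg (fun a => r (tw C s a u) u) h
    simp only [map_sub, map_smul, map_sum, tw_mul hs c1 hco pL pL] at h1
    rw [map_add, sub_apply, r_sub, smul_apply, r_smul, mul_apply_eq_comp, r_sa q4.1, r_self,
      _root_.sum_apply] at h1
    rw [← sub_nonneg, h1, r, sum_inner, Complex.re_sum]
    refine sum_nonneg fun i hi => ?_
    rw [tw_mul hs c1 hco (hb i hi).star (hb i hi), tw_star hs c1 hst (hb i hi), mul_apply_eq_comp]
    exact ((r_star _ _ _).trans (r_self _)).ge.trans' (by positivity)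
  let ξ : H X := ∑ x ∈ C, δ x
  have f1 : ∀ y, ξ y = if y ∈ C then 1 else 0 := fun y => by
    rw [lp.coeFn_sum, Finset.sum_apply]
    simp [δ_apply]
  have f2 : tw C s B.L0 ξ = 0 := lp.ext (funext fun x => by
    rw [e0, mul_apply_eq_comp, L0_apply]
    simp [Ind_apply, f1, c2])
  have f3 : ‖tw C s B.D ξ‖ ≤ 3 := norm_le_of _ (by norm_num) fun t => by
    have d3 : ∀ x, ‖tw C s B.D ξ x‖ ^ 2 ≤ if x ∈ ({x0, B.τ x0} : Finset X) then 4 else 0 :=
      fun x => by
        rw [e1]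
        by_cases d4 : x ∈ C ∧ B.A x
        · rw [if_pos d4, f1, f1, if_pos d4.1, if_pos ((c0 _ _ (r1 _ d4.2)).mp d4.1),
            if_pos (by simpa using hA x d4.2 (r2 _ _ ((hC x).mp d4.1)))]
          norm_num
        · rw [if_neg d4, norm_zero, zero_pow two_ne_zero]
          positivity
    refine (sum_le_sum fun x _ => d3 x).trans ?_
    rw [sum_ite_mem, sum_const, nsmul_eq_mul]
    have : (#(t ∩ {x0, B.τ x0}) : ℝ) ≤ 2 := by
      exact_mod_cast (card_le_card inter_subset_right).trans card_le_two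
    linarith
  have f4 : (4 * R : ℝ) ≤ ‖ξ‖ ^ 2 := by
    refine le_trans ?_ (sum_le_sq ξ C)
    rw [sum_congr rfl (g := fun _ => (1 : ℝ)) fun x hx => by simp [f1, hx], sum_const, nsmul_one]
    obtain ⟨p, h1, h2⟩ := (r1 x0 hx0).exists_path_of_dist
    have h3 : p.support.toFinset ⊆ C := fun x hx =>
      (hC x).mpr ⟨p.takeUntil x (List.mem_toFinset.mp hx)⟩
    have h4 := card_le_card h3
    rw [List.toFinset_card_of_nodup h1.support_nodup, p.length_support] at h4
    exact_mod_cast (show 4 * R ≤ #C by omega)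
  have f5 := gap_perp q4 hc q5 ξ fun k hk => by
    have d1 : r ((tw C s B.L0 + tw C s B.D) k) k = 0 := by rw [hk, r_comm, r_zero]
    rw [add_apply, r_add, q3] at d1
    have d2 : tw C s B.D k = 0 := by
      have := q1.2 k
      rw [← norm_eq_zero, ← pow_eq_zero_iff two_ne_zero]
      exact le_antisymm (by linarith) (by positivity)
    rw [add_apply, d2, add_zero, e0, mul_apply_eq_comp] at hk
    have d3 : ∀ x ∈ C, k x = k x0 := fun x hx => by
      obtain ⟨p⟩ := ((hC x).mp hx).symm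
      have d4 := (hC x0).mpr .rfl
      clear * - hk c2 p hx d4
      induction p with
      | nil => rfl
      | @cons u _ _ h p ih =>
        obtain ⟨t, rfl⟩ := h
        have := congrArg (fun v : H X => v u) (B.inv_of_ker (rep_id _) hk (B.gen_cl t))
        simp only [U, id, sub_self, add_zero, V_apply, Ind_apply, if_pos hx,
          if_pos ((c2 t _).mpr hx)] at this
        rw [← this, ih ((c2 t _).mpr hx) d4]
    have d5 := e1 k x0
    rw [d2, if_pos ⟨(hC x0).mpr .rfl, hx0⟩, d3 _ ((hC _).mpr (r1 _ hx0))] at d5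
    rw [inner_sum]
    refine sum_eq_zero fun x hx => ?_
    rw [← inner_conj_symm, inner_δ, d3 x hx, add_self_eq_zero.mp d5.symm, map_zero]
  rw [add_apply, f2, zero_add, q3] at f5
  nlinarith [norm_nonneg (tw C s B.D ξ)]

omit horb in
theorem lap (ξ : H X) (x : X) :
    (B.L0 + B.D) ξ x = ∑ᶠ y ∈ B.G.neighborSet x, (ξ x - ξ y) := by
  classical
  rw [nbr, finsum_mem_coe_finset, add_apply, lp.coeFn_add, Pi.add_apply, L0_apply, D_apply,
    sum_union, sum_image (g := fun s => B.gen s x) fun s _ s' _ h => B.inj s s' x h]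
  · split_ifs <;> simp
  · split_ifs with h
    · simpa [gen] using fun a b => ((B.τne x h).2 (a, b)).symm
    · simp

end Box

/-- the box without extra edges -/
noncomputable def B00 : Box (XX Unit) :=
  mk Unit 1 (fun _ => False) (fun _ => rfl) (fun _ => Iff.rfl) (fun _ => rfl)
    (fun _ h => h.elim) (fun _ _ h => h.elim)

theorem el_cl (k : ℕ) : (ρ Unit fun s => el 0 2 (by decide) (t s ^ k)) ∈
    Subgroup.closure (Set.range B00.g) :=
  (el_mem (Subgroup.comap (ρ Unit) (Subgroup.closure (Set.range B00.g))) B00.g_cl k).2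

theorem ex_k (s : ℕ) :
    ∃ k, s < B00.G0.dist ⟨s, 1, ()⟩ ⟨s, el 0 2 (by decide) (t s ^ k), ()⟩ := by
  classical
  by_contra h
  push Not at h
  obtain ⟨F, h1, h2⟩ := ball_card (G := B00.G0) (fun x => ⟨univ.image fun u => B00.gen u x,
    card_image_le.trans (by simp), fun y ⟨u, hu⟩ => by simp [hu]⟩) s ⟨s, 1, ()⟩
  have := card_le_card_of_injOn (s := range (13 ^ s + 1)) (t := F)
    (fun k => ⟨s, el 0 2 (by decide) (t s ^ k), ()⟩) (fun k _ => by
      obtain ⟨p, hp⟩ := (show B00.G0.Reachable ⟨s, 1, ()⟩ ⟨s, el 0 2 (by decide) (t s ^ k), ()⟩ by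
        simpa [ρ_apply] using B00.reach_cl (el_cl k) ⟨s, 1, ()⟩).exists_walk_length_eq_dist
      exact h2 _ p (hp.le.trans (h k))) fun i hi j hj h => by
        have h3 : el 0 2 (by decide) (t s ^ i) = el 0 2 (by decide) (t s ^ j) := by simpa using h
        exact t_inj (Nat.lt_succ_iff.mp (mem_range.mp hi)) (Nat.lt_succ_iff.mp (mem_range.mp hj))
          (by simpa using el_eq h3)
  rw [card_range] at this
  exact absurd (this.trans h1) (Nat.not_succ_le_self _)

/-- the far end of the extra edge -/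
noncomputable def yy (s : ℕ) : SL s := el 0 2 (by decide) (t s ^ (ex_k s).choose)

theorem yy_ne (s : ℕ) (i : Fin 3) (c : F s) : yy s ≠ el i (i + 1) (n1 i) c ∧
    1 ≠ el i (i + 1) (n1 i) c * yy s := by
  have h0 : ¬ (i = 0 ∧ i + 1 = 2) := by revert i; decide
  refine ⟨fun h => pow_ne_zero _ (t_ne s) (by simpa [h0] using el_eq h), fun h => ?_⟩
  have h1 : yy s = el i (i + 1) (n1 i) (-c) := by
    rw [← one_mul (yy s), ← el_zero (n1 i), ← neg_add_cancel c, ← el_add, mul_assoc, ← h, mul_one]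
  exact pow_ne_zero _ (t_ne s) (by simpa [h0] using el_eq h1)

open Classical in
/-- the box with one long extra edge on each level -/
noncomputable def B1 : Box (XX Unit) :=
  mk Unit (Equiv.sigmaCongrRight fun s => Equiv.prodCongr (swap 1 (yy s)) (Equiv.refl _))
    (fun x => x.2.1 = 1 ∨ x.2.1 = yy x.1) (fun ⟨s, x, b⟩ => by simp)
    (fun ⟨s, x, b⟩ => show (swap 1 (yy s) x = 1 ∨ swap 1 (yy s) x = yy s) ↔ (x = 1 ∨ x = yy s) by
      simp [swap_apply_eq_iff, or_comm]) (fun _ => rfl)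
    (by
      rintro ⟨s, x, b⟩ (h : x = (1 : SL s) ∨ x = yy s) i (c : F s)
      rcases h with rfl | rfl
      · simpa using (yy_ne s i c).1
      · simpa using (yy_ne s i c).2)
    (by
      rintro ⟨s, x, b⟩ (c : F s) (h : x = (1 : SL s) ∨ x = yy s)
        (h' : el 0 1 (n1 0) c * x = (1 : SL s) ∨ el 0 1 (n1 0) c * x = yy s)
      rcases h with rfl | rfl <;> rcases h' with h' | h'
      · simpa using el_eq ((mul_one _).symm.trans (h'.trans (el_zero (n1 0)).symm))
      · exact absurd ((mul_one _).symm.trans h').symm (yy_ne s 0 c).1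
      · exact absurd h'.symm (yy_ne s 0 c).2
      · simpa using el_eq ((mul_eq_right.mp h').trans (el_zero (n1 0)).symm))

theorem B1_τ (s : ℕ) : B1.τ ⟨s, 1, ()⟩ = ⟨s, yy s, ()⟩ := by simp [B1, mk]

theorem B1_orb (x : XX Unit) (h : B1.A x) :
    ∃ w ∈ Subgroup.closure (Set.range B1.g), B1.τ x = w x := by
  obtain ⟨s, x, ⟨⟩⟩ := x
  have h1 : B1.τ ⟨s, 1, ()⟩ = ρ Unit (fun s' => el 0 2 (by decide) (t s' ^ (ex_k s).choose))
      ⟨s, 1, ()⟩ := by rw [B1_τ, ρ_apply, mul_one, yy]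
  change x = (1 : SL s) ∨ x = yy s at h
  rcases h with rfl | rfl
  · exact ⟨_, el_cl _, h1⟩
  · refine ⟨_, inv_mem (el_cl (ex_k s).choose), ?_⟩
    rw [← B1_τ, B1.τ2, h1, Perm.inv_def, symm_apply_apply]

theorem B1_sos {ι : Type} [Fintype ι] (b : ι → H (XX Unit) →L[ℂ] H (XX Unit))
    (hb : ∀ i, b i ∈ FPG B1.G) {c : ℝ} (hc : 0 < c) :
    (B1.L0 + B1.D) * (B1.L0 + B1.D) - (c : ℂ) • (B1.L0 + B1.D) ≠ ∑ i, star (b i) * b i := by
  intro h
  choose R hR using hb
  obtain ⟨N, hN⟩ := exists_nat_gt (2 / c)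
  have := B1.no_sos B1_orb (x0 := ⟨4 * (∑ i, R i + N + 1), 1, ()⟩) (Or.inl rfl) (by
      rintro ⟨s, x, ⟨⟩⟩ (h1 : x = (1 : SL s) ∨ x = yy s) (h2 : s = 4 * (∑ i, R i + N + 1))
      subst h2
      rw [B1_τ]
      rcases h1 with rfl | rfl <;> simp)
    (R := ∑ i, R i + N + 1) (by omega) (by rw [B1_τ]; exact (ex_k _).choose_spec) univ b
    (fun i _ => Pr.mono (hR i) ((single_le_sum (fun _ _ => Nat.zero_le _) (mem_univ i)).trans
      (by omega))) hc.le h
  rw [div_lt_iff₀ hc] at hN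
  push_cast at this
  have h1 : (0 : ℝ) ≤ ∑ i, (R i : ℝ) := by positivity
  nlinarith

theorem B1_card (s : ℕ) : s ≤ {x | B1.l x = s}.ncard := by
  refine (Set.ncard_Iio_nat s).ge.trans <| Set.ncard_le_ncard_of_injOn (fun k => ⟨s, el 0 2 (by decide) (t s ^ k), ()⟩)
    (fun _ _ => rfl) (fun i hi j hj h => ?_) ((B1.fin (s + 1)).subset fun x hx => by simp_all)
  have h3 : el 0 2 (by decide) (t s ^ i) = el 0 2 (by decide) (t s ^ j) := by simpa using h
  have h4 : s ≤ 13 ^ s := (Nat.lt_pow_self (by norm_num)).le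
  exact t_inj ((le_of_lt hi).trans h4) ((le_of_lt hj).trans h4) (by simpa using el_eq h3)

end Pool.Agent.H86.Kaz
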