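import Pool.Agent.H86.KrDefs

set_option autoImplicit false
set_option linter.unusedSectionVars false
set_option linter.deprecated false

namespace Pool.Agent.H86.Kr

open Finset Filter Topology
open scoped NNReal ENNReal

theorem cauchy {A : Type*} [NormedRing A] [NormedAlgebra ℂ A] [CompleteSpace A] {T : A}
    (hσ : spectrum ℂ T ⊆ Metric.closedBall 0 1) {ρ M : ℝ} (h0 : 0 < ρ) (h1 : ρ < 1)
    (hM : ∀ z : ℂ, ‖z‖ = ρ → ‖Ring.inverse (1 - z • T)‖ ≤ M) (n : ℕ) :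
    ‖T ^ n‖ ≤ M * ρ⁻¹ ^ n := by
  lift ρ to ℝ≥0 using h0.le
  have hs : spectralRadius ℂ T ≤ 1 := iSup₂_le fun k hk => by
    have := mem_closedBall_zero_iff.1 (hσ hk)
    exact_mod_cast this
  have hr : (ρ : ℝ≥0∞) < (spectralRadius ℂ T)⁻¹ :=
    lt_of_lt_of_le (by exact_mod_cast h1) (ENNReal.one_le_inv.2 hs)
  have H1 := (spectrum.differentiableOn_inverse_one_sub_smul hr).hasFPowerSeriesOnBall
    (by exact_mod_cast h0)
  have e := (spectrum.hasFPowerSeriesOnBall_inverse_one_sub_smul ℂ T).hasFPowerSeriesAt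
    |>.eq_formalMultilinearSeries H1.hasFPowerSeriesAt
  have e2 := congrArg (fun p => ‖p n‖) e
  simp only [ContinuousMultilinearMap.norm_mkPiRing] at e2
  rw [e2]
  refine (norm_cauchyPowerSeries_le _ _ _ _).trans ?_
  rw [abs_of_pos h0]
  gcongr
  have := intervalIntegral.norm_integral_le_of_norm_le_const (a := 0) (b := 2 * Real.pi) (C := M)
    (f := fun θ => ‖Ring.inverse (1 - circleMap 0 ρ θ • T)‖) fun θ _ => by
      rw [norm_norm]; exact hM _ (by simp)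
  rw [sub_zero, abs_of_pos Real.two_pi_pos] at this
  rw [inv_mul_le_iff₀ Real.two_pi_pos]
  exact ((le_abs_self _).trans this).trans_eq (mul_comm _ _)

variable {H : Type*} [NormedAddCommGroup H] [InnerProductSpace ℂ H] [CompleteSpace H]

/-- two-sided inverses of `1 - z T` on the circles of radius `N / (N + 1)` -/
def Inv (α c : ℝ) (T : H →L[ℂ] H) : Prop :=
  ∀ N : ℕ, 1 ≤ N → ∀ z : ℂ, ‖z‖ = N / (N + 1) → ∃ U : H →L[ℂ] H,
    U * (1 - z • T) = 1 ∧ (1 - z • T) * U = 1 ∧ ‖U‖ ≤ c * (N : ℝ) ^ α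

theorem RC.inv {α : ℝ} {T : H →L[ℂ] H} (h : RC α T) : ∃ c, 0 < c ∧ Inv α c T := by
  obtain ⟨hσ, c, hc, h⟩ := h
  refine ⟨2 * c, by positivity, fun N hN z hz => ?_⟩
  have hN' : (1 : ℝ) ≤ N := by exact_mod_cast hN
  have hz0 : z ≠ 0 := norm_pos_iff.1 (by rw [hz]; positivity)
  have hl : ‖z⁻¹‖ = 1 + 1 / N := by rw [norm_inv, hz]; field_simp
  have hp : (0 : ℝ) < 1 / N := by positivity
  have hq : (1 : ℝ) / N ≤ 1 := by rw [div_le_one (by positivity)]; exact hN'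
  have hu : z⁻¹ ∈ resolventSet ℂ T := by
    by_contra hn
    have := mem_closedBall_zero_iff.1 (hσ hn)
    linarith
  have e : (1 - z • T : H →L[ℂ] H) = z • (algebraMap ℂ (H →L[ℂ] H) z⁻¹ - T) := by
    rw [Algebra.algebraMap_eq_smul_one, smul_sub, smul_smul, mul_inv_cancel₀ hz0, one_smul]
  refine ⟨z⁻¹ • resolvent T z⁻¹, ?_, ?_, ?_⟩
  · rw [e, smul_mul_smul_comm, inv_mul_cancel₀ hz0, one_smul]
    exact Ring.inverse_mul_cancel _ hu
  · rw [e, smul_mul_smul_comm, mul_inv_cancel₀ hz0, one_smul]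
    exact Ring.mul_inverse_cancel _ hu
  · have h2 := h z⁻¹ (by linarith) (by linarith)
    rw [hl, add_sub_cancel_left, one_div, Real.inv_rpow (by positivity), div_inv_eq_mul] at h2
    rw [norm_smul, hl, mul_assoc]
    exact mul_le_mul (by linarith) h2 (norm_nonneg _) (by norm_num)

theorem Inv.adj {α c : ℝ} {T : H →L[ℂ] H} (h : Inv α c T) : Inv α c (star T) := fun N hN z hz => by
  obtain ⟨U, h1, h2, h3⟩ := h N hN (star z) (by rwa [norm_star])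
  have e : (1 - z • star T : H →L[ℂ] H) = star (1 - star z • T) := by simp
  refine ⟨star U, ?_, ?_, by rwa [norm_star]⟩
  · rw [e, ← star_mul, h2, star_one]
  · rw [e, ← star_mul, h1, star_one]

theorem pow_le3 (N : ℕ) (hN : 1 ≤ N) : (((N : ℝ) / (N + 1))⁻¹) ^ N ≤ 3 := by
  have hN' : (1 : ℝ) ≤ N := by exact_mod_cast hN
  have e : ((N : ℝ) / (N + 1))⁻¹ = 1 + (N : ℝ)⁻¹ := by field_simp
  rw [e]
  exact Real.one_add_inv_pow_le_exp.trans (Real.exp_one_lt_d9.le.trans (by norm_num))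

theorem upper {α : ℝ} {T : H →L[ℂ] H} (h : RC α T) :
    ∃ C : ℝ, ∀ n : ℕ, ‖T ^ n‖ ≤ C * (1 + n : ℝ) ^ α := by
  obtain ⟨c, hc, hi⟩ := h.inv
  refine ⟨3 * c, fun n => ?_⟩
  have h0 : (0 : ℝ) < ((n + 1 : ℕ) : ℝ) / ((n + 1 : ℕ) + 1) := by positivity
  have h1 : ((n + 1 : ℕ) : ℝ) / ((n + 1 : ℕ) + 1) < 1 := by
    rw [div_lt_one (by positivity)]; linarith
  have h2 := cauchy h.1 h0 h1 (M := c * ((n + 1 : ℕ) : ℝ) ^ α) (fun z hz => by
    obtain ⟨U, h1, h2, h3⟩ := hi (n + 1) (by omega) z hz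
    rwa [show Ring.inverse (1 - z • T) = U from Ring.inverse_unit ⟨_, U, h2, h1⟩]) n
  have h3 : (((n + 1 : ℕ) : ℝ) / ((n + 1 : ℕ) + 1))⁻¹ ^ n ≤ 3 :=
    (pow_le_pow_right₀ ((one_le_inv₀ h0).2 h1.le) (Nat.le_succ n)).trans
      (pow_le3 (n + 1) (by omega))
  have h4 : ((n + 1 : ℕ) : ℝ) = 1 + n := by push_cast; ring
  rw [h4] at h2 h3
  have h5 : 0 ≤ c * (1 + n : ℝ) ^ α := by positivity
  nlinarith

theorem pars (L : ℕ) (y : ℕ → H) {Q : ℕ} (hQ : L ≤ Q) {ζ : ℂ} (hζ : IsPrimitiveRoot ζ Q)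
    (h0 : Q ≠ 0) :
    ∑ k ∈ range Q, ‖∑ n ∈ range L, (ζ ^ k) ^ n • y n‖ ^ 2 = Q * ∑ n ∈ range L, ‖y n‖ ^ 2 := by
  have hn : ‖ζ‖ = 1 := hζ.norm'_eq_one h0
  have hc : ∀ n, (starRingEnd ℂ) (ζ ^ n) * ζ ^ n = 1 := fun n => by
    rw [Complex.conj_mul', norm_pow, hn]; simp
  have orth : ∀ n ∈ range L, ∀ m ∈ range L,
      ∑ k ∈ range Q, ((starRingEnd ℂ) (ζ ^ n) * ζ ^ m) ^ k = if n = m then (Q : ℂ) else 0 := by
    intro n hn' m hm'
    split_ifs with h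
    · subst h; rw [hc]; simp
    · have h1 : (starRingEnd ℂ) (ζ ^ n) * ζ ^ m ≠ 1 := fun h1 => h (by
        have h2 : (starRingEnd ℂ) (ζ ^ n) ≠ 0 := left_ne_zero_of_mul_eq_one h1
        exact hζ.pow_inj (by have := mem_range.1 hn'; omega) (by have := mem_range.1 hm'; omega)
          (mul_left_cancel₀ h2 ((hc n).trans h1.symm)))
      have h2 : ((starRingEnd ℂ) (ζ ^ n) * ζ ^ m) ^ Q = 1 := by
        rw [mul_pow, ← map_pow, ← pow_mul, ← pow_mul, mul_comm n, mul_comm m, pow_mul, pow_mul,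
          hζ.pow_eq_one]
        simp
      have h3 := mul_geom_sum ((starRingEnd ℂ) (ζ ^ n) * ζ ^ m) Q
      rw [h2, sub_self] at h3
      exact (mul_eq_zero.1 h3).resolve_left (sub_ne_zero.2 h1)
  have key : ∑ k ∈ range Q, inner ℂ (∑ n ∈ range L, (ζ ^ k) ^ n • y n)
      (∑ n ∈ range L, (ζ ^ k) ^ n • y n) = Q * ∑ n ∈ range L, inner ℂ (y n) (y n) := by
    simp only [sum_inner, inner_sum, inner_smul_left, inner_smul_right]
    rw [sum_comm, mul_sum]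
    refine sum_congr rfl fun m hm => ?_
    simp only [mul_sum]
    rw [sum_comm]
    have : ∀ n ∈ range L, ∑ k ∈ range Q, (ζ ^ k) ^ m * ((starRingEnd ℂ) ((ζ ^ k) ^ n) *
        inner ℂ (y n) (y m)) = if n = m then (Q : ℂ) * inner ℂ (y n) (y m) else 0 := by
      intro n hn'
      have h1 := orth n hn' m hm
      have h2 : ∀ k, (ζ ^ k) ^ m * ((starRingEnd ℂ) ((ζ ^ k) ^ n) * inner ℂ (y n) (y m)) =
          ((starRingEnd ℂ) (ζ ^ n) * ζ ^ m) ^ k * inner ℂ (y n) (y m) := fun k => by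
        simp only [map_pow]; ring
      simp only [h2]
      rw [← sum_mul, h1]
      split_ifs <;> simp
    rw [sum_congr rfl this, sum_ite_eq' , if_pos hm]
  simp only [inner_self_eq_norm_sq_to_K] at key
  apply Complex.ofReal_injective
  push_cast
  exact key

theorem apri {T : H →L[ℂ] H} {r M : ℝ} (hr : 0 ≤ r) (hM : 0 ≤ M)
    (h : ∀ z : ℂ, ‖z‖ = r → ∀ v, ‖v‖ ≤ M * ‖v - z • T v‖) (L : ℕ) (y x : ℕ → H)
    (h0 : x 0 = y 0) (h1 : ∀ n, x (n + 1) = y (n + 1) - (r : ℂ) • T (y n)) (hL : y L = 0) :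
    ∑ n ∈ range (L + 1), ‖y n‖ ^ 2 ≤ M ^ 2 * ∑ n ∈ range (L + 1), ‖x n‖ ^ 2 := by
  have hζ := Complex.isPrimitiveRoot_exp (L + 1) (by omega)
  set ζ := Complex.exp (2 * Real.pi * Complex.I / (L + 1 : ℕ))
  have hn : ‖ζ‖ = 1 := hζ.norm'_eq_one (by omega)
  have p1 := pars (L + 1) y le_rfl hζ (by omega)
  have p2 := pars (L + 1) x le_rfl hζ (by omega)
  have h2 : ∀ w : ℂ, ∑ n ∈ range (L + 1), w ^ n • x n = ∑ n ∈ range (L + 1), w ^ n • y n -
      (r * w) • T (∑ n ∈ range (L + 1), w ^ n • y n) := fun w => by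
    have e : T (∑ n ∈ range (L + 1), w ^ n • y n) = ∑ n ∈ range L, w ^ n • T (y n) := by
      rw [sum_range_succ, hL, smul_zero, add_zero, map_sum]
      simp only [map_smul]
    rw [e, sum_range_succ', sum_range_succ', h0, smul_sum, add_sub_right_comm, ← sum_sub_distrib]
    congr 1
    refine sum_congr rfl fun n _ => ?_
    rw [h1, smul_sub, smul_smul, smul_smul]
    congr 2
    ring
  have h3 : ∑ k ∈ range (L + 1), ‖∑ n ∈ range (L + 1), (ζ ^ k) ^ n • y n‖ ^ 2 ≤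
      M ^ 2 * ∑ k ∈ range (L + 1), ‖∑ n ∈ range (L + 1), (ζ ^ k) ^ n • x n‖ ^ 2 := by
    rw [mul_sum]
    refine sum_le_sum fun k _ => ?_
    rw [h2, ← mul_pow]
    refine pow_le_pow_left₀ (norm_nonneg _) (h _ ?_ _) 2
    rw [norm_mul, norm_pow, hn, one_pow, mul_one, Complex.norm_real, Real.norm_of_nonneg hr]
  rw [p1, p2] at h3
  have hp : (0 : ℝ) < (L + 1 : ℕ) := by positivity
  exact le_of_mul_le_mul_left (by linarith) hp

end Pool.Agent.H86.Kr
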