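import Pool.Agent.H86.KrA

set_option autoImplicit false
set_option linter.unusedSectionVars false
set_option linter.deprecated false

namespace Pool.Agent.H86.Kr

open Finset Filter Topology

variable {H : Type*} [NormedAddCommGroup H] [InnerProductSpace ℂ H] [CompleteSpace H]

noncomputable def ph (r : ℝ) (cc : ℕ → ℝ) : ℕ → ℝ
  | 0 => cc 0
  | n + 1 => r * ph r cc n + cc (n + 1)

theorem claimA {T : H →L[ℂ] H} {c C : ℝ} (hc : 0 < c) (hi : Inv 1 c T)
    (hp : ∀ n : ℕ, ‖T ^ n‖ ≤ C * (1 + n)) (x : H) {N : ℕ} (hN : 1 ≤ N)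
    (ha : ∀ j < N, (T ^ j) x ≠ 0) :
    (∑ j ∈ range N, (‖(T ^ j) x‖ ^ 2)⁻¹) * ∑ n ∈ Ico N (2 * N), ‖(T ^ n) x‖ ^ 2 ≤
      81 * c ^ 2 * N ^ 2 := by
  have hN' : (1 : ℝ) ≤ N := by exact_mod_cast hN
  set r : ℝ := N / (N + 1) with hr
  have r0 : 0 < r := by positivity
  have r1 : r < 1 := by rw [hr, div_lt_one (by positivity)]; linarith
  set a : ℕ → ℝ := fun n => ‖(T ^ n) x‖ with hadef
  set S := ∑ j ∈ range N, (a j ^ 2)⁻¹ with hS
  let cc : ℕ → ℝ := fun j => if j < N then (a j ^ 2)⁻¹ else 0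
  have cc0 : ∀ j, 0 ≤ cc j := fun j => by simp only [cc]; split_ifs <;> positivity
  have S0 : 0 < S := sum_pos (fun j hj => by
    have := norm_pos_iff.2 (ha j (mem_range.1 hj)); positivity) (nonempty_range_iff.2 (by omega))
  have hsum : ∀ (g : ℕ → ℝ) n, N ≤ n → ∑ j ∈ range n, (if j < N then g j else 0) =
      ∑ j ∈ range N, g j := fun g n hn => by
    rw [← sum_filter]
    congr 1
    ext j
    simp only [mem_filter, mem_range]
    omega
  have lo : ∀ n, r ^ n * ∑ j ∈ range (n + 1), cc j ≤ ph r cc n := fun n => by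
    induction n with
    | zero => simp [ph]
    | succ n ih =>
      rw [sum_range_succ, ph, mul_add, pow_succ' r n, mul_assoc]
      have h1 : r * r ^ n ≤ 1 := by rw [← pow_succ']; exact pow_le_one₀ r0.le r1.le
      have h2 := mul_le_mul_of_nonneg_left ih r0.le
      nlinarith [cc0 (n + 1)]
  have lo2 : ∀ n ∈ Ico N (2 * N), S / 9 ≤ ph r cc n := fun n hn => by
    obtain ⟨h1, h2⟩ := mem_Ico.1 hn
    have h3 := lo n
    rw [hsum _ _ (by omega)] at h3
    have h4 : 1 / 3 ≤ r ^ N := by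
      have := pow_le3 N hN
      rw [inv_pow, inv_le_comm₀ (by positivity) (by norm_num)] at this
      simpa using this
    have h5 : r ^ (2 * N) ≤ r ^ n := pow_le_pow_of_le_one r0.le r1.le h2.le
    rw [mul_comm 2 N, pow_mul] at h5
    have h6 : 1 / 9 ≤ r ^ n := by nlinarith
    nlinarith
  have up : ∀ k, ph r cc (N + k) = r ^ k * ph r cc N := fun k => by
    induction k with
    | zero => simp
    | succ k ih =>
      rw [← add_assoc, ph, ih]
      simp only [cc, if_neg (show ¬ N + k + 1 < N by omega)]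
      ring
  have hb : ∀ z : ℂ, ‖z‖ = r → ∀ v, ‖v‖ ≤ c * N * ‖v - z • T v‖ := fun z hz v => by
    obtain ⟨U, h1, -, h3⟩ := hi N hN z hz
    rw [Real.rpow_one] at h3
    have h4 : U (v - z • T v) = v := congrArg (fun A : H →L[ℂ] H => A v) h1
    conv_lhs => rw [← h4]
    exact (U.le_opNorm _).trans (by gcongr)
  have main : ∀ k, N ≤ k → (S / 9) ^ 2 * ∑ n ∈ Ico N (2 * N), a n ^ 2 ≤
      (c * N) ^ 2 * (S + (ph r cc N * (r ^ (k + 1) * a (N + k + 1))) ^ 2) := fun k hk => by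
    let y : ℕ → H := fun n => if n < N + k + 1 then ((ph r cc n : ℝ) : ℂ) • (T ^ n) x else 0
    let xs : ℕ → H := fun n => Nat.casesOn n (y 0) fun n => y (n + 1) - (r : ℂ) • T (y n)
    have h1 := apri r0.le (by positivity) hb (N + k + 1) y xs rfl (fun _ => rfl) (by simp [y])
    have e1 : ∀ n ∈ range (N + k + 1), ‖xs n‖ ^ 2 = if n < N then (a n ^ 2)⁻¹ else 0 := by
      intro n hn
      have hn' := mem_range.1 hn
      have : xs n = ((cc n : ℝ) : ℂ) • (T ^ n) x := by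
        cases n with
        | zero => simp [xs, y, ph]
        | succ n =>
          simp only [xs, y, if_pos hn', if_pos (show n < N + k + 1 by omega), ph, map_smul]
          rw [pow_succ' T n, ContinuousLinearMap.mul_apply, smul_smul, ← sub_smul]
          congr 1
          push_cast
          ring
      rw [this, norm_smul, Complex.norm_real, Real.norm_of_nonneg (cc0 n), mul_pow]
      simp only [cc]
      split_ifs with h
      · have := norm_pos_iff.2 (ha n h)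
        simp only [hadef]
        field_simp
      · simp
    have e2 : ‖xs (N + k + 1)‖ ^ 2 = (ph r cc N * (r ^ (k + 1) * a (N + k + 1))) ^ 2 := by
      simp only [xs, y, lt_irrefl, if_false, if_pos (Nat.lt_succ_self (N + k)), map_smul, zero_sub,
        norm_neg, norm_smul, Complex.norm_real, Real.norm_eq_abs, up, mul_pow, sq_abs, hadef]
      rw [pow_succ' T (N + k), ContinuousLinearMap.mul_apply]
      ring
    rw [sum_range_succ (fun n => ‖xs n‖ ^ 2), sum_congr rfl e1, e2, hsum _ _ (by omega)] at h1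
    refine le_trans ?_ h1
    rw [mul_sum]
    refine le_trans (sum_le_sum fun n hn => ?_) (sum_le_sum_of_subset_of_nonneg
      (s := Ico N (2 * N)) (fun n hn => mem_range.2 (by have := (mem_Ico.1 hn).2; omega))
      fun _ _ _ => by positivity)
    simp only [y, if_pos (show n < N + k + 1 by have := (mem_Ico.1 hn).2; omega), norm_smul,
      Complex.norm_real, Real.norm_eq_abs, mul_pow, sq_abs]
    exact mul_le_mul_of_nonneg_right (pow_le_pow_left₀ (by positivity) (lo2 n hn) 2) (by positivity)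
  have t1 : Tendsto (fun k : ℕ => r ^ (k + 1) * a (N + k + 1)) atTop (𝓝 0) := by
    have h1 := (tendsto_self_mul_const_pow_of_lt_one r0.le r1).comp (tendsto_add_atTop_nat 1)
    have h2 := (tendsto_pow_atTop_nhds_zero_of_lt_one r0.le r1).comp (tendsto_add_atTop_nat 1)
    have h3 := ((h1.add (h2.const_mul (1 + N : ℝ))).const_mul (C * ‖x‖))
    simp only [mul_zero, add_zero] at h3
    refine squeeze_zero (fun k => by positivity) (fun k => ?_) h3
    have h4 := ((T ^ (N + k + 1)).le_opNorm x).trans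
      (mul_le_mul_of_nonneg_right (hp (N + k + 1)) (norm_nonneg x))
    refine (mul_le_mul_of_nonneg_left h4 (by positivity)).trans (le_of_eq ?_)
    simp only [Function.comp]
    push_cast
    ring
  have t2 := (((t1.const_mul (ph r cc N)).pow 2).const_add S).const_mul ((c * N) ^ 2)
  have h9 := ge_of_tendsto t2 ((eventually_ge_atTop N).mono main)
  simp only [mul_zero, ne_eq, OfNat.ofNat_ne_zero, not_false_eq_true, zero_pow, add_zero] at h9
  refine le_of_mul_le_mul_left ?_ S0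
  nlinarith

theorem grow {T : H →L[ℂ] H} {c C : ℝ} (hc : 0 < c) (hi : Inv 1 c T)
    (hp : ∀ n : ℕ, ‖T ^ n‖ ≤ C * (1 + n)) {x : H} (k : ℕ)
    (ha : ∀ j < 2 ^ k, (T ^ j) x ≠ 0) :
    (1 + (81 * c ^ 2)⁻¹) ^ k * (‖x‖ ^ 2)⁻¹ ≤ ∑ j ∈ range (2 ^ k), (‖(T ^ j) x‖ ^ 2)⁻¹ := by
  induction k with
  | zero => simp
  | succ k ih =>
    have hN : 1 ≤ 2 ^ k := Nat.one_le_two_pow
    have ha' : ∀ j < 2 ^ k, (T ^ j) x ≠ 0 := fun j hj => ha j (by rw [pow_succ]; omega)
    have h1 := ih ha'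
    have h2 := claimA hc hi hp x hN ha'
    rw [pow_succ' 2 k] at ha ⊢
    set N := 2 ^ k
    rw [← sum_range_add_sum_Ico _ (show N ≤ 2 * N by omega)]
    set S := ∑ j ∈ range N, (‖(T ^ j) x‖ ^ 2)⁻¹
    set A := ∑ n ∈ Ico N (2 * N), ‖(T ^ n) x‖ ^ 2
    set B := ∑ n ∈ Ico N (2 * N), (‖(T ^ n) x‖ ^ 2)⁻¹
    have h3 : (N : ℝ) ^ 2 ≤ A * B := by
      have := sum_mul_sq_le_sq_mul_sq (Ico N (2 * N)) (fun n => ‖(T ^ n) x‖)
        (fun n => ‖(T ^ n) x‖⁻¹)
      rw [sum_congr rfl fun n hn =>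
        mul_inv_cancel₀ (norm_ne_zero_iff.2 (ha n (mem_Ico.1 hn).2))] at this
      simpa only [sum_const, Nat.card_Ico, show 2 * N - N = N by omega, nsmul_eq_mul, mul_one,
        inv_pow] using this
    have S0 : 0 ≤ S := sum_nonneg fun _ _ => by positivity
    have B0 : 0 ≤ B := sum_nonneg fun _ _ => by positivity
    have hN' : (0 : ℝ) < (N : ℝ) ^ 2 := by positivity
    have h4 : S ≤ 81 * c ^ 2 * B := by
      refine le_of_mul_le_mul_right ?_ hN'
      calc S * (N : ℝ) ^ 2 ≤ S * (A * B) := by gcongr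
        _ = S * A * B := by ring
        _ ≤ 81 * c ^ 2 * N ^ 2 * B := by gcongr
        _ = _ := by ring
    have h5 : (81 * c ^ 2)⁻¹ * S ≤ B := by rwa [inv_mul_le_iff₀ (by positivity)]
    have h6 := mul_le_mul_of_nonneg_left h1 (show 0 ≤ 1 + (81 * c ^ 2)⁻¹ by positivity)
    rw [pow_succ', mul_assoc]
    linarith

theorem sub1 {T : H →L[ℂ] H} {c C : ℝ} (hc : 0 < c) (hi : Inv 1 c T)
    (hp : ∀ n : ℕ, ‖T ^ n‖ ≤ C * (1 + n)) (M : ℕ) (hM : 1 ≤ M) :
    (1 + (81 * c ^ 2)⁻¹) ^ Nat.log 2 (M - M / 2) * ‖T ^ M‖ ^ 2 ≤ 81 * c ^ 2 * (1 + M : ℝ) ^ 2 := by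
  set q := (1 + (81 * c ^ 2)⁻¹) ^ Nat.log 2 (M - M / 2)
  have q0 : 0 < q := by positivity
  have key : ∀ x : H, q * ‖(T ^ M) x‖ ^ 2 ≤ 81 * c ^ 2 * (1 + M : ℝ) ^ 2 * ‖x‖ ^ 2 := fun x => by
    by_cases h0 : (T ^ M) x = 0
    · rw [h0]; simp; positivity
    set y := (T ^ M) x with hy
    have y0 := norm_pos_iff.2 h0
    have split : ∀ i ≤ M, ‖y‖ ^ 2 ≤ ‖(star T ^ i) y‖ * ‖(T ^ (M - i)) x‖ := fun i hi => by
      have h1 := norm_inner_le_norm (𝕜 := ℂ) ((star T ^ i) y) ((T ^ (M - i)) x)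
      rwa [← star_pow, ContinuousLinearMap.star_eq_adjoint, ContinuousLinearMap.adjoint_inner_left,
        ← ContinuousLinearMap.mul_apply, ← pow_add, Nat.add_sub_cancel' hi, ← hy,
        inner_self_eq_norm_sq_to_K, norm_pow, RCLike.norm_ofReal, abs_norm,
        ← ContinuousLinearMap.star_eq_adjoint, star_pow] at h1
    have hb : ∀ i ≤ M, (star T ^ i) y ≠ 0 := fun i hi h => by
      have := split i hi
      rw [h, norm_zero, zero_mul] at this
      nlinarith
    have ha : ∀ i ≤ M, (T ^ i) x ≠ 0 := fun i hi h => by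
      have := split (M - i) (by omega)
      rw [show M - (M - i) = i by omega, h, norm_zero, mul_zero] at this
      nlinarith
    have x0 : 0 < ‖x‖ := norm_pos_iff.2 (by simpa using ha 0 (by omega))
    have hk : 2 ^ Nat.log 2 (M - M / 2) ≤ M - M / 2 := Nat.pow_log_le_self 2 (by omega)
    have g1 := grow hc hi.adj (C := C) (fun n => by rw [← star_pow, norm_star]; exact hp n)
      (Nat.log 2 (M - M / 2)) (x := y) fun j hj => hb j (by omega)
    have g2 := claimA hc hi hp x (N := M / 2 + 1) (by omega) fun j hj => ha j (by omega)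
    have g3 : (‖x‖ ^ 2)⁻¹ ≤ ∑ j ∈ range (M / 2 + 1), (‖(T ^ j) x‖ ^ 2)⁻¹ := by
      have := single_le_sum (f := fun j => (‖(T ^ j) x‖ ^ 2)⁻¹) (s := range (M / 2 + 1))
        (fun _ _ => by positivity) (mem_range.2 (Nat.succ_pos _))
      simpa using this
    have g4 : ‖y‖ ^ 4 * ∑ j ∈ range (2 ^ Nat.log 2 (M - M / 2)), (‖(star T ^ j) y‖ ^ 2)⁻¹ ≤
        ∑ n ∈ Ico (M / 2 + 1) (2 * (M / 2 + 1)), ‖(T ^ n) x‖ ^ 2 := by
      rw [mul_sum]
      refine le_trans (sum_le_sum (g := fun j => ‖(T ^ (M - j)) x‖ ^ 2) fun j hj => ?_) ?_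
      · have hj' : j ≤ M := by have := mem_range.1 hj; omega
        have h1 := norm_pos_iff.2 (hb j hj')
        rw [mul_inv_le_iff₀ (by positivity)]
        have h2 := pow_le_pow_left₀ (by positivity) (split j hj') 2
        linarith
      · rw [← sum_image (s := range (2 ^ Nat.log 2 (M - M / 2))) (g := fun j => M - j)
          (f := fun n => ‖(T ^ n) x‖ ^ 2) (fun i hi j hj h => by
            have := mem_range.1 (mem_coe.1 hi); have := mem_range.1 (mem_coe.1 hj)
            simp only at h; omega)]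
        refine sum_le_sum_of_subset_of_nonneg (fun n hn => ?_) fun _ _ _ => by positivity
        obtain ⟨j, hj, rfl⟩ := mem_image.1 hn
        have := mem_range.1 hj
        exact mem_Ico.2 ⟨by omega, by omega⟩
    set A := ∑ n ∈ Ico (M / 2 + 1) (2 * (M / 2 + 1)), ‖(T ^ n) x‖ ^ 2
    have A0 : 0 ≤ A := sum_nonneg fun _ _ => by positivity
    have g5 : (‖x‖ ^ 2)⁻¹ * A ≤ 81 * c ^ 2 * (1 + M : ℝ) ^ 2 := by
      refine ((mul_le_mul_of_nonneg_right g3 A0).trans g2).trans ?_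
      have : ((M / 2 + 1 : ℕ) : ℝ) ≤ 1 + M := by exact_mod_cast (by omega : M / 2 + 1 ≤ 1 + M)
      gcongr
    rw [inv_mul_le_iff₀ (by positivity)] at g5
    have g6 := (mul_le_mul_of_nonneg_left g1 (show 0 ≤ ‖y‖ ^ 4 by positivity)).trans g4
    have e : ‖y‖ ^ 4 * (q * (‖y‖ ^ 2)⁻¹) = q * ‖y‖ ^ 2 := by field_simp
    rw [e] at g6
    linarith
  have h1 : ‖T ^ M‖ ≤ √(81 * c ^ 2 * (1 + M : ℝ) ^ 2 / q) :=
    ContinuousLinearMap.opNorm_le_bound _ (Real.sqrt_nonneg _) fun x => by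
      refine abs_le_of_sq_le_sq' ?_ (by positivity) |>.2
      rw [mul_pow, Real.sq_sqrt (by positivity), div_mul_eq_mul_div, le_div_iff₀ q0]
      linarith [key x]
  have h2 := pow_le_pow_left₀ (norm_nonneg _) h1 2
  rw [Real.sq_sqrt (by positivity), le_div_iff₀ q0] at h2
  linarith

theorem sub2 {T : H →L[ℂ] H} (h : RC 1 T) :
    ∃ ε : ℝ, 0 < ε ∧ ∃ C : ℝ, ∀ n : ℕ, ‖T ^ n‖ ≤ C * (1 + n : ℝ) ^ (1 - ε) := by
  obtain ⟨c, hc, hi⟩ := h.inv
  obtain ⟨C, hp⟩ := upper h
  simp only [Real.rpow_one] at hp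
  set η := Real.logb 2 (1 + (81 * c ^ 2)⁻¹)
  have q1 : (1 : ℝ) < 1 + (81 * c ^ 2)⁻¹ := by
    have : (0 : ℝ) < (81 * c ^ 2)⁻¹ := by positivity
    linarith
  have η0 : 0 < η := Real.logb_pos one_lt_two q1
  refine ⟨η / 2, by positivity, max 1 (9 * c * 8 ^ (η / 2)), fun n => ?_⟩
  rcases Nat.eq_zero_or_pos n with rfl | hn
  · simp only [pow_zero, Nat.cast_zero, add_zero, Real.one_rpow, mul_one]
    exact le_max_of_le_left ContinuousLinearMap.norm_id_le
  have h1 := sub1 hc hi hp n hn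
  set k := Nat.log 2 (n - n / 2)
  have h2 : n - n / 2 < 2 ^ (k + 1) := Nat.lt_pow_succ_log_self one_lt_two _
  have h3 : (1 + n : ℝ) / 8 ≤ (2 : ℝ) ^ k := by
    rw [div_le_iff₀ (by norm_num)]
    exact_mod_cast (by rw [pow_succ] at h2; omega : 1 + n ≤ 2 ^ k * 8)
  have h4 : ((1 + n : ℝ) / 8) ^ η ≤ (1 + (81 * c ^ 2)⁻¹) ^ k := by
    refine (Real.rpow_le_rpow (by positivity) h3 η0.le).trans (le_of_eq ?_)
    rw [← Real.rpow_natCast, ← Real.rpow_mul (by norm_num), mul_comm, Real.rpow_mul (by norm_num),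
      Real.rpow_logb (by norm_num) (by norm_num) (by linarith), Real.rpow_natCast]
  have h5 : (((1 + n : ℝ) / 8) ^ (η / 2) * ‖T ^ n‖) ^ 2 ≤ (9 * c * (1 + n : ℝ)) ^ 2 := by
    rw [mul_pow, ← Real.rpow_natCast, ← Real.rpow_mul (by positivity)]
    have e : η / 2 * (2 : ℕ) = η := by push_cast; ring
    rw [e]
    nlinarith [mul_le_mul_of_nonneg_right h4 (sq_nonneg ‖T ^ n‖)]
  have h6 := (abs_le_of_sq_le_sq' h5 (by positivity)).2
  rw [Real.div_rpow (by positivity) (by norm_num), div_mul_eq_mul_div,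
    div_le_iff₀ (by positivity)] at h6
  have p0 : (0 : ℝ) < (1 + n : ℝ) ^ (η / 2) := by positivity
  rw [Real.rpow_sub (by positivity), Real.rpow_one, ← mul_div_assoc, le_div_iff₀ p0]
  have h7 := mul_le_mul_of_nonneg_right (le_max_right 1 (9 * c * 8 ^ (η / 2)))
    (show (0 : ℝ) ≤ 1 + n by positivity)
  linarith

end Pool.Agent.H86.Kr
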