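import Pool.Agent.H86.KrB
import Pool.Agent.H86.RoeD

set_option autoImplicit false
set_option linter.unusedSectionVars false
set_option linter.deprecated false

namespace Pool.Agent.H86.Kr

open Finset Filter Topology Roe

theorem expb (α : ℝ) (hα : 0 ≤ α) : ∃ E : ℝ, 0 ≤ E ∧ ∀ x : ℝ, 0 ≤ x → x ^ α ≤ E * Real.exp x := by
  refine ⟨1 + (⌈α⌉₊).factorial, by positivity, fun x hx => ?_⟩
  have h1 := Real.pow_div_factorial_le_exp x hx ⌈α⌉₊
  rw [div_le_iff₀ (by positivity)] at h1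
  have h2 : 1 ≤ Real.exp x := Real.one_le_exp hx
  have h3 : (0 : ℝ) ≤ (⌈α⌉₊).factorial * Real.exp x := by positivity
  rcases le_total x 1 with h | h
  · have := Real.rpow_le_one hx h hα
    nlinarith
  · have := Real.rpow_le_rpow_of_exponent_le h (Nat.le_ceil α)
    rw [Real.rpow_natCast] at this
    nlinarith

noncomputable def w (s : ℝ) (n : ℕ) : ℝ := ((n : ℝ) + 1) ^ (s / 2)

theorem w_pos (s : ℝ) (n : ℕ) : 0 < w s n := by unfold w; positivity

theorem w_sq (s : ℝ) (n : ℕ) : w s n ^ 2 = ((n : ℝ) + 1) ^ s := by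
  unfold w
  rw [← Real.rpow_natCast, ← Real.rpow_mul (by positivity)]
  norm_num

theorem w_add {s : ℝ} (hs : 0 ≤ s) (j n : ℕ) : w s (j + n) / w s j ≤ w s n := by
  rw [div_le_iff₀ (w_pos s j)]
  unfold w
  rw [← Real.mul_rpow (by positivity) (by positivity)]
  refine Real.rpow_le_rpow (by positivity) ?_ (by positivity)
  push_cast
  nlinarith [mul_nonneg (Nat.cast_nonneg (α := ℝ) j) (Nat.cast_nonneg (α := ℝ) n)]

theorem phi {s α K : ℝ} (hs : 0 ≤ s) (hα : 1 ≤ α)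
    (hK : ∀ k : ℕ, ∑ m ∈ range (k + 1), (w s k / w s m) ^ 2 ≤ K * ((k : ℝ) + 1) ^ α) :
    ∃ D : ℝ, 0 < D ∧ ∀ δ : ℝ, 0 < δ → δ ≤ 1 → ∀ k : ℕ,
      ∑ n ∈ range (k + 1), (1 + δ)⁻¹ ^ (n + 1) * (w s k / w s (k - n)) ^ 2 ≤ D / δ ^ α := by
  obtain ⟨E, E0, hE⟩ := expb α (by linarith)
  have K0 : 0 ≤ K := by
    have := hK 0
    simp only [zero_add, range_one, sum_singleton, CharP.cast_eq_zero, Real.one_rpow,
      mul_one] at this
    exact le_trans (sq_nonneg _) this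
  refine ⟨2 ^ s + K * 4 ^ α * E, by positivity, fun δ h0 h1 k => ?_⟩
  set r := (1 + δ)⁻¹ with hr
  have r0 : 0 < r := by positivity
  have r1 : r < 1 := inv_lt_one_of_one_lt₀ (by linarith)
  have r2 : r ≤ Real.exp (-(δ / 2)) := by
    refine le_trans ?_ (Real.add_one_le_exp _)
    rw [hr, inv_le_iff_one_le_mul₀ (by positivity)]
    nlinarith
  have t1 : ∀ n ∈ range (k + 1), r ^ (n + 1) * (w s k / w s (k - n)) ^ 2 ≤
      2 ^ s * (r * r ^ n) + Real.exp (-(δ * (k + 1) / 4)) * (w s k / w s (k - n)) ^ 2 := by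
    intro n hn
    have hn' : n ≤ k := Nat.lt_succ_iff.1 (mem_range.1 hn)
    have a1 : 0 ≤ 2 ^ s * (r * r ^ n) := by positivity
    have a2 : 0 ≤ Real.exp (-(δ * (k + 1) / 4)) * (w s k / w s (k - n)) ^ 2 := by positivity
    by_cases h : k + 1 ≤ 2 * (k - n + 1)
    · have : (w s k / w s (k - n)) ^ 2 ≤ 2 ^ s := by
        rw [div_pow, w_sq, w_sq, ← Real.div_rpow (by positivity) (by positivity)]
        refine Real.rpow_le_rpow (by positivity) ?_ hs
        rw [div_le_iff₀ (by positivity)]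
        exact_mod_cast h
      have h2 := mul_le_mul_of_nonneg_left this (show 0 ≤ r ^ (n + 1) by positivity)
      rw [pow_succ' r n] at h2 ⊢
      linarith
    · have h3 : (k : ℝ) + 1 ≤ 2 * (n + 1) := by exact_mod_cast (by omega : k + 1 ≤ 2 * (n + 1))
      have : r ^ (n + 1) ≤ Real.exp (-(δ * (k + 1) / 4)) := by
        refine (pow_le_pow_left₀ r0.le r2 _).trans ?_
        rw [← Real.exp_nat_mul]
        refine Real.exp_le_exp.2 ?_
        push_cast
        nlinarith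
      have h2 := mul_le_mul_of_nonneg_right this (sq_nonneg (w s k / w s (k - n)))
      linarith
  refine (sum_le_sum t1).trans ?_
  rw [sum_add_distrib, ← mul_sum, ← mul_sum, ← mul_sum,
    sum_flip (fun m => (w s k / w s m) ^ 2), add_div]
  have d0 : 0 < δ ^ α := by positivity
  have b1 : r * ∑ n ∈ range (k + 1), r ^ n ≤ 1 / δ ^ α := by
    have h2 := sum_le_hasSum (range (k + 1)) (fun n _ => by positivity)
      (hasSum_geometric_of_lt_one r0.le r1)
    have h3 : r * (1 - r)⁻¹ = 1 / δ := by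
      have : 1 - r = δ / (1 + δ) := by rw [hr]; field_simp; ring
      rw [this, hr]; field_simp
    have h4 : δ ^ α ≤ δ := by
      simpa using Real.rpow_le_rpow_of_exponent_ge h0 h1 hα
    exact ((mul_le_mul_of_nonneg_left h2 r0.le).trans_eq h3).trans
      (one_div_le_one_div_of_le d0 h4)
  have b2 : Real.exp (-(δ * (k + 1) / 4)) * (K * ((k : ℝ) + 1) ^ α) ≤ K * 4 ^ α * E / δ ^ α := by
    have h2 := hE (δ * (k + 1) / 4) (by positivity)
    rw [Real.div_rpow (by positivity) (by norm_num), Real.mul_rpow h0.le (by positivity),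
      div_le_iff₀ (by positivity)] at h2
    rw [le_div_iff₀ d0, Real.exp_neg, mul_assoc, inv_mul_le_iff₀ (Real.exp_pos _)]
    nlinarith [mul_le_mul_of_nonneg_left h2 K0]
  refine add_le_add ?_ ((mul_le_mul_of_nonneg_left (hK k) (Real.exp_pos _).le).trans b2)
  rw [← mul_one_div]
  gcongr

theorem bd_supp {X Y : Type} {φ : Y → X} {c : Y → ℂ} {M : ℝ} (h0 : 0 ≤ M)
    (hφ : ∀ y y', c y ≠ 0 → c y' ≠ 0 → φ y = φ y' → y = y') (h : ∀ y, ‖c y‖ ≤ M) : Bd φ c M := by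
  classical
  refine ⟨h0, fun x s hs => ?_⟩
  rw [← sum_filter_of_ne (p := fun y => c y ≠ 0) fun y _ hy h' => hy (by simp [h'])]
  have h1 : #(s.filter fun y => c y ≠ 0) ≤ 1 := card_le_one.mpr fun a ha b hb =>
    hφ a b (mem_filter.1 ha).2 (mem_filter.1 hb).2
      ((hs a (mem_filter.1 ha).1).trans (hs b (mem_filter.1 hb).1).symm)
  refine (sum_le_card_nsmul _ _ (M ^ 2) fun y _ => by gcongr; exact h y).trans ?_
  have h2 : (#(s.filter fun y => c y ≠ 0) : ℝ) ≤ 1 := by exact_mod_cast h1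
  rw [nsmul_eq_mul]
  nlinarith [sq_nonneg M]

noncomputable def cn (s : ℝ) (n : ℕ) (p : ℕ × ℕ) : ℂ :=
  if n ≤ p.2 then ((w s (p.1 + n) / w s p.1 * (w s p.2 / w s (p.2 - n)) : ℝ) : ℂ) else 0

theorem bd_cn {s : ℝ} (hs : 0 ≤ s) (n : ℕ) :
    Bd (fun p : ℕ × ℕ => (p.1 + n, p.2 - n)) (cn s n) (w s n ^ 2) := by
  refine bd_supp (by positivity) (fun y y' h1 h2 h => ?_) fun y => ?_
  · have a1 : n ≤ y.2 := by by_contra h'; exact h1 (if_neg h')
    have a2 : n ≤ y'.2 := by by_contra h'; exact h2 (if_neg h')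
    obtain ⟨h3, h4⟩ := Prod.ext_iff.1 h
    simp only at h3 h4
    exact Prod.ext (by omega) (by omega)
  · unfold cn
    split_ifs with h
    · have a1 := w_add hs y.1 n
      have a2 := w_add hs (y.2 - n) n
      rw [Nat.sub_add_cancel h] at a2
      have p1 := div_pos (w_pos s (y.1 + n)) (w_pos s y.1)
      have p2 := div_pos (w_pos s y.2) (w_pos s (y.2 - n))
      rw [Complex.norm_real, Real.norm_of_nonneg (by positivity), pow_two]
      exact mul_le_mul a1 a2 p2.le (w_pos s n).le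
    · rw [norm_zero]; positivity

noncomputable def TT (s : ℝ) : H (ℕ × ℕ) →L[ℂ] H (ℕ × ℕ) :=
  wc (fun p : ℕ × ℕ => (p.1 + 1, p.2 - 1)) (cn s 1)

theorem TT_pow {s : ℝ} (hs : 0 ≤ s) (n : ℕ) (ξ : H (ℕ × ℕ)) (p : ℕ × ℕ) :
    (TT s ^ n) ξ p = cn s n p * ξ (p.1 + n, p.2 - n) := by
  induction n generalizing p with
  | zero =>
    have := (w_pos s p.1).ne'
    have := (w_pos s p.2).ne'
    simp [cn, *]
  | succ n ih =>
    rw [pow_succ', ContinuousLinearMap.mul_apply, TT, wc_apply (bd_cn hs 1), ← TT, ih, ← mul_assoc]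
    have e1 : p.1 + 1 + n = p.1 + (n + 1) := by omega
    have e2 : p.2 - 1 - n = p.2 - (n + 1) := by omega
    simp only [e1, e2]
    congr 1
    simp only [cn, e1, e2]
    by_cases h : n + 1 ≤ p.2
    · rw [if_pos h, if_pos (by omega), if_pos (by omega), ← Complex.ofReal_mul]
      congr 1
      have := (w_pos s (p.1 + 1)).ne'
      have := (w_pos s (p.2 - 1)).ne'
      field_simp
    · rw [if_neg h]
      by_cases h1 : 1 ≤ p.2
      · rw [if_neg (show ¬ n ≤ p.2 - 1 by omega), mul_zero]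
      · rw [if_neg h1, zero_mul]

theorem TT_norm {s : ℝ} (hs : 0 ≤ s) (n : ℕ) : ‖TT s ^ n‖ = (1 + n : ℝ) ^ s := by
  rw [add_comm, ← w_sq]
  refine le_antisymm (norm_le_bd (bd_cn hs n) _ (TT_pow hs n)) ?_
  have := ent_le (TT s ^ n) (n, 0) (0, n)
  rw [TT_pow hs] at this
  have w0 : w s 0 = 1 := by simp [w]
  simpa [cn, w0, δ, pow_two, abs_of_pos (w_pos s n)] using this

theorem TT_spec {s : ℝ} (hs : 0 ≤ s) : spectrum ℂ (TT s) ⊆ Metric.closedBall 0 1 := fun l hl => by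
  rw [mem_closedBall_zero_iff]
  by_contra h
  push Not at h
  have h1 : ∀ n : ℕ, ‖l‖ ^ n ≤ (1 + n : ℝ) ^ ⌈s⌉₊ := fun n => by
    have h2 := spectrum.norm_le_norm_mul_of_mem (spectrum.pow_mem_pow _ n hl)
    rw [norm_pow, TT_norm hs] at h2
    have h3 : ‖(1 : H (ℕ × ℕ) →L[ℂ] H (ℕ × ℕ))‖ ≤ 1 := ContinuousLinearMap.norm_id_le
    have h4 := Real.rpow_le_rpow_of_exponent_le
      (show (1 : ℝ) ≤ 1 + n by linarith [Nat.cast_nonneg (α := ℝ) n]) (Nat.le_ceil s)
    rw [Real.rpow_natCast] at h4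
    exact h2.trans ((mul_le_of_le_one_right (by positivity) h3).trans h4)
  have h2 := (tendsto_pow_const_div_const_pow_of_one_lt ⌈s⌉₊ h).comp (tendsto_add_atTop_nat 1)
  obtain ⟨n, hn⟩ := (h2.eventually (gt_mem_nhds (show 0 < ‖l‖⁻¹ by positivity))).exists
  simp only [Function.comp] at hn
  rw [div_lt_iff₀ (by positivity), pow_succ', inv_mul_cancel_left₀ (by positivity)] at hn
  have := h1 n
  push_cast at hn
  rw [add_comm] at hn
  linarith

theorem TT_RC {s α K : ℝ} (hs : 0 ≤ s) (hα : 1 ≤ α)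
    (hK : ∀ k : ℕ, ∑ m ∈ range (k + 1), (w s k / w s m) ^ 2 ≤ K * ((k : ℝ) + 1) ^ α) :
    RC α (TT s) := by
  classical
  obtain ⟨D, D0, hD⟩ := phi hs hα hK
  refine ⟨TT_spec hs, D, D0, fun l h1 h2 => ?_⟩
  have hΦ := hD (‖l‖ - 1) (by linarith) (by linarith)
  rw [add_sub_cancel] at hΦ
  set Φ := D / (‖l‖ - 1) ^ α
  have Φ0 : 0 ≤ Φ := div_nonneg D0.le (Real.rpow_nonneg (by linarith) _)
  set r := ‖l‖⁻¹
  have r0 : 0 < r := by positivity
  have l0 : l ≠ 0 := norm_pos_iff.1 (by linarith)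
  have hu : l ∈ resolventSet ℂ (TT s) := by
    by_contra hn
    have := mem_closedBall_zero_iff.1 (TT_spec hs hn)
    linarith
  refine ContinuousLinearMap.opNorm_le_bound _ Φ0 fun ξ => ?_
  set η := resolvent (TT s) l ξ
  have e0 : l • η = ξ + TT s η := by
    have := congrArg (fun A : H (ℕ × ℕ) →L[ℂ] H (ℕ × ℕ) => A ξ) (Ring.mul_inverse_cancel _ hu)
    simp only [Algebra.algebraMap_eq_smul_one, ContinuousLinearMap.mul_apply,
      ContinuousLinearMap.sub_apply, ContinuousLinearMap.smul_apply,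
      ContinuousLinearMap.one_apply] at this
    rw [← this]
    simp [η, resolvent, Algebra.algebraMap_eq_smul_one]
  have e1 : ∀ L, η = ∑ n ∈ range L, l⁻¹ ^ (n + 1) • (TT s ^ n) ξ + l⁻¹ ^ L • (TT s ^ L) η := by
    intro L
    induction L with
    | zero => simp
    | succ L ih =>
      rw [sum_range_succ, add_assoc, ← smul_add, pow_succ (TT s), ContinuousLinearMap.mul_apply,
        ← map_add, ← e0, map_smul, smul_smul, pow_succ, inv_mul_cancel_right₀ l0]
      exact ih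
  have e2 : ∀ p : ℕ × ℕ, η p = ∑ n ∈ range (p.2 + 1),
      l⁻¹ ^ (n + 1) * (cn s n p * ξ (p.1 + n, p.2 - n)) := fun p => by
    have := congrArg (fun v : H (ℕ × ℕ) => v p) (e1 (p.2 + 1))
    simp only [lp.coeFn_add, lp.coeFn_smul, lp.coeFn_sum, Pi.add_apply, Pi.smul_apply,
      Finset.sum_apply, smul_eq_mul, TT_pow hs] at this
    rw [this, cn, if_neg (by omega)]
    simp
  have e3 : ∀ p : ℕ × ℕ, ‖η p‖ ^ 2 ≤ Φ * ∑ n ∈ range (p.2 + 1),
      r ^ (n + 1) * (w s (p.1 + n) / w s p.1) ^ 2 * ‖ξ (p.1 + n, p.2 - n)‖ ^ 2 := fun p => by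
    rw [e2]
    refine (pow_le_pow_left₀ (norm_nonneg _) (norm_sum_le _ _) 2).trans ?_
    refine (sum_sq_le_sum_mul_sum_of_sq_eq_mul _
      (f := fun n => r ^ (n + 1) * (w s p.2 / w s (p.2 - n)) ^ 2) (fun _ _ => by positivity)
      (fun _ _ => by positivity) fun n hn => ?_).trans
      (mul_le_mul_of_nonneg_right (hΦ p.2) (sum_nonneg fun _ _ => by positivity))
    rw [cn, if_pos (Nat.lt_succ_iff.1 (mem_range.1 hn))]
    simp only [norm_mul, norm_pow, norm_inv, Complex.norm_real, Real.norm_eq_abs, mul_pow, sq_abs]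
    ring
  refine norm_le_of _ (by positivity) fun t => ?_
  refine (sum_le_sum fun p _ => e3 p).trans ?_
  rw [← mul_sum, mul_pow, pow_two Φ, mul_assoc]
  refine mul_le_mul_of_nonneg_left ?_ Φ0
  rw [sum_sigma']
  set t' := t.sigma fun p => range (p.2 + 1)
  rw [← sum_fiberwise_of_maps_to (g := fun q : (_ : ℕ × ℕ) × ℕ => (q.1.1 + q.2, q.1.2 - q.2))
    (fun y hy => mem_image_of_mem _ hy)]
  refine le_trans (sum_le_sum fun u _ => ?_) (mul_le_mul_of_nonneg_left (sum_le_sq ξ _) Φ0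
    |>.trans' (le_of_eq (mul_sum _ _ _).symm))
  have e4 : ∀ q ∈ t'.filter fun q => (q.1.1 + q.2, q.1.2 - q.2) = u,
      r ^ (q.2 + 1) * (w s (q.1.1 + q.2) / w s q.1.1) ^ 2 * ‖ξ (q.1.1 + q.2, q.1.2 - q.2)‖ ^ 2 =
        r ^ (q.2 + 1) * (w s u.1 / w s (u.1 - q.2)) ^ 2 * ‖ξ u‖ ^ 2 := fun q hq => by
    rw [← (mem_filter.1 hq).2]
    simp
  rw [sum_congr rfl e4, ← sum_mul]
  refine mul_le_mul_of_nonneg_right (le_trans ?_ (hΦ u.1)) (by positivity)
  rw [← sum_image (g := fun q : (_ : ℕ × ℕ) × ℕ => q.2)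
    (f := fun n => r ^ (n + 1) * (w s u.1 / w s (u.1 - n)) ^ 2)]
  · refine sum_le_sum_of_subset_of_nonneg (fun n hn => ?_) fun _ _ _ => by positivity
    obtain ⟨q, hq, rfl⟩ := mem_image.1 hn
    rw [← (mem_filter.1 hq).2]
    exact mem_range.2 (by simp only; omega)
  · rintro ⟨⟨a, b⟩, n⟩ hq ⟨⟨a', b'⟩, n'⟩ hq' h
    obtain ⟨h3, h4⟩ := mem_filter.1 (mem_coe.1 hq)
    obtain ⟨h5, h6⟩ := mem_filter.1 (mem_coe.1 hq')
    have h7 := mem_range.1 (mem_sigma.1 h3).2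
    have h8 := mem_range.1 (mem_sigma.1 h5).2
    obtain ⟨h9, h10⟩ := Prod.ext_iff.1 (h4.trans h6.symm)
    simp only at h h7 h8 h9 h10
    subst h
    obtain rfl : a = a' := by omega
    obtain rfl : b = b' := by omega
    rfl

theorem K_big {α : ℝ} (hα : 1 < α) : ∃ K, ∀ k : ℕ,
    ∑ m ∈ range (k + 1), (w α k / w α m) ^ 2 ≤ K * ((k : ℝ) + 1) ^ α := by
  have h := (summable_nat_add_iff 1).2 (Real.summable_nat_rpow_inv.2 hα)
  refine ⟨_, fun k => le_trans (le_of_eq ?_) (mul_le_mul_of_nonneg_right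
    (h.sum_le_tsum (range (k + 1)) fun _ _ => by positivity) (by positivity))⟩
  rw [sum_mul]
  refine sum_congr rfl fun m _ => ?_
  rw [div_pow, w_sq, w_sq]
  push_cast
  ring

theorem K_one {s : ℝ} (h0 : 0 ≤ s) (h1 : s < 1) (k : ℕ) :
    ∑ m ∈ range (k + 1), (w s k / w s m) ^ 2 ≤ (1 - s)⁻¹ * ((k : ℝ) + 1) ^ (1 : ℝ) := by
  have h : ∀ n : ℕ, (1 - s) * ∑ m ∈ range n, (((m : ℝ) + 1) ^ s)⁻¹ ≤ (n : ℝ) ^ (1 - s) := by
    intro n
    induction n with
    | zero => simp; positivity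
    | succ n ih =>
      have hp : (0 : ℝ) < (n : ℝ) + 1 := by positivity
      have h2 := rpow_one_add_le_one_add_mul_self (s := -(1 / ((n : ℝ) + 1)))
        (by rw [neg_le_neg_iff, div_le_one hp]; linarith [Nat.cast_nonneg (α := ℝ) n])
        (p := 1 - s) (by linarith) (by linarith)
      have e : 1 + -(1 / ((n : ℝ) + 1)) = n / (n + 1) := by field_simp; ring
      rw [e, Real.div_rpow (by positivity) hp.le, div_le_iff₀ (by positivity)] at h2
      have e2 : ((n : ℝ) + 1) ^ (1 - s) = (n + 1) * (((n : ℝ) + 1) ^ s)⁻¹ := by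
        rw [Real.rpow_sub hp, Real.rpow_one, div_eq_mul_inv]
      rw [sum_range_succ, mul_add]
      push_cast
      rw [e2] at h2 ⊢
      have e3 : (1 + (1 - s) * -(1 / ((n : ℝ) + 1))) * ((n + 1) * (((n : ℝ) + 1) ^ s)⁻¹) =
          (n + 1) * (((n : ℝ) + 1) ^ s)⁻¹ - (1 - s) * (((n : ℝ) + 1) ^ s)⁻¹ := by field_simp; ring
      linarith
  have h2 := h (k + 1)
  push_cast at h2
  have hp : (0 : ℝ) < (k : ℝ) + 1 := by positivity
  simp only [div_pow, w_sq]
  simp only [div_eq_mul_inv]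
  rw [← mul_sum, le_inv_mul_iff₀ (by linarith), Real.rpow_one]
  rw [Real.rpow_sub hp, Real.rpow_one, le_div_iff₀ (by positivity)] at h2
  linarith

theorem sharp {α : ℝ} (hα : 1 < α) : RC α (TT α) :=
  let ⟨_, h⟩ := K_big hα
  TT_RC (by linarith) hα.le h

theorem least {α : ℝ} (hα : 1 ≤ α) : IsLeast (Adm α) α := by
  refine ⟨⟨by linarith, fun H _ _ _ T hT => upper hT⟩, fun γ hγ => ?_⟩
  by_contra hlt
  push Not at hlt
  obtain ⟨s, h1, h2⟩ : ∃ s, γ < s ∧ RC α (TT s) := by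
    rcases hα.eq_or_lt with rfl | h
    · exact ⟨(γ + 1) / 2, by linarith, TT_RC (by linarith [hγ.1]) le_rfl
        (K_one (by linarith [hγ.1]) (by linarith))⟩
    · exact ⟨α, hlt, sharp h⟩
  obtain ⟨C, hC⟩ := hγ.2 _ _ h2
  have h3 := (tendsto_rpow_atTop (sub_pos.2 h1)).comp
    (tendsto_atTop_add_const_left _ 1 (tendsto_natCast_atTop_atTop (R := ℝ)))
  obtain ⟨n, hn⟩ := (h3.eventually (eventually_gt_atTop C)).exists
  have h4 := hC n
  rw [TT_norm (by linarith [hγ.1])] at h4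
  simp only [Function.comp] at hn
  rw [Real.rpow_sub (by positivity), lt_div_iff₀ (by positivity)] at hn
  linarith

end Pool.Agent.H86.Kr
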