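import Mathlib

set_option autoImplicit false

namespace Pool.Agent.H86.Kr

/-- condition `(R_α)` -/
def RC {H : Type*} [NormedAddCommGroup H] [InnerProductSpace ℂ H] (α : ℝ) (T : H →L[ℂ] H) : Prop :=
  spectrum ℂ T ⊆ Metric.closedBall 0 1 ∧ ∃ c : ℝ, 0 < c ∧ ∀ l : ℂ, 1 < ‖l‖ → ‖l‖ ≤ 2 →
    ‖resolvent T l‖ ≤ c / (‖l‖ - 1) ^ α

/-- the admissible growth exponents for the class `(R_α)` -/
def Adm (α : ℝ) : Set ℝ :=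
  {γ | 0 ≤ γ ∧ ∀ (H : Type) [NormedAddCommGroup H] [InnerProductSpace ℂ H] [CompleteSpace H]
    (T : H →L[ℂ] H), RC α T → ∃ C : ℝ, ∀ n : ℕ, ‖T ^ n‖ ≤ C * (1 + n : ℝ) ^ γ}

/-- some Hilbert space operator with `(R_α)` has `‖T ^ n‖ = (1 + n) ^ s` for all `n` -/
def Att (α s : ℝ) : Prop :=
  ∃ (H : Type) (_ : NormedAddCommGroup H) (_ : InnerProductSpace ℂ H) (_ : CompleteSpace H)
    (T : H →L[ℂ] H), RC α T ∧ ∀ n : ℕ, ‖T ^ n‖ = (1 + n : ℝ) ^ s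

end Pool.Agent.H86.Kr
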