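import Mathlib

set_option autoImplicit false

namespace Pool.Agent.H86.Mss

open Complex Filter Topology Set Metric ComplexConjugate

/-- holomorphic maps of the upper half-plane into its closure -/
structure Hz (φ : ℂ → ℂ) : Prop where
  d : ∀ z : ℂ, 0 < z.im → DifferentiableAt ℂ φ z
  p : ∀ z : ℂ, 0 < z.im → 0 ≤ (φ z).im

theorem nsq (z w : ℂ) : ‖z - conj w‖ ^ 2 = ‖z - w‖ ^ 2 + 4 * (z.im * w.im) := by
  simp only [Complex.sq_norm, normSq_apply, sub_re, sub_im, conj_re, conj_im]; ring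

theorem ne_conj {z w : ℂ} (hz : 0 < z.im) (hw : 0 < w.im) : z - conj w ≠ 0 := fun h => by
  have := congrArg im h
  simp at this; linarith

theorem pick0 {φ : ℂ → ℂ} (hd : ∀ z : ℂ, 0 < z.im → DifferentiableAt ℂ φ z)
    (hp : ∀ z : ℂ, 0 < z.im → 0 < (φ z).im) {z w : ℂ} (hz : 0 < z.im) (hw : 0 < w.im) :
    ‖φ z - φ w‖ ^ 2 * (z.im * w.im) ≤ ‖z - w‖ ^ 2 * ((φ z).im * (φ w).im) := by
  let m : ℂ → ℂ := fun u => (w - conj w * u) / (1 - u)
  have h1 : ∀ u : ℂ, ‖u‖ < 1 → 1 - u ≠ 0 := fun u hu h => by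
    rw [← sub_eq_zero.mp h] at hu; simp at hu
  have hm : ∀ u : ℂ, ‖u‖ < 1 → 0 < (m u).im := fun u hu => by
    have h2 : 0 < normSq (1 - u) := normSq_pos.mpr (h1 u hu)
    have h3 : normSq u < 1 := by rw [← Complex.sq_norm]; nlinarith [norm_nonneg u]
    have h4 : (m u).im = w.im * (1 - normSq u) / normSq (1 - u) := by
      simp only [m, div_im]
      field_simp
      simp [normSq_apply]; ring
    rw [h4]; exact div_pos (mul_pos hw (by linarith)) h2
  let g : ℂ → ℂ := fun u => (φ (m u) - φ w) / (φ (m u) - conj (φ w))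
  have hg : DifferentiableOn ℂ g (ball 0 1) := fun u hu => by
    have hu' : ‖u‖ < 1 := by simpa using hu
    have a1 : DifferentiableAt ℂ m u := by
      refine DifferentiableAt.div ?_ ?_ (h1 u hu') <;> fun_prop
    have a2 : DifferentiableAt ℂ (fun u => φ (m u)) u := (hd _ (hm u hu')).comp u a1
    exact ((a2.sub_const _).div (a2.sub_const _)
      (ne_conj (hp _ (hm u hu')) (hp w hw))).differentiableWithinAt
  have le1 : ∀ a b : ℂ, 0 < a.im → 0 < b.im → ‖a - b‖ < ‖a - conj b‖ := fun a b ha hb => by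
    refine lt_of_pow_lt_pow_left₀ 2 (norm_nonneg _) ?_
    rw [nsq]; nlinarith [mul_pos ha hb]
  have hmaps : MapsTo g (ball 0 1) (closedBall 0 1) := fun u hu => by
    have hu' : ‖u‖ < 1 := by simpa using hu
    simp only [g, mem_closedBall, dist_zero_right, norm_div]
    exact div_le_one_of_le₀ (le1 _ _ (hp _ (hm u hu')) (hp w hw)).le (norm_nonneg _)
  have h0 : g 0 = 0 := by simp [g, m]
  have hne := ne_conj hz hw
  have hu : ‖(z - w) / (z - conj w)‖ < 1 := by
    rw [norm_div, div_lt_one (norm_pos_iff.mpr hne)]; exact le1 _ _ hz hw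
  have hmz : m ((z - w) / (z - conj w)) = z := by
    have h5 := h1 _ hu
    simp only [m]
    rw [div_eq_iff h5]
    field_simp
    ring
  have key := norm_le_norm_of_mapsTo_ball hg hmaps h0 hu
  simp only [g, hmz, norm_div] at key
  have hne2 := ne_conj (hp z hz) (hp w hw)
  rw [div_le_div_iff₀ (norm_pos_iff.mpr hne2) (norm_pos_iff.mpr hne)] at key
  have k2 := pow_le_pow_left₀ (by positivity) key 2
  rw [mul_pow, mul_pow, nsq, nsq] at k2
  nlinarith

theorem pick {φ : ℂ → ℂ} (h : Hz φ) {z w : ℂ} (hz : 0 < z.im) (hw : 0 < w.im) :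
    ‖φ z - φ w‖ ^ 2 * (z.im * w.im) ≤ ‖z - w‖ ^ 2 * ((φ z).im * (φ w).im) := by
  have h1 : ∀ η : ℝ, 0 < η → ‖φ z - φ w‖ ^ 2 * (z.im * w.im) ≤
      ‖z - w‖ ^ 2 * (((φ z).im + η) * ((φ w).im + η)) := fun η hη => by
    have := pick0 (φ := fun u => φ u + η * I) (fun u hu => (h.d u hu).add_const _)
      (fun u hu => by have := h.p u hu; simp; linarith) hz hw
    simpa using this
  have h2 : Tendsto (fun η : ℝ => ‖z - w‖ ^ 2 * (((φ z).im + η) * ((φ w).im + η))) (𝓝[>] 0)
      (𝓝 (‖z - w‖ ^ 2 * (((φ z).im + 0) * ((φ w).im + 0)))) :=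
    tendsto_nhdsWithin_of_tendsto_nhds (Continuous.tendsto (by fun_prop) 0)
  simpa using ge_of_tendsto h2 (eventually_nhdsWithin_of_forall h1)

/-- real regular points -/
def Ok (φ : ℂ → ℂ) (t : ℝ) : Prop := DifferentiableAt ℂ φ t ∧ (φ t).im = 0

theorem Ok.der {φ : ℂ → ℂ} {t : ℝ} (h : Ok φ t) :
    HasDerivAt (fun s : ℝ => (φ s).re) (deriv φ t).re t := h.1.hasDerivAt.real_of_complex

theorem Ok.up {φ : ℂ → ℂ} {t : ℝ} (h : Ok φ t) :
    Tendsto (fun η : ℝ => (φ (t + η * I)).im / η) (𝓝[>] 0) (𝓝 (deriv φ t).re) := by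
  have h1 : HasDerivAt (fun u : ℂ => φ (t + u * I) * (-I)) (deriv φ t * I * (-I)) (0 : ℝ) := by
    have a1 : HasDerivAt (fun u : ℂ => (t : ℂ) + u * I) I (0 : ℝ) := by
      simpa using ((hasDerivAt_id ((0 : ℝ) : ℂ)).mul_const I).const_add (t : ℂ)
    have a2 : HasDerivAt φ (deriv φ t) ((t : ℂ) + ((0 : ℝ) : ℂ) * I) := by
      simpa using h.1.hasDerivAt
    exact (HasDerivAt.comp ((0 : ℝ) : ℂ) (h := fun u : ℂ => (t : ℂ) + u * I) a2 a1).mul_const _
  have h2 := h1.real_of_complex.tendsto_slope_zero_right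
  have h3 : (deriv φ t * I * (-I)).re = (deriv φ t).re := by simp
  rw [h3] at h2
  refine h2.congr fun η => ?_
  simp [h.2, div_eq_inv_mul]

theorem Hz.nn {φ : ℂ → ℂ} (h : Hz φ) {t : ℝ} (ht : Ok φ t) : 0 ≤ (deriv φ t).re :=
  ge_of_tendsto ht.up (eventually_nhdsWithin_of_forall fun η hη =>
    div_nonneg (h.p _ (by simpa using hη)) (le_of_lt hη))

theorem Hz.low {φ : ℂ → ℂ} (h : Hz φ) {s t : ℝ} (hs : Ok φ s) (ht : Ok φ t) :
    ((φ s).re - (φ t).re) ^ 2 ≤ (s - t) ^ 2 * ((deriv φ s).re * (deriv φ t).re) := by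
  have c : ∀ {t : ℝ}, Ok φ t → Tendsto (fun η : ℝ => φ (t + η * I)) (𝓝[>] 0) (𝓝 (φ t)) :=
    fun {t} ht => by
      refine ht.1.continuousAt.tendsto.comp (tendsto_nhdsWithin_of_tendsto_nhds ?_)
      simpa using Continuous.tendsto (f := fun η : ℝ => (t : ℂ) + η * I) (by fun_prop) 0
  have h1 := (((c hs).sub (c ht)).norm).pow 2
  have h2 := (hs.up.mul ht.up).const_mul ((s - t) ^ 2)
  have h3 := le_of_tendsto_of_tendsto h1 h2 (eventually_nhdsWithin_of_forall fun η hη => by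
    have hη' : 0 < η := hη
    have := pick h (z := s + η * I) (w := t + η * I) (by simpa using hη') (by simpa using hη')
    have e : ‖(s + η * I : ℂ) - (t + η * I)‖ ^ 2 = (s - t) ^ 2 := by
      rw [add_sub_add_right_eq_sub, ← ofReal_sub, norm_real, Real.norm_eq_abs, sq_abs]
    rw [e] at this
    simp only [add_im, ofReal_im, mul_im, ofReal_re, I_im, mul_one, I_re, mul_zero, add_zero,
      zero_add] at this
    beta_reduce
    rw [div_mul_div_comm, ← mul_div_assoc, le_div_iff₀ (mul_pos hη' hη')]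
    exact this)
  refine le_trans ?_ h3
  rw [← sub_re, ← sq_abs]
  exact pow_le_pow_left₀ (abs_nonneg _) (abs_re_le_norm _) 2

theorem mono_of {F F' : ℝ → ℝ} {a b : ℝ} (hab : a ≤ b)
    (h : ∀ t ∈ Icc a b, HasDerivAt F (F' t) t) (h' : ∀ t ∈ Icc a b, 0 ≤ F' t) : F a ≤ F b :=
  monotoneOn_of_deriv_nonneg (convex_Icc a b)
    (fun t ht => (h t ht).continuousAt.continuousWithinAt)
    (fun t ht => (h t (interior_subset ht)).differentiableAt.differentiableWithinAt)
    (fun t ht => by rw [(h t (interior_subset ht)).deriv]; exact h' t (interior_subset ht))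
    (left_mem_Icc.mpr hab) (right_mem_Icc.mpr hab) hab

theorem Hz.mono {φ : ℂ → ℂ} (h : Hz φ) {a b : ℝ} (hab : a ≤ b) (ho : ∀ t ∈ Icc a b, Ok φ t) :
    (φ a).re ≤ (φ b).re :=
  mono_of (F := fun s : ℝ => (φ s).re) hab (fun t ht => (ho t ht).der)
    (fun t ht => h.nn (ho t ht))

theorem Hz.conv {φ : ℂ → ℂ} (h : Hz φ) {a b : ℝ} (hab : a ≤ b) (ho : ∀ t ≤ b, Ok φ t) :
    (φ b).re - (φ a).re ≤ (b - a) * (deriv φ b).re := by
  by_contra hc
  push Not at hc
  set d := (deriv φ b).re with hd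
  have d0 : 0 ≤ d := h.nn (ho b le_rfl)
  have p0 : 0 < (φ b).re - (φ a).re := lt_of_le_of_lt (mul_nonneg (by linarith) d0) hc
  have hlt : a < b := lt_of_le_of_ne hab (by rintro rfl; simp at p0)
  have d1 : 0 < d := lt_of_le_of_ne d0 fun e => by
    have := h.low (ho b le_rfl) (ho a hab)
    rw [← hd, ← e] at this
    nlinarith
  have pos : ∀ s ≤ a, 0 < (φ b).re - (φ (s : ℝ)).re := fun s hs => by
    have := h.mono hs (fun t ht => ho t (ht.2.trans hab))
    linarith
  let F : ℝ → ℝ := fun s => ((φ b).re - (φ s).re)⁻¹ - (d * (b - s))⁻¹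
  have hF : ∀ s ≤ a, F s ≤ F a := fun s hs => by
    refine mono_of (F' := fun t => -(-(deriv φ t).re) / ((φ b).re - (φ t).re) ^ 2 -
      -(d * (-1)) / (d * (b - t)) ^ 2) hs (fun t ht => ?_) (fun t ht => ?_)
    · have q : 0 < b - t := by linarith [ht.2]
      exact (((ho t (ht.2.trans hab)).der.const_sub _).inv (pos t ht.2).ne').sub
        ((((hasDerivAt_id t).const_sub b).const_mul d).inv (mul_pos d1 q).ne')
    · have q : 0 < b - t := by linarith [ht.2]
      have := h.low (ho b le_rfl) (ho t (ht.2.trans hab))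
      rw [← hd] at this
      have q2 := pos t ht.2
      rw [sub_nonneg, div_le_div_iff₀ (by positivity) (by positivity)]
      nlinarith
  have q : 0 < (b - a) * d := mul_pos (by linarith) d1
  have Fa : F a < 0 := by
    simp only [F]
    rw [sub_neg, mul_comm d]
    exact inv_strictAnti₀ q hc
  set κ := -F a with hκ
  have k0 : 0 < κ := by linarith
  have := hF (a - (d * κ)⁻¹) (by simp; positivity)
  simp only [F] at this
  have e1 := inv_pos.mpr (pos (a - (d * κ)⁻¹) (by simp; positivity))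
  have e2 : (d * (b - (a - (d * κ)⁻¹)))⁻¹ < κ := by
    rw [inv_lt_comm₀ (mul_pos d1 (by have : 0 < (d * κ)⁻¹ := by positivity
                                     linarith)) k0]
    have : d * (b - (a - (d * κ)⁻¹)) = (b - a) * d + κ⁻¹ := by field_simp; ring
    rw [this]; linarith
  simp only [F] at hκ
  linarith

theorem sgn {F : ℝ → ℝ} {d t : ℝ} (h : HasDerivAt F d t) (h0 : F t = 0) (hd : d < 0) :
    (∀ᶠ s in 𝓝[>] t, F s < 0) ∧ ∀ᶠ s in 𝓝[<] t, 0 < F s := by
  have h1 := (hasDerivAt_iff_tendsto_slope.mp h).eventually (gt_mem_nhds hd)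
  constructor
  · filter_upwards [nhdsWithin_mono t (fun s (hs : s ∈ Ioi t) => ne_of_gt hs) h1,
      self_mem_nhdsWithin] with s hs hs'
    rw [slope_def_field, h0, sub_zero] at hs
    exact (div_neg_iff.mp hs).elim (fun q => absurd q.2 (by simp; exact le_of_lt hs')) (·.1)
  · filter_upwards [nhdsWithin_mono t (fun s (hs : s ∈ Iio t) => ne_of_lt hs) h1,
      self_mem_nhdsWithin] with s hs hs'
    rw [slope_def_field, h0, sub_zero] at hs
    exact (div_neg_iff.mp hs).elim (·.1) (fun q => absurd q.2 (by simp; exact le_of_lt hs'))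

end Pool.Agent.H86.Mss
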