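import Pool.Agent.H86.MssA

set_option autoImplicit false

namespace Pool.Agent.H86.Mss

open Complex Filter Topology Set ComplexConjugate MvPolynomial

variable {Y : Type}

/-- directional derivative -/
noncomputable def Dd (a : Y → ℝ) : Derivation ℂ (MvPolynomial Y ℂ) (MvPolynomial Y ℂ) :=
  mkDerivation ℂ (fun y => C (a y : ℂ))

/-- point on a line -/
def pt (z : Y → ℂ) (a : Y → ℝ) (t : ℂ) : Y → ℂ := fun y => z y + a y * t

/-- real point -/
def cx (w : Y → ℝ) : Y → ℂ := fun y => w y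

/-- restriction to a line -/
noncomputable def ln (P : MvPolynomial Y ℂ) (z : Y → ℂ) (a : Y → ℝ) : Polynomial ℂ :=
  aeval (fun y => Polynomial.C (z y) + Polynomial.C (a y : ℂ) * Polynomial.X) P

/-- the operator one minus derivative -/
noncomputable def T (a : Y → ℝ) (P : MvPolynomial Y ℂ) : MvPolynomial Y ℂ := P - Dd a P

theorem Dd_mul (a : Y → ℝ) (P : MvPolynomial Y ℂ) (y : Y) :
    Dd a (P * X y) = Dd a P * X y + C (a y : ℂ) * P := by
  rw [Derivation.leibniz, Dd, mkDerivation_X]; simp; ring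

theorem Dd_C (a : Y → ℝ) (c : ℂ) : Dd a (C c) = 0 := derivation_C _ _

theorem Dd_Cmul (a : Y → ℝ) (c : ℂ) (P : MvPolynomial Y ℂ) : Dd a (C c * P) = C c * Dd a P := by
  rw [Derivation.leibniz, Dd_C]; simp

theorem Dd_comm (a e : Y → ℝ) (P : MvPolynomial Y ℂ) : Dd a (Dd e P) = Dd e (Dd a P) := by
  induction P using MvPolynomial.induction_on with
  | C c => simp
  | add p q hp hq => simp [hp, hq]
  | mul_X p y hp => simp only [Dd_mul, map_add, Dd_Cmul, hp]; ring

theorem T_comm (a e : Y → ℝ) (P : MvPolynomial Y ℂ) : T a (T e P) = T e (T a P) := by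
  simp only [T, map_sub, Dd_comm a e]; ring

theorem pt_zero (z : Y → ℂ) (a : Y → ℝ) : pt z a 0 = z := by funext y; simp [pt]

theorem pt_cx (w e : Y → ℝ) (s : ℝ) : pt (cx w) e s = cx (w + s • e) := by
  funext y; simp [pt, cx, mul_comm]

theorem ln_eval (P : MvPolynomial Y ℂ) (z : Y → ℂ) (a : Y → ℝ) (t : ℂ) :
    (ln P z a).eval t = eval (pt z a t) P := by
  induction P using MvPolynomial.induction_on with
  | C c => simp [ln]
  | add p q hp hq => simp only [ln, map_add, Polynomial.eval_add] at *; rw [hp, hq]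
  | mul_X p y hp => simp only [ln, map_mul, Polynomial.eval_mul] at *; rw [hp]; simp [pt]

theorem ln_der (P : MvPolynomial Y ℂ) (z : Y → ℂ) (a : Y → ℝ) :
    Polynomial.derivative (ln P z a) = ln (Dd a P) z a := by
  induction P using MvPolynomial.induction_on with
  | C c => simp [ln]
  | add p q hp hq => simp only [ln, map_add] at *; rw [hp, hq]
  | mul_X p y hp =>
    simp only [ln, Dd_mul, map_add, map_mul, Polynomial.derivative_mul] at *
    rw [hp]; simp; ring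

theorem ln_deg (P : MvPolynomial Y ℂ) (z : Y → ℂ) (a : Y → ℝ) :
    (ln P z a).natDegree ≤ P.totalDegree := by
  simpa [ln] using aeval_natDegree_le (n := 1) P le_rfl _ (fun y => by compute_degree)

theorem der_pt (P : MvPolynomial Y ℂ) (z : Y → ℂ) (a : Y → ℝ) (t : ℂ) :
    HasDerivAt (fun s => eval (pt z a s) P) (eval (pt z a t) (Dd a P)) t := by
  simpa only [ln_eval, ln_der] using (ln P z a).hasDerivAt t

theorem logd (P : MvPolynomial Y ℂ) (z : Y → ℂ) (a : Y → ℝ) (t : ℂ)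
    (h : eval (pt z a t) P ≠ 0) : -eval (pt z a t) (Dd a P) / eval (pt z a t) P =
      ((ln P z a).roots.map fun r => 1 / (r - t)).sum := by
  have := (IsAlgClosed.splits (ln P z a)).eval_derivative_div_eval_of_ne_zero (x := t)
    (by rwa [ln_eval])
  rw [ln_der, ln_eval, ln_eval] at this
  rw [neg_div, this, ← Multiset.sum_map_neg]
  congr 1
  exact Multiset.map_congr rfl fun r _ => by rw [← div_neg, neg_sub]

theorem root_ev {P : MvPolynomial Y ℂ} {z : Y → ℂ} {a : Y → ℝ} {r : ℂ}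
    (h : r ∈ (ln P z a).roots) : eval (pt z a r) P = 0 := by
  rw [← ln_eval]; exact Polynomial.isRoot_of_mem_roots h

/-- stability -/
def St (P : MvPolynomial Y ℂ) : Prop := ∀ z : Y → ℂ, (∀ y, 0 < (z y).im) → eval z P ≠ 0

theorem prod_le (s : Multiset ℂ) {t : ℂ} (ht : 0 < t.im) (h : ∀ r ∈ s, r.im ≤ 0) :
    ‖(s.map (0 - ·)).prod‖ ≤ (1 + ‖t‖ / t.im) ^ s.card * ‖(s.map (t - ·)).prod‖ := by
  induction s using Multiset.induction_on with
  | empty => simp
  | cons r s ih =>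
    have h1 := ih fun x hx => h x (Multiset.mem_cons_of_mem hx)
    have h2 := h r (Multiset.mem_cons_self _ _)
    have h3 : t.im ≤ ‖t - r‖ := by
      have := im_le_norm (t - r); rw [sub_im] at this; linarith
    have h4 : ‖0 - r‖ ≤ (1 + ‖t‖ / t.im) * ‖t - r‖ := by
      have a1 : ‖0 - r‖ ≤ ‖t - r‖ + ‖t‖ := by
        simpa using norm_sub_le (t - r) t
      have a2 : ‖t‖ ≤ ‖t‖ / t.im * ‖t - r‖ := by
        rw [div_mul_eq_mul_div, le_div_iff₀ ht]; gcongr
      linarith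
    simp only [Multiset.map_cons, Multiset.prod_cons, norm_mul, Multiset.card_cons, pow_succ]
    calc _ ≤ ((1 + ‖t‖ / t.im) * ‖t - r‖) * ((1 + ‖t‖ / t.im) ^ s.card *
          ‖(s.map (t - ·)).prod‖) := by gcongr
      _ = _ := by ring

theorem St.hur {P : MvPolynomial Y ℂ} (h : St P) {z : Y → ℂ} (hz : ∀ y, 0 ≤ (z y).im)
    (h0 : eval z P ≠ 0) {a : Y → ℝ} (ha : 0 ≤ a) {t : ℂ} (ht : 0 < t.im) :
    eval (pt z a t) P ≠ 0 := by
  set K := 1 + ‖t‖ / t.im with hK
  have K1 : 1 ≤ K := by have : 0 ≤ ‖t‖ / t.im := by positivity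
                        linarith
  have h1 : ∀ η : ℝ, 0 < η → ‖eval (pt z 1 (η * I)) P‖ ≤
      K ^ P.totalDegree * ‖eval (pt (pt z a t) 1 (η * I)) P‖ := fun η hη => by
    have e : pt (pt z a t) 1 (η * I) = pt (pt z 1 (η * I)) a t := by
      funext y; simp [pt]; ring
    rw [e, ← pt_zero (pt z 1 (η * I)) a, ← ln_eval, pt_zero, ← ln_eval,
      (IsAlgClosed.splits _).eval_eq_prod_roots, (IsAlgClosed.splits _).eval_eq_prod_roots,
      norm_mul, norm_mul, mul_left_comm]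
    refine mul_le_mul_of_nonneg_left ((prod_le _ ht fun r hr => ?_).trans ?_) (norm_nonneg _)
    · by_contra hc
      push Not at hc
      refine h _ (fun y => ?_) (root_ev hr)
      have := hz y
      have := mul_nonneg (ha y) hc.le
      simp [pt]; linarith
    · exact mul_le_mul_of_nonneg_right (pow_le_pow_right₀ K1
        ((Polynomial.card_roots' _).trans (ln_deg _ _ _))) (norm_nonneg _)
  have c : ∀ z : Y → ℂ, Tendsto (fun η : ℝ => ‖eval (pt z 1 (η * I)) P‖) (𝓝[>] 0)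
      (𝓝 ‖eval z P‖) := fun z => by
    have a1 : Continuous fun η : ℝ => ‖(ln P z 1).eval (η * I : ℂ)‖ := by fun_prop
    have := a1.tendsto 0
    simp only [ln_eval, ofReal_zero, zero_mul, pt_zero] at this
    exact tendsto_nhdsWithin_of_tendsto_nhds this
  have := le_of_tendsto_of_tendsto (c z) ((c (pt z a t)).const_mul (K ^ P.totalDegree))
    (eventually_nhdsWithin_of_forall h1)
  intro h2
  rw [h2, norm_zero, mul_zero] at this
  exact h0 (norm_le_zero_iff.mp this)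

theorem im_sum (s : Multiset ℂ) (g : ℂ → ℂ) : ((s.map g).sum).im = (s.map fun r => (g r).im).sum := by
  simpa using map_multiset_sum imAddGroupHom (s.map g)

theorem re_sum' (s : Multiset ℂ) (g : ℂ → ℂ) :
    ((s.map g).sum).re = (s.map fun r => (g r).re).sum := by
  simpa using map_multiset_sum reAddGroupHom (s.map g)

theorem St.im {P : MvPolynomial Y ℂ} (h : St P) {z : Y → ℂ} (hz : ∀ y, 0 ≤ (z y).im)
    (h0 : eval z P ≠ 0) {a : Y → ℝ} (ha : 0 ≤ a) : 0 ≤ (-eval z (Dd a P) / eval z P).im := by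
  have := logd P z a 0 (by rwa [pt_zero])
  rw [pt_zero] at this
  rw [this, im_sum]
  refine Multiset.sum_nonneg fun x hx => ?_
  obtain ⟨r, hr, rfl⟩ := Multiset.mem_map.mp hx
  have h1 : r.im ≤ 0 := not_lt.mp fun q => h.hur hz h0 ha q (root_ev hr)
  rw [sub_zero, one_div, inv_im]
  exact div_nonneg (by linarith) (normSq_nonneg _)

theorem St.T {P : MvPolynomial Y ℂ} (h : St P) {a : Y → ℝ} (ha : 0 ≤ a) : St (T a P) := by
  intro z hz h1
  have h0 := h z hz
  have h2 := logd P z a 0 (by rwa [pt_zero])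
  rw [pt_zero] at h2
  have h3 : eval z (Dd a P) = eval z P := by
    rw [Mss.T, map_sub] at h1; exact (sub_eq_zero.mp h1).symm
  rw [h3, neg_div, div_self h0] at h2
  by_cases hs : (ln P z a).roots = 0
  · rw [hs] at h2; simp at h2
  have h4 := congrArg Complex.im h2
  rw [im_sum] at h4
  have h5 : ∀ r ∈ (ln P z a).roots, 0 < (1 / (r - 0)).im := fun r hr => by
    have h1 : r.im < 0 := not_le.mp fun q => h _ (fun y => by
      have := hz y
      have := mul_nonneg (ha y) q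
      simp [pt]; linarith) (root_ev hr)
    rw [sub_zero, one_div, inv_im]
    exact div_pos (by linarith) (normSq_pos.mpr (by rintro rfl; simp at h1))
  have := Multiset.sum_lt_sum_of_nonempty (f := fun _ => (0 : ℝ)) hs h5
  simp at this h4
  linarith

/-- real coefficients -/
def Rl (P : MvPolynomial Y ℂ) : Prop := map (starRingEnd ℂ) P = P

theorem map_Dd (a : Y → ℝ) (P : MvPolynomial Y ℂ) :
    map (starRingEnd ℂ) (Dd a P) = Dd a (map (starRingEnd ℂ) P) := by
  induction P using MvPolynomial.induction_on with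
  | C c => simp
  | add p q hp hq => simp [hp, hq]
  | mul_X p y hp => simp only [map_mul, map_X, Dd_mul, map_add, hp, map_C, conj_ofReal]

theorem Rl.Dd {P : MvPolynomial Y ℂ} (h : Rl P) (a : Y → ℝ) : Rl (Dd a P) := by
  rw [Rl, map_Dd, h]

theorem Rl.T {P : MvPolynomial Y ℂ} (h : Rl P) (a : Y → ℝ) : Rl (T a P) := by
  rw [Rl, Mss.T, map_sub, h, h.Dd a]

theorem eval_conj (P : MvPolynomial Y ℂ) (z : Y → ℂ) :
    eval (fun y => conj (z y)) (map (starRingEnd ℂ) P) = conj (eval z P) := by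
  induction P using MvPolynomial.induction_on with
  | C c => simp
  | add p q hp hq => simp only [map_add, hp, hq]
  | mul_X p y hp => simp only [map_mul, hp, map_X, eval_X]

/-- real value -/
noncomputable def rv (P : MvPolynomial Y ℂ) (w : Y → ℝ) : ℝ := (eval (cx w) P).re

theorem Rl.ev {P : MvPolynomial Y ℂ} (h : Rl P) (w : Y → ℝ) : eval (cx w) P = rv P w := by
  have := eval_conj P (cx w)
  rw [h] at this
  simp only [cx, conj_ofReal] at this
  exact (conj_eq_iff_re.mp this.symm).symm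

theorem rv_T (a : Y → ℝ) (P : MvPolynomial Y ℂ) (w : Y → ℝ) :
    rv (T a P) w = rv P w - rv (Dd a P) w := by simp [rv, T]

/-- real stable -/
structure Gd (P : MvPolynomial Y ℂ) : Prop where
  st : St P
  rl : Rl P

theorem Gd.T {P : MvPolynomial Y ℂ} (h : Gd P) {a : Y → ℝ} (ha : 0 ≤ a) : Gd (T a P) :=
  ⟨h.st.T ha, h.rl.T a⟩

theorem Gd.root {P : MvPolynomial Y ℂ} (h : Gd P) {w a : Y → ℝ} (h0 : rv P w ≠ 0) (ha : 0 ≤ a)
    {r : ℂ} (hr : r ∈ (ln P (cx w) a).roots) : r = r.re ∧ rv P (w + r.re • a) = 0 := by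
  have h1 : eval (cx w) P ≠ 0 := by rw [h.rl.ev]; exact_mod_cast h0
  have hz : ∀ y, 0 ≤ (cx w y).im := fun y => by simp [cx]
  have h2 := root_ev hr
  have h3 : eval (pt (cx w) a (conj r)) P = 0 := by
    have := eval_conj P (pt (cx w) a r)
    rw [h.rl, h2, map_zero] at this
    rw [← this]; congr 2; funext y; simp [pt, cx]
  have h4 : r.im ≤ 0 := not_lt.mp fun q => h.st.hur hz h1 ha q h2
  have h5 : (conj r).im ≤ 0 := not_lt.mp fun q => h.st.hur hz h1 ha q h3
  have h6 : r = r.re := Complex.ext (by simp) (by simp at h5 ⊢; linarith)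
  refine ⟨h6, ?_⟩
  rw [h6, pt_cx] at h2
  simp [rv, h2]

/-- barrier function -/
noncomputable def Ψ (P : MvPolynomial Y ℂ) (a w : Y → ℝ) : ℝ := -rv (Dd a P) w / rv P w

/-- barrier function along a complex line -/
noncomputable def φ (P : MvPolynomial Y ℂ) (a w e : Y → ℝ) (s : ℂ) : ℂ :=
  -eval (pt (cx w) e s) (Dd a P) / eval (pt (cx w) e s) P

theorem φ_real {P : MvPolynomial Y ℂ} (h : Rl P) (a w e : Y → ℝ) (s : ℝ) :
    φ P a w e s = Ψ P a (w + s • e) := by
  rw [φ, pt_cx, h.ev, (h.Dd a).ev, Ψ]; push_cast; rfl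

theorem φ_der (P : MvPolynomial Y ℂ) (a w e : Y → ℝ) (s : ℂ) (h : eval (pt (cx w) e s) P ≠ 0) :
    HasDerivAt (φ P a w e) ((-eval (pt (cx w) e s) (Dd e (Dd a P)) * eval (pt (cx w) e s) P -
      -eval (pt (cx w) e s) (Dd a P) * eval (pt (cx w) e s) (Dd e P)) /
        eval (pt (cx w) e s) P ^ 2) s :=
  (der_pt _ _ _ _).neg.div (der_pt _ _ _ _) h

theorem Gd.hz {P : MvPolynomial Y ℂ} (h : Gd P) {a w e : Y → ℝ} (h0 : rv P w ≠ 0) (ha : 0 ≤ a)
    (he : 0 ≤ e) : Hz (φ P a w e) := by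
  have h1 : eval (cx w) P ≠ 0 := by rw [h.rl.ev]; exact_mod_cast h0
  have hz : ∀ y, 0 ≤ (cx w y).im := fun y => by simp [cx]
  refine ⟨fun s hs => (φ_der _ _ _ _ _ (h.st.hur hz h1 he hs)).differentiableAt, fun s hs =>
    h.st.im (fun y => ?_) (h.st.hur hz h1 he hs) ha⟩
  simpa [pt, cx] using mul_nonneg (he y) hs.le

theorem Gd.ok {P : MvPolynomial Y ℂ} (h : Gd P) (a : Y → ℝ) {w e : Y → ℝ} {s : ℝ}
    (h0 : rv P (w + s • e) ≠ 0) : Ok (φ P a w e) s :=
  ⟨(φ_der _ _ _ _ _ (by rw [pt_cx, h.rl.ev]; exact_mod_cast h0)).differentiableAt,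
    by rw [φ_real h.rl]; simp⟩

/-- below the roots -/
def Bel (P : MvPolynomial Y ℂ) (w : Y → ℝ) : Prop := ∀ u ≤ w, rv P u ≠ 0

theorem Bel.le {P : MvPolynomial Y ℂ} {w u : Y → ℝ} (h : Bel P w) (hu : u ≤ w) : Bel P u :=
  fun v hv => h v (hv.trans hu)

theorem sm_le {w e : Y → ℝ} (he : 0 ≤ e) {s t : ℝ} (h : s ≤ t) : w + s • e ≤ w + t • e :=
  fun y => by simpa using mul_le_mul_of_nonneg_right h (he y)

theorem Gd.mono {P : MvPolynomial Y ℂ} (h : Gd P) {a w u : Y → ℝ} (hb : Bel P w) (ha : 0 ≤ a)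
    (hu : u ≤ w) : Ψ P a u ≤ Ψ P a w := by
  have he : 0 ≤ w - u := sub_nonneg.mpr hu
  have := (h.hz (hb u hu) ha he).mono zero_le_one fun t ht =>
    h.ok a (hb _ (by simpa using sm_le (w := u) he ht.2))
  rw [φ_real h.rl, φ_real h.rl] at this
  simpa using this

theorem Gd.sum {P : MvPolynomial Y ℂ} (h : Gd P) {a w : Y → ℝ} (h0 : rv P w ≠ 0) (ha : 0 ≤ a)
    {s : ℝ} (hs : rv P (w + s • a) ≠ 0) :
    Ψ P a (w + s • a) = ((ln P (cx w) a).roots.map fun r => 1 / (r.re - s)).sum := by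
  have := logd P (cx w) a s (by rw [pt_cx, h.rl.ev]; exact_mod_cast hs)
  have h2 := congrArg re ((φ_real h.rl a w a s).symm.trans this)
  rw [ofReal_re, re_sum'] at h2
  rw [h2]
  congr 1
  refine Multiset.map_congr rfl fun r hr => ?_
  rw [(h.root h0 ha hr).1]
  norm_cast

theorem Gd.rpos {P : MvPolynomial Y ℂ} (h : Gd P) {a w : Y → ℝ} (hb : Bel P w) (ha : 0 ≤ a)
    {r : ℂ} (hr : r ∈ (ln P (cx w) a).roots) : 0 < r.re :=
  not_le.mp fun q => hb _ (by simpa using sm_le (w := w) ha q) (h.root (hb w le_rfl) ha hr).2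

theorem Gd.nn {P : MvPolynomial Y ℂ} (h : Gd P) {a w : Y → ℝ} (hb : Bel P w) (ha : 0 ≤ a) :
    0 ≤ Ψ P a w := by
  have := h.sum (hb w le_rfl) ha (s := 0) (by simpa using hb w le_rfl)
  rw [zero_smul, add_zero] at this
  rw [this]
  refine Multiset.sum_nonneg fun x hx => ?_
  obtain ⟨r, hr, rfl⟩ := Multiset.mem_map.mp hx
  simpa using (h.rpos hb ha hr).le

theorem rv_T' {P : MvPolynomial Y ℂ} (a : Y → ℝ) {w : Y → ℝ} (h : rv P w ≠ 0) :
    rv (T a P) w = rv P w * (1 + Ψ P a w) := by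
  rw [rv_T, Ψ]; field_simp; ring

theorem Gd.belT {P : MvPolynomial Y ℂ} (h : Gd P) {a w : Y → ℝ} (hb : Bel P w) (ha : 0 ≤ a) :
    Bel (Mss.T a P) w := fun u hu => by
  rw [rv_T' a (hb u hu)]
  have := h.nn (hb.le hu) ha
  exact mul_ne_zero (hb u hu) (by linarith)

theorem Gd.core {P : MvPolynomial Y ℂ} (h : Gd P) {e w : Y → ℝ} (hb : Bel P w) (he : 0 ≤ e)
    (h4 : Ψ P e w ≤ 1 / 4) :
    rv P (w + (1 / 2 : ℝ) • e) ≠ 0 ∧ Ψ P e (w + (1 / 2 : ℝ) • e) ≤ 1 := by
  have h0 := hb w le_rfl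
  have h1 := h.sum h0 he (s := 0) (by simpa using h0)
  rw [zero_smul, add_zero] at h1
  have h2 : ∀ r ∈ (ln P (cx w) e).roots, 4 ≤ r.re := fun r hr => by
    have := Multiset.single_le_sum (s := (ln P (cx w) e).roots.map fun r => 1 / (r.re - 0))
      (fun x hx => by
        obtain ⟨r, hr, rfl⟩ := Multiset.mem_map.mp hx
        simpa using (h.rpos hb he hr).le) _ (Multiset.mem_map_of_mem _ hr)
    have q := h.rpos hb he hr
    rw [← h1, sub_zero] at this
    have := this.trans h4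
    rwa [div_le_div_iff₀ q (by norm_num), one_mul, one_mul] at this
  have h3 : rv P (w + (1 / 2 : ℝ) • e) ≠ 0 := fun q => by
    have : ((1 / 2 : ℝ) : ℂ) ∈ (ln P (cx w) e).roots := by
      rw [Polynomial.mem_roots', Polynomial.IsRoot, ln_eval, pt_cx, h.rl.ev, q]
      refine ⟨fun q2 => h0 ?_, rfl⟩
      have := ln_eval P (cx w) e 0
      rw [q2, pt_zero, h.rl.ev] at this
      simpa using this.symm
    have := h2 _ this
    norm_num at this
  refine ⟨h3, ?_⟩
  rw [h.sum h0 he h3]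
  refine (Multiset.sum_map_le_sum_map _ (fun r => 4 * (1 / (r.re - 0))) fun r hr => ?_).trans ?_
  · have := h2 r hr
    rw [mul_one_div, div_le_div_iff₀ (by linarith) (by linarith)]; linarith
  · rw [Multiset.sum_map_mul_left, ← h1]; linarith

theorem φ_deriv {P : MvPolynomial Y ℂ} (h : Rl P) {a w e : Y → ℝ} {s : ℝ}
    (h0 : rv P (w + s • e) ≠ 0) : (deriv (φ P a w e) s).re =
      (-rv (Dd e (Dd a P)) (w + s • e) * rv P (w + s • e) -
        -rv (Dd a P) (w + s • e) * rv (Dd e P) (w + s • e)) / rv P (w + s • e) ^ 2 := by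
  rw [(φ_der _ _ _ _ _ (by rw [pt_cx, h.ev]; exact_mod_cast h0)).deriv, pt_cx, h.ev,
    (h.Dd _).ev, (h.Dd _).ev, ((h.Dd _).Dd _).ev]
  norm_cast

theorem alg {p pa pe pae x : ℝ} (h0 : p ≠ 0) (h2 : 0 ≤ -pe / p) (h1 : -pe / p ≤ 1)
    (h5 : 0 ≤ (-pae * p - -pa * pe) / p ^ 2)
    (h3 : -pa / p - x ≤ (1 / 2 - 0) * ((-pae * p - -pa * pe) / p ^ 2)) :
    -(pa - pae) / (p - pe) ≤ x := by
  have q : p - pe = p * (1 + -pe / p) := by field_simp; ring
  have q2 : 1 + -pe / p ≠ 0 := by linarith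
  have q3 : p - pe ≠ 0 := by rw [q]; exact mul_ne_zero h0 q2
  have e1 : -(pa - pae) / (p - pe) =
      -pa / p - ((-pae * p - -pa * pe) / p ^ 2) / (1 + -pe / p) := by
    have : 1 + -pe / p = (p - pe) / p := by field_simp; ring
    rw [this]; field_simp; ring
  rw [e1]
  have := div_le_div_of_nonneg_left h5 (by linarith : 0 < 1 + -pe / p)
    (by linarith : 1 + -pe / p ≤ 2)
  linarith

theorem Gd.step {P : MvPolynomial Y ℂ} (h : Gd P) {e w : Y → ℝ} (hb : Bel P w) (he : 0 ≤ e)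
    (h4 : Ψ P e w ≤ 1 / 4) : Bel (Mss.T e P) (w + (1 / 2 : ℝ) • e) ∧
      ∀ a, 0 ≤ a → Ψ (Mss.T e P) a (w + (1 / 2 : ℝ) • e) ≤ Ψ P a w := by
  have hb' : Bel P (w + (1 / 2 : ℝ) • e) := fun u hu => by
    have h1 : u - (1 / 2 : ℝ) • e ≤ w := sub_le_iff_le_add.mpr hu
    simpa using (h.core (hb.le h1) he ((h.mono hb he h1).trans h4)).1
  refine ⟨h.belT hb' he, fun a ha => ?_⟩
  obtain ⟨h0, h1⟩ := h.core hb he h4
  have h2 := h.nn hb' he
  have hz := h.hz (hb w le_rfl) ha he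
  have h3 := hz.conv (a := 0) (b := 1 / 2) (by norm_num) fun t ht => h.ok a (hb' _ (sm_le he ht))
  have h5 := hz.nn (h.ok a h0)
  rw [φ_deriv h.rl h0] at h3 h5
  rw [φ_real h.rl, φ_real h.rl, zero_smul, add_zero, ofReal_re, ofReal_re] at h3
  generalize w + (1 / 2 : ℝ) • e = w' at h0 h1 h2 h3 h5 ⊢
  have q : rv (Dd a (Mss.T e P)) w' = rv (Dd a P) w' - rv (Dd e (Dd a P)) w' := by
    rw [Mss.T, map_sub, Dd_comm a e, rv, map_sub, sub_re]; rfl
  rw [Ψ, q, rv_T]
  exact alg h0 h2 h1 h5 h3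

/-- iterated operators -/
noncomputable def TL : List (Y → ℝ) → MvPolynomial Y ℂ → MvPolynomial Y ℂ
  | [], P => P
  | a :: l, P => TL l (T a P)

theorem TL_T (l : List (Y → ℝ)) (a : Y → ℝ) : ∀ P, TL l (T a P) = T a (TL l P) := by
  induction l with
  | nil => intro P; rw [TL, TL]
  | cons e l ih => intro P; rw [TL, TL, T_comm, ih]

theorem TL_gd (l : List (Y → ℝ)) (hl : ∀ a ∈ l, 0 ≤ a) (w : Y → ℝ) :
    ∀ P, Gd P → Bel P w → Gd (TL l P) ∧ Bel (TL l P) w := by
  induction l with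
  | nil => exact fun P h hb => ⟨h, hb⟩
  | cons e l ih =>
    exact fun P h hb => ih (fun a ha => hl a (by simp [ha])) _ (h.T (hl e (by simp)))
      (h.belT hb (hl e (by simp)))

theorem barrier (l : List (Y → ℝ)) (hl : ∀ a ∈ l, 0 ≤ a) :
    ∀ P w, Gd P → Bel P w → (∀ a ∈ l, Ψ P a w ≤ 1 / 4) →
      Bel (TL l P) (w + (1 / 2 : ℝ) • l.sum) := by
  induction l with
  | nil => intro P w h hb _; simpa [TL] using hb
  | cons e l ih =>
    intro P w h hb h4
    have he := hl e (by simp)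
    obtain ⟨h1, h2⟩ := h.step hb he (h4 e (by simp))
    have := ih (fun a ha => hl a (by simp [ha])) _ _ (h.T he) h1 fun a ha =>
      (h2 a (hl a (by simp [ha]))).trans (h4 a (by simp [ha]))
    rwa [List.sum_cons, smul_add, ← add_assoc]

end Pool.Agent.H86.Mss
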