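import Pool.Agent.H86.MssB

set_option autoImplicit false

namespace Pool.Agent.H86.Mss

open Complex Filter Topology Set ComplexConjugate MvPolynomial

variable {Y : Type}

/-- no root on the diagonal segment -/
def NoR (P : MvPolynomial Y ℂ) : Prop := ∀ t ∈ Icc (0 : ℝ) (1 / 2), rv P (0 + t • 1) ≠ 0

theorem rv_der (P : MvPolynomial Y ℂ) (w e : Y → ℝ) (t : ℝ) :
    HasDerivAt (fun s : ℝ => rv P (w + s • e)) (rv (Dd e P) (w + t • e)) t := by
  simpa only [pt_cx, rv] using (der_pt P (cx w) e t).real_of_complex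

theorem sel0 {R : MvPolynomial Y ℂ} (h : Gd R) (hb : Bel R 0) (g0 : 0 < rv R 0) {a b : Y → ℝ}
    (ha : 0 ≤ a) (hb0 : 0 ≤ b) (hf : NoR (T b R))
    (hk : 0 < rv (T b R) (0 + (1 / 2 : ℝ) • 1) → 0 < rv (T a R) (0 + (1 / 2 : ℝ) • 1)) :
    NoR (T a R) := by
  have one : (0 : Y → ℝ) ≤ 1 := zero_le_one
  let g : ℝ → ℝ := fun t => rv R (0 + t • 1)
  let f : ℝ → ℝ := fun t => rv (T b R) (0 + t • 1)
  let k : ℝ → ℝ := fun t => rv (T a R) (0 + t • 1)
  have g0' : 0 < g 0 := by simpa [g] using g0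
  have f0 : 0 < f 0 := by
    simp only [f, zero_smul, add_zero]
    rw [rv_T' b g0.ne']
    have := h.nn hb hb0
    positivity
  have fpos : ∀ t ∈ Icc (0 : ℝ) (1 / 2), 0 < f t := fun t ht => by
    by_contra q
    have fc : Continuous f := continuous_iff_continuousAt.mpr fun s =>
      (rv_der (T b R) 0 1 s).continuousAt
    obtain ⟨s, hs, e⟩ := intermediate_value_Icc' ht.1 fc.continuousOn ⟨not_lt.mp q, f0.le⟩
    exact hf s ⟨hs.1, hs.2.trans ht.2⟩ e
  have kc : 0 < k (1 / 2) := hk (fpos _ (by norm_num))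
  let ρ : ℂ → ℂ := fun s => -eval (pt (cx 0) 1 s) R / eval (pt (cx 0) 1 s) (T b R)
  have hT := h.T hb0
  have pos : ∀ s : ℂ, 0 < s.im → ∀ y, 0 < (pt (cx (0 : Y → ℝ)) 1 s y).im := fun s hs y => by
    simpa [pt, cx] using hs
  have ρd : ∀ s, eval (pt (cx 0) 1 s) (T b R) ≠ 0 → DifferentiableAt ℂ ρ s := fun s hs =>
    ((der_pt _ _ _ _).neg.div (der_pt _ _ _ _) hs).differentiableAt
  have ρr : ∀ t : ℝ, ρ t = (-g t / f t : ℝ) := fun t => by
    simp only [ρ, pt_cx, h.rl.ev, hT.rl.ev, g, f]; push_cast; rfl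
  have hρ : Hz ρ := ⟨fun s hs => ρd s (hT.st _ (pos s hs)), fun s hs => by
    have a1 := h.st _ (pos s hs)
    have a2 := hT.st _ (pos s hs)
    have a3 := h.st.im (fun y => (pos s hs y).le) a1 hb0
    have : ρ s = -(1 + -eval (pt (cx 0) 1 s) (Dd b R) / eval (pt (cx 0) 1 s) R)⁻¹ := by
      simp only [ρ, T, map_sub] at a2 ⊢
      have : 1 + -eval (pt (cx 0) 1 s) (Dd b R) / eval (pt (cx 0) 1 s) R =
          (eval (pt (cx 0) 1 s) R - eval (pt (cx 0) 1 s) (Dd b R)) / eval (pt (cx 0) 1 s) R := by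
        field_simp; ring
      rw [this, inv_div, neg_div]
    rw [this, neg_im, inv_im, neg_div, neg_neg, add_im, one_im, zero_add]
    exact div_nonneg a3 (normSq_nonneg _)⟩
  have ρok : ∀ t ∈ Icc (0 : ℝ) (1 / 2), Ok ρ t := fun t ht =>
    ⟨ρd _ (by rw [pt_cx, hT.rl.ev]; exact_mod_cast hf t ht), by rw [ρr, ofReal_im]⟩
  have ρm : ∀ s t, 0 ≤ s → s ≤ t → t ≤ 1 / 2 → -g s / f s ≤ -g t / f t := fun s t h1 h2 h3 => by
    have := hρ.mono h2 fun u hu => ρok u ⟨h1.trans hu.1, hu.2.trans h3⟩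
    rwa [ρr, ρr, ofReal_re, ofReal_re] at this
  have hφ := h.hz g0.ne' ha one
  have φm : ∀ s t, s ≤ t → (∀ u ∈ Icc s t, g u ≠ 0) →
      Ψ R a (0 + s • 1) ≤ Ψ R a (0 + t • 1) := fun s t h1 h2 => by
    have := hφ.mono h1 fun u hu => h.ok a (h2 u hu)
    rwa [φ_real h.rl, φ_real h.rl, ofReal_re, ofReal_re] at this
  have A : ∀ t ∈ Icc (0 : ℝ) (1 / 2), 0 < g t → g t ≤ k t := fun t ht gt => by
    have a1 := φm 0 t ht.1 fun u hu q => by
      have := ρm u t hu.1 hu.2 ht.2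
      rw [q, neg_zero, zero_div, le_div_iff₀ (fpos t ht)] at this
      linarith
    rw [zero_smul, add_zero] at a1
    have a2 := (h.nn hb ha).trans a1
    have : k t = g t * (1 + _) := rv_T' a gt.ne'
    nlinarith
  have B : ∀ t ∈ Icc (0 : ℝ) (1 / 2), g t < 0 → 0 < k t := fun t ht gt => by
    have a0 : ∀ u ∈ Icc t (1 / 2), g u < 0 := fun u hu => by
      have := ρm t u ht.1 hu.1 hu.2
      have a := (div_pos (neg_pos.mpr gt) (fpos t ht)).trans_le this
      rw [lt_div_iff₀ (fpos u ⟨ht.1.trans hu.1, hu.2⟩)] at a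
      linarith
    have a1 := φm t (1 / 2) ht.2 fun u hu => (a0 u hu).ne
    have a2 := a0 (1 / 2) ⟨ht.2, le_rfl⟩
    have e1 : k t = g t * (1 + _) := rv_T' a gt.ne
    have e2 : k (1 / 2) = g (1 / 2) * (1 + _) := rv_T' a a2.ne
    have a3 : 1 + Ψ R a (0 + (1 / 2 : ℝ) • 1) < 0 := by
      by_contra q
      nlinarith
    nlinarith
  intro t ht k0
  change k t = 0 at k0
  rcases lt_trichotomy (g t) 0 with q | q | q
  · exact (B t ht q).ne' k0
  swap
  · linarith [A t ht q]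
  have t0 : 0 < t := lt_of_le_of_ne ht.1 (by rintro rfl; exact g0'.ne' q)
  have t1 : t < 1 / 2 := lt_of_le_of_ne ht.2 (by rintro rfl; exact kc.ne' k0)
  obtain ⟨g', gd⟩ : ∃ g', HasDerivAt g g' t := ⟨_, rv_der R 0 1 t⟩
  obtain ⟨k', kd⟩ : ∃ k', HasDerivAt k k' t := ⟨_, rv_der (T a R) 0 1 t⟩
  obtain ⟨f', fd⟩ : ∃ f', HasDerivAt f f' t := ⟨_, rv_der (T b R) 0 1 t⟩
  clear_value ρ g f k
  have ft := fpos t ht
  have g1 : g' < 0 := by
    have a1 := (ρok t ht).der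
    simp only [ρr, ofReal_re] at a1
    have a2 := a1.unique (gd.fun_neg.fun_div fd ft.ne')
    have a3 := hρ.low (ρok 0 (by norm_num)) (ρok t ht)
    have a4 := hρ.nn (ρok t ht)
    rw [ρr, ρr, ofReal_re, ofReal_re, q] at a3
    have a5 : 0 < (deriv ρ t).re := lt_of_le_of_ne a4 fun e => by
      rw [← e] at a3
      have : -g 0 / f 0 < 0 := div_neg_of_neg_of_pos (by linarith) f0
      simp only [neg_zero, zero_div, sub_zero, mul_zero] at a3
      nlinarith
    rw [a2] at a5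
    have a6 := (div_pos_iff_of_pos_right (pow_pos ft 2)).mp a5
    rw [q] at a6
    nlinarith
  have ev : Icc (0 : ℝ) (1 / 2) ∈ 𝓝 t := Icc_mem_nhds t0 t1
  have k1 : k' ≤ g' := by
    by_contra q2
    have a1 := (sgn (gd.fun_sub kd) (by linarith) (by linarith)).2
    obtain ⟨s, h1, h2, h3⟩ := (a1.and ((sgn gd q g1).2.and (nhdsWithin_le_nhds ev))).exists
    have := A s h3 h2
    linarith
  obtain ⟨s, h1, h2, h3⟩ := ((sgn kd k0 (by linarith)).1.and
    ((sgn gd q g1).1.and (nhdsWithin_le_nhds ev))).exists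
  exact (B s h3 h2).not_gt h1

theorem Dd_sum {I : Type} (s : Finset I) (a : I → Y → ℝ) :
    Dd (∑ i ∈ s, a i) = ∑ i ∈ s, Dd (a i) := by
  classical
  induction s using Finset.induction_on with
  | empty => exact derivation_ext fun y => by simp [Dd, mkDerivation_X]
  | insert i s hi ih =>
    rw [Finset.sum_insert hi, Finset.sum_insert hi, ← ih]
    exact derivation_ext fun y => by simp [Dd, mkDerivation_X]

theorem Dd_smul (c : ℝ) (a : Y → ℝ) : Dd (c • a) = (c : ℂ) • Dd a :=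
  derivation_ext fun y => by simp [Dd, mkDerivation_X, smul_eq_C_mul]

theorem sel1 {I : Type} {R : MvPolynomial Y ℂ} (h : Gd R) (hb : Bel R 0) (s : Finset I)
    (hs : s.Nonempty) (a : I → Y → ℝ) (ha : ∀ i, 0 ≤ a i) (hf : NoR (T (∑ i ∈ s, a i) R)) :
    ∃ i ∈ s, NoR (T ((s.card : ℝ) • a i) R) := by
  wlog g0 : 0 < rv R 0 generalizing R
  · have e : ∀ P : MvPolynomial Y ℂ, ∀ w, rv (-P) w = -rv P w := fun P w => by simp [rv]
    have e2 : ∀ b, T b (-R) = -T b R := fun b => by simp only [T, map_neg]; ring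
    obtain ⟨i, hi, h1⟩ := this (R := -R) ⟨fun z hz => by simpa using h.st z hz,
      by rw [Rl, map_neg, h.rl]⟩ (fun u hu => by rw [e]; simpa using hb u hu)
      (fun t ht => by rw [e2, e]; simpa using hf t ht)
      (by rw [e]; exact neg_pos.mpr (lt_of_le_of_ne (not_lt.mp g0) (hb 0 le_rfl)))
    exact ⟨i, hi, fun t ht => by simpa [e2, e] using h1 t ht⟩
  have n0 : (0 : ℝ) < s.card := by exact_mod_cast hs.card_pos
  have hb0 : 0 ≤ ∑ i ∈ s, a i := Finset.sum_nonneg fun i _ => ha i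
  by_cases q : 0 < rv (T (∑ i ∈ s, a i) R) (0 + (1 / 2 : ℝ) • 1)
  swap
  · obtain ⟨i, hi⟩ := hs
    exact ⟨i, hi, sel0 h hb g0 (smul_nonneg n0.le (ha i)) hb0 hf fun q' => absurd q' q⟩
  have : ∃ i ∈ s, 0 < rv (T ((s.card : ℝ) • a i) R) (0 + (1 / 2 : ℝ) • 1) := by
    by_contra q2
    push Not at q2
    have a1 := Finset.sum_nonpos q2
    generalize (0 + (1 / 2 : ℝ) • 1 : Y → ℝ) = w at q a1
    have a2 : rv (Dd (∑ i ∈ s, a i) R) w = ∑ i ∈ s, rv (Dd (a i) R) w := by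
      rw [Dd_sum, rv, ← Derivation.coeFnAddMonoidHom_apply, map_sum, Finset.sum_apply, map_sum,
        re_sum]
      rfl
    have a3 : ∀ i, rv (Dd ((s.card : ℝ) • a i) R) w = s.card * rv (Dd (a i) R) w := fun i => by
      rw [Dd_smul, rv, Derivation.smul_apply, smul_eval, re_ofReal_mul]; rfl
    simp only [rv_T, a2, a3, Finset.sum_sub_distrib, Finset.sum_const, nsmul_eq_mul,
      ← Finset.mul_sum] at q a1
    nlinarith
  obtain ⟨i, hi, h1⟩ := this
  exact ⟨i, hi, sel0 h hb g0 (smul_nonneg n0.le (ha i)) hb0 hf fun _ => h1⟩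

theorem sel {I J : Type} (B : J → Finset I) (f : I → J) (hf : ∀ j, ∀ i ∈ B j, f i = j)
    (a : I → Y → ℝ) (ha : ∀ i, 0 ≤ a i) (L : List J) (hL : ∀ j ∈ L, (B j).Nonempty) :
    ∀ P, Gd P → Bel P 0 → NoR (TL (L.map fun j => ∑ i ∈ B j, a i) P) →
      ∃ l : List I, l.map f = L ∧ NoR (TL (l.map fun i => ((B (f i)).card : ℝ) • a i) P) := by
  induction L with
  | nil => exact fun P _ _ h => ⟨[], rfl, h⟩
  | cons j L ih =>
    intro P h hb hn
    rw [List.map_cons, TL, TL_T] at hn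
    obtain ⟨h1, h2⟩ := TL_gd (L.map fun j => ∑ i ∈ B j, a i) (fun b hb => by
      obtain ⟨j, -, rfl⟩ := List.mem_map.mp hb
      exact Finset.sum_nonneg fun i _ => ha i) 0 P h hb
    obtain ⟨i, hi, h3⟩ := sel1 h1 h2 _ (hL j (by simp)) a ha hn
    rw [← TL_T] at h3
    have h4 : 0 ≤ ((B j).card : ℝ) • a i := smul_nonneg (Nat.cast_nonneg _) (ha i)
    obtain ⟨l, h5, h6⟩ := ih (fun j hj => hL j (by simp [hj])) _ (h.T h4) (h.belT hb h4) h3
    exact ⟨i :: l, by simp [h5, hf j i hi], by rwa [List.map_cons, TL, hf j i hi]⟩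

/-- affine along a direction -/
def Aff (P : MvPolynomial Y ℂ) (a : Y → ℝ) : Prop :=
  ∀ z, ∃ α β : ℂ, ∀ t, eval (pt z a t) P = α + β * t

theorem Aff.ev {P : MvPolynomial Y ℂ} {a : Y → ℝ} (h : Aff P a) (z : Y → ℂ) :
    eval z (T a P) = eval (pt z a (-1)) P := by
  obtain ⟨α, β, e⟩ := h z
  have h1 := der_pt P z a 0
  simp only [e, pt_zero] at h1
  have h2 := h1.unique (((hasDerivAt_id (0 : ℂ)).const_mul β).const_add α)
  have h3 := e 0
  rw [pt_zero] at h3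
  rw [T, map_sub, h2, h3, e]; ring

theorem TL_ev (l : List (Y → ℝ)) : ∀ P, (∀ a ∈ l, Aff P a) → ∀ z,
    eval z (TL l P) = eval (pt z l.sum (-1)) P := by
  induction l with
  | nil => intro P _ z; rw [TL]; congr 2; funext y; simp [pt]
  | cons e l ih =>
    intro P h z
    have he := h e (by simp)
    rw [TL, ih _ (fun a ha z => ?_), he.ev]
    · congr 2; funext y; simp [pt]; ring
    · obtain ⟨α, β, q⟩ := h a (by simp [ha]) (pt z e (-1))
      refine ⟨α, β, fun t => ?_⟩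
      rw [he.ev, ← q]
      congr 2; funext y; simp [pt]; ring

end Pool.Agent.H86.Mss
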