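import Pool.Agent.H86.MssC

set_option autoImplicit false
set_option linter.unusedSectionVars false

namespace Pool.Agent.H86.Mss

open Complex Filter Topology ComplexConjugate MvPolynomial Matrix ComplexOrder
open Set hiding diagonal

variable {Y d : Type} [Fintype Y] [Fintype d] [DecidableEq Y] [DecidableEq d]

/-- the matrix pencil -/
noncomputable def N (m : Matrix Y d ℂ) (z : Y → ℂ) : Matrix d d ℂ := mᴴ * diagonal z * m - 1

/-- its determinant -/
noncomputable def P0 (m : Matrix Y d ℂ) : MvPolynomial Y ℂ :=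
  ((mᴴ.map C : Matrix d Y (MvPolynomial Y ℂ)) * (diagonal X : Matrix Y Y (MvPolynomial Y ℂ)) *
    (m.map C : Matrix Y d (MvPolynomial Y ℂ)) - 1).det

theorem ev_P0 (m : Matrix Y d ℂ) (z : Y → ℂ) : eval z (P0 m) = (N m z).det := by
  rw [P0, RingHom.map_det, N]
  congr 1
  ext i j
  by_cases h : i = j <;> simp [Matrix.mul_apply, diagonal, one_apply, h]

theorem dot_self (η : d → ℂ) : star η ⬝ᵥ η = (∑ i, ‖η i‖ ^ 2 : ℝ) := by
  simp [dotProduct, conj_mul']

theorem quad (m : Matrix Y d ℂ) (z : Y → ℂ) (η : d → ℂ) : star η ⬝ᵥ (N m z *ᵥ η) =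
    ∑ y, z y * (‖(m *ᵥ η) y‖ ^ 2 : ℝ) - (∑ i, ‖η i‖ ^ 2 : ℝ) := by
  rw [N, sub_mulVec, one_mulVec, dotProduct_sub, dot_self, ← mulVec_mulVec, ← mulVec_mulVec,
    dotProduct_mulVec, ← star_mulVec]
  congr 1
  refine Finset.sum_congr rfl fun y _ => ?_
  rw [mulVec_diagonal, Pi.star_apply, mul_left_comm, RCLike.star_def, conj_mul']
  norm_cast

theorem sq_pos' {η : d → ℂ} (h : η ≠ 0) : 0 < ∑ i, ‖η i‖ ^ 2 := by
  obtain ⟨i, hi⟩ := Function.ne_iff.mp h
  exact Finset.sum_pos' (fun i _ => by positivity) ⟨i, Finset.mem_univ _,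
    pow_pos (norm_pos_iff.mpr hi) 2⟩

theorem N_star (m : Matrix Y d ℂ) (z : Y → ℂ) : (N m z)ᴴ = N m (fun y => conj (z y)) := by
  simp [N, conjTranspose_mul, diagonal_conjTranspose, Matrix.mul_assoc]
  rfl

theorem gd_P0 (m : Matrix Y d ℂ) : Gd (P0 m) := by
  refine ⟨fun z hz h => ?_, MvPolynomial.funext fun z => ?_⟩
  · rw [ev_P0] at h
    obtain ⟨η, h0, h1⟩ := exists_mulVec_eq_zero_iff.mpr h
    have h2 := quad m z η
    rw [h1, dotProduct_zero] at h2
    have h3 := congrArg im h2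
    rw [sub_im, ofReal_im, Complex.im_sum] at h3
    simp only [im_mul_ofReal, zero_im, sub_zero] at h3
    have h4 := (Finset.sum_eq_zero_iff_of_nonneg fun y _ =>
      mul_nonneg (hz y).le (sq_nonneg _)).mp h3.symm
    rw [Finset.sum_eq_zero fun y hy => by
      rw [(mul_eq_zero.mp (h4 y hy)).resolve_left (hz y).ne', ofReal_zero, mul_zero]] at h2
    have := sq_pos' h0
    norm_cast at h2
    linarith
  · have := eval_conj (P0 m) (fun y => conj (z y))
    simp only [conj_conj] at this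
    rw [this, ev_P0, ev_P0, ← N_star, det_conjTranspose, RCLike.star_def, conj_conj]

theorem quad_re (m : Matrix Y d ℂ) (w : Y → ℝ) (η : d → ℂ) : star η ⬝ᵥ (N m (cx w) *ᵥ η) =
    (∑ y, w y * ‖(m *ᵥ η) y‖ ^ 2 - ∑ i, ‖η i‖ ^ 2 : ℝ) := by
  rw [quad]; simp [cx]

theorem bel_P0 (m : Matrix Y d ℂ) : Bel (P0 m) 0 := fun u hu h => by
  have h' := (gd_P0 m).rl.ev u
  rw [h, ev_P0] at h'
  obtain ⟨η, h0, h1⟩ := exists_mulVec_eq_zero_iff.mpr h'
  have h2 := quad_re m u η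
  rw [h1, dotProduct_zero] at h2
  have := sq_pos' h0
  have h3 : ∑ y, u y * ‖(m *ᵥ η) y‖ ^ 2 ≤ 0 :=
    Finset.sum_nonpos fun y _ => mul_nonpos_of_nonpos_of_nonneg (hu y) (sq_nonneg _)
  norm_cast at h2
  linarith

theorem psi_P0 (m : Matrix Y d ℂ) (a : Y → ℝ) :
    Ψ (P0 m) a 0 = ∑ y, a y * ∑ j, ‖m y j‖ ^ 2 := by
  set A := -(mᴴ * diagonal (cx a) * m) with hA
  have e : ∀ t, eval (pt (cx 0) a t) (P0 m) = (-1) ^ Fintype.card d * (1 + trace A * t +
      (det (1 + (Polynomial.X : Polynomial ℂ) • A.map Polynomial.C)).divX.divX.eval t * t ^ 2) :=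
    fun t => by
      rw [ev_P0, ← det_one_add_smul, ← det_neg, N]
      congr 1
      have : diagonal (pt (cx 0) a t) = t • diagonal (cx a) := by
        rw [← diagonal_smul]; congr 1; funext y; simp [pt, cx, mul_comm]
      rw [this, hA]; simp; abel
  have h1 := der_pt (P0 m) (cx 0) a 0
  simp only [e, pt_zero] at h1
  have h2 := h1.unique (((((hasDerivAt_id' (0 : ℂ)).const_mul (trace A)).const_add 1).fun_add
    ((Polynomial.hasDerivAt _ 0).fun_mul (hasDerivAt_pow 2 0))).const_mul _)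
  have h3 := e 0
  rw [pt_zero] at h3
  have h4 : trace A = -(∑ y, a y * ∑ j, ‖m y j‖ ^ 2 : ℝ) := by
    rw [hA, trace_neg, trace_mul_cycle, trace]
    simp only [diag_apply, mul_diagonal]
    simp [Matrix.mul_apply, mul_conj', cx, mul_comm]
  rw [Ψ, rv, rv, h2, h3, h4]
  generalize ∑ y, a y * ∑ j, ‖m y j‖ ^ 2 = x
  rcases neg_one_pow_eq_or ℂ (Fintype.card d) with q | q <;> simp [q]

theorem det_aff (A : Matrix d d ℂ) (u v : d → ℂ) :
    ∃ α β : ℂ, ∀ t : ℂ, det (A + t • vecMulVec u v) = α + β * t := by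
  let M : Matrix (d ⊕ Unit) (d ⊕ Unit) ℂ := fromBlocks A 0 (replicateRow Unit v) 1
  refine ⟨det (M.updateCol (Sum.inr ()) (Sum.elim 0 1)),
    det (M.updateCol (Sum.inr ()) (Sum.elim (-u) 0)), fun t => ?_⟩
  rw [mul_comm, ← det_updateCol_smul, ← det_updateCol_add]
  have : M.updateCol (Sum.inr ()) ((Sum.elim 0 1 : d ⊕ Unit → ℂ) + t • (Sum.elim (-u) 0 : d ⊕ Unit → ℂ)) =
      fromBlocks A (replicateCol Unit (-(t • u))) (replicateRow Unit v) 1 := by
    ext (i | i) (j | j) <;> simp [M]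
  rw [this, det_fromBlocks_one₂₂]
  congr 1
  ext i j
  simp [Matrix.mul_apply, vecMulVec_apply, mul_assoc]

theorem aff_P0 (m : Matrix Y d ℂ) (c : ℝ) (y : Y) : Aff (P0 m) (c • Pi.single y 1) := fun z => by
  obtain ⟨α, β, h⟩ := det_aff (N m z) (star (m y)) (m y)
  refine ⟨α, β * c, fun t => ?_⟩
  rw [mul_assoc, ← h, ev_P0]
  congr 1
  ext i j
  simp [N, Matrix.mul_apply, diagonal, vecMulVec_apply, pt, Pi.single_apply, mul_add, add_mul,
    Finset.sum_add_distrib, apply_ite ofReal]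
  ring

theorem extremal (m : Matrix Y d ℂ) (u : Y → ℝ) (hu : 0 ≤ u)
    (h : ∀ t ∈ Icc (0 : ℝ) (1 / 2), (N m (cx (t • 1 - u))).det ≠ 0) (η : d → ℂ) :
    ∑ y, ‖(m *ᵥ η) y‖ ^ 2 ≤ 2 * (∑ y, u y * ‖(m *ᵥ η) y‖ ^ 2 + ∑ i, ‖η i‖ ^ 2) := by
  let s : (d → ℂ) → ℝ := fun η => ∑ y, ‖(m *ᵥ η) y‖ ^ 2
  let k : (d → ℂ) → ℝ := fun η => ∑ y, u y * ‖(m *ᵥ η) y‖ ^ 2 + ∑ i, ‖η i‖ ^ 2
  have hs : ∀ (c : ℂ) η, s (c • η) = ‖c‖ ^ 2 * s η := fun c η => by
    simp [s, mulVec_smul, mul_pow, Finset.mul_sum]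
  have hk : ∀ (c : ℂ) η, k (c • η) = ‖c‖ ^ 2 * k η := fun c η => by
    simp [k, mulVec_smul, mul_pow, Finset.mul_sum, mul_add, mul_left_comm]
  have kpos : ∀ η ≠ 0, 0 < k η := fun η h0 => add_pos_of_nonneg_of_pos
    (Finset.sum_nonneg fun y _ => mul_nonneg (hu y) (sq_nonneg _)) (sq_pos' h0)
  have nz : ∀ η ∈ Metric.sphere (0 : d → ℂ) 1, η ≠ 0 := fun η hη => by
    rintro rfl; simp at hη
  have nm : ∀ η : d → ℂ, η ≠ 0 → ((‖η‖⁻¹ : ℝ) : ℂ) • η ∈ Metric.sphere (0 : d → ℂ) 1 ∧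
      s (((‖η‖⁻¹ : ℝ) : ℂ) • η) / k (((‖η‖⁻¹ : ℝ) : ℂ) • η) = s η / k η := fun η h0 => by
    have := norm_pos_iff.mpr h0
    refine ⟨by simp [norm_smul, this.ne'], ?_⟩
    rw [hs, hk, mul_div_mul_left _ _ (by simp [this.ne'])]
  by_contra hc
  change ¬ s η ≤ 2 * k η at hc
  have h0 : η ≠ 0 := by rintro rfl; simp [s, k] at hc
  obtain ⟨ξ, hξ, hm⟩ := (isCompact_sphere (0 : d → ℂ) 1).exists_isMaxOn ⟨_, (nm η h0).1⟩
    (f := fun η => s η / k η) (ContinuousOn.div (by fun_prop) (by fun_prop)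
      fun η hη => (kpos η (nz η hη)).ne')
  set μ := s ξ / k ξ with hμ
  have le : ∀ η, s η ≤ μ * k η := fun η => by
    by_cases h0 : η = 0
    · simp [h0, s, k]
    · have := hm (nm η h0).1
      simp only [mem_ofPred_eq, (nm η h0).2] at this
      exact (div_le_iff₀ (kpos η h0)).mp this
  have μ2 : 2 < μ := by
    have := le η
    have := kpos η h0
    by_contra q
    nlinarith
  have q : ∀ η, star η ⬝ᵥ (-N m (cx (μ⁻¹ • 1 - u))) *ᵥ η = (k η - μ⁻¹ * s η : ℝ) := fun η => by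
    rw [neg_mulVec, dotProduct_neg, quad_re, ← ofReal_neg]
    congr 1
    simp [s, k, sub_mul, Finset.mul_sum]
    ring
  have psd : (-N m (cx (μ⁻¹ • 1 - u))).PosSemidef := by
    refine .of_dotProduct_mulVec_nonneg (IsHermitian.neg ?_) fun η => ?_
    · rw [IsHermitian, N_star]; simp only [cx, conj_ofReal]; rfl
    · rw [q, zero_le_real, sub_nonneg, inv_mul_le_iff₀ (by linarith)]; exact le η
  have := (psd.dotProduct_mulVec_zero_iff ξ).mp (by
    have k0 := kpos ξ (nz ξ hξ)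
    have : s ξ = μ * k ξ := by rw [hμ]; field_simp
    rw [q, this, ← mul_assoc, inv_mul_cancel₀ (by linarith), one_mul, sub_self, ofReal_zero])
  rw [neg_mulVec, neg_eq_zero] at this
  exact h μ⁻¹ ⟨by positivity, by rw [one_div]; exact inv_anti₀ two_pos μ2.le⟩
    (exists_mulVec_eq_zero_iff.mp ⟨ξ, nz ξ hξ, this⟩)

/-- selection of a transversal with a lower bound -/
theorem mss {J : Type} [DecidableEq J] (f : Y → J) (n : ℕ)
    (hn : ∀ j, (Finset.univ.filter fun y => f y = j).card ≤ n) (m : Matrix Y d ℂ) (ε : ℝ)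
    (hε : n * ε ≤ 1 / 4) (hm : ∀ y, ∑ j, ‖m y j‖ ^ 2 ≤ ε) :
    ∃ D : Finset Y, InjOn f D ∧ (∀ y, ∃ y' ∈ D, f y' = f y) ∧ ∀ η : d → ℂ,
      ∑ y, ‖(m *ᵥ η) y‖ ^ 2 ≤ 2 * (n * ∑ y ∈ D, ‖(m *ᵥ η) y‖ ^ 2 + ∑ i, ‖η i‖ ^ 2) := by
  let B : J → Finset Y := fun j => Finset.univ.filter fun y => f y = j
  let a : Y → Y → ℝ := fun y => Pi.single y 1
  have ha : ∀ y, 0 ≤ a y := fun y => Pi.single_nonneg.mpr zero_le_one
  let L := (Finset.univ.image f).toList
  have b1 := barrier (L.map fun j => ∑ i ∈ B j, a i) (fun b hb => by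
      obtain ⟨j, -, rfl⟩ := List.mem_map.mp hb
      exact Finset.sum_nonneg fun i _ => ha i) _ _ (gd_P0 m) (bel_P0 m) (fun b hb => by
      obtain ⟨j, -, rfl⟩ := List.mem_map.mp hb
      rw [psi_P0]
      simp only [a, Finset.sum_apply, Finset.sum_mul, Pi.single_apply, ite_mul, one_mul, zero_mul]
      rw [Finset.sum_comm]
      simp only [Finset.sum_ite_eq', Finset.mem_univ, if_true]
      refine (Finset.sum_le_card_nsmul _ _ ε fun y _ => hm y).trans ?_
      rw [nsmul_eq_mul]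
      rcases le_total ε 0 with q | q
      · exact (mul_nonpos_of_nonneg_of_nonpos (Nat.cast_nonneg _) q).trans (by norm_num)
      · exact (mul_le_mul_of_nonneg_right (by exact_mod_cast hn j) q).trans hε)
  have b2 : (L.map fun j => ∑ i ∈ B j, a i).sum = 1 := by
    rw [Finset.sum_map_toList, Finset.sum_fiberwise_of_maps_to fun y _ =>
      Finset.mem_image_of_mem f (Finset.mem_univ y)]
    exact Finset.univ_sum_single 1
  rw [b2] at b1
  obtain ⟨l, h1, h2⟩ := sel B f (fun j i hi => (Finset.mem_filter.mp hi).2) a ha L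
    (fun j hj => by
      obtain ⟨y, -, rfl⟩ := Finset.mem_image.mp (Finset.mem_toList.mp hj)
      exact ⟨y, by simp [B]⟩) _ (gd_P0 m) (bel_P0 m) fun t ht => b1 _ (sm_le zero_le_one ht.2)
  have nd : (l.map f).Nodup := h1 ▸ Finset.nodup_toList _
  refine ⟨l.toFinset, fun y hy y' hy' e => List.inj_on_of_nodup_map nd (by simpa using hy)
    (by simpa using hy') e, fun y => ?_, fun η => ?_⟩
  · have : f y ∈ l.map f := by rw [h1]; simp [L]
    simpa using this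
  set u := (l.map fun i => ((B (f i)).card : ℝ) • a i).sum with hu
  have u1 : u = ∑ i ∈ l.toFinset, ((B (f i)).card : ℝ) • a i :=
    (List.sum_toFinset _ (nd.of_map f)).symm
  have := extremal m u (u1 ▸ Finset.sum_nonneg fun i _ => smul_nonneg (Nat.cast_nonneg _) (ha i))
    (fun t ht q => h2 t ht (by
      rw [rv, TL_ev _ _ (fun b hb => by
        obtain ⟨y, -, rfl⟩ := List.mem_map.mp hb
        exact aff_P0 m _ y), ev_P0, ← hu]
      have : pt (cx (0 + t • 1)) u (-1) = cx (t • 1 - u) := by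
        funext y; simp [pt, cx, sub_eq_add_neg]
      rw [this, q, zero_re])) η
  refine this.trans ?_
  gcongr
  simp only [u1, a, Finset.sum_apply, Finset.sum_mul, Pi.smul_apply, Pi.single_apply, smul_eq_mul,
    mul_ite, mul_one, mul_zero, ite_mul, zero_mul]
  rw [Finset.sum_comm, Finset.mul_sum]
  simp only [Finset.sum_ite_eq', Finset.mem_univ, if_true]
  gcongr with y
  exact_mod_cast hn _

end Pool.Agent.H86.Mss
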