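import Pool.Agent.H86.GhDefs
import Pool.Agent.H86.MssD

set_option autoImplicit false

namespace Pool.Agent.H86.Gh

open Roe Filter Topology Finset ContinuousLinearMap

variable {X Z : Type}

theorem mss' {J : Type} (s : Finset Z) (f : Z → J) (n : ℕ)
    (hn : ∀ j (t : Finset Z), (∀ z ∈ t, f z = j) → #t ≤ n) (m : Z → Z → ℂ) (ε : ℝ)
    (hε : n * ε ≤ 1 / 4) (hm : ∀ y ∈ s, ∑ j ∈ s, ‖m y j‖ ^ 2 ≤ ε) :
    ∃ D ⊆ s, Set.InjOn f D ∧ (∀ y ∈ s, ∃ y' ∈ D, f y' = f y) ∧ ∀ η : Z → ℂ,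
      ∑ y ∈ s, ‖∑ j ∈ s, m y j * η j‖ ^ 2 ≤
        2 * (n * ∑ y ∈ D, ‖∑ j ∈ s, m y j * η j‖ ^ 2 + ∑ i ∈ s, ‖η i‖ ^ 2) := by
  classical
  obtain ⟨D, h1, h2, h3⟩ := Mss.mss (Y := s) (d := s) (fun y => f y) n (fun j => by
      rw [← card_map (Function.Embedding.subtype _)]
      exact hn j _ fun z hz => by
        obtain ⟨y, hy, rfl⟩ := mem_map.mp hz
        exact (mem_filter.mp hy).2)
    (Matrix.of fun y j => m y j) ε hε fun y => by
      simp only [Matrix.of_apply]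
      rw [sum_coe_sort s fun j => ‖m y j‖ ^ 2]; exact hm y y.2
  refine ⟨D.map (Function.Embedding.subtype _), fun z hz => ?_, fun z hz z' hz' e => ?_,
    fun y hy => ?_, fun η => ?_⟩
  · obtain ⟨y, -, rfl⟩ := mem_map.mp hz; exact y.2
  · obtain ⟨y, hy, rfl⟩ := mem_map.mp hz
    obtain ⟨y', hy', rfl⟩ := mem_map.mp hz'
    exact congrArg _ (h1 hy hy' e)
  · obtain ⟨y', h, e⟩ := h2 ⟨y, hy⟩
    exact ⟨y', mem_map_of_mem _ h, e⟩
  · have := h3 fun j => η j
    have e : ∀ y : s, Matrix.mulVec (Matrix.of fun (y j : s) => m y j) (fun j : s => η j) y =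
        ∑ j ∈ s, m y j * η j := fun y => sum_coe_sort s fun j => m y j * η j
    simp only [e] at this
    rw [sum_coe_sort s fun y => ‖∑ j ∈ s, m y j * η j‖ ^ 2, sum_coe_sort s fun i => ‖η i‖ ^ 2]
      at this
    rwa [sum_map]

theorem sum_ap (s : Finset Z) (c : Z → ℂ) (v : Z → H X) (x : X) :
    (∑ z ∈ s, c z • v z) x = ∑ z ∈ s, c z * v z x := by
  rw [← inner_δ, inner_sum]; simp only [inner_smul_right, inner_δ]

theorem nstar (a : H Z →L[ℂ] H Z) : ‖star a‖ = ‖a‖ := LinearIsometryEquiv.norm_map adjoint a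

theorem apply_fin (a : H Z →L[ℂ] H X) (ξ : H Z) (x : X) (s : Finset Z)
    (h : ∀ z ∉ s, ξ z = 0 ∨ a (δ z) x = 0) : a ξ x = ∑ z ∈ s, a (δ z) x * ξ z := by
  classical
  have := apply_eq_zero a (ξ - ∑ z ∈ s, ξ z • δ z) x fun z => by
    rw [lp.coeFn_sub, Pi.sub_apply, sum_ap]
    by_cases hz : z ∈ s
    · left; simp [δ_apply, hz]
    · exact (h z hz).imp (fun q => by simp [δ_apply, hz, q]) id
  rw [map_sub, map_sum, lp.coeFn_sub, Pi.sub_apply, sub_eq_zero] at this
  simp only [this, map_smul, sum_ap, mul_comm]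

theorem ghost_mul [MetricSpace Z] (hZ : ULF Z) {p b : H Z →L[ℂ] H Z} (hp : Ghost p)
    (hb : b ∈ (FP Z).topologicalClosure) : Ghost (p * b) := by
  intro ε hε
  obtain ⟨b', ⟨r, hr⟩, h1⟩ := Metric.mem_closure_iff.mp hb (ε / (2 * (‖p‖ + 1))) (by positivity)
  obtain ⟨N, hN⟩ := hZ r
  have fin : ∀ z : Z, (Metric.closedBall z r).Finite := fun z => Set.finite_of_encard_le_coe (hN z)
  obtain ⟨F, hF, h2⟩ := hp (ε / (2 * (N * ‖b'‖ + 1))) (by positivity)
  refine ⟨F ∪ ⋃ z ∈ F, Metric.closedBall z r, hF.union (hF.biUnion fun z _ => fin z),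
    fun x y hxy => ?_⟩
  have h3 : ‖(p * (b - b')) (δ y) x‖ ≤ ε / 2 := by
    refine (ent_le _ _ _).trans ((norm_mul_le _ _).trans ?_)
    rw [dist_eq_norm] at h1
    calc _ ≤ (‖p‖ + 1) * (ε / (2 * (‖p‖ + 1))) := by gcongr; linarith
      _ = _ := by field_simp
  have h4 : ‖(p * b') (δ y) x‖ < ε / 2 := by
    rw [mul_apply_eq_comp, apply_fin p _ x (fin y).toFinset fun z hz => Or.inl (hr y z (by
      simpa [dist_comm] using hz))]
    refine (norm_sum_le_of_le _ (n := fun _ => ε / (2 * (N * ‖b'‖ + 1)) * ‖b'‖)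
      fun z hz => ?_).trans_lt ?_
    · rw [norm_mul]
      refine mul_le_mul (h2 x z fun q => hxy ⟨Or.inl q.1, Or.inr ?_⟩).le (ent_le _ _ _)
        (norm_nonneg _) (by positivity)
      exact Set.mem_biUnion q.2 (by simpa [dist_comm] using hz)
    · have c : (#(fin y).toFinset : ℝ) ≤ N := by
        have := hN y
        rw [(fin y).encard_eq_coe_toFinset_card] at this
        exact_mod_cast this
      rw [sum_const, nsmul_eq_mul]
      calc _ ≤ N * (ε / (2 * (N * ‖b'‖ + 1)) * ‖b'‖) := by gcongr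
        _ = ε / 2 * (N * ‖b'‖ / (N * ‖b'‖ + 1)) := by field_simp
        _ < _ := mul_lt_of_lt_one_right (by positivity)
          ((div_lt_one (by positivity)).mpr (by linarith))
  have : p * b = p * (b - b') + p * b' := by rw [← mul_add, sub_add_cancel]
  rw [this, add_apply, lp.coeFn_add, Pi.add_apply]
  exact (norm_add_le _ _).trans_lt (by linarith)

theorem proj_inner {p : H Z →L[ℂ] H Z} (hp : IsStarProjection p) (ξ η : H Z) :
    inner ℂ (p ξ) (p η) = inner ℂ ξ (p η) := by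
  rw [← adjoint_inner_right, ← star_eq_adjoint, hp.isSelfAdjoint.star_eq, ← mul_apply_eq_comp,
    hp.isIdempotentElem.eq]

theorem proj_diag {p : H Z →L[ℂ] H Z} (hp : IsStarProjection p) (y : Z) :
    p (δ y) y = (‖p (δ y)‖ ^ 2 : ℝ) := by
  rw [← inner_δ, ← proj_inner hp, inner_self_eq_norm_sq_to_K]; simp

theorem ind_FP [MetricSpace Z] (D : Z → Prop) : Ind D ∈ (FP Z).topologicalClosure :=
  StarSubalgebra.le_topologicalClosure _ ⟨0, fun x x' h => by
    simp [Ind_apply, δ_apply, (dist_pos.mp h).symm]⟩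

theorem pyth (D : Z → Prop) (ξ : H Z) : ‖(1 - Ind D) ξ‖ ^ 2 = ‖ξ‖ ^ 2 - ‖Ind D ξ‖ ^ 2 := by
  have h : inner ℂ (Ind D ξ) ((1 - Ind D) ξ) = 0 := by
    rw [← adjoint_inner_right, ← star_eq_adjoint, Ind_star, ← mul_apply_eq_comp, mul_sub, mul_one,
      Ind_idem, sub_self, zero_apply, inner_zero_right]
  have := norm_add_sq_eq_norm_sq_add_norm_sq_of_inner_eq_zero _ _ h
  have e : Ind D ξ + (1 - Ind D) ξ = ξ := by simp
  rw [e] at this
  linarith

theorem cpt_congr {f g : H Z → H X} (h : IsCompactOperator f) (e : ∀ ξ, g ξ = f ξ) :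
    IsCompactOperator g := (funext e : g = f) ▸ h

theorem kill [MetricSpace Z] {p : H Z →L[ℂ] H Z} (hp : IsStarProjection p)
    (hC : p ∈ (FP Z).topologicalClosure) (nc : ¬ IsCompactOperator p) (F : Finset Z) :
    ∃ q ∈ (FP Z).topologicalClosure, IsStarProjection q ∧ ¬ IsCompactOperator q ∧ p * q = q ∧
      ∀ y ∈ F, q (δ y) = 0 := by
  classical
  induction F using Finset.induction_on with
  | empty => exact ⟨p, hC, hp, nc, hp.isIdempotentElem.eq, by simp⟩
  | insert y F _ ih =>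
    obtain ⟨q, qC, hq, qn, pq, q0⟩ := ih
    set e : H Z →L[ℂ] H Z := Ind (· = y) with he
    set t : ℝ := ‖q (δ y)‖ ^ 2 with ht
    have e1 : ∀ ξ, e ξ = ξ y • δ y := fun ξ => lp.ext (funext fun z => by
      by_cases h : z = y <;> simp [he, Ind_apply, δ_apply, h])
    have e2 : ∀ ξ, (q * e * q) ξ = q ξ y • q (δ y) := fun ξ => by
      simp only [mul_apply_eq_comp, e1, map_smul]
    have qq : ∀ ξ, q (q ξ) = q ξ := fun ξ => by rw [← mul_apply_eq_comp, hq.isIdempotentElem.eq]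
    have e3 : q * e * q * (q * e * q) = (t : ℂ) • (q * e * q) := by
      ext1 ξ
      rw [mul_apply_eq_comp, e2 ξ, map_smul, e2, qq, proj_diag hq, smul_apply, e2, smul_comm]
    have e4 : q * (q * e * q) = q * e * q := by
      rw [← mul_assoc, ← mul_assoc, hq.isIdempotentElem.eq]
    have e5 : q * e * q * q = q * e * q := by rw [mul_assoc, hq.isIdempotentElem.eq]
    have ec : IsCompactOperator e := by
      have := (isCompactOperator_of_locallyCompactSpace_dom (innerSL ℂ (δ y))).clm_comp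
        (toSpanSingleton ℂ (δ y))
      exact cpt_congr this fun ξ => by simp [e1, inner_δ]
    refine ⟨q - ((t⁻¹ : ℝ) : ℂ) • (q * e * q), sub_mem qC (SMulMemClass.smul_mem _
      (mul_mem (mul_mem qC (ind_FP _)) qC)), ⟨?_, ?_⟩, fun h => qn ?_, ?_, fun z hz => ?_⟩
    · rw [IsIdempotentElem, sub_mul, mul_sub, mul_sub, mul_smul_comm, smul_mul_assoc,
        smul_mul_smul_comm, e3, e4, e5, hq.isIdempotentElem.eq, smul_smul]
      have : ((t⁻¹ : ℝ) : ℂ) * (t⁻¹ : ℝ) * t = (t⁻¹ : ℝ) := by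
        by_cases h : (t : ℂ) = 0
        · simp [h]
        · push_cast; field_simp
      rw [this, sub_self, sub_zero]
    · rw [IsSelfAdjoint, star_sub, star_smul, star_mul, star_mul, hq.isSelfAdjoint.star_eq, he,
        Ind_star, mul_assoc, RCLike.star_def, Complex.conj_ofReal]
    · have := h.add (((ec.comp_clm q).clm_comp q).smul ((t⁻¹ : ℝ) : ℂ))
      exact cpt_congr this fun ξ => by simp
    · rw [mul_sub, mul_smul_comm, ← mul_assoc, ← mul_assoc, pq]
    · rw [sub_apply, smul_apply, e2]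
      rcases mem_insert.mp hz with rfl | hz
      · rw [proj_diag hq, smul_smul, ← ht]
        by_cases h : t = 0
        · have : q (δ z) = 0 := by simpa [ht] using h
          simp [this]
        · rw [← Complex.ofReal_mul, inv_mul_cancel₀ h]; simp
      · simp [q0 z hz]

theorem alg {A : Type} [Ring A] [StarRing A] {p e u : A} (hp : IsStarProjection p)
    (he : star e = e) (h1 : (1 - p * (1 - e) * p) * u = 1) (h2 : u * (1 - p * (1 - e) * p) = 1) :
    star (p * u * p) = p * u * p ∧ p * u * p * e * (p * u * p) = p * u * p ∧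
      p * e * (p * u * p) * e * p * u = p := by
  set S := 1 - p * (1 - e) * p with hS
  have pp := hp.isIdempotentElem.eq
  have pp' : ∀ x, p * (p * x) = p * x := fun x => by rw [← mul_assoc, pp]
  have a1 : p * S = p * e * p := by
    simp only [hS, mul_sub, sub_mul, mul_one, mul_assoc, pp, pp']; abel
  have a2 : S * p = p * e * p := by
    simp only [hS, mul_sub, sub_mul, mul_one, one_mul, mul_assoc, pp]; abel
  have a3 : star S = S := by
    simp only [hS, star_sub, star_mul, star_one, hp.isSelfAdjoint.star_eq, he, mul_assoc]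
  have a4 : star u = u := by
    have := congrArg star h1
    rw [star_mul, a3, star_one] at this
    calc star u = star u * (S * u) := by rw [h1, mul_one]
      _ = u := by rw [← mul_assoc, this, one_mul]
  refine ⟨by simp only [star_mul, a4, hp.isSelfAdjoint.star_eq, mul_assoc], ?_, ?_⟩
  · calc _ = p * (u * (p * e * p)) * u * p := by simp only [mul_assoc]
      _ = _ := by rw [← a2, ← mul_assoc u, h2, one_mul, pp]
  · calc _ = p * e * p * u * (p * e * p) * u := by simp only [mul_assoc]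
      _ = p * (S * u) * (p * (S * u)) := by rw [← a1]; simp only [mul_assoc]
      _ = _ := by rw [h1, mul_one, pp]

theorem transfer [MetricSpace Z] [MetricSpace X] (hZ : ULF Z) (g : X → Z)
    (hg : Function.Injective g) (hd : ∀ r, ∃ s, ∀ x x', dist (g x) (g x') ≤ r → dist x x' ≤ s)
    {p q : H Z →L[ℂ] H Z} (hp : Ghost p) (hq : IsStarProjection q)
    (qC : q ∈ (FP Z).topologicalClosure) (pq : p * q = q)
    (hn : ‖(1 - Ind (· ∈ Set.range g)) * q‖ < 1)
    (hX : ∀ T ∈ (FP X).topologicalClosure, IsStarProjection T → Ghost T → IsCompactOperator T) :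
    IsCompactOperator q := by
  classical
  set e : H Z →L[ℂ] H Z := Ind (· ∈ Set.range g) with he
  have n1 : ‖q * (1 - e) * q‖ < 1 := by
    have : q * (1 - e) * q = star ((1 - e) * q) * ((1 - e) * q) := by
      rw [star_mul, hq.isSelfAdjoint.star_eq, he, ← Ind_not, Ind_star, mul_assoc, mul_assoc,
        ← mul_assoc (Ind _), Ind_idem]
    rw [this]
    exact (norm_mul_le _ _).trans_lt (by rw [nstar]; nlinarith [norm_nonneg ((1 - e) * q)])
  set u := ∑' i : ℕ, (q * (1 - e) * q) ^ i with hu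
  obtain ⟨a1, a2, a3⟩ := alg hq (Ind_star _) (mul_neg_geom_series _ n1) (geom_series_mul_neg _ n1)
  have uC : u ∈ (FP Z).topologicalClosure :=
    (StarSubalgebra.isClosed_topologicalClosure _).mem_of_tendsto
      (summable_geometric_of_norm_lt_one n1).hasSum.tendsto_sum_nat
      (Eventually.of_forall fun n => sum_mem fun i _ => pow_mem
        (mul_mem (mul_mem qC (sub_mem (one_mem _) (ind_FP _))) qC) i)
  rw [← hu, ← he] at a2 a3
  rw [← hu] at a1
  set w := q * u * q with hw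
  have wC : w ∈ (FP Z).topologicalClosure := mul_mem (mul_mem qC uC) qC
  have wg : Ghost w := by
    have := ghost_mul hZ hp wC
    rwa [hw, ← mul_assoc, ← mul_assoc, pq] at this
  let R : H Z →L[ℂ] H X := wc g fun _ => 1
  have R1 : ∀ ξ x, R ξ x = ξ (g x) := fun ξ x => by
    rw [wc_apply (bd_inj hg zero_le_one (by simp)), one_mul]
  have R2 : ∀ x, adjoint R (δ x) = δ (g x) := fun x => lp.ext (funext fun z => by
    rw [adj_ent, R1, δ_apply, δ_apply]
    by_cases h : z = g x <;> simp [h, eq_comm])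
  have R3 : ∀ ξ, adjoint R (R ξ) = e ξ := fun ξ => by
    have : adjoint R ∘L R = e := ext_ent fun z z' => by
      rw [he, Ind_δ, comp_apply]
      split_ifs with h
      · obtain ⟨x, rfl⟩ := h
        have : R (δ (g x)) = δ x := lp.ext (funext fun x' => by
          rw [R1, δ_apply, δ_apply]; simp [hg.eq_iff])
        rw [this, R2]
      · have : R (δ z) = 0 := lp.ext (funext fun x' => by
          rw [R1, δ_apply, if_neg (fun q => h ⟨x', q⟩)]; rfl)
        rw [this, map_zero]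
    rw [← this, comp_apply]
  let Φ : (H Z →L[ℂ] H Z) → (H X →L[ℂ] H X) := fun a => R ∘L a ∘L adjoint R
  have Φ1 : ∀ a x x', Φ a (δ x) x' = a (δ (g x)) (g x') := fun a x x' => by
    simp only [Φ, comp_apply, R1, R2]
  have Φc : Continuous Φ := continuous_const.clm_comp (continuous_id.clm_comp continuous_const)
  have key := hX (Φ w) (map_mem_closure Φc wC fun a ⟨r, hr⟩ => by
      obtain ⟨s, hs⟩ := hd r
      exact ⟨s, fun x x' h => by rw [Φ1]; exact hr _ _ (not_le.mp fun q => (hs _ _ q).not_gt h)⟩)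
    ⟨by
      ext1 ξ
      simp only [Φ, mul_apply_eq_comp, comp_apply, R3]
      conv_rhs => rw [← a2]
      simp only [mul_apply_eq_comp], by
      rw [IsSelfAdjoint, star_eq_adjoint, adjoint_comp, adjoint_comp, adjoint_adjoint,
        ← star_eq_adjoint, a1, comp_assoc]⟩ fun ε hε => by
      obtain ⟨F, hF, h⟩ := wg ε hε
      exact ⟨g ⁻¹' F, hF.preimage hg.injOn, fun x y hxy => by rw [Φ1]; exact h _ _ hxy⟩
  have := ((key.comp_clm (R ∘L q ∘L u)).clm_comp (q ∘L adjoint R))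
  refine cpt_congr this fun ξ => ?_
  conv_lhs => rw [← a3]
  simp only [Φ, mul_apply_eq_comp, comp_apply, R3, Function.comp_apply]

theorem num {n η x t a b : ℝ} (n1 : 1 ≤ n) (η0 : 0 < η) (η1 : η * n = 1 / 8) (x0 : 0 ≤ x)
    (b0 : 0 ≤ b) (h1 : t ^ 2 ≤ 2 * n * b ^ 2 + x ^ 2 / 2) (h2 : x - t ≤ η * x)
    (h3 : b ≤ a + η * x) : x ^ 2 - a ^ 2 ≤ (1 - 1 / (20 * n)) * x ^ 2 := by
  have η2 : η ≤ 1 / 8 := by nlinarith
  have a1 : (7 / 8 * x) ^ 2 ≤ t ^ 2 := pow_le_pow_left₀ (by positivity) (by nlinarith) 2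
  have a2 : b ^ 2 ≤ 2 * a ^ 2 + 2 * (η * x) ^ 2 :=
    (pow_le_pow_left₀ b0 h3 2).trans (by nlinarith [sq_nonneg (a - η * x)])
  have a3 : n * (η * x) ^ 2 = η * x ^ 2 / 8 := by
    rw [show n * (η * x) ^ 2 = η * n * (η * x ^ 2) by ring, η1]; ring
  have a4 : η * x ^ 2 ≤ 1 / 8 * x ^ 2 := by gcongr
  have a5 : n * b ^ 2 ≤ n * (2 * a ^ 2 + 2 * (η * x) ^ 2) := by gcongr
  have a6 : x ^ 2 ≤ a ^ 2 * (20 * n) := by nlinarith [mul_nonneg (sq_nonneg a) (zero_le_one.trans n1)]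
  rw [← div_le_iff₀ (by positivity)] at a6
  rw [sub_mul, one_mul, one_div_mul_eq_div]
  linarith

theorem core [MetricSpace Z] [MetricSpace X] (hZ : ULF Z) (l : Z → ℕ)
    (hfin : ∀ k, {z | l z = k}.Finite) (hne : ∀ k, ∃ z, l z = k)
    (hsep : ∀ r : ℝ, ∃ N, ∀ z z', l z ≠ l z' → N ≤ l z + l z' → r < dist z z') (f : Z → X)
    (f1 : ∀ r, ∃ s, ∀ z z', dist z z' ≤ r → dist (f z) (f z') ≤ s)
    (f2 : ∀ s, ∃ r, ∀ z z', dist (f z) (f z') ≤ s → dist z z' ≤ r) (hX : OnlyCompact X)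
    {p : H Z →L[ℂ] H Z} (pC : p ∈ (FP Z).topologicalClosure) (hp : IsStarProjection p)
    (hg : Ghost p) : IsCompactOperator p := by
  classical
  by_contra nc
  obtain ⟨r0, hr0⟩ := f2 0
  obtain ⟨n0, hn0⟩ := hZ r0
  obtain ⟨n, n1, hn⟩ : ∃ n : ℕ, (1 : ℝ) ≤ n ∧ ∀ j (t : Finset Z), (∀ z ∈ t, f z = j) → #t ≤ n := by
    refine ⟨n0 + 1, by simp, fun j t ht => ?_⟩
    rcases t.eq_empty_or_nonempty with rfl | ⟨z, hz⟩
    · simp
    · have : (t : Set Z).encard ≤ n0 := (Set.encard_le_encard fun z' hz' =>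
        hr0 z' z (by rw [ht z hz, ht z' hz', dist_self])).trans (hn0 z)
      rw [Set.encard_coe_eq_coe_finsetCard] at this
      exact le_trans (by exact_mod_cast this) (Nat.le_succ _)
  set η : ℝ := 1 / (8 * n) with hη
  have η0 : 0 < η := by positivity
  have η1 : η * n = 1 / 8 := by rw [hη]; field_simp
  have η2 : η ≤ 1 / 8 := by nlinarith
  obtain ⟨T, ⟨r, hr⟩, hT⟩ := Metric.mem_closure_iff.mp pC η η0
  rw [dist_eq_norm] at hT
  obtain ⟨N1, h1⟩ := hsep r
  obtain ⟨N2, h2⟩ := hsep r0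
  obtain ⟨F, hF, h3⟩ := hg (η ^ 2) (by positivity)
  obtain ⟨N3, h4⟩ := (hF.image l).bddAbove
  set K := N1 + N2 + N3 + 1 with hK
  let s : ℕ → Finset Z := fun k => (hfin k).toFinset
  have ms : ∀ k z, z ∈ s k ↔ l z = k := fun k z => (hfin k).mem_toFinset
  have row : ∀ y, K ≤ l y → ∀ t : Finset Z, ∑ j ∈ t, ‖2 * T (δ j) y‖ ^ 2 ≤ 16 * η ^ 2 := by
    intro y hy t
    have a1 : ‖p (δ y)‖ ≤ η := by
      have := h3 y y fun q => by have := h4 ⟨y, q.1, rfl⟩; omega
      rw [proj_diag hp, Complex.norm_real, Real.norm_of_nonneg (sq_nonneg _)] at this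
      exact (lt_of_pow_lt_pow_left₀ 2 η0.le this).le
    have a2 : ‖(p - star T) (δ y)‖ ≤ η := by
      refine (le_opNorm _ _).trans ?_
      rw [norm_δ, mul_one, ← nstar, star_sub, star_star, hp.isSelfAdjoint.star_eq]
      exact hT.le
    have a3 : ‖star T (δ y)‖ ≤ 2 * η := by
      have := norm_sub_le (p (δ y)) ((p - star T) (δ y))
      rw [sub_apply, sub_sub_cancel] at this
      rw [sub_apply] at a2
      linarith
    have a4 := sum_le_sq (star T (δ y)) t
    simp only [star_eq_adjoint, adj_ent, norm_star] at a4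
    simp only [norm_mul, mul_pow, ← mul_sum, Complex.norm_two]
    rw [star_eq_adjoint] at a3
    nlinarith [norm_nonneg (adjoint T (δ y))]
  have ex := fun k : ℕ => mss' (s (K + k)) f n hn (fun y j => 2 * T (δ j) y) (16 * η ^ 2)
    (by nlinarith) fun y hy => row y (by rw [(ms _ _).mp hy]; omega) _
  choose D D1 D2 D3 D4 using ex
  have Dl : ∀ k, ∀ z ∈ D k, l z = K + k := fun k z hz => (ms _ _).mp (D1 k hz)
  have diff : ∀ z z', K ≤ l z → f z = f z' → l z = l z' := fun z z' hz e => by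
    by_contra q
    exact (hr0 z z' (by rw [e, dist_self])).not_gt (h2 z z' q (by omega))
  let S : Set X := ⋃ k, f '' {z | l z = K + k}
  have hS : Sparse S := by
    refine ⟨fun k => f '' {z | l z = K + k}, fun k => ⟨(hfin _).image _, Set.Nonempty.image _ (hne _)⟩,
      fun k m hk => Set.disjoint_left.mpr ?_, rfl, fun t => ?_⟩
    · rintro _ ⟨z, hz, rfl⟩ ⟨z', hz', e⟩
      have := diff z z' (by rw [hz]; omega) e.symm
      rw [hz, hz'] at this
      omega
    · obtain ⟨r1, q1⟩ := f2 t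
      obtain ⟨N, q2⟩ := hsep r1
      refine ⟨N, ?_⟩
      rintro k m hk hN _ ⟨z, hz, rfl⟩ _ ⟨z', hz', rfl⟩
      have hz1 : l z = K + k := hz
      have hz2 : l z' = K + m := hz'
      exact not_le.mp fun q => (q1 z z' q).not_gt (q2 z z' (by omega) (by omega))
  have eg : ∀ x : S, ∃ z, f z = x ∧ ∃ k, z ∈ D k := by
    rintro ⟨x, hx⟩
    obtain ⟨k, z, hz, rfl⟩ := Set.mem_iUnion.mp hx
    obtain ⟨z', q1, q2⟩ := D3 k z ((ms _ _).mpr hz)
    exact ⟨z', q2, k, q1⟩
  choose g g1 g2 using eg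
  have gr : ∀ k, ∀ z ∈ D k, z ∈ Set.range g := fun k z hz => by
    let x : S := ⟨f z, Set.mem_iUnion.mpr ⟨k, z, Dl k z hz, rfl⟩⟩
    obtain ⟨m, hm⟩ := g2 x
    have := diff z (g x) (by rw [Dl k z hz]; omega) (g1 x).symm
    rw [Dl k z hz, Dl m _ hm] at this
    obtain rfl : k = m := by omega
    exact ⟨x, D2 k hm hz (g1 x)⟩
  have low : {z | l z < K}.Finite := ((Set.finite_Iio K).biUnion fun k _ => hfin k).subset
    fun z hz => Set.mem_biUnion (show l z ∈ Set.Iio K from hz) rfl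
  obtain ⟨q, qC, hq, qn, pq, q0⟩ := kill hp pC nc low.toFinset
  set e : H Z →L[ℂ] H Z := Ind (· ∈ Set.range g) with he
  have est : ∀ ξ : H Z, (∀ z, l z < K → ξ z = 0) →
      ‖T ξ‖ ^ 2 ≤ 2 * n * ‖e (T ξ)‖ ^ 2 + ‖ξ‖ ^ 2 / 2 := fun ξ hξ => by
    have a1 : ∀ y, T ξ y = ∑ j ∈ s (l y), T (δ j) y * ξ j := fun y =>
      apply_fin T ξ y _ fun z hz => by
        by_cases c : l z < K
        · exact Or.inl (hξ z c)
        · exact Or.inr (hr _ _ (h1 z y (fun e => hz ((ms _ _).mpr e)) (by omega)))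
    have a2 : ∀ k, ∑ y ∈ s k, ‖T ξ y‖ ^ 2 ≤
        2 * n * ∑ y ∈ s k, ‖e (T ξ) y‖ ^ 2 + (∑ y ∈ s k, ‖ξ y‖ ^ 2) / 2 := fun k => by
      rcases lt_or_ge k K with c | c
      · rw [sum_eq_zero fun y hy => by
          rw [a1, sum_eq_zero fun j hj => by
            rw [hξ j (by rwa [(ms _ _).mp hj, (ms _ _).mp hy]), mul_zero], norm_zero,
            zero_pow two_ne_zero]]
        positivity
      obtain ⟨k, rfl⟩ := Nat.exists_eq_add_of_le c
      have b1 := D4 k ξ
      have b2 : ∀ y ∈ s (K + k), ‖∑ j ∈ s (K + k), 2 * T (δ j) y * ξ j‖ ^ 2 =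
          4 * ‖T ξ y‖ ^ 2 := fun y hy => by
        simp only [mul_assoc, ← mul_sum]
        rw [a1, (ms _ _).mp hy, norm_mul, Complex.norm_two]; ring
      rw [sum_congr rfl b2, sum_congr rfl fun y hy => b2 y (D1 k hy), ← mul_sum, ← mul_sum] at b1
      have b3 : ∑ y ∈ D k, ‖T ξ y‖ ^ 2 ≤ ∑ y ∈ s (K + k), ‖e (T ξ) y‖ ^ 2 := by
        refine le_trans (le_of_eq (sum_congr rfl fun y hy => ?_))
          (sum_le_sum_of_subset_of_nonneg (D1 k) fun _ _ _ => sq_nonneg _)
        rw [he, Ind_apply, if_pos (gr k y hy)]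
      nlinarith
    have c0 : 0 ≤ 2 * n * ‖e (T ξ)‖ ^ 2 + ‖ξ‖ ^ 2 / 2 := by positivity
    refine (Real.le_sqrt (norm_nonneg _) c0).mp (norm_le_of _ (Real.sqrt_nonneg _) fun t => ?_)
    have dj : Set.PairwiseDisjoint (t.image l : Set ℕ) s := fun a _ b _ hab =>
      disjoint_left.mpr fun z h h' => hab (((ms _ _).mp h).symm.trans ((ms _ _).mp h'))
    have b1 := fun ζ : H Z => (sum_biUnion dj).symm.trans_le (sum_le_sq ζ _)
    rw [Real.sq_sqrt c0]
    calc _ ≤ ∑ y ∈ (t.image l).biUnion s, ‖T ξ y‖ ^ 2 :=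
          sum_le_sum_of_subset_of_nonneg (fun z hz => mem_biUnion.mpr
            ⟨_, mem_image_of_mem l hz, (ms _ _).mpr rfl⟩) fun _ _ _ => sq_nonneg _
      _ ≤ _ := by
          rw [sum_biUnion dj]
          refine (sum_le_sum fun k _ => a2 k).trans ?_
          rw [sum_add_distrib, ← mul_sum, ← sum_div]
          gcongr <;> exact b1 _
  refine qn (transfer hZ g (fun x x' h => Subtype.ext (by rw [← g1, ← g1, h])) (fun r => ?_) hg hq
    qC pq ?_ (hX S hS))
  · exact (f1 r).imp fun t ht x x' h => by rw [Subtype.dist_eq, ← g1, ← g1]; exact ht _ _ h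
  have c1 : (0 : ℝ) < 1 / (20 * n) := by positivity
  have c2 : (1 : ℝ) / (20 * n) ≤ 1 := by rw [div_le_one (by positivity)]; linarith
  refine (opNorm_le_bound _ (Real.sqrt_nonneg (1 - 1 / (20 * n))) fun ζ => ?_).trans_lt
    (by rw [Real.sqrt_lt' one_pos]; linarith)
  have b0 : ‖q ζ‖ ≤ ‖ζ‖ := by
    have := (proj_inner hq ζ ζ) ▸ norm_inner_le_norm (𝕜 := ℂ) ζ (q ζ)
    rw [inner_self_eq_norm_sq_to_K, norm_pow, norm_algebraMap', norm_norm] at this
    nlinarith [norm_nonneg ζ, norm_nonneg (q ζ)]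
  have b1 := est (q ζ) fun z hz => by
    rw [← inner_δ, ← proj_inner hq, q0 z (low.mem_toFinset.mpr hz), inner_zero_left]
  have b2 : ‖q ζ - T (q ζ)‖ ≤ η * ‖q ζ‖ := by
    have := (p - T).le_opNorm (q ζ)
    rw [sub_apply, ← mul_apply_eq_comp, pq] at this
    exact this.trans (by gcongr)
  have b3 : ‖e (q ζ - T (q ζ))‖ ≤ η * ‖q ζ‖ :=
    (le_opNorm _ _).trans ((mul_le_of_le_one_left (norm_nonneg _) (Ind_norm _)).trans b2)
  have b4 := norm_sub_norm_le (q ζ) (T (q ζ))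
  have b5 := norm_sub_le (e (q ζ)) (e (q ζ - T (q ζ)))
  rw [← map_sub, sub_sub_cancel] at b5
  have b6 := pyth (· ∈ Set.range g) (q ζ)
  rw [← he] at b6 ⊢
  rw [mul_apply_eq_comp]
  refine le_trans (le_of_sq_le_sq ?_ (by positivity))
    (mul_le_mul_of_nonneg_left b0 (Real.sqrt_nonneg _))
  rw [mul_pow, Real.sq_sqrt (by linarith), b6]
  exact num n1 η0 η1 (norm_nonneg _) (norm_nonneg _) b1 (b4.trans b2) (by linarith)

theorem main {Y : Type} [MetricSpace Y] [MetricSpace X] (hY : ULF Y) (f : Y → X)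
    (f1 : ∀ r, ∃ s, ∀ z z', dist z z' ≤ r → dist (f z) (f z') ≤ s)
    (f2 : ∀ s, ∃ r, ∀ z z', dist (f z) (f z') ≤ s → dist z z' ≤ r) (hX : OnlyCompact X) :
    OnlyCompact Y := by
  rintro S ⟨B, h1, h2, rfl, h3⟩ p pC hp hg
  choose l hl using fun z : (⋃ n, B n : Set Y) => Set.mem_iUnion.mp z.2
  have lu : ∀ (z : (⋃ n, B n : Set Y)) k, z.1 ∈ B k → l z = k := fun z k hk => by
    by_contra q
    exact Set.disjoint_left.mp (h2 _ _ q) (hl z) hk
  refine core (fun r => (hY r).imp fun N hN z => le_trans ?_ (hN z)) l (fun k => ?_) (fun k => ?_)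
    (fun r => (h3 r).imp fun N hN z z' q q' => hN _ _ q q' _ (hl z) _ (hl z')) (fun z => f z)
    (fun r => (f1 r).imp fun s hs z z' => hs _ _) (fun r => (f2 r).imp fun s hs z z' => hs _ _)
    hX pC hp hg
  · rw [← Subtype.val_injective.encard_image]
    exact Set.encard_le_encard (by rintro _ ⟨w, hw, rfl⟩; exact hw)
  · exact ((h1 k).1.preimage Subtype.val_injective.injOn).subset fun z hz => by
      have := hl z
      rwa [show l z = k from hz] at this
  · obtain ⟨y, hy⟩ := (h1 k).2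
    exact ⟨⟨y, Set.mem_iUnion.mpr ⟨k, hy⟩⟩, lu _ k hy⟩

theorem CoarseEmb.ctrl {Y : Type} [MetricSpace Y] [MetricSpace X] {f : Y → X} (h : CoarseEmb f) :
    (∀ r, ∃ s, ∀ z z', dist z z' ≤ r → dist (f z) (f z') ≤ s) ∧
      ∀ s, ∃ r, ∀ z z', dist (f z) (f z') ≤ s → dist z z' ≤ r := by
  obtain ⟨ρ₁, ρ₂, -, m2, t, h⟩ := h
  refine ⟨fun r => ⟨ρ₂ r.toNNReal, fun z z' q => ?_⟩, fun s => ?_⟩
  · exact NNReal.coe_le_coe.mpr ((h z z').2.trans (m2
      ((Real.le_toNNReal_iff_coe_le (dist_nonneg.trans q)).mpr q)))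
  · obtain ⟨r, hr⟩ := eventually_atTop.mp (t.eventually (eventually_gt_atTop s.toNNReal))
    refine ⟨r, fun z z' q => not_lt.mp fun q' => ?_⟩
    have := (hr (nndist z z') (NNReal.coe_le_coe.mp q'.le)).trans_le (h z z').1
    exact (Real.toNNReal_lt_iff_lt_coe (dist_nonneg.trans q) |>.mp this).not_ge q

theorem back {Y : Type} [MetricSpace Y] [MetricSpace X] (hX : ULF X) {f : Y → X} (h : CoarseEmb f)
    {R : ℝ} (hR : ∀ x, ∃ y, dist x (f y) ≤ R) (hY : OnlyCompact Y) : OnlyCompact X := by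
  obtain ⟨f1, f2⟩ := h.ctrl
  choose g hg using hR
  refine main hX g (fun r => (f2 (R + r + R)).imp fun s hs x x' q => hs _ _ ?_)
    (fun r => (f1 r).elim fun s hs => ⟨R + s + R, fun x x' q => ?_⟩) hY
  · linarith [dist_triangle4 (f (g x)) x x' (f (g x')), hg x, hg x', dist_comm x (f (g x))]
  · linarith [dist_triangle4 x (f (g x)) (f (g x')) x', hg x, hg x', dist_comm x' (f (g x')),
      hs _ _ q]

end Pool.Agent.H86.Gh
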