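import Mathlib

namespace Pool.Agent.H86.Pk
open Finset Filter Topology

/-- negative binomial weights -/
noncomputable def wt (ρ : ℝ) (k n : ℕ) : ℝ := (1 - ρ) ^ (k + 1) * (((n + k).choose k : ℝ) * ρ ^ n)

lemma wt_nonneg {ρ : ℝ} (h0 : 0 ≤ ρ) (h1 : ρ < 1) (k n : ℕ) : 0 ≤ wt ρ k n := by
  unfold wt
  have : 0 ≤ 1 - ρ := by linarith
  positivity

lemma ch1 (n k : ℕ) : ((n + (k + 1)).choose (k + 1) : ℝ) * (k + 1) =
    (n + k + 1) * ((n + k).choose k : ℝ) := by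
  have := Nat.add_one_mul_choose_eq (n + k) k
  have h : ((n + k + 1) * (n + k).choose k : ℕ) = ((n + (k + 1)).choose (k + 1) * (k + 1) : ℕ) := by
    rw [this]; rfl
  exact_mod_cast h.symm

lemma wt_var (D t : ℕ) (hD : 1 ≤ D) (k : ℕ) (hk : k + 1 = D * t) :
    HasSum (wt (1 / ((D : ℝ) + 1)) k) 1 ∧
    ∃ v ≤ 2 * (t : ℝ), HasSum (fun n => wt (1 / ((D : ℝ) + 1)) k n * ((n : ℝ) - t) ^ 2) v := by
  set ρ : ℝ := 1 / ((D : ℝ) + 1) with hρ
  have hD' : (1 : ℝ) ≤ D := by exact_mod_cast hD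
  have h0 : 0 ≤ ρ := by positivity
  have h1 : ρ < 1 := by rw [hρ, div_lt_one (by linarith)]; linarith
  have hn : ‖ρ‖ < 1 := by rw [Real.norm_eq_abs, abs_of_nonneg h0]; exact h1
  have hσ : 1 - ρ = D / (D + 1) := by rw [hρ]; field_simp; ring
  have hne : 1 - ρ ≠ 0 := by linarith
  have A0 := (hasSum_choose_mul_geometric_of_norm_lt_one k hn).mul_left ((1 - ρ) ^ (k + 1))
  have A1 := (hasSum_choose_mul_geometric_of_norm_lt_one (k + 1) hn).mul_left
    ((1 - ρ) ^ (k + 1) * (k + 1))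
  have A2 := (hasSum_choose_mul_geometric_of_norm_lt_one (k + 1 + 1) hn).mul_left
    ((1 - ρ) ^ (k + 1) * (k + 1) * (k + 2))
  have hkk : ((k : ℝ) + 1) = D * t := by exact_mod_cast hk
  have e0 : (1 - ρ) ^ (k + 1) * (1 / (1 - ρ) ^ (k + 1)) = 1 := by field_simp
  have e1 : (1 - ρ) ^ (k + 1) * (k + 1) * (1 / (1 - ρ) ^ (k + 1 + 1)) = (k + 1) / (1 - ρ) := by
    field_simp; ring
  have e2 : (1 - ρ) ^ (k + 1) * (k + 1) * (k + 2) * (1 / (1 - ρ) ^ (k + 1 + 1 + 1)) =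
      (k + 1) * (k + 2) / (1 - ρ) ^ 2 := by
    field_simp; ring
  rw [e0] at A0; rw [e1] at A1; rw [e2] at A2
  refine ⟨A0, t * (D + 1) / D, ?_, ?_⟩
  · rw [div_le_iff₀ (by linarith)]
    have : (0 : ℝ) ≤ t := by positivity
    nlinarith
  · set m : ℝ := t + (k + 1) with hm
    have B := (A2.sub (A1.mul_left (2 * m + 1))).add (A0.mul_left (m ^ 2))
    have hv : (k + 1) * (k + 2) / (1 - ρ) ^ 2 - (2 * m + 1) * ((k + 1) / (1 - ρ)) + m ^ 2 * 1 =
        t * (D + 1) / D := by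
      have : (k : ℝ) + 2 = D * t + 1 := by linarith
      rw [hσ, hm, this, hkk]
      have : (D : ℝ) ≠ 0 := by linarith
      field_simp
      ring
    rw [hv] at B
    have hf : (fun n : ℕ => wt ρ k n * ((n : ℝ) - t) ^ 2) = fun b : ℕ =>
        (1 - ρ) ^ (k + 1) * (k + 1) * (k + 2) * (((b + (k + 1 + 1)).choose (k + 1 + 1) : ℝ) * ρ ^ b) -
          (2 * m + 1) * ((1 - ρ) ^ (k + 1) * (k + 1) * (((b + (k + 1)).choose (k + 1) : ℝ) * ρ ^ b)) +
          m ^ 2 * ((1 - ρ) ^ (k + 1) * (((b + k).choose k : ℝ) * ρ ^ b)) := by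
      funext n
      have c1 := ch1 n k
      have c2 := ch1 n (k + 1)
      push_cast at c2
      unfold wt
      rw [hm]
      linear_combination (-((1 - ρ) ^ (k + 1) * ρ ^ n * (k + 1))) * c2 +
        ((1 - ρ) ^ (k + 1) * ρ ^ n * ((2 * ((t : ℝ) + (k + 1)) + 1) - (n + k + 2))) * c1
    rw [hf]; exact B

/-- Chebyshev: half of the mass sits in any finite set containing the window. -/
lemma wt_half (D t : ℕ) (hD : 1 ≤ D) (k : ℕ) (hk : k + 1 = D * t) (R : ℕ) (hR : 4 * t ≤ R ^ 2)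
    (W : Finset ℕ) (hW : ∀ n, t < n + R → n < t + R → n ∈ W) :
    1 / 2 ≤ ∑ n ∈ W, wt (1 / ((D : ℝ) + 1)) k n := by
  obtain ⟨h1, v, hv, h2⟩ := wt_var D t hD k hk
  have ht : 1 ≤ t := by
    rcases Nat.eq_zero_or_pos t with h | h
    · subst h; simp at hk
    · exact h
  have hR0 : (0 : ℝ) < R := by
    have : R ≠ 0 := by rintro rfl; simp at hR; omega
    positivity
  have hD' : (1 : ℝ) ≤ D := by exact_mod_cast hD
  have hw : ∀ n, 0 ≤ wt (1 / ((D : ℝ) + 1)) k n := fun n =>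
    wt_nonneg (by positivity) (by rw [div_lt_one (by linarith)]; linarith) k n
  have h3 : HasSum (fun n => if n ∈ W then wt (1 / ((D : ℝ) + 1)) k n else 0)
      (∑ n ∈ W, wt (1 / ((D : ℝ) + 1)) k n) := by
    have := hasSum_sum_of_ne_finset_zero (s := W) (L := SummationFilter.unconditional ℕ)
      (f := fun n => if n ∈ W then wt (1 / ((D : ℝ) + 1)) k n else 0) (fun b hb => by simp [hb])
    rwa [Finset.sum_congr rfl (fun n hn => if_pos hn)] at this
  have h4 := hasSum_le (fun n => ?_) h1 (h3.add (h2.div_const ((R : ℝ) ^ 2)))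
  · have : v / (R : ℝ) ^ 2 ≤ 1 / 2 := by
      rw [div_le_iff₀ (by positivity)]
      have : (4 * t : ℝ) ≤ (R : ℝ) ^ 2 := by exact_mod_cast hR
      linarith
    linarith
  · by_cases hn : n ∈ W
    · simp only [hn, if_true]
      have := hw n
      have : 0 ≤ wt (1 / ((D : ℝ) + 1)) k n * ((n : ℝ) - t) ^ 2 / (R : ℝ) ^ 2 := by positivity
      linarith
    · simp only [hn, if_false, zero_add]
      rw [le_div_iff₀ (by positivity)]
      refine mul_le_mul_of_nonneg_left ?_ (hw n)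
      by_cases ha : t < n + R
      · have hb : ¬ n < t + R := fun hb => hn (hW n ha hb)
        have : (t : ℝ) + R ≤ n := by exact_mod_cast not_lt.1 hb
        nlinarith
      · have : (n : ℝ) + R ≤ t := by exact_mod_cast not_lt.1 ha
        nlinarith

/-- square-root recursion -/
lemma rec_sqrt (P : ℕ → ℝ → Prop) (mono : ∀ m c c', c ≤ c' → P m c → P m c')
    (ex : ∀ m, ∃ c, P m c) (A δ θ : ℝ) (hδ : 0 ≤ δ) (hθ : 2 * δ < θ)
    (step : ∀ m c, 1 ≤ m → 0 ≤ c → (∀ k, k ≤ 30 * (Nat.sqrt m + 1) → P k c) →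
      P m (A * (m : ℝ) ^ δ * c)) :
    ∃ C, 0 ≤ C ∧ ∀ m, P m (C * ((m : ℝ) + 1) ^ θ) := by
  have hθ0 : 0 < θ := by linarith
  have ht : Tendsto (fun m : ℕ => (m : ℝ) ^ (θ / 2 - δ)) atTop atTop :=
    (tendsto_rpow_atTop (by linarith)).comp tendsto_natCast_atTop_atTop
  obtain ⟨m0, hm0⟩ := eventually_atTop.1 (ht.eventually_ge_atTop (|A| * 61 ^ θ))
  choose c hc using ex
  obtain ⟨m1, hm1, hm1'⟩ : ∃ m1, m0 ≤ m1 ∧ 4000 ≤ m1 := ⟨max m0 4000, le_max_left _ _, le_max_right _ _⟩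
  refine ⟨∑ m ∈ range m1, |c m|, by positivity, fun m => ?_⟩
  set C := ∑ m ∈ range m1, |c m| with hC
  have hC0 : 0 ≤ C := by positivity
  induction m using Nat.strong_induction_on with
  | _ m ih =>
  by_cases hm : m < m1
  · refine mono m _ _ ?_ (hc m)
    have h1 : |c m| ≤ C := single_le_sum (f := fun m => |c m|) (fun _ _ => abs_nonneg _)
      (mem_range.2 hm)
    have h2 : (1 : ℝ) ≤ ((m : ℝ) + 1) ^ θ := Real.one_le_rpow (by linarith [Nat.cast_nonneg (α := ℝ) m]) hθ0.le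
    nlinarith [le_abs_self (c m)]
  · have hm' : m1 ≤ m := not_lt.1 hm
    have hs := Nat.sqrt_le' m
    have hs2 := Nat.lt_succ_sqrt' m
    set s := Nat.sqrt m with hsd
    have hs62 : 62 ≤ s := by
      by_contra h
      have : s + 1 ≤ 62 := by omega
      have : (s + 1) ^ 2 ≤ 62 ^ 2 := Nat.pow_le_pow_left this 2
      simp only [Nat.succ_eq_add_one] at hs2
      omega
    have hlt : 30 * (s + 1) < m := by nlinarith
    have hmpos : (0 : ℝ) < m := by exact_mod_cast (by omega : 0 < m)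
    have key := step m (C * (61 * (m : ℝ) ^ (1 / 2 : ℝ)) ^ θ) (by omega) (by positivity)
      (fun k hk => mono k _ _ ?_ (ih k (by omega)))
    · refine mono m _ _ ?_ key
      have e1 : (61 * (m : ℝ) ^ (1 / 2 : ℝ)) ^ θ = 61 ^ θ * (m : ℝ) ^ (θ / 2) := by
        rw [Real.mul_rpow (by norm_num) (by positivity), ← Real.rpow_mul hmpos.le]
        congr 2; ring
      have e2 : (m : ℝ) ^ θ = (m : ℝ) ^ (θ / 2 - δ) * ((m : ℝ) ^ δ * (m : ℝ) ^ (θ / 2)) := by
        rw [← Real.rpow_add hmpos, ← Real.rpow_add hmpos]; congr 1; ring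
      have e3 : (m : ℝ) ^ θ ≤ ((m : ℝ) + 1) ^ θ := Real.rpow_le_rpow hmpos.le (by linarith) hθ0.le
      have e4 := hm0 m (by omega)
      have e5 : 0 ≤ (m : ℝ) ^ δ * (m : ℝ) ^ (θ / 2) := by positivity
      have e6 : A * 61 ^ θ ≤ |A| * 61 ^ θ :=
        mul_le_mul_of_nonneg_right (le_abs_self A) (by positivity)
      rw [e1]
      calc A * (m : ℝ) ^ δ * (C * (61 ^ θ * (m : ℝ) ^ (θ / 2)))
          = C * ((A * 61 ^ θ) * ((m : ℝ) ^ δ * (m : ℝ) ^ (θ / 2))) := by ring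
        _ ≤ C * ((m : ℝ) ^ (θ / 2 - δ) * ((m : ℝ) ^ δ * (m : ℝ) ^ (θ / 2))) :=
          mul_le_mul_of_nonneg_left (mul_le_mul_of_nonneg_right (e6.trans e4) e5) hC0
        _ ≤ _ := by rw [← e2]; exact mul_le_mul_of_nonneg_left e3 hC0
    · refine mul_le_mul_of_nonneg_left (Real.rpow_le_rpow (by positivity) ?_ hθ0.le) hC0
      have h1 : (s : ℝ) ≤ (m : ℝ) ^ (1 / 2 : ℝ) := by
        rw [← Real.sqrt_eq_rpow]
        exact Real.le_sqrt_of_sq_le (by exact_mod_cast hs)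
      have h2 : (k : ℝ) + 1 ≤ 61 * s := by
        have : k + 1 ≤ 61 * s := by omega
        exact_mod_cast this
      linarith

end Pool.Agent.H86.Pk
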