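import Pool.Agent.H86.PkA

namespace Pool.Agent.H86.Pk
open Finset Filter Topology

section
variable {X : Type*} (τ : X → X) (β : X → ℝ)

lemma iter_le (hβ : ∀ x, 0 ≤ β x) (A0 : ℝ) (hA0 : ∀ x, β (τ x) ≤ A0 * β x) (n : ℕ) (x : X) :
    β (τ^[n] x) ≤ |A0| ^ n * β x := by
  induction n with
  | zero => simp
  | succ n ih =>
    rw [Function.iterate_succ_apply']
    calc β (τ (τ^[n] x)) ≤ A0 * β (τ^[n] x) := hA0 _
      _ ≤ |A0| * β (τ^[n] x) := mul_le_mul_of_nonneg_right (le_abs_self _) (hβ _)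
      _ ≤ |A0| * (|A0| ^ n * β x) := mul_le_mul_of_nonneg_left ih (abs_nonneg _)
      _ = _ := by ring

def Win (K : ℝ) : Prop := ∀ x t R, 1 ≤ t → 4 * t ≤ R ^ 2 →
  ∑ i ∈ Ico (t + R) (t + 2 * R), β (τ^[i] x) ≤ K * ∑ j ∈ range (3 * R), β (τ^[j] x)

lemma ces (hβ : ∀ x, 0 ≤ β x) (A0 : ℝ) (hA0 : ∀ x, β (τ x) ≤ A0 * β x) (K : ℝ) (hK : 0 ≤ K)
    (win : Win τ β K) (θ : ℝ) (hθ : 0 < θ) :
    ∃ C, 0 ≤ C ∧ ∀ m x, ∑ j ∈ range m, β (τ^[j] x) ≤ C * ((m : ℝ) + 1) ^ θ * m * β x := by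
  have Smono : ∀ x a b, a ≤ b → ∑ j ∈ range a, β (τ^[j] x) ≤ ∑ j ∈ range b, β (τ^[j] x) :=
    fun x a b h => sum_le_sum_of_subset_of_nonneg (range_mono h) (fun _ _ _ => hβ _)
  refine rec_sqrt (fun m c => ∀ x, ∑ j ∈ range m, β (τ^[j] x) ≤ c * m * β x) ?_ ?_
    (48 * (1 + K)) 0 θ le_rfl (by linarith) ?_
  · intro m c c' h H x
    refine (H x).trans (mul_le_mul_of_nonneg_right (mul_le_mul_of_nonneg_right h (by positivity)) (hβ x))
  · intro m
    refine ⟨∑ j ∈ range m, |A0| ^ j, fun x => ?_⟩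
    rcases Nat.eq_zero_or_pos m with h | h
    · subst h; simp
    · have h1 : (1 : ℝ) ≤ m := by exact_mod_cast h
      have h2 : ∑ j ∈ range m, β (τ^[j] x) ≤ (∑ j ∈ range m, |A0| ^ j) * β x := by
        rw [sum_mul]; exact sum_le_sum fun j _ => iter_le τ β hβ A0 hA0 j x
      have h3 : 0 ≤ (∑ j ∈ range m, |A0| ^ j) * β x := mul_nonneg (by positivity) (hβ x)
      nlinarith
  · intro m c hm hc H x
    have hs := Nat.sqrt_le' m
    have hs2 := Nat.lt_succ_sqrt' m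
    simp only [Nat.succ_eq_add_one] at hs2
    have hs1 : 1 ≤ Nat.sqrt m := Nat.sqrt_pos.2 hm
    obtain ⟨r, hr⟩ : ∃ r, r = Nat.sqrt m + 1 := ⟨_, rfl⟩
    rw [← hr] at H hs2
    have hr4 : r ^ 2 ≤ 4 * m := by nlinarith
    have hr1 : 1 ≤ r := by omega
    set S3 := ∑ j ∈ range (3 * (4 * r)), β (τ^[j] x) with hS3
    have hS0 : 0 ≤ S3 := sum_nonneg fun _ _ => hβ _
    have ind : ∀ u, u ≤ r → ∑ j ∈ range (1 + u * (4 * r) + 4 * r), β (τ^[j] x) ≤ (1 + u * K) * S3 := by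
      intro u
      induction u with
      | zero => intro _; simpa using Smono x _ _ (by omega)
      | succ u ih =>
        intro hu
        have h1 := ih (by omega)
        have h2 := win x (1 + u * (4 * r)) (4 * r) (by omega) (by nlinarith)
        have e : 1 + (u + 1) * (4 * r) + 4 * r = 1 + u * (4 * r) + 2 * (4 * r) := by ring
        rw [e, ← sum_range_add_sum_Ico _ (by omega : 1 + u * (4 * r) + 4 * r ≤ 1 + u * (4 * r) + 2 * (4 * r))]
        push_cast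
        linarith
    have h1 := (Smono x m _ (by nlinarith)).trans (ind r le_rfl)
    have h2 := H (3 * (4 * r)) (by omega) x
    rw [← hS3] at h2
    push_cast at h2
    have hr' : (1 : ℝ) ≤ r := by exact_mod_cast hr1
    have hr4' : (r : ℝ) ^ 2 ≤ 4 * m := by exact_mod_cast hr4
    have h3 : (1 + r * K) * S3 ≤ (r * (1 + K)) * S3 := mul_le_mul_of_nonneg_right (by nlinarith) hS0
    have h4 : (r * (1 + K)) * S3 ≤ (r * (1 + K)) * (c * (3 * (4 * r)) * β x) :=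
      mul_le_mul_of_nonneg_left h2 (by positivity)
    have h5 : 0 ≤ (1 + K) * c * β x := mul_nonneg (by positivity) (hβ x)
    rw [Real.rpow_zero]
    nlinarith

theorem abstr (hβ : ∀ x, 0 ≤ β x) (A0 : ℝ) (hA0 : ∀ x, β (τ x) ≤ A0 * β x) (K : ℝ) (hK : 0 ≤ K)
    (win : Win τ β K) (θ : ℝ) (hθ : 0 < θ) :
    ∃ C, 0 ≤ C ∧ ∀ n x, β (τ^[n] x) ≤ C * ((n : ℝ) + 1) ^ θ * β x := by
  obtain ⟨C, hC, hS⟩ := ces τ β hβ A0 hA0 K hK win (θ / 4) (by linarith)
  refine rec_sqrt (fun n c => ∀ x, β (τ^[n] x) ≤ c * β x) ?_ ?_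
    (1 + 3 * K * C * 13 ^ (θ / 4)) (θ / 4) θ (by linarith) (by linarith) ?_
  · intro m c c' h H x
    exact (H x).trans (mul_le_mul_of_nonneg_right h (hβ x))
  · intro m
    exact ⟨_, iter_le τ β hβ A0 hA0 m⟩
  · intro n c hn hc H x
    have hs := Nat.sqrt_le_self n
    have hs2 := Nat.lt_succ_sqrt' n
    simp only [Nat.succ_eq_add_one] at hs2
    obtain ⟨r, hr⟩ : ∃ r, r = Nat.sqrt n + 1 := ⟨_, rfl⟩
    rw [← hr] at H hs2
    have hn' : (1 : ℝ) ≤ n := by exact_mod_cast hn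
    have hn1 : (1 : ℝ) ≤ (n : ℝ) ^ (θ / 4) := Real.one_le_rpow hn' (by linarith)
    have hA : 0 ≤ 3 * K * C * 13 ^ (θ / 4) := by positivity
    have hcb : 0 ≤ c * β x := mul_nonneg hc (hβ x)
    by_cases h : n ≤ 4 * r
    · refine (H n (by omega) x).trans ?_
      have : 1 ≤ (1 + 3 * K * C * 13 ^ (θ / 4)) * (n : ℝ) ^ (θ / 4) := by nlinarith
      nlinarith
    · obtain ⟨t, ht⟩ : ∃ t, n = t + 2 * (2 * r) := ⟨n - 4 * r, by omega⟩
      have h2 := win x t (2 * r) (by omega) (by nlinarith)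
      have h3 : ∀ i ∈ Ico (t + 2 * r) (t + 2 * (2 * r)), β (τ^[n] x) ≤ c * β (τ^[i] x) := by
        intro i hi
        rw [mem_Ico] at hi
        have := H (n - i) (by omega) (τ^[i] x)
        rwa [← Function.iterate_add_apply, Nat.sub_add_cancel (by omega)] at this
      have h4 := sum_le_sum h3
      rw [sum_const, Nat.card_Ico, ← mul_sum, nsmul_eq_mul] at h4
      have e : t + 2 * (2 * r) - (t + 2 * r) = 2 * r := by omega
      rw [e] at h4
      have h5 := hS (3 * (2 * r)) x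
      have hr0 : (0 : ℝ) < r := by exact_mod_cast (by omega : 0 < r)
      have h6 : (((3 * (2 * r) : ℕ) : ℝ) + 1) ^ (θ / 4) ≤ 13 ^ (θ / 4) * (n : ℝ) ^ (θ / 4) := by
        rw [← Real.mul_rpow (by norm_num) (by linarith)]
        refine Real.rpow_le_rpow (by positivity) ?_ (by linarith)
        have : 3 * (2 * r) + 1 ≤ 13 * n := by omega
        exact_mod_cast this
      have h7 : ((2 * r : ℕ) : ℝ) * β (τ^[n] x) ≤ ((2 * r : ℕ) : ℝ) *
          ((3 * K * C * 13 ^ (θ / 4)) * (n : ℝ) ^ (θ / 4) * (c * β x)) := by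
        refine h4.trans ((mul_le_mul_of_nonneg_left (h2.trans (mul_le_mul_of_nonneg_left
          (h5.trans (mul_le_mul_of_nonneg_right (mul_le_mul_of_nonneg_right
          (mul_le_mul_of_nonneg_left h6 hC) (by positivity)) (hβ x))) hK)) hc).trans_eq ?_)
        push_cast; ring
      have h8 := le_of_mul_le_mul_left h7 (by push_cast; linarith)
      have h9 : 0 ≤ (n : ℝ) ^ (θ / 4) * (c * β x) := by positivity
      nlinarith
end

end Pool.Agent.H86.Pk
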