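import Pool.Agent.H86.PkB

namespace Pool.Agent.H86.Pk
open Finset Filter Topology MeasureTheory
open scoped ComplexOrder ENNReal NNReal

lemma ptw {ι : Type*} [Fintype ι] {p q : ℝ} (hpq : p.HolderConjugate q) (h : ι → ℝ≥0) (H : ℝ≥0)
    (D : Set (ι → ℝ≥0)) (hD : Dense D)
    (hle : ∀ τ ∈ D, ∑ i, h i * τ i ≤ (∑ i, τ i ^ q) ^ (1 / q) * H) :
    ∑ i, h i ^ p ≤ H ^ p := by
  have hq := hpq.symm.pos
  have hp := hpq.pos
  have hc : IsClosed {τ : ι → ℝ≥0 | ∑ i, h i * τ i ≤ (∑ i, τ i ^ q) ^ (1 / q) * H} := by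
    refine isClosed_le (by fun_prop) (Continuous.mul ?_ continuous_const)
    refine (NNReal.continuous_rpow_const (by positivity)).comp (continuous_finsetSum _ fun i _ => ?_)
    exact (NNReal.continuous_rpow_const hq.le).comp (continuous_apply i)
  have hall : ∀ τ : ι → ℝ≥0, ∑ i, h i * τ i ≤ (∑ i, τ i ^ q) ^ (1 / q) * H := fun τ =>
    closure_minimal (fun τ hτ => hle τ hτ) hc (hD τ)
  obtain ⟨τ, hτ, e⟩ := (NNReal.isGreatest_Lp univ h hpq).1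
  have h1 := hall τ
  simp only [Set.mem_ofPred_eq] at hτ e
  rw [e] at h1
  have h2 : (∑ i, τ i ^ q) ^ (1 / q) ≤ 1 := NNReal.rpow_le_one hτ (by positivity)
  have h3 : (∑ i, h i ^ p) ^ (1 / p) ≤ H := h1.trans (mul_le_of_le_one_left (zero_le) h2)
  have h4 := NNReal.rpow_le_rpow h3 hp.le
  rwa [← NNReal.rpow_mul, one_div_mul_cancel hp.ne', NNReal.rpow_one] at h4

variable {S : Type*} [MeasurableSpace S] {μ : Measure S} {p : ℝ≥0∞} [Fact (1 ≤ p)]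

lemma pne : p ≠ 0 := (zero_lt_one.trans_le (Fact.out : 1 ≤ p)).ne'

lemma normp (hp : p ≠ ⊤) (f : Lp ℂ p μ) : ‖f‖ ^ p.toReal = ∫ s, ‖f s‖ ^ p.toReal ∂μ := by
  have h0 : 0 ≤ ∫ s, ‖f s‖ ^ p.toReal ∂μ := integral_nonneg fun s => by positivity
  rw [Lp.norm_def, (Lp.memLp f).eLpNorm_eq_integral_rpow_norm pne hp,
    ENNReal.toReal_ofReal (by positivity), Real.rpow_inv_rpow h0 (ENNReal.toReal_pos pne hp).ne']

lemma intp (hp : p ≠ ⊤) (f : Lp ℂ p μ) : Integrable (fun s => ‖f s‖ ^ p.toReal) μ :=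
  (integrable_norm_rpow_iff (Lp.aestronglyMeasurable f) pne hp).2 (Lp.memLp f)

lemma le_iff {ι : Type*} [Fintype ι] (u : ι → Lp ℂ p μ) (hu : ∀ i, 0 ≤ u i) (U : Lp ℂ p μ)
    (hU : 0 ≤ U) (τ : ι → ℝ) (c : ℝ) :
    (∑ i, (τ i : ℂ) • u i ≤ (c : ℂ) • U) ↔ ∀ᵐ s ∂μ, ∑ i, ‖u i s‖ * τ i ≤ c * ‖U s‖ := by
  rw [← Lp.coeFn_le]
  have h1 : ∀ᵐ s ∂μ, ∀ i, 0 ≤ u i s := ae_all_iff.2 fun i => (Lp.coeFn_nonneg _).2 (hu i)
  have h2 : ∀ᵐ s ∂μ, ∀ i, ((τ i : ℂ) • u i) s = (τ i : ℂ) * u i s :=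
    ae_all_iff.2 fun i => Lp.coeFn_smul _ _
  refine eventually_congr ?_
  filter_upwards [h1, h2, (Lp.coeFn_nonneg _).2 hU, Lp.coeFn_smul (c : ℂ) U,
    Lp.coeFn_finsetSum univ (fun i => (τ i : ℂ) • u i)] with s a1 a2 a3 a4 a5
  rw [a4, a5, ← Complex.real_le_real]
  simp only [Finset.sum_apply, a2, Pi.smul_apply, smul_eq_mul]
  push_cast
  rw [← Complex.eq_coe_norm_of_nonneg a3]
  rw [Finset.sum_congr rfl (fun i _ => by
    rw [← Complex.eq_coe_norm_of_nonneg (a1 i), mul_comm] : ∀ i ∈ univ,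
      ((‖u i s‖ : ℝ) : ℂ) * (τ i : ℂ) = (τ i : ℂ) * u i s)]

lemma op_mono (A : Lp ℂ p μ →L[ℂ] Lp ℂ p μ) (hA : ∀ f, 0 ≤ f → 0 ≤ A f) {f g : Lp ℂ p μ}
    (h : f ≤ g) : A f ≤ A g := by
  have := hA (g - f) (sub_nonneg.2 h)
  rwa [map_sub, sub_nonneg] at this

lemma vec (hp1 : 1 < p) (hp : p ≠ ⊤) {ι : Type*} [Fintype ι] (A : ℕ → Lp ℂ p μ →L[ℂ] Lp ℂ p μ)
    (hA : ∀ n f, 0 ≤ f → 0 ≤ A n f) (N : Finset ℕ) (G : Lp ℂ p μ) (hG : 0 ≤ G)
    (g : ℕ → ι → Lp ℂ p μ) (hg : ∀ n i, 0 ≤ g n i)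
    (hgG : ∀ n, ∀ᵐ s ∂μ, ∑ i, ‖g n i s‖ ^ p.toReal ≤ ‖G s‖ ^ p.toReal) :
    ∑ i, ‖∑ n ∈ N, A n (g n i)‖ ^ p.toReal ≤ ‖∑ n ∈ N, A n G‖ ^ p.toReal := by
  have hp' : 1 < p.toReal := by
    rw [← ENNReal.toReal_one]; exact (ENNReal.toReal_lt_toReal ENNReal.one_ne_top hp).2 hp1
  have hpq := Real.HolderConjugate.conjExponent hp'
  set q := p.toReal.conjExponent
  obtain ⟨D, hDc, hD⟩ := TopologicalSpace.exists_countable_dense (ι → ℝ≥0)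
  set h : ι → Lp ℂ p μ := fun i => ∑ n ∈ N, A n (g n i) with hh
  set H := ∑ n ∈ N, A n G with hH
  have hh0 : ∀ i, 0 ≤ h i := fun i => sum_nonneg fun n _ => hA n _ (hg n i)
  have hH0 : 0 ≤ H := sum_nonneg fun n _ => hA n _ hG
  have key : ∀ τ : ι → ℝ≥0, ∀ᵐ s ∂μ, ∑ i, ‖h i s‖ * τ i ≤
      (∑ i, (τ i : ℝ) ^ q) ^ (1 / q) * ‖H s‖ := by
    intro τ
    rw [← le_iff h hh0 H hH0]
    have h1 : ∀ n, ∑ i, ((τ i : ℝ) : ℂ) • g n i ≤ (((∑ i, (τ i : ℝ) ^ q) ^ (1 / q) : ℝ) : ℂ) • G := by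
      intro n
      rw [le_iff (g n) (hg n) G hG]
      filter_upwards [hgG n] with s hs
      refine (Real.inner_le_Lp_mul_Lq_of_nonneg univ hpq (fun i _ => norm_nonneg _)
        (fun i _ => (τ i).2)).trans ?_
      rw [mul_comm]
      refine mul_le_mul_of_nonneg_left ?_ (Real.rpow_nonneg (sum_nonneg fun i _ =>
        Real.rpow_nonneg (τ i).2 _) _)
      have := Real.rpow_le_rpow (sum_nonneg fun i _ => by positivity) hs
        (by positivity : 0 ≤ 1 / p.toReal)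
      rwa [one_div, Real.rpow_rpow_inv (norm_nonneg _) (by positivity), ← one_div] at this
    have h2 := sum_le_sum (s := N) fun n _ => op_mono (A n) (hA n) (h1 n)
    simp only [map_sum, map_smul] at h2
    rw [sum_comm, ← smul_sum] at h2
    simpa only [hh, hH, smul_sum] using h2
  have h3 : ∀ᵐ s ∂μ, ∑ i, ‖h i s‖ ^ p.toReal ≤ ‖H s‖ ^ p.toReal := by
    filter_upwards [(ae_ball_iff hDc).2 fun τ _ => key τ] with s hs
    have := ptw hpq (fun i => ‖h i s‖₊) ‖H s‖₊ D hD (fun τ hτ => by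
      have := hs τ hτ
      rw [← NNReal.coe_le_coe]; push_cast; exact this)
    rw [← NNReal.coe_le_coe] at this; push_cast at this; exact this
  simp only [normp hp]
  rw [← integral_finsetSum _ fun i _ => intp hp _]
  exact integral_mono_ae (integrable_finsetSum _ fun i _ => intp hp _) (intp hp _) h3

lemma exG (hp : p ≠ ⊤) (J : Finset ℕ) (f : ℕ → Lp ℂ p μ) :
    ∃ G : Lp ℂ p μ, 0 ≤ G ∧ (∀ᵐ s ∂μ, ‖G s‖ ^ p.toReal = ∑ j ∈ J, ‖f j s‖ ^ p.toReal) ∧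
      ‖G‖ ^ p.toReal = ∑ j ∈ J, ‖f j‖ ^ p.toReal := by
  have hp0 : 0 < p.toReal := ENNReal.toReal_pos pne hp
  set G0 : S → ℂ := fun s => (((∑ j ∈ J, ‖f j s‖ ^ p.toReal) ^ p.toReal⁻¹ : ℝ) : ℂ) with hG0
  have hI : Integrable (fun s => ∑ j ∈ J, ‖f j s‖ ^ p.toReal) μ :=
    integrable_finsetSum _ fun i _ => intp hp _
  have e : ∀ s, ‖G0 s‖ ^ p.toReal = ∑ j ∈ J, ‖f j s‖ ^ p.toReal := by
    intro s
    simp only [hG0, Complex.norm_real]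
    rw [Real.norm_of_nonneg (by positivity), Real.rpow_inv_rpow (by positivity) hp0.ne']
  have hm : AEStronglyMeasurable G0 μ :=
    Complex.continuous_ofReal.comp_aestronglyMeasurable
      ((Real.continuous_rpow_const (by positivity)).comp_aestronglyMeasurable hI.1)
  have hL : MemLp G0 p μ := by
    rw [← integrable_norm_rpow_iff hm pne hp]
    simpa only [e] using hI
  have h1 : ∀ᵐ s ∂μ, ‖hL.toLp G0 s‖ ^ p.toReal = ∑ j ∈ J, ‖f j s‖ ^ p.toReal := by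
    filter_upwards [hL.coeFn_toLp] with s hs
    rw [hs, e]
  refine ⟨hL.toLp G0, ?_, h1, ?_⟩
  · rw [← Lp.coeFn_nonneg]
    filter_upwards [hL.coeFn_toLp] with s hs
    rw [hs]
    exact Complex.zero_le_real.2 (by positivity)
  · simp only [normp hp]
    rw [integral_congr_ae h1, integral_finsetSum _ fun i _ => intp hp _]

end Pool.Agent.H86.Pk
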