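import Pool.Agent.H86.PkC

namespace Pool.Agent.H86.Pk
open Finset Filter Topology MeasureTheory
open scoped ComplexOrder ENNReal NNReal

lemma nb_sum {A : Type*} [NormedRing A] [NormedAlgebra ℂ A] [CompleteSpace A] (T : A) (D : ℕ)
    (hD : ‖T‖ ≤ D) (k : ℕ) :
    HasSum (fun n => ((wt (1 / ((D : ℝ) + 1)) k n : ℝ) : ℂ) • T ^ n)
      ((D : ℂ) ^ (k + 1) • resolvent T ((D : ℂ) + 1) ^ (k + 1)) := by
  have hl : ((D : ℂ) + 1) ≠ 0 := by exact_mod_cast Nat.succ_ne_zero D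
  set r : A := ((D : ℂ) + 1)⁻¹ • T with hr
  have hn : ‖r‖ < 1 := by
    have e : ‖(D : ℂ) + 1‖ = (D : ℝ) + 1 := by exact_mod_cast Complex.norm_natCast (D + 1)
    rw [hr, norm_smul, norm_inv, e, inv_mul_lt_iff₀ (by positivity)]
    linarith
  have hu : IsUnit (1 - r) := isUnit_one_sub_of_norm_lt_one hn
  have e1 : algebraMap ℂ A ((D : ℂ) + 1) - T = ((D : ℂ) + 1) • (1 - r) := by
    rw [hr, smul_sub, smul_smul, mul_inv_cancel₀ hl, one_smul, Algebra.algebraMap_eq_smul_one]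
  have e2 : resolvent T ((D : ℂ) + 1) = ((D : ℂ) + 1)⁻¹ • Ring.inverse (1 - r) := by
    let u : Aˣ := ⟨((D : ℂ) + 1) • (1 - r), ((D : ℂ) + 1)⁻¹ • Ring.inverse (1 - r), by
      rw [smul_mul_smul_comm, mul_inv_cancel₀ hl, Ring.mul_inverse_cancel _ hu, one_smul], by
      rw [smul_mul_smul_comm, inv_mul_cancel₀ hl, Ring.inverse_mul_cancel _ hu, one_smul]⟩
    unfold resolvent
    rw [e1]
    exact Ring.inverse_unit u
  have h := (hasSum_choose_mul_geometric_of_norm_lt_one' k hn).const_smul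
    (((D : ℂ) * ((D : ℂ) + 1)⁻¹) ^ (k + 1))
  have e3 : (D : ℂ) ^ (k + 1) • resolvent T ((D : ℂ) + 1) ^ (k + 1) =
      ((D : ℂ) * ((D : ℂ) + 1)⁻¹) ^ (k + 1) • Ring.inverse (1 - r) ^ (k + 1) := by
    rw [e2, smul_pow, smul_smul, mul_pow]
  have e4 : (fun n => ((wt (1 / ((D : ℝ) + 1)) k n : ℝ) : ℂ) • T ^ n) =
      fun n => ((D : ℂ) * ((D : ℂ) + 1)⁻¹) ^ (k + 1) • ((((n + k).choose k : ℕ) : A) * r ^ n) := by
    funext n
    rw [← nsmul_eq_mul ((n + k).choose k), ← Nat.cast_smul_eq_nsmul ℂ ((n + k).choose k), hr,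
      smul_pow, smul_smul, smul_smul]
    congr 1
    unfold wt
    push_cast
    have : (1 - 1 / ((D : ℂ) + 1)) = D * ((D : ℂ) + 1)⁻¹ := by field_simp; ring
    rw [this, one_div]; ring
  rw [e3, e4]; exact h

variable {S : Type*} [MeasurableSpace S] {μ : Measure S} {p : ℝ≥0∞} [Fact (1 ≤ p)]

lemma norm_mono' {a b : Lp ℂ p μ} (ha : 0 ≤ a) (hab : a ≤ b) : ‖a‖ ≤ ‖b‖ := by
  refine Lp.norm_le_norm_of_ae_le ?_
  filter_upwards [(Lp.coeFn_nonneg _).2 ha, (Lp.coeFn_le _ _).2 hab] with s h1 h2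
  have h1' : (0 : ℂ) ≤ a s := h1
  rw [← Complex.real_le_real, ← Complex.eq_coe_norm_of_nonneg h1',
    ← Complex.eq_coe_norm_of_nonneg (h1'.trans h2)]
  exact h2

lemma rsmul_nonneg {c : ℝ} (hc : 0 ≤ c) {a : Lp ℂ p μ} (ha : 0 ≤ a) : 0 ≤ (c : ℂ) • a := by
  rw [← Lp.coeFn_nonneg] at *
  filter_upwards [ha, Lp.coeFn_smul (c : ℂ) a] with s h1 h2
  rw [h2]
  exact mul_nonneg (Complex.zero_le_real.2 hc) h1

lemma pow_pos' (T : Lp ℂ p μ →L[ℂ] Lp ℂ p μ) (hT : ∀ f, 0 ≤ f → 0 ≤ T f) (n : ℕ) :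
    ∀ f, 0 ≤ f → 0 ≤ (T ^ n) f := by
  induction n with
  | zero => intro f hf; simpa using hf
  | succ n ih => intro f hf; rw [pow_succ]; exact ih _ (hT f hf)

lemma window (hp1 : 1 < p) (hp : p ≠ ⊤) (T : Lp ℂ p μ →L[ℂ] Lp ℂ p μ) (hT : ∀ f, 0 ≤ f → 0 ≤ T f)
    (M : ℝ) (hM : ∀ z : ℂ, 1 < ‖z‖ → ∀ k : ℕ, 1 ≤ k → ‖resolvent T z ^ k‖ ≤ M / (‖z‖ - 1) ^ k)
    (x : Lp ℂ p μ) (hx : 0 ≤ x) (t R : ℕ) (ht : 1 ≤ t) (hR : 4 * t ≤ R ^ 2) :
    ∑ i ∈ Ico (t + R) (t + 2 * R), ‖(T ^ i) x‖ ^ p.toReal ≤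
      (2 * |M|) ^ p.toReal * ∑ j ∈ range (3 * R), ‖(T ^ j) x‖ ^ p.toReal := by
  have hp0 : 0 < p.toReal := ENNReal.toReal_pos pne hp
  obtain ⟨D, hD1, hD⟩ : ∃ D : ℕ, 1 ≤ D ∧ ‖T‖ ≤ D :=
    ⟨⌈‖T‖⌉₊ + 1, by omega, by push_cast; linarith [Nat.le_ceil ‖T‖]⟩
  obtain ⟨k, hk⟩ : ∃ k, k + 1 = D * t := ⟨D * t - 1, by
    have : 1 ≤ D * t := Nat.mul_pos hD1 ht
    omega⟩
  have hD' : (1 : ℝ) ≤ D := by exact_mod_cast hD1
  set w := wt (1 / ((D : ℝ) + 1)) k with hw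
  have hw0 : ∀ n, 0 ≤ w n := fun n =>
    wt_nonneg (by positivity) (by rw [div_lt_one (by linarith)]; linarith) k n
  set B := (D : ℂ) ^ (k + 1) • resolvent T ((D : ℂ) + 1) ^ (k + 1) with hB
  have hBn : ‖B‖ ≤ |M| := by
    have e : ‖(D : ℂ) + 1‖ = (D : ℝ) + 1 := by exact_mod_cast Complex.norm_natCast (D + 1)
    have := hM ((D : ℂ) + 1) (by rw [e]; linarith) (k + 1) (by omega)
    rw [e, add_sub_cancel_right, le_div_iff₀ (by positivity)] at this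
    rw [hB, norm_smul, norm_pow, Complex.norm_natCast, mul_comm]
    exact this.trans (le_abs_self M)
  have hs := nb_sum T D hD k
  rw [← hw, ← hB] at hs
  obtain ⟨G, hG, hG1, hG2⟩ := exG hp (range (3 * R)) (fun j => (T ^ j) x)
  set A : ℕ → Lp ℂ p μ →L[ℂ] Lp ℂ p μ := fun n => ((w n : ℝ) : ℂ) • T ^ n with hA
  have hA0 : ∀ n f, 0 ≤ f → 0 ≤ A n f := fun n f hf => rsmul_nonneg (hw0 n) (pow_pos' T hT n f hf)
  set I := Ico (t + R) (t + 2 * R) with hI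
  let g : ℕ → I → Lp ℂ p μ := fun n i => if n ≤ i.1 ∧ i.1 - n < 3 * R then (T ^ (i.1 - n)) x else 0
  have hg : ∀ n i, 0 ≤ g n i := fun n i => by
    simp only [g]; split_ifs
    · exact pow_pos' T hT _ _ hx
    · exact le_rfl
  have hgG : ∀ n, ∀ᵐ s ∂μ, ∑ i, ‖g n i s‖ ^ p.toReal ≤ ‖G s‖ ^ p.toReal := by
    intro n
    filter_upwards [hG1, Lp.coeFn_zero ℂ p μ] with s h1 h2
    rw [h1]
    have e : ∀ i : I, ‖g n i s‖ ^ p.toReal = (fun i : ℕ => if n ≤ i ∧ i - n < 3 * R then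
        ‖(T ^ (i - n)) x s‖ ^ p.toReal else 0) i.1 := by
      intro i
      simp only [g]; split_ifs
      · rfl
      · rw [h2]; simp [hp0.ne']
    rw [Finset.sum_congr rfl fun i _ => e i, Finset.sum_coe_sort I (fun i : ℕ =>
      if n ≤ i ∧ i - n < 3 * R then ‖(T ^ (i - n)) x s‖ ^ p.toReal else 0), ← sum_filter,
      ← sum_image (g := fun i => i - n) (f := fun j => ‖(T ^ j) x s‖ ^ p.toReal)]
    · refine sum_le_sum_of_subset_of_nonneg (fun j hj => ?_) (fun _ _ _ => by positivity)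
      obtain ⟨i, hi, rfl⟩ := mem_image.1 hj
      exact mem_range.2 (mem_filter.1 hi).2.2
    · intro a ha b hb hab
      have h1 := (mem_filter.1 ha).2.1
      have h2 := (mem_filter.1 hb).2.1
      simp only at hab
      omega
  have h1 := vec hp1 hp A hA0 (range (t + 2 * R)) G hG g hg hgG
  have h2 : ‖∑ n ∈ range (t + 2 * R), A n G‖ ≤ |M| * ‖G‖ := by
    have hsG : HasSum (fun n => A n G) (B G) :=
      (ContinuousLinearMap.apply ℂ (Lp ℂ p μ) G).hasSum hs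
    refine (norm_mono' (sum_nonneg fun n _ => hA0 n G hG)
      (sum_le_hasSum _ (fun n _ => hA0 n G hG) hsG)).trans ?_
    exact (B.le_opNorm G).trans (mul_le_mul_of_nonneg_right hBn (norm_nonneg _))
  have h3 : ∀ i : I, ‖(T ^ i.1) x‖ ≤ 2 * ‖∑ n ∈ range (t + 2 * R), A n (g n i)‖ := by
    intro i
    have hi := mem_Ico.1 i.2
    set W := (range (t + 2 * R)).filter (fun n => n ≤ i.1 ∧ i.1 - n < 3 * R) with hW
    have e : ∑ n ∈ range (t + 2 * R), A n (g n i) = ((∑ n ∈ W, w n : ℝ) : ℂ) • (T ^ i.1) x := by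
      rw [hW, sum_filter]
      rw [Complex.ofReal_sum, sum_smul]
      refine sum_congr rfl fun n _ => ?_
      simp only [g, hA]
      split_ifs with h
      · rw [ContinuousLinearMap.smul_apply, ← ContinuousLinearMap.mul_apply, ← pow_add,
          Nat.add_sub_cancel' h.1]
      · simp
    have hh := wt_half D t hD1 k hk R hR W (fun n h1 h2 => mem_filter.2
      ⟨mem_range.2 (by omega), by omega, by omega⟩)
    rw [← hw] at hh
    rw [e, norm_smul, Complex.norm_real, Real.norm_of_nonneg (by linarith)]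
    nlinarith [norm_nonneg ((T ^ i.1) x)]
  rw [← hG2, ← Finset.sum_coe_sort I (fun i => ‖(T ^ i) x‖ ^ p.toReal)]
  calc ∑ i : I, ‖(T ^ i.1) x‖ ^ p.toReal
      ≤ ∑ i : I, 2 ^ p.toReal * ‖∑ n ∈ range (t + 2 * R), A n (g n i)‖ ^ p.toReal := by
        refine sum_le_sum fun i _ => ?_
        rw [← Real.mul_rpow (by norm_num) (norm_nonneg _)]
        exact Real.rpow_le_rpow (norm_nonneg _) (h3 i) hp0.le
    _ ≤ 2 ^ p.toReal * (|M| * ‖G‖) ^ p.toReal := by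
        rw [← mul_sum]
        exact mul_le_mul_of_nonneg_left (h1.trans (Real.rpow_le_rpow (norm_nonneg _) h2 hp0.le))
          (by positivity)
    _ = _ := by
        rw [Real.mul_rpow (abs_nonneg _) (norm_nonneg _), Real.mul_rpow (by norm_num) (abs_nonneg _),
          mul_assoc]

lemma split4 (x : Lp ℂ p μ) : ∃ a b c d : Lp ℂ p μ, (0 ≤ a ∧ 0 ≤ b ∧ 0 ≤ c ∧ 0 ≤ d) ∧
    (‖a‖ ≤ ‖x‖ ∧ ‖b‖ ≤ ‖x‖ ∧ ‖c‖ ≤ ‖x‖ ∧ ‖d‖ ≤ ‖x‖) ∧
    x = a - b + Complex.I • (c - d) := by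
  have key : ∀ φ : ℂ → ℝ, Continuous φ → (∀ z, |φ z| ≤ ‖z‖) → ∃ a : Lp ℂ p μ, 0 ≤ a ∧ ‖a‖ ≤ ‖x‖ ∧
      ∀ᵐ s ∂μ, a s = ((max (φ (x s)) 0 : ℝ) : ℂ) := by
    intro φ hφ hb
    have hle : ∀ z, ‖((max (φ z) 0 : ℝ) : ℂ)‖ ≤ ‖z‖ := fun z => by
      rw [Complex.norm_real, Real.norm_of_nonneg (le_max_right _ _)]
      exact max_le ((le_abs_self _).trans (hb z)) (norm_nonneg _)
    have hc : Continuous fun z : ℂ => ((max (φ z) 0 : ℝ) : ℂ) := by fun_prop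
    have hL : MemLp (fun s => ((max (φ (x s)) 0 : ℝ) : ℂ)) p μ :=
      (Lp.memLp x).of_le (hc.comp_aestronglyMeasurable (Lp.aestronglyMeasurable x))
        (Eventually.of_forall fun s => hle _)
    refine ⟨hL.toLp _, ?_, ?_, hL.coeFn_toLp⟩
    · rw [← Lp.coeFn_nonneg]
      filter_upwards [hL.coeFn_toLp] with s hs
      rw [hs]; exact Complex.zero_le_real.2 (le_max_right _ _)
    · refine Lp.norm_le_norm_of_ae_le ?_
      filter_upwards [hL.coeFn_toLp] with s hs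
      rw [hs]; exact hle _
  obtain ⟨a, a0, a1, a2⟩ := key (fun z => z.re) (by fun_prop) Complex.abs_re_le_norm
  obtain ⟨b, b0, b1, b2⟩ := key (fun z => -z.re) (by fun_prop)
    (fun z => by rw [abs_neg]; exact Complex.abs_re_le_norm z)
  obtain ⟨c, c0, c1, c2⟩ := key (fun z => z.im) (by fun_prop) Complex.abs_im_le_norm
  obtain ⟨d, d0, d1, d2⟩ := key (fun z => -z.im) (by fun_prop)
    (fun z => by rw [abs_neg]; exact Complex.abs_im_le_norm z)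
  refine ⟨a, b, c, d, ⟨a0, b0, c0, d0⟩, ⟨a1, b1, c1, d1⟩, Lp.ext ?_⟩
  filter_upwards [a2, b2, c2, d2, Lp.coeFn_add (a - b) (Complex.I • (c - d)), Lp.coeFn_sub a b,
    Lp.coeFn_sub c d, Lp.coeFn_smul Complex.I (c - d)] with s h1 h2 h3 h4 h5 h6 h7 h8
  rw [h5, Pi.add_apply, h8, Pi.smul_apply, h6, h7, Pi.sub_apply, Pi.sub_apply, h1, h2, h3, h4,
    ← Complex.ofReal_sub, ← Complex.ofReal_sub, max_zero_sub_max_neg_zero_eq_self,
    max_zero_sub_max_neg_zero_eq_self, smul_eq_mul, mul_comm, Complex.re_add_im]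

theorem growth (hp1 : 1 < p) (hp : p ≠ ⊤) (T : Lp ℂ p μ →L[ℂ] Lp ℂ p μ) (hT : ∀ f, 0 ≤ f → 0 ≤ T f)
    (M : ℝ) (hM : ∀ z : ℂ, 1 < ‖z‖ → ∀ k : ℕ, 1 ≤ k → ‖resolvent T z ^ k‖ ≤ M / (‖z‖ - 1) ^ k)
    (θ : ℝ) (hθ : 0 < θ) : ∃ C : ℝ, ∀ n : ℕ, 1 ≤ n → ‖T ^ n‖ ≤ C * (n : ℝ) ^ θ := by
  have hp0 : 0 < p.toReal := ENNReal.toReal_pos pne hp
  let τ : {x : Lp ℂ p μ // 0 ≤ x} → {x : Lp ℂ p μ // 0 ≤ x} := fun x => ⟨T x.1, hT _ x.2⟩
  have hτ : ∀ n x, (τ^[n] x).1 = (T ^ n) x.1 := by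
    intro n
    induction n with
    | zero => intro x; simp
    | succ n ih => intro x; rw [Function.iterate_succ_apply, ih, pow_succ]; rfl
  obtain ⟨C, hC, h⟩ := abstr τ (fun x => ‖x.1‖ ^ p.toReal) (fun x => by positivity)
    (‖T‖ ^ p.toReal) (fun x => by
      rw [← Real.mul_rpow (norm_nonneg _) (norm_nonneg _)]
      exact Real.rpow_le_rpow (norm_nonneg _) (T.le_opNorm _) hp0.le)
    ((2 * |M|) ^ p.toReal) (by positivity) (fun x t R ht hR => by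
      simp only [hτ]; exact window hp1 hp T hT M hM x.1 x.2 t R ht hR) (θ * p.toReal)
    (by positivity)
  have h1 : ∀ (n : ℕ) (x : Lp ℂ p μ), 0 ≤ x →
      ‖(T ^ n) x‖ ≤ C ^ p.toReal⁻¹ * ((n : ℝ) + 1) ^ θ * ‖x‖ := by
    intro n x hx
    have := h n ⟨x, hx⟩
    simp only [hτ] at this
    rw [← Real.rpow_le_rpow_iff (norm_nonneg _) (by positivity) hp0,
      Real.mul_rpow (by positivity) (norm_nonneg _), Real.mul_rpow (by positivity) (by positivity),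
      Real.rpow_inv_rpow hC hp0.ne', ← Real.rpow_mul (by positivity)]
    exact this
  refine ⟨4 * C ^ p.toReal⁻¹ * 2 ^ θ, fun n hn => ?_⟩
  have hn' : (1 : ℝ) ≤ n := by exact_mod_cast hn
  have h2 : ((n : ℝ) + 1) ^ θ ≤ 2 ^ θ * (n : ℝ) ^ θ := by
    rw [← Real.mul_rpow (by norm_num) (by linarith)]
    exact Real.rpow_le_rpow (by positivity) (by linarith) hθ.le
  set K := C ^ p.toReal⁻¹ * ((n : ℝ) + 1) ^ θ with hK
  have hK0 : 0 ≤ K := by positivity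
  have h3 : ‖T ^ n‖ ≤ 4 * K := by
    refine ContinuousLinearMap.opNorm_le_bound _ (by positivity) fun x => ?_
    obtain ⟨a, b, c, d, ⟨a0, b0, c0, d0⟩, ⟨a1, b1, c1, d1⟩, e⟩ := split4 x
    have e' : (T ^ n) x = (T ^ n) a - (T ^ n) b + Complex.I • ((T ^ n) c - (T ^ n) d) := by
      rw [← map_sub, ← map_sub, ← map_smul, ← map_add, ← e]
    have ha := (h1 n a a0).trans (mul_le_mul_of_nonneg_left a1 hK0)
    have hb := (h1 n b b0).trans (mul_le_mul_of_nonneg_left b1 hK0)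
    have hc := (h1 n c c0).trans (mul_le_mul_of_nonneg_left c1 hK0)
    have hd := (h1 n d d0).trans (mul_le_mul_of_nonneg_left d1 hK0)
    rw [e']
    refine (norm_add_le _ _).trans ?_
    rw [norm_smul, Complex.norm_I, one_mul]
    linarith [norm_sub_le ((T ^ n) a) ((T ^ n) b), norm_sub_le ((T ^ n) c) ((T ^ n) d)]
  have h4 := mul_le_mul_of_nonneg_left h2 (by positivity : 0 ≤ C ^ p.toReal⁻¹)
  nlinarith

end Pool.Agent.H86.Pk
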