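import Pool.Agent.H86.PmDefs

set_option autoImplicit false

namespace Pool.Agent.H86.Pmc

open Set Filter
open scoped ENNReal

theorem lim_le {c : ℝ → ℂ} (hc : ContinuousOn c (Icc 0 1)) (p : ℂ) (r : ℝ) {A : Set ℝ} {t₀ : ℝ}
    (hA : A ⊆ Icc 0 1) (ht : t₀ ∈ closure A) (h : ∀ u ∈ A, dist p (c u) ≤ r) :
    dist p (c t₀) ≤ r := by
  have hK : IsClosed (Icc (0 : ℝ) 1 ∩ c ⁻¹' Metric.closedBall p r) :=
    hc.preimage_isClosed_of_isClosed isClosed_Icc Metric.isClosed_closedBall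
  have := closure_minimal (fun u hu => (⟨hA hu, by simpa [dist_comm] using h u hu⟩ :
    u ∈ Icc (0 : ℝ) 1 ∩ c ⁻¹' Metric.closedBall p r)) hK ht
  simpa [dist_comm] using this.2

theorem exists_nodes {c : ℝ → ℂ} (hc : ContinuousOn c (Icc 0 1)) (v : ℝ → ℝ) (h0 : v 0 = 0)
    (hv : ∀ a b, 0 ≤ a → a ≤ b → b ≤ 1 → dist (c a) (c b) ≤ v b - v a) :
    ∃ T : ℝ → ℝ, (∀ a, 0 ≤ a → T a ∈ Icc (0 : ℝ) 1) ∧
      (∀ a, 0 ≤ a → ∀ s ∈ Icc (0 : ℝ) 1, dist (c s) (c (T a)) ≤ |v s - a|) ∧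
      ∀ a b, 0 ≤ a → a ≤ b → dist (c (T a)) (c (T b)) ≤ b - a := by
  let S : ℝ → Set ℝ := fun a => {t | t ∈ Icc (0 : ℝ) 1 ∧ v t ≤ a}
  have hne : ∀ a, 0 ≤ a → (S a).Nonempty := fun a ha => ⟨0, ⟨le_rfl, zero_le_one⟩, by rwa [h0]⟩
  have hbd : ∀ a, BddAbove (S a) := fun a => ⟨1, fun t ht => ht.1.2⟩
  have hmono : ∀ a b, 0 ≤ a → a ≤ b → b ≤ 1 → v a ≤ v b := fun a b h1 h2 h3 => by
    linarith [hv a b h1 h2 h3, dist_nonneg (x := c a) (y := c b)]
  have hT : ∀ a, 0 ≤ a → sSup (S a) ∈ Icc (0 : ℝ) 1 := fun a ha =>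
    ⟨le_csSup (hbd a) ⟨⟨le_rfl, zero_le_one⟩, by rwa [h0]⟩, csSup_le (hne a ha) fun t ht => ht.1.2⟩
  have hgt : ∀ a u, u ∈ Icc (0 : ℝ) 1 → sSup (S a) < u → a < v u := fun a u hu h => by
    by_contra h'
    exact absurd (le_csSup (hbd a) ⟨hu, not_lt.1 h'⟩) (not_le.2 h)
  have key : ∀ a, 0 ≤ a → ∀ s ∈ Icc (0 : ℝ) 1, dist (c s) (c (sSup (S a))) ≤ |v s - a| := by
    intro a ha s hs
    rcases le_or_gt (v s) a with h | h
    · have hl : IsLUB {t | t ∈ S a ∧ s ≤ t} (sSup (S a)) := by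
        refine ⟨fun t ht => le_csSup (hbd a) ht.1, fun b hb => csSup_le (hne a ha) fun t ht => ?_⟩
        rcases le_total s t with h1 | h1
        · exact hb ⟨ht, h1⟩
        · exact h1.trans (hb ⟨⟨hs, h⟩, le_rfl⟩)
      refine lim_le hc _ _ (fun t ht => ht.1.1) (hl.mem_closure ⟨s, ⟨hs, h⟩, le_rfl⟩) ?_
      rintro u ⟨⟨hu1, hu2⟩, hu3⟩
      rw [abs_of_nonpos (by linarith)]
      linarith [hv s u hs.1 hu3 hu1.2]
    · have h1 : sSup (S a) ≤ s := csSup_le (hne a ha) fun t ht => by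
        by_contra h2
        linarith [hmono s t hs.1 (not_le.1 h2).le ht.1.2, ht.2]
      rcases h1.eq_or_lt with h2 | h2
      · rw [h2, dist_self]; exact abs_nonneg _
      · have hsub : Ioc (sSup (S a)) s ⊆ Icc 0 1 := fun u hu =>
          ⟨(hT a ha).1.trans hu.1.le, hu.2.trans hs.2⟩
        refine lim_le hc _ _ hsub (by rw [closure_Ioc h2.ne]; exact ⟨le_rfl, h1⟩) fun u hu => ?_
        rw [abs_of_pos (by linarith), dist_comm]
        linarith [hv u s (hsub hu).1 hu.2 hs.2, hgt a u (hsub hu) hu.1]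
  refine ⟨fun a => sSup (S a), hT, key, fun a b ha hab => ?_⟩
  have h1 : sSup (S a) ≤ sSup (S b) :=
    csSup_le_csSup (hbd b) (hne a ha) fun t ht => ⟨ht.1, ht.2.trans hab⟩
  rcases h1.eq_or_lt with h2 | h2
  · simp only [h2, dist_self]; linarith
  · have hsub : Ioo (sSup (S a)) (sSup (S b)) ⊆ Icc 0 1 := fun u hu =>
      ⟨(hT a ha).1.trans hu.1.le, hu.2.le.trans (hT b (ha.trans hab)).2⟩
    rw [dist_comm]
    refine lim_le hc _ _ hsub (by rw [closure_Ioo h2.ne]; exact ⟨le_rfl, h1⟩) fun u hu => ?_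
    obtain ⟨t, ht, hut⟩ := exists_lt_of_lt_csSup (hne b (ha.trans hab)) hu.2
    have h3 := hmono u t (hsub hu).1 hut.le ht.1.2
    have h4 := key b (ha.trans hab) u (hsub hu)
    rw [abs_of_nonpos (by linarith [ht.2])] at h4
    rw [dist_comm]
    linarith [hgt a u (hsub hu) hu.1]

noncomputable def ramp (u : ℝ) : ℝ := max 0 (min u 1)

noncomputable def G (q : ℕ → ℝ) (m : ℕ) (u : ℝ) : ℝ :=
  q 0 + ∑ i ∈ Finset.range m, (q (i + 1) - q i) * ramp (u - i)

theorem G_cont (q : ℕ → ℝ) (m : ℕ) : Continuous (G q m) := by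
  unfold G ramp
  fun_prop

theorem G_low (q : ℕ → ℝ) {u : ℝ} : ∀ m : ℕ, (m : ℝ) ≤ u → G q m u = q m := by
  intro m
  induction m with
  | zero => intro _; simp [G]
  | succ m ih =>
    intro h
    push_cast at h
    have h1 := ih (by linarith)
    have h2 : ramp (u - m) = 1 := by
      rw [ramp, min_eq_right (by linarith), max_eq_right zero_le_one]
    rw [G, Finset.sum_range_succ, ← add_assoc, h2]
    rw [G] at h1
    rw [h1]; ring

theorem G_mid (q : ℕ → ℝ) {u : ℝ} {j : ℕ} (h1 : (j : ℝ) ≤ u) (h2 : u ≤ j + 1) :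
    ∀ m : ℕ, j + 1 ≤ m → G q m u = q j + (u - j) * (q (j + 1) - q j) := by
  intro m hm
  induction m, hm using Nat.le_induction with
  | base =>
    have h3 := G_low q j h1
    have h4 : ramp (u - j) = u - j := by
      rw [ramp, min_eq_left (by linarith), max_eq_right (by linarith)]
    rw [G, Finset.sum_range_succ, ← add_assoc, h4]
    rw [G] at h3
    rw [h3]; ring
  | succ m hm ih =>
    have h3 : (j : ℝ) + 1 ≤ m := by exact_mod_cast hm
    have h4 : ramp (u - m) = 0 := by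
      rw [ramp, min_eq_left (by linarith), max_eq_left (by linarith)]
    rw [G, Finset.sum_range_succ, ← add_assoc, h4]
    rw [G] at ih
    rw [ih]; ring

theorem G_node (q : ℕ → ℝ) {i m : ℕ} (h : i ≤ m) : G q m i = q i := by
  rcases h.eq_or_lt with h | h
  · subst h; exact G_low q i le_rfl
  · rw [G_mid q le_rfl (by linarith) m h]; ring

theorem G_inM (q : ℕ → ℝ) {n : ℕ} (hn : 1 ≤ n) : InM n (fun s => G q n (n * s)) := by
  have hn' : (0 : ℝ) < n := by exact_mod_cast hn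
  refine ⟨((G_cont q n).comp (by fun_prop)).continuousOn, n, fun i => (i : ℝ) / n, le_rfl, by simp,
    div_self hn'.ne', fun i _ => by push_cast; gcongr; linarith, fun i hi => ?_⟩
  have hf : ∀ s ∈ Icc ((i : ℝ) / n) (((i + 1 : ℕ) : ℝ) / n),
      G q n (n * s) = q i + (n * s - i) * (q (i + 1) - q i) := fun s hs => by
    have h1 := (div_le_iff₀ hn').1 hs.1
    have h2 := (le_div_iff₀ hn').1 hs.2
    push_cast at h2
    exact G_mid q (by linarith) (by linarith) n hi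
  rcases le_total (q i) (q (i + 1)) with h | h
  · left
    intro a ha b hb hab
    simp only [hf a ha, hf b hb]
    nlinarith [mul_nonneg (mul_nonneg hn'.le (sub_nonneg.2 hab)) (sub_nonneg.2 h)]
  · right
    intro a ha b hb hab
    simp only [hf a ha, hf b hb]
    nlinarith [mul_nonneg (mul_nonneg hn'.le (sub_nonneg.2 hab)) (sub_nonneg.2 h)]

theorem box_le {a b c d r : ℝ} (h1 : |a - c| ≤ r) (h2 : |b - d| ≤ r) :
    edist (a, b) (c, d) ≤ ENNReal.ofReal r := by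
  rw [edist_dist]
  apply ENNReal.ofReal_le_ofReal
  rw [Prod.dist_eq, Real.dist_eq, Real.dist_eq]
  exact max_le h1 h2

theorem re_le (z w : ℂ) : |z.re - w.re| ≤ dist z w := by
  rw [dist_eq_norm, ← Complex.sub_re]; exact Complex.abs_re_le_norm _

theorem im_le (z w : ℂ) : |z.im - w.im| ≤ dist z w := by
  rw [dist_eq_norm, ← Complex.sub_im]; exact Complex.abs_im_le_norm _

theorem seg_near {a b θ r : ℝ} (h : |a - b| ≤ r) (h0 : 0 ≤ θ) (h1 : θ ≤ 1 / 2) :
    |a + θ * (b - a) - a| ≤ r / 2 := by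
  have : a + θ * (b - a) - a = θ * (b - a) := by ring
  rw [this, abs_mul, abs_of_nonneg h0, abs_sub_comm]
  nlinarith [abs_nonneg (a - b)]

theorem seg_near' {a b θ r : ℝ} (h : |a - b| ≤ r) (h0 : θ ≤ 1) (h1 : 1 / 2 ≤ θ) :
    |a + θ * (b - a) - b| ≤ r / 2 := by
  have : a + θ * (b - a) - b = (1 - θ) * (a - b) := by ring
  rw [this, abs_mul, abs_of_nonneg (by linarith)]
  nlinarith [abs_nonneg (a - b)]

theorem upper {n : ℕ} (hn : 1 ≤ n) : worstErr n ≤ ENNReal.ofReal (1 / (2 * n)) := by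
  have hn' : (0 : ℝ) < n := by exact_mod_cast hn
  refine iSup₂_le ?_
  rintro F ⟨x, y, hx, hy, hlen, rfl⟩
  let c : ℝ → ℂ := fun t => ⟨x t, y t⟩
  have hc : ContinuousOn c (Icc 0 1) := by
    have : c = fun t => (x t : ℂ) + (y t : ℂ) * Complex.I := by
      funext t; apply Complex.ext <;> simp [c]
    rw [this]
    exact (Complex.continuous_ofReal.comp_continuousOn hx).add
      ((Complex.continuous_ofReal.comp_continuousOn hy).mul continuousOn_const)
  have hfin : ∀ a b, 0 ≤ a → b ≤ 1 → eVariationOn c (Icc a b) ≤ 1 := fun a b ha hb =>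
    (eVariationOn.mono c (Icc_subset_Icc ha hb)).trans hlen
  let v : ℝ → ℝ := fun t => (eVariationOn c (Icc 0 t)).toReal
  have hv0 : v 0 = 0 := by
    simp only [v]
    rw [eVariationOn.subsingleton c (by simp)]; rfl
  have hv : ∀ a b, 0 ≤ a → a ≤ b → b ≤ 1 → dist (c a) (c b) ≤ v b - v a := by
    intro a b ha hab hb
    have h1 := eVariationOn.Icc_add_Icc c (s := univ) ha hab (mem_univ a)
    simp only [univ_inter] at h1
    have f1 := ne_top_of_le_ne_top ENNReal.one_ne_top (hfin 0 a le_rfl (hab.trans hb))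
    have f2 := ne_top_of_le_ne_top ENNReal.one_ne_top (hfin a b ha hb)
    have h2 : v b = v a + (eVariationOn c (Icc a b)).toReal := by
      simp only [v]; rw [← h1, ENNReal.toReal_add f1 f2]
    have h3 := BoundedVariationOn.dist_le (f := c) (s := Icc a b) f2 ⟨le_rfl, hab⟩ ⟨hab, le_rfl⟩
    linarith
  have hv1 : ∀ s, s ≤ 1 → v s ≤ 1 := fun s hs =>
    ENNReal.toReal_le_of_le_ofReal zero_le_one (by simpa using hfin 0 s le_rfl hs)
  obtain ⟨T, hT, hT1, hT2⟩ := exists_nodes hc v hv0 hv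
  let p : ℕ → ℂ := fun i => c (T (i / n))
  have hp : ∀ i : ℕ, dist (p i) (p (i + 1)) ≤ 1 / n := fun i => by
    have := hT2 (i / n) (((i + 1 : ℕ) : ℝ) / n) (by positivity) (by push_cast; gcongr; linarith)
    refine this.trans (le_of_eq ?_)
    push_cast; ring
  have hpF : ∀ i : ℕ, ((p i).re, (p i).im) ∈ trace x y := fun i =>
    ⟨T (i / n), hT _ (by positivity), rfl⟩
  refine iInf₂_le_of_le _ ⟨_, _, G_inM (fun i => (p i).re) hn, G_inM (fun i => (p i).im) hn, rfl⟩ ?_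
  apply Metric.hausdorffEDist_le_of_mem_edist
  · rintro _ ⟨s, hs, rfl⟩
    have hvs : 0 ≤ v s := ENNReal.toReal_nonneg
    let i := ⌊n * v s + 1 / 2⌋₊
    have hi1 : (i : ℝ) ≤ n * v s + 1 / 2 := Nat.floor_le (by positivity)
    have hi2 : n * v s + 1 / 2 < i + 1 := Nat.lt_floor_add_one _
    have hi3 : i ≤ n := by
      have h1 : (n : ℝ) * v s ≤ n := by nlinarith [hv1 s hs.2]
      have : (i : ℝ) < n + 1 := by linarith
      exact_mod_cast Nat.lt_succ_iff.1 (by exact_mod_cast this)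
    have hi4 : (i : ℝ) ≤ n := by exact_mod_cast hi3
    refine ⟨_, ⟨i / n, ⟨by positivity, (div_le_one hn').2 hi4⟩, rfl⟩, ?_⟩
    have h1 : (n : ℝ) * (i / n) = i := by field_simp
    simp only [h1, G_node _ hi3]
    have h2 : dist (c s) (p i) ≤ 1 / (2 * n) := by
      refine (hT1 (i / n) (by positivity) s hs).trans ?_
      have : v s - i / n = (n * v s - i) / n := by field_simp
      rw [this, abs_div, abs_of_pos hn', div_le_div_iff₀ hn' (by positivity)]
      have : |n * v s - i| ≤ 1 / 2 := abs_le.2 ⟨by linarith, by linarith⟩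
      nlinarith
    exact box_le ((re_le (c s) (p i)).trans h2) ((im_le (c s) (p i)).trans h2)
  · rintro _ ⟨s, hs, rfl⟩
    obtain ⟨j, hj, hj1, hj2⟩ : ∃ j : ℕ, j + 1 ≤ n ∧ (j : ℝ) ≤ n * s ∧ n * s ≤ j + 1 := by
      rcases hs.2.eq_or_lt with h | h
      · refine ⟨n - 1, by omega, ?_, ?_⟩ <;> rw [h, Nat.cast_sub hn] <;> simp
      · have h0 : 0 ≤ (n : ℝ) * s := mul_nonneg hn'.le hs.1
        refine ⟨⌊n * s⌋₊, ?_, Nat.floor_le h0, (Nat.lt_floor_add_one _).le⟩
        have : ⌊(n : ℝ) * s⌋₊ < n := (Nat.floor_lt h0).2 (by nlinarith)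
        omega
    simp only [G_mid _ hj1 hj2 n hj]
    have e : (1 : ℝ) / (2 * n) = 1 / n / 2 := by field_simp
    have r1 := (re_le _ _).trans (hp j)
    have r2 := (im_le _ _).trans (hp j)
    rcases le_total (n * s - j) (1 / 2) with h | h
    · exact ⟨_, hpF j, e ▸ box_le (seg_near r1 (by linarith) h) (seg_near r2 (by linarith) h)⟩
    · exact ⟨_, hpF (j + 1),
        e ▸ box_le (seg_near' r1 (by linarith) h) (seg_near' r2 (by linarith) h)⟩

end Pool.Agent.H86.Pmc
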