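import Pool.Agent.H86.PmA

set_option autoImplicit false

namespace Pool.Agent.H86.Pmc

open Set Filter
open scoped ENNReal

theorem exists_piece (t : ℕ → ℝ) (g : ℝ → ℝ) : ∀ k : ℕ, ∀ a b, t 0 ≤ a → a < b → b ≤ t k →
    g a < g b → ∃ J a' b', J < k ∧ t J ≤ a' ∧ a' < b' ∧ b' ≤ t (J + 1) ∧ a ≤ a' ∧ b' ≤ b ∧
      g a' < g b' := by
  intro k
  induction k with
  | zero => intro a b h1 h2 h3 _; linarith
  | succ k ih =>
    intro a b h1 h2 h3 h4
    rcases le_or_gt b (t k) with h | h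
    · obtain ⟨J, a', b', hJ, h'⟩ := ih a b h1 h2 h h4
      exact ⟨J, a', b', by omega, h'⟩
    · rcases le_or_gt (t k) a with h' | h'
      · exact ⟨k, a, b, by omega, h', h2, h3, le_rfl, le_rfl, h4⟩
      · rcases lt_or_ge (g a) (g (t k)) with h5 | h5
        · obtain ⟨J, a', b', hJ, q1, q2, q3, q4, q5, q6⟩ := ih a (t k) h1 h' le_rfl h5
          exact ⟨J, a', b', by omega, q1, q2, q3, q4, q5.trans h.le, q6⟩
        · exact ⟨k, t k, b, by omega, le_rfl, h, h3, h'.le, le_rfl, by linarith⟩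

theorem alt_le {n : ℕ} {ψ : ℝ → ℝ} (hψ : InM n ψ) (M : ℕ) (a b : ℕ → ℝ)
    (ha : ∀ i ≤ M, a i ∈ Icc (0 : ℝ) 1) (h1 : ∀ i < M, a i < b i) (h2 : ∀ i < M, b i < a (i + 1))
    (h3 : ∀ i < M, ψ (b i) < ψ (a i)) (h4 : ∀ i < M, ψ (b i) < ψ (a (i + 1))) : 2 * M ≤ n := by
  obtain ⟨-, k, t, hk, t0, t1, ht, hm⟩ := hψ
  have hmono : ∀ i j, i ≤ j → j ≤ k → t i ≤ t j := by
    intro i j hij
    induction j, hij using Nat.le_induction with
    | base => intro _; exact le_rfl
    | succ j hij ih => intro h; exact (ih (by omega)).trans (ht j (by omega)).le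
  have hord : ∀ J J' (p q p' q' : ℝ), J < k → J' < k → t J ≤ p → p < q → q ≤ t (J + 1) →
      t J' ≤ p' → p' < q' → q' ≤ t (J' + 1) → q ≤ p' →
      (ψ p < ψ q ∧ ψ q' < ψ p' ∨ ψ q < ψ p ∧ ψ p' < ψ q') → J < J' := by
    intro J J' p q p' q' hJ hJ' e1 e2 e3 e4 e5 e6 e7 e8
    rcases lt_trichotomy J J' with h | h | h
    · exact h
    · subst h
      have m1 : p ∈ Icc (t J) (t (J + 1)) := ⟨e1, by linarith⟩
      have m2 : q ∈ Icc (t J) (t (J + 1)) := ⟨by linarith, e3⟩
      have m3 : p' ∈ Icc (t J) (t (J + 1)) := ⟨e4, by linarith⟩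
      have m4 : q' ∈ Icc (t J) (t (J + 1)) := ⟨by linarith, e6⟩
      exfalso
      rcases hm J hJ with h | h
      · have := h m1 m2 e2.le
        have := h m3 m4 e5.le
        rcases e8 with e | e <;> linarith [e.1, e.2]
      · have := h m1 m2 e2.le
        have := h m3 m4 e5.le
        rcases e8 with e | e <;> linarith [e.1, e.2]
    · have := hmono (J' + 1) J h hJ.le
      linarith
  have main : ∀ i ≤ M, i = 0 ∨ ∃ J p q, J < k ∧ t J ≤ p ∧ p < q ∧ q ≤ t (J + 1) ∧ q ≤ a i ∧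
      ψ p < ψ q ∧ 2 * i ≤ J + 1 := by
    intro i
    induction i with
    | zero => intro _; exact Or.inl rfl
    | succ i ih =>
      intro hi
      right
      have ai := ha i (by omega)
      have ai' := ha (i + 1) hi
      have b1 := h1 i hi
      have b2 := h2 i hi
      obtain ⟨J1, p1, q1, c1, c2, c3, c4, c5, c6, c7⟩ := exists_piece t (fun x => -ψ x) k (a i) (b i)
        (by rw [t0]; exact ai.1) b1 (by rw [t1]; linarith [ai'.2]) (by linarith [h3 i hi])
      obtain ⟨J2, p2, q2, d1, d2, d3, d4, d5, d6, d7⟩ := exists_piece t ψ k (b i) (a (i + 1))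
        (by rw [t0]; linarith [ai.1]) b2 (by rw [t1]; exact ai'.2) (h4 i hi)
      have c8 : ψ q1 < ψ p1 := by linarith
      have o1 := hord J1 J2 p1 q1 p2 q2 c1 d1 c2 c3 c4 d2 d3 d4 (by linarith) (Or.inr ⟨c8, d7⟩)
      refine ⟨J2, p2, q2, d1, d2, d3, d4, d6, d7, ?_⟩
      rcases ih (by omega) with h | ⟨J, p, q, e1, e2, e3, e4, e5, e6, e7⟩
      · omega
      · have o2 := hord J J1 p q p1 q1 e1 c1 e2 e3 e4 c2 c3 c4 (by linarith) (Or.inl ⟨e6, c8⟩)
        omega
  rcases main M le_rfl with h | ⟨J, p, q, e1, -, -, -, -, -, e7⟩ <;> omega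

noncomputable def cl (a b t : ℝ) : ℝ := max a (min t b) - a

theorem cl_low {a b t : ℝ} (h : t ≤ a) : cl a b t = 0 := by
  rw [cl, max_eq_left ((min_le_left _ _).trans h), sub_self]

theorem cl_high {a b t : ℝ} (hab : a ≤ b) (h : b ≤ t) : cl a b t = b - a := by
  rw [cl, min_eq_right h, max_eq_right hab]

theorem cl_mono {a b s t : ℝ} (h : s ≤ t) : cl a b s ≤ cl a b t := by
  unfold cl; gcongr

theorem cl_add {a b c t : ℝ} (hab : a ≤ b) (hbc : b ≤ c) : cl a b t + cl b c t = cl a c t := by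
  simp only [cl, max_def, min_def]
  split_ifs <;> linarith

theorem cl_lip {a b s t : ℝ} (h : s ≤ t) : cl a b t - cl a b s ≤ t - s := by
  simp only [cl, max_def, min_def]
  split_ifs <;> linarith

noncomputable def cX (h : ℝ) (m : ℕ) (t : ℝ) : ℝ :=
  ∑ j ∈ Finset.range m, cl ((3 * j + 2) * h) ((3 * j + 3) * h) t

noncomputable def cY (h : ℝ) (m : ℕ) (t : ℝ) : ℝ :=
  ∑ j ∈ Finset.range m, (cl ((3 * j) * h) ((3 * j + 1) * h) t - cl ((3 * j + 1) * h) ((3 * j + 2) * h) t)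

theorem cX_succ (h : ℝ) (m : ℕ) (t : ℝ) :
    cX h (m + 1) t = cX h m t + cl ((3 * m + 2) * h) ((3 * m + 3) * h) t :=
  Finset.sum_range_succ _ _

theorem cY_succ (h : ℝ) (m : ℕ) (t : ℝ) : cY h (m + 1) t = cY h m t +
    (cl ((3 * m) * h) ((3 * m + 1) * h) t - cl ((3 * m + 1) * h) ((3 * m + 2) * h) t) :=
  Finset.sum_range_succ _ _

theorem comb_lip {h : ℝ} (hh : 0 < h) {s t : ℝ} (hst : s ≤ t) (m : ℕ) :
    |cX h m t - cX h m s| + |cY h m t - cY h m s| ≤ cl 0 ((3 * m) * h) t - cl 0 ((3 * m) * h) s := by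
  induction m with
  | zero => simp [cX, cY, cl]
  | succ m ih =>
    have m0 : (0 : ℝ) ≤ m := Nat.cast_nonneg m
    have e : ∀ u, cl 0 ((3 * ((m + 1 : ℕ) : ℝ)) * h) u = cl 0 ((3 * m) * h) u +
        cl ((3 * m) * h) ((3 * m + 1) * h) u + cl ((3 * m + 1) * h) ((3 * m + 2) * h) u +
        cl ((3 * m + 2) * h) ((3 * m + 3) * h) u := fun u => by
      rw [cl_add (by positivity) (by nlinarith), cl_add (by positivity) (by nlinarith),
        cl_add (by positivity) (by nlinarith)]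
      congr 1; push_cast; ring
    rw [e, e, cX_succ, cX_succ, cY_succ, cY_succ]
    have i1 := cl_mono (a := (3 * m) * h) (b := (3 * m + 1) * h) hst
    have i2 := cl_mono (a := (3 * m + 1) * h) (b := (3 * m + 2) * h) hst
    have i3 := cl_mono (a := (3 * m + 2) * h) (b := (3 * m + 3) * h) hst
    have j1 := le_abs_self (cX h m t - cX h m s)
    have j2 := neg_abs_le (cX h m t - cX h m s)
    have j3 := le_abs_self (cY h m t - cY h m s)
    have j4 := neg_abs_le (cY h m t - cY h m s)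
    rcases abs_cases (cX h m t + cl ((3 * m + 2) * h) ((3 * m + 3) * h) t -
        (cX h m s + cl ((3 * m + 2) * h) ((3 * m + 3) * h) s)) with q | q <;>
      rcases abs_cases (cY h m t + (cl ((3 * m) * h) ((3 * m + 1) * h) t -
        cl ((3 * m + 1) * h) ((3 * m + 2) * h) t) - (cY h m s + (cl ((3 * m) * h) ((3 * m + 1) * h) s -
        cl ((3 * m + 1) * h) ((3 * m + 2) * h) s))) with q' | q' <;> linarith [q.1, q'.1]

theorem comb_end {h : ℝ} (hh : 0 < h) {t : ℝ} :
    ∀ m : ℕ, (3 * m) * h ≤ t → cX h m t = m * h ∧ cY h m t = 0 := by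
  intro m
  induction m with
  | zero => intro _; simp [cX, cY]
  | succ m ih =>
    intro ht
    push_cast at ht
    obtain ⟨h1, h2⟩ := ih (by nlinarith)
    rw [cX_succ, cY_succ, h1, h2, cl_high (by nlinarith) (by nlinarith),
      cl_high (by nlinarith) (by nlinarith), cl_high (by nlinarith) (by nlinarith)]
    push_cast
    constructor <;> ring

theorem comb_shape {h : ℝ} (hh : 0 < h) (t : ℝ) (m : ℕ) :
    cY h m t = 0 ∨ ∃ j : ℕ, cX h m t = j * h := by
  induction m with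
  | zero => left; simp [cY]
  | succ m ih =>
    rcases le_total t ((3 * m) * h) with ht | ht
    · rw [cX_succ, cY_succ, cl_low ht, cl_low (by nlinarith), cl_low (by nlinarith)]
      simpa using ih
    · obtain ⟨h1, h2⟩ := comb_end hh m ht
      rcases le_total t ((3 * m + 2) * h) with ht' | ht'
      · right
        exact ⟨m, by rw [cX_succ, h1, cl_low ht', add_zero]⟩
      · left
        rw [cY_succ, h2, cl_high (by nlinarith) (by nlinarith), cl_high (by nlinarith) ht']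
        ring

theorem comb_tip {h : ℝ} (hh : 0 < h) (j : ℕ) : ∀ m : ℕ, j + 1 ≤ m →
    cX h m ((3 * j + 1) * h) = j * h ∧ cY h m ((3 * j + 1) * h) = h := by
  intro m hm
  induction m, hm using Nat.le_induction with
  | base =>
    obtain ⟨h1, h2⟩ := comb_end hh (t := (3 * j + 1) * h) j (by nlinarith)
    rw [cX_succ, cY_succ, h1, h2, cl_low (by nlinarith), cl_high (by nlinarith) le_rfl,
      cl_low le_rfl]
    constructor <;> ring
  | succ m hm ih =>
    have h3 : (j : ℝ) + 1 ≤ m := by exact_mod_cast hm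
    rw [cX_succ, cY_succ, ih.1, ih.2, cl_low (by nlinarith), cl_low (by nlinarith),
      cl_low (by nlinarith)]
    constructor <;> ring

theorem comb_mem {h : ℝ} (hh : 0 < h) (m : ℕ) : trace (cX h m) (cY h m) ∈ Gamma1 := by
  have hL : LipschitzWith 1 (fun t => (⟨cX h m t, cY h m t⟩ : ℂ)) := by
    refine LipschitzWith.of_dist_le_mul fun s t => ?_
    wlog hst : t ≤ s generalizing s t
    · rw [dist_comm, dist_comm s]; exact this t s (le_of_not_ge hst)
    rw [dist_eq_norm, Real.dist_eq, abs_of_nonneg (sub_nonneg.2 hst), NNReal.coe_one, one_mul]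
    refine (Complex.norm_le_abs_re_add_abs_im _).trans ?_
    exact (comb_lip hh hst m).trans (cl_lip hst)
  refine ⟨_, _, (Complex.continuous_re.comp hL.continuous).continuousOn,
    (Complex.continuous_im.comp hL.continuous).continuousOn, ?_, rfl⟩
  have := (hL.lipschitzOnWith (s := univ)).comp_eVariationOn_le (g := id) (s := Icc (0 : ℝ) 1)
    (mapsTo_univ _ _)
  rw [eVariationOn_id_Icc] at this
  simpa [len] using this

theorem box_lt {a b c d r : ℝ} (h : edist (a, b) (c, d) < ENNReal.ofReal r) :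
    |a - c| < r ∧ |b - d| < r := by
  rw [edist_lt_ofReal, Prod.dist_eq, Real.dist_eq, Real.dist_eq, max_lt_iff] at h
  exact h

theorem lower_aux {n M : ℕ} (hM : n < 2 * M) :
    ENNReal.ofReal (1 / (3 * ((M + 1 : ℕ) : ℝ)) / 2) ≤ worstErr n := by
  set m := M + 1 with hm
  have hm0 : (0 : ℝ) < m := by positivity
  set h : ℝ := 1 / (3 * (m : ℝ)) with hh
  have h0 : 0 < h := by positivity
  have h1 : 3 * m * h = 1 := by rw [hh]; field_simp
  refine le_iSup₂_of_le _ (comb_mem h0 m) (le_iInf₂ ?_)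
  rintro _ ⟨φ, ψ, hφ, hψ, rfl⟩
  by_contra hlt
  rw [not_le] at hlt
  have tips : ∀ j : Fin m, ∃ s ∈ Icc (0 : ℝ) 1, |j * h - φ s| < h / 2 ∧ |h - ψ s| < h / 2 := by
    intro j
    have hj : ((j : ℕ) : ℝ) + 1 ≤ m := by exact_mod_cast j.2
    have hj0 : (0 : ℝ) ≤ (j : ℕ) := Nat.cast_nonneg _
    have hmem : (cX h m ((3 * j + 1) * h), cY h m ((3 * j + 1) * h)) ∈ trace (cX h m) (cY h m) :=
      ⟨(3 * j + 1) * h, ⟨by positivity, by nlinarith⟩, rfl⟩
    obtain ⟨_, ⟨s, hs, rfl⟩, hd⟩ := Metric.exists_edist_lt_of_hausdorffEDist_lt hmem hlt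
    rw [(comb_tip h0 j m j.2).1, (comb_tip h0 j m j.2).2] at hd
    exact ⟨s, hs, box_lt hd⟩
  have gaps : ∀ s ∈ Icc (0 : ℝ) 1, ∀ i : ℕ, φ s = (i + 1 / 2) * h → ψ s < h / 2 := by
    intro s hs i hi
    rw [Metric.hausdorffEDist_comm] at hlt
    have hmem : (φ s, ψ s) ∈ trace φ ψ := ⟨s, hs, rfl⟩
    obtain ⟨_, ⟨t, -, rfl⟩, hd⟩ := Metric.exists_edist_lt_of_hausdorffEDist_lt hmem hlt
    obtain ⟨d1, d2⟩ := box_lt hd
    rcases comb_shape h0 t m with e | ⟨j, e⟩
    · rw [e] at d2; linarith [(abs_lt.1 d2).2]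
    · exfalso
      rw [e, hi] at d1
      obtain ⟨d3, d4⟩ := abs_lt.1 d1
      have q1 : (j : ℝ) < i + 1 := by by_contra q; nlinarith [not_lt.1 q]
      have q2 : (i : ℝ) < j := by by_contra q; nlinarith [not_lt.1 q]
      have q3 : j < i + 1 := by exact_mod_cast q1
      have q4 : i < j := by exact_mod_cast q2
      omega
  choose s hs hs1 hs2 using tips
  have sep : ∀ j j' : Fin m, j < j' → φ (s j) < (j + 1 / 2) * h ∧ (j + 1 / 2) * h < φ (s j') := by
    intro j j' hjj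
    have q : ((j : ℕ) : ℝ) + 1 ≤ (j' : ℕ) := by exact_mod_cast hjj
    constructor
    · linarith [(abs_lt.1 (hs1 j)).1]
    · nlinarith [(abs_lt.1 (hs1 j')).2]
  have hinj : Function.Injective s := by
    intro j j' e
    by_contra hne
    rcases lt_or_gt_of_ne hne with q | q
    · have := sep j j' q; rw [e] at this; linarith [this.1, this.2]
    · have := sep j' j q; rw [e] at this; linarith [this.1, this.2]
  classical
  have hcard : (Finset.univ.image s).card = m := by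
    rw [Finset.card_image_of_injective _ hinj]; simp
  let o := (Finset.univ.image s).orderEmbOfFin hcard
  have ho : ∀ i : Fin m, ∃ j, s j = o i := fun i => by
    obtain ⟨j, -, hj⟩ := Finset.mem_image.1 ((Finset.univ.image s).orderEmbOfFin_mem hcard i)
    exact ⟨j, hj⟩
  choose σ hσ using ho
  let a : ℕ → ℝ := fun i => if hi : i < m then o ⟨i, hi⟩ else 0
  have ha : ∀ i (hi : i < m), a i = s (σ ⟨i, hi⟩) := fun i hi => by
    simp only [a, hi, dif_pos, hσ]
  have hb : ∀ i : ℕ, ∃ b, i < M → a i < b ∧ b < a (i + 1) ∧ ψ b < h / 2 := by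
    intro i
    by_cases hi : i < M
    swap
    · exact ⟨0, fun h => absurd h hi⟩
    have i1 : i < m := by omega
    have i2 : i + 1 < m := by omega
    have lt : s (σ ⟨i, i1⟩) < s (σ ⟨i + 1, i2⟩) := by
      rw [hσ, hσ]; exact o.strictMono (by simp [Fin.lt_def])
    have sub : Icc (s (σ ⟨i, i1⟩)) (s (σ ⟨i + 1, i2⟩)) ⊆ Icc 0 1 :=
      Icc_subset_Icc (hs _).1 (hs _).2
    have hne : σ ⟨i, i1⟩ ≠ σ ⟨i + 1, i2⟩ := fun e => by rw [e] at lt; exact lt_irrefl _ lt
    rw [ha i i1, ha (i + 1) i2]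
    rcases lt_or_gt_of_ne hne with q | q
    · obtain ⟨b, hb, e⟩ := intermediate_value_Ioo lt.le (hφ.1.mono sub) (sep _ _ q)
      exact ⟨b, fun _ => ⟨hb.1, hb.2, gaps b (sub (Ioo_subset_Icc_self hb)) _ e⟩⟩
    · obtain ⟨b, hb, e⟩ := intermediate_value_Ioo' lt.le (hφ.1.mono sub) (sep _ _ q)
      exact ⟨b, fun _ => ⟨hb.1, hb.2, gaps b (sub (Ioo_subset_Icc_self hb)) _ e⟩⟩
  choose b hb using hb
  have hi : ∀ i ≤ M, h / 2 < ψ (a i) := fun i hi => by
    rw [ha i (by omega)]; linarith [(abs_lt.1 (hs2 (σ ⟨i, by omega⟩))).2]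
  have := alt_le hψ M a b (fun i hi => by rw [ha i (by omega)]; exact hs _)
    (fun i h => (hb i h).1) (fun i h => (hb i h).2.1)
    (fun i h => (hb i h).2.2.trans (hi i h.le)) (fun i h => (hb i h).2.2.trans (hi (i + 1) h))
  omega

theorem lower (n : ℕ) : ENNReal.ofReal (1 / (3 * n + 12)) ≤ worstErr n := by
  refine le_trans (ENNReal.ofReal_le_ofReal ?_) (lower_aux (M := n / 2 + 1) (by omega))
  have h1 : ((n / 2 : ℕ) : ℝ) ≤ n / 2 := Nat.cast_div_le
  have h2 : (0 : ℝ) ≤ (n / 2 : ℕ) := Nat.cast_nonneg _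
  push_cast
  rw [div_div, div_le_div_iff₀ (by positivity) (by positivity)]
  linarith

end Pool.Agent.H86.Pmc
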