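import Mathlib

set_option autoImplicit false

namespace Pool.Agent.H86.Pmc

open Set Filter
open scoped ENNReal

/-- Continuous functions on `[0,1]` with at most `n` sections of monotonicity. -/
def InM (n : ℕ) (f : ℝ → ℝ) : Prop :=
  ContinuousOn f (Icc 0 1) ∧ ∃ (k : ℕ) (t : ℕ → ℝ), k ≤ n ∧ t 0 = 0 ∧ t k = 1 ∧
    (∀ i < k, t i < t (i + 1)) ∧
    ∀ i < k, MonotoneOn f (Icc (t i) (t (i + 1))) ∨ AntitoneOn f (Icc (t i) (t (i + 1)))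

/-- The plane set traced by `t ↦ (x t, y t)`, `0 ≤ t ≤ 1`; `ℝ × ℝ` carries the box metric. -/
def trace (x y : ℝ → ℝ) : Set (ℝ × ℝ) := (fun t => (x t, y t)) '' Icc 0 1

/-- The class `M_n²`. -/
def M2 (n : ℕ) : Set (Set (ℝ × ℝ)) := {γ | ∃ φ ψ, InM n φ ∧ InM n ψ ∧ γ = trace φ ψ}

/-- Euclidean length of the curve `t ↦ (x t, y t)`, `0 ≤ t ≤ 1`. -/
noncomputable def len (x y : ℝ → ℝ) : ℝ≥0∞ :=
  eVariationOn (fun t => (⟨x t, y t⟩ : ℂ)) (Icc 0 1)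

/-- The class `Γ₁` of continuous curves of length at most one. -/
def Gamma1 : Set (Set (ℝ × ℝ)) :=
  {F | ∃ x y : ℝ → ℝ, ContinuousOn x (Icc 0 1) ∧ ContinuousOn y (Icc 0 1) ∧ len x y ≤ 1 ∧
    F = trace x y}

/-- Best Hausdorff approximation `E(M_n²; F)`. -/
noncomputable def bestErr (n : ℕ) (F : Set (ℝ × ℝ)) : ℝ≥0∞ :=
  ⨅ γ ∈ M2 n, Metric.hausdorffEDist F γ

/-- `E(M_n²; Γ₁)`. -/
noncomputable def worstErr (n : ℕ) : ℝ≥0∞ := ⨆ F ∈ Gamma1, bestErr n F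

/-- The constant `c₆`. -/
noncomputable def c6 : ℝ≥0∞ := limsup (fun n : ℕ => (n : ℝ≥0∞) * worstErr n) atTop

end Pool.Agent.H86.Pmc
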