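import Pool.Agent.H86.PmB

set_option autoImplicit false

namespace Pool.Agent.H86.Pmc

open Set Filter
open scoped ENNReal

/-- The family `Z_D` of nonempty compact connected subsets of `D = [a,b]²`. -/
def ZD (a b : ℝ) : Set (Set (ℝ × ℝ)) :=
  {F | IsCompact F ∧ IsConnected F ∧ F ⊆ Icc a b ×ˢ Icc a b}

/-- `E(M_n²; Z_D)`. -/
noncomputable def worstZ (a b : ℝ) (n : ℕ) : ℝ≥0∞ := ⨆ F ∈ ZD a b, bestErr n F

/-- The constant `c₅` (for the unit square). -/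
noncomputable def c5 : ℝ≥0∞ :=
  limsup (fun n : ℕ => ENNReal.ofReal √(n : ℝ) * worstZ 0 1 n) atTop

def grid (h : ℝ) (m : ℕ) : Set (ℝ × ℝ) :=
  ({0} ×ˢ Icc 0 1) ∪ ⋃ q ∈ (Finset.range (2 * m + 1) ×ˢ Finset.range m : Finset (ℕ × ℕ)),
    ((Icc 0 1 ×ˢ {2 * h * q.2}) ∪ ({q.1 * h} ×ˢ Icc (2 * h * q.2) (2 * h * q.2 + h)))

theorem grid_mem {h : ℝ} {m : ℕ} (h0 : 0 < h) (h1 : 2 * m * h = 1) : grid h m ∈ ZD 0 1 := by
  have bd : ∀ q ∈ (Finset.range (2 * m + 1) ×ˢ Finset.range m : Finset (ℕ × ℕ)),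
      0 ≤ (q.1 : ℝ) * h ∧ q.1 * h ≤ 1 ∧ 0 ≤ 2 * h * q.2 ∧ 2 * h * q.2 + h ≤ 1 := by
    intro q hq
    simp only [Finset.mem_product, Finset.mem_range] at hq
    have e1 : (q.1 : ℝ) ≤ 2 * m := by exact_mod_cast (by omega : q.1 ≤ 2 * m)
    have e2 : (q.2 : ℝ) + 1 ≤ m := by exact_mod_cast hq.2
    exact ⟨by positivity, by nlinarith, by positivity, by nlinarith⟩
  have c0 : IsPreconnected (({0} ×ˢ Icc 0 1 : Set (ℝ × ℝ))) :=
    isPreconnected_singleton.prod isPreconnected_Icc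
  refine ⟨(isCompact_singleton.prod isCompact_Icc).union (Finset.isCompact_biUnion _ fun q _ =>
    (isCompact_Icc.prod isCompact_singleton).union (isCompact_singleton.prod isCompact_Icc)),
    ⟨⟨(0, 0), Or.inl ⟨rfl, by simp⟩⟩, isPreconnected_of_forall (0, 0) ?_⟩, ?_⟩
  · rintro y (hy | hy)
    · exact ⟨_, subset_union_left, ⟨rfl, by simp⟩, hy, c0⟩
    · obtain ⟨q, hq, hy⟩ := mem_iUnion₂.1 hy
      obtain ⟨b1, b2, b3, b4⟩ := bd q hq
      refine ⟨({0} ×ˢ Icc 0 1) ∪ ((Icc 0 1 ×ˢ {2 * h * q.2}) ∪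
        ({q.1 * h} ×ˢ Icc (2 * h * q.2) (2 * h * q.2 + h))), union_subset_union_right _
        (subset_biUnion_of_mem (u := fun q : ℕ × ℕ => ((Icc 0 1 ×ˢ {2 * h * q.2}) ∪
          ({q.1 * h} ×ˢ Icc (2 * h * q.2) (2 * h * q.2 + h)) : Set (ℝ × ℝ))) hq),
        Or.inl ⟨rfl, by simp⟩, Or.inr hy, ?_⟩
      refine c0.union (0, 2 * h * q.2) ⟨rfl, b3, by linarith⟩ (Or.inl ⟨by simp, rfl⟩) ?_
      exact (isPreconnected_Icc.prod isPreconnected_singleton).union (q.1 * h, 2 * h * q.2)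
        ⟨⟨b1, b2⟩, rfl⟩ ⟨rfl, le_rfl, by linarith⟩ (isPreconnected_singleton.prod isPreconnected_Icc)
  · rintro y (hy | hy)
    · exact ⟨by rw [show y.1 = 0 from hy.1]; simp, hy.2⟩
    · obtain ⟨q, hq, hy⟩ := mem_iUnion₂.1 hy
      obtain ⟨b1, b2, b3, b4⟩ := bd q hq
      rcases hy with hy | hy
      · exact ⟨hy.1, by rw [show y.2 = _ from hy.2]; exact ⟨b3, by linarith⟩⟩
      · exact ⟨by rw [show y.1 = _ from hy.1]; exact ⟨b1, b2⟩, by linarith [hy.2.1],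
          by linarith [hy.2.2]⟩

theorem no_nat {h x : ℝ} (h0 : 0 < h) (i j : ℕ) (h1 : i * h < x) (h2 : x < (i + 1) * h) :
    x ≠ j * h := by
  rintro rfl
  have q1 : (i : ℝ) < j := lt_of_mul_lt_mul_right h1 h0.le
  have q2 : (j : ℝ) < i + 1 := lt_of_mul_lt_mul_right h2 h0.le
  have q3 : i < j := by exact_mod_cast q1
  have q4 : j < i + 1 := by exact_mod_cast q2
  omega

theorem exit_pt {h : ℝ} {m : ℕ} (h0 : 0 < h) {x y u v : ℝ} (j r : ℕ) (hF : (u, v) ∈ grid h m)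
    (d1 : |x - u| < h / 2) (d2 : |y - v| < h / 2)
    (hb : max |x - (j + 1) * h| |y - (2 * h * r + h)| = h / 2) : y ≤ 2 * h * r + h / 2 := by
  by_contra hy
  rw [not_le] at hy
  obtain ⟨e1, e2⟩ := abs_lt.1 d1
  obtain ⟨e3, e4⟩ := abs_lt.1 d2
  obtain ⟨e5, e6⟩ := abs_le.1 ((le_max_left _ _).trans hb.le)
  obtain ⟨e7, e8⟩ := abs_le.1 ((le_max_right _ _).trans hb.le)
  have j0 : (0 : ℝ) ≤ j * h := by positivity
  rcases hF with hF | hF
  · have : u = 0 := hF.1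
    nlinarith
  obtain ⟨q, -, hF | hF⟩ := mem_iUnion₂.1 hF
  · have e : v = 2 * h * q.2 := hF.2
    exact no_nat (h := 2 * h) (x := v) (by positivity) r q.2 (by linarith) (by linarith) (by linarith)
  · have e : u = q.1 * h := hF.1
    have f1 : 2 * h * q.2 ≤ v := hF.2.1
    have f2 : v ≤ 2 * h * q.2 + h := hF.2.2
    rcases max_cases |x - (j + 1) * h| |y - (2 * h * r + h)| with w | w
    · rw [w.1] at hb
      rcases abs_cases (x - (j + 1) * h) with z | z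
      · exact no_nat h0 (j + 1) q.1 (by push_cast; linarith [z.1]) (by push_cast; linarith [z.1]) e
      · exact no_nat h0 j q.1 (by linarith [z.1]) (by linarith [z.1]) e
    · rw [w.1] at hb
      have hy2 : y = 2 * h * r + h + h / 2 := by
        rcases abs_cases (y - (2 * h * r + h)) with z | z <;> linarith [z.1]
      have q1 : (r : ℝ) < q.2 := by by_contra z; nlinarith [not_lt.1 z]
      have q2 : (q.2 : ℝ) < r + 1 := by by_contra z; nlinarith [not_lt.1 z]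
      have q3 : r < q.2 := by exact_mod_cast q1
      have q4 : q.2 < r + 1 := by exact_mod_cast q2
      omega

theorem lowerZ {n m : ℕ} (hm : 1 ≤ m) (hM : n + 2 < 4 * m * m) :
    ENNReal.ofReal (1 / (2 * (m : ℝ)) / 2) ≤ worstZ 0 1 n := by
  have hm0 : (0 : ℝ) < m := by exact_mod_cast hm
  set h : ℝ := 1 / (2 * (m : ℝ)) with hh
  have h0 : 0 < h := by positivity
  have h1 : 2 * m * h = 1 := by rw [hh]; field_simp
  refine le_iSup₂_of_le _ (grid_mem h0 h1) (le_iInf₂ ?_)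
  rintro _ ⟨φ, ψ, hφ, hψ, rfl⟩
  by_contra hlt
  rw [not_le] at hlt
  let G : Fin (2 * m) × Fin m → ℝ → ℝ := fun q s =>
    max |φ s - ((q.1 : ℕ) + 1) * h| |ψ s - (2 * h * (q.2 : ℕ) + h)|
  have tips : ∀ q : Fin (2 * m) × Fin m, ∃ s ∈ Icc (0 : ℝ) 1, G q s < h / 2 := by
    intro q
    have hmem : ((((q.1 : ℕ) + 1 : ℕ) : ℝ) * h, 2 * h * (q.2 : ℕ) + h) ∈ grid h m :=
      Or.inr (mem_iUnion₂.2 ⟨((q.1 : ℕ) + 1, (q.2 : ℕ)), by
        simp only [Finset.mem_product, Finset.mem_range]; exact ⟨by omega, q.2.2⟩,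
        Or.inr ⟨rfl, by simp only; linarith, le_rfl⟩⟩)
    obtain ⟨_, ⟨s, hs, rfl⟩, hd⟩ := Metric.exists_edist_lt_of_hausdorffEDist_lt hmem hlt
    obtain ⟨d1, d2⟩ := box_lt hd
    push_cast at d1
    exact ⟨s, hs, max_lt (by rwa [abs_sub_comm]) (by rwa [abs_sub_comm])⟩
  have gaps : ∀ s ∈ Icc (0 : ℝ) 1, ∀ q, G q s = h / 2 → ψ s ≤ 2 * h * (q.2 : ℕ) + h / 2 := by
    intro s hs q hi
    rw [Metric.hausdorffEDist_comm] at hlt
    have hmem : (φ s, ψ s) ∈ trace φ ψ := ⟨s, hs, rfl⟩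
    obtain ⟨⟨u, v⟩, hF, hd⟩ := Metric.exists_edist_lt_of_hausdorffEDist_lt hmem hlt
    obtain ⟨d1, d2⟩ := box_lt hd
    exact exit_pt h0 _ _ hF d1 d2 hi
  choose s hs hs1 using tips
  have hi' : ∀ q, 2 * h * (q.2 : ℕ) + h / 2 < ψ (s q) := fun q => by
    linarith [(abs_lt.1 ((le_max_right _ _).trans_lt (hs1 q))).1]
  have sep : ∀ q q', q ≠ q' → h / 2 < G q (s q') := by
    intro q q' hq
    obtain ⟨e1, e2⟩ := abs_lt.1 ((le_max_left _ _).trans_lt (hs1 q'))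
    obtain ⟨e3, e4⟩ := abs_lt.1 ((le_max_right _ _).trans_lt (hs1 q'))
    by_contra hc
    rw [not_lt] at hc
    obtain ⟨e5, e6⟩ := abs_le.1 ((le_max_left _ _).trans hc)
    obtain ⟨e7, e8⟩ := abs_le.1 ((le_max_right _ _).trans hc)
    have q1 : ((q.1 : ℕ) : ℝ) < (q'.1 : ℕ) + 1 := by by_contra z; nlinarith [not_lt.1 z]
    have q2 : ((q'.1 : ℕ) : ℝ) < (q.1 : ℕ) + 1 := by by_contra z; nlinarith [not_lt.1 z]
    have q3 : ((q.2 : ℕ) : ℝ) < (q'.2 : ℕ) + 1 := by by_contra z; nlinarith [not_lt.1 z]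
    have q4 : ((q'.2 : ℕ) : ℝ) < (q.2 : ℕ) + 1 := by by_contra z; nlinarith [not_lt.1 z]
    norm_cast at q1 q2 q3 q4
    exact hq (Prod.ext (Fin.ext (by omega)) (Fin.ext (by omega)))
  have hinj : Function.Injective s := by
    intro j j' e
    by_contra hne
    have := sep j j' hne
    rw [← e] at this
    linarith [hs1 j]
  have Gc : ∀ q, ContinuousOn (G q) (Icc 0 1) := fun q =>
    fun x hx => (((hφ.1.sub continuousOn_const).abs) x hx).max (((hψ.1.sub continuousOn_const).abs) x hx)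
  classical
  obtain ⟨M, hMe⟩ : ∃ M, 2 * m * m = M + 1 := ⟨2 * m * m - 1, by
    have : 1 ≤ 2 * m * m := by nlinarith
    omega⟩
  have hcard : (Finset.univ.image s).card = M + 1 := by
    rw [Finset.card_image_of_injective _ hinj, ← hMe]; simp
  let o := (Finset.univ.image s).orderEmbOfFin hcard
  have ho : ∀ i : Fin (M + 1), ∃ j, s j = o i := fun i => by
    obtain ⟨j, -, hj⟩ := Finset.mem_image.1 ((Finset.univ.image s).orderEmbOfFin_mem hcard i)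
    exact ⟨j, hj⟩
  choose σ hσ using ho
  let a : ℕ → ℝ := fun i => if hi : i < M + 1 then o ⟨i, hi⟩ else 0
  have ha : ∀ i (hi : i < M + 1), a i = s (σ ⟨i, hi⟩) := fun i hi => by
    simp only [a, hi, dif_pos, hσ]
  have hb : ∀ i : ℕ, ∃ b, i < M → a i < b ∧ b < a (i + 1) ∧ ψ b < ψ (a i) ∧ ψ b < ψ (a (i + 1)) := by
    intro i
    by_cases hi : i < M
    swap
    · exact ⟨0, fun h => absurd h hi⟩
    have i1 : i < M + 1 := by omega
    have i2 : i + 1 < M + 1 := by omega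
    have lt : s (σ ⟨i, i1⟩) < s (σ ⟨i + 1, i2⟩) := by
      rw [hσ, hσ]; exact o.strictMono (by simp [Fin.lt_def])
    have sub : Icc (s (σ ⟨i, i1⟩)) (s (σ ⟨i + 1, i2⟩)) ⊆ Icc 0 1 :=
      Icc_subset_Icc (hs _).1 (hs _).2
    have hne : σ ⟨i, i1⟩ ≠ σ ⟨i + 1, i2⟩ := fun e => by rw [e] at lt; exact lt_irrefl _ lt
    rw [ha i i1, ha (i + 1) i2]
    obtain ⟨b, hb, e⟩ := intermediate_value_Ioo lt.le ((Gc _).mono sub) ⟨hs1 _, sep _ _ hne⟩
    obtain ⟨b', hb', e'⟩ := intermediate_value_Ioo' lt.le ((Gc _).mono sub) ⟨hs1 _, sep _ _ hne.symm⟩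
    have g1 := (gaps b (sub (Ioo_subset_Icc_self hb)) _ e).trans_lt (hi' _)
    have g2 := (gaps b' (sub (Ioo_subset_Icc_self hb')) _ e').trans_lt (hi' _)
    rcases le_total (ψ b) (ψ b') with w | w
    · exact ⟨b, fun _ => ⟨hb.1, hb.2, g1, w.trans_lt g2⟩⟩
    · exact ⟨b', fun _ => ⟨hb'.1, hb'.2, w.trans_lt g1, g2⟩⟩
  choose b hb using hb
  have := alt_le hψ M a b (fun i hi => by rw [ha i (by omega)]; exact hs _)
    (fun i h => (hb i h).1) (fun i h => (hb i h).2.1)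
    (fun i h => (hb i h).2.2.1) (fun i h => (hb i h).2.2.2)
  have e4 : 4 * m * m = 2 * (2 * m * m) := by ring
  omega

end Pool.Agent.H86.Pmc
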