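import Mathlib

set_option autoImplicit false

namespace Pool.Agent.H86.Pmc

abbrev V2 := Bool → ℤ

def mv (j : Bool) (σ : ℕ) (u : V2) : V2 := Function.update u j (u j + (1 - 2 * σ))

structure Core (R : V2 → V2 → Prop) (P : ℕ → V2) (c : Bool → ℕ → ℕ) : Prop where
  adj : ∀ t, R (P t) (P (t + 1))
  mono : ∀ j t, c j t ≤ c j (t + 1)
  up : ∀ j t, c j t % 2 = 0 → P t j ≤ P (t + 1) j
  dn : ∀ j t, c j t % 2 = 1 → P (t + 1) j ≤ P t j

def Turn (P : ℕ → V2) (c : Bool → ℕ → ℕ) (j : Bool) (σ : ℕ) (u : V2) (τ : ℕ) : Prop :=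
  P (τ + 1) = u ∧ c j τ % 2 = σ ∧ c j (τ + 1) % 2 = 1 - σ

theorem core_ins {R : V2 → V2 → Prop} {P : ℕ → V2} {c : Bool → ℕ → ℕ} (H : Core R P c) (τ : ℕ)
    (w : V2) (l1 l2 δ : Bool → ℕ) (r1 : R (P (τ + 1)) w) (r2 : R w (P (τ + 1)))
    (m1 : ∀ j, c j τ ≤ l1 j) (m2 : ∀ j, l1 j ≤ l2 j) (m3 : ∀ j, l2 j ≤ c j (τ + 1) + δ j)
    (ev : ∀ j, δ j % 2 = 0)
    (s1 : ∀ j, l1 j % 2 = 0 → P (τ + 1) j ≤ w j) (s2 : ∀ j, l1 j % 2 = 1 → w j ≤ P (τ + 1) j)
    (s3 : ∀ j, l2 j % 2 = 0 → w j ≤ P (τ + 1) j) (s4 : ∀ j, l2 j % 2 = 1 → P (τ + 1) j ≤ w j) :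
    ∃ P' c', Core R P' c' ∧ (∀ j t, ∃ s, c' j t ≤ c j s + δ j) ∧
      (∀ t, ∃ s, P' (s + 1) = P (t + 1)) ∧ P' (τ + 1) = P (τ + 1) ∧ P' (τ + 2) = w ∧
      (∀ j, c' j τ = c j τ ∧ c' j (τ + 1) = l1 j ∧ c' j (τ + 2) = l2 j) ∧
      ∀ j σ u t, Turn P c j σ u t → (t = τ → l2 j % 2 = c j τ % 2) → ∃ s, Turn P' c' j σ u s := by
  obtain ⟨P', p1, p2, p3⟩ : ∃ P' : ℕ → V2, (∀ t, t ≤ τ + 1 → P' t = P t) ∧ P' (τ + 2) = w ∧
      ∀ s, τ + 1 ≤ s → P' (s + 2) = P s :=
    ⟨fun t => if t ≤ τ + 1 then P t else if t = τ + 2 then w else P (t - 2),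
      fun t ht => by simp [ht], by simp, fun s hs => by
        dsimp only; rw [if_neg (by omega), if_neg (by omega)]; rfl⟩
  obtain ⟨c', q1, q2, q3, q4⟩ : ∃ c' : Bool → ℕ → ℕ, (∀ j t, t ≤ τ → c' j t = c j t) ∧
      (∀ j, c' j (τ + 1) = l1 j) ∧ (∀ j, c' j (τ + 2) = l2 j) ∧
      ∀ j s, τ + 1 ≤ s → c' j (s + 2) = c j s + δ j :=
    ⟨fun j t => if t ≤ τ then c j t else if t = τ + 1 then l1 j else if t = τ + 2 then l2 j
      else c j (t - 2) + δ j, fun j t ht => by simp [ht], fun j => by simp, fun j => by simp,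
      fun j s hs => by
        dsimp only; rw [if_neg (by omega), if_neg (by omega), if_neg (by omega)]; rfl⟩
  have cs : ∀ t, t ≤ τ ∨ t = τ + 1 ∨ t = τ + 2 ∨ ∃ s, τ + 1 ≤ s ∧ t = s + 2 := fun t => by
    by_cases h : τ + 3 ≤ t
    · exact Or.inr (Or.inr (Or.inr ⟨t - 2, by omega, by omega⟩))
    · omega
  have p4 : P' (τ + 2 + 1) = P (τ + 1) := p3 (τ + 1) le_rfl
  have p5 : ∀ s, τ + 1 ≤ s → P' (s + 2 + 1) = P (s + 1) := fun s hs => p3 (s + 1) (by omega)
  have p6 : P' (τ + 1 + 1) = w := p2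
  refine ⟨P', c', ⟨fun t => ?_, fun j t => ?_, fun j t => ?_, fun j t => ?_⟩, fun j t => ?_,
    fun t => ?_, p1 _ le_rfl, p2, fun j => ⟨q1 _ _ le_rfl, q2 j, q3 j⟩, fun j σ u t ht h => ?_⟩
  · rcases cs t with h | rfl | rfl | ⟨s, h, rfl⟩
    · rw [p1 _ (by omega), p1 _ (by omega)]; exact H.adj t
    · rw [p1 _ le_rfl, p6]; exact r1
    · rw [p2, p4]; exact r2
    · rw [p3 _ h, p5 _ h]; exact H.adj s
  · rcases cs t with h | rfl | rfl | ⟨s, h, rfl⟩
    · rcases h.lt_or_eq with h | rfl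
      · rw [q1 _ _ h.le, q1 _ _ h]; exact H.mono j t
      · rw [q1 _ _ le_rfl, q2]; exact m1 j
    · rw [q2, show τ + 1 + 1 = τ + 2 from rfl, q3]; exact m2 j
    · rw [q3, show τ + 2 + 1 = τ + 1 + 2 from rfl, q4 _ _ le_rfl]; exact m3 j
    · rw [q4 _ _ h, show s + 2 + 1 = s + 1 + 2 from rfl, q4 _ _ (by omega)]
      exact Nat.add_le_add_right (H.mono j s) _
  · rcases cs t with h | rfl | rfl | ⟨s, h, rfl⟩
    · rw [p1 _ (by omega), p1 _ (by omega), q1 _ _ h]; exact H.up j t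
    · rw [p1 _ le_rfl, p6, q2]; exact s1 j
    · rw [p2, p4, q3]; exact s3 j
    · rw [p3 _ h, p5 _ h, q4 _ _ h]; exact fun e => H.up j s (by have := ev j; omega)
  · rcases cs t with h | rfl | rfl | ⟨s, h, rfl⟩
    · rw [p1 _ (by omega), p1 _ (by omega), q1 _ _ h]; exact H.dn j t
    · rw [p1 _ le_rfl, p6, q2]; exact s2 j
    · rw [p2, p4, q3]; exact s4 j
    · rw [p3 _ h, p5 _ h, q4 _ _ h]; exact fun e => H.dn j s (by have := ev j; omega)
  · rcases cs t with h | rfl | rfl | ⟨s, h, rfl⟩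
    · exact ⟨t, by rw [q1 _ _ h]; omega⟩
    · exact ⟨τ + 1, by rw [q2]; exact (m2 j).trans (m3 j)⟩
    · exact ⟨τ + 1, by rw [q3]; exact m3 j⟩
    · exact ⟨s, by rw [q4 _ _ h]⟩
  · by_cases h : t ≤ τ
    · exact ⟨t, p1 _ (by omega)⟩
    · exact ⟨t + 2, p5 t (by omega)⟩
  · obtain ⟨a1, a2, a3⟩ := ht
    have e := ev j
    rcases lt_trichotomy t τ with h' | rfl | h'
    · exact ⟨t, by rw [p1 _ (by omega), a1], by rw [q1 _ _ h'.le, a2], by rw [q1 _ _ h', a3]⟩
    · refine ⟨t + 2, by rw [p4, a1], by rw [q3, h rfl, a2], ?_⟩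
      rw [show t + 2 + 1 = t + 1 + 2 from rfl, q4 _ _ le_rfl]; omega
    · refine ⟨t + 2, by rw [p5 _ h', a1], by rw [q4 _ _ h']; omega, ?_⟩
      rw [show t + 2 + 1 = t + 1 + 2 from rfl, q4 _ _ (by omega)]; omega

structure WInv (R : V2 → V2 → Prop) (S : Finset V2) (X : Bool → Finset V2) (P : ℕ → V2)
    (c : Bool → ℕ → ℕ) (k : Bool → ℕ) : Prop where
  core : Core R P c
  bd : ∀ j t, c j t ≤ (X j).card + k j
  sub : ∀ j, X j ⊆ S
  vis : ∀ u ∈ S, ∃ τ, P (τ + 1) = u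
  turn : ∀ j σ u, σ < 2 → u ∈ X j → mv j σ u ∉ S → ∃ τ, Turn P c j σ u τ

theorem charge {R : V2 → V2 → Prop} {S X P c} (H : WInv R S X P c (fun _ => 0)) {u : V2}
    (hu : u ∈ S) (r : R u u) (j : Bool) : ∃ X' P' c', WInv R S X' P' c'
      (fun i => if i = j then 1 else 0) ∧ u ∈ X' j := by
  classical
  by_cases hx : u ∈ X j
  · exact ⟨X, P, c, ⟨H.core, fun i t => (H.bd i t).trans (by omega), H.sub, H.vis, H.turn⟩, hx⟩
  obtain ⟨τ, rfl⟩ := H.vis u hu
  obtain ⟨P', c', h1, h2, h3, h4, h5, h6, h7⟩ := core_ins H.core τ (P (τ + 1))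
    (fun i => c i τ + if i = j then 1 else 0) (fun i => c i τ + if i = j then 2 else 0)
    (fun i => if i = j then 2 else 0) r r (fun i => by omega) (fun i => by split_ifs <;> omega)
    (fun i => Nat.add_le_add_right (H.core.mono i τ) _) (fun i => by split_ifs <;> rfl)
    (fun _ _ => le_rfl) (fun _ _ => le_rfl) (fun _ _ => le_rfl) (fun _ _ => le_rfl)
  refine ⟨fun i => if i = j then insert (P (τ + 1)) (X i) else X i, P', c',
    ⟨h1, fun i t => ?_, fun i => ?_, fun v hv => ?_, fun i σ v hσ hv hm => ?_⟩, by simp⟩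
  · obtain ⟨s, hs⟩ := h2 i t
    have := H.bd i s
    by_cases e : i = j
    · subst e
      simp only [if_true] at hs ⊢
      rw [Finset.card_insert_of_notMem hx]; omega
    · simp only [e, if_false] at hs ⊢; omega
  · split_ifs
    · exact Finset.insert_subset hu (H.sub i)
    · exact H.sub i
  · obtain ⟨t, rfl⟩ := H.vis v hv
    exact h3 t
  · by_cases hv' : v ∈ X i
    · obtain ⟨t, ht⟩ := H.turn i σ v hσ hv' hm
      exact h7 i σ v t ht (fun _ => by split_ifs <;> omega)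
    · by_cases e : i = j
      · subst e
        simp only [if_true, Finset.mem_insert, hv', or_false] at hv
        subst hv
        obtain ⟨b1, b2, b3⟩ := h6 i
        simp only [if_true] at b2 b3
        by_cases hp : c i τ % 2 = σ
        · exact ⟨τ, h4, by rw [b1, hp], by rw [b2]; omega⟩
        · exact ⟨τ + 1, h5, by rw [b2]; omega, by
            rw [show τ + 1 + 1 = τ + 2 from rfl, b3]; omega⟩
      · simp only [e, if_false] at hv; exact absurd hv hv'

theorem grow {R : V2 → V2 → Prop} {S X P c} (H : WInv R S X P c (fun _ => 0)) {u : V2}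
    (hu : u ∈ S) (r : R u u) (j : Bool) (σ : ℕ) (hσ : σ < 2) (hv : mv j σ u ∉ S)
    (r1 : R u (mv j σ u)) (r2 : R (mv j σ u) u) :
    ∃ X' P' c', WInv R (insert (mv j σ u) S) X' P' c' (fun _ => 0) := by
  classical
  obtain ⟨X, P, c, H, hx⟩ := charge H hu r j
  obtain ⟨τ, rfl, t2, t3⟩ := H.turn j σ u hσ hx hv
  have mj : mv j σ (P (τ + 1)) j = P (τ + 1) j + (1 - 2 * σ) := by simp [mv]
  have mi : ∀ i, i ≠ j → mv j σ (P (τ + 1)) i = P (τ + 1) i := fun i hi => by simp [mv, hi]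
  obtain ⟨P', c', h1, h2, h3, h4, h5, h6, h7⟩ := core_ins H.core τ (mv j σ (P (τ + 1)))
    (fun i => c i τ) (fun i => if i = j then c i (τ + 1) else c i τ)
    (fun _ => 0) r1 r2 (fun i => le_rfl)
    (fun i => by have := H.core.mono i τ; split_ifs <;> omega)
    (fun i => by have := H.core.mono i τ; split_ifs <;> omega) (fun i => rfl)
    (fun i e => by
      by_cases h : i = j
      · subst h; rw [mj]; omega
      · rw [mi i h])
    (fun i e => by
      by_cases h : i = j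
      · subst h; rw [mj]; omega
      · rw [mi i h])
    (fun i e => by
      by_cases h : i = j
      · subst h; simp only [if_true] at e; rw [mj]; omega
      · rw [mi i h])
    (fun i e => by
      by_cases h : i = j
      · subst h; simp only [if_true] at e; rw [mj]; omega
      · rw [mi i h])
  have hx' : mv j σ (P (τ + 1)) ∉ X j := fun h => hv (H.sub j h)
  refine ⟨fun i => if i = j then insert (mv j σ (P (τ + 1))) (X i) else X i, P', c',
    ⟨h1, fun i t => ?_, fun i => ?_, fun v hv => ?_, fun i ρ v hρ hw hm => ?_⟩⟩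
  · obtain ⟨s, hs⟩ := h2 i t
    have := H.bd i s
    by_cases e : i = j
    · subst e
      simp only [if_true] at this ⊢
      rw [Finset.card_insert_of_notMem hx']; omega
    · simp only [e, if_false] at this ⊢; omega
  · split_ifs
    · exact Finset.insert_subset_insert _ (H.sub i)
    · exact (H.sub i).trans (Finset.subset_insert _ _)
  · rcases Finset.mem_insert.1 hv with rfl | hv
    · exact ⟨τ + 1, h5⟩
    · obtain ⟨t, rfl⟩ := H.vis v hv
      exact h3 t
  · rw [Finset.mem_insert, not_or] at hm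
    by_cases hv' : v ∈ X i
    · obtain ⟨t, ht⟩ := H.turn i ρ v hρ hv' hm.2
      refine h7 i ρ v t ht (fun e => ?_)
      subst e
      by_cases e : i = j
      · subst e
        obtain ⟨a1, a2, a3⟩ := ht
        exact absurd (by rw [← a1, ← a2, t2]) hm.1
      · simp only [e, if_false]
    · by_cases e : i = j
      · subst e
        simp only [if_true, Finset.mem_insert, hv', or_false] at hw
        subst hw
        obtain ⟨b1, b2, b3⟩ := h6 i
        simp only [if_true] at b3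
        by_cases hp : ρ = σ
        · subst hp
          exact ⟨τ + 1, h5, by rw [b2, t2], by rw [show τ + 1 + 1 = τ + 2 from rfl, b3, t3]⟩
        · refine absurd ?_ hm.2
          have : mv i ρ (mv i σ (P (τ + 1))) = P (τ + 1) := by
            funext k
            by_cases hk : k = i
            · subst hk; simp only [mv, Function.update_self]; omega
            · simp [mv, hk]
          rw [this]; exact hu
      · simp only [e, if_false] at hw; exact absurd hw hv'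

theorem cover {R : V2 → V2 → Prop} (T : Finset V2) (hT : T.Nonempty) (rr : ∀ u ∈ T, R u u)
    (hs : ∀ u v, R u v → R v u ∧ v ∈ T)
    (hc : ∀ S ⊆ T, S.Nonempty → S ≠ T → ∃ u ∈ S, ∃ j σ, σ < 2 ∧ mv j σ u ∉ S ∧ R u (mv j σ u)) :
    ∃ P c, Core R P c ∧ (∀ j t, c j t ≤ T.card) ∧ ∀ u ∈ T, ∃ τ, P (τ + 1) = u := by
  classical
  have key : ∀ k, k + 1 ≤ T.card → ∃ S ⊆ T, S.card = k + 1 ∧
      ∃ X P c, WInv R S X P c (fun _ => 0) := by
    intro k
    induction k with
    | zero =>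
      intro _
      obtain ⟨u, hu⟩ := hT
      exact ⟨{u}, by simpa using hu, by simp, fun _ => ∅, fun _ => u, fun _ _ => 0,
        ⟨fun _ => rr u hu, fun _ _ => le_rfl, fun _ _ _ => le_rfl, fun _ _ _ => le_rfl⟩,
        fun _ _ => by simp, fun _ => by simp, fun v hv => ⟨0, by simpa [eq_comm] using hv⟩,
        fun _ _ _ _ h => by simp at h⟩
    | succ k ih =>
      intro hk
      obtain ⟨S, h1, h2, X, P, c, H⟩ := ih (by omega)
      obtain ⟨u, hu, j, σ, hσ, hv, r⟩ := hc S h1 (Finset.card_pos.1 (by omega))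
        (fun e => by rw [e] at h2; omega)
      exact ⟨_, Finset.insert_subset (hs _ _ r).2 h1, by rw [Finset.card_insert_of_notMem hv, h2],
        grow H hu (rr u (h1 hu)) j σ hσ hv r (hs _ _ r).1⟩
  have hp := Finset.card_pos.2 hT
  obtain ⟨S, h1, h2, X, P, c, H⟩ := key (T.card - 1) (by omega)
  have e : S = T := Finset.eq_of_subset_of_card_le h1 (by omega)
  subst e
  exact ⟨P, c, H.core, fun j t => (H.bd j t).trans (by
    simpa using Finset.card_le_card (H.sub j)), H.vis⟩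

end Pool.Agent.H86.Pmc
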