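import Pool.Agent.H86.PnA
import Pool.Agent.H86.PoA

set_option autoImplicit false

namespace Pool.Agent.H86.Pmc

open Set Filter
open scoped ENNReal

theorem part (c : ℕ → ℕ) (hc : ∀ t, c t ≤ c (t + 1)) : ∀ N : ℕ, ∃ (k : ℕ) (τ : ℕ → ℕ),
    k ≤ c N ∧ τ 0 = 0 ∧ τ (k + 1) = N + 1 ∧ (∀ i ≤ k, τ i < τ (i + 1)) ∧
    ∀ i ≤ k, ∀ s, τ i ≤ s → s < τ (i + 1) → c s = c (τ i) := by
  intro N
  induction N with
  | zero =>
    refine ⟨0, id, by omega, rfl, rfl, fun i _ => by simp, fun i hi s h1 h2 => ?_⟩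
    simp only [id] at *
    rw [show s = i by omega]
  | succ N ih =>
    obtain ⟨k, τ, h1, h2, h3, h4, h5⟩ := ih
    by_cases e : c (N + 1) = c N
    · refine ⟨k, fun i => if i = k + 1 then N + 2 else τ i, by omega, by simpa using h2, by simp,
        fun i hi => ?_, fun i hi s a b => ?_⟩
      · have := h4 i hi
        dsimp only
        rw [if_neg (by omega)]
        split_ifs with h
        · rw [h] at this; omega
        · exact this
      · dsimp only at a b ⊢
        rw [if_neg (by omega)] at a ⊢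
        split_ifs at b with h
        · have h6 := h4 i hi
          rw [h, h3] at h6
          by_cases hs : s = N + 1
          · rw [hs, e]; exact h5 i hi N (by omega) (by rw [h]; omega)
          · exact h5 i hi s a (by rw [h]; omega)
        · exact h5 i hi s a b
    · have := hc N
      refine ⟨k + 1, fun i => if i = k + 2 then N + 2 else τ i, by omega, by simpa using h2,
        by simp, fun i hi => ?_, fun i hi s a b => ?_⟩
      · dsimp only
        rw [if_neg (by omega)]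
        split_ifs with h
        · rw [show i = k + 1 by omega]; omega
        · exact h4 i (by omega)
      · dsimp only at a b ⊢
        rw [if_neg (by omega)] at a ⊢
        split_ifs at b with h
        · rw [show i = k + 1 by omega] at a ⊢
          rw [h3, show s = N + 1 by omega]
        · exact h5 i (by omega) s a b

theorem G_monoOn (q : ℕ → ℝ) (m A B : ℕ) (h : ∀ s, A ≤ s → s < B → q s ≤ q (s + 1)) {u v : ℝ}
    (hu : (A : ℝ) ≤ u) (huv : u ≤ v) (hv : v ≤ B) : G q m u ≤ G q m v := by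
  unfold G
  refine add_le_add le_rfl (Finset.sum_le_sum fun i _ => ?_)
  by_cases h1 : i < A
  · have : (i : ℝ) + 1 ≤ A := by exact_mod_cast h1
    have e1 : ramp (u - i) = 1 := by
      unfold ramp; rw [min_eq_right (by linarith), max_eq_right zero_le_one]
    have e2 : ramp (v - i) = 1 := by
      unfold ramp; rw [min_eq_right (by linarith), max_eq_right zero_le_one]
    rw [e1, e2]
  by_cases h2 : i < B
  · refine mul_le_mul_of_nonneg_left ?_ (sub_nonneg.2 (h i (by omega) h2))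
    unfold ramp; gcongr
  · have : (B : ℝ) ≤ i := by exact_mod_cast not_lt.1 h2
    have e1 : ramp (u - i) = 0 := by
      unfold ramp; exact max_eq_left ((min_le_left _ _).trans (by linarith))
    have e2 : ramp (v - i) = 0 := by
      unfold ramp; exact max_eq_left ((min_le_left _ _).trans (by linarith))
    rw [e1, e2]

theorem G_neg (q : ℕ → ℝ) (m : ℕ) (u : ℝ) : G (fun i => -q i) m u = -G q m u := by
  unfold G
  rw [neg_add, ← Finset.sum_neg_distrib]
  congr 1
  exact Finset.sum_congr rfl fun i _ => by ring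

theorem G_inM' (q : ℕ → ℝ) (c : ℕ → ℕ) (hc : ∀ t, c t ≤ c (t + 1))
    (up : ∀ t, c t % 2 = 0 → q t ≤ q (t + 1)) (dn : ∀ t, c t % 2 = 1 → q (t + 1) ≤ q t)
    (N n : ℕ) (hn : c N + 1 ≤ n) :
    InM n (fun s => G q (N + 1) (((N + 1 : ℕ) : ℝ) * s)) := by
  obtain ⟨k, τ, h1, h2, h3, h4, h5⟩ := part c hc N
  have hN : (0 : ℝ) < ((N + 1 : ℕ) : ℝ) := by positivity
  refine ⟨((G_cont q _).comp (by fun_prop)).continuousOn, k + 1,
    fun i => (τ i : ℝ) / ((N + 1 : ℕ) : ℝ), by omega, by simp [h2],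
    by dsimp only; rw [h3]; exact div_self hN.ne', fun i hi => ?_, fun i hi => ?_⟩
  · exact div_lt_div_of_pos_right (by exact_mod_cast h4 i (by omega)) hN
  have hf : ∀ a ∈ Icc ((τ i : ℝ) / ((N + 1 : ℕ) : ℝ)) ((τ (i + 1) : ℝ) / ((N + 1 : ℕ) : ℝ)),
      (τ i : ℝ) ≤ ((N + 1 : ℕ) : ℝ) * a ∧ ((N + 1 : ℕ) : ℝ) * a ≤ τ (i + 1) := fun a ha =>
    ⟨by rw [mul_comm]; exact (div_le_iff₀ hN).1 ha.1, by
      rw [mul_comm]; exact (le_div_iff₀ hN).1 ha.2⟩
  rcases Nat.mod_two_eq_zero_or_one (c (τ i)) with e | e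
  · left
    intro a ha b hb hab
    exact G_monoOn q _ _ _ (fun s s1 s2 => up s (by rw [h5 i (by omega) s s1 s2, e])) (hf a ha).1
      (by gcongr) (hf b hb).2
  · right
    intro a ha b hb hab
    have := G_monoOn (fun i => -q i) (N + 1) _ _
      (fun s s1 s2 => neg_le_neg (dn s (by rw [h5 i (by omega) s s1 s2, e]))) (hf a ha).1
      (mul_le_mul_of_nonneg_left hab hN.le) (hf b hb).2
    rw [G_neg, G_neg] at this
    exact neg_le_neg_iff.1 this

def co (j : Bool) (z : ℝ × ℝ) : ℝ := if j then z.1 else z.2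

def cell (ε : ℝ) (u : V2) : Set (ℝ × ℝ) := {z | ∀ j, |co j z - (2 * u j + 1) * ε| ≤ ε}

theorem cell_closed (ε : ℝ) (u : V2) : IsClosed (cell ε u) := by
  have : cell ε u = ⋂ j, {z | |co j z - (2 * u j + 1) * ε| ≤ ε} := by ext; simp [cell]
  rw [this]
  refine isClosed_iInter fun j => isClosed_le ?_ continuous_const
  unfold co
  cases j <;> simp only [if_true, Bool.false_eq_true, if_false] <;> fun_prop

theorem cell_ex {p : ℕ} {ε x : ℝ} (h0 : 0 < ε) (hp : 2 * p * ε = 1) (h1 : 0 ≤ x) (h2 : x ≤ 1) :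
    ∃ k ∈ Finset.Ico (0 : ℤ) p, |x - (2 * k + 1) * ε| ≤ ε := by
  have hp0 : 0 < p := by
    rcases Nat.eq_zero_or_pos p with rfl | h
    · simp at hp
    · exact h
  rcases h2.eq_or_lt with rfl | h2
  · refine ⟨p - 1, by simp; omega, ?_⟩
    push_cast
    rw [abs_le]; constructor <;> nlinarith
  · have a1 := Int.floor_le (x / (2 * ε))
    have a2 := Int.lt_floor_add_one (x / (2 * ε))
    rw [le_div_iff₀ (by positivity)] at a1
    rw [div_lt_iff₀ (by positivity)] at a2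
    refine ⟨⌊x / (2 * ε)⌋, Finset.mem_Ico.2 ⟨Int.floor_nonneg.2 (by positivity), ?_⟩, ?_⟩
    · rw [Int.floor_lt, div_lt_iff₀ (by positivity)]
      push_cast; nlinarith
    · rw [abs_le]; constructor <;> nlinarith

theorem upperZ {n p : ℕ} (hp : 1 ≤ p) (hn : p * p + 1 ≤ n) :
    worstZ 0 1 n ≤ ENNReal.ofReal (1 / (2 * p)) := by
  classical
  have hp' : (0 : ℝ) < p := by exact_mod_cast hp
  obtain ⟨ε, hε⟩ : ∃ ε : ℝ, ε = 1 / (2 * p) := ⟨_, rfl⟩
  have h0 : 0 < ε := by rw [hε]; positivity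
  have h1 : 2 * p * ε = 1 := by rw [hε]; field_simp
  rw [← hε]
  refine iSup₂_le ?_
  rintro F ⟨-, ⟨hne, hF⟩, hD⟩
  let B : Finset V2 := Fintype.piFinset fun _ => Finset.Ico (0 : ℤ) p
  let T := B.filter fun u => ∃ z ∈ F, z ∈ cell ε u
  let R : V2 → V2 → Prop := fun u v => u ∈ B ∧ v ∈ B ∧ ∃ z ∈ F, z ∈ cell ε u ∧ z ∈ cell ε v
  have hT : ∀ z ∈ F, ∃ u ∈ T, z ∈ cell ε u := fun z hz => by
    have : ∀ j, ∃ k ∈ Finset.Ico (0 : ℤ) p, |co j z - (2 * k + 1) * ε| ≤ ε := fun j => by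
      obtain ⟨⟨a, b⟩, c, d⟩ := hD hz
      cases j
      · exact cell_ex h0 h1 c d
      · exact cell_ex h0 h1 a b
    choose u u1 u2 using this
    exact ⟨u, Finset.mem_filter.2 ⟨Fintype.mem_piFinset.2 u1, z, hz, u2⟩, u2⟩
  have hcard : T.card ≤ p * p := (Finset.card_filter_le _ _).trans (by simp [B, sq])
  have hmv : ∀ (u v : V2) (j : Bool) (z : ℝ × ℝ), z ∈ cell ε u → z ∈ cell ε v → u ≠ v →
      (∀ i, i ≠ j → u i = v i) → ∃ σ, σ < 2 ∧ mv j σ u = v := by
    intro u v j z a b hne h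
    obtain ⟨a1, a2⟩ := abs_le.1 (a j)
    obtain ⟨b1, b2⟩ := abs_le.1 (b j)
    have c1 : (u j : ℝ) ≤ v j + 1 := by by_contra z; nlinarith [not_le.1 z]
    have c2 : (v j : ℝ) ≤ u j + 1 := by by_contra z; nlinarith [not_le.1 z]
    have c3 : u j ≠ v j := fun e => hne (funext fun i => by
      by_cases hi : i = j
      · rw [hi, e]
      · exact h i hi)
    norm_cast at c1 c2
    refine ⟨if u j < v j then 0 else 1, by split_ifs <;> omega, funext fun i => ?_⟩
    by_cases hi : i = j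
    · subst hi; simp only [mv, Function.update_self]; split_ifs <;> push_cast <;> omega
    · simp [mv, hi, h i hi]
  obtain ⟨P, c, H, hb, hv⟩ := cover (R := R) T (by
      obtain ⟨z, hz⟩ := hne
      obtain ⟨u, hu, -⟩ := hT z hz
      exact ⟨u, hu⟩)
    (fun u hu => by
      obtain ⟨a, z, b, c⟩ := Finset.mem_filter.1 hu
      exact ⟨a, a, z, b, c, c⟩)
    (fun u v ⟨a, b, z, c, d, e⟩ => ⟨⟨b, a, z, c, e, d⟩, Finset.mem_filter.2 ⟨b, z, c, e⟩⟩)
    (by
      intro S hS ⟨u, hu⟩ hne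
      obtain ⟨v, hv, hv'⟩ := Finset.exists_of_ssubset (Finset.ssubset_iff_subset_ne.2 ⟨hS, hne⟩)
      obtain ⟨z, hz, z1, z2⟩ := isPreconnected_closed_iff.1 hF (⋃ u ∈ S, cell ε u)
        (⋃ u ∈ T \ S, cell ε u) (S.finite_toSet.isClosed_biUnion fun _ _ => cell_closed _ _)
        ((T \ S).finite_toSet.isClosed_biUnion fun _ _ => cell_closed _ _) (fun z hz => by
          obtain ⟨w, w1, w2⟩ := hT z hz
          by_cases h : w ∈ S
          · exact Or.inl (mem_iUnion₂.2 ⟨w, h, w2⟩)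
          · exact Or.inr (mem_iUnion₂.2 ⟨w, Finset.mem_sdiff.2 ⟨w1, h⟩, w2⟩))
        (by
          obtain ⟨-, z, a, b⟩ := Finset.mem_filter.1 (hS hu)
          exact ⟨z, a, mem_iUnion₂.2 ⟨u, hu, b⟩⟩)
        (by
          obtain ⟨-, z, a, b⟩ := Finset.mem_filter.1 hv
          exact ⟨z, a, mem_iUnion₂.2 ⟨v, Finset.mem_sdiff.2 ⟨hv, hv'⟩, b⟩⟩)
      obtain ⟨a, a1, a2⟩ := mem_iUnion₂.1 z1
      obtain ⟨b, b1, b2⟩ := mem_iUnion₂.1 z2
      obtain ⟨b3, b4⟩ := Finset.mem_sdiff.1 b1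
      have aB := (Finset.mem_filter.1 (hS a1)).1
      have bB := (Finset.mem_filter.1 b3).1
      let w : V2 := fun j => if j then b j else a j
      have wz : z ∈ cell ε w := fun j => by
        cases j
        · exact a2 false
        · exact b2 true
      have wB : w ∈ B := Fintype.mem_piFinset.2 fun j => by
        cases j
        · exact Fintype.mem_piFinset.1 aB false
        · exact Fintype.mem_piFinset.1 bB true
      by_cases hw : w ∈ S
      · obtain ⟨σ, s1, s2⟩ := hmv w b false z wz b2 (fun e => b4 (e ▸ hw)) (fun i hi => by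
          cases i
          · exact absurd rfl hi
          · rfl)
        exact ⟨w, hw, false, σ, s1, s2 ▸ b4, s2 ▸ ⟨wB, bB, z, hz, wz, b2⟩⟩
      · obtain ⟨σ, s1, s2⟩ := hmv a w true z a2 wz (fun e => hw (e ▸ a1)) (fun i hi => by
          cases i
          · rfl
          · exact absurd rfl hi)
        exact ⟨a, a1, true, σ, s1, s2 ▸ hw, s2 ▸ ⟨aB, wB, z, hz, a2, wz⟩⟩)
  choose! f hf using hv
  let N := T.sup f
  let q : Bool → ℕ → ℝ := fun j t => (2 * P t j + 1) * ε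
  have hq : ∀ j, InM n (fun s => G (q j) (N + 1) (((N + 1 : ℕ) : ℝ) * s)) := fun j =>
    G_inM' (q j) (c j) (H.mono j) (fun t e => by
        have : (P t j : ℝ) ≤ P (t + 1) j := by exact_mod_cast H.up j t e
        simp only [q]; gcongr)
      (fun t e => by
        have : (P (t + 1) j : ℝ) ≤ P t j := by exact_mod_cast H.dn j t e
        simp only [q]; gcongr) N n (by have := hb j N; omega)
  have hN : (0 : ℝ) < ((N + 1 : ℕ) : ℝ) := by positivity
  refine iInf₂_le_of_le _ ⟨_, _, hq true, hq false, rfl⟩ ?_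
  apply Metric.hausdorffEDist_le_of_mem_edist
  · intro z hz
    obtain ⟨u, hu, uz⟩ := hT z hz
    have e1 : f u + 1 ≤ N + 1 := Nat.succ_le_succ (Finset.le_sup hu)
    have e2 : ((f u + 1 : ℕ) : ℝ) ≤ ((N + 1 : ℕ) : ℝ) := by exact_mod_cast e1
    refine ⟨_, ⟨((f u + 1 : ℕ) : ℝ) / ((N + 1 : ℕ) : ℝ), ⟨by positivity, (div_le_one hN).2 e2⟩,
      rfl⟩, ?_⟩
    simp only [mul_div_cancel₀ _ hN.ne', G_node _ e1, q, hf u hu]
    exact box_le (a := z.1) (b := z.2) (uz true) (uz false)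
  · rintro _ ⟨s, hs, rfl⟩
    obtain ⟨t, t1, t2, t3⟩ : ∃ t : ℕ, t + 1 ≤ N + 1 ∧ (t : ℝ) ≤ ((N + 1 : ℕ) : ℝ) * s ∧
        ((N + 1 : ℕ) : ℝ) * s ≤ t + 1 := by
      rcases hs.2.eq_or_lt with rfl | h
      · exact ⟨N, le_rfl, by push_cast; linarith, by push_cast; linarith⟩
      · have h2 : 0 ≤ ((N + 1 : ℕ) : ℝ) * s := mul_nonneg hN.le hs.1
        exact ⟨⌊((N + 1 : ℕ) : ℝ) * s⌋₊, (Nat.floor_lt h2).2 (by nlinarith), Nat.floor_le h2,
          (Nat.lt_floor_add_one _).le⟩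
    obtain ⟨-, -, z, hz, z1, z2⟩ := H.adj t
    refine ⟨z, hz, ?_⟩
    have key : ∀ j, |G (q j) (N + 1) (((N + 1 : ℕ) : ℝ) * s) - co j z| ≤ ε := fun j => by
      rw [G_mid _ t2 t3 _ t1]
      obtain ⟨a1, a2⟩ := abs_le.1 (z1 j)
      obtain ⟨b1, b2⟩ := abs_le.1 (z2 j)
      have c1 := sub_nonneg.2 t2
      have c2 := sub_nonneg.2 t3
      simp only [q]
      rw [abs_le]
      constructor <;> nlinarith [mul_nonneg c1 (sub_nonneg.2 b1), mul_nonneg c1 (sub_nonneg.2 b2),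
        mul_nonneg c2 (sub_nonneg.2 a1), mul_nonneg c2 (sub_nonneg.2 a2)]
    exact box_le (c := z.1) (d := z.2) (key true) (key false)

end Pool.Agent.H86.Pmc
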