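import Pool.Agent.H86.RoeD

set_option autoImplicit false

namespace Pool.Agent.H86.Pon

open Pool.Agent.H86.Roe Finset Equiv Filter Topology

/-- a family of involutive moves with costs -/
structure MV (Z I : Type) where
  act : I → Perm Z
  inv : ∀ i z, act i (act i z) = z
  cost : I → ℕ
  fin : ∀ n, {i | cost i ≤ n}.Finite

namespace MV

variable {Z I : Type} (M : MV Z I)

/-- reachability by at most `k` moves of cost at most `c` -/
inductive Rch (c : ℕ) : ℕ → Z → Z → Prop
  | refl (k : ℕ) (y : Z) : Rch c k y y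
  | step {k : ℕ} {y y' : Z} (i : I) (hi : M.cost i ≤ c) : Rch c k y y' →
      Rch c (k + 1) y (M.act i y')

variable {M}

theorem Rch.mono {c c' k k' : ℕ} {y y' : Z} (h : M.Rch c k y y') (hc : c ≤ c') (hk : k ≤ k') :
    M.Rch c' k' y y' := by
  induction h generalizing k' with
  | refl k y => exact .refl _ _
  | step i hi _ ih =>
    obtain ⟨k', rfl⟩ : ∃ j, k' = j + 1 := ⟨k' - 1, by omega⟩
    exact .step i (hi.trans hc) (ih (by omega))

theorem Rch.trans {c k k' : ℕ} {y y' y'' : Z} (h : M.Rch c k y y') (h' : M.Rch c k' y' y'') :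
    M.Rch c (k + k') y y'' := by
  induction h' with
  | refl k y => exact h.mono le_rfl (by omega)
  | step i hi _ ih => exact .step i hi (ih h)

theorem Rch.one {c : ℕ} (i : I) (hi : M.cost i ≤ c) (y : Z) : M.Rch c 1 y (M.act i y) :=
  .step i hi (.refl 0 y)

theorem Rch.symm {c k : ℕ} {y y' : Z} (h : M.Rch c k y y') : M.Rch c k y' y := by
  induction h with
  | refl k y => exact .refl _ _
  | @step k y y' i hi _ ih =>
    have h1 := Rch.one i hi (M.act i y')
    rw [M.inv] at h1
    exact (h1.trans ih).mono le_rfl (by omega)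

variable (M)

/-- all points are joined -/
def Conn : Prop := ∀ y y', ∃ n, M.Rch n n y y'

/-- the distance -/
noncomputable def d (y y' : Z) : ℕ := sInf {n | M.Rch n n y y'}

variable {M}

theorem d_le {c k : ℕ} {y y' : Z} (h : M.Rch c k y y') : M.d y y' ≤ max c k :=
  Nat.sInf_le (h.mono (le_max_left _ _) (le_max_right _ _))

theorem Conn.rch (h : M.Conn) {y y' : Z} {n : ℕ} (hn : M.d y y' ≤ n) : M.Rch n n y y' :=
  Rch.mono (Nat.sInf_mem (s := {n | M.Rch n n y y'}) (h y y')) hn hn

/-- the metric -/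
@[reducible] noncomputable def Conn.met (h : M.Conn) : MetricSpace Z where
  dist y y' := M.d y y'
  dist_self y := by simpa using d_le (Rch.refl (M := M) (c := 0) 0 y)
  dist_comm y y' := by
    have h1 := d_le (h.rch (le_refl (M.d y y'))).symm
    have h2 := d_le (h.rch (le_refl (M.d y' y))).symm
    simp only [max_self] at h1 h2
    exact_mod_cast le_antisymm h2 h1
  dist_triangle a b c := by
    have h1 := d_le (((h.rch (le_refl (M.d a b))).mono (Nat.le_add_right _ (M.d b c)) le_rfl).trans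
      ((h.rch (le_refl (M.d b c))).mono (Nat.le_add_left _ _) le_rfl))
    simp only [max_self] at h1
    exact_mod_cast h1
  eq_of_dist_eq_zero := by
    intro a b h0
    have h1 : M.d a b ≤ 0 := by exact_mod_cast h0.le
    cases h.rch h1
    rfl

theorem words (S : Submonoid (Perm Z)) (hS : ∀ i, M.act i ∈ S) (c k : ℕ) :
    ∃ W : Finset (Perm Z), (∀ w ∈ W, w ∈ S) ∧ ∀ y y', M.Rch c k y y' → ∃ w ∈ W, y' = w y := by
  classical
  induction k with
  | zero =>
    refine ⟨{1}, by simp, fun y y' h => ⟨1, by simp, ?_⟩⟩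
    cases h
    rfl
  | succ k ih =>
    obtain ⟨W, h1, h2⟩ := ih
    refine ⟨W ∪ image₂ (fun i w => M.act i * w) (M.fin c).toFinset W, fun w hw => ?_,
      fun y y' h => ?_⟩
    · rcases mem_union.mp hw with h | h
      · exact h1 w h
      · obtain ⟨a, -, b, hb, rfl⟩ := mem_image₂.mp h
        exact S.mul_mem (hS a) (h1 b hb)
    · cases h with
      | refl =>
        obtain ⟨w, hw, h⟩ := h2 y y (.refl _ _)
        exact ⟨w, mem_union_left _ hw, h⟩
      | step i hi h =>
        obtain ⟨w, hw, rfl⟩ := h2 _ _ h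
        exact ⟨M.act i * w, mem_union_right _ (mem_image₂_of_mem (by simpa using hi) hw), rfl⟩

theorem Conn.rch' (h : M.Conn) {y y' : Z} {r : ℝ} (hr : (M.d y y' : ℝ) ≤ r) :
    M.Rch ⌈r⌉₊ ⌈r⌉₊ y y' :=
  h.rch (by exact_mod_cast hr.trans (Nat.le_ceil r))

theorem Conn.ulf (h : M.Conn) (r : ℝ) : letI := h.met
    ∃ N : ℕ, ∀ x : Z, (Metric.closedBall x r).Finite ∧ (Metric.closedBall x r).ncard ≤ N := by
  classical
  letI := h.met
  obtain ⟨W, -, h2⟩ := words (M := M) ⊤ (fun _ => trivial) ⌈r⌉₊ ⌈r⌉₊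
  refine ⟨#W, fun x => ?_⟩
  have h3 : Metric.closedBall x r ⊆ (W.image (fun w => w x) : Finset Z) := fun y hy => by
    obtain ⟨w, hw, rfl⟩ := h2 x y (h.rch' (Metric.mem_closedBall'.mp hy))
    exact mem_coe.mpr (mem_image_of_mem _ hw)
  refine ⟨(Finset.finite_toSet _).subset h3, (Set.ncard_le_ncard h3).trans ?_⟩
  rw [Set.ncard_coe_finset]
  exact card_image_le

end MV

section glue
variable {Y Y' J : Type}

theorem sum_ind (π : Y → J) (ξ : H Y) (t : Finset J) :
    ∑ j ∈ t, ‖Ind (fun y => π y = j) ξ‖ ^ 2 ≤ ‖ξ‖ ^ 2 := by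
  classical
  have h0 : ∀ η : H Y, HasSum (fun y => ‖η y‖ ^ 2) (‖η‖ ^ 2) := fun η => by
    simpa using lp.hasSum_norm (p := 2) (by simp) η
  refine hasSum_le (fun y => ?_) (hasSum_sum fun j _ => h0 _) (h0 ξ)
  simp only [Ind_apply]
  rw [sum_congr rfl (g := fun j => if π y = j then ‖ξ y‖ ^ 2 else 0) fun j _ => by
    split_ifs <;> simp, sum_ite_eq]
  split_ifs
  · exact le_rfl
  · positivity

theorem glue_le (π : Y → J) (κ : Y → Y') (hκ : ∀ y y', π y = π y' → κ y = κ y' → y = y')
    (T : J → H Y →L[ℂ] H Y') {M : ℝ} (hT : ∀ j, ‖T j‖ ≤ M) (ξ : H Y) (s : Finset Y) :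
    ∑ y ∈ s, ‖T (π y) (Ind (fun y' => π y' = π y) ξ) (κ y)‖ ^ 2 ≤ (M * ‖ξ‖) ^ 2 := by
  classical
  rw [← sum_fiberwise_of_maps_to (g := π) (t := s.image π) (fun y hy => mem_image_of_mem π hy)]
  calc _ ≤ ∑ j ∈ s.image π, M ^ 2 * ‖Ind (fun y => π y = j) ξ‖ ^ 2 := by
        refine sum_le_sum fun j _ => ?_
        rw [sum_congr rfl (g := fun y => ‖T j (Ind (fun y' => π y' = j) ξ) (κ y)‖ ^ 2)
          fun y hy => by rw [(mem_filter.mp hy).2],
          ← sum_image (f := fun y' => ‖T j (Ind (fun y' => π y' = j) ξ) y'‖ ^ 2) fun y hy y' hy' h =>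
            hκ y y' ((mem_filter.mp hy).2.trans (mem_filter.mp hy').2.symm) h]
        refine (sum_le_sq _ _).trans ?_
        rw [← mul_pow]
        gcongr
        exact (T j).le_of_opNorm_le (hT j) _
    _ ≤ _ := by
        rw [← mul_sum, mul_pow]
        gcongr
        exact sum_ind π ξ _

/-- fibrewise gluing of operators -/
noncomputable def glue (π : Y → J) (κ : Y → Y') (hκ : ∀ y y', π y = π y' → κ y = κ y' → y = y')
    (T : J → H Y →L[ℂ] H Y') {M : ℝ} (h0 : 0 ≤ M) (hT : ∀ j, ‖T j‖ ≤ M) : H Y →L[ℂ] H Y :=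
  LinearMap.mkContinuous
    { toFun := fun ξ => ⟨fun y => T (π y) (Ind (fun y' => π y' = π y) ξ) (κ y),
        memℓp_gen' (C := (M * ‖ξ‖) ^ 2) (by simpa using glue_le π κ hκ T hT ξ)⟩
      map_add' := fun ξ η => lp.ext (funext fun y => by simp)
      map_smul' := fun t ξ => lp.ext (funext fun y => by simp) }
    M fun ξ => norm_le_of _ (mul_nonneg h0 (norm_nonneg _)) (glue_le π κ hκ T hT ξ)

theorem glue_apply (π : Y → J) (κ : Y → Y') (hκ : ∀ y y', π y = π y' → κ y = κ y' → y = y')
    (T : J → H Y →L[ℂ] H Y') {M : ℝ} (h0 : 0 ≤ M) (hT : ∀ j, ‖T j‖ ≤ M) (ξ : H Y) (y : Y) :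
    glue π κ hκ T h0 hT ξ y = T (π y) (Ind (fun y' => π y' = π y) ξ) (κ y) := rfl

end glue

section amp
variable {X G : Type}

theorem sl_bd (g : G) : Bd (fun x : X => (x, g)) (fun _ => 1) 1 :=
  bd_inj (fun _ _ h => congrArg Prod.fst h) zero_le_one (by simp)

/-- slices -/
noncomputable def sl (g : G) : H (X × G) →L[ℂ] H X := wc (fun x => (x, g)) (fun _ => 1)

theorem sl_apply (g : G) (ξ : H (X × G)) (x : X) : sl g ξ x = ξ (x, g) := by
  rw [sl, wc_apply (sl_bd g), one_mul]

/-- amplification -/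
noncomputable def amp (G : Type) (a : H X →L[ℂ] H X) : H (X × G) →L[ℂ] H (X × G) :=
  glue Prod.snd Prod.fst (fun _ _ h h' => Prod.ext h' h) (fun g => a.comp (sl g)) (norm_nonneg a)
    fun g => (a.opNorm_comp_le _).trans (mul_le_of_le_one_right (norm_nonneg a)
      (norm_le_bd (sl_bd g) _ (by simp [sl_apply])))

theorem amp_apply (a : H X →L[ℂ] H X) (ξ : H (X × G)) (y : X × G) :
    amp G a ξ y = a (sl y.2 ξ) y.1 := by
  have : sl y.2 (Ind (fun y' => y'.2 = y.2) ξ) = sl y.2 ξ :=
    lp.ext (funext fun x => by simp [sl_apply, Ind_apply])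
  rw [amp, glue_apply, ContinuousLinearMap.comp_apply, this]

theorem sl_amp (a : H X →L[ℂ] H X) (ξ : H (X × G)) (g : G) : sl g (amp G a ξ) = a (sl g ξ) :=
  lp.ext (funext fun x => by rw [sl_apply, amp_apply])

open Classical in
theorem sl_δ (g : G) (y : X × G) : sl g (δ y) = if g = y.2 then δ y.1 else 0 :=
  lp.ext (funext fun x => by
    rw [sl_apply, δ_apply]
    by_cases h : g = y.2
    · simp [h, δ_apply, Prod.ext_iff]
    · simp [h, Prod.ext_iff])

theorem amp_star (a : H X →L[ℂ] H X) : amp G (star a) = star (amp G a) := by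
  refine ext_ent fun y y' => ?_
  rw [ContinuousLinearMap.star_eq_adjoint (amp G a), adj_ent, amp_apply, amp_apply, sl_δ, sl_δ]
  by_cases h : y.2 = y'.2
  · rw [if_pos h, if_pos h.symm, ContinuousLinearMap.star_eq_adjoint, adj_ent]
  · rw [if_neg h, if_neg (Ne.symm h)]
    simp

/-- the fibre projections -/
noncomputable def P (G : Type) (x : X) : H (X × G) →L[ℂ] H (X × G) := Ind fun y => y.1 = x

open Classical in
theorem P_apply (x : X) (ξ : H (X × G)) (y : X × G) :
    P G x ξ y = if y.1 = x then ξ y else 0 := Ind_apply _ _ _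

theorem ext_P {a b : H (X × G) →L[ℂ] H (X × G)} (h : ∀ x, a * P G x = b * P G x) : a = b :=
  ext_ent fun y y' => by
    have := congrArg (fun c : H (X × G) →L[ℂ] H (X × G) => c (δ y) y') (h y.1)
    simpa [P, Ind_δ] using this

theorem P_star (x : X) : star (P G x) = P G x := Ind_star _

theorem V_P {g : Perm X} {w : Perm (X × G)} (h : ∀ y, (w y).1 = g y.1) (x : X) :
    V w * P G (g x) = P G x * V w :=
  ext_pt fun ξ y => by
    classical
    simp only [mul_apply_eq_comp, V_apply, P_apply]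
    exact if_congr (by rw [h y, g.injective.eq_iff]) rfl rfl

end amp

/-- a sequence of fibrewise unitaries that is eventually trivial on each fibre -/
structure Tw (X G : Type) where
  W : ℕ → H (X × G) →L[ℂ] H (X × G)
  uni : ∀ i, W i ∈ unitary (H (X × G) →L[ℂ] H (X × G))
  com : ∀ i x, W i * P G x = P G x * W i
  ev : ∀ x, ∃ m, ∀ i, m ≤ i → W i * P G x = P G x

namespace Tw

variable {X G : Type} (S : Tw X G)

/-- finite products -/
noncomputable def pr : ℕ → H (X × G) →L[ℂ] H (X × G)
  | 0 => 1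
  | m + 1 => pr m * S.W m

theorem pr_uni (m : ℕ) : S.pr m ∈ unitary (H (X × G) →L[ℂ] H (X × G)) := by
  induction m with
  | zero => exact one_mem _
  | succ m ih => exact mul_mem ih (S.uni m)

theorem pr_norm (m : ℕ) : ‖S.pr m‖ ≤ 1 := by
  have h := CStarRing.norm_star_mul_self (x := S.pr m)
  rw [(S.pr_uni m).1] at h
  have h1 : ‖(1 : H (X × G) →L[ℂ] H (X × G))‖ ≤ 1 := ContinuousLinearMap.norm_id_le
  nlinarith [norm_nonneg (S.pr m)]

theorem pr_com (m : ℕ) (x : X) : S.pr m * P G x = P G x * S.pr m := by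
  induction m with
  | zero => simp [pr]
  | succ m ih => rw [pr, mul_assoc, S.com, ← mul_assoc, ih, mul_assoc]

theorem pr_com' (m : ℕ) (x : X) : star (S.pr m) * P G x = P G x * star (S.pr m) := by
  have := congrArg star (S.pr_com m x)
  rw [star_mul, star_mul, P_star] at this
  exact this.symm

/-- the glued unitary -/
noncomputable def U : H (X × G) →L[ℂ] H (X × G) :=
  glue Prod.fst id (fun _ _ _ h => h) (fun x => S.pr (S.ev x).choose) zero_le_one
    fun _ => S.pr_norm _

theorem U_com (x : X) : S.U * P G x = P G x * S.U :=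
  ext_pt fun ξ y => by
    have h1 : ∀ η, S.U η y = S.pr (S.ev y.1).choose (P G y.1 η) y := fun _ => rfl
    simp only [mul_apply_eq_comp]
    rw [P_apply, h1, h1]
    by_cases h : y.1 = x
    · subst h
      have : P G y.1 (P G y.1 ξ) = P G y.1 ξ :=
        lp.ext (funext fun y' => by
          simp only [P_apply]
          split_ifs <;> rfl)
      rw [if_pos rfl, this]
    · have : P G y.1 (P G x ξ) = 0 :=
        lp.ext (funext fun y' => by
          simp only [P_apply]
          split_ifs with h2 h3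
          · exact absurd (h2.symm.trans h3) h
          · rfl
          · rfl)
      rw [if_neg h, this, map_zero]
      rfl

theorem U_P (x : X) : ∀ᶠ m in atTop, S.U * P G x = S.pr m * P G x := by
  have h0 : S.U * P G x = S.pr (S.ev x).choose * P G x := by
    rw [S.U_com, S.pr_com]
    refine ext_pt fun ξ y => ?_
    have h1 : ∀ η, S.U η y = S.pr (S.ev y.1).choose (P G y.1 η) y := fun _ => rfl
    simp only [mul_apply_eq_comp]
    rw [P_apply, P_apply, h1]
    split_ifs with h
    · subst h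
      rw [← mul_apply_eq_comp, S.pr_com, mul_apply_eq_comp, P_apply, if_pos rfl]
    · rfl
  refine eventually_atTop.mpr ⟨(S.ev x).choose, fun m hm => ?_⟩
  induction m, hm using Nat.le_induction with
  | base => exact h0
  | succ m hm ih => rw [pr, mul_assoc, (S.ev x).choose_spec m hm, ih]

theorem Us_P {x : X} {m : ℕ} (h : S.U * P G x = S.pr m * P G x) :
    star S.U * P G x = P G x * star (S.pr m) := by
  have := congrArg star h
  rw [S.U_com, star_mul, star_mul, P_star] at this
  exact this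

theorem U_U : star S.U * S.U = 1 :=
  ext_P fun x => by
    obtain ⟨m, h⟩ := (S.U_P x).exists
    rw [mul_assoc, h, S.pr_com, ← mul_assoc, S.Us_P h, mul_assoc, (S.pr_uni m).1, mul_one, one_mul]

/-- the embedding -/
noncomputable def Φ : (H X →L[ℂ] H X) →⋆ₙₐ[ℂ] (H (X × G) →L[ℂ] H (X × G)) where
  toFun a := S.U * amp G a * star S.U
  map_smul' t a := by
    have : amp G (t • a) = t • amp G a := ext_pt fun ξ y => by simp [amp_apply]
    simp [this]
  map_zero' := by
    have : amp G (0 : H X →L[ℂ] H X) = 0 := ext_pt fun ξ y => by simp [amp_apply]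
    simp [this]
  map_add' a b := by
    have : amp G (a + b) = amp G a + amp G b := ext_pt fun ξ y => by simp [amp_apply]
    rw [this, mul_add, add_mul]
  map_mul' a b := by
    have : amp G (a * b) = amp G a * amp G b := ext_pt fun ξ y => by simp [amp_apply, sl_amp]
    rw [this]
    simp only [mul_assoc]
    rw [← mul_assoc (star S.U), S.U_U, one_mul]
  map_star' a := by rw [amp_star, star_mul, star_mul, star_star, mul_assoc]

theorem Φ_apply (a : H X →L[ℂ] H X) : S.Φ a = S.U * amp G a * star S.U := rfl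

theorem Φ_inj (g : G) : Function.Injective S.Φ := fun a b h => by
  have h1 : ∀ a, star S.U * S.Φ a * S.U = amp G a := fun a => by
    rw [Φ_apply]
    simp only [mul_assoc]
    rw [S.U_U, mul_one, ← mul_assoc, S.U_U, one_mul]
  have h2 : amp G a = amp G b := by rw [← h1, h, h1]
  refine ext_ent fun x x' => ?_
  have := congrArg (fun c : H (X × G) →L[ℂ] H (X × G) => c (δ (x, g)) (x', g)) h2
  simpa [amp_apply, sl_δ] using this

theorem Φ_D {f : X → ℂ} {M : ℝ} (h0 : 0 ≤ M) (h : ∀ x, ‖f x‖ ≤ M) :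
    S.Φ (D f) = D (fun y : X × G => f y.1) := by
  have h1 := D_apply (f := fun y : X × G => f y.1) h0 (fun y => h _)
  have h2 : amp G (D f) = D (fun y : X × G => f y.1) :=
    ext_pt fun ξ y => by rw [amp_apply, D_apply h0 h, h1, sl_apply]
  have h3 : ∀ x, D (fun y : X × G => f y.1) * P G x = f x • P G x := fun x =>
    ext_pt fun ξ y => by
      simp only [mul_apply_eq_comp, h1, P_apply, smul_apply,
        lp.coeFn_smul, Pi.smul_apply, smul_eq_mul]
      split_ifs with h4
      · rw [h4]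
      · simp
  refine ext_P fun x => ?_
  obtain ⟨m, hm⟩ := (S.U_P x).exists
  rw [Φ_apply, h2, mul_assoc, S.Us_P hm, ← mul_assoc, mul_assoc S.U, h3, mul_smul_comm, hm,
    S.pr_com, smul_mul_assoc, mul_assoc, (S.pr_uni m).2, mul_one]

variable [MetricSpace (X × G)]

theorem V_mem (hW : ∀ i, S.W i ∈ FP (X × G)) (g : Perm X) (Z : ℕ → Perm (X × G))
    (h1 : ∀ m, V (Z m) ∈ FP (X × G)) (h2 : ∀ m y, (Z m y).1 = g y.1)
    (h3 : ∀ x, ∀ᶠ m in atTop, ∀ γ, (Z m (x, γ)).2 = γ) (C : ℝ)
    (h4 : ∀ᶠ m in atTop, ‖S.W m * V (Z (m + 1)) - V (Z m) * S.W m‖ ≤ C * (1 / 2) ^ m) :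
    S.Φ (V g) ∈ (FP (X × G)).topologicalClosure := by
  let z : ℕ → H (X × G) →L[ℂ] H (X × G) := fun m => S.pr m * V (Z m) * star (S.pr m)
  have hp : ∀ m, S.pr m ∈ FP (X × G) := fun m => by
    induction m with
    | zero => exact one_mem _
    | succ m ih => exact mul_mem ih (hW m)
  have hc : CauchySeq z := by
    refine cauchySeq_of_summable_dist (Summable.of_norm_bounded_eventually_nat
      ((summable_geometric_two).mul_left C) (h4.mono fun m hm => ?_))
    have e : z (m + 1) - z m = S.pr m * (S.W m * V (Z (m + 1)) - V (Z m) * S.W m) *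
        star (S.pr (m + 1)) := by
      simp only [z, pr, star_mul, mul_sub, sub_mul, mul_assoc]
      rw [← mul_assoc (S.W m) (star (S.W m)), (S.uni m).2, one_mul]
    rw [Real.norm_of_nonneg dist_nonneg, dist_comm, dist_eq_norm, e]
    refine (norm_mul₃_le).trans (le_trans ?_ hm)
    refine (mul_le_of_le_one_right (by positivity) ((norm_star _).trans_le (S.pr_norm _))).trans ?_
    exact mul_le_of_le_one_left (norm_nonneg _) (S.pr_norm _)
  obtain ⟨l, hl⟩ := cauchySeq_tendsto_of_complete hc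
  have e : S.Φ (V g) = l := by
    refine ext_P fun x' => ?_
    obtain ⟨x, rfl⟩ := g.surjective x'
    have e1 : amp G (V g) = V (g.prodCongr (Equiv.refl G)) :=
      ext_pt fun ξ y => by rw [amp_apply, V_apply, V_apply, sl_apply]; rfl
    refine tendsto_nhds_unique (tendsto_const_nhds.congr' ?_) (hl.mul_const _)
    filter_upwards [S.U_P x, S.U_P (g x), h3 x] with m a1 a2 a3
    have e2 : P G x * V (g.prodCongr (Equiv.refl G)) = P G x * V (Z m) :=
      ext_pt fun ξ y => by
        simp only [mul_apply_eq_comp, P_apply, V_apply]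
        split_ifs with h
        · subst h
          exact congrArg _ (Prod.ext (h2 m y).symm (a3 y.2).symm)
        · rfl
    rw [Φ_apply, e1, mul_assoc, S.Us_P a2, ← mul_assoc, mul_assoc S.U,
      V_P (g := g) (fun _ => rfl), e2, ← mul_assoc, a1, mul_assoc (S.pr m), ← V_P (h2 m),
      mul_assoc, mul_assoc, ← S.pr_com']
    simp only [z, mul_assoc]
  rw [e]
  exact mem_closure_of_tendsto hl (Eventually.of_forall fun m =>
    mul_mem (mul_mem (hp m) (h1 m)) (star_mem (hp m)))

theorem words_mem (T : Finset (Perm X))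
    (hT : ∀ w ∈ T, S.Φ (V w) ∈ (FP (X × G)).topologicalClosure) :
    ∀ b : H X →L[ℂ] H X, (∀ x x', b (δ x') x ≠ 0 → ∃ w ∈ T, x' = w x) →
      S.Φ b ∈ (FP (X × G)).topologicalClosure := by
  classical
  induction T using Finset.induction_on with
  | empty =>
    intro b hb
    have : b = 0 := ext_ent fun x' x => by
      by_contra h
      simpa using hb x x' h
    rw [this, map_zero]
    exact zero_mem _
  | insert w T hw ih =>
    intro b hb
    have h1 := D_apply (f := fun x => b (δ (w x)) x) (norm_nonneg b) (fun x => ent_le b _ _)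
    have e : b = (b - D (fun x => b (δ (w x)) x) * V w) + D (fun x => b (δ (w x)) x) * V w := by
      abel
    rw [e, map_add, map_mul]
    refine add_mem (ih (fun w' hw' => hT w' (mem_insert_of_mem hw')) _ fun x x' h => ?_)
      (mul_mem ?_ (hT w (mem_insert_self _ _)))
    · simp only [sub_apply, mul_apply_eq_comp, lp.coeFn_sub, Pi.sub_apply, h1,
        V_apply, δ_apply] at h
      by_cases h2 : w x = x'
      · simp [h2] at h
      · obtain ⟨w', h3, h4⟩ := hb x x' (by simpa [h2] using h)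
        rcases mem_insert.mp h3 with rfl | h3
        · exact absurd h4.symm h2
        · exact ⟨w', h3, h4⟩
    · rw [S.Φ_D (norm_nonneg b) (fun x => ent_le b _ _)]
      refine (FP _).le_topologicalClosure ⟨0, fun y y' h2 => ?_⟩
      rw [D_apply (f := fun y : X × G => b (δ (w y.1)) y.1) (norm_nonneg b)
        (fun x => ent_le b _ _), δ_apply, if_neg (dist_pos.mp h2).symm, mul_zero]

end Tw

theorem maps {X G I : Type} (S : Tw X G) {M : MV X I} (hM : M.Conn) [MetricSpace (X × G)]
    (h : ∀ i, S.Φ (V (M.act i)) ∈ (FP (X × G)).topologicalClosure) (a : H X →L[ℂ] H X) :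
    letI := hM.met
    a ∈ (FP X).topologicalClosure → S.Φ a ∈ (FP (X × G)).topologicalClosure := by
  letI := hM.met
  suffices h' : ∀ a ∈ FP X, S.Φ a ∈ (FP (X × G)).topologicalClosure from fun ha =>
    closure_minimal (t := S.Φ ⁻¹'
      ((FP (X × G)).topologicalClosure : Set (H (X × G) →L[ℂ] H (X × G)))) h'
      ((FP _).isClosed_topologicalClosure.preimage (map_continuous S.Φ)) ha
  rintro a ⟨r, hr⟩
  let N : Submonoid (Perm X) :=
    { carrier := {w | S.Φ (V w) ∈ (FP (X × G)).topologicalClosure}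
      mul_mem' := fun {w w'} h h' => by
        rw [Set.mem_ofPred_eq, V_mul, map_mul]
        exact mul_mem h' h
      one_mem' := by
        have : D (fun _ : X => (1 : ℂ)) = 1 :=
          ext_pt fun ξ x => by rw [D_apply zero_le_one (by simp)]; simp
        rw [Set.mem_ofPred_eq, V_one, ← this, S.Φ_D zero_le_one (by simp)]
        refine (FP _).le_topologicalClosure ⟨0, fun y y' h2 => ?_⟩
        rw [D_apply zero_le_one (by simp), δ_apply, if_neg (dist_pos.mp h2).symm, mul_zero] }
  obtain ⟨T, h1, h2⟩ := MV.words (M := M) N h ⌈r⌉₊ ⌈r⌉₊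
  refine S.words_mem T h1 a fun x x' h3 => h2 x x' (hM.rch' (not_lt.mp fun h4 => h3 ?_))
  exact hr x' x (by rw [dist_comm]; exact h4)

end Pool.Agent.H86.Pon
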