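import Pool.Agent.H86.PonA

set_option autoImplicit false

namespace Pool.Agent.H86.Pon

open Finset Equiv

/-- collapse the middle third -/
noncomputable def cl (r : ℝ) : ℝ := min r 1 + max (r - 2) 0

/-- block index -/
noncomputable def fl (s : ℝ) : ℤ := ⌊s / 3⌋

/-- the staircase -/
noncomputable def ta (s : ℝ) : ℝ := 2 * fl s + cl (s - 3 * fl s)

theorem fl_le (s : ℝ) : 3 * (fl s : ℝ) ≤ s := by
  have := Int.floor_le (s / 3)
  rw [fl]; linarith

theorem lt_fl (s : ℝ) : s < 3 * (fl s : ℝ) + 3 := by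
  have := Int.lt_floor_add_one (s / 3)
  rw [fl]; linarith

theorem fl_eq {s : ℝ} {q : ℤ} (h1 : 3 * (q : ℝ) ≤ s) (h2 : s < 3 * (q : ℝ) + 3) : fl s = q :=
  Int.floor_eq_iff.mpr ⟨by linarith, by linarith⟩

theorem ta_le {s s' : ℝ} (h : s ≤ s') : ta s ≤ ta s' ∧ ta s' - ta s ≤ s' - s := by
  have a1 := fl_le s
  have a2 := lt_fl s
  have a3 := fl_le s'
  have a4 := lt_fl s'
  have h1 : fl s ≤ fl s' := Int.floor_mono (by linarith)
  rcases h1.eq_or_lt with h1 | h1
  · simp only [ta, cl, ← h1, _root_.min_def, _root_.max_def]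
    split_ifs <;> constructor <;> linarith
  · have h2 : (fl s : ℝ) + 1 ≤ fl s' := by exact_mod_cast h1
    simp only [ta, cl, _root_.min_def, _root_.max_def]
    split_ifs <;> constructor <;> linarith

theorem ta_abs (s s' : ℝ) : |ta s - ta s'| ≤ |s - s'| := by
  rcases le_total s s' with h | h
  · have := ta_le h
    rw [abs_sub_comm, abs_sub_comm s, abs_of_nonneg (by linarith), abs_of_nonneg (by linarith)]
    exact this.2
  · have := ta_le h
    rw [abs_of_nonneg (by linarith), abs_of_nonneg (by linarith)]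
    exact this.2

theorem ta_int (n : ℤ) : ta (3 * n) = 2 * n := by
  rw [ta, fl_eq le_rfl (by linarith), cl]
  norm_num

theorem ta_mid {s : ℝ} {q : ℤ} (h1 : 3 * (q : ℝ) + 1 ≤ s) (h2 : s ≤ 3 * (q : ℝ) + 2) :
    ta s = 2 * q + 1 := by
  rw [ta, fl_eq (q := q) (by linarith) (by linarith), cl, min_eq_right (by linarith),
    max_eq_right (by linarith), add_zero]

theorem fl_sym {s s' : ℝ} {n : ℤ} (h : s + s' = 3 * n) :
    (s = 3 * fl s ∧ fl s' = n - fl s) ∨ fl s' = n - fl s - 1 := by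
  have a1 := fl_le s
  have a2 := lt_fl s
  rcases a1.eq_or_lt with h1 | h1
  · exact Or.inl ⟨h1.symm, fl_eq (by push_cast; linarith) (by push_cast; linarith)⟩
  · exact Or.inr (fl_eq (by push_cast; linarith) (by push_cast; linarith))

theorem ta_sym {s s' : ℝ} {n : ℤ} (h : s + s' = 3 * n) : ta s + ta s' = 2 * n := by
  have a1 := fl_le s
  have a2 := lt_fl s
  rcases fl_sym h with ⟨h1, h2⟩ | h2
  · have h3 : s' = 3 * ((n - fl s : ℤ) : ℝ) := by push_cast; linarith
    rw [h3, ta_int, h1, ta_int, ← h1]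
    push_cast; ring
  · simp only [ta, cl, h2, _root_.min_def, _root_.max_def]
    push_cast
    split_ifs <;> linarith

/-- the scaled staircase coordinates -/
noncomputable def sc : ℕ → ℤ → ℝ
  | 0, a => a
  | i + 1, a => ta (sc i a) / 2

theorem sc_mono (i : ℕ) {a a' : ℤ} (h : a ≤ a') : sc i a ≤ sc i a' := by
  induction i with
  | zero => exact Int.cast_le.mpr h
  | succ i ih => have := (ta_le ih).1; simp only [sc]; linarith

theorem sc_lip (i : ℕ) {a a' : ℤ} {n : ℕ} (h : |a - a'| ≤ n) :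
    |sc i a - sc i a'| ≤ n * (1 / 2) ^ i := by
  induction i with
  | zero => simp only [sc, pow_zero, mul_one]; exact_mod_cast h
  | succ i ih =>
    have := ta_abs (sc i a) (sc i a')
    simp only [sc]
    rw [← sub_div, abs_div, abs_two, pow_succ]
    linarith

theorem sc_int (i : ℕ) (n : ℤ) : sc i (3 ^ i * n) = n := by
  induction i generalizing n with
  | zero => simp [sc]
  | succ i ih =>
    rw [sc, pow_succ, mul_assoc, ih, Int.cast_mul, Int.cast_ofNat, ta_int]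
    ring

theorem sc_sym (i : ℕ) {a a' n : ℤ} (h : a + a' = 3 ^ i * n) : sc i a + sc i a' = n := by
  induction i generalizing n with
  | zero => simp only [sc]; exact_mod_cast h.trans (by simp)
  | succ i ih =>
    have := ta_sym (n := n) ((ih (n := 3 * n) (by rw [h]; ring)).trans (by push_cast; ring))
    simp only [sc]; linarith

theorem sc_congr {k i : ℕ} (hk : k ≤ i) {a a' : ℤ} (h : sc k a = sc k a') : sc i a = sc i a' := by
  induction i, hk using Nat.le_induction with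
  | base => exact h
  | succ i _ ih => simp only [sc, ih]

/-- closed middle third -/
def Mid (h q a : ℤ) : Prop := h * (3 * q + 1) ≤ a ∧ a ≤ h * (3 * q + 2)

/-- open middle third -/
def Op (h a : ℤ) : Prop := ∃ q, h * (3 * q + 1) < a ∧ a < h * (3 * q + 2)

theorem Mid.not_dvd {h q a : ℤ} (h0 : 0 < h) (h1 : Mid h q a) : ¬ h * 3 ∣ a := by
  rintro ⟨m, rfl⟩
  rw [mul_assoc] at h1
  have := le_of_mul_le_mul_left h1.1 h0
  have := le_of_mul_le_mul_left h1.2 h0
  omega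

theorem Mid.uniq {h q q' a : ℤ} (h0 : 0 < h) (h1 : Mid h q a) (h2 : Mid h q' a) : q = q' := by
  have := le_of_mul_le_mul_left (h1.1.trans h2.2) h0
  have := le_of_mul_le_mul_left (h2.1.trans h1.2) h0
  omega

theorem Op.not_dvd {h a : ℤ} (h0 : 0 < h) (h1 : Op h a) : ¬ h ∣ a := by
  rintro ⟨m, rfl⟩
  obtain ⟨q, h1, h2⟩ := h1
  have := lt_of_mul_lt_mul_left h1 h0.le
  have := lt_of_mul_lt_mul_left h2 h0.le
  omega

theorem Mid.sc {k : ℕ} {q a : ℤ} (h : Mid (3 ^ k) q a) :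
    3 * (q : ℝ) + 1 ≤ sc k a ∧ sc k a ≤ 3 * (q : ℝ) + 2 := by
  have h1 := sc_mono k h.1
  have h2 := sc_mono k h.2
  rw [sc_int] at h1 h2
  push_cast at h1 h2
  exact ⟨h1, h2⟩

/-- antipodal points on the boundary of a hole -/
def Rel (h : ℤ) (p p' : ℤ × ℤ) : Prop :=
  ∃ q r, Mid h q p.1 ∧ Mid h r p.2 ∧ (h ∣ p.1 ∨ h ∣ p.2) ∧ p.1 + p'.1 = h * (6 * q + 3) ∧
    p.2 + p'.2 = h * (6 * r + 3)

theorem Rel.symm {h : ℤ} {p p' : ℤ × ℤ} (h1 : Rel h p p') : Rel h p' p := by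
  obtain ⟨q, r, ⟨a1, a2⟩, ⟨a3, a4⟩, a5, a6, a7⟩ := h1
  refine ⟨q, r, ⟨by linarith, by linarith⟩, ⟨by linarith, by linarith⟩, ?_, by linarith,
    by linarith⟩
  refine a5.imp (fun h => ?_) (fun h => ?_)
  · exact (dvd_add_right h).mp ⟨_, a6⟩
  · exact (dvd_add_right h).mp ⟨_, a7⟩

theorem Rel.uniq {c : ℤ} (hc : 0 < c) {e e' : ℕ} {p p' p'' : ℤ × ℤ} (h1 : Rel (c * 3 ^ e) p p')
    (h2 : Rel (c * 3 ^ e') p p'') : e = e' ∧ p' = p'' := by
  have key : ∀ {e e' : ℕ} {p' p'' : ℤ × ℤ}, Rel (c * 3 ^ e) p p' → Rel (c * 3 ^ e') p p'' →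
      ¬ e < e' := by
    rintro e e' p' p'' ⟨q, r, a1, a2, -⟩ ⟨-, -, -, -, a3, -⟩ h
    have h3 : c * 3 ^ e * 3 ∣ c * 3 ^ e' := by
      rw [mul_assoc, ← pow_succ]
      exact mul_dvd_mul_left _ (pow_dvd_pow _ h)
    rcases a3 with a3 | a3
    · exact a1.not_dvd (by positivity) (h3.trans a3)
    · exact a2.not_dvd (by positivity) (h3.trans a3)
  obtain rfl : e = e' := le_antisymm (not_lt.mp (key h2 h1)) (not_lt.mp (key h1 h2))
  obtain ⟨q, r, a1, a2, -, a3, a4⟩ := h1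
  obtain ⟨q', r', b1, b2, -, b3, b4⟩ := h2
  obtain rfl := a1.uniq (by positivity) b1
  obtain rfl := a2.uniq (by positivity) b2
  exact ⟨rfl, Prod.ext (by linarith) (by linarith)⟩

/-- the carpet -/
def car (p : ℤ × ℤ) : Prop := ∀ k : ℕ, ¬ (Op (3 ^ k) p.1 ∧ Op (3 ^ k) p.2)

/-- the base space -/
abbrev XX : Type := {p : ℤ × ℤ // car p}

/-- the fibre -/
abbrev GG : Type := ℕ × Bool →₀ ZMod 2

/-- unit vectors -/
noncomputable def ee (p : ℕ × Bool) : GG := Finsupp.single p 1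

theorem GG.add_self (γ : GG) : γ + γ = 0 := Finsupp.ext fun p => CharTwo.add_self_eq_zero (γ p)

/-- rungs -/
def Rg (k : ℕ) (x x' : XX) : Prop := Rel (3 ^ k) x.1 x'.1

theorem Rg.uniq {k k' : ℕ} {x x' x'' : XX} (h1 : Rg k x x') (h2 : Rg k' x x'') :
    k = k' ∧ x' = x'' := by
  have := Rel.uniq (c := 1) one_pos (by rw [one_mul]; exact h1) (by rw [one_mul]; exact h2)
  exact ⟨this.1, Subtype.ext this.2⟩

open Classical in
/-- the antipodal map with its cocycle -/
noncomputable def AA (x : XX) : XX × GG :=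
  if h : ∃ p : ℕ × XX, Rg p.1 x p.2 then (h.choose.2, ee (h.choose.1, false)) else (x, 0)

theorem Rg.AA {k : ℕ} {x x' : XX} (h : Rg k x x') : AA x = (x', ee (k, false)) := by
  have h1 : ∃ p : ℕ × XX, Rg p.1 x p.2 := ⟨(k, x'), h⟩
  have h2 := h1.choose_spec.uniq h
  rw [Pon.AA, dif_pos h1, h2.1, h2.2]

theorem AA_cases (x : XX) :
    AA x = (x, 0) ∨ ∃ k x', Rg k x x' ∧ AA x = (x', ee (k, false)) := by
  by_cases h : ∃ p : ℕ × XX, Rg p.1 x p.2
  · obtain ⟨p, hp⟩ := h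
    exact Or.inr ⟨_, _, hp, hp.AA⟩
  · exact Or.inl (dif_neg h)

theorem AA_AA (x : XX) : AA (AA x).1 = (x, (AA x).2) := by
  rcases AA_cases x with h | ⟨k, x', h1, h⟩
  · rw [h, h]
  · rw [h, Rg.AA (Rel.symm h1)]

open Classical in
/-- translations made involutive -/
noncomputable def tr (v : (ℤ × ℤ) × Prop) (p : ℤ × ℤ) : ℤ × ℤ :=
  if Even ((p.1 * v.1.1 + p.2 * v.1.2) / (v.1.1 ^ 2 + v.1.2 ^ 2)) ↔ v.2 then p + v.1 else p - v.1

theorem tr_tr (v : (ℤ × ℤ) × Prop) (p : ℤ × ℤ) : tr v (tr v p) = p := by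
  by_cases h0 : v.1 = 0
  · simp [tr, h0]
  have h1 : v.1.1 ^ 2 + v.1.2 ^ 2 ≠ 0 := fun h => h0 (Prod.ext
    (pow_eq_zero_iff two_ne_zero |>.mp (by nlinarith [sq_nonneg v.1.1, sq_nonneg v.1.2]))
    (pow_eq_zero_iff two_ne_zero |>.mp (by nlinarith [sq_nonneg v.1.1, sq_nonneg v.1.2])))
  by_cases h : Even ((p.1 * v.1.1 + p.2 * v.1.2) / (v.1.1 ^ 2 + v.1.2 ^ 2)) ↔ v.2
  · have e : (p + v.1).1 * v.1.1 + (p + v.1).2 * v.1.2 =
        p.1 * v.1.1 + p.2 * v.1.2 + 1 * (v.1.1 ^ 2 + v.1.2 ^ 2) := by simp; ring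
    rw [tr.eq_1 v p, if_pos h, tr, e, Int.add_mul_ediv_right _ _ h1, if_neg, add_sub_cancel_right]
    rw [Int.even_add_one]
    tauto
  · have e : (p - v.1).1 * v.1.1 + (p - v.1).2 * v.1.2 =
        p.1 * v.1.1 + p.2 * v.1.2 + (-1) * (v.1.1 ^ 2 + v.1.2 ^ 2) := by simp; ring
    rw [tr.eq_1 v p, if_neg h, tr, e, Int.add_mul_ediv_right _ _ h1, if_pos, sub_add_cancel]
    rw [← sub_eq_add_neg, Int.even_sub_one]
    tauto

open Classical in
/-- translations on the carpet -/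
noncomputable def trX (v : (ℤ × ℤ) × Prop) (x : XX) : XX :=
  if h : car (tr v x.1) then ⟨tr v x.1, h⟩ else x

theorem trX_trX (v : (ℤ × ℤ) × Prop) (x : XX) : trX v (trX v x) = x := by
  by_cases h : car (tr v x.1)
  · rw [trX.eq_1 v x, dif_pos h, trX, dif_pos (by rw [tr_tr]; exact x.2)]
    exact Subtype.ext (tr_tr _ _)
  · rw [trX.eq_1 v x, dif_neg h, trX, dif_neg h]

/-- index set of the moves -/
abbrev II : Type := Option ((ℤ × ℤ) × Prop)

/-- the moves on the base -/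
noncomputable def MX : MV XX II where
  act
    | none => Function.Involutive.toPerm (fun x => (AA x).1) fun x => by simp only [AA_AA]
    | some v => Function.Involutive.toPerm (trX v) (trX_trX v)
  inv
    | none, x => by simp [AA_AA]
    | some v, x => trX_trX v x
  cost
    | none => 0
    | some v => max v.1.1.natAbs v.1.2.natAbs
  fin n := by
    refine (((((Set.finite_Icc (-(n : ℤ)) n).prod (Set.finite_Icc (-(n : ℤ)) n)).prod
      (Set.finite_univ (α := Prop))).image some).insert none).subset ?_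
    rintro (_ | v) hv
    · exact Or.inl rfl
    · simp only [Set.mem_ofPred_eq] at hv
      exact Or.inr ⟨v, ⟨⟨⟨by omega, by omega⟩, by omega, by omega⟩, trivial⟩, rfl⟩

/-- the cocycle -/
noncomputable def co : II → XX → GG
  | none, x => (AA x).2
  | some _, _ => 0

theorem co_act (i : II) (x : XX) : co i (MX.act i x) = co i x := by
  cases i with
  | none => exact (congrArg Prod.snd (AA_AA x) :)
  | some v => rfl

/-- the two kinds of steps -/
def Step (n : ℕ) (x x' : XX) (c : GG) : Prop :=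
  (|x.1.1 - x'.1.1| ≤ n ∧ |x.1.2 - x'.1.2| ≤ n ∧ c = 0) ∨ ∃ k, Rg k x x' ∧ c = ee (k, false)

theorem step_act (i : II) (x : XX) {n : ℕ} (h : MX.cost i ≤ n) :
    Step n x (MX.act i x) (co i x) := by
  cases i with
  | none =>
    change Step n x (AA x).1 (AA x).2
    rcases AA_cases x with h | ⟨k, x', h1, h⟩
    · rw [h]; exact Or.inl (by simp)
    · rw [h]; exact Or.inr ⟨k, h1, rfl⟩
  | some v =>
    change max v.1.1.natAbs v.1.2.natAbs ≤ n at h
    change Step n x (trX v x) 0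
    refine Or.inl ?_
    rw [trX]
    split_ifs
    · simp only [tr]
      split_ifs <;> simp only [Prod.fst_add, Prod.snd_add, Prod.fst_sub, Prod.snd_sub, abs_le,
        and_true] <;> omega
    · simp

theorem ex_tr {x x' : XX} {n : ℕ} (h1 : |x.1.1 - x'.1.1| ≤ n) (h2 : |x.1.2 - x'.1.2| ≤ n) :
    ∃ v, MX.cost (some v) ≤ n ∧ MX.act (some v) x = x' := by
  let w := x'.1 - x.1
  let v : (ℤ × ℤ) × Prop := (w, Even ((x.1.1 * w.1 + x.1.2 * w.2) / (w.1 ^ 2 + w.2 ^ 2)))
  have e : tr v x.1 = x'.1 := by rw [tr, if_pos Iff.rfl]; simp [v, w]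
  refine ⟨v, ?_, ?_⟩
  · change max (x'.1.1 - x.1.1).natAbs (x'.1.2 - x.1.2).natAbs ≤ n
    rw [abs_le] at h1 h2
    omega
  · change trX v x = x'
    rw [trX, dif_pos (by rw [e]; exact x'.2)]
    exact Subtype.ext e

theorem ex_bd (x x' : XX) : ∃ n : ℕ, |x.1.1 - x'.1.1| ≤ n ∧ |x.1.2 - x'.1.2| ≤ n :=
  ⟨(x.1.1 - x'.1.1).natAbs + (x.1.2 - x'.1.2).natAbs, by simp only [abs_le]; omega⟩

theorem connX : MX.Conn := fun x x' => by
  obtain ⟨n, h1, h2⟩ := ex_bd x x'
  obtain ⟨v, h3, rfl⟩ := ex_tr h1 h2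
  exact ⟨n + 1, (MV.Rch.one _ h3 x).mono (by omega) (by omega)⟩

/-- skew products -/
noncomputable def sk (g : Perm XX) (c : XX → GG) : Perm (XX × GG) :=
  g.prodShear fun x => Equiv.addRight (c x)

theorem sk_apply (g : Perm XX) (c : XX → GG) (y : XX × GG) :
    sk g c y = (g y.1, y.2 + c y.1) := rfl

/-- the moves on the total space -/
noncomputable def MY : MV (XX × GG) (II ⊕ (ℕ × Bool)) where
  act
    | .inl i => sk (MX.act i) (co i)
    | .inr p => sk 1 fun _ => ee p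
  inv
    | .inl i, y => by simp [sk_apply, MX.inv, co_act, add_assoc, GG.add_self]
    | .inr p, y => by simp [sk_apply, add_assoc, GG.add_self]
  cost
    | .inl i => MX.cost i
    | .inr p => p.1 + 1
  fin n := by
    refine (((MX.fin n).image Sum.inl).union ((((Set.finite_Iic n).prod
      (Set.finite_univ (α := Bool))).image Sum.inr))).subset ?_
    rintro (i | p) h
    · exact Or.inl ⟨i, h, rfl⟩
    · exact Or.inr ⟨p, ⟨Nat.le_of_succ_le h, trivial⟩, rfl⟩

theorem rch_flip (x : XX) {γ γ' : GG} {m : ℕ} (h : ∀ p : ℕ × Bool, m ≤ p.1 → γ p = γ' p) :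
    MY.Rch m (m * 2) (x, γ) (x, γ') := by
  have key : ∀ S : Finset (ℕ × Bool), (∀ p ∈ S, p.1 < m) →
      MY.Rch m #S (x, γ) (x, γ + ∑ p ∈ S, ee p) := fun S => by
    induction S using Finset.induction_on with
    | empty => intro _; simpa using MV.Rch.refl _ _
    | insert p S hp ih =>
      intro h
      rw [card_insert_of_notMem hp, sum_insert hp, add_comm (ee p), ← add_assoc]
      exact .step (.inr p) (h p (mem_insert_self _ _)) (ih fun q hq => h q (mem_insert_of_mem hq))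
  have h1 : ∀ p ∈ (γ + γ').support, p.1 < m := fun p hp => by
    by_contra h2
    rw [Finsupp.mem_support_iff, Finsupp.add_apply, h p (not_lt.mp h2)] at hp
    exact hp (CharTwo.add_self_eq_zero _)
  have h2 : ∑ p ∈ (γ + γ').support, ee p = γ + γ' := by
    refine Eq.trans (sum_congr rfl fun p hp => ?_) (Finsupp.sum_single (γ + γ'))
    have : ∀ t : ZMod 2, t ≠ 0 → 1 = t := by decide
    rw [ee, this _ (Finsupp.mem_support_iff.mp hp)]
  have h3 := key _ h1
  rw [h2, ← add_assoc, GG.add_self, zero_add] at h3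
  refine h3.mono le_rfl ((card_le_card (t := range m ×ˢ univ) fun p hp => ?_).trans (by simp))
  simpa using h1 p hp

theorem rch_near {y y' : XX × GG} {n m : ℕ} (h1 : |y.1.1.1 - y'.1.1.1| ≤ n)
    (h2 : |y.1.1.2 - y'.1.1.2| ≤ n) (h : ∀ p : ℕ × Bool, m ≤ p.1 → y.2 p = y'.2 p) :
    MY.Rch (n + m) (m * 2 + 1) y y' := by
  obtain ⟨v, h3, h4⟩ := ex_tr h1 h2
  have h5 := MV.Rch.step (M := MY) (c := n + m) (.inl (some v)) (h3.trans (by omega))
    ((rch_flip y.1 h).mono (by omega) le_rfl)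
  have h6 : MY.act (.inl (some v)) (y.1, y'.2) = y' :=
    Prod.ext h4 (add_zero _)
  rwa [h6] at h5

theorem ex_lev (γ : GG) : ∃ m, ∀ p : ℕ × Bool, m ≤ p.1 → γ p = 0 :=
  ⟨γ.support.sup Prod.fst + 1, fun p hp => Finsupp.notMem_support_iff.mp fun h => by
    have := le_sup (f := Prod.fst) h
    omega⟩

theorem connY : MY.Conn := fun y y' => by
  obtain ⟨n, h1, h2⟩ := ex_bd y.1 y'.1
  obtain ⟨m, h3⟩ := ex_lev y.2
  obtain ⟨m', h4⟩ := ex_lev y'.2
  exact ⟨_, (rch_near (m := m + m') h1 h2 fun p hp =>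
    (h3 p (by omega)).trans (h4 p (by omega)).symm).mono (le_max_left _ _) (le_max_right _ _)⟩

end Pool.Agent.H86.Pon
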