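import Pool.Agent.H86.PonB

set_option autoImplicit false

namespace Pool.Agent.H86.Pon

open Finset Equiv

theorem Rel.mids {h : ℤ} {p p' : ℤ × ℤ} (h1 : Rel h p p') :
    ∃ q r, Mid h q p.1 ∧ Mid h q p'.1 ∧ Mid h r p.2 ∧ Mid h r p'.2 := by
  obtain ⟨q, r, ⟨a1, a2⟩, ⟨a3, a4⟩, a5, a6, a7⟩ := h1
  exact ⟨q, r, ⟨a1, a2⟩, ⟨by linarith, by linarith⟩, ⟨a3, a4⟩, ⟨by linarith, by linarith⟩⟩

theorem mid_sc {k i : ℕ} (hk : k < i) {q a a' : ℤ} (h : Mid (3 ^ k) q a) (h' : Mid (3 ^ k) q a') :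
    sc i a = sc i a' :=
  sc_congr (k := k + 1) hk (by simp only [sc, ta_mid h.sc.1 h.sc.2, ta_mid h'.sc.1 h'.sc.2])

/-- clamped coordinate -/
noncomputable def ff (j : ℕ) (a : ℤ) : ℝ := min 1 (max 0 (sc j a))

theorem mid_ff (j : ℕ) {k : ℕ} {q a a' : ℤ} (h : Mid (3 ^ k) q a) (h' : Mid (3 ^ k) q a') :
    ff j a = ff j a' := by
  rcases lt_or_ge k j with hk | hk
  · rw [ff, ff, mid_sc hk h h']
  have h0 : (0 : ℤ) < 3 ^ k := by positivity
  have h1 : (3 : ℤ) ^ j ≤ 3 ^ k := pow_le_pow_right₀ (by norm_num) hk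
  rcases le_or_gt 0 q with hq | hq
  · have key : ∀ a, Mid (3 ^ k) q a → ff j a = 1 := fun a h => by
      have := sc_mono j (a := 3 ^ j * 1) (a' := a) (by nlinarith [h.1])
      rw [sc_int, Int.cast_one] at this
      exact min_eq_left (le_max_of_le_right this)
    rw [key a h, key a' h']
  · have key : ∀ a, Mid (3 ^ k) q a → ff j a = 0 := fun a h => by
      have := sc_mono j (a := a) (a' := 3 ^ j * 0) (by nlinarith [h.2])
      rw [sc_int, Int.cast_zero] at this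
      rw [ff, max_eq_left this, min_eq_right zero_le_one]
    rw [key a h, key a' h']

theorem ff_lip (j : ℕ) {a a' : ℤ} {n : ℕ} (h : |a - a'| ≤ n) :
    |ff j a - ff j a'| ≤ n * (1 / 2) ^ j := by
  refine le_trans ?_ (sc_lip j h)
  refine (abs_min_sub_min_le_max _ _ _ _).trans (max_le (by simp) ?_)
  exact (abs_max_sub_max_le_max _ _ _ _).trans (max_le (by simp) le_rfl)

theorem ff_rch (j : ℕ) {c k : ℕ} {x x' : XX} (h : MX.Rch c k x x') :
    |ff j x.1.1 - ff j x'.1.1| ≤ k * (c * (1 / 2) ^ j) ∧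
      |ff j x.1.2 - ff j x'.1.2| ≤ k * (c * (1 / 2) ^ j) := by
  induction h with
  | refl k y => simp only [sub_self, abs_zero]; constructor <;> positivity
  | @step k y y' i hi _ ih =>
    have h0 : (0 : ℝ) ≤ c * (1 / 2) ^ j := by positivity
    have a1 := abs_sub_le (ff j y.1.1) (ff j y'.1.1) (ff j (MX.act i y').1.1)
    have a2 := abs_sub_le (ff j y.1.2) (ff j y'.1.2) (ff j (MX.act i y').1.2)
    push_cast
    rcases step_act i y' hi with ⟨h1, h2, -⟩ | ⟨k, h1, -⟩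
    · have := ff_lip j h1
      have := ff_lip j h2
      constructor <;> linarith [ih.1, ih.2]
    · obtain ⟨q, r, b1, b2, b3, b4⟩ := Rel.mids h1
      rw [← mid_ff j b1 b2, ← mid_ff j b3 b4]
      constructor <;> linarith [ih.1, ih.2]

/-- edges -/
def Ed (p p' : ℤ × ℤ) : Prop :=
  (|p.1 - p'.1| ≤ 1 ∧ |p.2 - p'.2| ≤ 1) ∨ ∃ k : ℕ, Rel (3 ^ k) p p'

theorem Ed.rch {x x' : XX} (h : Ed x.1 x'.1) : MX.Rch 1 1 x x' := by
  rcases h with ⟨h1, h2⟩ | ⟨k, h⟩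
  · obtain ⟨v, h3, rfl⟩ := ex_tr (n := 1) h1 h2
    exact .one _ h3 x
  · have h1 : MX.act none x = x' := (congrArg Prod.fst (Rg.AA h) :)
    rw [← h1]
    exact .one _ (Nat.zero_le _) x

section sperner

variable (φ : ℤ × ℤ → ℤ × ℤ → ZMod 2)

/-- horizontal sums -/
def Hs (a b : ℤ) (n : ℕ) : ZMod 2 := ∑ t ∈ range n, φ (a + t, b) (a + t + 1, b)

/-- vertical sums -/
def Vs (a b : ℤ) (n : ℕ) : ZMod 2 := ∑ t ∈ range n, φ (a, b + t) (a, b + t + 1)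

/-- loop sums -/
def Ls (a b : ℤ) (n : ℕ) : ZMod 2 := Hs φ a b n + Hs φ a (b + n) n + Vs φ a b n + Vs φ (a + n) b n

theorem Hs_three (a b : ℤ) (n : ℕ) :
    Hs φ a b (n * 3) = Hs φ a b n + Hs φ (a + n) b n + Hs φ (a + n + n) b n := by
  simp only [Hs, show n * 3 = n + n + n by ring, sum_range_add]
  push_cast
  simp only [add_assoc]

theorem Vs_three (a b : ℤ) (n : ℕ) :
    Vs φ a b (n * 3) = Vs φ a b n + Vs φ a (b + n) n + Vs φ a (b + n + n) n := by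
  simp only [Vs, show n * 3 = n + n + n by ring, sum_range_add]
  push_cast
  simp only [add_assoc]

theorem Ls_three (a b : ℤ) (n : ℕ) : Ls φ a b (n * 3) =
    Ls φ a b n + Ls φ (a + n) b n + Ls φ (a + n + n) b n + Ls φ a (b + n) n +
    Ls φ (a + n) (b + n) n + Ls φ (a + n + n) (b + n) n + Ls φ a (b + n + n) n +
    Ls φ (a + n) (b + n + n) n + Ls φ (a + n + n) (b + n + n) n := by
  have e : ∀ a : ℤ, a + ((n * 3 : ℕ) : ℤ) = a + n + n + n := fun a => by push_cast; ring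
  simp only [Ls, Hs_three, Vs_three, e]
  grind

theorem ladder (p p' : ℕ → ℤ × ℤ) (n : ℕ) (h : ∀ t < n, φ (p t) (p (t + 1)) +
      φ (p (t + 1)) (p' (t + 1)) + φ (p' (t + 1)) (p' t) + φ (p t) (p' t) = 0) :
    ∑ t ∈ range n, φ (p t) (p (t + 1)) + ∑ t ∈ range n, φ (p' (t + 1)) (p' t) =
      φ (p n) (p' n) + φ (p 0) (p' 0) := by
  induction n with
  | zero => simp [CharTwo.add_self_eq_zero]
  | succ n ih =>
    have h1 := ih fun t ht => h t (by omega)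
    have h2 := h n (by omega)
    rw [sum_range_succ, sum_range_succ]
    grind

/-- blocks that meet no larger hole -/
def Good (k : ℕ) (q r : ℤ) : Prop :=
  ∀ a b : ℤ, 3 ^ k * q ≤ a → a ≤ 3 ^ k * (q + 1) → 3 ^ k * r ≤ b → b ≤ 3 ^ k * (r + 1) →
    ∀ l, k ≤ l → ¬ (Op (3 ^ l) a ∧ Op (3 ^ l) b)

theorem Good.sub {k : ℕ} {q r : ℤ} (h : Good (k + 1) q r) (i j : ℤ) (h1 : 0 ≤ i) (h2 : i ≤ 2)
    (h3 : 0 ≤ j) (h4 : j ≤ 2) (h5 : i ≠ 1 ∨ j ≠ 1) : Good k (3 * q + i) (3 * r + j) := by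
  intro a b a1 a2 a3 a4 l hl
  have h0 : (0 : ℤ) < 3 ^ k := by positivity
  rcases hl.eq_or_lt with rfl | hl
  · rintro ⟨⟨u, b1, b2⟩, v, b3, b4⟩
    have := lt_of_mul_lt_mul_left (a1.trans_lt b2) h0.le
    have := lt_of_mul_lt_mul_left (b1.trans_le a2) h0.le
    have := lt_of_mul_lt_mul_left (a3.trans_lt b4) h0.le
    have := lt_of_mul_lt_mul_left (b3.trans_le a4) h0.le
    omega
  · refine h a b ?_ ?_ ?_ ?_ l hl <;> rw [pow_succ] <;> nlinarith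

theorem Good.car {k : ℕ} {q r : ℤ} (h : Good (k + 1) q r) {a b : ℤ} (h1 : Mid (3 ^ k) q a)
    (h2 : Mid (3 ^ k) r b) (h3 : 3 ^ k ∣ a ∨ 3 ^ k ∣ b) : car (a, b) := by
  intro l
  have h0 : (0 : ℤ) < 3 ^ k := by positivity
  rcases lt_or_ge k l with hl | hl
  · refine h a b ?_ ?_ ?_ ?_ l hl <;> rw [pow_succ] <;> nlinarith [h1.1, h1.2, h2.1, h2.2]
  · rintro ⟨b1, b2⟩
    rcases h3 with h3 | h3
    · exact b1.not_dvd (by positivity) ((pow_dvd_pow _ hl).trans h3)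
    · exact b2.not_dvd (by positivity) ((pow_dvd_pow _ hl).trans h3)

variable {φ} (hs : ∀ p p', φ p p' = φ p' p)
  (hc : ∀ p₁ p₂ p₃ p₄, car p₁ → car p₂ → car p₃ → car p₄ → Ed p₁ p₂ → Ed p₂ p₃ → Ed p₃ p₄ →
    Ed p₁ p₄ → φ p₁ p₂ + φ p₂ p₃ + φ p₃ p₄ + φ p₁ p₄ = 0)
include hs hc

theorem hole {k : ℕ} {q r : ℤ} (h : Good (k + 1) q r) :
    Ls φ (3 ^ k * (3 * q + 1)) (3 ^ k * (3 * r + 1)) (3 ^ k) = 0 := by
  obtain ⟨n, hn⟩ : ∃ n : ℕ, n = 3 ^ k := ⟨_, rfl⟩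
  have hn' : (3 : ℤ) ^ k = n := by simp [hn]
  have h0 : (0 : ℤ) ≤ n := by positivity
  have key : ∀ a b : ℤ, Mid n q a → Mid n r b → ((n : ℤ) ∣ a ∨ (n : ℤ) ∣ b) → car (a, b) ∧
      car (n * (3 * q + 1) + n - (a - n * (3 * q + 1)), n * (3 * r + 1) + n - (b - n * (3 * r + 1)))
      ∧ Ed (a, b) (n * (3 * q + 1) + n - (a - n * (3 * q + 1)),
        n * (3 * r + 1) + n - (b - n * (3 * r + 1))) := fun a b a1 a2 a3 => by
    have a4 : Rel n (a, b) (n * (3 * q + 1) + n - (a - n * (3 * q + 1)),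
        n * (3 * r + 1) + n - (b - n * (3 * r + 1))) := ⟨q, r, a1, a2, a3, by ring, by ring⟩
    rw [← hn'] at a1 a2 a3
    refine ⟨h.car a1 a2 a3, ?_, Or.inr ⟨k, hn' ▸ a4⟩⟩
    rw [← hn'] at a4 ⊢
    refine h.car ⟨by linarith [a1.2], by linarith [a1.1]⟩ ⟨by linarith [a2.2], by linarith [a2.1]⟩
      a4.symm.choose_spec.choose_spec.2.2.1
  rw [hn', ← hn]
  generalize hα : n * (3 * q + 1) = α at *
  generalize hβ : n * (3 * r + 1) = β at *
  have m1 : ∀ t : ℤ, 0 ≤ t → t ≤ n → Mid n q (α + t) := fun t _ _ => ⟨by linarith, by linarith⟩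
  have m2 : ∀ t : ℤ, 0 ≤ t → t ≤ n → Mid n r (β + t) := fun t _ _ => ⟨by linarith, by linarith⟩
  have l1 := ladder φ (fun t => (α + t, β)) (fun t => (α + n - t, β + n)) n fun t ht => by
    obtain ⟨b1, b2, b3⟩ := key (α + t) β (m1 t (by omega) (by omega))
      (by simpa using m2 0 le_rfl h0) (Or.inr ⟨_, hβ.symm⟩)
    obtain ⟨c1, c2, c3⟩ := key (α + (t + 1 : ℕ)) β (m1 _ (by omega) (by omega))
      (by simpa using m2 0 le_rfl h0) (Or.inr ⟨_, hβ.symm⟩)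
    simp only [add_sub_cancel_left, sub_self, sub_zero] at b2 b3 c2 c3
    exact hc _ _ _ _ b1 c1 c2 b2 (Or.inl (by simp)) c3 (Or.inl (by simp)) b3
  have l2 := ladder φ (fun t => (α, β + t)) (fun t => (α + n, β + n - t)) n fun t ht => by
    obtain ⟨b1, b2, b3⟩ := key α (β + t) (by simpa using m1 0 le_rfl h0)
      (m2 t (by omega) (by omega)) (Or.inl ⟨_, hα.symm⟩)
    obtain ⟨c1, c2, c3⟩ := key α (β + (t + 1 : ℕ)) (by simpa using m1 0 le_rfl h0)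
      (m2 _ (by omega) (by omega)) (Or.inl ⟨_, hα.symm⟩)
    simp only [add_sub_cancel_left, sub_self, sub_zero] at b2 b3 c2 c3
    exact hc _ _ _ _ b1 c1 c2 b2 (Or.inl (by simp)) c3 (Or.inl (by simp)) b3
  have e1 : ∑ t ∈ range n, φ (α + n - (t + 1 : ℕ), β + n) (α + n - t, β + n) =
      Hs φ α (β + n) n := by
    rw [Hs, ← sum_range_reflect]
    refine sum_congr rfl fun t ht => ?_
    have := mem_range.mp ht
    congr 2 <;> omega
  have e2 : ∑ t ∈ range n, φ (α + n, β + n - (t + 1 : ℕ)) (α + n, β + n - t) =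
      Vs φ (α + n) β n := by
    rw [Vs, ← sum_range_reflect]
    refine sum_congr rfl fun t ht => ?_
    have := mem_range.mp ht
    congr 2 <;> omega
  rw [e1] at l1
  rw [e2] at l2
  simp only [Nat.cast_add, Nat.cast_one, ← add_assoc, add_sub_cancel_right, Nat.cast_zero,
    add_zero, sub_zero] at l1 l2
  have l3 := hs (α + n, β) (α, β + n)
  rw [Ls, Hs.eq_1 φ α β, Vs.eq_1 φ α β]
  grind

theorem loop (k : ℕ) : ∀ q r : ℤ, Good k q r → Ls φ (3 ^ k * q) (3 ^ k * r) (3 ^ k) = 0 := by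
  induction k with
  | zero =>
    intro q r h
    have key : ∀ a b, q ≤ a → a ≤ q + 1 → r ≤ b → b ≤ r + 1 → car (a, b) :=
      fun a b a1 a2 a3 a4 l => h a b (by simpa) (by simpa) (by simpa) (by simpa) l (Nat.zero_le _)
    have := hc (q, r) (q + 1, r) (q + 1, r + 1) (q, r + 1) (key _ _ (by omega) (by omega) (by omega)
      (by omega)) (key _ _ (by omega) (by omega) (by omega) (by omega))
      (key _ _ (by omega) (by omega) (by omega) (by omega))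
      (key _ _ (by omega) (by omega) (by omega) (by omega)) (Or.inl (by simp)) (Or.inl (by simp))
      (Or.inl (by simp)) (Or.inl (by simp))
    rw [hs (q + 1, r + 1)] at this
    simp only [Ls, Hs, Vs, pow_zero, one_mul, sum_range_one, Nat.cast_zero, add_zero, Nat.cast_one]
    rw [← this]
    ring
  | succ k ih =>
    intro q r h
    have e0 : ∀ q : ℤ, 3 ^ k * (3 * q + 0) = 3 ^ (k + 1) * q := fun q => by ring
    have e1 : ∀ q : ℤ, 3 ^ k * (3 * q + 1) = 3 ^ (k + 1) * q + ((3 ^ k : ℕ) : ℤ) := fun q => by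
      push_cast; ring
    have e2 : ∀ q : ℤ, 3 ^ k * (3 * q + 2) =
        3 ^ (k + 1) * q + ((3 ^ k : ℕ) : ℤ) + ((3 ^ k : ℕ) : ℤ) := fun q => by push_cast; ring
    have a := fun i j h1 h2 h3 h4 h5 => ih _ _ (h.sub i j h1 h2 h3 h4 h5)
    have a1 := a 0 0 (by omega) (by omega) (by omega) (by omega) (by omega)
    have a2 := a 1 0 (by omega) (by omega) (by omega) (by omega) (by omega)
    have a3 := a 2 0 (by omega) (by omega) (by omega) (by omega) (by omega)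
    have a4 := a 0 1 (by omega) (by omega) (by omega) (by omega) (by omega)
    have a5 := hole hs hc h
    have a6 := a 2 1 (by omega) (by omega) (by omega) (by omega) (by omega)
    have a7 := a 0 2 (by omega) (by omega) (by omega) (by omega) (by omega)
    have a8 := a 1 2 (by omega) (by omega) (by omega) (by omega) (by omega)
    have a9 := a 2 2 (by omega) (by omega) (by omega) (by omega) (by omega)
    simp only [e0, e1, e2] at a1 a2 a3 a4 a5 a6 a7 a8 a9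
    rw [pow_succ (3 : ℕ), Ls_three, a1, a2, a3, a4, a5, a6, a7, a8, a9]
    simp

end sperner

theorem not_op {j l : ℕ} (hl : j ≤ l) {a : ℤ} (h1 : 0 ≤ a) (h2 : a ≤ 3 ^ j) : ¬ Op (3 ^ l) a := by
  rintro ⟨q, b1, b2⟩
  have h0 : (0 : ℤ) < 3 ^ l := by positivity
  have h3 : (3 : ℤ) ^ j ≤ 3 ^ l := pow_le_pow_right₀ (by norm_num) hl
  have := lt_of_mul_lt_mul_left (b1.trans_le (h2.trans (h3.trans_eq (mul_one _).symm))) h0.le
  have := lt_of_mul_lt_mul_left ((mul_zero _).trans_le h1 |>.trans_lt b2) h0.le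
  omega

theorem car_bd {j : ℕ} {a : ℤ} (h : a = 0 ∨ a = 3 ^ j) (l : ℕ) : ¬ Op (3 ^ l) a := by
  rcases lt_or_ge j l with hl | hl
  · exact not_op hl.le (by rcases h with rfl | rfl <;> positivity)
      (by rcases h with rfl | rfl <;> simp)
  · refine fun h1 => h1.not_dvd (by positivity) ?_
    rcases h with rfl | rfl
    · exact dvd_zero _
    · exact pow_dvd_pow _ hl

/-- the edge weight -/
def ph (a b : Fin 3) : ZMod 2 := if (a = 0 ∧ b = 1) ∨ (a = 1 ∧ b = 0) then 1 else 0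

theorem sperner (ℓ : ℤ × ℤ → Fin 3) (j : ℕ) (h0 : ∀ b, ℓ (0, b) ≠ 0) (h1 : ∀ a, ℓ (a, 0) ≠ 1)
    (h2 : ∀ b, ℓ (3 ^ j, b) ≠ 2) (h3 : ∀ a, ℓ (a, 3 ^ j) ≠ 2) :
    Ls (fun p p' => ph (ℓ p) (ℓ p')) 0 0 (3 ^ j) ≠ 0 := by
  let ψ : Fin 3 → ZMod 2 := fun a => if a = 1 then 1 else 0
  have k0 : ∀ a b : Fin 3, a ≠ 0 → b ≠ 0 → ph a b = 0 := by decide
  have k1 : ∀ a b : Fin 3, a ≠ 1 → b ≠ 1 → ph a b = 0 := by decide
  have k2 : ∀ a b : Fin 3, a ≠ 2 → b ≠ 2 → ph a b = ψ b - ψ a := by decide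
  have k3 : ∀ a b c : Fin 3, a ≠ 0 → a ≠ 2 → b ≠ 1 → ψ c - ψ a + (ψ c - ψ b) ≠ 0 := by decide
  simp only [Ls, Hs, Vs, zero_add, Nat.cast_pow, Nat.cast_ofNat]
  rw [sum_eq_zero fun t _ => k1 _ _ (h1 _) (h1 _), sum_congr rfl fun t _ => k2 _ _ (h3 _) (h3 _),
    sum_eq_zero fun t _ => k0 _ _ (h0 _) (h0 _), sum_congr rfl fun t _ => k2 _ _ (h2 _) (h2 _)]
  have e1 := sum_range_sub (fun t : ℕ => ψ (ℓ (t, 3 ^ j))) (3 ^ j)
  have e2 := sum_range_sub (fun t : ℕ => ψ (ℓ (3 ^ j, t))) (3 ^ j)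
  push_cast at e1 e2
  rw [e1, e2, zero_add, add_zero]
  exact k3 _ _ _ (h0 _) (h3 _) (h1 _)

theorem notX (U : Fin 2 → Set (Set XX)) (D : ℝ)
    (hD : ∀ i, ∀ A ∈ U i, ∀ a ∈ A, ∀ b ∈ A, (MX.d a b : ℝ) ≤ D)
    (hU : ∀ z, ∃ i, ∃ A ∈ U i, z ∈ A)
    (hR : ∀ i, ∀ A ∈ U i, ∀ B ∈ U i, A ≠ B → ∀ a ∈ A, ∀ b ∈ B, (2 : ℝ) < MX.d a b) : False := by
  classical
  choose col A hA hx using hU
  obtain ⟨j, hj⟩ := exists_pow_lt_of_lt_one (x := 1 / ((⌈D⌉₊ : ℝ) ^ 2 + 1)) (by positivity)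
    (show (1 / 2 : ℝ) < 1 by norm_num)
  have hj' : (⌈D⌉₊ : ℝ) * (⌈D⌉₊ * (1 / 2) ^ j) < 1 := by
    rw [lt_div_iff₀ (by positivity)] at hj
    nlinarith [pow_pos (show (0 : ℝ) < 1 / 2 by norm_num) j]
  have f0 : ff j 0 = 0 := by simpa [ff] using congrArg (fun t => min 1 (max 0 t)) (sc_int j 0)
  have f1 : ff j (3 ^ j) = 1 := by simpa [ff] using congrArg (fun t => min 1 (max 0 t)) (sc_int j 1)
  let lab : Set XX → Fin 3 := fun S =>
    if ∀ x ∈ S, x.1.1 ≠ 0 then 0 else if ∀ x ∈ S, x.1.2 ≠ 0 then 1 else 2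
  let ℓ : ℤ × ℤ → Fin 3 := fun p => if h : car p then lab (A ⟨p, h⟩) else 0
  have hℓ : ∀ x : XX, ℓ x.1 = lab (A x) := fun x => dif_pos x.2
  have h2 : ∀ x : XX, x.1.1 = 3 ^ j ∨ x.1.2 = 3 ^ j → ℓ x.1 ≠ 2 := fun x h => by
    rw [hℓ]
    simp only [lab]
    split_ifs with a1 a2
    · decide
    · decide
    push Not at a1 a2
    obtain ⟨y, b1, b2⟩ := a1
    obtain ⟨z, b3, b4⟩ := a2
    have c1 := (ff_rch j (connX.rch' (hD _ _ (hA x) x (hx x) y b1))).1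
    have c2 := (ff_rch j (connX.rch' (hD _ _ (hA x) x (hx x) z b3))).2
    rcases h with h | h
    · rw [h, b2, f0, f1] at c1
      norm_num at c1 hj'
      linarith
    · rw [h, b4, f0, f1] at c2
      norm_num at c2 hj'
      linarith
  refine sperner ℓ j (fun b => ?_) (fun a => ?_)
    (fun b => h2 ⟨(_, b), fun l h => car_bd (Or.inr rfl) l h.1⟩ (Or.inl rfl))
    (fun a => h2 ⟨(a, _), fun l h => car_bd (Or.inr rfl) l h.2⟩ (Or.inr rfl)) ?_
  · let x : XX := ⟨(0, b), fun l h => car_bd (j := 0) (Or.inl rfl) l h.1⟩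
    rw [hℓ x]
    simp only [lab]
    rw [if_neg fun h => h x (hx x) rfl]
    split_ifs <;> decide
  · let x : XX := ⟨(a, 0), fun l h => car_bd (j := 0) (Or.inl rfl) l h.2⟩
    rw [hℓ x]
    simp only [lab]
    split_ifs with a1 a2
    · decide
    · exact absurd rfl (a2 x (hx x))
    · decide
  · have h3 := loop (φ := fun p p' => ph (ℓ p) (ℓ p'))
      (fun p p' => by simp only [ph]; exact if_congr (by tauto) rfl rfl) ?_ j 0 0
      fun a b a1 a2 _ _ l hl h => not_op hl (by simpa using a1) (by simpa using a2) h.1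
    · simpa using h3
    intro p₁ p₂ p₃ p₄ c1 c2 c3 c4 e1 e2 e3 e4
    have key : ∀ x y : XX, MX.Rch 1 2 x y → col x = col y → ℓ x.1 = ℓ y.1 := fun x y h h' => by
      rw [hℓ, hℓ]
      by_contra h4
      have h5 := hR _ _ (hA x) _ (h' ▸ hA y) (fun h => h4 (by rw [h])) x (hx x) y (hx y)
      have h6 : MX.d x y ≤ 2 := MV.d_le h
      have : (MX.d x y : ℝ) ≤ 2 := by exact_mod_cast h6
      linarith
    have r1 := Ed.rch (x := ⟨p₁, c1⟩) (x' := ⟨p₂, c2⟩) e1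
    have r2 := Ed.rch (x := ⟨p₂, c2⟩) (x' := ⟨p₃, c3⟩) e2
    have r3 := Ed.rch (x := ⟨p₃, c3⟩) (x' := ⟨p₄, c4⟩) e3
    have r4 := Ed.rch (x := ⟨p₁, c1⟩) (x' := ⟨p₄, c4⟩) e4
    have k : ∀ (a b c d : Fin 3) (s t u v : Fin 2), (s = t → a = b) → (t = u → b = c) →
        (u = v → c = d) → (s = v → a = d) → (s = u → a = c) → (t = v → b = d) →
        ph a b + ph b c + ph c d + ph a d = 0 := by decide
    exact k _ _ _ _ _ _ _ _ (key _ _ (r1.mono le_rfl one_le_two)) (key _ _ (r2.mono le_rfl one_le_two))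
      (key _ _ (r3.mono le_rfl one_le_two)) (key _ _ (r4.mono le_rfl one_le_two))
      (key _ _ (r1.trans r2)) (key _ _ (r2.trans r3))

end Pool.Agent.H86.Pon
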