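import Pool.Agent.H86.PonC

set_option autoImplicit false

namespace Pool.Agent.H86.Pon

open Finset Equiv

/-- centred position in the block -/
noncomputable def zz (s : ℝ) : ℝ := 2 * (s - 3 * fl s) - 3

theorem zz_abs (s : ℝ) : |zz s| ≤ 3 :=
  abs_le.mpr ⟨by linarith [fl_le s, zz.eq_1 s], by linarith [lt_fl s, zz.eq_1 s]⟩

theorem zz_int (n : ℤ) : zz (3 * n) = -3 := by
  rw [zz, fl_eq le_rfl (by linarith)]; ring

/-- close positions -/
def Cl (η : ℝ) (q : ℤ) (a : ℝ) (q' : ℤ) (a' : ℝ) : Prop :=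
  (q = q' ∧ |a - a'| ≤ η) ∨ (q' = q + 1 ∧ 3 - η ≤ a ∧ a' ≤ -3 + η) ∨
    (q = q' + 1 ∧ 3 - η ≤ a' ∧ a ≤ -3 + η)

/-- antipodal positions -/
def An (n q : ℤ) (a : ℝ) (q' : ℤ) (a' : ℝ) : Prop :=
  (q' = n - q - 1 ∧ a' = -a) ∨ (q' = n - q ∧ a = -3 ∧ a' = -3)

theorem Cl.abs {η a a' : ℝ} {q q' : ℤ} (h : Cl η q a q' a') (h1 : |a| ≤ 3) (h2 : |a'| ≤ 3) :
    |(|a| - |a'|)| ≤ η := by
  have := le_abs_self a
  have := neg_le_abs a
  have := le_abs_self a'
  have := neg_le_abs a'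
  rcases h with ⟨-, h⟩ | ⟨-, h, h'⟩ | ⟨-, h, h'⟩
  · exact (abs_abs_sub_abs_le _ _).trans h
  · exact abs_le.mpr ⟨by linarith, by linarith⟩
  · exact abs_le.mpr ⟨by linarith, by linarith⟩

theorem zz_cl {s s' ε : ℝ} (h : |s - s'| ≤ ε) (hε : ε ≤ 1) :
    Cl (2 * ε) (fl s) (zz s) (fl s') (zz s') := by
  have a1 := fl_le s
  have a2 := lt_fl s
  have a3 := fl_le s'
  have a4 := lt_fl s'
  rw [abs_le] at h
  have h1 : fl s < fl s' + 2 := by
    have : (fl s : ℝ) < fl s' + 2 := by linarith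
    exact_mod_cast this
  have h2 : fl s' < fl s + 2 := by
    have : (fl s' : ℝ) < fl s + 2 := by linarith
    exact_mod_cast this
  obtain h3 | h3 | h3 : fl s = fl s' ∨ fl s' = fl s + 1 ∨ fl s = fl s' + 1 := by omega
  · refine Or.inl ⟨h3, ?_⟩
    rw [zz, zz, h3, abs_le]
    constructor <;> linarith
  · have : (fl s' : ℝ) = fl s + 1 := by exact_mod_cast h3
    exact Or.inr (Or.inl ⟨h3, by rw [zz]; linarith, by rw [zz]; linarith⟩)
  · have : (fl s : ℝ) = fl s' + 1 := by exact_mod_cast h3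
    exact Or.inr (Or.inr ⟨h3, by rw [zz]; linarith, by rw [zz]; linarith⟩)

theorem zz_an {s s' : ℝ} {n : ℤ} (h : s + s' = 3 * n) : An n (fl s) (zz s) (fl s') (zz s') := by
  rcases fl_sym h with ⟨h1, h2⟩ | h2
  · exact Or.inr ⟨h2, by rw [zz]; linarith, by rw [zz, h2]; push_cast; linarith⟩
  · exact Or.inl ⟨h2, by rw [zz, zz, h2]; push_cast; linarith⟩

/-- closeness to the hole -/
noncomputable def uu (s t : ℝ) : ℝ := max 0 (2 - max |zz s| |zz t|)

theorem uu_comm (s t : ℝ) : uu s t = uu t s := by rw [uu, uu, max_comm |zz s|]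

theorem uu_nonneg (s t : ℝ) : 0 ≤ uu s t := le_max_left _ _

theorem uu_zero {s : ℝ} (h : 2 ≤ |zz s|) (t : ℝ) : uu s t = 0 :=
  max_eq_left (by linarith [le_max_left |zz s| |zz t|])

theorem uu_le {s t : ℝ} (h : 1 ≤ max |zz s| |zz t|) : uu s t ≤ 1 :=
  max_le zero_le_one (by linarith)

theorem Cl.zero {s s' ε : ℝ} (h : Cl (2 * ε) (fl s) (zz s) (fl s') (zz s')) (hε : ε ≤ 1 / 2)
    (t t' : ℝ) : (fl s = fl s' ∧ |zz s - zz s'| ≤ 2 * ε) ∨ (uu s t = 0 ∧ uu s' t' = 0) := by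
  refine h.imp id fun h => ?_
  rcases h with ⟨-, h, h'⟩ | ⟨-, h, h'⟩
  · exact ⟨uu_zero (le_abs.mpr (Or.inl (by linarith))) _,
      uu_zero (le_abs.mpr (Or.inr (by linarith))) _⟩
  · exact ⟨uu_zero (le_abs.mpr (Or.inr (by linarith))) _,
      uu_zero (le_abs.mpr (Or.inl (by linarith))) _⟩

theorem uu_lip {s s' t t' ε : ℝ} (h1 : |s - s'| ≤ ε) (h2 : |t - t'| ≤ ε) (hε : ε ≤ 1 / 2) :
    |uu s t - uu s' t'| ≤ 2 * ε := by
  have a1 := (zz_cl h1 (by linarith)).abs (zz_abs _) (zz_abs _)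
  have a2 := (zz_cl h2 (by linarith)).abs (zz_abs _) (zz_abs _)
  have h0 := (abs_nonneg _).trans h1
  refine (abs_max_sub_max_le_max _ _ _ _).trans (max_le (by simpa using h0) ?_)
  rw [sub_sub_sub_cancel_left, abs_sub_comm]
  exact (abs_max_sub_max_le_max _ _ _ _).trans (max_le a1 a2)

theorem uz_lip {s s' t t' ε : ℝ} (h1 : |s - s'| ≤ ε) (h2 : |t - t'| ≤ ε) (hε : ε ≤ 1 / 2)
    (h3 : uu s t ≤ 1) : |uu s t * zz s - uu s' t' * zz s'| ≤ 8 * ε := by
  have h0 := (abs_nonneg _).trans h1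
  rcases (zz_cl h1 (by linarith)).zero hε t t' with ⟨-, h⟩ | ⟨h, h'⟩
  · have e : uu s t * zz s - uu s' t' * zz s' =
        uu s t * (zz s - zz s') + (uu s t - uu s' t') * zz s' := by ring
    rw [e]
    refine (abs_add_le _ _).trans ?_
    rw [abs_mul, abs_mul, abs_of_nonneg (uu_nonneg s t)]
    have := mul_le_mul h3 h (abs_nonneg _) zero_le_one
    have := mul_le_mul (uu_lip h1 h2 hε) (zz_abs s') (abs_nonneg _) (by linarith)
    linarith
  · rw [h, h']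
    simpa using h0

/-- the twisted position -/
noncomputable def av (s t σ : ℝ) : ℝ := zz s - uu s t * zz s - σ * (uu s t * zz t)

theorem av_abs {s t σ : ℝ} (h : uu s t ≤ 1) (hσ : |σ| = 1) : |av s t σ| ≤ 3 := by
  have e : av s t σ = (1 - uu s t) * zz s - σ * (uu s t * zz t) := by rw [av]; ring
  rw [e]
  refine (abs_sub _ _).trans ?_
  rw [abs_mul, abs_mul, abs_mul, hσ, abs_of_nonneg (uu_nonneg s t), abs_of_nonneg (by linarith)]
  have := mul_le_mul_of_nonneg_left (zz_abs s) (sub_nonneg.mpr h)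
  have := mul_le_mul_of_nonneg_left (zz_abs t) (uu_nonneg s t)
  linarith

theorem av_big {s t σ : ℝ} (h : 1 ≤ max |zz s| |zz t|) (hσ : |σ| = 1) :
    1 / 2 ≤ |av s t σ| ∨ 1 / 2 ≤ |av t s (-σ)| := by
  by_contra h1
  push Not at h1
  have h2 : σ ^ 2 = 1 := by rw [← sq_abs, hσ, one_pow]
  have h3 : 1 ≤ zz s ^ 2 + zz t ^ 2 := by
    rcases le_max_iff.mp h with h | h
    · nlinarith [sq_abs (zz s), sq_nonneg (zz t)]
    · nlinarith [sq_abs (zz t), sq_nonneg (zz s)]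
  have h4 : av s t σ ^ 2 + av t s (-σ) ^ 2 =
      ((1 - uu s t) ^ 2 + uu s t ^ 2) * (zz s ^ 2 + zz t ^ 2) := by
    rw [av, av, uu_comm t s]
    linear_combination (uu s t ^ 2 * (zz s ^ 2 + zz t ^ 2)) * h2
  have h5 : 1 / 2 ≤ (1 - uu s t) ^ 2 + uu s t ^ 2 := by nlinarith [sq_nonneg (1 - 2 * uu s t)]
  have h6 := mul_le_mul h5 h3 zero_le_one (by positivity)
  nlinarith [sq_abs (av s t σ), sq_abs (av t s (-σ)), abs_nonneg (av s t σ),
    abs_nonneg (av t s (-σ)), h1.1, h1.2]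

theorem av_cl {s s' t t' ε σ : ℝ} (h1 : |s - s'| ≤ ε) (h2 : |t - t'| ≤ ε) (hε : ε ≤ 1 / 2)
    (h3 : uu s t ≤ 1) (hσ : |σ| = 1) : Cl (18 * ε) (fl s) (av s t σ) (fl s') (av s' t' σ) := by
  have h0 := (abs_nonneg _).trans h1
  have h4 := zz_cl h1 (by linarith)
  rcases h4.zero hε t t' with ⟨h, h'⟩ | ⟨h, h'⟩
  · refine Or.inl ⟨h, ?_⟩
    have a1 := uz_lip h1 h2 hε h3
    have a2 := uz_lip h2 h1 hε (uu_comm s t ▸ h3)
    rw [uu_comm t, uu_comm t'] at a2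
    have e : av s t σ - av s' t' σ = zz s - zz s' - (uu s t * zz s - uu s' t' * zz s') -
        σ * (uu s t * zz t - uu s' t' * zz t') := by rw [av, av]; ring
    rw [e]
    have a3 := abs_sub (zz s - zz s') (uu s t * zz s - uu s' t' * zz s')
    refine (abs_sub _ _).trans ?_
    rw [abs_mul σ, hσ]
    linarith
  · simp only [av, h, h', zero_mul, mul_zero, sub_zero]
    rcases h4 with ⟨a, b⟩ | ⟨a, b, c⟩ | ⟨a, b, c⟩
    · exact Or.inl ⟨a, by linarith⟩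
    · exact Or.inr (Or.inl ⟨a, by linarith, by linarith⟩)
    · exact Or.inr (Or.inr ⟨a, by linarith, by linarith⟩)

theorem op_of {i : ℕ} {a : ℤ} (h : |zz (sc i a)| < 1) : Op (3 ^ i) a := by
  rw [zz, abs_lt] at h
  refine ⟨fl (sc i a), not_le.mp fun h1 => ?_, not_le.mp fun h1 => ?_⟩ <;>
    have := sc_mono i h1 <;> rw [sc_int] at this <;> push_cast at this <;> linarith [h.1, h.2]

theorem one_le (i : ℕ) (x : XX) : 1 ≤ max |zz (sc i x.1.1)| |zz (sc i x.1.2)| := by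
  by_contra h
  rw [not_le, max_lt_iff] at h
  exact x.2 i ⟨op_of h.1, op_of h.2⟩

theorem Rg.low {k i : ℕ} (hk : k < i) {x x' : XX} (h : Rg k x x') :
    sc i x.1.1 = sc i x'.1.1 ∧ sc i x.1.2 = sc i x'.1.2 := by
  obtain ⟨q, r, b1, b2, b3, b4⟩ := Rel.mids h
  exact ⟨mid_sc hk b1 b2, mid_sc hk b3 b4⟩

theorem mid_zz {i : ℕ} {q a a' : ℤ} (h : Mid (3 ^ i) q a) (h' : a + a' = 3 ^ i * (6 * q + 3)) :
    fl (sc i a) = fl (sc i a') ∧ zz (sc i a') = -zz (sc i a) ∧ |zz (sc i a)| ≤ 1 := by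
  have h1 := h.sc
  have h2 := sc_sym i h'
  push_cast at h2
  have h3 : fl (sc i a) = q := fl_eq (by linarith) (by linarith)
  have h4 : fl (sc i a') = q := fl_eq (by linarith) (by linarith)
  rw [zz, zz, h3, h4, abs_le]
  exact ⟨rfl, by linarith, by linarith, by linarith⟩

theorem Rg.same {i : ℕ} {x x' : XX} (h : Rg i x x') :
    fl (sc i x.1.1) = fl (sc i x'.1.1) ∧ fl (sc i x.1.2) = fl (sc i x'.1.2) ∧
    zz (sc i x'.1.1) = -zz (sc i x.1.1) ∧ zz (sc i x'.1.2) = -zz (sc i x.1.2) ∧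
    uu (sc i x.1.1) (sc i x.1.2) = 1 ∧ uu (sc i x'.1.1) (sc i x'.1.2) = 1 := by
  obtain ⟨q, r, a1, a2, -, a3, a4⟩ := h
  obtain ⟨b1, b2, b3⟩ := mid_zz a1 a3
  obtain ⟨c1, c2, c3⟩ := mid_zz a2 a4
  have := le_antisymm (max_le b3 c3) (one_le i x)
  refine ⟨b1, c1, b2, c2, ?_, ?_⟩
  · rw [uu, this]; norm_num
  · rw [uu, b2, c2, abs_neg, abs_neg, this]; norm_num

theorem sc_up (i e : ℕ) (w : ℤ) : sc i (3 ^ (i + 1 + e) * w) = 3 * ((3 ^ e * w : ℤ) : ℝ) := by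
  rw [show (3 : ℤ) ^ (i + 1 + e) * w = 3 ^ i * (3 * (3 ^ e * w)) by ring, sc_int, Int.cast_mul,
    Int.cast_ofNat]

theorem Rg.high {i e : ℕ} {x x' : XX} (h : Rg (i + 1 + e) x x') :
    uu (sc i x.1.1) (sc i x.1.2) = 0 := by
  obtain ⟨q, r, -, -, ⟨w, a⟩ | ⟨w, a⟩, -⟩ := h
  · exact uu_zero (by rw [a, sc_up, zz_int]; norm_num) _
  · rw [uu_comm]
    exact uu_zero (by rw [a, sc_up, zz_int]; norm_num) _

open Classical in
/-- coordinate of the label -/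
noncomputable def cb (use : Prop) (q : ℤ) (a : ℝ) : ℤ :=
  2 * q + 1 + if use then if 0 < a then 1 else -1 else 0

/-- margin condition -/
def OK (m : ℝ) (use : Prop) (a : ℝ) : Prop := (use → m ≤ |a|) ∧ (¬ use → |a| ≤ 3 - m)

theorem cb_bd (use : Prop) (q : ℤ) (a : ℝ) : 2 * q ≤ cb use q a ∧ cb use q a ≤ 2 * q + 2 := by
  rw [cb]
  split_ifs <;> omega

theorem cb_cl {η a a' : ℝ} {q q' : ℤ} {use : Prop} (h : Cl η q a q' a') (h1 : OK (1 / 8) use a)
    (h2 : OK (1 / 8) use a') (hη : η < 1 / 8) : cb use q a = cb use q' a' := by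
  simp only [cb]
  by_cases hu : use
  · have a1 := le_abs.mp (h1.1 hu)
    have a2 := le_abs.mp (h2.1 hu)
    simp only [hu, if_true]
    rcases h with ⟨rfl, h⟩ | ⟨rfl, h, h'⟩ | ⟨rfl, h, h'⟩
    · rw [abs_le] at h
      have : 0 < a ↔ 0 < a' := by
        constructor <;> intro _ <;> rcases a1 with a1 | a1 <;> rcases a2 with a2 | a2 <;>
          linarith [h.1, h.2]
      simp only [this]
    · rw [if_pos (by linarith), if_neg (by linarith)]; ring
    · rw [if_neg (by linarith), if_pos (by linarith)]; ring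
  · have a1 := abs_le.mp (h1.2 hu)
    have a2 := abs_le.mp (h2.2 hu)
    simp only [hu, if_false]
    rcases h with ⟨rfl, h⟩ | ⟨rfl, h, h'⟩ | ⟨rfl, h, h'⟩
    · rfl
    · linarith [a1.2]
    · linarith [a1.1]

theorem cb_an {a a' : ℝ} {n q q' : ℤ} {use : Prop} (h : An n q a q' a') (h1 : OK (1 / 8) use a) :
    cb use q a + cb use q' a' = 2 * n := by
  simp only [cb]
  by_cases hu : use
  · have a1 := le_abs.mp (h1.1 hu)
    simp only [hu, if_true]
    rcases h with ⟨rfl, rfl⟩ | ⟨rfl, rfl, rfl⟩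
    · rcases a1 with a1 | a1
      · rw [if_pos (by linarith), if_neg (by linarith)]; ring
      · rw [if_neg (by linarith), if_pos (by linarith)]; ring
    · rw [if_neg (by linarith)]; ring
  · have a1 := abs_le.mp (h1.2 hu)
    simp only [hu, if_false]
    rcases h with ⟨rfl, rfl⟩ | ⟨rfl, rfl, rfl⟩
    · ring
    · linarith [a1.1]

theorem cb_mem {s : ℝ} {α β : ℤ} {use : Prop} (h1 : 3 * (α : ℝ) ≤ s) (h2 : s ≤ 3 * (β : ℝ))
    (h : OK (1 / 8) use (zz s)) : 2 * α ≤ cb use (fl s) (zz s) ∧ cb use (fl s) (zz s) ≤ 2 * β := by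
  have a1 := fl_le s
  have a2 := lt_fl s
  have a3 : α < fl s + 1 := by
    have : (α : ℝ) < fl s + 1 := by linarith
    exact_mod_cast this
  have a4 : fl s ≤ β := by
    have : (fl s : ℝ) ≤ β := by linarith
    exact_mod_cast this
  have a5 := cb_bd use (fl s) (zz s)
  refine ⟨by omega, ?_⟩
  rcases a4.eq_or_lt with a4 | a4
  · have a6 : zz s = -3 := by rw [zz]; rw [← a4] at h2; linarith
    have hu : use := by
      by_contra hu
      have := abs_le.mp (h.2 hu)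
      linarith [this.1]
    rw [cb, if_pos hu, if_neg (by linarith)]
    omega
  · omega

theorem cb_rel {i e : ℕ} {q a a' : ℤ} {use : Prop} (h1 : Mid (3 ^ (i + 1 + e)) q a)
    (h2 : a + a' = 3 ^ (i + 1 + e) * (6 * q + 3)) (h : OK (1 / 8) use (zz (sc i a))) :
    Mid (2 * 3 ^ e) q (cb use (fl (sc i a)) (zz (sc i a))) ∧
    (3 ^ (i + 1 + e) ∣ a → 2 * 3 ^ e ∣ cb use (fl (sc i a)) (zz (sc i a))) ∧
    cb use (fl (sc i a)) (zz (sc i a)) + cb use (fl (sc i a')) (zz (sc i a')) =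
      2 * 3 ^ e * (6 * q + 3) ∧ |zz (sc i a)| = |zz (sc i a')| := by
  have h3 : An (3 ^ e * (6 * q + 3)) _ _ _ _ := zz_an ((sc_sym i (n := 3 * (3 ^ e * (6 * q + 3)))
    (h2.trans (by ring))).trans (by push_cast; ring))
  refine ⟨?_, ?_, (cb_an h3 h).trans (by ring), ?_⟩
  · have := cb_mem ((sc_up i e _).symm.trans_le (sc_mono i h1.1))
      ((sc_mono i h1.2).trans_eq (sc_up i e _)) h
    exact ⟨by linarith [this.1], by linarith [this.2]⟩
  · rintro ⟨w, rfl⟩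
    have := cb_mem (sc_up i e w).ge (sc_up i e w).le h
    exact ⟨w, by linarith [this.1, this.2]⟩
  · rcases h3 with ⟨-, h3⟩ | ⟨-, h3, h4⟩
    · rw [h3, abs_neg]
    · rw [h3, h4]

theorem cb_near (i : ℕ) (use : Prop) (a : ℤ) (t : ℝ) :
    |3 ^ (i + 1) * cb use (fl (sc i a)) t - 2 * a| ≤ 4 * 3 ^ (i + 1) := by
  have a1 := fl_le (sc i a)
  have a2 := lt_fl (sc i a)
  have a3 := cb_bd use (fl (sc i a)) t
  have a4 : 3 ^ (i + 1 + 0) * (fl (sc i a) - 1) ≤ a := not_lt.mp fun h => by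
    have := sc_mono i h.le
    rw [sc_up] at this
    push_cast at this
    linarith
  have a5 : a ≤ 3 ^ (i + 1 + 0) * (fl (sc i a) + 1) := not_lt.mp fun h => by
    have := sc_mono i h.le
    rw [sc_up] at this
    push_cast at this
    linarith
  have h0 : (0 : ℤ) < 3 ^ (i + 1) := by positivity
  rw [add_zero] at a4 a5
  rw [abs_le]
  constructor <;> nlinarith [a3.1, a3.2]

end Pool.Agent.H86.Pon
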