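import Pool.Agent.H86.PonD

set_option autoImplicit false

namespace Pool.Agent.H86.Pon

open Finset Equiv

/-- the sheet -/
noncomputable def sg (i : ℕ) (γ : GG) : ℝ := if γ (i, false) = 0 then 1 else -1

theorem sg_abs (i : ℕ) (γ : GG) : |sg i γ| = 1 := by
  rw [sg]
  split_ifs <;> simp

theorem sg_ne {i : ℕ} {p : ℕ × Bool} (h : p ≠ (i, false)) (γ : GG) :
    sg i (γ + ee p) = sg i γ := by
  rw [sg, sg, Finsupp.add_apply, ee, Finsupp.single_eq_of_ne h.symm, add_zero]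

theorem sg_self (i : ℕ) (γ : GG) : sg i (γ + ee (i, false)) = -sg i γ := by
  rw [sg, sg, Finsupp.add_apply, ee, Finsupp.single_eq_same]
  have : ∀ t : ZMod 2, t + 1 = 0 ↔ ¬ t = 0 := by decide
  simp only [this]
  split_ifs <;> simp

/-- first twisted coordinate -/
noncomputable def aa (i : ℕ) (y : XX × GG) : ℝ := av (sc i y.1.1.1) (sc i y.1.1.2) (sg i y.2)

/-- second twisted coordinate -/
noncomputable def bb (i : ℕ) (y : XX × GG) : ℝ := av (sc i y.1.1.2) (sc i y.1.1.1) (-sg i y.2)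

theorem aa_abs (i : ℕ) (y : XX × GG) : |aa i y| ≤ 3 := av_abs (uu_le (one_le i _)) (sg_abs _ _)

theorem bb_abs (i : ℕ) (y : XX × GG) : |bb i y| ≤ 3 :=
  av_abs (uu_comm _ _ ▸ uu_le (one_le i _)) (by rw [abs_neg, sg_abs])

/-- the high levels -/
noncomputable def flt (i : ℕ) (γ : GG) : GG := γ.filter fun p => i < p.1

theorem flt_low {i : ℕ} {p : ℕ × Bool} (h : p.1 ≤ i) (γ : GG) : flt i (γ + ee p) = flt i γ := by
  rw [flt, flt, Finsupp.filter_add, ee, Finsupp.filter_single_of_neg (fun p : ℕ × Bool => i < p.1)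
    (not_lt.mpr h), add_zero]

theorem flt_high {i : ℕ} {p : ℕ × Bool} (h : i < p.1) (γ : GG) :
    flt i (γ + ee p) = flt i γ + ee p := by
  rw [flt, flt, Finsupp.filter_add, ee, Finsupp.filter_single_of_pos (fun p : ℕ × Bool => i < p.1) h]

theorem flt_eq {i : ℕ} {γ γ' : GG} (h : flt i γ = flt i γ') (p : ℕ × Bool) (hp : i + 1 ≤ p.1) :
    γ p = γ' p := by
  have := DFunLike.congr_fun h p
  rwa [flt, flt, Finsupp.filter_apply_pos (fun p : ℕ × Bool => i < p.1) _ hp,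
    Finsupp.filter_apply_pos (fun p : ℕ × Bool => i < p.1) _ hp] at this

/-- effect of one move -/
def Mv (i : ℕ) (η : ℝ) (y y' : XX × GG) : Prop :=
  (Cl η (fl (sc i y.1.1.1)) (aa i y) (fl (sc i y'.1.1.1)) (aa i y') ∧
    Cl η (fl (sc i y.1.1.2)) (bb i y) (fl (sc i y'.1.1.2)) (bb i y') ∧ flt i y'.2 = flt i y.2) ∨
  ∃ e, Rg (i + 1 + e) y.1 y'.1 ∧ y'.2 = y.2 + ee (i + 1 + e, false)

theorem mv_near {i : ℕ} {ε : ℝ} (hε : ε ≤ 1 / 2) {y y' : XX × GG}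
    (h1 : |sc i y.1.1.1 - sc i y'.1.1.1| ≤ ε) (h2 : |sc i y.1.1.2 - sc i y'.1.1.2| ≤ ε)
    (h3 : sg i y'.2 = sg i y.2) (h4 : flt i y'.2 = flt i y.2) : Mv i (18 * ε) y y' := by
  refine Or.inl ⟨?_, ?_, h4⟩
  · rw [aa, aa, h3]
    exact av_cl h1 h2 hε (uu_le (one_le i _)) (sg_abs _ _)
  · rw [bb, bb, h3]
    exact av_cl h2 h1 hε (uu_comm _ _ ▸ uu_le (one_le i _)) (by rw [abs_neg, sg_abs])

theorem mv_act {i c : ℕ} (hc : c ≤ i) (hε : (c : ℝ) * (1 / 2) ^ i ≤ 1 / 2) (μ : II ⊕ (ℕ × Bool))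
    (hμ : MY.cost μ ≤ c) (y : XX × GG) : Mv i (18 * (c * (1 / 2) ^ i)) y (MY.act μ y) := by
  have h0 : (0 : ℝ) ≤ c * (1 / 2) ^ i := by positivity
  cases μ with
  | inr p =>
    change p.1 + 1 ≤ c at hμ
    exact mv_near hε (by simpa [MY, sk_apply] using h0) (by simpa [MY, sk_apply] using h0)
      (sg_ne (fun h => by rw [h] at hμ; omega) _) (flt_low (by omega) _)
  | inl μ =>
    change Mv i _ y (MX.act μ y.1, y.2 + co μ y.1)
    rcases step_act μ y.1 hμ with ⟨h1, h2, h3⟩ | ⟨k, h1, h2⟩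
    · rw [h3, add_zero]
      exact mv_near hε (sc_lip i h1) (sc_lip i h2) rfl rfl
    rw [h2]
    rcases lt_trichotomy k i with hk | rfl | hk
    · exact mv_near hε (by simpa [(h1.low hk).1] using h0) (by simpa [(h1.low hk).2] using h0)
        (sg_ne (by simp [hk.ne]) _) (flt_low hk.le _)
    · obtain ⟨a1, a2, a3, a4, a5, a6⟩ := h1.same
      refine Or.inl ⟨Or.inl ⟨a1, ?_⟩, Or.inl ⟨a2, ?_⟩, flt_low le_rfl _⟩
      · simp only [aa, av, sg_self, a3, a4, a5, a6]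
        simpa using h0
      · rw [uu_comm] at a5 a6
        simp only [bb, av, sg_self, a3, a4, a5, a6]
        simpa using h0
    · obtain ⟨e, rfl⟩ := Nat.exists_eq_add_of_le hk
      exact Or.inr ⟨e, h1, rfl⟩

theorem Rg.ab {i e : ℕ} {y : XX × GG} {x' : XX} (h : Rg (i + 1 + e) y.1 x') :
    aa i y = zz (sc i y.1.1.1) ∧ bb i y = zz (sc i y.1.1.2) := by
  simp [aa, bb, av, h.high, uu_comm (sc i y.1.1.2)]

theorem Mv.abs {i : ℕ} {η : ℝ} (h0 : 0 ≤ η) {y y' : XX × GG} (h : Mv i η y y') :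
    |(|aa i y| - |aa i y'|)| ≤ η ∧ |(|bb i y| - |bb i y'|)| ≤ η := by
  rcases h with ⟨h1, h2, -⟩ | ⟨e, h, -⟩
  · exact ⟨h1.abs (aa_abs _ _) (aa_abs _ _), h2.abs (bb_abs _ _) (bb_abs _ _)⟩
  · have k : ∀ a : ℝ, OK (1 / 8) (1 / 8 ≤ |a|) a := fun a => ⟨id, fun h => by linarith⟩
    have h' : Rg (i + 1 + e) y'.1 y.1 := Rel.symm h
    rw [h.ab.1, h.ab.2, h'.ab.1, h'.ab.2]
    obtain ⟨q, r, a1, a2, -, a3, a4⟩ := h
    rw [(cb_rel a1 a3 (k _)).2.2.2, (cb_rel a2 a4 (k _)).2.2.2]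
    simpa using h0

/-- regions -/
def Reg (m : ℝ) (θ : Fin 3) (a b : ℝ) : Prop :=
  (θ = 0 → m ≤ |a| ∧ m ≤ |b|) ∧ (θ = 1 → |b| + m ≤ |a|) ∧ (θ = 2 → |a| + m ≤ |b|)

theorem Reg.ok {θ : Fin 3} {a b : ℝ} (h : Reg (1 / 8) θ a b) (h1 : |a| ≤ 3) (h2 : |b| ≤ 3) :
    OK (1 / 8) (θ ≠ 2) a ∧ OK (1 / 8) (θ ≠ 1) b := by
  have := abs_nonneg a
  have := abs_nonneg b
  obtain rfl | rfl | rfl : θ = 0 ∨ θ = 1 ∨ θ = 2 := by omega
  · exact ⟨⟨fun _ => (h.1 rfl).1, fun h => absurd (by decide) h⟩,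
      fun _ => (h.1 rfl).2, fun h => absurd (by decide) h⟩
  · have := h.2.1 rfl
    exact ⟨⟨fun _ => by linarith, fun h => absurd (by decide) h⟩,
      fun h => absurd rfl h, fun _ => by linarith⟩
  · have := h.2.2 rfl
    exact ⟨⟨fun h => absurd rfl h, fun _ => by linarith⟩,
      fun _ => by linarith, fun h => absurd (by decide) h⟩

theorem Reg.move {θ : Fin 3} {a b a' b' : ℝ} (h : Reg (1 / 4) θ a b)
    (h1 : |(|a| - |a'|)| ≤ 1 / 16) (h2 : |(|b| - |b'|)| ≤ 1 / 16) : Reg (1 / 8) θ a' b' := by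
  rw [abs_le] at h1 h2
  exact ⟨fun e => ⟨by linarith [(h.1 e).1], by linarith [(h.1 e).2]⟩,
    fun e => by linarith [h.2.1 e], fun e => by linarith [h.2.2 e]⟩

theorem ex_reg (i : ℕ) (y : XX × GG) : ∃ θ, Reg (1 / 4) θ (aa i y) (bb i y) := by
  have h : 1 / 2 ≤ |aa i y| ∨ 1 / 2 ≤ |bb i y| := av_big (one_le i _) (sg_abs _ _)
  by_cases h1 : |bb i y| + 1 / 4 ≤ |aa i y|
  · exact ⟨1, fun e => absurd e (by decide), fun _ => h1, fun e => absurd e (by decide)⟩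
  by_cases h2 : |aa i y| + 1 / 4 ≤ |bb i y|
  · exact ⟨2, fun e => absurd e (by decide), fun e => absurd e (by decide), fun _ => h2⟩
  exact ⟨0, fun _ => by rcases h with h | h <;> constructor <;> linarith,
    fun e => absurd e (by decide), fun e => absurd e (by decide)⟩

/-- labels -/
noncomputable def lab (i : ℕ) (θ : Fin 3) (y : XX × GG) : (ℤ × ℤ) × GG :=
  ((cb (θ ≠ 2) (fl (sc i y.1.1.1)) (aa i y), cb (θ ≠ 1) (fl (sc i y.1.1.2)) (bb i y)), flt i y.2)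

/-- a point near a label -/
def Nr (i : ℕ) (x : XX) (L : ℤ × ℤ) : Prop :=
  |3 ^ (i + 1) * L.1 - 2 * x.1.1| ≤ 4 * 3 ^ (i + 1) ∧ |3 ^ (i + 1) * L.2 - 2 * x.1.2| ≤ 4 * 3 ^ (i + 1)

theorem nr_lab (i : ℕ) (θ : Fin 3) (y : XX × GG) : Nr i y.1 (lab i θ y).1 :=
  ⟨cb_near _ _ _ _, cb_near _ _ _ _⟩

theorem Nr.close {i : ℕ} {x x' : XX} {L : ℤ × ℤ} (h : Nr i x L) (h' : Nr i x' L) :
    |x.1.1 - x'.1.1| ≤ (4 * 3 ^ (i + 1) : ℕ) ∧ |x.1.2 - x'.1.2| ≤ (4 * 3 ^ (i + 1) : ℕ) := by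
  simp only [Nr, abs_le] at h h' ⊢
  push_cast
  refine ⟨⟨?_, ?_⟩, ?_, ?_⟩ <;> linarith [h.1.1, h.1.2, h.2.1, h.2.2, h'.1.1, h'.1.2, h'.2.1, h'.2.2]

/-- identification of labels -/
def EE (i : ℕ) (l l' : (ℤ × ℤ) × GG) : Prop :=
  l = l' ∨ ∃ e, Rel (2 * 3 ^ e) l.1 l'.1 ∧ l'.2 = l.2 + ee (i + 1 + e, false) ∧
    ∃ x x', Rg (i + 1 + e) x x' ∧ Nr i x l.1 ∧ Nr i x' l'.1

theorem EE.symm {i : ℕ} {l l' : (ℤ × ℤ) × GG} (h : EE i l l') : EE i l' l := by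
  rcases h with rfl | ⟨e, h1, h2, x, x', h3, h4, h5⟩
  · exact Or.inl rfl
  · exact Or.inr ⟨e, h1.symm, by rw [h2, add_assoc, GG.add_self, add_zero], x', x, Rel.symm h3,
      h5, h4⟩

theorem EE.trans {i : ℕ} {l l' l'' : (ℤ × ℤ) × GG} (h : EE i l l') (h' : EE i l' l'') :
    EE i l l'' := by
  rcases h with rfl | ⟨e, h1, h2, h3⟩
  · exact h'
  rcases h' with rfl | ⟨e', h4, h5, -⟩
  · exact Or.inr ⟨e, h1, h2, h3⟩
  obtain ⟨rfl, h6⟩ := h1.symm.uniq two_pos h4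
  exact Or.inl (Prod.ext h6 (by rw [h5, h2, add_assoc, GG.add_self, add_zero]))

theorem Mv.lab {i : ℕ} {η : ℝ} (hη : η < 1 / 8) {y y' : XX × GG} (h : Mv i η y y') {θ : Fin 3}
    (h1 : Reg (1 / 8) θ (aa i y) (bb i y)) (h2 : Reg (1 / 8) θ (aa i y') (bb i y')) :
    EE i (lab i θ y) (lab i θ y') := by
  obtain ⟨a1, a2⟩ := h1.ok (aa_abs _ _) (bb_abs _ _)
  obtain ⟨a3, a4⟩ := h2.ok (aa_abs _ _) (bb_abs _ _)
  rcases h with ⟨b1, b2, b3⟩ | ⟨e, h, b1⟩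
  · exact Or.inl (Prod.ext (Prod.ext (cb_cl b1 a1 a3 hη) (cb_cl b2 a2 a4 hη)) b3.symm)
  refine Or.inr ⟨e, ?_, ?_, y.1, y'.1, h, nr_lab _ _ _, nr_lab _ _ _⟩
  · have h' : Rg (i + 1 + e) y'.1 y.1 := Rel.symm h
    rw [h.ab.1] at a1
    rw [h.ab.2] at a2
    simp only [Pon.lab, h.ab.1, h.ab.2, h'.ab.1, h'.ab.2]
    obtain ⟨q, r, c1, c2, c3, c4, c5⟩ := h
    obtain ⟨d1, d2, d3, -⟩ := cb_rel c1 c4 a1
    obtain ⟨d4, d5, d6, -⟩ := cb_rel c2 c5 a2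
    exact ⟨q, r, d1, d4, c3.imp d2 d5, d3, d6⟩
  · simp only [Pon.lab, b1]
    exact flt_high (by omega) _

theorem rch_abs {i c k : ℕ} (hc : c ≤ i) (hε : (c : ℝ) * (1 / 2) ^ i ≤ 1 / 2) {y y' : XX × GG}
    (h : MY.Rch c k y y') : |(|aa i y| - |aa i y'|)| ≤ k * (18 * (c * (1 / 2) ^ i)) ∧
      |(|bb i y| - |bb i y'|)| ≤ k * (18 * (c * (1 / 2) ^ i)) := by
  induction h with
  | refl k y => simp only [sub_self, abs_zero]; constructor <;> positivity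
  | @step k y y' μ hμ _ ih =>
    have h1 := (mv_act hc hε μ hμ y').abs (by positivity)
    have a1 := abs_sub_le |aa i y| |aa i y'| |aa i (MY.act μ y')|
    have a2 := abs_sub_le |bb i y| |bb i y'| |bb i (MY.act μ y')|
    push_cast
    constructor <;> linarith [ih.1, ih.2, h1.1, h1.2]

theorem rch_lab {i c k : ℕ} (hc : c ≤ i) (hε : (c : ℝ) * (1 / 2) ^ i ≤ 1 / 2) {y y' : XX × GG}
    (h : MY.Rch c k y y') (hk : (k : ℝ) * (18 * (c * (1 / 2) ^ i)) ≤ 1 / 16) {θ : Fin 3}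
    (h1 : Reg (1 / 4) θ (aa i y) (bb i y)) : EE i (lab i θ y) (lab i θ y') := by
  induction h with
  | refl k y => exact Or.inl rfl
  | @step k y y' μ hμ h ih =>
    have h0 : (0 : ℝ) ≤ 18 * (c * (1 / 2) ^ i) := by positivity
    have h3 : (0 : ℝ) ≤ k * (18 * (c * (1 / 2) ^ i)) := by positivity
    have h4 := rch_abs hc hε h
    have h5 := rch_abs hc hε (h.step μ hμ)
    have hk' := hk
    push_cast at hk'
    exact (ih (by linarith) h1).trans ((mv_act hc hε μ hμ y').lab (by linarith)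
      (h1.move (by linarith [h4.1]) (by linarith [h4.2])) (h1.move (h5.1.trans hk) (h5.2.trans hk)))

theorem lab_bd (i : ℕ) : ∃ D : ℕ, ∀ (θ : Fin 3) (y y' : XX × GG),
    EE i (lab i θ y) (lab i θ y') → MY.d y y' ≤ D := by
  refine ⟨max (4 * 3 ^ (i + 1) + (i + 1)) ((i + 1) * 2 + 1 + 1 + ((i + 1) * 2 + 1)),
    fun θ y y' h => MV.d_le ?_⟩
  rcases h with h | ⟨e, -, h1, x, x', h2, h3, h4⟩
  · have h1 := (nr_lab i θ y).close (h ▸ nr_lab i θ y')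
    exact (rch_near h1.1 h1.2 (flt_eq (congrArg Prod.snd h))).mono le_rfl (by omega)
  · have a1 := (nr_lab i θ y).close h3
    have a2 := h4.close (nr_lab i θ y')
    have a3 := rch_near (y := y) (y' := (x, y.2)) (m := i + 1) a1.1 a1.2 fun _ _ => rfl
    have a4 := rch_near (y := (x', y.2 + ee (i + 1 + e, false))) (y' := y') (m := i + 1) a2.1 a2.2
      (flt_eq ((flt_high (by omega) _).trans h1.symm))
    have a5 := a3.step (.inl none) (Nat.zero_le _)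
    have a6 : MY.act (.inl none) (x, y.2) = (x', y.2 + ee (i + 1 + e, false)) := by
      change ((AA x).1, y.2 + (AA x).2) = _
      rw [h2.AA]
    rw [a6] at a5
    exact a5.trans a4

theorem dimY (R : ℝ) : ∃ U : Fin 2 → Set (Set (XX × GG)),
    (∃ D : ℝ, ∀ i, ∀ A ∈ U i, ∀ a ∈ A, ∀ b ∈ A, (MY.d a b : ℝ) ≤ D) ∧
    (∀ z, ∃ i, ∃ A ∈ U i, z ∈ A) ∧
    (∀ i, ∀ A ∈ U i, ∀ B ∈ U i, A ≠ B → ∀ a ∈ A, ∀ b ∈ B, R < MY.d a b) := by
  obtain ⟨c, hc⟩ : ∃ c, c = ⌈R⌉₊ := ⟨_, rfl⟩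
  obtain ⟨j, hj⟩ := exists_pow_lt_of_lt_one (x := 1 / (288 * ((c : ℝ) + 1) ^ 2)) (by positivity)
    (show (1 / 2 : ℝ) < 1 by norm_num)
  obtain ⟨i, hi⟩ : ∃ i, i = j + c := ⟨_, rfl⟩
  have h1 : (1 / 2 : ℝ) ^ i * (288 * ((c : ℝ) + 1) ^ 2) ≤ 1 := by
    rw [← le_div_iff₀ (by positivity)]
    exact (pow_le_pow_of_le_one (by norm_num) (by norm_num) (by omega)).trans hj.le
  have h0 : (0 : ℝ) < (1 / 2) ^ i := by positivity
  have hc0 : (0 : ℝ) ≤ c := by positivity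
  have h2 : (c : ℝ) * (1 / 2) ^ i ≤ 1 / 2 := by nlinarith [mul_nonneg h0.le (sq_nonneg (c : ℝ))]
  have h3 : (c : ℝ) * (18 * (c * (1 / 2) ^ i)) ≤ 1 / 16 := by nlinarith [mul_nonneg h0.le hc0]
  obtain ⟨D, hD⟩ := lab_bd i
  refine ⟨fun t => {A | ∃ θ l, (θ = 0 ↔ t = 0) ∧
    A = {y | Reg (1 / 4) θ (aa i y) (bb i y) ∧ EE i l (lab i θ y)}}, ⟨D, ?_⟩, fun z => ?_, ?_⟩
  · rintro t A ⟨θ, l, -, rfl⟩ a ha b hb
    exact_mod_cast hD θ a b (ha.2.symm.trans hb.2)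
  · obtain ⟨θ, h⟩ := ex_reg i z
    exact ⟨if θ = 0 then 0 else 1, _, ⟨θ, lab i θ z, by split_ifs with h <;> simp [h], rfl⟩, h,
      Or.inl rfl⟩
  · rintro t A ⟨θ, l, a1, rfl⟩ B ⟨θ', l', a2, rfl⟩ hAB a ha b hb
    refine not_le.mp fun h => hAB ?_
    have h4 := connY.rch' h
    rw [← hc] at h4
    have h5 := rch_abs (i := i) (by omega) h2 h4
    have h6 := abs_le.mp (h5.1.trans h3)
    have h7 := abs_le.mp (h5.2.trans h3)
    obtain rfl : θ = θ' := by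
      have h8 := a1.trans a2.symm
      obtain rfl | rfl | rfl : θ = 0 ∨ θ = 1 ∨ θ = 2 := by omega
      · exact (h8.mp rfl).symm
      · obtain rfl | rfl | rfl : θ' = 0 ∨ θ' = 1 ∨ θ' = 2 := by omega
        · exact h8.mpr rfl
        · rfl
        · linarith [ha.1.2.1 rfl, hb.1.2.2 rfl, h6.1, h6.2, h7.1, h7.2]
      · obtain rfl | rfl | rfl : θ' = 0 ∨ θ' = 1 ∨ θ' = 2 := by omega
        · exact h8.mpr rfl
        · linarith [ha.1.2.2 rfl, hb.1.2.1 rfl, h6.1, h6.2, h7.1, h7.2]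
        · rfl
    have h9 := (ha.2.trans (rch_lab (by omega) h2 h4 h3 ha.1)).trans hb.2.symm
    ext y
    exact and_congr_right fun _ => ⟨h9.symm.trans, h9.trans⟩

end Pool.Agent.H86.Pon
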