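import Pool.Agent.H86.PonE

set_option autoImplicit false

namespace Pool.Agent.H86.Pon

open Pool.Agent.H86.Roe Finset Equiv Filter Topology

/-- horizontal part -/
noncomputable def ze (s t : ℝ) : ℂ := ⟨uu s t * zz s, uu s t * zz t⟩

/-- the normalisation -/
noncomputable def NN (s t : ℝ) : ℝ := ‖(⟨1 - uu s t, ‖ze s t‖⟩ : ℂ)‖

theorem NN_sq (s t : ℝ) : NN s t ^ 2 = (1 - uu s t) ^ 2 + ‖ze s t‖ ^ 2 := by
  rw [NN, Complex.sq_norm, Complex.normSq_mk]; ring

theorem le_NN (s t : ℝ) : |1 - uu s t| ≤ NN s t ∧ ‖ze s t‖ ≤ NN s t :=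
  ⟨Complex.abs_re_le_norm ⟨_, _⟩, (le_abs_self _).trans (Complex.abs_im_le_norm ⟨_, _⟩)⟩

theorem NN_ge {s t : ℝ} (h : 1 ≤ max |zz s| |zz t|) : 1 / 2 ≤ NN s t := by
  have h1 : uu s t ≤ ‖ze s t‖ := by
    have h0 := uu_nonneg s t
    have a1 : |uu s t * zz s| ≤ ‖ze s t‖ := Complex.abs_re_le_norm (ze s t)
    have a2 : |uu s t * zz t| ≤ ‖ze s t‖ := Complex.abs_im_le_norm (ze s t)
    rw [abs_mul, abs_of_nonneg h0] at a1 a2
    rcases le_max_iff.mp h with h | h <;> nlinarith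
  linarith [(le_NN s t).1, (le_NN s t).2, le_abs_self (1 - uu s t)]

theorem div_lip {a a' : ℂ} {N N' : ℝ} (h : 1 / 2 ≤ N) (h' : 1 / 2 ≤ N') (ha : ‖a'‖ ≤ N') :
    ‖a / N - a' / N'‖ ≤ 2 * (‖a - a'‖ + |N - N'|) := by
  have h1 : (N : ℂ) ≠ 0 := Complex.ofReal_ne_zero.mpr (by linarith)
  have h2 : (N' : ℂ) ≠ 0 := Complex.ofReal_ne_zero.mpr (by linarith)
  have e : a / N - a' / N' = (a - a' - a' / N' * ((N - N' : ℝ) : ℂ)) / N := by
    push_cast; field_simp; ring
  have h3 : ‖a' / N'‖ ≤ 1 := by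
    rw [norm_div, Complex.norm_real, Real.norm_of_nonneg (by linarith)]
    exact div_le_one_of_le₀ ha (by linarith)
  have h4 := norm_sub_le (a - a') (a' / N' * ((N - N' : ℝ) : ℂ))
  rw [norm_mul, Complex.norm_real, Real.norm_eq_abs] at h4
  have h5 := mul_le_of_le_one_left (abs_nonneg (N - N')) h3
  rw [e, norm_div, Complex.norm_real, Real.norm_of_nonneg (by linarith), div_le_iff₀ (by linarith)]
  nlinarith [norm_nonneg (a - a'), abs_nonneg (N - N')]

/-- diagonal coefficient -/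
noncomputable def al (i : ℕ) (x : XX) : ℂ :=
  ((1 - uu (sc i x.1.1) (sc i x.1.2) : ℝ) : ℂ) / NN (sc i x.1.1) (sc i x.1.2)

/-- off-diagonal coefficient -/
noncomputable def be (i : ℕ) (x : XX) : ℂ :=
  ze (sc i x.1.1) (sc i x.1.2) / NN (sc i x.1.1) (sc i x.1.2)

theorem al_star (i : ℕ) (x : XX) : star (al i x) = al i x := by simp [al]

theorem al_be (i : ℕ) (x : XX) : al i x * al i x + star (be i x) * be i x = 1 := by
  have h := NN_ge (one_le i x)
  have h1 : (NN (sc i x.1.1) (sc i x.1.2) : ℂ) ≠ 0 := Complex.ofReal_ne_zero.mpr (by linarith)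
  have h2 := congrArg (fun t : ℝ => (t : ℂ)) (NN_sq (sc i x.1.1) (sc i x.1.2))
  have h3 := Complex.conj_mul' (ze (sc i x.1.1) (sc i x.1.2))
  simp only [al, be, star_div₀, Complex.star_def, Complex.conj_ofReal]
  push_cast at h2 ⊢
  field_simp
  rw [h2, h3]

theorem al_norm (i : ℕ) (x : XX) : ‖al i x‖ ≤ 1 ∧ ‖be i x‖ ≤ 1 := by
  have h := NN_ge (one_le i x)
  simp only [al, be, norm_div, Complex.norm_real, Real.norm_eq_abs]
  rw [abs_of_nonneg (show 0 ≤ NN _ _ by linarith)]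
  exact ⟨div_le_one_of_le₀ (le_NN _ _).1 (by linarith),
    div_le_one_of_le₀ (le_NN _ _).2 (by linarith)⟩

theorem al_zero {i : ℕ} {x : XX} (h : uu (sc i x.1.1) (sc i x.1.2) = 0) :
    al i x = 1 ∧ be i x = 0 := by
  have h1 : ze (sc i x.1.1) (sc i x.1.2) = 0 := by rw [ze, h, zero_mul, zero_mul]; rfl
  have h2 : NN (sc i x.1.1) (sc i x.1.2) = 1 := by
    rw [NN, h1, h, norm_zero, sub_zero]
    exact norm_one (α := ℂ)
  simp [al, be, h, h1, h2]

theorem al_lip {i : ℕ} {x x' : XX} {ε : ℝ} (h1 : |sc i x.1.1 - sc i x'.1.1| ≤ ε)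
    (h2 : |sc i x.1.2 - sc i x'.1.2| ≤ ε) (hε : ε ≤ 1 / 2) :
    ‖al i x - al i x'‖ ≤ 68 * ε ∧ ‖be i x - be i x'‖ ≤ 68 * ε := by
  have h0 := (abs_nonneg _).trans h1
  have a0 := uu_lip h1 h2 hε
  have a1 := uz_lip h1 h2 hε (uu_le (one_le i x))
  have a2 := uz_lip h2 h1 hε (uu_comm _ _ ▸ uu_le (one_le i x))
  rw [uu_comm (sc i x.1.2), uu_comm (sc i x'.1.2)] at a2
  have a3 : ‖ze (sc i x.1.1) (sc i x.1.2) - ze (sc i x'.1.1) (sc i x'.1.2)‖ ≤ 16 * ε :=
    (Complex.norm_le_abs_re_add_abs_im _).trans ((add_le_add a1 a2).trans_eq (by ring))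
  have a5 : |1 - uu (sc i x.1.1) (sc i x.1.2) - (1 - uu (sc i x'.1.1) (sc i x'.1.2))| ≤ 2 * ε := by
    rwa [sub_sub_sub_cancel_left, abs_sub_comm]
  have a4 : |NN (sc i x.1.1) (sc i x.1.2) - NN (sc i x'.1.1) (sc i x'.1.2)| ≤ 18 * ε :=
    (abs_norm_sub_norm_le _ _).trans ((Complex.norm_le_abs_re_add_abs_im _).trans
      ((add_le_add a5 ((abs_norm_sub_norm_le _ _).trans a3)).trans_eq (by ring)))
  refine ⟨(div_lip (NN_ge (one_le i x)) (NN_ge (one_le i x')) ?_).trans ?_,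
    (div_lip (NN_ge (one_le i x)) (NN_ge (one_le i x')) (le_NN _ _).2).trans (by linarith)⟩
  · rw [Complex.norm_real]
    exact (le_NN _ _).1
  · rw [← Complex.ofReal_sub, Complex.norm_real, Real.norm_eq_abs]
    linarith

theorem Rg.al {i : ℕ} {x x' : XX} (h : Rg i x x') :
    al i x + al i x' = 0 ∧ be i x + be i x' = 0 := by
  obtain ⟨-, -, a3, a4, a5, a6⟩ := h.same
  have h1 : ze (sc i x'.1.1) (sc i x'.1.2) = -ze (sc i x.1.1) (sc i x.1.2) :=
    Complex.ext (by simp [ze, a3, a5, a6]) (by simp [ze, a4, a5, a6])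
  have h2 : NN (sc i x'.1.1) (sc i x'.1.2) = NN (sc i x.1.1) (sc i x.1.2) := by
    rw [NN, NN, h1, a5, a6, norm_neg]
  simp [Pon.al, be, a5, a6, h1, h2, neg_div]

theorem ee_ne (p : ℕ × Bool) : (0 : GG) ≠ ee p := fun h => by
  simpa [ee] using DFunLike.congr_fun h p

open Classical in
/-- the sign of a step -/
noncomputable def sn (i : ℕ) (c : GG) : ℂ := if c = ee (i, false) then -1 else 1

theorem Step.al {i n : ℕ} {x x' : XX} {c : GG} (h : Step n x x' c)
    (hε : (n : ℝ) * (1 / 2) ^ i ≤ 1 / 2) : ‖al i x - sn i c * al i x'‖ ≤ 68 * (n * (1 / 2) ^ i) ∧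
      ‖be i x - sn i c * be i x'‖ ≤ 68 * (n * (1 / 2) ^ i) := by
  have h0 : (0 : ℝ) ≤ n * (1 / 2) ^ i := by positivity
  rcases h with ⟨h1, h2, rfl⟩ | ⟨k, h, rfl⟩
  · rw [sn, if_neg (ee_ne _), one_mul, one_mul]
    exact al_lip (sc_lip i h1) (sc_lip i h2) hε
  have k1 : k ≠ i → sn i (ee (k, false)) = 1 := fun hk => if_neg fun h =>
    hk (congrArg Prod.fst (Finsupp.single_left_injective one_ne_zero h))
  rcases lt_trichotomy k i with hk | rfl | hk
  · rw [k1 hk.ne, one_mul, one_mul]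
    exact al_lip (by simp [(h.low hk).1]) (by simp [(h.low hk).2]) hε
  · rw [sn, if_pos rfl, neg_one_mul, neg_one_mul, sub_neg_eq_add, sub_neg_eq_add, h.al.1, h.al.2]
    simp
  · obtain ⟨e, rfl⟩ := Nat.exists_eq_add_of_le hk
    have h' : Rg (i + 1 + e) x' x := Rel.symm h
    rw [k1 hk.ne', (al_zero h.high).1, (al_zero h.high).2, (al_zero h'.high).1,
      (al_zero h'.high).2]
    simp

theorem uni_of {A : Type} [Ring A] [StarRing A] {E w : A} (h1 : E * E = E) (h2 : star E = E)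
    (h3 : E * w = w * E) (h4 : w ∈ unitary A) : 1 - E + E * w ∈ unitary A := by
  have h5 : E * star w = star w * E := by
    have := congrArg star h3
    rw [star_mul, star_mul, h2] at this
    exact this.symm
  have h6 : E * (1 - E) = 0 := by rw [mul_sub, h1, mul_one, sub_self]
  have h7 : (1 - E) * E = 0 := by rw [sub_mul, h1, one_mul, sub_self]
  have h8 : (1 - E) * (1 - E) = 1 - E := by rw [mul_sub, h7, mul_one, sub_zero]
  have key : ∀ a b : A, E * a = a * E → a * b = 1 → (1 - E + E * a) * (1 - E + E * b) = 1 :=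
    fun a b k1 k2 => by
      rw [add_mul, mul_add, mul_add, h8, ← mul_assoc, h7, k1, mul_assoc, h6, mul_assoc,
        ← mul_assoc E, h1, ← mul_assoc, ← k1, mul_assoc, k2]
      simp
  rw [Unitary.mem_iff, star_add, star_sub, star_one, star_mul, h2, ← h5]
  exact ⟨key _ _ h5 h4.1, key _ _ h3 h4.2⟩

theorem D_star {X : Type} {f : X → ℂ} {M : ℝ} (h0 : 0 ≤ M) (h : ∀ x, ‖f x‖ ≤ M) :
    star (D f) = D (fun x => star (f x)) := by
  refine ext_ent fun x y => ?_
  rw [ContinuousLinearMap.star_eq_adjoint, adj_ent, D_apply h0 h,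
    D_apply h0 (fun x => by simpa using h x), δ_apply, δ_apply]
  by_cases h : x = y
  · subst h; simp
  · simp [h, Ne.symm h]

theorem D_norm {X : Type} {f : X → ℂ} {M : ℝ} (h0 : 0 ≤ M) (h : ∀ x, ‖f x‖ ≤ M) : ‖D f‖ ≤ M :=
  norm_le_bd (bd_inj Function.injective_id h0 h) _ (D_apply h0 h)

theorem D_FP {X : Type} [MetricSpace X] {f : X → ℂ} {M : ℝ} (h0 : 0 ≤ M) (h : ∀ x, ‖f x‖ ≤ M) :
    D f ∈ FP X :=
  ⟨0, fun y y' h2 => by rw [D_apply h0 h, δ_apply, if_neg (dist_pos.mp h2).symm, mul_zero]⟩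

theorem V_FP {X : Type} [MetricSpace X] {w : Perm X} {r : ℝ} (h : ∀ y, dist y (w y) ≤ r) :
    V w ∈ FP X :=
  ⟨r, fun y y' h2 => by
    rw [V_apply, δ_apply, if_neg]
    rintro rfl
    exact absurd (h y') (not_le.mpr (by rwa [dist_comm]))⟩

theorem one_ap {X : Type} (ξ : H X) : (1 : H X →L[ℂ] H X) ξ = ξ := rfl

/-- flips -/
noncomputable def Fl (p : ℕ × Bool) : H (XX × GG) →L[ℂ] H (XX × GG) := V (sk 1 fun _ => ee p)

theorem Fl_apply (p : ℕ × Bool) (ξ : H (XX × GG)) (y : XX × GG) :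
    Fl p ξ y = ξ (y.1, y.2 + ee p) := V_apply _ _ _

theorem Fl_star (p : ℕ × Bool) : star (Fl p) = Fl p := by
  rw [Fl, V_star]
  congr 1
  exact inv_eq_of_mul_eq_one_left (Equiv.ext fun y => MY.inv (.inr p) y)

/-- projection onto the odd part -/
noncomputable def EO (i : ℕ) : H (XX × GG) →L[ℂ] H (XX × GG) := (1 / 2 : ℂ) • (1 - Fl (i, false))

theorem EO_apply (i : ℕ) (ξ : H (XX × GG)) (y : XX × GG) :
    EO i ξ y = (ξ y - ξ (y.1, y.2 + ee (i, false))) / 2 := by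
  simp [EO, Fl_apply, div_eq_inv_mul]

theorem EO_norm (i : ℕ) : ‖EO i‖ ≤ 1 := by
  have h1 : ‖(1 : H (XX × GG) →L[ℂ] H (XX × GG))‖ ≤ 1 := ContinuousLinearMap.norm_id_le
  have h2 : ‖Fl (i, false)‖ ≤ 1 := V_norm _
  have h3 := norm_sub_le 1 (Fl (i, false))
  rw [EO, norm_smul]
  norm_num
  linarith

/-- the twisted coefficient -/
noncomputable def bt (i : ℕ) (b : ℂ) (γ : GG) : ℂ := if γ (i, true) = 0 then -star b else b

theorem bt_norm (i : ℕ) (b : ℂ) (γ : GG) : ‖bt i b γ‖ = ‖b‖ := by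
  rw [bt]
  split_ifs <;> simp

theorem bt_false (i k : ℕ) (b : ℂ) (γ : GG) : bt i b (γ + ee (k, false)) = bt i b γ := by
  simp [bt, ee]

theorem bt_true (i : ℕ) (b : ℂ) (γ : GG) : bt i b (γ + ee (i, true)) = -star (bt i b γ) := by
  have : ∀ t : ZMod 2, t + 1 = 0 ↔ ¬ t = 0 := by decide
  simp only [bt, ee, Finsupp.add_apply, Finsupp.single_eq_same, this]
  split_ifs <;> simp

theorem bt_mul (i : ℕ) (b : ℂ) (γ : GG) : star (bt i b γ) * bt i b γ = star b * b := by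
  rw [bt]
  split_ifs <;> simp [mul_comm]

/-- the quaternionic part -/
noncomputable def ww (i : ℕ) : H (XX × GG) →L[ℂ] H (XX × GG) :=
  D (fun y => al i y.1) + D (fun y => bt i (be i y.1) y.2) * Fl (i, true)

theorem hb (i : ℕ) (y : XX × GG) : ‖bt i (be i y.1) y.2‖ ≤ 1 :=
  (bt_norm _ _ _).trans_le (al_norm i _).2

theorem ww_apply (i : ℕ) (ξ : H (XX × GG)) (y : XX × GG) :
    ww i ξ y = al i y.1 * ξ y + bt i (be i y.1) y.2 * ξ (y.1, y.2 + ee (i, true)) := by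
  simp [ww, D_apply (f := fun y : XX × GG => al i y.1) zero_le_one fun y => (al_norm i _).1,
    D_apply zero_le_one (hb i), Fl_apply]

theorem ww_star (i : ℕ) (ξ : H (XX × GG)) (y : XX × GG) :
    star (ww i) ξ y = al i y.1 * ξ y - bt i (be i y.1) y.2 * ξ (y.1, y.2 + ee (i, true)) := by
  rw [ww, star_add, star_mul, Fl_star, D_star zero_le_one (hb i),
    D_star zero_le_one fun y => (al_norm i _).1]
  simp only [al_star, add_apply, mul_apply_eq_comp, lp.coeFn_add, Pi.add_apply, Fl_apply]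
  rw [D_apply (f := fun y : XX × GG => al i y.1) zero_le_one fun y => (al_norm i _).1,
    D_apply zero_le_one (fun y => by simpa using hb i y), bt_true]
  simp [sub_eq_add_neg]

theorem ww_uni (i : ℕ) : ww i ∈ unitary (H (XX × GG) →L[ℂ] H (XX × GG)) := by
  constructor <;> refine ext_pt fun ξ y => ?_ <;>
    simp only [mul_apply_eq_comp, ww_apply, ww_star, bt_true, add_assoc, GG.add_self, add_zero,
      Prod.mk.eta, one_ap] <;>
    linear_combination ξ y * al_be i y.1 + ξ y * bt_mul i (be i y.1) y.2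

theorem EO_ww (i : ℕ) : EO i * ww i = ww i * EO i :=
  ext_pt fun ξ y => by
    simp only [mul_apply_eq_comp, ww_apply, EO_apply, bt_false, add_right_comm y.2 (ee (i, true))]
    ring

/-- the trivialisations -/
noncomputable def SS : Tw XX GG where
  W i := 1 - EO i + EO i * ww i
  uni i := uni_of (ext_pt fun ξ y => by
      simp only [mul_apply_eq_comp, EO_apply, add_assoc, GG.add_self, add_zero, Prod.mk.eta]
      ring) (by simp [EO, Fl_star]) (EO_ww i) (ww_uni i)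
  com i x := ext_pt fun ξ y => by
    simp only [mul_apply_eq_comp, add_apply, sub_apply, one_ap, lp.coeFn_add, lp.coeFn_sub,
      Pi.add_apply, Pi.sub_apply, EO_apply, ww_apply, P_apply]
    split_ifs <;> simp
  ev x := by
    obtain ⟨m, hm⟩ := exists_pow_lt_of_lt_one (x := 1 / (2 * ((x.1.1.natAbs : ℝ) + 1)))
      (by positivity) (show (1 / 2 : ℝ) < 1 by norm_num)
    refine ⟨m, fun i hi => ?_⟩
    have h1 : (1 / 2 : ℝ) ^ i * (2 * ((x.1.1.natAbs : ℝ) + 1)) ≤ 1 := by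
      rw [← le_div_iff₀ (by positivity)]
      exact (pow_le_pow_of_le_one (by norm_num) (by norm_num) hi).trans hm.le
    have h0 : (0 : ℝ) < (1 / 2) ^ i := by positivity
    have h2 := sc_lip i (a := x.1.1) (a' := 3 ^ i * (3 * 0)) (n := x.1.1.natAbs) (by simp)
    rw [sc_int, Int.cast_mul, Int.cast_ofNat] at h2
    have h3 := (zz_cl (ε := 1 / 2) (h2.trans (by linarith)) (by norm_num)).abs (zz_abs _) (zz_abs _)
    rw [zz_int, abs_le] at h3
    norm_num at h3
    have h4 := al_zero (i := i) (x := x) (uu_zero (by linarith [h3.1]) _)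
    refine ext_pt fun ξ y => ?_
    simp only [mul_apply_eq_comp, add_apply, sub_apply, one_ap, lp.coeFn_add, lp.coeFn_sub,
      Pi.add_apply, Pi.sub_apply, EO_apply, ww_apply, P_apply]
    split_ifs with h
    · simp [h, h4.1, h4.2, bt]
    · simp

/-- truncated cocycles -/
noncomputable def hi (m : ℕ) (γ : GG) : GG := γ.filter fun p => m ≤ p.1

theorem hi_step {n : ℕ} {x x' : XX} {c : GG} (h : Step n x x' c) (m : ℕ) :
    ((sn m c = 1 ∧ hi m c = hi (m + 1) c) ∨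
      (sn m c = -1 ∧ hi m c = hi (m + 1) c + ee (m, false))) ∧ hi (m + 1) c (m, true) = 0 := by
  refine ⟨?_, Finsupp.filter_apply_neg _ _ (by simp)⟩
  rcases h with ⟨-, -, rfl⟩ | ⟨k, -, rfl⟩
  · exact Or.inl ⟨if_neg (ee_ne _), by simp [hi, Finsupp.filter_zero]⟩
  by_cases hk : k = m
  · subst hk
    refine Or.inr ⟨if_pos rfl, ?_⟩
    rw [hi, hi, ee, Finsupp.filter_single_of_pos (fun p : ℕ × Bool => k ≤ p.1) le_rfl,
      Finsupp.filter_single_of_neg (fun p : ℕ × Bool => k + 1 ≤ p.1) (by simp), zero_add]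
  · refine Or.inl ⟨if_neg fun h =>
      hk (congrArg Prod.fst (Finsupp.single_left_injective one_ne_zero h)), ?_⟩
    by_cases h : m ≤ k
    · rw [hi, hi, ee, Finsupp.filter_single_of_pos (fun p : ℕ × Bool => m ≤ p.1) h,
        Finsupp.filter_single_of_pos (fun p : ℕ × Bool => m + 1 ≤ p.1) (by omega)]
    · rw [hi, hi, ee, Finsupp.filter_single_of_neg (fun p : ℕ × Bool => m ≤ p.1) h,
        Finsupp.filter_single_of_neg (fun p : ℕ × Bool => m + 1 ≤ p.1) (by omega)]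

theorem est (μ : II) (m : ℕ) (hε : (MX.cost μ : ℝ) * (1 / 2) ^ m ≤ 1 / 2) :
    ‖SS.W m * V (sk (MX.act μ) fun x => hi (m + 1) (co μ x)) -
      V (sk (MX.act μ) fun x => hi m (co μ x)) * SS.W m‖ ≤ 136 * MX.cost μ * (1 / 2) ^ m := by
  have h0 : (0 : ℝ) ≤ 68 * (MX.cost μ * (1 / 2) ^ m) := by positivity
  have h1 : ∀ y : XX × GG, ‖al m y.1 - sn m (co μ y.1) * al m (MX.act μ y.1)‖ ≤ _ :=
    fun y => ((step_act μ y.1 le_rfl).al hε).1
  have h2 : ∀ y : XX × GG, ‖bt m (be m y.1) y.2 - sn m (co μ y.1) *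
      bt m (be m (MX.act μ y.1)) y.2‖ ≤ 68 * (MX.cost μ * (1 / 2) ^ m) := fun y => by
    refine le_trans (le_of_eq ?_) ((step_act μ y.1 le_rfl).al hε).2
    rw [← bt_norm m (be m y.1 - _) y.2, bt, bt, bt, sn]
    split_ifs <;> congr 1 <;> simp <;> ring
  have e : SS.W m * V (sk (MX.act μ) fun x => hi (m + 1) (co μ x)) -
      V (sk (MX.act μ) fun x => hi m (co μ x)) * SS.W m =
      D (fun y : XX × GG => al m y.1 - sn m (co μ y.1) * al m (MX.act μ y.1)) *
        V (sk (MX.act μ) fun x => hi (m + 1) (co μ x)) * EO m +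
      D (fun y : XX × GG => bt m (be m y.1) y.2 - sn m (co μ y.1) *
        bt m (be m (MX.act μ y.1)) y.2) * V (sk (MX.act μ) fun x => hi (m + 1) (co μ x)) *
        (Fl (m, true) * EO m) := by
    refine ext_pt fun ξ y => ?_
    obtain ⟨a1, a2⟩ := hi_step (step_act μ y.1 le_rfl) m
    have a3 : ∀ b, bt m b (y.2 + hi (m + 1) (co μ y.1)) = bt m b y.2 := fun b => by
      simp [bt, a2]
    simp only [SS, mul_apply_eq_comp, add_apply, sub_apply, one_ap, lp.coeFn_add, lp.coeFn_sub,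
      Pi.add_apply, Pi.sub_apply, EO_apply, ww_apply, V_apply, sk_apply, Fl_apply, D_apply h0 h1,
      D_apply h0 h2, bt_false, add_right_comm _ _ (hi (m + 1) (co μ y.1))]
    rcases a1 with ⟨a1, a4⟩ | ⟨a1, a4⟩
    · simp only [a1, a4, a3, add_right_comm _ (ee (m, true)) (ee (m, false))]
      ring
    · simp only [a1, a4, ← add_assoc, bt_false, a3, add_right_comm _ (ee (m, true)) (ee (m, false)),
        add_assoc _ (ee (m, false)) (ee (m, false)), GG.add_self, add_zero]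
      ring
  have k : ∀ (a b c : H (XX × GG) →L[ℂ] H (XX × GG)) (M : ℝ), ‖a‖ ≤ M → ‖b‖ ≤ 1 → ‖c‖ ≤ 1 →
      ‖a * b * c‖ ≤ M := fun a b c M k1 k2 k3 =>
    norm_mul₃_le.trans ((mul_le_of_le_one_right (by positivity) k3).trans
      ((mul_le_of_le_one_right (norm_nonneg _) k2).trans k1))
  rw [e]
  refine (norm_add_le _ _).trans ((add_le_add (k _ _ _ _ (D_norm h0 h1) (V_norm _) (EO_norm _))
    (k _ _ _ _ (D_norm h0 h2) (V_norm _) ((norm_mul_le _ _).trans
      (mul_le_one₀ (V_norm _) (norm_nonneg _) (EO_norm _))))).trans_eq (by ring))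

theorem gen_mem (μ : II) : letI := connY.met
    SS.Φ (V (MX.act μ)) ∈ (FP (XX × GG)).topologicalClosure := by
  letI := connY.met
  have hF : ∀ p, Fl p ∈ FP (XX × GG) := fun p => V_FP (r := (max (p.1 + 1) 1 : ℕ)) fun y =>
    Nat.cast_le.mpr (MV.d_le (MV.Rch.one (M := MY) (.inr p) le_rfl y))
  have hE : ∀ i, EO i ∈ FP (XX × GG) := fun i =>
    SMulMemClass.smul_mem _ (sub_mem (one_mem _) (hF _))
  refine SS.V_mem (fun i => add_mem (sub_mem (one_mem _) (hE i)) (mul_mem (hE i) (add_mem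
    (D_FP zero_le_one fun y => (al_norm i _).1) (mul_mem (D_FP zero_le_one (hb i)) (hF _)))))
    (MX.act μ) (fun m => sk (MX.act μ) fun x => hi m (co μ x)) (fun m => ?_) (fun _ _ => rfl)
    (fun x => ?_) (136 * MX.cost μ) ?_
  · refine V_FP (r := (max (MX.cost μ + m) (1 + m * 2) : ℕ)) fun y => Nat.cast_le.mpr (MV.d_le
      ((MV.Rch.one (M := MY) (.inl μ) (Nat.le_add_right _ m) y).trans
        ((rch_flip (m := m) _ fun p hp => ?_).mono (Nat.le_add_left _ _) le_rfl)))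
    change (y.2 + co μ y.1) p = (y.2 + hi m (co μ y.1)) p
    rw [Finsupp.add_apply, Finsupp.add_apply, hi,
      Finsupp.filter_apply_pos (fun p : ℕ × Bool => m ≤ p.1) _ hp]
  · obtain ⟨m, hm⟩ := ex_lev (co μ x)
    refine eventually_atTop.mpr ⟨m, fun n hn γ => ?_⟩
    have : hi n (co μ x) = 0 :=
      (Finsupp.filter_eq_zero_iff _ _).mpr fun p hp => hm p (hn.trans hp)
    rw [sk_apply, this, add_zero]
  · have h : Tendsto (fun m : ℕ => (MX.cost μ : ℝ) * (1 / 2) ^ m) atTop (𝓝 (MX.cost μ * 0)) :=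
      (tendsto_pow_atTop_nhds_zero_of_lt_one (by norm_num) (by norm_num)).const_mul _
    exact (h.eventually (ge_mem_nhds (by norm_num))).mono fun m hm => est μ m hm

end Pool.Agent.H86.Pon
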