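import Pool.Agent.H86.PnA

set_option autoImplicit false

namespace Pool.Agent.H86.Pmc

open Set Filter Topology
open scoped ENNReal

theorem inM_of_cut {f : ℝ → ℝ} (hc : ContinuousOn f (Icc 0 1)) (Z : Finset ℝ)
    (h : ∀ a b, 0 ≤ a → a < b → b ≤ 1 → (∀ z ∈ Z, z ∉ Ioo a b) →
      MonotoneOn f (Icc a b) ∨ AntitoneOn f (Icc a b)) {n : ℕ} (hn : Z.card + 1 ≤ n) :
    InM n f := by
  classical
  let W : Finset ℝ := insert 0 (insert 1 (Z.filter fun z => z ∈ Ioo (0 : ℝ) 1))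
  have hW : ∀ w ∈ W, 0 ≤ w ∧ w ≤ 1 := fun w hw => by
    simp only [W, Finset.mem_insert, Finset.mem_filter] at hw
    rcases hw with rfl | rfl | ⟨-, a, b⟩
    · simp
    · simp
    · exact ⟨a.le, b.le⟩
  have h0 : (0 : ℝ) ∈ W := by simp [W]
  have h1 : (1 : ℝ) ∈ W := by simp [W]
  obtain ⟨k, hk⟩ : ∃ k, W.card = k + 1 := ⟨W.card - 1, by
    have := Finset.card_pos.2 ⟨_, h0⟩; omega⟩
  have hk' : k ≤ n := by
    have a := Finset.card_insert_le (0 : ℝ) (insert 1 (Z.filter fun z => z ∈ Ioo (0 : ℝ) 1))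
    have b := Finset.card_insert_le (1 : ℝ) (Z.filter fun z => z ∈ Ioo (0 : ℝ) 1)
    have c := Finset.card_filter_le Z fun z => z ∈ Ioo (0 : ℝ) 1
    simp only [W] at hk
    omega
  let o := W.orderEmbOfFin hk
  have om : ∀ i, o i ∈ W := W.orderEmbOfFin_mem hk
  have os : ∀ w ∈ W, ∃ i, o i = w := fun w hw => by
    have : w ∈ range o := by rw [Finset.range_orderEmbOfFin]; exact hw
    exact this
  let t : ℕ → ℝ := fun i => if hi : i < k + 1 then o ⟨i, hi⟩ else 0
  have ht : ∀ i (hi : i < k + 1), t i = o ⟨i, hi⟩ := fun i hi => dif_pos hi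
  have lt : ∀ i (hi : i < k), o ⟨i, by omega⟩ < o ⟨i + 1, by omega⟩ := fun i hi =>
    o.strictMono (by simp [Fin.lt_def])
  refine ⟨hc, k, t, hk', ?_, ?_, fun i hi => ?_, fun i hi => ?_⟩
  · obtain ⟨i, hi⟩ := os 0 h0
    rw [ht 0 (by omega)]
    exact le_antisymm (hi ▸ o.monotone (by simp [Fin.le_def])) (hW _ (om _)).1
  · obtain ⟨i, hi⟩ := os 1 h1
    rw [ht k (by omega)]
    exact le_antisymm (hW _ (om _)).2 (hi ▸ o.monotone (by have := i.2; simp [Fin.le_def]; omega))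
  · rw [ht i (by omega), ht (i + 1) (by omega)]; exact lt i hi
  · rw [ht i (by omega), ht (i + 1) (by omega)]
    refine h _ _ (hW _ (om _)).1 (lt i hi) (hW _ (om _)).2 fun z hz ⟨a, b⟩ => ?_
    obtain ⟨j, rfl⟩ := os z (by
      simp only [W, Finset.mem_insert, Finset.mem_filter]
      exact Or.inr (Or.inr ⟨hz, (hW _ (om _)).1.trans_lt a, b.trans_le (hW _ (om _)).2⟩))
    have a' := o.lt_iff_lt.1 a
    have b' := o.lt_iff_lt.1 b
    simp only [Fin.lt_def] at a' b'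
    omega

theorem mono_of_deriv {f f' : ℝ → ℝ} (hd : ∀ x, HasDerivAt f (f' x) x) (hc : Continuous f')
    {a b : ℝ} (h : (∀ x, f' x = 0) ∨ ∀ x ∈ Ioo a b, f' x ≠ 0) :
    MonotoneOn f (Icc a b) ∨ AntitoneOn f (Icc a b) := by
  have hD : Differentiable ℝ f := fun x => (hd x).differentiableAt
  by_cases hp : ∀ x ∈ Ioo a b, 0 ≤ f' x
  · exact Or.inl (monotoneOn_of_deriv_nonneg (convex_Icc a b) hD.continuous.continuousOn
      hD.differentiableOn fun x hx => by rw [(hd x).deriv]; exact hp x (by simpa using hx))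
  · right
    push Not at hp
    obtain ⟨y, hy, hy'⟩ := hp
    refine antitoneOn_of_deriv_nonpos (convex_Icc a b) hD.continuous.continuousOn
      hD.differentiableOn fun x hx => ?_
    rw [(hd x).deriv]
    by_contra hx'
    rcases h with h | h
    · exact hx' (h x).le
    · obtain ⟨z, hz, e⟩ := isPreconnected_Ioo.intermediate_value hy (by simpa using hx)
        hc.continuousOn ⟨hy'.le, (not_le.1 hx').le⟩
      exact h z hz e

theorem poly_mono (P : Polynomial ℝ) {a b : ℝ}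
    (h : ∀ z ∈ P.derivative.roots.toFinset, z ∉ Ioo a b) :
    MonotoneOn (fun x => P.eval x) (Icc a b) ∨ AntitoneOn (fun x => P.eval x) (Icc a b) := by
  refine mono_of_deriv (fun x => P.hasDerivAt x) P.derivative.continuous ?_
  by_cases e : P.derivative = 0
  · exact Or.inl fun x => by simp [e]
  · exact Or.inr fun x hx e' => h x (by simp [e, e']) hx

theorem poly_card (P : Polynomial ℝ) {k : ℕ} (hk : P.natDegree ≤ k) :
    P.derivative.roots.toFinset.card ≤ k - 1 :=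
  (Multiset.toFinset_card_le _).trans ((Polynomial.card_roots' _).trans
    ((Polynomial.natDegree_derivative_le P).trans (by omega)))

theorem poly_inM (P : Polynomial ℝ) {n : ℕ} (h1 : 1 ≤ n) (hn : P.natDegree ≤ n) :
    InM n (fun x => P.eval x) :=
  inM_of_cut P.continuous.continuousOn P.derivative.roots.toFinset
    (fun _ _ _ _ _ h => poly_mono P h) (by have := poly_card P hn; omega)

theorem lowZ (n : ℕ) : ENNReal.ofReal (1 / (2 * √(n : ℝ) + 8)) ≤ worstZ 0 1 n := by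
  have hs := Nat.lt_succ_sqrt n
  have hs' : (Nat.sqrt n : ℝ) ≤ √(n : ℝ) := Real.nat_sqrt_le_real_sqrt
  obtain ⟨m, hm1, hm2, hm3⟩ : ∃ m : ℕ, 1 ≤ m ∧ Nat.sqrt n + 3 ≤ 2 * m ∧ 2 * m ≤ Nat.sqrt n + 4 :=
    ⟨Nat.sqrt n / 2 + 2, by omega, by omega, by omega⟩
  refine le_trans (ENNReal.ofReal_le_ofReal ?_) (lowerZ (n := n) hm1 ?_)
  · have e1 : (2 * m : ℝ) ≤ Nat.sqrt n + 4 := by exact_mod_cast hm3
    have e2 : (0 : ℝ) < m := by exact_mod_cast hm1
    rw [div_div]
    exact one_div_le_one_div_of_le (by positivity) (by linarith)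
  · have e : (Nat.sqrt n + 3) * (Nat.sqrt n + 3) ≤ (2 * m) * (2 * m) := Nat.mul_le_mul hm2 hm2
    simp only [Nat.succ_eq_add_one] at hs
    nlinarith

/-- Worst-case Hausdorff error over a family `𝓕` of the best approximation from the class `W`. -/
noncomputable def errW (W 𝓕 : Set (Set (ℝ × ℝ))) : ℝ≥0∞ :=
  ⨆ F ∈ 𝓕, ⨅ γ ∈ W, Metric.hausdorffEDist F γ

theorem errW_mono {W W' : Set (Set (ℝ × ℝ))} (𝓕 : Set (Set (ℝ × ℝ))) (h : W ⊆ W') :
    errW W' 𝓕 ≤ errW W 𝓕 :=
  iSup₂_mono fun _ _ => biInf_mono h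

theorem lim_low {A B : ℝ} (hA : 0 < A) (hB : 0 ≤ B) (g : ℕ → ℝ) (hg : Tendsto g atTop atTop)
    (e : ℕ → ℝ≥0∞) (he : ∀ n, 1 ≤ n → ENNReal.ofReal (1 / (A * g n + B)) ≤ e n) :
    ENNReal.ofReal (1 / A) ≤ limsup (fun n => ENNReal.ofReal (g n) * e n) atTop := by
  have h1 : Tendsto (fun n : ℕ => g n * (1 / (A * g n + B))) atTop (𝓝 (1 / A)) := by
    have h0 : Tendsto (fun n : ℕ => 1 / A - (B / A) / (A * g n + B)) atTop (𝓝 (1 / A - 0)) :=
      tendsto_const_nhds.sub (Tendsto.div_atTop tendsto_const_nhds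
        (tendsto_atTop_add_const_right _ _ (Tendsto.const_mul_atTop hA hg)))
    rw [sub_zero] at h0
    refine h0.congr' ?_
    filter_upwards [hg.eventually_gt_atTop 0] with n hn
    have : 0 < A * g n + B := by positivity
    field_simp
    ring
  rw [← (ENNReal.tendsto_ofReal h1).limsup_eq]
  refine limsup_le_limsup ?_
  filter_upwards [hg.eventually_gt_atTop 0, eventually_ge_atTop 1] with n hn hn1
  rw [ENNReal.ofReal_mul hn.le]
  gcongr
  exact he n hn1

end Pool.Agent.H86.Pmc
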