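import Pool.Agent.H86.PpA
import Pool.Agent.H86.PoB

set_option autoImplicit false

namespace Pool.Agent.H86.Pmc

open Set Filter Topology
open scoped ENNReal

/-- Spline functions of order `(k, n)` on `[0,1]` with free knots. -/
def InS (k n : ℕ) (s : ℝ → ℝ) : Prop :=
  ContDiffOn ℝ ((k - 1 : ℕ) : WithTop ℕ∞) s (Icc 0 1) ∧ ∃ t : ℕ → ℝ, t 0 = 0 ∧ t n = 1 ∧
    (∀ i < n, t i < t (i + 1)) ∧
    ∀ i < n, ∃ P : Polynomial ℝ, P.natDegree ≤ k ∧ ∀ x ∈ Icc (t i) (t (i + 1)), s x = P.eval x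

/-- The class `S²_{k,n}` of spline curves. -/
def S2 (k n : ℕ) : Set (Set (ℝ × ℝ)) := {γ | ∃ φ ψ, InS k n φ ∧ InS k n ψ ∧ γ = trace φ ψ}

theorem G_inS (q : ℕ → ℝ) {n : ℕ} (hn : 1 ≤ n) : InS 1 n (fun s => G q n (n * s)) := by
  have hn' : (0 : ℝ) < n := by exact_mod_cast hn
  have hc : ContinuousOn (fun s : ℝ => G q n (n * s)) (Icc 0 1) :=
    ((G_cont q n).comp (by fun_prop)).continuousOn
  refine ⟨by simpa using hc,
    fun i => (i : ℝ) / n, by simp,
    div_self hn'.ne', fun i _ => by push_cast; gcongr; linarith, fun i hi => ?_⟩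
  refine ⟨Polynomial.C (n * (q (i + 1) - q i)) * Polynomial.X +
    Polynomial.C (q i - i * (q (i + 1) - q i)), Polynomial.natDegree_linear_le, fun s hs => ?_⟩
  have h1 := (div_le_iff₀ hn').1 hs.1
  have h2 := (le_div_iff₀ hn').1 hs.2
  push_cast at h2
  simp only [Polynomial.eval_add, Polynomial.eval_mul, Polynomial.eval_C, Polynomial.eval_X]
  rw [G_mid q (j := i) (by linarith) (by linarith) n hi]
  ring

theorem piece (t : ℕ → ℝ) {a b : ℝ} (hab : a < b) (h0 : t 0 ≤ a) : ∀ n, b ≤ t n →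
    (∀ i ≤ n, t i ∉ Ioo a b) → ∃ i < n, t i ≤ a ∧ b ≤ t (i + 1) := by
  intro n
  induction n with
  | zero => intro h _; linarith
  | succ n ih =>
    intro h1 h2
    by_cases h : t n ≤ a
    · exact ⟨n, by omega, h, h1⟩
    · obtain ⟨i, a1, a2⟩ := ih (not_lt.1 fun e => h2 n (by omega) ⟨not_le.1 h, e⟩)
        fun i hi => h2 i (by omega)
      exact ⟨i, by omega, a2⟩

theorem InS.inM {k n : ℕ} (hk : 1 ≤ k) {s : ℝ → ℝ} (h : InS k n s) : InM (k * n + 2) s := by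
  classical
  obtain ⟨hc, t, t0, tn, -, hP⟩ := h
  choose! P P1 P2 using hP
  refine inM_of_cut hc.continuousOn ((Finset.range (n + 1)).image t ∪
    (Finset.range n).biUnion fun i => (P i).derivative.roots.toFinset)
    (fun a b h0 hab h1 h => ?_) ?_
  · obtain ⟨i, hi, a1, a2⟩ := piece t hab (t0.le.trans h0) n (h1.trans tn.ge) fun i hi =>
      h _ (Finset.mem_union_left _ (Finset.mem_image_of_mem _ (by simp; omega)))
    have e : EqOn (fun x => (P i).eval x) s (Icc a b) := fun x hx =>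
      (P2 i hi x ⟨a1.trans hx.1, hx.2.trans a2⟩).symm
    exact (poly_mono (P i) fun z hz => h z (Finset.mem_union_right _
      (Finset.mem_biUnion.2 ⟨i, Finset.mem_range.2 hi, hz⟩))).imp (·.congr e) (·.congr e)
  · have a1 := (Finset.card_image_le (s := Finset.range (n + 1)) (f := t))
    have a2 := Finset.card_biUnion_le_card_mul (Finset.range n)
      (fun i => (P i).derivative.roots.toFinset) (k - 1)
      fun i hi => poly_card _ (P1 i (Finset.mem_range.1 hi))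
    have a3 := Finset.card_union_le ((Finset.range (n + 1)).image t)
      ((Finset.range n).biUnion fun i => (P i).derivative.roots.toFinset)
    obtain ⟨m, rfl⟩ : ∃ m, k = m + 1 := ⟨k - 1, by omega⟩
    simp only [Finset.card_range, Nat.add_sub_cancel] at a1 a2
    nlinarith

theorem S2_sub {k : ℕ} (hk : 1 ≤ k) (n : ℕ) : S2 k n ⊆ M2 (k * n + 2) := by
  rintro _ ⟨φ, ψ, h1, h2, rfl⟩
  exact ⟨_, _, h1.inM hk, h2.inM hk, rfl⟩

theorem cover2 {R : V2 → V2 → Prop} (T : Finset V2) (hT : T.Nonempty) (rr : ∀ u ∈ T, R u u)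
    (hs : ∀ u v, R u v → R v u ∧ v ∈ T)
    (hc : ∀ S ⊆ T, S.Nonempty → S ≠ T → ∃ u ∈ S, ∃ j σ, σ < 2 ∧ mv j σ u ∉ S ∧ R u (mv j σ u)) :
    ∃ P : ℕ → V2, (∀ t, R (P t) (P (t + 1))) ∧ ∀ u ∈ T, ∃ τ, τ ≤ 2 * T.card ∧ P τ = u := by
  classical
  have key : ∀ k, k + 1 ≤ T.card → ∃ S ⊆ T, S.card = k + 1 ∧
      ∃ P : ℕ → V2, (∀ t, R (P t) (P (t + 1))) ∧ ∀ u ∈ S, ∃ τ, τ ≤ 2 * k ∧ P τ = u := by
    intro k
    induction k with
    | zero =>
      intro _
      obtain ⟨u, hu⟩ := hT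
      exact ⟨{u}, by simpa using hu, by simp, fun _ => u, fun _ => rr u hu,
        fun v hv => ⟨0, le_rfl, by simpa [eq_comm] using hv⟩⟩
    | succ k ih =>
      intro hk
      obtain ⟨S, h1, h2, P, H, hv⟩ := ih (by omega)
      obtain ⟨u, hu, j, σ, hσ, hw, r⟩ := hc S h1 (Finset.card_pos.1 (by omega))
        (fun e => by rw [e] at h2; omega)
      obtain ⟨τ, τ1, rfl⟩ := hv u hu
      obtain ⟨P', p1, p2, p3⟩ : ∃ P' : ℕ → V2, (∀ t, t ≤ τ → P' t = P t) ∧
          P' (τ + 1) = mv j σ (P τ) ∧ ∀ s, τ ≤ s → P' (s + 2) = P s :=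
        ⟨fun t => if t ≤ τ then P t else if t = τ + 1 then mv j σ (P τ) else P (t - 2),
          fun t ht => by simp [ht], by simp, fun s hs => by
            dsimp only; rw [if_neg (by omega), if_neg (by omega)]; rfl⟩
      refine ⟨_, Finset.insert_subset (hs _ _ r).2 h1,
        by rw [Finset.card_insert_of_notMem hw, h2], P', fun t => ?_, fun v hv' => ?_⟩
      · have cs : t < τ ∨ t = τ ∨ t = τ + 1 ∨ ∃ s, τ ≤ s ∧ t = s + 2 := by
          by_cases h : τ + 2 ≤ t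
          · exact Or.inr (Or.inr (Or.inr ⟨t - 2, by omega, by omega⟩))
          · omega
        rcases cs with h | rfl | rfl | ⟨s, h, rfl⟩
        · rw [p1 _ h.le, p1 _ h]; exact H t
        · rw [p1 _ le_rfl, p2]; exact r
        · rw [p2, show τ + 1 + 1 = τ + 2 from rfl, p3 _ le_rfl]; exact (hs _ _ r).1
        · rw [p3 _ h, show s + 2 + 1 = s + 1 + 2 from rfl, p3 _ (by omega)]; exact H s
      · rcases Finset.mem_insert.1 hv' with rfl | hv'
        · exact ⟨τ + 1, by omega, p2⟩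
        · obtain ⟨s, s1, rfl⟩ := hv v hv'
          by_cases h : s ≤ τ
          · exact ⟨s, by omega, p1 s h⟩
          · exact ⟨s + 2, by omega, p3 s (by omega)⟩
  have hp := Finset.card_pos.2 hT
  obtain ⟨S, h1, h2, P, H, hv⟩ := key (T.card - 1) (by omega)
  have e : S = T := Finset.eq_of_subset_of_card_le h1 (by omega)
  subst e
  exact ⟨P, H, fun u hu => (hv u hu).imp fun τ h => ⟨by omega, h.2⟩⟩

theorem lim_up {A B : ℝ} (hA : 0 < A) (g : ℕ → ℝ) (hg : Tendsto g atTop atTop)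
    (e : ℕ → ℝ≥0∞) (he : ∀ n, 3 ≤ n → e n ≤ ENNReal.ofReal (1 / (A * g n + B))) :
    limsup (fun n => ENNReal.ofReal (g n) * e n) atTop ≤ ENNReal.ofReal (1 / A) := by
  have h2 := tendsto_atTop_add_const_right _ B (Tendsto.const_mul_atTop hA hg)
  have h1 : Tendsto (fun n : ℕ => g n * (1 / (A * g n + B))) atTop (𝓝 (1 / A)) := by
    have h0 : Tendsto (fun n : ℕ => 1 / A - (B / A) / (A * g n + B)) atTop (𝓝 (1 / A - 0)) :=
      tendsto_const_nhds.sub (Tendsto.div_atTop tendsto_const_nhds h2)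
    rw [sub_zero] at h0
    refine h0.congr' ?_
    filter_upwards [h2.eventually_gt_atTop 0] with n hn
    field_simp
    ring
  rw [← (ENNReal.tendsto_ofReal h1).limsup_eq]
  refine limsup_le_limsup ?_
  filter_upwards [hg.eventually_gt_atTop 0, eventually_ge_atTop 3] with n hn hn1
  rw [ENNReal.ofReal_mul hn.le]
  gcongr
  exact he n hn1

theorem upperS {n : ℕ} (hn : 1 ≤ n) :
    errW (S2 1 n) Gamma1 ≤ ENNReal.ofReal (1 / (2 * n)) := by
  have hn' : (0 : ℝ) < n := by exact_mod_cast hn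
  refine iSup₂_le ?_
  rintro F ⟨x, y, hx, hy, hlen, rfl⟩
  let c : ℝ → ℂ := fun t => ⟨x t, y t⟩
  have hc : ContinuousOn c (Icc 0 1) := by
    have : c = fun t => (x t : ℂ) + (y t : ℂ) * Complex.I := by
      funext t; apply Complex.ext <;> simp [c]
    rw [this]
    exact (Complex.continuous_ofReal.comp_continuousOn hx).add
      ((Complex.continuous_ofReal.comp_continuousOn hy).mul continuousOn_const)
  have hfin : ∀ a b, 0 ≤ a → b ≤ 1 → eVariationOn c (Icc a b) ≤ 1 := fun a b ha hb =>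
    (eVariationOn.mono c (Icc_subset_Icc ha hb)).trans hlen
  let v : ℝ → ℝ := fun t => (eVariationOn c (Icc 0 t)).toReal
  have hv0 : v 0 = 0 := by
    simp only [v]
    rw [eVariationOn.subsingleton c (by simp)]; rfl
  have hv : ∀ a b, 0 ≤ a → a ≤ b → b ≤ 1 → dist (c a) (c b) ≤ v b - v a := by
    intro a b ha hab hb
    have h1 := eVariationOn.Icc_add_Icc c (s := univ) ha hab (mem_univ a)
    simp only [univ_inter] at h1
    have f1 := ne_top_of_le_ne_top ENNReal.one_ne_top (hfin 0 a le_rfl (hab.trans hb))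
    have f2 := ne_top_of_le_ne_top ENNReal.one_ne_top (hfin a b ha hb)
    have h2 : v b = v a + (eVariationOn c (Icc a b)).toReal := by
      simp only [v]; rw [← h1, ENNReal.toReal_add f1 f2]
    have h3 := BoundedVariationOn.dist_le (f := c) (s := Icc a b) f2 ⟨le_rfl, hab⟩ ⟨hab, le_rfl⟩
    linarith
  have hv1 : ∀ s, s ≤ 1 → v s ≤ 1 := fun s hs =>
    ENNReal.toReal_le_of_le_ofReal zero_le_one (by simpa using hfin 0 s le_rfl hs)
  obtain ⟨T, hT, hT1, hT2⟩ := exists_nodes hc v hv0 hv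
  let p : ℕ → ℂ := fun i => c (T (i / n))
  have hp : ∀ i : ℕ, dist (p i) (p (i + 1)) ≤ 1 / n := fun i => by
    have := hT2 (i / n) (((i + 1 : ℕ) : ℝ) / n) (by positivity) (by push_cast; gcongr; linarith)
    refine this.trans (le_of_eq ?_)
    push_cast; ring
  have hpF : ∀ i : ℕ, ((p i).re, (p i).im) ∈ trace x y := fun i =>
    ⟨T (i / n), hT _ (by positivity), rfl⟩
  refine iInf₂_le_of_le _ ⟨_, _, G_inS (fun i => (p i).re) hn, G_inS (fun i => (p i).im) hn, rfl⟩ ?_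
  apply Metric.hausdorffEDist_le_of_mem_edist
  · rintro _ ⟨s, hs, rfl⟩
    have hvs : 0 ≤ v s := ENNReal.toReal_nonneg
    let i := ⌊n * v s + 1 / 2⌋₊
    have hi1 : (i : ℝ) ≤ n * v s + 1 / 2 := Nat.floor_le (by positivity)
    have hi2 : n * v s + 1 / 2 < i + 1 := Nat.lt_floor_add_one _
    have hi3 : i ≤ n := by
      have h1 : (n : ℝ) * v s ≤ n := by nlinarith [hv1 s hs.2]
      have : (i : ℝ) < n + 1 := by linarith
      exact_mod_cast Nat.lt_succ_iff.1 (by exact_mod_cast this)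
    have hi4 : (i : ℝ) ≤ n := by exact_mod_cast hi3
    refine ⟨_, ⟨i / n, ⟨by positivity, (div_le_one hn').2 hi4⟩, rfl⟩, ?_⟩
    have h1 : (n : ℝ) * (i / n) = i := by field_simp
    simp only [h1, G_node _ hi3]
    have h2 : dist (c s) (p i) ≤ 1 / (2 * n) := by
      refine (hT1 (i / n) (by positivity) s hs).trans ?_
      have : v s - i / n = (n * v s - i) / n := by field_simp
      rw [this, abs_div, abs_of_pos hn', div_le_div_iff₀ hn' (by positivity)]
      have : |n * v s - i| ≤ 1 / 2 := abs_le.2 ⟨by linarith, by linarith⟩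
      nlinarith
    exact box_le ((re_le (c s) (p i)).trans h2) ((im_le (c s) (p i)).trans h2)
  · rintro _ ⟨s, hs, rfl⟩
    obtain ⟨j, hj, hj1, hj2⟩ : ∃ j : ℕ, j + 1 ≤ n ∧ (j : ℝ) ≤ n * s ∧ n * s ≤ j + 1 := by
      rcases hs.2.eq_or_lt with h | h
      · refine ⟨n - 1, by omega, ?_, ?_⟩ <;> rw [h, Nat.cast_sub hn] <;> simp
      · have h0 : 0 ≤ (n : ℝ) * s := mul_nonneg hn'.le hs.1
        refine ⟨⌊n * s⌋₊, ?_, Nat.floor_le h0, (Nat.lt_floor_add_one _).le⟩
        have : ⌊(n : ℝ) * s⌋₊ < n := (Nat.floor_lt h0).2 (by nlinarith)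
        omega
    simp only [G_mid _ hj1 hj2 n hj]
    have e : (1 : ℝ) / (2 * n) = 1 / n / 2 := by field_simp
    have r1 := (re_le _ _).trans (hp j)
    have r2 := (im_le _ _).trans (hp j)
    rcases le_total (n * s - j) (1 / 2) with h | h
    · exact ⟨_, hpF j, e ▸ box_le (seg_near r1 (by linarith) h) (seg_near r2 (by linarith) h)⟩
    · exact ⟨_, hpF (j + 1),
        e ▸ box_le (seg_near' r1 (by linarith) h) (seg_near' r2 (by linarith) h)⟩

theorem upperZS {N p : ℕ} (hp : 1 ≤ p) (hn : 2 * (p * p) ≤ N + 1) :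
    errW (S2 1 (N + 1)) (ZD 0 1) ≤ ENNReal.ofReal (1 / (2 * p)) := by
  classical
  have hp' : (0 : ℝ) < p := by exact_mod_cast hp
  obtain ⟨ε, hε⟩ : ∃ ε : ℝ, ε = 1 / (2 * p) := ⟨_, rfl⟩
  have h0 : 0 < ε := by rw [hε]; positivity
  have h1 : 2 * p * ε = 1 := by rw [hε]; field_simp
  rw [← hε]
  refine iSup₂_le ?_
  rintro F ⟨-, ⟨hne, hF⟩, hD⟩
  let B : Finset V2 := Fintype.piFinset fun _ => Finset.Ico (0 : ℤ) p
  let T := B.filter fun u => ∃ z ∈ F, z ∈ cell ε u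
  let R : V2 → V2 → Prop := fun u v => u ∈ B ∧ v ∈ B ∧ ∃ z ∈ F, z ∈ cell ε u ∧ z ∈ cell ε v
  have hT : ∀ z ∈ F, ∃ u ∈ T, z ∈ cell ε u := fun z hz => by
    have : ∀ j, ∃ k ∈ Finset.Ico (0 : ℤ) p, |co j z - (2 * k + 1) * ε| ≤ ε := fun j => by
      obtain ⟨⟨a, b⟩, c, d⟩ := hD hz
      cases j
      · exact cell_ex h0 h1 c d
      · exact cell_ex h0 h1 a b
    choose u u1 u2 using this
    exact ⟨u, Finset.mem_filter.2 ⟨Fintype.mem_piFinset.2 u1, z, hz, u2⟩, u2⟩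
  have hcard : T.card ≤ p * p := (Finset.card_filter_le _ _).trans (by simp [B, sq])
  have hmv : ∀ (u v : V2) (j : Bool) (z : ℝ × ℝ), z ∈ cell ε u → z ∈ cell ε v → u ≠ v →
      (∀ i, i ≠ j → u i = v i) → ∃ σ, σ < 2 ∧ mv j σ u = v := by
    intro u v j z a b hne h
    obtain ⟨a1, a2⟩ := abs_le.1 (a j)
    obtain ⟨b1, b2⟩ := abs_le.1 (b j)
    have c1 : (u j : ℝ) ≤ v j + 1 := by by_contra z; nlinarith [not_le.1 z]
    have c2 : (v j : ℝ) ≤ u j + 1 := by by_contra z; nlinarith [not_le.1 z]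
    have c3 : u j ≠ v j := fun e => hne (funext fun i => by
      by_cases hi : i = j
      · rw [hi, e]
      · exact h i hi)
    norm_cast at c1 c2
    refine ⟨if u j < v j then 0 else 1, by split_ifs <;> omega, funext fun i => ?_⟩
    by_cases hi : i = j
    · subst hi; simp only [mv, Function.update_self]; split_ifs <;> push_cast <;> omega
    · simp [mv, hi, h i hi]
  obtain ⟨P, H, hv⟩ := cover2 (R := R) T (by
      obtain ⟨z, hz⟩ := hne
      obtain ⟨u, hu, -⟩ := hT z hz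
      exact ⟨u, hu⟩)
    (fun u hu => by
      obtain ⟨a, z, b, c⟩ := Finset.mem_filter.1 hu
      exact ⟨a, a, z, b, c, c⟩)
    (fun u v ⟨a, b, z, c, d, e⟩ => ⟨⟨b, a, z, c, e, d⟩, Finset.mem_filter.2 ⟨b, z, c, e⟩⟩)
    (by
      intro S hS ⟨u, hu⟩ hne
      obtain ⟨v, hv, hv'⟩ := Finset.exists_of_ssubset (Finset.ssubset_iff_subset_ne.2 ⟨hS, hne⟩)
      obtain ⟨z, hz, z1, z2⟩ := isPreconnected_closed_iff.1 hF (⋃ u ∈ S, cell ε u)
        (⋃ u ∈ T \ S, cell ε u) (S.finite_toSet.isClosed_biUnion fun _ _ => cell_closed _ _)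
        ((T \ S).finite_toSet.isClosed_biUnion fun _ _ => cell_closed _ _) (fun z hz => by
          obtain ⟨w, w1, w2⟩ := hT z hz
          by_cases h : w ∈ S
          · exact Or.inl (mem_iUnion₂.2 ⟨w, h, w2⟩)
          · exact Or.inr (mem_iUnion₂.2 ⟨w, Finset.mem_sdiff.2 ⟨w1, h⟩, w2⟩))
        (by
          obtain ⟨-, z, a, b⟩ := Finset.mem_filter.1 (hS hu)
          exact ⟨z, a, mem_iUnion₂.2 ⟨u, hu, b⟩⟩)
        (by
          obtain ⟨-, z, a, b⟩ := Finset.mem_filter.1 hv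
          exact ⟨z, a, mem_iUnion₂.2 ⟨v, Finset.mem_sdiff.2 ⟨hv, hv'⟩, b⟩⟩)
      obtain ⟨a, a1, a2⟩ := mem_iUnion₂.1 z1
      obtain ⟨b, b1, b2⟩ := mem_iUnion₂.1 z2
      obtain ⟨b3, b4⟩ := Finset.mem_sdiff.1 b1
      have aB := (Finset.mem_filter.1 (hS a1)).1
      have bB := (Finset.mem_filter.1 b3).1
      let w : V2 := fun j => if j then b j else a j
      have wz : z ∈ cell ε w := fun j => by
        cases j
        · exact a2 false
        · exact b2 true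
      have wB : w ∈ B := Fintype.mem_piFinset.2 fun j => by
        cases j
        · exact Fintype.mem_piFinset.1 aB false
        · exact Fintype.mem_piFinset.1 bB true
      by_cases hw : w ∈ S
      · obtain ⟨σ, s1, s2⟩ := hmv w b false z wz b2 (fun e => b4 (e ▸ hw)) (fun i hi => by
          cases i
          · exact absurd rfl hi
          · rfl)
        exact ⟨w, hw, false, σ, s1, s2 ▸ b4, s2 ▸ ⟨wB, bB, z, hz, wz, b2⟩⟩
      · obtain ⟨σ, s1, s2⟩ := hmv a w true z a2 wz (fun e => hw (e ▸ a1)) (fun i hi => by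
          cases i
          · rfl
          · exact absurd rfl hi)
        exact ⟨a, a1, true, σ, s1, s2 ▸ hw, s2 ▸ ⟨aB, wB, z, hz, a2, wz⟩⟩)
  choose! f hf' hf using hv
  let q : Bool → ℕ → ℝ := fun j t => (2 * P t j + 1) * ε
  have hq : ∀ j, InS 1 (N + 1) (fun s => G (q j) (N + 1) (((N + 1 : ℕ) : ℝ) * s)) := fun j =>
    G_inS (q j) (by omega)
  have hN : (0 : ℝ) < ((N + 1 : ℕ) : ℝ) := by positivity
  refine iInf₂_le_of_le _ ⟨_, _, hq true, hq false, rfl⟩ ?_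
  apply Metric.hausdorffEDist_le_of_mem_edist
  · intro z hz
    obtain ⟨u, hu, uz⟩ := hT z hz
    have e1 : f u ≤ N + 1 := by have := hf' u hu; omega
    have e2 : ((f u : ℕ) : ℝ) ≤ ((N + 1 : ℕ) : ℝ) := by exact_mod_cast e1
    refine ⟨_, ⟨((f u : ℕ) : ℝ) / ((N + 1 : ℕ) : ℝ), ⟨by positivity, (div_le_one hN).2 e2⟩,
      rfl⟩, ?_⟩
    simp only [mul_div_cancel₀ _ hN.ne', G_node _ e1, q, hf u hu]
    exact box_le (a := z.1) (b := z.2) (uz true) (uz false)
  · rintro _ ⟨s, hs, rfl⟩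
    obtain ⟨t, t1, t2, t3⟩ : ∃ t : ℕ, t + 1 ≤ N + 1 ∧ (t : ℝ) ≤ ((N + 1 : ℕ) : ℝ) * s ∧
        ((N + 1 : ℕ) : ℝ) * s ≤ t + 1 := by
      rcases hs.2.eq_or_lt with rfl | h
      · exact ⟨N, le_rfl, by push_cast; linarith, by push_cast; linarith⟩
      · have h2 : 0 ≤ ((N + 1 : ℕ) : ℝ) * s := mul_nonneg hN.le hs.1
        exact ⟨⌊((N + 1 : ℕ) : ℝ) * s⌋₊, (Nat.floor_lt h2).2 (by nlinarith), Nat.floor_le h2,
          (Nat.lt_floor_add_one _).le⟩
    obtain ⟨-, -, z, hz, z1, z2⟩ := H t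
    refine ⟨z, hz, ?_⟩
    have key : ∀ j, |G (q j) (N + 1) (((N + 1 : ℕ) : ℝ) * s) - co j z| ≤ ε := fun j => by
      rw [G_mid _ t2 t3 _ t1]
      obtain ⟨a1, a2⟩ := abs_le.1 (z1 j)
      obtain ⟨b1, b2⟩ := abs_le.1 (z2 j)
      have c1 := sub_nonneg.2 t2
      have c2 := sub_nonneg.2 t3
      simp only [q]
      rw [abs_le]
      constructor <;> nlinarith [mul_nonneg c1 (sub_nonneg.2 b1), mul_nonneg c1 (sub_nonneg.2 b2),
        mul_nonneg c2 (sub_nonneg.2 a1), mul_nonneg c2 (sub_nonneg.2 a2)]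
    exact box_le (c := z.1) (d := z.2) (key true) (key false)

end Pool.Agent.H86.Pmc
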