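import Mathlib

set_option autoImplicit false

namespace Pool.Agent.H86.Transversal

open Set Filter Topology Cardinal MeasureTheory

/-- Independent transversals: a family of at most continuum many sets of reals, none of them
inside a proper rational subspace, has a rationally independent selector. -/
theorem indep_transversal {K : Type} (hK : #K ≤ continuum) (S : K → Set ℝ)
    (hS : ∀ k, ∀ V : Submodule ℚ ℝ, V ≠ ⊤ → ∃ r ∈ S k, r ∉ V) :
    ∃ v : K → ℝ, (∀ k, v k ∈ S k) ∧ LinearIndependent ℚ v := by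
  classical
  obtain ⟨_, _, hord⟩ := Cardinal.exists_ord_eq_type_lt K
  have hsmall : ∀ (k : K) (f : Iio k → ℝ), Submodule.span ℚ (range f) ≠ ⊤ := by
    intro k f h
    have h1 := rank_span_le (R := ℚ) (range f)
    rw [h, rank_top, Real.rank_rat_real] at h1
    have h2 : #(range f) < continuum := (mk_range_le.trans_lt (mk_Iio_lt k hord)).trans_le hK
    exact h2.not_ge h1
  choose F hF hF' using fun (k : K) (f : Iio k → ℝ) => hS k _ (hsmall k f)
  let v : K → ℝ := WellFoundedLT.fix (motive := fun _ => ℝ) fun k f => F k (fun j => f j.1 j.2)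
  have hv : ∀ k, v k = F k (fun j => v j.1) := fun k => by
    simp only [v]
    rw [WellFoundedLT.fix_eq]
  refine ⟨v, fun k => hv k ▸ hF k _, ?_⟩
  rw [linearIndependent_iff']
  intro s g hg
  by_contra hcon
  push Not at hcon
  let t := s.filter (fun i => g i ≠ 0)
  have ht : t.Nonempty := by
    obtain ⟨i, hi, hi'⟩ := hcon
    exact ⟨i, Finset.mem_filter.2 ⟨hi, hi'⟩⟩
  let k := t.max' ht
  have hk : k ∈ t := t.max'_mem ht
  have h1 : ∑ i ∈ t, g i • v i = 0 := by
    rw [← hg]
    refine Finset.sum_filter_of_ne fun i _ h => ?_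
    rintro h'
    simp [h'] at h
  rw [← Finset.add_sum_erase t _ hk] at h1
  have h2 : ∑ i ∈ t.erase k, g i • v i ∈ Submodule.span ℚ (range fun j : Iio k => v j.1) := by
    refine Submodule.sum_mem _ fun i hi => Submodule.smul_mem _ _ (Submodule.subset_span ?_)
    obtain ⟨hi1, hi2⟩ := Finset.mem_erase.1 hi
    exact ⟨⟨i, lt_of_le_of_ne (t.le_max' i hi2) hi1⟩, rfl⟩
  have h3 : g k • v k ∈ Submodule.span ℚ (range fun j : Iio k => v j.1) := by
    rw [eq_neg_of_add_eq_zero_left h1]
    exact Submodule.neg_mem _ h2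
  have h4 := (Submodule.smul_mem_iff _ (Finset.mem_filter.1 hk).2).1 h3
  exact hF' k _ (hv k ▸ h4)

/-- A sequence of integers whose multiples of every real tend to zero modulo one is eventually
zero. -/
theorem eventually_zero_of_tendsto (k : ℕ → ℤ)
    (h : ∀ r : ℝ, Tendsto (fun n => k n • (r : UnitAddCircle)) atTop (𝓝 0)) :
    ∀ᶠ n in atTop, k n = 0 := by
  have h1 : Tendsto (fun n => ∫ x : UnitAddCircle, fourier (k n) x ∂AddCircle.haarAddCircle) atTop
      (𝓝 (∫ _ : UnitAddCircle, (1 : ℂ) ∂AddCircle.haarAddCircle)) := by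
    refine tendsto_integral_of_dominated_convergence (fun _ => 1)
      (fun n => (fourier (k n)).continuous.aestronglyMeasurable) (integrable_const _)
      (fun n => Eventually.of_forall fun x => (Circle.norm_coe _).le) ?_
    refine Eventually.of_forall fun x => ?_
    induction x using QuotientAddGroup.induction_on with
    | H r =>
      have := ((fourier (T := 1) 1).continuous.tendsto 0).comp (h r)
      rw [fourier_eval_zero] at this
      refine this.congr fun n => ?_
      rw [Function.comp_apply, fourier_one, fourier_apply]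
  simp only [integral_const, probReal_univ, one_smul] at h1
  filter_upwards [h1.eventually_ne one_ne_zero] with n hn
  by_contra hne
  apply hn
  have := congrFun (fourierCoeff_fourier (T := 1) (k n)) 0
  simpa [fourierCoeff, Pi.single_eq_of_ne (Ne.symm hne)] using this

/-- The closure of an open set of a product of metric spaces depends, at each point, on countably
many coordinates. -/
theorem closure_open_countable {ι : Type*} {X : Type*} [PseudoMetricSpace X] {O : Set (ι → X)}
    (hO : IsOpen O) {w : ι → X} (hw : w ∈ closure O) :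
    ∃ A : Set ι, A.Countable ∧ ∀ x : ι → X, (∀ i ∈ A, x i = w i) → x ∈ closure O := by
  classical
  have step : ∀ (F : Finset ι) (n : ℕ), ∃ (u : ι → X) (E : Finset ι), F ⊆ E ∧
      (∀ i ∈ F, dist (u i) (w i) < 1 / ((n : ℝ) + 1)) ∧ ∀ y, (∀ i ∈ E, y i = u i) → y ∈ O := by
    intro F n
    have hV : (F : Set ι).pi (fun i => Metric.ball (w i) (1 / ((n : ℝ) + 1))) ∈ 𝓝 w :=
      set_pi_mem_nhds F.finite_toSet fun i _ => Metric.ball_mem_nhds _ (by positivity)
    obtain ⟨u, hu, huO⟩ := mem_closure_iff_nhds.1 hw _ hV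
    obtain ⟨I, t, ht, htO⟩ := isOpen_pi_iff.1 hO u huO
    refine ⟨u, F ∪ I, Finset.subset_union_left, fun i hi => hu i hi, fun y hy => htO fun i hi => ?_⟩
    rw [hy i (Finset.mem_union_right _ hi)]
    exact (ht i hi).2
  choose u E hFE hu hE using step
  obtain ⟨F, hF⟩ : ∃ F : ℕ → Finset ι, ∀ n, F (n + 1) = E (F n) n :=
    ⟨fun n => Nat.rec (motive := fun _ => Finset ι) ∅ (fun n G => E G n) n, fun n => rfl⟩
  have hmono : Monotone F := monotone_nat_of_le_succ fun n => hF n ▸ hFE _ _
  have hA : (⋃ n : ℕ, ((F n : Finset ι) : Set ι)).Countable := by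
    exact countable_iUnion fun n => Finset.countable_toSet _
  refine ⟨⋃ n : ℕ, ((F n : Finset ι) : Set ι), hA, fun x hx => ?_⟩
  let y : ℕ → ι → X := fun n i => if i ∈ ⋃ n : ℕ, ((F n : Finset ι) : Set ι) then u (F n) n i else x i
  refine mem_closure_of_tendsto (f := y) (b := atTop) (tendsto_pi_nhds.2 fun i => ?_)
    (Eventually.of_forall fun n => hE (F n) n _ fun i hi => if_pos (mem_iUnion.2 ⟨n + 1, hF n ▸ hi⟩))
  by_cases hi : i ∈ ⋃ n : ℕ, ((F n : Finset ι) : Set ι)
  · simp only [y, if_pos hi]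
    rw [hx i hi, tendsto_iff_dist_tendsto_zero]
    obtain ⟨m, hm⟩ := mem_iUnion.1 hi
    refine squeeze_zero' (Eventually.of_forall fun _ => dist_nonneg) ?_
      tendsto_one_div_add_atTop_nhds_zero_nat
    filter_upwards [eventually_ge_atTop m] with n hn
    exact (hu (F n) n i (hmono hn hm)).le
  · simp only [y, if_neg hi]
    exact tendsto_const_nhds

/-- a subset of a product that projects onto all countable subproducts -/
def Fills {ι X : Type*} (N : Set (ι → X)) : Prop :=
  ∀ A : Set ι, A.Countable → ∀ w : ι → X, ∃ x ∈ N, ∀ i ∈ A, x i = w i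

theorem Fills.dense {ι X : Type*} [TopologicalSpace X] {N : Set (ι → X)} (h : Fills N) :
    Dense N := by
  rw [dense_iff_inter_open]
  rintro U hU ⟨w, hw⟩
  obtain ⟨I, t, ht, htU⟩ := isOpen_pi_iff.1 hU w hw
  obtain ⟨x, hx, hxw⟩ := h I I.countable_toSet w
  exact ⟨x, htU fun i hi => by rw [hxw i hi]; exact (ht i hi).2, hx⟩

theorem Fills.exists_mem_closure {ι X : Type*} [PseudoMetricSpace X] {N : Set (ι → X)}
    (h : Fills N) (O : ℕ → Set (ι → X)) (hO : ∀ n, IsOpen (O n)) (w : ι → X)
    (hw : ∀ n, w ∈ closure (O n)) : ∃ x ∈ N, ∀ n, x ∈ closure (O n ∩ N) := by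
  choose A hA hA' using fun n => closure_open_countable (hO n) (hw n)
  obtain ⟨x, hx, hxw⟩ := h (⋃ n, A n) (countable_iUnion hA) w
  exact ⟨x, hx, fun n => closure_minimal (h.dense.open_subset_closure_inter (hO n)) isClosed_closure
    (hA' n x fun i hi => hxw i (mem_iUnion.2 ⟨n, hi⟩))⟩

theorem Fills.preconnected {ι X : Type*} [PseudoMetricSpace X] [PreconnectedSpace X]
    {N : Set (ι → X)} (h : Fills N) : IsPreconnected N := by
  rintro u v hu hv huv ⟨a, -, ha⟩ ⟨b, -, hb⟩
  obtain ⟨w, -, hw1, hw2⟩ := isPreconnected_closed_iff.1 (isPreconnected_univ (α := ι → X))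
    (closure u) (closure v) isClosed_closure isClosed_closure (by
      rw [← closure_union, ← h.dense.closure_eq]
      exact closure_mono huv) ⟨a, mem_univ _, subset_closure ha⟩ ⟨b, mem_univ _, subset_closure hb⟩
  obtain ⟨x, hx, hxO⟩ := h.exists_mem_closure (fun n => if n = 0 then u else v)
    (fun n => by split_ifs <;> assumption) w (fun n => by split_ifs <;> assumption)
  have h0 := hxO 0
  have h1 := hxO 1
  simp only [if_true, one_ne_zero, if_false] at h0 h1
  rcases huv hx with hxu | hxv
  · obtain ⟨y, hy1, hy2, hy3⟩ := mem_closure_iff.1 h1 u hu hxu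
    exact ⟨y, hy3, hy1, hy2⟩
  · obtain ⟨y, hy1, hy2, hy3⟩ := mem_closure_iff.1 h0 v hv hxv
    exact ⟨y, hy3, hy2, hy1⟩

theorem Fills.bounded {ι X : Type*} [PseudoMetricSpace X] [CompactSpace X]
    {N : Set (ι → X)} (h : Fills N) (f : N → ℝ) (hf : Continuous f) : ∃ C, ∀ x, |f x| ≤ C := by
  by_contra hcon
  push Not at hcon
  have h1 : ∀ n : ℕ, ∃ O : Set (ι → X), IsOpen O ∧ Subtype.val ⁻¹' O = {x : N | (n : ℝ) < |f x|} :=
    fun n => isOpen_induced_iff.1 (isOpen_lt continuous_const hf.abs)
  choose O hO hO' using h1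
  choose u hu using fun n : ℕ => hcon n
  obtain ⟨w, hw⟩ := exists_clusterPt_of_compactSpace (map (fun n => (u n).1) atTop)
  obtain ⟨x, hx, hxO⟩ := h.exists_mem_closure O hO w (fun n => by
    refine mem_closure_iff_clusterPt.2 (hw.mono (le_principal_iff.2 (mem_map.2 ?_)))
    filter_upwards [eventually_ge_atTop n] with m hm
    have : u m ∈ Subtype.val ⁻¹' O n := by
      rw [hO']
      exact lt_of_le_of_lt (by exact_mod_cast hm) (hu m)
    exact this)
  obtain ⟨n, hn⟩ := exists_nat_gt |f ⟨x, hx⟩|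
  have h2 : (⟨x, hx⟩ : N) ∈ closure {x : N | (n : ℝ) < |f x|} := by
    rw [closure_subtype, ← hO', Subtype.image_preimage_coe, inter_comm]
    exact hxO n
  have h3 : (⟨x, hx⟩ : N) ∈ {x : N | (n : ℝ) ≤ |f x|} :=
    closure_minimal (fun y hy => le_of_lt hy) (isClosed_le continuous_const hf.abs) h2
  exact hn.not_ge h3

end Pool.Agent.H86.Transversal
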