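import Mathlib
import Pool.Agent.H86.Kronecker
import Pool.Agent.H86.Transversal

set_option autoImplicit false

namespace Pool.Agent.H86.PseudoZ

open Set Filter Topology Cardinal Pool.Agent.H86.Kronecker Pool.Agent.H86.Transversal

abbrev I : Type := ℝ × ℝ
abbrev P : Type := ℕ → I × ℝ
abbrev Sq : Type := ℕ → (P →₀ ℤ)
abbrev K : Type := (P × I) ⊕ (ℕ → ℤ)
abbrev T : Type := UnitAddCircle

theorem card_P : #P = continuum := by simp [P, I, Cardinal.mk_real]

theorem card_K : #K ≤ continuum := by simp [K, I, Cardinal.mk_real]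

theorem card_Sq : #Sq ≤ #ℝ := by
  have : #(P →₀ ℤ) = continuum := by
    rw [Cardinal.mk_finsupp_of_infinite, card_P]
    simp [aleph0_le_continuum]
  simp only [Sq, mk_pi, this]
  simp [Cardinal.mk_real]

theorem exists_e : ∃ e : ℝ → Sq, Function.Surjective e := by
  obtain ⟨f⟩ := Cardinal.le_def _ _ |>.1 card_Sq
  exact ⟨Function.invFun f, Function.invFun_surjective f.injective⟩

noncomputable def e : ℝ → Sq := exists_e.choose

theorem e_surj : Function.Surjective e := exists_e.choose_spec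

theorem exists_v : ∃ v : K → ℝ, (∀ k : ℕ → ℤ, Tendsto (fun n => k n • (v (Sum.inr k) : T)) atTop (𝓝 0) →
    ∀ᶠ n in atTop, k n = 0) ∧ LinearIndependent ℚ v := by
  obtain ⟨v, hv, hv'⟩ := indep_transversal card_K (fun a => Sum.elim (fun _ => univ)
    (fun k => {r : ℝ | Tendsto (fun n => k n • (r : T)) atTop (𝓝 0) → ∀ᶠ n in atTop, k n = 0}) a) (by
      intro a V hV
      obtain ⟨y, hy⟩ : ∃ y, y ∉ V := by
        by_contra hcon
        push Not at hcon
        exact hV (Submodule.eq_top_iff'.2 hcon)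
      rcases a with a | k
      · exact ⟨y, mem_univ _, hy⟩
      · by_cases hk : ∀ᶠ n in atTop, k n = 0
        · exact ⟨y, fun _ => hk, hy⟩
        · have : ∃ r : ℝ, ¬ Tendsto (fun n => k n • (r : T)) atTop (𝓝 0) := by
            by_contra hcon
            push Not at hcon
            exact hk (eventually_zero_of_tendsto k hcon)
          obtain ⟨r, hr⟩ := this
          by_cases h1 : r ∈ V
          · by_cases h2 : Tendsto (fun n => k n • (y : T)) atTop (𝓝 0)
            · refine ⟨r + y, fun h => absurd ?_ hr, fun h => hy ?_⟩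
              · have := h.sub h2
                simpa using this
              · simpa using V.sub_mem h h1
            · exact ⟨y, fun h => absurd h h2, hy⟩
          · exact ⟨r, fun h => absurd h hr, h1⟩)
  exact ⟨v, fun k => hv (Sum.inr k), hv'⟩

noncomputable def v : K → ℝ := exists_v.choose

theorem v_spec (k : ℕ → ℤ) (h : Tendsto (fun n => k n • (v (Sum.inr k) : T)) atTop (𝓝 0)) :
    ∀ᶠ n in atTop, k n = 0 := exists_v.choose_spec.1 k h

theorem exists_L : ∃ L : ℝ →ₗ[ℚ] (K →₀ ℚ), ∀ a, L (v a) = Finsupp.single a 1 := by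
  obtain ⟨L, hL⟩ := (Finsupp.linearCombination ℚ v).exists_leftInverse_of_injective
    (LinearMap.ker_eq_bot.2 exists_v.choose_spec.2)
  refine ⟨L, fun a => ?_⟩
  have := LinearMap.congr_fun hL (Finsupp.single a 1)
  simpa using this

noncomputable def L : ℝ →ₗ[ℚ] (K →₀ ℚ) := exists_L.choose

theorem L_v (a : K) : L (v a) = Finsupp.single a 1 := exists_L.choose_spec a

/-- the character of the free group with prescribed values on the generators -/
noncomputable def val (ρ : P → ℝ) : (P →₀ ℤ) →+ T :=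
  (QuotientAddGroup.mk' (AddSubgroup.zmultiples (1 : ℝ))).comp
    (Finsupp.linearCombination ℤ ρ).toAddMonoidHom

theorem val_apply (ρ : P → ℝ) (c : P →₀ ℤ) :
    val ρ c = ((∑ p ∈ c.support, (c p : ℝ) * ρ p : ℝ) : T) := by
  simp [val, Finsupp.linearCombination_apply, Finsupp.sum]

theorem val_add (ρ β : P → ℝ) (c : P →₀ ℤ) : val (β + ρ) c = val β c + val ρ c := by
  rw [val_apply, val_apply, val_apply, ← AddCircle.coe_add, ← Finset.sum_add_distrib]
  simp [mul_add]

theorem val_congr {ρ β : P → ℝ} {c : P →₀ ℤ} (h : ∀ p ∈ c.support, ρ p = β p) :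
    val ρ c = val β c := by
  rw [val_apply, val_apply]
  congr 1
  exact Finset.sum_congr rfl fun p hp => by rw [h p hp]

theorem half_ne : (((1 / 2 : ℝ)) : T) ≠ 0 := by
  intro h
  obtain ⟨z, hz⟩ := (AddCircle.coe_eq_zero_iff _).1 h
  have h1 : ((2 * z : ℤ) : ℝ) = 1 := by
    simp only [zsmul_eq_mul, mul_one] at hz
    push_cast
    linarith
  have h2 : 2 * z = 1 := by exact_mod_cast h1
  omega

def Adm (ρ : P → ℝ) : Prop := ∀ p, (∃ q : ℚ, ρ p = q) ∨ ∃ k, ρ p = v (Sum.inr k)

theorem exists_rho (σ : Sq) (β : P → ℝ) : ∃ ρ : P → ℝ, Adm ρ ∧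
    ((∃ a, Tendsto (fun n => val (β + ρ) (σ n)) atTop (𝓝 a)) → ∃ c, ∀ᶠ n in atTop, σ n = c) := by
  classical
  by_contra hcon
  push Not at hcon
  have h0 : Adm 0 := fun p => Or.inl ⟨0, by simp⟩
  obtain ⟨⟨a₀, ha₀⟩, hσ⟩ := hcon 0 h0
  let τ : Sq := fun n => σ (n + 1) - σ n
  have h1 : ∀ ρ, Adm ρ → Tendsto (fun n => val ρ (τ n)) atTop (𝓝 0) := by
    intro ρ hρ
    obtain ⟨⟨a, ha⟩, -⟩ := hcon ρ hρ
    have h2 : Tendsto (fun n => val ρ (σ n)) atTop (𝓝 (a - a₀)) := by
      have := ha.sub ha₀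
      simpa [val_add] using this
    have := (h2.comp (tendsto_add_atTop_nat 1)).sub h2
    simpa [τ] using this
  have h2 : ∀ p, ∀ᶠ n in atTop, τ n p = 0 := by
    intro p
    refine v_spec _ ((h1 (Pi.single p (v (Sum.inr fun n => τ n p))) fun q => ?_).congr fun n => ?_)
    · by_cases hq : q = p
      · subst hq
        exact Or.inr ⟨fun n => τ n q, by simp⟩
      · exact Or.inl ⟨0, by simp [hq]⟩
    · rw [val_apply, Finset.sum_eq_single p]
      · rw [Pi.single_eq_same, ← zsmul_eq_mul, AddCircle.coe_zsmul]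
      · intro q _ hq
        simp [hq]
      · intro hp
        simp [Finsupp.notMem_support_iff.1 hp]
  have h3 : ∃ᶠ n in atTop, τ n ≠ 0 := by
    intro h
    simp only [ne_eq, not_not] at h
    obtain ⟨N, hN⟩ := eventually_atTop.1 h
    have : ∀ n ≥ N, σ n = σ N := by
      intro n hn
      induction n, hn using Nat.le_induction with
      | base => rfl
      | succ n hn ih => rw [← ih]; exact sub_eq_zero.1 (hN n hn)
    exact hσ (σ N) ((eventually_atTop.2 ⟨N, this⟩).mono fun n hn h => h hn)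
  obtain ⟨f, hf, hf'⟩ := exists_seq_of_forall_finset_exists (fun n => τ n ≠ 0)
    (fun m n => m < n ∧ ∀ p ∈ (τ m).support, τ n p = 0) (by
      intro s _
      have : ∀ᶠ n in atTop, ∀ m ∈ s, m < n ∧ ∀ p ∈ (τ m).support, τ n p = 0 :=
        (Finset.eventually_all s).2 fun m _ => (eventually_gt_atTop m).and
          ((Finset.eventually_all _).2 fun p _ => h2 p)
      exact (h3.and_eventually this).exists)
  choose q hq using fun j => Finsupp.support_nonempty_iff.2 (hf j)
  have hdisj : ∀ j l, q l ∈ (τ (f j)).support → l = j := by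
    intro j l h
    rcases lt_trichotomy j l with h' | h' | h'
    · exact absurd ((hf' j l h').2 _ h) (Finsupp.mem_support_iff.1 (hq l))
    · exact h'.symm
    · exact absurd ((hf' l j h').2 _ (hq l)) (Finsupp.mem_support_iff.1 h)
  let ρ : P → ℝ := fun p => if h : ∃ j, q j = p then ((1 / (2 * τ (f h.choose) p) : ℚ) : ℝ) else 0
  have hρ : Adm ρ := by
    intro p
    left
    simp only [ρ]
    split_ifs
    · exact ⟨_, rfl⟩
    · exact ⟨0, by simp⟩
  have h4 : ∀ j, val ρ (τ (f j)) = ((1 / 2 : ℝ) : T) := by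
    intro j
    rw [val_apply, Finset.sum_eq_single_of_mem (q j) (hq j)]
    · have hex : ∃ l, q l = q j := ⟨j, rfl⟩
      have h5 : hex.choose = j := hdisj j _ (by rw [hex.choose_spec]; exact hq j)
      have h6 : (τ (f j) (q j) : ℝ) ≠ 0 := by exact_mod_cast Finsupp.mem_support_iff.1 (hq j)
      simp only [ρ]
      rw [dif_pos hex, h5]
      congr 1
      push_cast
      field_simp
    · intro p hp hne
      simp only [ρ]
      rw [dif_neg, mul_zero]
      rintro ⟨l, rfl⟩
      exact hne (by rw [hdisj j l hp])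
  have h5 := (h1 ρ hρ).comp (StrictMono.tendsto_atTop (fun m n h => (hf' m n h).1 : StrictMono f))
  simp only [Function.comp_def, h4] at h5
  exact half_ne (tendsto_nhds_unique tendsto_const_nhds h5)

noncomputable def rho (i : I) : P → ℝ := (exists_rho (e i.1) (fun p => v (Sum.inl (p, i)))).choose

theorem rho_adm (i : I) : Adm (rho i) := (exists_rho _ _).choose_spec.1

open Classical in
noncomputable def x (i : I) (p : P) : ℝ :=
  if h : ∃ n, (p n).1 = i then (p (Nat.find h)).2 else v (Sum.inl (p, i)) + rho i p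

def A (p : P) : Set I := range fun n => (p n).1

theorem x_of_notMem {i : I} {p : P} (h : i ∉ A p) : x i p = v (Sum.inl (p, i)) + rho i p :=
  dif_neg h

noncomputable def psi (i : I) : (P →₀ ℤ) →+ T := val (x i)

noncomputable def G : AddSubgroup (I → T) := (ev psi).range

theorem fills : Fills (G : Set (I → T)) := by
  classical
  intro B hB w
  obtain ⟨a, ha⟩ := (hB.insert (0, 0)).exists_eq_range (insert_nonempty _ _)
  let p : P := fun n => (a n, (w (a n)).out)
  refine ⟨_, ⟨Finsupp.single p 1, rfl⟩, fun i hi => ?_⟩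
  have hex : ∃ n, (p n).1 = i := by
    have : i ∈ range a := ha ▸ mem_insert_of_mem _ hi
    exact this
  have h1 : x i p = (w i).out := by
    unfold x
    rw [dif_pos hex]
    have := Nat.find_spec hex
    simp only [p] at this ⊢
    rw [this]
  change val (x i) _ = _
  simp [val, h1]

theorem not_countable_I (B : Set I) (hB : B.Countable) (a : ℝ) : ∃ b, (a, b) ∉ B := by
  by_contra hcon
  push Not at hcon
  refine Cardinal.not_countable_real ((hB.image Prod.snd).mono fun b _ => ?_)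
  exact ⟨(a, b), hcon b, rfl⟩

theorem seq_const (σ : Sq) (h : ∀ i, ∃ a, Tendsto (fun n => psi i (σ n)) atTop (𝓝 a)) :
    ∃ c, ∀ᶠ n in atTop, σ n = c := by
  obtain ⟨a, rfl⟩ := e_surj σ
  obtain ⟨b, hb⟩ := not_countable_I (⋃ n, ⋃ p ∈ (e a n).support, A p)
    (countable_iUnion fun n => (Finset.countable_toSet _).biUnion fun p _ => countable_range _) a
  refine (exists_rho (e a) (fun p => v (Sum.inl (p, (a, b))))).choose_spec.2 ?_
  obtain ⟨t, ht⟩ := h (a, b)
  refine ⟨t, ht.congr fun n => val_congr fun p hp => x_of_notMem fun h => hb ?_⟩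
  exact mem_iUnion.2 ⟨n, mem_biUnion hp h⟩

theorem closure_cyclic (c : P →₀ ℤ) (hc : c ≠ 0) : ∃ B : Set I, B.Countable ∧
    ∀ y : I → T, (∀ i ∈ B, y i = 0) → y ∈ closure (ev psi '' AddSubgroup.zmultiples c) := by
  classical
  obtain ⟨p₀, hp₀⟩ := Finsupp.support_nonempty_iff.2 hc
  have hfin : ∀ r : ℝ, {i : I | L r (Sum.inl (p₀, i)) ≠ 0}.Countable := by
    intro r
    refine ((L r).support.countable_toSet.preimage (f := fun i : I => (Sum.inl (p₀, i) : K)) ?_).mono
      fun i hi => (Finsupp.mem_support_iff (f := L r)).2 hi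
    intro i j h
    simpa using h
  let A' : Set I := ⋃ p ∈ c.support, A p
  have hA' : A'.Countable := (Finset.countable_toSet _).biUnion fun p _ => countable_range _
  refine ⟨A' ∪ {i | L 1 (Sum.inl (p₀, i)) ≠ 0} ∪
    ⋃ j ∈ A', ⋃ p ∈ c.support, {i | L (x j p) (Sum.inl (p₀, i)) ≠ 0},
    (hA'.union (hfin 1)).union (hA'.biUnion fun j _ =>
      (Finset.countable_toSet _).biUnion fun p _ => hfin _), fun y hy => ?_⟩
  refine mem_closure_torus psi _ y fun d hd => ?_
  refine Finset.sum_eq_zero fun i hi => ?_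
  by_contra hne
  have hiB := mt (hy i) (fun h => hne (by simp [h]))
  simp only [mem_union, mem_ofPred_eq, mem_iUnion, not_or, not_not, not_exists] at hiB
  obtain ⟨⟨h1, h2⟩, h3⟩ := hiB
  have h4 := hd c (AddSubgroup.mem_zmultiples c)
  have h5 : (d.sum fun i n => n • psi i c) =
      ((∑ j ∈ d.support, (d j : ℝ) * ∑ p ∈ c.support, (c p : ℝ) * x j p : ℝ) : T) := by
    change _ = QuotientAddGroup.mk' (AddSubgroup.zmultiples (1 : ℝ)) _
    rw [map_sum]
    refine Finset.sum_congr rfl fun j _ => ?_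
    rw [← zsmul_eq_mul, map_zsmul]
    exact congrArg _ (val_apply _ _)
  rw [h5] at h4
  obtain ⟨m, hm⟩ := (AddCircle.coe_eq_zero_iff _).1 h4
  have h6 : ∀ j, ∀ p ∈ c.support, L (x j p) (Sum.inl (p₀, i)) = if j = i ∧ p = p₀ then 1 else 0 := by
    intro j p hp
    by_cases hj : j ∈ A'
    · rw [h3 j hj p hp, if_neg]
      rintro ⟨rfl, -⟩
      exact h1 hj
    · have h7 : L (rho j p) (Sum.inl (p₀, i)) = 0 := by
        rcases rho_adm j p with ⟨q, hq⟩ | ⟨k, hk⟩
        · have : (q : ℝ) = q • (1 : ℝ) := by simp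
          rw [hq, this, map_smul]
          simp [h2]
        · rw [hk, L_v]
          simp
      rw [x_of_notMem (fun h => hj (mem_biUnion hp h)), map_add, Finsupp.add_apply, h7, add_zero,
        L_v, Finsupp.single_apply]
      simp [and_comm]
  have h8 := congrArg (fun r => L r (Sum.inl (p₀, i))) hm
  simp only [← zsmul_eq_mul, map_zsmul, map_sum, Finsupp.smul_apply, h2, smul_zero,
    Finsupp.finsetSum_apply] at h8
  rw [Finset.sum_eq_single_of_mem i hi, Finset.sum_eq_single_of_mem p₀ hp₀, h6 i p₀ hp₀] at h8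
  · simp only [and_self, if_true, zsmul_eq_mul, mul_one] at h8
    have h9 : d i * c p₀ = 0 := by exact_mod_cast h8.symm
    exact mul_ne_zero (Finsupp.mem_support_iff.1 hi) (Finsupp.mem_support_iff.1 hp₀) h9
  · intro p hp hne
    simp [h6 i p hp, hne]
  · intro j _ hne
    rw [Finset.sum_eq_zero, smul_zero]
    intro p hp
    simp [h6 j p hp, hne]

theorem closed_zeroDim_trivial (H : AddSubgroup G) (hH : IsClosed (H : Set G))
    (hz : TopologicalSpace.IsTopologicalBasis {U : Set H | IsClopen U}) : H = ⊥ := by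
  classical
  by_contra hne
  obtain ⟨⟨⟨_, c, rfl⟩, hg⟩, hg0⟩ := AddSubgroup.ne_bot_iff_exists_ne_zero.1 hne
  have hc : c ≠ 0 := by
    rintro rfl
    exact hg0 (Subtype.ext (Subtype.ext (map_zero _)))
  obtain ⟨B, hB, hcl⟩ := closure_cyclic c hc
  let ex : ({i // i ∉ B} → T) → (I → T) := fun y i => if h : i ∈ B then 0 else y ⟨i, h⟩
  have hex : Continuous ex := by
    refine continuous_pi fun i => ?_
    by_cases h : i ∈ B
    · simp only [ex, dif_pos h]
      exact continuous_const
    · simp only [ex, dif_neg h]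
      exact continuous_apply _
  let N : Set ({i // i ∉ B} → T) := ex ⁻¹' G
  have hN : Fills N := by
    intro C hC w
    obtain ⟨y, hy, hyw⟩ := fills (B ∪ Subtype.val '' C) (hB.union (hC.image _)) (ex w)
    refine ⟨fun i => y i, ?_, fun i hi => ?_⟩
    · have : ex (fun i => y i) = y := by
        ext i
        by_cases h : i ∈ B
        · rw [hyw i (Or.inl h)]
          simp only [ex, dif_pos h]
        · simp only [ex, dif_neg h]
      rw [mem_preimage, this]
      exact hy
    · change y i = w i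
      rw [hyw i (Or.inr ⟨i, hi, rfl⟩)]
      simp only [ex, dif_neg i.2]
  have hmem : ∀ y : N, (⟨ex y, y.2⟩ : G) ∈ H := by
    intro y
    refine hH.closure_subset ?_
    rw [closure_subtype]
    refine closure_mono ?_ (hcl (ex y) fun i hi => dif_pos hi)
    rintro _ ⟨_, ⟨n, rfl⟩, rfl⟩
    exact ⟨_, H.zsmul_mem hg n, by simp⟩
  let φ : N → H := fun y => ⟨_, hmem y⟩
  have hφ : Continuous φ := ((hex.comp continuous_subtype_val).subtype_mk _).subtype_mk _
  have : PreconnectedSpace N := Subtype.preconnectedSpace hN.preconnected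
  obtain ⟨b, hb⟩ := not_countable_I B hB 0
  obtain ⟨y₀, hy₀, h₀⟩ := hN {⟨_, hb⟩} (countable_singleton _) 0
  obtain ⟨y₁, hy₁, h₁⟩ := hN {⟨_, hb⟩} (countable_singleton _) (fun _ => ((1 / 2 : ℝ) : T))
  have hne : φ ⟨y₀, hy₀⟩ ∈ ({φ ⟨y₁, hy₁⟩}ᶜ : Set H) := by
    intro h
    have h2 := congrArg (fun s : H => s.1.1 (0, b)) (mem_singleton_iff.1 h)
    simp only [φ, ex, dif_neg hb] at h2
    rw [h₀ _ rfl, h₁ _ rfl] at h2
    exact half_ne h2.symm
  obtain ⟨U, hU, h0, hU1⟩ := hz.exists_subset_of_mem_open hne isOpen_compl_singleton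
  have := (hU.preimage hφ).eq_univ ⟨_, h0⟩
  exact hU1 (show (⟨y₁, hy₁⟩ : N) ∈ φ ⁻¹' U from this ▸ mem_univ _) rfl

theorem seq_complete (u : ℕ → G)
    (hu : ∀ U ∈ 𝓝 (0 : G), ∃ N, ∀ m ≥ N, ∀ n ≥ N, u m - u n ∈ U) :
    ∃ y, Tendsto u atTop (𝓝 y) := by
  choose σ hσ using fun n => (u n).2
  obtain ⟨c, hc⟩ := seq_const σ fun i => by
    refine cauchySeq_tendsto_of_complete (Metric.cauchySeq_iff.2 fun ε hε => ?_)
    have hc : Continuous fun g : G => g.1 i := (continuous_apply i).comp continuous_subtype_val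
    obtain ⟨N, hN⟩ := hu _ (hc.continuousAt.preimage_mem_nhds (Metric.ball_mem_nhds _ hε))
    refine ⟨N, fun m hm n hn => ?_⟩
    have := hN m hm n hn
    simp only [mem_preimage, AddSubgroup.coe_sub, Pi.sub_apply, ← hσ] at this
    rw [dist_eq_norm]
    simpa [ev] using this
  refine ⟨⟨_, c, rfl⟩, tendsto_const_nhds.congr' ?_⟩
  filter_upwards [hc] with n hn
  exact Subtype.ext (by rw [← hσ n, hn])

theorem not_metrizable : ¬ TopologicalSpace.MetrizableSpace G := by
  classical
  intro h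
  obtain ⟨V, hV⟩ := (𝓝 (0 : G)).exists_antitone_basis
  have h1 : ∀ n, ∃ F : Set I, F.Finite ∧ ∀ g : G, (∀ i ∈ F, g.1 i = 0) → g ∈ V n := by
    intro n
    obtain ⟨W, hW, hWV⟩ := (mem_nhds_subtype _ _ _).1 (hV.mem n)
    rw [nhds_pi, Filter.mem_pi] at hW
    obtain ⟨F, hF, t, ht, htW⟩ := hW
    refine ⟨F, hF, fun g hg => hWV (htW fun i hi => ?_)⟩
    rw [hg i hi]
    exact mem_of_mem_nhds (ht i)
  choose F hF hFV using h1
  have hc : (⋃ n, F n).Countable := countable_iUnion fun n => (hF n).countable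
  obtain ⟨b, hb⟩ := not_countable_I _ hc 0
  obtain ⟨y, hy, hy'⟩ := fills (insert (0, b) (⋃ n, F n)) (hc.insert _)
    (Pi.single (0, b) ((1 / 2 : ℝ) : T))
  have h2 : ∀ n, (⟨y, hy⟩ : G) ∈ V n := fun n => hFV n _ fun i hi => by
    have hi' : i ∈ ⋃ n, F n := mem_iUnion.2 ⟨n, hi⟩
    change y i = 0
    rw [hy' i (mem_insert_of_mem _ hi'), Pi.single_eq_of_ne]
    rintro rfl
    exact hb hi'
  have h3 : (⟨y, hy⟩ : G) ≠ 0 := by
    intro h
    have h4 : y (0, b) = 0 := congrArg (fun g : G => g.1 (0, b)) h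
    rw [hy' _ (mem_insert _ _), Pi.single_eq_same] at h4
    exact half_ne h4
  obtain ⟨n, hn⟩ := hV.mem_iff.1 (isOpen_compl_singleton.mem_nhds h3.symm)
  exact hn (h2 n) rfl

end Pool.Agent.H86.PseudoZ
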