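import Mathlib

set_option autoImplicit false

namespace Pool.Agent.H86.Redu

open ContinuousLinearMap Filter Topology

variable {H : Type*} [NormedAddCommGroup H] [InnerProductSpace ℂ H] [CompleteSpace H]

theorem comm_proj (K : Submodule ℂ H) [K.HasOrthogonalProjection] (R : H →L[ℂ] H)
    (h1 : ∀ x ∈ K, R x ∈ K) (h2 : ∀ x ∈ K, star R x ∈ K) : Commute R K.starProjection := by
  have a : ∀ S : H →L[ℂ] H, (∀ x ∈ K, S x ∈ K) →
      K.starProjection * (S * K.starProjection) = S * K.starProjection := fun S h => by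
    ext1 x
    exact K.starProjection_eq_self_iff.mpr (h _ (K.starProjection_apply_mem x))
  have b := congrArg star (a _ h2)
  simp only [star_mul, star_star, isStarProjection_starProjection.isSelfAdjoint.star_eq] at b
  rw [Commute, SemiconjBy, ← b, mul_assoc, a R h1]

theorem sym_norm {E : H →L[ℂ] H} (h : IsStarProjection E) : ‖2 * E - 1‖ ≤ 1 := by
  have a : star (2 * E - 1) * (2 * E - 1) = 1 := by
    rw [star_sub, star_one, two_mul, star_add, h.isSelfAdjoint.star_eq]
    simp only [sub_mul, mul_sub, add_mul, mul_add, h.isIdempotentElem.eq, mul_one, one_mul]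
    abel
  have b := CStarRing.norm_star_mul_self (x := 2 * E - 1)
  have c : ‖(1 : H →L[ℂ] H)‖ ≤ 1 := norm_id_le
  rw [a] at b
  nlinarith [norm_nonneg (2 * E - 1)]

theorem halve (T : H →L[ℂ] H) (hT : IsSelfAdjoint T) (h1 : ‖T‖ ≤ 1) :
    ∃ E, IsStarProjection E ∧ ‖2 * T - (2 * E - 1)‖ ≤ 1 ∧
      ∀ R, Commute R T → Commute (star R) T → Commute R E := by
  let a := cfc (fun x : ℝ => max x 0) T
  let b := cfc (fun x : ℝ => max (-x) 0) T
  have ab : a - b = T := by
    rw [← cfc_sub _ _ T]
    simp only [max_zero_sub_max_neg_zero_eq_self]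
    exact cfc_id' ℝ T
  have ba : b * a = 0 := by
    rw [← cfc_mul _ _ T, ← cfc_zero ℝ T]
    congr 1
    funext x
    rcases le_total x 0 with h | h <;> simp [h]
  have n : ‖2 * (a + b) - 1‖ ≤ 1 := by
    have : 2 * (a + b) - 1 = cfc (fun x : ℝ => (max x 0 + max (-x) 0) + (max x 0 + max (-x) 0) - 1)
        T := by
      rw [cfc_sub _ _ T, cfc_add T _ _, cfc_add T _ _, cfc_const_one ℝ T, two_mul]
    rw [this]
    refine norm_cfc_le zero_le_one fun x hx => ?_
    rcases subsingleton_or_nontrivial (H →L[ℂ] H) with q | q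
    · simp [spectrum.of_subsingleton] at hx
    have := abs_le.mp ((spectrum.norm_le_norm_of_mem hx).trans h1)
    rw [Real.norm_eq_abs, abs_le]
    rcases le_total x 0 with h | h <;> simp [h] <;> linarith
  let K : Submodule ℂ H := b.ker
  haveI : CompleteSpace K := b.isClosed_ker.completeSpace_coe
  have hE := isStarProjection_starProjection (U := K)
  have e1 : b * K.starProjection = 0 := by ext1 x; exact K.starProjection_apply_mem x
  have e2 : K.starProjection * a = a := by
    ext1 x; exact K.starProjection_eq_self_iff.mpr (DFunLike.congr_fun ba x)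
  have e3 : a * K.starProjection = a := by
    have := congrArg star e2
    rwa [star_mul, hE.isSelfAdjoint.star_eq, (cfc_predicate _ T : IsSelfAdjoint a).star_eq] at this
  have inv : ∀ R, Commute R T → ∀ x ∈ K, R x ∈ K := fun R h x hx => by
    have := congrArg (fun S => S x) (h.symm.cfc_real (fun x : ℝ => max (-x) 0)).eq
    exact this.trans (by simpa using congrArg R hx)
  refine ⟨_, hE, ?_, fun R h h' => comm_proj K R (inv R h) (inv _ h')⟩
  set E := K.starProjection
  have : 2 * T - (2 * E - 1) = (2 * (a + b) - 1) * (2 * E - 1) := by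
    rw [← ab]
    simp only [two_mul, sub_mul, mul_sub, add_mul, mul_add, e1, e3, mul_one, one_mul]
    abel
  rw [this]
  exact (norm_mul_le _ _).trans (mul_le_one₀ n (norm_nonneg _) (sym_norm hE))

variable {A N X Y : H →L[ℂ] H}

theorem lift_proj (hX : Function.Injective X) (hY : DenseRange Y) (h1 : X * A = N * X)
    (h2 : A * Y = Y * N)
    (red : ∀ M : Submodule ℂ H, IsClosed (M : Set H) → (∀ x ∈ M, A x ∈ M) →
      ∀ x ∈ M, star A x ∈ M)
    {E : H →L[ℂ] H} (hE : IsStarProjection E) (hc : ∀ R, Commute R N → Commute R E) :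
    ∃ P, IsStarProjection P ∧ X * P = E * X := by
  let L : (H →L[ℂ] H) → Submodule ℂ H := fun F =>
    (Submodule.span ℂ {v | ∃ T h, Commute T A ∧ v = T (Y (F h))}).topologicalClosure
  have ind : ∀ F (M : Submodule ℂ H), IsClosed (M : Set H) →
      (∀ T h, Commute T A → T (Y (F h)) ∈ M) → L F ≤ M := fun F M hM h =>
    Submodule.topologicalClosure_minimal _ (Submodule.span_le.mpr (by
      rintro _ ⟨T, v, hT, rfl⟩; exact h T v hT)) hM
  have mem : ∀ F T h, Commute T A → T (Y (F h)) ∈ L F := fun F T h hT =>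
    Submodule.le_topologicalClosure _ (Submodule.subset_span ⟨T, h, hT, rfl⟩)
  have inv : ∀ F S, Commute S A → ∀ x ∈ L F, S x ∈ L F := fun F S hS =>
    ind F ((L F).comap (S : H →ₗ[ℂ] H))
      ((Submodule.isClosed_topologicalClosure _).preimage S.continuous)
      fun T h hT => mem F (S * T) h (hS.mul_left hT)
  have cm : ∀ T, Commute T A → Commute (X * T * Y) E := fun T hT => hc _ (by
    rw [Commute, SemiconjBy, mul_assoc, ← h2, ← mul_assoc, mul_assoc X, hT.eq, ← mul_assoc, h1]
    simp only [mul_assoc])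
  have ker : ∀ F G : H →L[ℂ] H, G * F = 0 → (∀ T, Commute T A → Commute (X * T * Y) G) →
      ∀ x ∈ L F, G (X x) = 0 := fun F G h hG =>
    ind F (G * X).ker (G * X).isClosed_ker fun T v hT => by
      have := congrArg (fun S => S (F v)) (hG T hT).eq
      have h' := congrArg (fun S => S v) h
      simp only [mul_apply_eq_comp, zero_apply] at this h'
      rw [h', map_zero, map_zero, map_zero] at this
      exact this.symm
  have k1 := ker E (1 - E) (by rw [sub_mul, one_mul, hE.isIdempotentElem.eq, sub_self])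
    fun T hT => (Commute.one_right _).sub_right (cm T hT)
  have k2 := ker (1 - E) E (by rw [mul_sub, mul_one, hE.isIdempotentElem.eq, sub_self]) cm
  haveI : CompleteSpace (L E) := (Submodule.isClosed_topologicalClosure _).completeSpace_coe
  have pa : Commute A (L E).starProjection := comm_proj _ A (inv E A (Commute.refl A))
    (red _ (Submodule.isClosed_topologicalClosure _) (inv E A (Commute.refl A)))
  refine ⟨(L E).starProjection, isStarProjection_starProjection, ?_⟩
  refine ContinuousLinearMap.ext (congrFun (hY.equalizer (map_continuous _) (map_continuous _)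
    (funext fun h => ?_)))
  have a1 : (L E).starProjection (Y (E h)) = Y (E h) :=
    (L E).starProjection_eq_self_iff.mpr (mem E 1 h (Commute.one_left A))
  have a2 : (L E).starProjection (Y ((1 - E) h)) = 0 := by
    have b1 := k1 _ ((L E).starProjection_apply_mem (Y ((1 - E) h)))
    have b2 := k2 _ (mem (1 - E) _ h pa.symm)
    rw [sub_apply, b2, sub_zero] at b1
    exact hX (b1.trans (map_zero X).symm)
  have a3 := congrArg (fun S => S h) (cm 1 (Commute.one_left A)).eq
  rw [sub_apply, map_sub, map_sub, a1, sub_eq_zero] at a2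
  simp only [mul_apply_eq_comp, mul_one, Function.comp_apply] at a3 ⊢
  exact (congrArg X a2).trans a3

theorem lift_sa (hN : IsStarNormal N)
    (hp : ∀ E, IsStarProjection E → (∀ R, Commute R N → Commute R E) →
      ∃ P, IsStarProjection P ∧ X * P = E * X)
    {T : H →L[ℂ] H} (hT : IsSelfAdjoint T) (hc : ∀ R, Commute R N → Commute R T) (h1 : ‖T‖ ≤ 1) :
    ∃ S, IsSelfAdjoint S ∧ X * S = T * X := by
  let G := {T : H →L[ℂ] H // IsSelfAdjoint T ∧ (∀ R, Commute R N → Commute R T) ∧ ‖T‖ ≤ 1}
  have st : ∀ g : G, ∃ (g' : G) (V : H →L[ℂ] H), IsSelfAdjoint V ∧ ‖V‖ ≤ 1 ∧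
      X * V = (2 * g.1 - g'.1) * X := by
    rintro ⟨T, hT, hc, h1⟩
    obtain ⟨E, hE, n, c⟩ := halve T hT h1
    have c' : ∀ R, Commute R N → Commute R E := fun R h => c R (hc R h) (hc _ (by
      simpa using (hN.commute_star_right h).star_star))
    obtain ⟨P, hP, e⟩ := hp E hE c'
    have sa : ∀ {Q : H →L[ℂ] H}, IsSelfAdjoint Q → IsSelfAdjoint (2 * Q) := fun h => by
      rw [two_mul]; exact h.add h
    refine ⟨⟨2 * T - (2 * E - 1), (sa hT).sub ((sa hE.isSelfAdjoint).sub (.one _)), fun R h => ?_,
      n⟩, 2 * P - 1, (sa hP.isSelfAdjoint).sub (.one _), sym_norm hP, ?_⟩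
    · simp only [two_mul]
      exact ((hc R h).add_right (hc R h)).sub_right
        (((c' R h).add_right (c' R h)).sub_right (Commute.one_right R))
    · simp only [two_mul, sub_sub_cancel, mul_sub, sub_mul, mul_add, add_mul, e, mul_one, one_mul]
  choose s V V1 V2 V3 using st
  let g : ℕ → G := fun n => s^[n] ⟨T, hT, hc, h1⟩
  let u : ℕ → (H →L[ℂ] H) := fun n => ((1 / 2 : ℝ) ^ (n + 1)) • V (g n)
  have hs : Summable u := .of_norm_bounded summable_geometric_two fun n => by
    rw [norm_smul, Real.norm_of_nonneg (by positivity), pow_succ]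
    nlinarith [V2 (g n), pow_pos (by norm_num : (0 : ℝ) < 1 / 2) n, norm_nonneg (V (g n))]
  have e : ∀ n, X * ∑ k ∈ Finset.range n, u k = (T - ((1 / 2 : ℝ) ^ n) • (g n).1) * X := by
    intro n
    induction n with
    | zero => simp [g]
    | succ n ih =>
      have : g (n + 1) = s (g n) := Function.iterate_succ_apply' _ _ _
      rw [Finset.sum_range_succ, mul_add, ih, mul_smul_comm, V3, this, ← smul_mul_assoc, ← add_mul,
        two_mul, pow_succ]
      congr 1
      module
  refine ⟨∑' n, u n, ?_, ?_⟩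
  · rw [IsSelfAdjoint, tsum_star]
    exact tsum_congr fun n => by simp only [u, star_smul, star_trivial, (V1 _).star_eq]
  · have t1 := hs.hasSum.tendsto_sum_nat.const_mul X
    have t2 : Tendsto (fun n => ((1 / 2 : ℝ) ^ n) • (g n).1) atTop (𝓝 0) :=
      squeeze_zero_norm (fun n => by
        rw [norm_smul, Real.norm_of_nonneg (by positivity)]
        exact mul_le_of_le_one_right (by positivity) (g n).2.2.2)
        (tendsto_pow_atTop_nhds_zero_of_lt_one (by norm_num) (by norm_num))
    simp only [e] at t1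
    simpa using tendsto_nhds_unique t1 ((t2.const_sub T).mul_const X)

theorem main (hN : IsStarNormal N) (hX : Function.Injective X) (hY : DenseRange Y)
    (h1 : X * A = N * X) (h2 : A * Y = Y * N)
    (red : ∀ M : Submodule ℂ H, IsClosed (M : Set H) → (∀ x ∈ M, A x ∈ M) →
      ∀ x ∈ M, star A x ∈ M) : IsStarNormal A := by
  have key : ∀ T : H →L[ℂ] H, IsSelfAdjoint T → (∀ R, Commute R N → Commute R T) →
      ∃ S, IsSelfAdjoint S ∧ X * S = T * X := fun T hT hc => by
    have p : 0 < ‖T‖ + 1 := by positivity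
    obtain ⟨S, hS, e⟩ := lift_sa hN (fun E hE h => lift_proj hX hY h1 h2 red hE h)
      (T := (‖T‖ + 1)⁻¹ • T) ((IsSelfAdjoint.all _).smul hT) (fun R h => (hc R h).smul_right _) (by
        rw [norm_smul, Real.norm_of_nonneg (by positivity), inv_mul_le_iff₀ p]; linarith)
    exact ⟨(‖T‖ + 1) • S, (IsSelfAdjoint.all _).smul hS, by
      rw [mul_smul_comm, e, smul_mul_assoc, smul_smul, mul_inv_cancel₀ p.ne', one_smul]⟩
  have inj : ∀ B C : H →L[ℂ] H, X * B = X * C → B = C := fun B C h => by
    ext1 x; exact hX (congrArg (fun S => S x) h)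
  obtain ⟨S, hS, e1⟩ := key (N + star N) (.add_star_self N) fun R h =>
    h.add_right (hN.commute_star_right h)
  obtain ⟨S', hS', e2⟩ := key (Complex.I • (N - star N)) (by
      simp [IsSelfAdjoint, sub_eq_neg_add, add_comm]) fun R h =>
    (h.sub_right (hN.commute_star_right h)).smul_right _
  have a1 : (2 : ℂ) • A = S - Complex.I • S' := inj _ _ (by
    rw [mul_smul_comm, h1, mul_sub, mul_smul_comm, e1, e2, smul_mul_assoc, smul_smul,
      Complex.I_mul_I, add_mul, sub_mul]
    module)
  have a2 : (2 : ℂ) • (X * star A) = (2 : ℂ) • (star N * X) := by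
    have := congrArg star a1
    rw [star_smul, star_sub, star_smul, hS.star_eq, hS'.star_eq, star_ofNat] at this
    rw [← mul_smul_comm, this, mul_sub, mul_smul_comm, e1, e2, smul_mul_assoc, smul_smul,
      RCLike.star_def, Complex.conj_I, neg_mul, Complex.I_mul_I, add_mul, sub_mul]
    module
  have a3 := smul_right_injective _ (two_ne_zero (α := ℂ)) a2
  refine ⟨inj _ _ ?_⟩
  rw [← mul_assoc, a3, mul_assoc, h1, ← mul_assoc, ← mul_assoc, h1, mul_assoc N, a3, ← mul_assoc,
    hN.star_comm_self.eq]

end Pool.Agent.H86.Redu
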