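import Pool.Agent.H86.RiDefs

set_option autoImplicit false

namespace Pool.Agent.H86.Rif

open scoped InnerProductSpace Topology
open Filter

noncomputable abbrev oa : H2 →L[ℂ] H2 := mulZ1
noncomputable abbrev ob : H2 →L[ℂ] H2 := mulZ2
noncomputable def os : H2 →L[ℂ] H2 := star mulZ1
noncomputable def ot : H2 →L[ℂ] H2 := star mulZ2

theorem a_succ (f : H2) (k l : ℕ) : mulZ1 f (k + 1, l) = f (k, l) :=
  pushFun_apply _ inj1 f (k, l)

theorem a_zero (f : H2) (l : ℕ) : mulZ1 f (0, l) = 0 :=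
  pushFun_zero _ inj1 f _ (by rintro ⟨⟨x, y⟩, h⟩; simp at h)

theorem b_succ (f : H2) (k l : ℕ) : mulZ2 f (k, l + 1) = f (k, l) :=
  pushFun_apply _ inj2 f (k, l)

theorem b_zero (f : H2) (k : ℕ) : mulZ2 f (k, 0) = 0 :=
  pushFun_zero _ inj2 f _ (by rintro ⟨⟨x, y⟩, h⟩; simp at h)

theorem push_single (σ : ℕ × ℕ → ℕ × ℕ) (hσ : Function.Injective σ) (i : ℕ × ℕ) :
    push σ hσ (lp.single 2 i (1 : ℂ)) = lp.single 2 (σ i) (1 : ℂ) := by
  ext j
  change pushFun σ hσ _ j = _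
  by_cases hj : j ∈ Set.range σ
  · obtain ⟨i', rfl⟩ := hj
    rw [pushFun_apply]
    by_cases h : i' = i
    · subst h; simp
    · have : σ i' ≠ σ i := fun h' => h (hσ h')
      simp [lp.single_apply, h, this]
  · rw [pushFun_zero σ hσ _ j hj]
    have : j ≠ σ i := fun h => hj ⟨i, h.symm⟩
    simp [lp.single_apply, this]

theorem star_push_apply (σ : ℕ × ℕ → ℕ × ℕ) (hσ : Function.Injective σ) (g : H2) (i : ℕ × ℕ) :
    (star (push σ hσ)) g i = g (σ i) := by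
  have h1 := lp.inner_single_left (𝕜 := ℂ) i (1 : ℂ) ((star (push σ hσ)) g)
  rw [ContinuousLinearMap.star_eq_adjoint, ContinuousLinearMap.adjoint_inner_right, push_single,
    lp.inner_single_left] at h1
  rw [ContinuousLinearMap.star_eq_adjoint]
  simpa using h1.symm

theorem s_app (f : H2) (k l : ℕ) : os f (k, l) = f (k + 1, l) :=
  star_push_apply _ inj1 f (k, l)

theorem t_app (f : H2) (k l : ℕ) : ot f (k, l) = f (k, l + 1) :=
  star_push_apply _ inj2 f (k, l)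

theorem norm_a (f : H2) : ‖mulZ1 f‖ ≤ ‖f‖ := (pushFun_norm _ inj1 f).trans_eq (one_mul _)
theorem norm_b (f : H2) : ‖mulZ2 f‖ ≤ ‖f‖ := (pushFun_norm _ inj2 f).trans_eq (one_mul _)

theorem hs_congr {ι : Type} {f g : ι → ℂ} {a : ℂ} (h : HasSum f a) (hfg : ∀ i, g i = f i) :
    HasSum g a := by rwa [show g = f from funext hfg]

theorem opnorm_a : ‖mulZ1‖ ≤ 1 :=
  ContinuousLinearMap.opNorm_le_bound _ zero_le_one (by simpa using norm_a)
theorem opnorm_b : ‖mulZ2‖ ≤ 1 :=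
  ContinuousLinearMap.opNorm_le_bound _ zero_le_one (by simpa using norm_b)
theorem opnorm_s : ‖os‖ ≤ 1 := by
  rw [os, ContinuousLinearMap.star_eq_adjoint, LinearIsometryEquiv.norm_map]; exact opnorm_a

theorem inner_a (f g : H2) : ⟪f, mulZ1 g⟫_ℂ = ⟪os f, g⟫_ℂ := by
  rw [os, ContinuousLinearMap.star_eq_adjoint, ContinuousLinearMap.adjoint_inner_left]

theorem inner_b (f g : H2) : ⟪f, mulZ2 g⟫_ℂ = ⟪ot f, g⟫_ℂ := by
  rw [ot, ContinuousLinearMap.star_eq_adjoint, ContinuousLinearMap.adjoint_inner_left]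

theorem coeff_le (f : H2) (i : ℕ × ℕ) : ‖f i‖ ≤ ‖f‖ := lp.norm_apply_le_norm (by simp) f i

theorem summable_norm_ev (f : H2) {z w : ℂ} (hz : ‖z‖ < 1) (hw : ‖w‖ < 1) :
    Summable fun kl : ℕ × ℕ => ‖f kl * z ^ kl.1 * w ^ kl.2‖ := by
  have h1 : Summable fun k : ℕ => ‖z‖ ^ k := summable_geometric_of_lt_one (norm_nonneg _) hz
  have h2 : Summable fun k : ℕ => ‖w‖ ^ k := summable_geometric_of_lt_one (norm_nonneg _) hw
  have h3 := (h1.mul_of_nonneg h2 (fun _ => by positivity) (fun _ => by positivity)).mul_left ‖f‖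
  refine Summable.of_nonneg_of_le (fun _ => norm_nonneg _) (fun kl => ?_) h3
  rw [norm_mul, norm_mul, norm_pow, norm_pow, mul_assoc]
  exact mul_le_mul_of_nonneg_right (coeff_le f kl) (by positivity)

theorem hasSum_ev (f : H2) {z w : ℂ} (hz : ‖z‖ < 1) (hw : ‖w‖ < 1) :
    HasSum (fun kl : ℕ × ℕ => f kl * z ^ kl.1 * w ^ kl.2) (ev f z w) :=
  (summable_norm_ev f hz hw).of_norm.hasSum

theorem ev_add (f g : H2) {z w : ℂ} (hz : ‖z‖ < 1) (hw : ‖w‖ < 1) :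
    ev (f + g) z w = ev f z w + ev g z w := by
  refine (hasSum_ev _ hz hw).unique ?_
  refine hs_congr ((hasSum_ev f hz hw).add (hasSum_ev g hz hw)) fun kl => ?_
  simp; ring

theorem ev_smul (c : ℂ) (f : H2) {z w : ℂ} (hz : ‖z‖ < 1) (hw : ‖w‖ < 1) :
    ev (c • f) z w = c * ev f z w := by
  refine (hasSum_ev _ hz hw).unique ?_
  refine hs_congr ((hasSum_ev f hz hw).mul_left c) fun kl => ?_
  simp; ring

theorem ev_sub (f g : H2) {z w : ℂ} (hz : ‖z‖ < 1) (hw : ‖w‖ < 1) :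
    ev (f - g) z w = ev f z w - ev g z w := by
  refine (hasSum_ev _ hz hw).unique ?_
  refine hs_congr ((hasSum_ev f hz hw).sub (hasSum_ev g hz hw)) fun kl => ?_
  simp; ring

theorem ev_a (f : H2) {z w : ℂ} (hz : ‖z‖ < 1) (hw : ‖w‖ < 1) :
    ev (mulZ1 f) z w = z * ev f z w := by
  have h := hasSum_ev (mulZ1 f) hz hw
  rw [← inj1.hasSum_iff] at h
  · refine h.unique ?_
    refine hs_congr ((hasSum_ev f hz hw).mul_left z) ?_
    rintro ⟨k, l⟩
    simp only [Function.comp, a_succ]; ring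
  · rintro ⟨k, l⟩ hx
    rcases k with _ | k
    · simp [a_zero]
    · exact absurd ⟨(k, l), rfl⟩ hx

theorem ev_b (f : H2) {z w : ℂ} (hz : ‖z‖ < 1) (hw : ‖w‖ < 1) :
    ev (mulZ2 f) z w = w * ev f z w := by
  have h := hasSum_ev (mulZ2 f) hz hw
  rw [← inj2.hasSum_iff] at h
  · refine h.unique ?_
    refine hs_congr ((hasSum_ev f hz hw).mul_left w) ?_
    rintro ⟨k, l⟩
    simp only [Function.comp, b_succ]; ring
  · rintro ⟨k, l⟩ hx
    rcases l with _ | l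
    · simp [b_zero]
    · exact absurd ⟨(k, l), rfl⟩ hx

theorem summable_one (c : ℕ → ℂ) (C : ℝ) (hc : ∀ k, ‖c k‖ ≤ C) {z : ℂ} (hz : ‖z‖ < 1) :
    Summable fun k => ‖c k * z ^ k‖ := by
  have h1 : Summable fun k : ℕ => ‖z‖ ^ k := summable_geometric_of_lt_one (norm_nonneg _) hz
  refine Summable.of_nonneg_of_le (fun _ => norm_nonneg _) (fun k => ?_) (h1.mul_left C)
  rw [norm_mul, norm_pow]
  exact mul_le_mul_of_nonneg_right (hc k) (by positivity)

theorem tsum_one_le (c : ℕ → ℂ) (C : ℝ) (hc : ∀ k, ‖c k‖ ≤ C) {z : ℂ} (hz : ‖z‖ < 1) :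
    ‖∑' k, c k * z ^ k‖ ≤ C * (1 - ‖z‖)⁻¹ := by
  refine tsum_of_norm_bounded ((hasSum_geometric_of_lt_one (norm_nonneg _) hz).mul_left C) ?_
  intro k
  rw [norm_mul, norm_pow]
  exact mul_le_mul_of_nonneg_right (hc k) (by positivity)

theorem tsum_one_split (c : ℕ → ℂ) (C : ℝ) (hc : ∀ k, ‖c k‖ ≤ C) {z : ℂ} (hz : ‖z‖ < 1) :
    ∑' k, c k * z ^ k = c 0 + z * ∑' k, c (k + 1) * z ^ k := by
  rw [(summable_one c C hc hz).of_norm.tsum_eq_zero_add, ← tsum_mul_left]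
  simp only [pow_zero, mul_one]
  congr 1
  refine tsum_congr fun k => ?_
  ring

theorem one_zero (c : ℕ → ℂ) (C : ℝ) (hc : ∀ k, ‖c k‖ ≤ C)
    (h : ∀ z : ℂ, z ≠ 0 → ‖z‖ < 1 → ∑' k, c k * z ^ k = 0) : c 0 = 0 := by
  have hC : 0 ≤ C := (norm_nonneg _).trans (hc 0)
  rw [← norm_le_zero_iff]
  refine le_of_forall_pos_le_add fun ε hε => ?_
  set r : ℝ := min (1 / 2) (ε / (2 * C + 1)) with hr
  have hr0 : 0 < r := lt_min (by norm_num) (by positivity)
  have hr1 : r ≤ 1 / 2 := min_le_left _ _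
  have hr2 : r ≤ ε / (2 * C + 1) := min_le_right _ _
  have hn : ‖(r : ℂ)‖ = r := by simp [abs_of_pos hr0]
  have hz : ‖(r : ℂ)‖ < 1 := by rw [hn]; linarith
  have h1 := h r (by exact_mod_cast hr0.ne') hz
  rw [tsum_one_split c C hc hz] at h1
  have h2 := tsum_one_le (fun k => c (k + 1)) C (fun k => hc _) hz
  have h3 : c 0 = -((r : ℂ) * ∑' k, c (k + 1) * (r : ℂ) ^ k) := by linear_combination h1
  rw [h3, norm_neg, norm_mul, hn]
  rw [hn] at h2
  have h4 : (1 - r)⁻¹ ≤ 2 := by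
    rw [inv_le_comm₀ (by linarith) (by norm_num)]; linarith
  have h5 : r * (2 * C + 1) ≤ ε := by rwa [le_div_iff₀ (by positivity)] at hr2
  have h6 : C * (1 - r)⁻¹ ≤ C * 2 := mul_le_mul_of_nonneg_left h4 hC
  nlinarith [mul_le_mul_of_nonneg_left (h2.trans h6) hr0.le]

theorem one_all (C : ℝ) (k : ℕ) : ∀ (c : ℕ → ℂ), (∀ k, ‖c k‖ ≤ C) →
    (∀ z : ℂ, z ≠ 0 → ‖z‖ < 1 → ∑' k, c k * z ^ k = 0) → c k = 0 := by
  induction k with
  | zero => exact fun c hc h => one_zero c C hc h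
  | succ k ih =>
    intro c hc h
    refine ih (fun k => c (k + 1)) (fun k => hc _) fun z hz0 hz => ?_
    have h1 := h z hz0 hz
    rw [tsum_one_split c C hc hz, one_zero c C hc h, zero_add] at h1
    exact (mul_eq_zero.1 h1).resolve_left hz0

theorem ev_inj (f : H2) (h : ∀ z w : ℂ, ‖z‖ < 1 → ‖w‖ < 1 → ev f z w = 0) : f = 0 := by
  ext ⟨k, l⟩
  refine one_all ‖f‖ l (fun l => f (k, l)) (fun l => coeff_le f _) fun w _ hw => ?_
  refine one_all (‖f‖ * (1 - ‖w‖)⁻¹) k (fun k => ∑' l, f (k, l) * w ^ l)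
    (fun k => tsum_one_le (fun l => f (k, l)) _ (fun l => coeff_le f _) hw) fun z _ hz => ?_
  rw [← h z w hz hw, ev, (summable_norm_ev f hz hw).of_norm.tsum_prod]
  refine tsum_congr fun k => ?_
  rw [← tsum_mul_right]
  refine tsum_congr fun l => ?_
  ring

end Pool.Agent.H86.Rif
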