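import Pool.Agent.H86.RiA

set_option autoImplicit false

namespace Pool.Agent.H86.Rif

open scoped InnerProductSpace Topology
open Filter

theorem sa (f : H2) : os (mulZ1 f) = f := by ext ⟨k, l⟩; rw [s_app, a_succ]
theorem tb (f : H2) : ot (mulZ2 f) = f := by ext ⟨k, l⟩; rw [t_app, b_succ]
theorem ab (f : H2) : mulZ1 (mulZ2 f) = mulZ2 (mulZ1 f) := by
  ext ⟨k, l⟩
  rcases k with _ | k <;> rcases l with _ | l <;> simp only [a_succ, a_zero, b_succ, b_zero]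
theorem sb (f : H2) : os (mulZ2 f) = mulZ2 (os f) := by
  ext ⟨k, l⟩
  rcases l with _ | l <;> simp only [s_app, b_succ, b_zero]
theorem ta (f : H2) : ot (mulZ1 f) = mulZ1 (ot f) := by
  ext ⟨k, l⟩
  rcases k with _ | k <;> simp only [t_app, a_succ, a_zero]
theorem st (f : H2) : os (ot f) = ot (os f) := by
  ext ⟨k, l⟩
  simp only [t_app, s_app]

noncomputable def oE : H2 →L[ℂ] H2 := (1 / 6 : ℂ) • (mulZ2 * (1 + mulZ1 + mulZ1 * mulZ1))
noncomputable def oP : H2 →L[ℂ] H2 := 1 - oE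
noncomputable def oQ : H2 →L[ℂ] H2 :=
  mulZ2 * (mulZ1 * mulZ1) - (1 / 6 : ℂ) • (1 + mulZ1 + mulZ1 * mulZ1)
noncomputable def oPs : H2 →L[ℂ] H2 := 1 - (1 / 6 : ℂ) • (ot * (1 + os + os * os))
noncomputable def oQs : H2 →L[ℂ] H2 := ot * (os * os) - (1 / 6 : ℂ) • (1 + os + os * os)
noncomputable def oM : H2 →L[ℂ] H2 := 1 - (1 / 6 : ℂ) • mulZ2

theorem P_app (f : H2) :
    oP f = f - (1 / 6 : ℂ) • mulZ2 (f + mulZ1 f + mulZ1 (mulZ1 f)) := rfl
theorem Q_app (f : H2) :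
    oQ f = mulZ2 (mulZ1 (mulZ1 f)) - (1 / 6 : ℂ) • (f + mulZ1 f + mulZ1 (mulZ1 f)) := rfl
theorem Ps_app (f : H2) : oPs f = f - (1 / 6 : ℂ) • ot (f + os f + os (os f)) := rfl
theorem Qs_app (f : H2) :
    oQs f = ot (os (os f)) - (1 / 6 : ℂ) • (f + os f + os (os f)) := rfl
theorem M_app (f : H2) : oM f = f - (1 / 6 : ℂ) • mulZ2 f := rfl

theorem norm_E : ‖oE‖ ≤ 1 / 2 := by
  refine ContinuousLinearMap.opNorm_le_bound _ (by norm_num) fun f => ?_
  change ‖(1 / 6 : ℂ) • mulZ2 (f + mulZ1 f + mulZ1 (mulZ1 f))‖ ≤ _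
  rw [norm_smul]
  have h1 := norm_b (f + mulZ1 f + mulZ1 (mulZ1 f))
  have h2 := norm_add₃_le (a := f) (b := mulZ1 f) (c := mulZ1 (mulZ1 f))
  have h3 := norm_a f
  have h4 := norm_a (mulZ1 f)
  have h5 : ‖(1 / 6 : ℂ)‖ = 1 / 6 := by simp
  rw [h5]; linarith

theorem norm_M : ‖(1 / 6 : ℂ) • mulZ2‖ < 1 := by
  have h5 : ‖(1 / 6 : ℂ)‖ = 1 / 6 := by simp
  rw [norm_smul, h5]
  linarith [opnorm_b]

noncomputable def oR : H2 →L[ℂ] H2 :=
  ((Units.oneSub oE (norm_E.trans_lt (by norm_num)))⁻¹ : (H2 →L[ℂ] H2)ˣ)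
noncomputable def oN : H2 →L[ℂ] H2 :=
  ((Units.oneSub ((1 / 6 : ℂ) • mulZ2) norm_M)⁻¹ : (H2 →L[ℂ] H2)ˣ)

theorem PR (f : H2) : oP (oR f) = f := by
  have := (Units.oneSub oE (norm_E.trans_lt (by norm_num))).mul_inv
  exact congrArg (fun A : H2 →L[ℂ] H2 => A f) this
theorem RP (f : H2) : oR (oP f) = f := by
  have := (Units.oneSub oE (norm_E.trans_lt (by norm_num))).inv_mul
  exact congrArg (fun A : H2 →L[ℂ] H2 => A f) this
theorem MN (f : H2) : oM (oN f) = f := by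
  have := (Units.oneSub ((1 / 6 : ℂ) • mulZ2) norm_M).mul_inv
  exact congrArg (fun A : H2 →L[ℂ] H2 => A f) this
theorem NM (f : H2) : oN (oM f) = f := by
  have := (Units.oneSub ((1 / 6 : ℂ) • mulZ2) norm_M).inv_mul
  exact congrArg (fun A : H2 →L[ℂ] H2 => A f) this

theorem P_inj {f g : H2} (h : oP f = oP g) : f = g := by rw [← RP f, h, RP]

theorem Pa (f : H2) : oP (mulZ1 f) = mulZ1 (oP f) := by
  simp only [P_app, map_add, map_sub, map_smul, ab]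
theorem Pb (f : H2) : oP (mulZ2 f) = mulZ2 (oP f) := by
  simp only [P_app, map_add, map_sub, map_smul, ab]
theorem Qa (f : H2) : oQ (mulZ1 f) = mulZ1 (oQ f) := by
  simp only [Q_app, map_add, map_sub, map_smul, ab]
theorem Qb (f : H2) : oQ (mulZ2 f) = mulZ2 (oQ f) := by
  simp only [Q_app, map_add, map_sub, map_smul, ab]
theorem PQ (f : H2) : oP (oQ f) = oQ (oP f) := by
  simp only [P_app, Q_app, map_add, map_sub, map_smul, ab]; module
theorem Ra (f : H2) : oR (mulZ1 f) = mulZ1 (oR f) := P_inj (by rw [PR, Pa, PR])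
theorem Rb (f : H2) : oR (mulZ2 f) = mulZ2 (oR f) := P_inj (by rw [PR, Pb, PR])
theorem RQ (f : H2) : oR (oQ f) = oQ (oR f) := P_inj (by rw [PR, PQ, PR])
theorem sM (f : H2) : os (oM f) = oM (os f) := by
  simp only [M_app, map_sub, map_smul, sb]
theorem sN (f : H2) : os (oN f) = oN (os f) := by
  rw [← NM (os (oN f)), ← sM, MN]
theorem Qs_s (f : H2) : oQs (os f) = os (oQs f) := by
  simp only [Qs_app, map_add, map_sub, map_smul, st]
theorem Qs_t (f : H2) : oQs (ot f) = ot (oQs f) := by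
  simp only [Qs_app, map_add, map_sub, map_smul, st]
theorem Ps_s (f : H2) : oPs (os f) = os (oPs f) := by
  simp only [Ps_app, map_add, map_sub, map_smul, st]
theorem Qs_b (f : H2) : oQs (mulZ2 f) = os (os (oP f)) := by
  simp only [Qs_app, P_app, map_add, map_sub, map_smul, st, sa, sb, tb, ab, ta]; module
theorem Qs_aa (f : H2) : oQs (mulZ1 (mulZ1 f)) = ot (oP f) := by
  simp only [Qs_app, P_app, map_add, map_sub, map_smul, st, sa, sb, tb, ab, ta]; module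
theorem QsQ (f : H2) : oQs (oQ f) = oPs (oP f) := by
  simp only [Qs_app, P_app, Q_app, Ps_app, map_add, map_sub, map_smul, st, sa, sb, tb, ab, ta]
  module

theorem c6 : (starRingEnd ℂ) (1 / 6 : ℂ) = 1 / 6 := by rw [map_div₀, map_one, map_ofNat]

theorem inner_Q (x y : H2) : ⟪x, oQ y⟫_ℂ = ⟪oQs x, y⟫_ℂ := by
  simp only [Qs_app, Q_app, inner_sub_left, inner_sub_right, inner_add_left, inner_add_right,
    inner_smul_left, inner_smul_right, inner_a, inner_b, st, c6]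
theorem inner_P (x y : H2) : ⟪x, oP y⟫_ℂ = ⟪oPs x, y⟫_ℂ := by
  simp only [Ps_app, P_app, map_add, inner_sub_left, inner_sub_right, inner_add_left,
    inner_add_right, inner_smul_left, inner_smul_right, inner_a, inner_b, st, c6]

theorem inner_QQ (x y : H2) : ⟪oQ x, oQ y⟫_ℂ = ⟪oP x, oP y⟫_ℂ := by
  rw [inner_Q, QsQ, inner_P]

/-- The counterexample. -/
noncomputable def th (z w : ℂ) : ℂ :=
  (6 * z ^ 2 * w - (1 + z + z ^ 2)) / (6 - w * (1 + z + z ^ 2))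

theorem den_ne {z w : ℂ} (hz : ‖z‖ ≤ 1) (hw : ‖w‖ ≤ 1) : 6 - w * (1 + z + z ^ 2) ≠ 0 := by
  intro h
  have h1 : w * (1 + z + z ^ 2) = 6 := by linear_combination -h
  have h2 := congrArg norm h1
  have h3 := norm_add₃_le (a := (1 : ℂ)) (b := z) (c := z ^ 2)
  rw [norm_pow, norm_one] at h3
  have h4 : ‖z‖ ^ 2 ≤ 1 := pow_le_one₀ (norm_nonneg _) hz
  rw [norm_mul] at h2
  have h5 : ‖(6 : ℂ)‖ = 6 := by simp
  nlinarith [norm_nonneg w, norm_nonneg (1 + z + z ^ 2)]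

theorem ev_P (f : H2) {z w : ℂ} (hz : ‖z‖ < 1) (hw : ‖w‖ < 1) :
    6 * ev (oP f) z w = (6 - w * (1 + z + z ^ 2)) * ev f z w := by
  simp only [P_app, ev_sub _ _ hz hw, ev_smul _ _ hz hw, ev_b _ hz hw, ev_add _ _ hz hw,
    ev_a _ hz hw]
  ring

theorem ev_Q (f : H2) {z w : ℂ} (hz : ‖z‖ < 1) (hw : ‖w‖ < 1) :
    6 * ev (oQ f) z w = (6 * z ^ 2 * w - (1 + z + z ^ 2)) * ev f z w := by
  simp only [Q_app, ev_sub _ _ hz hw, ev_smul _ _ hz hw, ev_b _ hz hw, ev_add _ _ hz hw,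
    ev_a _ hz hw]
  ring

theorem mem_thetaH (g : H2) : g ∈ thetaH th ↔ ∃ u, oQ u = g := by
  constructor
  · rintro ⟨f, hf⟩
    refine ⟨oR f, ?_⟩
    rw [← RQ]
    apply P_inj
    rw [PR, ← sub_eq_zero]
    refine ev_inj _ fun z w hz hw => ?_
    have h1 := ev_P g hz hw
    have h2 := ev_Q f hz hw
    have h3 := den_ne hz.le hw.le
    rw [hf z w hz hw, th, ← mul_assoc, mul_div_cancel₀ _ h3] at h1
    rw [ev_sub _ _ hz hw]
    linear_combination (h2 - h1) / 6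
  · rintro ⟨u, rfl⟩
    refine ⟨oP u, fun z w hz hw => ?_⟩
    have h1 := ev_P u hz hw
    have h2 := ev_Q u hz hw
    have h3 := den_ne hz.le hw.le
    rw [th, div_mul_eq_mul_div, eq_div_iff h3]
    linear_combination (6 - w * (1 + z + z ^ 2)) * h2 / 6 -
      (6 * z ^ 2 * w - (1 + z + z ^ 2)) * h1 / 6

theorem inner_K {h : H2} (hh : oQs h = 0) (u : H2) : ⟪h, oQ u⟫_ℂ = 0 := by
  rw [inner_Q, hh, inner_zero_left]

theorem inner_K' {h : H2} (hh : oQs h = 0) (u : H2) : ⟪oQ u, h⟫_ℂ = 0 := by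
  rw [inner_eq_zero_symm]; exact inner_K hh u

theorem mem_K (h : H2) : h ∈ modelK th ↔ oQs h = 0 := by
  constructor
  · intro hh
    have := hh (oQ (oQs h)) ((mem_thetaH _).2 ⟨_, rfl⟩)
    rw [inner_eq_zero_symm, inner_Q] at this
    exact inner_self_eq_zero.1 this
  · intro hh g hg
    obtain ⟨u, rfl⟩ := (mem_thetaH _).1 hg
    exact inner_K' hh u

end Pool.Agent.H86.Rif
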