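import Pool.Agent.H86.RiB

set_option autoImplicit false

namespace Pool.Agent.H86.Rif

open scoped InnerProductSpace Topology
open Filter

noncomputable def SS : Submodule ℂ H2 := (oQs.comp mulZ2).ker

theorem mem_SS (f : H2) : f ∈ SS ↔ oQs (mulZ2 f) = 0 := Iff.rfl

theorem closed_SS : IsClosed (SS : Set H2) := (oQs.comp mulZ2).isClosed_ker

theorem K_of_b {f : H2} (h : oQs (mulZ2 f) = 0) : oQs f = 0 := by
  rw [← tb f, Qs_t, h, map_zero]

theorem SS_b {f : H2} (h : f ∈ SS) : mulZ2 f ∈ SS := by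
  rw [mem_SS, Qs_b] at h ⊢
  rw [Pb, sb, sb, h, map_zero]

theorem SS_s {f : H2} (h : f ∈ SS) : os f ∈ SS := by
  rw [mem_SS] at h ⊢
  rw [← sb, Qs_s, h, map_zero]

theorem SS_sQR {y : H2} (hy : os y = 0) : os (oQ (oR y)) ∈ SS := by
  rw [mem_SS, ← sb, Qs_s, ← Qb, QsQ, ← Rb, PR, ← Ps_s, sb, hy, map_zero, map_zero]

theorem exists_agler : ∃ S₁ S₂ : Submodule ℂ H2, IsAgler th S₁ S₂ := by
  haveI : CompleteSpace SS := closed_SS.completeSpace_coe
  refine ⟨oQs.ker ⊓ SSᗮ, SS, ?_, closed_SS, ?_, ?_, ?_, fun f hf => SS_b hf⟩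
  · exact oQs.isClosed_ker.inter SS.isClosed_orthogonal
  · exact (Submodule.isOrtho_orthogonal_left SS).mono_left inf_le_right
  · ext h
    rw [mem_K, SetLike.mem_coe, Submodule.mem_sup]
    constructor
    · rintro ⟨y, hy, z, hz, rfl⟩
      have h1 : oQs y = 0 := hy.1
      rw [map_add, h1, K_of_b hz, add_zero]
    · intro hh
      have h1 := SS.starProjection_apply_mem h
      refine ⟨h - SS.starProjection h, ⟨?_, SS.sub_starProjection_mem_orthogonal h⟩, _, h1, by simp⟩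
      change oQs _ = 0
      rw [map_sub, hh, K_of_b h1, sub_zero]
  · rintro g ⟨hg1, hg2⟩
    have hg1' : oQs g = 0 := hg1
    have hg2' : ∀ u ∈ SS, ⟪u, g⟫_ℂ = 0 := hg2
    refine ⟨?_, ?_⟩
    · change oQs (mulZ1 g) = 0
      have key : ∀ u, ⟪oQ u, mulZ1 g⟫_ℂ = 0 := by
        intro u
        have hy : os (oP u - mulZ1 (os (oP u))) = 0 := by rw [map_sub, sa, sub_self]
        have h1 : oQ u = mulZ1 (oQ (oR (os (oP u)))) + oQ (oR (oP u - mulZ1 (os (oP u)))) := by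
          rw [map_sub, map_sub, RP, Ra, Qa]; abel
        rw [inner_a, h1, map_add, sa, inner_add_left, inner_K' hg1', hg2' _ (SS_sQR hy), add_zero]
      have := key (oQs (mulZ1 g))
      rw [inner_eq_zero_symm, inner_Q] at this
      exact inner_self_eq_zero.1 this
    · intro u hu
      rw [inner_a]
      exact hg2' _ (SS_s hu)

noncomputable def oD : H2 →L[ℂ] H2 := 1 + mulZ1 + os
noncomputable def oL : H2 →L[ℂ] H2 :=
  mulZ2 * mulZ1 - (1 / 6 : ℂ) • mulZ1 - mulZ2 * oM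

theorem D_app (f : H2) : oD f = f + mulZ1 f + os f := rfl
theorem L_app (f : H2) :
    oL f = mulZ2 (mulZ1 f) - (1 / 6 : ℂ) • mulZ1 f - mulZ2 (oM f) := rfl

theorem inner_s (f g : H2) : ⟪f, os g⟫_ℂ = ⟪mulZ1 f, g⟫_ℂ := by
  rw [← inner_conj_symm, ← inner_a, inner_conj_symm]

theorem inner_D (f g : H2) : ⟪f, oD g⟫_ℂ = ⟪oD f, g⟫_ℂ := by
  simp only [D_app, inner_add_left, inner_add_right, inner_a, inner_s]; ring

theorem PL (f : H2) : oP (oL f) = oL (oP f) := by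
  simp only [P_app, L_app, M_app, map_add, map_sub, map_smul, ab]; module

theorem RL (f : H2) : oR (oL f) = oL (oR f) := P_inj (by rw [PR, PL, PR])

theorem DL (f : H2) : oD (oL f) = oQ f - mulZ2 (os (oP f)) := by
  simp only [D_app, P_app, Q_app, L_app, M_app, map_add, map_sub, map_smul, ab, sa, sb]; module

theorem DRL {c : H2} (hc : os c = 0) : oD (oR (oL c)) = oQ (oR c) := by
  rw [RL, DL, PR, hc, map_zero, sub_zero]

theorem RL_mem {c : H2} (hc : os c = 0) : oR (oL c) ∈ SS := by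
  rw [mem_SS, Qs_b, PR]
  simp only [L_app, M_app, map_sub, map_smul, sa, sb, hc, map_zero, smul_zero, sub_zero]

theorem form_eq (f : H2) : (⟪f, oD f⟫_ℂ).re = ‖f‖ ^ 2 + 2 * (⟪f, mulZ1 f⟫_ℂ).re := by
  have h1 : (⟪f, os f⟫_ℂ).re = (⟪f, mulZ1 f⟫_ℂ).re := by
    rw [inner_s, ← inner_conj_symm, Complex.conj_re]
  have h2 : (⟪f, f⟫_ℂ).re = ‖f‖ ^ 2 := inner_self_eq_norm_sq (𝕜 := ℂ) f
  rw [D_app, inner_add_right, inner_add_right, Complex.add_re, Complex.add_re, h1, h2]; ring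

theorem form_R {γ : H2} (hγ : os γ = 0) : 0 ≤ (⟪oR γ, oD (oR γ)⟫_ℂ).re := by
  set h := oR γ with hh
  have h1 : os h = os (oE h) := by
    have : h = γ + oE h := by
      have h2 : oP h = h - oE h := rfl
      rw [← PR γ, ← hh, h2]; abel
    conv_lhs => rw [this]
    rw [map_add, hγ, zero_add]
  have h2 : ‖os h‖ ≤ 1 / 2 * ‖h‖ := by
    rw [h1]
    have h3 := os.le_opNorm (oE h)
    have h4 := oE.le_opNorm h
    have h5 := mul_le_mul_of_nonneg_right opnorm_s (norm_nonneg (oE h))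
    have h6 := mul_le_mul_of_nonneg_right norm_E (norm_nonneg h)
    linarith
  rw [form_eq, inner_a]
  have h3 := Complex.abs_re_le_norm ⟪os h, h⟫_ℂ
  have h4 := norm_inner_le_norm (𝕜 := ℂ) (os h) h
  have h5 := neg_abs_le (⟪os h, h⟫_ℂ).re
  nlinarith [norm_nonneg h]

theorem form_nonneg {g : H2} (hg : g ∈ SS) : 0 ≤ (⟪g, oD g⟫_ℂ).re := by
  have hu : os (os (oP g)) = 0 := by rw [← Qs_b]; exact hg
  set u := oP g with hudef
  set c := oN (u - mulZ1 (os u)) with hc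
  have hsc : os c = 0 := by rw [hc, sN, map_sub, sa, sub_self, map_zero]
  have hMc : oM c = u - mulZ1 (os u) := MN _
  set γ := mulZ2 (os u) + mulZ2 c - (1 / 6 : ℂ) • c with hγ
  have hsγ : os γ = 0 := by
    simp only [hγ, map_add, map_sub, map_smul, sb, hu, hsc, map_zero, smul_zero, add_zero,
      sub_zero]
  have h1 : mulZ2 g + oR (oL c) = mulZ1 (oR γ) := by
    apply P_inj
    rw [map_add, PR, Pb, Pa, PR, ← hudef, L_app, hMc, hγ]
    simp only [map_add, map_sub, map_smul, ab]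
    module
  have h2 : ⟪mulZ1 (oR γ), oD (mulZ1 (oR γ))⟫_ℂ = ⟪oR γ, oD (oR γ)⟫_ℂ := by
    rw [← inner_s]
    congr 1
    simp only [D_app, map_add, sa]
  have h3 : ⟪mulZ2 g, oD (mulZ2 g)⟫_ℂ = ⟪g, oD g⟫_ℂ := by
    have : oD (mulZ2 g) = mulZ2 (oD g) := by simp only [D_app, map_add, ab, sb]
    rw [this, inner_b, tb]
  have hF : oQs (oR (oL c)) = 0 := K_of_b (RL_mem hsc)
  have hbg : oQs (mulZ2 g) = 0 := hg
  have h4 : ⟪mulZ2 g + oR (oL c), oD (mulZ2 g + oR (oL c))⟫_ℂ = ⟪g, oD g⟫_ℂ := by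
    rw [map_add, inner_add_left, inner_add_right, inner_add_right, h3, inner_D (oR (oL c)) (mulZ2 g),
      DRL hsc, inner_K hbg, inner_K hF, inner_K' hbg]
    ring
  rw [← h4, h1, h2]
  exact form_R hsγ

theorem eq_zero_of {y : H2} (h1 : os (os y) = 0) (h2 : ot y = 0) (h3 : y (0, 0) = 0)
    (h4 : y (1, 0) = 0) : y = 0 := by
  ext ⟨k, l⟩
  rcases l with _ | l
  · rcases k with _ | _ | k
    · simpa using h3
    · simpa using h4
    · rw [← s_app, ← s_app, h1]; rfl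
  · rw [← t_app, h2]; rfl

theorem exists_null {S₁ S₂ : Submodule ℂ H2} (hA : IsAgler th S₁ S₂) :
    ∃ x ∈ S₂, x ≠ 0 ∧ ⟪x, oD x⟫_ℂ = 0 := by
  classical
  have hK : ∀ h : H2, h ∈ S₁ ⊔ S₂ ↔ oQs h = 0 := fun h => by
    rw [← mem_K, ← hA.sum_eq]; rfl
  have hS2 : ∀ g ∈ S₂, g ∈ SS := fun g hg =>
    (hK _).1 (Submodule.mem_sup_right (hA.inv₂ g hg))
  let e : Fin 3 → H2 := fun i => lp.single 2 (0, (i : ℕ)) (1 : ℂ)
  have he : ∀ i, os (e i) = 0 := fun i => by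
    ext ⟨k, l⟩
    rw [s_app]
    simp [e, lp.single_apply]
  have hdec : ∀ i, ∃ f ∈ S₁, ∃ g ∈ S₂, f + g = oR (oL (e i)) := fun i =>
    Submodule.mem_sup.1 ((hK _).2 (K_of_b (RL_mem (he i))))
  choose f hf g hg hfg using hdec
  let y : Fin 3 → ℂ × ℂ := fun i => (oP (f i) (0, 0), oP (f i) (1, 0))
  have hy : ¬ LinearIndependent ℂ y := fun h => by
    have := h.fintype_card_le_finrank
    simp at this
  obtain ⟨v, hv, i₀, hi₀⟩ := Fintype.not_linearIndependent_iff.1 hy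
  set c : H2 := ∑ i, v i • e i with hc
  have hsc : os c = 0 := by simp [hc, he]
  set F : H2 := ∑ i, v i • f i with hF
  set G : H2 := ∑ i, v i • g i with hG
  have hF1 : F ∈ S₁ := S₁.sum_mem fun i _ => S₁.smul_mem _ (hf i)
  have hG2 : G ∈ S₂ := S₂.sum_mem fun i _ => S₂.smul_mem _ (hg i)
  have hsum : F + G = oR (oL c) := by
    simp only [hF, hG, hc, map_sum, map_smul, ← hfg, smul_add, Finset.sum_add_distrib]
  have hFS : F ∈ SS := by
    rw [eq_sub_of_add_eq hsum]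
    exact SS.sub_mem (RL_mem hsc) (hS2 _ hG2)
  have hPF : oP F = ∑ i, v i • oP (f i) := by simp only [hF, map_sum, map_smul]
  have hF0 : F = 0 := by
    apply P_inj
    rw [map_zero]
    apply eq_zero_of
    · rw [← Qs_b]; exact hFS
    · rw [← Qs_aa]
      exact (hK _).1 (Submodule.mem_sup_left (hA.inv₁ _ (hA.inv₁ _ hF1)))
    · have := congrArg Prod.fst hv
      simp only [Fin.sum_univ_three, y] at this
      rw [hPF]
      simpa [Fin.sum_univ_three] using this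
    · have := congrArg Prod.snd hv
      simp only [Fin.sum_univ_three, y] at this
      rw [hPF]
      simpa [Fin.sum_univ_three] using this
  rw [hF0, zero_add] at hsum
  refine ⟨G, hG2, fun h0 => hi₀ ?_, ?_⟩
  · have h1 : oQ (oR c) = 0 := by rw [← DRL hsc, ← hsum, h0, map_zero]
    have h2 := inner_QQ (oR c) (oR c)
    rw [h1, PR, inner_zero_left] at h2
    have h3 : c = 0 := inner_self_eq_zero.1 h2.symm
    have h4 : c (0, (i₀ : ℕ)) = v i₀ := by
      fin_cases i₀ <;> simp [hc, e, Fin.sum_univ_three, lp.single_apply]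
    rw [← h4, h3]; rfl
  · rw [hsum, DRL hsc]
    exact inner_K (K_of_b (RL_mem hsc)) _

theorem not_open {S₁ S₂ : Submodule ℂ H2} [S₂.HasOrthogonalProjection] (hA : IsAgler th S₁ S₂) :
    ¬ IsOpen (numRange (compress S₂ mulZ1)) := by
  have hK : ∀ h : H2, h ∈ S₁ ⊔ S₂ ↔ oQs h = 0 := fun h => by
    rw [← mem_K, ← hA.sum_eq]; rfl
  have hS2 : ∀ g ∈ S₂, g ∈ SS := fun g hg =>
    (hK _).1 (Submodule.mem_sup_right (hA.inv₂ g hg))
  have hin : ∀ x : S₂, ⟪x, compress S₂ mulZ1 x⟫_ℂ = ⟪(x : H2), mulZ1 x⟫_ℂ := fun x =>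
    S₂.inner_orthogonalProjectionOnto_eq_of_mem_left x (mulZ1 x)
  have hge : ∀ c ∈ numRange (compress S₂ mulZ1), -1 / 2 ≤ c.re := by
    rintro c ⟨x, hx, rfl⟩
    have h1 := form_nonneg (hS2 _ x.2)
    have h2 : ‖(x : H2)‖ = 1 := hx
    rw [form_eq, h2] at h1
    rw [hin]; linarith
  obtain ⟨x, hx, hx0, hxD⟩ := exists_null hA
  have hn : ‖x‖ ≠ 0 := norm_ne_zero_iff.2 hx0
  let x' : S₂ := ⟨((‖x‖⁻¹ : ℝ) : ℂ) • x, S₂.smul_mem _ hx⟩
  have hx' : ‖(x' : H2)‖ = 1 := by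
    simp only [x', norm_smul]
    simp [hn]
  have hD : ⟪(x' : H2), oD x'⟫_ℂ = 0 := by
    simp only [x', map_smul, inner_smul_left, inner_smul_right, hxD, mul_zero]
  have hre : (⟪x', compress S₂ mulZ1 x'⟫_ℂ).re = -1 / 2 := by
    have h1 := form_eq (x' : H2)
    rw [hD, hx'] at h1
    rw [hin]
    simp only [Complex.zero_re] at h1
    linarith
  intro hopen
  obtain ⟨ε, hε, hb⟩ := Metric.isOpen_iff.1 hopen _ ⟨x', hx', rfl⟩
  have h1 := hge (⟪x', compress S₂ mulZ1 x'⟫_ℂ - ((ε / 2 : ℝ) : ℂ)) (hb (by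
    rw [Metric.mem_ball, dist_eq_norm, sub_sub_cancel_left, norm_neg, Complex.norm_real,
      Real.norm_eq_abs, abs_of_pos (by linarith)]
    linarith))
  rw [Complex.sub_re, hre, Complex.ofReal_re] at h1
  linarith

end Pool.Agent.H86.Rif
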