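import Pool.Agent.H86.RiC

set_option autoImplicit false

namespace Pool.Agent.H86.Rif

open scoped InnerProductSpace Topology
open Filter MvPolynomial

theorem norm_th {z w : ℂ} (hz : ‖z‖ = 1) (hw : ‖w‖ = 1) : ‖th z w‖ = 1 := by
  have hd := den_ne hz.le hw.le
  have h1 : z * (starRingEnd ℂ) z = 1 := by rw [Complex.mul_conj, Complex.normSq_eq_norm_sq, hz]; simp
  have h2 : w * (starRingEnd ℂ) w = 1 := by rw [Complex.mul_conj, Complex.normSq_eq_norm_sq, hw]; simp
  have h3 : 6 * z ^ 2 * w - (1 + z + z ^ 2) =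
      z ^ 2 * w * (starRingEnd ℂ) (6 - w * (1 + z + z ^ 2)) := by
    simp only [map_sub, map_mul, map_add, map_pow, map_one, map_ofNat]
    linear_combination (z ^ 2 * (1 + (starRingEnd ℂ) z + (starRingEnd ℂ) z ^ 2)) * h2 +
      (z + 1 + z * (starRingEnd ℂ) z) * h1
  rw [th, h3, norm_div, norm_mul, norm_mul, norm_pow, hz, hw, Complex.norm_conj]
  field_simp [norm_ne_zero_iff.2 hd]

theorem isRIF_th : IsRIF th := by
  refine ⟨⟨6 * X 0 ^ 2 * X 1 - (1 + X 0 + X 0 ^ 2), 6 - X 1 * (1 + X 0 + X 0 ^ 2), ?_⟩, ?_⟩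
  · intro z w hz hw
    have hd := den_ne hz.le hw.le
    constructor
    · simpa using hd
    · simp [th]
  · refine Eventually.of_forall fun st => ?_
    have hz : ‖Complex.exp (st.1 * Complex.I)‖ = 1 := Complex.norm_exp_ofReal_mul_I _
    have hw : ‖Complex.exp (st.2 * Complex.I)‖ = 1 := Complex.norm_exp_ofReal_mul_I _
    refine ⟨_, norm_th hz hw, ?_⟩
    have hc : ContinuousAt (fun r : ℝ => th (r * Complex.exp (st.1 * Complex.I))
        (r * Complex.exp (st.2 * Complex.I))) 1 := by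
      unfold th
      refine ContinuousAt.div (by fun_prop) (by fun_prop) ?_
      simpa using den_ne hz.le hw.le
    have := hc.tendsto.mono_left (nhdsWithin_le_nhds (s := Set.Iio 1))
    simpa using this

theorem not_splits : ¬ Splits th := by
  rintro ⟨B₁, B₂, -, -, h⟩
  have h0 : ‖(0 : ℂ)‖ < 1 := by simp
  have h1 : ‖(1 / 2 : ℂ)‖ < 1 := by simp; norm_num
  have e : th 0 0 * th (1 / 2) (1 / 2) = th 0 (1 / 2) * th (1 / 2) 0 := by
    rw [h _ _ h0 h0, h _ _ h1 h1, h _ _ h0 h1, h _ _ h1 h0]; ring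
  simp only [th] at e
  norm_num at e

end Pool.Agent.H86.Rif
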