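import Mathlib

set_option autoImplicit false

namespace Pool.Agent.H86.Rif

open scoped InnerProductSpace Topology
open MeasureTheory Filter

/-- The Hardy space of the bidisk, as square-summable coefficient families `a (k, l)`. -/
abbrev H2 : Type := lp (fun _ : ℕ × ℕ => ℂ) 2

/-- The holomorphic function `∑ a (k, l) z ^ k w ^ l` attached to an element of `H2`. -/
noncomputable def ev (f : H2) (z w : ℂ) : ℂ := ∑' kl : ℕ × ℕ, f kl * z ^ kl.1 * w ^ kl.2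

theorem push_mem (σ : ℕ × ℕ → ℕ × ℕ) (hσ : Function.Injective σ) (f : H2) :
    Memℓp (Function.extend σ (fun i => f i) 0 : ℕ × ℕ → ℂ) 2 := by
  apply memℓp_gen
  have h := (lp.hasSum_norm (p := 2) (by simp) f).summable
  rw [← hσ.summable_iff]
  · refine h.congr fun i => ?_
    simp [hσ.extend_apply]
  · intro x hx
    rw [Function.extend_apply' _ _ _ (by simpa using hx)]
    simp

/-- Moves the coefficient at position `i` to position `σ i`, with zeros elsewhere. -/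
noncomputable def pushFun (σ : ℕ × ℕ → ℕ × ℕ) (hσ : Function.Injective σ) (f : H2) : H2 :=
  ⟨Function.extend σ (fun i => f i) 0, push_mem σ hσ f⟩

theorem pushFun_apply (σ : ℕ × ℕ → ℕ × ℕ) (hσ : Function.Injective σ) (f : H2) (i : ℕ × ℕ) :
    pushFun σ hσ f (σ i) = f i := hσ.extend_apply _ _ _

theorem pushFun_zero (σ : ℕ × ℕ → ℕ × ℕ) (hσ : Function.Injective σ) (f : H2) (j : ℕ × ℕ)
    (hj : j ∉ Set.range σ) : pushFun σ hσ f j = 0 :=
  Function.extend_apply' _ _ _ (by simpa using hj)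

theorem pushFun_add (σ : ℕ × ℕ → ℕ × ℕ) (hσ : Function.Injective σ) (f g : H2) :
    pushFun σ hσ (f + g) = pushFun σ hσ f + pushFun σ hσ g := by
  ext j
  by_cases hj : j ∈ Set.range σ
  · obtain ⟨i, rfl⟩ := hj
    simp [pushFun_apply]
  · simp [pushFun_zero σ hσ _ j hj]

theorem pushFun_smul (σ : ℕ × ℕ → ℕ × ℕ) (hσ : Function.Injective σ) (c : ℂ) (f : H2) :
    pushFun σ hσ (c • f) = c • pushFun σ hσ f := by
  ext j
  by_cases hj : j ∈ Set.range σ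
  · obtain ⟨i, rfl⟩ := hj
    simp [pushFun_apply]
  · simp [pushFun_zero σ hσ _ j hj]

theorem pushFun_inner (σ : ℕ × ℕ → ℕ × ℕ) (hσ : Function.Injective σ) (f g : H2) :
    ⟪pushFun σ hσ f, pushFun σ hσ g⟫_ℂ = ⟪f, g⟫_ℂ := by
  have h1 := lp.hasSum_inner (𝕜 := ℂ) (pushFun σ hσ f) (pushFun σ hσ g)
  have h2 := lp.hasSum_inner (𝕜 := ℂ) f g
  rw [← hσ.hasSum_iff] at h1
  · refine h1.unique ?_
    convert h2 using 1
    ext i
    simp only [Function.comp, pushFun_apply]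
  · intro x hx
    simp [pushFun_zero σ hσ _ x hx]

theorem pushFun_norm (σ : ℕ × ℕ → ℕ × ℕ) (hσ : Function.Injective σ) (f : H2) :
    ‖pushFun σ hσ f‖ ≤ 1 * ‖f‖ := by
  rw [one_mul, norm_eq_sqrt_re_inner (𝕜 := ℂ), pushFun_inner, ← norm_eq_sqrt_re_inner (𝕜 := ℂ)]

/-- `pushFun` as a bounded operator. -/
noncomputable def push (σ : ℕ × ℕ → ℕ × ℕ) (hσ : Function.Injective σ) : H2 →L[ℂ] H2 :=
  LinearMap.mkContinuous
    { toFun := pushFun σ hσ
      map_add' := pushFun_add σ hσ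
      map_smul' := pushFun_smul σ hσ } 1 (pushFun_norm σ hσ)

theorem inj1 : Function.Injective (fun kl : ℕ × ℕ => (kl.1 + 1, kl.2)) := by
  rintro ⟨a, b⟩ ⟨c, d⟩ h
  simpa using h

theorem inj2 : Function.Injective (fun kl : ℕ × ℕ => (kl.1, kl.2 + 1)) := by
  rintro ⟨a, b⟩ ⟨c, d⟩ h
  simpa using h

/-- Multiplication by the first variable. -/
noncomputable def mulZ1 : H2 →L[ℂ] H2 := push (fun kl => (kl.1 + 1, kl.2)) inj1

/-- Multiplication by the second variable. -/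
noncomputable def mulZ2 : H2 →L[ℂ] H2 := push (fun kl => (kl.1, kl.2 + 1)) inj2

/-- Finite Blaschke products (as functions on the open unit disk). -/
def IsBlaschke (B : ℂ → ℂ) : Prop :=
  ∃ (n : ℕ) (a : Fin n → ℂ) (c : ℂ), ‖c‖ = 1 ∧ (∀ j, ‖a j‖ < 1) ∧
    ∀ z : ℂ, ‖z‖ < 1 → B z = c * ∏ j, (z - a j) / (1 - (starRingEnd ℂ) (a j) * z)

/-- Rational inner functions on the bidisk. -/
def IsRIF (θ : ℂ → ℂ → ℂ) : Prop :=
  (∃ P Q : MvPolynomial (Fin 2) ℂ, ∀ z w : ℂ, ‖z‖ < 1 → ‖w‖ < 1 →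
      MvPolynomial.eval ![z, w] Q ≠ 0 ∧
        θ z w = MvPolynomial.eval ![z, w] P / MvPolynomial.eval ![z, w] Q) ∧
    ∀ᵐ st : ℝ × ℝ, ∃ L : ℂ, ‖L‖ = 1 ∧
      Tendsto (fun r : ℝ => θ (r * Complex.exp (st.1 * Complex.I))
        (r * Complex.exp (st.2 * Complex.I))) (𝓝[<] 1) (𝓝 L)

/-- `θ` is a product of finite Blaschke products in the separate variables. -/
def Splits (θ : ℂ → ℂ → ℂ) : Prop :=
  ∃ B₁ B₂ : ℂ → ℂ, IsBlaschke B₁ ∧ IsBlaschke B₂ ∧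
    ∀ z w : ℂ, ‖z‖ < 1 → ‖w‖ < 1 → θ z w = B₁ z * B₂ w

/-- The set `θ H²`. -/
def thetaH (θ : ℂ → ℂ → ℂ) : Set H2 :=
  {g | ∃ f : H2, ∀ z w : ℂ, ‖z‖ < 1 → ‖w‖ < 1 → ev g z w = θ z w * ev f z w}

/-- The model space `K_θ = H² ⊖ θ H²`. -/
def modelK (θ : ℂ → ℂ → ℂ) : Set H2 := {h | ∀ g ∈ thetaH θ, ⟪g, h⟫_ℂ = 0}

section general
variable {E : Type} [NormedAddCommGroup E] [InnerProductSpace ℂ E]

/-- `K = S₁ ⊕ S₂` orthogonally, with `S₁`, `S₂` closed, `A S₁ ⊆ S₁` and `B S₂ ⊆ S₂`. -/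
structure IsInvDecomp (K : Set E) (A B : E →L[ℂ] E) (S₁ S₂ : Submodule ℂ E) : Prop where
  closed₁ : IsClosed (S₁ : Set E)
  closed₂ : IsClosed (S₂ : Set E)
  orth : S₁ ⟂ S₂
  sum_eq : ((S₁ ⊔ S₂ : Submodule ℂ E) : Set E) = K
  inv₁ : ∀ f ∈ S₁, A f ∈ S₁
  inv₂ : ∀ f ∈ S₂, B f ∈ S₂

/-- The compression `P_S A |_S`. -/
noncomputable def compress (S : Submodule ℂ E) [S.HasOrthogonalProjection]
    (A : E →L[ℂ] E) : S →L[ℂ] S :=
  S.orthogonalProjectionOnto.comp (A.comp S.subtypeL)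

/-- The numerical range. -/
def numRange (A : E →L[ℂ] E) : Set ℂ := {c | ∃ x : E, ‖x‖ = 1 ∧ c = ⟪x, A x⟫_ℂ}

theorem hasProj [CompleteSpace E] (S : Submodule ℂ E) (hS : IsClosed (S : Set E)) :
    S.HasOrthogonalProjection :=
  haveI : CompleteSpace S := hS.completeSpace_coe
  inferInstance

/-- The numerical range of the compression of `A` to the closed subspace `S`. -/
def compRange [CompleteSpace E] (S : Submodule ℂ E) (hS : IsClosed (S : Set E))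
    (A : E →L[ℂ] E) : Set ℂ :=
  haveI := hasProj S hS
  numRange (compress S A)

end general

/-- Agler decompositions of `K_θ`. -/
def IsAgler (θ : ℂ → ℂ → ℂ) (S₁ S₂ : Submodule ℂ H2) : Prop :=
  IsInvDecomp (modelK θ) mulZ1 mulZ2 S₁ S₂

/-- The numerical range `W(S¹_θ)` for the Agler decomposition `S₁, S₂`. -/
def W1 {θ : ℂ → ℂ → ℂ} {S₁ S₂ : Submodule ℂ H2} (h : IsAgler θ S₁ S₂) : Set ℂ :=
  compRange S₂ h.closed₂ mulZ1

/-- `A` acts as multiplication by `φ`. -/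
def IsMulBy (A : H2 → H2) (φ : ℂ → ℂ → ℂ) : Prop :=
  ∀ (f : H2) (z w : ℂ), ‖z‖ < 1 → ‖w‖ < 1 → ev (A f) z w = φ z w * ev f z w

end Pool.Agent.H86.Rif
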