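import Pool.Agent.H86.RoeA

set_option autoImplicit false

namespace Pool.Agent.H86.Roe

open Finset Equiv

section cheeger
variable {α : Type} [Fintype α] [DecidableEq α] {τ : Fin 20 → Perm α}

theorem coarea (h : Exp τ) (n : ℕ) : ∀ (u : α → ℝ), (∀ y, 0 ≤ u y) → #{y | u y ≠ 0} = n →
    2 * n ≤ Fintype.card α → ∑ y, u y ≤ 4 * ∑ j, ∑ y, |u (τ j y) - u y| := by
  induction n using Nat.strong_induction_on with
  | _ n ih =>
    intro u hu hn h2
    set S : Finset α := {y | u y ≠ 0} with hS
    have hmem : ∀ y, y ∈ S ↔ u y ≠ 0 := fun y => by simp [hS]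
    rcases S.eq_empty_or_nonempty with h0 | h0
    · have : ∀ y, u y = 0 := fun y => by
        by_contra h1
        have := (hmem y).mpr h1
        simp [h0] at this
      simp [this]
    obtain ⟨y0, hy0, hmin⟩ := exists_min_image S u h0
    have hμ : 0 < u y0 := lt_of_le_of_ne (hu y0) ((hmem y0).mp hy0).symm
    let u' : α → ℝ := fun y => if y ∈ S then u y - u y0 else 0
    have hu' : ∀ y, 0 ≤ u' y := fun y => by
      simp only [u']
      split_ifs with h1
      · linarith [hmin y h1]
      · exact le_rfl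
    have hlt : #{y | u' y ≠ 0} < n := by
      rw [← hn]
      refine card_lt_card ⟨fun y hy => ?_, fun h1 => ?_⟩
      · by_contra h1
        simp [u', h1] at hy
      · have := h1 hy0
        simp [u'] at this
    have h3 := ih _ hlt u' hu' rfl (by omega)
    have h4 := h S (by omega)
    have h5 : ∑ y, u y = ∑ y, u' y + u y0 * #S := by
      have : ∀ y, u y = u' y + if y ∈ S then u y0 else 0 := fun y => by
        simp only [u']
        split_ifs with h1
        · ring
        · simpa using not_not.mp ((hmem y).not.mp h1)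
      rw [sum_congr rfl fun y _ => this y, sum_add_distrib]
      congr 1
      rw [sum_ite_mem, univ_inter, sum_const, nsmul_eq_mul, mul_comm]
    have h6 : ∀ j, ∑ y, |u' (τ j y) - u' y| + u y0 * #{y ∈ S | τ j y ∉ S} ≤
        ∑ y, |u (τ j y) - u y| := fun j => by
      have : u y0 * #{y ∈ S | τ j y ∉ S} =
          ∑ y, if y ∈ ({y ∈ S | τ j y ∉ S} : Finset α) then u y0 else 0 := by
        rw [sum_ite_mem, univ_inter, sum_const, nsmul_eq_mul, mul_comm]
      rw [this, ← sum_add_distrib]
      refine sum_le_sum fun y _ => ?_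
      simp only [u', mem_filter]
      by_cases h1 : y ∈ S <;> by_cases h7 : τ j y ∈ S
      · simp [h1, h7]
      · have e := not_not.mp ((hmem _).not.mp h7)
        have := hmin y h1
        simp only [h1, h7, e, if_true, if_false, not_false_eq_true, and_self, zero_sub, abs_neg]
        rw [abs_of_nonneg (by linarith), abs_of_nonneg (hu y)]
        linarith
      · have e := not_not.mp ((hmem _).not.mp h1)
        have := hmin _ h7
        simp only [h1, h7, e, if_true, if_false, false_and, sub_zero, add_zero]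
        rw [abs_of_nonneg (by linarith), abs_of_nonneg (hu _)]
        linarith
      · simp [h1, h7]
    have h7 := sum_le_sum fun j (_ : j ∈ univ) => h6 j
    rw [sum_add_distrib, ← mul_sum] at h7
    have h8 : (#S : ℝ) ≤ 4 * ∑ j, (#{y ∈ S | τ j y ∉ S} : ℝ) := by exact_mod_cast h4
    have h9 := mul_le_mul_of_nonneg_left h8 hμ.le
    linarith

theorem poin_pos (h : Exp τ) (u : α → ℝ) (hu : ∀ y, 0 ≤ u y)
    (h2 : 2 * #{y | u y ≠ 0} ≤ Fintype.card α) :
    ∑ y, u y ^ 2 ≤ 1280 * ∑ j, ∑ y, (u (τ j y) - u y) ^ 2 := by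
  have h1 := coarea h _ (fun y => u y ^ 2) (fun y => sq_nonneg _) rfl (by simpa using h2)
  have h3 : ∀ j, ∑ y, |u (τ j y) ^ 2 - u y ^ 2| ≤
      160 * ∑ y, (u (τ j y) - u y) ^ 2 + (1 / 160) * ∑ y, u y ^ 2 := fun j => by
    have h4 : ∑ y, u (τ j y) ^ 2 = ∑ y, u y ^ 2 := Equiv.sum_comp (τ j) (fun y => u y ^ 2)
    have h5 : ∑ y, |u (τ j y) ^ 2 - u y ^ 2| ≤
        ∑ y, (160 * (u (τ j y) - u y) ^ 2 + (1 / 320) * u (τ j y) ^ 2 + (1 / 320) * u y ^ 2) := by
      refine sum_le_sum fun y _ => ?_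
      generalize u (τ j y) = a
      generalize u y = b
      rw [abs_le]
      constructor
      · nlinarith [sq_nonneg (320 * (a - b) + (a + b)), sq_nonneg (a - b)]
      · nlinarith [sq_nonneg (320 * (a - b) - (a + b)), sq_nonneg (a - b)]
    rw [sum_add_distrib, sum_add_distrib, ← mul_sum, ← mul_sum, ← mul_sum, h4] at h5
    linarith
  have h4 := sum_le_sum fun j (_ : j ∈ univ) => h3 j
  rw [sum_add_distrib, ← mul_sum, sum_const, card_univ, Fintype.card_fin, nsmul_eq_mul] at h4
  push_cast at h4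
  linarith

omit [DecidableEq α] in
theorem exists_median (f : α → ℝ) : ∃ μ : ℝ, 2 * #{y | μ < f y} ≤ Fintype.card α ∧
    2 * #{y | f y < μ} ≤ Fintype.card α := by
  rcases isEmpty_or_nonempty α with h0 | h0
  · exact ⟨0, by simp, by simp⟩
  let A : Finset α := {y | Fintype.card α ≤ 2 * #{z | f z ≤ f y}}
  have hA : A.Nonempty := by
    obtain ⟨y, -, hy⟩ := exists_max_image univ f univ_nonempty
    refine ⟨y, ?_⟩
    simp only [A, mem_filter, mem_univ, true_and]
    rw [filter_true_of_mem hy, card_univ]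
    omega
  obtain ⟨y, hy, hmin⟩ := exists_min_image A f hA
  refine ⟨f y, ?_, ?_⟩
  · have h1 := card_filter_add_card_filter_not (s := univ) (fun z => f z ≤ f y)
    simp only [A, mem_filter, mem_univ, true_and] at hy
    simp only [not_le, card_univ] at h1
    omega
  · rcases ({z | f z < f y} : Finset α).eq_empty_or_nonempty with h1 | h1
    · simp [h1]
    obtain ⟨z, hz, hmax⟩ := exists_max_image _ f h1
    simp only [mem_filter, mem_univ, true_and] at hz hmax
    have h2 : z ∉ A := fun h => absurd (hmin z h) (not_le.mpr hz)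
    simp only [A, mem_filter, mem_univ, true_and, not_le] at h2
    have h3 : #{z | f z < f y} ≤ #{w | f w ≤ f z} :=
      card_le_card fun w hw => by simpa using hmax w (by simpa using hw)
    omega

theorem poin_real (h : Exp τ) (f : α → ℝ) (hf : ∑ y, f y = 0) :
    ∑ y, f y ^ 2 ≤ 2560 * ∑ j, ∑ y, (f (τ j y) - f y) ^ 2 := by
  obtain ⟨μ, h1, h2⟩ := exists_median f
  have a1 := poin_pos h (fun y => max (f y - μ) 0) (fun y => le_max_right _ _)
    (by convert h1 using 4; simp)
  have a2 := poin_pos h (fun y => max (μ - f y) 0) (fun y => le_max_right _ _)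
    (by convert h2 using 4; simp)
  have lip : ∀ a b : ℝ, (max a 0 - max b 0) ^ 2 ≤ (a - b) ^ 2 := fun a b =>
    sq_le_sq.mpr (abs_max_sub_max_le_abs a b 0)
  have b1 : ∑ j, ∑ y, (max (f (τ j y) - μ) 0 - max (f y - μ) 0) ^ 2 ≤
      ∑ j, ∑ y, (f (τ j y) - f y) ^ 2 :=
    sum_le_sum fun j _ => sum_le_sum fun y _ => (lip _ _).trans (le_of_eq (by ring))
  have b2 : ∑ j, ∑ y, (max (μ - f (τ j y)) 0 - max (μ - f y) 0) ^ 2 ≤
      ∑ j, ∑ y, (f (τ j y) - f y) ^ 2 :=
    sum_le_sum fun j _ => sum_le_sum fun y _ => (lip _ _).trans (le_of_eq (by ring))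
  have c : ∑ y, f y ^ 2 ≤ ∑ y, (max (f y - μ) 0) ^ 2 + ∑ y, (max (μ - f y) 0) ^ 2 := by
    rw [← sum_add_distrib]
    have : ∑ y, f y ^ 2 = ∑ y, (f y ^ 2 - 2 * μ * f y) := by
      rw [sum_sub_distrib, ← mul_sum, hf]; ring
    rw [this]
    refine sum_le_sum fun y _ => ?_
    rcases le_total (f y) μ with h3 | h3
    · rw [max_eq_right (by linarith), max_eq_left (by linarith)]; nlinarith [sq_nonneg μ]
    · rw [max_eq_left (by linarith), max_eq_right (by linarith)]; nlinarith [sq_nonneg μ]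
  linarith

theorem poin_cx (h : Exp τ) (f : α → ℂ) (hf : ∑ y, f y = 0) :
    ∑ y, ‖f y‖ ^ 2 ≤ 2560 * ∑ j, ∑ y, ‖f (τ j y) - f y‖ ^ 2 := by
  have a1 := poin_real h (fun y => (f y).re) (by rw [← Complex.re_sum, hf]; rfl)
  have a2 := poin_real h (fun y => (f y).im) (by rw [← Complex.im_sum, hf]; rfl)
  have e : ∀ z : ℂ, ‖z‖ ^ 2 = z.re ^ 2 + z.im ^ 2 := fun z => by
    rw [Complex.sq_norm, Complex.normSq_apply]; ring
  simp only [e, sum_add_distrib, Complex.sub_re, Complex.sub_im]
  linarith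

theorem cut_le0 (h : Exp τ) (P : α → Prop) [DecidablePred P]
    (hP : 2 * #{x | P x} ≤ Fintype.card α) :
    #{z : α × α | ¬ (P z.1 ↔ P z.2)} ≤
      8 * Fintype.card α * ∑ j, #{x | ¬ (P x ↔ P (τ j x))} := by
  have h1 := h _ hP
  have h2 : ∑ j, #{y ∈ ({x | P x} : Finset α) | τ j y ∉ ({x | P x} : Finset α)} ≤
      ∑ j, #{x | ¬ (P x ↔ P (τ j x))} :=
    sum_le_sum fun j _ => card_le_card fun y hy => by
      simp only [mem_filter, mem_univ, true_and] at hy ⊢
      exact fun h => hy.2 (h.mp hy.1)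
  have h3 : ({z : α × α | ¬ (P z.1 ↔ P z.2)} : Finset _) ⊆
      (({x | P x} : Finset α) ×ˢ univ) ∪ (univ ×ˢ ({x | P x} : Finset α)) := fun z hz => by
    simp only [mem_filter, mem_univ, true_and, mem_union, mem_product, and_true] at hz ⊢
    by_contra h
    exact hz ⟨fun h' => absurd (Or.inl h') h, fun h' => absurd (Or.inr h') h⟩
  have h4 := (card_le_card h3).trans (card_union_le _ _)
  rw [card_product, card_product, card_univ] at h4
  have h5 := Nat.mul_le_mul_left (Fintype.card α) (h1.trans (Nat.mul_le_mul_left 4 h2))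
  nlinarith

theorem cut_le (h : Exp τ) (P : α → Prop) [DecidablePred P] :
    #{z : α × α | ¬ (P z.1 ↔ P z.2)} ≤
      8 * Fintype.card α * ∑ j, #{x | ¬ (P x ↔ P (τ j x))} := by
  by_cases hP : 2 * #{x | P x} ≤ Fintype.card α
  · exact cut_le0 h P hP
  · have h1 := card_filter_add_card_filter_not (s := univ) (fun x => P x)
    rw [card_univ] at h1
    have := cut_le0 h (fun x => ¬ P x) (by omega)
    simpa only [not_iff_not] using this

theorem const_of (h : Exp τ) (P : α → Prop) (hP : ∀ j x, P x ↔ P (τ j x)) (x x' : α) :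
    P x ↔ P x' := by
  classical
  have h1 := cut_le h P
  rw [sum_eq_zero (fun j _ => by simp [← hP j])] at h1
  simp only [mul_zero, nonpos_iff_eq_zero, card_eq_zero, filter_eq_empty_iff, not_not] at h1
  exact h1 (mem_univ (x, x'))

end cheeger

end Pool.Agent.H86.Roe
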