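import Pool.Agent.H86.RoeD

set_option autoImplicit false

namespace Pool.Agent.H86.Roe

open Finset Equiv Filter Topology

/-- a fibration with expanding fibres and few bad points -/
structure Setup (X Y : Type) [MetricSpace X] [MetricSpace Y] where
  l : X → ℕ
  π : Y → X
  fib : X → Finset Y
  good : Y → Prop
  τ : Fin 20 → Perm Y
  mem_fib : ∀ x y, y ∈ fib x ↔ π y = x
  fib_pos : ∀ x, 0 < #(fib x)
  hlev : ∀ y y', dist y y' ≤ l (π y) + l (π y') + 2
  hbad : ∀ x (s : Finset Y), (∀ y ∈ s, π y = x ∧ ¬ good y) → (l x + 1) * #s ≤ #(fib x)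
  τ_π : ∀ j y, π (τ j y) = π y
  τ_d : ∀ j y, good y → good (τ j y) → dist y (τ j y) ≤ 1
  hP : ∀ x (η : Y → ℂ), ∑ y ∈ fib x, η y = 0 →
    ∑ y ∈ fib x, ‖η y‖ ^ 2 ≤ 2560 * ∑ j, ∑ y ∈ fib x, ‖η (τ j y) - η y‖ ^ 2
  hX : ∀ M : Submonoid (Perm X), (∀ (σ : Perm X) (ρ : Perm Y), (∀ y, π (ρ y) = σ (π y)) →
      (∀ x, l (σ x) = l x) → (∀ y, good y → good (ρ y) → dist y (ρ y) ≤ 1) → σ ∈ M) →
    ∀ r : ℝ, ∃ (T : Finset (Perm X)) (n : ℕ), (∀ w ∈ T, w ∈ M) ∧
      ∀ x x', dist x x' ≤ r → (∃ w ∈ T, x' = w x) ∨ (l x < n ∧ l x' < n)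

namespace Setup

variable {X Y : Type} [MetricSpace X] [MetricSpace Y] (S : Setup X Y)

/-- normalising constant -/
noncomputable def c (x : X) : ℝ := (√(#(S.fib x) : ℝ))⁻¹

theorem c_pos (x : X) : 0 < S.c x := by
  have : (0 : ℝ) < #(S.fib x) := by exact_mod_cast S.fib_pos x
  unfold c; positivity

theorem c_sq (x : X) : #(S.fib x) * S.c x ^ 2 = 1 := by
  have : (0 : ℝ) < #(S.fib x) := by exact_mod_cast S.fib_pos x
  unfold c
  rw [inv_pow, Real.sq_sqrt this.le, mul_inv_cancel₀ this.ne']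

theorem bd : Bd S.π (fun y => (S.c (S.π y) : ℂ)) 1 := by
  refine ⟨zero_le_one, fun x s hs => ?_⟩
  rw [sum_congr rfl (g := fun _ => S.c x ^ 2) fun y hy => by simp [hs y hy], sum_const,
    nsmul_eq_mul, one_pow, ← S.c_sq x]
  gcongr
  exact fun y hy => (S.mem_fib x y).mpr (hs y hy)

/-- the isometry spreading a point over its fibre -/
noncomputable def W : H X →L[ℂ] H Y := wc S.π (fun y => (S.c (S.π y) : ℂ))

theorem W_apply (ξ : H X) (y : Y) : S.W ξ y = S.c (S.π y) * ξ (S.π y) := wc_apply S.bd ξ y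

theorem Wadj_apply (η : H Y) (x : X) :
    ContinuousLinearMap.adjoint S.W η x = ∑ y ∈ S.fib x, S.c x * η y := by
  classical
  have h : S.W (δ x) = ∑ y ∈ S.fib x, (S.c x : ℂ) • δ y := by
    refine lp.ext (funext fun y => ?_)
    rw [W_apply, lp.coeFn_sum, Finset.sum_apply]
    simp only [lp.coeFn_smul, Pi.smul_apply, δ_apply, smul_eq_mul, mul_ite, mul_one, mul_zero,
      sum_ite_eq, S.mem_fib]
    split_ifs with h
    · rw [h]
    · rfl
  rw [← inner_δ x, ContinuousLinearMap.adjoint_inner_right, h, sum_inner]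
  refine sum_congr rfl fun y _ => ?_
  rw [inner_smul_left, inner_δ, Complex.conj_ofReal]

theorem WW (ξ : H X) : ContinuousLinearMap.adjoint S.W (S.W ξ) = ξ := by
  refine lp.ext (funext fun x => ?_)
  rw [Wadj_apply, sum_congr rfl (g := fun _ => (S.c x : ℂ) ^ 2 * ξ x) fun y hy => by
    rw [W_apply, (S.mem_fib x y).mp hy]; ring, sum_const, nsmul_eq_mul, ← mul_assoc]
  have : (#(S.fib x) : ℂ) * (S.c x : ℂ) ^ 2 = 1 := by exact_mod_cast S.c_sq x
  rw [this, one_mul]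

/-- the embedding -/
noncomputable def Φ (a : H X →L[ℂ] H X) : H Y →L[ℂ] H Y :=
  S.W ∘L a ∘L ContinuousLinearMap.adjoint S.W

theorem Φ_apply (a : H X →L[ℂ] H X) (η : H Y) :
    S.Φ a η = S.W (a (ContinuousLinearMap.adjoint S.W η)) := rfl

theorem Φ_add (a b : H X →L[ℂ] H X) : S.Φ (a + b) = S.Φ a + S.Φ b := by
  ext1 η; simp [Φ_apply]

theorem Φ_zero : S.Φ 0 = 0 := by ext1 η; simp [Φ_apply]

theorem Φ_smul (t : ℂ) (a : H X →L[ℂ] H X) : S.Φ (t • a) = t • S.Φ a := by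
  ext1 η; simp [Φ_apply]

theorem Φ_mul (a b : H X →L[ℂ] H X) : S.Φ (a * b) = S.Φ a * S.Φ b := by
  ext1 η; simp [Φ_apply, WW]

theorem Φ_star (a : H X →L[ℂ] H X) : S.Φ (star a) = star (S.Φ a) := by
  simp only [Φ, ContinuousLinearMap.star_eq_adjoint, ContinuousLinearMap.adjoint_comp,
    ContinuousLinearMap.adjoint_adjoint, ContinuousLinearMap.comp_assoc]

theorem Φ_inj : Function.Injective S.Φ := fun a b h => by
  ext1 ξ
  have := congrArg (fun T : H Y →L[ℂ] H Y => ContinuousLinearMap.adjoint S.W (T (S.W ξ))) h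
  simpa only [Φ_apply, WW] using this

theorem Φ_cont : Continuous S.Φ :=
  continuous_const.clm_comp (continuous_id.clm_comp continuous_const)

theorem Φ_cpt (a : H X →L[ℂ] H X) (h : IsCompactOperator a) : IsCompactOperator (S.Φ a) :=
  (h.comp_clm (ContinuousLinearMap.adjoint S.W)).clm_comp S.W

theorem lift_l {T : H Y →L[ℂ] H Y} {a : H X →L[ℂ] H X} (h : ∀ ξ y, T (S.W ξ) y = S.W (a ξ) y) :
    T * S.Φ 1 = S.Φ a :=
  ext_pt fun η y => h _ y

theorem lift_r {T : H Y →L[ℂ] H Y} {a : H X →L[ℂ] H X}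
    (h : ∀ ξ y, star T (S.W ξ) y = S.W (star a ξ) y) : S.Φ 1 * T = S.Φ a := by
  have := congrArg star (S.lift_l h)
  rwa [star_mul, star_star, ← Φ_star, ← Φ_star, star_one, star_star] at this

theorem ind_l (p : X → Prop) : Ind (fun y => p (S.π y)) * S.Φ 1 = S.Φ (Ind p) :=
  S.lift_l fun ξ y => by simp [Ind_apply, W_apply]

theorem ind_r (p : X → Prop) : S.Φ 1 * Ind (fun y => p (S.π y)) = S.Φ (Ind p) :=
  S.lift_r fun ξ y => by simp [Ind_star, Ind_apply, W_apply]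

theorem V_W {σ : Perm X} {ρ : Perm Y} (h : ∀ y, S.π (ρ y) = σ (S.π y)) (ξ : H X) (y : Y) :
    V ρ (S.W ξ) y = S.W (V σ ξ) y := by
  have h1 : ∀ x, S.c (σ x) = S.c x := fun x => by
    have : #(S.fib x) = #(S.fib (σ x)) := card_equiv ρ fun y => by simp [S.mem_fib, h]
    simp [c, this]
  simp [V_apply, W_apply, h, h1]

theorem V_l {σ : Perm X} {ρ : Perm Y} (h : ∀ y, S.π (ρ y) = σ (S.π y)) :
    V ρ * S.Φ 1 = S.Φ (V σ) := S.lift_l (S.V_W h)

theorem V_r {σ : Perm X} {ρ : Perm Y} (h : ∀ y, S.π (ρ y) = σ (S.π y)) :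
    S.Φ 1 * V ρ = S.Φ (V σ) := S.lift_r fun ξ y => by
  rw [V_star, V_star]
  refine S.V_W (fun y => ?_) ξ y
  rw [Perm.eq_inv_iff_eq, ← h]
  simp

/-- projection onto the high levels -/
noncomputable def Q (n : ℕ) : H Y →L[ℂ] H Y := Ind (fun y => n ≤ S.l (S.π y))

theorem cut_FP (a : H Y →L[ℂ] H Y) (n : ℕ) : (1 - S.Q n) * a * (1 - S.Q n) ∈ FP Y := by
  refine ⟨2 * n + 2, fun y y' h => ?_⟩
  rw [Q, ← Ind_not]
  simp only [mul_apply_eq_comp, Ind_apply, Ind_δ]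
  split_ifs with h1 h2
  · rfl
  · simp
  · have h3 := S.hlev y y'
    have h4 : (S.l (S.π y) : ℝ) ≤ n := by exact_mod_cast (not_le.mp h2).le
    have h5 : (S.l (S.π y') : ℝ) ≤ n := by exact_mod_cast (not_le.mp h1).le
    linarith

theorem small_mem (a : H Y →L[ℂ] H Y) (h1 : Cm S.Q a) (h2 : Sm S.Q a) :
    a ∈ (FP Y).topologicalClosure := by
  have lim : Tendsto (fun n => a - a * S.Q n) atTop (𝓝 a) := by simpa using h2.const_sub a
  refine mem_closure_of_tendsto lim (Eventually.of_forall fun n => ?_)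
  have e : a - a * S.Q n = (1 - S.Q n) * a * (1 - S.Q n) := by
    have h3 : S.Q n * S.Q n = S.Q n := Ind_idem _
    have : (1 - S.Q n) * a * (1 - S.Q n) =
        a - a * S.Q n - S.Q n * a + S.Q n * a * S.Q n := by noncomm_ring
    rw [this, ← (h1 n).eq, mul_assoc, h3]
    abel
  rw [e]
  exact S.cut_FP a n

theorem cm_P : Cm S.Q (S.Φ 1) := fun n =>
  (S.ind_r fun x => n ≤ S.l x).trans (S.ind_l fun x => n ≤ S.l x).symm

theorem cm_Ind (p : Y → Prop) : Cm S.Q (Ind p) := fun _ => Ind_comm _ _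

theorem cm_V {ρ : Perm Y} (h : ∀ y, S.l (S.π (ρ y)) = S.l (S.π y)) : Cm S.Q (V ρ) := fun n =>
  ext_pt fun ξ y => by simp [Q, V_apply, Ind_apply, h]

theorem sm_l : Sm S.Q ((1 - Ind S.good) * S.Φ 1) := by
  classical
  have h1 : ∀ n : ℕ, ‖(1 - Ind S.good) * S.Φ 1 * S.Q n‖ ≤
      √(1 / ((n : ℝ) + 1)) * ‖ContinuousLinearMap.adjoint S.W‖ := fun n => by
    have e : (1 - Ind S.good) * S.Φ 1 * S.Q n =
        (((1 - Ind S.good) * S.Q n) ∘L S.W) ∘L ContinuousLinearMap.adjoint S.W := by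
      rw [mul_assoc, (S.cm_P n).eq]
      rfl
    rw [e]
    refine (ContinuousLinearMap.opNorm_comp_le _ _).trans ?_
    gcongr
    refine norm_le_bd (φ := S.π)
      (c := fun y => if ¬ S.good y ∧ n ≤ S.l (S.π y) then (S.c (S.π y) : ℂ) else 0)
      ⟨by positivity, fun x s hs => ?_⟩ _ fun ξ y => ?_
    · rw [Real.sq_sqrt (by positivity)]
      have h2 : ∑ y ∈ s, ‖if ¬ S.good y ∧ n ≤ S.l (S.π y) then (S.c (S.π y) : ℂ) else 0‖ ^ 2 =
          #{y ∈ s | ¬ S.good y ∧ n ≤ S.l x} * S.c x ^ 2 := by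
        rw [← nsmul_eq_mul, ← sum_const, sum_filter]
        refine sum_congr rfl fun y hy => ?_
        rw [hs y hy]
        split_ifs <;> simp
      rw [h2]
      by_cases h3 : n ≤ S.l x
      · have h4 := S.hbad x {y ∈ s | ¬ S.good y ∧ n ≤ S.l x}
          fun y hy => ⟨hs y (mem_filter.mp hy).1, (mem_filter.mp hy).2.1⟩
        have h5 : (n + 1) * #{y ∈ s | ¬ S.good y ∧ n ≤ S.l x} ≤ #(S.fib x) :=
          le_trans (by gcongr) h4
        have h6 : ((n : ℝ) + 1) * #{y ∈ s | ¬ S.good y ∧ n ≤ S.l x} ≤ #(S.fib x) := by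
          exact_mod_cast h5
        rw [le_div_iff₀ (by positivity)]
        nlinarith [sq_nonneg (S.c x), S.c_sq x]
      · simp only [h3, and_false, filter_false, card_empty, Nat.cast_zero, zero_mul]
        positivity
    · rw [← Ind_not]
      simp only [ContinuousLinearMap.comp_apply, mul_apply_eq_comp, Q, Ind_apply, W_apply]
      by_cases h1 : S.good y <;> by_cases h2 : n ≤ S.l (S.π y) <;> simp [h1, h2]
  refine squeeze_zero_norm h1 ?_
  simpa using (tendsto_one_div_add_atTop_nhds_zero_nat (𝕜 := ℝ)).sqrt.mul_const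
    ‖ContinuousLinearMap.adjoint S.W‖

theorem sm_r : Sm S.Q (S.Φ 1 * (1 - Ind S.good)) := by
  have h := S.sm_l.star
  simp only [star_zero, star_mul, star_sub, star_one, Ind_star, ← Φ_star, Q] at h
  refine h.congr fun n => ?_
  exact ((S.cm_P.mul (Cm.one.sub (S.cm_Ind _))) n).eq.symm

theorem chi_FP {ρ : Perm Y} (h : ∀ y, S.good y → S.good (ρ y) → dist y (ρ y) ≤ 1) :
    Ind S.good * V ρ * Ind S.good ∈ FP Y := by
  refine ⟨1, fun y y' h1 => ?_⟩
  simp only [mul_apply_eq_comp, Ind_apply, V_apply, δ_apply]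
  split_ifs with h2 h3 h4
  · have := h y' h2 h3
    rw [h4, dist_comm] at this
    linarith
  all_goals rfl

theorem poin (η : H Y) (h : ContinuousLinearMap.adjoint S.W η = 0) :
    ‖η‖ ^ 2 ≤ 2560 * ∑ j, ‖V (S.τ j) η - η‖ ^ 2 := by
  classical
  have h0 : 0 ≤ 2560 * ∑ j, ‖V (S.τ j) η - η‖ ^ 2 := by positivity
  rw [← Real.sq_sqrt h0]
  refine pow_le_pow_left₀ (norm_nonneg _) (norm_le_of _ (Real.sqrt_nonneg _) fun s => ?_) 2
  rw [Real.sq_sqrt h0]
  have hd : Set.PairwiseDisjoint ((s.image S.π : Finset X) : Set X) S.fib :=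
    fun x _ x' _ hx => disjoint_left.mpr fun y h1 h2 =>
      hx (((S.mem_fib _ _).mp h1).symm.trans ((S.mem_fib _ _).mp h2))
  calc _ ≤ ∑ y ∈ (s.image S.π).biUnion S.fib, ‖η y‖ ^ 2 :=
        sum_le_sum_of_subset_of_nonneg (fun y hy => mem_biUnion.mpr
          ⟨_, mem_image_of_mem _ hy, (S.mem_fib _ _).mpr rfl⟩) fun _ _ _ => by positivity
    _ = ∑ x ∈ s.image S.π, ∑ y ∈ S.fib x, ‖η y‖ ^ 2 := sum_biUnion hd
    _ ≤ ∑ x ∈ s.image S.π, 2560 * ∑ j, ∑ y ∈ S.fib x, ‖η (S.τ j y) - η y‖ ^ 2 := by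
        refine sum_le_sum fun x _ => S.hP x η ?_
        have h1 := S.Wadj_apply η x
        rw [h, ← mul_sum] at h1
        exact (mul_eq_zero.mp h1.symm).resolve_left (Complex.ofReal_ne_zero.mpr (S.c_pos x).ne')
    _ ≤ _ := by
        rw [← mul_sum, sum_comm]
        gcongr with j
        rw [← sum_biUnion hd]
        simpa [V_apply] using sum_le_sq (V (S.τ j) η - η) ((s.image S.π).biUnion S.fib)

/-- the lazy averaging operator -/
noncomputable def A : H Y →L[ℂ] H Y := (1 / 40 : ℂ) • ∑ j, (1 + V (S.τ j))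

theorem A_l : S.A * S.Φ 1 = S.Φ 1 := by
  have h : ∀ j, V (S.τ j) * S.Φ 1 = S.Φ 1 := fun j => by
    rw [S.V_l (σ := 1) (S.τ_π j), V_one]
  rw [A, smul_mul_assoc, sum_mul]
  simp only [add_mul, one_mul, h, sum_const, card_univ, Fintype.card_fin]
  rw [← Nat.cast_smul_eq_nsmul ℂ, ← two_smul ℂ, smul_smul, smul_smul]
  norm_num

theorem A_r : S.Φ 1 * S.A = S.Φ 1 := by
  have h : ∀ j, S.Φ 1 * V (S.τ j) = S.Φ 1 := fun j => by
    rw [S.V_r (σ := 1) (S.τ_π j), V_one]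
  rw [A, mul_smul_comm, mul_sum]
  simp only [mul_add, mul_one, h, sum_const, card_univ, Fintype.card_fin]
  rw [← Nat.cast_smul_eq_nsmul ℂ, ← two_smul ℂ, smul_smul, smul_smul]
  norm_num

theorem gap : ‖S.A - S.Φ 1‖ < 1 := by
  have hp : IsStarProjection (S.Φ 1) :=
    ⟨by rw [IsIdempotentElem, ← Φ_mul, one_mul], by rw [IsSelfAdjoint, ← Φ_star, star_one]⟩
  have e : S.A - S.Φ 1 = S.A * (1 - S.Φ 1) := by rw [mul_sub, mul_one, A_l]
  refine lt_of_le_of_lt (ContinuousLinearMap.opNorm_le_bound _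
    (show (0 : ℝ) ≤ 1 - 1 / 409600 by norm_num) fun ξ => ?_) (by norm_num)
  rw [e, mul_apply_eq_comp]
  have h1 : ‖(1 - S.Φ 1) ξ‖ ≤ ‖ξ‖ :=
    (ContinuousLinearMap.le_opNorm _ _).trans
      (mul_le_of_le_one_left (norm_nonneg _) hp.one_sub.norm_le)
  have h2 : ContinuousLinearMap.adjoint S.W ((1 - S.Φ 1) ξ) = 0 := by simp [Φ_apply, WW]
  generalize (1 - S.Φ 1) ξ = η at h1 h2
  have h3 := S.poin η h2
  have h4 : ‖S.A η‖ ≤ 1 / 40 * ∑ j, ‖V (S.τ j) η + η‖ := by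
    rw [A, smul_apply, norm_smul, _root_.sum_apply]
    gcongr
    · simp
    · refine (norm_sum_le _ _).trans (le_of_eq (sum_congr rfl fun j _ => ?_))
      simp [add_comm]
  have h5 : (∑ j, ‖V (S.τ j) η + η‖) ^ 2 ≤ 20 * ∑ j, ‖V (S.τ j) η + η‖ ^ 2 := by
    simpa using sq_sum_le_card_mul_sum_sq (s := univ) (f := fun j => ‖V (S.τ j) η + η‖)
  have h6 : ∀ j, ‖V (S.τ j) η + η‖ ^ 2 + ‖V (S.τ j) η - η‖ ^ 2 ≤ 4 * ‖η‖ ^ 2 := fun j => by
    have h7 := parallelogram_law_with_norm ℂ (V (S.τ j) η) η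
    have h8 : ‖V (S.τ j) η‖ ≤ ‖η‖ := (ContinuousLinearMap.le_opNorm _ _).trans
      (mul_le_of_le_one_left (norm_nonneg _) (V_norm _))
    nlinarith [norm_nonneg (V (S.τ j) η)]
  have h7 := sum_le_sum fun j (_ : j ∈ univ) => h6 j
  rw [sum_add_distrib, sum_const, card_univ, Fintype.card_fin, nsmul_eq_mul] at h7
  push_cast at h7
  refine le_trans ?_ (mul_le_mul_of_nonneg_left h1 (by norm_num))
  refine h4.trans (le_of_sq_le_sq ?_ (by positivity))
  rw [mul_pow, mul_pow]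
  nlinarith [sq_nonneg ‖η‖]

theorem P_mem : S.Φ 1 ∈ (FP Y).topologicalClosure := by
  refine proj_mem (Q := S.Q) (FP Y).topologicalClosure.toSubalgebra.toSubring
    (FP Y).isClosed_topologicalClosure S.small_mem _ (Ind S.good) S.A S.cm_P (S.cm_Ind _) ?_
    S.A_l S.A_r (by rw [← Φ_mul, one_mul]) S.gap (Ind_norm _) ?_ S.sm_l S.sm_r
  · intro n
    exact (Commute.sum_left _ _ _ fun j _ =>
      (Cm.one.add (S.cm_V fun y => by rw [S.τ_π])) n).smul_left _
  · refine (FP Y).le_topologicalClosure ?_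
    rw [A, mul_smul_comm, smul_mul_assoc, mul_sum, sum_mul]
    refine (FP Y).smul_mem (sum_mem fun j _ => ?_) _
    rw [mul_add, add_mul]
    refine add_mem ?_ (S.chi_FP (S.τ_d j))
    rw [← V_one]
    exact S.chi_FP fun y _ _ => by simp

theorem V_mem {σ : Perm X} {ρ : Perm Y} (h : ∀ y, S.π (ρ y) = σ (S.π y))
    (h1 : ∀ x, S.l (σ x) = S.l x) (h2 : ∀ y, S.good y → S.good (ρ y) → dist y (ρ y) ≤ 1) :
    S.Φ (V σ) ∈ (FP Y).topologicalClosure := by
  have cV : Cm S.Q (V ρ) := S.cm_V fun y => by rw [h, h1]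
  have cχ := S.cm_Ind S.good
  have e : S.Φ (V σ) = Ind S.good * V ρ * Ind S.good * S.Φ 1 +
      ((1 - Ind S.good) * S.Φ 1 * V ρ + Ind S.good * V ρ * ((1 - Ind S.good) * S.Φ 1)) := by
    rw [mul_assoc (1 - _), S.V_r h, ← S.V_l h]
    noncomm_ring
  rw [e]
  refine add_mem (mul_mem ((FP Y).le_topologicalClosure (S.chi_FP h2)) S.P_mem)
    (S.small_mem _ ?_ ((S.sm_l.right cV).add (S.sm_l.left _)))
  exact (((Cm.one.sub cχ).mul S.cm_P).mul cV).add ((cχ.mul cV).mul ((Cm.one.sub cχ).mul S.cm_P))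

theorem D_mem {f : X → ℂ} {M : ℝ} (h0 : 0 ≤ M) (h : ∀ x, ‖f x‖ ≤ M) :
    S.Φ (D f) ∈ (FP Y).topologicalClosure := by
  have h1 := D_apply (f := fun y => f (S.π y)) h0 (fun y => h _)
  rw [← S.lift_l (T := D fun y => f (S.π y)) fun ξ y => by
    rw [h1, W_apply, W_apply, D_apply h0 h]; ring]
  refine mul_mem ((FP Y).le_topologicalClosure ⟨0, fun y y' h2 => ?_⟩) S.P_mem
  rw [h1, δ_apply, if_neg (dist_pos.mp h2).symm, mul_zero]

theorem words_mem (T : Finset (Perm X))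
    (hT : ∀ w ∈ T, S.Φ (V w) ∈ (FP Y).topologicalClosure) :
    ∀ b : H X →L[ℂ] H X, (∀ x x', b (δ x') x ≠ 0 → ∃ w ∈ T, x' = w x) →
      S.Φ b ∈ (FP Y).topologicalClosure := by
  classical
  induction T using Finset.induction_on with
  | empty =>
    intro b hb
    have : b = 0 := ext_ent fun x' x => by
      by_contra h
      simpa using hb x x' h
    rw [this, Φ_zero]
    exact zero_mem _
  | insert w T hw ih =>
    intro b hb
    have h1 := D_apply (f := fun x => b (δ (w x)) x) (norm_nonneg b) (fun x => ent_le b _ _)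
    have e : b = (b - D (fun x => b (δ (w x)) x) * V w) + D (fun x => b (δ (w x)) x) * V w := by
      abel
    rw [e, Φ_add, Φ_mul]
    refine add_mem (ih (fun w' hw' => hT w' (mem_insert_of_mem hw')) _ fun x x' h => ?_)
      (mul_mem (S.D_mem (norm_nonneg b) (fun x => ent_le b _ _)) (hT w (mem_insert_self _ _)))
    simp only [sub_apply, mul_apply_eq_comp, lp.coeFn_sub, Pi.sub_apply, h1,
      V_apply, δ_apply] at h
    by_cases h2 : w x = x'
    · simp [h2] at h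
    · obtain ⟨w', h3, h4⟩ := hb x x' (by simpa [h2] using h)
      rcases mem_insert.mp h3 with rfl | h3
      · exact absurd h4.symm h2
      · exact ⟨w', h3, h4⟩

theorem FP_mem {a : H X →L[ℂ] H X} (ha : a ∈ FP X) : S.Φ a ∈ (FP Y).topologicalClosure := by
  obtain ⟨r, hr⟩ := ha
  let M : Submonoid (Perm X) :=
    { carrier := {w | S.Φ (V w) ∈ (FP Y).topologicalClosure}
      mul_mem' := fun {w w'} h h' => by
        rw [Set.mem_ofPred_eq, V_mul, Φ_mul]
        exact mul_mem h' h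
      one_mem' := by rw [Set.mem_ofPred_eq, V_one]; exact S.P_mem }
  obtain ⟨T, n, h1, h2⟩ := S.hX M (fun σ ρ h h' h'' => S.V_mem h h' h'') r
  let q : H X →L[ℂ] H X := Ind (fun x => ¬ n ≤ S.l x)
  have e : a = (a - q * a * q) + q * a * q := by abel
  rw [e, Φ_add]
  refine add_mem (S.words_mem T h1 _ fun x x' h => ?_) ?_
  · simp only [sub_apply, mul_apply_eq_comp, lp.coeFn_sub, Pi.sub_apply, q,
      Ind_apply, Ind_δ] at h
    have h3 : dist x x' ≤ r := by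
      by_contra h3
      have h4 := hr x' x (by rw [dist_comm]; exact not_le.mp h3)
      apply h
      split_ifs <;> simp [h4]
    refine (h2 x x' h3).resolve_right fun h4 => h ?_
    simp [h4.1, h4.2]
  · have e1 : S.Φ (q * a * q) = (1 - S.Q n) * S.Φ a * (1 - S.Q n) := by
      rw [Φ_mul, Φ_mul, Q, ← Ind_not]
      nth_rewrite 1 [← S.ind_l]
      rw [← S.ind_r, mul_assoc (Ind _), ← Φ_mul, one_mul, ← mul_assoc, mul_assoc (Ind _),
        ← Φ_mul, mul_one]
    rw [e1]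
    exact (FP Y).le_topologicalClosure (S.cut_FP _ n)

theorem maps {a : H X →L[ℂ] H X} (ha : a ∈ (FP X).topologicalClosure) :
    S.Φ a ∈ (FP Y).topologicalClosure :=
  closure_minimal (t := S.Φ ⁻¹' ((FP Y).topologicalClosure : Set (H Y →L[ℂ] H Y)))
    (fun _ h => S.FP_mem h)
    ((FP Y).isClosed_topologicalClosure.preimage S.Φ_cont) ha

end Setup

end Pool.Agent.H86.Roe
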