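import Pool.Agent.H86.RoeC
import Pool.Agent.H86.RoeE

set_option autoImplicit false

namespace Pool.Agent.H86.Roe

open Finset Equiv SimpleGraph

/-- the data of one level -/
structure Lv (k : ℕ) where
  m : ℕ
  σ : Fin 20 → Perm (Fin (k + 3))
  ω : (Fin 20 ⊕ Fin 20) × Fin (k + 3) → Perm (Fin m)
  B : Finset (Fin (k + 3) × Fin m)
  hm : 0 < m
  hσ : Exp σ
  hB : (k + 3) * #B ≤ m
  hE : ∀ x, Exp (fun j => ω (Sum.inr j, x))
  hD : ∀ V : Finset (Fin (k + 3) × Fin m), #V ≤ 20 * (k + 3) * (k + 3) → Dn ω V → V ⊆ B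

theorem lv_ne (k : ℕ) : Nonempty (Lv k) := by
  obtain ⟨σ, hσ⟩ := exists_exp (k + 3) (by omega)
  obtain ⟨m, hm, ω, B, h1, h2, h3⟩ := exists_lift (Fin (k + 3)) (20 * (k + 3) * (k + 3)) (k + 3)
  exact ⟨⟨m, σ, ω, B, hm, hσ, h1, h2, h3⟩⟩

/-- chosen level data -/
noncomputable def lv (k : ℕ) : Lv k := Classical.choice (lv_ne k)

/-- total size of the lower levels -/
noncomputable def T : ℕ → ℕ
  | 0 => 0
  | n + 1 => T n + (n * T n + n + 3) * (lv (n * T n + n)).m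

/-- size parameter of a level -/
noncomputable def K (n : ℕ) : ℕ := n * T n + n

theorem K_mono : Monotone K := by
  have h : Monotone T := monotone_nat_of_le_succ fun n => Nat.le_add_right _ _
  intro a b hab
  exact Nat.add_le_add (Nat.mul_le_mul hab (h hab)) hab

/-- the base space -/
abbrev XX : Type := Σ n : ℕ, Fin (K n + 3)

/-- the total space -/
abbrev YY : Type := Σ n : ℕ, Fin (K n + 3) × Fin (lv (K n)).m

/-- generators on the base -/
noncomputable def σX (j : Fin 20) : Perm XX := Equiv.sigmaCongrRight fun n => (lv (K n)).σ j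

/-- generators on a level of the total space -/
noncomputable def ρL (k : ℕ) (j : Fin 20 ⊕ Fin 20) : Perm (Fin (k + 3) × Fin (lv k).m) :=
  Equiv.prodShear (Sum.elim (lv k).σ (fun _ => 1) j) (fun x => (lv k).ω (j, x))

/-- generators on the total space -/
noncomputable def ρY (j : Fin 20 ⊕ Fin 20) : Perm YY := Equiv.sigmaCongrRight fun n => ρL (K n) j

/-- good points -/
def gd (y : YY) : Prop := y.2 ∉ (lv (K y.1)).B

/-- metric on the base -/
@[reducible] noncomputable def mX : MetricSpace XX :=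
  met (Gr σX fun _ => True) Sigma.fst (gr_lev _ _ _ fun _ _ => rfl)

/-- metric on the total space -/
@[reducible] noncomputable def mY : MetricSpace YY :=
  met (Gr ρY gd) Sigma.fst (gr_lev _ _ _ fun _ _ => rfl)

attribute [local instance] mX mY

theorem ρ_d (j : Fin 20 ⊕ Fin 20) (y : YY) (h1 : gd y) (h2 : gd (ρY j y)) :
    dist y (ρY j y) ≤ 1 := by
  have := gr_dN ρY gd Sigma.fst j y h1 h2
  show ((dN _ _ _ _ : ℕ) : ℝ) ≤ 1
  exact_mod_cast this

/-- the fibration -/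
noncomputable def setup : Setup XX YY where
  l := Sigma.fst
  π y := ⟨y.1, y.2.1⟩
  fib x := univ.map ⟨fun p => ⟨x.1, (x.2, p)⟩, fun a b h => by simpa using h⟩
  good := gd
  τ j := ρY (Sum.inr j)
  mem_fib := by
    rintro ⟨n, x⟩ ⟨n', x', p⟩
    simp only [mem_map, mem_univ, true_and, Function.Embedding.coeFn_mk]
    constructor
    · rintro ⟨q, h⟩
      cases h
      rfl
    · intro h
      cases h
      exact ⟨p, rfl⟩
  fib_pos x := by simpa using (lv (K x.1)).hm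
  hlev y y' := by
    have := dN_le_lev (Gr ρY gd) Sigma.fst y y'
    show ((dN _ _ _ _ : ℕ) : ℝ) ≤ _
    exact_mod_cast this
  hbad := by
    rintro ⟨n, x⟩ s hs
    have h1 : s ⊆ (lv (K n)).B.map ⟨Sigma.mk n, sigma_mk_injective⟩ := by
      rintro ⟨n', z⟩ hy
      obtain ⟨h, h'⟩ := hs _ hy
      obtain rfl : n' = n := congrArg Sigma.fst h
      exact mem_map_of_mem _ (not_not.mp h')
    have h2 := card_le_card h1
    rw [card_map] at h2
    rw [card_map, card_univ, Fintype.card_fin]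
    refine le_trans (Nat.mul_le_mul ?_ h2) (lv (K n)).hB
    simp only [K]
    omega
  τ_π _ _ := rfl
  τ_d j := ρ_d _
  hP x η h := by
    simp only [sum_map, Function.Embedding.coeFn_mk] at h ⊢
    exact poin_cx ((lv (K x.1)).hE x.2) (fun p => η ⟨x.1, (x.2, p)⟩) h
  hX M hM r := by
    obtain ⟨S, h1, h2⟩ := gr_gens σX fun _ => True
    obtain ⟨W, h3, h4⟩ := words _ S h1 M (fun g hg => by
      obtain ⟨j, rfl | rfl⟩ := h2 g hg
      · exact hM _ (ρY (Sum.inl j)) (fun _ => rfl) (fun _ => rfl) (ρ_d _)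
      · refine hM _ (ρY (Sum.inl j))⁻¹ (fun y => ?_) (fun _ => rfl) fun y h h' => ?_
        · obtain ⟨y, rfl⟩ := (ρY (Sum.inl j)).surjective y
          rw [Perm.inv_def, symm_apply_apply, Perm.eq_inv_iff_eq]
          rfl
        · obtain ⟨y, rfl⟩ := (ρY (Sum.inl j)).surjective y
          rw [Perm.inv_def, symm_apply_apply] at h' ⊢
          rw [_root_.dist_comm]
          exact ρ_d _ _ h' h) ⌈r⌉₊
    refine ⟨W, ⌈r⌉₊, h3, fun x x' h => ?_⟩
    have h5 : dN (Gr σX fun _ => True) Sigma.fst x x' ≤ ⌈r⌉₊ := by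
      exact (Nat.cast_le (α := ℝ)).mp (le_trans h (Nat.le_ceil r))
    rcases dN_cases (Gr σX fun _ => True) Sigma.fst x x' with ⟨p, hp⟩ | hp
    · exact Or.inl (h4 x x' p (by omega))
    · right
      omega

theorem lev_fin {β : ℕ → Type} [∀ n, Finite (β n)] (n : ℕ) :
    {y : Σ n, β n | y.1 < n}.Finite :=
  ((Set.finite_Iio n).biUnion fun i _ => Set.finite_range (Sigma.mk i)).subset
    fun y hy => Set.mem_biUnion (show y.1 ∈ Set.Iio n from hy) ⟨y.2, rfl⟩

theorem ulf_X (r : ℝ) :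
    ∃ N : ℕ, ∀ x : XX, ∃ F : Finset XX, #F ≤ N ∧ Metric.closedBall x r ⊆ F := by
  obtain ⟨N, hN⟩ := ball_fin σX (fun _ => True) Sigma.fst lev_fin ⌈r⌉₊
  refine ⟨N, fun x => (hN x).imp fun F h => ⟨h.1, fun x' h' => h.2 x' ?_⟩⟩
  exact (Nat.cast_le (α := ℝ)).mp (le_trans (Metric.mem_closedBall'.mp h') (Nat.le_ceil r))

theorem ulf_Y (r : ℝ) :
    ∃ N : ℕ, ∀ x : YY, ∃ F : Finset YY, #F ≤ N ∧ Metric.closedBall x r ⊆ F := by
  obtain ⟨N, hN⟩ := ball_fin ρY gd Sigma.fst lev_fin ⌈r⌉₊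
  refine ⟨N, fun x => (hN x).imp fun F h => ⟨h.1, fun x' h' => h.2 x' ?_⟩⟩
  exact (Nat.cast_le (α := ℝ)).mp (le_trans (Metric.mem_closedBall'.mp h') (Nat.le_ceil r))

theorem low (n : ℕ) : ∃ t : Finset YY, #t ≤ T n ∧ ∀ y : YY, y.1 < n → y ∈ t := by
  classical
  induction n with
  | zero => exact ⟨∅, by simp, by simp⟩
  | succ n ih =>
    obtain ⟨t, h1, h2⟩ := ih
    refine ⟨t ∪ univ.map ⟨Sigma.mk n, sigma_mk_injective⟩, (card_union_le _ _).trans ?_, ?_⟩
    · rw [card_map, card_univ, Fintype.card_prod, Fintype.card_fin, Fintype.card_fin]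
      exact Nat.add_le_add_right h1 _
    · rintro ⟨n', z⟩ h
      rcases Nat.lt_succ_iff_lt_or_eq.mp h with h | rfl
      · exact mem_union_left _ (h2 _ h)
      · exact mem_union_right _ (mem_map_of_mem _ (mem_univ z))

theorem girth (v : YY) (c : (Gr ρY gd).Walk v v) (hc : c.IsCycle) :
    20 * (K v.1 + 3) * (K v.1 + 3) < c.length := by
  classical
  obtain ⟨n, z⟩ := v
  by_contra h
  obtain ⟨h1, V, h2, h3, h4, h5⟩ := gr_cyc ρY gd c hc
  obtain ⟨V', rfl⟩ : ∃ V' : Finset (Fin (K n + 3) × Fin (lv (K n)).m),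
      V = V'.map ⟨Sigma.mk n, sigma_mk_injective⟩ := by
    refine ⟨univ.filter fun z => ⟨n, z⟩ ∈ V, ?_⟩
    ext ⟨n', z'⟩
    simp only [mem_map, mem_filter, mem_univ, true_and, Function.Embedding.coeFn_mk]
    constructor
    · intro h6
      obtain ⟨p⟩ := h5 _ h6
      obtain rfl : n = n' := lev_walk (l := Sigma.fst) (gr_lev _ _ _ fun _ _ => rfl) p
      exact ⟨z', h6, rfl⟩
    · rintro ⟨a, h6, h7⟩
      exact h7 ▸ h6
  rw [card_map] at h3
  refine h1 ((lv (K n)).hD V' (h3.trans (not_lt.mp h)) (h3.trans (h4.trans ?_))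
    ((mem_map' _).mp h2))
  have h6 : ∀ j, #{y ∈ V'.map ⟨Sigma.mk n, sigma_mk_injective⟩ |
      ρY j y ∈ V'.map (⟨Sigma.mk n, sigma_mk_injective⟩ : _ ↪ YY)} =
      #{y ∈ V' | ρL (K n) j y ∈ V'} := fun j => by
    rw [filter_map, card_map]
    exact congrArg _ (filter_congr fun y _ => mem_map' _)
  rw [sum_congr rfl fun j _ => h6 j, ← card_sigma]
  refine card_le_card_of_injOn (fun e => ((e.1, e.2.1), e.2.2)) ?_ ?_
  · rintro ⟨j, y⟩ he
    simp only [coe_sigma, Set.mem_sigma_iff, mem_coe, mem_filter, mem_univ, true_and] at he ⊢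
    exact ⟨he.1, mem_image.mpr ⟨_, he.2, rfl⟩⟩
  · rintro ⟨j, x, p⟩ - ⟨j', x', p'⟩ - h7
    simp only [Prod.mk.injEq] at h7
    obtain ⟨⟨rfl, rfl⟩, rfl⟩ := h7
    rfl

theorem no_map (f : XX → YY) (s : ℝ) (N : ℕ)
    (h1 : ∀ x x' : XX, Dist.dist x x' ≤ 1 → Dist.dist (f x) (f x') ≤ s)
    (h2 : ∀ y, (f ⁻¹' {y}).encard ≤ N) : False := by
  classical
  obtain ⟨C, hC⟩ := ball_fin ρY gd Sigma.fst lev_fin (320 * ⌈s⌉₊)
  obtain ⟨n, hn⟩ : ∃ n, n = ⌈s⌉₊ + N + 2 * (N * C) := ⟨_, rfl⟩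
  let F : Fin (K n + 3) → YY := fun x => f ⟨n, x⟩
  have hl := gr_lev ρY gd Sigma.fst fun _ _ => rfl
  have a1 : ∀ x j, dN (Gr ρY gd) Sigma.fst (F x) (F ((lv (K n)).σ j x)) ≤ ⌈s⌉₊ := fun x j => by
    have h3 := gr_dN σX (fun _ => True) Sigma.fst j ⟨n, x⟩ trivial trivial
    exact (Nat.cast_le (α := ℝ)).mp (le_trans (h1 ⟨n, x⟩ (σX j ⟨n, x⟩)
      (Nat.cast_le_one.mpr h3)) (Nat.le_ceil s))
  have a2 : ∀ (u : Finset (Fin (K n + 3))) (t : Finset YY), (∀ x ∈ u, F x ∈ t) → #u ≤ N * #t := by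
    intro u t h
    refine card_le_mul_card_image_of_maps_to h N fun y _ => ?_
    have h3 : ((({x ∈ u | F x = y}).map ⟨Sigma.mk n, sigma_mk_injective⟩ : Finset XX) : Set XX) ⊆
        f ⁻¹' {y} := by
      intro x hx
      obtain ⟨a, ha, rfl⟩ := mem_map.mp hx
      exact (mem_filter.mp ha).2
    have h4 := (Set.encard_le_encard h3).trans (h2 y)
    rw [Set.encard_coe_eq_coe_finsetCard, card_map] at h4
    exact_mod_cast h4
  have a3 : ∀ x, n ≤ (F x).1 := by
    intro x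
    by_contra h
    have h3 := const_of (lv (K n)).hσ (fun x => (F x).1 < n) (fun j y => by
      have := a1 y j
      rcases dN_cases (Gr ρY gd) Sigma.fst (F y) (F ((lv (K n)).σ j y)) with ⟨p, -⟩ | hp
      · rw [lev_walk hl p]
      · omega) x
    obtain ⟨t, h4, h5⟩ := low n
    have h6 := a2 univ t fun y _ => h5 _ ((h3 y).mp (not_le.mp h))
    rw [card_univ, Fintype.card_fin] at h6
    have h7 : N * #t ≤ n * T n := Nat.mul_le_mul (by omega) h4
    simp only [K] at h6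
    omega
  have a4 := core (lv (K n)).hσ (Gr ρY gd) F ⌈s⌉₊ (N * C) (fun x j => ?_)
    (fun x v hv c hc => ?_) (fun x => ?_)
  · rw [Fintype.card_fin] at a4
    simp only [K] at a4
    omega
  · have := a1 x j
    have := a3 x
    rcases dN_cases (Gr ρY gd) Sigma.fst (F x) (F ((lv (K n)).σ j x)) with ⟨p, hp⟩ | hp
    · exact ⟨p, by omega⟩
    · omega
  · obtain ⟨p⟩ := hv
    have h3 : K n ≤ K v.1 := K_mono (lev_walk hl p ▸ a3 x)
    refine lt_of_le_of_lt ?_ (girth v c hc)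
    rw [Fintype.card_fin]
    have : n ≤ K n := Nat.le_add_left _ _
    gcongr
    omega
  · obtain ⟨t, h3, h4⟩ := hC (F x)
    refine le_trans (a2 _ t fun x' hx' => ?_) (Nat.mul_le_mul_left _ h3)
    obtain ⟨p, hp⟩ := (mem_filter.mp hx').2
    exact h4 _ ((dN_le_walk _ _ p).trans hp)

end Pool.Agent.H86.Roe
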