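import Mathlib
import Pool.Agent.H86.Kronecker

set_option autoImplicit false

namespace Pool.Agent.H86.SSep

open Set Filter Topology TopologicalSpace Pool.Agent.H86.Kronecker

abbrev J : Type := Module.Basis.ofVectorSpaceIndex ℚ ℝ

noncomputable def bb : Module.Basis J ℚ ℝ := Module.Basis.ofVectorSpace ℚ ℝ

theorem J_uncountable : ¬ Countable J := by
  intro h
  have : Countable ℝ := bb.repr.injective.countable
  exact Cardinal.not_countable_real (to_countable _)

theorem J_nontrivial : ∃ p : J × J, p.1 ≠ p.2 := by
  by_contra h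
  push Not at h
  have : Subsingleton J := ⟨fun a b => h (a, b)⟩
  exact J_uncountable inferInstance

noncomputable def i0 : J := J_nontrivial.choose.1
noncomputable def i1 : J := J_nontrivial.choose.2
theorem i01 : i0 ≠ i1 := J_nontrivial.choose_spec

/-- the additive group of reals, to be given a precompact topology -/
def HH : Type := ℝ

noncomputable instance : AddCommGroup HH := inferInstanceAs (AddCommGroup ℝ)

def toR : HH ≃+ ℝ := AddEquiv.refl ℝ

open Classical in
noncomputable def rr (i : J) (t : ℝ) : ℚ := if i = i0 ∨ i = i1 then 0 else bb.repr t i / 2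

theorem rr_add (i : J) (s t : ℝ) : rr i (s + t) = rr i s + rr i t := by
  unfold rr
  split_ifs
  · simp
  · simp [add_div]

theorem rr_zero (i : J) : rr i 0 = 0 := by simp [rr]

noncomputable def psi (i : J) : HH →+ UnitAddCircle where
  toFun t := ((bb i * toR t + rr i (toR t) : ℝ) : UnitAddCircle)
  map_zero' := by simp [rr_zero]
  map_add' s t := by
    rw [← AddCircle.coe_add, map_add, rr_add]
    congr 1
    push_cast
    ring

noncomputable instance : TopologicalSpace HH := TopologicalSpace.induced (ev psi) inferInstance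

theorem ev_inducing : IsInducing (ev psi) := ⟨rfl⟩

instance : IsTopologicalAddGroup HH := topologicalAddGroup_induced (ev psi)

theorem psi_cont (i : J) : Continuous (psi i) :=
  (continuous_apply i).comp ev_inducing.continuous

theorem psi_i0 (t : HH) : psi i0 t = ((bb i0 * toR t : ℝ) : UnitAddCircle) := by
  simp [psi, rr]

theorem psi_i1 (t : HH) : psi i1 t = ((bb i1 * toR t : ℝ) : UnitAddCircle) := by
  simp [psi, rr]

theorem sep01 (t : ℝ) (h0 : ((bb i0 * t : ℝ) : UnitAddCircle) = 0)
    (h1 : ((bb i1 * t : ℝ) : UnitAddCircle) = 0) : t = 0 := by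
  obtain ⟨m, hm⟩ := (AddCircle.coe_eq_zero_iff _).1 h0
  obtain ⟨n, hn⟩ := (AddCircle.coe_eq_zero_iff _).1 h1
  simp only [zsmul_eq_mul, mul_one] at hm hn
  by_contra ht
  have h2 : (n : ℚ) • bb i0 = (m : ℚ) • bb i1 := by
    refine mul_right_cancel₀ ht ?_
    simp only [Rat.smul_def, Rat.cast_intCast]
    rw [mul_assoc, mul_assoc, ← hm, ← hn, mul_comm]
  have h3 := congrArg (fun y => bb.repr y i1) h2
  simp [i01] at h3
  have h4 : (m : ℝ) = 0 := by exact_mod_cast h3.symm
  rw [h4] at hm
  exact mul_ne_zero (bb.ne_zero i0) ht hm.symm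

instance : T2Space HH := by
  refine T2Space.of_injective_continuous (f := ev psi) ?_ ev_inducing.continuous
  refine (injective_iff_map_eq_zero _).2 fun t ht => ?_
  refine toR.injective (sep01 _ ?_ ?_)
  · rw [← psi_i0]; exact congrFun ht i0
  · rw [← psi_i1]; exact congrFun ht i1

theorem sum_psi (c : J →₀ ℤ) (t : HH) : (c.sum fun i n => n • psi i t) =
    (((c.sum fun i n => (n : ℝ) * bb i) * toR t + (c.sum fun i n => (n : ℚ) * rr i (toR t) : ℚ) : ℝ) :
      UnitAddCircle) := by
  have h : ∀ i (n : ℤ), n • psi i t =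
      QuotientAddGroup.mk' (AddSubgroup.zmultiples (1 : ℝ)) (n * (bb i * toR t + rr i (toR t))) := by
    intro i n
    rw [← zsmul_eq_mul, map_zsmul]
    rfl
  simp only [h, Finsupp.sum]
  rw [← map_sum]
  change ((_ : ℝ) : UnitAddCircle) = _
  congr 1
  push_cast
  rw [Finset.sum_mul, ← Finset.sum_add_distrib]
  refine Finset.sum_congr rfl fun i _ => ?_
  ring

theorem ann_countable (t : HH) (ht : t ≠ 0) :
    {c : J →₀ ℤ | (c.sum fun i n => n • psi i t) = 0}.Countable := by
  have ht' : toR t ≠ 0 := fun h => ht (toR.injective (by simpa using h))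
  have hinj : Function.Injective
      (fun c : J →₀ ℤ => (c.sum fun i n => (n : ℝ) * bb i) * toR t) := by
    intro c d h
    have h1 := mul_right_cancel₀ ht' h
    have hli : LinearIndependent ℤ bb := bb.linearIndependent.restrict_scalars' ℤ
    apply hli
    simpa [Finsupp.linearCombination_apply] using h1
  refine ((countable_range (fun q : ℚ => (q : ℝ))).preimage hinj).mono fun c hc => ?_
  rw [mem_ofPred_eq, sum_psi] at hc
  obtain ⟨m, hm⟩ := (AddCircle.coe_eq_zero_iff _).1 hc
  simp only [zsmul_eq_mul, mul_one] at hm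
  refine ⟨m - (c.sum fun i n => (n : ℚ) * rr i (toR t)), ?_⟩
  simp only [Rat.cast_sub, Rat.cast_intCast]
  rw [hm]
  ring

theorem subgroup_separable (S : AddSubgroup HH) : SeparableSpace S := by
  classical
  by_cases hS : S = ⊥
  · subst hS
    infer_instance
  obtain ⟨⟨t, htS⟩, ht⟩ := AddSubgroup.ne_bot_iff_exists_ne_zero.1 hS
  have ht0 : t ≠ 0 := fun h => ht (Subtype.ext h)
  have h1 : ∀ c : J →₀ ℤ, ∃ s ∈ S, (c.sum fun i n => n • psi i s) = 0 →
      ∀ g ∈ S, (c.sum fun i n => n • psi i g) = 0 := by
    intro c
    by_cases h : ∀ g ∈ S, (c.sum fun i n => n • psi i g) = 0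
    · exact ⟨0, S.zero_mem, fun _ => h⟩
    · push Not at h
      obtain ⟨g, hg, hg'⟩ := h
      exact ⟨g, hg, fun h => absurd h hg'⟩
  choose s hsS hs using h1
  let E : Set HH := insert t (s '' {c : J →₀ ℤ | (c.sum fun i n => n • psi i t) = 0})
  have hE : E.Countable := ((ann_countable t ht0).image s).insert t
  let D := AddSubgroup.closure E
  have hDS : D ≤ S := by
    refine (AddSubgroup.closure_le _).2 ?_
    rintro _ (rfl | ⟨c, -, rfl⟩)
    · exact htS
    · exact hsS c
  have hDc : (D : Set HH).Countable := by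
    have := hE.to_subtype
    have h2 : (D : Set HH) = Submodule.span ℤ (range (Subtype.val : E → HH)) := by
      rw [Subtype.range_coe]
      simp only [D]
      rw [← Submodule.span_int_eq_addSubgroupClosure]
      rfl
    rw [h2, ← Finsupp.range_linearCombination, LinearMap.coe_range]
    exact countable_range _
  have hcl : ∀ g ∈ S, g ∈ closure (D : Set HH) := by
    intro g hg
    refine mem_closure_of_inducing psi ev_inducing D g fun c hc => ?_
    have h2 := hc t (AddSubgroup.subset_closure (mem_insert _ _))
    exact hs c (hc _ (AddSubgroup.subset_closure (mem_insert_of_mem _ ⟨c, h2, rfl⟩))) g hg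
  refine ⟨⟨Subtype.val ⁻¹' (D : Set HH), hDc.preimage Subtype.val_injective, fun x => ?_⟩⟩
  rw [closure_subtype]
  have : Subtype.val '' (Subtype.val ⁻¹' (D : Set HH) : Set S) = D := by
    ext y
    constructor
    · rintro ⟨z, hz, rfl⟩
      exact hz
    · intro hy
      exact ⟨⟨y, hDS hy⟩, hy, rfl⟩
  rw [this]
  exact hcl x x.2

theorem closed_subgroup_separable (K : Subgroup (Multiplicative HH)) : SeparableSpace K :=
  subgroup_separable (Subgroup.toAddSubgroup' K)

theorem exists_nonseparable (G : Type) [Group G] [TopologicalSpace G]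
    (π : G →* Multiplicative ℝ) (hπ : Continuous π) (hs : Function.Surjective π) :
    ∃ L : Subgroup (G × Multiplicative HH), IsClosed (L : Set (G × Multiplicative HH)) ∧
      ¬ SeparableSpace L := by
  let L : Subgroup (G × Multiplicative HH) :=
    { carrier := {p | Multiplicative.toAdd (π p.1) = toR (Multiplicative.toAdd p.2)}
      one_mem' := by simp
      mul_mem' := by
        intro p q hp hq
        simp only [mem_ofPred_eq] at *
        simp [hp, hq]
      inv_mem' := by
        intro p hp
        simp only [mem_ofPred_eq] at *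
        simp [hp] }
  have hc : ∀ i, Continuous (fun p : G × Multiplicative HH =>
      psi i (Multiplicative.toAdd p.2) - ((bb i * Multiplicative.toAdd (π p.1) : ℝ) : UnitAddCircle)) := by
    intro i
    refine ((psi_cont i).comp (continuous_toAdd.comp continuous_snd)).sub ?_
    exact (AddCircle.continuous_mk' 1).comp
      (continuous_const.mul (continuous_toAdd.comp (hπ.comp continuous_fst)))
  refine ⟨L, ?_, ?_⟩
  · have : (L : Set (G × Multiplicative HH)) =
        {p | psi i0 (Multiplicative.toAdd p.2) -
          ((bb i0 * Multiplicative.toAdd (π p.1) : ℝ) : UnitAddCircle) = 0} ∩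
        {p | psi i1 (Multiplicative.toAdd p.2) -
          ((bb i1 * Multiplicative.toAdd (π p.1) : ℝ) : UnitAddCircle) = 0} := by
      ext p
      simp only [mem_inter_iff, mem_ofPred_eq, psi_i0, psi_i1, ← AddCircle.coe_sub, ← mul_sub]
      constructor
      · intro hp
        have hp' : Multiplicative.toAdd (π p.1) = toR (Multiplicative.toAdd p.2) := hp
        simp [hp']
      · rintro ⟨h0, h1⟩
        exact (sub_eq_zero.1 (sep01 _ h0 h1)).symm
    rw [this]
    exact (isClosed_eq (hc i0) continuous_const).inter (isClosed_eq (hc i1) continuous_const)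
  · rintro ⟨D, hDc, hDd⟩
    have h1 : (({i0, i1} : Set J) ∪
        ⋃ d ∈ D, ((bb.repr (toR (Multiplicative.toAdd d.1.2))).support : Set J)).Countable :=
      (to_countable _).union (hDc.biUnion fun d _ => Finset.countable_toSet _)
    have h2 : ∃ i, i ∉ (({i0, i1} : Set J) ∪
        ⋃ d ∈ D, ((bb.repr (toR (Multiplicative.toAdd d.1.2))).support : Set J)) := by
      by_contra hcon
      push Not at hcon
      exact J_uncountable (countable_univ_iff.1 (h1.mono fun i _ => hcon i))
    obtain ⟨i, hi⟩ := h2
    simp only [mem_union, mem_insert_iff, mem_singleton_iff, mem_iUnion, Finset.mem_coe,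
      Finsupp.mem_support_iff, not_or, not_exists, not_not] at hi
    obtain ⟨hi01, hiD⟩ := hi
    have key : ∀ p : L, psi i (Multiplicative.toAdd p.1.2) -
        ((bb i * Multiplicative.toAdd (π p.1.1) : ℝ) : UnitAddCircle) =
        (((bb.repr (toR (Multiplicative.toAdd p.1.2)) i / 2 : ℚ) : ℝ) : UnitAddCircle) := by
      intro p
      have hp : Multiplicative.toAdd (π p.1.1) = toR (Multiplicative.toAdd p.1.2) := p.2
      rw [hp]
      simp [psi, rr, hi01]
    have h3 : ∀ p : L, psi i (Multiplicative.toAdd p.1.2) -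
        ((bb i * Multiplicative.toAdd (π p.1.1) : ℝ) : UnitAddCircle) = 0 := by
      intro p
      refine closure_minimal (fun d hd => ?_)
        (isClosed_eq ((hc i).comp continuous_subtype_val) continuous_const) (hDd p)
      simp only [mem_ofPred_eq, Function.comp]
      rw [key, hiD d hd]
      simp
    obtain ⟨g, hg⟩ := hs (Multiplicative.ofAdd (bb i))
    have h4 := h3 ⟨(g, Multiplicative.ofAdd (toR.symm (bb i))), by
      change Multiplicative.toAdd (π g) = _
      simp [hg]⟩
    rw [key] at h4
    obtain ⟨z, hz⟩ := (AddCircle.coe_eq_zero_iff _).1 h4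
    simp at hz
    have h5 : ((2 * z : ℤ) : ℝ) = 1 := by
      push_cast
      rw [hz]
      norm_num
    have h6 : 2 * z = 1 := by exact_mod_cast h5
    omega

end Pool.Agent.H86.SSep
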