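import Mathlib

set_option autoImplicit false

namespace Pool.Agent.H86.SeqCard

open Set Filter Topology Pointwise Cardinal

theorem exists_seq_local {α : Type*} [Nonempty α] (P : ℕ → (ℕ → α) → Prop)
    (hloc : ∀ k z z', (∀ i < k, z i = z' i) → P k z → P k z') (h0 : ∀ z, P 0 z)
    (hstep : ∀ k z, P k z → ∃ a, P (k + 1) (Function.update z k a)) : ∃ z, ∀ k, P k z := by
  classical
  choose! a ha using hstep
  obtain ⟨Z, hZ⟩ : ∃ Z : ℕ → ℕ → α, ∀ k, Z (k + 1) = Function.update (Z k) k (a k (Z k)) :=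
    ⟨fun n => Nat.rec (motive := fun _ => ℕ → α) (fun _ => Classical.arbitrary α)
      (fun k z => Function.update z k (a k z)) n, fun _ => rfl⟩
  have h1 : ∀ k, P k (Z k) := by
    intro k
    induction k with
    | zero => exact h0 _
    | succ k ih => rw [hZ]; exact ha k _ ih
  have h2 : ∀ i k, i < k → Z k i = Z (i + 1) i := by
    intro i k h
    induction k, h using Nat.le_induction with
    | base => rfl
    | succ k h ih => rw [hZ, Function.update_of_ne (by omega), ih]
  exact ⟨fun i => Z (i + 1) i, fun k => hloc k _ _ (fun i hi => h2 i k hi) (h1 k)⟩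

section SP
variable {G : Type} [Group G]

/-- symmetric products -/
def SP (B : ℕ → Set G) : Set G := ⋃ l : List ℕ, ⋃ _ : l.Nodup, (l.map B).prod

theorem prod_mono {ι : Type} {B C : ι → Set G} (l : List ι) (h : ∀ i ∈ l, B i ⊆ C i) :
    (l.map B).prod ⊆ (l.map C).prod := by
  induction l with
  | nil => exact Subset.rfl
  | cons a l ih =>
    simp only [List.map_cons, List.prod_cons]
    exact Set.mul_subset_mul (h a (by simp)) (ih fun i hi => h i (by simp [hi]))

theorem mem_SP {B : ℕ → Set G} {g : G} : g ∈ SP B ↔ ∃ l : List ℕ, l.Nodup ∧ g ∈ (l.map B).prod := by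
  simp [SP]

theorem prod_inv (B : ℕ → Set G) (l : List ℕ) :
    ∀ x ∈ (l.map fun i => (B i)⁻¹).prod, x⁻¹ ∈ (l.reverse.map B).prod := by
  induction l with
  | nil => simp
  | cons a l ih =>
    simp only [List.map_cons, List.prod_cons, List.reverse_cons, List.map_append, List.prod_append,
      List.map_nil, List.prod_nil, mul_one]
    rintro _ ⟨y, hy, z, hz, rfl⟩
    exact ⟨z⁻¹, ih z hz, y⁻¹, hy, by simp⟩

theorem prod_conj (B : ℕ → Set G) (g : G) (l : List ℕ) :
    ∀ x ∈ (l.map fun i => (fun y => g * y * g⁻¹) ⁻¹' B i).prod, g * x * g⁻¹ ∈ (l.map B).prod := by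
  induction l with
  | nil => simp
  | cons a l ih =>
    simp only [List.map_cons, List.prod_cons]
    rintro _ ⟨y, hy, z, hz, rfl⟩
    exact ⟨_, hy, _, ih z hz, by simp [mul_assoc]⟩

theorem sp_top (F : Filter G) (hinv : ∀ A ∈ F, A⁻¹ ∈ F)
    (hconj : ∀ g, ∀ A ∈ F, (fun y => g * y * g⁻¹) ⁻¹' A ∈ F) :
    ∃ T : GroupTopology G, F ≤ @nhds G T.toTopologicalSpace 1 ∧
      ∀ B : ℕ → Set G, (∀ i, B i ∈ F) → SP B ∈ @nhds G T.toTopologicalSpace 1 := by
  let Bs : GroupFilterBasis G :=
    { sets := {U | ∃ B : ℕ → Set G, (∀ i, B i ∈ F) ∧ U = SP B}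
      nonempty := ⟨_, fun _ => univ, fun _ => univ_mem, rfl⟩
      inter_sets := by
        rintro _ _ ⟨B, hB, rfl⟩ ⟨C, hC, rfl⟩
        refine ⟨_, ⟨fun i => B i ∩ C i, fun i => inter_mem (hB i) (hC i), rfl⟩, fun g hg => ?_⟩
        obtain ⟨l, hl, hg⟩ := mem_SP.1 hg
        exact ⟨mem_SP.2 ⟨l, hl, prod_mono l (fun i _ => inter_subset_left) hg⟩,
          mem_SP.2 ⟨l, hl, prod_mono l (fun i _ => inter_subset_right) hg⟩⟩
      one' := by
        rintro _ ⟨B, -, rfl⟩
        exact mem_SP.2 ⟨[], List.nodup_nil, by simp⟩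
      mul' := by
        rintro _ ⟨B, hB, rfl⟩
        refine ⟨_, ⟨fun i => B (2 * i) ∩ B (2 * i + 1), fun i => inter_mem (hB _) (hB _), rfl⟩, ?_⟩
        rintro _ ⟨y, hy, z, hz, rfl⟩
        obtain ⟨l, hl, hy⟩ := mem_SP.1 hy
        obtain ⟨l', hl', hz⟩ := mem_SP.1 hz
        refine mem_SP.2 ⟨l.map (fun i => 2 * i) ++ l'.map (fun i => 2 * i + 1), ?_, ?_⟩
        · refine List.Nodup.append (hl.map fun a b h => by omega) (hl'.map fun a b h => by omega) ?_
          intro a ha hb
          obtain ⟨i, -, rfl⟩ := List.mem_map.1 ha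
          obtain ⟨j, -, hj⟩ := List.mem_map.1 hb
          omega
        · rw [List.map_append, List.prod_append, List.map_map, List.map_map]
          exact ⟨y, prod_mono l (fun i _ => inter_subset_left) hy, z,
            prod_mono l' (fun i _ => inter_subset_right) hz, rfl⟩
      inv' := by
        rintro _ ⟨B, hB, rfl⟩
        refine ⟨_, ⟨fun i => (B i)⁻¹, fun i => hinv _ (hB i), rfl⟩, fun g hg => ?_⟩
        obtain ⟨l, hl, hg⟩ := mem_SP.1 hg
        exact mem_SP.2 ⟨l.reverse, List.nodup_reverse.2 hl, prod_inv B l g hg⟩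
      conj' := by
        rintro g _ ⟨B, hB, rfl⟩
        refine ⟨_, ⟨fun i => _, fun i => hconj g _ (hB i), rfl⟩, fun x hx => ?_⟩
        obtain ⟨l, hl, hx⟩ := mem_SP.1 hx
        exact mem_SP.2 ⟨l, hl, prod_conj B g l x hx⟩ }
  refine ⟨@GroupTopology.mk G _ Bs.topology Bs.isTopologicalGroup, ?_, fun B hB => ?_⟩
  · intro U hU
    obtain ⟨_, ⟨B, hB, rfl⟩, h⟩ := Bs.nhds_one_hasBasis.mem_iff.1 hU
    refine mem_of_superset (hB 0) fun g hg => h (mem_SP.2 ⟨[0], List.nodup_singleton _, ?_⟩)
    simpa using hg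
  · exact Bs.mem_nhds_one ⟨B, hB, rfl⟩

theorem finite_lists (k : ℕ) : {l : List ℕ | l.Nodup ∧ ∀ i ∈ l, i < k}.Finite := by
  classical
  refine (finite_range (fun l : {l : List (Fin k) // l.Nodup} => l.1.map Fin.val)).subset ?_
  rintro l ⟨hl, hk⟩
  refine ⟨⟨l.pmap Fin.mk hk, hl.pmap fun a _ b _ h => by simpa using h⟩, ?_⟩
  simp [List.map_pmap]

variable [TopologicalSpace G] [IsTopologicalGroup G]

theorem prod_compact (B : ℕ → Set G) (hB : ∀ i, IsCompact (B i)) (l : List ℕ) :
    IsCompact (l.map B).prod := by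
  induction l with
  | nil => simp
  | cons a l ih =>
    simp only [List.map_cons, List.prod_cons]
    exact (hB a).mul ih

theorem exists_SP_notMem [T2Space G] (hnc : ∀ K : Set G, IsCompact K → K ∉ 𝓝 (1 : G))
    (U : ℕ → Set G) (hU : (𝓝 (1 : G)).HasAntitoneBasis U) (C : ℕ → Set G)
    (hC : ∀ m, IsCompact (C m)) (hCU : ∀ m, C m ⊆ U m) :
    ∃ m : ℕ → ℕ, SP (fun i => C (m i)) ∉ 𝓝 (1 : G) := by
  classical
  obtain ⟨z, hz⟩ := exists_seq_local (α := ℕ × G) (fun k z => ∀ j < k, (z j).2 ∈ U j ∧
      ∀ l : List ℕ, l.Nodup → (∀ i ∈ l, i < k) → (z j).2 ∉ (l.map fun i => C (z i).1).prod)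
    (by
      intro k z z' h hP j hj
      rw [← h j hj]
      refine ⟨(hP j hj).1, fun l hl hk => ?_⟩
      rw [← List.map_congr_left (f := fun i => C (z i).1) (fun i hi => by rw [h i (hk i hi)])]
      exact (hP j hj).2 l hl hk)
    (fun z j hj => absurd hj (Nat.not_lt_zero j))
    (by
      intro k z hP
      let Bz : ℕ → Set G := fun i => C (z i).1
      have hK : IsCompact (⋃ l ∈ {l : List ℕ | l.Nodup ∧ ∀ i ∈ l, i < k}, (l.map Bz).prod) :=
        (finite_lists k).isCompact_biUnion fun l _ => prod_compact Bz (fun i => hC _) l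
      obtain ⟨y, hyU, hyK⟩ : ∃ y ∈ U k,
          y ∉ ⋃ l ∈ {l : List ℕ | l.Nodup ∧ ∀ i ∈ l, i < k}, (l.map Bz).prod := by
        by_contra hcon
        push Not at hcon
        exact hnc _ hK (mem_of_superset (hU.mem k) hcon)
      let x : ℕ → G := fun j => if j = k then y else (z j).2
      have hx : ∀ j < k + 1, ∀ l : List ℕ, l.Nodup → (∀ i ∈ l, i < k) → x j ∉ (l.map Bz).prod := by
        intro j hj l hl hk
        by_cases h : j = k
        · simp only [x, if_pos h]
          exact fun h' => hyK (mem_biUnion (x := l) ⟨hl, hk⟩ h')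
        · simp only [x, if_neg h]
          exact (hP j (by omega)).2 l hl hk
      have hV : ∀ j ∈ Iio (k + 1), ∀ l₁ ∈ {l : List ℕ | l.Nodup ∧ ∀ i ∈ l, i < k},
          ∀ l₂ ∈ {l : List ℕ | l.Nodup ∧ ∀ i ∈ l, i < k}, ∀ᶠ v in 𝓝 (1 : G), (l₁ ++ l₂).Nodup →
            ∀ a ∈ (l₁.map Bz).prod, ∀ b ∈ (l₂.map Bz).prod, a * v * b ≠ x j := by
        intro j hj l₁ h₁ l₂ h₂
        by_cases hn : (l₁ ++ l₂).Nodup
        · have hD : IsCompact ((fun p : G × G => p.1⁻¹ * x j * p.2⁻¹) ''
              ((l₁.map Bz).prod ×ˢ (l₂.map Bz).prod)) :=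
            ((prod_compact Bz (fun i => hC _) l₁).prod
              (prod_compact Bz (fun i => hC _) l₂)).image (by fun_prop)
          have h1 : (1 : G) ∉ ((fun p : G × G => p.1⁻¹ * x j * p.2⁻¹) ''
              ((l₁.map Bz).prod ×ˢ (l₂.map Bz).prod)) := by
            rintro ⟨⟨a, b⟩, ⟨ha, hb⟩, hab⟩
            refine hx j hj (l₁ ++ l₂) hn (fun i hi => ?_) ?_
            · rcases List.mem_append.1 hi with h | h
              · exact h₁.2 i h
              · exact h₂.2 i h
            · rw [List.map_append, List.prod_append]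
              refine ⟨a, ha, b, hb, ?_⟩
              simp only at hab ⊢
              rw [mul_inv_eq_one, inv_mul_eq_iff_eq_mul] at hab
              exact hab.symm
          filter_upwards [hD.isClosed.isOpen_compl.mem_nhds h1] with v hv _ a ha b hb hab
          exact hv ⟨(a, b), ⟨ha, hb⟩, by simp [← hab, mul_assoc]⟩
        · exact Eventually.of_forall fun v h => absurd h hn
      have hV' := (eventually_all_finite (finite_Iio (k + 1))).2 fun j hj =>
        (eventually_all_finite (finite_lists k)).2 fun l₁ h₁ =>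
          (eventually_all_finite (finite_lists k)).2 fun l₂ h₂ => hV j hj l₁ h₁ l₂ h₂
      obtain ⟨m, hm⟩ := hU.mem_iff.1 hV'
      refine ⟨(m, y), fun j hj => ?_⟩
      have hxj : (Function.update z k (m, y) j).2 = x j := by
        by_cases h : j = k
        · subst h
          simp [x]
        · simp [x, h]
      have hcongr : ∀ l : List ℕ, k ∉ l →
          (l.map fun i => C (Function.update z k (m, y) i).1) = l.map Bz := by
        intro l hl
        refine List.map_congr_left fun i hi => ?_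
        rw [Function.update_of_ne (by rintro rfl; exact hl hi)]
      rw [hxj]
      refine ⟨?_, fun l hl hk => ?_⟩
      · by_cases h : j = k
        · subst h
          simpa [x] using hyU
        · simpa [x, h] using (hP j (by omega)).1
      · by_cases hkl : k ∈ l
        · obtain ⟨l₁, l₂, rfl⟩ := List.append_of_mem hkl
          have hn : (k :: (l₁ ++ l₂)).Nodup := List.nodup_middle.1 hl
          obtain ⟨hn1, hn2⟩ := List.nodup_cons.1 hn
          have hk1 : k ∉ l₁ := fun h => hn1 (List.mem_append_left _ h)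
          have hk2 : k ∉ l₂ := fun h => hn1 (List.mem_append_right _ h)
          have hlt : ∀ i ∈ l₁ ++ l₂, i < k := by
            intro i hi
            have h1 : i ≠ k := by rintro rfl; exact hn1 hi
            have h2 := hk i (by
              rcases List.mem_append.1 hi with h | h <;> simp [h])
            omega
          rw [List.map_append, List.map_cons, List.prod_append, List.prod_cons, hcongr l₁ hk1,
            hcongr l₂ hk2, Function.update_self]
          rintro ⟨a, ha, _, ⟨v, hv, b, hb, rfl⟩, hab⟩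
          refine hm (hCU m hv) j hj l₁ ⟨hn2.of_append_left, fun i hi => hlt i (List.mem_append_left _ hi)⟩
            l₂ ⟨hn2.of_append_right, fun i hi => hlt i (List.mem_append_right _ hi)⟩ hn2 a ha b hb ?_
          simpa [mul_assoc] using hab
        · rw [hcongr l hkl]
          refine hx j hj l hl fun i hi => ?_
          have h1 : i ≠ k := by rintro rfl; exact hkl hi
          have := hk i hi
          omega)
  refine ⟨fun i => (z i).1, fun h => ?_⟩
  obtain ⟨j, hj⟩ := hU.mem_iff.1 h
  obtain ⟨l, hl, hjl⟩ := mem_SP.1 (hj (hz (j + 1) j (by omega)).1)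
  refine (hz (j + l.sum + 1) j (by omega)).2 l hl (fun i hi => ?_) hjl
  have := List.single_le_sum (l := l) (fun _ _ => Nat.zero_le _) i hi
  omega

theorem not_compact_nhds [T2Space G] [Countable G] (hnd : ¬ DiscreteTopology G) (K : Set G)
    (hK : IsCompact K) : K ∉ 𝓝 (1 : G) := by
  intro h
  have := hK.locallyCompactSpace_of_mem_nhds_of_group h
  obtain ⟨a, b, hb⟩ := nonempty_interior_of_iUnion_of_closed (f := fun a : G => ({a} : Set G))
    (fun a => isClosed_singleton) (iUnion_of_singleton G)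
  have hba : b = a := mem_singleton_iff.1 (interior_subset hb)
  subst hba
  have ha' : IsOpen ({b} : Set G) := by
    rw [isOpen_iff_mem_nhds]
    rintro _ rfl
    exact mem_interior_iff_mem_nhds.1 hb
  refine hnd (discreteTopology_of_isOpen_singleton_one ?_)
  have := ha'.preimage (continuous_mul_const b)
  convert this using 1
  ext c
  simp

end SP

/-- families of integer sequences that are not eventually dominated by one sequence -/
def Unbdd (F : Set (ℕ → ℕ)) : Prop := ¬ ∃ g : ℕ → ℕ, ∀ f ∈ F, ∀ᶠ n in atTop, f n ≤ g n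

theorem unbdd_univ : Unbdd univ := by
  rintro ⟨g, hg⟩
  obtain ⟨n, hn⟩ := (hg (fun n => g n + 1) (mem_univ _)).exists
  omega

theorem not_unbdd_of_countable {F : Set (ℕ → ℕ)} (hF : F.Countable) : ¬ Unbdd F := by
  intro h
  apply h
  rcases F.eq_empty_or_nonempty with rfl | hne
  · exact ⟨id, by simp⟩
  · obtain ⟨e, rfl⟩ := hF.exists_eq_range hne
    refine ⟨fun n => ∑ i ∈ Finset.range (n + 1), e i n, ?_⟩
    rintro _ ⟨i, rfl⟩
    filter_upwards [eventually_ge_atTop i] with n hn
    exact Finset.single_le_sum (f := fun i => e i n) (fun _ _ => Nat.zero_le _)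
      (Finset.mem_range.2 (by omega))

section main
variable {G : Type} [Group G] [τ : TopologicalSpace G] [IsTopologicalGroup G]

omit [IsTopologicalGroup G] in
theorem upper [Countable G] [FirstCountableTopology G] :
    ∃ y : (ℕ → ℕ) → ℕ → G, (∀ f, Tendsto (y f) atTop (𝓝 1)) ∧
      ∀ F : Set (ℕ → ℕ), Unbdd F → ∀ V : Set G, 1 ∈ V → (∀ f ∈ F, ∀ᶠ n in atTop, y f n ∈ V) →
        V ∈ 𝓝 (1 : G) := by
  classical
  obtain ⟨U, hU⟩ := (𝓝 (1 : G)).exists_antitone_basis
  obtain ⟨g, hg⟩ := exists_surjective_nat G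
  refine ⟨fun f j => if (Nat.unpair j).2 ≤ f (Nat.unpair j).1 ∧ g (Nat.unpair j).2 ∈ U (Nat.unpair j).1
    then g (Nat.unpair j).2 else 1, fun f => ?_, fun F hF V _ hV => ?_⟩
  · rw [← Nat.cofinite_eq_atTop, hU.1.tendsto_right_iff]
    intro N _
    rw [eventually_cofinite]
    refine (((finite_Iio N).biUnion fun n _ => (finite_Iic (f n)).image (Nat.pair n))).subset ?_
    intro j hj
    simp only [mem_ofPred_eq] at hj
    split_ifs at hj with h
    · have h1 : (Nat.unpair j).1 < N := by
        by_contra hcon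
        exact hj (hU.2 (not_lt.1 hcon) h.2)
      exact mem_biUnion h1 ⟨_, h.1, Nat.pair_unpair j⟩
    · exact absurd (mem_of_mem_nhds (hU.mem N)) hj
  · by_contra hcon
    have h1 : ∀ n, ∃ k, g k ∈ U n ∧ g k ∉ V := by
      intro n
      by_contra h
      push Not at h
      refine hcon (mem_of_superset (hU.mem n) fun a ha => ?_)
      obtain ⟨k, rfl⟩ := hg a
      exact h k ha
    choose h hh hh' using h1
    refine hF ⟨h, fun f hf => ?_⟩
    obtain ⟨N, hN⟩ := eventually_atTop.1 (hV f hf)
    filter_upwards [eventually_ge_atTop N] with n hn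
    by_contra hlt
    have := hN (Nat.pair n (h n)) (hn.trans (Nat.left_le_pair _ _))
    simp only [Nat.unpair_pair] at this
    rw [if_pos ⟨by omega, hh n⟩] at this
    exact hh' n this

theorem lower [Countable G] [FirstCountableTopology G] [T2Space G] (hnd : ¬ DiscreteTopology G)
    {ι : Type} (c : ι → ℕ → G) (hc : ∀ i, Tendsto (c i) atTop (𝓝 1))
    (hι : ∀ f : ι × G × Bool → ℕ → ℕ, ¬ Unbdd (range f)) :
    ∃ T : GroupTopology G, (∀ i, Tendsto (c i) atTop (@nhds G T.toTopologicalSpace 1)) ∧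
      ¬ τ ≤ T.toTopologicalSpace := by
  classical
  obtain ⟨U, hU⟩ := (𝓝 (1 : G)).exists_antitone_basis
  obtain ⟨e, he⟩ := Countable.exists_injective_nat G
  let d : ι × G × Bool → ℕ → G := fun q n => q.2.1 * (if q.2.2 then c q.1 n else (c q.1 n)⁻¹) * q.2.1⁻¹
  have hd : ∀ q, Tendsto (d q) atTop (𝓝 1) := by
    rintro ⟨i, g, _ | _⟩
    · simpa [d] using ((hc i).inv.const_mul g).mul_const g⁻¹
    · simpa [d] using ((hc i).const_mul g).mul_const g⁻¹
  have hf : ∀ q n, ∃ M, ∀ j, d q j ∉ U (n + 1) → e (d q j) ≤ M := by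
    intro q n
    obtain ⟨N, hN⟩ := eventually_atTop.1 ((hd q).eventually (hU.mem (n + 1)))
    refine ⟨∑ j ∈ Finset.range N, e (d q j), fun j hj => ?_⟩
    refine Finset.single_le_sum (f := fun j => e (d q j)) (fun _ _ => Nat.zero_le _)
      (Finset.mem_range.2 ?_)
    by_contra h
    exact hj (hN j (not_lt.1 h))
  choose f hf using hf
  obtain ⟨φ, hφ⟩ := not_not.1 (hι f)
  let W : Set G := {w | ∃ n, w ∈ U n ∧ e w ≤ φ n}
  have hW : ∀ m, IsCompact (insert 1 (W ∩ U m)) := by
    intro m
    have : Tendsto (Subtype.val : ↥(W ∩ U m) → G) cofinite (𝓝 1) := by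
      rw [hU.1.tendsto_right_iff]
      intro N _
      rw [eventually_cofinite]
      refine Finite.of_finite_image (f := fun w => e w.1) ?_
        (he.comp Subtype.val_injective).injOn
      refine ((finite_Iio N).biUnion fun n _ => finite_Iic (φ n)).subset ?_
      rintro _ ⟨⟨w, ⟨n, hn, hn'⟩, hw⟩, hwN, rfl⟩
      refine mem_biUnion (x := n) ?_ hn'
      by_contra hcon
      exact hwN (hU.2 (not_lt.1 hcon) hn)
    simpa using this.isCompact_insert_range_of_cofinite
  have hdW : ∀ q m, ∀ᶠ j in atTop, d q j ∈ insert 1 (W ∩ U m) := by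
    intro q m
    obtain ⟨N, hN⟩ := eventually_atTop.1 (hφ (f q) (mem_range_self q))
    filter_upwards [(hd q).eventually (hU.mem m), (hd q).eventually (hU.mem N)] with j h1 h2
    by_cases h : d q j = 1
    · exact Or.inl h
    · refine Or.inr ⟨?_, h1⟩
      have hex : ∃ n, d q j ∉ U (N + n + 1) := by
        obtain ⟨n, hn⟩ := hU.mem_iff.1 (isOpen_compl_singleton.mem_nhds (Ne.symm h))
        exact ⟨n, fun h' => hn (hU.2 (by omega) h') rfl⟩
      refine ⟨N + Nat.find hex, ?_, (hf q _ j (Nat.find_spec hex)).trans (hN _ (by omega))⟩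
      rcases hk : Nat.find hex with _ | k
      · exact h2
      · exact not_not.1 (Nat.find_min hex (m := k) (by omega))
  obtain ⟨T, hT, hT'⟩ := sp_top (⨆ q, map (d q) atTop) (by
      intro A hA
      rw [mem_iSup] at hA ⊢
      rintro ⟨i, g, b⟩
      rw [mem_map]
      filter_upwards [mem_map.1 (hA (i, g, !b))] with n hn
      cases b <;> simpa [d, mul_assoc] using hn) (by
      intro g A hA
      rw [mem_iSup] at hA ⊢
      rintro ⟨i, h, b⟩
      rw [mem_map]
      filter_upwards [mem_map.1 (hA (i, g * h, b))] with n hn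
      simpa [d, mul_assoc] using hn)
  obtain ⟨m, hm⟩ := exists_SP_notMem (not_compact_nhds hnd) U hU _ hW
    (fun m => insert_subset (mem_of_mem_nhds (hU.mem m)) inter_subset_right)
  refine ⟨T, fun i => ?_, fun h => hm (nhds_mono h (hT' _ fun i => ?_))⟩
  · have := (le_iSup (fun q => map (d q) atTop) (i, 1, true)).trans hT
    simp only [d, if_true, one_mul, inv_one, mul_one] at this
    exact this
  · exact mem_iSup.2 fun q => hdW q _

end main

end Pool.Agent.H86.SeqCard
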