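import Mathlib
import Pool.Agent.H86.SeqCard

set_option autoImplicit false

namespace Pool.Agent.H86.SeqCard

open Set Filter Topology Pointwise Cardinal

theorem length_le {l : List ℕ} {k : ℕ} (hl : l.Nodup) (hk : ∀ i ∈ l, i < k) : l.length ≤ k := by
  classical
  rw [← List.toFinset_card_of_nodup hl]
  simpa using Finset.card_le_card (s := l.toFinset) (t := Finset.range k)
    fun i hi => Finset.mem_range.2 (hk i (List.mem_toFinset.1 hi))

theorem exists_isolated {X : Type} [TopologicalSpace X] [T2Space X] [Countable X] {K V : Set X}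
    (hK : IsCompact K) (hV : V ⊆ K) (hne : V.Nonempty) :
    ∃ z O, IsOpen O ∧ O ∩ V = {z} := by
  have hZ : IsCompact (closure V) := hK.of_isClosed_subset isClosed_closure
    (closure_minimal hV hK.isClosed)
  haveI := isCompact_iff_compactSpace.1 hZ
  haveI : Nonempty (closure V) := (hne.mono subset_closure).to_subtype
  obtain ⟨a, b, hb⟩ := nonempty_interior_of_iUnion_of_closed
    (f := fun a : closure V => ({a} : Set (closure V)))
    (fun a => isClosed_singleton) (iUnion_of_singleton _)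
  have hba : b = a := mem_singleton_iff.1 (interior_subset hb)
  subst hba
  have ha' : IsOpen ({b} : Set (closure V)) := by
    rw [isOpen_iff_mem_nhds]
    rintro _ rfl
    exact mem_interior_iff_mem_nhds.1 hb
  obtain ⟨O, hO, hO'⟩ := isOpen_induced_iff.1 ha'
  have hbO : b.1 ∈ O := by
    have : b ∈ Subtype.val ⁻¹' O := by rw [hO']; rfl
    exact this
  have key : ∀ y ∈ O ∩ V, y = b.1 := fun y hy => by
    have : (⟨y, subset_closure hy.2⟩ : closure V) ∈ Subtype.val ⁻¹' O := hy.1
    rw [hO'] at this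
    exact congrArg Subtype.val this
  obtain ⟨y, hy⟩ := mem_closure_iff.1 b.2 O hO hbO
  exact ⟨b.1, O, hO, eq_singleton_iff_unique_mem.2 ⟨key y hy ▸ hy, key⟩⟩

variable {G : Type} [Group G]

theorem prod_subset_pow (B : ℕ → Set G) (D : Set G) (l : List ℕ) (h : ∀ i, B i ⊆ D) :
    (l.map B).prod ⊆ D ^ l.length := by
  induction l with
  | nil => simp
  | cons a l ih =>
    simp only [List.map_cons, List.prod_cons, List.length_cons, pow_succ']
    exact Set.mul_subset_mul (h a) ih

variable [τ : TopologicalSpace G] [IsTopologicalGroup G]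

theorem exists_SP_not_subset [T2Space G]
    (U : ℕ → Set G) (hU : (𝓝 (1 : G)).HasAntitoneBasis U) (C : ℕ → Set G)
    (hC : ∀ m, IsCompact (C m)) (hCU : ∀ m, C m ⊆ U m) (A : ℕ → Set G)
    (hA : ∀ k (m : ℕ → ℕ), ¬ A k ⊆ ⋃ l ∈ {l : List ℕ | l.Nodup ∧ ∀ i ∈ l, i < k},
      (l.map fun i => C (m i)).prod) :
    ∃ m : ℕ → ℕ, ∀ k, ¬ A k ⊆ SP (fun i => C (m i)) := by
  classical
  obtain ⟨z, hz⟩ := exists_seq_local (α := ℕ × G) (fun k z => ∀ j < k, (z j).2 ∈ A j ∧
      ∀ l : List ℕ, l.Nodup → (∀ i ∈ l, i < k) → (z j).2 ∉ (l.map fun i => C (z i).1).prod)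
    (by
      intro k z z' h hP j hj
      rw [← h j hj]
      refine ⟨(hP j hj).1, fun l hl hk => ?_⟩
      rw [← List.map_congr_left (f := fun i => C (z i).1) (fun i hi => by rw [h i (hk i hi)])]
      exact (hP j hj).2 l hl hk)
    (fun z j hj => absurd hj (Nat.not_lt_zero j))
    (by
      intro k z hP
      let Bz : ℕ → Set G := fun i => C (z i).1
      obtain ⟨y, hyU, hyK⟩ : ∃ y ∈ A k,
          y ∉ ⋃ l ∈ {l : List ℕ | l.Nodup ∧ ∀ i ∈ l, i < k}, (l.map Bz).prod := by
        by_contra hcon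
        push Not at hcon
        exact hA k (fun i => (z i).1) hcon
      let x : ℕ → G := fun j => if j = k then y else (z j).2
      have hx : ∀ j < k + 1, ∀ l : List ℕ, l.Nodup → (∀ i ∈ l, i < k) → x j ∉ (l.map Bz).prod := by
        intro j hj l hl hk
        by_cases h : j = k
        · simp only [x, if_pos h]
          exact fun h' => hyK (mem_biUnion (x := l) ⟨hl, hk⟩ h')
        · simp only [x, if_neg h]
          exact (hP j (by omega)).2 l hl hk
      have hV : ∀ j ∈ Iio (k + 1), ∀ l₁ ∈ {l : List ℕ | l.Nodup ∧ ∀ i ∈ l, i < k},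
          ∀ l₂ ∈ {l : List ℕ | l.Nodup ∧ ∀ i ∈ l, i < k}, ∀ᶠ v in 𝓝 (1 : G), (l₁ ++ l₂).Nodup →
            ∀ a ∈ (l₁.map Bz).prod, ∀ b ∈ (l₂.map Bz).prod, a * v * b ≠ x j := by
        intro j hj l₁ h₁ l₂ h₂
        by_cases hn : (l₁ ++ l₂).Nodup
        · have hD : IsCompact ((fun p : G × G => p.1⁻¹ * x j * p.2⁻¹) ''
              ((l₁.map Bz).prod ×ˢ (l₂.map Bz).prod)) :=
            ((prod_compact Bz (fun i => hC _) l₁).prod
              (prod_compact Bz (fun i => hC _) l₂)).image (by fun_prop)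
          have h1 : (1 : G) ∉ ((fun p : G × G => p.1⁻¹ * x j * p.2⁻¹) ''
              ((l₁.map Bz).prod ×ˢ (l₂.map Bz).prod)) := by
            rintro ⟨⟨a, b⟩, ⟨ha, hb⟩, hab⟩
            refine hx j hj (l₁ ++ l₂) hn (fun i hi => ?_) ?_
            · rcases List.mem_append.1 hi with h | h
              · exact h₁.2 i h
              · exact h₂.2 i h
            · rw [List.map_append, List.prod_append]
              refine ⟨a, ha, b, hb, ?_⟩
              simp only at hab ⊢
              rw [mul_inv_eq_one, inv_mul_eq_iff_eq_mul] at hab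
              exact hab.symm
          filter_upwards [hD.isClosed.isOpen_compl.mem_nhds h1] with v hv _ a ha b hb hab
          exact hv ⟨(a, b), ⟨ha, hb⟩, by simp [← hab, mul_assoc]⟩
        · exact Eventually.of_forall fun v h => absurd h hn
      have hV' := (eventually_all_finite (finite_Iio (k + 1))).2 fun j hj =>
        (eventually_all_finite (finite_lists k)).2 fun l₁ h₁ =>
          (eventually_all_finite (finite_lists k)).2 fun l₂ h₂ => hV j hj l₁ h₁ l₂ h₂
      obtain ⟨m, hm⟩ := hU.mem_iff.1 hV'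
      refine ⟨(m, y), fun j hj => ?_⟩
      have hxj : (Function.update z k (m, y) j).2 = x j := by
        by_cases h : j = k
        · subst h
          simp [x]
        · simp [x, h]
      have hcongr : ∀ l : List ℕ, k ∉ l →
          (l.map fun i => C (Function.update z k (m, y) i).1) = l.map Bz := by
        intro l hl
        refine List.map_congr_left fun i hi => ?_
        rw [Function.update_of_ne (by rintro rfl; exact hl hi)]
      rw [hxj]
      refine ⟨?_, fun l hl hk => ?_⟩
      · by_cases h : j = k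
        · subst h
          simpa [x] using hyU
        · simpa [x, h] using (hP j (by omega)).1
      · by_cases hkl : k ∈ l
        · obtain ⟨l₁, l₂, rfl⟩ := List.append_of_mem hkl
          have hn : (k :: (l₁ ++ l₂)).Nodup := List.nodup_middle.1 hl
          obtain ⟨hn1, hn2⟩ := List.nodup_cons.1 hn
          have hk1 : k ∉ l₁ := fun h => hn1 (List.mem_append_left _ h)
          have hk2 : k ∉ l₂ := fun h => hn1 (List.mem_append_right _ h)
          have hlt : ∀ i ∈ l₁ ++ l₂, i < k := by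
            intro i hi
            have h1 : i ≠ k := by rintro rfl; exact hn1 hi
            have h2 := hk i (by
              rcases List.mem_append.1 hi with h | h <;> simp [h])
            omega
          rw [List.map_append, List.map_cons, List.prod_append, List.prod_cons, hcongr l₁ hk1,
            hcongr l₂ hk2, Function.update_self]
          rintro ⟨a, ha, _, ⟨v, hv, b, hb, rfl⟩, hab⟩
          refine hm (hCU m hv) j hj l₁ ⟨hn2.of_append_left, fun i hi => hlt i (List.mem_append_left _ hi)⟩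
            l₂ ⟨hn2.of_append_right, fun i hi => hlt i (List.mem_append_right _ hi)⟩ hn2 a ha b hb ?_
          simpa [mul_assoc] using hab
        · rw [hcongr l hkl]
          refine hx j hj l hl fun i hi => ?_
          have h1 : i ≠ k := by rintro rfl; exact hkl hi
          have := hk i hi
          omega)
  refine ⟨fun i => (z i).1, fun j hj => ?_⟩
  obtain ⟨l, hl, hjl⟩ := mem_SP.1 (hj (hz (j + 1) j (by omega)).1)
  refine (hz (j + l.sum + 1) j (by omega)).2 l hl (fun i hi => ?_) hjl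
  have := List.single_le_sum (l := l) (fun _ _ => Nat.zero_le _) i hi
  omega

theorem lower_aux [Countable G] [T2Space G] (U : ℕ → Set G) (hU : (𝓝 (1 : G)).HasAntitoneBasis U)
    (Φ : Filter G) (hΦ : ∀ D : Set G, IsCompact D → 1 ∈ D →
      ∃ a : ℕ → G, Tendsto a atTop Φ ∧ ∀ n, ∀ᶠ j in atTop, a j ∉ D ^ n)
    {ι : Type} (c : ι → ℕ → G) (hc : ∀ i, Tendsto (c i) atTop (𝓝 1))
    (hι : ∀ f : ι × G × Bool → ℕ → ℕ, ¬ Unbdd (range f)) :
    ∃ T : GroupTopology G, (∀ i, Tendsto (c i) atTop (@nhds G T.toTopologicalSpace 1)) ∧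
      ¬ Φ ≤ @nhds G T.toTopologicalSpace 1 := by
  classical
  obtain ⟨e, he⟩ := Countable.exists_injective_nat G
  let d : ι × G × Bool → ℕ → G := fun q n => q.2.1 * (if q.2.2 then c q.1 n else (c q.1 n)⁻¹) * q.2.1⁻¹
  have hd : ∀ q, Tendsto (d q) atTop (𝓝 1) := by
    rintro ⟨i, g, _ | _⟩
    · simpa [d] using ((hc i).inv.const_mul g).mul_const g⁻¹
    · simpa [d] using ((hc i).const_mul g).mul_const g⁻¹
  have hf : ∀ q n, ∃ M, ∀ j, d q j ∉ U (n + 1) → e (d q j) ≤ M := by
    intro q n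
    obtain ⟨N, hN⟩ := eventually_atTop.1 ((hd q).eventually (hU.mem (n + 1)))
    refine ⟨∑ j ∈ Finset.range N, e (d q j), fun j hj => ?_⟩
    refine Finset.single_le_sum (f := fun j => e (d q j)) (fun _ _ => Nat.zero_le _)
      (Finset.mem_range.2 ?_)
    by_contra h
    exact hj (hN j (not_lt.1 h))
  choose f hf using hf
  obtain ⟨φ, hφ⟩ := not_not.1 (hι f)
  let W : Set G := {w | ∃ n, w ∈ U n ∧ e w ≤ φ n}
  have hW : ∀ m, IsCompact (insert 1 (W ∩ U m)) := by
    intro m
    have : Tendsto (Subtype.val : ↥(W ∩ U m) → G) cofinite (𝓝 1) := by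
      rw [hU.1.tendsto_right_iff]
      intro N _
      rw [eventually_cofinite]
      refine Finite.of_finite_image (f := fun w => e w.1) ?_
        (he.comp Subtype.val_injective).injOn
      refine ((finite_Iio N).biUnion fun n _ => finite_Iic (φ n)).subset ?_
      rintro _ ⟨⟨w, ⟨n, hn, hn'⟩, hw⟩, hwN, rfl⟩
      refine mem_biUnion (x := n) ?_ hn'
      by_contra hcon
      exact hwN (hU.2 (not_lt.1 hcon) hn)
    simpa using this.isCompact_insert_range_of_cofinite
  have hdW : ∀ q m, ∀ᶠ j in atTop, d q j ∈ insert 1 (W ∩ U m) := by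
    intro q m
    obtain ⟨N, hN⟩ := eventually_atTop.1 (hφ (f q) (mem_range_self q))
    filter_upwards [(hd q).eventually (hU.mem m), (hd q).eventually (hU.mem N)] with j h1 h2
    by_cases h : d q j = 1
    · exact Or.inl h
    · refine Or.inr ⟨?_, h1⟩
      have hex : ∃ n, d q j ∉ U (N + n + 1) := by
        obtain ⟨n, hn⟩ := hU.mem_iff.1 (isOpen_compl_singleton.mem_nhds (Ne.symm h))
        exact ⟨n, fun h' => hn (hU.2 (by omega) h') rfl⟩
      refine ⟨N + Nat.find hex, ?_, (hf q _ j (Nat.find_spec hex)).trans (hN _ (by omega))⟩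
      rcases hk : Nat.find hex with _ | k
      · exact h2
      · exact not_not.1 (Nat.find_min hex (m := k) (by omega))
  obtain ⟨T, hT, hT'⟩ := sp_top (⨆ q, map (d q) atTop) (by
      intro A hA
      rw [mem_iSup] at hA ⊢
      rintro ⟨i, g, b⟩
      rw [mem_map]
      filter_upwards [mem_map.1 (hA (i, g, !b))] with n hn
      cases b <;> simpa [d, mul_assoc] using hn) (by
      intro g A hA
      rw [mem_iSup] at hA ⊢
      rintro ⟨i, h, b⟩
      rw [mem_map]
      filter_upwards [mem_map.1 (hA (i, g * h, b))] with n hn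
      simpa [d, mul_assoc] using hn)
  obtain ⟨a, ha, ha'⟩ := hΦ _ (hW 0) (mem_insert _ _)
  obtain ⟨m, hm⟩ := exists_SP_not_subset U hU _ hW
    (fun m => insert_subset (mem_of_mem_nhds (hU.mem m)) inter_subset_right)
    (fun k => a '' Ici k) (by
      intro k m hsub
      obtain ⟨j, hj, hj'⟩ := ((eventually_ge_atTop k).and (ha' k)).exists
      obtain ⟨l, hl, hl'⟩ := mem_iUnion₂.1 (hsub ⟨j, hj, rfl⟩)
      refine hj' (Set.pow_subset_pow_right (mem_insert _ _) (length_le hl.1 hl.2)
        (prod_subset_pow _ _ l (fun i => ?_) hl'))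
      exact insert_subset_insert (inter_subset_inter_right _ (hU.2 (Nat.zero_le _))))
  refine ⟨T, fun i => ?_, fun h => ?_⟩
  · have := (le_iSup (fun q => map (d q) atTop) (i, 1, true)).trans hT
    simp only [d, if_true, one_mul, inv_one, mul_one] at this
    exact this
  · obtain ⟨k, hk⟩ := eventually_atTop.1
      (ha (h (hT' (fun i => insert 1 (W ∩ U (m i))) fun i => mem_iSup.2 fun q => hdW q _)))
    refine hm k ?_
    rintro _ ⟨j, hj, rfl⟩
    exact hk j hj

theorem strong_fu [FrechetUrysohnSpace G] [T2Space G] (hnd : ¬ DiscreteTopology G)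
    (A : ℕ → Set G) (hA : Antitone A) (h1 : ∀ n, (1 : G) ∈ closure (A n)) :
    ∃ a : ℕ → G, Tendsto a atTop (𝓝 1) ∧ ∀ n, ∀ᶠ j in atTop, a j ∈ A n := by
  obtain ⟨x, hx, hx'⟩ := mem_closure_iff_seq_limit.1 (show (1 : G) ∈ closure {1}ᶜ by
    by_contra h
    refine hnd (discreteTopology_of_isOpen_singleton_one ?_)
    rw [closure_compl, mem_compl_iff, not_not] at h
    rw [isOpen_iff_mem_nhds]
    rintro _ rfl
    exact mem_interior_iff_mem_nhds.1 h)
  choose W hW hWc hW1 using fun n => exists_mem_nhds_isClosed_subset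
    (isOpen_compl_singleton.mem_nhds (hx n))
  obtain ⟨y, hy, hy'⟩ := mem_closure_iff_seq_limit.1
    (show (1 : G) ∈ closure {y | ∃ n, y ∈ W n ∧ (x n)⁻¹ * y ∈ A n} by
      refine isClosed_closure.mem_of_tendsto hx' (Eventually.of_forall fun n => ?_)
      obtain ⟨z, hz, hz'⟩ := mem_closure_iff_seq_limit.1 (h1 n)
      have h2 : Tendsto (fun j => x n * z j) atTop (𝓝 (x n)) := by simpa using hz'.const_mul (x n)
      refine mem_closure_of_tendsto h2 ?_
      filter_upwards [h2.eventually (hW n)] with j hj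
      exact ⟨n, hj, by simpa using hz j⟩)
  choose n hn hn' using hy
  have hn2 : Tendsto n atTop atTop := by
    refine tendsto_atTop.2 fun N => ?_
    have : ∀ᶠ j in atTop, ∀ i ∈ Iio N, y j ∉ W i :=
      (eventually_all_finite (finite_Iio N)).2 fun i _ =>
        hy'.eventually ((hWc i).isOpen_compl.mem_nhds fun h => hW1 i h rfl)
    filter_upwards [this] with j hj
    by_contra h
    exact hj _ (not_le.1 h) (hn j)
  refine ⟨fun j => (x (n j))⁻¹ * y j, by simpa using (hx'.comp hn2).inv.mul hy', fun N => ?_⟩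
  filter_upwards [hn2.eventually_ge_atTop N] with j hj
  exact hA hj (hn' j)

theorem exists_coarser [Countable G] [T2Space G] :
    ∃ σ : TopologicalSpace G, @IsTopologicalGroup G σ _ ∧ @T2Space G σ ∧ τ ≤ σ ∧
      ∃ U : ℕ → Set G, (@nhds G σ 1).HasAntitoneBasis U := by
  obtain ⟨g, hg⟩ := exists_surjective_nat G
  have step : ∀ (n : ℕ) (V : {V : Set G // V ∈ 𝓝 (1 : G)}), ∃ V' : {V : Set G // V ∈ 𝓝 (1 : G)},
      V'.1 ⊆ V.1 ∧ V'.1 * V'.1 ⊆ V.1 ∧ (∀ x ∈ V'.1, x⁻¹ ∈ V.1) ∧
        ∀ i ∈ Iic n, ∀ x ∈ V'.1, g i * x * (g i)⁻¹ ∈ V.1 ∧ (g i ≠ 1 → x ≠ g i) := by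
    rintro n ⟨V, hV⟩
    obtain ⟨V₁, hV₁, h₁⟩ := exists_nhds_one_split hV
    have h2 : ∀ᶠ x in 𝓝 (1 : G), x⁻¹ ∈ V := by
      have : Tendsto (fun x : G => x⁻¹) (𝓝 1) (𝓝 1) := by simpa using continuous_inv.tendsto (1 : G)
      exact this hV
    have h3 : ∀ᶠ x in 𝓝 (1 : G), ∀ i ∈ Iic n, g i * x * (g i)⁻¹ ∈ V ∧ (g i ≠ 1 → x ≠ g i) := by
      refine (eventually_all_finite (finite_Iic n)).2 fun i _ => Eventually.and ?_ ?_
      · have : Tendsto (fun x : G => g i * x * (g i)⁻¹) (𝓝 1) (𝓝 1) := by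
          simpa using ((tendsto_id (x := 𝓝 (1 : G))).const_mul (g i)).mul_const (g i)⁻¹
        exact this hV
      · by_cases h : g i = 1
        · exact Eventually.of_forall fun _ h' => absurd h h'
        · exact (eventually_ne_nhds (Ne.symm h)).mono fun _ h' _ => h'
    refine ⟨⟨_, inter_mem (inter_mem hV hV₁) (inter_mem h2 h3)⟩, fun x hx => hx.1.1, ?_,
      fun x hx => hx.2.1, fun i hi x hx => hx.2.2 i hi⟩
    rintro _ ⟨x, hx, y, hy, rfl⟩
    exact h₁ x hx.1.2 y hy.1.2
  choose f hf using step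
  let V : ℕ → {V : Set G // V ∈ 𝓝 (1 : G)} := fun n => Nat.rec ⟨univ, univ_mem⟩ f n
  have hV : ∀ n, V (n + 1) = f n (V n) := fun _ => rfl
  have hanti : Antitone fun n => (V n).1 := antitone_nat_of_succ_le fun n => (hf n (V n)).1
  let Bs : GroupFilterBasis G :=
    { sets := range fun n => (V n).1
      nonempty := range_nonempty _
      inter_sets := by
        rintro _ _ ⟨a, rfl⟩ ⟨b, rfl⟩
        exact ⟨_, ⟨max a b, rfl⟩, subset_inter (hanti (le_max_left _ _)) (hanti (le_max_right _ _))⟩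
      one' := by
        rintro _ ⟨a, rfl⟩
        exact mem_of_mem_nhds (V a).2
      mul' := by
        rintro _ ⟨a, rfl⟩
        exact ⟨_, ⟨a + 1, rfl⟩, (hf a (V a)).2.1⟩
      inv' := by
        rintro _ ⟨a, rfl⟩
        exact ⟨_, ⟨a + 1, rfl⟩, (hf a (V a)).2.2.1⟩
      conj' := by
        rintro x _ ⟨a, rfl⟩
        obtain ⟨i, rfl⟩ := hg x
        exact ⟨_, ⟨max a i + 1, rfl⟩, fun y hy => hanti (le_max_left a i)
          ((hf _ (V _)).2.2.2 i (le_max_right a i) y hy).1⟩ }
  have hb : (@nhds G Bs.topology 1).HasBasis (fun _ : ℕ => True) fun n => (V n).1 := by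
    refine Bs.nhds_one_hasBasis.to_hasBasis ?_ ?_
    · rintro _ ⟨F, rfl⟩
      exact ⟨F, trivial, Subset.rfl⟩
    · intro F _
      exact ⟨_, ⟨F, rfl⟩, Subset.rfl⟩
  refine ⟨Bs.topology, Bs.isTopologicalGroup, ?_, ?_, _, hb, hanti⟩
  · refine @IsTopologicalGroup.t2Space_of_one_sep G Bs.topology _ Bs.isTopologicalGroup
      fun x hx => ?_
    obtain ⟨i, rfl⟩ := hg x
    exact ⟨_, hb.mem_of_mem (i := i + 1) trivial,
      fun h => ((hf _ (V _)).2.2.2 i (le_refl i) _ h).2 hx rfl⟩
  · refine continuous_id_iff_le.1 (@continuous_of_continuousAt_one G τ _ _ G _ _ Bs.topology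
      Bs.isTopologicalGroup.toContinuousMul _ _ (MonoidHom.id G) ?_)
    intro W hW
    obtain ⟨n, -, hn⟩ := hb.mem_iff.1 hW
    exact mem_of_superset (V n).2 hn

theorem lower_fu [Countable G] [FrechetUrysohnSpace G] [T2Space G] (hnd : ¬ DiscreteTopology G)
    {ι : Type} (c : ι → ℕ → G) (hc : ∀ i, Tendsto (c i) atTop (𝓝 1))
    (hι : ∀ f : ι × G × Bool → ℕ → ℕ, ¬ Unbdd (range f)) :
    ∃ T : GroupTopology G, (∀ i, Tendsto (c i) atTop (@nhds G T.toTopologicalSpace 1)) ∧
      ¬ τ ≤ T.toTopologicalSpace := by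
  obtain ⟨σ, hσ, hσ2, hle, U, hU⟩ := exists_coarser (G := G)
  obtain ⟨T, hT, hT'⟩ := @lower_aux G _ σ hσ _ hσ2 U hU (@nhds G τ 1) (by
    intro D hD hD1
    letI := τ
    refine strong_fu hnd (fun n => (D ^ n)ᶜ)
      (fun a b hab => compl_subset_compl.2 (Set.pow_subset_pow_right hD1 hab)) fun n => ?_
    have hDn : @IsCompact G σ (D ^ n) := by
      induction n with
      | zero => exact @isCompact_singleton G σ 1
      | succ n ih =>
        rw [pow_succ]
        exact @IsCompact.mul G σ _ hσ.toContinuousMul _ _ ih hD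
    rw [closure_compl, mem_compl_iff]
    intro h
    obtain ⟨z, O, hO, hz⟩ := @exists_isolated G σ hσ2 _ _ _ hDn interior_subset ⟨1, h⟩
    have hz' : IsOpen ({z} : Set G) := hz ▸ (hle O hO).inter isOpen_interior
    refine hnd (discreteTopology_of_isOpen_singleton_one ?_)
    have := hz'.preimage (continuous_mul_const z)
    convert this using 1
    ext c
    simp) ι c (fun i => (hc i).mono_right (_root_.nhds_mono hle)) hι
  exact ⟨T, hT, fun h => hT' (_root_.nhds_mono h)⟩

end Pool.Agent.H86.SeqCard
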