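import Mathlib

set_option autoImplicit false

namespace Pool.Agent.H86.Smirnov

open Set Filter Topology Cardinal

/-- colevel, history of branches, finite node -/
abbrev Node : Type := ℕ × List (ℕ → ℕ) × List ℕ

abbrev I : Type := Set ℝ

def pre (x : ℕ → ℕ) : ℕ → List ℕ
  | 0 => []
  | n + 1 => x n :: pre x n

theorem pre_length (x : ℕ → ℕ) (n : ℕ) : (pre x n).length = n := by
  induction n with
  | zero => rfl
  | succ n ih => simp [pre, ih]

theorem pre_eq {x x' : ℕ → ℕ} {n : ℕ} (h : pre x n = pre x' n) : ∀ i < n, x i = x' i := by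
  induction n with
  | zero => simp
  | succ n ih =>
    simp only [pre, List.cons.injEq] at h
    intro i hi
    rcases Nat.lt_succ_iff_lt_or_eq.1 hi with h' | rfl
    · exact ih h.2 i h'
    · exact h.1

def ch (ν : Node) (m : ℕ) : Node := (ν.1, ν.2.1, m :: ν.2.2)

def br (j : ℕ) (h : List (ℕ → ℕ)) (x : ℕ → ℕ) (n : ℕ) : Node := (j + 1, h, pre x n)

def L (ν : Node) : Set Node :=
  range (ch ν) ∪ {μ | ∃ x h n, ν.2.2 = [] ∧ ν.2.1 = x :: h ∧ μ = br ν.1 h x n}

theorem ch_inj (ν : Node) : Function.Injective (ch ν) := by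
  intro a b h
  simpa [ch] using h

theorem br_inj (j : ℕ) (h : List (ℕ → ℕ)) (x : ℕ → ℕ) : Function.Injective (br j h x) := by
  intro a b hab
  have := congrArg (fun ν : Node => ν.2.2.length) hab
  simpa [br, pre_length] using this

theorem L_countable (ν : Node) : (L ν).Countable := by
  refine (countable_range _).union ?_
  obtain ⟨j, _ | ⟨x, h⟩, σ⟩ := ν
  · simp
  · refine (countable_range (br j h x)).mono ?_
    rintro _ ⟨x', h', n, -, h2, rfl⟩
    simp only [List.cons.injEq] at h2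
    exact ⟨n, by rw [h2.1, h2.2]⟩

theorem L_level {ν μ : Node} (h : μ ∈ L ν) : μ.1 = ν.1 ∨ μ.1 = ν.1 + 1 := by
  rcases h with ⟨m, rfl⟩ | ⟨x, h, n, -, -, rfl⟩
  · exact Or.inl rfl
  · exact Or.inr rfl

theorem L_ad {ν ν' : Node} (hne : ν ≠ ν') : (L ν ∩ L ν').Finite := by
  have h1 : ∀ ν ν' : Node, (range (ch ν) ∩
      {μ | ∃ x h n, ν'.2.2 = [] ∧ ν'.2.1 = x :: h ∧ μ = br ν'.1 h x n}).Finite := by
    intro ν ν'
    refine Set.Subsingleton.finite ?_
    rintro _ ⟨⟨m, rfl⟩, x, h, n, -, h2, h3⟩ _ ⟨⟨m', rfl⟩, x', h', n', -, h2', h3'⟩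
    rw [h2, List.cons.injEq] at h2'
    have e1 := congrArg (fun ν : Node => ν.2.2.length) h3
    have e2 := congrArg (fun ν : Node => ν.2.2.length) h3'
    simp only [ch, br, List.length_cons, pre_length] at e1 e2
    rw [h3, h3', h2'.1, h2'.2, ← e1, ← e2]
  rw [L, L, union_inter_distrib_right, inter_union_distrib_left, inter_union_distrib_left]
  refine (Finite.union ?_ (h1 ν ν')).union (Finite.union (inter_comm _ _ ▸ h1 ν' ν) ?_)
  · convert finite_empty
    rw [eq_empty_iff_forall_notMem]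
    rintro _ ⟨⟨m, rfl⟩, m', h⟩
    simp only [ch, Prod.mk.injEq, List.cons.injEq] at h
    exact hne (Prod.ext h.1.symm (Prod.ext h.2.1.symm h.2.2.2.symm))
  · obtain ⟨j, _ | ⟨x, h⟩, σ⟩ := ν
    · simp
    obtain ⟨j', _ | ⟨x', h'⟩, σ'⟩ := ν'
    · simp
    by_cases hx : x = x'
    · convert finite_empty
      rw [eq_empty_iff_forall_notMem]
      rintro _ ⟨⟨y, k, n, h1, h2, rfl⟩, y', k', n', h1', h2', h3⟩
      simp only [br, Prod.mk.injEq, List.cons.injEq, add_left_inj] at h1 h2 h1' h2' h3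
      apply hne
      rw [h1, h1', hx, h3.1, h2.2, h2'.2, h3.2.1]
    · obtain ⟨i, hi⟩ := Function.ne_iff.1 hx
      refine ((finite_Iic i).image (br j h x)).subset ?_
      rintro _ ⟨⟨y, k, n, h1, h2, rfl⟩, y', k', n', h1', h2', h3⟩
      simp only [List.cons.injEq] at h2 h2'
      obtain ⟨rfl, rfl⟩ := h2
      obtain ⟨rfl, rfl⟩ := h2'
      have e1 := congrArg (fun ν : Node => ν.2.2.length) h3
      simp only [br, pre_length] at e1
      subst e1
      refine ⟨n, ?_, rfl⟩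
      by_contra hn
      exact hi (pre_eq (congrArg (fun ν : Node => ν.2.2) h3) i (by simpa using hn))

theorem exists_mad : ∃ 𝒜 : Set (Set I), (∀ A ∈ 𝒜, A.Countable) ∧
    (∀ A ∈ 𝒜, ∀ B ∈ 𝒜, A ≠ B → (A ∩ B).Finite) ∧
    ∀ S : Set I, S.Infinite → ∃ A ∈ 𝒜, (A ∩ S).Infinite := by
  obtain ⟨𝒜, h⟩ := zorn_subset {𝒜 : Set (Set I) | (∀ A ∈ 𝒜, A.Countable) ∧
    (∀ A ∈ 𝒜, ∀ B ∈ 𝒜, A ≠ B → (A ∩ B).Finite)} (by
      intro c hc hchain
      refine ⟨⋃₀ c, ⟨?_, ?_⟩, fun s hs => subset_sUnion_of_mem hs⟩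
      · rintro A ⟨s, hs, hA⟩
        exact (hc hs).1 A hA
      · rintro A ⟨s, hs, hA⟩ B ⟨t, ht, hB⟩ hAB
        rcases hchain.total hs ht with h | h
        · exact (hc ht).2 A (h hA) B hB hAB
        · exact (hc hs).2 A hA B (h hB) hAB)
  refine ⟨𝒜, h.prop.1, h.prop.2, fun S hS => ?_⟩
  by_contra hcon
  push Not at hcon
  let S' : Set I := range fun n => (hS.natEmbedding S n : I)
  have hS' : S' ⊆ S := by
    rintro _ ⟨n, rfl⟩
    exact (hS.natEmbedding S n).2
  have hinf : S'.Infinite := infinite_range_of_injective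
    (Subtype.val_injective.comp (hS.natEmbedding S).injective)
  have hfin : ∀ A ∈ 𝒜, (A ∩ S').Finite := fun A hA =>
    (hcon A hA).subset (inter_subset_inter_right _ hS')
  have : insert S' 𝒜 ⊆ 𝒜 := h.le_of_ge (show insert S' 𝒜 ∈ _ from ⟨by
      rintro A (rfl | hA)
      · exact countable_range _
      · exact h.prop.1 A hA, by
      rintro A (rfl | hA) B (rfl | hB) hAB
      · exact absurd rfl hAB
      · exact inter_comm _ _ ▸ hfin B hB
      · exact hfin A hA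
      · exact h.prop.2 A hA B hB hAB⟩) (subset_insert _ _)
  exact hinf (by simpa using hfin S' (this (mem_insert _ _)))

def mad : Set (Set I) := exists_mad.choose

inductive T : Type
  | p : T
  | y (ν : Node) (i : I) : T
  | b (ν : Node) (i : I) : T
  | l (ν : Node) (A : mad) : T

def node : T → Node
  | .p => (0, [], [])
  | .y ν _ => ν
  | .b ν _ => ν
  | .l ν _ => ν

def Up (n : ℕ) : Set T := {t | t = .p ∨ n ≤ (node t).1}

def IsOp (U : Set T) : Prop :=
  (∀ ν i, T.b ν i ∈ U → {μ ∈ L ν | T.y μ i ∉ U}.Finite) ∧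
  (∀ ν A, T.l ν A ∈ U → {i ∈ A.1 | ¬ (T.y ν i ∈ U ∧ T.b ν i ∈ U)}.Finite) ∧
  (T.p ∈ U → ∃ n, Up n ⊆ U)

theorem Up_anti {m n : ℕ} (h : m ≤ n) : Up n ⊆ Up m := by
  rintro t (rfl | ht)
  · exact Or.inl rfl
  · exact Or.inr (h.trans ht)

instance : TopologicalSpace T where
  IsOpen := IsOp
  isOpen_univ := ⟨by simp, by simp, fun _ => ⟨0, subset_univ _⟩⟩
  isOpen_inter := by
    intro U V hU hV
    refine ⟨fun ν i h => ((hU.1 ν i h.1).union (hV.1 ν i h.2)).subset ?_,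
      fun ν A h => ((hU.2.1 ν A h.1).union (hV.2.1 ν A h.2)).subset ?_, fun h => ?_⟩
    · intro μ
      simp only [mem_inter_iff, mem_union, mem_ofPred_eq]
      tauto
    · intro μ
      simp only [mem_inter_iff, mem_union, mem_ofPred_eq]
      tauto
    · obtain ⟨m, hm⟩ := hU.2.2 h.1
      obtain ⟨n, hn⟩ := hV.2.2 h.2
      exact ⟨max m n, subset_inter ((Up_anti (le_max_left _ _)).trans hm)
        ((Up_anti (le_max_right _ _)).trans hn)⟩
  isOpen_sUnion := by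
    intro S hS
    refine ⟨fun ν i ⟨U, hU, h⟩ => ((hS U hU).1 ν i h).subset ?_,
      fun ν A ⟨U, hU, h⟩ => ((hS U hU).2.1 ν A h).subset ?_, fun ⟨U, hU, h⟩ => ?_⟩
    · exact fun μ hμ => ⟨hμ.1, fun h' => hμ.2 ⟨U, hU, h'⟩⟩
    · exact fun μ hμ => ⟨hμ.1, fun h' => hμ.2 ⟨⟨U, hU, h'.1⟩, ⟨U, hU, h'.2⟩⟩⟩
    · obtain ⟨n, hn⟩ := (hS U hU).2.2 h
      exact ⟨n, hn.trans (subset_sUnion_of_mem hU)⟩

theorem isOpen_iff {U : Set T} : IsOpen U ↔ IsOp U := Iff.rfl

theorem Up_open (n : ℕ) : IsOpen (Up n) := by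
  refine ⟨fun ν i h => ?_, fun ν A h => ?_, fun _ => ⟨n, Subset.rfl⟩⟩
  · convert finite_empty
    rw [eq_empty_iff_forall_notMem]
    rintro μ ⟨h1, h2⟩
    simp only [Up, mem_ofPred_eq, reduceCtorEq, false_or, node] at h h2
    rcases L_level h1 with h3 | h3 <;> omega
  · convert finite_empty
    rw [eq_empty_iff_forall_notMem]
    rintro μ ⟨h1, h2⟩
    simp only [Up, mem_ofPred_eq, reduceCtorEq, false_or, node] at h h2
    exact h2 ⟨h, h⟩

instance : T1Space T := by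
  refine ⟨fun t => isOpen_compl_iff.1 ⟨fun ν i _ => ?_, fun ν A _ => ?_, fun h => ?_⟩⟩
  · refine (finite_singleton (node t)).subset ?_
    rintro μ ⟨-, h⟩
    simp only [mem_compl_iff, mem_singleton_iff, not_not] at h
    rw [← h]
    rfl
  · refine Set.Finite.subset (s := {i | T.y ν i = t} ∪ {i | T.b ν i = t})
      (Finite.union (Set.Subsingleton.finite ?_) (Set.Subsingleton.finite ?_)) ?_
    · intro i hi j hj
      have := hi.trans hj.symm
      simpa using this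
    · intro i hi j hj
      have := hi.trans hj.symm
      simpa using this
    · rintro i ⟨-, h⟩
      simp only [mem_compl_iff, mem_singleton_iff, mem_union, mem_ofPred_eq] at h ⊢
      tauto
  · refine ⟨(node t).1 + 1, ?_⟩
    rintro s (rfl | hs)
    · exact h
    · rintro rfl
      omega

theorem clopen_nhds (t : T) (ht : t ≠ .p) (U : Set T) (hU : IsOpen U) (htU : t ∈ U) :
    ∃ V, IsClopen V ∧ t ∈ V ∧ V ⊆ U := by
  have hlev : ∀ (V : Set T) (n : ℕ), (∀ s ∈ V, s ≠ .p ∧ (node s).1 ≤ n) → ∃ m, Up m ⊆ Vᶜ := by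
    intro V n h
    refine ⟨n + 1, ?_⟩
    rintro s (rfl | hs) hV
    · exact (h _ hV).1 rfl
    · have := (h _ hV).2
      omega
  cases t with
  | p => exact absurd rfl ht
  | y ν i =>
    exact ⟨{.y ν i}, ⟨isClosed_singleton, by simp, by simp, by simp⟩, rfl, singleton_subset_iff.2 htU⟩
  | b ν i =>
    refine ⟨{s | s = .b ν i ∨ ∃ μ ∈ L ν, s = .y μ i ∧ s ∈ U},
      ⟨isOpen_compl_iff.1 ⟨fun ν' i' h => ?_, fun ν' A _ => ?_, fun _ => hlev _ (ν.1 + 1) ?_⟩,
        fun ν' i' h => ?_, by simp, by simp⟩, Or.inl rfl, ?_⟩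
    · by_cases hν : ν' = ν
      · subst hν
        have hi : i' ≠ i := by
          rintro rfl
          exact h (Or.inl rfl)
        simp [hi]
      · refine (L_ad hν).subset ?_
        rintro μ ⟨h1, h2⟩
        simp only [mem_compl_iff, mem_ofPred_eq, reduceCtorEq, false_or, not_not, T.y.injEq] at h2
        obtain ⟨μ', h3, ⟨rfl, -⟩, -⟩ := h2
        exact ⟨h1, h3⟩
    · refine (finite_singleton i).subset ?_
      rintro i' ⟨-, h⟩
      by_contra hne
      simp only [mem_singleton_iff] at hne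
      simp [hne] at h
    · rintro s (rfl | ⟨μ, hμ, rfl, -⟩)
      · simp [node]
      · refine ⟨by simp, ?_⟩
        rcases L_level hμ with h | h <;> simp [node, h]
    · simp only [mem_ofPred_eq, T.b.injEq, reduceCtorEq, false_and, and_false, exists_false,
        or_false] at h
      obtain ⟨rfl, rfl⟩ := h
      refine (hU.1 _ _ htU).subset ?_
      rintro μ ⟨h1, h2⟩
      exact ⟨h1, fun h => h2 (Or.inr ⟨μ, h1, rfl, h⟩)⟩
    · rintro s (rfl | ⟨μ, hμ, rfl, h⟩)
      · exact htU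
      · exact h
  | l ν A =>
    obtain ⟨e, he⟩ := countable_iff_exists_injOn.1 (exists_mad.choose_spec.1 A.1 A.2)
    obtain ⟨rk, hrk⟩ := countable_iff_exists_injOn.1 (L_countable ν)
    let A' : Set I := {i ∈ A.1 | T.y ν i ∈ U ∧ T.b ν i ∈ U}
    refine ⟨{s | s = .l ν A ∨ ∃ i ∈ A', s = .y ν i ∨ s = .b ν i ∨
        ∃ μ ∈ L ν, s = .y μ i ∧ s ∈ U ∧ e i < rk μ},
      ⟨isOpen_compl_iff.1 ⟨fun ν' i' h => ?_, fun ν' B h => ?_, fun _ => hlev _ (ν.1 + 1) ?_⟩,
        fun ν' i' h => ?_, fun ν' B h => ?_, by simp⟩, Or.inl rfl, ?_⟩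
    · by_cases hν : ν' = ν
      · subst hν
        have hi : i' ∉ A' := fun hi => h (Or.inr ⟨i', hi, Or.inr (Or.inl rfl)⟩)
        convert finite_empty
        rw [eq_empty_iff_forall_notMem]
        rintro μ ⟨-, h2⟩
        simp only [mem_compl_iff, mem_ofPred_eq, reduceCtorEq, false_or, not_not, T.y.injEq] at h2
        obtain ⟨i, h3, ⟨-, rfl⟩ | ⟨_, -, ⟨-, rfl⟩, -⟩⟩ := h2 <;> exact hi h3
      · refine ((L_ad hν).insert ν).subset ?_
        rintro μ ⟨h1, h2⟩
        simp only [mem_compl_iff, mem_ofPred_eq, reduceCtorEq, false_or, not_not, T.y.injEq] at h2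
        obtain ⟨i, h3, ⟨rfl, -⟩ | ⟨_, h4, ⟨rfl, -⟩, -⟩⟩ := h2
        · exact Or.inl rfl
        · exact Or.inr ⟨h1, h4⟩
    · by_cases hν : ν' = ν
      · subst hν
        have hB : B.1 ≠ A.1 := fun h' => h (Or.inl (by rw [Subtype.ext h']))
        refine (exists_mad.choose_spec.2.1 _ B.2 _ A.2 hB).subset ?_
        rintro i ⟨h1, h2⟩
        refine ⟨h1, ?_⟩
        by_contra hi
        apply h2
        constructor
        · rintro (h | ⟨i', h3, h | h | ⟨_, -, h, -⟩⟩) <;> cases h <;> exact hi h3.1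
        · rintro (h | ⟨i', h3, h | h | ⟨_, -, h, -⟩⟩) <;> cases h
          exact hi h3.1
      · have : {i ∈ A.1 | e i < rk ν'}.Finite :=
          Finite.of_finite_image (f := e) ((finite_Iio (rk ν')).subset (by
            rintro _ ⟨i, hi, rfl⟩
            exact hi.2)) (he.mono (sep_subset _ _))
        refine this.subset ?_
        rintro i ⟨h1, h2⟩
        by_contra hi
        apply h2
        constructor
        · rintro (h | ⟨i', h3, h | h | ⟨_, -, h, -, h4⟩⟩) <;> cases h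
          · exact hν rfl
          · exact hi ⟨h3.1, h4⟩
        · rintro (h | ⟨i', h3, h | h | ⟨_, -, h, -⟩⟩) <;> cases h
          exact hν rfl
    · rintro s (rfl | ⟨i, -, rfl | rfl | ⟨μ, hμ, rfl, -⟩⟩)
      · simp [node]
      · simp [node]
      · simp [node]
      · refine ⟨by simp, ?_⟩
        rcases L_level hμ with h | h <;> simp [node, h]
    · rcases h with h | ⟨i, hi, h | h | ⟨_, -, h, -⟩⟩ <;> cases h
      have : {μ ∈ L ν | rk μ ≤ e i'}.Finite :=
        Finite.of_finite_image (f := rk) ((finite_Iic (e i')).subset (by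
          rintro _ ⟨μ, hμ, rfl⟩
          exact hμ.2)) (hrk.mono (sep_subset _ _))
      refine ((hU.1 _ _ hi.2.2).union this).subset ?_
      rintro μ ⟨h1, h2⟩
      by_contra hcon
      simp only [mem_union, mem_ofPred_eq, h1, true_and, not_or, not_not, not_le] at hcon
      exact h2 (Or.inr ⟨i', hi, Or.inr (Or.inr ⟨μ, h1, rfl, hcon.1, hcon.2⟩)⟩)
    · rcases h with h | ⟨i, hi, h | h | ⟨_, -, h, -⟩⟩ <;> cases h
      refine (hU.2.1 _ _ htU).subset ?_
      rintro i ⟨h1, h2⟩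
      refine ⟨h1, fun h => h2 ⟨Or.inr ⟨i, ⟨h1, h⟩, Or.inl rfl⟩,
        Or.inr ⟨i, ⟨h1, h⟩, Or.inr (Or.inl rfl)⟩⟩⟩
    · rintro s (rfl | ⟨i, hi, rfl | rfl | ⟨μ, hμ, rfl, h, -⟩⟩)
      · exact htU
      · exact hi.2.1
      · exact hi.2.2
      · exact h

theorem exists_good (g : T → ℝ) (hg : Continuous g) : ∃ i, ∀ ν, g (.y ν i) = g (.b ν i) := by
  have h1 : ∀ ν, {i | g (.y ν i) ≠ g (.b ν i)}.Countable := by
    intro ν
    have h2 : ∀ ε > 0, {i | ε ≤ |g (.y ν i) - g (.b ν i)|}.Finite := by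
      intro ε hε
      by_contra hinf
      obtain ⟨A, hA, hA'⟩ := exists_mad.choose_spec.2.2 _ hinf
      have hU : IsOpen (g ⁻¹' Metric.ball (g (.l ν ⟨A, hA⟩)) (ε / 2)) :=
        Metric.isOpen_ball.preimage hg
      refine hA' ((hU.2.1 ν ⟨A, hA⟩ (Metric.mem_ball_self (by positivity))).subset ?_)
      rintro i ⟨h1, h2⟩
      refine ⟨h1, fun ⟨h3, h4⟩ => ?_⟩
      simp only [mem_preimage, Metric.mem_ball, Real.dist_eq, mem_ofPred_eq] at h2 h3 h4
      rw [abs_lt] at h3 h4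
      rw [le_abs] at h2
      rcases h2 with h2 | h2 <;> linarith [h3.1, h3.2, h4.1, h4.2]
    refine (countable_iUnion fun n : ℕ =>
      (h2 (1 / ((n : ℝ) + 1)) (by positivity)).countable).mono fun i hi => ?_
    obtain ⟨n, hn⟩ := exists_nat_one_div_lt (abs_pos.2 (sub_ne_zero.2 hi))
    exact mem_iUnion.2 ⟨n, hn.le⟩
  by_contra hcon
  push Not at hcon
  have h2 : (⋃ ν, {i | g (.y ν i) ≠ g (.b ν i)}) = Set.univ :=
    eq_univ_of_forall fun i => mem_iUnion.2 (hcon i)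
  have h3 := mk_iUnion_le fun ν => {i | g (.y ν i) ≠ g (.b ν i)}
  rw [h2, mk_univ] at h3
  have h4 : ⨆ ν, #{i | g (.y ν i) ≠ g (.b ν i)} ≤ ℵ₀ :=
    ciSup_le fun ν => le_aleph0_iff_set_countable.2 (h1 ν)
  have h5 : #Node = continuum := by simp [Node]
  have h6 : #I = 2 ^ continuum := by simp [I, Cardinal.mk_real]
  have h7 := h3.trans (mul_le_mul_right h4 _)
  rw [h5, h6, continuum_mul_aleph0] at h7
  exact (cantor _).not_ge h7

theorem not_separated (g : T → ℝ) (hg : Continuous g)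
    (h0 : ∀ t, t ≠ .p → (node t).1 = 0 → g t = 0) : g .p ≤ 0 := by
  obtain ⟨i, hi⟩ := exists_good g hg
  have h1 : ∀ j (ν : Node), ν.1 = j → g (.y ν i) ≤ 0 := by
    intro j
    induction j with
    | zero => exact fun ν h => (h0 (.y ν i) (by simp) h).le
    | succ j ih =>
      intro ν hν
      by_contra hcon
      obtain ⟨ε, hε, hε'⟩ := exists_between (not_le.1 hcon)
      have step : ∀ μ : Node, ε < g (.y μ i) → ∃ m, ε < g (.y (ch μ m) i) := by
        intro μ hμ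
        have hU : IsOpen (g ⁻¹' Ioi ε) := isOpen_Ioi.preimage hg
        have := hU.1 μ i (by simpa [← hi] using hμ)
        by_contra hcon
        push Not at hcon
        refine infinite_range_of_injective (ch_inj μ) (this.subset ?_)
        rintro _ ⟨m, rfl⟩
        exact ⟨Or.inl ⟨m, rfl⟩, not_lt.2 (hcon m)⟩
      obtain ⟨j', h, σ⟩ := ν
      simp only at hν
      subst hν
      -- extend the finite node to a branch
      have hbr : ∃ x : ℕ → ℕ, ∀ n ≥ σ.length, ε < g (.y (br j h x n) i) := by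
        choose! m hm using step
        obtain ⟨s, hs0, hs⟩ : ∃ s : ℕ → List ℕ, s 0 = σ ∧
            ∀ n, s (n + 1) = m (j + 1, h, s n) :: s n :=
          ⟨fun n => Nat.rec (motive := fun _ => List ℕ) σ (fun _ τ => m (j + 1, h, τ) :: τ) n,
            rfl, fun _ => rfl⟩
        have hs1 : ∀ n, ε < g (.y (j + 1, h, s n) i) := by
          intro n
          induction n with
          | zero => rw [hs0]; exact hε'
          | succ n ih => rw [hs]; exact hm _ ih
        have hσ : ∀ τ : List ℕ, ∃ x : ℕ → ℕ, ∀ x' : ℕ → ℕ, (∀ k < τ.length, x' k = x k) →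
            pre x' τ.length = τ := by
          intro τ
          induction τ with
          | nil => exact ⟨fun _ => 0, fun _ _ => rfl⟩
          | cons a τ ih =>
            obtain ⟨x, hx⟩ := ih
            refine ⟨Function.update x τ.length a, fun x' hx' => ?_⟩
            simp only [List.length_cons, pre]
            rw [hx' τ.length (by simp), Function.update_self, hx x' fun k hk => ?_]
            rw [hx' k (by simp; omega), Function.update_of_ne hk.ne]
        obtain ⟨x₀, hx₀⟩ := hσ σ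
        let x : ℕ → ℕ := fun k => if k < σ.length then x₀ k else m (j + 1, h, s (k - σ.length))
        have hx : ∀ n, pre x (σ.length + n) = s n := by
          intro n
          induction n with
          | zero => rw [hs0]; exact hx₀ x fun k hk => if_pos hk
          | succ n ih =>
            rw [← add_assoc, pre, ih, hs]
            simp [x]
        refine ⟨x, fun n hn => ?_⟩
        obtain ⟨k, rfl⟩ := Nat.exists_eq_add_of_le hn
        rw [br, hx]
        exact hs1 k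
      obtain ⟨x, hx⟩ := hbr
      have h2 := ih (j, x :: h, []) rfl
      have hU : IsOpen (g ⁻¹' Iio ε) := isOpen_Iio.preimage hg
      have h3 := hU.1 (j, x :: h, []) i (by
        simp only [mem_preimage, mem_Iio, ← hi]
        linarith)
      refine ((Ici_infinite σ.length).image (br_inj j h x).injOn) (h3.subset ?_)
      rintro _ ⟨n, hn, rfl⟩
      exact ⟨Or.inr ⟨x, h, n, rfl, rfl, rfl⟩, not_lt.2 (hx n hn).le⟩
  by_contra hcon
  have hU : IsOpen (g ⁻¹' Ioi 0) := isOpen_Ioi.preimage hg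
  obtain ⟨n, hn⟩ := hU.2.2 (not_le.1 hcon)
  exact (h1 n (n, [], []) rfl).not_gt (hn (Or.inr le_rfl))

noncomputable def z (k : ℕ) : ℚ := (Denumerable.eqv ℚ).symm k

theorem z_surj : Function.Surjective z := (Denumerable.eqv ℚ).symm.surjective

def ball (k m : ℕ) : Set ℝ := Metric.ball (z k : ℝ) (1 / ((m : ℝ) + 1))

def D : List ℕ → Set ℝ
  | [] => ∅
  | m :: σ => D σ ∪ ball σ.length m

theorem ball_subset_D (x : ℕ → ℕ) {k n : ℕ} (h : k < n) : ball k (x k) ⊆ D (pre x n) := by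
  induction n with
  | zero => omega
  | succ n ih =>
    rcases Nat.lt_succ_iff_lt_or_eq.1 h with h' | rfl
    · exact (ih h').trans subset_union_left
    · rw [pre, D, pre_length]
      exact subset_union_right

theorem lt_loc {r₀ : ℝ} (h : Irrational r₀) (q : ℚ) :
    ∀ᶠ r : ℝ in 𝓝 r₀, (r < q ↔ r₀ < q) ∧ (q < r ↔ q < r₀) := by
  rcases lt_or_gt_of_ne (h.ne_rat q) with h' | h'
  · filter_upwards [Iio_mem_nhds h'] with r hr
    have : r < q := hr
    exact ⟨iff_of_true this h', iff_of_false this.not_gt h'.not_gt⟩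
  · filter_upwards [Ioi_mem_nhds h'] with r hr
    have : (q : ℝ) < r := hr
    exact ⟨iff_of_false this.not_gt h'.not_gt, iff_of_true this h'⟩

theorem ball_loc {r₀ : ℝ} (h : Irrational r₀) (k m : ℕ) :
    ∀ᶠ r in 𝓝 r₀, (r ∈ ball k m ↔ r₀ ∈ ball k m) := by
  filter_upwards [lt_loc h (z k - 1 / (m + 1)), lt_loc h (z k + 1 / (m + 1))] with r h1 h2
  push_cast at h1 h2
  simp only [ball, Real.ball_eq_Ioo, mem_Ioo]
  rw [h1.2, h2.1]

theorem D_loc {r₀ : ℝ} (h : Irrational r₀) (σ : List ℕ) : ∀ᶠ r in 𝓝 r₀, (r ∈ D σ ↔ r₀ ∈ D σ) := by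
  induction σ with
  | nil => simp [D]
  | cons m σ ih =>
    filter_upwards [ih, ball_loc h σ.length m] with r h1 h2
    simp only [D, mem_union, h1, h2]

theorem ball_small {r₀ : ℝ} (h : Irrational r₀) (k : ℕ) :
    ∃ M, ∀ᶠ r in 𝓝 r₀, ∀ m ≥ M, r ∉ ball k m := by
  obtain ⟨M, hM⟩ := exists_nat_one_div_lt (dist_pos.2 (h.ne_rat (z k)))
  refine ⟨M, ?_⟩
  have hc : Continuous fun r : ℝ => dist r (z k : ℝ) := by fun_prop
  filter_upwards [(hc.tendsto r₀).eventually (lt_mem_nhds hM)] with r hr m hm h'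
  have : 1 / ((m : ℝ) + 1) ≤ 1 / ((M : ℝ) + 1) := Nat.one_div_le_one_div hm
  simp only [ball, Metric.mem_ball] at h'
  linarith

theorem exists_c (x : ℕ → ℕ) : ∃ c : ℝ, Irrational c ∧ ∀ q : ℚ, ∃ k, c + q ∈ ball k (x k) := by
  have h1 : ∀ q : ℚ, IsOpen ((fun c : ℝ => c + q) ⁻¹' ⋃ k, ball k (x k)) := fun q =>
    (isOpen_iUnion fun k => Metric.isOpen_ball).preimage (by fun_prop)
  have h2 : ∀ q : ℚ, Dense ((fun c : ℝ => c + q) ⁻¹' ⋃ k, ball k (x k)) := by
    intro q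
    refine Rat.denseRange_cast.mono ?_
    rintro _ ⟨a, rfl⟩
    obtain ⟨k, hk⟩ := z_surj (a + q)
    refine mem_iUnion.2 ⟨k, ?_⟩
    simp only [ball, hk]
    push_cast
    exact Metric.mem_ball_self (by positivity)
  obtain ⟨c, hc1, hc2⟩ := (dense_irrational.inter_of_Gδ IsGδ.setOfPred_irrational
    (IsGδ.iInter fun q => (h1 q).isGδ) (dense_iInter_of_isOpen h1 h2)).nonempty
  exact ⟨c, hc1, fun q => mem_iUnion.1 (mem_iInter.1 hc2 q)⟩

noncomputable def cN (ν : Node) : ℝ := (exists_c (ν.2.1.headD fun _ => 0)).choose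

noncomputable def c (t : T) : ℝ := cN (node t)

theorem c_irr (t : T) : Irrational (c t) := (exists_c _).choose_spec.1

def X : Type := {w : ℝ × T // ∃ q : ℚ, w.1 = c w.2 + q}

instance : TopologicalSpace X := inferInstanceAs (TopologicalSpace {w : ℝ × T // _})

theorem X_irr (w : X) : Irrational w.1.1 := by
  obtain ⟨q, hq⟩ := w.2
  rw [hq]
  exact (c_irr _).add_ratCast q

noncomputable instance : AddAction ℚ X where
  vadd q w := ⟨(q + w.1.1, w.1.2), by
    obtain ⟨q', hq'⟩ := w.2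
    exact ⟨q + q', by simp only [hq']; push_cast; ring⟩⟩
  zero_vadd w := Subtype.ext (Prod.ext (by change ((0 : ℚ) : ℝ) + _ = _; simp) rfl)
  add_vadd a b w := Subtype.ext (Prod.ext (by
    change ((a + b : ℚ) : ℝ) + _ = (a : ℝ) + ((b : ℝ) + _)
    push_cast
    ring) rfl)

theorem val_cont : Continuous (fun w : X => w.1) := continuous_subtype_val

instance : ContinuousVAdd ℚ X := ⟨by
  refine Continuous.subtype_mk (Continuous.prodMk ?_ ?_) _
  · exact (Rat.continuous_coe_real.comp continuous_fst).add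
      (continuous_fst.comp (val_cont.comp continuous_snd))
  · exact continuous_snd.comp (val_cont.comp continuous_snd)⟩

def Phi (j : ℕ) (r : ℝ) (ν : Node) : Prop := j < ν.1 ∨ (ν.1 = j ∧ r ∉ D ν.2.2)

theorem Phi_loc (j : ℕ) (ν : Node) (r₀ : ℝ) (h : ∃ q : ℚ, r₀ = cN ν + q) :
    ∃ E : Set Node, E.Finite ∧ ∀ᶠ r in 𝓝 r₀, (Phi j r ν ↔ Phi j r₀ ν) ∧
      ∀ μ ∈ L ν, μ ∉ E → (Phi j r μ ↔ Phi j r₀ ν) := by
  obtain ⟨q, hq⟩ := h
  have hirr : Irrational r₀ := hq ▸ (exists_c _).choose_spec.1.add_ratCast q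
  obtain ⟨M, hM⟩ := ball_small hirr ν.2.2.length
  obtain ⟨k, hk⟩ := (exists_c (ν.2.1.headD fun _ => 0)).choose_spec.2 q
  have hk' : r₀ ∈ ball k ((ν.2.1.headD fun _ => 0) k) := hq ▸ hk
  refine ⟨ch ν '' Iio M ∪ br ν.1 ν.2.1.tail (ν.2.1.headD fun _ => 0) '' Iic k,
    ((finite_Iio M).image _).union ((finite_Iic k).image _), ?_⟩
  filter_upwards [hM, D_loc hirr ν.2.2, Metric.isOpen_ball.mem_nhds hk'] with r h1 h2 h3
  refine ⟨by simp only [Phi, h2], ?_⟩
  rintro μ (⟨m, rfl⟩ | ⟨x, h, n, h4, h5, rfl⟩) hμ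
  · have hm : M ≤ m := by
      by_contra hcon
      exact hμ (Or.inl ⟨m, not_le.1 hcon, rfl⟩)
    simp only [Phi, ch, D, mem_union, h2, h1 m hm, or_false]
  · simp only [h5, List.headD_cons, List.tail_cons] at hμ h3
    have hn : k < n := by
      by_contra hcon
      exact hμ (Or.inr ⟨n, not_lt.1 hcon, rfl⟩)
    have h6 : r ∈ D (pre x n) := ball_subset_D x hn h3
    simp only [Phi, br, h4, D, h6, not_true, and_false, or_false, mem_empty_iff_false, not_false_iff,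
      and_true]
    omega

def Psi (j : ℕ) (r : ℝ) (t : T) : Prop := t = .p ∨ Phi j r (node t)

theorem Psi_loc (j : ℕ) (w : X) : ∀ᶠ v : ℝ × T in 𝓝 w.1, (Psi j v.1 v.2 ↔ Psi j w.1.1 w.1.2) := by
  obtain ⟨⟨r₀, t⟩, hw⟩ := w
  have key : ∀ (W : Set T), IsOpen W → t ∈ W →
      (∀ᶠ r in 𝓝 r₀, ∀ s ∈ W, (Psi j r s ↔ Psi j r₀ t)) →
      ∀ᶠ v : ℝ × T in 𝓝 (r₀, t), (Psi j v.1 v.2 ↔ Psi j r₀ t) := by
    intro W hW ht h
    filter_upwards [prod_mem_nhds h (hW.mem_nhds ht)] with v hv using hv.1 _ hv.2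
  cases t with
  | p =>
    refine key (Up (j + 1)) (Up_open _) (Or.inl rfl) (Eventually.of_forall fun r s hs => ?_)
    refine iff_of_true ?_ (Or.inl rfl)
    rcases hs with rfl | hs
    · exact Or.inl rfl
    · exact Or.inr (Or.inl hs)
  | y ν i =>
    obtain ⟨E, hE, h⟩ := Phi_loc j ν r₀ hw
    refine key {.y ν i} ⟨by simp, by simp, by simp⟩ rfl ?_
    filter_upwards [h] with r hr
    rintro s rfl
    simpa [Psi, node] using hr.1
  | b ν i =>
    obtain ⟨E, hE, h⟩ := Phi_loc j ν r₀ hw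
    refine key {s | s = .b ν i ∨ ∃ μ ∈ L ν, μ ∉ E ∧ s = .y μ i}
      ⟨fun ν' i' h => ?_, by simp, by simp⟩ (Or.inl rfl) ?_
    · rcases h with h | ⟨_, -, -, h⟩ <;> cases h
      refine hE.subset ?_
      rintro μ ⟨h1, h2⟩
      by_contra hcon
      exact h2 (Or.inr ⟨μ, h1, hcon, rfl⟩)
    · filter_upwards [h] with r hr
      rintro s (rfl | ⟨μ, h1, h2, rfl⟩)
      · simpa [Psi, node] using hr.1
      · simpa [Psi, node] using hr.2 μ h1 h2
  | l ν A =>
    obtain ⟨E, hE, h⟩ := Phi_loc j ν r₀ hw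
    refine key {s | s = .l ν A ∨ ∃ i, s = .y ν i ∨ s = .b ν i ∨ ∃ μ ∈ L ν, μ ∉ E ∧ s = .y μ i}
      ⟨fun ν' i' h => ?_, fun ν' B h => ?_, by simp⟩ (Or.inl rfl) ?_
    · rcases h with h | ⟨i, h | h | ⟨_, -, -, h⟩⟩ <;> cases h
      refine hE.subset ?_
      rintro μ ⟨h1, h2⟩
      by_contra hcon
      exact h2 (Or.inr ⟨i', Or.inr (Or.inr ⟨μ, h1, hcon, rfl⟩)⟩)
    · rcases h with h | ⟨i, h | h | ⟨_, -, -, h⟩⟩ <;> cases h
      convert finite_empty
      rw [eq_empty_iff_forall_notMem]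
      rintro i ⟨-, h⟩
      exact h ⟨Or.inr ⟨i, Or.inl rfl⟩, Or.inr ⟨i, Or.inr (Or.inl rfl)⟩⟩
    · filter_upwards [h] with r hr
      rintro s (rfl | ⟨i, rfl | rfl | ⟨μ, h1, h2, rfl⟩⟩)
      · simpa [Psi, node] using hr.1
      · simpa [Psi, node] using hr.1
      · simpa [Psi, node] using hr.1
      · simpa [Psi, node] using hr.2 μ h1 h2

theorem clopen_of_loc {Z : Type} [TopologicalSpace Z] {P : Z → Prop}
    (h : ∀ w, ∀ᶠ v in 𝓝 w, (P v ↔ P w)) : IsClopen {w | P w} := by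
  constructor
  · rw [← isOpen_compl_iff, isOpen_iff_mem_nhds]
    intro w hw
    filter_upwards [h w] with v hv h' using hw (hv.1 h')
  · rw [isOpen_iff_mem_nhds]
    intro w hw
    filter_upwards [h w] with v hv using hv.2 hw

theorem Psi_clopen (j : ℕ) : IsClopen {w : X | Psi j w.1.1 w.1.2} :=
  clopen_of_loc fun w => (val_cont.tendsto w).eventually (Psi_loc j w)

theorem interval_clopen (a b : ℚ) : IsClopen {w : X | a < w.1.1 ∧ w.1.1 < b} := by
  refine clopen_of_loc fun w => ?_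
  have hc : Continuous fun w : X => w.1.1 := continuous_fst.comp val_cont
  filter_upwards [(hc.tendsto w).eventually (lt_loc (X_irr w) a),
    (hc.tendsto w).eventually (lt_loc (X_irr w) b)] with v h1 h2
  rw [h1.2, h2.1]

theorem X_basis : TopologicalSpace.IsTopologicalBasis {s : Set X | IsClopen s} := by
  refine TopologicalSpace.isTopologicalBasis_of_isOpen_of_nhds (fun u hu => hu.2) ?_
  intro w U hw hU
  obtain ⟨U', hU', hUU⟩ := (mem_nhds_subtype _ _ _).1 (hU.mem_nhds hw)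
  obtain ⟨A, hA, B, hB, hAB⟩ := mem_nhds_prod_iff.1 hU'
  obtain ⟨a, b, hab, hA'⟩ := mem_nhds_iff_exists_Ioo_subset.1 hA
  obtain ⟨a', ha1, ha2⟩ := exists_rat_btwn hab.1
  obtain ⟨b', hb1, hb2⟩ := exists_rat_btwn hab.2
  obtain ⟨B', hBB, hB'o, hB'⟩ := mem_nhds_iff.1 hB
  have : ∃ V : Set X, IsClopen V ∧ w ∈ V ∧ ∀ v ∈ V, v.1.2 ∈ B' := by
    by_cases ht : w.1.2 = .p
    · obtain ⟨n, hn⟩ := hB'o.2.2 (ht ▸ hB')
      refine ⟨_, Psi_clopen n, Or.inl ht, fun v hv => hn ?_⟩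
      rcases hv with h | h | h
      · exact Or.inl h
      · exact Or.inr h.le
      · exact Or.inr h.1.ge
    · obtain ⟨V, hV, h1, h2⟩ := clopen_nhds _ ht B' hB'o hB'
      exact ⟨_, hV.preimage (continuous_snd.comp val_cont), h1, fun v hv => h2 hv⟩
  obtain ⟨V, hV, h1, h2⟩ := this
  refine ⟨_, (interval_clopen a' b').inter hV, ⟨⟨ha2, hb1⟩, h1⟩, fun v hv => hUU (hAB ⟨hA' ?_, hBB (h2 v hv.2)⟩)⟩
  exact ⟨ha1.trans hv.1.1, hv.1.2.trans hb2⟩

instance : T1Space X := inferInstanceAs (T1Space {w : ℝ × T // _})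

instance : T35Space X :=
  { toCompletelyRegularSpace := CompletelyRegularSpace.of_isTopologicalBasis_clopens X_basis }

theorem exists_near (t : T) (r δ : ℝ) (hδ : 0 < δ) : ∃ s : ℝ, (∃ q : ℚ, s = c t + q) ∧ |s - r| < δ := by
  obtain ⟨q, h1, h2⟩ := exists_rat_btwn (show r - c t - δ < r - c t + δ by linarith)
  exact ⟨c t + q, ⟨q, rfl⟩, abs_lt.2 ⟨by linarith, by linarith⟩⟩

theorem no_uniform (f : X → ℝ) (hf : Continuous f)
    (hu : ∀ ε > 0, ∃ δ > 0, ∀ q : ℚ, |(q : ℝ)| < δ → ∀ w, |f (q +ᵥ w) - f w| < ε)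
    (h0 : ∀ w : X, w.1.2 ≠ .p → (node w.1.2).1 = 0 → f w = 0) :
    f ⟨(c .p, .p), 0, by simp⟩ ≤ 0 := by
  have hu' : ∀ ε > 0, ∃ δ > 0, ∀ v w : X, v.1.2 = w.1.2 → |v.1.1 - w.1.1| < δ → |f v - f w| < ε := by
    intro ε hε
    obtain ⟨δ, hδ, h⟩ := hu ε hε
    refine ⟨δ, hδ, ?_⟩
    rintro ⟨⟨r, t⟩, q, hq⟩ ⟨⟨r', t'⟩, q', hq'⟩ h1 h2
    simp only at h1 h2 hq hq'
    subst h1
    have h3 : ((q - q' : ℚ) : ℝ) = r - r' := by
      rw [hq, hq']
      push_cast
      ring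
    have := h (q - q') (by rwa [h3]) ⟨(r', t), q', hq'⟩
    convert this using 4
    refine Subtype.ext (Prod.ext ?_ rfl)
    change r = ((q - q' : ℚ) : ℝ) + r'
    rw [h3]
    ring
  choose s hs hs' using fun (t : T) (n : ℕ) => exists_near t (c .p) (1 / ((n : ℝ) + 1)) (by positivity)
  let u : T → ℕ → ℝ := fun t n => f ⟨(s t n, t), hs t n⟩
  have hsmall : ∀ δ > 0, ∃ N : ℕ, ∀ n ≥ N, ∀ t, |s t n - c .p| < δ := by
    intro δ hδ
    obtain ⟨N, hN⟩ := exists_nat_one_div_lt hδ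
    exact ⟨N, fun n hn t => (hs' t n).trans_le ((Nat.one_div_le_one_div hn).trans hN.le)⟩
  have hcau : ∀ t, ∃ a, Tendsto (u t) atTop (𝓝 a) := by
    intro t
    refine cauchySeq_tendsto_of_complete (Metric.cauchySeq_iff.2 fun ε hε => ?_)
    obtain ⟨δ, hδ, h⟩ := hu' ε hε
    obtain ⟨N, hN⟩ := hsmall (δ / 2) (by positivity)
    refine ⟨N, fun m hm n hn => h _ _ rfl ?_⟩
    have h1 := abs_lt.1 (hN m hm t)
    have h2 := abs_lt.1 (hN n hn t)
    exact abs_lt.2 ⟨by linarith [h1.1, h2.2], by linarith [h1.2, h2.1]⟩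
  choose g hg using hcau
  have hP : ∀ ε > 0, ∃ δ > 0, ∀ w : X, |w.1.1 - c .p| < δ → |f w - g w.1.2| ≤ ε := by
    intro ε hε
    obtain ⟨δ, hδ, h⟩ := hu' ε hε
    obtain ⟨N, hN⟩ := hsmall (δ / 2) (by positivity)
    refine ⟨δ / 2, by positivity, fun w hw => ?_⟩
    refine le_of_tendsto ((tendsto_const_nhds.sub (hg w.1.2)).abs) ?_
    filter_upwards [eventually_ge_atTop N] with n hn
    refine (h w ⟨(s w.1.2 n, w.1.2), hs _ n⟩ rfl ?_).le
    have h1 := abs_lt.1 hw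
    have h2 := abs_lt.1 (hN n hn w.1.2)
    exact abs_lt.2 ⟨by linarith [h1.1, h2.2], by linarith [h1.2, h2.1]⟩
  have hgc : Continuous g := by
    refine continuous_iff_continuousAt.2 fun t => Metric.tendsto_nhds.2 fun ε hε => ?_
    obtain ⟨δ, hδ, h⟩ := hP (ε / 4) (by positivity)
    obtain ⟨r, hr, hr'⟩ := exists_near t (c .p) (δ / 2) (by positivity)
    have h1 := Metric.tendsto_nhds.1 (hf.tendsto ⟨(r, t), hr⟩) (ε / 4) (by positivity)
    obtain ⟨U', hU', hUU⟩ := (mem_nhds_subtype _ _ _).1 h1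
    obtain ⟨A, hA, B, hB, hAB⟩ := mem_nhds_prod_iff.1 hU'
    obtain ⟨η, hη, hA'⟩ := Metric.mem_nhds_iff.1 hA
    filter_upwards [hB] with t' ht'
    obtain ⟨r', hr1, hr2⟩ := exists_near t' r (min η (δ / 2)) (by positivity)
    have h2 : dist (f ⟨(r', t'), hr1⟩) (f ⟨(r, t), hr⟩) < ε / 4 :=
      hUU (a := ⟨(r', t'), hr1⟩) (hAB ⟨hA' (hr2.trans_le (min_le_left _ _)), ht'⟩)
    have h3 := abs_lt.1 hr'
    have h4 := abs_lt.1 (hr2.trans_le (min_le_right _ _))
    have h5 := abs_le.1 (h ⟨(r', t'), hr1⟩ (abs_lt.2 ⟨by linarith [h3.1, h4.1], by linarith [h3.2, h4.2]⟩))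
    have h6 := abs_le.1 (h ⟨(r, t), hr⟩ (hr'.trans (by linarith)))
    rw [Real.dist_eq] at h2 ⊢
    have h7 := abs_lt.1 h2
    simp only at h5 h6
    exact abs_lt.2 ⟨by linarith [h5.1, h5.2, h6.1, h6.2, h7.1, h7.2],
      by linarith [h5.1, h5.2, h6.1, h6.2, h7.1, h7.2]⟩
  have h1 := not_separated g hgc (fun t ht ht' => by
    have : u t = fun _ => 0 := funext fun n => h0 _ ht ht'
    exact tendsto_nhds_unique (hg t) (this ▸ tendsto_const_nhds))
  refine le_of_forall_pos_le_add fun ε hε => ?_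
  obtain ⟨δ, hδ, h⟩ := hP ε hε
  have := abs_le.1 (h ⟨(c .p, .p), 0, by simp⟩ (by simpa using hδ))
  simp only at this
  linarith [this.2]

end Pool.Agent.H86.Smirnov
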