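import Pool.Agent.H86.SvDefs

set_option autoImplicit false

namespace Pool.Agent.H86.Surv

abbrev X := ℤ × ℤ × Fin 6

def dA : Fin 6 → ℤ := ![1, 1, 0, -1, -1, 0]
def dB : Fin 6 → ℤ := ![-1, 0, 1, 1, 0, -1]

def n1 (u : X) : X := (u.1, u.2.1, u.2.2 + 1)
def n2 (u : X) : X := (u.1, u.2.1, u.2.2 + 5)
def n3 (u : X) : X := (u.1 + dA u.2.2, u.2.1 + dB u.2.2, u.2.2 + 3)
def n4 (u : X) : X := (u.1 + dA (u.2.2 + 5), u.2.1 + dB (u.2.2 + 5), u.2.2 + 3)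

def R (u v : X) : Prop := v = n1 u ∨ v = n2 u ∨ v = n3 u ∨ v = n4 u

def c1 : Fin 6 → ℤ := ![0, 1, 0, -1, 0, -1]
def c2 : Fin 6 → ℤ := ![0, 1, 0, 1, 2, 1]
def c3 : Fin 6 → ℤ := ![0, 1, 2, 1, 0, 1]
def c4 : Fin 6 → ℤ := ![0, -1, 0, -1, 0, 1]
def c5 : Fin 6 → ℤ := ![2, 1, 2, 3, 2, 1]
def c6 : Fin 6 → ℤ := ![2, 1, 0, 1, 0, 1]

def F (u : X) : ℤ :=
  max (max (max (2 * u.1 + c1 u.2.2) (-2 * u.1 + c2 u.2.2))
    (max (2 * u.1 + 2 * u.2.1 + c3 u.2.2) (-2 * u.1 - 2 * u.2.1 + c4 u.2.2)))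
    (if (u.2.2 = 0 ∧ u.2.1 = 0) ∨ (u.2.2 = 3 ∧ u.2.1 = -1) then 0 else
      max (2 * u.2.1 + c5 u.2.2) (-2 * u.2.1 + c6 u.2.2))

theorem F0 (m n : ℤ) : F (m, n, 0) = max (max (max (2 * m) (-2 * m)) (max (2 * m + 2 * n) (-2 * m - 2 * n)))
    (if n = 0 then 0 else max (2 * n + 2) (-2 * n + 2)) := by simp [F, c1, c2, c3, c4, c5, c6]
theorem F1 (m n : ℤ) : F (m, n, 1) = max (max (max (2 * m + 1) (-2 * m + 1))
    (max (2 * m + 2 * n + 1) (-2 * m - 2 * n + -1))) (max (2 * n + 1) (-2 * n + 1)) := by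
  simp [F, c1, c2, c3, c4, c5, c6]
theorem F2 (m n : ℤ) : F (m, n, 2) = max (max (max (2 * m) (-2 * m))
    (max (2 * m + 2 * n + 2) (-2 * m - 2 * n))) (max (2 * n + 2) (-2 * n)) := by
  simp [F, c1, c2, c3, c4, c5, c6]
theorem F3 (m n : ℤ) : F (m, n, 3) = max (max (max (2 * m + -1) (-2 * m + 1))
    (max (2 * m + 2 * n + 1) (-2 * m - 2 * n + -1)))
    (if n = -1 then 0 else max (2 * n + 3) (-2 * n + 1)) := by simp [F, c1, c2, c3, c4, c5, c6]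
theorem F4 (m n : ℤ) : F (m, n, 4) = max (max (max (2 * m) (-2 * m + 2))
    (max (2 * m + 2 * n) (-2 * m - 2 * n))) (max (2 * n + 2) (-2 * n)) := by
  simp [F, c1, c2, c3, c4, c5, c6]
theorem F5 (m n : ℤ) : F (m, n, 5) = max (max (max (2 * m + -1) (-2 * m + 1))
    (max (2 * m + 2 * n + 1) (-2 * m - 2 * n + 1))) (max (2 * n + 1) (-2 * n + 1)) := by
  simp [F, c1, c2, c3, c4, c5, c6]

theorem six (k : Fin 6) : k = 0 ∨ k = 1 ∨ k = 2 ∨ k = 3 ∨ k = 4 ∨ k = 5 := by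
  fin_cases k <;> simp

theorem nb0 (m n : ℤ) : n1 (m, n, 0) = (m, n, 1) ∧ n2 (m, n, 0) = (m, n, 5) ∧
    n3 (m, n, 0) = (m + 1, n - 1, 3) ∧ n4 (m, n, 0) = (m, n - 1, 3) := by
  simp [n1, n2, n3, n4, dA, dB, sub_eq_add_neg]
theorem nb1 (m n : ℤ) : n1 (m, n, 1) = (m, n, 2) ∧ n2 (m, n, 1) = (m, n, 0) ∧
    n3 (m, n, 1) = (m + 1, n, 4) ∧ n4 (m, n, 1) = (m + 1, n - 1, 4) := by
  simp [n1, n2, n3, n4, dA, dB, sub_eq_add_neg]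
theorem nb2 (m n : ℤ) : n1 (m, n, 2) = (m, n, 3) ∧ n2 (m, n, 2) = (m, n, 1) ∧
    n3 (m, n, 2) = (m, n + 1, 5) ∧ n4 (m, n, 2) = (m + 1, n, 5) := by
  simp [n1, n2, n3, n4, dA, dB, sub_eq_add_neg]
theorem nb3 (m n : ℤ) : n1 (m, n, 3) = (m, n, 4) ∧ n2 (m, n, 3) = (m, n, 2) ∧
    n3 (m, n, 3) = (m - 1, n + 1, 0) ∧ n4 (m, n, 3) = (m, n + 1, 0) := by
  simp [n1, n2, n3, n4, dA, dB, sub_eq_add_neg]
theorem nb4 (m n : ℤ) : n1 (m, n, 4) = (m, n, 5) ∧ n2 (m, n, 4) = (m, n, 3) ∧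
    n3 (m, n, 4) = (m - 1, n, 1) ∧ n4 (m, n, 4) = (m - 1, n + 1, 1) := by
  simp [n1, n2, n3, n4, dA, dB, sub_eq_add_neg]
theorem nb5 (m n : ℤ) : n1 (m, n, 5) = (m, n, 0) ∧ n2 (m, n, 5) = (m, n, 4) ∧
    n3 (m, n, 5) = (m, n - 1, 2) ∧ n4 (m, n, 5) = (m - 1, n, 2) := by
  simp [n1, n2, n3, n4, dA, dB, sub_eq_add_neg]

theorem R_symm {u v : X} (h : R u v) : R v u := by
  obtain ⟨m, n, k⟩ := u
  rcases six k with rfl | rfl | rfl | rfl | rfl | rfl <;> rcases h with rfl | rfl | rfl | rfl <;>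
    simp [R, nb0, nb1, nb2, nb3, nb4, nb5]

theorem R_irr (u : X) : ¬ R u u := by
  obtain ⟨m, n, k⟩ := u
  rcases six k with rfl | rfl | rfl | rfl | rfl | rfl <;> simp [R, nb0, nb1, nb2, nb3, nb4, nb5]

def Gr : SimpleGraph X where
  Adj := R
  symm := ⟨fun _ _ h => R_symm h⟩
  loopless := ⟨R_irr⟩

theorem lip {u v : X} (h : Gr.Adj u v) : F v ≤ F u + 1 := by
  obtain ⟨m, n, k⟩ := u
  rcases six k with rfl | rfl | rfl | rfl | rfl | rfl <;> rcases h with rfl | rfl | rfl | rfl <;>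
    simp only [nb0, nb1, nb2, nb3, nb4, nb5, F0, F1, F2, F3, F4, F5, max_le_iff] <;> omega

theorem F_nonneg (u : X) : 0 ≤ F u := by
  obtain ⟨m, n, k⟩ := u
  rcases six k with rfl | rfl | rfl | rfl | rfl | rfl <;>
    simp only [F0, F1, F2, F3, F4, F5] <;> omega

theorem desc (u : X) : u = (0, 0, 0) ∨ F (n1 u) < F u ∨ F (n2 u) < F u ∨ F (n3 u) < F u ∨
    F (n4 u) < F u := by
  obtain ⟨m, n, k⟩ := u
  rcases six k with rfl | rfl | rfl | rfl | rfl | rfl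
  · simp only [nb0, F0, F1, F3, F5, max_lt_iff, Prod.mk.injEq, and_true]
    omega
  all_goals
    right
    simp only [nb1, nb2, nb3, nb4, nb5, F0, F1, F2, F3, F4, F5, max_lt_iff]
    omega

end Pool.Agent.H86.Surv
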