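import Pool.Agent.H86.SvA

set_option autoImplicit false

namespace Pool.Agent.H86.Surv

theorem adj1 (u : X) : Gr.Adj u (n1 u) := Or.inl rfl
theorem adj2 (u : X) : Gr.Adj u (n2 u) := Or.inr (Or.inl rfl)
theorem adj3 (u : X) : Gr.Adj u (n3 u) := Or.inr (Or.inr (Or.inl rfl))
theorem adj4 (u : X) : Gr.Adj u (n4 u) := Or.inr (Or.inr (Or.inr rfl))

theorem walk_ex : ∀ (N : ℕ) (u : X), F u ≤ N → ∃ p : Gr.Walk u (0, 0, 0), (p.length : ℤ) ≤ F u := by
  intro N
  induction N with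
  | zero =>
    intro u hu
    rcases desc u with rfl | h | h | h | h
    · exact ⟨.nil, F_nonneg _⟩
    all_goals exact absurd (lt_of_le_of_lt (F_nonneg _) h) (by push_cast at hu; omega)
  | succ N ih =>
    intro u hu
    have key : ∀ v, Gr.Adj u v → F v < F u → ∃ p : Gr.Walk u (0, 0, 0), (p.length : ℤ) ≤ F u := by
      intro v hv h
      obtain ⟨p, hp⟩ := ih v (by push_cast at hu; omega)
      exact ⟨.cons hv p, by rw [SimpleGraph.Walk.length_cons]; push_cast; omega⟩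
    rcases desc u with rfl | h | h | h | h
    · exact ⟨.nil, F_nonneg _⟩
    · exact key _ (adj1 u) h
    · exact key _ (adj2 u) h
    · exact key _ (adj3 u) h
    · exact key _ (adj4 u) h

theorem walk_ex' (u : X) : ∃ p : Gr.Walk u (0, 0, 0), (p.length : ℤ) ≤ F u :=
  walk_ex (F u).toNat u (Int.self_le_toNat _)

theorem conn : Gr.Connected := by
  refine ⟨fun u v => ?_⟩
  obtain ⟨p, -⟩ := walk_ex' u
  obtain ⟨q, -⟩ := walk_ex' v
  exact p.reachable.trans q.reachable.symm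

theorem F_walk {u v : X} (p : Gr.Walk u v) : F u ≤ F v + p.length := by
  induction p with
  | nil => simp
  | cons h p ih =>
    have := lip h.symm
    rw [SimpleGraph.Walk.length_cons]; push_cast; omega

theorem dist_o (u : X) : (Gr.dist u (0, 0, 0) : ℤ) = F u := by
  apply le_antisymm
  · obtain ⟨p, hp⟩ := walk_ex' u
    exact le_trans (by exact_mod_cast SimpleGraph.dist_le p) hp
  · obtain ⟨p, hp⟩ := conn.exists_walk_length_eq_dist u (0, 0, 0)
    have := F_walk p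
    rw [hp, F0] at this
    simpa using this

theorem iso_le (σ : Gr ≃g Gr) (u v : X) : Gr.dist (σ u) (σ v) ≤ Gr.dist u v := by
  obtain ⟨p, hp⟩ := conn.exists_walk_length_eq_dist u v
  have := SimpleGraph.dist_le (p.map σ.toHom)
  rwa [SimpleGraph.Walk.length_map, hp] at this

theorem iso_dist (σ : Gr ≃g Gr) (u v : X) : Gr.dist (σ u) (σ v) = Gr.dist u v := by
  refine le_antisymm (iso_le σ u v) ?_
  simpa using iso_le σ.symm (σ u) (σ v)

def mkIso (f g : X → X) (h1 : ∀ u, g (f u) = u) (h2 : ∀ u, f (g u) = u)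
    (h3 : ∀ u v, R u v → R (f u) (f v)) (h4 : ∀ u v, R u v → R (g u) (g v)) : Gr ≃g Gr where
  toFun := f
  invFun := g
  left_inv := h1
  right_inv := h2
  map_rel_iff' := fun {a b} => ⟨fun h => by
    have := h4 _ _ h
    simp only [Equiv.coe_fn_mk, h1] at this
    exact this, h3 a b⟩

def tr (a b : ℤ) (u : X) : X := (u.1 + a, u.2.1 + b, u.2.2)

theorem tr_R (a b : ℤ) (u v : X) (h : R u v) : R (tr a b u) (tr a b v) := by
  obtain ⟨m, n, k⟩ := u
  rcases h with rfl | rfl | rfl | rfl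
  · left; rfl
  · right; left; rfl
  · right; right; left; simp [tr, n3, add_right_comm]
  · right; right; right; simp [tr, n4, add_right_comm]

def trI (a b : ℤ) : Gr ≃g Gr :=
  mkIso (tr a b) (tr (-a) (-b)) (fun u => by simp [tr]) (fun u => by simp [tr]) (tr_R a b)
    (tr_R _ _)

def ro (u : X) : X := (-u.2.1, u.1 + u.2.1, u.2.2 + 1)
def ro' (u : X) : X := (u.1 + u.2.1, -u.1, u.2.2 + 5)

theorem ro_R (u v : X) (h : R u v) : R (ro u) (ro v) := by
  obtain ⟨m, n, k⟩ := u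
  rcases six k with rfl | rfl | rfl | rfl | rfl | rfl <;> rcases h with rfl | rfl | rfl | rfl <;>
    simp [R, ro, nb0, nb1, nb2, nb3, nb4, nb5] <;> omega

theorem ro'_R (u v : X) (h : R u v) : R (ro' u) (ro' v) := by
  obtain ⟨m, n, k⟩ := u
  rcases six k with rfl | rfl | rfl | rfl | rfl | rfl <;> rcases h with rfl | rfl | rfl | rfl <;>
    simp [R, ro', nb0, nb1, nb2, nb3, nb4, nb5] <;> omega

def roI : Gr ≃g Gr :=
  mkIso ro ro'
    (fun ⟨m, n, k⟩ => by rcases six k with rfl | rfl | rfl | rfl | rfl | rfl <;> simp [ro, ro'])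
    (fun ⟨m, n, k⟩ => by rcases six k with rfl | rfl | rfl | rfl | rfl | rfl <;> simp [ro, ro'])
    ro_R ro'_R

theorem trI_apply (a b : ℤ) (u : X) : trI a b u = tr a b u := rfl
theorem roI_apply (u : X) : roI u = ro u := rfl

theorem to_o (u : X) : ∃ σ : Gr ≃g Gr, σ (0, 0, 0) = u := by
  obtain ⟨m, n, k⟩ := u
  have h : ∀ k : Fin 6, (∃ σ : Gr ≃g Gr, σ (0, 0, 0) = (0, 0, k)) →
      ∃ σ : Gr ≃g Gr, σ (0, 0, 0) = (0, 0, k + 1) := by
    rintro k ⟨σ, hσ⟩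
    exact ⟨σ.trans roI, by rw [RelIso.trans_apply, hσ, roI_apply]; simp [ro]⟩
  have h0 : ∃ σ : Gr ≃g Gr, σ (0, 0, 0) = (0, 0, 0) := ⟨SimpleGraph.Iso.refl, rfl⟩
  have h1 := h _ h0
  have h2 := h _ h1
  have h3 := h _ h2
  have h4 := h _ h3
  have h5 := h _ h4
  have hk : ∃ σ : Gr ≃g Gr, σ (0, 0, 0) = (0, 0, k) := by
    rcases six k with rfl | rfl | rfl | rfl | rfl | rfl
    exacts [h0, h1, h2, h3, h4, h5]
  obtain ⟨σ, hσ⟩ := hk
  exact ⟨σ.trans (trI m n), by rw [RelIso.trans_apply, hσ, trI_apply]; simp [tr]⟩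

theorem vt : VertexTransitive Gr := by
  intro u v
  obtain ⟨σ, rfl⟩ := to_o u
  obtain ⟨τ, rfl⟩ := to_o v
  exact ⟨σ.symm.trans τ, by simp⟩

theorem dist_w (D : ℤ) (u : X) :
    (Gr.dist u (D, 0, 1) : ℤ) = F (u.1 - D + u.2.1, -(u.1 - D), u.2.2 + 5) := by
  rw [← dist_o, ← iso_dist (roI.trans (trI D 0)) _ (0, 0, 0)]
  obtain ⟨m, n, k⟩ := u
  simp only [RelIso.trans_apply, roI_apply, trI_apply]
  have e : m - D + n + (D - m) = n := by ring
  rcases six k with rfl | rfl | rfl | rfl | rfl | rfl <;> simp [ro, tr, e]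

theorem box_finite (B : ℤ) : {u : X | -B ≤ u.1 ∧ u.1 ≤ B ∧ -B ≤ u.2.1 ∧ u.2.1 ≤ B}.Finite := by
  refine ((Set.finite_Icc (-B) B).prod ((Set.finite_Icc (-B) B).prod
    (Set.finite_univ (α := Fin 6)))).subset ?_
  rintro ⟨m, n, k⟩ ⟨h1, h2, h3, h4⟩
  exact ⟨⟨h1, h2⟩, ⟨h3, h4⟩, trivial⟩

theorem cell_box {D : ℤ} (hD : 1 ≤ D) (u : X) (h1 : Gr.dist u (0, 0, 0) ≤ Gr.dist u (D, 0, 1))
    (h2 : Gr.dist u (0, 0, 0) ≤ Gr.dist u (-D, 0, 1)) :
    -(2 * D) ≤ u.1 ∧ u.1 ≤ 2 * D ∧ -(2 * D) ≤ u.2.1 ∧ u.2.1 ≤ 2 * D := by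
  have e1 : F u ≤ _ := (dist_o u).symm.trans_le ((Nat.cast_le.2 h1).trans_eq (dist_w D u))
  have e2 : F u ≤ _ := (dist_o u).symm.trans_le ((Nat.cast_le.2 h2).trans_eq (dist_w (-D) u))
  obtain ⟨m, n, k⟩ := u
  rcases six k with rfl | rfl | rfl | rfl | rfl | rfl <;>
    simp only [Fin.reduceAdd, F0, F1, F2, F3, F4, F5, max_le_iff] at e1 e2 ⊢ <;> omega

end Pool.Agent.H86.Surv
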