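import Pool.Agent.H86.SvB

set_option autoImplicit false

namespace Pool.Agent.H86.Surv

theorem ball_finite (v : X) (r : ℕ) : {u | Gr.dist u v ≤ r}.Finite := by
  obtain ⟨σ, rfl⟩ := to_o v
  refine ((box_finite (r + 1)).image σ).subset fun u hu => ⟨σ.symm u, ?_, by simp⟩
  have h1 : Gr.dist (σ.symm u) (0, 0, 0) ≤ r := by
    rw [← iso_dist σ]; simpa using hu
  have h2 : F (σ.symm u) ≤ r := by rw [← dist_o]; exact_mod_cast h1
  generalize σ.symm u = w at h2
  obtain ⟨m, n, k⟩ := w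
  rcases six k with rfl | rfl | rfl | rfl | rfl | rfl <;>
    simp only [F0, F1, F2, F3, F4, F5, max_le_iff, Set.mem_setOf_eq] at h2 ⊢ <;> omega

theorem not_linear : ¬ LinearGrowth Gr := by
  rintro ⟨a, b, h⟩
  set k := 4 * a + b + 1 with hk
  have h1 := h (0, 0, 0) (4 * k)
  let f : ℕ × ℕ → X := fun p => ((p.1 : ℤ), (p.2 : ℤ), 0)
  have hf : Function.Injective f := by
    rintro ⟨i, j⟩ ⟨i', j'⟩ e
    simp only [f, Prod.mk.injEq, Nat.cast_inj, and_true] at e
    exact Prod.ext e.1 e.2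
  have h2 : ((Finset.range k ×ˢ Finset.range k).map ⟨f, hf⟩ : Set X) ⊆
      {u | Gr.dist u (0, 0, 0) ≤ 4 * k} := by
    intro u hu
    obtain ⟨⟨i, j⟩, hp, rfl⟩ := Finset.mem_map.1 (Finset.mem_coe.1 hu)
    simp only [Finset.mem_product, Finset.mem_range] at hp
    have := dist_o ((i : ℤ), (j : ℤ), 0)
    rw [F0] at this
    change Gr.dist ((i : ℤ), (j : ℤ), 0) (0, 0, 0) ≤ 4 * k
    omega
  have h3 := (Set.encard_le_encard h2).trans h1
  rw [Set.encard_coe_eq_coe_finsetCard, Finset.card_map, Finset.card_product,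
    Finset.card_range] at h3
  have h4 : k * k ≤ a * (4 * k) + b := by exact_mod_cast h3
  have : k * k = k * (4 * a + b + 1) := by rw [← hk]
  nlinarith

theorem pigeon (T S : Finset X) (U : Set X) (hU : U.Infinite)
    (h : ∀ u ∈ U, ∃ c ∈ S, u ∈ cell Gr T c) : ∃ c ∈ S, (cell Gr T c).Infinite := by
  by_contra hc
  push Not at hc
  refine hU ((Set.Finite.biUnion S.finite_toSet fun c hc' => hc c hc').subset fun u hu => ?_)
  obtain ⟨c, h1, h2⟩ := h u hu
  exact Set.mem_biUnion h1 h2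

theorem near (T : Finset X) (hT : T.Nonempty) (u : X) : ∃ c ∈ T, u ∈ cell Gr T c :=
  T.exists_min_image (fun c => Gr.dist u c) hT

theorem half_o (a : X) : {u | Gr.dist u (0, 0, 0) ≤ Gr.dist u a}.Infinite := by
  refine Set.Infinite.of_image (fun u : X => u.1.natAbs) (Set.infinite_of_forall_exists_gt ?_)
  intro N
  have e1 := dist_o (((N + 1 : ℕ) : ℤ), 0, 0)
  have e2 := dist_o (-((N + 1 : ℕ) : ℤ), 0, 0)
  have e3 := dist_o (2 * ((N + 1 : ℕ) : ℤ), 0, 0)
  rw [← iso_dist (trI (-((N + 1 : ℕ) : ℤ)) 0), trI_apply, trI_apply] at e3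
  have e4 : tr (-((N + 1 : ℕ) : ℤ)) 0 (2 * ((N + 1 : ℕ) : ℤ), 0, 0) = (((N + 1 : ℕ) : ℤ), 0, 0) := by
    simp only [tr, Prod.mk.injEq, add_zero, and_true]; ring
  have e5 : tr (-((N + 1 : ℕ) : ℤ)) 0 (0, 0, 0) = (-((N + 1 : ℕ) : ℤ), 0, 0) := by simp [tr]
  rw [e4, e5] at e3
  rw [F0] at e1 e2 e3
  have t := conn.dist_triangle (u := (((N + 1 : ℕ) : ℤ), 0, 0)) (v := a)
    (w := (-((N + 1 : ℕ) : ℤ), 0, 0))
  rw [SimpleGraph.dist_comm (u := a)] at t
  by_cases h : Gr.dist (((N + 1 : ℕ) : ℤ), 0, 0) (0, 0, 0) ≤ Gr.dist (((N + 1 : ℕ) : ℤ), 0, 0) a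
  · exact ⟨N + 1, ⟨_, h, by simp only [Int.natAbs_natCast]⟩, by omega⟩
  · refine ⟨N + 1, ⟨(-((N + 1 : ℕ) : ℤ), 0, 0), ?_, by simp only [Int.natAbs_neg, Int.natAbs_natCast]⟩,
      by omega⟩
    simp only [Set.mem_setOf_eq]
    simp only [if_true] at e1 e2 e3
    omega

theorem half (a b : X) : {u | Gr.dist u b ≤ Gr.dist u a}.Infinite := by
  obtain ⟨σ, rfl⟩ := to_o b
  refine ((half_o (σ.symm a)).image σ.injective.injOn).mono ?_
  rintro _ ⟨u, hu, rfl⟩
  have : Gr.dist (σ u) a = Gr.dist u (σ.symm a) := by rw [← iso_dist σ u]; simp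
  simp only [Set.mem_setOf_eq, iso_dist, this]
  exact hu

theorem two_le (T : Finset X) (hT : 2 ≤ T.card) : 2 ≤ infCells Gr T := by
  have hne : T.Nonempty := Finset.card_pos.1 (by omega)
  obtain ⟨a, ha, ha'⟩ := pigeon T T Set.univ Set.infinite_univ fun u _ => near T hne u
  obtain ⟨b, hb, hba⟩ := Finset.exists_mem_ne (by omega : 1 < T.card) a
  obtain ⟨c, hc, hc'⟩ := pigeon T (T.erase a) _ (half a b) fun u hu => by
    obtain ⟨c, h1, h2⟩ := near T hne u
    by_cases e : c = a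
    · subst e
      exact ⟨b, Finset.mem_erase.2 ⟨hba, hb⟩, fun v hv => le_trans hu (h2 v hv)⟩
    · exact ⟨c, Finset.mem_erase.2 ⟨e, h1⟩, h2⟩
  obtain ⟨hca, hcT⟩ := Finset.mem_erase.1 hc
  rw [← Set.ncard_pair hca]
  refine Set.ncard_le_ncard ?_ (T.finite_toSet.subset fun v hv => hv.1)
  rintro v (rfl | rfl)
  · exact ⟨hcT, hc'⟩
  · exact ⟨ha, ha'⟩

theorem bad_set (n d : ℕ) (hn : 3 ≤ n) : ∃ T : Finset X, n ≤ T.card ∧
    (∀ x ∈ T, ∀ y ∈ T, x ≠ y → d < Gr.dist x y) ∧ infCells Gr T < n := by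
  set D : ℤ := d + 1 with hD
  let w : ℕ → X := fun j => ((2 * j - 1) * D, 0, 1)
  have hw : Function.Injective w := by
    intro i j e
    have e1 : (2 * (i : ℤ) - 1) * D = (2 * j - 1) * D := congrArg Prod.fst e
    have := mul_right_cancel₀ (by omega : D ≠ 0) e1
    omega
  let S := (Finset.range (n - 1)).map ⟨w, hw⟩
  have hS : S.card = n - 1 := by simp [S]
  have ho : ((0, 0, 0) : X) ∉ S := by
    intro h
    obtain ⟨j, -, e⟩ := Finset.mem_map.1 h
    have : (1 : Fin 6) = 0 := congrArg (fun x : X => x.2.2) e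
    exact absurd this (by decide)
  have far : ∀ j : ℕ, d < Gr.dist (w j) (0, 0, 0) := by
    intro j
    have e := dist_o (w j)
    simp only [w, F1] at e
    have : D ≤ (2 * (j : ℤ) - 1) * D ∨ (2 * (j : ℤ) - 1) * D ≤ -D := by
      rcases Nat.eq_zero_or_pos j with rfl | h
      · right; simp
      · left
        have : (1 : ℤ) ≤ j := by exact_mod_cast h
        nlinarith
    simp only [w]
    omega
  have far2 : ∀ i j : ℕ, i ≠ j → d < Gr.dist (w i) (w j) := by
    intro i j hij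
    have e := dist_w ((2 * j - 1) * D) (w i)
    simp only [w, Fin.reduceAdd, F0] at e
    have : D + (2 * (j : ℤ) - 1) * D ≤ (2 * (i : ℤ) - 1) * D ∨
        (2 * (i : ℤ) - 1) * D + D ≤ (2 * (j : ℤ) - 1) * D := by
      rcases lt_or_gt_of_ne hij with h | h
      · right
        have : (i : ℤ) + 1 ≤ j := by exact_mod_cast h
        nlinarith
      · left
        have : (j : ℤ) + 1 ≤ i := by exact_mod_cast h
        nlinarith
    simp only [w]
    omega
  refine ⟨insert (0, 0, 0) S, by rw [Finset.card_insert_of_notMem ho]; omega, ?_, ?_⟩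
  · intro x hx y hy hxy
    rcases Finset.mem_insert.1 hx with rfl | hx <;> rcases Finset.mem_insert.1 hy with rfl | hy
    · exact absurd rfl hxy
    · obtain ⟨j, -, rfl⟩ := Finset.mem_map.1 hy
      rw [SimpleGraph.dist_comm]; exact far j
    · obtain ⟨j, -, rfl⟩ := Finset.mem_map.1 hx
      exact far j
    · obtain ⟨i, -, rfl⟩ := Finset.mem_map.1 hx
      obtain ⟨j, -, rfl⟩ := Finset.mem_map.1 hy
      exact far2 i j fun e => hxy (by rw [e])
  · have m0 : ((-D, 0, 1) : X) ∈ insert ((0, 0, 0) : X) S :=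
      Finset.mem_insert_of_mem (Finset.mem_map.2 ⟨0, Finset.mem_range.2 (by omega), by simp [w]⟩)
    have m1 : ((D, 0, 1) : X) ∈ insert ((0, 0, 0) : X) S :=
      Finset.mem_insert_of_mem (Finset.mem_map.2 ⟨1, Finset.mem_range.2 (by omega), by
        simp only [w, Function.Embedding.coeFn_mk]; norm_num⟩)
    have hfin : (cell Gr (insert (0, 0, 0) S) (0, 0, 0)).Finite :=
      (box_finite (2 * D)).subset fun u hu => cell_box (by omega) u (hu _ m1) (hu _ m0)
    have : infCells Gr (insert (0, 0, 0) S) ≤ (S : Set X).ncard := by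
      refine Set.ncard_le_ncard ?_ S.finite_toSet
      rintro v ⟨h1, h2⟩
      rcases Finset.mem_insert.1 h1 with rfl | h
      · exact absurd hfin h2
      · exact h
    rw [Set.ncard_coe_finset] at this
    omega

theorem survival_eq : survival Gr = 2 := by
  apply le_antisymm
  · refine sSup_le ?_
    rintro _ ⟨n, rfl, -, d, h⟩
    by_contra hn
    have h3 : 3 ≤ n := by
      by_contra h3
      exact hn (by exact_mod_cast (by omega : n ≤ 2))
    obtain ⟨T, h1, h2, h4⟩ := bad_set n d h3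
    exact absurd (h T h1 h2) (by omega)
  · exact le_sSup ⟨2, rfl, by norm_num, 0, fun T hT _ => two_le T hT⟩

end Pool.Agent.H86.Surv
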