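import Mathlib

set_option autoImplicit false

namespace Pool.Agent.H86.Surv

variable {V : Type}

/-- Every vertex can be moved to every other vertex by a graph automorphism. -/
def VertexTransitive (G : SimpleGraph V) : Prop := ∀ u v : V, ∃ σ : G ≃g G, σ u = v

/-- The Voronoi cell of `v` with respect to `T` (ties are put in every nearest cell). -/
def cell (G : SimpleGraph V) (T : Finset V) (v : V) : Set V :=
  {u | ∀ v' ∈ T, G.dist u v ≤ G.dist u v'}

/-- `I(T)`: the number of points of `T` with an infinite cell. -/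
noncomputable def infCells (G : SimpleGraph V) (T : Finset V) : ℕ :=
  {v | v ∈ T ∧ (cell G T v).Infinite}.ncard

/-- The survival number `s(G)`. -/
noncomputable def survival (G : SimpleGraph V) : ℕ∞ :=
  sSup {N : ℕ∞ | ∃ n : ℕ, N = n ∧ 1 ≤ n ∧ ∃ d : ℕ, ∀ T : Finset V, n ≤ T.card →
    (∀ x ∈ T, ∀ y ∈ T, x ≠ y → d < G.dist x y) → n ≤ infCells G T}

/-- The ball sizes are bounded above by a linear function of the radius. -/
def LinearGrowth (G : SimpleGraph V) : Prop :=
  ∃ a b : ℕ, ∀ (v : V) (r : ℕ), {u | G.dist u v ≤ r}.encard ≤ (a * r + b : ℕ)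

end Pool.Agent.H86.Surv
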