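import Mathlib

set_option autoImplicit false
open Finset

namespace Pool.Agent.H86.Theta

/-- box digit -/
def dg (N v : ℕ) : ℕ := Nat.mod (Nat.shiftRight N (Nat.mul 16 v)) 65536
/-- coefficient placed in slot `v` -/
def sh (c v : ℕ) : ℕ := Nat.shiftLeft c (Nat.mul 64 v)
/-- slot `v` -/
def sl (N v : ℕ) : ℕ := Nat.mod (Nat.shiftRight N (Nat.mul 64 v)) 18446744073709551616
/-- top slot -/
def top (N : ℕ) : ℕ := Nat.shiftRight N 3200
/-- bit test -/
def bit (m t : ℕ) : Bool := Nat.beq (Nat.mod (Nat.shiftRight m t) 2) 1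
/-- evaluate first -/
def force (n : ℕ) (f : ℕ → Bool) : Bool := Nat.casesOn n (f 0) (fun k => f (Nat.succ k))

theorem force_eq (n : ℕ) (f : ℕ → Bool) : force n f = f n := by cases n <;> rfl

/-- packed representation of a linear form -/
def Rep (z : ℕ → ℝ) (N S : ℕ) (r : ℝ) : Prop :=
  ∃ c : ℕ → ℕ, N = ∑ v ∈ range 51, c v * 2 ^ (64 * v) ∧ (∀ v < 50, c v ≤ S) ∧
    r = ∑ v ∈ range 51, (c v : ℝ) * z v

theorem Rep.zero (z : ℕ → ℝ) : Rep z 0 0 0 := ⟨fun _ => 0, by simp, by simp, by simp⟩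

theorem Rep.add {z : ℕ → ℝ} {N N' S S' : ℕ} {r r' : ℝ} (h : Rep z N S r) (h' : Rep z N' S' r') :
    Rep z (Nat.add N N') (S + S') (r + r') := by
  obtain ⟨c, h1, h2, h3⟩ := h
  obtain ⟨c', h1', h2', h3'⟩ := h'
  refine ⟨fun v => c v + c' v, ?_, fun v hv => add_le_add (h2 v hv) (h2' v hv), ?_⟩
  · rw [h1, h1', Nat.add_eq, ← sum_add_distrib]; exact sum_congr rfl fun v _ => by ring
  · rw [h3, h3', ← sum_add_distrib]; exact sum_congr rfl fun v _ => by push_cast; ring

theorem Rep.mul {z : ℕ → ℝ} {N S : ℕ} {r : ℝ} (y : ℕ) (h : Rep z N S r) :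
    Rep z (Nat.mul y N) (y * S) (y * r) := by
  obtain ⟨c, h1, h2, h3⟩ := h
  refine ⟨fun v => y * c v, ?_, fun v hv => Nat.mul_le_mul_left y (h2 v hv), ?_⟩
  · rw [h1, Nat.mul_eq, mul_sum]; exact sum_congr rfl fun v _ => by ring
  · rw [h3, mul_sum]; exact sum_congr rfl fun v _ => by push_cast; ring

theorem Rep.mono {z : ℕ → ℝ} {N S S' : ℕ} {r : ℝ} (h : Rep z N S r) (hs : S ≤ S') :
    Rep z N S' r := by
  obtain ⟨c, h1, h2, h3⟩ := h
  exact ⟨c, h1, fun v hv => (h2 v hv).trans hs, h3⟩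

theorem Rep.single (z : ℕ → ℝ) (c v S : ℕ) (hv : v ≤ 50) (hc : v < 50 → c ≤ S) :
    Rep z (sh c v) S (c * z v) := by
  refine ⟨fun w => if w = v then c else 0, ?_, ?_, ?_⟩
  · simp only [sh, Nat.shiftLeft_eq', Nat.shiftLeft_eq, Nat.mul_eq, ite_mul, zero_mul]
    rw [sum_ite_eq' (range 51) v, if_pos (by simp; omega)]
  · intro w hw
    by_cases h : w = v
    · subst h; simpa using hc hw
    · simp [h]
  · simp only [Nat.cast_ite, Nat.cast_zero, ite_mul, zero_mul]
    rw [sum_ite_eq' (range 51) v, if_pos (by simp; omega)]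

theorem pack_div (B : ℕ) (n : ℕ) : ∀ (c : ℕ → ℕ) (w : ℕ), w ≤ n → (∀ v < n, c v < B) →
    (∑ v ∈ range (n + 1), c v * B ^ v) / B ^ w = ∑ v ∈ range (n + 1 - w), c (v + w) * B ^ v := by
  intro c w
  induction w with
  | zero => intro _ _; simp
  | succ w ih =>
    intro hw hc
    have hB : 0 < B := lt_of_le_of_lt (Nat.zero_le _) (hc 0 (by omega))
    rw [pow_succ, ← Nat.div_div_eq_div_mul, ih (by omega) hc,
      show n + 1 - w = (n + 1 - (w + 1)) + 1 by omega, sum_range_succ']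
    have : ∑ k ∈ range (n + 1 - (w + 1)), c (k + 1 + w) * B ^ (k + 1) =
        B * ∑ k ∈ range (n + 1 - (w + 1)), c (k + (w + 1)) * B ^ k := by
      rw [mul_sum]
      refine sum_congr rfl fun k _ => ?_
      rw [show k + 1 + w = k + (w + 1) by omega]; ring
    rw [this, Nat.mul_add_div hB, pow_zero, mul_one, zero_add,
      Nat.div_eq_of_lt (hc w (by omega)), add_zero]

theorem Rep.digits {z : ℕ → ℝ} {N S : ℕ} {r : ℝ} (h : Rep z N S r) (hz : z 50 = 1)
    (hS : S < 18446744073709551616) :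
    r = ∑ v ∈ range 50, (sl N v : ℝ) * z v + top N := by
  obtain ⟨c, h1, h2, h3⟩ := h
  have hc : ∀ v < 50, c v < 2 ^ 64 := fun v hv => lt_of_le_of_lt (h2 v hv) (by norm_num; exact hS)
  simp only [pow_mul] at h1
  have hd : ∀ v < 50, sl N v = c v := by
    intro v hv
    have e : sl N v = N >>> (64 * v) % 18446744073709551616 := rfl
    rw [e, Nat.shiftRight_eq_div_pow, pow_mul, h1, pack_div (2 ^ 64) 50 c v hv.le hc,
      show 50 + 1 - v = (50 - v) + 1 by omega, sum_range_succ']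
    have : ∑ k ∈ range (50 - v), c (k + 1 + v) * (2 ^ 64) ^ (k + 1) =
        2 ^ 64 * ∑ k ∈ range (50 - v), c (k + 1 + v) * (2 ^ 64) ^ k := by
      rw [mul_sum]
      refine sum_congr rfl fun k _ => by ring
    rw [this, show (18446744073709551616 : ℕ) = 2 ^ 64 by norm_num, Nat.mul_add_mod, pow_zero,
      mul_one, zero_add, Nat.mod_eq_of_lt (hc v hv)]
  have ht : top N = c 50 := by
    have e : top N = N >>> (64 * 50) := congrArg (fun k => N >>> k) (by norm_num : 3200 = 64 * 50)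
    rw [e, Nat.shiftRight_eq_div_pow, pow_mul, h1, pack_div (2 ^ 64) 50 c 50 le_rfl hc]
    simp
  rw [h3, sum_range_succ, ht, hz, mul_one]
  congr 1
  exact sum_congr rfl fun v hv => by rw [hd v (mem_range.1 hv)]

/-- shifted feasibility -/
structure FeasZ (z : ℕ → ℝ) : Prop where
  one : z 50 = 1
  col : ∀ i < 5, ∀ q < 5, ∑ t ∈ range 5, (z (5 * t + q) - 2304) * (z (25 + 5 * t + i) - 1024) =
    if i = q then 1048576 else 0
  row : ∀ j < 5, ∀ k < 5, ∑ t ∈ range 5, (z (5 * j + t) - 2304) * (z (25 + 5 * k + t) - 1024) =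
    if j = k then 1048576 else 0
  up : ∀ s t : ℕ, ∑ j ∈ range 5, ∑ i ∈ range 5,
    (if xor (bit t j) (bit s i) then (-1 : ℝ) else 1) * (z (5 * j + i) - 2304) ≤ 2300

/-- membership in a box -/
def InBox (lo hi : ℕ) (z : ℕ → ℝ) : Prop := ∀ v < 50, (dg lo v : ℝ) ≤ z v ∧ z v ≤ dg hi v

/-- the box holds no feasible point -/
def Inf (lo hi : ℕ) : Prop := ∀ z, FeasZ z → InBox lo hi z → False

def s5 (f : ℕ → ℕ) : ℕ := Nat.add (Nat.add (Nat.add (Nat.add (f 0) (f 1)) (f 2)) (f 3)) (f 4)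

theorem Rep.s5 {z : ℕ → ℝ} {f : ℕ → ℕ} {S : ℕ} {r : ℕ → ℝ} (h : ∀ t < 5, Rep z (f t) S (r t)) :
    Rep z (s5 f) (5 * S) (∑ t ∈ range 5, r t) := by
  have := ((((h 0 (by omega)).add (h 1 (by omega))).add (h 2 (by omega))).add
    (h 3 (by omega))).add (h 4 (by omega))
  simp only [sum_range_succ, range_zero, sum_empty, zero_add]
  exact this.mono (by omega)

def LS (lo hi mask t li : ℕ) : ℕ := cond (bit mask t) (dg hi li) (dg lo li)
def AS (lo hi : ℕ) (side : Bool) (mask t ai : ℕ) : ℕ :=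
  cond (xor side (bit mask t)) (dg lo ai) (dg hi ai)
def tA (ls as li ai : ℕ) : ℕ := Nat.add (Nat.add (sh 1024 li) (sh 2304 ai)) (sh (Nat.mul ls as) 50)
def tB (ls as li ai : ℕ) : ℕ := Nat.add (Nat.add (sh as li) (sh ls ai)) (sh 2359296 50)

def cA (lo hi : ℕ) (side : Bool) (mask : ℕ) (li ai : ℕ → ℕ) (d : Bool) : ℕ :=
  Nat.add (s5 fun t => tA (LS lo hi mask t (li t)) (AS lo hi side mask t (ai t)) (li t) (ai t))
    (sh (cond d 1048576 0) 50)
def cB (lo hi : ℕ) (side : Bool) (mask : ℕ) (li ai : ℕ → ℕ) : ℕ :=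
  s5 fun t => tB (LS lo hi mask t (li t)) (AS lo hi side mask t (ai t)) (li t) (ai t)

theorem dg_le (N v : ℕ) : dg N v ≤ 65536 := (Nat.mod_lt _ (by norm_num)).le

theorem bil_valid {z : ℕ → ℝ} {lo hi : ℕ} (hz : z 50 = 1) (hb : InBox lo hi z) (side : Bool)
    (mask : ℕ) (li ai : ℕ → ℕ) (d : Bool) (hl : ∀ t < 5, li t < 50) (ha : ∀ t < 5, ai t < 50)
    (he : ∑ t ∈ range 5, (z (li t) - 2304) * (z (ai t) - 1024) = if d then 1048576 else 0) :
    ∃ rA rB : ℝ, Rep z (cA lo hi side mask li ai d) 1048576 rA ∧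
      Rep z (cB lo hi side mask li ai) 1048576 rB ∧ (if side then rB ≤ rA else rA ≤ rB) := by
  have hLS : ∀ t, LS lo hi mask t (li t) ≤ 65536 := fun t => by
    unfold LS; cases bit mask t <;> exact dg_le _ _
  have hAS : ∀ t, AS lo hi side mask t (ai t) ≤ 65536 := fun t => by
    unfold AS; cases xor side (bit mask t) <;> exact dg_le _ _
  refine ⟨_, _, (Rep.add (Rep.s5 (S := 65536 + 65536 + 0) fun t ht =>
      ((Rep.single z 1024 (li t) 65536 (hl t ht).le (fun _ => by norm_num)).add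
        (Rep.single z 2304 (ai t) 65536 (ha t ht).le (fun _ => by norm_num))).add
        (Rep.single z _ 50 0 le_rfl (fun h => absurd h (lt_irrefl _))))
      (Rep.single z _ 50 0 le_rfl (fun h => absurd h (lt_irrefl _)))).mono (by norm_num),
    (Rep.s5 (S := 65536 + 65536 + 0) fun t ht =>
      ((Rep.single z _ (li t) 65536 (hl t ht).le (fun _ => hAS t)).add
        (Rep.single z _ (ai t) 65536 (ha t ht).le (fun _ => hLS t))).add
        (Rep.single z _ 50 0 le_rfl (fun h => absurd h (lt_irrefl _)))).mono (by norm_num), ?_⟩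
  have key : ∀ t ∈ range 5, 0 ≤ (if side then (1 : ℝ) else -1) *
      ((z (li t) - LS lo hi mask t (li t)) * (z (ai t) - AS lo hi side mask t (ai t))) := by
    intro t ht
    obtain ⟨a1, a2⟩ := hb _ (hl t (mem_range.1 ht))
    obtain ⟨b1, b2⟩ := hb _ (ha t (mem_range.1 ht))
    unfold LS AS
    cases side <;> cases bit mask t <;> simp <;> nlinarith
  have hs := sum_nonneg key
  rw [← mul_sum] at hs
  have hd : (((cond d 1048576 0 : ℕ) : ℝ)) = if d then 1048576 else 0 := by cases d <;> simp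
  rw [hz, hd, ← he]
  simp only [sum_range_succ, range_zero, sum_empty, zero_add, Nat.mul_eq] at hs ⊢
  push_cast
  cases side
  · simp only [Bool.false_eq_true, if_false] at hs ⊢; linarith
  · simp only [if_true] at hs ⊢; linarith

def uN (s t : ℕ) : ℕ :=
  s5 fun j => s5 fun i => cond (xor (bit t j) (bit s i)) (sh 2304 50) (sh 1 (Nat.add (Nat.mul 5 j) i))
def uP (s t : ℕ) : ℕ :=
  Nat.add (s5 fun j => s5 fun i =>
    cond (xor (bit t j) (bit s i)) (sh 1 (Nat.add (Nat.mul 5 j) i)) (sh 2304 50)) (sh 2300 50)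

theorem rep_one {z : ℕ → ℝ} (v : ℕ) (hv : v < 50) : Rep z (sh 1 v) 1 (z v) := by
  have := Rep.single z 1 v 1 hv.le (fun _ => le_rfl)
  rwa [Nat.cast_one, one_mul] at this

theorem rep_cst {z : ℕ → ℝ} (hz : z 50 = 1) (c S : ℕ) : Rep z (sh c 50) S (c : ℝ) := by
  have := Rep.single z c 50 S le_rfl (fun h => absurd h (lt_irrefl _))
  rwa [hz, mul_one] at this

theorem rep_cond {z : ℕ → ℝ} {A B S : ℕ} {a b : ℝ} (c : Bool) (h1 : Rep z A S a)
    (h2 : Rep z B S b) : Rep z (cond c A B) S (if c then a else b) := by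
  cases c
  · exact h2
  · exact h1

theorem up_valid {z : ℕ → ℝ} (h : FeasZ z) (s t : ℕ) :
    ∃ rN rP : ℝ, Rep z (uN s t) 1048576 rN ∧ Rep z (uP s t) 1048576 rP ∧ rN ≤ rP := by
  have e1 : ∀ j < 5, ∀ i < 5, Rep z (cond (xor (bit t j) (bit s i)) (sh 2304 50)
      (sh 1 (Nat.add (Nat.mul 5 j) i))) 1
      (if xor (bit t j) (bit s i) then ((2304 : ℕ) : ℝ) else z (5 * j + i)) := fun j hj i hi =>
    rep_cond _ (rep_cst h.one 2304 1) (rep_one (5 * j + i) (by omega))
  have e2 : ∀ j < 5, ∀ i < 5, Rep z (cond (xor (bit t j) (bit s i))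
      (sh 1 (Nat.add (Nat.mul 5 j) i)) (sh 2304 50)) 1
      (if xor (bit t j) (bit s i) then z (5 * j + i) else ((2304 : ℕ) : ℝ)) := fun j hj i hi =>
    rep_cond _ (rep_one (5 * j + i) (by omega)) (rep_cst h.one 2304 1)
  refine ⟨_, _, (Rep.s5 fun j hj => Rep.s5 fun i hi => e1 j hj i hi).mono (by norm_num),
    ((Rep.s5 fun j hj => Rep.s5 fun i hi => e2 j hj i hi).add
      (rep_cst h.one 2300 0)).mono (by norm_num), ?_⟩
  have hu := h.up s t
  have : ∑ j ∈ range 5, ∑ i ∈ range 5, (if xor (bit t j) (bit s i) then (2304 : ℝ) else z (5 * j + i))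
      - ∑ j ∈ range 5, ∑ i ∈ range 5, (if xor (bit t j) (bit s i) then z (5 * j + i) else 2304)
      = ∑ j ∈ range 5, ∑ i ∈ range 5,
        (if xor (bit t j) (bit s i) then (-1 : ℝ) else 1) * (z (5 * j + i) - 2304) := by
    rw [← sum_sub_distrib]
    refine sum_congr rfl fun j _ => ?_
    rw [← sum_sub_distrib]
    refine sum_congr rfl fun i _ => ?_
    split_ifs <;> ring
  push_cast
  linarith

def fP (n : ℕ) : ℕ := Nat.mod (Nat.shiftRight n 2) 32
def fQ (n : ℕ) : ℕ := Nat.mod (Nat.shiftRight n 7) 32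
def fM (n : ℕ) : ℕ := Nat.mod (Nat.shiftRight n 13) 32
def fY (n : ℕ) : ℕ := Nat.mod (Nat.shiftRight n 18) 1073741824
def liC (q t : ℕ) : ℕ := Nat.add (Nat.mul 5 t) q
def aiC (i t : ℕ) : ℕ := Nat.add (Nat.add 25 (Nat.mul 5 t)) i
def liR (j t : ℕ) : ℕ := Nat.add (Nat.mul 5 j) t
def aiR (k t : ℕ) : ℕ := Nat.add (Nat.add 25 (Nat.mul 5 k)) t

/-- smaller (`w = false`) or larger (`w = true`) side of a bilinear cut -/
def bil (lo hi n : ℕ) (li ai : ℕ → ℕ) (p q : ℕ) (w : Bool) : ℕ :=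
  cond (xor (bit n 12) w) (cB lo hi (bit n 12) (fM n) li ai)
    (cA lo hi (bit n 12) (fM n) li ai (Nat.beq p q))

/-- smaller side of the cut with code `n` -/
def cutN (lo hi n : ℕ) : ℕ :=
  cond (bit n 1) (uN (fP n) (fQ n))
    (cond (bit n 0)
      (bil lo hi n (liR (Nat.mod (fP n) 5)) (aiR (Nat.mod (fQ n) 5)) (Nat.mod (fP n) 5)
        (Nat.mod (fQ n) 5) false)
      (bil lo hi n (liC (Nat.mod (fQ n) 5)) (aiC (Nat.mod (fP n) 5)) (Nat.mod (fP n) 5)
        (Nat.mod (fQ n) 5) false))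

/-- larger side of the cut with code `n` -/
def cutP (lo hi n : ℕ) : ℕ :=
  cond (bit n 1) (uP (fP n) (fQ n))
    (cond (bit n 0)
      (bil lo hi n (liR (Nat.mod (fP n) 5)) (aiR (Nat.mod (fQ n) 5)) (Nat.mod (fP n) 5)
        (Nat.mod (fQ n) 5) true)
      (bil lo hi n (liC (Nat.mod (fQ n) 5)) (aiC (Nat.mod (fP n) 5)) (Nat.mod (fP n) 5)
        (Nat.mod (fQ n) 5) true))

/-- a valid pair of packed forms -/
def Good (z : ℕ → ℝ) (N P : ℕ) : Prop :=
  ∃ rN rP : ℝ, Rep z N 1048576 rN ∧ Rep z P 1048576 rP ∧ rN ≤ rP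

theorem good_cond {z : ℕ → ℝ} (b : Bool) {A A' B B' : ℕ} (h1 : Good z A A') (h2 : Good z B B') :
    Good z (cond b A B) (cond b A' B') := by
  cases b
  · exact h2
  · exact h1

theorem good_pair {z : ℕ → ℝ} {A B : ℕ} {rA rB : ℝ} (b : Bool) (h1 : Rep z A 1048576 rA)
    (h2 : Rep z B 1048576 rB) (h3 : if b then rB ≤ rA else rA ≤ rB) :
    Good z (cond (xor b false) B A) (cond (xor b true) B A) := by
  cases b
  · exact ⟨rA, rB, h1, h2, by simpa using h3⟩
  · exact ⟨rB, rA, h2, h1, by simpa using h3⟩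

theorem bil_valid' {z : ℕ → ℝ} {lo hi : ℕ} (hz : z 50 = 1) (hb : InBox lo hi z) (n : ℕ)
    (li ai : ℕ → ℕ) (p q : ℕ) (hl : ∀ t < 5, li t < 50) (ha : ∀ t < 5, ai t < 50)
    (he : ∑ t ∈ range 5, (z (li t) - 2304) * (z (ai t) - 1024) = if p = q then 1048576 else 0) :
    Good z (bil lo hi n li ai p q false) (bil lo hi n li ai p q true) := by
  obtain ⟨rA, rB, h1, h2, h3⟩ := bil_valid hz hb (bit n 12) (fM n) li ai (Nat.beq p q) hl ha
    (by simpa [Nat.beq_eq] using he)
  exact good_pair _ h1 h2 h3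

theorem row_valid {z : ℕ → ℝ} {lo hi : ℕ} (h : FeasZ z) (hb : InBox lo hi z) (n p q : ℕ)
    (hp : p < 5) (hq : q < 5) :
    Good z (bil lo hi n (liR p) (aiR q) p q false) (bil lo hi n (liR p) (aiR q) p q true) :=
  bil_valid' h.one hb n _ _ _ _
    (fun t ht => by simp only [liR, Nat.add_eq, Nat.mul_eq]; omega)
    (fun t ht => by simp only [aiR, Nat.add_eq, Nat.mul_eq]; omega) (h.row _ hp _ hq)

theorem col_valid {z : ℕ → ℝ} {lo hi : ℕ} (h : FeasZ z) (hb : InBox lo hi z) (n p q : ℕ)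
    (hp : p < 5) (hq : q < 5) :
    Good z (bil lo hi n (liC q) (aiC p) p q false) (bil lo hi n (liC q) (aiC p) p q true) :=
  bil_valid' h.one hb n _ _ _ _
    (fun t ht => by simp only [liC, Nat.add_eq, Nat.mul_eq]; omega)
    (fun t ht => by simp only [aiC, Nat.add_eq, Nat.mul_eq]; omega) (h.col _ hp _ hq)

theorem cut_valid {z : ℕ → ℝ} {lo hi : ℕ} (h : FeasZ z) (hb : InBox lo hi z) (n : ℕ) :
    Good z (cutN lo hi n) (cutP lo hi n) :=
  have hp : Nat.mod (fP n) 5 < 5 := Nat.mod_lt _ (by norm_num)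
  have hq : Nat.mod (fQ n) 5 < 5 := Nat.mod_lt _ (by norm_num)
  good_cond _ (up_valid h _ _)
    (good_cond _ (row_valid h hb n _ _ hp hq) (col_valid h hb n _ _ hp hq))

/-- sum over the first `n` naturals -/
def sumN (f : ℕ → ℕ) (n : ℕ) : ℕ := Nat.rec 0 (fun k acc => Nat.add acc (f k)) n

theorem sumN_eq (f : ℕ → ℕ) (n : ℕ) : sumN f n = ∑ v ∈ range n, f v := by
  induction n with
  | zero => rfl
  | succ n ih => rw [sum_range_succ, ← ih]; rfl

/-- conjunction over the first `n` naturals -/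
def allN (f : ℕ → Bool) (n : ℕ) : Bool := Nat.rec true (fun k acc => f k && acc) n

theorem allN_spec (f : ℕ → Bool) (n : ℕ) (h : allN f n = true) : ∀ v < n, f v = true := by
  induction n with
  | zero => intro v hv; omega
  | succ n ih =>
    have h' : (f n && allN f n) = true := h
    rw [Bool.and_eq_true] at h'
    intro v hv
    rcases Nat.lt_succ_iff_lt_or_eq.1 hv with h1 | rfl
    · exact ih h'.2 v h1
    · exact h'.1

def final (lo hi N P : ℕ) : Bool :=
  Nat.blt (Nat.add (sumN (fun v => Nat.mul (Nat.sub (sl P v) (sl N v)) (dg hi v)) 50) (top P))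
    (Nat.add (sumN (fun v => Nat.mul (Nat.sub (sl N v) (sl P v)) (dg lo v)) 50) (top N))

theorem final_sound {z : ℕ → ℝ} {lo hi N P S : ℕ} {rN rP : ℝ} (hz : z 50 = 1) (hb : InBox lo hi z)
    (hN : Rep z N S rN) (hP : Rep z P S rP) (hS : S < 18446744073709551616) (hle : rN ≤ rP)
    (h : final lo hi N P = true) : False := by
  rw [hN.digits hz hS, hP.digits hz hS] at hle
  simp only [final, Nat.blt_eq, sumN_eq, Nat.add_eq, Nat.mul_eq, Nat.sub_eq] at h
  have h' : ((∑ v ∈ range 50, (sl P v - sl N v) * dg hi v + top P : ℕ) : ℝ) <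
      ((∑ v ∈ range 50, (sl N v - sl P v) * dg lo v + top N : ℕ) : ℝ) := by exact_mod_cast h
  push_cast at h'
  have key : ∀ v ∈ range 50, (sl P v : ℝ) * z v - (sl N v : ℝ) * z v ≤
      ((sl P v - sl N v : ℕ) : ℝ) * dg hi v - ((sl N v - sl P v : ℕ) : ℝ) * dg lo v := by
    intro v hv
    obtain ⟨a1, a2⟩ := hb v (mem_range.1 hv)
    rcases le_total (sl P v) (sl N v) with h1 | h1
    · rw [Nat.sub_eq_zero_of_le h1, Nat.cast_sub h1]
      have : (sl P v : ℝ) ≤ sl N v := by exact_mod_cast h1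
      push_cast
      nlinarith
    · rw [Nat.sub_eq_zero_of_le h1, Nat.cast_sub h1]
      have : (sl N v : ℝ) ≤ sl P v := by exact_mod_cast h1
      push_cast
      nlinarith
  have := sum_le_sum key
  rw [sum_sub_distrib, sum_sub_distrib] at this
  linarith

/-- process `cnt` cuts packed in `code` -/
def go (lo hi : ℕ) (cnt : ℕ) : ℕ → ℕ → ℕ → Bool :=
  Nat.rec (fun _ N P => final lo hi N P)
    (fun _ ih code N P =>
      force (Nat.mod code 281474976710656) fun n =>
      force (Nat.add N (Nat.mul (fY n) (cutN lo hi n))) fun N' =>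
      force (Nat.add P (Nat.mul (fY n) (cutP lo hi n))) fun P' =>
      force (Nat.shiftRight code 48) fun code' => ih code' N' P') cnt

theorem go_sound {z : ℕ → ℝ} {lo hi : ℕ} (h : FeasZ z) (hb : InBox lo hi z) (cnt : ℕ) :
    ∀ (code N P S : ℕ) (rN rP : ℝ), Rep z N S rN → Rep z P S rP → rN ≤ rP →
      S + cnt * 1125899906842624 < 18446744073709551616 → go lo hi cnt code N P = true → False := by
  induction cnt with
  | zero =>
    intro code N P S rN rP hN hP hle hS hg
    exact final_sound h.one hb hN hP (by omega) hle hg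
  | succ cnt ih =>
    intro code N P S rN rP hN hP hle hS hg
    have hg' : (force (Nat.mod code 281474976710656) fun n =>
      force (Nat.add N (Nat.mul (fY n) (cutN lo hi n))) fun N' =>
      force (Nat.add P (Nat.mul (fY n) (cutP lo hi n))) fun P' =>
      force (Nat.shiftRight code 48) fun code' => go lo hi cnt code' N' P') = true := hg
    simp only [force_eq] at hg'
    set n := Nat.mod code 281474976710656
    obtain ⟨a, b, ha, hb', hab⟩ := cut_valid h hb n
    have hy : fY n < 1073741824 := Nat.mod_lt _ (by norm_num)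
    refine ih _ _ _ (S + fY n * 1048576) _ _ (hN.add (ha.mul _)) (hP.add (hb'.mul _)) ?_ (by omega) hg'
    have : (0 : ℝ) ≤ fY n := Nat.cast_nonneg _
    nlinarith

/-- branching trees -/
inductive Tr : Type
  | leaf (cnt code : ℕ) : Tr
  | node (v m : ℕ) (a b : Tr) : Tr
  | ref (k : ℕ) : Tr

def updHi (hi v m : ℕ) : ℕ := Nat.sub hi (Nat.shiftLeft (Nat.sub (dg hi v) m) (Nat.mul 16 v))
def updLo (lo v m : ℕ) : ℕ := Nat.add lo (Nat.shiftLeft (Nat.sub m (dg lo v)) (Nat.mul 16 v))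

noncomputable def check (known : List (ℕ × ℕ)) (t : Tr) : ℕ → ℕ → Bool :=
  Tr.rec (motive := fun _ => ℕ → ℕ → Bool)
    (fun cnt code lo hi => Nat.blt cnt 1000 && go lo hi cnt code 0 0)
    (fun v m _ _ ia ib lo hi =>
      force (updHi hi v m) fun hi' => force (updLo lo v m) fun lo' =>
        allN (fun w => cond (Nat.beq w v) (Nat.ble m (dg hi' w) && Nat.ble (dg lo' w) m)
          (Nat.ble (dg hi w) (dg hi' w) && Nat.ble (dg lo' w) (dg lo w))) 50 &&
        (ia lo hi' && ib lo' hi))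
    (fun k lo hi => match known[k]? with
      | some b => Nat.beq b.1 lo && Nat.beq b.2 hi
      | none => false) t

theorem beq_false {a b : ℕ} (h : a ≠ b) : Nat.beq a b = false := by
  cases e : Nat.beq a b
  · rfl
  · exact absurd (Nat.eq_of_beq_eq_true e) h

theorem check_sound (known : List (ℕ × ℕ)) (hk : ∀ b ∈ known, Inf b.1 b.2) (t : Tr) :
    ∀ lo hi, check known t lo hi = true → Inf lo hi := by
  induction t with
  | leaf cnt code =>
    intro lo hi h z hz hb
    have h' : (Nat.blt cnt 1000 && go lo hi cnt code 0 0) = true := h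
    rw [Bool.and_eq_true, Nat.blt_eq] at h'
    exact go_sound hz hb cnt code 0 0 0 0 0 (Rep.zero z) (Rep.zero z) le_rfl (by omega) h'.2
  | node v m a b ia ib =>
    intro lo hi h z hz hb
    have h' : (force (updHi hi v m) fun hi' => force (updLo lo v m) fun lo' =>
        allN (fun w => cond (Nat.beq w v) (Nat.ble m (dg hi' w) && Nat.ble (dg lo' w) m)
          (Nat.ble (dg hi w) (dg hi' w) && Nat.ble (dg lo' w) (dg lo w))) 50 &&
        (check known a lo hi' && check known b lo' hi)) = true := h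
    simp only [force_eq, Bool.and_eq_true] at h'
    obtain ⟨h1, h2, h3⟩ := h'
    have h4 := allN_spec _ _ h1
    rcases le_total (z v) m with hv | hv
    · refine ia _ _ h2 z hz fun w hw => ⟨(hb w hw).1, ?_⟩
      have h5 := h4 w hw
      by_cases e : w = v
      · subst e
        simp only [Nat.beq_refl, cond_true, Bool.and_eq_true, Nat.ble_eq] at h5
        exact hv.trans (by exact_mod_cast h5.1)
      · rw [beq_false e] at h5
        simp only [cond_false, Bool.and_eq_true, Nat.ble_eq] at h5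
        exact (hb w hw).2.trans (by exact_mod_cast h5.1)
    · refine ib _ _ h3 z hz fun w hw => ⟨?_, (hb w hw).2⟩
      have h5 := h4 w hw
      by_cases e : w = v
      · subst e
        simp only [Nat.beq_refl, cond_true, Bool.and_eq_true, Nat.ble_eq] at h5
        exact le_trans (by exact_mod_cast h5.2) hv
      · rw [beq_false e] at h5
        simp only [cond_false, Bool.and_eq_true, Nat.ble_eq] at h5
        exact le_trans (by exact_mod_cast h5.2) (hb w hw).1
  | ref k =>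
    intro lo hi h
    have h' : (match known[k]? with
      | some b => Nat.beq b.1 lo && Nat.beq b.2 hi
      | none => false) = true := h
    cases hkk : known[k]? with
    | none => rw [hkk] at h'; simp at h'
    | some b =>
      rw [hkk] at h'
      simp only [Bool.and_eq_true, Nat.beq_eq] at h'
      rw [← h'.1, ← h'.2]
      exact hk b (List.mem_of_getElem? hkk)

end Pool.Agent.H86.Theta
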