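import Pool.Agent.H86.ThetaChk

set_option autoImplicit false
open Finset

namespace Pool.Agent.H86.Theta

/-- a simplex in the cube `[-1,1]^4` (matrix `a`) with its Lagrange coefficients `l` and small norm -/
structure Feas (l a : Fin 5 → Fin 5 → ℝ) : Prop where
  a0 : ∀ k, a k 0 = 1
  ab : ∀ k i, |a k i| ≤ 1
  col : ∀ i q, ∑ k, l k q * a k i = if i = q then 1 else 0
  row : ∀ j k, ∑ i, l j i * a k i = if j = k then 1 else 0
  up : ∀ σ τ : Fin 5 → ℝ, (∀ i, |σ i| ≤ 1) → (∀ j, |τ j| ≤ 1) →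
    ∑ j, ∑ i, τ j * σ i * l j i ≤ 2300 / 1024

/-- sign of a bit -/
def sg (b : Bool) : ℝ := if b then -1 else 1

theorem sg_sq (b : Bool) : sg b * sg b = 1 := by cases b <;> simp [sg]
theorem abs_sg (b : Bool) : |sg b| = 1 := by cases b <;> simp [sg]
theorem sg_xor (b c : Bool) : sg (xor b c) = sg b * sg c := by cases b <;> cases c <;> simp [sg]

/-- no feasible pair has the sign pattern `s` -/
def InfPat (s : Fin 5 → Fin 5 → Bool) : Prop :=
  ∀ l a, Feas l a → (∀ k i, i ≠ 0 → 0 ≤ sg (s k i) * l k i) → False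

theorem Feas.act {l a : Fin 5 → Fin 5 → ℝ} (h : Feas l a) (π ρ : Equiv.Perm (Fin 5))
    (ε : Fin 5 → Bool) (hρ : ρ 0 = 0) (hε : ε 0 = false) :
    Feas (fun k i => sg (ε i) * l (π k) (ρ i)) (fun k i => sg (ε i) * a (π k) (ρ i)) where
  a0 k := by simp [hρ, hε, sg, h.a0]
  ab k i := by rw [abs_mul, abs_sg, one_mul]; exact h.ab _ _
  col i q := by
    have e : ∑ k, sg (ε q) * l (π k) (ρ q) * (sg (ε i) * a (π k) (ρ i)) =
        sg (ε q) * sg (ε i) * ∑ k, l (π k) (ρ q) * a (π k) (ρ i) := by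
      rw [mul_sum]; exact sum_congr rfl fun k _ => by ring
    rw [e, Equiv.sum_comp π (fun k => l k (ρ q) * a k (ρ i)), h.col]
    by_cases hiq : i = q
    · subst hiq; simp [sg_sq]
    · simp [hiq]
  row j k := by
    have e : ∑ i, sg (ε i) * l (π j) (ρ i) * (sg (ε i) * a (π k) (ρ i)) =
        ∑ i, l (π j) (ρ i) * a (π k) (ρ i) :=
      sum_congr rfl fun i _ => by linear_combination (l (π j) (ρ i) * a (π k) (ρ i)) * sg_sq (ε i)
    rw [e, Equiv.sum_comp ρ (fun i => l (π j) i * a (π k) i), h.row]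
    simp
  up σ τ hσ hτ := by
    have := h.up (fun i => σ (ρ.symm i) * sg (ε (ρ.symm i))) (fun j => τ (π.symm j))
      (fun i => by rw [abs_mul, abs_sg, mul_one]; exact hσ _) (fun j => hτ _)
    rw [← Equiv.sum_comp π] at this
    refine le_of_eq_of_le (sum_congr rfl fun j _ => ?_) this
    symm
    rw [← Equiv.sum_comp ρ]
    refine sum_congr rfl fun i _ => ?_
    simp only [Equiv.symm_apply_apply]
    ring

theorem InfPat.act {s s' : Fin 5 → Fin 5 → Bool} (π ρ : Fin 5 → Fin 5)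
    (hπ : Function.Injective π) (hρ : Function.Injective ρ) (ε : Fin 5 → Bool) (hρ0 : ρ 0 = 0)
    (hε : ε 0 = false) (hs : ∀ k i, i ≠ 0 → s' k i = xor (ε i) (s (π k) (ρ i)))
    (h : InfPat s') : InfPat s := by
  intro l a hf hl
  refine h _ _ (hf.act (Equiv.ofBijective π (Finite.injective_iff_bijective.1 hπ))
    (Equiv.ofBijective ρ (Finite.injective_iff_bijective.1 hρ)) ε hρ0 hε) fun k i hi => ?_
  have := hl (π k) (ρ i) (fun e => hi (hρ (e.trans hρ0.symm)))
  rw [hs k i hi, sg_xor]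
  simp only [Equiv.ofBijective_apply]
  have e : sg (ε i) * sg (s (π k) (ρ i)) * (sg (ε i) * l (π k) (ρ i)) =
      sg (s (π k) (ρ i)) * l (π k) (ρ i) := by
    linear_combination (sg (s (π k) (ρ i)) * l (π k) (ρ i)) * sg_sq (ε i)
  rw [e]; exact this

theorem Feas.abs_le {l a : Fin 5 → Fin 5 → ℝ} (h : Feas l a) (k q : Fin 5) :
    -(2304 / 1024 : ℝ) ≤ l k q ∧ l k q ≤ 2304 / 1024 := by
  have h1 := h.up (fun i => if i = q then 1 else 0) (fun j => if j = k then 1 else 0)
    (fun i => by split_ifs <;> simp) (fun i => by split_ifs <;> simp)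
  have h2 := h.up (fun i => if i = q then 1 else 0) (fun j => if j = k then -1 else 0)
    (fun i => by split_ifs <;> simp) (fun i => by split_ifs <;> simp)
  simp at h1 h2
  constructor <;> linarith

/-- shifted coordinates -/
noncomputable def zOf (l a : Fin 5 → Fin 5 → ℝ) (v : ℕ) : ℝ :=
  if v < 25 then 1024 * l (Fin.ofNat 5 (v / 5)) (Fin.ofNat 5 v) + 2304
  else if v < 50 then 1024 * a (Fin.ofNat 5 (v / 5)) (Fin.ofNat 5 v) + 1024 else 1

theorem zOf_l (l a : Fin 5 → Fin 5 → ℝ) (k q : Fin 5) :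
    zOf l a (5 * k + q) = 1024 * l k q + 2304 := by
  have hk := k.2
  have hq := q.2
  unfold zOf
  rw [if_pos (by omega)]
  congr 3 <;> ext <;> simp only [Fin.ofNat, Fin.val_mk] <;> omega

theorem zOf_a (l a : Fin 5 → Fin 5 → ℝ) (k q : Fin 5) :
    zOf l a (25 + 5 * k + q) = 1024 * a k q + 1024 := by
  have hk := k.2
  have hq := q.2
  unfold zOf
  rw [if_neg (by omega), if_pos (by omega)]
  congr 3 <;> ext <;> simp only [Fin.ofNat, Fin.val_mk] <;> omega

theorem Feas.feasZ {l a : Fin 5 → Fin 5 → ℝ} (h : Feas l a) : FeasZ (zOf l a) where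
  one := by simp [zOf]
  col i hi q hq := by
    rw [sum_range]
    have e : ∀ t : Fin 5, (zOf l a (5 * t + q) - 2304) * (zOf l a (25 + 5 * t + i) - 1024) =
        1048576 * (l t ⟨q, hq⟩ * a t ⟨i, hi⟩) := fun t => by
      rw [zOf_l l a t ⟨q, hq⟩, zOf_a l a t ⟨i, hi⟩]; ring
    simp only [e]
    rw [← mul_sum, h.col]
    simp [Fin.ext_iff]
  row j hj k hk := by
    rw [sum_range]
    have e : ∀ t : Fin 5, (zOf l a (5 * j + t) - 2304) * (zOf l a (25 + 5 * k + t) - 1024) =
        1048576 * (l ⟨j, hj⟩ t * a ⟨k, hk⟩ t) := fun t => by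
      rw [zOf_l l a ⟨j, hj⟩ t, zOf_a l a ⟨k, hk⟩ t]; ring
    simp only [e]
    rw [← mul_sum, h.row]
    simp [Fin.ext_iff]
  up s t := by
    have := h.up (fun i => sg (bit s i)) (fun j => sg (bit t j)) (fun i => (abs_sg _).le)
      (fun i => (abs_sg _).le)
    have e : ∑ j ∈ range 5, ∑ i ∈ range 5,
        (if xor (bit t j) (bit s i) then (-1 : ℝ) else 1) * (zOf l a (5 * j + i) - 2304) =
        1024 * ∑ j : Fin 5, ∑ i : Fin 5, sg (bit t j) * sg (bit s i) * l j i := by
      rw [sum_range, mul_sum]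
      refine sum_congr rfl fun j _ => ?_
      rw [sum_range, mul_sum]
      refine sum_congr rfl fun i _ => ?_
      rw [zOf_l, ← sg_xor, sg]
      ring
    rw [e]
    linarith

/-- sign pattern coded by a number -/
def pat (P : ℕ) (k i : Fin 5) : Bool := bit P (5 * k + i)

def rootOK (P lo hi : ℕ) : Bool :=
  allN (fun v => cond (Nat.blt v 25)
    ((Nat.beq (dg lo v) 0 || (Nat.ble (dg lo v) 2304 && (!Nat.beq (v % 5) 0 && !bit P v))) &&
      (Nat.ble 4608 (dg hi v) || (Nat.ble 2304 (dg hi v) && (!Nat.beq (v % 5) 0 && bit P v))))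
    ((Nat.beq (dg lo v) 0 || (Nat.ble (dg lo v) 2048 && Nat.beq (v % 5) 0)) &&
      Nat.ble 2048 (dg hi v))) 50

theorem root_sound {P lo hi : ℕ} (h : rootOK P lo hi = true) (hI : Inf lo hi) :
    InfPat (pat P) := by
  intro l a hf hl
  refine hI _ hf.feasZ fun v hv => ?_
  have h1 := allN_spec _ _ h v hv
  by_cases hv' : v < 25
  · obtain ⟨k, q, rfl⟩ : ∃ k q : Fin 5, v = 5 * k + q :=
      ⟨⟨v / 5, by omega⟩, ⟨v % 5, by omega⟩, by simp only; omega⟩
    rw [show Nat.blt (5 * k + q) 25 = true from Nat.blt_eq ▸ hv', cond_true] at h1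
    simp only [Bool.and_eq_true, Bool.or_eq_true, Nat.beq_eq, Nat.ble_eq, Bool.not_eq_true',
      Bool.not_eq_eq_eq_not, Bool.not_true] at h1
    have hq : Nat.beq ((5 * k + q : ℕ) % 5) 0 = false → q ≠ 0 := by
      rintro e rfl
      simp at e
    obtain ⟨b1, b2⟩ := hf.abs_le k q
    rw [zOf_l]
    constructor
    · rcases h1.1 with e | ⟨e1, e2, e3⟩
      · rw [e]; push_cast; linarith
      · have := hl k q (hq e2)
        simp only [pat, e3, sg] at this
        have e1' : (dg lo (5 * k + q) : ℝ) ≤ 2304 := by exact_mod_cast e1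
        simp at this
        linarith
    · rcases h1.2 with e | ⟨e1, e2, e3⟩
      · have e' : (4608 : ℝ) ≤ dg hi (5 * k + q) := by exact_mod_cast e
        linarith
      · have := hl k q (hq e2)
        simp only [pat, e3, sg] at this
        have e1' : (2304 : ℝ) ≤ dg hi (5 * k + q) := by exact_mod_cast e1
        simp at this
        linarith
  · obtain ⟨k, q, rfl⟩ : ∃ k q : Fin 5, v = 25 + 5 * k + q :=
      ⟨⟨(v - 25) / 5, by omega⟩, ⟨v % 5, by omega⟩, by simp only; omega⟩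
    have e0 : Nat.blt (25 + 5 * k + q) 25 = false := by
      cases e : Nat.blt (25 + 5 * k + q) 25
      · rfl
      · exact absurd (Nat.blt_eq ▸ e) hv'
    rw [e0, cond_false] at h1
    simp only [Bool.and_eq_true, Bool.or_eq_true, Nat.beq_eq, Nat.ble_eq] at h1
    obtain ⟨b1, b2⟩ := abs_le.1 (hf.ab k q)
    rw [zOf_a]
    constructor
    · rcases h1.1 with e | ⟨e1, e2⟩
      · rw [e]; push_cast; linarith
      · have hq : q = 0 := by
          have := q.2
          ext; simp only [Fin.val_zero]; omega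
        have e1' : (dg lo (25 + 5 * k + q) : ℝ) ≤ 2048 := by exact_mod_cast e1
        rw [hq, hf.a0]
        rw [hq] at e1'
        linarith
    · have e' : (2048 : ℝ) ≤ dg hi (25 + 5 * k + q) := by exact_mod_cast h1.2
      linarith

/-- all listed classes are infeasible -/
noncomputable def clsOK (known : List (ℕ × ℕ)) (L : List (ℕ × ℕ × ℕ × Tr)) : Bool :=
  L.all fun e => rootOK e.1 e.2.1 e.2.2.1 && check known e.2.2.2 e.2.1 e.2.2.1

theorem cls_sound (known : List (ℕ × ℕ)) (hk : ∀ b ∈ known, Inf b.1 b.2)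
    (L : List (ℕ × ℕ × ℕ × Tr)) (h : clsOK known L = true) : ∀ P ∈ L.map Prod.fst, InfPat (pat P) := by
  intro P hP
  obtain ⟨e, he, rfl⟩ := List.mem_map.1 hP
  have := List.all_eq_true.1 h e he
  rw [Bool.and_eq_true] at this
  exact root_sound this.1 (check_sound known hk _ _ _ this.2)

def tup (r1 r2 r3 r4 k : ℕ) : ℕ :=
  cond (Nat.beq k 1) r1 (cond (Nat.beq k 2) r2 (cond (Nat.beq k 3) r3 (cond (Nat.beq k 4) r4 0)))
def eP (e k : ℕ) : ℕ := Nat.mod (Nat.mod (Nat.shiftRight e (Nat.add 7 (Nat.mul 3 k))) 8) 5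
def eR (e i : ℕ) : ℕ := Nat.mod (Nat.mod (Nat.shiftRight e (Nat.add 22 (Nat.mul 3 i))) 8) 5
def eE (e i : ℕ) : Bool := bit e (Nat.add 37 i)
def inj5 (f : ℕ → ℕ) : Bool := allN (fun k => allN (fun j => !Nat.beq (f k) (f j)) k) 5

def entryOK (R : List ℕ) (r1 r2 r3 r4 e : ℕ) : Bool :=
  match R[Nat.mod e 128]? with
  | none => false
  | some P => inj5 (eP e) && (inj5 (eR e) && (Nat.beq (eR e 0) 0 && (!eE e 0 &&
      allN (fun k => allN (fun i => Nat.beq i 0 ||
        (bit P (5 * k + i) == xor (eE e i) (bit (2 * tup r1 r2 r3 r4 (eP e k)) (eR e i)))) 5) 5)))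

theorem inj5_spec {f : ℕ → ℕ} (h : inj5 f = true) (hf : ∀ k, f k < 5) :
    Function.Injective (fun k : Fin 5 => (⟨f k, hf k⟩ : Fin 5)) := by
  have key : ∀ k < 5, ∀ j < k, f k ≠ f j := fun k hk j hj e => by
    have := allN_spec _ _ (allN_spec _ _ h k hk) j hj
    rw [e] at this
    simp at this
  intro x y e
  have e' : f x = f y := congrArg Fin.val e
  rcases lt_trichotomy (x : ℕ) y with h1 | h1 | h1
  · exact absurd e'.symm (key y y.2 x h1)
  · exact Fin.ext h1
  · exact absurd e' (key x x.2 y h1)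

theorem entry_sound {R : List ℕ} (hR : ∀ P ∈ R, InfPat (pat P)) {r1 r2 r3 r4 e : ℕ}
    (h : entryOK R r1 r2 r3 r4 e = true) :
    InfPat (fun k i => bit (2 * tup r1 r2 r3 r4 k) i) := by
  unfold entryOK at h
  cases hc : R[Nat.mod e 128]? with
  | none => rw [hc] at h; simp at h
  | some P =>
    rw [hc] at h
    simp only [Bool.and_eq_true] at h
    obtain ⟨h1, h2, h3, h4, h5⟩ := h
    have hp : ∀ k, eP e k < 5 := fun k => Nat.mod_lt _ (by norm_num)
    have hr : ∀ k, eR e k < 5 := fun k => Nat.mod_lt _ (by norm_num)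
    refine InfPat.act _ _ (inj5_spec h1 hp) (inj5_spec h2 hr) (fun i => eE e i)
      (Fin.ext (Nat.eq_of_beq_eq_true h3)) (by simpa using h4) (fun k i hi => ?_)
      (hR P (List.mem_of_getElem? hc))
    have := allN_spec _ _ (allN_spec _ _ h5 k k.2) i i.2
    rw [beq_false (a := i) (b := 0) (fun e => hi (Fin.ext e)), Bool.false_or, beq_iff_eq] at this
    exact this

def idx (r1 r2 r3 r4 : ℕ) : ℕ :=
  r1 + r2 * (r2 + 1) / 2 + r3 * (r3 + 1) * (r3 + 2) / 6 + r4 * (r4 + 1) * (r4 + 2) * (r4 + 3) / 24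

def tabOK (R : List ℕ) (T : ℕ) (r4 : ℕ) : Bool :=
  allN (fun r3 => allN (fun r2 => allN (fun r1 =>
    force (Nat.mod (Nat.shiftRight T (48 * (idx r1 r2 r3 0))) 281474976710656)
      fun e => entryOK R r1 r2 r3 r4 e) (r2 + 1)) (r3 + 1)) (r4 + 1)

theorem tab_sound {R : List ℕ} (hR : ∀ P ∈ R, InfPat (pat P)) {T r4 : ℕ} (h : tabOK R T r4 = true)
    (r1 r2 r3 : ℕ) (h1 : r1 ≤ r2) (h2 : r2 ≤ r3) (h3 : r3 ≤ r4) :
    InfPat (fun k i => bit (2 * tup r1 r2 r3 r4 k) i) := by
  have := allN_spec _ _ (allN_spec _ _ (allN_spec _ _ h r3 (by omega)) r2 (by omega)) r1 (by omega)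
  rw [force_eq] at this
  exact entry_sound hR this

/-- code of a row of signs -/
def code (b : Fin 5 → Bool) : ℕ :=
  (b 1).toNat + 2 * (b 2).toNat + 4 * (b 3).toNat + 8 * (b 4).toNat

theorem code_lt (b : Fin 5 → Bool) : code b < 16 := by
  unfold code
  cases b 1 <;> cases b 2 <;> cases b 3 <;> cases b 4 <;> decide

theorem bit_code (b : Fin 5 → Bool) (i : Fin 5) (hi : i ≠ 0) : bit (2 * code b) i = b i := by
  unfold code
  fin_cases i
  · exact absurd rfl hi
  all_goals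
    simp only [Fin.reduceFinMk]
    cases b 1 <;> cases b 2 <;> cases b 3 <;> cases b 4 <;> decide

theorem all_inf (H : ∀ r1 r2 r3 r4 : ℕ, r1 ≤ r2 → r2 ≤ r3 → r3 ≤ r4 → r4 < 16 →
    InfPat (fun k i => bit (2 * tup r1 r2 r3 r4 k) i)) (l a : Fin 5 → Fin 5 → ℝ) : ¬ Feas l a := by
  intro hf
  let s : Fin 5 → Fin 5 → Bool := fun k i => decide (l k i < 0)
  have hs : ∀ k i, i ≠ 0 → 0 ≤ sg (s k i) * l k i := fun k i _ => by
    by_cases h : l k i < 0
    · simp [s, sg, h, h.le]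
    · simp [s, sg, h, not_lt.1 h]
  let ε : Fin 5 → Bool := fun i => if i = 0 then false else s 0 i
  let c : Fin 5 → ℕ := fun k => code (fun i => xor (ε i) (s k i))
  have hc0 : c 0 = 0 := by simp [c, code, ε]
  let π := Tuple.sort c
  have hm : Monotone (c ∘ π) := Tuple.monotone_sort c
  have h0 : c (π 0) = 0 := by
    have := hm (Fin.zero_le (π.symm 0))
    simp only [Function.comp_apply, Equiv.apply_symm_apply, hc0] at this
    omega
  refine InfPat.act π id π.injective Function.injective_id ε rfl (by simp [ε]) (fun k i hi => ?_)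
    (H (c (π 1)) (c (π 2)) (c (π 3)) (c (π 4)) (hm (by decide)) (hm (by decide)) (hm (by decide))
      (code_lt _)) l a hf hs
  have e : tup (c (π 1)) (c (π 2)) (c (π 3)) (c (π 4)) k = c (π k) := by
    fin_cases k
    · exact h0.symm
    all_goals rfl
  show bit (2 * tup _ _ _ _ k) i = _
  rw [e, bit_code _ i hi]
  rfl

end Pool.Agent.H86.Theta
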