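import Pool.Agent.H86.DlB

set_option autoImplicit false

namespace Pool.Agent.H86.Surv

theorem dist_eq_of {V : Type} (G : SimpleGraph V) (v : V) (ρ : V → ℕ) (h0 : ρ v = 0)
    (lip : ∀ u u', G.Adj u u' → ρ u ≤ ρ u' + 1)
    (desc : ∀ u, u ≠ v → ∃ u', G.Adj u u' ∧ ρ u' < ρ u) (u : V) :
    G.Reachable u v ∧ G.dist u v = ρ u := by
  have up : ∀ N u, ρ u ≤ N → ∃ p : G.Walk u v, p.length ≤ ρ u := by
    intro N
    induction N with
    | zero =>
      intro u hu
      by_cases e : u = v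
      · subst e; exact ⟨.nil, Nat.zero_le _⟩
      · obtain ⟨u', -, h⟩ := desc u e; omega
    | succ N ih =>
      intro u hu
      by_cases e : u = v
      · subst e; exact ⟨.nil, Nat.zero_le _⟩
      · obtain ⟨u', h1, h⟩ := desc u e
        obtain ⟨p, hp⟩ := ih u' (by omega)
        exact ⟨.cons h1 p, by rw [SimpleGraph.Walk.length_cons]; omega⟩
  have low : ∀ {a b : V} (p : G.Walk a b), ρ a ≤ ρ b + p.length := by
    intro a b p
    induction p with
    | nil => simp
    | cons h p ih =>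
      have := lip _ _ h
      rw [SimpleGraph.Walk.length_cons]; omega
  obtain ⟨p, hp⟩ := up _ u le_rfl
  refine ⟨p.reachable, le_antisymm ((SimpleGraph.dist_le p).trans hp) ?_⟩
  obtain ⟨q, hq⟩ := p.reachable.exists_walk_length_eq_dist
  have := low q
  omega

theorem step_ex {V : Type} {G : SimpleGraph V} (hG : G.Connected) {a b : V} (h : a ≠ b) :
    ∃ a', G.Adj a a' ∧ G.dist a' b < G.dist a b := by
  obtain ⟨p, hp⟩ := hG.exists_walk_length_eq_dist a b
  cases p with
  | nil => exact absurd rfl h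
  | cons h' p =>
    rw [SimpleGraph.Walk.length_cons] at hp
    exact ⟨_, h', by have := SimpleGraph.dist_le p; omega⟩

theorem step_le {V : Type} {G : SimpleGraph V} (hG : G.Connected) {a a' : V} (h : G.Adj a a')
    (b : V) : G.dist a b ≤ G.dist a' b + 1 := by
  have := hG.dist_triangle (u := a) (v := a') (w := b)
  rw [SimpleGraph.dist_eq_one_iff_adj.2 h] at this
  omega

theorem dom_gen {V : Type} (G : SimpleGraph V) (T W : Finset V)
    (hW : ∀ c, c ∈ W ↔ c ∈ T ∧ (cell G T c).Infinite) :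
    ∃ Z : Set V, Z.Finite ∧ ∀ v ∈ T, v ∉ W → ∀ u, u ∉ Z → ∃ w ∈ W, G.dist u w < G.dist u v := by
  classical
  refine ⟨⋃ c ∈ (T \ W : Finset V), cell G T c, ?_, fun v hv hv' u hu => ?_⟩
  · refine Set.Finite.biUnion (T \ W).finite_toSet fun c hc => ?_
    obtain ⟨h1, h2⟩ := Finset.mem_sdiff.1 hc
    by_contra h
    exact h2 ((hW c).2 ⟨h1, h⟩)
  have hn : ∀ c ∈ T, c ∉ W → u ∉ cell G T c := fun c h1 h2 h3 =>
    hu (Set.mem_biUnion (Finset.mem_coe.2 (Finset.mem_sdiff.2 ⟨h1, h2⟩)) h3)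
  obtain ⟨c, h1, h2⟩ := T.exists_min_image (fun c => G.dist u c) ⟨v, hv⟩
  refine ⟨c, by_contra fun h => hn c h1 h h2, ?_⟩
  by_contra h
  exact hn v hv hv' fun v' h' => (not_lt.1 h).trans (h2 v' h')

namespace TZ

open DL

abbrev Tv := {u : Y // ∀ i ∈ u.1, i < u.2}

def Tr : SimpleGraph Tv := Gd.comap Subtype.val

def cut (f : Finset ℤ) (x : ℤ) : Tv := ⟨(f.filter (· < x), x), fun _ h => (Finset.mem_filter.1 h).2⟩

theorem cut_self (a : Tv) : cut a.1.1 a.1.2 = a := by
  apply Subtype.ext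
  ext i
  · simp only [cut, Finset.mem_filter]
    exact ⟨fun h => h.1, fun h => ⟨h, a.2 i h⟩⟩
  · rfl

theorem cut_congr {f g : Finset ℤ} {x : ℤ} (h : ∀ i, i < x → (i ∈ f ↔ i ∈ g)) :
    cut f x = cut g x := by
  apply Subtype.ext
  ext i
  · simp only [cut, Finset.mem_filter]
    exact and_congr_left fun q => h i q
  · rfl

theorem cut_adj (f : Finset ℤ) (x : ℤ) : Tr.Adj (cut f x) (cut f (x + 1)) :=
  Or.inl ⟨rfl, fun i hi => by
    simp only [cut, Finset.mem_filter] at hi ⊢
    exact and_congr_right fun _ => by omega⟩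

theorem cut_walk (f : Finset ℤ) (x : ℤ) (n : ℕ) :
    ∃ p : Tr.Walk (cut f x) (cut f (x + n)), p.length = n := by
  induction n with
  | zero => exact ⟨(SimpleGraph.Walk.nil : Tr.Walk (cut f x) (cut f x)).copy rfl (by simp), by simp⟩
  | succ n ih =>
    obtain ⟨p, hp⟩ := ih
    exact ⟨(p.concat (cut_adj f _)).copy rfl (by push_cast; rw [add_assoc]), by simp [hp]⟩

theorem cut_dist (f : Finset ℤ) {x y : ℤ} (h : x ≤ y) :
    Tr.Reachable (cut f x) (cut f y) ∧ (Tr.dist (cut f x) (cut f y) : ℤ) ≤ y - x := by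
  obtain ⟨n, rfl⟩ := Int.le.dest h
  obtain ⟨p, hp⟩ := cut_walk f x n
  have := SimpleGraph.dist_le p
  exact ⟨p.reachable, by omega⟩

theorem tconn : Tr.Connected := by
  haveI : Nonempty Tv := ⟨cut ∅ 0⟩
  refine ⟨fun a b => ?_⟩
  obtain ⟨B, -, hB⟩ := bdd (insert a.1.2 (insert b.1.2 (a.1.1 ∪ b.1.1)))
  have b1 := hB a.1.2 (by simp)
  have b2 := hB b.1.2 (by simp)
  have h1 := (cut_dist a.1.1 b1.1.le).1
  have h2 := (cut_dist b.1.1 b2.1.le).1
  rw [cut_self] at h1 h2
  rw [cut_congr (g := b.1.1) fun i hi =>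
    ⟨fun q => by have := hB i (by simp [q]); omega, fun q => by have := hB i (by simp [q]); omega⟩] at h1
  exact h1.symm.trans h2

theorem tlb (a b : Tv) : ∃ l r, l ≤ a.1.2 ∧ l ≤ b.1.2 ∧ a.1.2 ≤ r ∧ b.1.2 ≤ r ∧
    Ag a.1.1 b.1.1 l r ∧ 2 * (r - l) - |a.1.2 - b.1.2| ≤ Tr.dist a b := by
  obtain ⟨p, hp⟩ := tconn.exists_walk_length_eq_dist a b
  let φ : Tr →g Gd := ⟨Subtype.val, fun h => h⟩
  have := lb_walk (p.map φ)
  rw [SimpleGraph.Walk.length_map, hp] at this
  exact this

theorem tball (R : ℕ) : {a : Tv | Tr.dist a (cut ∅ 0) ≤ R}.Finite := by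
  refine ((box R).preimage Subtype.val_injective.injOn).subset fun a ha => ?_
  obtain ⟨l, r, a1, a2, a3, a4, a5, a6⟩ := tlb a (cut ∅ 0)
  have ha' : Tr.dist a (cut ∅ 0) ≤ R := ha
  simp only [cut, sub_zero] at a2 a4 a5 a6
  simp only [cut] at ha'
  have e : -(R : ℤ) ≤ l ∧ r ≤ R := by rcases abs_cases a.1.2 with q | q <;> omega
  refine ⟨fun i hi => ?_, by omega, by omega⟩
  by_contra q
  simpa using (a5 i (by omega)).1 hi

theorem tlocfin (a : Tv) : (Tr.neighborSet a).Finite :=
  ((locfin a.1).preimage Subtype.val_injective.injOn).subset fun _ h => h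

def tmv (a : ℤ) (h : Finset ℤ) : Tr ≃g Tr where
  toFun u := cut (symmDiff (sh a u.1.1) h) (u.1.2 + a)
  invFun u := cut (sh (-a) (symmDiff u.1.1 h)) (u.1.2 - a)
  left_inv u := by
    refine Eq.trans ?_ (cut_self u)
    simp only [cut, add_sub_cancel_right]
    apply cut_congr
    intro i hi
    have : i + a < u.1.2 + a := by omega
    simp only [mem_sh, Finset.mem_symmDiff, Finset.mem_filter, sub_neg_eq_add, this,
      add_sub_cancel_right]
    tauto
  right_inv u := by
    refine Eq.trans ?_ (cut_self u)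
    simp only [cut, sub_add_cancel]
    apply cut_congr
    intro i hi
    have : i - a < u.1.2 - a := by omega
    simp only [mem_sh, Finset.mem_symmDiff, Finset.mem_filter, sub_neg_eq_add, this,
      sub_add_cancel]
    tauto
  map_rel_iff' := fun {u v} => by
    have key : ∀ u v : Tv, St (cut (symmDiff (sh a u.1.1) h) (u.1.2 + a)).1
        (cut (symmDiff (sh a v.1.1) h) (v.1.2 + a)).1 ↔ St u.1 v.1 := by
      intro u v
      simp only [St, cut, Finset.mem_filter, Finset.mem_symmDiff, mem_sh]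
      constructor
      · rintro ⟨h1, h2⟩
        refine ⟨by omega, fun i hi => ?_⟩
        have := h2 (i + a) (by omega)
        rw [add_sub_cancel_right] at this
        have q1 := u.2 i
        have q2 := v.2 i
        by_cases q : i < u.1.2
        · have e1 : i + a < u.1.2 + a := by omega
          have e2 : i + a < v.1.2 + a := by omega
          tauto
        · exact ⟨fun w => absurd (q1 w) q, fun w => by have := q2 w; omega⟩
      · rintro ⟨h1, h2⟩
        refine ⟨by omega, fun i hi => ?_⟩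
        have := h2 (i - a) (by omega)
        have e : i < u.1.2 + a ↔ i < v.1.2 + a := by omega
        tauto
    exact or_congr (key u v) (key v u)

theorem tvt : VertexTransitive Tr := by
  intro u v
  refine ⟨tmv (v.1.2 - u.1.2) (symmDiff (sh (v.1.2 - u.1.2) u.1.1) v.1.1), ?_⟩
  change cut (symmDiff (sh _ u.1.1) _) (u.1.2 + (v.1.2 - u.1.2)) = v
  rw [symmDiff_symmDiff_cancel_left, add_sub_cancel, cut_self]

end TZ

end Pool.Agent.H86.Surv
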