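import Pool.Agent.H86.SvDefs

set_option autoImplicit false

namespace Pool.Agent.H86.Surv

/-- `h` is harmonic: at every vertex its value is the average over the neighbours. -/
def Harmonic {V : Type} (G : SimpleGraph V) (h : V → ℝ) : Prop :=
  ∀ v, ∑ᶠ u ∈ G.neighborSet v, h u = (G.neighborSet v).ncard * h v

/-- Every bounded harmonic function is constant. -/
def Liouville {V : Type} (G : SimpleGraph V) : Prop :=
  ∀ h : V → ℝ, Harmonic G h → (∃ C, ∀ v, |h v| ≤ C) → ∀ u v, h u = h v

/-- The two graphs are quasi-isometric. -/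
def QuasiIsometric {V W : Type} (G : SimpleGraph V) (H : SimpleGraph W) : Prop :=
  ∃ (f : V → W) (l c : ℝ), 1 ≤ l ∧ 0 ≤ c ∧
    (∀ x y, l⁻¹ * G.dist x y - c ≤ H.dist (f x) (f y) ∧ H.dist (f x) (f y) ≤ l * G.dist x y + c) ∧
    ∀ w, ∃ x, (H.dist w (f x) : ℝ) ≤ c

/-- Infinite, connected, locally finite and vertex-transitive. -/
def Admissible {V : Type} (G : SimpleGraph V) : Prop :=
  Infinite V ∧ G.Connected ∧ (∀ v, (G.neighborSet v).Finite) ∧ VertexTransitive G

end Pool.Agent.H86.Surv
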