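import Pool.Agent.H86.TzA
import Pool.Agent.H86.TzDefs

set_option autoImplicit false

namespace Pool.Agent.H86.Surv.TZ

open DL

def G1 : SimpleGraph (Tv × ℤ) where
  Adj u v := (Tr.Adj u.1 v.1 ∧ u.2 = v.2) ∨ (u.1 = v.1 ∧ (u.2 - v.2).natAbs = 1)
  symm := ⟨fun _ _ h => h.imp (fun q => ⟨q.1.symm, q.2.symm⟩) fun q => ⟨q.1.symm, by omega⟩⟩
  loopless := ⟨fun u h => by
    rcases h with h | h
    · exact h.1.ne rfl
    · omega⟩

def G2 : SimpleGraph (Tv × ℤ) where
  Adj u v := u ≠ v ∧ (u.1 = v.1 ∨ Tr.Adj u.1 v.1) ∧ (u.2 - v.2).natAbs ≤ 1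
  symm := ⟨fun _ _ h => ⟨h.1.symm, h.2.1.imp Eq.symm fun q => q.symm, by have := h.2.2; omega⟩⟩
  loopless := ⟨fun _ h => h.1 rfl⟩

theorem d1 (u v : Tv × ℤ) :
    G1.Reachable u v ∧ G1.dist u v = Tr.dist u.1 v.1 + (u.2 - v.2).natAbs := by
  refine dist_eq_of G1 v (fun u => Tr.dist u.1 v.1 + (u.2 - v.2).natAbs) (by simp) ?_ ?_ u
  · rintro a b (h | h)
    · have := step_le tconn h.1 v.1
      have := h.2
      omega
    · rw [h.1]; have := h.2; omega
  · intro a ha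
    by_cases e : a.1 = v.1
    · have e2 : a.2 ≠ v.2 := fun q => ha (Prod.ext e q)
      rcases lt_or_gt_of_ne e2 with q | q
      · exact ⟨(a.1, a.2 + 1), Or.inr ⟨rfl, by simp only; omega⟩, by simp only; omega⟩
      · exact ⟨(a.1, a.2 - 1), Or.inr ⟨rfl, by simp only; omega⟩, by simp only; omega⟩
    · obtain ⟨a', h1, h2⟩ := step_ex tconn e
      exact ⟨(a', a.2), Or.inl ⟨h1, rfl⟩, by simp only; omega⟩

theorem d2 (u v : Tv × ℤ) :
    G2.Reachable u v ∧ G2.dist u v = max (Tr.dist u.1 v.1) (u.2 - v.2).natAbs := by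
  refine dist_eq_of G2 v (fun u => max (Tr.dist u.1 v.1) (u.2 - v.2).natAbs) (by simp) ?_ ?_ u
  · rintro a b ⟨-, h | h, h'⟩
    · rw [h]; omega
    · have := step_le tconn h v.1
      omega
  · intro a ha
    obtain ⟨m, hm1, hm2⟩ : ∃ m : ℤ, (a.2 - m).natAbs ≤ 1 ∧
        (m - v.2).natAbs = (a.2 - v.2).natAbs - 1 := by
      rcases lt_trichotomy a.2 v.2 with q | q | q
      · exact ⟨a.2 + 1, by omega, by omega⟩
      · exact ⟨a.2, by omega, by omega⟩
      · exact ⟨a.2 - 1, by omega, by omega⟩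
    by_cases e : a.1 = v.1
    · have e2 : a.2 ≠ v.2 := fun q => ha (Prod.ext e q)
      refine ⟨(a.1, m), ⟨fun q => ?_, Or.inl rfl, hm1⟩, ?_⟩
      · have : a.2 = m := congrArg Prod.snd q
        omega
      · simp only [e, SimpleGraph.dist_self]; omega
    · obtain ⟨a', h1, h2⟩ := step_ex tconn e
      exact ⟨(a', m), ⟨fun q => h1.ne (congrArg Prod.fst q), Or.inr h1, hm1⟩, by simp only; omega⟩

theorem nb_fin (v : Tv × ℤ) : ((insert v.1 (Tr.neighborSet v.1)) ×ˢ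
    Set.Icc (v.2 - 1) (v.2 + 1)).Finite := ((tlocfin v.1).insert _).prod (Set.finite_Icc _ _)

def pe (σ : Tr ≃g Tr) (k : ℤ) : Tv × ℤ ≃ Tv × ℤ := σ.toEquiv.prodCongr (Equiv.addRight k)

theorem pe_apply (σ : Tr ≃g Tr) (k : ℤ) (u : Tv × ℤ) : pe σ k u = (σ u.1, u.2 + k) := rfl

theorem adm1 : Admissible G1 := by
  haveI : Nonempty Tv := ⟨cut ∅ 0⟩
  refine ⟨inferInstance, ⟨fun u v => (d1 u v).1⟩, fun v => (nb_fin v).subset ?_, fun u v => ?_⟩
  · rintro u (h | h)
    · exact ⟨Or.inr h.1, by have := h.2; omega, by have := h.2; omega⟩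
    · exact ⟨Or.inl h.1.symm, by have := h.2; omega, by have := h.2; omega⟩
  · obtain ⟨σ, hσ⟩ := tvt u.1 v.1
    refine ⟨⟨pe σ (v.2 - u.2), fun {a b} => ?_⟩, ?_⟩
    · simp only [G1, pe_apply, σ.map_adj_iff, add_left_inj, add_sub_add_right_eq_sub,
        EmbeddingLike.apply_eq_iff_eq]
    · change pe σ _ u = v
      rw [pe_apply, hσ, add_sub_cancel]

theorem adm2 : Admissible G2 := by
  haveI : Nonempty Tv := ⟨cut ∅ 0⟩
  refine ⟨inferInstance, ⟨fun u v => (d2 u v).1⟩, fun v => (nb_fin v).subset ?_, fun u v => ?_⟩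
  · rintro u ⟨-, h, h'⟩
    exact ⟨h.imp Eq.symm id, by omega, by omega⟩
  · obtain ⟨σ, hσ⟩ := tvt u.1 v.1
    refine ⟨⟨pe σ (v.2 - u.2), fun {a b} => ?_⟩, ?_⟩
    · refine and_congr (pe σ _).injective.ne_iff ?_
      simp only [pe_apply, σ.map_adj_iff, add_sub_add_right_eq_sub, EmbeddingLike.apply_eq_iff_eq]
    · change pe σ _ u = v
      rw [pe_apply, hσ, add_sub_cancel]

theorem qi : QuasiIsometric G2 G1 := by
  refine ⟨id, 2, 0, by norm_num, le_rfl, fun x y => ?_, fun w => ⟨w, by simp⟩⟩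
  have h1 : G2.dist x y ≤ G1.dist x y := by rw [(d1 x y).2, (d2 x y).2]; omega
  have h2 : G1.dist x y ≤ 2 * G2.dist x y := by rw [(d1 x y).2, (d2 x y).2]; omega
  have h3 : (G2.dist x y : ℝ) ≤ G1.dist x y := by exact_mod_cast h1
  have h4 : (G1.dist x y : ℝ) ≤ 2 * G2.dist x y := by exact_mod_cast h2
  have h5 : (0 : ℝ) ≤ G2.dist x y := Nat.cast_nonneg _
  simp only [id]
  constructor <;> linarith

def par (a : Tv) : Tv := cut a.1.1 (a.1.2 - 1)
def ch0 (a : Tv) : Tv := cut a.1.1 (a.1.2 + 1)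
def ch1 (a : Tv) : Tv := cut (insert a.1.2 a.1.1) (a.1.2 + 1)

theorem adj_iff (a b : Tv) : Tr.Adj a b ↔ b = par a ∨ b = ch0 a ∨ b = ch1 a := by
  constructor
  · rintro (h | h)
    · have e := h.1
      right
      by_cases q : a.1.2 ∈ b.1.1
      · right
        rw [← cut_self b, e]
        refine cut_congr fun i _ => ?_
        by_cases q' : i = a.1.2
        · simp [q', q]
        · simp [q', h.2 i q']
      · left
        rw [← cut_self b, e]
        refine cut_congr fun i _ => ?_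
        by_cases q' : i = a.1.2
        · rw [q']; exact ⟨fun w => absurd w q, fun w => absurd (a.2 _ w) (lt_irrefl _)⟩
        · exact (h.2 i q').symm
    · have e := h.1
      left
      rw [← cut_self b, par, show a.1.2 - 1 = b.1.2 by omega]
      exact cut_congr fun i hi => h.2 i hi.ne
  · rintro (rfl | rfl | rfl)
    · have := cut_adj a.1.1 (a.1.2 - 1)
      rw [sub_add_cancel, cut_self] at this
      exact this.symm
    · have := cut_adj a.1.1 a.1.2
      rwa [cut_self] at this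
    · have := cut_adj (insert a.1.2 a.1.1) a.1.2
      rwa [cut_congr (g := a.1.1) (x := a.1.2) fun i hi => by simp [hi.ne], cut_self] at this

def nbr (j : ℕ) : Tv :=
  if j % 3 = 0 then par (cut ∅ 0) else if j % 3 = 1 then ch0 (cut ∅ 0) else ch1 (cut ∅ 0)

def pz (D : ℤ) (j : ℕ) : Tv × ℤ := (nbr j, if 3 ≤ j ∧ j ≤ 5 then -((j + 1) * D) else (j + 1) * D)

theorem cell2 {D : ℕ} (hD : 1 ≤ D) (u : Tv × ℤ)
    (h : ∀ j ≤ 5, G2.dist u (cut ∅ 0, 0) ≤ G2.dist u (pz D j)) :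
    Tr.dist u.1 (cut ∅ 0) ≤ 6 * D ∧ -(6 * D : ℤ) ≤ u.2 ∧ u.2 ≤ 6 * D := by
  obtain ⟨j, hj, h1⟩ : ∃ j ≤ 2, Tr.dist u.1 (nbr j) ≤ 1 ∨
      Tr.dist u.1 (nbr j) < Tr.dist u.1 (cut ∅ 0) := by
    by_cases e : cut ∅ 0 = u.1
    · refine ⟨0, by omega, Or.inl ?_⟩
      rw [← e]
      exact (SimpleGraph.dist_eq_one_iff_adj.2 ((adj_iff _ _).2 (Or.inl rfl))).le
    · obtain ⟨s, h1, h2⟩ := step_ex tconn e
      rw [SimpleGraph.dist_comm, SimpleGraph.dist_comm (v := u.1)] at h2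
      rcases (adj_iff _ _).1 h1 with rfl | rfl | rfl
      exacts [⟨0, by omega, Or.inr h2⟩, ⟨1, by omega, Or.inr h2⟩, ⟨2, by omega, Or.inr h2⟩]
  have a1 := h j (by omega)
  have a2 := h (j + 3) (by omega)
  have e : nbr (j + 3) = nbr j := by simp [nbr]
  rw [(d2 _ _).2, (d2 _ _).2] at a1 a2
  simp only [pz, e] at a1 a2
  have hj' : j = 0 ∨ j = 1 ∨ j = 2 := by omega
  rcases hj' with rfl | rfl | rfl <;> norm_num at a1 a2 <;> omega

theorem bad2 (n d : ℕ) (hn : 7 ≤ n) : ∃ T : Finset (Tv × ℤ), n ≤ T.card ∧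
    (∀ x ∈ T, ∀ y ∈ T, x ≠ y → d < G2.dist x y) ∧ infCells G2 T < n := by
  classical
  set D : ℕ := d + 1 with hD
  have hD' : (D : ℤ) = d + 1 := by omega
  have far1 : ∀ j, d < G2.dist (pz D j) (cut ∅ 0, 0) := fun j => by
    rw [(d2 _ _).2]
    have : (D : ℤ) ≤ ((j : ℤ) + 1) * D := by nlinarith [Int.natCast_nonneg j]
    simp only [pz]
    split_ifs <;> omega
  have far2 : ∀ i j, i ≠ j → d < G2.dist (pz D i) (pz D j) := fun i j hij => by
    rw [(d2 _ _).2]
    have q1 : (D : ℤ) ≤ ((j : ℤ) + 1) * D := by nlinarith [Int.natCast_nonneg j]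
    have q2 : (D : ℤ) ≤ ((i : ℤ) + 1) * D := by nlinarith [Int.natCast_nonneg i]
    have : ((i : ℤ) + 1) * D + D ≤ ((j : ℤ) + 1) * D ∨ ((j : ℤ) + 1) * D + D ≤ ((i : ℤ) + 1) * D := by
      rcases lt_or_gt_of_ne hij with h | h
      · left
        have : (i : ℤ) + 1 ≤ j := by exact_mod_cast h
        nlinarith
      · right
        have : (j : ℤ) + 1 ≤ i := by exact_mod_cast h
        nlinarith
    simp only [pz]
    split_ifs <;> omega
  have hw : Function.Injective (pz D) := by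
    intro i j e
    by_contra hij
    have := far2 i j hij
    rw [e, SimpleGraph.dist_self] at this
    omega
  let S := (Finset.range (n - 1)).map ⟨pz D, hw⟩
  have hS : S.card = n - 1 := by simp [S]
  have ho : ((cut ∅ 0, 0) : Tv × ℤ) ∉ S := by
    intro h
    obtain ⟨j, -, e⟩ := Finset.mem_map.1 h
    have := far1 j
    rw [show pz D j = (cut ∅ 0, 0) from e, SimpleGraph.dist_self] at this
    omega
  refine ⟨insert (cut ∅ 0, 0) S, by rw [Finset.card_insert_of_notMem ho]; omega, ?_, ?_⟩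
  · intro x hx y hy hxy
    rcases Finset.mem_insert.1 hx with rfl | hx <;> rcases Finset.mem_insert.1 hy with rfl | hy
    · exact absurd rfl hxy
    · obtain ⟨j, -, rfl⟩ := Finset.mem_map.1 hy
      rw [SimpleGraph.dist_comm]; exact far1 j
    · obtain ⟨j, -, rfl⟩ := Finset.mem_map.1 hx
      exact far1 j
    · obtain ⟨i, -, rfl⟩ := Finset.mem_map.1 hx
      obtain ⟨j, -, rfl⟩ := Finset.mem_map.1 hy
      exact far2 i j fun e => hxy (by rw [e])
  · have hfin : (cell G2 (insert (cut ∅ 0, 0) S) (cut ∅ 0, 0)).Finite :=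
      ((tball (6 * D)).prod (Set.finite_Icc (-(6 * D : ℤ)) (6 * D))).subset fun u hu =>
        cell2 (by omega) u fun j hj =>
        hu _ (Finset.mem_insert_of_mem (Finset.mem_map.2 ⟨j, Finset.mem_range.2 (by omega), rfl⟩))
    have : infCells G2 (insert (cut ∅ 0, 0) S) ≤ (S : Set (Tv × ℤ)).ncard := by
      refine Set.ncard_le_ncard ?_ S.finite_toSet
      rintro v ⟨h1, h2⟩
      rcases Finset.mem_insert.1 h1 with rfl | h
      · exact absurd hfin h2
      · exact h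
    rw [Set.ncard_coe_finset] at this
    omega

theorem survival2 : survival G2 ≤ 6 := by
  refine sSup_le ?_
  rintro _ ⟨n, rfl, -, d, h⟩
  by_contra hn
  have h3 : 7 ≤ n := by
    by_contra h3
    exact hn (by exact_mod_cast (by omega : n ≤ 6))
  obtain ⟨T, h1, h2, h4⟩ := bad2 n d h3
  exact absurd (h T h1 h2) (by omega)

end Pool.Agent.H86.Surv.TZ
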