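import Pool.Agent.H86.TzB

set_option autoImplicit false

namespace Pool.Agent.H86.Surv.TZ

open DL

theorem ray1 {v w : Tv × ℤ} {g : Finset ℤ} {R : ℤ} {d : ℕ} (hR : v.1.1.2 ≤ R)
    (hg : ∀ i, i < v.1.1.2 → (i ∈ g ↔ i ∈ v.1.1.1)) (hd : d < G1.dist v w)
    (h : G1.dist (cut g R, v.2) w < G1.dist (cut g R, v.2) v) :
    ∀ i, 2 * i < 2 * v.1.1.2 + d → i < R → (i ∈ g ↔ i ∈ w.1.1.1) := by
  rw [(d1 _ _).2, (d1 _ _).2] at h
  rw [(d1 _ _).2] at hd
  have h1 := (cut_dist g hR).2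
  rw [cut_congr hg, cut_self, SimpleGraph.dist_comm] at h1
  obtain ⟨l, r, a1, a2, a3, a4, a5, a6⟩ := tlb (cut g R) w.1
  have e : (cut g R).1.2 = R := rfl
  rw [e] at a1 a3 a6
  simp only at h
  have key : v.1.1.2 + w.1.1.2 + (v.2 - w.2).natAbs < 2 * l := by
    rcases abs_cases (R - w.1.1.2) with q | q <;> omega
  have ag : ∀ i, i < l → (i ∈ g ↔ i ∈ w.1.1.1) := fun i hi => by
    have := a5 i (Or.inl hi)
    simp only [cut, Finset.mem_filter] at this
    have : i < R := by omega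
    tauto
  have h2 := (cut_dist w.1.1.1 (show v.1.1.2 ≤ w.1.1.2 by omega)).2
  rw [cut_self, cut_congr (g := v.1.1.1) fun i hi => (ag i (by omega)).symm.trans (hg i hi),
    cut_self] at h2
  intro i hi _
  exact ag i (by omega)

theorem all1 (n : ℕ) (T : Finset (Tv × ℤ)) (hT : n ≤ T.card)
    (hs : ∀ x ∈ T, ∀ y ∈ T, x ≠ y → 2 * n < G1.dist x y) : n ≤ infCells G1 T := by
  classical
  set W := T.filter fun c => (cell G1 T c).Infinite with hWd
  have hW : ∀ c, c ∈ W ↔ c ∈ T ∧ (cell G1 T c).Infinite := fun c => Finset.mem_filter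
  have hk : infCells G1 T = W.card := by
    rw [infCells, ← Set.ncard_coe_finset]
    congr 1
    ext c
    simp [hW]
  rw [hk]
  by_contra hlt
  obtain ⟨v, hv, hv'⟩ := Finset.exists_mem_notMem_of_card_lt_card (s := W) (t := T) (by omega)
  obtain ⟨Z, hZ, hB⟩ := dom_gen G1 T W hW
  obtain ⟨B, -, hB'⟩ := bdd (hZ.toFinset.image fun z => z.1.1.2)
  set R := max (v.1.1.2 + n) B with hR
  have h1 : ∀ i : ℕ, ∃ w ∈ W, ∀ j, 2 * j < 2 * v.1.1.2 + (2 * n : ℕ) → j < R →
      (j ∈ insert (v.1.1.2 + i) v.1.1.1 ↔ j ∈ w.1.1.1) := by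
    intro i
    obtain ⟨w, hw, h⟩ := hB v hv hv' (cut (insert (v.1.1.2 + i) v.1.1.1) R, v.2) fun hz => by
      have := (hB' R (Finset.mem_image.2 ⟨_, hZ.mem_toFinset.2 hz, rfl⟩)).2
      omega
    refine ⟨w, hw, ray1 (by omega) (fun j hj => ?_)
      (hs v hv w ((hW w).1 hw).1 fun e => hv' (e ▸ hw)) h⟩
    have : j ≠ v.1.1.2 + i := by omega
    simp [this]
  choose w hw h1 using h1
  obtain ⟨i, hi, j, hj, hij, e⟩ := Finset.exists_ne_map_eq_of_card_lt_of_maps_to
    (s := Finset.range n) (t := W) (by simpa using hlt) (f := w) fun i _ => hw i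
  rw [Finset.mem_range] at hi hj
  have q1 := h1 i (v.1.1.2 + i) (by omega) (by omega)
  have q2 := h1 j (v.1.1.2 + i) (by omega) (by omega)
  rw [← e, ← q1] at q2
  have q3 := q2.2 (Finset.mem_insert_self _ _)
  rcases Finset.mem_insert.1 q3 with q | q
  · omega
  · have := v.1.2 _ q
    omega

theorem survival1 : survival G1 = ⊤ := by
  refine ENat.eq_top_iff_forall_ge.2 fun n => ?_
  refine le_trans (by exact_mod_cast Nat.le_succ n) (le_sSup ⟨n + 1, rfl, by omega, _, all1 (n + 1)⟩)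

noncomputable def hT (a : Tv) : ℝ :=
  if a.1.2 ≤ 0 then 0 else (1 - (1 / 2 : ℝ) ^ a.1.2) * (if (0 : ℤ) ∈ a.1.1 then 1 else -1)

theorem hT_sum (a : Tv) : hT (par a) + hT (ch0 a) + hT (ch1 a) = 3 * hT a := by
  obtain ⟨⟨f, x⟩, hf⟩ := a
  simp only [hT, par, ch0, ch1, cut, Finset.mem_filter, Finset.mem_insert]
  rcases lt_trichotomy x 0 with h | h | h
  · rw [if_pos (by omega), if_pos (by omega), if_pos (by omega), if_pos (by omega)]; simp
  · subst h
    have : (0 : ℤ) ∉ f := fun q => lt_irrefl _ (hf 0 q)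
    simp [this]
  · have e1 : (1 / 2 : ℝ) ^ (x + 1) = (1 / 2) ^ x / 2 := by rw [zpow_add_one₀ (by norm_num)]; ring
    have e2 : (1 / 2 : ℝ) ^ (x - 1) = (1 / 2) ^ x * 2 := by rw [zpow_sub_one₀ (by norm_num)]; norm_num
    have n1 : ¬ x + 1 ≤ 0 := by omega
    have n2 : ¬ x ≤ 0 := by omega
    have n3 : 0 < x + 1 := by omega
    have n4 : ¬ 0 = x := by omega
    simp only [n1, n2, n3, n4, if_false, and_true, false_or, e1, e2]
    by_cases h1 : x = 1
    · subst h1
      simp only [sub_self, le_refl, if_true]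
      split_ifs <;> norm_num
    · have n5 : ¬ x - 1 ≤ 0 := by omega
      have n6 : 0 < x - 1 := by omega
      simp only [n5, n6, if_false, and_true]
      ring

theorem harm : Harmonic G2 fun u => hT u.1 := by
  classical
  intro v
  have p1 : ch0 v.1 ≠ ch1 v.1 := fun e => by
    have : v.1.1.2 ∈ (ch1 v.1).1.1 := by simp [ch1, cut]
    rw [← e] at this
    exact lt_irrefl _ (v.1.2 _ (Finset.mem_filter.1 this).1)
  have lv : ∀ a b : Tv, a.1.2 ≠ b.1.2 → a ≠ b := fun a b h e => h (by rw [e])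
  have l1 : (par v.1).1.2 = v.1.1.2 - 1 := rfl
  have l2 : (ch0 v.1).1.2 = v.1.1.2 + 1 := rfl
  have l3 : (ch1 v.1).1.2 = v.1.1.2 + 1 := rfl
  have p2 := lv v.1 (par v.1) (by omega)
  have p3 := lv v.1 (ch0 v.1) (by omega)
  have p4 := lv v.1 (ch1 v.1) (by omega)
  have p5 := lv (par v.1) (ch0 v.1) (by omega)
  have p6 := lv (par v.1) (ch1 v.1) (by omega)
  let A : Finset Tv := {v.1, par v.1, ch0 v.1, ch1 v.1}
  let S := A ×ˢ Finset.Icc (v.2 - 1) (v.2 + 1)
  have hv : v ∈ S := by simp [S, A]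
  have hN : G2.neighborSet v = (S.erase v : Finset (Tv × ℤ)) := by
    ext u
    simp only [SimpleGraph.mem_neighborSet, G2, adj_iff, Finset.coe_erase, Set.mem_diff, S, A,
      Finset.mem_coe, Finset.mem_product, Finset.mem_insert, Finset.mem_singleton, Finset.mem_Icc,
      Set.mem_singleton_iff]
    constructor
    · rintro ⟨h1, h2, h3⟩
      exact ⟨⟨h2.imp Eq.symm id, by omega⟩, h1.symm⟩
    · rintro ⟨⟨h1, h2⟩, h3⟩
      exact ⟨fun e => h3 e.symm, h1.imp Eq.symm id, by omega⟩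
  have hI : (Finset.Icc (v.2 - 1) (v.2 + 1)).card = 3 := by rw [Int.card_Icc]; omega
  have hA : A.card = 4 := by
    simp only [A]
    rw [Finset.card_insert_of_notMem (by simp [p2, p3, p4]),
      Finset.card_insert_of_notMem (by simp [p5, p6]), Finset.card_pair p1]
  have sA : ∑ a ∈ A, hT a = 4 * hT v.1 := by
    simp only [A]
    rw [Finset.sum_insert (by simp [p2, p3, p4]), Finset.sum_insert (by simp [p5, p6]),
      Finset.sum_pair p1]
    linarith [hT_sum v.1]
  rw [hN, finsum_mem_coe_finset, Set.ncard_coe_finset, Finset.card_erase_of_mem hv,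
    Finset.sum_erase_eq_sub hv, Finset.card_product, hA, hI, Finset.sum_product]
  simp only [Finset.sum_const, hI, ← Finset.smul_sum, sA]
  norm_num
  ring

theorem not_liouville : ¬ Liouville G2 := by
  intro h
  have := h _ harm ⟨1, fun v => ?_⟩ (cut ∅ 0, 0) (cut ∅ 1, 0)
  · simp only [hT, cut] at this
    norm_num at this
  · simp only [hT]
    split_ifs with h1 h2
    · simp
    all_goals
      have q1 : (0 : ℝ) < (1 / 2) ^ v.1.1.2 := by positivity
      have q2 : (1 / 2 : ℝ) ^ v.1.1.2 ≤ 1 := zpow_le_one₀ (by norm_num) (by norm_num) (by omega)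
      rw [abs_le]; constructor <;> linarith

end Pool.Agent.H86.Surv.TZ
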