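import Mathlib

set_option autoImplicit false

namespace Pool.Agent.H86.Ufr

open Finset Filter Topology ZeroAtInfty Classical

/-- initial segments -/
abbrev JJ (N : ℕ) : Finset ℕ := Icc 1 N

/-- periods -/
def dd (k : ℕ) : ℕ := (3 * k + 1) * 2 ^ k

theorem dd_ge (k : ℕ) : 3 * k + 1 ≤ dd k := Nat.le_mul_of_pos_right _ (by positivity)

/-- level sets -/
def Ch (k : ℕ) (t : ℤ) : Prop := (dd k : ℤ) ≤ t + k ∧ (t + k) % dd k ≤ 3 * k

/-- unions of level sets -/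
def Sg (K : ℕ) (t : ℤ) : Prop := ∃ k, K < k ∧ Ch k t

theorem cnt (k N : ℕ) (s : Finset ℕ) (hs : s ⊆ JJ N) (f : ℕ → ℤ) (h1 : ∀ b ∈ s, Ch k (f b))
    (h2 : ∀ b b', (dd k : ℤ) ∣ f b - f b' → (dd k : ℤ) ∣ b - b') :
    (#s : ℝ) ≤ N * (1 / 2) ^ k + (3 * k + 1) := by
  have h0 : 0 < dd k := by have := dd_ge k; omega
  have h3 : #s ≤ #(range (3 * k + 1) ×ˢ range (N / dd k + 1)) := by
    refine card_le_card_of_injOn (fun b => (((f b + k) % dd k).toNat, b / dd k)) (fun b hb => ?_)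
      fun b hb b' hb' h => ?_
    · have := (h1 b hb).2
      have := Nat.div_le_div_right (c := dd k) (mem_Icc.mp (hs hb)).2
      simp only [coe_product, coe_range, Set.mem_prod, Set.mem_Iio]
      omega
    · simp only [Prod.mk.injEq] at h
      have a1 := Int.emod_nonneg (f b + k) (b := dd k) (by omega)
      have a2 := Int.emod_nonneg (f b' + k) (b := dd k) (by omega)
      have a3 : (f b' + k) % dd k = (f b + k) % dd k := by omega
      have a4 := h2 b b' (by simpa using Int.ModEq.dvd a3)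
      have a5 : b' % dd k = b % dd k := (Nat.modEq_iff_dvd.mpr a4 :)
      rw [← Nat.div_add_mod b (dd k), ← Nat.div_add_mod b' (dd k), h.2, a5]
  rw [card_product, card_range, card_range] at h3
  have h4 : ((N / dd k : ℕ) : ℝ) ≤ N / dd k := Nat.cast_div_le
  have h5 : (#s : ℝ) ≤ (3 * k + 1) * ((N / dd k : ℕ) + 1) := by exact_mod_cast h3
  have h6 : (3 * k + 1 : ℝ) * (N / dd k) = N * (1 / 2) ^ k := by
    rw [dd]; push_cast; rw [one_div_pow]; field_simp
  nlinarith [show (0 : ℝ) ≤ 3 * k + 1 by positivity]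

theorem geo (K R : ℕ) : ∑ k ∈ Ioc K R, (1 / 2 : ℝ) ^ k ≤ (1 / 2) ^ K := by
  have : ∀ R, ∑ k ∈ Ioc K (K + R), (1 / 2 : ℝ) ^ k ≤ (1 / 2) ^ K - (1 / 2) ^ (K + R) := fun R => by
    induction R with
    | zero => simp
    | succ R ih =>
      rw [← add_assoc, sum_Ioc_succ_top (by omega), pow_succ]
      linarith
  refine le_trans (sum_le_sum_of_subset_of_nonneg (Ioc_subset_Ioc_right (Nat.le_add_left R K))
    fun _ _ _ => by positivity) ((this R).trans (sub_le_self _ (by positivity)))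

theorem cntA (K K' N : ℕ) (a : ℤ) : (#{b ∈ JJ N | Sg K (a - (b : ℕ))} : ℝ) ≤
    #{b ∈ JJ N | Sg K' (a - (b : ℕ))} + (N * (1 / 2) ^ K + K' * (3 * K' + 1)) := by
  have h1 : {b ∈ JJ N | Sg K (a - (b : ℕ))} ⊆ {b ∈ JJ N | Sg K' (a - (b : ℕ))} ∪
      (Ioc K K').biUnion fun k => {b ∈ JJ N | Ch k (a - (b : ℕ))} := fun b hb => by
    obtain ⟨h1, k, h2, h3⟩ := mem_filter.mp hb
    rcases lt_or_ge K' k with h | h
    · exact mem_union_left _ (mem_filter.mpr ⟨h1, k, h, h3⟩)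
    · exact mem_union_right _ (mem_biUnion.mpr ⟨k, mem_Ioc.mpr ⟨h2, h⟩, mem_filter.mpr ⟨h1, h3⟩⟩)
  have h2 := (card_le_card h1).trans ((card_union_le _ _).trans
    (Nat.add_le_add_left card_biUnion_le _))
  have h3 : ∑ k ∈ Ioc K K', (#{b ∈ JJ N | Ch k (a - (b : ℕ))} : ℝ) ≤
      ∑ k ∈ Ioc K K', (N * (1 / 2) ^ k + (3 * K' + 1) : ℝ) := sum_le_sum fun k hk => by
    refine (cnt k N _ (filter_subset _ _) (fun b => a - b) (fun b hb => (mem_filter.mp hb).2)
      fun b b' h => by simpa using (dvd_neg.mpr h)).trans ?_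
    have : (k : ℝ) ≤ K' := by exact_mod_cast (mem_Ioc.mp hk).2
    linarith
  rw [sum_add_distrib, ← mul_sum, sum_const, Nat.card_Ioc, nsmul_eq_mul] at h3
  have h4 := mul_le_mul_of_nonneg_left (geo K K') (Nat.cast_nonneg N)
  have h5 : ((K' - K : ℕ) : ℝ) ≤ K' := by exact_mod_cast Nat.sub_le _ _
  have h6 := mul_le_mul_of_nonneg_right h5 (show (0 : ℝ) ≤ 3 * K' + 1 by positivity)
  have h7 : (#{b ∈ JJ N | Sg K (a - (b : ℕ))} : ℝ) ≤ #{b ∈ JJ N | Sg K' (a - (b : ℕ))} +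
      ∑ k ∈ Ioc K K', (#{b ∈ JJ N | Ch k (a - (b : ℕ))} : ℝ) := by exact_mod_cast h2
  linarith

theorem cntB (K N A : ℕ) (a : ℤ) (ha : -a ≤ A) :
    (#{n ∈ JJ N | Sg K ((n : ℕ) - a)} : ℝ) ≤ 3 * (N + A) * (1 / 2) ^ K := by
  have h1 : {n ∈ JJ N | Sg K ((n : ℕ) - a)} ⊆
      (Ioc K (N + A)).biUnion fun k => {n ∈ JJ N | Ch k ((n : ℕ) - a)} := fun b hb => by
    obtain ⟨h1, k, h2, h3⟩ := mem_filter.mp hb
    have := dd_ge k
    have := h3.1
    have := mem_Icc.mp h1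
    exact mem_biUnion.mpr ⟨k, mem_Ioc.mpr ⟨h2, by omega⟩, mem_filter.mpr ⟨h1, h3⟩⟩
  have h2 := (card_le_card h1).trans card_biUnion_le
  have h3 : ∑ k ∈ Ioc K (N + A), (#{n ∈ JJ N | Ch k ((n : ℕ) - a)} : ℝ) ≤
      ∑ k ∈ Ioc K (N + A), (3 * (N + A) * (1 / 2) ^ k : ℝ) := sum_le_sum fun k hk => by
    rcases eq_empty_or_nonempty {n ∈ JJ N | Ch k ((n : ℕ) - a)} with h | ⟨b, hb⟩
    · rw [h, card_empty, Nat.cast_zero]; positivity
    refine (cnt k N _ (filter_subset _ _) (fun b => b - a) (fun b hb => (mem_filter.mp hb).2)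
      fun b b' h => by simpa using h).trans ?_
    have a1 := (mem_filter.mp hb).2.1
    have a2 := mem_Icc.mp (mem_filter.mp hb).1
    have a3 := (mem_Ioc.mp hk).2
    have a4 : dd k ≤ 2 * (N + A) := by omega
    have a5 : (3 * k + 1 : ℝ) * 2 ^ k ≤ 2 * (N + A) := by rw [dd] at a4; exact_mod_cast a4
    have a6 : (3 * k + 1 : ℝ) ≤ 2 * (N + A) * (1 / 2) ^ k := by
      rw [one_div_pow, mul_one_div, le_div_iff₀ (by positivity)]; exact a5
    nlinarith [show (0 : ℝ) ≤ A * (1 / 2) ^ k by positivity]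
  rw [← mul_sum] at h3
  have h7 : (#{n ∈ JJ N | Sg K ((n : ℕ) - a)} : ℝ) ≤
      ∑ k ∈ Ioc K (N + A), (#{n ∈ JJ N | Ch k ((n : ℕ) - a)} : ℝ) := by exact_mod_cast h2
  exact h7.trans (h3.trans (mul_le_mul_of_nonneg_left (geo _ _) (by positivity)))

theorem comb (B : Set ℕ) (j : ℤ) {δ : ℝ} (hδ : 0 < δ)
    (hB : ∃ᶠ N : ℕ in atTop, δ * N ≤ #{n ∈ JJ N | n ∈ B}) : ∃ K : ℕ, ∀ (C : Set ℕ) (M : ℕ),
    (∀ n ∈ C, ∀ b ∈ B, j + b + M ≤ n → Sg K (n - j - b)) → ∀ δ' : ℝ, 0 < δ' →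
    ¬ ∃ᶠ N : ℕ in atTop, δ' * N ≤ #{n ∈ JJ N | n ∈ C} := by
  obtain ⟨K, hK⟩ := exists_pow_lt_of_lt_one (show 0 < δ / 4 by positivity)
    (show (1 / 2 : ℝ) < 1 by norm_num)
  refine ⟨K, fun C M h δ' hδ' hC => ?_⟩
  obtain ⟨K', hK'⟩ := exists_pow_lt_of_lt_one (show 0 < δ * δ' / 24 by positivity)
    (show (1 / 2 : ℝ) < 1 by norm_num)
  have t1 : ∀ c : ℝ, ∀ᶠ N : ℕ in atTop, c ≤ N := fun c =>
    tendsto_natCast_atTop_atTop.eventually_ge_atTop c
  obtain ⟨N, h1, h2, h2'⟩ := (hB.and_eventually ((t1 (K' * (3 * K' + 1) / (δ / 4))).and (t1 1))).exists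
  obtain ⟨N', h3, h4, h5, h5'⟩ := (hC.and_eventually ((t1 ((j.natAbs + N + M : ℕ) / (δ' / 2))).and
    ((t1 j.natAbs).and (t1 1)))).exists
  rw [div_le_iff₀ (by positivity)] at h2 h4
  let G := {n ∈ JJ N' | n ∈ C ∧ j.natAbs + N + M < n}
  have a1 : ∀ n ∈ G, δ * N / 2 ≤ #{b ∈ JJ N | Sg K' (n - j - (b : ℕ))} := fun n hn => by
    obtain ⟨-, b1, b2⟩ := mem_filter.mp hn
    have b3 : #{b ∈ JJ N | b ∈ B} ≤ #{b ∈ JJ N | Sg K (n - j - (b : ℕ))} :=
      card_le_card fun b hb => by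
        obtain ⟨c1, c2⟩ := mem_filter.mp hb
        have := mem_Icc.mp c1
        exact mem_filter.mpr ⟨c1, h n b1 b c2 (by omega)⟩
    have b4 := cntA K K' N (n - j)
    have b5 : (#{b ∈ JJ N | b ∈ B} : ℝ) ≤ #{b ∈ JJ N | Sg K (n - j - (b : ℕ))} := by
      exact_mod_cast b3
    nlinarith
  have a2 : ∑ n ∈ G, (#{b ∈ JJ N | Sg K' (n - j - (b : ℕ))} : ℝ) ≤
      N * (3 * (N' + j.natAbs) * (1 / 2) ^ K') := by
    have b1 : ∑ n ∈ G, (#{b ∈ JJ N | Sg K' (n - j - (b : ℕ))} : ℝ) ≤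
        ∑ n ∈ JJ N', (#{b ∈ JJ N | Sg K' (n - j - (b : ℕ))} : ℝ) :=
      sum_le_sum_of_subset_of_nonneg (filter_subset _ _) fun _ _ _ => by positivity
    refine b1.trans ?_
    simp only [card_filter, Nat.cast_sum]
    rw [sum_comm]
    refine (sum_le_card_nsmul _ _ (3 * (N' + j.natAbs) * (1 / 2) ^ K' : ℝ) fun b _ => ?_).trans
      (by simp)
    have := cntB K' N' j.natAbs (j + b) (by omega)
    simpa only [card_filter, Nat.cast_sum, sub_add_eq_sub_sub] using this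
  have a3 := card_nsmul_le_sum G _ _ a1
  have a4 : #{n ∈ JJ N' | n ∈ C} ≤ #G + (j.natAbs + N + M) := by
    refine (card_le_card (t := G ∪ Icc 1 (j.natAbs + N + M)) fun n hn => ?_).trans
      ((card_union_le _ _).trans (by simp))
    obtain ⟨c1, c2⟩ := mem_filter.mp hn
    by_cases c3 : j.natAbs + N + M < n
    · exact mem_union_left _ (mem_filter.mpr ⟨c1, c2, c3⟩)
    · exact mem_union_right _ (mem_Icc.mpr ⟨(mem_Icc.mp c1).1, not_lt.mp c3⟩)
  have a5 : (#{n ∈ JJ N' | n ∈ C} : ℝ) ≤ #G + (j.natAbs + N + M : ℕ) := by exact_mod_cast a4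
  have a6 : δ' * N' / 2 ≤ #G := by linarith
  rw [nsmul_eq_mul] at a3
  have a7 := (mul_le_mul_of_nonneg_right a6 (show 0 ≤ δ * N / 2 by positivity)).trans (a3.trans a2)
  have a8 : 3 * (N' + j.natAbs) * (1 / 2 : ℝ) ^ K' < 6 * N' * (δ * δ' / 24) := by
    have : (0 : ℝ) < (1 / 2) ^ K' := by positivity
    nlinarith
  nlinarith

/-- admissible heights -/
def Lv (m : ℤ) (j : ℕ) : Prop :=
  (j : ℤ) ≤ m ∨ ∃ k c : ℕ, 1 ≤ c ∧ (c * dd k : ℤ) ≤ -m + k ∧ -m + j ≤ c * dd k + 2 * k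

theorem Lv.bdd (m : ℤ) : BddAbove {j | Lv m j} := by
  refine ⟨3 * m.natAbs, ?_⟩
  rintro j (h | ⟨k, c, h1, h2, h3⟩)
  · omega
  · have h4 := dd_ge k
    have h5 : dd k ≤ c * dd k := Nat.le_mul_of_pos_left _ h1
    have h6 : (dd k : ℤ) ≤ c * dd k := by exact_mod_cast h5
    omega

/-- the height function -/
noncomputable def HH (m : ℤ) : ℕ := sSup {j | Lv m j}

theorem le_HH {m : ℤ} {j : ℕ} (h : Lv m j) : j ≤ HH m := le_csSup (Lv.bdd m) h

theorem lv_HH {m : ℤ} (h : 0 < HH m) : Lv m (HH m) := by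
  refine Nat.sSup_mem (Set.nonempty_iff_ne_empty.mpr fun h1 => ?_) (Lv.bdd m)
  rw [HH, h1] at h
  simp at h

theorem HH_succ (m : ℤ) : HH (m + 1) ≤ HH m + 1 := by
  rcases Nat.eq_zero_or_pos (HH (m + 1)) with h | h
  · omega
  have : Lv m (HH (m + 1) - 1) := (lv_HH h).imp (fun h => by omega)
    fun ⟨k, c, h1, h2, h3⟩ => ⟨k, c, h1, by omega, by omega⟩
  have := le_HH this
  omega

theorem sg_of {m : ℤ} {K : ℕ} (hm : m < 0) (h : 3 * K < HH m) : Sg K (-m) := by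
  rcases lv_HH (m := m) (by omega) with h1 | ⟨k, c, h1, h2, h3⟩
  · omega
  have h4 := dd_ge k
  have h5 : dd k ≤ c * dd k := Nat.le_mul_of_pos_left _ h1
  have h6 : (dd k : ℤ) ≤ c * dd k := by exact_mod_cast h5
  refine ⟨k, by omega, by omega, ?_⟩
  rw [show -m + k = (-m + k - c * dd k) + c * dd k by ring, Int.add_mul_emod_self_right,
    Int.emod_eq_of_lt (by omega) (by omega)]
  omega

/-- the weights -/
noncomputable def uu (m : ℤ) : ℝ := (1 / 2) ^ HH m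

theorem uu_pos (m : ℤ) : 0 < uu m := by rw [uu]; positivity

theorem uu_le (m : ℤ) : uu m ≤ 1 := pow_le_one₀ (by norm_num) (by norm_num)

theorem uu_lv {m : ℤ} {j : ℕ} (h : Lv m j) : uu m ≤ (1 / 2) ^ j :=
  pow_le_pow_of_le_one (by norm_num) (by norm_num) (le_HH h)

theorem ratio (m : ℤ) : ‖((uu m / uu (m + 1) : ℝ) : ℂ)‖ ≤ 2 := by
  have h1 := uu_pos m
  have h2 := uu_pos (m + 1)
  have h3 : (1 / 2 : ℝ) ^ (HH m + 1) ≤ uu (m + 1) :=
    pow_le_pow_of_le_one (by norm_num) (by norm_num) (HH_succ m)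
  rw [Complex.norm_real, Real.norm_of_nonneg (by positivity), div_le_iff₀ h2]
  rw [pow_succ, ← uu] at h3
  linarith

theorem ap_le (y : C₀(ℤ, ℂ)) (m : ℤ) : ‖y m‖ ≤ ‖y‖ := y.toBCF.norm_coe_le_norm m

theorem norm_le (y : C₀(ℤ, ℂ)) {C : ℝ} (h : ∀ m, ‖y m‖ ≤ C) : ‖y‖ ≤ C :=
  (BoundedContinuousFunction.norm_le (f := y.toBCF) ((norm_nonneg _).trans (h 0))).mpr h

theorem small (y : C₀(ℤ, ℂ)) {ε : ℝ} (h : 0 < ε) : ∃ p : ℕ, ∀ m : ℤ, p < m.natAbs → ‖y m‖ < ε := by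
  have h1 := zero_at_infty y
  rw [cocompact_eq_cofinite] at h1
  have h2 := (h1.eventually (Metric.ball_mem_nhds 0 h))
  obtain ⟨p, hp⟩ := (Set.Finite.image Int.natAbs h2).bddAbove
  refine ⟨p, fun m hm => ?_⟩
  by_contra h3
  exact absurd (hp ⟨m, by simpa using h3, rfl⟩) (not_le.mpr hm)

/-- the weighted shift -/
noncomputable def TT : C₀(ℤ, ℂ) →L[ℂ] C₀(ℤ, ℂ) :=
  LinearMap.mkContinuous
    { toFun := fun y =>
        { toFun := fun m => ((uu m / uu (m + 1) : ℝ) : ℂ) * y (m + 1)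
          continuous_toFun := continuous_of_discreteTopology
          zero_at_infty' := by
            have h1 := zero_at_infty y
            rw [cocompact_eq_cofinite] at h1 ⊢
            have h2 := (h1.comp (add_left_injective (1 : ℤ)).tendsto_cofinite).norm.const_mul 2
            rw [norm_zero, mul_zero] at h2
            exact squeeze_zero_norm (fun m => (norm_mul_le _ _).trans
              (mul_le_mul_of_nonneg_right (ratio m) (norm_nonneg _))) h2 }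
      map_add' := fun y z => by ext m; simp [mul_add]
      map_smul' := fun c y => by ext m; simp [mul_left_comm] }
    2 fun y => norm_le _ fun m => (norm_mul_le _ _).trans
      (mul_le_mul (ratio m) (ap_le y _) (norm_nonneg _) zero_le_two)

theorem TT_pow (n : ℕ) (y : C₀(ℤ, ℂ)) (m : ℤ) :
    (TT ^ n) y m = ((uu m / uu (m + n) : ℝ) : ℂ) * y (m + n) := by
  induction n generalizing m with
  | zero => simp [(uu_pos m).ne']
  | succ n ih =>
    rw [pow_succ', mul_apply_eq_comp]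
    change ((uu m / uu (m + 1) : ℝ) : ℂ) * (TT ^ n) y (m + 1) = _
    rw [ih, ← mul_assoc, ← Complex.ofReal_mul, div_mul_div_cancel₀ (uu_pos _).ne']
    push_cast
    rw [add_assoc, add_comm 1]

theorem propA (y : C₀(ℤ, ℂ)) {ε : ℝ} (hε : 0 < ε) :
    ∃ (x : C₀(ℤ, ℂ)) (d : ℕ), 0 < d ∧ ∀ c : ℕ, ‖(TT ^ (c * d)) x - y‖ ≤ ε := by
  obtain ⟨p, hp⟩ := small y (half_pos hε)
  obtain ⟨C, hC⟩ := ((Set.finite_Icc (-(p : ℤ)) p).image fun m => ‖y m / uu m‖).bddAbove
  have hC0 : 0 ≤ C := (norm_nonneg _).trans (hC ⟨0, by simp, rfl⟩)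
  obtain ⟨k₀, hk⟩ := exists_pow_lt_of_lt_one (show 0 < ε / 2 / (C + 1) by positivity)
    (show (1 / 2 : ℝ) < 1 by norm_num)
  obtain ⟨k, hk'⟩ : ∃ k, k = k₀ + p := ⟨_, rfl⟩
  have hd := dd_ge k
  let π : ℤ → ℂ := fun m => if (m + p) % dd k ≤ 2 * p then
    y ((m + p) % dd k - p) / uu ((m + p) % dd k - p) else 0
  have h1 : ∀ m, ‖π m‖ ≤ C := fun m => by
    have := Int.emod_nonneg (m + p) (b := dd k) (by omega)
    simp only [π]
    split_ifs
    · exact hC ⟨_, ⟨by omega, by omega⟩, rfl⟩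
    · simpa using hC0
  let x : C₀(ℤ, ℂ) :=
    { toFun := fun m => if -(p : ℤ) ≤ m then uu m * π m else 0
      continuous_toFun := continuous_of_discreteTopology
      zero_at_infty' := by
        rw [cocompact_eq_cofinite, Int.cofinite_eq, tendsto_sup]
        refine ⟨tendsto_const_nhds.congr' ((eventually_lt_atBot (-(p : ℤ))).mono fun m hm =>
          (if_neg (not_le.mpr hm)).symm), ?_⟩
        have h2 := ((tendsto_pow_atTop_nhds_zero_of_lt_one (r := (1 / 2 : ℝ)) (by norm_num)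
          (by norm_num)).comp (tendsto_atTop_atTop.mpr fun b => ⟨(b : ℤ), fun a ha =>
            (show b ≤ a.toNat by omega)⟩)).mul_const C
        rw [zero_mul] at h2
        refine squeeze_zero_norm' ((eventually_ge_atTop 0).mono fun m hm => ?_) h2
        rw [if_pos (by omega), norm_mul, Complex.norm_real, Real.norm_of_nonneg (uu_pos m).le]
        exact mul_le_mul (uu_lv (Or.inl (by omega))) (h1 m) (norm_nonneg _)
          (pow_nonneg (by norm_num) _) }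
  refine ⟨x, dd k, by omega, fun c => norm_le _ fun m => ?_⟩
  have h3 : (TT ^ (c * dd k)) x m = if -(p : ℤ) ≤ m + (c * dd k : ℕ) then uu m * π m else 0 := by
    rw [TT_pow]
    change _ * (if _ then _ else _) = _
    split_ifs
    · have : π (m + (c * dd k : ℕ)) = π m := by
        simp only [π]
        push_cast
        rw [add_right_comm, Int.add_mul_emod_self_right]
      rw [this, ← mul_assoc, ← Complex.ofReal_mul, div_mul_cancel₀ _ (uu_pos _).ne']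
    · simp
  rw [ZeroAtInftyContinuousMap.sub_apply, h3]
  rcases le_or_gt m.natAbs p with hm | hm
  · have h4 : (m + p) % dd k = m + p := Int.emod_eq_of_lt (by omega) (by omega)
    have h5 : (uu m : ℂ) ≠ 0 := Complex.ofReal_ne_zero.mpr (uu_pos m).ne'
    rw [if_pos (by omega)]
    simp only [π, h4]
    rw [if_pos (by omega), add_sub_cancel_right, mul_div_cancel₀ _ h5, sub_self, norm_zero]
    exact hε.le
  refine (norm_sub_le _ _).trans ?_
  suffices ‖uu m * π m‖ ≤ ε / 2 by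
    have := hp m hm
    split_ifs
    · linarith
    · rw [norm_zero]; linarith
  by_cases h4 : (m + p) % dd k ≤ 2 * p
  · have h5 := Int.emod_nonneg (m + p) (b := dd k) (by omega)
    have h6 := Int.mul_ediv_add_emod (m + p) (dd k)
    have h7 : Lv m k₀ := by
      rcases lt_trichotomy ((m + p) / dd k) 0 with h | h | h
      · refine Or.inr ⟨k, (-((m + p) / dd k)).toNat, by omega, ?_, ?_⟩ <;>
          rw [Int.toNat_of_nonneg (by omega)] <;> nlinarith
      · rw [h] at h6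
        omega
      · have : (dd k : ℤ) * 1 ≤ dd k * ((m + p) / dd k) :=
          mul_le_mul_of_nonneg_left h (by omega)
        exact Or.inl (by omega)
    rw [norm_mul, Complex.norm_real, Real.norm_of_nonneg (uu_pos m).le]
    rw [lt_div_iff₀ (by positivity)] at hk
    nlinarith [mul_le_mul (uu_lv h7) (h1 m) (norm_nonneg _) (by positivity),
      show (0 : ℝ) < (1 / 2) ^ k₀ by positivity]
  · simp only [π, if_neg h4]
    simpa using (half_pos hε).le

theorem noRec (y : C₀(ℤ, ℂ)) (h : ∀ ε : ℝ, 0 < ε → ∃ δ : ℝ, 0 < δ ∧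
    ∃ᶠ N : ℕ in atTop, δ * N ≤ #{n ∈ JJ N | n ∈ {n : ℕ | ‖(TT ^ n) y - y‖ < ε}}) : y = 0 := by
  by_contra h0
  obtain ⟨j, hj⟩ : ∃ j, y j ≠ 0 := by
    by_contra h1
    push Not at h1
    exact h0 (ZeroAtInftyContinuousMap.ext h1)
  have ha := norm_pos_iff.mpr hj
  obtain ⟨δ, hδ, h1⟩ := h _ (half_pos ha)
  obtain ⟨K, hK⟩ := comb _ j hδ h1
  have hε : 0 < ‖y j‖ / 4 * (1 / 2) ^ (3 * K) := by positivity
  obtain ⟨δ', hδ', h2⟩ := h _ hε
  obtain ⟨M, hM⟩ := small y hε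
  refine hK _ (M + 1) (fun n hn b hb h3 => ?_) δ' hδ' h2
  rw [show (n : ℤ) - j - b = -(j + b - n) by ring]
  refine sg_of (by omega) (not_le.mp fun h4 => ?_)
  have a1 := (ap_le _ j).trans_lt hb
  have a2 := (ap_le _ (j + b - n)).trans_lt hn
  have a3 := hM (j + b - n) (by omega)
  rw [ZeroAtInftyContinuousMap.sub_apply, TT_pow] at a1 a2
  rw [sub_add_cancel] at a2
  have a4 := (norm_sub_norm_le _ _).trans_lt a2
  rw [norm_sub_rev] at a1
  have a5 := (norm_sub_norm_le _ _).trans_lt a1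
  have b1 := uu_pos j
  have b2 := uu_pos (j + b)
  have b3 := uu_pos (j + b - n)
  rw [norm_mul, Complex.norm_real, Real.norm_of_nonneg (by positivity), div_mul_eq_mul_div,
    mul_div_assoc] at a4 a5
  have a6 : (1 / 2 : ℝ) ^ (3 * K) ≤ uu (j + b - n) :=
    pow_le_pow_of_le_one (by norm_num) (by norm_num) h4
  have a7 : 0 ≤ ‖y (j + b)‖ / uu (j + b) := by positivity
  have a8 := mul_le_of_le_one_left a7 (uu_le j)
  nlinarith [mul_le_mul_of_nonneg_right a6 a7, show (0 : ℝ) < (1 / 2) ^ (3 * K) by positivity]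

end Pool.Agent.H86.Ufr
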