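import Mathlib

set_option autoImplicit false
set_option linter.unusedSectionVars false

namespace Pool.Agent.H86.Uhf

open Finset

variable {B : Type} [CStarAlgebra B]

theorem kraus {ι : Type} [Fintype ι] (v : ι → B) (h : ∑ i, v i * star (v i) = 1) (x : B) :
    ‖∑ i, v i * x * star (v i)‖ ≤ ‖x‖ := by
  letI := CStarAlgebra.spectralOrder B
  haveI := CStarAlgebra.spectralOrderedRing B
  have h0 : ‖(1 : B)‖ ≤ 1 := by
    rcases subsingleton_or_nontrivial B with _ | _
    · simp [Subsingleton.elim (1 : B) 0]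
    · simp
  let p : WithCStarModule B (ι → B) := (WithCStarModule.equiv _ _).symm v
  let q : WithCStarModule B (ι → B) := (WithCStarModule.equiv _ _).symm fun i => v i * x
  have h1 := CStarModule.norm_inner_le (A := B) (WithCStarModule B (ι → B)) (x := p) (y := q)
  have h2 : ‖p‖ ^ 2 ≤ 1 ^ 2 := by
    rw [WithCStarModule.pi_norm_sq]
    simpa [p, WithCStarModule.inner_def, h] using h0
  have h3 : ‖q‖ ^ 2 ≤ ‖x‖ ^ 2 := by
    rw [WithCStarModule.pi_norm_sq]
    have h4 : ∑ i, v i * (x * star x) * star (v i) ≤ ‖x * star x‖ • (1 : B) := by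
      rw [← h, smul_sum]
      exact sum_le_sum fun i _ => CStarAlgebra.star_right_conjugate_le_norm_smul
    have h5 := CStarAlgebra.norm_le_norm_of_nonneg_of_le
      (sum_nonneg fun i _ => star_right_conjugate_nonneg (mul_star_self_nonneg x) (v i)) h4
    rw [norm_smul, norm_norm, CStarRing.norm_self_mul_star] at h5
    simp only [q, WithCStarModule.inner_def, WithCStarModule.equiv_symm_pi_apply, star_mul]
    simp only [mul_assoc] at h5 ⊢
    nlinarith [mul_nonneg (norm_nonneg x) (norm_nonneg x)]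
  have h6 := abs_le_of_sq_le_sq' h2 zero_le_one
  have h7 := abs_le_of_sq_le_sq' h3 (norm_nonneg x)
  simp only [WithCStarModule.pi_inner, WithCStarModule.inner_def, p, q,
    WithCStarModule.equiv_symm_pi_apply] at h1
  exact h1.trans (by nlinarith [norm_nonneg p, norm_nonneg q])

/-- a unital system of matrix units -/
structure MU {N : ℕ} (e : Fin N → Fin N → B) : Prop where
  pos : 0 < N
  mul : ∀ a b c d, e a b * e c d = if b = c then e a d else 0
  adj : ∀ a b, star (e a b) = e b a
  sum : ∑ a, e a a = 1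

/-- the linear span of a system -/
noncomputable def Sp {N : ℕ} (e : Fin N → Fin N → B) : Submodule ℂ B :=
  Submodule.span ℂ (Set.range fun p : Fin N × Fin N => e p.1 p.2)

/-- matrix coefficient with values in the commutant -/
def sl {N : ℕ} (e : Fin N → Fin N → B) (a b : Fin N) : B →ₗ[ℂ] B where
  toFun w := ∑ c, e c a * w * e b c
  map_add' x y := by simp only [mul_add, add_mul, sum_add_distrib]
  map_smul' s x := by simp only [mul_smul_comm, smul_mul_assoc, RingHom.id_apply, smul_sum]

/-- normalised partial trace -/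
noncomputable def av {N : ℕ} (e : Fin N → Fin N → B) : B →ₗ[ℂ] B :=
  (N : ℂ)⁻¹ • ∑ a, sl e a a

variable {N : ℕ} {e : Fin N → Fin N → B}

theorem sl_apply (a b : Fin N) (w : B) : sl e a b w = ∑ c, e c a * w * e b c := rfl

theorem av_apply (w : B) : av e w = (N : ℂ)⁻¹ • ∑ a, sl e a a w := by
  simp [av, LinearMap.sum_apply]

theorem sl_cont (a b : Fin N) : Continuous (sl e a b) := by
  change Continuous fun w => ∑ c, e c a * w * e b c
  fun_prop

theorem mem_Sp (a b : Fin N) : e a b ∈ Sp e := Submodule.subset_span ⟨(a, b), rfl⟩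

theorem MU.mul' (h : MU e) (a b c d : Fin N) (x : B) :
    e a b * (e c d * x) = if b = c then e a d * x else 0 := by
  rw [← mul_assoc, h.mul]
  split_ifs <;> simp

theorem MU.sl_mul (h : MU e) (a b : Fin N) (w w' : B) :
    sl e a b (w * w') = ∑ d, sl e a d w * sl e d b w' := by
  simp only [sl_apply, sum_mul, mul_sum, mul_assoc, h.mul', mul_ite, mul_zero, sum_ite_eq',
    mem_univ, if_true]
  rw [sum_comm]
  refine sum_congr rfl fun c _ => ?_
  simp only [← mul_sum, ← sum_mul, h.sum, one_mul]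

theorem MU.sl_star (h : MU e) (a b : Fin N) (w : B) :
    star (sl e a b w) = sl e b a (star w) := by
  simp only [sl_apply, star_sum, star_mul, h.adj, mul_assoc]

theorem sl_left {g : B} (hg : ∀ a b, Commute g (e a b)) (a b : Fin N) (w : B) :
    sl e a b (g * w) = g * sl e a b w := by
  simp only [sl_apply, mul_sum, ← mul_assoc, (hg _ _).eq]

theorem sl_right {g : B} (hg : ∀ a b, Commute g (e a b)) (a b : Fin N) (w : B) :
    sl e a b (w * g) = sl e a b w * g := by
  simp only [sl_apply, sum_mul, mul_assoc, (hg _ _).eq]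

theorem MU.sl_e (h : MU e) (a b c d : Fin N) :
    sl e a b (e c d) = if a = c ∧ d = b then 1 else 0 := by
  simp only [sl_apply, h.mul]
  by_cases h1 : a = c <;> by_cases h2 : d = b <;> simp [h1, h2, h.mul, h.sum]

theorem MU.sl_one (h : MU e) (a b : Fin N) : sl e a b 1 = if a = b then 1 else 0 := by
  simp only [sl_apply, mul_one, h.mul]
  split_ifs <;> simp [h.sum]

theorem MU.expand (h : MU e) (w : B) : ∑ a, ∑ b, sl e a b w * e a b = w := by
  simp only [sl_apply, sum_mul, mul_assoc, h.mul, mul_ite, mul_zero, sum_ite_eq', mem_univ,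
    if_true]
  simp only [← mul_sum, ← sum_mul, h.sum, one_mul, mul_one]

theorem MU.norm_le (h : MU e) (a b : Fin N) : ‖e a b‖ ≤ 1 := by
  have h1 := CStarRing.norm_star_mul_self (x := e a b)
  have h2 := CStarRing.norm_star_mul_self (x := e b b)
  rw [h.adj, h.mul, if_pos rfl] at h1 h2
  have h3 : ‖e b b‖ ≤ 1 := by nlinarith [norm_nonneg (e b b)]
  nlinarith [norm_nonneg (e a b)]

theorem MU.sl_norm (h : MU e) (a b : Fin N) (w : B) : ‖sl e a b w‖ ≤ N * ‖w‖ := by
  rw [sl_apply]
  refine (norm_sum_le _ _).trans ((sum_le_card_nsmul _ _ ‖w‖ fun c _ => ?_).trans (by simp))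
  refine (norm_mul₃_le).trans ?_
  have := mul_le_mul (h.norm_le c a) (h.norm_le b c) (norm_nonneg _) zero_le_one
  nlinarith [norm_nonneg w]

theorem MU.av_norm (h : MU e) (w : B) : ‖av e w‖ ≤ ‖w‖ := by
  have h0 : (0 : ℝ) < N := by exact_mod_cast h.pos
  let r : ℂ := ((√N)⁻¹ : ℝ)
  have hr : r * r = (N : ℂ)⁻¹ := by
    simp only [r, ← Complex.ofReal_mul, ← mul_inv, Real.mul_self_sqrt h0.le]
    simp
  have hs : star r = r := Complex.conj_ofReal _
  have := kraus (fun p : Fin N × Fin N => r • e p.2 p.1) (by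
    simp only [star_smul, hs, smul_mul_smul_comm, hr, h.adj, h.mul, if_true,
      Fintype.sum_prod_type, ← smul_sum, h.sum]
    rw [sum_const, card_fin, ← Nat.cast_smul_eq_nsmul ℂ, smul_smul,
      inv_mul_cancel₀ (by exact_mod_cast h0.ne'), one_smul]) w
  simpa only [star_smul, hs, smul_mul_assoc, mul_smul_comm, smul_smul, hr, h.adj,
    Fintype.sum_prod_type, ← smul_sum, av_apply, sl_apply] using this

theorem MU.av_star (h : MU e) (w : B) : star (av e w) = av e (star w) := by
  simp [av_apply, star_sum, h.sl_star]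

theorem av_left {g : B} (hg : ∀ a b, Commute g (e a b)) (w : B) : av e (g * w) = g * av e w := by
  simp only [av_apply, sl_left hg, mul_smul_comm, mul_sum]

theorem av_right {g : B} (hg : ∀ a b, Commute g (e a b)) (w : B) :
    av e (w * g) = av e w * g := by
  simp only [av_apply, sl_right hg, smul_mul_assoc, sum_mul]

theorem MU.av_one (h : MU e) : av e 1 = 1 := by
  simp only [av_apply, h.sl_one, if_true]
  rw [sum_const, card_fin, ← Nat.cast_smul_eq_nsmul ℂ, smul_smul,
    inv_mul_cancel₀ (by exact_mod_cast h.pos.ne'), one_smul]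

theorem MU.av_e (h : MU e) (c d : Fin N) :
    av e (e c d) = if c = d then (N : ℂ)⁻¹ • 1 else 0 := by
  simp only [av_apply, h.sl_e]
  split_ifs with h1
  · simp [h1, eq_comm]
  · rw [sum_eq_zero fun a _ => if_neg fun h2 => h1 (h2.1.symm.trans h2.2.symm), smul_zero]

theorem MU.av_tr (h : MU e) {u v : B} (hu : u ∈ Sp e) (hv : v ∈ Sp e) :
    av e (u * v) = av e (v * u) := by
  induction hu, hv using Submodule.span_induction₂ with
  | mem_mem u v hu hv =>
    obtain ⟨⟨a, b⟩, rfl⟩ := hu
    obtain ⟨⟨c, d⟩, rfl⟩ := hv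
    simp only [h.mul]
    by_cases h1 : b = c <;> by_cases h2 : d = a <;> simp [h1, h2, h.av_e, Ne.symm]
  | zero_left => simp
  | zero_right => simp
  | add_left _ _ _ _ _ _ h1 h2 => simp [add_mul, mul_add, h1, h2]
  | add_right _ _ _ _ _ _ h1 h2 => simp [add_mul, mul_add, h1, h2]
  | smul_left _ _ _ _ _ h1 => simp [h1]
  | smul_right _ _ _ _ _ h1 => simp [h1]

theorem MU.av_sub (h : MU e) {M : ℕ} {f : Fin M → Fin M → B} (hf : MU f)
    (hfe : ∀ c d, f c d ∈ Sp e) (c d : Fin M) : av e (f c d) = av f (f c d) := by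
  have h1 := fun a b c d => h.av_tr (hfe a b) (hfe c d)
  rw [hf.av_e]
  split_ifs with h2
  · have h3 : ∀ a, av e (f a a) = av e (f d d) := fun a => by simpa [hf.mul] using h1 a d d a
    have h4 := h.av_one
    rw [← hf.sum, map_sum] at h4
    simp only [h3] at h4
    rw [sum_const, card_fin, ← Nat.cast_smul_eq_nsmul ℂ, hf.sum] at h4
    rw [h2, ← h4, smul_smul, inv_mul_cancel₀ (by exact_mod_cast hf.pos.ne'), one_smul]
  · simpa [hf.mul, Ne.symm h2] using h1 c d d d

/-- elements whose coefficients lie in `Z` -/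
def Wz (h : MU e) (Z : Subalgebra ℂ B) : Subalgebra ℂ B where
  carrier := {w | ∀ a b, sl e a b w ∈ Z}
  mul_mem' {x y} hx hy a b := by
    rw [h.sl_mul]
    exact sum_mem fun d _ => mul_mem (hx _ _) (hy _ _)
  add_mem' {x y} hx hy a b := by
    rw [map_add]
    exact add_mem (hx _ _) (hy _ _)
  algebraMap_mem' r a b := by
    rw [Algebra.algebraMap_eq_smul_one, map_smul, h.sl_one]
    refine Z.smul_mem ?_ _
    split_ifs
    · exact one_mem _
    · exact zero_mem _

theorem MU.Sp_le (h : MU e) (Z : Subalgebra ℂ B) {w : B} (hw : w ∈ Sp e) : w ∈ Wz h Z := by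
  refine (show Sp e ≤ (Wz h Z).toSubmodule from Submodule.span_le.mpr ?_) hw
  rintro _ ⟨p, rfl⟩ a b
  rw [h.sl_e]
  split_ifs
  · exact one_mem _
  · exact zero_mem _

/-- the span as a subalgebra -/
noncomputable def MU.alg (h : MU e) : Subalgebra ℂ B :=
  (Sp e).toSubalgebra (h.sum ▸ sum_mem fun a _ => mem_Sp a a) fun x y hx hy => by
    induction hx, hy using Submodule.span_induction₂ with
    | mem_mem u v hu hv =>
      obtain ⟨⟨a, b⟩, rfl⟩ := hu
      obtain ⟨⟨c, d⟩, rfl⟩ := hv
      simp only [h.mul]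
      split_ifs
      · exact mem_Sp _ _
      · exact zero_mem _
    | zero_left => simp
    | zero_right => simp
    | add_left _ _ _ _ _ _ h1 h2 => rw [add_mul]; exact add_mem h1 h2
    | add_right _ _ _ _ _ _ h1 h2 => rw [mul_add]; exact add_mem h1 h2
    | smul_left _ _ _ _ _ h1 => rw [smul_mul_assoc]; exact Submodule.smul_mem _ _ h1
    | smul_right _ _ _ _ _ h1 => rw [mul_smul_comm]; exact Submodule.smul_mem _ _ h1

end Pool.Agent.H86.Uhf
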