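import Pool.Agent.H86.UhfA

set_option autoImplicit false
set_option linter.unusedSectionVars false

namespace Pool.Agent.H86.Uhf

open Finset Filter Topology

variable {B : Type} [CStarAlgebra B]

theorem MU.prod {N M : ℕ} {e : Fin N → Fin N → B} {f : Fin M → Fin M → B} (he : MU e)
    (hf : MU f) (h : ∀ a b c d, Commute (e a b) (f c d)) :
    ∃ E : Fin (N * M) → Fin (N * M) → B, MU E ∧ (∀ x y, ∃ a b c d, E x y = e a b * f c d) ∧
      (∀ a b, e a b ∈ Sp E) ∧ ∀ c d, f c d ∈ Sp E := by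
  let σ := (finProdFinEquiv (m := N) (n := M)).symm
  let E : Fin (N * M) → Fin (N * M) → B := fun x y => e (σ x).1 (σ y).1 * f (σ x).2 (σ y).2
  have hE : ∀ a b c d, e a b * f c d ∈ Sp E := fun a b c d => by
    simpa [E] using mem_Sp (e := E) (σ.symm (a, c)) (σ.symm (b, d))
  refine ⟨E, ⟨Nat.mul_pos he.pos hf.pos, fun x y z w => ?_, fun x y => ?_, ?_⟩,
    fun x y => ⟨_, _, _, _, rfl⟩, fun a b => ?_, fun c d => ?_⟩
  · simp only [E]
    rw [mul_assoc, ← mul_assoc (f _ _), ← (h _ _ _ _).eq, mul_assoc, ← mul_assoc, he.mul, hf.mul]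
    by_cases h1 : y = z
    · simp [h1]
    · rw [if_neg h1]
      split_ifs with h2 h3
      · exact (h1 (σ.injective (Prod.ext h2 h3))).elim
      · simp
      · simp
      · simp
  · simp only [E, star_mul, he.adj, hf.adj, (h _ _ _ _).eq]
  · rw [σ.sum_comp fun p => e p.1 p.1 * f p.2 p.2, Fintype.sum_prod_type]
    simp only [← mul_sum, hf.sum, mul_one, he.sum]
  · rw [← mul_one (e a b), ← hf.sum, mul_sum]
    exact sum_mem fun c _ => hE _ _ _ _
  · rw [← one_mul (f c d), ← he.sum, sum_mul]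
    exact sum_mem fun c _ => hE _ _ _ _

theorem mu_hom {N : ℕ} (hN : 0 < N) (φ : Matrix (Fin N) (Fin N) ℂ →⋆ₐ[ℂ] B) :
    MU fun a b => φ (Matrix.single a b 1) where
  pos := hN
  mul a b c d := by
    rw [← map_mul]
    split_ifs with h
    · simp [h]
    · simp [h]
  adj a b := by
    rw [← map_star, Matrix.star_eq_conjTranspose, Matrix.conjTranspose_single, star_one]
  sum := by
    rw [← map_sum, ← map_one φ]
    congr 1
    ext a b
    simp [Matrix.sum_apply, Matrix.single, Matrix.one_apply, ite_and]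

theorem hom_Sp {N : ℕ} (φ : Matrix (Fin N) (Fin N) ℂ →⋆ₐ[ℂ] B) (m : Matrix (Fin N) (Fin N) ℂ) :
    φ m ∈ Sp fun a b => φ (Matrix.single a b 1) := by
  rw [Matrix.matrix_eq_sum_single m]
  simp only [map_sum]
  refine sum_mem fun a _ => sum_mem fun b _ => ?_
  rw [show Matrix.single a b (m a b) = m a b • Matrix.single a b (1 : ℂ) by simp, map_smul]
  exact Submodule.smul_mem _ _ (mem_Sp (e := fun a b => φ (Matrix.single a b 1)) a b)

variable {J : Type} {n : J → ℕ} (ι : ∀ j, Matrix (Fin (n j)) (Fin (n j)) ℂ →⋆ₐ[ℂ] B)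

/-- the algebra generated by the factors in `T` -/
noncomputable def L (T : Set J) : Subalgebra ℂ B :=
  Algebra.adjoin ℂ (⋃ j ∈ T, Set.range (ι j))

/-- commuting factors -/
structure Sys : Prop where
  pos : ∀ j, 0 < n j
  comm : ∀ i j, i ≠ j → ∀ m m', Commute (ι i m) (ι j m')

/-- a system of matrix units spanning a finite stage -/
structure St (F : Finset J) {N : ℕ} (e : Fin N → Fin N → B) : Prop where
  mu : MU e
  mem : ∀ a b, e a b ∈ L ι F
  sp : ∀ y ∈ L ι F, y ∈ Sp e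

variable {ι}

theorem L_mono {T T' : Set J} (h : T ⊆ T') : L ι T ≤ L ι T' :=
  Algebra.adjoin_mono (Set.biUnion_subset_biUnion_left h)

theorem mem_L {T : Set J} {j : J} (h : j ∈ T) (m : Matrix (Fin (n j)) (Fin (n j)) ℂ) :
    ι j m ∈ L ι T :=
  Algebra.subset_adjoin (Set.mem_biUnion h ⟨m, rfl⟩)

theorem L_le {T : Set J} {Z : Subalgebra ℂ B} (h : ∀ j ∈ T, ∀ m, ι j m ∈ Z) : L ι T ≤ Z :=
  Algebra.adjoin_le (Set.iUnion₂_subset fun j hj => by rintro _ ⟨m, rfl⟩; exact h j hj m)

theorem Sys.L_comm (h : Sys ι) {T T' : Set J} (hd : Disjoint T T') {x y : B} (hx : x ∈ L ι T)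
    (hy : y ∈ L ι T') : Commute x y := by
  have h1 : L ι T ≤ Subalgebra.centralizer ℂ {y} := L_le fun i hi m => by
    have h2 : L ι T' ≤ Subalgebra.centralizer ℂ {ι i m} := L_le fun j hj m' => by
      rintro _ rfl
      exact h.comm i j (fun e => Set.disjoint_left.mp hd hi (e ▸ hj)) m m'
    rintro _ rfl
    exact (h2 hy _ rfl).symm
  exact (h1 hx _ rfl).symm

theorem L_fin {y : B} (hy : y ∈ L ι Set.univ) : ∃ F : Finset J, y ∈ L ι F := by
  classical
  induction hy using Algebra.adjoin_induction with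
  | mem x hx =>
    obtain ⟨j, -, m, rfl⟩ := Set.mem_iUnion₂.mp hx
    exact ⟨{j}, mem_L (by simp) m⟩
  | algebraMap r => exact ⟨∅, algebraMap_mem _ r⟩
  | add x y _ _ hx hy =>
    obtain ⟨F, hF⟩ := hx
    obtain ⟨G, hG⟩ := hy
    exact ⟨F ∪ G, add_mem (L_mono (by simp) hF) (L_mono (by simp) hG)⟩
  | mul x y _ _ hx hy =>
    obtain ⟨F, hF⟩ := hx
    obtain ⟨G, hG⟩ := hy
    exact ⟨F ∪ G, mul_mem (L_mono (by simp) hF) (L_mono (by simp) hG)⟩

theorem Sys.stage (h : Sys ι) (F : Finset J) :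
    ∃ e : Fin (∏ j ∈ F, n j) → Fin (∏ j ∈ F, n j) → B, St ι F e := by
  classical
  induction F using Finset.induction_on with
  | empty =>
    rw [prod_empty]
    have h1 : MU fun _ _ : Fin 1 => (1 : B) :=
      ⟨one_pos, fun a b c d => by simp [Subsingleton.elim b c], by simp, by simp⟩
    exact ⟨_, h1, fun _ _ => one_mem _, fun y hy => (L_le (Z := h1.alg) (by simp)) hy⟩
  | insert j F hj ih =>
    obtain ⟨e, h1, h2, h3⟩ := ih
    rw [prod_insert hj, mul_comm]
    have h0 : ∀ a b m, Commute (e a b) (ι j m) := fun a b m =>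
      h.L_comm (T := (F : Set J)) (T' := {j}) (Set.disjoint_singleton_right.mpr hj) (h2 a b)
        (mem_L (Set.mem_singleton j) m)
    obtain ⟨E, h4, h5, h6, h7⟩ := h1.prod (mu_hom (h.pos j) (ι j)) fun a b c d => h0 a b _
    refine ⟨E, h4, fun x y => ?_, fun y hy => (L_le (Z := h4.alg) fun i hi m => ?_) hy⟩
    · obtain ⟨a, b, c, d, h8⟩ := h5 x y
      rw [h8]
      exact mul_mem (L_mono (by simp) (h2 a b)) (mem_L (by simp) _)
    · rcases mem_insert.mp hi with rfl | hi
      · exact (show Sp _ ≤ Sp E from Submodule.span_le.mpr (by rintro _ ⟨p, rfl⟩; exact h7 _ _))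
          (hom_Sp _ m)
      · exact (show Sp _ ≤ Sp E from Submodule.span_le.mpr (by rintro _ ⟨p, rfl⟩; exact h6 _ _))
          (h3 _ (mem_L hi m))

theorem Sys.sl_mem (h : Sys ι) {F : Finset J} {N : ℕ} {e : Fin N → Fin N → B} (he : St ι F e)
    {T : Set J} (hd : Disjoint T F) {y : B} (hy : y ∈ L ι (T ∪ F)) (a b : Fin N) :
    sl e a b y ∈ L ι T := by
  refine (L_le (Z := Wz he.mu (L ι T)) fun j hj m => ?_) hy a b
  rcases hj with hj | hj
  · intro a b
    rw [← mul_one (ι j m), sl_left fun a b => h.L_comm hd (mem_L hj m) (he.mem a b)]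
    exact mul_mem (mem_L hj m) (one_mem (Wz he.mu (L ι T)) a b)
  · exact he.mu.Sp_le _ (he.sp _ (mem_L hj m))

theorem Sys.av_eq (h : Sys ι) {F F' : Finset J} {N N' : ℕ} {e : Fin N → Fin N → B}
    {e' : Fin N' → Fin N' → B} (he : St ι F e) (he' : St ι F' e') (hF : F ⊆ F')
    {T : Set J} (hd : Disjoint T F') {y : B} (hy : y ∈ L ι (T ∪ F)) : av e' y = av e y := by
  have hd' : Disjoint T F := hd.mono_right (by simpa using hF)
  rw [← he.mu.expand y]
  simp only [map_sum]
  refine sum_congr rfl fun a _ => sum_congr rfl fun b _ => ?_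
  have h1 := h.sl_mem he hd' hy a b
  rw [av_left fun c d => h.L_comm hd h1 (he'.mem c d),
    av_left fun c d => h.L_comm hd' h1 (he.mem c d),
    he'.mu.av_sub he.mu fun c d => he'.sp _ (L_mono (by simpa using hF) (he.mem c d))]

theorem Sys.lim (h : Sys ι) (hd : Dense (L ι Set.univ : Set B)) (T : Set J) :
    ∃ E : B → B, (∀ x, star (E x) = E (star x)) ∧ (∀ x y, E (x * y) = E (y * x) ∨ T.Nonempty) ∧
      (∀ x y, E (x + y) = E x + E y) ∧
      ∀ x (H : Finset J) {N : ℕ} (e : Fin N → Fin N → B), St ι H e → Disjoint T H →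
        ∀ y ∈ L ι (T ∪ H), ‖E x - av e y‖ ≤ ‖x - y‖ := by
  classical
  choose e he using h.stage
  let P : Finset J → B →ₗ[ℂ] B := fun H => av (e (H.filter (· ∉ T)))
  have hP : ∀ H : Finset J, Disjoint T (H.filter (· ∉ T) : Finset J) := fun H =>
    Set.disjoint_left.mpr fun j hj h1 => by simp [hj] at h1
  have h1 : ∀ x (H : Finset J) {N : ℕ} (f : Fin N → Fin N → B), St ι H f → Disjoint T H →
      ∀ y ∈ L ι (T ∪ H), ∀ H' ≥ H, ‖P H' x - av f y‖ ≤ ‖x - y‖ := fun x H N f hf h2 y hy H' h3 => by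
    rw [← h.av_eq hf (he _) (fun j hj => mem_filter.mpr ⟨h3 hj, Set.disjoint_right.mp h2 hj⟩)
      (hP H') hy, ← map_sub]
    exact (he _).mu.av_norm _
  have h2 : ∀ x, ∃ w, Tendsto (fun H => P H x) atTop (𝓝 w) := fun x => by
    refine cauchySeq_tendsto_of_complete (Metric.cauchySeq_iff.mpr fun ε hε => ?_)
    obtain ⟨y, hy, h3⟩ := hd.exists_dist_lt x (half_pos hε)
    obtain ⟨F, hF⟩ := L_fin hy
    have h4 := h1 x _ _ (he _) (hP F) y (L_mono (fun j hj => by
      by_cases h5 : j ∈ T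
      · exact Or.inl h5
      · exact Or.inr (by simpa using ⟨hj, h5⟩)) hF)
    refine ⟨F.filter (· ∉ T), fun H hH H' hH' => ?_⟩
    rw [dist_eq_norm] at h3 ⊢
    have := norm_sub_le_norm_sub_add_norm_sub (P H x) (P F y) (P H' x)
    rw [norm_sub_rev (P F y)] at this
    linarith [h4 H hH, h4 H' hH']
  choose E hE using h2
  have h5 : ∀ x (H : Finset J) {N : ℕ} (e : Fin N → Fin N → B), St ι H e → Disjoint T H →
      ∀ y ∈ L ι (T ∪ H), ‖E x - av e y‖ ≤ ‖x - y‖ := fun x H N f hf h2 y hy =>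
    le_of_tendsto ((hE x).sub_const _).norm (eventually_atTop.mpr ⟨H, h1 x H f hf h2 y hy⟩)
  refine ⟨E, fun x => tendsto_nhds_unique ?_ (hE _), fun x y => ?_, fun x y =>
    tendsto_nhds_unique (hE _) (by simpa only [map_add] using (hE x).add (hE y)), h5⟩
  · simpa only [P, (he _).mu.av_star] using (hE x).star
  · refine or_iff_not_imp_right.mpr fun hT => ?_
    have h6 : ∀ x y, ‖E x - E y‖ ≤ ‖x - y‖ := fun x y =>
      le_of_tendsto' ((hE x).sub (hE y)).norm fun H => by
        rw [← map_sub]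
        exact (he _).mu.av_norm _
    have hc : Continuous E := (LipschitzWith.of_dist_le_mul (K := 1) fun x y => by
      simpa [dist_eq_norm] using h6 x y).continuous
    refine (hd.prod hd).induction (P := fun p : B × B => E (p.1 * p.2) = E (p.2 * p.1)) ?_
      (isClosed_eq (by fun_prop) (by fun_prop)) (x, y)
    rintro ⟨x, y⟩ ⟨hx, hy⟩
    obtain ⟨F, hF⟩ := L_fin hx
    obtain ⟨G, hG⟩ := L_fin hy
    have a1 : x ∈ L ι (F ∪ G : Finset J) := L_mono (by simp) hF
    have a2 : y ∈ L ι (F ∪ G : Finset J) := L_mono (by simp) hG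
    have a3 : ∀ z ∈ L ι (F ∪ G : Finset J), E z = av (e (F ∪ G)) z := fun z hz => by
      simpa [sub_eq_zero] using h5 z _ _ (he (F ∪ G))
        (by simp [Set.not_nonempty_iff_eq_empty.mp hT]) z (L_mono Set.subset_union_right hz)
    rw [a3 _ (mul_mem a1 a2), a3 _ (mul_mem a2 a1)]
    exact (he _).mu.av_tr ((he _).sp _ a1) ((he _).sp _ a2)

/-- the homomorphism defined by a system of matrix units -/
noncomputable def MU.hom {N : ℕ} {e : Fin N → Fin N → B} (h : MU e) :
    Matrix (Fin N) (Fin N) ℂ →⋆ₐ[ℂ] B where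
  toFun m := ∑ a, ∑ b, m a b • e a b
  map_one' := by simp [Matrix.one_apply, h.sum]
  map_mul' m m' := by
    simp only [sum_mul]
    simp only [Matrix.mul_apply, mul_sum, smul_mul_smul_comm, h.mul, smul_ite, smul_zero, sum_smul]
    refine sum_congr rfl fun a _ => ?_
    rw [sum_comm]
    refine sum_congr rfl fun b _ => ?_
    rw [sum_comm]
    simp
  map_zero' := by simp
  map_add' m m' := by simp [add_smul, sum_add_distrib]
  commutes' r := by
    simp [Matrix.algebraMap_matrix_apply, Algebra.algebraMap_eq_smul_one, ← h.sum, smul_sum]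
  map_star' m := by
    simp only [star_sum, star_smul, h.adj, Matrix.star_apply]
    exact sum_comm

theorem MU.hom_apply {N : ℕ} {e : Fin N → Fin N → B} (h : MU e) (m : Matrix (Fin N) (Fin N) ℂ) :
    h.hom m = ∑ a, ∑ b, m a b • e a b := rfl

theorem MU.hom_surj {N : ℕ} {e : Fin N → Fin N → B} (h : MU e) {y : B} (hy : y ∈ Sp e) :
    ∃ m, h.hom m = y := by
  refine (show Sp e ≤ LinearMap.range (h.hom.toAlgHom.toLinearMap) from
    Submodule.span_le.mpr ?_) hy
  rintro _ ⟨p, rfl⟩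
  exact ⟨Matrix.single p.1 p.2 1, by simp [h.hom_apply, Matrix.single, ite_and]⟩

theorem MU.map {C : Type} [CStarAlgebra C] {N : ℕ} {e : Fin N → Fin N → B} (h : MU e)
    (φ : B →⋆ₐ[ℂ] C) : MU fun a b => φ (e a b) where
  pos := h.pos
  mul a b c d := by
    rw [← map_mul, h.mul]
    split_ifs <;> simp
  adj a b := by rw [← map_star, h.adj]
  sum := by rw [← map_sum, h.sum, map_one]

end Pool.Agent.H86.Uhf
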