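import Pool.Agent.H86.UhfB

set_option autoImplicit false
set_option linter.unusedSectionVars false

namespace Pool.Agent.H86.Uhf

open Finset

variable {A C : Type} [CStarAlgebra A] [CStarAlgebra C]

open scoped Matrix.Norms.L2Operator in
theorem hom_norm [Nontrivial A] [Nontrivial C] {N : ℕ} (hN : 0 < N)
    (φ : Matrix (Fin N) (Fin N) ℂ →⋆ₐ[ℂ] C) (ψ : Matrix (Fin N) (Fin N) ℂ →⋆ₐ[ℂ] A)
    (m : Matrix (Fin N) (Fin N) ℂ) : ‖φ m‖ = ‖ψ m‖ := by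
  haveI : Nonempty (Fin N) := ⟨⟨0, hN⟩⟩
  rw [NonUnitalStarAlgHom.norm_map φ (RingHom.injective (φ : Matrix (Fin N) (Fin N) ℂ →+* C)),
    NonUnitalStarAlgHom.norm_map ψ (RingHom.injective (ψ : Matrix (Fin N) (Fin N) ℂ →+* A))]

theorem univ_prop [Nontrivial A] [Nontrivial C] {K : Type} {n : K → ℕ}
    {ι : ∀ k, Matrix (Fin (n k)) (Fin (n k)) ℂ →⋆ₐ[ℂ] C}
    {ψ : ∀ k, Matrix (Fin (n k)) (Fin (n k)) ℂ →⋆ₐ[ℂ] A} (h : Sys ι) (h' : Sys ψ)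
    (hd : Dense (L ι Set.univ : Set C)) : ∃ Φ : C →⋆ₐ[ℂ] A, Function.Injective Φ := by
  let ρ : ∀ k, Matrix (Fin (n k)) (Fin (n k)) ℂ →⋆ₐ[ℂ] C × A := fun k => (ι k).prod (ψ k)
  have hρ : Sys ρ := ⟨h.pos, fun i j hij m m' =>
    Prod.ext (h.comm i j hij m m') (h'.comm i j hij m m')⟩
  have h1 : ∀ y ∈ L ρ Set.univ, star y ∈ L ρ Set.univ ∧ ‖y.1‖ = ‖y.2‖ := fun y hy => by
    obtain ⟨F, hF⟩ := L_fin hy
    obtain ⟨e, he⟩ := hρ.stage F
    obtain ⟨m, rfl⟩ := he.mu.hom_surj (he.sp _ hF)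
    refine ⟨?_, hom_norm he.mu.pos ((StarAlgHom.fst ℂ C A).comp he.mu.hom)
      ((StarAlgHom.snd ℂ C A).comp he.mu.hom) m⟩
    rw [← map_star, he.mu.hom_apply]
    exact sum_mem fun a _ => sum_mem fun b _ =>
      Subalgebra.smul_mem _ (L_mono (Set.subset_univ _) (he.mem a b)) _
  let G0 : StarSubalgebra ℂ (C × A) := { L ρ Set.univ with star_mem' := fun hy => (h1 _ hy).1 }
  let G := G0.topologicalClosure
  haveI : IsClosed (G : Set (C × A)) := G0.isClosed_topologicalClosure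
  have h2 : ∀ y : G, ‖y.1.1‖ = ‖y.1.2‖ := fun y =>
    closure_minimal (t := {y : C × A | ‖y.1‖ = ‖y.2‖}) (fun y hy => (h1 y hy).2)
      (isClosed_eq (by fun_prop) (by fun_prop)) y.2
  let p : G →⋆ₐ[ℂ] C := (StarAlgHom.fst ℂ C A).comp G.subtype
  have h3 : Isometry p := AddMonoidHomClass.isometry_of_norm p fun y => by
    change ‖y.1.1‖ = max ‖y.1.1‖ ‖y.1.2‖
    rw [← h2, max_self]
  have h4 : Function.Surjective p := fun c => by
    refine closure_minimal (t := Set.range p) ?_ h3.isClosedEmbedding.isClosed_range (hd c)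
    refine L_le (Z := p.toAlgHom.range) fun k _ m => ⟨⟨ρ k m, ?_⟩, rfl⟩
    exact G0.le_topologicalClosure (mem_L (ι := ρ) (Set.mem_univ k) m)
  let q := StarAlgEquiv.ofBijective p ⟨h3.injective, h4⟩
  refine ⟨((StarAlgHom.snd ℂ C A).comp G.subtype).comp (q.symm : C →⋆ₐ[ℂ] G),
    (injective_iff_map_eq_zero _).mpr fun c hc => ?_⟩
  have h5 : (q.symm c).1.2 = 0 := hc
  have h6 := h2 (q.symm c)
  rw [h5, norm_zero, norm_eq_zero] at h6
  exact (q.apply_symm_apply c).symm.trans h6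

theorem half {N : ℕ} (hN : 0 < N) (h2 : Even N) (φ : Matrix (Fin N) (Fin N) ℂ →⋆ₐ[ℂ] A) :
    ∃ θ : Matrix (Fin 2) (Fin 2) ℂ →⋆ₐ[ℂ] A, ∀ m, ∃ m', θ m = φ m' := by
  obtain ⟨r, rfl⟩ := even_iff_exists_two_mul.mp h2
  have he := mu_hom hN φ
  let σ := finProdFinEquiv (m := 2) (n := r)
  have hf : MU fun a b : Fin 2 => ∑ c : Fin r, φ (Matrix.single (σ (a, c)) (σ (b, c)) 1) :=
    ⟨two_pos, fun a b c d => ?_, fun a b => ?_, ?_⟩
  · refine ⟨hf.hom, fun m => ⟨∑ a, ∑ b, m a b • ∑ c, Matrix.single (σ (a, c)) (σ (b, c)) 1, ?_⟩⟩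
    simp only [hf.hom_apply, map_sum, map_smul]
  · simp only [sum_mul, mul_sum, he.mul, σ.injective.eq_iff, Prod.mk.injEq]
    split_ifs with h
    · simp [h]
    · simp [h]
  · simp only [star_sum, he.adj]
  · rw [← he.sum, ← σ.sum_comp, Fintype.sum_prod_type]

theorem embed [Nontrivial A] [Nontrivial C] {I K : Type} {n : I → ℕ}
    {ι : ∀ k : K, Matrix (Fin 2) (Fin 2) ℂ →⋆ₐ[ℂ] C}
    {ψ : ∀ i, Matrix (Fin (n i)) (Fin (n i)) ℂ →⋆ₐ[ℂ] A} (h : Sys (n := fun _ => 2) ι)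
    (h' : Sys ψ) (hd : Dense (L (n := fun _ => 2) ι Set.univ : Set C)) (σ : K → I)
    (hσ : Function.Injective σ) (he : ∀ k, Even (n (σ k))) :
    ∃ Φ : C →⋆ₐ[ℂ] A, Function.Injective Φ := by
  choose θ hθ using fun k => half (h'.pos (σ k)) (he k) (ψ (σ k))
  refine univ_prop (ψ := θ) h ⟨h.pos, fun i j hij m m' => ?_⟩ hd
  obtain ⟨u, hu⟩ := hθ i m
  obtain ⟨v, hv⟩ := hθ j m'
  rw [hu, hv]
  exact h'.comm _ _ (hσ.ne hij) _ _

end Pool.Agent.H86.Uhf
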