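import Pool.Agent.H86.UhfB

set_option autoImplicit false
set_option linter.unusedSectionVars false

namespace Pool.Agent.H86.Uhf

open Finset

variable {B : Type} [CStarAlgebra B]

theorem det_par {N : ℕ} {X Z : Matrix (Fin N) (Fin N) ℂ} (hX : star X = X) (hZ : star Z = Z)
    (h : ∀ t : ℝ, 0 ≤ t → t ≤ 1 → IsUnit (((1 - t : ℝ) : ℂ) • (Z * X * Z) - (t : ℂ) • X)) :
    Even N := by
  by_contra hN
  have him : ∀ M : Matrix (Fin N) (Fin N) ℂ, star M = M → (M.det.re : ℂ) = M.det := fun M hM =>
    Complex.conj_eq_iff_re.mp (by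
      rw [← RCLike.star_def, ← Matrix.det_conjTranspose, ← Matrix.star_eq_conjTranspose, hM])
  let P : ℝ → Matrix (Fin N) (Fin N) ℂ := fun t => ((1 - t : ℝ) : ℂ) • (Z * X * Z) - (t : ℂ) • X
  let f : ℝ → ℝ := fun t => X.det.re * (P t).det.re
  have hf : Continuous f := by
    simp only [f, P]
    fun_prop
  have h0 : 0 ≤ f 0 := by
    simp only [f, P, sub_zero, Complex.ofReal_one, one_smul, Complex.ofReal_zero, zero_smul,
      Matrix.det_mul]
    rw [← him X hX, ← him Z hZ]
    simp only [← Complex.ofReal_mul, Complex.ofReal_re]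
    nlinarith [mul_self_nonneg (X.det.re * Z.det.re)]
  have h1 : f 1 ≤ 0 := by
    simp only [f, P, sub_self, Complex.ofReal_one, one_smul, Complex.ofReal_zero, zero_smul,
      zero_sub, Matrix.det_neg, Fintype.card_fin, (Nat.not_even_iff_odd.mp hN).neg_one_pow,
      neg_mul, one_mul, Complex.neg_re]
    nlinarith [mul_self_nonneg X.det.re]
  obtain ⟨t, ht, h2⟩ := intermediate_value_Icc' zero_le_one hf.continuousOn ⟨h1, h0⟩
  have h3 : ∀ t, 0 ≤ t → t ≤ 1 → (P t).det.re ≠ 0 := fun t h4 h5 h6 => by
    have h7 := him (P t) (by simp [P, hX, hZ, mul_assoc])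
    rw [h6] at h7
    exact ((Matrix.isUnit_iff_isUnit_det _).mp (h t h4 h5)).ne_zero h7.symm
  refine mul_ne_zero (fun h4 => h3 1 zero_le_one le_rfl ?_) (h3 t ht.1 ht.2) h2
  simp [P, Matrix.det_neg, (Nat.not_even_iff_odd.mp hN).neg_one_pow, h4]

theorem parity [Nontrivial B] {N : ℕ} {e : Fin N → Fin N → B} (he : MU e) (w : Bool → B)
    (hw : ∀ s, star (w s) = w s)
    (hc : ∀ s t a b c d, Commute (sl e a b (w s)) (sl e c d (w t))) {X : B} (hX : X * X = 1)
    (hn : ‖X‖ ≤ 1) (h1 : ‖w true * w false * w true + X‖ < 1) (h2 : ‖w false - X‖ < 1) :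
    Even N := by
  let U : Set B := Set.range fun p : Bool × Fin N × Fin N => sl e p.2.1 p.2.2 (w p.1)
  have hU : ∀ x ∈ U, star x ∈ U := by
    rintro _ ⟨p, rfl⟩
    exact ⟨(p.1, p.2.2, p.2.1), by simp only [he.sl_star, hw]⟩
  let Z : StarSubalgebra ℂ B :=
    { Subalgebra.centralizer ℂ U.centralizer with
      star_mem' := fun hx => Set.star_mem_centralizer' (fun a ha => Set.star_mem_centralizer' hU ha)
        hx }
  haveI hZ : IsClosed (Z : Set B) := Set.isClosed_centralizer _
  letI : CommCStarAlgebra Z :=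
    { (inferInstance : CStarAlgebra Z) with
      mul_comm := fun x y => Subtype.ext (Set.centralizer_centralizer_comm_of_comm (S := U)
        (by rintro _ ⟨p, rfl⟩ _ ⟨q, rfl⟩; exact hc _ _ _ _ _ _) _ x.2 _ y.2) }
  obtain ⟨χ⟩ : Nonempty (WeakDual.characterSpace ℂ Z) := inferInstance
  let W : StarSubalgebra ℂ B :=
    { Wz he Z.toSubalgebra with
      star_mem' := fun {x} hx a b => by
        rw [← he.sl_star]
        exact star_mem (s := Z) (hx b a) }
  haveI hW : IsClosed (W : Set B) := by
    change IsClosed {x | ∀ a b, sl e a b x ∈ Z}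
    simp only [Set.ofPred_forall]
    exact isClosed_iInter fun a => isClosed_iInter fun b => hZ.preimage (sl_cont a b)
  let z : W → Fin N → Fin N → Z := fun x a b => ⟨sl e a b x, x.2 a b⟩
  let π : W →⋆ₐ[ℂ] Matrix (Fin N) (Fin N) ℂ :=
    { toFun x := Matrix.of fun a b => χ (z x a b)
      map_one' := by
        ext a b
        rw [Matrix.of_apply, show z 1 a b = if a = b then 1 else 0 from Subtype.ext (by
          split_ifs with h <;> simp [z, he.sl_one, h]), Matrix.one_apply]
        split_ifs <;> simp
      map_mul' x y := by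
        ext a b
        simp only [Matrix.of_apply, Matrix.mul_apply, ← map_mul, ← map_sum]
        exact congrArg χ (Subtype.ext (by simp [z, he.sl_mul]))
      map_zero' := by
        ext a b
        rw [Matrix.of_apply, show z 0 a b = 0 from Subtype.ext (by simp [z])]
        simp
      map_add' x y := by
        ext a b
        simp only [Matrix.of_apply, Matrix.add_apply, ← map_add]
        exact congrArg χ (Subtype.ext (by simp [z]))
      commutes' r := by
        ext a b
        rw [Matrix.of_apply, show z (algebraMap ℂ W r) a b = if a = b then r • 1 else 0 from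
          Subtype.ext (by
            split_ifs with h <;> simp [z, he.sl_one, h, Algebra.algebraMap_eq_smul_one]),
          Matrix.algebraMap_matrix_apply]
        split_ifs <;> simp
      map_star' x := by
        ext a b
        simp only [Matrix.of_apply, Matrix.star_apply, ← map_star]
        exact congrArg χ (Subtype.ext (by simp [z, he.sl_star])) }
  let v : Bool → W := fun s => ⟨w s, fun a b => Set.subset_centralizer_centralizer ⟨(s, a, b), rfl⟩⟩
  have hv : ∀ s, star (π (v s)) = π (v s) := fun s => by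
    rw [← map_star]
    exact congrArg π (Subtype.ext (hw s))
  refine det_par (hv false) (hv true) fun t h3 h4 => ?_
  simp only [← map_mul, ← map_smul, ← map_sub]
  refine IsUnit.map π (W.coe_isUnit.mp ?_)
  change IsUnit (((1 - t : ℝ) : ℂ) • (w true * w false * w true) - (t : ℂ) • w false)
  set P := ((1 - t : ℝ) : ℂ) • (w true * w false * w true) - (t : ℂ) • w false with hP
  have h5 : P + X = ((1 - t : ℝ) : ℂ) • (w true * w false * w true + X) -
      (t : ℂ) • (w false - X) := by
    simp only [hP, Complex.ofReal_sub, Complex.ofReal_one]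
    module
  have h6 : ‖X * (P + X)‖ < 1 := by
    have a1 := norm_mul_le X (P + X)
    have a2 := norm_sub_le (((1 - t : ℝ) : ℂ) • (w true * w false * w true + X))
      ((t : ℂ) • (w false - X))
    rw [← h5, norm_smul, norm_smul, Complex.norm_real, Complex.norm_real,
      Real.norm_of_nonneg h3, Real.norm_of_nonneg (sub_nonneg.mpr h4)] at a2
    have a3 : ‖P + X‖ < 1 := by
      rcases h3.eq_or_lt with h | h
      · rw [← h] at a2
        linarith
      · nlinarith
    nlinarith [norm_nonneg (P + X), norm_nonneg X]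
  have h7 : P = -X * (1 - X * (P + X)) := by
    rw [mul_add, hX, sub_add_cancel_right, neg_mul_neg, ← mul_assoc, hX, one_mul]
  rw [h7]
  exact (IsUnit.neg ⟨⟨X, X, hX, hX⟩, rfl⟩).mul (isUnit_one_sub_of_norm_lt_one h6)

end Pool.Agent.H86.Uhf
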