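import Pool.Agent.H86.UhfD
import Pool.Agent.H73.Dense

set_option autoImplicit false
set_option linter.unusedSectionVars false

namespace Pool.Agent.H86.Uhf

open Finset Filter Topology

variable {B : Type} [CStarAlgebra B]

/-- index set of coefficients -/
abbrev Ix (N M : ℕ) := Bool × Fin N × Fin N × Fin M × Fin M

/-- the element with given coefficients -/
def Y {N M : ℕ} (d : Ix N M → B) (s : Bool) (e : Fin N → Fin N → B) (f : Fin M → Fin M → B) : B :=
  ∑ c, ∑ c', ∑ a, ∑ b, d (s, a, b, c, c') * e a b * f c c'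

/-- the reduced coefficient -/
noncomputable def u {N M : ℕ} (d : Ix N M → B) (s : Bool) (a b : Fin N) : B :=
  (M : ℂ)⁻¹ • ∑ c, d (s, a, b, c, c)

theorem sl_av_Y {N M : ℕ} {e : Fin N → Fin N → B} {f : Fin M → Fin M → B} (he : MU e) (hf : MU f)
    (h : ∀ a b c d, Commute (e a b) (f c d)) {d : Ix N M → B} (h1 : ∀ p a b, Commute (d p) (e a b))
    (h2 : ∀ p a b, Commute (d p) (f a b)) (s : Bool) (a b : Fin N) :
    sl e a b (av f (Y d s e f)) = u d s a b := by
  have h3 : ∀ p a b x, av f (d p * e a b * x) = d p * e a b * av f x := fun p a b x =>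
    av_left (fun c c' => (h2 p c c').mul_left (h a b c c')) x
  simp only [Y, map_sum, h3, hf.av_e, mul_ite, mul_zero, mul_smul_comm, mul_one,
    map_smul, sl_left (h1 _), he.sl_e, sum_ite_eq, mem_univ,
    if_true, smul_ite, smul_zero, u, smul_sum, sum_ite_irrel, sum_const_zero, ite_and, sum_ite_eq']

variable {J : Type} {n : J → ℕ} (ι : ∀ j, Matrix (Fin (n j)) (Fin (n j)) ℂ →⋆ₐ[ℂ] B)

/-- a realisation of a finite type -/
structure Re (U : Bool → B) (G H : Set J) (k : ℕ) {N M : ℕ} (d : Ix N M → B)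
    (e : Fin N → Fin N → B) (f : Fin M → Fin M → B) : Prop where
  mu1 : MU e
  mu2 : MU f
  comm : ∀ a b c d, Commute (e a b) (f c d)
  m1 : ∀ a b, e a b ∈ L ι H
  m2 : ∀ a b, f a b ∈ L ι H
  fin : H.Finite
  dis : Disjoint G H
  md : ∀ p, d p ∈ L ι G
  ap : ∀ s, ‖U s - Y d s e f‖ < 1 / ((k : ℝ) + 1)

variable {ι}

theorem Re.memY {U : Bool → B} {G H : Set J} {k N M : ℕ} {d : Ix N M → B}
    {e : Fin N → Fin N → B} {f : Fin M → Fin M → B} (r : Re ι U G H k d e f) (s : Bool) :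
    Y d s e f ∈ L ι (G ∪ H) :=
  sum_mem fun _ _ => sum_mem fun _ _ => sum_mem fun _ _ => sum_mem fun _ _ =>
    mul_mem (mul_mem (L_mono Set.subset_union_left (r.md _))
      (L_mono Set.subset_union_right (r.m1 _ _))) (L_mono Set.subset_union_right (r.m2 _ _))

theorem Re.memu {U : Bool → B} {G H : Set J} {k N M : ℕ} {d : Ix N M → B}
    {e : Fin N → Fin N → B} {f : Fin M → Fin M → B} (r : Re ι U G H k d e f) (s : Bool)
    (a b : Fin N) : u d s a b ∈ L ι G :=
  Subalgebra.smul_mem _ (sum_mem fun _ _ => r.md _) _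

theorem Sys.uY (h : Sys ι) {U : Bool → B} {G H : Set J} {k N M : ℕ} {d : Ix N M → B}
    {e : Fin N → Fin N → B} {f : Fin M → Fin M → B} (r : Re ι U G H k d e f) (s : Bool)
    (a b : Fin N) : sl e a b (av f (Y d s e f)) = u d s a b :=
  sl_av_Y r.mu1 r.mu2 r.comm (fun _ _ _ => h.L_comm r.dis (r.md _) (r.m1 _ _))
    (fun _ _ _ => h.L_comm r.dis (r.md _) (r.m2 _ _)) s a b

theorem comm_le {x y p q : B} {δ : ℝ} (h : Commute x y) (hx : ‖x‖ ≤ 1) (hy : ‖y‖ ≤ 1)
    (h1 : ‖x - p‖ < δ) (h2 : ‖y - q‖ < δ) (h3 : δ ≤ 1) : ‖p * q - q * p‖ ≤ 6 * δ := by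
  have a1 : p * q - q * p = (x - p) * (y - q) - (y - q) * (x - p) - (x * (y - q) - (y - q) * x) -
      ((x - p) * y - y * (x - p)) := by
    simp only [mul_sub, sub_mul, h.eq]
    abel
  have a2 : ∀ v w : B, ‖v * w - w * v‖ ≤ 2 * (‖v‖ * ‖w‖) := fun v w => by
    linarith [norm_sub_le (v * w) (w * v), norm_mul_le v w, norm_mul_le w v, mul_comm ‖v‖ ‖w‖]
  rw [a1]
  refine norm_sub_le_of_le (norm_sub_le_of_le (a2 _ _) (a2 _ _)) (a2 _ _) |>.trans ?_
  nlinarith [norm_nonneg (x - p), norm_nonneg (y - q), norm_nonneg x, norm_nonneg y]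

theorem Sys.u_comm (h : Sys ι) {U U' : Bool → B} {G H H' : Set J} {k N M : ℕ} {d : Ix N M → B}
    {e e' : Fin N → Fin N → B} {f f' : Fin M → Fin M → B} (r : Re ι U G H k d e f)
    (r' : Re ι U' G H' k d e' f') (hd : Disjoint H H') (hc : ∀ s t, Commute (U s) (U' t))
    (hU : ∀ s, ‖U s‖ ≤ 1) (hU' : ∀ s, ‖U' s‖ ≤ 1) (s t : Bool) (a b a' b' : Fin N) :
    ‖u d s a b * u d t a' b' - u d t a' b' * u d s a b‖ ≤ N * (N * (6 * (1 / ((k : ℝ) + 1)))) := by
  have h1 := comm_le (hc s t) (hU s) (hU' t) (r.ap s) (r'.ap t)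
    (div_le_one_of_le₀ (by linarith [Nat.cast_nonneg (α := ℝ) k]) (by positivity))
  have h2 := Set.disjoint_union_left.mpr ⟨r'.dis, hd⟩
  have c1 := fun a b => h.L_comm h2 (r.memY s) (r'.m1 a b)
  have c2 := fun a b => h.L_comm h2 (r.memY s) (r'.m2 a b)
  have c3 := fun a b => h.L_comm r.dis (r.memu t a' b') (r.m1 a b)
  have c4 := fun a b => h.L_comm r.dis (r.memu t a' b') (r.m2 a b)
  have h3 : u d s a b * u d t a' b' - u d t a' b' * u d s a b = sl e a b (av f (sl e' a' b' (av f'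
      (Y d s e f * Y d t e' f' - Y d t e' f' * Y d s e f)))) := by
    simp only [map_sub]
    rw [av_left c2, av_right c2, sl_left c1, sl_right c1, h.uY r', av_left c4, av_right c4,
      sl_left c3, sl_right c3, h.uY r]
  rw [h3]
  refine (r.mu1.sl_norm _ _ _).trans (mul_le_mul_of_nonneg_left ((r.mu2.av_norm _).trans
    ((r'.mu1.sl_norm _ _ _).trans (mul_le_mul_of_nonneg_left ((r'.mu2.av_norm _).trans h1)
    (by positivity)))) (by positivity))

theorem Sys.pick (h : Sys ι) {K : Type} (U : K → Bool → B) (G : Set J) :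
    ∃ c : Set (K × Set J), c.Countable ∧ (∀ p ∈ c, p.2.Finite) ∧ (G.Finite → ∀ (α : K) (H : Set J)
      (k N M : ℕ) (d : Ix N M → B) e f, Re ι (U α) G H k d e f → ∃ d' : Ix N M → B,
      Re ι (U α) G H k d' e f ∧ ∃ p ∈ c, ∃ e' f', Re ι (U p.1) G p.2 k d' e' f') := by
  by_cases hG : G.Finite
  swap
  · exact ⟨∅, Set.countable_empty, by simp, fun h => absurd h hG⟩
  obtain ⟨F, rfl⟩ := hG.exists_finset_coe
  obtain ⟨g, hg⟩ := h.stage F
  have h1 : TopologicalSpace.IsSeparable (L ι F : Set B) :=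
    (Set.finite_range _).isSeparable.span.mono hg.sp
  choose D D1 D2 D3 using fun N M : ℕ => (TopologicalSpace.isSeparable_pi
    fun _ : Ix N M => h1).exists_countable_dense_subset
  have h2 : ∀ (k N M : ℕ) (d : Ix N M → B), ∃ c : Set (K × Set J), c.Subsingleton ∧
      (∀ p ∈ c, p.2.Finite) ∧ ∀ α H e f, Re ι (U α) F H k d e f →
        ∃ p ∈ c, ∃ e' f', Re ι (U p.1) F p.2 k d e' f' := fun k N M d => by
    by_cases h3 : ∃ α H e f, Re ι (U α) F H k d e f
    · obtain ⟨α, H, e, f, r⟩ := h3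
      exact ⟨{(α, H)}, Set.subsingleton_singleton, by rintro _ rfl; exact r.fin,
        fun _ _ _ _ _ => ⟨_, rfl, e, f, r⟩⟩
    · exact ⟨∅, Set.subsingleton_empty, by simp, fun α H e f r => absurd ⟨α, H, e, f, r⟩ h3⟩
  choose c c1 c2 c3 using h2
  refine ⟨⋃ k, ⋃ N, ⋃ M, ⋃ d ∈ D N M, c k N M d, Set.countable_iUnion fun k =>
    Set.countable_iUnion fun N => Set.countable_iUnion fun M => (D2 N M).biUnion fun d _ =>
    (c1 k N M d).finite.countable, fun p hp => ?_, fun _ α H k N M d e f r => ?_⟩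
  · simp only [Set.mem_iUnion] at hp
    obtain ⟨k, N, M, d, -, hp⟩ := hp
    exact c2 k N M d p hp
  · have h3 : IsOpen {d : Ix N M → B | ∀ s, ‖U α s - Y d s e f‖ < 1 / ((k : ℝ) + 1)} := by
      simp only [Set.ofPred_forall]
      refine isOpen_iInter_of_finite fun s => isOpen_lt ?_ continuous_const
      simp only [Y]
      fun_prop
    obtain ⟨d', h4, h5⟩ := mem_closure_iff.mp (D3 N M r.md) _ h3 r.ap
    have r' : Re ι (U α) F H k d' e f := { r with md := D1 N M h5, ap := h4 }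
    obtain ⟨p, hp, h6⟩ := c3 k N M d' α H e f r'
    exact ⟨d', r', p, by simp only [Set.mem_iUnion]; exact ⟨k, N, M, d', h5, hp⟩, h6⟩

theorem Sys.real (h : Sys ι) (hd : Dense (L ι Set.univ : Set B)) (U : Bool → B) (S : Set J)
    {F : Finset J} (hF : Disjoint S F) {N : ℕ} {e : Fin N → Fin N → B} (he : St ι F e) (k : ℕ) :
    ∃ (G : Set J) (H : Finset J) (M : ℕ) (d : Ix N M → B) (f : Fin M → Fin M → B), G.Finite ∧
      G ⊆ S ∧ Disjoint (S ∪ F) H ∧ St ι H f ∧ Re ι U G (F ∪ H) k d e f := by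
  classical
  choose y y1 y2 using fun s => hd.exists_dist_lt (U s) (Nat.one_div_pos_of_nat (α := ℝ) (n := k))
  choose Q hQ using fun s => L_fin (y1 s)
  let G : Set J := (Q true ∪ Q false : Set J) ∩ S
  let H : Finset J := (Q true ∪ Q false).filter fun j => j ∉ S ∧ j ∉ F
  obtain ⟨f, hf⟩ := h.stage H
  have h1 : Disjoint (S ∪ F) (H : Set J) := Set.disjoint_right.mpr fun j hj => by
    simpa [not_or] using (mem_filter.mp hj).2
  have h2 : Disjoint G F := hF.mono_left Set.inter_subset_right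
  have h3 : Disjoint (G ∪ F) (H : Set J) :=
    h1.mono_left (Set.union_subset_union_left _ Set.inter_subset_right)
  have h4 : ∀ s, y s ∈ L ι (G ∪ F ∪ H) := fun s => L_mono (fun j hj => by
    have : j ∈ Q true ∨ j ∈ Q false := by cases s <;> simp_all
    by_cases a1 : j ∈ S <;> by_cases a2 : j ∈ F <;> simp [G, H, a1, a2, this]) (hQ s)
  refine ⟨G, H, _, fun p => sl e p.2.1 p.2.2.1 (sl f p.2.2.2.1 p.2.2.2.2 (y p.1)), f,
    ((Q true).finite_toSet.union (Q false).finite_toSet).inter_of_left _, Set.inter_subset_right,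
    h1, hf, he.mu, hf.mu, fun a b c d => h.L_comm (h1.mono_left Set.subset_union_right)
      (he.mem a b) (hf.mem c d), fun a b => L_mono Set.subset_union_left (he.mem a b),
    fun a b => L_mono Set.subset_union_right (hf.mem a b), F.finite_toSet.union H.finite_toSet,
    Set.disjoint_union_right.mpr ⟨h2, h3.mono_left Set.subset_union_left⟩,
    fun p => h.sl_mem he h2 (h.sl_mem hf h3 (h4 _) _ _) _ _, fun s => ?_⟩
  simp only [Y, ← sum_mul, he.mu.expand, hf.mu.expand, ← dist_eq_norm]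
  exact y2 s

theorem Sys.near (h : Sys ι) {T : Set J} {E : B → B} (hE : ∀ x (H : Finset J) {N : ℕ}
    (e : Fin N → Fin N → B), St ι H e → Disjoint T H → ∀ y ∈ L ι (T ∪ H),
      ‖E x - av e y‖ ≤ ‖x - y‖) (x : B) {y : B} (hy : y ∈ L ι T) : ‖E x - y‖ ≤ ‖x - y‖ := by
  obtain ⟨e, he⟩ := h.stage ∅
  have h0 : Disjoint T (∅ : Finset J) := by simp
  have h1 := hE x ∅ e he h0 y (L_mono Set.subset_union_left hy)
  have h2 := av_left (fun a b => h.L_comm h0 hy (he.mem a b)) 1
  rw [he.mu.av_one, mul_one] at h2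
  rwa [h2] at h1

open Cardinal in
theorem Sys.big [Nontrivial B] (h : Sys ι) (hd : Dense (L ι Set.univ : Set B)) {K : Type}
    {μ : Cardinal.{0}} (hμ : ℵ₀ ≤ μ) (hK : μ < #K) (hJ : #{j | Even (n j)} ≤ μ) (U : K → Bool → B)
    (h1 : ∀ α s, star (U α s) = U α s) (h2 : ∀ α s, U α s * U α s = 1)
    (h3 : ∀ α, U α true * U α false * U α true = -U α false)
    (h4 : ∀ α β, α ≠ β → ∀ s t, Commute (U α s) (U β t)) : False := by
  classical
  have h5 : ∀ α s, ‖U α s‖ ≤ 1 := fun α s => by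
    have := CStarRing.norm_star_mul_self (x := U α s)
    rw [h1, h2, norm_one] at this
    nlinarith [norm_nonneg (U α s)]
  choose c c1 c2 c3 using h.pick U
  have c4 : ∀ G, #(c G) ≤ μ := fun G => (le_aleph0_iff_set_countable.mpr (c1 G)).trans hμ
  obtain ⟨S, s1, -, s2, s3⟩ := H73.Dense.clos hμ hJ (Set.subset_univ _) (fun G => ⋃ p ∈ c G, p.2)
    (fun G _ => H73.Dense.un_le hμ (c4 G) fun p hp => H73.Dense.fin_le hμ (c2 G p hp))
    fun _ => Set.subset_univ _
  obtain ⟨α, hα⟩ : ∃ α, α ∉ ⋃ G ∈ {G : Set J | G.Finite ∧ G ⊆ S}, Prod.fst '' c G := by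
    by_contra h6
    push Not at h6
    have h7 := H73.Dense.un_le hμ (H73.Dense.fsub_le hμ s2) fun G _ =>
      (mk_image_le (f := Prod.fst)).trans (c4 G)
    rw [Set.eq_univ_of_forall h6, mk_univ] at h7
    exact hK.not_ge h7
  choose y y1 y2 using fun s => hd.exists_dist_lt (U α s) (by norm_num : (0 : ℝ) < 1 / 20)
  choose Q hQ using fun s => L_fin (y1 s)
  let F : Finset J := (Q true ∪ Q false).filter (· ∉ S)
  have hF : Disjoint S F := Set.disjoint_right.mpr fun j hj => (mem_filter.mp hj).2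
  obtain ⟨e, he⟩ := h.stage F
  obtain ⟨E, e1, -, -, e2⟩ := h.lim hd (S ∪ F)
  have h6 : ∀ s, ‖E (U α s) - U α s‖ < 1 / 10 := fun s => by
    have a1 := h.near e2 (U α s) (L_mono (fun j hj => by
      have : j ∈ Q true ∨ j ∈ Q false := by cases s <;> simp_all
      by_cases a1 : j ∈ S <;> simp [F, a1, this]) (hQ s))
    have a2 := y2 s
    have a3 := norm_sub_le_norm_sub_add_norm_sub (E (U α s)) (y s) (U α s)
    rw [dist_eq_norm] at a2
    rw [norm_sub_rev (y s)] at a3
    linarith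
  have h7 : ∀ k : ℕ, ∃ v : Bool → _ → _ → B, (∀ s a b, ‖sl e a b (E (U α s)) - v s a b‖ ≤
      (∏ j ∈ F, n j : ℕ) * (1 / ((k : ℝ) + 1))) ∧ ∀ s t a b a' b', ‖v s a b * v t a' b' -
      v t a' b' * v s a b‖ ≤ (∏ j ∈ F, n j : ℕ) * ((∏ j ∈ F, n j : ℕ) *
        (6 * (1 / ((k : ℝ) + 1)))) := fun k => by
    obtain ⟨G, H, M, d0, f, a1, a2, a3, a4, r0⟩ := h.real hd (U α) S hF he k
    obtain ⟨d, r, p, hp, e', f', r'⟩ := c3 G a1 α _ k _ M d0 e f r0
    refine ⟨u d, fun s a b => ?_, h.u_comm r r' ?_ (h4 _ _ fun a5 => hα ?_) (h5 _) (h5 _)⟩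
    · rw [← h.uY r, ← map_sub]
      refine (he.mu.sl_norm _ _ _).trans (mul_le_mul_of_nonneg_left ((e2 _ H f a4 a3 _
        (L_mono ?_ (r.memY s))).trans (r.ap s).le) (by positivity))
      rw [← Set.union_assoc]
      exact Set.union_subset_union_left _ (Set.union_subset_union_left _ a2)
    · refine Disjoint.mono_right ((Set.subset_biUnion_of_mem (u := Prod.snd) hp).trans
        (s3 G a1 a2)) (Set.disjoint_union_left.mpr ⟨hF.symm, ?_⟩)
      exact (a3.mono_left Set.subset_union_left).symm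
    · exact Set.mem_biUnion (show G ∈ {G : Set J | G.Finite ∧ G ⊆ S} from ⟨a1, a2⟩)
        ⟨p, hp, a5.symm⟩
  choose v v1 v2 using h7
  have t0 := tendsto_one_div_add_atTop_nhds_zero_nat (𝕜 := ℝ)
  have v3 : ∀ s a b, Tendsto (fun k => v k s a b) atTop (𝓝 (sl e a b (E (U α s)))) :=
    fun s a b => tendsto_iff_norm_sub_tendsto_zero.mpr (squeeze_zero (fun _ => norm_nonneg _)
      (fun k => (norm_sub_rev _ _).trans_le (v1 k s a b)) (by simpa using t0.const_mul _))
  have h8 : Even (∏ j ∈ F, n j) := by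
    refine parity he.mu (fun s => E (U α s)) (fun s => by rw [e1, h1]) (fun s t a b a' b' => ?_)
      (h2 α false) (h5 _ _) ?_ ((h6 false).trans (by norm_num))
    · refine sub_eq_zero.mp (tendsto_nhds_unique (((v3 s a b).mul (v3 t a' b')).sub
        ((v3 t a' b').mul (v3 s a b))) (squeeze_zero_norm (fun k => v2 k s t a b a' b') ?_))
      simpa using ((t0.const_mul 6).const_mul _).const_mul _
    · set z := E (U α true)
      set x := E (U α false)
      have a1 : z * x * z + U α false = (z - U α true) * x * z + U α true * (x - U α false) * z +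
          U α true * U α false * (z - U α true) := by
        simp only [mul_sub, sub_mul, h3]
        abel
      have a2 : ∀ s, ‖E (U α s)‖ ≤ 11 / 10 := fun s => by
        linarith [norm_sub_norm_le (E (U α s)) (U α s), h5 α s, h6 s]
      have a3 : ∀ {p q r : B} {a b c : ℝ}, ‖p‖ ≤ a → ‖q‖ ≤ b → ‖r‖ ≤ c →
          ‖p * q * r‖ ≤ a * b * c := fun hp hq hr => norm_mul₃_le.trans (by
        have := (norm_nonneg _).trans hp
        have := (norm_nonneg _).trans hq
        gcongr)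
      rw [a1]
      refine (norm_add₃_le.trans (add_le_add_three (a3 (h6 true).le (a2 false) (a2 true))
        (a3 (h5 _ _) (h6 false).le (a2 true)) (a3 (h5 _ _) (h5 _ _) (h6 true).le))).trans_lt ?_
      norm_num
  obtain ⟨j, hj, h9⟩ := (Nat.prime_two.prime.dvd_finsetProd_iff _).mp h8.two_dvd
  exact (mem_filter.mp hj).2 (s1 (even_iff_two_dvd.mpr h9))

end Pool.Agent.H86.Uhf
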