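import Pool.Agent.H86.UhfE
import Pool.Agent.H86.UhfC

set_option autoImplicit false
set_option linter.unusedSectionVars false

namespace Pool.Agent.H86.Uhf

open Finset

variable {B : Type} [CStarAlgebra B]

theorem near_proj {y : B} (hy : IsSelfAdjoint y) (h : ‖y * y - y‖ ≤ 1 / 10) :
    ∃ q : B, q * q = q ∧ ‖q - y‖ ≤ 1 / 5 := by
  let g : ℝ → ℝ := fun t => max 0 (min 1 (3 * t - 1))
  have hg : Continuous g := by fun_prop
  have h1 : ∀ t ∈ spectrum ℝ y, g t * g t = g t ∧ |g t - t| ≤ 1 / 5 := fun t ht => by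
    have h2 := norm_apply_le_norm_cfc (fun t : ℝ => t * t - t) y ht
    rw [cfc_sub _ _ y, cfc_mul _ _ y, cfc_id' ℝ y] at h2
    obtain ⟨h3, h4⟩ := abs_le.mp (h2.trans h)
    rcases le_total t (1 / 2) with h5 | h5
    · have h6 : t ≤ 1 / 5 := by nlinarith
      have h7 : g t = 0 := max_eq_left (min_le_of_right_le (by linarith))
      rw [h7]
      exact ⟨by simp, abs_le.mpr ⟨by linarith, by nlinarith⟩⟩
    · have h6 : 4 / 5 ≤ t := by nlinarith
      have h7 : g t = 1 := by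
        simp only [g]
        rw [min_eq_left (by linarith), max_eq_right zero_le_one]
      rw [h7]
      exact ⟨by simp, abs_le.mpr ⟨by nlinarith, by linarith⟩⟩
  refine ⟨cfc g y, ?_, ?_⟩
  · rw [← cfc_mul g g y]
    exact cfc_congr fun t ht => (h1 t ht).1
  · have h2 := norm_cfc_le (f := fun t : ℝ => g t - t) (a := y) (by norm_num)
      fun t ht => (h1 t ht).2
    rwa [cfc_sub _ _ y, cfc_id' ℝ y] at h2

theorem tr_idem {N : ℕ} {q : Matrix (Fin N) (Fin N) ℂ} (h : q * q = q) : ∃ k : ℕ, q.trace = k := by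
  have h1 : IsIdempotentElem (Matrix.toLin' q) := by
    rw [IsIdempotentElem, Module.End.mul_eq_comp, ← Matrix.toLin'_mul, h]
  exact ⟨_, (Matrix.trace_toLin'_eq q).symm.trans (LinearMap.IsIdempotentElem.isProj_range _ h1).trace⟩

theorem MU.av_hom {N : ℕ} {e : Fin N → Fin N → B} (h : MU e) (m : Matrix (Fin N) (Fin N) ℂ) :
    av e (h.hom m) = (m.trace / N) • 1 := by
  simp [h.hom_apply, h.av_e, Matrix.trace, smul_smul, ← sum_smul, div_eq_mul_inv, sum_mul]

variable {J : Type} {n : J → ℕ} {ι : ∀ j, Matrix (Fin (n j)) (Fin (n j)) ℂ →⋆ₐ[ℂ] B}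

open scoped Matrix.Norms.L2Operator in
theorem Sys.dvd [Nontrivial B] (h : Sys ι) (hd : Dense (L ι Set.univ : Set B)) {r : ℕ}
    {f : Fin r → Fin r → B} (hf : MU f) : ∃ F : Finset J, r ∣ ∏ j ∈ F, n j := by
  obtain ⟨E, -, e1, e2, e3⟩ := h.lim hd ∅
  have e4 : ∀ x y, E (x * y) = E (y * x) := fun x y => (e1 x y).resolve_right (by simp)
  let o : Fin r := ⟨0, hf.pos⟩
  obtain ⟨y, y1, y2⟩ := hd.exists_dist_lt (f o o) (by norm_num : (0 : ℝ) < 1 / 40)
  obtain ⟨F, hF⟩ := L_fin y1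
  obtain ⟨e, he⟩ := h.stage F
  obtain ⟨m, rfl⟩ := he.mu.hom_surj (he.sp _ hF)
  have e5 : ∀ m, E (he.mu.hom m) = (m.trace / (∏ j ∈ F, n j : ℕ)) • 1 := fun m => by
    have := e3 (he.mu.hom m) F e he (by simp) (he.mu.hom m) (by
      rw [he.mu.hom_apply]
      exact sum_mem fun a _ => sum_mem fun b _ =>
        Subalgebra.smul_mem _ (L_mono Set.subset_union_right (he.mem a b)) _)
    rwa [sub_self, norm_zero, norm_le_zero_iff, sub_eq_zero, he.mu.av_hom] at this
  haveI : Nonempty (Fin (∏ j ∈ F, n j)) := ⟨⟨0, he.mu.pos⟩⟩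
  have hN : ((∏ j ∈ F, n j : ℕ) : ℂ) ≠ 0 := by exact_mod_cast he.mu.pos.ne'
  have hi := NonUnitalStarAlgHom.norm_map he.mu.hom he.mu.hom.toAlgHom.toRingHom.injective
  set p := f o o with hp
  have p1 : p * p = p := by simp [hp, hf.mul]
  have p2 : ‖p‖ ≤ 1 := hf.norm_le o o
  let m' := (2⁻¹ : ℂ) • (m + star m)
  have h1 : ‖he.mu.hom m' - p‖ ≤ 1 / 40 := by
    have a1 : he.mu.hom m' - p = (2⁻¹ : ℂ) • ((he.mu.hom m - p) + star (he.mu.hom m - p)) := by
      simp only [m', map_smul, map_add, map_star, star_sub, hp, hf.adj]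
      module
    have a2 := norm_add_le (he.mu.hom m - p) (star (he.mu.hom m - p))
    rw [dist_eq_norm'] at y2
    rw [a1, norm_smul, norm_inv, Complex.norm_ofNat]
    rw [norm_star] at a2
    linarith
  obtain ⟨q, q1, q2⟩ := near_proj (y := m') (by simp [m', IsSelfAdjoint, add_comm]) (by
    rw [← hi, map_sub, map_mul]
    set x := he.mu.hom m'
    rw [show x * x - x = (x - p) * (x - p) + (x - p) * p + p * (x - p) - (x - p) by
      simp only [mul_sub, sub_mul, p1]; abel]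
    refine (norm_sub_le_of_le (norm_add₃_le.trans (add_le_add_three (norm_mul_le _ _)
      (norm_mul_le _ _) (norm_mul_le _ _))) le_rfl).trans ?_
    nlinarith [norm_nonneg (x - p), norm_nonneg p])
  rw [← hi, map_sub] at q2
  obtain ⟨k, hk⟩ := tr_idem q1
  have h2 := e5 q
  have q3 : he.mu.hom q * he.mu.hom q = he.mu.hom q := by rw [← map_mul, q1]
  set Q := he.mu.hom q
  obtain ⟨z, hz⟩ : IsUnit (1 - (Q - p) * (1 - p - p)) := isUnit_one_sub_of_norm_lt_one (by
    have a1 := norm_sub_le_of_le (norm_sub_le_of_le (norm_one (α := B)).le p2) p2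
    have a2 := norm_sub_le_norm_sub_add_norm_sub Q (he.mu.hom m') p
    nlinarith [norm_mul_le (Q - p) (1 - p - p), norm_nonneg (Q - p), norm_nonneg (1 - p - p)])
  have h3 : (z : B) * p = Q * z := by
    simp only [hz, mul_sub, sub_mul, mul_one, one_mul, mul_assoc, p1, ← mul_assoc Q Q, q3]
    abel
  have h4 : E p = E Q := by
    rw [← z.inv_mul_cancel_left p, e4, h3, mul_assoc, z.mul_inv, mul_one]
  have h5 := map_sum (AddMonoidHom.mk' E e2) (fun a => f a a) univ
  have h6 : ∀ a, E (f a a) = E p := fun a => by simpa [hf.mul] using e4 (f a o) (f o a)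
  have h7 := e5 1
  rw [map_one, Matrix.trace_one, Fintype.card_fin, div_self hN] at h7
  simp only [AddMonoidHom.mk'_apply, hf.sum, h6, h4, h2, h7, hk, sum_const, card_fin,
    ← Nat.cast_smul_eq_nsmul ℂ, smul_smul] at h5
  have h8 := smul_left_injective ℂ (one_ne_zero (α := B)) h5
  refine ⟨F, k, ?_⟩
  field_simp at h8
  exact_mod_cast h8

theorem Sys.small [Nontrivial B] (h : Sys ι) (hd : Dense (L ι Set.univ : Set B))
    (hJ : {j | Even (n j)}.Finite)
    (hf : ∀ m : ℕ, ∃ f : Fin (2 ^ m) → Fin (2 ^ m) → B, MU f) : False := by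
  classical
  let P := ∏ j ∈ hJ.toFinset, n j
  obtain ⟨f, hf⟩ := hf P
  obtain ⟨F, hF⟩ := h.dvd hd hf
  rw [← prod_filter_mul_prod_filter_not F fun j => Even (n j)] at hF
  have h1 := (Nat.Coprime.pow_left _ (Nat.Coprime.prod_right fun j hj => Nat.coprime_two_left.mpr
    (Nat.not_even_iff_odd.mp (mem_filter.mp hj).2))).dvd_of_dvd_mul_right hF
  exact (Nat.le_of_dvd (prod_pos fun j _ => h.pos j) (h1.trans (prod_dvd_prod_of_subset _ _ _
    fun j hj => hJ.mem_toFinset.mpr (mem_filter.mp hj).2))).not_gt Nat.lt_two_pow_self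

end Pool.Agent.H86.Uhf
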