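import Pool.Agent.H86.UhfF

set_option autoImplicit false
set_option linter.unusedSectionVars false

namespace Pool.Agent.H86.Uhf.Gen

open Finset Filter Topology

variable {B : Type} [CStarAlgebra B] {σ : Type} [Fintype σ]

theorem near_proj {y : B} (hy : IsSelfAdjoint y) {η : ℝ} (h0 : η ≤ 1 / 10) (h : ‖y * y - y‖ ≤ η) :
    ∃ q : B, q * q = q ∧ ‖q - y‖ ≤ 2 * η := by
  let g : ℝ → ℝ := fun t => max 0 (min 1 (3 * t - 1))
  have hg : Continuous g := by fun_prop
  have hη := (norm_nonneg _).trans h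
  have h1 : ∀ t ∈ spectrum ℝ y, g t * g t = g t ∧ |g t - t| ≤ 2 * η := fun t ht => by
    have h2 := norm_apply_le_norm_cfc (fun t : ℝ => t * t - t) y ht
    rw [cfc_sub _ _ y, cfc_mul _ _ y, cfc_id' ℝ y] at h2
    obtain ⟨h3, h4⟩ := abs_le.mp (h2.trans h)
    rcases le_total t (1 / 2) with h5 | h5
    · have h6 : t ≤ 2 * η := by nlinarith
      have h7 : g t = 0 := max_eq_left (min_le_of_right_le (by linarith))
      rw [h7]
      exact ⟨by simp, abs_le.mpr ⟨by linarith, by nlinarith⟩⟩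
    · have h6 : 1 - 2 * η ≤ t := by nlinarith
      have h7 : g t = 1 := by
        simp only [g]
        rw [min_eq_left (by linarith), max_eq_right zero_le_one]
      rw [h7]
      exact ⟨by simp, abs_le.mpr ⟨by nlinarith, by linarith⟩⟩
  refine ⟨cfc g y, ?_, ?_⟩
  · rw [← cfc_mul g g y]
    exact cfc_congr fun t ht => (h1 t ht).1
  · have h2 := norm_cfc_le (f := fun t : ℝ => g t - t) (a := y) (by positivity)
      fun t ht => (h1 t ht).2
    rwa [cfc_sub _ _ y, cfc_id' ℝ y] at h2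

theorem idem_zero {r : ℕ} {R : Fin r → Fin r → B} (h : ∀ a b, R a b = ∑ c, R a c * R c b)
    (h1 : ∀ a b, r * ‖R a b‖ < 1) (a b : Fin r) : R a b = 0 := by
  obtain ⟨p, -, hp⟩ := exists_max_image univ (fun p : Fin r × Fin r => ‖R p.1 p.2‖)
    ⟨(a, b), mem_univ _⟩
  have h2 : ‖R p.1 p.2‖ ≤ r * (‖R p.1 p.2‖ * ‖R p.1 p.2‖) := by
    conv_lhs => rw [h]
    refine (norm_sum_le _ _).trans ((sum_le_card_nsmul _ _ _ fun c _ => (norm_mul_le _ _).trans
      (mul_le_mul (hp (p.1, c) (mem_univ _)) (hp (c, p.2) (mem_univ _)) (norm_nonneg _)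
      (norm_nonneg _))).trans (by simp))
  have h3 : ‖R p.1 p.2‖ ≤ 0 := by
    by_contra h4
    nlinarith [h1 p.1 p.2]
  exact norm_le_zero_iff.mp ((hp (a, b) (mem_univ _)).trans h3)

theorem stable {r : ℕ} {f : Fin r → Fin r → B} (hf : MU f) : ∃ δ > 0,
    ∀ (W : StarSubalgebra ℂ B), IsClosed (W : Set B) → ∀ w : Fin r × Fin r → W,
      (∀ a, star (w (a, a)) = w (a, a)) → (∀ p, ‖(w p : B) - f p.1 p.2‖ < δ) →
      ∀ N, (W →⋆ₐ[ℂ] Matrix (Fin N) (Fin N) ℂ) → r ∣ N := by
  let o : Fin r := ⟨0, hf.pos⟩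
  let z : B × (Fin r × Fin r → B) → B := fun x => ∑ a, x.2 (a, o) * x.1 * (x.1 * x.2 (o, a))
  let x0 : B × (Fin r × Fin r → B) := (f o o, fun p => f p.1 p.2)
  have hz : Continuous z := by fun_prop
  have h1 : z x0 = 1 := by simp [z, x0, hf.mul, hf.sum]
  have h2 : ContinuousAt (fun x => Ring.inverse (z x)) x0 :=
    (NormedRing.inverse_continuousAt 1).comp_of_eq hz.continuousAt h1
  have h3 : ∀ᶠ x in 𝓝 x0, IsUnit (z x) ∧ ∀ a b, r * ‖(if a = b then x.1 else 0) -
      x.1 * x.2 (o, a) * Ring.inverse (z x) * (x.2 (b, o) * x.1)‖ < 1 := by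
    refine (hz.continuousAt.eventually (Units.isOpen.mem_nhds (h1 ▸ isUnit_one))).and
      (eventually_all.mpr fun a => eventually_all.mpr fun b =>
        ContinuousAt.eventually_lt ?_ continuousAt_const ?_)
    · split_ifs <;> fun_prop
    · rw [h1]
      split_ifs with h <;> simp [x0, hf.mul, h]
  obtain ⟨ε, h4, h5⟩ := Metric.eventually_nhds_iff.mp h3
  refine ⟨min (ε / 9) (1 / 40), by positivity, fun W hW w h6 h7 N π => ?_⟩
  have p1 : f o o * f o o = f o o := by simp [hf.mul]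
  have p2 := hf.norm_le o o
  have p3 := min_le_left (ε / 9) (1 / 40)
  have p4 := min_le_right (ε / 9) (1 / 40)
  have p5 := h7 (o, o)
  obtain ⟨q, q1, q2⟩ := near_proj (y := w (o, o)) (h6 o) (η := 4 * min (ε / 9) (1 / 40))
    (by linarith) (by
    change ‖(w (o, o) : B) * w (o, o) - w (o, o)‖ ≤ _
    set x : B := (w (o, o)).1
    set p := f o o
    rw [show x * x - x = (x - p) * (x - p) + (x - p) * p + p * (x - p) - (x - p) by
      simp only [mul_sub, sub_mul, p1]; abel]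
    refine (norm_sub_le_of_le (norm_add₃_le.trans (add_le_add_three (norm_mul_le _ _)
      (norm_mul_le _ _) (norm_mul_le _ _))) le_rfl).trans ?_
    nlinarith [norm_nonneg (x - p), norm_nonneg p])
  obtain ⟨h8, h9⟩ := h5 (y := (q, fun p => w p)) (by
    rw [Prod.dist_eq, max_lt_iff, dist_pi_lt_iff h4]
    refine ⟨?_, fun p => ?_⟩
    · change ‖(q : B) - w (o, o)‖ ≤ _ at q2
      have := norm_sub_le_norm_sub_add_norm_sub (q : B) (w (o, o)) (f o o)
      rw [dist_eq_norm]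
      simp only [x0]
      linarith
    · rw [dist_eq_norm]
      linarith [h7 p])
  obtain ⟨v, hv⟩ : IsUnit (∑ a, w (a, o) * q * (q * w (o, a))) :=
    W.coe_isUnit.mp (by simpa [z] using h8)
  have a1 : Ring.inverse (z (q, fun p => w p)) = (v⁻¹ : Wˣ) := by
    rw [show z (q, fun p => w p) = (Units.map W.subtype.toMonoidHom v : Bˣ) by simp [z, hv],
      Ring.inverse_unit]
    rfl
  have a2 := idem_zero (B := W) (R := fun a b => (if a = b then q else 0) -
      q * w (o, a) * (v⁻¹ : Wˣ) * (w (b, o) * q)) (fun a b => by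
    have a3 : ∑ c, q * w (o, a) * (v⁻¹ : Wˣ) * (w (c, o) * q) *
        (q * w (o, c) * (v⁻¹ : Wˣ) * (w (b, o) * q)) =
        q * w (o, a) * (v⁻¹ : Wˣ) * (v * ((v⁻¹ : Wˣ) * (w (b, o) * q))) := by
      simp only [hv, sum_mul, mul_sum, mul_assoc]
    simp only [sub_mul, mul_sub, sum_sub_distrib, a3, Units.mul_inv_cancel_left, ite_mul, mul_ite,
      zero_mul, mul_zero, sum_ite_eq, sum_ite_eq', mem_univ, if_true, q1]
    simp only [mul_assoc, q1, ← mul_assoc q q]
    abel) (fun a b => by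
      have := h9 a b
      rw [a1] at this
      split_ifs at this ⊢ <;> exact this)
  obtain ⟨k, hk⟩ := tr_idem (q := π q) (by rw [← map_mul, q1])
  have a4 : (N : ℂ) = r * k := by
    have a5 := congrArg (fun x => (π x).trace) v.inv_mul
    simp only [hv, mul_sum, map_sum, Matrix.trace_sum, map_one, Matrix.trace_one,
      Fintype.card_fin] at a5
    rw [← a5, sum_congr rfl fun a _ => show _ = (k : ℂ) from ?_]
    · simp
    · have a6 := sub_eq_zero.mp (a2 a a)
      rw [if_pos rfl] at a6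
      rw [← mul_assoc, map_mul, Matrix.trace_mul_comm, ← map_mul, ← mul_assoc, ← a6, hk]
  exact ⟨k, by exact_mod_cast a4⟩

theorem chr [Nontrivial B] {N : ℕ} {e : Fin N → Fin N → B} (he : MU e) (w : σ → B)
    (hw : ∀ s, ∃ t, star (w s) = w t)
    (hc : ∀ s t a b c d, Commute (sl e a b (w s)) (sl e c d (w t))) :
    ∃ W : StarSubalgebra ℂ B, IsClosed (W : Set B) ∧ (∀ s, w s ∈ W) ∧
      Nonempty (W →⋆ₐ[ℂ] Matrix (Fin N) (Fin N) ℂ) := by
  let U : Set B := Set.range fun p : σ × Fin N × Fin N => sl e p.2.1 p.2.2 (w p.1)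
  have hU : ∀ x ∈ U, star x ∈ U := by
    rintro _ ⟨p, rfl⟩
    obtain ⟨t, ht⟩ := hw p.1
    exact ⟨(t, p.2.2, p.2.1), by simp only [he.sl_star, ht]⟩
  let Z : StarSubalgebra ℂ B :=
    { Subalgebra.centralizer ℂ U.centralizer with
      star_mem' := fun hx => Set.star_mem_centralizer' (fun a ha => Set.star_mem_centralizer' hU ha)
        hx }
  haveI hZ : IsClosed (Z : Set B) := Set.isClosed_centralizer _
  letI : CommCStarAlgebra Z :=
    { (inferInstance : CStarAlgebra Z) with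
      mul_comm := fun x y => Subtype.ext (Set.centralizer_centralizer_comm_of_comm (S := U)
        (by rintro _ ⟨p, rfl⟩ _ ⟨q, rfl⟩; exact hc _ _ _ _ _ _) _ x.2 _ y.2) }
  obtain ⟨χ⟩ : Nonempty (WeakDual.characterSpace ℂ Z) := inferInstance
  let W : StarSubalgebra ℂ B :=
    { Wz he Z.toSubalgebra with
      star_mem' := fun {x} hx a b => by
        rw [← he.sl_star]
        exact star_mem (s := Z) (hx b a) }
  haveI hW : IsClosed (W : Set B) := by
    change IsClosed {x | ∀ a b, sl e a b x ∈ Z}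
    simp only [Set.ofPred_forall]
    exact isClosed_iInter fun a => isClosed_iInter fun b => hZ.preimage (sl_cont a b)
  let z : W → Fin N → Fin N → Z := fun x a b => ⟨sl e a b x, x.2 a b⟩
  let π : W →⋆ₐ[ℂ] Matrix (Fin N) (Fin N) ℂ :=
    { toFun x := Matrix.of fun a b => χ (z x a b)
      map_one' := by
        ext a b
        rw [Matrix.of_apply, show z 1 a b = if a = b then 1 else 0 from Subtype.ext (by
          split_ifs with h <;> simp [z, he.sl_one, h]), Matrix.one_apply]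
        split_ifs <;> simp
      map_mul' x y := by
        ext a b
        simp only [Matrix.of_apply, Matrix.mul_apply, ← map_mul, ← map_sum]
        exact congrArg χ (Subtype.ext (by simp [z, he.sl_mul]))
      map_zero' := by
        ext a b
        rw [Matrix.of_apply, show z 0 a b = 0 from Subtype.ext (by simp [z])]
        simp
      map_add' x y := by
        ext a b
        simp only [Matrix.of_apply, Matrix.add_apply, ← map_add]
        exact congrArg χ (Subtype.ext (by simp [z]))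
      commutes' r := by
        ext a b
        rw [Matrix.of_apply, show z (algebraMap ℂ W r) a b = if a = b then r • 1 else 0 from
          Subtype.ext (by
            split_ifs with h <;> simp [z, he.sl_one, h, Algebra.algebraMap_eq_smul_one]),
          Matrix.algebraMap_matrix_apply]
        split_ifs <;> simp
      map_star' x := by
        ext a b
        simp only [Matrix.of_apply, Matrix.star_apply, ← map_star]
        exact congrArg χ (Subtype.ext (by simp [z, he.sl_star])) }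
  exact ⟨W, hW, fun s a b => Set.subset_centralizer_centralizer ⟨(s, a, b), rfl⟩, ⟨π⟩⟩

/-- index set of coefficients -/
abbrev Ix (σ : Type) (N M : ℕ) := σ × Fin N × Fin N × Fin M × Fin M

/-- the element with given coefficients -/
def Y {N M : ℕ} (d : Ix σ N M → B) (s : σ) (e : Fin N → Fin N → B) (f : Fin M → Fin M → B) : B :=
  ∑ c, ∑ c', ∑ a, ∑ b, d (s, a, b, c, c') * e a b * f c c'

/-- the reduced coefficient -/
noncomputable def u {N M : ℕ} (d : Ix σ N M → B) (s : σ) (a b : Fin N) : B :=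
  (M : ℂ)⁻¹ • ∑ c, d (s, a, b, c, c)

theorem sl_av_Y {N M : ℕ} {e : Fin N → Fin N → B} {f : Fin M → Fin M → B} (he : MU e) (hf : MU f)
    (h : ∀ a b c d, Commute (e a b) (f c d)) {d : Ix σ N M → B} (h1 : ∀ p a b, Commute (d p) (e a b))
    (h2 : ∀ p a b, Commute (d p) (f a b)) (s : σ) (a b : Fin N) :
    sl e a b (av f (Y d s e f)) = u d s a b := by
  have h3 : ∀ p a b x, av f (d p * e a b * x) = d p * e a b * av f x := fun p a b x =>
    av_left (fun c c' => (h2 p c c').mul_left (h a b c c')) x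
  simp only [Y, map_sum, h3, hf.av_e, mul_ite, mul_zero, mul_smul_comm, mul_one,
    map_smul, sl_left (h1 _), he.sl_e, sum_ite_eq, mem_univ,
    if_true, smul_ite, smul_zero, u, smul_sum, sum_ite_irrel, sum_const_zero, ite_and, sum_ite_eq']

variable {J : Type} {n : J → ℕ} (ι : ∀ j, Matrix (Fin (n j)) (Fin (n j)) ℂ →⋆ₐ[ℂ] B)

/-- a realisation of a finite type -/
structure Re (U : σ → B) (G H : Set J) (k : ℕ) {N M : ℕ} (d : Ix σ N M → B)
    (e : Fin N → Fin N → B) (f : Fin M → Fin M → B) : Prop where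
  mu1 : MU e
  mu2 : MU f
  comm : ∀ a b c d, Commute (e a b) (f c d)
  m1 : ∀ a b, e a b ∈ L ι H
  m2 : ∀ a b, f a b ∈ L ι H
  fin : H.Finite
  dis : Disjoint G H
  md : ∀ p, d p ∈ L ι G
  ap : ∀ s, ‖U s - Y d s e f‖ < 1 / ((k : ℝ) + 1)

variable {ι}

theorem Re.memY {U : σ → B} {G H : Set J} {k N M : ℕ} {d : Ix σ N M → B}
    {e : Fin N → Fin N → B} {f : Fin M → Fin M → B} (r : Re ι U G H k d e f) (s : σ) :
    Y d s e f ∈ L ι (G ∪ H) :=
  sum_mem fun _ _ => sum_mem fun _ _ => sum_mem fun _ _ => sum_mem fun _ _ =>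
    mul_mem (mul_mem (L_mono Set.subset_union_left (r.md _))
      (L_mono Set.subset_union_right (r.m1 _ _))) (L_mono Set.subset_union_right (r.m2 _ _))

theorem Re.memu {U : σ → B} {G H : Set J} {k N M : ℕ} {d : Ix σ N M → B}
    {e : Fin N → Fin N → B} {f : Fin M → Fin M → B} (r : Re ι U G H k d e f) (s : σ)
    (a b : Fin N) : u d s a b ∈ L ι G :=
  Subalgebra.smul_mem _ (sum_mem fun _ _ => r.md _) _

theorem uY (h : Sys ι) {U : σ → B} {G H : Set J} {k N M : ℕ} {d : Ix σ N M → B}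
    {e : Fin N → Fin N → B} {f : Fin M → Fin M → B} (r : Re ι U G H k d e f) (s : σ)
    (a b : Fin N) : sl e a b (av f (Y d s e f)) = u d s a b :=
  sl_av_Y r.mu1 r.mu2 r.comm (fun _ _ _ => h.L_comm r.dis (r.md _) (r.m1 _ _))
    (fun _ _ _ => h.L_comm r.dis (r.md _) (r.m2 _ _)) s a b

theorem u_comm (h : Sys ι) {U U' : σ → B} {G H H' : Set J} {k N M : ℕ} {d : Ix σ N M → B}
    {e e' : Fin N → Fin N → B} {f f' : Fin M → Fin M → B} (r : Re ι U G H k d e f)
    (r' : Re ι U' G H' k d e' f') (hd : Disjoint H H') (hc : ∀ s t, Commute (U s) (U' t))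
    (hU : ∀ s, ‖U s‖ ≤ 1) (hU' : ∀ s, ‖U' s‖ ≤ 1) (s t : σ) (a b a' b' : Fin N) :
    ‖u d s a b * u d t a' b' - u d t a' b' * u d s a b‖ ≤ N * (N * (6 * (1 / ((k : ℝ) + 1)))) := by
  have h1 := comm_le (hc s t) (hU s) (hU' t) (r.ap s) (r'.ap t)
    (div_le_one_of_le₀ (by linarith [Nat.cast_nonneg (α := ℝ) k]) (by positivity))
  have h2 := Set.disjoint_union_left.mpr ⟨r'.dis, hd⟩
  have c1 := fun a b => h.L_comm h2 (r.memY s) (r'.m1 a b)
  have c2 := fun a b => h.L_comm h2 (r.memY s) (r'.m2 a b)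
  have c3 := fun a b => h.L_comm r.dis (r.memu t a' b') (r.m1 a b)
  have c4 := fun a b => h.L_comm r.dis (r.memu t a' b') (r.m2 a b)
  have h3 : u d s a b * u d t a' b' - u d t a' b' * u d s a b = sl e a b (av f (sl e' a' b' (av f'
      (Y d s e f * Y d t e' f' - Y d t e' f' * Y d s e f)))) := by
    simp only [map_sub]
    rw [av_left c2, av_right c2, sl_left c1, sl_right c1, uY h r', av_left c4, av_right c4,
      sl_left c3, sl_right c3, uY h r]
  rw [h3]
  refine (r.mu1.sl_norm _ _ _).trans (mul_le_mul_of_nonneg_left ((r.mu2.av_norm _).trans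
    ((r'.mu1.sl_norm _ _ _).trans (mul_le_mul_of_nonneg_left ((r'.mu2.av_norm _).trans h1)
    (by positivity)))) (by positivity))

theorem pick (h : Sys ι) {K : Type} (U : K → σ → B) (G : Set J) :
    ∃ c : Set (K × Set J), c.Countable ∧ (∀ p ∈ c, p.2.Finite) ∧ (G.Finite → ∀ (α : K) (H : Set J)
      (k N M : ℕ) (d : Ix σ N M → B) e f, Re ι (U α) G H k d e f → ∃ d' : Ix σ N M → B,
      Re ι (U α) G H k d' e f ∧ ∃ p ∈ c, ∃ e' f', Re ι (U p.1) G p.2 k d' e' f') := by
  by_cases hG : G.Finite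
  swap
  · exact ⟨∅, Set.countable_empty, by simp, fun h => absurd h hG⟩
  obtain ⟨F, rfl⟩ := hG.exists_finset_coe
  obtain ⟨g, hg⟩ := h.stage F
  have h1 : TopologicalSpace.IsSeparable (L ι F : Set B) :=
    (Set.finite_range _).isSeparable.span.mono hg.sp
  choose D D1 D2 D3 using fun N M : ℕ => (TopologicalSpace.isSeparable_pi
    fun _ : Ix σ N M => h1).exists_countable_dense_subset
  have h2 : ∀ (k N M : ℕ) (d : Ix σ N M → B), ∃ c : Set (K × Set J), c.Subsingleton ∧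
      (∀ p ∈ c, p.2.Finite) ∧ ∀ α H e f, Re ι (U α) F H k d e f →
        ∃ p ∈ c, ∃ e' f', Re ι (U p.1) F p.2 k d e' f' := fun k N M d => by
    by_cases h3 : ∃ α H e f, Re ι (U α) F H k d e f
    · obtain ⟨α, H, e, f, r⟩ := h3
      exact ⟨{(α, H)}, Set.subsingleton_singleton, by rintro _ rfl; exact r.fin,
        fun _ _ _ _ _ => ⟨_, rfl, e, f, r⟩⟩
    · exact ⟨∅, Set.subsingleton_empty, by simp, fun α H e f r => absurd ⟨α, H, e, f, r⟩ h3⟩
  choose c c1 c2 c3 using h2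
  refine ⟨⋃ k, ⋃ N, ⋃ M, ⋃ d ∈ D N M, c k N M d, Set.countable_iUnion fun k =>
    Set.countable_iUnion fun N => Set.countable_iUnion fun M => (D2 N M).biUnion fun d _ =>
    (c1 k N M d).finite.countable, fun p hp => ?_, fun _ α H k N M d e f r => ?_⟩
  · simp only [Set.mem_iUnion] at hp
    obtain ⟨k, N, M, d, -, hp⟩ := hp
    exact c2 k N M d p hp
  · have h3 : IsOpen {d : Ix σ N M → B | ∀ s, ‖U α s - Y d s e f‖ < 1 / ((k : ℝ) + 1)} := by
      simp only [Set.ofPred_forall]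
      refine isOpen_iInter_of_finite fun s => isOpen_lt ?_ continuous_const
      simp only [Y]
      fun_prop
    obtain ⟨d', h4, h5⟩ := mem_closure_iff.mp (D3 N M r.md) _ h3 r.ap
    have r' : Re ι (U α) F H k d' e f := { r with md := D1 N M h5, ap := h4 }
    obtain ⟨p, hp, h6⟩ := c3 k N M d' α H e f r'
    exact ⟨d', r', p, by simp only [Set.mem_iUnion]; exact ⟨k, N, M, d', h5, hp⟩, h6⟩

theorem real (h : Sys ι) (hd : Dense (L ι Set.univ : Set B)) (U : σ → B) (S : Set J)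
    {F : Finset J} (hF : Disjoint S F) {N : ℕ} {e : Fin N → Fin N → B} (he : St ι F e) (k : ℕ) :
    ∃ (G : Set J) (H : Finset J) (M : ℕ) (d : Ix σ N M → B) (f : Fin M → Fin M → B), G.Finite ∧
      G ⊆ S ∧ Disjoint (S ∪ F) H ∧ St ι H f ∧ Re ι U G (F ∪ H) k d e f := by
  classical
  choose y y1 y2 using fun s => hd.exists_dist_lt (U s) (Nat.one_div_pos_of_nat (α := ℝ) (n := k))
  choose Q hQ using fun s => L_fin (y1 s)
  let G : Set J := (univ.biUnion Q : Finset J) ∩ S
  let H : Finset J := (univ.biUnion Q).filter fun j => j ∉ S ∧ j ∉ F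
  obtain ⟨f, hf⟩ := h.stage H
  have h1 : Disjoint (S ∪ F) (H : Set J) := Set.disjoint_right.mpr fun j hj => by
    simpa [not_or] using (mem_filter.mp hj).2
  have h2 : Disjoint G F := hF.mono_left Set.inter_subset_right
  have h3 : Disjoint (G ∪ F) (H : Set J) :=
    h1.mono_left (Set.union_subset_union_left _ Set.inter_subset_right)
  have h4 : ∀ s, y s ∈ L ι (G ∪ F ∪ H) := fun s => L_mono (fun j hj => by
    have : ∃ t, j ∈ Q t := ⟨s, hj⟩
    by_cases a1 : j ∈ S <;> by_cases a2 : j ∈ F <;> simp [G, H, a1, a2, this]) (hQ s)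
  refine ⟨G, H, _, fun p => sl e p.2.1 p.2.2.1 (sl f p.2.2.2.1 p.2.2.2.2 (y p.1)), f,
    (Finset.finite_toSet _).inter_of_left _, Set.inter_subset_right,
    h1, hf, he.mu, hf.mu, fun a b c d => h.L_comm (h1.mono_left Set.subset_union_right)
      (he.mem a b) (hf.mem c d), fun a b => L_mono Set.subset_union_left (he.mem a b),
    fun a b => L_mono Set.subset_union_right (hf.mem a b), F.finite_toSet.union H.finite_toSet,
    Set.disjoint_union_right.mpr ⟨h2, h3.mono_left Set.subset_union_left⟩,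
    fun p => h.sl_mem he h2 (h.sl_mem hf h3 (h4 _) _ _) _ _, fun s => ?_⟩
  simp only [Y, ← sum_mul, he.mu.expand, hf.mu.expand, ← dist_eq_norm]
  exact y2 s

open Cardinal in
theorem big [Nontrivial B] (h : Sys ι) (hd : Dense (L ι Set.univ : Set B)) {K : Type}
    {μ : Cardinal.{0}} (hμ : ℵ₀ ≤ μ) (hK : μ < #K) {p r : ℕ} (hp : p.Prime) (hr : p ∣ r)
    (hJ : #{j | p ∣ n j} ≤ μ) (U : K → Fin r × Fin r → B)
    (h1 : ∀ α, MU fun a b => U α (a, b))
    (h4 : ∀ α β, α ≠ β → ∀ s t, Commute (U α s) (U β t)) : False := by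
  classical
  have h5 : ∀ α s, ‖U α s‖ ≤ 1 := fun α s => (h1 α).norm_le s.1 s.2
  choose c c1 c2 c3 using pick h U
  have c4 : ∀ G, #(c G) ≤ μ := fun G => (le_aleph0_iff_set_countable.mpr (c1 G)).trans hμ
  obtain ⟨S, s1, -, s2, s3⟩ := H73.Dense.clos hμ hJ (Set.subset_univ _) (fun G => ⋃ p ∈ c G, p.2)
    (fun G _ => H73.Dense.un_le hμ (c4 G) fun p hp => H73.Dense.fin_le hμ (c2 G p hp))
    fun _ => Set.subset_univ _
  obtain ⟨α, hα⟩ : ∃ α, α ∉ ⋃ G ∈ {G : Set J | G.Finite ∧ G ⊆ S}, Prod.fst '' c G := by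
    by_contra h6
    push Not at h6
    have h7 := H73.Dense.un_le hμ (H73.Dense.fsub_le hμ s2) fun G _ =>
      (mk_image_le (f := Prod.fst)).trans (c4 G)
    rw [Set.eq_univ_of_forall h6, mk_univ] at h7
    exact hK.not_ge h7
  obtain ⟨δ, d1, d2⟩ := stable (h1 α)
  choose y y1 y2 using fun s => hd.exists_dist_lt (U α s) (half_pos d1)
  choose Q hQ using fun s => L_fin (y1 s)
  let F : Finset J := (univ.biUnion Q).filter (· ∉ S)
  have hF : Disjoint S F := Set.disjoint_right.mpr fun j hj => (mem_filter.mp hj).2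
  obtain ⟨e, he⟩ := h.stage F
  obtain ⟨E, e1, -, -, e2⟩ := h.lim hd (S ∪ F)
  have h6 : ∀ s, ‖E (U α s) - U α s‖ < δ := fun s => by
    have a1 := h.near e2 (U α s) (L_mono (fun j hj => by
      have : ∃ a b, j ∈ Q (a, b) := ⟨s.1, s.2, hj⟩
      by_cases a1 : j ∈ S <;> simp [F, a1, this]) (hQ s))
    have a2 := y2 s
    have a3 := norm_sub_le_norm_sub_add_norm_sub (E (U α s)) (y s) (U α s)
    rw [dist_eq_norm] at a2
    rw [norm_sub_rev (y s)] at a3
    linarith
  have h7 : ∀ k : ℕ, ∃ v : Fin r × Fin r → _ → _ → B, (∀ s a b, ‖sl e a b (E (U α s)) - v s a b‖ ≤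
      (∏ j ∈ F, n j : ℕ) * (1 / ((k : ℝ) + 1))) ∧ ∀ s t a b a' b', ‖v s a b * v t a' b' -
      v t a' b' * v s a b‖ ≤ (∏ j ∈ F, n j : ℕ) * ((∏ j ∈ F, n j : ℕ) *
        (6 * (1 / ((k : ℝ) + 1)))) := fun k => by
    obtain ⟨G, H, M, d0, f, a1, a2, a3, a4, r0⟩ := real h hd (U α) S hF he k
    obtain ⟨d, r1, p, hp, e', f', r'⟩ := c3 G a1 α _ k _ M d0 e f r0
    refine ⟨u d, fun s a b => ?_, u_comm h r1 r' ?_ (h4 _ _ fun a5 => hα ?_) (h5 _) (h5 _)⟩
    · rw [← uY h r1, ← map_sub]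
      refine (he.mu.sl_norm _ _ _).trans (mul_le_mul_of_nonneg_left ((e2 _ H f a4 a3 _
        (L_mono ?_ (r1.memY s))).trans (r1.ap s).le) (by positivity))
      rw [← Set.union_assoc]
      exact Set.union_subset_union_left _ (Set.union_subset_union_left _ a2)
    · refine Disjoint.mono_right ((Set.subset_biUnion_of_mem (u := Prod.snd) hp).trans
        (s3 G a1 a2)) (Set.disjoint_union_left.mpr ⟨hF.symm, ?_⟩)
      exact (a3.mono_left Set.subset_union_left).symm
    · exact Set.mem_biUnion (show G ∈ {G : Set J | G.Finite ∧ G ⊆ S} from ⟨a1, a2⟩)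
        ⟨p, hp, a5.symm⟩
  choose v v1 v2 using h7
  have t0 := tendsto_one_div_add_atTop_nhds_zero_nat (𝕜 := ℝ)
  have v3 : ∀ s a b, Tendsto (fun k => v k s a b) atTop (𝓝 (sl e a b (E (U α s)))) :=
    fun s a b => tendsto_iff_norm_sub_tendsto_zero.mpr (squeeze_zero (fun _ => norm_nonneg _)
      (fun k => (norm_sub_rev _ _).trans_le (v1 k s a b)) (by simpa using t0.const_mul _))
  obtain ⟨W, w1, w2, ⟨π⟩⟩ := chr he.mu (fun s => E (U α s))
    (fun s => ⟨(s.2, s.1), by rw [e1, (h1 α).adj]⟩) fun s t a b a' b' =>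
    sub_eq_zero.mp (tendsto_nhds_unique (((v3 s a b).mul (v3 t a' b')).sub
      ((v3 t a' b').mul (v3 s a b))) (squeeze_zero_norm (fun k => v2 k s t a b a' b')
      (by simpa using ((t0.const_mul 6).const_mul _).const_mul _)))
  obtain ⟨j, hj, h9⟩ := (hp.prime.dvd_finsetProd_iff _).mp (hr.trans (d2 W w1
    (fun s => ⟨_, w2 s⟩) (fun a => Subtype.ext ((e1 _).trans (congrArg E ((h1 α).adj a a)))) h6 _ π))
  exact (mem_filter.mp hj).2 (s1 h9)

theorem small [Nontrivial B] (h : Sys ι) (hd : Dense (L ι Set.univ : Set B)) {p r : ℕ}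
    (hp : p.Prime) (hr : p ∣ r) (hJ : {j | p ∣ n j}.Finite)
    (hf : ∀ m : ℕ, ∃ f : Fin (r ^ m) → Fin (r ^ m) → B, MU f) : False := by
  classical
  let P := ∏ j ∈ hJ.toFinset, n j
  obtain ⟨f, hf⟩ := hf P
  obtain ⟨F, hF⟩ := h.dvd hd hf
  rw [← prod_filter_mul_prod_filter_not F fun j => p ∣ n j] at hF
  have h1 := (Nat.Coprime.pow_left _ (Nat.Coprime.prod_right fun j hj =>
    hp.coprime_iff_not_dvd.mpr (mem_filter.mp hj).2)).dvd_of_dvd_mul_right
    ((pow_dvd_pow_of_dvd hr P).trans hF)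
  exact (Nat.le_of_dvd (prod_pos fun j _ => h.pos j) (h1.trans (prod_dvd_prod_of_subset _ _ _
    fun j hj => hJ.mem_toFinset.mpr (mem_filter.mp hj).2))).not_gt (Nat.lt_pow_self hp.one_lt)

theorem divide {N r : ℕ} {e : Fin N → Fin N → B} (he : MU e) (h : r ∣ N) (Z : Subalgebra ℂ B)
    (hZ : ∀ a b, e a b ∈ Z) : ∃ θ : Matrix (Fin r) (Fin r) ℂ →⋆ₐ[ℂ] B, ∀ m, θ m ∈ Z := by
  obtain ⟨k, rfl⟩ := h
  let τ := finProdFinEquiv (m := r) (n := k)
  have hf : MU fun a b : Fin r => ∑ c : Fin k, e (τ (a, c)) (τ (b, c)) :=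
    ⟨Nat.pos_of_mul_pos_right he.pos, fun a b c d => ?_, fun a b => ?_, ?_⟩
  · refine ⟨hf.hom, fun m => ?_⟩
    rw [hf.hom_apply]
    exact sum_mem fun a _ => sum_mem fun b _ => Z.smul_mem (sum_mem fun c _ => hZ _ _) _
  · simp only [sum_mul, mul_sum, he.mul, τ.injective.eq_iff, Prod.mk.injEq]
    split_ifs with h
    · simp [h]
    · simp [h]
  · simp only [star_sum, he.adj]
  · rw [← he.sum, ← τ.sum_comp, Fintype.sum_prod_type]

open Cardinal in
theorem blocks {I K : Type} [Infinite K] (n : I → ℕ) {r : ℕ} (hr : 0 < r)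
    (h : ∀ p : ℕ, p.Prime → p ∣ r → #K ≤ #{i | p ∣ n i}) :
    ∃ F : K → Finset I, (∀ k, r ∣ ∏ i ∈ F k, n i) ∧ ∀ k l, k ≠ l → Disjoint (F k) (F l) := by
  classical
  obtain ⟨𝒢, g1, g2, g3⟩ := H73.Dense.exists_max {F : Finset I | r ∣ ∏ i ∈ F, n i} Disjoint
    fun _ _ h => h.symm
  rcases le_or_gt #K #𝒢 with h1 | h1
  · obtain ⟨τ⟩ := (Cardinal.le_def _ _).mp h1
    exact ⟨fun k => τ k, fun k => g1 (τ k).2, fun k l hkl =>
      g2 (τ k).2 (τ l).2 fun e => hkl (τ.injective (Subtype.ext e))⟩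
  let X : Set I := ⋃ G ∈ 𝒢, (G : Set I)
  have h2 : ∀ G : Finset I, #(X ∪ G : Set I) < #K := fun G => by
    refine (mk_union_le _ _).trans_lt (add_lt_of_lt (aleph0_le_mk K) ?_
      ((finset_card_lt_aleph0 G).trans_le (aleph0_le_mk K)))
    by_cases h3 : 𝒢.Finite
    · exact (h3.biUnion fun G _ => G.finite_toSet).lt_aleph0.trans_le (aleph0_le_mk K)
    · have h4 := aleph0_le_mk_iff.mpr (Set.infinite_coe_iff.mpr h3)
      exact (H73.Dense.un_le h4 le_rfl fun G _ => H73.Dense.fin_le h4 G.finite_toSet).trans_lt h1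
  have h3 : ∀ s : ℕ, s ∣ r → ∃ F : Finset I, s ∣ ∏ i ∈ F, n i ∧ Disjoint X F := fun s => by
    induction s using induction_on_primes with
    | zero => exact fun h => absurd (Nat.eq_zero_of_zero_dvd h) hr.ne'
    | one => exact fun _ => ⟨∅, one_dvd _, by simp⟩
    | prime_mul p a hp ih =>
      intro hs
      obtain ⟨F, f1, f2⟩ := ih (dvd_of_mul_left_dvd hs)
      obtain ⟨i, i1, i2⟩ := Set.not_subset.mp fun h4 => ((h2 F).trans_le
        (h p hp (dvd_of_mul_right_dvd hs))).not_ge (mk_le_mk_of_subset h4)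
      refine ⟨insert i F, ?_, ?_⟩
      · rw [prod_insert fun h5 => i2 (Or.inr h5)]
        exact mul_dvd_mul i1 f1
      · rw [coe_insert, Set.disjoint_insert_right]
        exact ⟨fun h5 => i2 (Or.inl h5), f2⟩
  obtain ⟨F, f1, f2⟩ := h3 r dvd_rfl
  have h4 : ∀ G ∈ 𝒢, Disjoint F G := fun G hG => disjoint_coe.mp
    (f2.symm.mono_right (Set.subset_biUnion_of_mem (u := fun G : Finset I => (G : Set I)) hG))
  rcases g3 F f1 with h5 | ⟨G, h5, h6⟩
  · exact ⟨fun _ => F, fun _ => f1, fun _ _ _ => h4 F h5⟩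
  · exact absurd (h4 G h5) h6

end Pool.Agent.H86.Uhf.Gen
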