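import Mathlib

set_option linter.unusedSectionVars false
set_option linter.deprecated false

namespace Pool.Agent.H86.Wu
open Filter Topology Finset
open scoped InnerProductSpace

variable {H : Type*} [NormedAddCommGroup H] [InnerProductSpace ℂ H] [CompleteSpace H]

theorem psym {p : H →L[ℂ] H} (hp : IsStarProjection p) (u v : H) : ⟪p u, v⟫_ℂ = ⟪u, p v⟫_ℂ := by
  have := ContinuousLinearMap.adjoint_inner_left p v u
  rwa [← ContinuousLinearMap.star_eq_adjoint, hp.isSelfAdjoint.star_eq] at this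

theorem ssym (a : H →L[ℂ] H) (u v : H) : ⟪star a u, v⟫_ℂ = ⟪u, a v⟫_ℂ :=
  ContinuousLinearMap.adjoint_inner_left a v u

theorem ssym' (a : H →L[ℂ] H) (u v : H) : ⟪a u, v⟫_ℂ = ⟪u, star a v⟫_ℂ :=
  (ContinuousLinearMap.adjoint_inner_right a u v).symm

theorem ple {p : H →L[ℂ] H} (hp : IsStarProjection p) (v : H) : ‖p v‖ ≤ ‖v‖ :=
  (p.le_opNorm v).trans (mul_le_of_le_one_left (norm_nonneg _) hp.norm_le)

/-- Pythagoras for operators with orthogonal ranges -/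
theorem pyth {a b : H →L[ℂ] H} (h : star a * b = 0) (u : H) :
    ‖(a + b) u‖ ^ 2 = ‖a u‖ ^ 2 + ‖b u‖ ^ 2 := by
  have : ⟪a u, b u⟫_ℂ = 0 := by
    rw [ssym']
    change ⟪u, (star a * b) u⟫_ℂ = 0
    rw [h]; simp
  have h2 := norm_add_sq_eq_norm_sq_add_norm_sq_of_inner_eq_zero _ _ this
  simp only [sq, add_apply]
  exact h2

variable (M : VonNeumannAlgebra H)

theorem smul_mem' (c : ℂ) {a : H →L[ℂ] H} (ha : a ∈ M) : c • a ∈ M :=
  M.toStarSubalgebra.smul_mem ha c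

theorem mem_of_comm {a : H →L[ℂ] H} (h : ∀ y ∈ M.commutant, Commute y a) : a ∈ M := by
  rw [← M.commutant_commutant, VonNeumannAlgebra.mem_commutant_iff]
  exact fun y hy => (h y hy).eq

theorem comm_of_mem {a y : H →L[ℂ] H} (ha : a ∈ M) (hy : y ∈ M.commutant) : Commute a y :=
  VonNeumannAlgebra.mem_commutant_iff.1 hy a ha

theorem cfc_mem' {a : H →L[ℂ] H} (ha : a ∈ M) (f : ℝ → ℝ) : cfc f a ∈ M :=
  mem_of_comm M fun y hy => ((comm_of_mem M ha hy).cfc_real f).symm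

/-- projection onto the closure of an `M'`-invariant subspace -/
theorem exProj (K : Submodule ℂ H) (hK : ∀ y ∈ M.commutant, ∀ ξ ∈ K, y ξ ∈ K) :
    ∃ e ∈ M, IsStarProjection e ∧ (∀ ξ, e ξ ∈ K.topologicalClosure) ∧
      ∀ ξ ∈ K.topologicalClosure, e ξ = ξ := by
  haveI : CompleteSpace K.topologicalClosure := K.isClosed_topologicalClosure.completeSpace_coe
  refine ⟨K.topologicalClosure.starProjection, ?_, isStarProjection_starProjection,
    fun ξ => Submodule.starProjection_apply_mem _ ξ,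
    fun ξ hξ => Submodule.starProjection_eq_self_iff.2 hξ⟩
  rw [VonNeumannAlgebra.IsStarProjection.mem_iff isStarProjection_starProjection]
  intro y hy
  rw [Submodule.range_starProjection]
  intro ξ hξ
  exact map_mem_closure y.continuous hξ (hK y hy)

/-- matrix coefficients -/
noncomputable def Φ (x : H →L[ℂ] H) : H × H → ℂ := fun p => ⟪p.1, x p.2⟫_ℂ

theorem Φ_cont : Continuous (Φ : (H →L[ℂ] H) → H × H → ℂ) := by
  unfold Φ; fun_prop

def UU : Set (H →L[ℂ] H) := {u | u ∈ M ∧ u ∈ unitary (H →L[ℂ] H)}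

def SS : Set (H →L[ℂ] H) := {x | Φ x ∈ closure (Φ '' UU M)}

theorem SS_closed : IsClosed (SS M) := isClosed_closure.preimage Φ_cont

theorem UU_sub {u : H →L[ℂ] H} (h : u ∈ UU M) : u ∈ SS M := subset_closure ⟨u, h, rfl⟩

theorem SS_map (F : (H × H → ℂ) → (H × H → ℂ)) (hF : Continuous F)
    (G : (H →L[ℂ] H) → (H →L[ℂ] H)) (hG : ∀ x, Φ (G x) = F (Φ x))
    (h : ∀ u ∈ UU M, G u ∈ SS M) {y : H →L[ℂ] H} (hy : y ∈ SS M) : G y ∈ SS M := by
  change Φ (G y) ∈ closure (Φ '' UU M)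
  rw [hG, ← closure_closure]
  refine map_mem_closure hF hy ?_
  rintro _ ⟨u, hu, rfl⟩
  rw [← hG]; exact h u hu

theorem SS_mul {x y : H →L[ℂ] H} (hx : x ∈ SS M) (hy : y ∈ SS M) : x * y ∈ SS M := by
  refine SS_map M (fun f p => f (p.1, y p.2)) (by fun_prop) (fun x => x * y) (fun x => rfl)
    (fun u hu => ?_) hx
  refine SS_map M (fun f p => f (star u p.1, p.2)) (by fun_prop) (fun x => u * x)
    (fun x => ?_) (fun v hv => UU_sub M ⟨mul_mem hu.1 hv.1, mul_mem hu.2 hv.2⟩) hy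
  funext p
  simp only [Φ, ssym]; rfl

theorem SS_of {x : H →L[ℂ] H} (h : ∀ (F : Finset H) (ε : ℝ), 0 < ε → ∃ y ∈ SS M,
    ∀ ξ ∈ F, ∀ η ∈ F, ‖⟪ξ, (y - x) η⟫_ℂ‖ < ε) : x ∈ SS M := by
  classical
  change Φ x ∈ closure (Φ '' UU M)
  rw [← closure_closure, mem_closure_iff_nhds]
  intro t ht
  rw [nhds_pi, Filter.mem_pi] at ht
  obtain ⟨I, hI, s, hs, hst⟩ := ht
  have h1 : ∀ p, ∃ ε > 0, Metric.ball (Φ x p) ε ⊆ s p := fun p => Metric.mem_nhds_iff.1 (hs p)
  choose e he hes using h1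
  obtain ⟨ε, hε, hεe⟩ : ∃ ε > 0, ∀ p ∈ I, ε ≤ e p := by
    rcases I.eq_empty_or_nonempty with h0 | h0
    · exact ⟨1, one_pos, by simp [h0]⟩
    · obtain ⟨p, -, hp⟩ := Set.exists_min_image I e hI h0
      exact ⟨e p, he p, hp⟩
  obtain ⟨y, hy, hy'⟩ := h (hI.toFinset.image Prod.fst ∪ hI.toFinset.image Prod.snd) ε hε
  refine ⟨Φ y, hst fun p hp => hes p ?_, hy⟩
  have := hy' p.1 (mem_union_left _ (mem_image_of_mem _ (hI.mem_toFinset.2 hp))) p.2
    (mem_union_right _ (mem_image_of_mem _ (hI.mem_toFinset.2 hp)))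
  rw [mem_ball_iff_norm]
  refine lt_of_eq_of_lt ?_ (this.trans_le (hεe p hp))
  simp [Φ]

/-- rotation unitaries -/
theorem rot {g j : H →L[ℂ] H} (hg : IsStarProjection g) (hj : star j = -j) (h1 : g * j = j)
    (h2 : j * g = j) (h3 : j * j = -g) (t s : ℝ) (hts : t ^ 2 + s ^ 2 = 1) :
    1 - g + (t : ℂ) • g + (s : ℂ) • j ∈ unitary (H →L[ℂ] H) := by
  have h0 : g * g = g := hg.isIdempotentElem
  have hs : star (1 - g + (t : ℂ) • g + (s : ℂ) • j) = 1 - g + (t : ℂ) • g - (s : ℂ) • j := by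
    simp [hg.isSelfAdjoint.star_eq, hj, sub_eq_add_neg]
  have hts' : (t : ℂ) ^ 2 + (s : ℂ) ^ 2 = 1 := by exact_mod_cast hts
  rw [Unitary.mem_iff, hs]
  constructor <;>
  · simp only [mul_add, add_mul, mul_sub, sub_mul, mul_one, one_mul, smul_mul_assoc,
      mul_smul_comm, h0, h1, h2, h3]
    linear_combination (norm := module) hts' • g

end Pool.Agent.H86.Wu
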