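import Pool.Agent.H86.WuA

set_option linter.unusedSectionVars false
set_option linter.deprecated false

namespace Pool.Agent.H86.Wu
open Filter Topology Finset
open scoped InnerProductSpace

variable {H : Type*} [NormedAddCommGroup H] [InnerProductSpace ℂ H] [CompleteSpace H]
variable (M : VonNeumannAlgebra H)

theorem spec_le {b : H →L[ℂ] H} {x : ℝ} (hx : x ∈ spectrum ℝ b) : |x| ≤ ‖b‖ := by
  rcases subsingleton_or_nontrivial (H →L[ℂ] H) with h | h
  · simp [spectrum.of_subsingleton] at hx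
  · exact spectrum.norm_le_norm_of_mem hx

theorem stareq {a b c : H →L[ℂ] H} (ha : IsSelfAdjoint a) (hb : IsSelfAdjoint b)
    (hc : IsSelfAdjoint c) (h : a * b = c) : b * a = c := by
  have := congrArg star h
  rwa [star_mul, ha.star_eq, hb.star_eq, hc.star_eq] at this

theorem rangeProj {a : H →L[ℂ] H} (ha : a ∈ M) : ∃ e ∈ M, IsStarProjection e ∧ e * a = a ∧
    ∀ T : H →L[ℂ] H, T * a = 0 → T * e = 0 := by
  obtain ⟨e, he, hp, h1, h2⟩ := exProj M (LinearMap.range (a : H →ₗ[ℂ] H)) (by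
    rintro y hy _ ⟨ξ, rfl⟩
    exact ⟨y ξ, congrArg (fun T : H →L[ℂ] H => T ξ) (comm_of_mem M ha hy).eq⟩)
  refine ⟨e, he, hp, ?_, fun T hT => ?_⟩
  · ext ξ
    exact h2 _ (Submodule.le_topologicalClosure _ ⟨ξ, rfl⟩)
  · ext ξ
    have : (LinearMap.range (a : H →ₗ[ℂ] H)).topologicalClosure ≤ LinearMap.ker (T : H →ₗ[ℂ] H) := by
      refine Submodule.topologicalClosure_minimal _ ?_ T.isClosed_ker
      rintro _ ⟨η, rfl⟩
      exact congrArg (fun T : H →L[ℂ] H => T η) hT
    exact this (h1 ξ)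

theorem halve {p b : H →L[ℂ] H} (hp : IsStarProjection p) (hbM : b ∈ M) (hb : IsSelfAdjoint b)
    (hbp : b * p = b) {δ : ℝ} (hδ : ‖b‖ ≤ δ) :
    ∃ e ∈ M, IsStarProjection e ∧ p * e = e ∧ e * b = b * e ∧
      ‖b * e - ((δ / 2 : ℝ) : ℂ) • e‖ ≤ δ / 2 ∧
      ‖b * (p - e) + ((δ / 2 : ℝ) : ℂ) • (p - e)‖ ≤ δ / 2 := by
  have hδ0 : 0 ≤ δ := (norm_nonneg _).trans hδ
  set bp := cfc (fun x : ℝ => max x 0) b with hbp'
  set bm := cfc (fun x : ℝ => max (-x) 0) b with hbm'
  have s1 : IsSelfAdjoint bp := cfc_predicate _ _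
  have s2 : IsSelfAdjoint bm := cfc_predicate _ _
  have e1 : bp - bm = b := by
    rw [hbp', hbm', ← cfc_sub _ _ b]
    simp only [max_zero_sub_max_neg_zero_eq_self]
    exact cfc_id' ℝ b
  have e2 : bm * bp = 0 := by
    rw [hbp', hbm', ← cfc_mul _ _ b]
    have : (fun x : ℝ => max (-x) 0 * max x 0) = fun _ => 0 := by
      funext x
      rcases le_total x 0 with h | h
      · simp [h]
      · simp [h]
    rw [this]; exact cfc_zero ℝ b
  have hpb : p * b = b := stareq hb hp.isSelfAdjoint hb hbp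
  have hc : Commute b (1 - p) := by
    change b * (1 - p) = (1 - p) * b
    rw [mul_sub, sub_mul, hbp, hpb, mul_one, one_mul]
  have c1 : Commute bp (1 - p) := hc.cfc_real _
  have c2 : Commute bm (1 - p) := hc.cfc_real _
  have e3 : bp * (1 - p) = bm * (1 - p) := by
    rw [← sub_eq_zero, ← sub_mul, e1, mul_sub, hbp, mul_one, sub_self]
  have e4 : bp * (1 - p) = 0 := by
    rw [← CStarRing.star_mul_self_eq_zero_iff]
    nth_rewrite 1 [e3]
    rw [star_mul, s2.star_eq, mul_assoc, ← mul_assoc bm, e2, zero_mul, mul_zero]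
  have e5 : bm * p = bm := by
    rw [e3, mul_sub, mul_one, sub_eq_zero] at e4; exact e4.symm
  obtain ⟨e, heM, he, h1, h2⟩ := rangeProj M (cfc_mem' M hbM (fun x : ℝ => max x 0))
  rw [← hbp'] at h1 h2
  have h3 : bm * e = 0 := h2 _ e2
  have h4 : p * e = e := by
    have := h2 (1 - p) (by rw [← c1.eq, e4])
    rw [sub_mul, one_mul, sub_eq_zero] at this; exact this.symm
  have h5 : bp * e = bp := stareq he.isSelfAdjoint s1 s1 h1
  have h6 : b * e = bp := by rw [← e1, sub_mul, h3, h5, sub_zero]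
  have hpe : IsStarProjection (p - e) := he.sub_of_mul_eq_right hp h4
  have nb : ∀ f : ℝ → ℝ, Continuous f → (∀ x, 0 ≤ f x ∧ f x ≤ |x|) → ∀ r : H →L[ℂ] H,
      IsStarProjection r → ‖cfc f b * r - ((δ / 2 : ℝ) : ℂ) • r‖ ≤ δ / 2 := by
    intro f hf hf' r hr
    have : cfc f b * r - ((δ / 2 : ℝ) : ℂ) • r = cfc (fun x => f x - δ / 2) b * r := by
      rw [cfc_sub _ _ b, cfc_const _ b, sub_mul, Algebra.algebraMap_eq_smul_one, smul_mul_assoc,
        one_mul, Complex.coe_smul]
    rw [this]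
    refine (norm_mul_le _ _).trans ((mul_le_of_le_one_right (norm_nonneg _) hr.norm_le).trans ?_)
    refine norm_cfc_le (by positivity) fun x hx => ?_
    have := spec_le hx
    rw [Real.norm_eq_abs, abs_le]
    constructor <;> linarith [(hf' x).1, (hf' x).2]
  refine ⟨e, heM, he, h4, by rw [h6]; exact stareq hb he.isSelfAdjoint s1 h6, ?_, ?_⟩
  · have := nb (fun x => max x 0) (by fun_prop)
      (fun x => ⟨le_max_right _ _, max_le (le_abs_self _) (abs_nonneg _)⟩) e he
    rwa [← hbp', h5, ← h6] at this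
  · have := nb (fun x => max (-x) 0) (by fun_prop)
      (fun x => ⟨le_max_right _ _, max_le (neg_le_abs _) (abs_nonneg _)⟩) (p - e) hpe
    rw [← hbm', ← norm_neg] at this
    refine le_of_eq_of_le (congrArg _ ?_) this
    rw [mul_sub, mul_sub, hbp, h6, h3, e5, ← e1]; abel

/-- minimal projections -/
def MinP (e : H →L[ℂ] H) : Prop :=
  ∀ f ∈ M, IsStarProjection f → e * f = f → f = 0 ∨ f = e

theorem min_sa {e : H →L[ℂ] H} (heM : e ∈ M) (he : IsStarProjection e) (hm : MinP M e)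
    {a : H →L[ℂ] H} (haM : a ∈ M) (ha : IsSelfAdjoint a) (hae : a * e = a) :
    a ∈ Submodule.span ℂ {e} := by
  have key : ∀ n : ℕ, ∃ c : ℝ, ‖a - (c : ℂ) • e‖ ≤ ‖a‖ / 2 ^ n := by
    intro n
    induction n with
    | zero => exact ⟨0, by simp⟩
    | succ n ih =>
      obtain ⟨c, hc⟩ := ih
      have hb : IsSelfAdjoint (a - (c : ℂ) • e) :=
        ha.sub (IsSelfAdjoint.smul (by simp [IsSelfAdjoint]) he.isSelfAdjoint)
      have hbe : (a - (c : ℂ) • e) * e = a - (c : ℂ) • e := by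
        rw [sub_mul, smul_mul_assoc, hae, he.isIdempotentElem.eq]
      obtain ⟨f, hfM, hf, h1, -, h2, h3⟩ := halve M he (sub_mem haM (smul_mem' M _ heM)) hb hbe hc
      have e0 : ‖a‖ / 2 ^ n / 2 = ‖a‖ / 2 ^ (n + 1) := by rw [pow_succ, div_div]
      rw [e0] at h2 h3
      rcases hm f hfM hf h1 with rfl | rfl
      · refine ⟨c - ‖a‖ / 2 ^ (n + 1), le_of_eq_of_le (congrArg _ ?_) h3⟩
        rw [sub_zero, hbe]; push_cast; module
      · refine ⟨c + ‖a‖ / 2 ^ (n + 1), le_of_eq_of_le (congrArg _ ?_) h2⟩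
        rw [hbe]; push_cast; module
  have hcl : IsClosed ((Submodule.span ℂ {e} : Submodule ℂ (H →L[ℂ] H)) : Set (H →L[ℂ] H)) :=
    Submodule.closed_of_finiteDimensional _
  choose c hc using key
  refine hcl.mem_of_tendsto (f := fun n => (c n : ℂ) • e) (b := atTop) ?_
    (Eventually.of_forall fun n => Submodule.smul_mem _ _ (Submodule.mem_span_singleton_self e))
  rw [tendsto_iff_norm_sub_tendsto_zero]
  refine squeeze_zero (fun _ => norm_nonneg _) (fun n => (norm_sub_rev _ _).trans_le (hc n)) ?_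
  exact tendsto_const_nhds.div_atTop (tendsto_pow_atTop_atTop_of_one_lt one_lt_two)

theorem min_all {e : H →L[ℂ] H} (heM : e ∈ M) (he : IsStarProjection e) (hm : MinP M e)
    {a : H →L[ℂ] H} (haM : a ∈ M) : ∃ c : ℂ, e * a * e = c • e := by
  have h0 := he.isIdempotentElem.eq
  have hs := he.isSelfAdjoint.star_eq
  have h1 := min_sa M heM he hm (a := e * (a + star a) * e)
    (mul_mem (mul_mem heM (add_mem haM (star_mem haM))) heM)
    (by simp [IsSelfAdjoint, hs, mul_assoc, add_comm]) (by rw [mul_assoc, h0])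
  have h2 := min_sa M heM he hm (a := Complex.I • (e * (star a - a) * e))
    (smul_mem' M _ (mul_mem (mul_mem heM (sub_mem (star_mem haM) haM)) heM))
    (by simp [IsSelfAdjoint, hs, mul_assoc, sub_mul, mul_sub, smul_sub]; abel)
    (by rw [smul_mul_assoc, mul_assoc, h0])
  have h3 : e * a * e ∈ Submodule.span ℂ {e} := by
    have := Submodule.smul_mem _ (1 / 2 : ℂ) (add_mem h1 (Submodule.smul_mem _ Complex.I h2))
    convert this using 1
    rw [smul_smul, Complex.I_mul_I]
    simp only [mul_add, add_mul, mul_sub, sub_mul]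
    module
  obtain ⟨c, hc⟩ := Submodule.mem_span_singleton.1 h3
  exact ⟨c, hc.symm⟩

end Pool.Agent.H86.Wu
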