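import Pool.Agent.H86.WuB

set_option linter.unusedSectionVars false
set_option linter.deprecated false

namespace Pool.Agent.H86.Wu
open Filter Topology Finset
open scoped InnerProductSpace

variable {H : Type*} [NormedAddCommGroup H] [InnerProductSpace ℂ H] [CompleteSpace H]
variable (M : VonNeumannAlgebra H)

/-- no nonzero finite-dimensional direct summand -/
def NoFD : Prop := ∀ z ∈ M, IsStarProjection z → (∀ a ∈ M, a * z = z * a) →
  FiniteDimensional ℂ (Submodule.span ℂ {x | ∃ a ∈ M, x = a * z}) → z = 0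

theorem pi_proj {e v : H →L[ℂ] H} (h1 : star v * v = e) (h2 : v * e = v) :
    IsStarProjection (v * star v) :=
  ⟨by change v * star v * (v * star v) = _
      rw [mul_assoc, ← mul_assoc (star v), h1, ← mul_assoc, h2],
    by simp [IsSelfAdjoint]⟩

theorem copies (hM : NoFD M) {e : H →L[ℂ] H} (heM : e ∈ M) (he : IsStarProjection e) (he0 : e ≠ 0)
    (hm : MinP M e) (n : ℕ) : ∃ v : ℕ → H →L[ℂ] H, v 0 = e ∧ (∀ i, v i ∈ M) ∧ (∀ i, v i * e = v i) ∧
      (∀ i ≤ n, star (v i) * v i = e) ∧ ∀ i ≤ n, ∀ j ≤ n, i ≠ j → star (v i) * v j = 0 := by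
  classical
  have h0 := he.isIdempotentElem.eq
  have hs := he.isSelfAdjoint.star_eq
  induction n with
  | zero => exact ⟨fun _ => e, rfl, fun _ => heM, fun _ => h0, fun _ _ => by rw [hs, h0],
      fun i hi j hj h => by omega⟩
  | succ n ih =>
    obtain ⟨v, v0, vM, ve, v1, v2⟩ := ih
    set f := ∑ i ∈ range (n + 1), v i * star (v i) with hf
    have fM : f ∈ M := sum_mem fun i _ => mul_mem (vM i) (star_mem (vM i))
    have fs : star f = f := by simp [hf]
    have fv : ∀ j ≤ n, f * v j = v j := by
      intro j hj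
      rw [hf, sum_mul, sum_eq_single j]
      · rw [mul_assoc, v1 j hj, ve]
      · intro i hi hij
        rw [mul_assoc, v2 i (by simpa [Nat.lt_succ_iff] using hi) j hj hij, mul_zero]
      · intro h; exact absurd (mem_range.2 (by omega)) h
    have ff : f * f = f := by
      nth_rewrite 2 [hf]
      rw [mul_sum]
      exact sum_congr rfl fun i hi => by
        rw [← mul_assoc, fv i (by simpa [Nat.lt_succ_iff] using hi)]
    have ev : ∀ i, e * star (v i) = star (v i) := fun i => by
      have := congrArg star (ve i); rwa [star_mul, hs] at this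
    by_cases h : ∀ x ∈ M, (1 - f) * x * e = 0
    · exfalso
      have h1 : ∀ a ∈ M, f * a * f = a * f := by
        intro a ha
        have : (1 - f) * a * f = 0 := by
          nth_rewrite 2 [hf]
          rw [mul_sum]
          refine sum_eq_zero fun i _ => ?_
          rw [← ev i, ← mul_assoc, ← mul_assoc, mul_assoc (1 - f) a, h _ (mul_mem ha (vM i)), zero_mul]
        rw [sub_mul, sub_mul, one_mul, sub_eq_zero] at this
        exact this.symm
      have h2 : ∀ a ∈ M, a * f = f * a := by
        intro a ha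
        have := congrArg star (h1 _ (star_mem ha))
        simp only [star_mul, star_star, fs] at this
        rw [← this, ← mul_assoc, h1 a ha]
      have h3 : f = 0 := by
        refine hM f fM ⟨ff, fs⟩ h2 ?_
        have hfin : FiniteDimensional ℂ (Submodule.span ℂ (Set.range
            fun p : Fin (n + 1) × Fin (n + 1) => v p.1 * star (v p.2))) :=
          FiniteDimensional.span_of_finite ℂ (Set.finite_range _)
        refine Submodule.finiteDimensional_of_le (S₂ := Submodule.span ℂ (Set.range
            fun p : Fin (n + 1) × Fin (n + 1) => v p.1 * star (v p.2))) (Submodule.span_le.2 ?_)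
        rintro _ ⟨a, ha, rfl⟩
        rw [← h1 a ha, hf, sum_mul, sum_mul]
        refine Submodule.sum_mem _ fun i hi => ?_
        rw [mul_sum]
        refine Submodule.sum_mem _ fun j hj => ?_
        obtain ⟨c, hc⟩ := min_all M heM he hm (a := star (v i) * a * v j)
          (mul_mem (mul_mem (star_mem (vM i)) ha) (vM j))
        have : v i * star (v i) * a * (v j * star (v j)) = c • (v i * star (v j)) := by
          calc v i * star (v i) * a * (v j * star (v j))
              = v i * (e * star (v i) * a * (v j * e)) * star (v j) := by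
                rw [ev, ve]; simp only [mul_assoc]
            _ = v i * (e * (star (v i) * a * v j) * e) * star (v j) := by simp only [mul_assoc]
            _ = _ := by rw [hc, mul_smul_comm, ve, smul_mul_assoc]
        rw [this]
        exact Submodule.smul_mem _ _ (Submodule.subset_span
          ⟨(⟨i, mem_range.1 hi⟩, ⟨j, mem_range.1 hj⟩), rfl⟩)
      have := fv 0 (by omega)
      rw [h3, zero_mul, v0] at this
      exact he0 this.symm
    · push Not at h
      obtain ⟨x, hx, hy⟩ := h
      set y := (1 - f) * x * e with hy'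
      have yM : y ∈ M := mul_mem (mul_mem (sub_mem (one_mem _) fM) hx) heM
      have ye : y * e = y := by rw [hy', mul_assoc, h0]
      have ey : e * star y = star y := by
        have := congrArg star ye; rwa [star_mul, hs] at this
      obtain ⟨c, hc⟩ := min_all M heM he hm (a := star y * y) (mul_mem (star_mem yM) yM)
      rw [← mul_assoc, ey, mul_assoc, ye] at hc
      obtain ⟨ξ, hξ⟩ : ∃ ξ, y ξ ≠ 0 := by
        by_contra h; push Not at h; exact hy (by ext ξ; simpa using h ξ)
      have h1 : ((‖y ξ‖ ^ 2 : ℝ) : ℂ) = c * ((‖e ξ‖ ^ 2 : ℝ) : ℂ) := by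
        have a1 : ⟪y ξ, y ξ⟫_ℂ = ⟪ξ, (star y * y) ξ⟫_ℂ := ssym' _ _ _
        have a2 : ⟪e ξ, e ξ⟫_ℂ = ⟪ξ, e ξ⟫_ℂ := by
          rw [psym he]; exact congrArg (fun T : H →L[ℂ] H => ⟪ξ, T ξ⟫_ℂ) h0
        rw [hc, ContinuousLinearMap.smul_apply, inner_smul_right, ← a2, inner_self_eq_norm_sq_to_K,
          inner_self_eq_norm_sq_to_K] at a1
        push_cast; exact a1
      have hy0 : 0 < ‖y ξ‖ := norm_pos_iff.2 hξ
      have he1 : 0 < ‖e ξ‖ := by
        rw [norm_pos_iff]; intro h
        apply hξ
        rw [← ye]; change y (e ξ) = 0; rw [h, map_zero]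
      set s : ℝ := ‖e ξ‖ / ‖y ξ‖ with hs'
      have hsc : (s : ℂ) * s * c = 1 := by
        have : (‖y ξ‖ : ℂ) ≠ 0 := by exact_mod_cast hy0.ne'
        push_cast at h1
        rw [hs']; push_cast; field_simp; rw [h1]; ring
      have vy : ∀ i ≤ n, star (v i) * y = 0 := by
        intro i hi
        have := congrArg star (fv i hi)
        rw [star_mul, fs] at this
        rw [hy', ← mul_assoc, ← mul_assoc, mul_sub, this, mul_one, sub_self, zero_mul, zero_mul]
      refine ⟨Function.update v (n + 1) ((s : ℂ) • y), ?_, ?_, ?_, ?_, ?_⟩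
      · rw [Function.update_of_ne (by omega), v0]
      · intro i
        rcases eq_or_ne i (n + 1) with rfl | h
        · rw [Function.update_self]; exact smul_mem' M _ yM
        · rw [Function.update_of_ne h]; exact vM i
      · intro i
        rcases eq_or_ne i (n + 1) with rfl | h
        · rw [Function.update_self, smul_mul_assoc, ye]
        · rw [Function.update_of_ne h]; exact ve i
      · intro i hi
        rcases eq_or_ne i (n + 1) with rfl | h
        · rw [Function.update_self, star_smul, smul_mul_smul_comm, hc, smul_smul]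
          simp [hsc]
        · rw [Function.update_of_ne h]; exact v1 i (by omega)
      · intro i hi j hj hij
        rcases eq_or_ne i (n + 1) with rfl | h
        · rw [Function.update_self, Function.update_of_ne hij.symm, star_smul, smul_mul_assoc]
          have := congrArg star (vy j (by omega))
          rw [star_mul, star_star, star_zero] at this
          rw [this, smul_zero]
        · rw [Function.update_of_ne h]
          rcases eq_or_ne j (n + 1) with rfl | h'
          · rw [Function.update_self, mul_smul_comm, vy i (by omega), smul_zero]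
          · rw [Function.update_of_ne h']; exact v2 i (by omega) j (by omega) hij

/-- mass of an operator on a finite set of vectors -/
noncomputable def ψ (F : Finset H) (q : H →L[ℂ] H) : ℝ := ∑ η ∈ F, ‖q η‖ ^ 2

theorem ψ_nonneg (F : Finset H) (q : H →L[ℂ] H) : 0 ≤ ψ F q := sum_nonneg fun _ _ => by positivity

theorem ψ_add (F : Finset H) {a b : H →L[ℂ] H} (h : star a * b = 0) :
    ψ F (a + b) = ψ F a + ψ F b := by
  simp only [ψ, pyth h, sum_add_distrib]

theorem ψ_le (F : Finset H) {q : H →L[ℂ] H} (hq : IsStarProjection q) : ψ F q ≤ ψ F 1 :=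
  sum_le_sum fun η _ => pow_le_pow_left₀ (norm_nonneg _) (ple hq η) 2

theorem le_ψ {F : Finset H} (q : H →L[ℂ] H) {η : H} (h : η ∈ F) : ‖q η‖ ^ 2 ≤ ψ F q :=
  single_le_sum (f := fun η => ‖q η‖ ^ 2) (fun _ _ => by positivity) h

theorem osum {ι : Type*} [DecidableEq ι] (F : Finset H) (q : ι → H →L[ℂ] H) (T : Finset ι)
    (hq : ∀ i ∈ T, IsStarProjection (q i)) (ho : ∀ i ∈ T, ∀ j ∈ T, i ≠ j → q i * q j = 0) :
    IsStarProjection (∑ i ∈ T, q i) ∧ ψ F (∑ i ∈ T, q i) = ∑ i ∈ T, ψ F (q i) := by
  induction T using Finset.induction_on with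
  | empty => exact ⟨by simpa using IsStarProjection.zero _, by simp [ψ]⟩
  | insert a T ha ih =>
    obtain ⟨h1, h2⟩ := ih (fun i hi => hq i (mem_insert_of_mem hi))
      (fun i hi j hj => ho i (mem_insert_of_mem hi) j (mem_insert_of_mem hj))
    have h3 : q a * ∑ i ∈ T, q i = 0 := by
      rw [mul_sum]
      exact sum_eq_zero fun i hi => ho a (mem_insert_self _ _) i (mem_insert_of_mem hi)
        (by rintro rfl; exact ha hi)
    have h4 := hq a (mem_insert_self _ _)
    rw [sum_insert ha, sum_insert ha, ψ_add F (by rw [h4.isSelfAdjoint.star_eq, h3]), h2]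
    exact ⟨h4.add h1 h3, rfl⟩

theorem min_SS (hM : NoFD M) {e : H →L[ℂ] H} (heM : e ∈ M) (he : IsStarProjection e)
    (hm : MinP M e) (t s : ℝ) (hts : t ^ 2 + s ^ 2 = 1) : 1 - e + (t : ℂ) • e ∈ SS M := by
  classical
  rcases eq_or_ne e 0 with rfl | he0
  · simpa using UU_sub M ⟨one_mem _, one_mem _⟩
  have h0 := he.isIdempotentElem.eq
  have hs := he.isSelfAdjoint.star_eq
  refine SS_of M fun F ε hε => ?_
  set C := ∑ η ∈ F, ‖η‖ with hC
  have hC0 : 0 ≤ C := by positivity
  set γ := ε / (4 * C + 1) with hγ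
  have hγ0 : 0 < γ := by positivity
  obtain ⟨n, hn⟩ := exists_nat_gt (ψ F 1 / γ ^ 2)
  obtain ⟨v, v0, vM, ve, v1, v2⟩ := copies M hM heM he he0 hm (n + 1)
  have hp : ∀ i ≤ n + 1, IsStarProjection (v i * star (v i)) := fun i hi => pi_proj (v1 i hi) (ve i)
  obtain ⟨o1, o2⟩ := osum F (fun i => v (i + 1) * star (v (i + 1))) (range (n + 1))
    (fun i hi => hp _ (by have := mem_range.1 hi; omega)) (fun i hi j hj hij => by
      have := mem_range.1 hi
      have := mem_range.1 hj
      rw [mul_assoc, ← mul_assoc (star _), v2 _ (by omega) _ (by omega) (by omega), zero_mul,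
        mul_zero])
  obtain ⟨k, hk, hk'⟩ : ∃ k ∈ range (n + 1), ψ F (v (k + 1) * star (v (k + 1))) < γ ^ 2 := by
    by_contra h
    push Not at h
    have h1 := sum_le_sum h
    rw [← o2, sum_const, card_range, nsmul_eq_mul] at h1
    have h2 := ψ_le F o1
    rw [div_lt_iff₀ (by positivity)] at hn
    push_cast at h1
    nlinarith [sq_nonneg γ]
  have hk1 : k + 1 ≤ n + 1 := by have := mem_range.1 hk; omega
  set w := v (k + 1) with hw
  have w1 : star w * w = e := v1 _ hk1
  have we : w * e = w := ve _
  have ew : e * w = 0 := by have := v2 0 (by omega) _ hk1 (by omega); rwa [v0, hs] at this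
  have ew' : e * star w = star w := by have := congrArg star we; rwa [star_mul, hs] at this
  have we' : star w * e = 0 := by
    have := congrArg star ew; rwa [star_mul, hs, star_zero] at this
  have ww : w * w = 0 := by rw [← we, mul_assoc, ← mul_assoc e w, ew]; simp
  have ww' : star w * star w = 0 := by rw [← star_mul, ww, star_zero]
  have hf := hp _ hk1
  rw [← hw] at hf
  have hg : IsStarProjection (e + w * star w) := he.add hf (by rw [← mul_assoc, ew, zero_mul])
  have hu := rot hg (j := w - star w) (by simp) (by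
      simp only [add_mul, mul_sub, mul_assoc, ew, ew', w1, ww', we]; simp) (by
      simp only [mul_add, sub_mul, ← mul_assoc, we, we', w1, ww, ew']; simp [sub_eq_add_neg]) (by
      simp only [mul_sub, sub_mul, ww, ww', w1]; abel) t s hts
  refine ⟨_, UU_sub M ⟨?_, hu⟩, fun ξ hξ η hη => ?_⟩
  · have a1 : e + w * star w ∈ M := add_mem heM (mul_mem (vM _) (star_mem (vM _)))
    exact add_mem (add_mem (sub_mem (one_mem _) a1) (smul_mem' M _ a1))
      (smul_mem' M _ (sub_mem (vM _) (star_mem (vM _))))
  · have nw : ‖star w‖ ≤ 1 := by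
      have := CStarRing.norm_star_mul_self (x := w)
      rw [w1] at this
      rw [norm_star]
      nlinarith [he.norm_le, norm_nonneg w]
    have sm : ∀ ζ ∈ F, ‖(w * star w) ζ‖ ≤ γ ∧ ‖star w ζ‖ ≤ γ := by
      intro ζ hζ
      have a1 : ‖(w * star w) ζ‖ ≤ γ :=
        abs_le_of_sq_le_sq' ((le_ψ _ hζ).trans hk'.le) hγ0.le |>.2
      refine ⟨a1, ?_⟩
      have a2 : star w ζ = star w ((w * star w) ζ) := by
        change _ = (star w * (w * star w)) ζ
        rw [← mul_assoc, w1, ew']
      rw [a2]
      exact ((star w).le_opNorm _).trans ((mul_le_of_le_one_left (norm_nonneg _) nw).trans a1)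
    have nC : ∀ ζ ∈ F, ‖ζ‖ ≤ C := fun ζ h =>
      single_le_sum (f := fun η : H => ‖η‖) (fun _ _ => norm_nonneg _) h
    have e1 : ⟪ξ, (1 - (e + w * star w) + (t : ℂ) • (e + w * star w) + (s : ℂ) • (w - star w) -
        (1 - e + (t : ℂ) • e)) η⟫_ℂ = ((t : ℂ) - 1) * ⟪ξ, (w * star w) η⟫_ℂ +
        (s : ℂ) * (⟪star w ξ, η⟫_ℂ - ⟪ξ, star w η⟫_ℂ) := by
      rw [ssym]
      simp only [sub_apply, add_apply, smul_apply, inner_sub_right, inner_add_right,
        inner_smul_right]
      ring
    have b1 : ‖⟪ξ, (w * star w) η⟫_ℂ‖ ≤ C * γ := (norm_inner_le_norm _ _).trans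
      (mul_le_mul (nC ξ hξ) (sm η hη).1 (norm_nonneg _) hC0)
    have b2 : ‖⟪star w ξ, η⟫_ℂ‖ ≤ γ * C := (norm_inner_le_norm _ _).trans
      (mul_le_mul (sm ξ hξ).2 (nC η hη) (norm_nonneg _) hγ0.le)
    have b3 : ‖⟪ξ, star w η⟫_ℂ‖ ≤ C * γ := (norm_inner_le_norm _ _).trans
      (mul_le_mul (nC ξ hξ) (sm η hη).2 (norm_nonneg _) hC0)
    have t1 : ‖(t : ℂ) - 1‖ ≤ 2 := by
      refine (norm_sub_le _ _).trans ?_
      rw [Complex.norm_real, norm_one, Real.norm_eq_abs]
      have : |t| ≤ 1 := abs_le_one_iff_mul_self_le_one.2 (by nlinarith)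
      linarith
    have s1 : ‖(s : ℂ)‖ ≤ 1 := by
      rw [Complex.norm_real, Real.norm_eq_abs]
      exact abs_le_one_iff_mul_self_le_one.2 (by nlinarith)
    rw [e1]
    refine (norm_add_le _ _).trans_lt ?_
    rw [norm_mul, norm_mul]
    have b4 := (norm_sub_le _ _).trans (add_le_add b2 b3)
    have c1 := mul_le_mul t1 b1 (norm_nonneg _) (by norm_num)
    have c2 := mul_le_mul s1 b4 (norm_nonneg _) (by norm_num)
    have : γ * (4 * C + 1) = ε := by rw [hγ]; field_simp
    nlinarith

end Pool.Agent.H86.Wu
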