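import Pool.Agent.H86.WuC

set_option linter.unusedSectionVars false
set_option linter.deprecated false

namespace Pool.Agent.H86.Wu
open Filter Topology Finset
open scoped InnerProductSpace

variable {H : Type*} [NormedAddCommGroup H] [InnerProductSpace ℂ H] [CompleteSpace H]
variable (M : VonNeumannAlgebra H)

theorem sub_facts {p e : H →L[ℂ] H} (hp : IsStarProjection p) (he : IsStarProjection e)
    (h : p * e = e) : IsStarProjection (p - e) ∧ e * p = e ∧ p * (p - e) = p - e ∧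
      e * (p - e) = 0 ∧ (p - e) * e = 0 := by
  have h' := stareq hp.isSelfAdjoint he.isSelfAdjoint he.isSelfAdjoint h
  refine ⟨he.sub_of_mul_eq_right hp h, h', ?_, ?_, ?_⟩
  · rw [mul_sub, hp.isIdempotentElem.eq, h]
  · rw [mul_sub, he.isIdempotentElem.eq, h', sub_self]
  · rw [sub_mul, he.isIdempotentElem.eq, h, sub_self]

theorem piece (F : Finset H) {δ : ℝ} (hδ : 0 < δ) {q : H →L[ℂ] H} (hqM : q ∈ M)
    (hq : IsStarProjection q) (hq0 : q ≠ 0) :
    ∃ r ∈ M, IsStarProjection r ∧ r ≠ 0 ∧ q * r = r ∧ (MinP M r ∨ ψ F r ≤ δ) := by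
  have key : ∀ n : ℕ, ∃ r ∈ M, IsStarProjection r ∧ r ≠ 0 ∧ q * r = r ∧
      (MinP M r ∨ ψ F r ≤ ψ F 1 / 2 ^ n) := by
    intro n
    induction n with
    | zero => exact ⟨q, hqM, hq, hq0, hq.isIdempotentElem.eq, Or.inr (by simpa using ψ_le F hq)⟩
    | succ n ih =>
      obtain ⟨r, rM, hr, r0, qr, h⟩ := ih
      by_cases hm : MinP M r
      · exact ⟨r, rM, hr, r0, qr, Or.inl hm⟩
      have h := h.resolve_left hm
      simp only [MinP, not_forall, not_or] at hm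
      obtain ⟨f, fM, hf, rf, f0, fr⟩ := hm
      obtain ⟨a1, a2, a3, a4, a5⟩ := sub_facts hr hf rf
      have e : ψ F r = ψ F f + ψ F (r - f) := by
        rw [← ψ_add F (by rw [hf.isSelfAdjoint.star_eq, a4]), add_sub_cancel]
      have e0 : ψ F 1 / 2 ^ (n + 1) = ψ F 1 / 2 ^ n / 2 := by rw [pow_succ, div_div]
      rcases le_total (ψ F f) (ψ F (r - f)) with h1 | h1
      · exact ⟨f, fM, hf, f0, by rw [← rf, ← mul_assoc, qr], Or.inr (by rw [e0]; linarith)⟩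
      · exact ⟨r - f, sub_mem rM fM, a1, sub_ne_zero.2 (Ne.symm fr), by rw [← a3, ← mul_assoc, qr],
          Or.inr (by rw [e0]; linarith)⟩
  obtain ⟨n, hn⟩ := ((tendsto_const_nhds (x := ψ F 1)).div_atTop
    (tendsto_pow_atTop_atTop_of_one_lt (one_lt_two (α := ℝ)))).eventually_le_const hδ |>.exists
  obtain ⟨r, rM, hr, r0, qr, h⟩ := key n
  exact ⟨r, rM, hr, r0, qr, h.imp_right fun h => h.trans hn⟩

/-- exhaustion by a maximal orthogonal family -/
theorem exhaust (G : (H →L[ℂ] H) → Prop) {p : H →L[ℂ] H} (hpM : p ∈ M) (hp : IsStarProjection p)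
    (hG : ∀ q ∈ M, IsStarProjection q → q ≠ 0 → ∃ r ∈ M, IsStarProjection r ∧ r ≠ 0 ∧ q * r = r ∧ G r) :
    ∃ P : Set (H →L[ℂ] H), (∀ r ∈ P, r ∈ M ∧ IsStarProjection r ∧ r ≠ 0 ∧ p * r = r ∧ G r) ∧
      P.Pairwise (fun a b => a * b = 0) ∧
      ∀ η, p η ∈ (⨆ r ∈ P, LinearMap.range (r : H →ₗ[ℂ] H)).topologicalClosure := by
  obtain ⟨P, hP⟩ := zorn_subset {P : Set (H →L[ℂ] H) |
      (∀ r ∈ P, r ∈ M ∧ IsStarProjection r ∧ r ≠ 0 ∧ p * r = r ∧ G r) ∧
      P.Pairwise (fun a b => a * b = 0)} (fun c hc hch => ⟨⋃₀ c, ⟨fun r ⟨s, hs, hr⟩ =>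
        (hc hs).1 r hr, fun a ⟨s, hs, ha⟩ b ⟨t, ht, hb⟩ hab => by
          rcases hch.total hs ht with h | h
          · exact (hc ht).2 (h ha) hb hab
          · exact (hc hs).2 ha (h hb) hab⟩, fun s hs => Set.subset_sUnion_of_mem hs⟩)
  obtain ⟨P1, P2⟩ := hP.prop
  refine ⟨P, P1, P2, ?_⟩
  set K := ⨆ r ∈ P, LinearMap.range (r : H →ₗ[ℂ] H) with hK
  have hKle : ∀ (L : Submodule ℂ H), (∀ r ∈ P, ∀ ξ, r ξ ∈ L) → K ≤ L := fun L h =>
    iSup₂_le fun r hr => by rintro _ ⟨ξ, rfl⟩; exact h r hr ξ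
  have hrK : ∀ r ∈ P, ∀ ξ, r ξ ∈ K := fun r hr ξ =>
    (le_iSup₂ (f := fun r (_ : r ∈ P) => LinearMap.range (r : H →ₗ[ℂ] H)) r hr) ⟨ξ, rfl⟩
  obtain ⟨e, eM, he, e1, e2⟩ := exProj M K (fun y hy => hKle (K.comap (y : H →ₗ[ℂ] H))
    fun r hr ξ => by
      have := congrArg (fun T : H →L[ℂ] H => T ξ) (comm_of_mem M (P1 r hr).1 hy).eq
      change y (r ξ) ∈ K
      exact (show r (y ξ) = y (r ξ) from this) ▸ hrK r hr _)
  have pe : p * e = e := by
    ext ξ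
    have : K.topologicalClosure ≤ LinearMap.ker ((p - 1 : H →L[ℂ] H) : H →ₗ[ℂ] H) := by
      refine Submodule.topologicalClosure_minimal _ (hKle _ fun r hr ξ => ?_) (p - 1).isClosed_ker
      have := congrArg (fun T : H →L[ℂ] H => T ξ) (P1 r hr).2.2.2.1
      simpa [sub_eq_zero] using this
    simpa [sub_eq_zero] using this (e1 ξ)
  obtain ⟨a1, a2, a3, a4, a5⟩ := sub_facts hp he pe
  by_cases h0 : p - e = 0
  · intro η; rw [sub_eq_zero] at h0; rw [h0]; exact e1 η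
  exfalso
  obtain ⟨r, rM, hr, r0, qr, hGr⟩ := hG _ (sub_mem hpM eM) a1 h0
  have er : ∀ s ∈ P, s * r = 0 := by
    intro s hs
    have es : e * s = s := by ext ξ; exact e2 _ (Submodule.le_topologicalClosure _ (hrK s hs ξ))
    have := stareq he.isSelfAdjoint (P1 s hs).2.1.isSelfAdjoint (P1 s hs).2.1.isSelfAdjoint es
    rw [← this, ← qr, mul_assoc, ← mul_assoc e, a4, zero_mul, mul_zero]
  have hin : insert r P ⊆ P := hP.2 ⟨by
      rintro s (rfl | hs)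
      · exact ⟨rM, hr, r0, by rw [← qr, ← mul_assoc, a3], hGr⟩
      · exact P1 s hs, P2.insert fun s hs _ => ⟨stareq (P1 s hs).2.1.isSelfAdjoint hr.isSelfAdjoint
        (IsSelfAdjoint.zero _) (er s hs), er s hs⟩⟩ (Set.subset_insert _ _)
  have := er r (hin (Set.mem_insert _ _))
  rw [hr.isIdempotentElem.eq] at this
  exact r0 this

theorem fin_approx {P : Set (H →L[ℂ] H)} (P1 : ∀ r ∈ P, IsStarProjection r)
    (P2 : P.Pairwise (fun a b => a * b = 0)) (ζ : H)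
    (hζ : ζ ∈ (⨆ r ∈ P, LinearMap.range (r : H →ₗ[ℂ] H))) :
    ∃ T : Finset (H →L[ℂ] H), ↑T ⊆ P ∧ ∀ T' : Finset (H →L[ℂ] H), ↑T' ⊆ P → T ⊆ T' →
      (∑ r ∈ T', r) ζ = ζ := by
  classical
  rw [iSup_subtype'] at hζ
  induction hζ using Submodule.iSup_induction' with
  | mem r _ h =>
    obtain ⟨ξ, rfl⟩ := h
    refine ⟨{r.1}, by simpa using r.2, fun T' h1 h2 => ?_⟩
    change ((∑ r ∈ T', r) * r.1) ξ = r.1 ξ
    rw [sum_mul, sum_eq_single r.1, (P1 _ r.2).isIdempotentElem.eq]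
    · exact fun b hb hbr => P2 (h1 hb) r.2 hbr
    · exact fun h => absurd (h2 (mem_singleton_self _)) h
  | zero => exact ⟨∅, by simp, fun _ _ _ => map_zero _⟩
  | add x y _ _ hx hy =>
    obtain ⟨T1, a1, b1⟩ := hx
    obtain ⟨T2, a2, b2⟩ := hy
    refine ⟨T1 ∪ T2, by rw [coe_union]; exact Set.union_subset a1 a2, fun T' h1 h2 => ?_⟩
    rw [map_add, b1 T' h1 (subset_union_left.trans h2), b2 T' h1 (subset_union_right.trans h2)]

noncomputable def EE (F : Finset H) (j : H →L[ℂ] H) : ℝ := ∑ ξ ∈ F, ∑ η ∈ F, ‖⟪ξ, j η⟫_ℂ‖ ^ 2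

theorem EE_par (F : Finset H) (a b : H →L[ℂ] H) :
    EE F (a + b) + EE F (a - b) = 2 * EE F a + 2 * EE F b := by
  simp only [EE, mul_sum, ← sum_add_distrib, add_apply, sub_apply, inner_add_right,
    inner_sub_right]
  refine sum_congr rfl fun ξ _ => sum_congr rfl fun η _ => ?_
  have := parallelogram_law_with_norm ℂ ⟪ξ, a η⟫_ℂ ⟪ξ, b η⟫_ℂ
  nlinarith

theorem EE_proj (F : Finset H) {q : H →L[ℂ] H} (hq : IsStarProjection q) (c : ℂ) (hc : ‖c‖ ≤ 1) :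
    EE F (c • q) ≤ ψ F q * ψ F q := by
  rw [EE, ψ, sum_mul_sum]
  refine sum_le_sum fun ξ _ => sum_le_sum fun η _ => ?_
  rw [← mul_pow]
  refine pow_le_pow_left₀ (norm_nonneg _) ?_ 2
  have : ⟪ξ, q η⟫_ℂ = ⟪q ξ, q η⟫_ℂ := by
    rw [psym hq]; exact congrArg (fun T : H →L[ℂ] H => ⟪ξ, T η⟫_ℂ) hq.isIdempotentElem.eq.symm
  rw [smul_apply, inner_smul_right, norm_mul, this]
  exact (mul_le_of_le_one_left (norm_nonneg _) hc).trans (norm_inner_le_norm _ _)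

theorem build (hM : NoFD M) (F : Finset H) {δ : ℝ} (hδ : 0 ≤ δ) (t s : ℝ) (hts : t ^ 2 + s ^ 2 = 1)
    (T : Finset (H →L[ℂ] H)) (h1 : ∀ r ∈ T, r ∈ M ∧ IsStarProjection r ∧ (MinP M r ∨ ψ F r ≤ δ))
    (h2 : ∀ a ∈ T, ∀ b ∈ T, a ≠ b → a * b = 0) :
    ∃ j : H →L[ℂ] H, 1 - (∑ r ∈ T, r) + (t : ℂ) • (∑ r ∈ T, r) + j ∈ SS M ∧
      j * (∑ r ∈ T, r) = j ∧ EE F j ≤ δ * ∑ r ∈ T, ψ F r := by
  classical
  induction T using Finset.induction_on with
  | empty => exact ⟨0, by simpa using UU_sub M ⟨one_mem _, one_mem _⟩, by simp, by simp [EE]⟩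
  | insert q T hq ih =>
    obtain ⟨j, j1, j2, j3⟩ := ih (fun i hi => h1 i (mem_insert_of_mem hi))
      (fun i hi j hj => h2 i (mem_insert_of_mem hi) j (mem_insert_of_mem hj))
    obtain ⟨qM, qp, hq'⟩ := h1 q (mem_insert_self _ _)
    set g := ∑ r ∈ T, r with hg
    have gq : g * q = 0 := by
      rw [hg, sum_mul]
      exact sum_eq_zero fun i hi => h2 i (mem_insert_of_mem hi) q (mem_insert_self _ _)
        (by rintro rfl; exact hq hi)
    have qg : q * g = 0 := by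
      rw [hg, mul_sum]
      exact sum_eq_zero fun i hi => h2 q (mem_insert_self _ _) i (mem_insert_of_mem hi)
        (by rintro rfl; exact hq hi)
    have jq : j * q = 0 := by rw [← j2, mul_assoc, gq, mul_zero]
    have qq := qp.isIdempotentElem.eq
    have main : ∀ c : ℂ, 1 - q + (t : ℂ) • q + c • q ∈ SS M →
        1 - (q + g) + (t : ℂ) • (q + g) + (j + c • q) ∈ SS M ∧ (j + c • q) * (q + g) = j + c • q := by
      intro c hc
      refine ⟨?_, ?_⟩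
      · have := SS_mul M j1 hc
        simp only [mul_add, add_mul, mul_sub, sub_mul, mul_one, one_mul, smul_mul_assoc,
          mul_smul_comm, gq, jq] at this
        convert this using 1
        module
      · simp only [mul_add, add_mul, smul_mul_assoc, jq, j2, qq, qg]; simp [add_comm]
    rw [sum_insert hq, sum_insert hq, ← hg]
    have ψ0 := ψ_nonneg F q
    rcases hq' with hm | hm
    · have := main 0 (by simpa using min_SS M hM qM qp hm t s hts)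
      exact ⟨_, this.1, this.2, by rw [zero_smul, add_zero]; nlinarith⟩
    · have hu : ∀ s : ℝ, t ^ 2 + s ^ 2 = 1 →
          1 - q + (t : ℂ) • q + ((s : ℂ) * Complex.I) • q ∈ SS M := by
        intro s hts
        have := rot qp (j := Complex.I • q) (by simp [qp.isSelfAdjoint.star_eq])
          (by rw [mul_smul_comm, qq]) (by rw [smul_mul_assoc, qq])
          (by rw [smul_mul_smul_comm, qq]; simp) t s hts
        rw [smul_smul] at this
        exact UU_sub M ⟨add_mem (add_mem (sub_mem (one_mem _) qM) (smul_mem' M _ qM))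
          (smul_mem' M _ qM), this⟩
      have a1 := main _ (hu s hts)
      have a2 := main _ (hu (-s) (by rw [neg_sq]; exact hts))
      have a3 := EE_par F j (((s : ℂ) * Complex.I) • q)
      have a4 := EE_proj F qp ((s : ℂ) * Complex.I) (by
        rw [norm_mul, Complex.norm_I, mul_one, Complex.norm_real, Real.norm_eq_abs]
        exact abs_le_one_iff_mul_self_le_one.2 (by nlinarith))
      have a5 : j + (((-s : ℝ) : ℂ) * Complex.I) • q = j - ((s : ℂ) * Complex.I) • q := by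
        push_cast; module
      rw [a5] at a2
      rcases le_total (EE F (j + ((s : ℂ) * Complex.I) • q)) (EE F (j - ((s : ℂ) * Complex.I) • q))
        with h | h
      · exact ⟨_, a1.1, a1.2, by nlinarith⟩
      · exact ⟨_, a2.1, a2.2, by nlinarith⟩

theorem proj_SS (hM : NoFD M) {p : H →L[ℂ] H} (hpM : p ∈ M) (hp : IsStarProjection p)
    (t : ℝ) (ht : |t| ≤ 1) : 1 - p + (t : ℂ) • p ∈ SS M := by
  classical
  have hts : t ^ 2 + √(1 - t ^ 2) ^ 2 = 1 := by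
    rw [Real.sq_sqrt (by nlinarith [abs_le.1 ht])]; ring
  refine SS_of M fun F ε hε => ?_
  set C := ∑ η ∈ F, ‖η‖ with hC
  have hC0 : 0 ≤ C := by positivity
  have nC : ∀ ζ ∈ F, ‖ζ‖ ≤ C := fun ζ h =>
    single_le_sum (f := fun η : H => ‖η‖) (fun _ _ => norm_nonneg _) h
  set γ := ε / (2 * C + 2) with hγ
  have hγ0 : 0 < γ := by positivity
  have ψ1 := ψ_nonneg F 1
  set δ := γ ^ 2 / (ψ F 1 + 1) with hδ
  have hδ0 : 0 < δ := by positivity
  obtain ⟨P, P1, P2, P3⟩ := exhaust M (fun r => MinP M r ∨ ψ F r ≤ δ) hpM hp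
    fun q qM hq q0 => piece M F hδ0 qM hq q0
  have h1 : ∀ η, ∃ T : Finset (H →L[ℂ] H), ↑T ⊆ P ∧ ∃ ζ, ‖p η - ζ‖ < γ ∧
      ∀ T' : Finset (H →L[ℂ] H), ↑T' ⊆ P → T ⊆ T' → (∑ r ∈ T', r) ζ = ζ := by
    intro η
    obtain ⟨ζ, hζ, hd⟩ := Metric.mem_closure_iff.1 (P3 η) γ hγ0
    obtain ⟨T, a, b⟩ := fin_approx (fun r hr => (P1 r hr).2.1) P2 ζ hζ
    exact ⟨T, a, ζ, by rwa [← dist_eq_norm], b⟩
  choose T0 hT0 ζ hζ hTζ using h1
  set T := F.biUnion T0 with hT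
  have hTP : ↑T ⊆ P := by
    intro r hr
    obtain ⟨η, -, h⟩ := mem_biUnion.1 hr
    exact hT0 η h
  have ho : ∀ a ∈ T, ∀ b ∈ T, a ≠ b → a * b = 0 := fun a ha b hb hab => P2 (hTP ha) (hTP hb) hab
  obtain ⟨j, j1, -, j3⟩ := build M hM F hδ0.le t _ hts T
    (fun r hr => ⟨(P1 r (hTP hr)).1, (P1 r (hTP hr)).2.1, (P1 r (hTP hr)).2.2.2.2⟩) ho
  obtain ⟨o1, o2⟩ := osum F (fun r => r) T (fun r hr => (P1 r (hTP hr)).2.1) ho
  set g := ∑ r ∈ T, r with hg
  have pg : p * g = g := by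
    rw [hg, mul_sum]; exact sum_congr rfl fun r hr => (P1 r (hTP hr)).2.2.2.1
  have gp := (sub_facts hp o1 pg).2.1
  refine ⟨_, j1, fun ξ hξ η hη => ?_⟩
  have b1 : ‖(p - g) η‖ < γ := by
    have a1 : g (ζ η) = ζ η := hTζ η T hTP (subset_biUnion_of_mem T0 hη)
    have a2 : g (p η) = g η := congrArg (fun T : H →L[ℂ] H => T η) gp
    have : (p - g) η = (1 - g) (p η - ζ η) := by simp [a1, a2]
    rw [this]; exact (ple o1.one_sub _).trans_lt (hζ η)
  have b2 : ‖⟪ξ, j η⟫_ℂ‖ ≤ γ := by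
    have a1 : ‖⟪ξ, j η⟫_ℂ‖ ^ 2 ≤ EE F j :=
      (single_le_sum (f := fun η => ‖⟪ξ, j η⟫_ℂ‖ ^ 2) (fun _ _ => by positivity) hη).trans
        (single_le_sum (f := fun ξ => ∑ η ∈ F, ‖⟪ξ, j η⟫_ℂ‖ ^ 2) (fun _ _ => by positivity) hξ)
    have a2 := ψ_le F o1
    have a3 : δ * (ψ F 1 + 1) = γ ^ 2 := by rw [hδ]; field_simp
    rw [← o2] at j3
    exact abs_le_of_sq_le_sq' (by nlinarith) hγ0.le |>.2
  have e1 : ⟪ξ, (1 - g + (t : ℂ) • g + j - (1 - p + (t : ℂ) • p)) η⟫_ℂ =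
      (1 - (t : ℂ)) * ⟪ξ, (p - g) η⟫_ℂ + ⟪ξ, j η⟫_ℂ := by
    simp only [sub_apply, add_apply, smul_apply, inner_sub_right, inner_add_right,
      inner_smul_right]
    ring
  have t1 : ‖1 - (t : ℂ)‖ ≤ 2 := by
    refine (norm_sub_le _ _).trans ?_
    rw [Complex.norm_real, norm_one, Real.norm_eq_abs]
    linarith
  have b3 : ‖⟪ξ, (p - g) η⟫_ℂ‖ ≤ C * γ := (norm_inner_le_norm _ _).trans
    (mul_le_mul (nC ξ hξ) b1.le (norm_nonneg _) hC0)
  rw [e1]
  refine (norm_add_le _ _).trans_lt ?_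
  rw [norm_mul]
  have c1 := mul_le_mul t1 b3 (norm_nonneg _) (by norm_num)
  have : γ * (2 * C + 2) = ε := by rw [hγ]; field_simp
  nlinarith

end Pool.Agent.H86.Wu
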