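import Mathlib

namespace Pool.Agent.H86.Wu

variable {H : Type*} [NormedAddCommGroup H] [InnerProductSpace ℂ H] [CompleteSpace H]

/-- The closed unit ball of a von Neumann algebra. -/
def Ball (M : VonNeumannAlgebra H) : Type _ := {x : H →L[ℂ] H // x ∈ M ∧ ‖x‖ ≤ 1}

/-- The weak operator topology on the unit ball: the coarsest topology making all
`x ↦ ⟪ξ, x η⟫` continuous (on the ball it is the weak* = σ-weak topology). -/
noncomputable instance wot (M : VonNeumannAlgebra H) : TopologicalSpace (Ball M) :=
  TopologicalSpace.induced (fun (x : Ball M) (p : H × H) => inner ℂ p.1 (x.1 p.2)) inferInstance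

/-- Property (R): the non-unitary elements of the unit ball form a set of first category. -/
def PropR (M : VonNeumannAlgebra H) : Prop :=
  IsMeagre {x : Ball M | x.1 ∉ unitary (H →L[ℂ] H)}

/-- σ-finite (countably decomposable): every set of nonzero mutually orthogonal projections
of `M` is countable. -/
def SigmaFin (M : VonNeumannAlgebra H) : Prop :=
  ∀ P : Set (H →L[ℂ] H), (∀ r ∈ P, r ∈ M ∧ IsStarProjection r ∧ r ≠ 0) →
    P.Pairwise (fun a b => a * b = 0) → P.Countable

/-- `M` has no nonzero finite-dimensional direct summand `M z`, `z` a central projection. -/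
def NoFinDimSummand (M : VonNeumannAlgebra H) : Prop :=
  ∀ z ∈ M, IsStarProjection z → (∀ a ∈ M, a * z = z * a) →
    FiniteDimensional ℂ (Submodule.span ℂ {x | ∃ a ∈ M, x = a * z}) → z = 0

end Pool.Agent.H86.Wu
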