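import Pool.Agent.H86.WuD

set_option linter.unusedSectionVars false
set_option linter.deprecated false

namespace Pool.Agent.H86.Wu
open Filter Topology Finset
open scoped InnerProductSpace

variable {H : Type*} [NormedAddCommGroup H] [InnerProductSpace ℂ H] [CompleteSpace H]
variable (M : VonNeumannAlgebra H)

theorem sa_app (hM : NoFD M) (n : ℕ) : ∀ (p a : H →L[ℂ] H) (c δ : ℝ), p ∈ M → IsStarProjection p →
    a ∈ M → IsSelfAdjoint a → a * p = a → ‖a - (c : ℂ) • p‖ ≤ δ → |c| + δ ≤ 1 →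
    ∃ y, y * p = y ∧ p * y = y ∧ 1 - p + y ∈ SS M ∧
      ∀ ξ, ‖(a - y) ξ‖ ^ 2 ≤ (δ / 2 ^ n) ^ 2 * ‖p ξ‖ ^ 2 := by
  induction n with
  | zero =>
    intro p a c δ pM hp aM ha ap h1 h2
    have hδ : 0 ≤ δ := (norm_nonneg _).trans h1
    have pp := hp.isIdempotentElem.eq
    refine ⟨(c : ℂ) • p, by rw [smul_mul_assoc, pp], by rw [mul_smul_comm, pp],
      proj_SS M hM pM hp c (by linarith), fun ξ => ?_⟩
    have : (a - (c : ℂ) • p) ξ = (a - (c : ℂ) • p) (p ξ) := by
      change _ = ((a - (c : ℂ) • p) * p) ξ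
      rw [sub_mul, ap, smul_mul_assoc, pp]
    rw [this, pow_zero, div_one, ← mul_pow]
    exact pow_le_pow_left₀ (norm_nonneg _) ((ContinuousLinearMap.le_opNorm _ _).trans
      (mul_le_mul_of_nonneg_right h1 (norm_nonneg _))) 2
  | succ n ih =>
    intro p a c δ pM hp aM ha ap h1 h2
    have hδ : 0 ≤ δ := (norm_nonneg _).trans h1
    have pp := hp.isIdempotentElem.eq
    have pa := stareq ha hp.isSelfAdjoint ha ap
    have hb : IsSelfAdjoint (a - (c : ℂ) • p) :=
      ha.sub (IsSelfAdjoint.smul (by simp [IsSelfAdjoint]) hp.isSelfAdjoint)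
    obtain ⟨e, eM, he, pe, k1, k2, k3⟩ := halve M hp (sub_mem aM (smul_mem' M _ pM)) hb
      (by rw [sub_mul, smul_mul_assoc, ap, pp]) h1
    obtain ⟨a1, a2, a3, a4, a5⟩ := sub_facts hp he pe
    have ea : e * a = a * e := by
      rw [mul_sub, sub_mul, mul_smul_comm, smul_mul_assoc, a2, pe, sub_left_inj] at k1; exact k1
    have fa : (p - e) * a = a * (p - e) := by rw [sub_mul, mul_sub, pa, ap, ea]
    have ee := he.isIdempotentElem.eq
    have ff := a1.isIdempotentElem.eq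
    obtain ⟨y1, b1, b2, b3, b4⟩ := ih e (a * e) (c + δ / 2) (δ / 2) eM he (mul_mem aM eM)
      (by rw [IsSelfAdjoint, star_mul, ha.star_eq, he.isSelfAdjoint.star_eq, ea])
      (by rw [mul_assoc, ee]) (le_of_eq_of_le (congrArg _ (by
        rw [sub_mul, smul_mul_assoc, pe]; push_cast; module)) k2)
      (by have := abs_add_le c (δ / 2); rw [abs_of_nonneg (by linarith : 0 ≤ δ / 2)] at this; linarith)
    obtain ⟨y2, c1, c2, c3, c4⟩ := ih (p - e) (a * (p - e)) (c - δ / 2) (δ / 2) (sub_mem pM eM) a1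
      (mul_mem aM (sub_mem pM eM))
      (by rw [IsSelfAdjoint, star_mul, ha.star_eq, a1.isSelfAdjoint.star_eq, fa])
      (by rw [mul_assoc, ff]) (le_of_eq_of_le (congrArg _ (by
        rw [sub_mul a, smul_mul_assoc, a3]; push_cast; module)) k3)
      (by have := abs_sub c (δ / 2); rw [abs_of_nonneg (by linarith : 0 ≤ δ / 2)] at this; linarith)
    have fp := stareq hp.isSelfAdjoint a1.isSelfAdjoint a1.isSelfAdjoint a3
    obtain ⟨f, hf⟩ : ∃ f, f = p - e := ⟨_, rfl⟩
    rw [← hf] at a3 a4 fa ff c1 c2 c3 c4 fp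
    have hpf : p = e + f := by rw [hf]; abel
    have d1 : y1 * f = 0 := by rw [← b1, mul_assoc, a4, mul_zero]
    have d2 : e * y2 = 0 := by rw [← c2, ← mul_assoc, a4, zero_mul]
    have d3 : y1 * y2 = 0 := by rw [← c2, ← mul_assoc, d1, zero_mul]
    refine ⟨y1 + y2, ?_, ?_, ?_, fun ξ => ?_⟩
    · rw [add_mul, ← b1, ← c1, mul_assoc, mul_assoc, a2, fp]
    · rw [mul_add, ← b2, ← c2, ← mul_assoc, ← mul_assoc, pe, a3]
    · have := SS_mul M b3 c3
      simp only [mul_add, add_mul, mul_sub, sub_mul, mul_one, one_mul, d1, d2, d3, a4] at this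
      convert this using 1
      rw [hpf]; abel
    · have e1 : a - (y1 + y2) = (a * e - y1) + (a * f - y2) := by
        have : a = a * e + a * f := by rw [← mul_add, ← hpf, ap]
        nth_rewrite 1 [this]; abel
      have e2 : e * (a * e - y1) = a * e - y1 := by rw [mul_sub, b2, ← mul_assoc, ea, mul_assoc, ee]
      have e3 : f * (a * f - y2) = a * f - y2 := by rw [mul_sub, c2, ← mul_assoc, fa, mul_assoc, ff]
      have e4 : star (a * e - y1) * (a * f - y2) = 0 := by
        rw [← e2, ← e3, star_mul, he.isSelfAdjoint.star_eq, mul_assoc, ← mul_assoc e, a4,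
          zero_mul, mul_zero]
      have e5 : ‖p ξ‖ ^ 2 = ‖e ξ‖ ^ 2 + ‖f ξ‖ ^ 2 := by
        rw [hpf]; exact pyth (by rw [he.isSelfAdjoint.star_eq, a4]) ξ
      have e6 : δ / 2 ^ (n + 1) = δ / 2 / 2 ^ n := by rw [pow_succ', div_div]
      rw [e1, pyth e4, e5, e6, mul_add]
      exact add_le_add (b4 ξ) (c4 ξ)

theorem SS_lim {x : H →L[ℂ] H} {C : ℝ} (h : ∀ n : ℕ, ∃ y ∈ SS M, ‖y - x‖ ≤ C / 2 ^ n) :
    x ∈ SS M := by
  choose y hy hy' using h
  refine (SS_closed M).mem_of_tendsto (f := y) (b := atTop) ?_ (Eventually.of_forall hy)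
  rw [tendsto_iff_norm_sub_tendsto_zero]
  exact squeeze_zero (fun _ => norm_nonneg _) hy'
    (tendsto_const_nhds.div_atTop (tendsto_pow_atTop_atTop_of_one_lt one_lt_two))

theorem sa_SS (hM : NoFD M) {a : H →L[ℂ] H} (aM : a ∈ M) (ha : IsSelfAdjoint a) (h : ‖a‖ ≤ 1) :
    a ∈ SS M := by
  refine SS_lim M (C := 1) fun n => ?_
  obtain ⟨y, -, -, h1, h2⟩ := sa_app M hM n 1 a 0 1 (one_mem _) (IsStarProjection.one _) aM ha
    (mul_one _) (by simpa using h) (by simp)
  refine ⟨y, by simpa using h1, ?_⟩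
  rw [norm_sub_rev]
  refine ContinuousLinearMap.opNorm_le_bound _ (by positivity) fun ξ => ?_
  have := h2 ξ
  rw [← mul_pow] at this
  exact abs_le_of_sq_le_sq' this (by positivity) |>.2

theorem inv_SS (hM : NoFD M) {y : H →L[ℂ] H} (yM : y ∈ M) (hy : IsUnit y) (h : ‖y‖ ≤ 1) :
    y ∈ SS M := by
  have hh : IsSelfAdjoint (star y * y) := IsSelfAdjoint.star_mul_self y
  set r := cfc Real.sqrt (star y * y) with hr
  have rs : IsSelfAdjoint r := cfc_predicate _ _
  have rM : r ∈ M := cfc_mem' M (mul_mem (star_mem yM) yM) _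
  have rr : r * r = star y * y := by
    rw [hr, ← cfc_mul _ _ (star y * y)]
    refine (cfc_congr fun x hx => ?_).trans (cfc_id' ℝ (star y * y))
    exact Real.mul_self_sqrt (spectrum_star_mul_self_nonneg x hx)
  have ru : IsUnit r := isUnit_mul_self_iff.1 (rr ▸ hy.star.mul hy)
  obtain ⟨u, hu⟩ := ru
  have uM : (↑u⁻¹ : H →L[ℂ] H) ∈ M := mem_of_comm M fun z hz =>
    Commute.units_inv_right (by rw [hu]; exact (comm_of_mem M rM hz).symm)
  have us : star (↑u⁻¹ : H →L[ℂ] H) = ↑u⁻¹ := by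
    have : star (↑u⁻¹ : H →L[ℂ] H) * u = 1 := by
      have := congrArg star u.mul_inv
      rwa [star_mul, hu, rs.star_eq, star_one, ← hu] at this
    exact Units.eq_inv_of_mul_eq_one_right this
  have w1 : star (y * ↑u⁻¹) * (y * ↑u⁻¹) = 1 := by
    rw [star_mul, us, mul_assoc, ← mul_assoc (star y), ← rr, ← hu, mul_assoc, u.mul_inv, mul_one,
      u.inv_mul]
  have wu : y * ↑u⁻¹ ∈ unitary (H →L[ℂ] H) :=
    (hy.mul u⁻¹.isUnit).mem_unitary_of_star_mul_self w1
  have nr : ‖r‖ ≤ 1 := by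
    have a1 := CStarRing.norm_star_mul_self (x := r)
    rw [rs.star_eq, rr, CStarRing.norm_star_mul_self] at a1
    nlinarith [norm_nonneg r, norm_nonneg y]
  have := SS_mul M (UU_sub M ⟨mul_mem yM uM, wu⟩) (sa_SS M hM rM rs nr)
  rwa [← hu, mul_assoc, u.inv_mul, mul_one] at this

theorem uni_norm {u : H →L[ℂ] H} (hu : u ∈ unitary (H →L[ℂ] H)) : ‖u‖ ≤ 1 := by
  have a1 := CStarRing.norm_star_mul_self (x := u)
  rw [(Unitary.mem_iff.1 hu).1] at a1
  have : ‖(1 : H →L[ℂ] H)‖ ≤ 1 := ContinuousLinearMap.norm_id_le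
  nlinarith [norm_nonneg u]

theorem ball_SS (hM : NoFD M) {x : H →L[ℂ] H} (xM : x ∈ M) (h : ‖x‖ ≤ 1) : x ∈ SS M := by
  have key : ∀ x ∈ M, ‖x‖ < 1 → x ∈ SS M := by
    intro x xM h
    have step : ∀ y ∈ SS M, (1 / 2 : ℂ) • (x + y) ∈ SS M := by
      intro y hy
      refine SS_map M (fun f => (1 / 2 : ℂ) • (Φ x + f)) (by fun_prop)
        (fun y => (1 / 2 : ℂ) • (x + y)) (fun y => ?_) (fun u hu => ?_) hy
      · funext p; simp [Φ, mul_add]
      · refine inv_SS M hM (smul_mem' M _ (add_mem xM hu.1)) ?_ ?_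
        · have e : (1 / 2 : ℂ) • (x + u) = ((1 / 2 : ℂ) • u) * (1 - -(star u * x)) := by
            rw [smul_mul_assoc, sub_neg_eq_add, mul_add, ← mul_assoc, (Unitary.mem_iff.1 hu.2).2,
              mul_one, one_mul, add_comm]
          rw [e]
          refine IsUnit.mul (IsUnit.smul (Units.mk0 (1 / 2 : ℂ) (by norm_num))
            (Unitary.isUnit_coe (U := ⟨u, hu.2⟩))) (isUnit_one_sub_of_norm_lt_one ?_)
          rw [norm_neg]
          refine (norm_mul_le _ _).trans_lt ?_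
          rw [norm_star]
          nlinarith [uni_norm hu.2, norm_nonneg x, norm_nonneg u]
        · rw [norm_smul]
          have := norm_add_le x u
          have := uni_norm hu.2
          simp; linarith
    refine SS_lim M (C := ‖1 - x‖) fun n => ?_
    induction n with
    | zero => exact ⟨1, UU_sub M ⟨one_mem _, one_mem _⟩, by simp⟩
    | succ n ih =>
      obtain ⟨y, hy, hy'⟩ := ih
      refine ⟨_, step y hy, ?_⟩
      have : (1 / 2 : ℂ) • (x + y) - x = (1 / 2 : ℂ) • (y - x) := by module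
      rw [this, norm_smul, pow_succ, ← div_div]
      simp; linarith
  refine SS_lim M (C := 1) fun n => ⟨((1 - 1 / 2 ^ n : ℝ) : ℂ) • x, key _ (smul_mem' M _ xM) ?_, ?_⟩
  · have h1 : (0 : ℝ) < 1 / 2 ^ n := by positivity
    have h2 : (1 : ℝ) / 2 ^ n ≤ 1 := by
      rw [div_le_one (by positivity)]; exact one_le_pow₀ one_le_two
    rw [norm_smul, Complex.norm_real, Real.norm_of_nonneg (by linarith)]
    nlinarith [norm_nonneg x]
  · have : ((1 - 1 / 2 ^ n : ℝ) : ℂ) • x - x = -(((1 / 2 ^ n : ℝ) : ℂ) • x) := by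
      push_cast; module
    rw [this, norm_neg, norm_smul, Complex.norm_real, Real.norm_of_nonneg (by positivity)]
    exact mul_le_of_le_one_right (by positivity) h

end Pool.Agent.H86.Wu
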