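import Pool.Agent.H86.WuE
import Pool.Agent.H86.WuDefs

set_option linter.unusedSectionVars false
set_option linter.deprecated false

namespace Pool.Agent.H86.Wu
open Filter Topology Finset
open scoped InnerProductSpace

variable {H : Type*} [NormedAddCommGroup H] [InnerProductSpace ℂ H] [CompleteSpace H]
variable (M : VonNeumannAlgebra H)

theorem ind : IsInducing (fun x : Ball M => Φ x.1) := ⟨rfl⟩

theorem Φ_inj {x y : H →L[ℂ] H} (h : Φ x = Φ y) : x = y := by
  ext η
  exact ext_inner_left ℂ fun ξ => congrFun h (ξ, η)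

theorem coord (ξ η : H) : Continuous fun x : Ball M => ⟪ξ, x.1 η⟫_ℂ :=
  (continuous_apply (ξ, η)).comp (ind M).continuous

instance : T2Space (Ball M) :=
  (IsEmbedding.mk (ind M) fun x y h => Subtype.ext (Φ_inj h)).t2Space

theorem range_eq : Set.range (fun x : Ball M => Φ x.1) = {f : H × H → ℂ |
    (∀ ξ η η', f (ξ, η + η') = f (ξ, η) + f (ξ, η')) ∧ (∀ ξ η (c : ℂ), f (ξ, c • η) = c * f (ξ, η)) ∧
    (∀ ξ ξ' η, f (ξ + ξ', η) = f (ξ, η) + f (ξ', η)) ∧
    (∀ ξ η (c : ℂ), f (c • ξ, η) = starRingEnd ℂ c * f (ξ, η)) ∧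
    (∀ p, ‖f p‖ ≤ ‖p.1‖ * ‖p.2‖) ∧ ∀ y ∈ M.commutant, ∀ ξ η, f (star y ξ, η) = f (ξ, y η)} := by
  ext f
  constructor
  · rintro ⟨x, rfl⟩
    refine ⟨fun _ _ _ => by simp [Φ], fun _ _ _ => by simp [Φ],
      fun _ _ _ => by simp [Φ], fun _ _ _ => by simp [Φ, mul_comm],
      fun p => (norm_inner_le_norm _ _).trans (mul_le_mul_of_nonneg_left ((x.1.le_opNorm _).trans
        (mul_le_of_le_one_left (norm_nonneg _) x.2.2)) (norm_nonneg _)), fun y hy ξ η => ?_⟩
    simp only [Φ, ssym]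
    exact congrArg (fun T : H →L[ℂ] H => ⟪ξ, T η⟫_ℂ) (comm_of_mem M x.2.1 hy).eq.symm
  · rintro ⟨h1, h2, h3, h4, h5, h6⟩
    let B : H →ₗ⋆[ℂ] H →ₗ[ℂ] ℂ := LinearMap.mk₂'ₛₗ (starRingEnd ℂ) (RingHom.id ℂ)
      (fun ξ η => f (ξ, η)) h3 (fun c ξ η => h4 ξ η c) h1 (fun c ξ η => h2 ξ η c)
    let B' := B.mkContinuous₂ 1 (fun ξ η => by simpa [B] using h5 (ξ, η))
    set x := star (InnerProductSpace.continuousLinearMapOfBilin B') with hx
    have e : ∀ ξ η, ⟪ξ, x η⟫_ℂ = f (ξ, η) := by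
      intro ξ η
      rw [hx, ← ssym', InnerProductSpace.continuousLinearMapOfBilin_apply]; rfl
    refine ⟨⟨x, mem_of_comm M fun y hy => ?_, ?_⟩, funext fun p => e _ _⟩
    · ext η
      refine ext_inner_left ℂ fun ξ => ?_
      change ⟪ξ, y (x η)⟫_ℂ = ⟪ξ, x (y η)⟫_ℂ
      rw [← ssym, e, e, h6 y hy]
    · refine ContinuousLinearMap.opNorm_le_bound _ zero_le_one fun η => ?_
      have := h5 (x η, η)
      rw [← e, inner_self_eq_norm_sq_to_K] at this
      simp only [norm_pow, Complex.coe_algebraMap, Complex.norm_real, norm_norm] at this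
      rcases eq_or_lt_of_le (norm_nonneg (x η)) with h | h
      · rw [← h]; positivity
      · nlinarith

instance : CompactSpace (Ball M) := by
  refine ⟨(ind M).isCompact_iff.2 ?_⟩
  rw [Set.image_univ, range_eq]
  refine (isCompact_univ_pi fun p : H × H =>
    isCompact_closedBall (0 : ℂ) (‖p.1‖ * ‖p.2‖)).of_isClosed_subset ?_
    (fun f hf p _ => by simpa using hf.2.2.2.2.1 p)
  simp only [Set.setOf_and, Set.setOf_forall]
  refine IsClosed.inter ?_ (IsClosed.inter ?_ (IsClosed.inter ?_ (IsClosed.inter ?_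
    (IsClosed.inter ?_ ?_))))
  all_goals
    repeat (refine isClosed_iInter fun _ => ?_)
    first
      | exact isClosed_eq (by fun_prop) (by fun_prop)
      | exact isClosed_le (by fun_prop) (by fun_prop)

def Sep (S : Set H) : Prop := ∀ a ∈ M, (∀ η ∈ S, a η = 0) → a = 0

theorem sf_of_sep {S : Set H} (hS : S.Countable) (h : Sep M S) : SigmaFin M := by
  classical
  intro P P1 P2
  have h1 : ∀ (η : H) (n : ℕ), {r ∈ P | ‖η‖ ^ 2 / (n + 1) < ‖r η‖ ^ 2}.Finite := by
    intro η n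
    by_contra hinf
    obtain ⟨T, hT, hc⟩ := Set.Infinite.exists_subset_card_eq hinf (n + 1)
    obtain ⟨o1, o2⟩ := osum {η} (fun r => r) T (fun r hr => (P1 r (hT hr).1).2.1)
      (fun a ha b hb hab => P2 (hT ha).1 (hT hb).1 hab)
    have a1 := ψ_le {η} o1
    rw [o2] at a1
    simp only [ψ, sum_singleton, ContinuousLinearMap.one_apply] at a1
    have a2 := sum_lt_sum_of_nonempty (s := T) (card_pos.1 (by omega))
      (fun r hr => (hT hr).2)
    rw [sum_const, hc, nsmul_eq_mul] at a2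
    push_cast at a2
    rw [mul_div_cancel₀ _ (by positivity)] at a2
    linarith
  refine (hS.biUnion fun η _ => Set.countable_iUnion fun n => (h1 η n).countable).mono fun r hr => ?_
  obtain ⟨η, hη, h0⟩ : ∃ η ∈ S, r η ≠ 0 := by
    by_contra hc; push Not at hc; exact (P1 r hr).2.2 (h r (P1 r hr).1 hc)
  have h2 : 0 < ‖r η‖ ^ 2 := by positivity
  obtain ⟨n, hn⟩ := exists_nat_gt (‖η‖ ^ 2 / ‖r η‖ ^ 2)
  simp only [Set.mem_iUnion]
  refine ⟨η, hη, n, hr, ?_⟩
  rw [div_lt_iff₀ h2] at hn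
  rw [div_lt_iff₀ (by positivity)]
  nlinarith

theorem sep_of_sf (h : SigmaFin M) : ∃ S : Set H, S.Countable ∧ Sep M S := by
  obtain ⟨P, P1, P2, P3⟩ := exhaust M (fun r => ∃ ξ, ∀ a ∈ M, a ξ = 0 → a * r = 0) (one_mem _)
    (IsStarProjection.one _) (by
      intro q qM hq q0
      obtain ⟨ζ, hζ⟩ : ∃ ζ, q ζ ≠ 0 := by
        by_contra hc; push Not at hc; exact q0 (by ext ζ; simpa using hc ζ)
      set K := Submodule.span ℂ {v | ∃ y ∈ M.commutant, v = y (q ζ)} with hK
      obtain ⟨e, eM, he, e1, e2⟩ := exProj M K (by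
        intro y hy ξ hξ
        refine (Submodule.span_le (p := K.comap (y : H →ₗ[ℂ] H))).2 ?_ hξ
        rintro _ ⟨z, hz, rfl⟩
        exact Submodule.subset_span ⟨y * z, mul_mem hy hz, rfl⟩)
      have kill : ∀ a ∈ M, a (q ζ) = 0 → a * e = 0 := by
        intro a ha h0
        ext ξ
        have : K.topologicalClosure ≤ LinearMap.ker (a : H →ₗ[ℂ] H) := by
          refine Submodule.topologicalClosure_minimal _ (Submodule.span_le.2 ?_) a.isClosed_ker
          rintro _ ⟨z, hz, rfl⟩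
          change (a * z) (q ζ) = 0
          rw [(comm_of_mem M ha hz).eq]
          change z (a (q ζ)) = 0
          rw [h0, map_zero]
        exact this (e1 ξ)
      refine ⟨e, eM, he, ?_, ?_, q ζ, kill⟩
      · rintro rfl
        exact hζ (e2 _ (Submodule.le_topologicalClosure _
          (Submodule.subset_span ⟨1, one_mem _, rfl⟩))).symm
      · have := kill (1 - q) (sub_mem (one_mem _) qM) (by
          change ((1 - q) * q) ζ = 0
          rw [sub_mul, one_mul, hq.isIdempotentElem.eq, sub_self]; rfl)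
        rw [sub_mul, one_mul, sub_eq_zero] at this
        exact this.symm)
  have hP := h P (fun r hr => ⟨(P1 r hr).1, (P1 r hr).2.1, (P1 r hr).2.2.1⟩) P2
  choose! ξ hξ using fun r hr => (P1 r hr).2.2.2.2
  refine ⟨ξ '' P, hP.image _, fun a ha h0 => ?_⟩
  ext η
  have : (⨆ r ∈ P, LinearMap.range (r : H →ₗ[ℂ] H)).topologicalClosure ≤
      LinearMap.ker (a : H →ₗ[ℂ] H) := by
    refine Submodule.topologicalClosure_minimal _ (iSup₂_le fun r hr => ?_) a.isClosed_ker
    rintro _ ⟨ζ, rfl⟩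
    exact congrArg (fun T : H →L[ℂ] H => T ζ) (hξ r hr a ha (h0 _ ⟨r, hr, rfl⟩))
  exact this (P3 η)

theorem exdual (v : H) : ∃ ζ : H, ‖ζ‖ ≤ 1 ∧ ‖⟪ζ, v⟫_ℂ‖ = ‖v‖ := by
  rcases eq_or_ne v 0 with rfl | h
  · exact ⟨0, by simp, by simp⟩
  · have h0 : ‖v‖ ≠ 0 := norm_ne_zero_iff.2 h
    refine ⟨((‖v‖⁻¹ : ℝ) : ℂ) • v, by rw [norm_smul]; simp [h0], ?_⟩
    rw [inner_smul_left, inner_self_eq_norm_sq_to_K]
    simp [sq, h0]

theorem iso_vec {x : H →L[ℂ] H} (hx : ‖x‖ ≤ 1) {η : H} (h : ‖η‖ ≤ ‖x η‖) :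
    (1 - star x * x) η = 0 := by
  have a1 : ‖star x (x η)‖ ≤ ‖η‖ := by
    refine ((star x).le_opNorm _).trans ?_
    rw [norm_star]
    have := x.le_opNorm η
    nlinarith [norm_nonneg x, norm_nonneg η, norm_nonneg (x η)]
  have a2 := norm_sub_sq (𝕜 := ℂ) η (star x (x η))
  rw [← ssym', inner_self_eq_norm_sq] at a2
  change η - star x (x η) = 0
  rw [← norm_eq_zero, ← sq_eq_zero_iff]
  nlinarith [norm_nonneg η, norm_nonneg (star x (x η)), sq_nonneg ‖η - star x (x η)‖]

theorem dense_U (hM : NoFD M) : Dense {x : Ball M | x.1 ∈ unitary (H →L[ℂ] H)} := by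
  rw [(ind M).dense_iff]
  intro x
  refine closure_mono ?_ (ball_SS M hM x.2.1 x.2.2)
  rintro _ ⟨u, hu, rfl⟩
  exact ⟨⟨u, hu.1, uni_norm hu.2⟩, hu.2, rfl⟩

theorem res_iso (hM : NoFD M) (σ : (H →L[ℂ] H) → (H →L[ℂ] H))
    (h1 : ∀ ζ η, Continuous fun x : Ball M => ‖⟪ζ, σ x.1 η⟫_ℂ‖)
    (h2 : ∀ u ∈ unitary (H →L[ℂ] H), σ u ∈ unitary (H →L[ℂ] H)) (η : H) :
    {x : Ball M | ‖η‖ ≤ ‖σ x.1 η‖} ∈ residual (Ball M) := by
  have : ∀ n : ℕ, {x : Ball M | ∃ ζ : H, ‖ζ‖ ≤ 1 ∧ ‖η‖ - 1 / (n + 1) < ‖⟪ζ, σ x.1 η⟫_ℂ‖} ∈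
      residual (Ball M) := by
    intro n
    refine residual_of_dense_open ?_ ((dense_U M hM).mono fun u hu => ?_)
    · simp only [Set.setOf_exists, Set.setOf_and]
      exact isOpen_iUnion fun ζ => isOpen_const.inter (isOpen_lt continuous_const (h1 ζ η))
    · obtain ⟨ζ, a, b⟩ := exdual (σ u.1 η)
      refine ⟨ζ, a, ?_⟩
      rw [b, ContinuousLinearMap.norm_map_of_mem_unitary (h2 _ hu)]
      have : (0 : ℝ) < 1 / (n + 1) := by positivity
      linarith
  filter_upwards [countable_iInter_mem.2 this] with x hx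
  refine le_of_forall_pos_le_add fun ε hε => ?_
  obtain ⟨n, hn⟩ := exists_nat_one_div_lt hε
  obtain ⟨ζ, a, b⟩ := Set.mem_iInter.1 hx n
  have := (norm_inner_le_norm (𝕜 := ℂ) ζ (σ x.1 η)).trans
    (mul_le_of_le_one_left (norm_nonneg _) a)
  linarith

theorem main : PropR M ↔ SigmaFin M ∧ NoFinDimSummand M := by
  have e0 : PropR M ↔ {x : Ball M | x.1 ∈ unitary (H →L[ℂ] H)} ∈ residual (Ball M) := by
    simp [PropR, IsMeagre, Set.compl_setOf]
  rw [e0]
  constructor
  · intro hR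
    haveI : Nonempty (Ball M) := ⟨⟨0, zero_mem _, by simp⟩⟩
    constructor
    · obtain ⟨t, ht, ⟨T, hT1, hT2, rfl⟩, hd⟩ := mem_residual.1 hR
      obtain ⟨u, hu⟩ := hd.nonempty
      have h1 : ∀ O ∈ T, ∃ I : Set (H × H), I.Finite ∧
          ∀ x : Ball M, (∀ p ∈ I, Φ x.1 p = Φ u.1 p) → x ∈ O := by
        intro O hO
        have := (hT1 O hO).mem_nhds (hu O hO)
        rw [(ind M).nhds_eq_comap, mem_comap] at this
        obtain ⟨W, hW, hWO⟩ := this
        rw [nhds_pi, Filter.mem_pi] at hW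
        obtain ⟨I, hI, s, hs, hsW⟩ := hW
        exact ⟨I, hI, fun x hx => hWO (hsW fun p hp => by
          change Φ x.1 p ∈ s p
          rw [hx p hp]; exact mem_of_mem_nhds (hs p))⟩
      choose! I hI hI' using h1
      refine sf_of_sep M (S := ⋃ O ∈ T, Prod.snd '' I O)
        (hT2.biUnion fun O hO => ((hI O hO).image _).countable) fun a ha h0 => ?_
      obtain ⟨e, eM, he, e1, e2⟩ := rangeProj M (star_mem ha)
      have h3 : ∀ η, a η = 0 → e η = 0 := by
        intro η hη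
        have := e2 ((innerSL ℂ η).smulRight η) (by
          ext ξ
          change ⟪η, star a ξ⟫_ℂ • η = 0
          rw [← ssym', hη]; simp)
        have h4 : ⟪η, e (e η)⟫_ℂ • η = 0 := congrArg (fun T : H →L[ℂ] H => T (e η)) this
        rw [← psym he, smul_eq_zero, inner_self_eq_zero] at h4
        rcases h4 with h | h
        · exact h
        · rw [h, map_zero]
      have hu' : u.1 ∈ unitary (H →L[ℂ] H) := ht hu
      have h5 : u.1 * (1 - e) ∈ unitary (H →L[ℂ] H) := by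
        refine ht (a := ⟨u.1 * (1 - e), mul_mem u.2.1 (sub_mem (one_mem _) eM),
          (norm_mul_le _ _).trans (mul_le_one₀ u.2.2 (norm_nonneg _) he.one_sub.norm_le)⟩)
          fun O hO => hI' O hO _ fun p hp => ?_
        have := h3 p.2 (h0 _ (Set.mem_biUnion hO ⟨p, hp, rfl⟩))
        simp [Φ, this]
      have h6 := (Unitary.mem_iff.1 h5).1
      rw [star_mul, mul_assoc, ← mul_assoc (star u.1), (Unitary.mem_iff.1 hu').1, one_mul,
        he.one_sub.isSelfAdjoint.star_eq, he.one_sub.isIdempotentElem.eq, sub_eq_self] at h6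
      rw [h6, zero_mul] at e1
      exact star_eq_zero.1 e1.symm
    · intro z zM hz hc hfd
      by_contra z0
      set V := Submodule.span ℂ {x | ∃ a ∈ M, x = a * z} with hV
      haveI : ProperSpace V := FiniteDimensional.proper ℂ V
      have hK : IsCompact ((fun v : V => Φ v.1) '' Metric.sphere 0 1) :=
        (isCompact_sphere _ _).image (Φ_cont.comp continuous_subtype_val)
      have hg : Continuous fun x : Ball M => Φ (x.1 * z) :=
        continuous_pi fun p => coord M p.1 (z p.2)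
      have nz : ‖z‖ = 1 := by
        have a1 := CStarRing.norm_star_mul_self (x := z)
        rw [hz.isSelfAdjoint.star_eq, hz.isIdempotentElem.eq] at a1
        exact (mul_left_cancel₀ (norm_ne_zero_iff.2 z0) (by rw [mul_one]; exact a1)).symm
      have h1 := closure_minimal (s := {x : Ball M | x.1 ∈ unitary (H →L[ℂ] H)})
        (t := (fun x : Ball M => Φ (x.1 * z)) ⁻¹' ((fun v : V => Φ v.1) '' Metric.sphere 0 1))
        (fun u hu => ⟨⟨u.1 * z, Submodule.subset_span ⟨u.1, u.2.1, rfl⟩⟩, by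
          rw [mem_sphere_zero_iff_norm]
          change ‖u.1 * z‖ = 1
          rw [CStarRing.norm_mem_unitary_mul _ hu, nz], rfl⟩) (hK.isClosed.preimage hg)
        (dense_of_mem_residual hR ⟨0, zero_mem _, by simp⟩)
      obtain ⟨v, hv, hv'⟩ := h1
      have : v.1 = 0 := by simpa using Φ_inj hv'
      rw [mem_sphere_zero_iff_norm] at hv
      change ‖v.1‖ = 1 at hv
      rw [this] at hv
      simp at hv
  · rintro ⟨h1, h2⟩
    obtain ⟨S, hS, hsep⟩ := sep_of_sf M h1
    have a1 := (countable_bInter_mem hS).2 fun η _ => res_iso M h2 id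
      (fun ζ η => (coord M ζ η).norm) (fun u hu => hu) η
    have a2 := (countable_bInter_mem hS).2 fun η _ => res_iso M h2 star
      (fun ζ η => by
        simp only [← ssym', norm_inner_symm _ η]
        exact (coord M η ζ).norm) (fun u hu => Unitary.star_mem hu) η
    filter_upwards [a1, a2] with x b1 b2
    rw [Set.mem_iInter₂] at b1 b2
    have c1 := hsep _ (sub_mem (one_mem _) (mul_mem (star_mem x.2.1) x.2.1))
      fun η hη => iso_vec x.2.2 (b1 η hη)
    have c2 := hsep _ (sub_mem (one_mem _) (mul_mem (star_mem (star_mem x.2.1)) (star_mem x.2.1)))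
      fun η hη => iso_vec (by rw [norm_star]; exact x.2.2) (b2 η hη)
    rw [star_star] at c2
    exact Unitary.mem_iff.2 ⟨(sub_eq_zero.1 c1).symm, (sub_eq_zero.1 c2).symm⟩

end Pool.Agent.H86.Wu
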